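import Mathlib

set_option autoImplicit false
set_option maxHeartbeats 400000

/-! # Sums over tuples of ideals of bounded norm -/

namespace Pool.Agent.Work.MuB

open NumberField Module MeasureTheory Filter Topology
open scoped nonZeroDivisors ENNReal NNReal Real

namespace Tuple

variable {ι : Type*} (N : ι → ℕ)

/-- number of tuples with product at most `t` -/
noncomputable def cnt (m : ℕ) (t : ℝ) : ℝ≥0∞ :=
  ∑' x : Fin m → ι, (if ((∏ j, N (x j) : ℕ) : ℝ) ≤ t then (1 : ℝ≥0∞) else 0)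

theorem cnt_eq_zero {N : ι → ℕ} (hN : ∀ i, 1 ≤ N i) (m : ℕ) {t : ℝ} (ht : t < 1) :
    cnt N m t = 0 := by
  unfold cnt
  rw [ENNReal.tsum_eq_zero]
  intro x
  rw [if_neg]
  intro h
  have h1 : (1 : ℕ) ≤ ∏ j, N (x j) := Finset.one_le_prod' (fun j _ => hN _)
  have h2 : (1 : ℝ) ≤ ((∏ j, N (x j) : ℕ) : ℝ) := by exact_mod_cast h1
  linarith

theorem cnt_succ {N : ι → ℕ} (hN : ∀ i, 1 ≤ N i) (m : ℕ) (t : ℝ) :
    cnt N (m + 1) t = ∑' i, cnt N m (t / N i) := by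
  unfold cnt
  rw [← (Fin.consEquiv (fun _ : Fin (m + 1) => ι)).tsum_eq]
  refine (ENNReal.tsum_prod (f := fun i x =>
    if ((∏ j, N ((Fin.consEquiv (fun _ : Fin (m + 1) => ι)) (i, x) j) : ℕ) : ℝ) ≤ t
      then (1 : ℝ≥0∞) else 0)).trans ?_
  refine tsum_congr (fun i => tsum_congr (fun x => ?_))
  have h1 : (0 : ℝ) < N i := by exact_mod_cast hN i
  have h2 : ((∏ j, N ((Fin.consEquiv (fun _ : Fin (m + 1) => ι)) (i, x) j) : ℕ) : ℝ) =
      N i * ((∏ j, N (x j) : ℕ) : ℝ) := by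
    rw [Fin.prod_univ_succ]
    push_cast
    simp [Fin.consEquiv]
  rw [h2]
  congr 1
  rw [le_div_iff₀ h1, mul_comm, eq_iff_iff]

theorem floor_log_bounds {y : ℝ} (hy : 1 ≤ y) :
    Real.exp ⌊Real.log y⌋₊ ≤ y ∧ y ≤ Real.exp (⌊Real.log y⌋₊ + 1) := by
  have h0 : 0 < y := by linarith
  have h1 : 0 ≤ Real.log y := Real.log_nonneg hy
  constructor
  · calc Real.exp ⌊Real.log y⌋₊ ≤ Real.exp (Real.log y) :=
        Real.exp_le_exp.mpr (Nat.floor_le h1)
      _ = y := Real.exp_log h0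
  · calc y = Real.exp (Real.log y) := (Real.exp_log h0).symm
      _ ≤ Real.exp (⌊Real.log y⌋₊ + 1) := Real.exp_le_exp.mpr (Nat.lt_floor_add_one _).le

/-- the harmonic sum -/
theorem harmonic_le {N : ι → ℕ} (hN : ∀ i, 1 ≤ N i) {C : ℝ} (hC : 0 ≤ C)
    (h : ∀ t : ℝ, 1 ≤ t → ∑' i, (if (N i : ℝ) ≤ t then (1 : ℝ≥0∞) else 0) ≤ ENNReal.ofReal (C * t))
    {t : ℝ} (ht : 1 ≤ t) :
    ∑' i, (if (N i : ℝ) ≤ t then ENNReal.ofReal ((N i : ℝ)⁻¹) else 0) ≤
      ENNReal.ofReal (C * Real.exp 1 * (1 + Real.log t)) := by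
  set J := ⌊Real.log t⌋₊ with hJ
  have hlt : 0 ≤ Real.log t := Real.log_nonneg ht
  have h1 : ∀ i, (if (N i : ℝ) ≤ t then ENNReal.ofReal ((N i : ℝ)⁻¹) else 0) ≤
      ∑ j ∈ Finset.range (J + 1), ENNReal.ofReal (Real.exp (-(j : ℝ))) *
        (if (N i : ℝ) ≤ Real.exp (j + 1) then (1 : ℝ≥0∞) else 0) := by
    intro i
    split_ifs with hi
    · have hi1 : (1 : ℝ) ≤ N i := by exact_mod_cast hN i
      obtain ⟨h2, h3⟩ := floor_log_bounds hi1
      have h4 : ⌊Real.log (N i : ℝ)⌋₊ ∈ Finset.range (J + 1) := by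
        rw [Finset.mem_range, Nat.lt_succ_iff]
        exact Nat.floor_le_floor (Real.log_le_log (by linarith) hi)
      refine le_trans ?_ (Finset.single_le_sum (f := fun j : ℕ =>
        ENNReal.ofReal (Real.exp (-(j : ℝ))) *
        (if (N i : ℝ) ≤ Real.exp (j + 1) then (1 : ℝ≥0∞) else 0)) (fun _ _ => bot_le) h4)
      rw [if_pos h3, mul_one]
      apply ENNReal.ofReal_le_ofReal
      rw [Real.exp_neg]
      exact inv_anti₀ (Real.exp_pos _) h2
    · exact bot_le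
  calc ∑' i, (if (N i : ℝ) ≤ t then ENNReal.ofReal ((N i : ℝ)⁻¹) else 0)
      ≤ ∑' i, ∑ j ∈ Finset.range (J + 1), ENNReal.ofReal (Real.exp (-(j : ℝ))) *
        (if (N i : ℝ) ≤ Real.exp (j + 1) then (1 : ℝ≥0∞) else 0) := ENNReal.tsum_le_tsum h1
    _ = ∑ j ∈ Finset.range (J + 1), ∑' i, ENNReal.ofReal (Real.exp (-(j : ℝ))) *
        (if (N i : ℝ) ≤ Real.exp (j + 1) then (1 : ℝ≥0∞) else 0) :=
        Summable.tsum_finsetSum (fun _ _ => ENNReal.summable)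
    _ ≤ ∑ j ∈ Finset.range (J + 1), ENNReal.ofReal (C * Real.exp 1) := by
        refine Finset.sum_le_sum (fun j _ => ?_)
        rw [ENNReal.tsum_mul_left]
        refine (mul_le_mul_right (h (Real.exp (j + 1))
          (Real.one_le_exp (by positivity))) _).trans ?_
        rw [← ENNReal.ofReal_mul (Real.exp_pos _).le]
        apply ENNReal.ofReal_le_ofReal
        apply le_of_eq
        rw [Real.exp_add, Real.exp_neg]
        field_simp
    _ = ENNReal.ofReal ((J + 1 : ℕ) * (C * Real.exp 1)) := by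
        rw [Finset.sum_const, Finset.card_range, nsmul_eq_mul,
          ENNReal.ofReal_mul (Nat.cast_nonneg _), ENNReal.ofReal_natCast]
    _ ≤ ENNReal.ofReal (C * Real.exp 1 * (1 + Real.log t)) := by
        apply ENNReal.ofReal_le_ofReal
        have h2 : ((J + 1 : ℕ) : ℝ) ≤ 1 + Real.log t := by
          push_cast
          have := Nat.floor_le hlt
          rw [← hJ] at this
          linarith
        calc ((J + 1 : ℕ) : ℝ) * (C * Real.exp 1) ≤ (1 + Real.log t) * (C * Real.exp 1) :=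
              mul_le_mul_of_nonneg_right h2 (by positivity)
          _ = _ := by ring

theorem cnt_le {N : ι → ℕ} (hN : ∀ i, 1 ≤ N i)
    (h : ∃ C : ℝ, 0 ≤ C ∧ ∀ t : ℝ, 1 ≤ t →
      ∑' i, (if (N i : ℝ) ≤ t then (1 : ℝ≥0∞) else 0) ≤ ENNReal.ofReal (C * t)) (m : ℕ) :
    ∃ C : ℝ, 0 ≤ C ∧ ∀ M : ℝ, 1 ≤ M → ∀ s : ℝ, s ≤ M →
      cnt N (m + 1) s ≤ ENNReal.ofReal (C * s * (1 + Real.log M) ^ m) := by
  obtain ⟨C₀, hC₀, h0⟩ := h
  induction m with
  | zero =>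
    refine ⟨C₀, hC₀, fun M hM s hs => ?_⟩
    rcases lt_or_ge s 1 with hs1 | hs1
    · rw [cnt_eq_zero hN _ hs1]
      exact bot_le
    · have h1 : cnt N (0 + 1) s = ∑' i, (if (N i : ℝ) ≤ s then (1 : ℝ≥0∞) else 0) := by
        unfold cnt
        rw [← (Equiv.funUnique (Fin 1) ι).symm.tsum_eq]
        refine tsum_congr (fun i => ?_)
        simp
      rw [h1, pow_zero, mul_one]
      exact h0 s hs1
  | succ m ih =>
    obtain ⟨C, hC, h1⟩ := ih
    refine ⟨C * (C₀ * Real.exp 1), by positivity, fun M hM s hs => ?_⟩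
    rcases lt_or_ge s 1 with hs1 | hs1
    · rw [cnt_eq_zero hN _ hs1]
      exact bot_le
    have hlM : 0 ≤ Real.log M := Real.log_nonneg hM
    rw [cnt_succ hN]
    have h2 : ∀ i, cnt N (m + 1) (s / N i) ≤ ENNReal.ofReal (C * s * (1 + Real.log M) ^ m) *
        (if (N i : ℝ) ≤ s then ENNReal.ofReal ((N i : ℝ)⁻¹) else 0) := by
      intro i
      have hi1 : (1 : ℝ) ≤ N i := by exact_mod_cast hN i
      have hi0 : (0 : ℝ) < N i := by linarith
      split_ifs with hi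
      · refine (h1 M hM (s / N i) ((div_le_self (by linarith) hi1).trans hs)).trans ?_
        rw [← ENNReal.ofReal_mul (by positivity)]
        apply ENNReal.ofReal_le_ofReal
        apply le_of_eq
        rw [div_eq_mul_inv]
        ring
      · rw [cnt_eq_zero hN, mul_zero]
        rw [div_lt_one hi0]
        exact not_le.mp hi
    calc ∑' i, cnt N (m + 1) (s / N i)
        ≤ ∑' i, ENNReal.ofReal (C * s * (1 + Real.log M) ^ m) *
          (if (N i : ℝ) ≤ s then ENNReal.ofReal ((N i : ℝ)⁻¹) else 0) := ENNReal.tsum_le_tsum h2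
      _ = ENNReal.ofReal (C * s * (1 + Real.log M) ^ m) *
          ∑' i, (if (N i : ℝ) ≤ s then ENNReal.ofReal ((N i : ℝ)⁻¹) else 0) :=
          ENNReal.tsum_mul_left
      _ ≤ ENNReal.ofReal (C * s * (1 + Real.log M) ^ m) *
          ENNReal.ofReal (C₀ * Real.exp 1 * (1 + Real.log s)) :=
          mul_le_mul_right (harmonic_le hN hC₀ h0 hs1) _
      _ ≤ ENNReal.ofReal (C * s * (1 + Real.log M) ^ m) *
          ENNReal.ofReal (C₀ * Real.exp 1 * (1 + Real.log M)) := by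
          refine mul_le_mul_right (ENNReal.ofReal_le_ofReal ?_) _
          have := Real.log_le_log (by linarith) hs
          gcongr
      _ = ENNReal.ofReal (C * (C₀ * Real.exp 1) * s * (1 + Real.log M) ^ (m + 1)) := by
          rw [← ENNReal.ofReal_mul (by positivity)]
          congr 1
          ring

/-- the sum of powers of logarithms -/
theorem tsum_log_le {N : ι → ℕ} (hN : ∀ i, 1 ≤ N i)
    (h : ∃ C : ℝ, 0 ≤ C ∧ ∀ t : ℝ, 1 ≤ t →
      ∑' i, (if (N i : ℝ) ≤ t then (1 : ℝ≥0∞) else 0) ≤ ENNReal.ofReal (C * t)) (m r : ℕ)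
    (hr : 1 ≤ r) :
    ∃ C : ℝ, 0 ≤ C ∧ ∀ M : ℝ, 1 ≤ M →
      ∑' x : Fin (m + 1) → ι, ENNReal.ofReal (Real.log (M / ((∏ j, N (x j) : ℕ) : ℝ))) ^ r ≤
      ENNReal.ofReal (C * M * (1 + Real.log M) ^ m) := by
  obtain ⟨C, hC, h1⟩ := cnt_le hN h m
  have hsum : Summable (fun j : ℕ => ((j : ℝ) + 1) ^ r * Real.exp (-(j : ℝ))) := by
    have h2 := Real.summable_pow_mul_exp_neg_nat_mul r (r := 1) one_pos
    have h3 := (summable_nat_add_iff 1).mpr h2
    refine (h3.mul_left (Real.exp 1)).congr (fun j => ?_)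
    push_cast
    rw [mul_left_comm, ← Real.exp_add]
    congr 2
    ring
  refine ⟨(∑' j : ℕ, ((j : ℝ) + 1) ^ r * Real.exp (-(j : ℝ))) * C, ?_, fun M hM => ?_⟩
  · exact mul_nonneg (tsum_nonneg (fun j => by positivity)) hC
  have hlM : 0 ≤ Real.log M := Real.log_nonneg hM
  have h2 : ∀ x : Fin (m + 1) → ι,
      ENNReal.ofReal (Real.log (M / ((∏ j, N (x j) : ℕ) : ℝ))) ^ r ≤
      ∑' j : ℕ, ENNReal.ofReal (((j : ℝ) + 1) ^ r) *
        (if ((∏ j, N (x j) : ℕ) : ℝ) ≤ M * Real.exp (-(j : ℝ)) then (1 : ℝ≥0∞) else 0) := by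
    intro x
    have h3 : (1 : ℕ) ≤ ∏ j, N (x j) := Finset.one_le_prod' (fun j _ => hN _)
    set n := ∏ j, N (x j) with hn
    have h4 : (1 : ℝ) ≤ (n : ℝ) := by exact_mod_cast h3
    have h5 : (0 : ℝ) < (n : ℝ) := by linarith
    rcases lt_or_ge (M / n) 1 with h6 | h6
    · have h7 : Real.log (M / n) ≤ 0 := Real.log_nonpos (by positivity) h6.le
      rw [ENNReal.ofReal_of_nonpos h7, zero_pow (by omega)]
      exact bot_le
    · obtain ⟨h7, h8⟩ := floor_log_bounds h6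
      refine le_trans ?_ (ENNReal.le_tsum ⌊Real.log (M / n)⌋₊)
      rw [if_pos, mul_one, ← ENNReal.ofReal_pow (Real.log_nonneg h6)]
      · apply ENNReal.ofReal_le_ofReal
        exact pow_le_pow_left₀ (Real.log_nonneg h6) (Nat.lt_floor_add_one _).le r
      · rw [Real.exp_neg, ← div_eq_mul_inv, le_div_iff₀ (Real.exp_pos _)]
        rw [le_div_iff₀ h5] at h7
        linarith [mul_comm (n : ℝ) (Real.exp ⌊Real.log (M / n)⌋₊)]
  calc ∑' x : Fin (m + 1) → ι, ENNReal.ofReal (Real.log (M / ((∏ j, N (x j) : ℕ) : ℝ))) ^ r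
      ≤ ∑' x : Fin (m + 1) → ι, ∑' j : ℕ, ENNReal.ofReal (((j : ℝ) + 1) ^ r) *
        (if ((∏ j, N (x j) : ℕ) : ℝ) ≤ M * Real.exp (-(j : ℝ)) then (1 : ℝ≥0∞) else 0) :=
        ENNReal.tsum_le_tsum h2
    _ = ∑' j : ℕ, ENNReal.ofReal (((j : ℝ) + 1) ^ r) * cnt N (m + 1) (M * Real.exp (-(j : ℝ))) := by
        rw [ENNReal.tsum_comm]
        refine tsum_congr (fun j => ?_)
        rw [ENNReal.tsum_mul_left]
        rfl
    _ ≤ ∑' j : ℕ, ENNReal.ofReal (((j : ℝ) + 1) ^ r * Real.exp (-(j : ℝ)) *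
        (C * M * (1 + Real.log M) ^ m)) := by
        refine ENNReal.tsum_le_tsum (fun j => ?_)
        have h3 : M * Real.exp (-(j : ℝ)) ≤ M := by
          have : Real.exp (-(j : ℝ)) ≤ 1 := Real.exp_le_one_iff.mpr (by simp)
          calc M * Real.exp (-(j : ℝ)) ≤ M * 1 := mul_le_mul_of_nonneg_left this (by linarith)
            _ = M := mul_one M
        refine (mul_le_mul_right (h1 M hM _ h3) _).trans ?_
        rw [← ENNReal.ofReal_mul (by positivity)]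
        apply ENNReal.ofReal_le_ofReal
        apply le_of_eq
        ring
    _ = ENNReal.ofReal (∑' j : ℕ, ((j : ℝ) + 1) ^ r * Real.exp (-(j : ℝ)) *
        (C * M * (1 + Real.log M) ^ m)) := by
        rw [ENNReal.ofReal_tsum_of_nonneg (fun j => by positivity) (hsum.mul_right _)]
    _ = _ := by
        rw [tsum_mul_right]
        congr 1
        ring

end Tuple

section

variable (k : Type*) [Field k] [NumberField k]

/-- the number of ideals of norm at most `t` is at most `C t` -/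
theorem ideal_count_le : ∃ C : ℝ, 0 ≤ C ∧ ∀ t : ℝ, 1 ≤ t →
    ∑' I : (Ideal (𝓞 k))⁰, (if (Ideal.absNorm (I : Ideal (𝓞 k)) : ℝ) ≤ t then (1 : ℝ≥0∞) else 0) ≤
      ENNReal.ofReal (C * t) := by
  have hfin : ∀ t : ℝ, 0 ≤ t → Finite {I : (Ideal (𝓞 k))⁰ // (Ideal.absNorm (I : Ideal (𝓞 k)) : ℝ) ≤ t} := by
    intro t ht
    simp_rw [← Nat.le_floor_iff ht]
    exact Ideal.finite_setOfPred_absNorm_le₀ ⌊t⌋₊
  have hcard : ∀ t : ℝ, 0 ≤ t →
      ∑' I : (Ideal (𝓞 k))⁰, (if (Ideal.absNorm (I : Ideal (𝓞 k)) : ℝ) ≤ t then (1 : ℝ≥0∞) else 0) =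
      ENNReal.ofReal (Nat.card {I : (Ideal (𝓞 k))⁰ // (Ideal.absNorm (I : Ideal (𝓞 k)) : ℝ) ≤ t} : ℝ) := by
    intro t ht
    have := hfin t ht
    have := Fintype.ofFinite {I : (Ideal (𝓞 k))⁰ // (Ideal.absNorm (I : Ideal (𝓞 k)) : ℝ) ≤ t}
    have h1 : ∑' I : (Ideal (𝓞 k))⁰,
        (if (Ideal.absNorm (I : Ideal (𝓞 k)) : ℝ) ≤ t then (1 : ℝ≥0∞) else 0) =
        ∑' I : {I : (Ideal (𝓞 k))⁰ | (Ideal.absNorm (I : Ideal (𝓞 k)) : ℝ) ≤ t}, (1 : ℝ≥0∞) := by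
      rw [tsum_subtype {I : (Ideal (𝓞 k))⁰ | (Ideal.absNorm (I : Ideal (𝓞 k)) : ℝ) ≤ t}
        (fun _ => (1 : ℝ≥0∞))]
      refine tsum_congr (fun I => ?_)
      rw [Set.indicator_apply]
      rfl
    rw [h1]
    have h2 : ∑' I : {I : (Ideal (𝓞 k))⁰ // (Ideal.absNorm (I : Ideal (𝓞 k)) : ℝ) ≤ t}, (1 : ℝ≥0∞) =
        ENNReal.ofReal (Nat.card {I : (Ideal (𝓞 k))⁰ //
          (Ideal.absNorm (I : Ideal (𝓞 k)) : ℝ) ≤ t} : ℝ) := by
      rw [tsum_fintype, Finset.sum_const, nsmul_eq_mul, mul_one, ENNReal.ofReal_natCast,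
        Nat.card_eq_fintype_card, Finset.card_univ]
    exact h2
  have h1 := Ideal.tendsto_norm_le_div_atTop₀ k
  obtain ⟨L, hL⟩ : ∃ L : ℝ, L = (2 ^ InfinitePlace.nrRealPlaces k *
    (2 * π) ^ InfinitePlace.nrComplexPlaces k * Units.regulator k * classNumber k) /
            (Units.torsionOrder k * Real.sqrt |discr k|) := ⟨_, rfl⟩
  rw [← hL] at h1
  have h2 := h1.eventually (eventually_le_nhds (show L < L + 1 by linarith))
  obtain ⟨T, hT⟩ := (h2.and (eventually_ge_atTop 1)).exists_forall_of_atTop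
  obtain ⟨hT1, hT2⟩ := hT T le_rfl
  have hL0 : 0 ≤ L + 1 := le_trans (by positivity) hT1
  refine ⟨(L + 1) * T, by positivity, fun t ht => ?_⟩
  rw [hcard t (by linarith)]
  apply ENNReal.ofReal_le_ofReal
  rcases le_total T t with h3 | h3
  · have h4 := (hT t h3).1
    rw [div_le_iff₀ (by linarith)] at h4
    refine h4.trans ?_
    have : (L + 1) * t ≤ (L + 1) * T * t := by nlinarith
    exact this
  · rw [div_le_iff₀ (by linarith)] at hT1
    have h5 : (Nat.card {I : (Ideal (𝓞 k))⁰ // (Ideal.absNorm (I : Ideal (𝓞 k)) : ℝ) ≤ t} : ℝ) ≤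
        Nat.card {I : (Ideal (𝓞 k))⁰ // (Ideal.absNorm (I : Ideal (𝓞 k)) : ℝ) ≤ T} := by
      have := hfin T (by linarith)
      have h6 := Nat.card_le_card_of_injective
        (fun I : {I : (Ideal (𝓞 k))⁰ // (Ideal.absNorm (I : Ideal (𝓞 k)) : ℝ) ≤ t} =>
          (⟨I.1, I.2.trans h3⟩ : {I : (Ideal (𝓞 k))⁰ //
            (Ideal.absNorm (I : Ideal (𝓞 k)) : ℝ) ≤ T}))
        (fun I I' hI => Subtype.ext (congrArg (fun z => z.1) hI))
      exact_mod_cast h6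
    refine (h5.trans hT1).trans ?_
    have : (L + 1) * T * 1 ≤ (L + 1) * T * t := mul_le_mul_of_nonneg_left ht (by positivity)
    linarith

theorem one_le_absNorm (I : (Ideal (𝓞 k))⁰) : 1 ≤ Ideal.absNorm (I : Ideal (𝓞 k)) :=
  Nat.one_le_iff_ne_zero.mpr (Ideal.absNorm_ne_zero_of_nonZeroDivisors I)

/-- C2+ -/
theorem tsum_tuple_log_le (m r : ℕ) (hm : 1 ≤ m) (hr : 1 ≤ r) : ∃ C : ℝ, 0 ≤ C ∧ ∀ M : ℝ, 1 ≤ M →
    ∑' x : Fin m → (Ideal (𝓞 k))⁰,
      ENNReal.ofReal (Real.log (M / ((∏ j, Ideal.absNorm (x j : Ideal (𝓞 k)) : ℕ) : ℝ))) ^ r ≤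
      ENNReal.ofReal (C * M * (1 + Real.log M) ^ (m - 1)) := by
  obtain ⟨m, rfl⟩ : ∃ m', m = m' + 1 := ⟨m - 1, by omega⟩
  exact Tuple.tsum_log_le (one_le_absNorm k) (ideal_count_le k) m r hr

/-- C3+ : number of tuples (for the crude bound H0+) -/
theorem card_tuple_le (m : ℕ) (hm : 1 ≤ m) : ∃ C : ℝ, 0 ≤ C ∧ ∀ M : ℝ, 1 ≤ M →
    ∑' x : Fin m → (Ideal (𝓞 k))⁰,
      (if ((∏ j, Ideal.absNorm (x j : Ideal (𝓞 k)) : ℕ) : ℝ) ≤ M then (1 : ℝ≥0∞) else 0) ≤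
      ENNReal.ofReal (C * M * (1 + Real.log M) ^ (m - 1)) := by
  obtain ⟨m, rfl⟩ : ∃ m', m = m' + 1 := ⟨m - 1, by omega⟩
  obtain ⟨C, hC, h⟩ := Tuple.cnt_le (one_le_absNorm k) (ideal_count_le k) m
  exact ⟨C, hC, fun M hM => h M hM M le_rfl⟩

end

end Pool.Agent.Work.MuB
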