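import Pool.Agent.Work.MP_a4986b_nt.BIdeal
import Pool.Agent.Work.MP_a4986b_nt.BTuple

set_option autoImplicit false
set_option maxHeartbeats 400000

/-! # Unit ranks in an extension and a crude bound for the class number -/

namespace Pool.Agent.Work.MuB

open NumberField Module MeasureTheory NumberField.InfinitePlace NumberField.Units
open scoped nonZeroDivisors ENNReal NNReal Real Pointwise

section

variable (k : Type*) [Field k] [NumberField k]

open Classical in
/-- at most `[F : k]` infinite places lie over one infinite place -/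
theorem card_fiber_le (F : Type*) [Field F] [NumberField F] [Algebra k F] (v : InfinitePlace k) :
    (Finset.univ.filter fun w : InfinitePlace F => w.comap (algebraMap k F) = v).card ≤
      finrank k F := by
  let _ : Algebra k ℂ := v.embedding.toAlgebra
  have hfin : Module.Finite k F := Module.Finite.of_restrictScalars_finite ℚ k F
  have hcard : Fintype.card (F →ₐ[k] ℂ) = finrank k F := AlgHom.card k F ℂ
  rw [← hcard, ← Finset.card_univ]
  have hsub : (Finset.univ.filter fun w : InfinitePlace F => w.comap (algebraMap k F) = v) ⊆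
      Finset.univ.image (fun φ : F →ₐ[k] ℂ => InfinitePlace.mk (φ : F →+* ℂ)) := by
    intro w hw
    have hw' : w.comap (algebraMap k F) = v := (Finset.mem_filter.mp hw).2
    have h1 : InfinitePlace.mk (w.embedding.comp (algebraMap k F)) =
        InfinitePlace.mk v.embedding := by
      rw [← InfinitePlace.comap_mk, mk_embedding, mk_embedding, hw']
    rw [mk_eq_iff] at h1
    rcases h1 with h1 | h1
    · refine Finset.mem_image.mpr ⟨⟨w.embedding, fun r => ?_⟩, Finset.mem_univ _, ?_⟩
      · exact congrArg (fun f : k →+* ℂ => f r) h1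
      · exact mk_embedding w
    · refine Finset.mem_image.mpr ⟨⟨ComplexEmbedding.conjugate w.embedding, fun r => ?_⟩,
        Finset.mem_univ _, ?_⟩
      · exact congrArg (fun f : k →+* ℂ => f r) h1
      · exact (mk_conjugate_eq w.embedding).trans (mk_embedding w)
  exact (Finset.card_le_card hsub).trans Finset.card_image_le

/-- R3+ -/
theorem rank_bounds_gen (m : ℕ) (F : Type*) [Field F] [NumberField F] [Algebra k F]
    (hm : finrank k F = m) :
    Units.rank k ≤ Units.rank F ∧ Units.rank F + 1 ≤ m * (Units.rank k + 1) := by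
  classical
  have hk : 0 < Fintype.card (InfinitePlace k) := Fintype.card_pos
  have hF : 0 < Fintype.card (InfinitePlace F) := Fintype.card_pos
  have hfin : Module.Finite k F := Module.Finite.of_restrictScalars_finite ℚ k F
  have h1 : Fintype.card (InfinitePlace k) ≤ Fintype.card (InfinitePlace F) :=
    Fintype.card_le_of_surjective _ (comap_surjective (k := k) (K := F))
  have h2 : Fintype.card (InfinitePlace F) ≤ m * Fintype.card (InfinitePlace k) := by
    rw [← Finset.card_univ, ← Finset.card_univ]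
    refine Finset.card_le_mul_card_image_of_maps_to
      (f := fun w : InfinitePlace F => w.comap (algebraMap k F))
      (fun w _ => Finset.mem_univ _) m ?_
    intro v _
    rw [← hm]
    exact card_fiber_le k F v
  unfold Units.rank
  refine ⟨by omega, ?_⟩
  rw [Nat.sub_add_cancel hF, Nat.sub_add_cancel hk]
  exact h2

/-- an upper bound for the Minkowski bound -/
theorem minkowski_le (F : Type*) [Field F] [NumberField F] :
    (4 / π) ^ nrComplexPlaces F * ((finrank ℚ F).factorial / (finrank ℚ F) ^ (finrank ℚ F) *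
      √|(discr F : ℝ)|) ≤ (4 / π) ^ (finrank ℚ F) * √|(discr F : ℝ)| := by
  have h4 : (1 : ℝ) ≤ 4 / π := by
    rw [le_div_iff₀ Real.pi_pos]
    linarith [Real.pi_le_four]
  have hr : nrComplexPlaces F ≤ finrank ℚ F := by
    have := card_add_two_mul_card_eq_rank F
    omega
  have h1 : (4 / π : ℝ) ^ nrComplexPlaces F ≤ (4 / π) ^ (finrank ℚ F) := pow_le_pow_right₀ h4 hr
  have h2 : ((finrank ℚ F).factorial : ℝ) / (finrank ℚ F) ^ (finrank ℚ F) ≤ 1 := by
    have h3 : ((finrank ℚ F).factorial : ℝ) ≤ (finrank ℚ F : ℝ) ^ (finrank ℚ F) := by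
      exact_mod_cast Nat.factorial_le_pow (finrank ℚ F)
    have h4 : (0 : ℝ) < (finrank ℚ F : ℝ) ^ (finrank ℚ F) :=
      pow_pos (by exact_mod_cast finrank_pos) _
    rw [div_le_one h4]
    exact h3
  have h5 : ((finrank ℚ F).factorial : ℝ) / (finrank ℚ F) ^ (finrank ℚ F) *
      √|(discr F : ℝ)| ≤ √|(discr F : ℝ)| :=
    mul_le_of_le_one_left (Real.sqrt_nonneg _) h2
  exact mul_le_mul h1 h5 (by positivity) (by positivity)

/-- the class number is at most the number of ideals below the Minkowski bound -/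
theorem card_class_le (F : Type*) [Field F] [NumberField F] {M : ℝ}
    (hM : (4 / π) ^ (finrank ℚ F) * √|(discr F : ℝ)| ≤ M) :
    (Nat.card (ClassGroup (𝓞 F)) : ℝ≥0∞) ≤ ∑' I : (Ideal (𝓞 F))⁰,
      (if ((Ideal.absNorm (I : Ideal (𝓞 F)) : ℕ) : ℝ) ≤ M then (1 : ℝ≥0∞) else 0) := by
  classical
  have hex : ∀ c : ClassGroup (𝓞 F), ∃ I : (Ideal (𝓞 F))⁰, ClassGroup.mk0 I = c ∧
      ((Ideal.absNorm (I : Ideal (𝓞 F)) : ℕ) : ℝ) ≤ M := by
    intro c
    obtain ⟨I, hI, hn⟩ := exists_ideal_in_class_of_norm_le (K := F) c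
    exact ⟨I, hI, hn.trans ((minkowski_le F).trans hM)⟩
  choose f hf1 hf2 using hex
  have hinj : Function.Injective f := fun a b h => by rw [← hf1 a, ← hf1 b, h]
  have h := ENNReal.tsum_comp_le_tsum_of_injective hinj (fun I : (Ideal (𝓞 F))⁰ =>
    (if ((Ideal.absNorm (I : Ideal (𝓞 F)) : ℕ) : ℝ) ≤ M then (1 : ℝ≥0∞) else 0))
  refine le_trans (le_of_eq ?_) h
  rw [tsum_fintype]
  simp only [hf2, if_true, Finset.sum_const, Finset.card_univ, nsmul_eq_mul, mul_one]
  rw [Nat.card_eq_fintype_card]

/-- H0+ : crude bound, used only for small `|D_F|` -/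
theorem class_le_gen (m : ℕ) : ∃ C : ℝ, 0 < C ∧ ∀ (F : Type) [Field F] [NumberField F]
    [Algebra k F], finrank k F = m → (Nat.card (ClassGroup (𝓞 F)) : ℝ) ≤
      C * √|(discr F : ℝ)| * (1 + Real.log |(discr F : ℝ)|) ^ (m - 1) := by
  rcases Nat.eq_zero_or_pos m with rfl | hm
  · refine ⟨1, one_pos, fun F _ _ _ h => ?_⟩
    have hfin : Module.Finite k F := Module.Finite.of_restrictScalars_finite ℚ k F
    have : 0 < finrank k F := finrank_pos
    omega
  obtain ⟨C, hC0, hC⟩ := card_tuple_le k m hm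
  set n : ℕ := m * finrank ℚ k with hn
  set B : ℝ := (4 / π) ^ n with hB
  have hB1 : 1 ≤ B := one_le_pow₀ (by
    rw [le_div_iff₀ Real.pi_pos]
    linarith [Real.pi_le_four])
  have hlB : 0 ≤ Real.log B := Real.log_nonneg hB1
  refine ⟨(C + 1) * B * (1 + Real.log B) ^ (m - 1), by positivity, fun F _ _ _ hF => ?_⟩
  have hdeg : finrank ℚ F = n := by
    rw [← finrank_mul_finrank ℚ k F, hF, hn, mul_comm]
  have hD : (1 : ℝ) ≤ |(discr F : ℝ)| := by
    have := Int.one_le_abs (discr_ne_zero F)
    exact_mod_cast this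
  set D : ℝ := |(discr F : ℝ)| with hDdef
  have hsD : 1 ≤ √D := by rw [Real.one_le_sqrt]; exact hD
  have hlD : 0 ≤ Real.log D := Real.log_nonneg hD
  have hM : 1 ≤ B * √D := one_le_mul_of_one_le_of_one_le hB1 hsD
  have h1 := card_class_le F (M := B * √D) (by rw [hdeg])
  have h2 := tsum_ideal_le_fin k F hF
    (fun N : ℕ => if ((N : ℕ) : ℝ) ≤ B * √D then (1 : ℝ≥0∞) else 0) (by
      intro a b _ hab
      by_cases hb : ((b : ℕ) : ℝ) ≤ B * √D
      · have ha : ((a : ℕ) : ℝ) ≤ B * √D := le_trans (by exact_mod_cast hab) hb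
        rw [if_pos hb, if_pos ha]
      · rw [if_neg hb]
        exact bot_le)
  have h3 := (h1.trans h2).trans (hC (B * √D) hM)
  have hlM : Real.log (B * √D) ≤ Real.log B + Real.log D := by
    rw [Real.log_mul (by positivity) (by positivity), Real.log_sqrt (by positivity)]
    linarith
  have hlM0 : 0 ≤ Real.log (B * √D) := Real.log_nonneg hM
  have h4 : (Nat.card (ClassGroup (𝓞 F)) : ℝ) ≤
      C * (B * √D) * (1 + Real.log (B * √D)) ^ (m - 1) := by
    have h5 : ENNReal.ofReal (Nat.card (ClassGroup (𝓞 F)) : ℝ) ≤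
        ENNReal.ofReal (C * (B * √D) * (1 + Real.log (B * √D)) ^ (m - 1)) := by
      rw [ENNReal.ofReal_natCast]
      exact h3
    exact (ENNReal.ofReal_le_ofReal_iff (by positivity)).mp h5
  refine h4.trans ?_
  have h6 : 1 + Real.log (B * √D) ≤ (1 + Real.log B) * (1 + Real.log D) := by nlinarith
  have h7 : (1 + Real.log (B * √D)) ^ (m - 1) ≤
      ((1 + Real.log B) * (1 + Real.log D)) ^ (m - 1) := pow_le_pow_left₀ (by linarith) h6 _
  calc C * (B * √D) * (1 + Real.log (B * √D)) ^ (m - 1)
      ≤ (C + 1) * (B * √D) * ((1 + Real.log B) * (1 + Real.log D)) ^ (m - 1) := by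
        apply mul_le_mul _ h7 (by positivity) (by positivity)
        exact mul_le_mul_of_nonneg_right (by linarith) (by positivity)
    _ = (C + 1) * B * (1 + Real.log B) ^ (m - 1) * √D * (1 + Real.log D) ^ (m - 1) := by
        rw [mul_pow]
        ring

end

end Pool.Agent.Work.MuB
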