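import Pool.Agent.Work.MP_a4986b_nt.BReg

set_option autoImplicit false
set_option maxHeartbeats 400000

/-! # Lower bound for the regulator of an extension of a fixed number field of any degree in which
every unit outside the base field is a generator -/

namespace Pool.Agent.Work.MuB

open NumberField Module MeasureTheory NumberField.InfinitePlace NumberField.Units
open scoped nonZeroDivisors ENNReal NNReal Real Pointwise
open NumberField.Units.dirichletUnitTheorem

theorem regulator_ge_gen (k : Type*) [Field k] [NumberField k] (m : ℕ) (hm : 1 ≤ m) :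
    ∃ C c : ℝ, 1 ≤ C ∧ 0 < c ∧ ∀ (F : Type) [Field F] [NumberField F]
    [Algebra k F], finrank k F = m →
      (∀ u : (𝓞 F)ˣ, (u : F) ∉ Set.range (algebraMap k F) →
        (minpoly k (u : F)).natDegree = m) → C ≤ |(discr F : ℝ)| →
      c * (1 + Real.log |(discr F : ℝ)|) ^ (Units.rank F - Units.rank k) ≤ regulator F := by
  classical
  obtain ⟨δ, hδ0, hδ⟩ := exists_delta k
  obtain ⟨C1, hC1⟩ := log_discr_le_of_adjoin k m
  set d : ℝ := ((finrank ℚ k : ℕ) : ℝ) with hd
  have hd1 : 1 ≤ d := by
    have : 1 ≤ finrank ℚ k := finrank_pos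
    rw [hd]; exact_mod_cast this
  have hm1 : (1 : ℝ) ≤ m := by exact_mod_cast hm
  set a : ℝ := δ / (4 * d) with ha
  have ha0 : 0 < a := by positivity
  have had : 2 * d * a + a < δ := by
    rw [ha]
    rw [show 2 * d * (δ / (4 * d)) = δ / 2 by field_simp; ring]
    have : δ / (4 * d) ≤ δ / 4 := by
      apply div_le_div_of_nonneg_left hδ0.le (by norm_num) (by linarith)
    linarith
  set C2 : ℝ := |C1| + 2 * d ^ 2 * m ^ 3 * a with hC2
  set t : ℝ := 1 / (16 * d ^ 3 * m ^ 4) with ht
  have hd3 : 1 ≤ d ^ 3 := one_le_pow₀ hd1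
  have hm4 : (1 : ℝ) ≤ (m : ℝ) ^ 4 := one_le_pow₀ hm1
  have hdm : 1 ≤ d ^ 3 * (m : ℝ) ^ 4 := one_le_mul_of_one_le_of_one_le hd3 hm4
  have ht0 : 0 < t := by
    rw [ht, mul_assoc]
    positivity
  have ht1 : t ≤ 1 := by
    rw [ht, mul_assoc, div_le_one (by positivity)]
    linarith
  refine ⟨Real.exp (2 * C2 + 1), a ^ Units.rank k * t ^ (m * finrank ℚ k) /
    ((m * finrank ℚ k).factorial : ℕ), ?_, ?_, ?_⟩
  · apply Real.one_le_exp
    positivity
  · have : (0 : ℝ) < ((m * finrank ℚ k).factorial : ℕ) := by exact_mod_cast Nat.factorial_pos _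
    positivity
  intro F _ _ _ h2 hgen hD
  have hn : finrank ℚ F = m * finrank ℚ k := by
    rw [← finrank_mul_finrank ℚ k F, h2, mul_comm]
  have hnR : (finrank ℚ F : ℝ) = m * d := by rw [hn, hd]; push_cast; ring
  set L : ℝ := Real.log |(discr F : ℝ)| with hL
  have hL1 : 2 * C2 + 1 ≤ L := by
    rw [hL, Real.le_log_iff_exp_le (lt_of_lt_of_le (Real.exp_pos _) hD)]
    exact hD
  have hC20 : 0 ≤ C2 := by positivity
  set B : ℝ := t * (1 + L) with hB
  have hB0 : 0 ≤ B := by
    have : 0 ≤ 1 + L := by linarith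
    positivity
  have hbody := regulator_ge_of_body (k := k) (F := F) a B ha0.le hB0 (by
    intro u hx
    by_cases hu : (u : F) ∈ Set.range (algebraMap k F)
    · exact unit_of_base ha0.le hδ had hx hu
    · exfalso
      have hlog := abs_log_le_of_body ha0.le hB0 hx
      rw [hnR] at hlog
      set E : ℝ := m * d * (a + m * d * B) with hE
      have hE0 : 0 ≤ E := by positivity
      have h5 := hC1 F h2 (u : 𝓞 F) (hgen u hu) (Real.exp E) (Real.one_le_exp hE0) (fun σ => by
        have h6 := hlog (InfinitePlace.mk σ)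
        rw [InfinitePlace.apply] at h6
        have h7 : 0 < ‖σ (u : F)‖ := by
          rw [norm_pos_iff, Ne, map_eq_zero]
          exact Units.coe_ne_zero u
        rw [← Real.log_le_iff_le_exp h7]
        exact (le_abs_self _).trans h6)
      rw [Real.log_exp] at h5
      have h8 : C1 ≤ |C1| := le_abs_self _
      have h9 : 2 * ((finrank ℚ k : ℝ) * (m : ℝ)) * (m : ℝ) * E =
          2 * d ^ 2 * m ^ 3 * a + 2 * d ^ 3 * m ^ 4 * B := by
        rw [hE, ← hd]; ring
      rw [h9] at h5
      have h10 : 2 * d ^ 3 * m ^ 4 * B = (1 + L) / 8 := by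
        rw [hB, ht]; field_simp; ring
      rw [h10] at h5
      rw [← hL] at h5
      linarith)
  refine le_trans ?_ hbody
  have hrk : Units.rank F ≤ m * finrank ℚ k := by
    rw [Units.rank, ← hn]
    have h1 := sum_mult_eq (K := F)
    have h2 : Fintype.card (InfinitePlace F) ≤ ∑ w : InfinitePlace F, mult w := by
      rw [← Finset.card_univ, Finset.card_eq_sum_ones]
      exact Finset.sum_le_sum fun w _ => mult_pos
    omega
  have hL0 : 0 ≤ 1 + L := by linarith
  rw [hB, mul_pow, div_mul_eq_mul_div]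
  have hf1 : (0 : ℝ) < ((Units.rank F).factorial : ℕ) := by exact_mod_cast Nat.factorial_pos _
  have hf2 : (((Units.rank F).factorial : ℕ) : ℝ) ≤ ((m * finrank ℚ k).factorial : ℕ) := by
    exact_mod_cast Nat.factorial_le hrk
  have ht2 : t ^ (m * finrank ℚ k) ≤ t ^ (Units.rank F - Units.rank k) :=
    pow_le_pow_of_le_one ht0.le ht1 (by omega)
  calc a ^ Units.rank k * t ^ (m * finrank ℚ k) *
        (1 + L) ^ (Units.rank F - Units.rank k) / ((m * finrank ℚ k).factorial : ℕ)
      ≤ a ^ Units.rank k * t ^ (Units.rank F - Units.rank k) *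
        (1 + L) ^ (Units.rank F - Units.rank k) / ((Units.rank F).factorial : ℕ) := by
        gcongr
    _ = a ^ Units.rank k * (t ^ (Units.rank F - Units.rank k) *
        (1 + L) ^ (Units.rank F - Units.rank k)) / ((Units.rank F).factorial : ℕ) := by
        rw [mul_assoc]

end Pool.Agent.Work.MuB
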