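import Pool.Agent.Work.MP_a4986b_nt.BAbs
import Pool.Agent.Work.MP_a4986b_nt.BClassA
import Pool.Agent.Work.MP_a4986b_nt.BRegG

set_option autoImplicit false
set_option maxHeartbeats 400000

/-! # Class numbers of extensions of a fixed number field without intermediate fields -/

namespace Pool.Agent.Work.MuB

open NumberField Module MeasureTheory NumberField.InfinitePlace NumberField.Units
open scoped nonZeroDivisors ENNReal NNReal Real Pointwise

section

variable (k : Type*) [Field k] [NumberField k]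

/-- the sum over ideals of `F` -/
theorem tsum_ideal_log_le (m r : ℕ) (hm : 1 ≤ m) (hr : 1 ≤ r) : ∃ C : ℝ, 0 ≤ C ∧
    ∀ (F : Type) [Field F] [NumberField F] [Algebra k F], finrank k F = m →
      ∀ M : ℝ, 1 ≤ M → ∑' I : (Ideal (𝓞 F))⁰,
        ENNReal.ofReal (Real.log (M / Ideal.absNorm (I : Ideal (𝓞 F)))) ^ r ≤
      ENNReal.ofReal (C * M * (1 + Real.log M) ^ (m - 1)) := by
  obtain ⟨C, hC, h⟩ := tsum_tuple_log_le k m r hm hr
  refine ⟨C, hC, fun F _ _ _ hF M hM => ?_⟩
  refine le_trans (tsum_ideal_le_fin k F hF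
    (fun n : ℕ => ENNReal.ofReal (Real.log (M / (n : ℝ))) ^ r) ?_) (h M hM)
  intro a b ha hab
  have ha' : (0 : ℝ) < a := by exact_mod_cast ha
  have hab' : (a : ℝ) ≤ b := by exact_mod_cast hab
  refine pow_le_pow_left' (ENNReal.ofReal_le_ofReal ?_) r
  apply Real.log_le_log (div_pos (by linarith) (by linarith))
  exact div_le_div_of_nonneg_left (by linarith) ha' hab'

theorem natDegree_minpoly_of_adjoin (F : Type*) [Field F] [NumberField F] [Algebra k F] {u : F}
    (h : IntermediateField.adjoin k {u} = ⊤) : (minpoly k u).natDegree = finrank k F := by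
  have hfin : Module.Finite k F := Module.Finite.of_restrictScalars_finite ℚ k F
  rw [← IntermediateField.adjoin.finrank (Algebra.IsIntegral.isIntegral u), h,
    IntermediateField.finrank_top']

/-- H1+ : from `covering`, C1+, C2+, R2+, H0+ -/
theorem class_le_gen' (m : ℕ) : ∃ C : ℝ, 0 < C ∧ ∀ (F : Type) [Field F] [NumberField F]
    [Algebra k F], finrank k F = m →
      (∀ u : F, u ∉ Set.range (algebraMap k F) → IntermediateField.adjoin k {u} = ⊤) →
      (Nat.card (ClassGroup (𝓞 F)) : ℝ) * (1 + Real.log |(discr F : ℝ)|) ^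
        ((Units.rank F : ℤ) - Units.rank k - m + 1) ≤ C * √|(discr F : ℝ)| := by
  rcases Nat.eq_zero_or_pos m with rfl | hm
  · refine ⟨1, one_pos, fun F _ _ _ h => ?_⟩
    have hfin : Module.Finite k F := Module.Finite.of_restrictScalars_finite ℚ k F
    have : 0 < finrank k F := finrank_pos
    omega
  obtain ⟨C0, c, hC0, hc, hreg⟩ := regulator_ge_gen k m hm
  obtain ⟨C2, hC2, hcrude⟩ := class_le_gen k m
  choose! S hS0 hS using fun (r : ℕ) (hr : 1 ≤ r) => tsum_ideal_log_le k m r hm hr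
  set R : ℕ := m * (Units.rank k + 1) with hR
  set A : ℝ := ∑ r ∈ Finset.Icc 1 R, 2 ^ m * S r / c with hA
  have hSnn : ∀ r ∈ Finset.Icc 1 R, 0 ≤ 2 ^ m * S r / c := by
    intro r hr
    have := hS0 r (Finset.mem_Icc.mp hr).1
    positivity
  have hA0 : 0 ≤ A := Finset.sum_nonneg hSnn
  have hlC0 : 0 ≤ Real.log C0 := Real.log_nonneg hC0
  set B : ℝ := C2 * (1 + Real.log C0) ^ R with hB
  have hB0 : 0 < B := by positivity
  refine ⟨A + B, by positivity, fun F _ _ _ hF hgen => ?_⟩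
  obtain ⟨hr1, hr2⟩ := rank_bounds_gen k m F hF
  have hD := one_le_abs_discr F
  set D : ℝ := |(discr F : ℝ)| with hDdef
  have hD0 : 0 < D := by linarith
  have hL : 0 ≤ Real.log D := Real.log_nonneg hD
  have hL1 : 0 < 1 + Real.log D := by linarith
  have hsD : 0 ≤ √D := Real.sqrt_nonneg _
  have hh : (0 : ℝ) ≤ Nat.card (ClassGroup (𝓞 F)) := Nat.cast_nonneg _
  -- the exponent
  obtain ⟨ρ, hρ⟩ : ∃ ρ : ℕ, Units.rank F - Units.rank k = ρ := ⟨_, rfl⟩
  have hexp : (Units.rank F : ℤ) - Units.rank k - m + 1 = (ρ : ℤ) - m + 1 := by omega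
  rw [hexp]
  have hcr := hcrude F hF
  rw [← hDdef] at hcr
  -- the crude bound gives `h (1+L)^e ≤ C2 √D (1+L)^ρ`
  have hcr2 : (Nat.card (ClassGroup (𝓞 F)) : ℝ) * (1 + Real.log D) ^ ((ρ : ℤ) - m + 1) ≤
      C2 * √D * (1 + Real.log D) ^ ρ := by
    obtain ⟨n, rfl⟩ : ∃ n, m = n + 1 := ⟨m - 1, by omega⟩
    simp only [Nat.add_sub_cancel] at hcr
    rw [show (ρ : ℤ) - ((n + 1 : ℕ) : ℤ) + 1 = (ρ : ℤ) - (n : ℤ) by push_cast; ring,
      zpow_sub₀ hL1.ne', zpow_natCast, zpow_natCast, ← mul_div_assoc,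
      div_le_iff₀ (by positivity)]
    calc (Nat.card (ClassGroup (𝓞 F)) : ℝ) * (1 + Real.log D) ^ ρ
        ≤ (C2 * √D * (1 + Real.log D) ^ n) * (1 + Real.log D) ^ ρ :=
          mul_le_mul_of_nonneg_right hcr (by positivity)
      _ = _ := by ring
  rcases le_or_gt C0 D with hbig | hsmall
  · rcases Nat.eq_zero_or_pos (Units.rank F) with h0 | h0
    · have hρ0 : ρ = 0 := by omega
      subst hρ0
      rw [pow_zero, mul_one] at hcr2
      refine hcr2.trans (mul_le_mul_of_nonneg_right ?_ hsD)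
      have : (1 : ℝ) ≤ (1 + Real.log C0) ^ R := one_le_pow₀ (by linarith)
      nlinarith
    · have hreg' := hreg F hF (fun u hu => by
        rw [natDegree_minpoly_of_adjoin k F (hgen u hu), hF]) hbig
      rw [hρ] at hreg'
      have hmain := class_bound F hc m ρ (hS0 _ h0) (hS (Units.rank F) h0 F hF) hreg' hm
      rw [← hDdef] at hmain
      refine hmain.trans (mul_le_mul_of_nonneg_right ?_ hsD)
      have : 2 ^ m * S (Units.rank F) / c ≤ A :=
        Finset.single_le_sum (f := fun r => 2 ^ m * S r / c) hSnn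
          (Finset.mem_Icc.mpr ⟨h0, by omega⟩)
      linarith
  · refine hcr2.trans ?_
    have h1 : (1 + Real.log D) ^ ρ ≤ (1 + Real.log C0) ^ R := by
      calc (1 + Real.log D) ^ ρ ≤ (1 + Real.log C0) ^ ρ :=
            pow_le_pow_left₀ hL1.le (by linarith [Real.log_le_log hD0 hsmall.le]) _
        _ ≤ _ := pow_le_pow_right₀ (by linarith) (by omega)
    calc C2 * √D * (1 + Real.log D) ^ ρ ≤ C2 * √D * (1 + Real.log C0) ^ R :=
          mul_le_mul_of_nonneg_left h1 (by positivity)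
      _ = B * √D := by rw [hB]; ring
      _ ≤ (A + B) * √D := mul_le_mul_of_nonneg_right (by linarith) hsD

/-- H2+ : from H1+ (`c` small forces `p` large; cases `|D_F| ≤ p` and `|D_F| > p`) -/
theorem not_dvd_gen (m : ℕ) : ∃ c : ℝ, 0 < c ∧ ∀ (F : Type) [Field F] [NumberField F]
    [Algebra k F] (p : ℕ), p.Prime → finrank k F = m →
      (∀ u : F, u ∉ Set.range (algebraMap k F) → IntermediateField.adjoin k {u} = ⊤) →
      |(discr F : ℝ)| ≤ c * (p : ℝ) ^ 2 *
        (1 + Real.log p) ^ (2 * ((Units.rank F : ℤ) - Units.rank k - m + 1)) →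
      ¬ p ∣ Nat.card (ClassGroup (𝓞 F)) := by
  obtain ⟨C, hC, h⟩ := class_le_gen' k m
  obtain ⟨c, hc, hc1, H⟩ := not_dvd_of_bound C (m * (Units.rank k + 1) + m)
  refine ⟨c, hc, fun F _ _ _ p hp hF hgen hD => ?_⟩
  obtain ⟨hr1, hr2⟩ := rank_bounds_gen k m F hF
  refine H _ p _ _ hp ?_ (one_le_abs_discr F) ?_ (h F hF hgen) hD
  · exact Nat.card_pos
  · rw [abs_le]
    have h1 : (Units.rank F : ℤ) + 1 ≤ ((m * (Units.rank k + 1) : ℕ) : ℤ) := by exact_mod_cast hr2
    have h2 : (Units.rank k : ℤ) ≤ Units.rank F := by exact_mod_cast hr1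
    constructor <;> push_cast at * <;> omega

end

end Pool.Agent.Work.MuB
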