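import Pool.Agent.Work.MP_a4986b_nt.BRegAux

set_option autoImplicit false
set_option maxHeartbeats 400000

/-! # R1: discriminant of a quadratic extension from a small generator -/

namespace Pool.Agent.Work.MuB

open NumberField Module MeasureTheory NumberField.InfinitePlace NumberField.Units
open scoped nonZeroDivisors ENNReal NNReal Real Pointwise Nat

/-- Leibniz bound with a bound for each row -/
theorem norm_det_le_rows {ι : Type*} [Fintype ι] [DecidableEq ι] (A : Matrix ι ι ℂ) (M : ι → ℝ)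
    (h : ∀ i j, ‖A i j‖ ≤ M i) : ‖A.det‖ ≤ (Fintype.card ι)! * ∏ i, M i := by
  rw [Matrix.det_apply]
  have h1 : ∀ σ ∈ (Finset.univ : Finset (Equiv.Perm ι)),
      ‖Equiv.Perm.sign σ • ∏ i, A (σ i) i‖ ≤ ∏ i, M i := by
    intro σ _
    have h2 : ‖Equiv.Perm.sign σ • ∏ i, A (σ i) i‖ = ∏ i, ‖A (σ i) i‖ := by
      rw [← norm_prod]
      rcases Int.units_eq_one_or (Equiv.Perm.sign σ) with h | h <;> rw [h] <;> simp
    rw [h2, ← Equiv.prod_comp σ M]
    exact Finset.prod_le_prod (fun i _ => norm_nonneg _) fun i _ => h _ _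
  refine (norm_sum_le_of_le _ h1).trans (le_of_eq ?_)
  rw [Finset.sum_const, Finset.card_univ, Fintype.card_perm, nsmul_eq_mul]

/-- Leibniz bound for the discriminant, with a bound for each member of the family -/
theorem abs_discr_family_le_prod {F : Type*} [Field F] [NumberField F] {ι : Type*} [Fintype ι]
    [DecidableEq ι] (y : ι → 𝓞 F) (hcard : Fintype.card ι = finrank ℚ F) (M : ι → ℝ)
    (hM : ∀ (σ : F →+* ℂ) (i : ι), ‖σ (y i)‖ ≤ M i) :
    |(Algebra.discr ℤ y : ℝ)| ≤ ((Fintype.card ι)! * ∏ i, M i) ^ 2 := by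
  classical
  have h6 : (algebraMap ℤ ℚ) (Algebra.discr ℤ y) = Algebra.discr ℚ (fun i => (y i : F)) := by
    rw [Algebra.discr_def, Algebra.discr_def, RingHom.map_det]
    congr 1
    ext i j
    simp only [RingHom.mapMatrix_apply, Matrix.map_apply, Algebra.traceMatrix_apply,
      Algebra.traceForm_apply]
    rw [← Algebra.trace_localization ℤ (nonZeroDivisors ℤ) (Rₘ := ℚ) (Sₘ := F)]
    simp
  have hc : Fintype.card ι = Fintype.card (F →ₐ[ℚ] ℂ) := by
    rw [hcard, AlgHom.card]
  let e : ι ≃ (F →ₐ[ℚ] ℂ) := Fintype.equivOfCardEq hc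
  have h1 := Algebra.discr_eq_det_embeddingsMatrixReindex_pow_two ℚ ℂ (fun i => (y i : F)) e
  have h2 : ‖(algebraMap ℚ ℂ) (Algebra.discr ℚ (fun i => (y i : F)))‖ =
      |(Algebra.discr ℤ y : ℝ)| := by
    rw [← h6]
    simp
  rw [← h2, h1, norm_pow]
  gcongr
  exact norm_det_le_rows _ M fun i j => hM ((e j : F →ₐ[ℚ] ℂ) : F →+* ℂ) i

/-- R1: discriminant of `θ_i, θ_i u` (`θ_i` an integral basis of `k`): expand the determinant -/
theorem discr_le_of_unit_le (k : Type*) [Field k] [NumberField k] :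
    ∃ C : ℝ, 0 < C ∧ ∀ (F : Type) [Field F] [NumberField F]
    [Algebra k F], finrank k F = 2 → ∀ u : 𝓞 F, (u : F) ∉ Set.range (algebraMap k F) →
      ∀ B : ℝ, 1 ≤ B → (∀ w : InfinitePlace F, w (u : F) ≤ B) →
        |(discr F : ℝ)| ≤ C * B ^ (2 * finrank ℚ k) := by
  classical
  let b := RingOfIntegers.basis k
  obtain ⟨A, hA1, hA⟩ : ∃ A : ℝ, 1 ≤ A ∧ ∀ (τ : k →+* ℂ) i, ‖τ (b i : k)‖ ≤ A := by
    have hfin : (Set.range fun p : (k →+* ℂ) × Module.Free.ChooseBasisIndex ℤ (𝓞 k) =>
      ‖p.1 (b p.2 : k)‖).Finite := Set.finite_range _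
    obtain ⟨A, hA⟩ := hfin.bddAbove
    exact ⟨max A 1, le_max_right _ _, fun τ i => (hA ⟨(τ, i), rfl⟩).trans (le_max_left _ _)⟩
  have hA0 : 0 < A := by linarith
  have hfac : (0 : ℝ) < ((finrank ℚ k * 2)! : ℕ) := by exact_mod_cast Nat.factorial_pos _
  refine ⟨((finrank ℚ k * 2)! * A ^ (2 * finrank ℚ k)) ^ 2, by positivity, ?_⟩
  intro F _ _ _ h2 u hu B hB hw
  have hB0 : 0 < B := by linarith
  have hx : (minpoly k (u : F)).natDegree = 2 := by
    apply le_antisymm
    · rw [← h2]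
      exact minpoly.natDegree_le (u : F)
    · rw [minpoly.two_le_natDegree_iff (IsIntegral.of_finite k (u : F))]
      intro h
      exact hu (by simpa using h)
  let y : Module.Free.ChooseBasisIndex ℤ (𝓞 k) × Fin (minpoly k (u : F)).natDegree → 𝓞 F :=
    fun p => algebraMap (𝓞 k) (𝓞 F) (b p.1) * u ^ (p.2 : ℕ)
  have hdK : Fintype.card (Module.Free.ChooseBasisIndex ℤ (𝓞 k)) = finrank ℚ k := by
    rw [← RingOfIntegers.rank k, Module.finrank_eq_card_chooseBasisIndex]
  have hcard' : Fintype.card (Module.Free.ChooseBasisIndex ℤ (𝓞 k) ×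
      Fin (minpoly k (u : F)).natDegree) = finrank ℚ k * 2 := by
    rw [Fintype.card_prod, Fintype.card_fin, hx, hdK]
  have hn : finrank ℚ F = finrank ℚ k * 2 := by
    rw [← h2, finrank_mul_finrank]
  have hcard := hcard'.trans hn.symm
  have hyF : ∀ p, (y p : F) = algebraMap k F (b p.1) * (u : F) ^ (p.2 : ℕ) := by
    intro p
    simp only [y, map_mul, map_pow]
    rfl
  have hli : LinearIndependent ℚ (fun i => (y i : F)) := by
    have h1 : LinearIndependent ℚ (fun i => (b i : k)) := by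
      have h0 := (integralBasis k).linearIndependent
      have h0' : (⇑(integralBasis k) : _ → k) = fun i => (b i : k) := by
        funext i
        rw [integralBasis_apply]
      rwa [h0'] at h0
    have h2 := linearIndependent_pow (K := k) (u : F)
    have h3 := linearIndependent_smul h1 h2
    have h4 : (fun i => (y i : F)) = (fun p : Module.Free.ChooseBasisIndex ℤ (𝓞 k) ×
        Fin (minpoly k (u : F)).natDegree => (b p.1 : k) • ((u : F) ^ (p.2 : ℕ))) := by
      funext p
      rw [hyF p, Algebra.smul_def]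
    rw [h4]
    exact h3
  have hM : ∀ (σ : F →+* ℂ) i, ‖σ (y i)‖ ≤ A * B ^ ((i.2 : ℕ)) := by
    intro σ i
    have h1 := hA (σ.comp (algebraMap k F)) i.1
    have h2 : ‖σ (u : F)‖ ≤ B := by
      have := hw (InfinitePlace.mk σ)
      rwa [InfinitePlace.apply] at this
    rw [hyF i, map_mul, map_pow, norm_mul, norm_pow]
    have h4 : ‖σ (u : F)‖ ^ (i.2 : ℕ) ≤ B ^ (i.2 : ℕ) := by gcongr
    exact mul_le_mul h1 h4 (by positivity) (by positivity)
  have h4 := (abs_discr_le_of_family y hcard hli).trans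
    (abs_discr_family_le_prod y hcard (fun i => A * B ^ ((i.2 : ℕ))) hM)
  rw [hcard', Fintype.prod_prod_type] at h4
  have h5 : ∏ j : Fin (minpoly k (u : F)).natDegree, A * B ^ ((j : ℕ)) = A ^ 2 * B := by
    rw [Fin.prod_univ_eq_prod_range (fun j => A * B ^ j) (minpoly k (u : F)).natDegree, hx]
    simp [Finset.prod_range_succ]
    ring
  simp only [h5, Finset.prod_const, Finset.card_univ, hdK] at h4
  refine h4.trans (le_of_eq ?_)
  rw [mul_pow (A ^ 2) B, ← pow_mul, pow_mul B 2, mul_comm 2 (finrank ℚ k), pow_mul, ← pow_mul B]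
  ring

end Pool.Agent.Work.MuB
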