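import Pool.Agent.Work.MP_a4986b_nt.BEx
import Pool.Agent.Work.MP_a4986b_nt.BDisc
import Pool.Agent.Work.MP_a4986b_nt.BClassB

set_option autoImplicit false
set_option maxHeartbeats 400000

/-! # Corollary of Theorem B+ : `F = K(√(p α))`, `K` real quadratic, `α` totally positive -/

namespace Pool.Agent.Work.MuB

open NumberField Module NumberField.InfinitePlace NumberField.Units
open scoped nonZeroDivisors Real

theorem adjoin_eq_top_of_prime {k F : Type*} [Field k] [Field F] [Algebra k F]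
    (h : (finrank k F).Prime) (u : F) (hu : u ∉ Set.range (algebraMap k F)) :
    IntermediateField.adjoin k {u} = ⊤ := by
  have := IntermediateField.isSimpleOrder_of_finrank_prime k F h
  rcases eq_bot_or_eq_top (IntermediateField.adjoin k {u}) with h1 | h1
  · exfalso
    apply hu
    rw [IntermediateField.adjoin_simple_eq_bot_iff, IntermediateField.mem_bot] at h1
    exact h1
  · exact h1

theorem coe_map {K F : Type*} [Field K] [NumberField K] [Field F] [NumberField F] [Algebra K F]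
    (a : 𝓞 K) : ((algebraMap (𝓞 K) (𝓞 F) a : 𝓞 F) : F) = algebraMap K F (a : K) := rfl

/-- the corollary -/
theorem real_quadratic (K : Type) [Field K] [NumberField K] (hK : finrank ℚ K = 2) (r : K →+* ℝ)
    (a : 𝓞 K) (ha : ∀ φ : K →+* ℝ, 0 < φ a) :
    ∃ p0 : ℕ, ∀ p : ℕ, p.Prime → p0 ≤ p → (Ideal.span {(p : 𝓞 K)}).IsPrime →
      ∀ (F : Type) [Field F] [NumberField F] [Algebra K F], finrank K F = 2 →
        ∀ z : F, z ^ 2 = algebraMap K F (p * a) →
          ¬ p ∣ Nat.card (ClassGroup (𝓞 F)) ∧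
            ∃! P : Ideal (𝓞 F), P.IsPrime ∧ (p : 𝓞 F) ∈ P := by
  classical
  obtain ⟨C, hC, hdisc⟩ := discr_le_of_unit_le K
  obtain ⟨c, hc, hnd⟩ := not_dvd_gen K 2
  -- a bound for `a`
  obtain ⟨A, hA1, hA⟩ : ∃ A : ℝ, 1 ≤ A ∧ ∀ v : InfinitePlace K, v (a : K) ≤ A := by
    have hfin : (Set.range fun v : InfinitePlace K => v (a : K)).Finite := Set.finite_range _
    obtain ⟨A, hA⟩ := hfin.bddAbove
    exact ⟨max A 1, le_max_right _ _, fun v => (hA ⟨v, rfl⟩).trans (le_max_left _ _)⟩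
  have ha0 : a ≠ 0 := by
    rintro rfl
    have := ha r
    simp at this
  obtain ⟨n0, hn0⟩ : ∃ n0 : ℕ, ∀ n : ℕ, n0 ≤ n → C * A ^ 2 ≤ c * (1 + Real.log n) ^ 2 := by
    have h1 : Filter.Tendsto (fun n : ℕ => c * (1 + Real.log n) ^ 2) Filter.atTop
        Filter.atTop := by
      refine Filter.Tendsto.const_mul_atTop hc ?_
      refine (Filter.tendsto_pow_atTop two_ne_zero).comp ?_
      exact Filter.tendsto_atTop_add_const_left _ _
        (Real.tendsto_log_atTop.comp tendsto_natCast_atTop_atTop)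
    exact Filter.eventually_atTop.mp (h1.eventually_ge_atTop (C * A ^ 2))
  refine ⟨max n0 (Ideal.absNorm (Ideal.span {a}) + 1), ?_⟩
  intro p hp hp0 hin F _ _ _ h2 z hz
  have hpn0 : n0 ≤ p := (le_max_left _ _).trans hp0
  have hpN : Ideal.absNorm (Ideal.span {a}) < p := (le_max_right _ _).trans hp0
  have hap : a ∉ Ideal.span {(p : 𝓞 K)} := by
    intro h
    rw [← Ideal.span_singleton_le_iff_mem, ← Ideal.dvd_iff_le] at h
    have h3 := map_dvd Ideal.absNorm h
    rw [absNorm_span_nat, hK] at h3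
    have h4 : 0 < Ideal.absNorm (Ideal.span {a}) := by
      rw [Nat.pos_iff_ne_zero, Ne, Ideal.absNorm_eq_zero_iff, Ideal.span_singleton_eq_bot]
      exact ha0
    have h5 := Nat.le_of_dvd h4 h3
    have h6 := hp.one_lt
    nlinarith
  have hzint : IsIntegral ℤ z := by
    refine IsIntegral.of_pow two_pos ?_
    rw [hz]
    have : (algebraMap K F) (p * a) = ((algebraMap (𝓞 K) (𝓞 F) (p * a) : 𝓞 F) : F) := by
      rw [coe_map]
      simp
    rw [this]
    exact RingOfIntegers.isIntegral_coe _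
  set zz : 𝓞 F := ⟨z, hzint⟩ with hzz
  have hzz2 : zz ^ 2 = algebraMap (𝓞 K) (𝓞 F) ((p : 𝓞 K) * a) := by
    apply RingOfIntegers.ext
    rw [coe_map]
    refine Eq.trans (by simp [hzz]) (hz.trans (by simp))
  have huniq := existsUnique_prime hp hin h2 a hap zz hzz2
  refine ⟨?_, huniq⟩
  have hzK : z ∉ Set.range (algebraMap K F) := by
    rintro ⟨y, hy⟩
    have hyint : IsIntegral ℤ y := by
      have h1 : IsIntegral ℤ (algebraMap K F y) := by rw [hy]; exact hzint
      exact (isIntegral_algebraMap_iff (algebraMap K F).injective).mp h1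
    obtain ⟨yy, hyy⟩ : ∃ yy : 𝓞 K, (yy : K) = y := ⟨⟨y, hyint⟩, rfl⟩
    have hy2 : yy ^ 2 = (p : 𝓞 K) * a := by
      apply RingOfIntegers.ext
      apply (algebraMap K F).injective
      have h3 : algebraMap K F (y ^ 2) = algebraMap K F (p * a) := by
        rw [map_pow, hy, hz]
      rw [← hyy] at h3
      simpa using h3
    have hymem : yy ∈ Ideal.span {(p : 𝓞 K)} := by
      refine hin.mem_of_pow_mem 2 ?_
      rw [hy2]
      exact Ideal.mul_mem_right _ _ (Ideal.mem_span_singleton_self _)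
    obtain ⟨q, hq⟩ := Ideal.mem_span_singleton'.mp hymem
    apply hap
    have hp0' : (p : 𝓞 K) ≠ 0 := by exact_mod_cast hp.ne_zero
    have h4 : (p : 𝓞 K) * a = (p : 𝓞 K) * (q * q * p) := by
      rw [← hy2, ← hq]; ring
    have h5 := mul_left_cancel₀ hp0' h4
    rw [h5]
    exact Ideal.mul_mem_left _ _ (Ideal.mem_span_singleton_self _)
  have htop := adjoin_eq_top_of_prime (by rw [h2]; exact Nat.prime_two) z hzK
  have : IsTotallyReal K := totallyReal_of_real hK r
  have hpos : ∀ s : K →+* ℝ, 0 < s (p * a) := by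
    intro s
    rw [map_mul, map_natCast]
    exact mul_pos (by exact_mod_cast hp.pos) (ha s)
  have : IsTotallyReal F := totallyReal_of_sq (K := K) h2 (p * a) hpos z hz htop
  have hrK : Units.rank K = 1 := by rw [rank_of_totallyReal, hK]
  have hFQ : finrank ℚ F = 4 := by
    rw [← Module.finrank_mul_finrank ℚ K F, hK, h2]
  have hrF : Units.rank F = 3 := by rw [rank_of_totallyReal, hFQ]
  refine hnd F p hp h2 (fun u hu => adjoin_eq_top_of_prime (by rw [h2]; exact Nat.prime_two) u hu)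
    ?_
  rw [hrK, hrF]
  have hp1 : (1 : ℝ) ≤ p := by exact_mod_cast hp.one_lt.le
  have hB : ∀ w : InfinitePlace F, w (zz : F) ≤ √(A * p) := by
    intro w
    apply Real.le_sqrt_of_sq_le
    have h6 : w (zz : F) ^ 2 = (w.comap (algebraMap K F)) (p * a) := by
      rw [comap_apply, ← map_pow]
      congr 1
    rw [h6, map_mul]
    have h7 := hA (w.comap (algebraMap K F))
    have h8 : (w.comap (algebraMap K F)) (p : K) = p := by
      simp
    rw [h8]
    nlinarith
  have h9 := hdisc F h2 zz hzK (√(A * p)) (by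
    rw [Real.one_le_sqrt]
    nlinarith) hB
  rw [hK] at h9
  have h10 : √(A * p) ^ (2 * 2) = (A * p) ^ 2 := by
    rw [pow_mul, Real.sq_sqrt (by positivity)]
  rw [h10] at h9
  have h11 := hn0 p hpn0
  have h12 : (2 * (((3 : ℕ) : ℤ) - ((1 : ℕ) : ℤ) - ((2 : ℕ) : ℤ) + 1) : ℤ) = ((2 : ℕ) : ℤ) := by
    norm_num
  rw [h12, zpow_natCast]
  calc |(discr F : ℝ)| ≤ C * (A * p) ^ 2 := h9
    _ = (C * A ^ 2) * p ^ 2 := by ring
    _ ≤ (c * (1 + Real.log p) ^ 2) * p ^ 2 := by gcongr
    _ = c * (p : ℝ) ^ 2 * (1 + Real.log p) ^ 2 := by ring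

end Pool.Agent.Work.MuB
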