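import Pool.Agent.Work.MP_a4986b_nt.BRegAux

set_option autoImplicit false
set_option maxHeartbeats 400000

/-! # S4: a lower bound for the covolume of a lattice whose short vectors span a small space -/

namespace Pool.Agent.Work.MuB

open NumberField Module MeasureTheory
open scoped ENNReal

/-- an orthonormal basis of `ℝ^ι` adapted to a subspace -/
theorem exists_adapted {ι : Type*} [Fintype ι] [DecidableEq ι]
    (V : Submodule ℝ (EuclideanSpace ℝ ι)) :
    ∃ (b : OrthonormalBasis ι ℝ (EuclideanSpace ℝ ι)) (J : Finset ι), J.card = finrank ℝ V ∧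
      ∀ x ∈ V, ∀ i, i ∉ J → inner ℝ (b i) x = 0 := by
  have hle : finrank ℝ V ≤ Fintype.card ι := by
    have := Submodule.finrank_le V
    rwa [finrank_euclideanSpace] at this
  set b0 := stdOrthonormalBasis ℝ V with hb0
  obtain ⟨e⟩ : Nonempty (Fin (finrank ℝ V) ↪ ι) := by
    rw [Function.Embedding.nonempty_iff_card_le, Fintype.card_fin]
    exact hle
  set v : ι → EuclideanSpace ℝ ι := Function.extend e (fun k => ((b0 k : V) :
    EuclideanSpace ℝ ι)) 0 with hv
  have hve : ∀ k, v (e k) = b0 k := fun k => e.injective.extend_apply _ _ _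
  have hon : Orthonormal ℝ ((Set.range e).domRestrict v) := by
    have h1 : Orthonormal ℝ (fun k => ((b0 k : V) : EuclideanSpace ℝ ι)) :=
      b0.orthonormal.comp_linearIsometry V.subtypeₗᵢ
    have h2 : (Set.range e).domRestrict v =
        (fun k => ((b0 k : V) : EuclideanSpace ℝ ι)) ∘ (Equiv.ofInjective e e.injective).symm := by
      funext ⟨i, hi⟩
      obtain ⟨k, rfl⟩ := hi
      have h3 : (Equiv.ofInjective e e.injective).symm ⟨e k, ⟨k, rfl⟩⟩ = k := by
        rw [Equiv.symm_apply_eq]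
        rfl
      rw [Function.comp_apply, h3]
      exact hve k
    rw [h2]
    exact h1.comp _ (Equiv.injective _)
  obtain ⟨b, hb⟩ := hon.exists_orthonormalBasis_extension_of_card_eq
    (by rw [finrank_euclideanSpace])
  refine ⟨b, Finset.univ.map e, by simp, ?_⟩
  intro x hx i hi
  have h1 : ((⟨x, hx⟩ : V) : EuclideanSpace ℝ ι) =
      ∑ k, (b0.repr ⟨x, hx⟩ k) • ((b0 k : V) : EuclideanSpace ℝ ι) := by
    have h2 := congrArg (fun y : V => (y : EuclideanSpace ℝ ι)) (b0.sum_repr ⟨x, hx⟩)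
    simp only [Submodule.coe_sum, Submodule.coe_smul] at h2
    exact h2.symm
  change x = _ at h1
  rw [h1, inner_sum]
  refine Finset.sum_eq_zero fun k _ => ?_
  rw [inner_smul_right]
  have h2 : b (e k) = b0 k := by
    rw [hb (e k) ⟨k, rfl⟩]
    exact hve k
  rw [← h2, b.inner_eq_zero, mul_zero]
  rintro rfl
  exact hi (by simp)

/-- S4: geometry of numbers: a lattice `Λ` in `ℝ^r` without nonzero vectors of norm `< δ` whose
vectors of norm `< B` span a space of dimension `≤ ρ` has covolume at least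
`c (B)^(r - ρ)` -/
theorem covolume_ge (r : ℕ) (δ : ℝ) (hδ : 0 < δ) : ∃ c : ℝ, 0 < c ∧
    ∀ (ι : Type) [Fintype ι], Fintype.card ι = r → ∀ (L : Submodule ℤ (ι → ℝ)) [DiscreteTopology L]
      [IsZLattice ℝ L] (B : ℝ) (ρ : ℕ), 1 ≤ B → ρ ≤ r →
      (∀ x ∈ L, (∀ i, |x i| < δ) → x = 0) →
      (finrank ℝ (Submodule.span ℝ {x : ι → ℝ | x ∈ L ∧ ∀ i, |x i| < B}) ≤ ρ) →
      c * B ^ (r - ρ) ≤ ZLattice.covolume L := by
  set q : ℝ := √(r + 1) with hq
  have hq0 : 0 < q := Real.sqrt_pos.2 (by positivity)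
  have hq2 : q ^ 2 = r + 1 := Real.sq_sqrt (by positivity)
  set δ1 : ℝ := min δ 1 with hδ1
  have hδ10 : 0 < δ1 := lt_min hδ one_pos
  have hδ1δ : δ1 ≤ δ := min_le_left _ _
  have hδ11 : δ1 ≤ 1 := min_le_right _ _
  refine ⟨(δ1 / q) ^ r, by positivity, ?_⟩
  intro ι _ hι L _ _ B ρ hB hρ hL hspan
  classical
  have hB0 : 0 < B := by linarith
  set φ : (ι → ℝ) ≃ₗ[ℝ] EuclideanSpace ℝ ι := (WithLp.linearEquiv 2 ℝ (ι → ℝ)).symm with hφ
  set V0 := Submodule.span ℝ {x : ι → ℝ | x ∈ L ∧ ∀ i, |x i| < B} with hV0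
  obtain ⟨b, J, hJ, hb⟩ := exists_adapted (V0.map (φ : (ι → ℝ) →ₗ[ℝ] EuclideanSpace ℝ ι))
  have hJρ : J.card ≤ ρ := by
    rw [hJ]
    rw [LinearEquiv.finrank_map_eq]
    exact hspan
  set a : ι → ℝ := fun i => if i ∈ J then δ1 / q else B / q with ha
  have ha0 : ∀ i, 0 < a i := by
    intro i
    simp only [ha]
    split_ifs <;> positivity
  have haB : ∀ i, a i ≤ B / q := by
    intro i
    simp only [ha]
    split_ifs
    · gcongr
      linarith
    · exact le_rfl
  -- norms
  have hnorm : ∀ (x : ι → ℝ), ∑ i, (x i) ^ 2 = ∑ i, (inner ℝ (b i) (φ x)) ^ 2 := by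
    intro x
    have h1 : ‖φ x‖ ^ 2 = ∑ i, (x i) ^ 2 := by
      rw [EuclideanSpace.norm_sq_eq]
      refine Finset.sum_congr rfl fun i _ => ?_
      rw [Real.norm_eq_abs, sq_abs]
      rfl
    rw [← h1, ← b.sum_sq_norm_inner_right (φ x)]
    refine Finset.sum_congr rfl fun i _ => ?_
    rw [Real.norm_eq_abs, sq_abs]
  have hle : ∀ (x : ι → ℝ) (M : ℝ), 0 < M → ∑ i, (x i) ^ 2 < M ^ 2 → ∀ i, |x i| < M := by
    intro x M hM h i
    apply abs_lt_of_sq_lt_sq _ hM.le
    refine lt_of_le_of_lt ?_ h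
    exact Finset.single_le_sum (f := fun i => (x i) ^ 2) (fun i _ => sq_nonneg _)
      (Finset.mem_univ i)
  set C : Set (ι → ℝ) := {x | ∀ i, |inner ℝ (b i) (φ x)| < a i} with hC
  have h0 : ∀ x ∈ L, x ∈ C → x = 0 := by
    intro x hx hxC
    have hsq : ∀ i, (inner ℝ (b i) (φ x)) ^ 2 ≤ (a i) ^ 2 := by
      intro i
      rw [← sq_abs]
      exact pow_le_pow_left₀ (abs_nonneg _) (hxC i).le 2
    have h1 : ∑ i, (x i) ^ 2 < B ^ 2 := by
      rw [hnorm]
      calc ∑ i, (inner ℝ (b i) (φ x)) ^ 2 ≤ ∑ i : ι, (B / q) ^ 2 := by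
            refine Finset.sum_le_sum fun i _ => (hsq i).trans ?_
            exact pow_le_pow_left₀ (ha0 i).le (haB i) 2
        _ = B ^ 2 * (r / (r + 1)) := by
            rw [Finset.sum_const, Finset.card_univ, hι, nsmul_eq_mul, div_pow, hq2]
            ring
        _ < B ^ 2 * 1 := by
            gcongr
            rw [div_lt_one (by positivity)]
            linarith
        _ = B ^ 2 := mul_one _
    have h2 : x ∈ V0 := Submodule.subset_span ⟨hx, hle x B hB0 h1⟩
    have h3 : ∀ i, i ∉ J → inner ℝ (b i) (φ x) = 0 :=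
      fun i hi => hb (φ x) (Submodule.mem_map_of_mem h2) i hi
    have h4 : ∑ i, (x i) ^ 2 < δ1 ^ 2 := by
      rw [hnorm]
      calc ∑ i, (inner ℝ (b i) (φ x)) ^ 2 ≤ ∑ i : ι, (δ1 / q) ^ 2 := by
            refine Finset.sum_le_sum fun i _ => ?_
            by_cases hi : i ∈ J
            · refine (hsq i).trans ?_
              simp only [ha, if_pos hi]
              exact le_rfl
            · rw [h3 i hi, zero_pow two_ne_zero]
              positivity
        _ = δ1 ^ 2 * (r / (r + 1)) := by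
            rw [Finset.sum_const, Finset.card_univ, hι, nsmul_eq_mul, div_pow, hq2]
            ring
        _ < δ1 ^ 2 * 1 := by
            gcongr
            rw [div_lt_one (by positivity)]
            linarith
        _ = δ1 ^ 2 := mul_one _
    exact hL x hx fun i => (hle x δ1 hδ10 h4 i).trans_le hδ1δ
  have hsymm : ∀ x ∈ C, -x ∈ C := by
    intro x hx i
    rw [map_neg, inner_neg_right, abs_neg]
    exact hx i
  have hconv : Convex ℝ C := by
    have h1 : C = ⋂ i, {x : ι → ℝ | |inner ℝ (b i) (φ x)| < a i} := by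
      ext x
      simp [hC]
    rw [h1]
    refine convex_iInter fun i => ?_
    have h2 : {x : ι → ℝ | |inner ℝ (b i) (φ x)| < a i} =
        (fun x : ι → ℝ => inner ℝ (b i) (φ x)) ⁻¹' (Set.Ioo (-(a i)) (a i)) := by
      ext x
      simp [abs_lt]
    rw [h2]
    refine Convex.is_linear_preimage (convex_Ioo _ _) ⟨?_, ?_⟩
    · intro x y
      rw [map_add, inner_add_right]
    · intro t x
      rw [map_smul, inner_smul_right]
      rfl
  have hvol : volume C = ENNReal.ofReal (∏ i, (2 * a i)) := by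
    have h1 : MeasurePreserving (fun x : ι → ℝ => (WithLp.linearEquiv 2 ℝ (ι → ℝ)) (b.repr (φ x)))
        volume volume :=
      (EuclideanSpace.volume_preserving_symm_measurableEquiv_toLp ι).comp
        (b.measurePreserving_repr.comp
          (EuclideanSpace.volume_preserving_symm_measurableEquiv_toLp ι).symm)
    have h2 : C = (fun x : ι → ℝ => (WithLp.linearEquiv 2 ℝ (ι → ℝ)) (b.repr (φ x))) ⁻¹'
        (Set.univ.pi fun i => Set.Ioo (-(a i)) (a i)) := by
      ext x
      simp only [hC, Set.mem_ofPred_eq, Set.mem_preimage, Set.mem_univ_pi, Set.mem_Ioo]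
      refine forall_congr' fun i => ?_
      rw [← abs_lt]
      have h3 : (WithLp.linearEquiv 2 ℝ (ι → ℝ)) (b.repr (φ x)) i = inner ℝ (b i) (φ x) :=
        b.repr_apply_apply (φ x) i
      rw [h3]
    rw [h2, h1.measure_preimage (MeasurableSet.univ_pi fun i =>
      measurableSet_Ioo).nullMeasurableSet, Real.volume_pi_Ioo]
    rw [ENNReal.ofReal_prod_of_nonneg (fun i _ => by have := ha0 i; positivity)]
    refine Finset.prod_congr rfl fun i _ => ?_
    congr 1
    ring
  have hmain := volume_le_covolume L C hsymm hconv h0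
  rw [hvol] at hmain
  have hcov : 0 < ZLattice.covolume L := ZLattice.covolume_pos L
  rw [ENNReal.ofReal_le_ofReal_iff (by positivity), Finset.prod_mul_distrib, Finset.prod_const,
    Finset.card_univ, mul_comm] at hmain
  have h2 := le_of_mul_le_mul_right hmain (by positivity)
  refine le_trans ?_ h2
  have h3 : ∏ i, a i = (δ1 / q) ^ J.card * (B / q) ^ (r - J.card) := by
    simp only [ha]
    rw [Finset.prod_ite, Finset.prod_const, Finset.prod_const]
    congr 2
    · congr 1
      ext i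
      simp
    · rw [← hι, ← Finset.card_compl]
      congr 1
      ext i
      simp
  rw [h3]
  have hJr : J.card ≤ r := hJρ.trans hρ
  calc (δ1 / q) ^ r * B ^ (r - ρ) ≤ (δ1 / q) ^ r * B ^ (r - J.card) := by
        gcongr
    _ = (δ1 / q) ^ J.card * ((δ1 / q) ^ (r - J.card) * B ^ (r - J.card)) := by
        rw [← mul_assoc, ← pow_add, Nat.add_sub_cancel' hJr]
    _ = (δ1 / q) ^ J.card * (δ1 * (B / q)) ^ (r - J.card) := by
        rw [← mul_pow]
        congr 2
        ring
    _ ≤ (δ1 / q) ^ J.card * (B / q) ^ (r - J.card) := by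
        gcongr
        nlinarith [div_pos hB0 hq0]

end Pool.Agent.Work.MuB
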