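import Mathlib

set_option autoImplicit false
set_option maxHeartbeats 400000

/-! # S3: a grid is not covered by few subspaces -/

namespace Pool.Agent.Work.MuB

open Module

/-- points of the grid `{0, …, A}^s` in a proper subspace of `ℝ^s`: choose a coordinate such that
the subspace contains no two points differing only in it -/
theorem grid_count {s A : ℕ} (W : Submodule ℝ (Fin s → ℝ)) (hW : W ≠ ⊤) :
    {a : Fin s → Fin (A + 1) | (fun j => ((a j : ℕ) : ℝ)) ∈ W}.ncard ≤ (A + 1) ^ (s - 1) := by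
  classical
  -- a coordinate vector outside `W`
  obtain ⟨i, hi⟩ : ∃ i : Fin s, Pi.single i (1 : ℝ) ∉ W := by
    by_contra h
    push Not at h
    apply hW
    rw [eq_top_iff, ← (Pi.basisFun ℝ (Fin s)).span_eq, Submodule.span_le]
    rintro _ ⟨i, rfl⟩
    rw [Pi.basisFun_apply]
    exact h i
  let f : (Fin s → Fin (A + 1)) → ({j : Fin s // j ≠ i} → Fin (A + 1)) := fun a j => a j
  have hinj : Set.InjOn f {a : Fin s → Fin (A + 1) | (fun j => ((a j : ℕ) : ℝ)) ∈ W} := by
    intro a ha b hb hab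
    by_contra hne
    have hoff : ∀ j, j ≠ i → a j = b j := fun j hj => congrFun hab ⟨j, hj⟩
    have hi' : a i ≠ b i := by
      intro h
      apply hne
      funext j
      by_cases hj : j = i
      · rw [hj, h]
      · exact hoff j hj
    have hsub := W.sub_mem ha hb
    have hc : (((a i : ℕ) : ℝ) - ((b i : ℕ) : ℝ)) ≠ 0 := by
      rw [sub_ne_zero]
      intro h
      apply hi'
      apply Fin.ext
      exact_mod_cast h
    have heq : ((fun j => ((a j : ℕ) : ℝ)) - fun j => ((b j : ℕ) : ℝ)) =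
        (((a i : ℕ) : ℝ) - ((b i : ℕ) : ℝ)) • (Pi.single i (1 : ℝ) : Fin s → ℝ) := by
      funext j
      by_cases hj : j = i
      · subst hj
        simp
      · simp [hj, hoff j hj]
    rw [heq] at hsub
    exact hi ((W.smul_mem_iff hc).mp hsub)
  have h1 := Set.ncard_le_ncard_of_injOn (t := Set.univ) f (fun _ _ => Set.mem_univ _) hinj
    Set.finite_univ
  refine h1.trans (le_of_eq ?_)
  rw [Set.ncard_univ, Nat.card_eq_fintype_card, Fintype.card_fun, Fintype.card_fin,
    Fintype.card_subtype_compl, Fintype.card_fin, Fintype.card_subtype_eq]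

/-- S3 -/
theorem exists_combination {V : Type*} [AddCommGroup V] [Module ℝ V] {s A : ℕ}
    (v : Fin s → V) (hv : LinearIndependent ℝ v) {ι : Type*} (T : Finset ι) (hT : T.card ≤ A)
    (W : ι → Submodule ℝ V) (hW : ∀ i ∈ T, finrank ℝ (W i) < s)
    (hfd : ∀ i ∈ T, FiniteDimensional ℝ (W i)) :
    ∃ a : Fin s → ℕ, (∀ i, a i ≤ A) ∧ ∀ i ∈ T, ∑ j, (a j : ℝ) • v j ∉ W i := by
  classical
  by_contra hcon
  push Not at hcon
  rcases Nat.eq_zero_or_pos s with hs | hs
  · subst hs
    obtain ⟨i, hi, -⟩ := hcon (fun _ => 0) (fun i => i.elim0)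
    exact absurd (hW i hi) (Nat.not_lt_zero _)
  let L : (Fin s → ℝ) →ₗ[ℝ] V := Fintype.linearCombination ℝ v
  have hLinj : Function.Injective L := by
    rw [injective_iff_map_eq_zero]
    intro x hx
    rw [Fintype.linearCombination_apply] at hx
    funext j
    exact Fintype.linearIndependent_iff.mp hv x hx j
  let U : ι → Submodule ℝ (Fin s → ℝ) := fun i => (W i).comap L
  have hU : ∀ i ∈ T, U i ≠ ⊤ := by
    intro i hi htop
    have hle : LinearMap.range L ≤ W i := by
      rintro _ ⟨x, rfl⟩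
      have : x ∈ U i := by rw [htop]; trivial
      exact this
    have := hfd i hi
    have h1 := Submodule.finrank_mono hle
    rw [LinearMap.finrank_range_of_inj hLinj] at h1
    have h2 := hW i hi
    simp at h1
    omega
  -- covering
  have hcover : (Set.univ : Set (Fin s → Fin (A + 1))) ⊆
      ⋃ i ∈ T, {a : Fin s → Fin (A + 1) | (fun j => ((a j : ℕ) : ℝ)) ∈ U i} := by
    intro a _
    obtain ⟨i, hi, hmem⟩ := hcon (fun j => (a j : ℕ)) (fun j => Nat.lt_succ_iff.mp (a j).2)
    rw [Set.mem_iUnion₂]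
    refine ⟨i, hi, ?_⟩
    change L (fun j => ((a j : ℕ) : ℝ)) ∈ W i
    rw [Fintype.linearCombination_apply]
    exact hmem
  have h1 : (Set.univ : Set (Fin s → Fin (A + 1))).ncard ≤
      ∑ i ∈ T, {a : Fin s → Fin (A + 1) | (fun j => ((a j : ℕ) : ℝ)) ∈ U i}.ncard :=
    (Set.ncard_le_ncard hcover (Set.toFinite _)).trans (Finset.set_ncard_biUnion_le T _)
  rw [Set.ncard_univ, Nat.card_eq_fintype_card, Fintype.card_fun, Fintype.card_fin,
    Fintype.card_fin] at h1
  have h2 : ∑ i ∈ T, {a : Fin s → Fin (A + 1) | (fun j => ((a j : ℕ) : ℝ)) ∈ U i}.ncard ≤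
      A * (A + 1) ^ (s - 1) := by
    calc _ ≤ ∑ _i ∈ T, (A + 1) ^ (s - 1) := Finset.sum_le_sum fun i hi => grid_count _ (hU i hi)
      _ = T.card * (A + 1) ^ (s - 1) := by rw [Finset.sum_const, smul_eq_mul]
      _ ≤ _ := Nat.mul_le_mul_right _ hT
  have h3 : (A + 1) ^ s = (A + 1) * (A + 1) ^ (s - 1) := by
    rw [← pow_succ', Nat.sub_add_cancel hs]
  have h4 : 0 < (A + 1) ^ (s - 1) := by positivity
  nlinarith

end Pool.Agent.Work.MuB
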