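import Mathlib

set_option autoImplicit false
set_option maxHeartbeats 400000

/-! # S2: the number of intermediate fields -/

namespace Pool.Agent.Work.MuB

open Module Polynomial

theorem exists_embeddings_ne {k F Ω : Type*} [Field k] [Field F] [CharZero k] [Algebra k F]
    [FiniteDimensional k F] [Field Ω] [Algebra k Ω] [IsAlgClosed Ω]
    (E : IntermediateField k F) (x : F) (hx : x ∉ E) :
    ∃ φ ψ : F →ₐ[k] Ω, (∀ y ∈ E, φ y = ψ y) ∧ φ x ≠ ψ x := by
  classical
  have φ0 : F →ₐ[k] Ω := IsAlgClosed.lift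
  let _ : Algebra E Ω := (φ0.comp E.val).toAlgebra
  have hst : IsScalarTower k E Ω := IsScalarTower.of_algebraMap_eq fun r => by
    exact ((φ0.comp E.val).commutes r).symm
  have hcz : CharZero E := charZero_of_injective_algebraMap (algebraMap k E).injective
  have hint : IsIntegral E x := Algebra.IsIntegral.isIntegral x
  have hsep : (minpoly E x).Separable := (minpoly.irreducible hint).separable
  have hdeg : 2 ≤ (minpoly E x).natDegree := by
    by_contra h
    have h1 : 0 < (minpoly E x).natDegree := minpoly.natDegree_pos hint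
    have h2 : (minpoly E x).natDegree = 1 := by omega
    rw [minpoly.natDegree_eq_one_iff] at h2
    obtain ⟨y, hy⟩ := h2
    apply hx
    rw [← hy]
    exact y.2
  have hcard := Polynomial.card_rootSet_eq_natDegree (K := Ω) hsep (IsAlgClosed.splits _)
  have hrange := Algebra.IsAlgebraic.range_eval_eq_rootSet_minpoly (F := E) (K := F) Ω x
  obtain ⟨r, hr, hrne⟩ : ∃ r ∈ (minpoly E x).rootSet Ω, r ≠ φ0 x := by
    by_contra h
    push Not at h
    have h1 : Fintype.card ((minpoly E x).rootSet Ω) ≤ 1 :=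
      Fintype.card_le_one_iff.mpr fun a b => Subtype.ext ((h a a.2).trans (h b b.2).symm)
    omega
  rw [← hrange] at hr
  obtain ⟨ψ, hψ⟩ := hr
  refine ⟨φ0, ψ.restrictScalars k, ?_, ?_⟩
  · intro y hy
    have h1 : ψ y = algebraMap E Ω ⟨y, hy⟩ := ψ.commutes ⟨y, hy⟩
    rw [AlgHom.restrictScalars_apply, h1]
    rfl
  · rw [AlgHom.restrictScalars_apply]
    have : ψ x = r := hψ
    rw [this]
    exact hrne.symm

/-- S2: number of intermediate fields, uniformly in the degree -/
theorem card_intermediate_le (m : ℕ) : ∃ A : ℕ, ∀ (k F : Type) [Field k] [Field F] [CharZero k]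
    [Algebra k F], finrank k F = m → 0 < m →
      (Set.univ : Set (IntermediateField k F)).Finite ∧
      (Set.univ : Set (IntermediateField k F)).ncard ≤ A := by
  classical
  refine ⟨2 ^ (m * m), ?_⟩
  intro k F _ _ _ _ hm hm0
  have hfd : FiniteDimensional k F := FiniteDimensional.of_finrank_pos (by omega)
  let Ω := AlgebraicClosure k
  have hcard : Fintype.card (F →ₐ[k] Ω) = m := by rw [AlgHom.card, hm]
  let Φ : IntermediateField k F → Set ((F →ₐ[k] Ω) × (F →ₐ[k] Ω)) :=
    fun E => {q | ∀ y ∈ E, q.1 y = q.2 y}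
  have hle : ∀ E₁ E₂ : IntermediateField k F, Φ E₁ = Φ E₂ → E₁ ≤ E₂ := by
    intro E₁ E₂ h x hx
    by_contra hx2
    obtain ⟨φ, ψ, h1, h2⟩ := exists_embeddings_ne (Ω := Ω) E₂ x hx2
    have h3 : (φ, ψ) ∈ Φ E₂ := h1
    rw [← h] at h3
    exact h2 (h3 x hx)
  have hinj : Function.Injective Φ := fun E₁ E₂ h => le_antisymm (hle _ _ h) (hle _ _ h.symm)
  have hfin : Finite (IntermediateField k F) := Finite.of_injective Φ hinj
  refine ⟨Set.toFinite _, ?_⟩
  rw [Set.ncard_univ]
  refine (Nat.card_le_card_of_injective Φ hinj).trans (le_of_eq ?_)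
  rw [Nat.card_eq_fintype_card, Fintype.card_set, Fintype.card_prod, hcard]

end Pool.Agent.Work.MuB
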