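import Mathlib

set_option autoImplicit false
set_option maxHeartbeats 400000

/-! # S1: a uniform form of Kronecker's theorem -/

namespace Pool.Agent.Work.MuB

open NumberField Module NumberField.InfinitePlace Polynomial
open scoped Real

/-- the conjugates of integers of bounded degree and height form a finite set -/
theorem finite_conj (N : ℕ) (B : ℝ) : {z : ℂ | ∃ (F : Type) (_ : Field F) (_ : NumberField F)
    (φ : F →+* ℂ) (x : F), finrank ℚ F = N ∧ IsIntegral ℤ x ∧ (∀ ψ : F →+* ℂ, ‖ψ x‖ ≤ B) ∧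
      z = φ x}.Finite := by
  classical
  let C := Nat.ceil (max B 1 ^ N * N.choose (N / 2))
  have := bUnion_roots_finite (algebraMap ℤ ℂ) N (Set.finite_Icc (-C : ℤ) C)
  refine this.subset ?_
  rintro z ⟨F, _, _, φ, x, hF, hx, hB, rfl⟩
  simp_rw [Set.mem_iUnion]
  have h1 := minpoly.isIntegrallyClosed_eq_field_fractions' ℚ hx
  refine ⟨minpoly ℤ x, ⟨?_, fun i => ?_⟩, ?_⟩
  · rw [← (minpoly.monic hx).natDegree_map (algebraMap ℤ ℚ), ← h1, ← hF]
    exact minpoly.natDegree_le x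
  · rw [Set.mem_Icc, ← abs_le, ← @Int.cast_le ℝ]
    refine (Eq.trans_le ?_ <| Embeddings.coeff_bdd_of_norm_le (A := ℂ) hB i).trans ?_
    · rw [h1, coeff_map, eq_intCast, Int.norm_cast_rat, Int.norm_eq_abs, Int.cast_abs]
    · rw [hF]
      exact Nat.le_ceil _
  · rw [Finset.mem_coe, Multiset.mem_toFinset, mem_roots', IsRoot.def, eval_map]
    refine ⟨?_, ?_⟩
    · exact (Polynomial.map_ne_zero_iff (RingHom.injective_int _)).mpr (minpoly.ne_zero hx)
    · have h2 : aeval (φ x) (minpoly ℤ x) = 0 := by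
        have h3 : aeval x (minpoly ℤ x) = 0 := minpoly.aeval ℤ x
        have h4 := congrArg φ h3
        rw [map_zero] at h4
        rw [← h4, aeval_def, aeval_def, Polynomial.hom_eval₂]
        congr 1
        exact RingHom.ext_int _ _
      rw [← h2, aeval_def]

/-- S1 -/
theorem exists_delta_unif (N : ℕ) : ∃ δ : ℝ, 0 < δ ∧ ∀ (F : Type) [Field F] [NumberField F],
    finrank ℚ F = N → ∀ u : (𝓞 F)ˣ,
      (∀ w : InfinitePlace F, |Real.log (w (u : F))| < δ) → ∀ w : InfinitePlace F, w (u : F) = 1 := by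
  set Z := {z : ℂ | ∃ (F : Type) (_ : Field F) (_ : NumberField F)
    (φ : F →+* ℂ) (x : F), finrank ℚ F = N ∧ IsIntegral ℤ x ∧ (∀ ψ : F →+* ℂ, ‖ψ x‖ ≤ 3) ∧
      z = φ x} with hZ
  have hfin : Z.Finite := finite_conj N 3
  obtain ⟨δ, hδ0, hδ⟩ : ∃ δ : ℝ, 0 < δ ∧ ∀ z ∈ Z, |Real.log ‖z‖| < δ → Real.log ‖z‖ = 0 := by
    set W := (fun z : ℂ => |Real.log ‖z‖|) '' Z \ {0} with hW
    have hWf : W.Finite := (hfin.image _).subset Set.sdiff_subset
    rcases W.eq_empty_or_nonempty with h | h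
    · refine ⟨1, one_pos, fun z hz _ => ?_⟩
      by_contra hne
      have : |Real.log ‖z‖| ∈ W := ⟨⟨z, hz, rfl⟩, by simpa using hne⟩
      rw [h] at this
      exact this
    · obtain ⟨a, ha, hmin⟩ := hWf.exists_minimalFor id W h
      obtain ⟨⟨z0, hz0, rfl⟩, hne0⟩ := ha
      have hpos : 0 < |Real.log ‖z0‖| := lt_of_le_of_ne (abs_nonneg _) (fun h => hne0 h.symm)
      refine ⟨|Real.log ‖z0‖|, hpos, fun z hz hlt => ?_⟩
      by_contra hne
      have hmem : |Real.log ‖z‖| ∈ W := ⟨⟨z, hz, rfl⟩, by simpa using hne⟩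
      have := hmin hmem hlt.le
      simp only [id] at this
      linarith
  refine ⟨min δ 1, by positivity, ?_⟩
  intro F _ _ hF u hu w
  have hw0 : ∀ v : InfinitePlace F, 0 < v (u : F) := fun v => pos_iff.mpr (Units.coe_ne_zero u)
  have hb : ∀ ψ : F →+* ℂ, ‖ψ (u : F)‖ ≤ 3 := by
    intro ψ
    have h1 := hu (InfinitePlace.mk ψ)
    have h2 := hw0 (InfinitePlace.mk ψ)
    have h3 : Real.log (InfinitePlace.mk ψ (u : F)) < 1 :=
      (le_abs_self _).trans_lt (h1.trans_le (min_le_right _ _))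
    rw [Real.log_lt_iff_lt_exp h2, apply] at h3
    linarith [Real.exp_one_lt_d9]
  have hmem : w.embedding (u : F) ∈ Z :=
    ⟨F, inferInstance, inferInstance, w.embedding, u, hF, RingOfIntegers.isIntegral_coe _, hb, rfl⟩
  have h1 : ‖w.embedding (u : F)‖ = w (u : F) := norm_embedding_eq w _
  have h2 := hδ _ hmem (by rw [h1]; exact (hu w).trans_le (min_le_left _ _))
  rw [h1] at h2
  rcases Real.log_eq_zero.mp h2 with h | h | h
  · exact absurd h (hw0 w).ne'
  · exact h
  · have := hw0 w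
    linarith

end Pool.Agent.Work.MuB
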