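import Pool.Agent.Work.MP_a4986b_nt.BReg
import Pool.Agent.Work.MP_a4986b_nt.BKron
import Pool.Agent.Work.MP_a4986b_nt.BInter
import Pool.Agent.Work.MP_a4986b_nt.BGrid
import Pool.Agent.Work.MP_a4986b_nt.BCovol

set_option autoImplicit false
set_option maxHeartbeats 400000

/-! # Lower bound for the regulator of an arbitrary extension of a fixed number field -/

namespace Pool.Agent.Work.MuB

open NumberField Module MeasureTheory NumberField.InfinitePlace NumberField.Units
open scoped nonZeroDivisors ENNReal NNReal Real Pointwise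
open NumberField.Units.dirichletUnitTheorem

open scoped Classical in
/-- the real span of the logarithms of the units of an intermediate field -/
noncomputable def unitSpan {k F : Type*} [Field k] [Field F] [NumberField F]
    [Algebra k F] (F' : IntermediateField k F) : Submodule ℝ (logSpace F) :=
  Submodule.span ℝ {x : logSpace F | ∃ u : (𝓞 F)ˣ, (u : F) ∈ F' ∧
    x = logEmbedding F (Additive.ofMul u)}

open scoped Classical in
theorem finrank_unitSpan_le {k F : Type*} [Field k] [Field F] [NumberField F]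
    [Algebra k F] (F' : IntermediateField k F) [NumberField F'] :
    finrank ℝ (unitSpan F') ≤ Units.rank F' := by
  let ε : Fin (Units.rank F') → (𝓞 F)ˣ := fun i =>
    Units.map (algebraMap (𝓞 F') (𝓞 F) : 𝓞 F' →* 𝓞 F) (fundSystem F' i)
  have hle : unitSpan F' ≤ Submodule.span ℝ (Set.range fun i =>
      logEmbedding F (Additive.ofMul (ε i))) := by
    rw [unitSpan, Submodule.span_le]
    rintro x ⟨u, hu, rfl⟩
    have hi : IsIntegral ℤ (⟨(u : F), hu⟩ : F') :=
      (isIntegral_algebraMap_iff (algebraMap F' F).injective).mp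
        (RingOfIntegers.isIntegral_coe (u : 𝓞 F))
    have huu : (u : F) * ((u⁻¹ : (𝓞 F)ˣ) : F) = 1 := by
      rw [← map_mul, ← Units.val_mul, mul_inv_cancel, Units.val_one, map_one]
    have hu' : ((u⁻¹ : (𝓞 F)ˣ) : F) ∈ F' := by
      rw [eq_inv_of_mul_eq_one_right huu]
      exact F'.inv_mem hu
    have hi' : IsIntegral ℤ (⟨((u⁻¹ : (𝓞 F)ˣ) : F), hu'⟩ : F') :=
      (isIntegral_algebraMap_iff (algebraMap F' F).injective).mp
        (RingOfIntegers.isIntegral_coe ((u⁻¹ : (𝓞 F)ˣ) : 𝓞 F))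
    have hval : (⟨⟨(u : F), hu⟩, hi⟩ : 𝓞 F') * ⟨⟨((u⁻¹ : (𝓞 F)ˣ) : F), hu'⟩, hi'⟩ = 1 := by
      apply RingOfIntegers.ext
      apply Subtype.ext
      exact huu
    let u' : (𝓞 F')ˣ := Units.mkOfMulEqOne _ _ hval
    have hmap : Units.map (algebraMap (𝓞 F') (𝓞 F) : 𝓞 F' →* 𝓞 F) u' = u := by
      apply Units.ext
      apply RingOfIntegers.ext
      rfl
    obtain ⟨⟨ζ, e⟩, he, -⟩ := exist_unique_eq_mul_prod F' u'
    simp only at he
    have h1 : logEmbedding F (Additive.ofMul (Units.map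
        (algebraMap (𝓞 F') (𝓞 F) : 𝓞 F' →* 𝓞 F) (ζ : (𝓞 F')ˣ))) = 0 := by
      rw [logEmbedding_eq_zero_iff]
      have hζ : IsOfFinOrder (ζ : (𝓞 F')ˣ) := ζ.2
      exact MonoidHom.isOfFinOrder _ hζ
    have h2 : logEmbedding F (Additive.ofMul u) =
        ∑ i, e i • logEmbedding F (Additive.ofMul (ε i)) := by
      conv_lhs => rw [← hmap, he]
      rw [map_mul, ofMul_mul, map_add, h1, zero_add, map_prod, ofMul_prod, map_sum]
      refine Finset.sum_congr rfl fun i _ => ?_
      rw [map_zpow, ofMul_zpow, map_zsmul]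
    rw [h2]
    refine Submodule.sum_mem _ fun i _ => ?_
    rw [← Int.cast_smul_eq_zsmul ℝ]
    exact Submodule.smul_mem _ _ (Submodule.subset_span ⟨i, rfl⟩)
  calc finrank ℝ (unitSpan F') ≤ finrank ℝ (Submodule.span ℝ (Set.range fun i =>
      logEmbedding F (Additive.ofMul (ε i)))) := Submodule.finrank_mono hle
    _ ≤ Fintype.card (Fin (Units.rank F')) := finrank_range_le_card _
    _ = Units.rank F' := Fintype.card_fin _

theorem rank_le_finrank (F : Type*) [Field F] [NumberField F] : Units.rank F ≤ finrank ℚ F := by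
  rw [Units.rank]
  have h1 := sum_mult_eq (K := F)
  have h2 : Fintype.card (InfinitePlace F) ≤ ∑ w : InfinitePlace F, mult w := by
    rw [← Finset.card_univ, Finset.card_eq_sum_ones]
    exact Finset.sum_le_sum fun w _ => mult_pos
  omega

open scoped Classical in
/-- small vectors of the unit lattice come from units with small logarithms -/
theorem abs_log_lt_of_logEmbedding {F : Type*} [Field F] [NumberField F] {u : (𝓞 F)ˣ} {a δ : ℝ}
    (ha : 0 ≤ a) (h : ∀ i, |logEmbedding F (Additive.ofMul u) i| < a)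
    (had : 2 * finrank ℚ F * a + a < δ) :
    ∀ v : InfinitePlace F, |Real.log (v (u : F))| < δ := by
  refine abs_log_lt_of_ne (v₀ := w₀) ha (fun v hv => ?_) had
  have h1 := h ⟨v, hv⟩
  rw [logEmbedding_component, abs_mul, Nat.abs_cast] at h1
  have h2 : (1 : ℝ) ≤ (mult v : ℝ) := by exact_mod_cast mult_pos
  have h3 := abs_nonneg (Real.log (v (u : F)))
  nlinarith

/-- R2++ : regulator -/
theorem regulator_ge_all (k : Type) [Field k] [NumberField k] (m : ℕ) : ∃ C c : ℝ, 1 ≤ C ∧ 0 < c ∧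
    ∀ (F : Type) [Field F] [NumberField F] [Algebra k F] (ρ : ℕ), finrank k F = m →
      (∀ F' : IntermediateField k F, F' ≠ ⊤ → Units.rank F' ≤ ρ) →
      C ≤ |(discr F : ℝ)| →
      c * (1 + Real.log |(discr F : ℝ)|) ^ (Units.rank F - ρ) ≤ regulator F := by
  classical
  rcases Nat.eq_zero_or_pos m with hm0 | hm0
  · refine ⟨1, 1, le_refl _, one_pos, ?_⟩
    intro F _ _ _ ρ h2
    have : 0 < finrank k F := finrank_pos
    omega
  set N : ℕ := m * finrank ℚ k with hN
  have hN1 : 1 ≤ N := Nat.mul_pos hm0 finrank_pos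
  have hNR1 : (1 : ℝ) ≤ N := by exact_mod_cast hN1
  have hmR : (1 : ℝ) ≤ m := by exact_mod_cast hm0
  obtain ⟨δ, hδ0, hδ⟩ := exists_delta_unif N
  obtain ⟨A, hA⟩ := card_intermediate_le m
  obtain ⟨C1, hC1⟩ := log_discr_le_of_adjoin k m
  set δ' : ℝ := δ / (4 * N) with hδ'
  have hδ'0 : 0 < δ' := by positivity
  have hδ'1 : 2 * N * δ' + δ' < δ := by
    have h1 : 2 * N * δ' = δ / 2 := by rw [hδ']; field_simp; ring
    have h2 : δ' ≤ δ / 4 := by
      rw [hδ']
      apply div_le_div_of_nonneg_left hδ0.le (by norm_num) (by linarith)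
    linarith
  choose c0 hc0 hcov using fun r : ℕ => covolume_ge r δ' hδ'0
  obtain ⟨c1, hc1, hc1le⟩ : ∃ c1 : ℝ, 0 < c1 ∧ ∀ r ≤ N, c1 ≤ c0 r := by
    obtain ⟨r0, -, hr0⟩ := Finset.exists_min_image (Finset.range (N + 1)) c0
      ⟨0, Finset.mem_range.mpr (Nat.succ_pos _)⟩
    exact ⟨c0 r0, hc0 r0, fun r hr => hr0 r (Finset.mem_range.mpr (by omega))⟩
  set Q : ℝ := 16 * N * m * (2 * N + 2) * (N * A + 1) with hQ
  have hQ1 : 1 ≤ Q := by
    have h1 : (1 : ℝ) ≤ N * A + 1 := by
      have : (0 : ℝ) ≤ N * A := by positivity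
      linarith
    have h2 : (1 : ℝ) ≤ 2 * N + 2 := by linarith
    have h3 : (1 : ℝ) ≤ 16 * N := by linarith
    rw [hQ]
    exact one_le_mul_of_one_le_of_one_le (one_le_mul_of_one_le_of_one_le
      (one_le_mul_of_one_le_of_one_le h3 hmR) h2) h1
  have hQ0 : 0 < Q := by linarith
  set t : ℝ := 1 / Q with ht
  have ht0 : 0 < t := by positivity
  have ht1 : t ≤ 1 := by rw [ht, div_le_one hQ0]; exact hQ1
  refine ⟨Real.exp (2 * |C1| + 1 + Q), c1 * t ^ N, Real.one_le_exp (by positivity), by positivity,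
    ?_⟩
  intro F _ _ _ ρ h2 hρ hD
  have hn : finrank ℚ F = N := by
    rw [← finrank_mul_finrank ℚ k F, h2, mul_comm]
  set L : ℝ := Real.log |(discr F : ℝ)| with hL
  have hL1 : 2 * |C1| + 1 + Q ≤ L := by
    rw [hL, Real.le_log_iff_exp_le (lt_of_lt_of_le (Real.exp_pos _) hD)]
    exact hD
  have hC10 : 0 ≤ |C1| := abs_nonneg _
  have hL0 : 0 ≤ 1 + L := by linarith
  set B : ℝ := t * (1 + L) with hB
  have hB1 : 1 ≤ B := by
    rw [hB, ht, one_div, inv_mul_eq_div, le_div_iff₀ hQ0]
    linarith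
  have hr : Units.rank F ≤ N := hn ▸ rank_le_finrank F
  have hcard : Fintype.card {w : InfinitePlace F // w ≠ w₀} = Units.rank F := by
    rw [Fintype.card_subtype_compl, Fintype.card_subtype_eq, Units.rank]
  have hsmall : ∀ x ∈ unitLattice F, (∀ i, |x i| < δ') → x = 0 := by
    rintro x ⟨u, -, rfl⟩ hx
    have h3 := abs_log_lt_of_logEmbedding (u := Additive.toMul u) hδ'0.le hx
      (by rw [hn]; exact hδ'1)
    have h4 := hδ F hn (Additive.toMul u) h3
    exact logEmbedding_eq_zero_iff.mpr ((mem_torsion F).mpr h4)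
  have hreg : regulator F = ZLattice.covolume (unitLattice F) := rfl
  have hfin : c1 * t ^ N * (1 + L) ^ (Units.rank F - ρ) ≤
      c0 (Units.rank F) * B ^ (Units.rank F - ρ) := by
    rw [hB, mul_pow]
    have h3 : t ^ N ≤ t ^ (Units.rank F - ρ) := pow_le_pow_of_le_one ht0.le ht1 (by omega)
    calc c1 * t ^ N * (1 + L) ^ (Units.rank F - ρ)
        ≤ c0 (Units.rank F) * t ^ (Units.rank F - ρ) * (1 + L) ^ (Units.rank F - ρ) := by
          gcongr
          · exact (hc0 _).le
          · exact hc1le _ hr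
      _ = _ := by ring
  refine hfin.trans ?_
  rw [hreg]
  -- the case of a large `ρ`
  by_cases hρr : Units.rank F ≤ ρ
  · have h3 := hcov (Units.rank F) {w : InfinitePlace F // w ≠ w₀} hcard (unitLattice F) B
      (Units.rank F) hB1 le_rfl hsmall (by
        refine (Submodule.finrank_le _).trans ?_
        rw [Module.finrank_fintype_fun_eq_card, hcard])
    rw [Nat.sub_eq_zero_of_le hρr]
    rw [Nat.sub_self] at h3
    exact h3
  push Not at hρr
  refine hcov (Units.rank F) {w : InfinitePlace F // w ≠ w₀} hcard (unitLattice F) B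
      ρ hB1 hρr.le hsmall ?_
  by_contra hcon
  push Not at hcon
  obtain ⟨f, hfS, -, hfind⟩ := Submodule.exists_fun_fin_finrank_span_eq ℝ
    {x : {w : InfinitePlace F // w ≠ w₀} → ℝ | x ∈ unitLattice F ∧ ∀ i, |x i| < B}
  set v : Fin (ρ + 1) → ({w : InfinitePlace F // w ≠ w₀} → ℝ) := fun j =>
    f (Fin.castLE hcon j) with hv
  have hvind : LinearIndependent ℝ v := hfind.comp _ (Fin.castLE_injective hcon)
  have hvS : ∀ j, v j ∈ unitLattice F ∧ ∀ i, |v j i| < B := fun j => hfS _
  have hex : ∀ j, ∃ u : (𝓞 F)ˣ, logEmbedding F (Additive.ofMul u) = v j := by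
    intro j
    obtain ⟨u, -, hu⟩ := (hvS j).1
    exact ⟨Additive.toMul u, hu⟩
  choose u hu using hex
  obtain ⟨hfinI, hcardI⟩ := hA k F h2 hm0
  set T : Finset (IntermediateField k F) := hfinI.toFinset.filter (fun F' => F' ≠ ⊤) with hT
  have hTcard : T.card ≤ A := by
    refine (Finset.card_filter_le _ _).trans ?_
    rw [← Set.ncard_eq_toFinset_card _ hfinI]
    exact hcardI
  obtain ⟨a, haA, haW⟩ := exists_combination v hvind T hTcard (fun F' => unitSpan F')
    (fun F' hF' => by
      have h3 : F' ≠ ⊤ := (Finset.mem_filter.mp hF').2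
      exact Nat.lt_succ_of_le ((finrank_unitSpan_le F').trans (hρ F' h3)))
    (fun F' _ => inferInstance)
  set U : (𝓞 F)ˣ := ∏ j, u j ^ a j with hU
  have hUlog : logEmbedding F (Additive.ofMul U) = ∑ j, (a j : ℝ) • v j := by
    rw [hU, ofMul_prod, map_sum]
    refine Finset.sum_congr rfl fun j _ => ?_
    rw [ofMul_pow, map_nsmul, hu, Nat.cast_smul_eq_nsmul]
  have htop : IntermediateField.adjoin k {(U : F)} = ⊤ := by
    by_contra hne
    refine haW (IntermediateField.adjoin k {(U : F)}) ?_ ?_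
    · rw [hT, Finset.mem_filter]
      exact ⟨(Set.Finite.mem_toFinset _).mpr (Set.mem_univ _), hne⟩
    · rw [← hUlog]
      exact Submodule.subset_span ⟨U, IntermediateField.mem_adjoin_simple_self k _, rfl⟩
  have hdeg : (minpoly k (U : F)).natDegree = m := by
    have h3 := IntermediateField.adjoin.finrank
      (Algebra.IsIntegral.isIntegral (R := k) (U : F))
    rw [htop, IntermediateField.finrank_top', h2] at h3
    exact h3.symm
  have hρN : ρ + 1 ≤ N := by omega
  set a1 : ℝ := (N * A + 1) * B with ha1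
  have hB0 : 0 < B := by linarith
  have ha10 : 0 ≤ a1 := by positivity
  have hUsmall : ∀ i, |logEmbedding F (Additive.ofMul U) i| < a1 := by
    intro i
    rw [hUlog, Finset.sum_apply]
    calc |∑ j, ((a j : ℝ) • v j) i| ≤ ∑ j, |((a j : ℝ) • v j) i| :=
          Finset.abs_sum_le_sum_abs _ _
      _ ≤ ∑ j : Fin (ρ + 1), (A : ℝ) * B := by
          refine Finset.sum_le_sum fun j _ => ?_
          rw [Pi.smul_apply, smul_eq_mul, abs_mul, Nat.abs_cast]
          have h3 : (a j : ℝ) ≤ A := by exact_mod_cast haA j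
          have h4 := (hvS j).2 i
          gcongr
      _ = ((ρ + 1 : ℕ) : ℝ) * (A * B) := by
          rw [Finset.sum_const, Finset.card_univ, Fintype.card_fin, nsmul_eq_mul]
      _ ≤ N * (A * B) := by
          gcongr
      _ < a1 := by
          rw [ha1]; linarith
  set E : ℝ := (2 * N + 2) * a1 with hE
  have hE0 : 0 ≤ E := by positivity
  have ha1pos : 0 < a1 := by positivity
  have hlog := abs_log_lt_of_logEmbedding ha10 hUsmall (δ := E) (by rw [hn, hE]; linarith)
  have h5 := hC1 F h2 (U : 𝓞 F) hdeg (Real.exp E) (Real.one_le_exp hE0) (fun σ => by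
    have h6 := hlog (InfinitePlace.mk σ)
    rw [InfinitePlace.apply] at h6
    have h7 : 0 < ‖σ (U : F)‖ := by
      rw [norm_pos_iff, Ne, map_eq_zero]
      exact Units.coe_ne_zero U
    rw [← Real.log_le_iff_le_exp h7]
    exact (le_abs_self _).trans h6.le)
  rw [Real.log_exp, ← hL] at h5
  have h8 : C1 ≤ |C1| := le_abs_self _
  have h9 : 2 * ((finrank ℚ k : ℝ) * (m : ℝ)) * (m : ℝ) * E = (1 + L) / 8 := by
    have h10 : (finrank ℚ k : ℝ) * (m : ℝ) = N := by rw [hN]; push_cast; ring
    rw [h10, hE, ha1, hB, ht, hQ]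
    have h11 : (0 : ℝ) < N * A + 1 := by positivity
    field_simp
    ring
  rw [h9] at h5
  linarith

end Pool.Agent.Work.MuB
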