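import Pool.Agent.Work.MP_a4986b_nt.BClassC
import Pool.Agent.Work.MP_a4986b_nt.BRegAll

set_option autoImplicit false
set_option maxHeartbeats 400000

/-! # The class number of an extension of prime degree is small -/

namespace Pool.Agent.Work.MuY

open NumberField Module Pool.Agent.Work.MuB

/-- the order of `p` modulo the prime `q` -/
theorem order_bounds {p q : ℕ} (hp : p.Prime) (hq : q.Prime) (hpq : p ≠ q) :
    1 ≤ orderOf (p : ZMod q) ∧ orderOf (p : ZMod q) ≤ q - 1 := by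
  have : Fact q.Prime := ⟨hq⟩
  have h0 : (p : ZMod q) ≠ 0 := by
    intro h
    rw [ZMod.natCast_eq_zero_iff] at h
    exact hpq ((Nat.prime_dvd_prime_iff_eq hq hp).1 h).symm
  have h1 : orderOf (p : ZMod q) ∣ q - 1 := ZMod.orderOf_dvd_card_sub_one h0
  have h2 : 0 < q - 1 := by have := hq.two_le; omega
  exact ⟨Nat.pos_of_dvd_of_pos h1 h2, Nat.le_of_dvd h2 h1⟩

/-- intermediate fields of an extension of prime degree -/
theorem rank_proper {k F : Type} [Field k] [NumberField k] [Field F] [NumberField F] [Algebra k F]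
    {q : ℕ} (hq : q.Prime) (hF : finrank k F = q) (F' : IntermediateField k F) (h : F' ≠ ⊤) :
    Units.rank F' ≤ Units.rank k := by
  have hfin : Module.Finite k F := Module.Finite.of_restrictScalars_finite ℚ k F
  have h1 : finrank k F' * finrank F' F = q := by rw [finrank_mul_finrank, hF]
  have hbot : F' = ⊥ := by
    rcases (Nat.prime_mul_iff.1 (h1 ▸ hq)) with h2 | h2
    · exact absurd (IntermediateField.finrank_eq_one_iff_eq_top.1 h2.2) h
    · exact IntermediateField.finrank_eq_one_iff.1 h2.2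
  subst hbot
  have h3 := rank_bounds_gen k 1 (⊥ : IntermediateField k F) IntermediateField.finrank_bot
  omega

/-- comparison of the factors `p ^ (2 f) (1 + log p) ^ (2 e)` and
`P ^ 2 (1 + log P) ^ (2 e)`, `P = p ^ f` -/
theorem compare {p f q m0 : ℕ} (hp : 2 ≤ p) (hf : 1 ≤ f) (hfq : f ≤ q) {e : ℤ} (he : |e| ≤ m0) :
    (1 + Real.log p) ^ (2 * e) ≤
      (q : ℝ) ^ (2 * m0) * (1 + Real.log ((p ^ f : ℕ) : ℝ)) ^ (2 * e) := by
  have hp1 : (1 : ℝ) ≤ p := by exact_mod_cast (by omega : 1 ≤ p)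
  have hl : 0 ≤ Real.log p := Real.log_nonneg hp1
  have hq1 : (1 : ℝ) ≤ q := by exact_mod_cast (by omega : 1 ≤ q)
  have hf1 : (1 : ℝ) ≤ f := by exact_mod_cast hf
  have hfq' : (f : ℝ) ≤ q := by exact_mod_cast hfq
  rw [Nat.cast_pow, Real.log_pow]
  set x : ℝ := 1 + Real.log p with hx
  set y : ℝ := 1 + (f : ℝ) * Real.log p with hy
  have hx1 : 1 ≤ x := by linarith
  have hxy : x ≤ y := by nlinarith
  have hyx : y ≤ q * x := by nlinarith
  have hQ : (1 : ℝ) ≤ (q : ℝ) ^ (2 * m0) := one_le_pow₀ hq1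
  rcases le_or_gt 0 e with h | h
  · obtain ⟨n, rfl⟩ := Int.eq_ofNat_of_zero_le h
    rw [show (2 * (n : ℤ)) = ((2 * n : ℕ) : ℤ) by push_cast; ring, zpow_natCast, zpow_natCast]
    have h1 : x ^ (2 * n) ≤ y ^ (2 * n) := pow_le_pow_left₀ (by linarith) hxy _
    have h2 : 0 ≤ y ^ (2 * n) := by positivity
    nlinarith
  · obtain ⟨n, hn⟩ := Int.eq_ofNat_of_zero_le (by omega : 0 ≤ -e)
    have he' : e = -(n : ℤ) := by omega
    subst he'
    have hnm : n ≤ m0 := by
      rw [abs_neg, abs_of_nonneg (by positivity)] at he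
      exact_mod_cast he
    rw [show (2 * -(n : ℤ)) = -((2 * n : ℕ) : ℤ) by push_cast; ring, zpow_neg, zpow_neg,
      zpow_natCast, zpow_natCast, ← div_eq_mul_inv, le_div_iff₀ (by positivity),
      inv_mul_le_iff₀ (by positivity)]
    calc y ^ (2 * n) ≤ ((q : ℝ) * x) ^ (2 * n) := pow_le_pow_left₀ (by positivity) hyx _
      _ = x ^ (2 * n) * (q : ℝ) ^ (2 * n) := by rw [mul_pow, mul_comm]
      _ ≤ x ^ (2 * n) * (q : ℝ) ^ (2 * m0) :=
        mul_le_mul_of_nonneg_left (pow_le_pow_right₀ hq1 (by omega)) (by positivity)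

/-- the class numbers of `F` (degree `q` over `k`) and of `k` are small -/
theorem class_lt (k : Type) [Field k] [NumberField k] (q : ℕ) (hq : q.Prime) :
    ∃ c : ℝ, 0 < c ∧ ∀ (F : Type) [Field F] [NumberField F] [Algebra k F] (p : ℕ), p.Prime →
      p ≠ q → finrank k F = q →
      |(discr F : ℝ)| ≤ c * (p : ℝ) ^ (2 * orderOf (p : ZMod q)) *
        (1 + Real.log p) ^ (2 * ((Units.rank F : ℤ) - Units.rank k - q + 1)) →
      Nat.card (ClassGroup (𝓞 F)) < p ^ orderOf (p : ZMod q) ∧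
        Nat.card (ClassGroup (𝓞 k)) < p := by
  obtain ⟨C, hC, h⟩ := class_le_all_of k q (regulator_ge_all k q)
  set m0 : ℕ := q * (Units.rank k + 1) + q with hm0
  obtain ⟨c1, hc1, hc11, H⟩ := lt_of_bound C m0
  have hq1 : (1 : ℝ) ≤ q := by exact_mod_cast hq.one_lt.le
  set h0 : ℕ := Nat.card (ClassGroup (𝓞 k)) with hh0
  have hh1 : 1 ≤ h0 := Nat.card_pos
  have hh1' : (1 : ℝ) ≤ h0 := by exact_mod_cast hh1
  have hlh : 0 ≤ Real.log h0 := Real.log_nonneg hh1'
  set B : ℝ := (h0 : ℝ) ^ (2 * (q - 1)) * (1 + Real.log h0) ^ (2 * m0) with hB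
  have hB0 : 0 < B := by positivity
  have hQ0 : (0 : ℝ) < (q : ℝ) ^ (2 * m0) := by positivity
  refine ⟨min (c1 / (q : ℝ) ^ (2 * m0)) (1 / (2 * B)), lt_min (by positivity) (by positivity),
    fun F _ _ _ p hp hpq hF hD => ?_⟩
  obtain ⟨hf1, hfq⟩ := order_bounds hp hq hpq
  set f : ℕ := orderOf (p : ZMod q) with hf
  obtain ⟨hr1, hr2⟩ := rank_bounds_gen k q F hF
  set e : ℤ := (Units.rank F : ℤ) - Units.rank k - q + 1 with he
  have heb : |e| ≤ m0 := by
    rw [abs_le]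
    have h1 : (Units.rank F : ℤ) + 1 ≤ ((q * (Units.rank k + 1) : ℕ) : ℤ) := by exact_mod_cast hr2
    have h2 : (Units.rank k : ℤ) ≤ Units.rank F := by exact_mod_cast hr1
    constructor <;> push_cast at * <;> omega
  have hp1 : (1 : ℝ) ≤ p := by exact_mod_cast hp.one_lt.le
  have hlp : 0 ≤ Real.log p := Real.log_nonneg hp1
  have hx0 : 0 < (1 + Real.log p) := by linarith
  have hz0 : (0 : ℝ) < (1 + Real.log p) ^ (2 * e) := zpow_pos hx0 _
  have hD1 := one_le_abs_discr F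
  constructor
  · refine H _ (p ^ f) e _ ?_ hD1 heb
      (h F (Units.rank k) hF (fun F' hF' => rank_proper hq hF F' hF') hr1) ?_
    · calc 2 ≤ p := hp.two_le
        _ = p ^ 1 := (pow_one p).symm
        _ ≤ p ^ f := Nat.pow_le_pow_right hp.pos hf1
    · have h1 := compare hp.two_le hf1 (by omega : f ≤ q) heb
      have h2 : min (c1 / (q : ℝ) ^ (2 * m0)) (1 / (2 * B)) ≤ c1 / (q : ℝ) ^ (2 * m0) :=
        min_le_left _ _
      have hpf : ((p ^ f : ℕ) : ℝ) ^ 2 = (p : ℝ) ^ (2 * f) := by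
        rw [Nat.cast_pow, ← pow_mul, mul_comm]
      rw [hpf]
      have hpp : (0 : ℝ) ≤ (p : ℝ) ^ (2 * f) := by positivity
      calc |(discr F : ℝ)| ≤ min (c1 / (q : ℝ) ^ (2 * m0)) (1 / (2 * B)) * (p : ℝ) ^ (2 * f) *
            (1 + Real.log p) ^ (2 * e) := hD
        _ ≤ c1 / (q : ℝ) ^ (2 * m0) * (p : ℝ) ^ (2 * f) * (1 + Real.log p) ^ (2 * e) :=
          mul_le_mul_of_nonneg_right (mul_le_mul_of_nonneg_right h2 hpp) hz0.le
        _ ≤ c1 / (q : ℝ) ^ (2 * m0) * (p : ℝ) ^ (2 * f) *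
            ((q : ℝ) ^ (2 * m0) * (1 + Real.log ((p ^ f : ℕ) : ℝ)) ^ (2 * e)) :=
          mul_le_mul_of_nonneg_left h1 (by positivity)
        _ = c1 * (p : ℝ) ^ (2 * f) * (1 + Real.log ((p ^ f : ℕ) : ℝ)) ^ (2 * e) := by
          field_simp
  · by_contra hle
    rw [not_lt] at hle
    have hle' : (p : ℝ) ≤ h0 := by exact_mod_cast hle
    have h2 : min (c1 / (q : ℝ) ^ (2 * m0)) (1 / (2 * B)) ≤ 1 / (2 * B) := min_le_right _ _
    have h3 : (p : ℝ) ^ (2 * f) ≤ (h0 : ℝ) ^ (2 * (q - 1)) :=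
      calc (p : ℝ) ^ (2 * f) ≤ (p : ℝ) ^ (2 * (q - 1)) := pow_le_pow_right₀ hp1 (by omega)
        _ ≤ _ := pow_le_pow_left₀ (by linarith) hle' _
    have h4 : (1 + Real.log p) ^ (2 * e) ≤ (1 + Real.log h0) ^ (2 * m0) :=
      calc (1 + Real.log p) ^ (2 * e) ≤ (1 + Real.log p) ^ (((2 * m0 : ℕ)) : ℤ) :=
            zpow_le_zpow_right₀ (by linarith) (by
              have := (abs_le.1 heb).2
              push_cast
              omega)
        _ = (1 + Real.log p) ^ (2 * m0) := zpow_natCast _ _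
        _ ≤ _ := pow_le_pow_left₀ hx0.le (by
              have := Real.log_le_log (by linarith : (0 : ℝ) < p) hle'
              linarith) _
    have h5 : |(discr F : ℝ)| ≤ 1 / 2 :=
      calc |(discr F : ℝ)| ≤ min (c1 / (q : ℝ) ^ (2 * m0)) (1 / (2 * B)) * (p : ℝ) ^ (2 * f) *
            (1 + Real.log p) ^ (2 * e) := hD
        _ ≤ 1 / (2 * B) * (h0 : ℝ) ^ (2 * (q - 1)) * (1 + Real.log h0) ^ (2 * m0) := by
          gcongr
        _ = 1 / 2 := by
          rw [mul_assoc, ← hB]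
          field_simp
    linarith

end Pool.Agent.Work.MuY
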