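import Pool.Agent.Work.MP_a4986b_nt.YRk
import Pool.Agent.Work.MP_a4986b_nt.YBound

set_option autoImplicit false
set_option maxHeartbeats 400000
set_option linter.unusedSectionVars false

/-! # Abelian extensions: the conclusions, and the discriminant criterion -/

namespace Pool.Agent.Work.MuY

open NumberField Module IntermediateField
open Pool.Agent.Work.MuI Pool.Agent.Work.MuB

/-- conclusion for `F / k` and `p`: the layers of `F` and `k` have class numbers with the same
`p`-part; and if the `p`-ranks of the class groups of the layers of `k` are bounded, then Q1 holds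
for `p` and every subfield of index prime to `p` of every Galois extension of `F` of `p`-power
degree -/
def RelExtensions (p : ℕ) (k F : Type) [Field k] [NumberField k] [Field F] [NumberField F]
    [Algebra k F] : Prop :=
  (∀ (φ : F →+* ℂ) (m : ℕ) (E : IntermediateField ℚ ℂ), LayerAt p m E →
    padicValNat p (Nat.card (ClassGroup (𝓞 ↥(im φ ⊔ E)))) =
      padicValNat p (Nat.card (ClassGroup (𝓞 ↥(im (φ.comp (algebraMap k F)) ⊔ E))))) ∧
  (RankBounded p k →
    ∀ (L : IntermediateField ℚ ℂ) [NumberField L] [Algebra F L] [IsGalois F L] (n : ℕ),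
      finrank F L = p ^ n → ∀ L' : IntermediateField ℚ ℂ, L' ≤ L →
        ¬ p ∣ IntermediateField.relfinrank L' L → MuZero p L')

/-- the abelian criterion: `k ⊆ k' ⊆ F`, `F / k` is abelian of degree prime to `p`, `F / k'` is
non-split above `p`, and every cyclic subextension of `F / k` not contained in `k'` satisfies the
gap condition -/
theorem rel_extensions {p : ℕ} (hp : p.Prime) (hp2 : p ≠ 2) (k k' F : Type) [Field k]
    [NumberField k] [Field k'] [NumberField k'] [Field F] [NumberField F] [Algebra k k']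
    [Algebra k' F] [Algebra k F] [IsScalarTower k k' F] [IsAbelianGalois k F]
    (hpn : ¬ p ∣ finrank k F) (hns : NonSplit p k' F)
    (hgap : ∀ F' : IntermediateField k F, IsCyclic Gal(F'/k) →
      ¬ (F' : Set F) ⊆ Set.range (algebraMap k' F) → Gap p k F') :
    RelExtensions p k' F := by
  have hG' : IsGalois k' F := IsGalois.tower_top_of_isGalois k k' F
  have hpn' : ¬ p ∣ finrank k' F := by
    intro h
    apply hpn
    rw [← finrank_mul_finrank k k' F]
    exact Dvd.dvd.mul_left h _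
  have h1 := layers_abs hp hp2 k (finrank k' F) k' F rfl hpn (cycGap_of_intermediate hgap) hns
  refine ⟨h1, fun hr L _ _ _ n hn L' hL' hcop => mu_of_rank hp hp2 ?_ L n hn L' hL' hcop⟩
  intro φ
  obtain ⟨r, hr'⟩ := hr (φ.comp (algebraMap k' F))
  refine ⟨r, fun m E hE => ?_⟩
  rw [rk_layers hp hpn' φ m E hE (h1 φ m E hE)]
  exact hr' m E hE

/-- subfields of `F` not contained in `k` -/
theorem not_range_iff {k F : Type} [Field k] [Field F] [Algebra k F] (F' : IntermediateField k F) :
    ¬ (F' : Set F) ⊆ Set.range (algebraMap k F) ↔ F' ≠ ⊥ := by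
  rw [not_iff_not, ← IntermediateField.coe_bot, ← SetLike.coe_subset_coe.symm.eq]
  exact le_bot_iff

/-- the class numbers of `F` and `k` themselves -/
theorem padic_of_rel {p : ℕ} {k F : Type} [Field k] [NumberField k] [Field F]
    [NumberField F] [Algebra k F] (h : RelExtensions p k F) :
    padicValNat p (Nat.card (ClassGroup (𝓞 F))) = padicValNat p (Nat.card (ClassGroup (𝓞 k))) := by
  obtain ⟨φ⟩ : Nonempty (F →+* ℂ) := inferInstance
  have hE : LayerAt p 0 (⊥ : IntermediateField ℚ ℂ) :=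
    ⟨bot_le, by rw [IntermediateField.finrank_bot, pow_zero]⟩
  have h1 := h.1 φ 0 ⊥ hE
  have e1 : F ≃+* ↥(im φ ⊔ (⊥ : IntermediateField ℚ ℂ)) :=
    ((AlgEquiv.ofInjectiveField φ.toRatAlgHom).trans
      (IntermediateField.equivOfEq (sup_bot_eq (im φ)).symm)).toRingEquiv
  have e2 : k ≃+* ↥(im (φ.comp (algebraMap k F)) ⊔ (⊥ : IntermediateField ℚ ℂ)) :=
    ((AlgEquiv.ofInjectiveField (φ.comp (algebraMap k F)).toRatAlgHom).trans
      (IntermediateField.equivOfEq (sup_bot_eq (im (φ.comp (algebraMap k F)))).symm)).toRingEquiv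
  rw [card_cl_eq e1, card_cl_eq e2]
  exact h1

/-- one prime above `p` -/
theorem one_prime_abelian {p : ℕ} (hp : p.Prime) (hp2 : p ≠ 2) (k F : Type) [Field k]
    [NumberField k] [Field F] [NumberField F] [Algebra k F] [IsAbelianGalois k F]
    (hpn : ¬ p ∣ finrank k F) (hone : ∃! P : Ideal (𝓞 F), P.IsPrime ∧ (p : 𝓞 F) ∈ P)
    (hgap : ∀ F' : IntermediateField k F, IsCyclic Gal(F'/k) → F' ≠ ⊥ → Gap p k F')
    (hk : ¬ p ∣ Nat.card (ClassGroup (𝓞 k))) :
    ¬ p ∣ Nat.card (ClassGroup (𝓞 F)) ∧ Extensions p F := by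
  have h1 := padic_of_rel (rel_extensions hp hp2 k k F hpn
    (fun P Q hP hQ hpP hpQ _ => hone.unique ⟨hP, hpP⟩ ⟨hQ, hpQ⟩)
    (fun F' hc hF' => hgap F' hc ((not_range_iff F').1 hF')))
  have hpf : Fact p.Prime := ⟨hp⟩
  have h2 : ¬ p ∣ Nat.card (ClassGroup (𝓞 F)) := by
    intro h
    have h3 : 1 ≤ padicValNat p (Nat.card (ClassGroup (𝓞 F))) :=
      one_le_padicValNat_of_dvd Nat.card_pos.ne' h
    rw [h1, padicValNat.eq_zero_of_not_dvd hk] at h3
    omega
  exact ⟨h2, extensions hp hp2 h2 hone⟩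

/-- a small class number gives the gap condition -/
theorem gap_of_lt {p : ℕ} (hp : p.Prime) {k F : Type} [Field k] [NumberField k] [Field F]
    [NumberField F] [Algebra k F] [IsGalois k F] (h1 : 1 < finrank k F)
    (h : Nat.card (ClassGroup (𝓞 F)) < p ^ orderOf (p : ZMod (finrank k F))) : Gap p k F := by
  have hpf : Fact p.Prime := ⟨hp⟩
  have hlt : padicValNat p (Nat.card (ClassGroup (𝓞 F))) <
      orderOf (p : ZMod (finrank k F)) := by
    by_contra hle
    rw [not_lt] at hle
    have h2 : p ^ orderOf (p : ZMod (finrank k F)) ∣ Nat.card (ClassGroup (𝓞 F)) :=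
      (padicValNat_dvd_iff_le Nat.card_pos.ne').2 hle
    exact absurd (Nat.le_of_dvd Nat.card_pos h2) (not_le.2 h)
  have hl : (finrank k F).minFac.Prime := Nat.minFac_prime h1.ne'
  have hlf : Fact (finrank k F).minFac.Prime := ⟨hl⟩
  obtain ⟨τ, hτ⟩ : ∃ τ : Gal(F/k), orderOf τ = (finrank k F).minFac :=
    exists_prime_orderOf_dvd_card' _ (by
      rw [IsGalois.card_aut_eq_finrank]
      exact Nat.minFac_dvd _)
  refine ⟨IntermediateField.fixedField (Subgroup.zpowers τ), ?_, by omega⟩
  rw [IntermediateField.finrank_fixedField_eq_card, Nat.card_zpowers, hτ]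
  exact hl

/-- the class numbers of an extension of degree `n` of `k` and of `k` are small -/
theorem class_lt_gen (k : Type) [Field k] [NumberField k] (n : ℕ) :
    ∃ c : ℝ, 0 < c ∧ ∀ (F : Type) [Field F] [NumberField F] [Algebra k F] (ρ p f : ℕ), p.Prime →
      1 ≤ f → f ≤ n → finrank k F = n →
      (∀ F' : IntermediateField k F, F' ≠ ⊤ → Units.rank F' ≤ ρ) → ρ ≤ Units.rank F →
      |(discr F : ℝ)| ≤ c * (p : ℝ) ^ (2 * f) *
        (1 + Real.log p) ^ (2 * ((Units.rank F : ℤ) - ρ - n + 1)) →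
      Nat.card (ClassGroup (𝓞 F)) < p ^ f ∧ Nat.card (ClassGroup (𝓞 k)) < p := by
  obtain ⟨C, hC, h⟩ := class_le_all_of k n (regulator_ge_all k n)
  set m0 : ℕ := n * (Units.rank k + 1) + n with hm0
  obtain ⟨c1, hc1, hc11, H⟩ := lt_of_bound C m0
  set q : ℕ := n + 1 with hq
  have hq1 : (1 : ℝ) ≤ q := by
    rw [hq]; push_cast
    have : (0 : ℝ) ≤ n := Nat.cast_nonneg n
    linarith
  set h0 : ℕ := Nat.card (ClassGroup (𝓞 k)) with hh0
  have hh1 : 1 ≤ h0 := Nat.card_pos
  have hh1' : (1 : ℝ) ≤ h0 := by exact_mod_cast hh1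
  have hlh : 0 ≤ Real.log h0 := Real.log_nonneg hh1'
  set B : ℝ := (h0 : ℝ) ^ (2 * n) * (1 + Real.log h0) ^ (2 * m0) with hB
  have hB0 : 0 < B := by positivity
  have hQ0 : (0 : ℝ) < (q : ℝ) ^ (2 * m0) := by positivity
  refine ⟨min (c1 / (q : ℝ) ^ (2 * m0)) (1 / (2 * B)), lt_min (by positivity) (by positivity),
    fun F _ _ _ ρ p f hp hf1 hfn hF hsub hρ hD => ?_⟩
  obtain ⟨hr1, hr2⟩ := rank_bounds_gen k n F hF
  set e : ℤ := (Units.rank F : ℤ) - ρ - n + 1 with he
  have heb : |e| ≤ m0 := by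
    rw [abs_le]
    have h1 : (Units.rank F : ℤ) + 1 ≤ ((n * (Units.rank k + 1) : ℕ) : ℤ) := by exact_mod_cast hr2
    have h2 : (ρ : ℤ) ≤ Units.rank F := by exact_mod_cast hρ
    constructor <;> push_cast at * <;> omega
  have hp1 : (1 : ℝ) ≤ p := by exact_mod_cast hp.one_lt.le
  have hlp : 0 ≤ Real.log p := Real.log_nonneg hp1
  have hx0 : 0 < (1 + Real.log p) := by linarith
  have hz0 : (0 : ℝ) < (1 + Real.log p) ^ (2 * e) := zpow_pos hx0 _
  have hD1 := one_le_abs_discr F
  constructor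
  · refine H _ (p ^ f) e _ ?_ hD1 heb (h F ρ hF hsub hρ) ?_
    · calc 2 ≤ p := hp.two_le
        _ = p ^ 1 := (pow_one p).symm
        _ ≤ p ^ f := Nat.pow_le_pow_right hp.pos hf1
    · have h1 := compare hp.two_le hf1 (by omega : f ≤ q) heb
      have h2 : min (c1 / (q : ℝ) ^ (2 * m0)) (1 / (2 * B)) ≤ c1 / (q : ℝ) ^ (2 * m0) :=
        min_le_left _ _
      have hpf : ((p ^ f : ℕ) : ℝ) ^ 2 = (p : ℝ) ^ (2 * f) := by
        rw [Nat.cast_pow, ← pow_mul, mul_comm]
      rw [hpf]
      have hpp : (0 : ℝ) ≤ (p : ℝ) ^ (2 * f) := by positivity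
      calc |(discr F : ℝ)| ≤ min (c1 / (q : ℝ) ^ (2 * m0)) (1 / (2 * B)) * (p : ℝ) ^ (2 * f) *
            (1 + Real.log p) ^ (2 * e) := hD
        _ ≤ c1 / (q : ℝ) ^ (2 * m0) * (p : ℝ) ^ (2 * f) * (1 + Real.log p) ^ (2 * e) :=
          mul_le_mul_of_nonneg_right (mul_le_mul_of_nonneg_right h2 hpp) hz0.le
        _ ≤ c1 / (q : ℝ) ^ (2 * m0) * (p : ℝ) ^ (2 * f) *
            ((q : ℝ) ^ (2 * m0) * (1 + Real.log ((p ^ f : ℕ) : ℝ)) ^ (2 * e)) :=
          mul_le_mul_of_nonneg_left h1 (by positivity)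
        _ = c1 * (p : ℝ) ^ (2 * f) * (1 + Real.log ((p ^ f : ℕ) : ℝ)) ^ (2 * e) := by
          field_simp
  · by_contra hle
    rw [not_lt] at hle
    have hle' : (p : ℝ) ≤ h0 := by exact_mod_cast hle
    have h2 : min (c1 / (q : ℝ) ^ (2 * m0)) (1 / (2 * B)) ≤ 1 / (2 * B) := min_le_right _ _
    have h3 : (p : ℝ) ^ (2 * f) ≤ (h0 : ℝ) ^ (2 * n) :=
      calc (p : ℝ) ^ (2 * f) ≤ (p : ℝ) ^ (2 * n) := pow_le_pow_right₀ hp1 (by omega)
        _ ≤ _ := pow_le_pow_left₀ (by linarith) hle' _
    have h4 : (1 + Real.log p) ^ (2 * e) ≤ (1 + Real.log h0) ^ (2 * m0) :=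
      calc (1 + Real.log p) ^ (2 * e) ≤ (1 + Real.log p) ^ (((2 * m0 : ℕ)) : ℤ) :=
            zpow_le_zpow_right₀ (by linarith) (by
              have := (abs_le.1 heb).2
              push_cast
              omega)
        _ = (1 + Real.log p) ^ (2 * m0) := zpow_natCast _ _
        _ ≤ _ := pow_le_pow_left₀ hx0.le (by
              have := Real.log_le_log (by linarith : (0 : ℝ) < p) hle'
              linarith) _
    have h5 : |(discr F : ℝ)| ≤ 1 / 2 :=
      calc |(discr F : ℝ)| ≤ min (c1 / (q : ℝ) ^ (2 * m0)) (1 / (2 * B)) * (p : ℝ) ^ (2 * f) *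
            (1 + Real.log p) ^ (2 * e) := hD
        _ ≤ 1 / (2 * B) * (h0 : ℝ) ^ (2 * n) * (1 + Real.log h0) ^ (2 * m0) := by
          gcongr
        _ = 1 / 2 := by
          rw [mul_assoc, ← hB]
          field_simp
    linarith

/-- the order of `p` modulo `n` -/
theorem order_bounds_gen {p n : ℕ} (hp : p.Prime) (hn : 0 < n) (hpn : ¬ p ∣ n) :
    1 ≤ orderOf (p : ZMod n) ∧ orderOf (p : ZMod n) ≤ n := by
  have hne : NeZero n := ⟨hn.ne'⟩
  have hcop : Nat.Coprime p n := (Nat.Prime.coprime_iff_not_dvd hp).2 hpn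
  have h1 : ((ZMod.unitOfCoprime p hcop : (ZMod n)ˣ) : ZMod n) = p := ZMod.coe_unitOfCoprime p hcop
  rw [← h1, orderOf_units]
  refine ⟨orderOf_pos _, ?_⟩
  refine (orderOf_le_card_univ).trans ?_
  rw [ZMod.card_units_eq_totient]
  exact Nat.totient_le n

/-- `F / k` of degree `n` has small discriminant:
`|D_F| ≤ c p ^ (2 f) (1 + log p) ^ (2 (r(F) - ρ - n + 1))` where `f` is the order of `p` modulo `n`, `r` is the unit rank, and `ρ ≤ r(F)` is at least the
unit rank of every proper intermediate field -/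
def SmallDiscr (c : ℝ) (p : ℕ) (k F : Type) [Field k] [NumberField k] [Field F] [NumberField F]
    [Algebra k F] : Prop :=
  ∃ ρ : ℕ, ρ ≤ Units.rank F ∧ (∀ F' : IntermediateField k F, F' ≠ ⊤ → Units.rank F' ≤ ρ) ∧
    |(discr F : ℝ)| ≤ c * (p : ℝ) ^ (2 * orderOf (p : ZMod (finrank k F))) *
      (1 + Real.log p) ^ (2 * ((Units.rank F : ℤ) - ρ - finrank k F + 1))

theorem SmallDiscr.mono {c c' : ℝ} (hcc : c ≤ c') {p : ℕ} (hp : p.Prime) {k F : Type} [Field k]
    [NumberField k] [Field F] [NumberField F] [Algebra k F] (h : SmallDiscr c p k F) :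
    SmallDiscr c' p k F := by
  obtain ⟨ρ, h1, h2, h3⟩ := h
  refine ⟨ρ, h1, h2, h3.trans ?_⟩
  have hp1 : (1 : ℝ) ≤ p := by exact_mod_cast hp.one_lt.le
  have hlp : 0 ≤ Real.log p := Real.log_nonneg hp1
  have hx0 : 0 < (1 + Real.log p) := by linarith
  have := (zpow_pos hx0 (2 * ((Units.rank F : ℤ) - ρ - finrank k F + 1))).le
  gcongr

/-- an abelian extension has a cyclic subextension -/
theorem exists_cyclic (k : Type) [Field k] [NumberField k] (n : ℕ) :
    ∀ (F : Type) [Field F] [NumberField F] [Algebra k F] [IsAbelianGalois k F],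
      finrank k F = n → 1 < n → ∃ F' : IntermediateField k F, IsCyclic Gal(F'/k) ∧ F' ≠ ⊥ := by
  induction n using Nat.strong_induction_on with
  | _ n ih =>
    intro F _ _ _ _ hn h1
    have hl : n.minFac.Prime := Nat.minFac_prime h1.ne'
    set l := n.minFac with hldef
    have hlf : Fact l.Prime := ⟨hl⟩
    obtain ⟨τ, hτ⟩ : ∃ τ : Gal(F/k), orderOf τ = l := by
      apply exists_prime_orderOf_dvd_card'
      rw [IsGalois.card_aut_eq_finrank, hn]
      exact Nat.minFac_dvd n
    set A := IntermediateField.fixedField (Subgroup.zpowers τ) with hA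
    have hAF : finrank A F = l := by
      rw [IntermediateField.finrank_fixedField_eq_card, Nat.card_zpowers, hτ]
    have hkA : finrank k A * l = n := by rw [← hAF, finrank_mul_finrank, hn]
    have hpos : 0 < finrank k A := finrank_pos
    by_cases hA1 : finrank k A = 1
    · rw [hA1, one_mul] at hkA
      refine ⟨⊤, ?_, ?_⟩
      · have hG : IsGalois k (⊤ : IntermediateField k F) := inferInstance
        have hc : Nat.card Gal((⊤ : IntermediateField k F)/k) = l := by
          rw [IsGalois.card_aut_eq_finrank, IntermediateField.finrank_top', hn, hkA]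
        exact isCyclic_of_prime_card hc
      · intro h
        have h2 := IntermediateField.finrank_top' (F := k) (E := F)
        rw [h, IntermediateField.finrank_bot, hn] at h2
        omega
    · have hlt : finrank k A < n := by
        rw [← hkA]
        exact (Nat.lt_mul_iff_one_lt_right hpos).2 hl.one_lt
      obtain ⟨F'', hc, hne⟩ := ih (finrank k A) hlt A rfl (by omega)
      let e : F'' ≃ₐ[k] IntermediateField.lift F'' := IntermediateField.liftAlgEquiv F''
      refine ⟨IntermediateField.lift F'', ?_, ?_⟩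
      · exact isCyclic_of_surjective (AlgEquiv.autCongr e) (AlgEquiv.autCongr e).surjective
      · intro h
        apply hne
        rw [← IntermediateField.finrank_eq_one_iff, e.toLinearEquiv.finrank_eq, h,
          IntermediateField.finrank_bot]

/-- the discriminant criterion -/
theorem small_discr (k : Type) [Field k] [NumberField k] (n : ℕ) :
    ∃ c : ℝ, 0 < c ∧ ∀ (F : Type) [Field F] [NumberField F] [Algebra k F] [IsAbelianGalois k F]
      (p : ℕ), p.Prime → p ≠ 2 → finrank k F = n → ¬ p ∣ n →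
      (∀ (k' : Type) [Field k'] [NumberField k'] [Algebra k k'] [Algebra k' F]
        [IsScalarTower k k' F], NonSplit p k' F →
        (∀ F' : IntermediateField k F, IsCyclic Gal(F'/k) →
          ¬ (F' : Set F) ⊆ Set.range (algebraMap k' F) → SmallDiscr c p k F') →
        RelExtensions p k' F) ∧
      (1 < n → (∃! P : Ideal (𝓞 F), P.IsPrime ∧ (p : 𝓞 F) ∈ P) →
        (∀ F' : IntermediateField k F, IsCyclic Gal(F'/k) → F' ≠ ⊥ → SmallDiscr c p k F') →
        ¬ p ∣ Nat.card (ClassGroup (𝓞 F)) ∧ Extensions p F) := by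
  choose c hc h using fun m => class_lt_gen k m
  have hne : (Finset.range (n + 1)).Nonempty := ⟨0, Finset.mem_range.2 (by omega)⟩
  refine ⟨(Finset.range (n + 1)).inf' hne c, (Finset.lt_inf'_iff _).2 fun i _ => hc i, ?_⟩
  intro F _ _ _ _ p hp hp2 hF hpn
  have hn : 0 < n := by rw [← hF]; exact finrank_pos
  have key : ∀ F' : IntermediateField k F, SmallDiscr ((Finset.range (n + 1)).inf' hne c) p k F' →
      Nat.card (ClassGroup (𝓞 F')) < p ^ orderOf (p : ZMod (finrank k F')) ∧
        Nat.card (ClassGroup (𝓞 k)) < p := by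
    intro F' hS
    have hmul : finrank k F' * finrank F' F = n := by rw [finrank_mul_finrank, hF]
    have hdvd : finrank k F' ∣ n := Dvd.intro _ hmul
    have hle : finrank k F' ≤ n := Nat.le_of_dvd hn hdvd
    have hmem : finrank k F' ∈ Finset.range (n + 1) := Finset.mem_range.2 (by omega)
    obtain ⟨ρ, h1, h2, h3⟩ := SmallDiscr.mono (Finset.inf'_le c hmem) hp hS
    obtain ⟨h4, h5⟩ := order_bounds_gen hp (finrank_pos : 0 < finrank k F')
      (fun h => hpn (h.trans hdvd))
    exact h (finrank k F') F' ρ p _ hp h4 h5 rfl h2 h1 h3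
  have hgap : ∀ F' : IntermediateField k F, F' ≠ ⊥ →
      SmallDiscr ((Finset.range (n + 1)).inf' hne c) p k F' → Gap p k F' := by
    intro F' hF' hS
    have h1 : 1 < finrank k F' := by
      by_contra hle
      apply hF'
      rw [← IntermediateField.finrank_eq_one_iff]
      have : 0 < finrank k F' := finrank_pos
      omega
    have hG : IsAbelianGalois k F' := inferInstance
    exact gap_of_lt hp h1 (key F' hS).1
  constructor
  · intro k' _ _ _ _ _ hns hS
    refine rel_extensions hp hp2 k k' F (by rw [hF]; exact hpn) hns fun F' hc hF' =>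
      hgap F' ?_ (hS F' hc hF')
    intro hbot
    apply hF'
    rw [hbot, IntermediateField.coe_bot]
    rintro _ ⟨x, rfl⟩
    exact ⟨algebraMap k k' x, (IsScalarTower.algebraMap_apply k k' F x).symm⟩
  · intro h1n hone hS
    have hk : ¬ p ∣ Nat.card (ClassGroup (𝓞 k)) := by
      obtain ⟨F', hcyc, hF'⟩ := exists_cyclic k n F hF h1n
      intro h
      exact absurd (Nat.le_of_dvd Nat.card_pos h) (not_le.2 (key F' (hS F' hcyc hF')).2)
    exact one_prime_abelian hp hp2 k F (by rw [hF]; exact hpn) hone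
      (fun F' hc hF' => hgap F' hF' (hS F' hc hF')) hk

end Pool.Agent.Work.MuY
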