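import Pool.Agent.Work.MP_a4986b_nt.YKum
import Pool.Agent.Work.MP_a4986b_nt.YDisc
import Pool.Agent.Work.MP_a4986b_nt.BCor

set_option autoImplicit false
set_option maxHeartbeats 400000
set_option linter.unusedSectionVars false

/-! # Biquadratic extensions `K(√a, √(p α))` of a real quadratic field `K` in which `p` is inert -/

namespace Pool.Agent.Work.MuY

open NumberField Module Polynomial
open Pool.Agent.Work.MuB

section

variable {K F : Type} [Field K] [NumberField K] [Field F] [NumberField F] [Algebra K F]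

theorem algHom_ext_of_adjoin {E : Type} [Field E] [Algebra K E] {S : Set F}
    (hS : IntermediateField.adjoin K S = ⊤) (f g : F →ₐ[K] E) (h : ∀ x ∈ S, f x = g x) : f = g := by
  ext x
  have hx : x ∈ IntermediateField.adjoin K S := by rw [hS]; trivial
  induction hx using IntermediateField.adjoin_induction with
  | mem y hy => exact h y hy
  | algebraMap y => rw [f.commutes, g.commutes]
  | add y w _ _ hy hw => rw [map_add, map_add, hy, hw]
  | inv y _ hy => rw [map_inv₀, map_inv₀, hy]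
  | mul y w _ _ hy hw => rw [map_mul, map_mul, hy, hw]

/-- the splitting field of `(X² - c)(X² - d)` -/
theorem galois_of_sqrts {c d : K} {z w : F} (hz : z ^ 2 = algebraMap K F c)
    (hw : w ^ 2 = algebraMap K F d) (htop : IntermediateField.adjoin K {z, w} = ⊤) :
    IsGalois K F := by
  have hfin : Module.Finite K F := Module.Finite.of_restrictScalars_finite ℚ K F
  set f : K[X] := (X ^ 2 - C c) * (X ^ 2 - C d) with hf
  have hmap : f.map (algebraMap K F) =
      ((X - C z) * (X + C z)) * ((X - C w) * (X + C w)) := by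
    have e1 : (X - C z) * (X + C z) = X ^ 2 - C (algebraMap K F c) := by
      rw [← hz, C_pow]; ring
    have e2 : (X - C w) * (X + C w) = X ^ 2 - C (algebraMap K F d) := by
      rw [← hw, C_pow]; ring
    rw [e1, e2, hf]
    simp [Polynomial.map_mul, Polynomial.map_sub, Polynomial.map_pow]
  have hf0 : f ≠ 0 := mul_ne_zero (X_pow_sub_C_ne_zero two_pos c) (X_pow_sub_C_ne_zero two_pos d)
  have hsp : IsSplittingField K F f := by
    refine ⟨?_, ?_⟩
    · rw [hmap]
      exact ((Splits.X_sub_C z).mul (Splits.X_add_C z)).mul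
        ((Splits.X_sub_C w).mul (Splits.X_add_C w))
    · rw [← IntermediateField.adjoin_toSubalgebra_of_isAlgebraic
        (fun x _ => IsAlgebraic.of_finite K x)]
      have h1 : IntermediateField.adjoin K (f.rootSet F) = ⊤ := by
        rw [eq_top_iff, ← htop]
        refine IntermediateField.adjoin.mono K _ _ ?_
        intro x hx
        rw [mem_rootSet]
        refine ⟨hf0, ?_⟩
        rw [← eval_map_algebraMap, hmap]
        rcases hx with rfl | hx
        · simp
        · rw [Set.mem_singleton_iff] at hx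
          subst hx
          simp
      rw [h1, IntermediateField.top_toSubalgebra]
  have : Normal K F := Normal.of_isSplittingField f
  exact IsGalois.mk

theorem finrank_sqrt_le {c : K} {z : F} (hz : z ^ 2 = algebraMap K F c) :
    finrank K (IntermediateField.adjoin K {z}) ≤ 2 := by
  have hfin : Module.Finite K F := Module.Finite.of_restrictScalars_finite ℚ K F
  rw [IntermediateField.adjoin.finrank (IsIntegral.of_finite K z)]
  have h1 : minpoly K z ∣ X ^ 2 - C c := minpoly.dvd K z (by simp [hz])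
  have h2 := Polynomial.natDegree_le_of_dvd h1 (X_pow_sub_C_ne_zero two_pos c)
  rwa [natDegree_X_pow_sub_C] at h2

theorem finrank_le_four {c d : K} {z w : F} (hz : z ^ 2 = algebraMap K F c)
    (hw : w ^ 2 = algebraMap K F d) (htop : IntermediateField.adjoin K {z, w} = ⊤) :
    finrank K F ≤ 4 := by
  have h1 : IntermediateField.adjoin K {z} ⊔ IntermediateField.adjoin K {w} =
      (⊤ : IntermediateField K F) := by
    rw [← IntermediateField.adjoin_union, ← htop]
    rfl
  have h2 := IntermediateField.finrank_sup_le (IntermediateField.adjoin K {z})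
    (IntermediateField.adjoin K {w} : IntermediateField K F)
  rw [h1, IntermediateField.finrank_top'] at h2
  have h3 := finrank_sqrt_le hz
  have h4 := finrank_sqrt_le hw
  calc finrank K F ≤ _ := h2
    _ ≤ 2 * 2 := Nat.mul_le_mul h3 h4

/-- primes above `p` -/
theorem prime_oct {p : ℕ} (hp : p.Prime) (hin : (Ideal.span {(p : 𝓞 K)}).IsPrime)
    (a α : 𝓞 K) (ha : ∀ b : 𝓞 K, ¬ (p : 𝓞 K) ∣ b ^ 2 - a) (hα : α ∉ Ideal.span {(p : 𝓞 K)})
    (z w : 𝓞 F) (hz : z ^ 2 = algebraMap (𝓞 K) (𝓞 F) a)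
    (hw : w ^ 2 = algebraMap (𝓞 K) (𝓞 F) ((p : 𝓞 K) * α))
    (P : Ideal (𝓞 F)) (hP : P.IsPrime) (hpP : (p : 𝓞 F) ∈ P) :
    p ^ (2 * finrank ℚ K) ≤ Ideal.absNorm P ∧ P ^ 2 ∣ Ideal.span {(p : 𝓞 F)} := by
  have hp0 : (p : 𝓞 F) ≠ 0 := by exact_mod_cast hp.ne_zero
  have hpK0 : (p : 𝓞 K) ≠ 0 := by exact_mod_cast hp.ne_zero
  have hmaxK : (Ideal.span {(p : 𝓞 K)}).IsMaximal :=
    hin.isMaximal (by simpa using hpK0)
  have hPm : P.IsMaximal := by
    refine hP.isMaximal ?_
    rintro rfl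
    exact hp0 (by simpa using hpP)
  have hQ : P.under (𝓞 K) = Ideal.span {(p : 𝓞 K)} := by
    refine (hmaxK.eq_of_le ?_ ?_).symm
    · exact (Ideal.IsPrime.under (𝓞 K) P).ne_top
    · rw [Ideal.span_singleton_le_iff_mem, Ideal.under_def, Ideal.mem_comap]
      simpa using hpP
  constructor
  · have hlie : ∀ (L : Type) [Field L] [NumberField L] (I : Ideal (𝓞 L)), I.IsPrime →
        (p : 𝓞 L) ∈ I → I.LiesOver (Ideal.span {(p : ℤ)}) := by
      intro L _ _ I hI hpI
      rw [Ideal.liesOver_iff]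
      have hmax : (Ideal.span {(p : ℤ)}).IsMaximal :=
        PrincipalIdealRing.isMaximal_of_irreducible (Nat.prime_iff_prime_int.1 hp).irreducible
      refine hmax.eq_of_le ?_ ?_
      · exact (Ideal.IsPrime.under ℤ I).ne_top
      · rw [Ideal.span_singleton_le_iff_mem, Ideal.under_def, Ideal.mem_comap]
        simpa using hpI
    have h1 := hlie F P hP hpP
    have h2 := hlie K (Ideal.span {(p : 𝓞 K)}) hin (Ideal.mem_span_singleton_self _)
    have h3 : (Ideal.span {(p : 𝓞 K)}).inertiaDeg ℤ = finrank ℚ K := by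
      have h4 := Ideal.pow_inertiaDeg p (Ideal.span {(p : 𝓞 K)})
      rw [absNorm_span_nat] at h4
      exact Nat.pow_right_injective hp.two_le h4
    rw [← Ideal.pow_inertiaDeg p P, Ideal.inertiaDeg_tower (R := ℤ) (P.under (𝓞 K)) P, hQ, h3,
      mul_comm 2]
    exact Nat.pow_le_pow_right hp.pos (Nat.mul_le_mul_left _
      (kum_inertiaDeg Nat.prime_two hp K a ha F z hz P hP hpP hQ))
  · have hwP : w ∈ P := by
      refine hP.mem_of_pow_mem 2 ?_
      rw [hw, map_mul, map_natCast]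
      exact P.mul_mem_right _ hpP
    have hαP : algebraMap (𝓞 K) (𝓞 F) α ∉ P := by
      intro h
      apply hα
      rw [← hQ]
      exact h
    have hcop : IsCoprime P (Ideal.span {algebraMap (𝓞 K) (𝓞 F) α}) := by
      rw [Ideal.isCoprime_iff_sup_eq]
      by_contra h
      have h6 : P = P ⊔ Ideal.span {algebraMap (𝓞 K) (𝓞 F) α} := hPm.eq_of_le h le_sup_left
      apply hαP
      rw [h6]
      exact Ideal.mem_sup_right (Ideal.mem_span_singleton_self _)
    have hsq : P ^ 2 ∣ Ideal.span {(p : 𝓞 F)} * Ideal.span {algebraMap (𝓞 K) (𝓞 F) α} := by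
      rw [Ideal.span_singleton_mul_span_singleton]
      have h5 : (p : 𝓞 F) * algebraMap (𝓞 K) (𝓞 F) α = w ^ 2 := by
        rw [hw, map_mul, map_natCast]
      rw [h5, ← Ideal.span_singleton_pow]
      exact pow_dvd_pow_of_dvd (Ideal.dvd_span_singleton.2 hwP) 2
    exact hcop.pow_left.dvd_of_dvd_mul_right hsq

/-- the degree and the prime above `p` -/
theorem degree_oct {p : ℕ} (hp : p.Prime) (hin : (Ideal.span {(p : 𝓞 K)}).IsPrime)
    (a α : 𝓞 K) (ha : ∀ b : 𝓞 K, ¬ (p : 𝓞 K) ∣ b ^ 2 - a) (hα : α ∉ Ideal.span {(p : 𝓞 K)})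
    (z w : 𝓞 F) (hz : z ^ 2 = algebraMap (𝓞 K) (𝓞 F) a)
    (hw : w ^ 2 = algebraMap (𝓞 K) (𝓞 F) ((p : 𝓞 K) * α)) (h4 : finrank K F ≤ 4) :
    finrank K F = 4 ∧ ∃! P : Ideal (𝓞 F), P.IsPrime ∧ (p : 𝓞 F) ∈ P := by
  have hn : 0 < finrank ℚ K := finrank_pos
  have hnot : Ideal.span {(p : 𝓞 F)} ≠ ⊤ := by
    intro h1
    have h3 := absNorm_span_nat (F := F) p
    rw [h1, Ideal.absNorm_top] at h3
    have h4 : 0 < finrank ℚ F := finrank_pos
    have := Nat.one_lt_pow h4.ne' hp.one_lt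
    omega
  obtain ⟨P, hPm, hle⟩ := Ideal.exists_le_maximal (Ideal.span {(p : 𝓞 F)}) hnot
  have hpP : (p : 𝓞 F) ∈ P := hle (Ideal.mem_span_singleton_self _)
  obtain ⟨h1, h2⟩ := prime_oct hp hin a α ha hα z w hz hw P hPm.isPrime hpP
  have hF : finrank ℚ F = finrank ℚ K * finrank K F := (finrank_mul_finrank ℚ K F).symm
  have hpos : 0 < Ideal.absNorm (Ideal.span {(p : 𝓞 F)}) := by
    rw [absNorm_span_nat]
    exact pow_pos hp.pos _
  constructor
  · refine le_antisymm h4 ?_
    have h5 := Nat.le_of_dvd hpos (map_dvd Ideal.absNorm h2)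
    rw [map_pow, absNorm_span_nat, hF] at h5
    have h6 : (p ^ (2 * finrank ℚ K)) ^ 2 ≤ p ^ (finrank ℚ K * finrank K F) :=
      (Nat.pow_le_pow_left h1 2).trans h5
    rw [← pow_mul] at h6
    have h7 := (Nat.pow_le_pow_iff_right hp.one_lt).1 h6
    nlinarith
  · refine ⟨P, ⟨hPm.isPrime, hpP⟩, ?_⟩
    rintro Q ⟨hQ, hpQ⟩
    by_contra hne
    obtain ⟨h1', h2'⟩ := prime_oct hp hin a α ha hα z w hz hw Q hQ hpQ
    have hp0 : (p : 𝓞 F) ≠ 0 := by exact_mod_cast hp.ne_zero
    have hQm : Q.IsMaximal := by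
      refine hQ.isMaximal ?_
      rintro rfl
      exact hp0 (by simpa using hpQ)
    have hcop : IsCoprime P Q := by
      rw [Ideal.isCoprime_iff_sup_eq]
      exact hPm.coprime_of_ne hQm (fun h => hne h.symm)
    have h3 : P ^ 2 * Q ^ 2 ∣ Ideal.span {(p : 𝓞 F)} := (hcop.pow).mul_dvd h2 h2'
    have h5 := Nat.le_of_dvd hpos (map_dvd Ideal.absNorm h3)
    rw [map_mul, map_pow, map_pow, absNorm_span_nat, hF] at h5
    have h6 : (p ^ (2 * finrank ℚ K)) ^ 2 * (p ^ (2 * finrank ℚ K)) ^ 2 ≤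
        p ^ (finrank ℚ K * finrank K F) :=
      (Nat.mul_le_mul (Nat.pow_le_pow_left h1 2) (Nat.pow_le_pow_left h1' 2)).trans h5
    rw [← pow_mul, ← pow_add] at h6
    have h7 := (Nat.pow_le_pow_iff_right hp.one_lt).1 h6
    nlinarith

theorem sq_eq_cases {x y : F} (h : x ^ 2 = y ^ 2) : x = y ∨ x = -y := sq_eq_sq_iff_eq_or_eq_neg.1 h

/-- (1) -/
theorem oct_data {p : ℕ} (hp : p.Prime) (hp2 : p ≠ 2) (hin : (Ideal.span {(p : 𝓞 K)}).IsPrime)
    (a α : 𝓞 K) (ha : ∀ b : 𝓞 K, ¬ (p : 𝓞 K) ∣ b ^ 2 - a) (hα : α ∉ Ideal.span {(p : 𝓞 K)})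
    (z w : F) (hz : z ^ 2 = algebraMap K F a) (hw : w ^ 2 = algebraMap K F (p * α))
    (htop : IntermediateField.adjoin K {z, w} = ⊤) :
    finrank K F = 4 ∧ IsGalois K F ∧ (∀ s t : Gal(F/K), s * t = t * s) ∧
      (∃! P : Ideal (𝓞 F), P.IsPrime ∧ (p : 𝓞 F) ∈ P) ∧
      (∀ F' : IntermediateField K F, IsCyclic Gal(F'/K) → F' ≠ ⊥ → finrank K F' = 2 ∧
        ∃ y : F', y ∉ Set.range (algebraMap K F') ∧ (y ^ 2 = algebraMap K F' a ∨
          y ^ 2 = algebraMap K F' (p * α) ∨ y ^ 2 = algebraMap K F' (p * (a * α)))) := by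
  have hfin : Module.Finite K F := Module.Finite.of_restrictScalars_finite ℚ K F
  -- integral elements
  have hzint : IsIntegral ℤ z := by
    refine IsIntegral.of_pow two_pos ?_
    rw [hz]
    exact (RingOfIntegers.isIntegral_coe a).algebraMap
  have hwint : IsIntegral ℤ w := by
    refine IsIntegral.of_pow two_pos ?_
    rw [hw]
    have h1 : (algebraMap K F) (p * α) = algebraMap K F (((p : 𝓞 K) * α : 𝓞 K) : K) := by simp
    rw [h1]
    exact (RingOfIntegers.isIntegral_coe ((p : 𝓞 K) * α)).algebraMap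
  obtain ⟨zz, hzz⟩ : ∃ zz : 𝓞 F, (zz : F) = z := ⟨⟨z, hzint⟩, rfl⟩
  obtain ⟨ww, hww⟩ : ∃ ww : 𝓞 F, (ww : F) = w := ⟨⟨w, hwint⟩, rfl⟩
  have hzz2 : zz ^ 2 = algebraMap (𝓞 K) (𝓞 F) a := by
    apply RingOfIntegers.ext
    have h1 : ((algebraMap (𝓞 K) (𝓞 F) a : 𝓞 F) : F) = algebraMap K F (a : K) := rfl
    rw [h1, ← hz, ← hzz]
    simp
  have hww2 : ww ^ 2 = algebraMap (𝓞 K) (𝓞 F) ((p : 𝓞 K) * α) := by
    apply RingOfIntegers.ext
    have h1 : ((algebraMap (𝓞 K) (𝓞 F) ((p : 𝓞 K) * α) : 𝓞 F) : F) =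
      algebraMap K F (((p : 𝓞 K) * α : 𝓞 K) : K) := rfl
    rw [h1]
    refine Eq.trans (by simp [hww]) (hw.trans (by simp))
  obtain ⟨h4, hone⟩ := degree_oct hp hin a α ha hα zz ww hzz2 hww2 (finrank_le_four hz hw htop)
  have hgal : IsGalois K F := galois_of_sqrts hz hw htop
  have hact : ∀ (s : Gal(F/K)), (s z = z ∨ s z = -z) ∧ (s w = w ∨ s w = -w) := by
    intro s
    constructor
    · apply sq_eq_cases
      rw [← map_pow, hz, s.commutes]
    · apply sq_eq_cases
      rw [← map_pow, hw, s.commutes]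
  have hext : ∀ s t : Gal(F/K), s z = t z → s w = t w → s = t := by
    intro s t h1 h2
    have h3 := algHom_ext_of_adjoin htop (s : F →ₐ[K] F) (t : F →ₐ[K] F) (by
      rintro x (rfl | hx)
      · exact h1
      · rw [Set.mem_singleton_iff] at hx
        subst hx
        exact h2)
    ext x
    exact congrArg (fun f => f x) h3
  have hcomm : ∀ s t : Gal(F/K), s * t = t * s := by
    intro s t
    apply hext
    · rw [AlgEquiv.mul_apply, AlgEquiv.mul_apply]
      rcases (hact s).1 with h1 | h1 <;> rcases (hact t).1 with h2 | h2 <;>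
        simp [h1, h2]
    · rw [AlgEquiv.mul_apply, AlgEquiv.mul_apply]
      rcases (hact s).2 with h1 | h1 <;> rcases (hact t).2 with h2 | h2 <;>
        simp [h1, h2]
  have hsq : ∀ s : Gal(F/K), s ^ 2 = 1 := by
    intro s
    apply hext
    · rw [sq, AlgEquiv.mul_apply, AlgEquiv.one_apply]
      rcases (hact s).1 with h1 | h1 <;> simp [h1]
    · rw [sq, AlgEquiv.mul_apply, AlgEquiv.one_apply]
      rcases (hact s).2 with h1 | h1 <;> simp [h1]
  -- elements outside `K`
  have hzK : z ∉ Set.range (algebraMap K F) := by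
    rintro ⟨y, hy⟩
    have hyint : IsIntegral ℤ y := by
      have h1 : IsIntegral ℤ (algebraMap K F y) := by rw [hy]; exact hzint
      exact (isIntegral_algebraMap_iff (algebraMap K F).injective).mp h1
    obtain ⟨yy, hyy⟩ : ∃ yy : 𝓞 K, (yy : K) = y := ⟨⟨y, hyint⟩, rfl⟩
    apply ha yy
    have hy2 : yy ^ 2 = a := by
      apply RingOfIntegers.ext
      apply (algebraMap K F).injective
      have h3 : algebraMap K F (y ^ 2) = algebraMap K F a := by
        rw [map_pow, hy, hz]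
      rw [← hyy] at h3
      simpa using h3
    rw [hy2, sub_self]
    exact dvd_zero _
  have hsmall : IntermediateField.adjoin K {z} ≠ (⊤ : IntermediateField K F) := by
    intro h
    have h1 := finrank_sqrt_le hz
    rw [h, IntermediateField.finrank_top', h4] at h1
    omega
  have hwz : w ∉ IntermediateField.adjoin K {z} := by
    intro h
    apply hsmall
    rw [eq_top_iff, ← htop, IntermediateField.adjoin_le_iff]
    rintro x (rfl | hx)
    · exact IntermediateField.mem_adjoin_simple_self K _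
    · rw [Set.mem_singleton_iff] at hx
      rw [hx]
      exact h
  have hwK : w ∉ Set.range (algebraMap K F) := by
    rintro ⟨y, hy⟩
    exact hwz (hy ▸ (IntermediateField.adjoin K {z}).algebraMap_mem y)
  have hz0 : z ≠ 0 := by
    rintro rfl
    exact hzK ⟨0, map_zero _⟩
  have hzwK : z * w ∉ Set.range (algebraMap K F) := by
    rintro ⟨y, hy⟩
    apply hwz
    have h1 : w = algebraMap K F y * z⁻¹ := by
      rw [hy]
      field_simp
    rw [h1]
    exact mul_mem ((IntermediateField.adjoin K {z}).algebraMap_mem y)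
      (inv_mem (IntermediateField.mem_adjoin_simple_self K _))
  refine ⟨h4, hgal, hcomm, hone, ?_⟩
  intro F' hcyc hF'
  have hab : IsAbelianGalois K F :=
    { toIsGalois := hgal, toIsMulCommutative := ⟨⟨hcomm⟩⟩ }
  have hG' : IsAbelianGalois K F' := inferInstance
  -- the degree
  have hcard : Nat.card Gal(F'/K) ≤ 2 := by
    obtain ⟨g, hg⟩ := hcyc.exists_generator
    have h1 : orderOf g = Nat.card Gal(F'/K) := orderOf_eq_card_of_forall_mem_zpowers hg
    rw [← h1]
    obtain ⟨s, hs⟩ := AlgEquiv.restrictNormalHom_surjective (F := K) (K₁ := F') F g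
    refine Nat.le_of_dvd two_pos (orderOf_dvd_of_pow_eq_one ?_)
    rw [← hs, ← map_pow, hsq, map_one]
  have h2 : finrank K F' = 2 := by
    rw [IsGalois.card_aut_eq_finrank] at hcard
    have h5 : finrank K F' ≠ 1 := fun h => hF' (IntermediateField.finrank_eq_one_iff.1 h)
    have h6 : 0 < finrank K F' := finrank_pos
    omega
  refine ⟨h2, ?_⟩
  -- the generator of the fixing subgroup
  have hF'F : finrank F' F = 2 := by
    have h5 := finrank_mul_finrank K F' F
    rw [h2, h4] at h5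
    omega
  have hH : Nat.card F'.fixingSubgroup = 2 := by
    rw [IsGalois.card_fixingSubgroup_eq_finrank, hF'F]
  obtain ⟨x, y, hxy, huniv⟩ := Nat.card_eq_two_iff.1 hH
  obtain ⟨s, hs⟩ : ∃ s : Gal(F/K), ∀ t ∈ F'.fixingSubgroup, t = 1 ∨ t = s := by
    have h1 : (1 : F'.fixingSubgroup) ∈ ({x, y} : Set F'.fixingSubgroup) := by
      rw [huniv]; trivial
    have h5 : ∀ t : F'.fixingSubgroup, t = x ∨ t = y := by
      intro t
      have : t ∈ ({x, y} : Set F'.fixingSubgroup) := by rw [huniv]; trivial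
      exact this
    rcases h1 with h1 | h1
    · refine ⟨y, fun t ht => ?_⟩
      rcases h5 ⟨t, ht⟩ with h | h
      · left
        rw [← h1] at h
        exact congrArg Subtype.val h
      · right
        exact congrArg Subtype.val h
    · rw [Set.mem_singleton_iff] at h1
      refine ⟨x, fun t ht => ?_⟩
      rcases h5 ⟨t, ht⟩ with h | h
      · right
        exact congrArg Subtype.val h
      · left
        rw [← h1] at h
        exact congrArg Subtype.val h
  have hmem : ∀ v : F, s v = v → v ∈ F' := by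
    intro v hv
    rw [← IsGalois.fixedField_fixingSubgroup F', IntermediateField.mem_fixedField_iff]
    intro t ht
    rcases hs t ht with rfl | rfl
    · rfl
    · exact hv
  have hfinal : ∀ v : F, s v = v → v ∉ Set.range (algebraMap K F) → (v ^ 2 = algebraMap K F a ∨
      v ^ 2 = algebraMap K F (p * α) ∨ v ^ 2 = algebraMap K F (p * (a * α))) →
      ∃ y : F', y ∉ Set.range (algebraMap K F') ∧ (y ^ 2 = algebraMap K F' a ∨
        y ^ 2 = algebraMap K F' (p * α) ∨ y ^ 2 = algebraMap K F' (p * (a * α))) := by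
    intro v hv hvK hv2
    refine ⟨⟨v, hmem v hv⟩, ?_, ?_⟩
    · rintro ⟨y, hy⟩
      exact hvK ⟨y, congrArg Subtype.val hy⟩
    · rcases hv2 with h | h | h
      · exact Or.inl (Subtype.ext h)
      · exact Or.inr (Or.inl (Subtype.ext h))
      · exact Or.inr (Or.inr (Subtype.ext h))
  rcases (hact s).1 with h5 | h5
  · exact hfinal z h5 hzK (Or.inl hz)
  · rcases (hact s).2 with h6 | h6
    · exact hfinal w h6 hwK (Or.inr (Or.inl hw))
    · refine hfinal (z * w) (by rw [map_mul, h5, h6]; ring) hzwK (Or.inr (Or.inr ?_))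
      rw [mul_pow, hz, hw, ← map_mul]
      congr 1
      ring

end

/-- (2) -/
theorem oct_class (K : Type) [Field K] [NumberField K] (hK : finrank ℚ K = 2) (r : K →+* ℝ)
    (a α : 𝓞 K) (ha : ∀ φ : K →+* ℝ, 0 < φ a) (hα : ∀ φ : K →+* ℝ, 0 < φ α) :
    ∃ p0 : ℕ, ∀ p : ℕ, p.Prime → p0 ≤ p → (Ideal.span {(p : 𝓞 K)}).IsPrime →
      α ∉ Ideal.span {(p : 𝓞 K)} ∧ ¬ p ∣ Nat.card (ClassGroup (𝓞 K)) ∧
      ∀ (F' : Type) [Field F'] [NumberField F'] [Algebra K F'] (y : F'), finrank K F' = 2 →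
        y ∉ Set.range (algebraMap K F') → (y ^ 2 = algebraMap K F' a ∨
          y ^ 2 = algebraMap K F' (p * α) ∨ y ^ 2 = algebraMap K F' (p * (a * α))) →
        ¬ p ∣ Nat.card (ClassGroup (𝓞 F')) := by
  classical
  obtain ⟨p1, h1⟩ := real_quadratic K hK r α hα
  obtain ⟨p2, h2⟩ := real_quadratic K hK r (a * α) (fun φ => by
    have e : ((a * α : 𝓞 K) : K) = (a : K) * (α : K) := rfl
    rw [e, map_mul]
    exact mul_pos (ha φ) (hα φ))
  -- the fixed field `K(√a)`
  obtain ⟨C, hC, hdisc⟩ := discr_le_of_unit_le K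
  obtain ⟨C', hC', hcl⟩ := class_le_gen K 2
  obtain ⟨A, hA1, hA⟩ : ∃ A : ℝ, 1 ≤ A ∧ ∀ v : InfinitePlace K, v (a : K) ≤ A := by
    have hfin : (Set.range fun v : InfinitePlace K => v (a : K)).Finite := Set.finite_range _
    obtain ⟨A, hA⟩ := hfin.bddAbove
    exact ⟨max A 1, le_max_right _ _, fun v => (hA ⟨v, rfl⟩).trans (le_max_left _ _)⟩
  set D : ℝ := C * A ^ (2 * finrank ℚ K) with hD
  set H : ℝ := C' * √D * (1 + Real.log D) ^ (2 - 1) with hH
  obtain ⟨p3, h3⟩ := exists_nat_gt H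
  have hα0 : α ≠ 0 := by
    rintro rfl
    have := hα r
    simp at this
  refine ⟨max (max p1 p2) (max p3 (max (Ideal.absNorm (Ideal.span {α}) + 1)
    (Nat.card (ClassGroup (𝓞 K)) + 1))), ?_⟩
  intro p hp hp0 hin
  simp only [max_le_iff] at hp0
  obtain ⟨⟨hp1, hp2⟩, hp3, hp4, hp5⟩ := hp0
  refine ⟨?_, ?_, ?_⟩
  · intro h
    rw [← Ideal.span_singleton_le_iff_mem, ← Ideal.dvd_iff_le] at h
    have h3 := map_dvd Ideal.absNorm h
    rw [absNorm_span_nat, hK] at h3
    have h4 : 0 < Ideal.absNorm (Ideal.span {α}) := by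
      rw [Nat.pos_iff_ne_zero, Ne, Ideal.absNorm_eq_zero_iff, Ideal.span_singleton_eq_bot]
      exact hα0
    have h5 := Nat.le_of_dvd h4 h3
    have h6 := hp.one_lt
    nlinarith
  · intro h
    have := Nat.le_of_dvd Nat.card_pos h
    omega
  · intro F' _ _ _ y hF' hyK hy
    rcases hy with hy | hy | hy
    · intro h
      have h4 := Nat.le_of_dvd Nat.card_pos h
      have hyint : IsIntegral ℤ y := by
        refine IsIntegral.of_pow two_pos ?_
        rw [hy]
        exact (RingOfIntegers.isIntegral_coe a).algebraMap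
      obtain ⟨yy, hyy⟩ : ∃ yy : 𝓞 F', (yy : F') = y := ⟨⟨y, hyint⟩, rfl⟩
      have hB : ∀ v : InfinitePlace F', v (yy : F') ≤ A := by
        intro v
        have h6 : v (yy : F') ^ 2 ≤ A := by
          have h7 : v (yy : F') ^ 2 = (v.comap (algebraMap K F')) a := by
            rw [InfinitePlace.comap_apply, ← map_pow, hyy, hy]
          rw [h7]
          exact hA _
        by_contra hlt
        rw [not_le] at hlt
        nlinarith
      have h9 := hdisc F' hF' yy (by rw [hyy]; exact hyK) A hA1 hB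
      have h10 := hcl F' hF'
      have hD1 := one_le_abs_discr F'
      have h11 : (Nat.card (ClassGroup (𝓞 F')) : ℝ) ≤ H := by
        refine h10.trans ?_
        have h12 : √|(discr F' : ℝ)| ≤ √D := Real.sqrt_le_sqrt h9
        have h13 : Real.log |(discr F' : ℝ)| ≤ Real.log D :=
          Real.log_le_log (by linarith) h9
        have h14 : 0 ≤ Real.log |(discr F' : ℝ)| := Real.log_nonneg hD1
        rw [hH]
        have h15 : (1 + Real.log |(discr F' : ℝ)|) ^ (2 - 1) ≤ (1 + Real.log D) ^ (2 - 1) :=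
          pow_le_pow_left₀ (by linarith) (by linarith) _
        exact mul_le_mul (mul_le_mul_of_nonneg_left h12 hC'.le) h15 (by positivity)
          (by positivity)
      have h16 : (p : ℝ) ≤ Nat.card (ClassGroup (𝓞 F')) := by exact_mod_cast h4
      have h17 : (p3 : ℝ) ≤ p := by exact_mod_cast hp3
      linarith
    · exact (h1 p hp hp1 hin F' hF' y (by rw [hy])).1
    · refine (h2 p hp hp2 hin F' hF' y ?_).1
      rw [hy]
      congr 1

/-- (3) -/
theorem oct_main (K : Type) [Field K] [NumberField K] (hK : finrank ℚ K = 2) (r : K →+* ℝ)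
    (a α : 𝓞 K) (ha : ∀ φ : K →+* ℝ, 0 < φ a) (hα : ∀ φ : K →+* ℝ, 0 < φ α) :
    ∃ p0 : ℕ, ∀ p : ℕ, p.Prime → p0 ≤ p → (Ideal.span {(p : 𝓞 K)}).IsPrime →
      (∀ b : 𝓞 K, ¬ (p : 𝓞 K) ∣ b ^ 2 - a) →
      ∀ (F : Type) [Field F] [NumberField F] [Algebra K F] (z w : F),
        z ^ 2 = algebraMap K F a → w ^ 2 = algebraMap K F (p * α) →
        IntermediateField.adjoin K {z, w} = ⊤ →
        (∃! P : Ideal (𝓞 F), P.IsPrime ∧ (p : 𝓞 F) ∈ P) ∧ ¬ p ∣ Nat.card (ClassGroup (𝓞 F)) ∧
          MuB.Extensions p F := by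
  obtain ⟨p0, h0⟩ := oct_class K hK r a α ha hα
  refine ⟨max p0 3, ?_⟩
  intro p hp hp0 hin hns F _ _ _ z w hz hw htop
  simp only [max_le_iff] at hp0
  obtain ⟨hα', hkK, hcl⟩ := h0 p hp hp0.1 hin
  have hp2 : p ≠ 2 := by omega
  obtain ⟨h4, hgal, hcomm, hone, hsub⟩ := oct_data hp hp2 hin a α hns hα' z w hz hw htop
  have hab : IsAbelianGalois K F :=
    { toIsGalois := hgal, toIsMulCommutative := ⟨⟨hcomm⟩⟩ }
  have hp4 : ¬ p ∣ finrank K F := by
    rw [h4]
    intro h
    have h5 : p ∣ 2 ^ 2 := h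
    exact hp2 ((Nat.prime_dvd_prime_iff_eq hp Nat.prime_two).1 (hp.dvd_of_dvd_pow h5))
  refine ⟨hone, one_prime_abelian hp hp2 K F hp4 hone ?_ hkK⟩
  intro F' hcyc hF'
  obtain ⟨hd, y, hy1, hy2⟩ := hsub F' hcyc hF'
  have h5 := hcl F' y hd hy1 hy2
  have hfact : Fact p.Prime := ⟨hp⟩
  refine ⟨⊥, ?_, ?_⟩
  · rw [IntermediateField.finrank_bot', hd]
    exact Nat.prime_two
  · rw [padicValNat.eq_zero_of_not_dvd h5, hd]
    have h6 := (order_bounds hp Nat.prime_two hp2).1
    omega

end Pool.Agent.Work.MuY
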