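import Pool.Agent.Work.MP_a4986b_nt.ZReal
import Pool.Agent.Work.MP_a4986b_nt.YOct

set_option autoImplicit false
set_option maxHeartbeats 400000
set_option linter.unusedSectionVars false

/-! # Biquadratic extensions `K(√a, √(p α))` of a real quadratic field `K`, any `p` -/

namespace Pool.Agent.Work.MuZ

open NumberField Module Polynomial Ideal
open Pool.Agent.Work.MuB Pool.Agent.Work.MuY

section

variable {K F : Type} [Field K] [NumberField K] [Field F] [NumberField F] [Algebra K F]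

/-- relative residue degree of a square root of a nonsquare modulo `Q` -/
theorem sqrt_inertiaDeg {p : ℕ} (hp : p.Prime) (a : 𝓞 K) (t : 𝓞 F)
    (ht : t ^ 2 = algebraMap (𝓞 K) (𝓞 F) a) (P : Ideal (𝓞 F)) (hP : P.IsPrime)
    (hpP : (p : 𝓞 F) ∈ P) (ha : ∀ b : 𝓞 K, b ^ 2 - a ∉ P.under (𝓞 K)) :
    2 ≤ P.inertiaDeg (𝓞 K) := by
  have hp0 : (p : 𝓞 K) ≠ 0 := by exact_mod_cast hp.ne_zero
  have hpF0 : (p : 𝓞 F) ≠ 0 := by exact_mod_cast hp.ne_zero
  have hPmax : P.IsMaximal := by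
    refine hP.isMaximal ?_
    rintro rfl
    exact hpF0 (by simpa using hpP)
  have hpQ : (p : 𝓞 K) ∈ P.under (𝓞 K) := by
    rw [under_def, mem_comap, map_natCast]
    exact hpP
  have hQmax : (P.under (𝓞 K)).IsMaximal := by
    refine (Ideal.IsPrime.under (𝓞 K) P).isMaximal ?_
    intro h0
    rw [h0] at hpQ
    exact hp0 (by simpa using hpQ)
  rw [inertiaDeg_eq_of_isMaximal (P.under (𝓞 K)) P]
  let : Field (𝓞 K ⧸ P.under (𝓞 K)) := Quotient.field _
  let : Field (𝓞 F ⧸ P) := Quotient.field _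
  set x : 𝓞 F ⧸ P := Ideal.Quotient.mk P t with hx
  set abar : 𝓞 K ⧸ P.under (𝓞 K) := Ideal.Quotient.mk _ a with habar
  have hirr : Irreducible (X ^ 2 - C abar) := by
    refine X_pow_sub_C_irreducible_of_prime Nat.prime_two fun b hb => ?_
    obtain ⟨b, rfl⟩ := Ideal.Quotient.mk_surjective b
    rw [habar, ← map_pow, Ideal.Quotient.eq] at hb
    exact ha b hb
  have hmin : minpoly (𝓞 K ⧸ P.under (𝓞 K)) x = X ^ 2 - C abar := by
    refine (minpoly.eq_of_irreducible_of_monic hirr ?_ (monic_X_pow_sub_C _ two_ne_zero)).symm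
    have h1 : algebraMap (𝓞 K ⧸ P.under (𝓞 K)) (𝓞 F ⧸ P) abar =
      Ideal.Quotient.mk P (algebraMap (𝓞 K) (𝓞 F) a) := rfl
    rw [map_sub, map_pow, aeval_X, aeval_C, h1, ← ht, map_pow, sub_self]
  have h2 := minpoly.natDegree_le (A := 𝓞 K ⧸ P.under (𝓞 K)) x
  rw [hmin, natDegree_X_pow_sub_C] at h2
  exact h2

/-- `e f ≤ [F : K]` -/
theorem mul_le_finrank {p : ℕ} (hp : p.Prime) {e : ℕ} (P : Ideal (𝓞 F)) (hP : P.IsPrime)
    (hpP : (p : 𝓞 F) ∈ P) (h : P ^ e ∣ (P.under (𝓞 K)).map (algebraMap (𝓞 K) (𝓞 F))) :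
    e * P.inertiaDeg (𝓞 K) ≤ finrank K F := by
  set Q := P.under (𝓞 K) with hQdef
  have hQ : Q.IsPrime := Ideal.IsPrime.under (𝓞 K) P
  have hpQ : (p : 𝓞 K) ∈ Q := by
    rw [hQdef, Ideal.under_def, Ideal.mem_comap, map_natCast]
    exact hpP
  have hQ0 : Q ≠ ⊥ := by
    intro h0
    rw [h0] at hpQ
    have : (p : 𝓞 K) = 0 := by simpa using hpQ
    exact hp.ne_zero (by exact_mod_cast this)
  have h4 := map_dvd absNorm h
  rw [map_pow, Ideal.absNorm_algebraMap, absNorm_tower (K := K) hp P hP hpP, ← hQdef, ← pow_mul,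
    ← IsFractionRing.finrank_eq (𝓞 K) K (𝓞 F) F] at h4
  have hN : 1 < absNorm Q := by
    have h5 : absNorm Q ≠ 0 := by rwa [Ne, Ideal.absNorm_eq_zero_iff]
    have h6 : absNorm Q ≠ 1 := by
      rw [Ne, Ideal.absNorm_eq_one_iff]
      exact hQ.ne_top
    omega
  have h5 := Nat.le_of_dvd (pow_pos (by omega) _) h4
  have h6 := (Nat.pow_le_pow_iff_right hN).1 h5
  rwa [mul_comm] at h6

/-- the cyclic subextensions -/
theorem oct_sub {a β : K} (z w : F) (hz : z ^ 2 = algebraMap K F a)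
    (hw : w ^ 2 = algebraMap K F β) (htop : IntermediateField.adjoin K {z, w} = ⊤)
    (h4 : finrank K F = 4) (hzK : z ∉ Set.range (algebraMap K F)) :
    IsGalois K F ∧ (∀ s t : Gal(F/K), s * t = t * s) ∧
      (∀ F' : IntermediateField K F, IsCyclic Gal(F'/K) → F' ≠ ⊥ → finrank K F' = 2 ∧
        ∃ y : F', y ∉ Set.range (algebraMap K F') ∧ (y ^ 2 = algebraMap K F' a ∨
          y ^ 2 = algebraMap K F' β ∨ y ^ 2 = algebraMap K F' (a * β))) := by
  have hfin : Module.Finite K F := Module.Finite.of_restrictScalars_finite ℚ K F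
  have hgal : IsGalois K F := galois_of_sqrts hz hw htop
  have hact : ∀ (s : Gal(F/K)), (s z = z ∨ s z = -z) ∧ (s w = w ∨ s w = -w) := by
    intro s
    constructor
    · apply sq_eq_cases
      rw [← map_pow, hz, s.commutes]
    · apply sq_eq_cases
      rw [← map_pow, hw, s.commutes]
  have hext : ∀ s t : Gal(F/K), s z = t z → s w = t w → s = t := by
    intro s t h1 h2
    have h3 := algHom_ext_of_adjoin htop (s : F →ₐ[K] F) (t : F →ₐ[K] F) (by
      rintro x (rfl | hx)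
      · exact h1
      · rw [Set.mem_singleton_iff] at hx
        subst hx
        exact h2)
    ext x
    exact congrArg (fun f => f x) h3
  have hcomm : ∀ s t : Gal(F/K), s * t = t * s := by
    intro s t
    apply hext
    · rw [AlgEquiv.mul_apply, AlgEquiv.mul_apply]
      rcases (hact s).1 with h1 | h1 <;> rcases (hact t).1 with h2 | h2 <;>
        simp [h1, h2]
    · rw [AlgEquiv.mul_apply, AlgEquiv.mul_apply]
      rcases (hact s).2 with h1 | h1 <;> rcases (hact t).2 with h2 | h2 <;>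
        simp [h1, h2]
  have hsq : ∀ s : Gal(F/K), s ^ 2 = 1 := by
    intro s
    apply hext
    · rw [sq, AlgEquiv.mul_apply, AlgEquiv.one_apply]
      rcases (hact s).1 with h1 | h1 <;> simp [h1]
    · rw [sq, AlgEquiv.mul_apply, AlgEquiv.one_apply]
      rcases (hact s).2 with h1 | h1 <;> simp [h1]
  have hsmall : IntermediateField.adjoin K {z} ≠ (⊤ : IntermediateField K F) := by
    intro h
    have h1 := finrank_sqrt_le hz
    rw [h, IntermediateField.finrank_top', h4] at h1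
    omega
  have hwz : w ∉ IntermediateField.adjoin K {z} := by
    intro h
    apply hsmall
    rw [eq_top_iff, ← htop, IntermediateField.adjoin_le_iff]
    rintro x (rfl | hx)
    · exact IntermediateField.mem_adjoin_simple_self K _
    · rw [Set.mem_singleton_iff] at hx
      rw [hx]
      exact h
  have hwK : w ∉ Set.range (algebraMap K F) := by
    rintro ⟨y, hy⟩
    exact hwz (hy ▸ (IntermediateField.adjoin K {z}).algebraMap_mem y)
  have hz0 : z ≠ 0 := by
    rintro rfl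
    exact hzK ⟨0, map_zero _⟩
  have hzwK : z * w ∉ Set.range (algebraMap K F) := by
    rintro ⟨y, hy⟩
    apply hwz
    have h1 : w = algebraMap K F y * z⁻¹ := by
      rw [hy]
      field_simp
    rw [h1]
    exact mul_mem ((IntermediateField.adjoin K {z}).algebraMap_mem y)
      (inv_mem (IntermediateField.mem_adjoin_simple_self K _))
  refine ⟨hgal, hcomm, ?_⟩
  intro F' hcyc hF'
  have hab : IsAbelianGalois K F :=
    { toIsGalois := hgal, toIsMulCommutative := ⟨⟨hcomm⟩⟩ }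
  have hG' : IsAbelianGalois K F' := inferInstance
  -- the degree
  have hcard : Nat.card Gal(F'/K) ≤ 2 := by
    obtain ⟨g, hg⟩ := hcyc.exists_generator
    have h1 : orderOf g = Nat.card Gal(F'/K) := orderOf_eq_card_of_forall_mem_zpowers hg
    rw [← h1]
    obtain ⟨s, hs⟩ := AlgEquiv.restrictNormalHom_surjective (F := K) (K₁ := F') F g
    refine Nat.le_of_dvd two_pos (orderOf_dvd_of_pow_eq_one ?_)
    rw [← hs, ← map_pow, hsq, map_one]
  have h2 : finrank K F' = 2 := by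
    rw [IsGalois.card_aut_eq_finrank] at hcard
    have h5 : finrank K F' ≠ 1 := fun h => hF' (IntermediateField.finrank_eq_one_iff.1 h)
    have h6 : 0 < finrank K F' := finrank_pos
    omega
  refine ⟨h2, ?_⟩
  -- the generator of the fixing subgroup
  have hF'F : finrank F' F = 2 := by
    have h5 := finrank_mul_finrank K F' F
    rw [h2, h4] at h5
    omega
  have hH : Nat.card F'.fixingSubgroup = 2 := by
    rw [IsGalois.card_fixingSubgroup_eq_finrank, hF'F]
  obtain ⟨x, y, hxy, huniv⟩ := Nat.card_eq_two_iff.1 hH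
  obtain ⟨s, hs⟩ : ∃ s : Gal(F/K), ∀ t ∈ F'.fixingSubgroup, t = 1 ∨ t = s := by
    have h1 : (1 : F'.fixingSubgroup) ∈ ({x, y} : Set F'.fixingSubgroup) := by
      rw [huniv]; trivial
    have h5 : ∀ t : F'.fixingSubgroup, t = x ∨ t = y := by
      intro t
      have : t ∈ ({x, y} : Set F'.fixingSubgroup) := by rw [huniv]; trivial
      exact this
    rcases h1 with h1 | h1
    · refine ⟨y, fun t ht => ?_⟩
      rcases h5 ⟨t, ht⟩ with h | h
      · left
        rw [← h1] at h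
        exact congrArg Subtype.val h
      · right
        exact congrArg Subtype.val h
    · rw [Set.mem_singleton_iff] at h1
      refine ⟨x, fun t ht => ?_⟩
      rcases h5 ⟨t, ht⟩ with h | h
      · right
        exact congrArg Subtype.val h
      · left
        rw [← h1] at h
        exact congrArg Subtype.val h
  have hmem : ∀ v : F, s v = v → v ∈ F' := by
    intro v hv
    rw [← IsGalois.fixedField_fixingSubgroup F', IntermediateField.mem_fixedField_iff]
    intro t ht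
    rcases hs t ht with rfl | rfl
    · rfl
    · exact hv
  have hfinal : ∀ v : F, s v = v → v ∉ Set.range (algebraMap K F) → (v ^ 2 = algebraMap K F a ∨
      v ^ 2 = algebraMap K F β ∨ v ^ 2 = algebraMap K F (a * β)) →
      ∃ y : F', y ∉ Set.range (algebraMap K F') ∧ (y ^ 2 = algebraMap K F' a ∨
        y ^ 2 = algebraMap K F' β ∨ y ^ 2 = algebraMap K F' (a * β)) := by
    intro v hv hvK hv2
    refine ⟨⟨v, hmem v hv⟩, ?_, ?_⟩
    · rintro ⟨y, hy⟩
      exact hvK ⟨y, congrArg Subtype.val hy⟩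
    · rcases hv2 with h | h | h
      · exact Or.inl (Subtype.ext h)
      · exact Or.inr (Or.inl (Subtype.ext h))
      · exact Or.inr (Or.inr (Subtype.ext h))
  rcases (hact s).1 with h5 | h5
  · exact hfinal z h5 hzK (Or.inl hz)
  · rcases (hact s).2 with h6 | h6
    · exact hfinal w h6 hwK (Or.inr (Or.inl hw))
    · refine hfinal (z * w) (by rw [map_mul, h5, h6]; ring) hzwK (Or.inr (Or.inr ?_))
      rw [mul_pow, hz, hw, ← map_mul]

end

/-- `p` is larger than a given number -/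
theorem large_prime (h0 : ℕ) (hh : 1 ≤ h0) : ∃ c : ℝ, 0 < c ∧ ∀ p : ℕ, p.Prime → ∀ x : ℝ,
    1 ≤ x → x ≤ c * (1 + Real.log p) ^ 2 → h0 < p := by
  have hh1' : (1 : ℝ) ≤ h0 := by exact_mod_cast hh
  have hlh : 0 ≤ Real.log h0 := Real.log_nonneg hh1'
  set B : ℝ := (1 + Real.log h0) ^ 2 with hB
  have hB0 : 0 < B := by positivity
  refine ⟨1 / (2 * B), by positivity, fun p hp x hx1 hx => ?_⟩
  by_contra hle
  rw [not_lt] at hle
  have hp1 : (1 : ℝ) ≤ p := by exact_mod_cast hp.one_lt.le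
  have hlp : 0 ≤ Real.log p := Real.log_nonneg hp1
  have h1 : Real.log p ≤ Real.log h0 := Real.log_le_log (by linarith) (by exact_mod_cast hle)
  have h2 : (1 + Real.log p) ^ 2 ≤ B := pow_le_pow_left₀ (by linarith) (by linarith) 2
  have h3 : x ≤ 1 / (2 * B) * B := hx.trans (mul_le_mul_of_nonneg_left h2 (by positivity))
  have h4 : 1 / (2 * B) * B = 1 / 2 := by field_simp
  linarith

theorem oct_rel (K : Type) [Field K] [NumberField K] (hK : finrank ℚ K = 2) (r : K →+* ℝ) :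
    ∃ c : ℝ, 0 < c ∧ ∀ p : ℕ, p.Prime → p ≠ 2 → ∀ a α : 𝓞 K, (∀ φ : K →+* ℝ, 0 < φ a) →
      (∀ φ : K →+* ℝ, 0 < φ α) →
      (∀ Q : Ideal (𝓞 K), Q.IsPrime → (p : 𝓞 K) ∈ Q → ∀ b : 𝓞 K, b ^ 2 - a ∉ Q) →
      |(Algebra.norm ℤ (a * α) : ℝ)| ≤ c * (1 + Real.log p) ^ 2 →
      ∀ (F : Type) [Field F] [NumberField F] [Algebra K F] (z w : F), z ^ 2 = algebraMap K F a →
        w ^ 2 = algebraMap K F (p * α) → IntermediateField.adjoin K {z, w} = ⊤ →
        finrank K F = 4 ∧ NonSplit p K F ∧ ¬ p ∣ Nat.card (ClassGroup (𝓞 F)) ∧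
          RelExtensions p K F ∧ ((Ideal.span {(p : 𝓞 K)}).IsPrime → MuB.Extensions p F) := by
  have hreal : IsTotallyReal K := totallyReal_of_real hK r
  obtain ⟨c1, hc1, h1⟩ := good_prime K
  obtain ⟨c2, hc2, h2⟩ := small_discr K 4
  obtain ⟨c3, hc3, h3⟩ := large_prime (Nat.card (ClassGroup (𝓞 K))) Nat.card_pos
  set A : ℝ := |(discr K : ℝ)| ^ 2 * 2 ^ (2 * finrank ℚ K) with hA
  have hd := one_le_abs_discr K
  have hA0 : 0 < A := by positivity
  refine ⟨min c1 (min (c2 / A) c3), lt_min hc1 (lt_min (div_pos hc2 hA0) hc3),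
    fun p hp hp2 a α ha hα hns hN F _ _ _ z w hz hw htop => ?_⟩
  have hpf : Fact p.Prime := ⟨hp⟩
  have hfin : Module.Finite K F := Module.Finite.of_restrictScalars_finite ℚ K F
  have hα0 : α ≠ 0 := by
    rintro rfl
    have := hα r
    simp at this
  have ha0 : a ≠ 0 := by
    rintro rfl
    have := ha r
    simp at this
  have haα0 : a * α ≠ 0 := mul_ne_zero ha0 hα0
  have hx2 : (0 : ℝ) ≤ (1 + Real.log p) ^ 2 := by positivity
  have hp1 : (1 : ℝ) < p := by exact_mod_cast hp.one_lt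
  have hnorm : ∀ b : 𝓞 K, b ≠ 0 → (1 : ℝ) ≤ |(Algebra.norm ℤ b : ℝ)| := by
    intro b hb
    have h4 : Algebra.norm ℤ b ≠ 0 := Algebra.norm_ne_zero_iff.2 hb
    exact_mod_cast Int.one_le_abs h4
  have hgood := h1 p hp (a * α) haα0 (hN.trans (mul_le_mul_of_nonneg_right (min_le_left _ _) hx2))
  have hcl := h3 p hp _ (hnorm _ haα0) (hN.trans (mul_le_mul_of_nonneg_right
    ((min_le_right _ _).trans (min_le_right _ _)) hx2))
  have hN2 : |(Algebra.norm ℤ (a * α) : ℝ)| ≤ c2 / A * (1 + Real.log p) ^ 2 :=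
    hN.trans (mul_le_mul_of_nonneg_right ((min_le_right _ _).trans (min_le_left _ _)) hx2)
  -- integral elements
  have hzint : IsIntegral ℤ z := by
    refine IsIntegral.of_pow two_pos ?_
    rw [hz]
    exact (RingOfIntegers.isIntegral_coe a).algebraMap
  have hwint : IsIntegral ℤ w := by
    refine IsIntegral.of_pow two_pos ?_
    rw [hw]
    have h4 : (algebraMap K F) (p * α) = algebraMap K F (((p : 𝓞 K) * α : 𝓞 K) : K) := by simp
    rw [h4]
    exact (RingOfIntegers.isIntegral_coe ((p : 𝓞 K) * α)).algebraMap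
  obtain ⟨zz, hzz⟩ : ∃ zz : 𝓞 F, (zz : F) = z := ⟨⟨z, hzint⟩, rfl⟩
  obtain ⟨ww, hww⟩ : ∃ ww : 𝓞 F, (ww : F) = w := ⟨⟨w, hwint⟩, rfl⟩
  have hzz2 : zz ^ 2 = algebraMap (𝓞 K) (𝓞 F) a := by
    apply RingOfIntegers.ext
    have h4 : ((algebraMap (𝓞 K) (𝓞 F) a : 𝓞 F) : F) = algebraMap K F (a : K) := rfl
    rw [h4, ← hz, ← hzz]
    simp
  have hww2 : ww ^ 2 = algebraMap (𝓞 K) (𝓞 F) ((p : 𝓞 K) * α) := by
    apply RingOfIntegers.ext
    have h4 : ((algebraMap (𝓞 K) (𝓞 F) ((p : 𝓞 K) * α) : 𝓞 F) : F) =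
      algebraMap K F (((p : 𝓞 K) * α : 𝓞 K) : K) := rfl
    rw [h4]
    refine Eq.trans (by simp [hww]) (hw.trans (by simp))
  -- ramification and residue degrees
  have hram : ∀ P : Ideal (𝓞 F), P.IsPrime → (p : 𝓞 F) ∈ P →
      P ^ 2 ∣ (P.under (𝓞 K)).map (algebraMap (𝓞 K) (𝓞 F)) ∧ 2 ≤ P.inertiaDeg (𝓞 K) := by
    intro P hP hpP
    have hQ : (P.under (𝓞 K)).IsPrime := Ideal.IsPrime.under (𝓞 K) P
    have hpQ : (p : 𝓞 K) ∈ P.under (𝓞 K) := by
      rw [Ideal.under_def, Ideal.mem_comap, map_natCast]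
      exact hpP
    obtain ⟨g1, g2⟩ := hgood _ hQ hpQ
    refine ⟨ram_sq hp α ww hww2 P hP hpP (fun h => g1 (Ideal.mul_mem_left _ _ h)) g2,
      sqrt_inertiaDeg hp a zz hzz2 P hP hpP (hns _ hQ hpQ)⟩
  -- a prime above `p`
  have hnot : Ideal.span {(p : 𝓞 F)} ≠ ⊤ := by
    intro h4
    have h5 := absNorm_span_nat (F := F) p
    rw [h4, Ideal.absNorm_top] at h5
    have h6 : 0 < finrank ℚ F := finrank_pos
    have := Nat.one_lt_pow h6.ne' hp.one_lt
    omega
  obtain ⟨P, hPm, hle⟩ := Ideal.exists_le_maximal (Ideal.span {(p : 𝓞 F)}) hnot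
  have hpP : (p : 𝓞 F) ∈ P := hle (Ideal.mem_span_singleton_self _)
  have h4 : finrank K F = 4 := by
    refine le_antisymm (finrank_le_four hz hw htop) ?_
    obtain ⟨g1, g2⟩ := hram P hPm.isPrime hpP
    have h5 := mul_le_finrank (K := K) hp P hPm.isPrime hpP g1
    omega
  have hNS : NonSplit p K F := fun P1 P2 hP1 hP2 hp1 hp2 h12 =>
    unique_above hp (e := 2) (g := 2) (by rw [h4]; norm_num) P1 P2 hP1 hP2 hp1 hp2 h12
      (hram P1 hP1 hp1) (hram P2 hP2 hp2)
  -- `z` is not in `K`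
  have hzK : z ∉ Set.range (algebraMap K F) := by
    rintro ⟨y, hy⟩
    have hyint : IsIntegral ℤ y := by
      have h5 : IsIntegral ℤ (algebraMap K F y) := by rw [hy]; exact hzint
      exact (isIntegral_algebraMap_iff (algebraMap K F).injective).mp h5
    obtain ⟨yy, hyy⟩ : ∃ yy : 𝓞 K, (yy : K) = y := ⟨⟨y, hyint⟩, rfl⟩
    have hy2 : yy ^ 2 = a := by
      apply RingOfIntegers.ext
      apply (algebraMap K F).injective
      have h5 : algebraMap K F (y ^ 2) = algebraMap K F a := by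
        rw [map_pow, hy, hz]
      rw [← hyy] at h5
      simpa using h5
    have hpQ : (p : 𝓞 K) ∈ P.under (𝓞 K) := by
      rw [Ideal.under_def, Ideal.mem_comap, map_natCast]
      exact hpP
    have hPp := hPm.isPrime
    apply hns _ (Ideal.IsPrime.under (𝓞 K) P) hpQ yy
    rw [hy2, sub_self]
    exact Ideal.zero_mem _
  obtain ⟨hgal, hcomm, hsub⟩ := oct_sub z w hz hw htop h4 hzK
  have hab : IsAbelianGalois K F :=
    { toIsGalois := hgal, toIsMulCommutative := ⟨⟨hcomm⟩⟩ }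
  have hp4 : ¬ p ∣ 4 := by
    intro h
    have h5 : p ∣ 2 ^ 2 := h
    exact hp2 ((Nat.prime_dvd_prime_iff_eq hp Nat.prime_two).1 (hp.dvd_of_dvd_pow h5))
  -- the discriminants
  have hbd : ∀ δ : 𝓞 K, |(Algebra.norm ℤ δ : ℝ)| ≤ (p : ℝ) ^ 2 * |(Algebra.norm ℤ (a * α) : ℝ)| →
      A * |(Algebra.norm ℤ δ : ℝ)| ≤
        c2 * (p : ℝ) ^ 2 * (1 + Real.log p) ^ (2 * (finrank ℚ K - 1)) := by
    intro δ hδ
    rw [hK]
    calc A * |(Algebra.norm ℤ δ : ℝ)| ≤
          A * ((p : ℝ) ^ 2 * (c2 / A * (1 + Real.log p) ^ 2)) := by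
          refine mul_le_mul_of_nonneg_left (hδ.trans ?_) hA0.le
          exact mul_le_mul_of_nonneg_left hN2 (by positivity)
      _ = _ := by
        field_simp
  have hpa : ∀ b : 𝓞 K, |(Algebra.norm ℤ ((p : 𝓞 K) * b) : ℝ)| =
      (p : ℝ) ^ 2 * |(Algebra.norm ℤ b : ℝ)| := by
    intro b
    rw [map_mul, Algebra.norm_natCast, RingOfIntegers.rank, hK]
    push_cast
    rw [abs_mul, abs_of_nonneg (by positivity : (0 : ℝ) ≤ (p : ℝ) ^ 2)]
  have hNa := hnorm a ha0
  have hNα := hnorm α hα0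
  have hNmul : |(Algebra.norm ℤ (a * α) : ℝ)| =
      |(Algebra.norm ℤ a : ℝ)| * |(Algebra.norm ℤ α : ℝ)| := by
    rw [map_mul]; push_cast; rw [abs_mul]
  have hp21 : (1 : ℝ) ≤ (p : ℝ) ^ 2 := one_le_pow₀ hp1.le
  have hpos : ∀ b : 𝓞 K, (∀ φ : K →+* ℝ, 0 < φ b) →
      ∀ φ : K →+* ℝ, 0 < φ (((p : 𝓞 K) * b : 𝓞 K) : K) := by
    intro b hb φ
    have h5 : (((p : 𝓞 K) * b : 𝓞 K) : K) = (p : K) * b := by simp
    rw [h5, map_mul, map_natCast]
    exact mul_pos (by exact_mod_cast hp.pos) (hb φ)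
  have haα : ∀ φ : K →+* ℝ, 0 < φ ((a * α : 𝓞 K) : K) := fun φ => by
    have e : ((a * α : 𝓞 K) : K) = (a : K) * (α : K) := rfl
    rw [e, map_mul]
    exact mul_pos (ha φ) (hα φ)
  have hord : orderOf (p : ZMod 2) = 1 := by
    rw [orderOf_eq_one_iff]
    have h5 : p % 2 = 1 := by
      rcases hp.eq_two_or_odd with h | h
      · exact absurd h hp2
      · exact h
    have h6 : ((p % 2 : ℕ) : ZMod 2) = (p : ZMod 2) := ZMod.natCast_mod p 2
    rw [← h6, h5, Nat.cast_one]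
  have hSD : ∀ F' : IntermediateField K F, IsCyclic Gal(F'/K) → F' ≠ ⊥ →
      SmallDiscr c2 p K F' := by
    intro F' hcyc hF'
    obtain ⟨hd2, y, hyK, hy⟩ := hsub F' hcyc hF'
    have key : DiscrAt c2 1 p K F' := by
      rcases hy with hy | hy | hy
      · refine sqrt_discrAt K a ha F' hd2 y hy hyK (hbd a ?_)
        rw [hNmul]
        have h7 : |(Algebra.norm ℤ a : ℝ)| * 1 ≤
            |(Algebra.norm ℤ a : ℝ)| * |(Algebra.norm ℤ α : ℝ)| :=
          mul_le_mul_of_nonneg_left hNα (abs_nonneg _)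
        have h8 : 1 * (|(Algebra.norm ℤ a : ℝ)| * |(Algebra.norm ℤ α : ℝ)|) ≤
            (p : ℝ) ^ 2 * (|(Algebra.norm ℤ a : ℝ)| * |(Algebra.norm ℤ α : ℝ)|) :=
          mul_le_mul_of_nonneg_right hp21 (by positivity)
        linarith
      · refine sqrt_discrAt K ((p : 𝓞 K) * α) (hpos α hα) F' hd2 y (by rw [hy]; simp) hyK
          (hbd _ ?_)
        rw [hpa, hNmul]
        refine mul_le_mul_of_nonneg_left ?_ (by positivity)
        have h7 : 1 * |(Algebra.norm ℤ α : ℝ)| ≤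
            |(Algebra.norm ℤ a : ℝ)| * |(Algebra.norm ℤ α : ℝ)| :=
          mul_le_mul_of_nonneg_right hNa (abs_nonneg _)
        linarith
      · refine sqrt_discrAt K ((p : 𝓞 K) * (a * α)) (hpos _ haα) F' hd2 y ?_ hyK (hbd _ ?_)
        · rw [hy]
          congr 1
          have e : (((p : 𝓞 K) * (a * α) : 𝓞 K) : K) = (p : K) * ((a : K) * (α : K)) := by simp
          rw [e]
          ring
        · rw [hpa]
    obtain ⟨ρ, g1, g2, g3⟩ := key
    refine ⟨ρ, g1, g2, ?_⟩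
    have h5 : orderOf (p : ZMod (finrank K F')) = 1 := by
      rw [hd2]
      exact hord
    rw [h5]
    exact g3
  have hrel : RelExtensions p K F := by
    refine (h2 F p hp hp2 h4 hp4).1 K hNS fun F' hc hF' => hSD F' hc ?_
    exact (not_range_iff F').1 hF'
  have hkF : ¬ p ∣ Nat.card (ClassGroup (𝓞 F)) := by
    intro h
    have h5 : 1 ≤ padicValNat p (Nat.card (ClassGroup (𝓞 F))) :=
      one_le_padicValNat_of_dvd Nat.card_pos.ne' h
    rw [padic_of_rel hrel, padicValNat.eq_zero_of_not_dvd (fun h6 => by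
      have := Nat.le_of_dvd Nat.card_pos h6
      omega)] at h5
    omega
  refine ⟨h4, hNS, hkF, hrel, fun hin => extensions hp hp2 hkF ⟨P, ⟨hPm.isPrime, hpP⟩, ?_⟩⟩
  rintro P' ⟨hP', hpP'⟩
  have hpK0 : (p : 𝓞 K) ≠ 0 := by exact_mod_cast hp.ne_zero
  have hmaxK : (Ideal.span {(p : 𝓞 K)}).IsMaximal :=
    hin.isMaximal (by simpa using hpK0)
  have hund : ∀ R : Ideal (𝓞 F), R.IsPrime → (p : 𝓞 F) ∈ R →
      R.under (𝓞 K) = Ideal.span {(p : 𝓞 K)} := by
    intro R hR hpR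
    refine (hmaxK.eq_of_le ?_ ?_).symm
    · exact (Ideal.IsPrime.under (𝓞 K) R).ne_top
    · rw [Ideal.span_singleton_le_iff_mem, Ideal.under_def, Ideal.mem_comap]
      simpa using hpR
  exact hNS P' P hP' hPm.isPrime hpP' hpP (by rw [hund P' hP' hpP', hund P hPm.isPrime hpP])

end Pool.Agent.Work.MuZ
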