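import Pool.Agent.Work.MP_a4986b_nt.IDescent

set_option autoImplicit false
set_option maxHeartbeats 400000

/-! # C7, first part: the layers of a Galois extension -/

namespace Pool.Agent.Work.MuI

open NumberField Module IntermediateField
open scoped Pointwise nonZeroDivisors

theorem fi_prep {k : Type*} [Field k] {F : Type*} [Field F] [Algebra k F] {A : Type*} [Field A]
    [Algebra k A] (L : IntermediateField k A) [Algebra F L] [IsScalarTower k F L] [IsGalois F L]
    [FiniteDimensional k L] :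
    ∃ (F0 : IntermediateField k A) (hF : F0 ≤ L), Nonempty (F ≃+* F0) ∧
      IsGalois F0 (extendScalars hF) ∧ finrank F0 (extendScalars hF) = finrank F L := by
  let φ : F →ₐ[k] A := L.val.comp (IsScalarTower.toAlgHom k F L)
  let F0 : IntermediateField k A := φ.fieldRange
  have hF : F0 ≤ L := by
    rintro _ ⟨x, rfl⟩
    exact (algebraMap F L x).2
  let f : F ≃+* F0 := (AlgEquiv.ofInjectiveField φ).toRingEquiv
  let g : L ≃+* extendScalars hF :=
    { toFun := fun x => ⟨x.1, x.2⟩
      invFun := fun x => ⟨x.1, x.2⟩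
      left_inv := fun _ => rfl
      right_inv := fun _ => rfl
      map_mul' := fun _ _ => rfl
      map_add' := fun _ _ => rfl }
  have hcomm : (algebraMap F0 (extendScalars hF)).comp (f : F →+* F0) =
      (g : L →+* extendScalars hF).comp (algebraMap F L) := by
    ext x
    rfl
  refine ⟨F0, hF, ⟨f⟩, IsGalois.of_equiv_equiv hcomm, ?_⟩
  exact (Algebra.finrank_eq_of_equiv_equiv f g hcomm).symm

/-- base change of a Galois extension inside a big field -/
theorem fi_galois {k : Type*} [Field k] {A : Type*} [Field A] [Algebra k A]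
    (F0 L E : IntermediateField k A)
    (hF : F0 ≤ L) [FiniteDimensional k F0] [FiniteDimensional k L] [FiniteDimensional k E]
    [IsGalois F0 (extendScalars hF)] :
    letI : Algebra ↥(F0 ⊔ E) ↥(L ⊔ E) :=
      (IntermediateField.inclusion (sup_le_sup_right hF E)).toRingHom.toAlgebra
    IsGalois ↥(F0 ⊔ E) ↥(L ⊔ E) ∧
      finrank ↥(F0 ⊔ E) ↥(L ⊔ E) ∣ finrank F0 (extendScalars hF) := by
  have hX : F0 ≤ F0 ⊔ E := le_sup_left
  let X : IntermediateField F0 A := extendScalars hX
  let Y : IntermediateField F0 A := extendScalars hF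
  have hYfin : FiniteDimensional F0 Y := by
    have : IsScalarTower k F0 Y := IsScalarTower.of_algebraMap_eq (fun _ => rfl)
    have : FiniteDimensional k Y := by
      change FiniteDimensional k L
      infer_instance
    exact FiniteDimensional.right k F0 Y
  have hXfin : FiniteDimensional F0 X := by
    have : FiniteDimensional k ↥(F0 ⊔ E) := IntermediateField.finiteDimensional_sup F0 E
    have : IsScalarTower k F0 X := IsScalarTower.of_algebraMap_eq (fun _ => rfl)
    have : FiniteDimensional k X := by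
      change FiniteDimensional k ↥(F0 ⊔ E)
      infer_instance
    exact FiniteDimensional.right k F0 X
  obtain ⟨h1, h2, -, -⟩ := Mu22.cy_galois X Y
  have hmem : ∀ x : A, x ∈ X ⊔ Y ↔ x ∈ L ⊔ E := by
    intro x
    have e1 : X ⊔ Y = extendScalars (le_sup_of_le_left hX : F0 ≤ (F0 ⊔ E) ⊔ L) :=
      extendScalars_sup hX hF
    have e2 : (F0 ⊔ E) ⊔ L = L ⊔ E := by
      rw [sup_comm F0 E, sup_assoc, sup_eq_right.2 hF, sup_comm]
    rw [e1, mem_extendScalars, e2]
  let g : ↥(X ⊔ Y) ≃+* ↥(L ⊔ E) :=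
    { toFun := fun x => ⟨x.1, (hmem x.1).1 x.2⟩
      invFun := fun x => ⟨x.1, (hmem x.1).2 x.2⟩
      left_inv := fun _ => rfl
      right_inv := fun _ => rfl
      map_mul' := fun _ _ => rfl
      map_add' := fun _ _ => rfl }
  let f : ↥(IntermediateField.restrict (le_sup_left : X ≤ X ⊔ Y)) ≃+* ↥(F0 ⊔ E) :=
    { toFun := fun x => ⟨(x : ↥(X ⊔ Y)).1, (IntermediateField.mem_restrict _ _).1 x.2⟩
      invFun := fun x => ⟨⟨x.1, (le_sup_left : X ≤ X ⊔ Y) x.2⟩,
        (IntermediateField.mem_restrict _ _).2 x.2⟩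
      left_inv := fun _ => rfl
      right_inv := fun _ => rfl
      map_mul' := fun _ _ => rfl
      map_add' := fun _ _ => rfl }
  letI alg : Algebra ↥(F0 ⊔ E) ↥(L ⊔ E) :=
    (IntermediateField.inclusion (sup_le_sup_right hF E)).toRingHom.toAlgebra
  have hcomm : (algebraMap ↥(F0 ⊔ E) ↥(L ⊔ E)).comp (f : _ →+* _) =
      (g : ↥(X ⊔ Y) →+* ↥(L ⊔ E)).comp
        (algebraMap ↥(IntermediateField.restrict (le_sup_left : X ≤ X ⊔ Y)) ↥(X ⊔ Y)) := by
    ext x
    rfl
  refine ⟨IsGalois.of_equiv_equiv hcomm, ?_⟩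
  rw [← Algebra.finrank_eq_of_equiv_equiv f g hcomm]
  exact h2

end Pool.Agent.Work.MuI
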