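import Pool.Agent.Work.MP_a4986b_nt.Tower

set_option autoImplicit false
set_option maxHeartbeats 400000

/-! # T9: cyclotomic layers (helper31) -/

namespace Pool.Agent.Work.Mu22

open NumberField Module Polynomial IntermediateField
open scoped Pointwise nonZeroDivisors ENNReal Real

attribute [local instance] FractionRing.liftAlgebra FractionRing.isScalarTower_liftAlgebra in
theorem cy_unram {K N : Type*} [Field K] [NumberField K] [Field N] [NumberField N] [Algebra K N]
    (n : ℕ) (hn : n ≠ 0) (ζ : 𝓞 N) (hζ : ζ ^ n = 1)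
    (hgen : Algebra.adjoin K {algebraMap (𝓞 N) N ζ} = ⊤)
    (Q : Ideal (𝓞 N)) (hQ : Q.IsPrime) (hnQ : (n : 𝓞 N) ∉ Q) :
    Q.ramificationIdx (𝓞 K) = 1 := by
  have key : Algebra.IsUnramifiedAt (𝓞 K) Q := by
    rw [← not_dvd_differentIdeal_iff]
    intro hdvd
    have h1 := aeval_derivative_mem_differentIdeal (𝓞 K) K N ζ hgen
    have h2 : aeval ζ (derivative (minpoly (𝓞 K) ζ)) ∈ Q := Ideal.dvd_iff_le.1 hdvd h1
    have hint : IsIntegral (𝓞 K) ζ := Algebra.IsIntegral.isIntegral ζ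
    have h3 : minpoly (𝓞 K) ζ ∣ X ^ n - 1 := by
      apply minpoly.isIntegrallyClosed_dvd hint
      simp [hζ]
    obtain ⟨g, hg⟩ := h3
    have h4 : derivative (X ^ n - 1 : (𝓞 K)[X]) =
        derivative (minpoly (𝓞 K) ζ) * g + minpoly (𝓞 K) ζ * derivative g := by
      rw [hg, derivative_mul]
    have h5 : (n : 𝓞 N) * ζ ^ (n - 1) ∈ Q := by
      have h6 := congrArg (aeval ζ) h4
      simp only [derivative_sub, derivative_X_pow, derivative_one, sub_zero, map_mul, map_add,
        minpoly.aeval, zero_mul, add_zero, map_pow, aeval_X, aeval_C, map_natCast] at h6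
      rw [h6]
      exact Ideal.mul_mem_right _ _ h2
    have h7 : (n : 𝓞 N) ∈ Q := by
      have h8 := Ideal.mul_mem_right ζ Q h5
      rwa [mul_assoc, ← pow_succ, Nat.sub_add_cancel (Nat.pos_of_ne_zero hn), hζ, mul_one] at h8
    exact hnQ h7
  exact Ideal.ramificationIdx_eq_one Q (𝓞 K)

theorem cy_finrank {V : Type*} [AddCommGroup V] (i1 i2 : Module ℚ V) :
    @finrank ℚ V _ _ i1 = @finrank ℚ V _ _ i2 := by
  have : i1 = i2 := Subsingleton.elim _ _
  subst this
  rfl

section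

variable {k A : Type*} [Field k] [Field A] [Algebra k A] (F E : IntermediateField k A)

theorem cy_galois [IsGalois k E] [FiniteDimensional k E] [FiniteDimensional k F] :
    IsGalois (IntermediateField.restrict (le_sup_left : F ≤ F ⊔ E)) ↥(F ⊔ E) ∧
    finrank (IntermediateField.restrict (le_sup_left : F ≤ F ⊔ E)) ↥(F ⊔ E) ∣ finrank k E ∧
    finrank k (IntermediateField.restrict (le_sup_left : F ≤ F ⊔ E)) *
      finrank (IntermediateField.restrict (le_sup_left : F ≤ F ⊔ E)) ↥(F ⊔ E) =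
      finrank k ↥(F ⊔ E) ∧
    finrank k (IntermediateField.restrict (le_sup_left : F ≤ F ⊔ E)) = finrank k F := by
  let F1 : IntermediateField k ↥(F ⊔ E) := IntermediateField.restrict (le_sup_left : F ≤ F ⊔ E)
  let E1 : IntermediateField k ↥(F ⊔ E) := IntermediateField.restrict (le_sup_right : E ≤ F ⊔ E)
  have eE : E ≃ₐ[k] E1 := IntermediateField.restrictAlgEquiv (le_sup_right : E ≤ F ⊔ E)
  have eF : F ≃ₐ[k] F1 := IntermediateField.restrictAlgEquiv (le_sup_left : F ≤ F ⊔ E)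
  have hgE : IsGalois k E1 := IsGalois.of_algEquiv eE
  have hfE : FiniteDimensional k E1 := LinearEquiv.finiteDimensional eE.toLinearEquiv
  have hsup : E1 ⊔ F1 = ⊤ := by
    apply IntermediateField.lift_injective
    rw [IntermediateField.lift_sup, IntermediateField.lift_restrict,
      IntermediateField.lift_restrict, IntermediateField.lift_top, sup_comm]
  have hgal : IsGalois F1 ↥(F ⊔ E) := IsGalois.sup_right E1 F1 hsup
  have hinj := IntermediateField.restrictRestrictAlgEquivMapHom_injective E1 F1 hsup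
  have hfin : Finite Gal(E1/k) := inferInstance
  have h1 : Nat.card Gal(↥(F ⊔ E)/F1) ∣ Nat.card Gal(E1/k) := Subgroup.card_dvd_of_injective _ hinj
  have hfs : FiniteDimensional k ↥(F ⊔ E) := IntermediateField.finiteDimensional_sup F E
  have hfd : FiniteDimensional F1 ↥(F ⊔ E) := FiniteDimensional.right k F1 _
  rw [IsGalois.card_aut_eq_finrank, IsGalois.card_aut_eq_finrank] at h1
  rw [← LinearEquiv.finrank_eq eE.toLinearEquiv] at h1
  refine ⟨hgal, h1, finrank_mul_finrank k F1 ↥(F ⊔ E), ?_⟩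
  exact (LinearEquiv.finrank_eq eF.toLinearEquiv).symm

omit F in
theorem cy_abel (n : ℕ) [NeZero n] (ζ : A) (hζ : IsPrimitiveRoot ζ n) (hζint : IsIntegral k ζ)
    (hEC : E ≤ IntermediateField.adjoin k {ζ}) : IsGalois k E := by
  have hcyc : IsCyclotomicExtension {n} k (IntermediateField.adjoin k {ζ}) := by
    change IsCyclotomicExtension {n} k (IntermediateField.adjoin k {ζ}).toSubalgebra
    rw [IntermediateField.adjoin_simple_toSubalgebra_of_isAlgebraic hζint.isAlgebraic]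
    exact hζ.adjoin_isCyclotomicExtension k
  have hab : IsAbelianGalois k (IntermediateField.adjoin k {ζ}) :=
    IsCyclotomicExtension.isAbelianGalois {n} k _
  have habE : IsAbelianGalois k E := IsAbelianGalois.of_algHom (IntermediateField.inclusion hEC)
  infer_instance

theorem cy_gen {K : Type*} [Field K] (N : IntermediateField k A) [Algebra K N]
    (hKN : ∀ y ∈ F, ∃ x : K, ((algebraMap K N x : N) : A) = y) (ζ : A) (hζ : IsIntegral k ζ)
    (hN : N = F ⊔ IntermediateField.adjoin k {ζ}) (hζN : ζ ∈ N) [FiniteDimensional k F] :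
    Algebra.adjoin K {(⟨ζ, hζN⟩ : N)} = ⊤ := by
  set S : Subalgebra K N := Algebra.adjoin K {(⟨ζ, hζN⟩ : N)} with hS
  let T : Subalgebra k A :=
    { (S.toSubring.map (N.val : N →+* A)) with
      algebraMap_mem' := by
        intro r
        obtain ⟨x, hx⟩ := hKN (algebraMap k A r) (F.algebraMap_mem r)
        exact ⟨algebraMap K N x, S.algebraMap_mem x, hx⟩ }
  have hTmem : ∀ y : A, y ∈ T ↔ ∃ s ∈ S, (s : A) = y := fun y => Iff.rfl
  have hFT : F.toSubalgebra ≤ T := by
    intro y hy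
    obtain ⟨x, hx⟩ := hKN y hy
    exact ⟨algebraMap K N x, S.algebraMap_mem x, hx⟩
  have hCT : (IntermediateField.adjoin k {ζ}).toSubalgebra ≤ T := by
    rw [IntermediateField.adjoin_simple_toSubalgebra_of_isAlgebraic hζ.isAlgebraic]
    apply Algebra.adjoin_le
    rintro y rfl
    exact ⟨⟨y, hζN⟩, Algebra.subset_adjoin rfl, rfl⟩
  have hNT : N.toSubalgebra ≤ T := by
    have h1 : N.toSubalgebra = F.toSubalgebra ⊔ (IntermediateField.adjoin k {ζ}).toSubalgebra := by
      rw [hN]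
      exact IntermediateField.sup_toSubalgebra_of_left F (IntermediateField.adjoin k {ζ})
    rw [h1]
    exact sup_le hFT hCT
  rw [eq_top_iff]
  intro x _
  obtain ⟨s, hs, hsx⟩ := (hTmem x).1 (hNT x.2)
  have : s = x := Subtype.ext hsx
  rwa [← this]

end

/-- T9: cyclotomic layers -/
theorem cyc_tower {p : ℕ} (hp : p.Prime) (hp2 : p ≠ 2) (F : IntermediateField ℚ ℂ)
    [NumberField F] (hone : OnePrime p F)
    (hF : ¬ p ∣ Nat.card (ClassGroup (𝓞 F))) (m k : ℕ) (E : IntermediateField ℚ ℂ)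
    (hE : E ≤ IntermediateField.adjoin ℚ {z : ℂ | z ^ (p ^ k) = 1}) (hEd : finrank ℚ E = p ^ m) :
    ¬ p ∣ Nat.card (ClassGroup (𝓞 ↥(F ⊔ E))) := by
  have hn0 : p ^ k ≠ 0 := pow_ne_zero _ hp.ne_zero
  have hne : NeZero (p ^ k) := ⟨hn0⟩
  obtain ⟨ζ, hζ⟩ : ∃ ζ : ℂ, IsPrimitiveRoot ζ (p ^ k) := ⟨_, Complex.isPrimitiveRoot_exp _ hn0⟩
  set C : IntermediateField ℚ ℂ := IntermediateField.adjoin ℚ {ζ} with hC
  have hEC : E ≤ C := by
    refine hE.trans ?_
    rw [IntermediateField.adjoin_le_iff]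
    intro z hz
    obtain ⟨i, -, rfl⟩ := hζ.eq_pow_of_pow_eq_one hz
    exact pow_mem (IntermediateField.mem_adjoin_simple_self ℚ ζ) i
  have hζint : IsIntegral ℚ ζ := (hζ.isIntegral (Nat.pos_of_ne_zero hn0)).tower_top
  have hCfin : FiniteDimensional ℚ C := IntermediateField.adjoin.finiteDimensional hζint
  have hFfin : FiniteDimensional ℚ F := by
    have h1 : @FiniteDimensional ℚ F _ _ DivisionRing.toRatAlgebra.toModule := inferInstance
    have h2 : (DivisionRing.toRatAlgebra : Algebra ℚ F) = F.algebra' := Subsingleton.elim _ _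
    rwa [h2] at h1
  have hEfin : FiniteDimensional ℚ E := by
    apply FiniteDimensional.of_finrank_pos
    rw [hEd]; exact pow_pos hp.pos _
  have hζC : ζ ∈ C := IntermediateField.mem_adjoin_simple_self ℚ ζ
  have hgE := cy_abel E (p ^ k) ζ hζ hζint hEC
  have hΩfin : FiniteDimensional ℚ ↥(F ⊔ E) := IntermediateField.finiteDimensional_sup F E
  have hNfin : FiniteDimensional ℚ ↥(F ⊔ C) := IntermediateField.finiteDimensional_sup F C
  have hΩnf : NumberField ↥(F ⊔ E) := NumberField.of_module_finite ℚ _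
  have hNnf : NumberField ↥(F ⊔ C) := NumberField.of_module_finite ℚ _
  obtain ⟨hgal, hdvd, hmul, hfr⟩ := cy_galois F E
  set F1 := IntermediateField.restrict (le_sup_left : F ≤ F ⊔ E) with hF1
  rw [hEd] at hdvd
  obtain ⟨n, -, hn⟩ := (Nat.dvd_prime_pow hp).1 hdvd
  let eF := IntermediateField.restrictAlgEquiv (le_sup_left : F ≤ F ⊔ E)
  have hF1nf : NumberField F1 := NumberField.of_ringEquiv _ _ eF.toRingEquiv
  have hF1' := tw_equiv (p := p) eF.toRingEquiv hone hF
  have hp_odd : Odd p := hp.odd_of_ne_two hp2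
  -- the big field
  have hle : F ⊔ E ≤ F ⊔ C := sup_le_sup_left hEC F
  let aΩN : Algebra ↥(F ⊔ E) ↥(F ⊔ C) := (IntermediateField.inclusion hle).toRingHom.toAlgebra
  have hst : IsScalarTower F1 ↥(F ⊔ E) ↥(F ⊔ C) := IsScalarTower.of_algebraMap_eq (fun _ => rfl)
  have hζN : ζ ∈ F ⊔ C := (le_sup_right : C ≤ F ⊔ C) hζC
  have hgen : Algebra.adjoin F1 {(⟨ζ, hζN⟩ : ↥(F ⊔ C))} = ⊤ := by
    refine cy_gen F (F ⊔ C) ?_ ζ hζint rfl hζN
    intro y hy
    exact ⟨eF ⟨y, hy⟩, rfl⟩
  have hunN : UnramOutside p F1 ↥(F ⊔ C) := by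
    intro Q hQ hQ0 hpQ
    have hint : IsIntegral ℤ (⟨ζ, hζN⟩ : ↥(F ⊔ C)) := by
      refine IsIntegral.of_pow (Nat.pos_of_ne_zero hn0) ?_
      have : (⟨ζ, hζN⟩ : ↥(F ⊔ C)) ^ (p ^ k) = 1 := Subtype.ext hζ.pow_eq_one
      rw [this]
      exact isIntegral_one
    refine cy_unram (p ^ k) hn0 (⟨⟨ζ, hζN⟩, hint⟩ : 𝓞 ↥(F ⊔ C)) ?_ hgen Q hQ ?_
    · apply RingOfIntegers.ext
      exact Subtype.ext hζ.pow_eq_one
    · intro h
      apply hpQ
      rw [Nat.cast_pow] at h
      exact hQ.mem_of_pow_mem _ h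
  exact (tower hp n hn hp_odd hF1'.2 (tw_unram_bot F1 ↥(F ⊔ E) ↥(F ⊔ C) hunN) hF1'.1).1

end Pool.Agent.Work.Mu22
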