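import Pool.Agent.Work.MP_a4986b_nt.IDefs
import Pool.Agent.Work.MP_a4986b_nt.Cyc

set_option autoImplicit false
set_option maxHeartbeats 400000

/-! # C4: the layers of the cyclotomic `ℤ_p`-extension of `ℚ` -/

namespace Pool.Agent.Work.MuI

open NumberField Module IntermediateField
open scoped Pointwise nonZeroDivisors

section Groups

theorem ly_subgroup_le {G : Type*} [Group G] [Finite G] (hc : IsCyclic G) (H1 H2 : Subgroup G)
    (h : Nat.card H2 ∣ Nat.card H1) : H2 ≤ H1 := by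
  classical
  have := Fintype.ofFinite G
  have hpos : 0 < Nat.card H1 := Nat.card_pos
  have h1 := IsCyclic.card_pow_eq_one_le (α := G) hpos
  have hsub : (H1 : Set G).toFinset ⊆ (Finset.univ.filter fun a : G => a ^ Nat.card H1 = 1) := by
    intro x hx
    rw [Set.mem_toFinset] at hx
    rw [Finset.mem_filter]
    refine ⟨Finset.mem_univ _, ?_⟩
    have h2 : (⟨x, hx⟩ : H1) ^ Nat.card H1 = 1 := pow_card_eq_one'
    exact congrArg Subtype.val h2
  have hcard : (H1 : Set G).toFinset.card = Nat.card H1 := by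
    rw [Set.toFinset_card, Nat.card_eq_fintype_card]
    rfl
  have heq := Finset.eq_of_subset_of_card_le hsub (by rw [hcard]; exact h1)
  intro x hx
  have hx1 : x ^ Nat.card H1 = 1 := by
    obtain ⟨c, hc⟩ := h
    have h2 : (⟨x, hx⟩ : H2) ^ Nat.card H2 = 1 := pow_card_eq_one'
    have h3 : x ^ Nat.card H2 = 1 := congrArg Subtype.val h2
    rw [hc, pow_mul, h3, one_pow]
  have hx2 : x ∈ (Finset.univ.filter fun a : G => a ^ Nat.card H1 = 1) := by
    rw [Finset.mem_filter]
    exact ⟨Finset.mem_univ _, hx1⟩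
  rw [← heq, Set.mem_toFinset] at hx2
  exact hx2

theorem ly_exists_subgroup {G : Type*} [Group G] [Finite G] (hc : IsCyclic G) (a b : ℕ)
    (h : Nat.card G = a * b) : ∃ H : Subgroup G, Nat.card H = b := by
  obtain ⟨g, hg⟩ := hc.exists_generator
  have hord : orderOf g = a * b := by rw [orderOf_eq_card_of_forall_mem_zpowers hg, h]
  have hpos : 0 < a * b := by rw [← h]; exact Nat.card_pos
  have ha : 0 < a := Nat.pos_of_mul_pos_right hpos
  refine ⟨Subgroup.zpowers (g ^ a), ?_⟩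
  rw [Nat.card_zpowers, orderOf_pow, hord, Nat.gcd_eq_right (dvd_mul_right a b),
    Nat.mul_div_cancel_left _ ha]

end Groups

section Fields

variable {k A : Type*} [Field k] [Field A] [Algebra k A]

theorem ly_le (C E1 E2 : IntermediateField k A) [FiniteDimensional k C] [IsGalois k C]
    (hc : IsCyclic Gal(C/k)) (h1 : E1 ≤ C) (h2 : E2 ≤ C)
    (h : finrank k E1 ∣ finrank k E2) : E1 ≤ E2 := by
  let F1 : IntermediateField k C := IntermediateField.restrict h1
  let F2 : IntermediateField k C := IntermediateField.restrict h2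
  have e1 : finrank k F1 = finrank k E1 :=
    (LinearEquiv.finrank_eq (IntermediateField.restrictAlgEquiv h1).toLinearEquiv).symm
  have e2 : finrank k F2 = finrank k E2 :=
    (LinearEquiv.finrank_eq (IntermediateField.restrictAlgEquiv h2).toLinearEquiv).symm
  have m1 : finrank k F1 * finrank F1 C = finrank k C := finrank_mul_finrank k F1 C
  have m2 : finrank k F2 * finrank F2 C = finrank k C := finrank_mul_finrank k F2 C
  have hdvd : Nat.card F2.fixingSubgroup ∣ Nat.card F1.fixingSubgroup := by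
    rw [IsGalois.card_fixingSubgroup_eq_finrank, IsGalois.card_fixingSubgroup_eq_finrank]
    obtain ⟨c, hc⟩ := h
    have hpos : 0 < finrank k F1 := finrank_pos
    refine ⟨c, Nat.eq_of_mul_eq_mul_left hpos ?_⟩
    rw [m1, ← m2, e2, hc, e1]
    ring
  have hle := ly_subgroup_le (G := Gal(C/k)) hc F1.fixingSubgroup F2.fixingSubgroup hdvd
  have hF : F1 ≤ F2 := by
    have h3 : F1 ≤ fixedField F2.fixingSubgroup := (IntermediateField.le_iff_le _ _).2 hle
    rwa [IsGalois.fixedField_fixingSubgroup] at h3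
  intro x hx
  have h4 : (⟨x, h1 hx⟩ : C) ∈ F1 := by
    rw [IntermediateField.mem_restrict]; exact hx
  have h5 := hF h4
  rw [IntermediateField.mem_restrict] at h5
  exact h5

theorem ly_exists (C : IntermediateField k A) [FiniteDimensional k C] [IsGalois k C]
    (hc : IsCyclic Gal(C/k)) (a b : ℕ) (h : finrank k C = a * b) :
    ∃ E : IntermediateField k A, E ≤ C ∧ finrank k E = a := by
  obtain ⟨H, hH⟩ := ly_exists_subgroup (G := Gal(C/k)) hc a b
    (by rw [IsGalois.card_aut_eq_finrank, h])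
  have h1 : finrank (fixedField H) C = b := by
    rw [IntermediateField.finrank_fixedField_eq_card, hH]
  have h2 : finrank k (fixedField H) * finrank (fixedField H) C = finrank k C :=
    finrank_mul_finrank k (fixedField H) C
  have hb : 0 < b := by rw [← h1]; exact finrank_pos
  have h3 : finrank k (fixedField H) = a := by
    rw [h1, h] at h2
    exact Nat.eq_of_mul_eq_mul_right hb h2
  refine ⟨IntermediateField.lift (fixedField H), IntermediateField.lift_le _, ?_⟩
  rw [← h3]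
  exact (LinearEquiv.finrank_eq (IntermediateField.liftAlgEquiv (fixedField H)).toLinearEquiv).symm

theorem ly_quot (C E : IntermediateField k A) [FiniteDimensional k C] [IsGalois k C]
    [IsGalois k E] (hc : IsCyclic Gal(C/k)) (h : E ≤ C) : IsCyclic Gal(E/k) := by
  let F : IntermediateField k C := IntermediateField.restrict h
  let e : E ≃ₐ[k] F := IntermediateField.restrictAlgEquiv h
  have hg : IsGalois k F := IsGalois.of_algEquiv e
  have h1 : IsCyclic Gal(F/k) :=
    isCyclic_of_surjective (AlgEquiv.restrictNormalHom (F := k) (K₁ := C) F)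
      (AlgEquiv.restrictNormalHom_surjective (F := k) (K₁ := F) C)
  exact isCyclic_of_injective (AlgEquiv.autCongr e).toMonoidHom (AlgEquiv.autCongr e).injective

theorem ly_cyclo {p : ℕ} (hp : p.Prime) (hp2 : p ≠ 2) (n : ℕ) (ζ : A)
    (hζ : IsPrimitiveRoot ζ (p ^ n)) (hirr : Irreducible (Polynomial.cyclotomic (p ^ n) k)) :
    FiniteDimensional k (IntermediateField.adjoin k {z : A | z ^ (p ^ n) = 1}) ∧
    IsGalois k (IntermediateField.adjoin k {z : A | z ^ (p ^ n) = 1}) ∧
    IsCyclic Gal((IntermediateField.adjoin k {z : A | z ^ (p ^ n) = 1})/k) ∧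
    finrank k (IntermediateField.adjoin k {z : A | z ^ (p ^ n) = 1}) = (p ^ n).totient ∧
    ∀ E : IntermediateField k A, E ≤ IntermediateField.adjoin k {z : A | z ^ (p ^ n) = 1} →
      IsGalois k E := by
  have hn0 : p ^ n ≠ 0 := pow_ne_zero _ hp.ne_zero
  have hne : NeZero (p ^ n) := ⟨hn0⟩
  have hζint : IsIntegral k ζ := (hζ.isIntegral (Nat.pos_of_ne_zero hn0)).tower_top
  have hCC : IntermediateField.adjoin k {z : A | z ^ (p ^ n) = 1} =
      IntermediateField.adjoin k {ζ} := by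
    apply le_antisymm
    · rw [IntermediateField.adjoin_le_iff]
      intro z hz
      obtain ⟨i, -, rfl⟩ := hζ.eq_pow_of_pow_eq_one hz
      exact pow_mem (IntermediateField.mem_adjoin_simple_self k ζ) i
    · rw [IntermediateField.adjoin_simple_le_iff]
      exact IntermediateField.subset_adjoin k _ hζ.pow_eq_one
  rw [hCC]
  have hcyc : IsCyclotomicExtension {p ^ n} k (IntermediateField.adjoin k {ζ}) := by
    change IsCyclotomicExtension {p ^ n} k (IntermediateField.adjoin k {ζ}).toSubalgebra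
    rw [IntermediateField.adjoin_simple_toSubalgebra_of_isAlgebraic hζint.isAlgebraic]
    exact hζ.adjoin_isCyclotomicExtension k
  refine ⟨IntermediateField.adjoin.finiteDimensional hζint,
    Mu22.cy_abel _ (p ^ n) ζ hζ hζint le_rfl, ?_, ?_, fun E hE =>
      Mu22.cy_abel E (p ^ n) ζ hζ hζint hE⟩
  · have h1 := ZMod.isCyclic_units_of_prime_pow p hp hp2 n
    have e := IsCyclotomicExtension.autEquivPow (IntermediateField.adjoin k {ζ}) hirr
    exact isCyclic_of_injective e.toMonoidHom e.injective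
  · exact IsCyclotomicExtension.finrank (IntermediateField.adjoin k {ζ}) hirr

end Fields

section Layers

variable {p : ℕ}

/-- C4: layers exist, are unique, increase, are cyclic over `ℚ` -/
theorem exists_layer (hp : p.Prime) (hp2 : p ≠ 2) (m : ℕ) : ∃ E, IsLayer p m E := by
  have hn0 : p ^ (m + 1) ≠ 0 := pow_ne_zero _ hp.ne_zero
  obtain ⟨ζ, hζ⟩ : ∃ ζ : ℂ, IsPrimitiveRoot ζ (p ^ (m + 1)) :=
    ⟨_, Complex.isPrimitiveRoot_exp _ hn0⟩
  obtain ⟨i1, i2, i3, i4, -⟩ := ly_cyclo (k := ℚ) hp hp2 (m + 1) ζ hζ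
    (Polynomial.cyclotomic.irreducible_rat (Nat.pos_of_ne_zero hn0))
  rw [Nat.totient_prime_pow_succ hp] at i4
  obtain ⟨E, hE, hEd⟩ := ly_exists _ i3 (p ^ m) (p - 1) i4
  exact ⟨E, hE, (Mu22.cy_finrank _ _).trans hEd⟩

/-- C4 -/
theorem layer_mono (hp : p.Prime) (hp2 : p ≠ 2) {m m' : ℕ} (hm : m ≤ m')
    {E E' : IntermediateField ℚ ℂ} (h : IsLayer p m E) (h' : IsLayer p m' E') : E ≤ E' := by
  have hn0 : p ^ (m' + 1) ≠ 0 := pow_ne_zero _ hp.ne_zero
  obtain ⟨ζ, hζ⟩ : ∃ ζ : ℂ, IsPrimitiveRoot ζ (p ^ (m' + 1)) :=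
    ⟨_, Complex.isPrimitiveRoot_exp _ hn0⟩
  obtain ⟨i1, i2, i3, i4, -⟩ := ly_cyclo (k := ℚ) hp hp2 (m' + 1) ζ hζ
    (Polynomial.cyclotomic.irreducible_rat (Nat.pos_of_ne_zero hn0))
  refine ly_le _ E E' i3 (h.1.trans ?_) h'.1 ?_
  · apply IntermediateField.adjoin.mono
    intro z hz
    have h1 : p ^ (m + 1) ∣ p ^ (m' + 1) := pow_dvd_pow p (by omega)
    obtain ⟨c, hc⟩ := h1
    change z ^ (p ^ (m' + 1)) = 1
    have hz' : z ^ (p ^ (m + 1)) = 1 := hz
    rw [hc, pow_mul, hz', one_pow]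
  · have key : ∀ a b : ℕ, a = p ^ m → b = p ^ m' → a ∣ b := by
      rintro _ _ rfl rfl
      exact pow_dvd_pow p hm
    exact key _ _ ((Mu22.cy_finrank _ _).trans h.2) ((Mu22.cy_finrank _ _).trans h'.2)

/-- C4 -/
theorem layer_unique (hp : p.Prime) (hp2 : p ≠ 2) {m : ℕ} {E E' : IntermediateField ℚ ℂ}
    (h : IsLayer p m E) (h' : IsLayer p m E') : E = E' :=
  le_antisymm (layer_mono hp hp2 le_rfl h h') (layer_mono hp hp2 le_rfl h' h)

/-- C4 -/
theorem layer_le (hp : p.Prime) (hp2 : p ≠ 2) {m : ℕ} {E E' : IntermediateField ℚ ℂ}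
    (h : IsLayer p m E) (h' : IsLayer p (m + 1) E') : E ≤ E' :=
  layer_mono hp hp2 (Nat.le_succ m) h h'

/-- C4 -/
theorem layer_galois (hp : p.Prime) (hp2 : p ≠ 2) {m : ℕ} {E : IntermediateField ℚ ℂ}
    (h : IsLayer p m E) : IsGalois ℚ E ∧ IsCyclic Gal(E/ℚ) := by
  have hinst : (DivisionRing.toRatAlgebra : Algebra ℚ E) = E.algebra' := Subsingleton.elim _ _
  rw [hinst]
  have hn0 : p ^ (m + 1) ≠ 0 := pow_ne_zero _ hp.ne_zero
  obtain ⟨ζ, hζ⟩ : ∃ ζ : ℂ, IsPrimitiveRoot ζ (p ^ (m + 1)) :=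
    ⟨_, Complex.isPrimitiveRoot_exp _ hn0⟩
  obtain ⟨i1, i2, i3, i4, i5⟩ := ly_cyclo (k := ℚ) hp hp2 (m + 1) ζ hζ
    (Polynomial.cyclotomic.irreducible_rat (Nat.pos_of_ne_zero hn0))
  have hg := i5 E h.1
  exact ⟨hg, ly_quot _ E i3 h.1⟩

end Layers

end Pool.Agent.Work.MuI
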