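import Pool.Agent.Work.MP_a4986b_nt.IGrowthA
import Pool.Agent.Work.MP_a4986b_nt.ILayer

set_option autoImplicit false
set_option maxHeartbeats 400000

/-! # C5: growth of the class numbers in the layers -/

namespace Pool.Agent.Work.MuI

open NumberField Module IntermediateField
open scoped Pointwise nonZeroDivisors

section Fields

variable {k A : Type*} [Field k] [Field A] [Algebra k A]

/-- the degree of a compositum grows by at most `d` -/
theorem gr_deg_le (L E E' : IntermediateField k A) [FiniteDimensional k L]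
    [FiniteDimensional k E] [FiniteDimensional k E'] (h : E ≤ E') (d : ℕ)
    (hd : finrank k E' = finrank k E * d) :
    finrank k ↥(L ⊔ E') ≤ finrank k ↥(L ⊔ E) * d := by
  have h1 : E ≤ L ⊔ E := le_sup_right
  have hsup : (L ⊔ E) ⊔ E' = L ⊔ E' := by rw [sup_assoc, sup_eq_right.2 h]
  have h2 := IntermediateField.finrank_sup_le (extendScalars h1) (extendScalars h)
  rw [extendScalars_sup] at h2
  have e1 := finrank_bot_mul_relfinrank h1
  have e2 := finrank_bot_mul_relfinrank h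
  have e3 := finrank_bot_mul_relfinrank (le_sup_of_le_left h1 : E ≤ (L ⊔ E) ⊔ E')
  rw [relfinrank_eq_finrank_of_le h1] at e1
  rw [relfinrank_eq_finrank_of_le h] at e2
  rw [relfinrank_eq_finrank_of_le (le_sup_of_le_left h1 : E ≤ (L ⊔ E) ⊔ E')] at e3
  have hpos : 0 < finrank k E := finrank_pos
  have e4 : finrank E (extendScalars h) = d :=
    Nat.eq_of_mul_eq_mul_left hpos (by rw [e2, hd])
  have e5 : finrank k ↥(L ⊔ E ⊔ E') = finrank k ↥(L ⊔ E') := by rw [hsup]
  rw [← e5, ← e3, ← e1, mul_assoc]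
  rw [e4] at h2
  exact Nat.mul_le_mul_left _ h2

/-- the Galois group of a compositum is cyclic -/
theorem gr_cyclic (F E : IntermediateField k A) [IsGalois k E] [FiniteDimensional k E]
    [FiniteDimensional k F] (hcyc : IsCyclic Gal(E/k)) :
    IsCyclic Gal(↥(F ⊔ E)/(IntermediateField.restrict (le_sup_left : F ≤ F ⊔ E))) := by
  let F1 : IntermediateField k ↥(F ⊔ E) := IntermediateField.restrict (le_sup_left : F ≤ F ⊔ E)
  let E1 : IntermediateField k ↥(F ⊔ E) := IntermediateField.restrict (le_sup_right : E ≤ F ⊔ E)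
  have eE : E ≃ₐ[k] E1 := IntermediateField.restrictAlgEquiv (le_sup_right : E ≤ F ⊔ E)
  have hgE : IsGalois k E1 := IsGalois.of_algEquiv eE
  have hsup : E1 ⊔ F1 = ⊤ := by
    apply IntermediateField.lift_injective
    rw [IntermediateField.lift_sup, IntermediateField.lift_restrict,
      IntermediateField.lift_restrict, IntermediateField.lift_top, sup_comm]
  have hinj := IntermediateField.restrictRestrictAlgEquivMapHom_injective E1 F1 hsup
  have hc1 : IsCyclic Gal(E1/k) :=
    isCyclic_of_injective (AlgEquiv.autCongr eE.symm).toMonoidHom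
      (AlgEquiv.autCongr eE.symm).injective
  exact isCyclic_of_injective _ hinj

end Fields

theorem gr_card_eq {K K' : Type*} [Field K] [Field K'] (e : K ≃+* K') :
    Nat.card (ClassGroup (𝓞 K)) = Nat.card (ClassGroup (𝓞 K')) :=
  Nat.card_congr (ClassGroup.mulEquiv (RingOfIntegers.mapRingEquiv e)).toEquiv

theorem gr_fin (L : IntermediateField ℚ ℂ) [NumberField L] : FiniteDimensional ℚ L := by
  have h1 : @FiniteDimensional ℚ L _ _ DivisionRing.toRatAlgebra.toModule := inferInstance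
  have h2 : (DivisionRing.toRatAlgebra : Algebra ℚ L) = L.algebra' := Subsingleton.elim _ _
  rwa [h2] at h1

theorem gr_layer_step {p : ℕ} (hp : p.Prime) (hp2 : p ≠ 2) (L : IntermediateField ℚ ℂ)
    [NumberField L] (k m : ℕ) (hm : k + finrank ℚ L ≤ m) (E E' : IntermediateField ℚ ℂ)
    (hE : IsLayer p m E) (hE' : IsLayer p (m + 1) E')
    (hrk : rk p (ClassGroup (𝓞 ↥(L ⊔ E'))) ≤ p ^ k) :
    padicValNat p (Nat.card (ClassGroup (𝓞 ↥(L ⊔ E')))) ≤
      padicValNat p (Nat.card (ClassGroup (𝓞 ↥(L ⊔ E)))) + rk p (ClassGroup (𝓞 ↥(L ⊔ E'))) := by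
  have hLf : FiniteDimensional ℚ L := gr_fin L
  have hle : E ≤ E' := layer_le hp hp2 hE hE'
  obtain ⟨hgE', hcE'⟩ := layer_galois hp hp2 hE'
  have hinst : (DivisionRing.toRatAlgebra : Algebra ℚ E') = E'.algebra' := Subsingleton.elim _ _
  rw [hinst] at hgE' hcE'
  have hEfin : FiniteDimensional ℚ E := by
    apply FiniteDimensional.of_finrank_pos
    rw [hE.2]; exact pow_pos hp.pos _
  have hE'fin : FiniteDimensional ℚ E' := by
    apply FiniteDimensional.of_finrank_pos
    rw [hE'.2]; exact pow_pos hp.pos _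
  have hMle : L ⊔ E ≤ L ⊔ E' := sup_le_sup_left hle L
  have hNfin : FiniteDimensional ℚ ↥(L ⊔ E') := IntermediateField.finiteDimensional_sup L E'
  have hMfin : FiniteDimensional ℚ ↥(L ⊔ E) := IntermediateField.finiteDimensional_sup L E
  have hNnf : NumberField ↥(L ⊔ E') := NumberField.of_module_finite ℚ _
  have hMnf : NumberField ↥(L ⊔ E) := NumberField.of_module_finite ℚ _
  have hdeg : finrank ℚ ↥(L ⊔ E') ≤ finrank ℚ ↥(L ⊔ E) * p :=
    gr_deg_le L E E' hle p (by rw [hE.2, hE'.2, pow_succ])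
  obtain ⟨hgal, hdvd, hmul, hfr⟩ := Mu22.cy_galois L E'
  have hcyc := gr_cyclic L E' hcE'
  set L1 := IntermediateField.restrict (le_sup_left : L ≤ L ⊔ E') with hL1
  let M1 : IntermediateField ℚ ↥(L ⊔ E') := IntermediateField.restrict hMle
  rw [hE'.2] at hdvd
  obtain ⟨n, -, hn⟩ := (Nat.dvd_prime_pow hp).1 hdvd
  have hLM : L1 ≤ M1 := by
    intro x hx
    rw [IntermediateField.mem_restrict] at hx ⊢
    exact (le_sup_left : L ≤ L ⊔ E) hx
  let eM := IntermediateField.restrictAlgEquiv hMle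
  let eL := IntermediateField.restrictAlgEquiv (le_sup_left : L ≤ L ⊔ E')
  have hM1nf : NumberField M1 := NumberField.of_ringEquiv _ _ eM.toRingEquiv
  have hL1nf : NumberField L1 := NumberField.of_ringEquiv _ _ eL.toRingEquiv
  have hmulM : finrank ℚ M1 * finrank M1 ↥(L ⊔ E') = finrank ℚ ↥(L ⊔ E') :=
    finrank_mul_finrank ℚ M1 ↥(L ⊔ E')
  have hfM : finrank ℚ M1 = finrank ℚ ↥(L ⊔ E) := (LinearEquiv.finrank_eq eM.toLinearEquiv).symm
  have hposM : 0 < finrank ℚ ↥(L ⊔ E) := finrank_pos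
  have hdle : finrank M1 ↥(L ⊔ E') ≤ p := by
    rw [hfM] at hmulM
    rw [← hmulM] at hdeg
    exact Nat.le_of_mul_le_mul_left hdeg hposM
  let aLM : Algebra L1 M1 := (IntermediateField.inclusion hLM).toRingHom.toAlgebra
  have hst : IsScalarTower L1 M1 ↥(L ⊔ E') := IsScalarTower.of_algebraMap_eq (fun _ => rfl)
  have hstQ : IsScalarTower ℚ L1 M1 := IsScalarTower.of_algebraMap_eq (fun _ => rfl)
  have hfinLM : FiniteDimensional L1 M1 := FiniteDimensional.right ℚ L1 M1
  have hfinLN : FiniteDimensional L1 ↥(L ⊔ E') := FiniteDimensional.right ℚ L1 _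
  have hdd : finrank M1 ↥(L ⊔ E') ∣ p ^ n := by
    rw [← hn, ← finrank_mul_finrank L1 M1 ↥(L ⊔ E')]
    exact dvd_mul_left _ _
  obtain ⟨a, -, ha⟩ := (Nat.dvd_prime_pow hp).1 hdd
  have ha1 : a ≤ 1 := by
    rw [ha] at hdle
    by_contra hcon
    have h1 : p ^ 2 ≤ p ^ a := Nat.pow_le_pow_right hp.pos (by omega)
    have h2 := hp.two_le
    nlinarith
  rcases Nat.le_one_iff_eq_zero_or_eq_one.1 ha1 with rfl | rfl
  · -- the degree is one
    rw [ha, pow_zero, mul_one, hfM] at hmulM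
    have heq : L ⊔ E = L ⊔ E' := IntermediateField.eq_of_le_of_finrank_eq hMle hmulM
    rw [heq]
    exact Nat.le_add_right _ _
  · rw [gr_card_eq eM.toRingEquiv]
    refine growth_step (K := L1) (M := M1) (N := ↥(L ⊔ E')) hp hp2 hcyc n hn
      (by rw [ha, pow_one]) k ?_ hrk
    by_contra hcon
    have hnk : n ≤ k := by omega
    have h1 : finrank ℚ E' ≤ finrank ℚ ↥(L ⊔ E') :=
      IntermediateField.finrank_le_of_le_right (le_sup_right : E' ≤ L ⊔ E')
    rw [hE'.2, ← hmul, hn, hfr] at h1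
    have h2 : finrank ℚ L < p ^ finrank ℚ L := Nat.lt_pow_self hp.one_lt
    have h3 : p ^ n ≤ p ^ k := Nat.pow_le_pow_right hp.pos hnk
    have h4 : finrank ℚ L * p ^ n ≤ finrank ℚ L * p ^ k := Nat.mul_le_mul_left _ h3
    have h5 : finrank ℚ L * p ^ k ≤ p ^ finrank ℚ L * p ^ k := Nat.mul_le_mul_right _ h2.le
    have h6 : p ^ finrank ℚ L * p ^ k ≤ p ^ m := by
      rw [← pow_add]
      exact Nat.pow_le_pow_right hp.pos (by omega)
    have h7 : p ^ m < p ^ (m + 1) := Nat.pow_lt_pow_right hp.one_lt (Nat.lt_succ_self m)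
    omega

/-- C5: growth: bounded ranks imply `v_p (h) = O (m)` -/
theorem growth {p : ℕ} (hp : p.Prime) (hp2 : p ≠ 2) (L : IntermediateField ℚ ℂ) [NumberField L]
    (B : ℕ) (hB : ∀ (m : ℕ) (E : IntermediateField ℚ ℂ), IsLayer p m E →
      rk p (ClassGroup (𝓞 ↥(L ⊔ E))) ≤ B) :
    ∃ C : ℕ, ∀ (m : ℕ) (E : IntermediateField ℚ ℂ), IsLayer p m E →
      padicValNat p (Nat.card (ClassGroup (𝓞 ↥(L ⊔ E)))) ≤ C * (m + 1) := by
  choose Q hQ using fun m => exists_layer hp hp2 m
  set f : ℕ → ℕ := fun m => padicValNat p (Nat.card (ClassGroup (𝓞 ↥(L ⊔ Q m)))) with hf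
  have hBk : B ≤ p ^ B := (Nat.lt_pow_self hp.one_lt).le
  have hstep : ∀ m, B + finrank ℚ L ≤ m → f (m + 1) ≤ f m + B := by
    intro m hm
    have h1 := gr_layer_step hp hp2 L B m hm (Q m) (Q (m + 1)) (hQ m) (hQ (m + 1))
      ((hB _ _ (hQ (m + 1))).trans hBk)
    exact h1.trans (Nat.add_le_add_left (hB _ _ (hQ (m + 1))) _)
  set m1 := B + finrank ℚ L with hm1
  have hbig : ∀ i, f (m1 + i) ≤ f m1 + B * i := by
    intro i
    induction i with
    | zero => simp
    | succ i ih =>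
      have h1 := hstep (m1 + i) (Nat.le_add_right _ _)
      rw [← add_assoc, Nat.mul_succ]
      omega
  refine ⟨∑ i ∈ Finset.range (m1 + 1), f i + B, ?_⟩
  have hsum : ∀ i, i ≤ m1 → f i ≤ ∑ i ∈ Finset.range (m1 + 1), f i := fun i hi =>
    Finset.single_le_sum (f := f) (fun _ _ => Nat.zero_le _) (Finset.mem_range.2 (by omega))
  intro m E hE
  rw [layer_unique hp hp2 hE (hQ m)]
  change f m ≤ _
  set S := ∑ i ∈ Finset.range (m1 + 1), f i with hS
  by_cases hm : m ≤ m1
  · have h1 := hsum m hm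
    nlinarith
  · obtain ⟨i, rfl⟩ := Nat.exists_eq_add_of_le (le_of_not_ge hm)
    have h1 := hbig i
    have h2 := hsum m1 le_rfl
    nlinarith

end Pool.Agent.Work.MuI
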