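import Pool.Agent.Work.MP_a4986b_nt.IStep

set_option autoImplicit false
set_option maxHeartbeats 400000

/-! # N7, N8: the rank in a Galois extension of `p`-power degree (helper25) -/

namespace Pool.Agent.Work.MuI

open NumberField Module
open scoped Pointwise nonZeroDivisors

/-- N8: finiteness of the set of ramified primes, monotonicity -/
theorem ramSet_finite {K M : Type*} [Field K] [NumberField K] [Field M] [NumberField M]
    [Algebra K M] : (RamSet K M).Finite :=
  Inv.ramSet_fin

theorem ramSet_subset_top (K M N : Type*) [Field K] [NumberField K] [Field M] [NumberField M]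
    [Field N] [NumberField N] [Algebra K M] [Algebra M N] [Algebra K N] [IsScalarTower K M N] :
    RamSet M N ⊆ RamSet K N := by
  rintro Q ⟨hQ, hQ0, he⟩
  refine ⟨hQ, hQ0, ?_⟩
  intro h1
  have h2 := Ideal.ramificationIdx_tower (R := 𝓞 K) (Q.under (𝓞 M)) Q
  rw [h1] at h2
  exact he (Nat.dvd_one.1 ⟨_, h2.trans (mul_comm _ _)⟩)

theorem ramSet_subset_bot (K M N : Type*) [Field K] [NumberField K] [Field M] [NumberField M]
    [Field N] [NumberField N] [Algebra K M] [Algebra M N] [Algebra K N] [IsScalarTower K M N] :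
    RamSet K M ⊆ (fun Q : Ideal (𝓞 N) => Q.under (𝓞 M)) '' RamSet K N := by
  rintro Q ⟨hQ, hQ0, he⟩
  obtain ⟨⟨Q', hQ', hover⟩⟩ := (inferInstance : Nonempty (Ideal.primesOver Q (𝓞 N)))
  have h0' : Q' ≠ ⊥ := Ideal.ne_bot_of_liesOver_of_ne_bot hQ0 Q'
  refine ⟨Q', ⟨hQ', h0', ?_⟩, (Ideal.over_def Q' Q).symm⟩
  intro h1
  have h2 := Ideal.ramificationIdx_tower (R := 𝓞 K) Q Q'
  rw [h1] at h2
  exact he (Nat.dvd_one.1 ⟨_, h2⟩)

/-- N8 -/
theorem ramSet_ncard_le (K M N : Type*) [Field K] [NumberField K] [Field M] [NumberField M]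
    [Field N] [NumberField N] [Algebra K M] [Algebra M N] [Algebra K N] [IsScalarTower K M N] :
    (RamSet K M).ncard ≤ (RamSet K N).ncard ∧ (RamSet M N).ncard ≤ (RamSet K N).ncard := by
  refine ⟨?_, Set.ncard_le_ncard (ramSet_subset_top K M N) ramSet_finite⟩
  have h1 := Set.ncard_le_ncard (ramSet_subset_bot K M N) (ramSet_finite.image _)
  exact h1.trans (Set.ncard_image_le ramSet_finite)

theorem rk_congr {p : ℕ} {X Y : Type*} [CommGroup X] [CommGroup Y] (e : X ≃* Y) :
    rk p X = rk p Y := by
  unfold rk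
  have h : ((powMonoidHom p : X →* X).range).map (e : X →* Y) =
      (powMonoidHom p : Y →* Y).range := by
    ext y
    constructor
    · rintro ⟨x, ⟨z, rfl⟩, rfl⟩
      exact ⟨e z, by simp [powMonoidHom_apply]⟩
    · rintro ⟨z, rfl⟩
      refine ⟨(e.symm z) ^ p, ⟨e.symm z, rfl⟩, ?_⟩
      simp [powMonoidHom_apply]
  rw [Nat.card_congr (QuotientGroup.congr _ _ e h).toEquiv]

theorem rk_of_finrank_one {p : ℕ} {K M : Type*} [Field K] [NumberField K] [Field M]
    [NumberField M] [Algebra K M] (hd : finrank K M = 1) :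
    rk p (ClassGroup (𝓞 M)) = rk p (ClassGroup (𝓞 K)) := by
  have hs : Function.Surjective (algebraMap K M) := by
    have := (Subalgebra.bot_eq_top_iff_finrank_eq_one (F := K) (E := M)).2 hd
    intro x
    have hx : x ∈ (⊥ : Subalgebra K M) := by rw [this]; trivial
    exact Algebra.mem_bot.1 hx
  have e : K ≃+* M := RingEquiv.ofBijective (algebraMap K M) ⟨(algebraMap K M).injective, hs⟩
  have f : 𝓞 K ≃+* 𝓞 M := RingOfIntegers.mapRingEquiv e
  exact (rk_congr (ClassGroup.mulEquiv f)).symm

/-- N7: the rank in a Galois extension of `p`-power degree -/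
theorem rk_tower {p : ℕ} (hp : p.Prime) (hodd : Odd p) (T r n : ℕ) : ∃ B : ℕ,
    ∀ (K M : Type) [Field K] [NumberField K] [Field M] [NumberField M] [Algebra K M]
      [IsGalois K M], finrank K M = p ^ n → (RamSet K M).ncard ≤ T →
      rk p (ClassGroup (𝓞 K)) ≤ r → rk p (ClassGroup (𝓞 M)) ≤ B := by
  induction n with
  | zero =>
    refine ⟨r, ?_⟩
    intro K M _ _ _ _ _ _ hd _ hr
    rw [rk_of_finrank_one (by simpa using hd)]
    exact hr
  | succ n ih =>
    obtain ⟨B, hB⟩ := ih
    refine ⟨p * (2 * B + T), ?_⟩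
    intro K L _ _ _ _ _ _ hd hT hr
    have : Fact p.Prime := ⟨hp⟩
    have hcard : Nat.card Gal(L/K) = p ^ (n + 1) := by
      rw [IsGalois.card_aut_eq_finrank, hd]
    have hpg : IsPGroup p Gal(L/K) := IsPGroup.of_card hcard
    have hnt : Nontrivial Gal(L/K) := by
      rw [← Finite.one_lt_card_iff_nontrivial, hcard]
      exact Nat.one_lt_pow (by omega) hp.one_lt
    obtain ⟨z, hz⟩ : ∃ z : Subgroup.center Gal(L/K), orderOf z = p := by
      have hc := hpg.center_nontrivial
      have hcp : IsPGroup p (Subgroup.center Gal(L/K)) := hpg.to_subgroup _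
      have hdvd : p ∣ Nat.card (Subgroup.center Gal(L/K)) := by
        rcases hcp.card_eq_or_dvd with h | h
        · rw [Nat.card_eq_one_iff_unique] at h
          exact absurd h.1 (not_subsingleton _)
        · exact h
      exact exists_prime_orderOf_dvd_card' p hdvd
    have hz' : orderOf (z : Gal(L/K)) = p := by rw [← hz]; exact Subgroup.orderOf_coe z
    set H : Subgroup Gal(L/K) := Subgroup.zpowers (z : Gal(L/K)) with hH
    have hHc : H ≤ Subgroup.center Gal(L/K) := by
      rw [hH, Subgroup.zpowers_le]; exact z.2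
    have hHn : H.Normal := by
      constructor
      intro a ha g
      have := Subgroup.mem_center_iff.1 (hHc ha) g
      rwa [this, mul_inv_cancel_right]
    have hHcard : Nat.card H = p := by rw [hH, Nat.card_zpowers, hz']
    let M : IntermediateField K L := IntermediateField.fixedField H
    have hML : finrank M L = p := by
      rw [IntermediateField.finrank_fixedField_eq_card, hHcard]
    have hKM : finrank K M = p ^ n := by
      have h1 := finrank_mul_finrank K M L
      rw [hML, hd, pow_succ] at h1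
      exact Nat.eq_of_mul_eq_mul_right hp.pos h1
    have : IsGalois K M := IsGalois.of_fixedField_normal_subgroup H
    obtain ⟨h1, h2⟩ := ramSet_ncard_le K M L
    have h3 := hB K M hKM (h1.trans hT) hr
    have h4 := rk_step (K := M) (M := L) hp hML hodd
    refine h4.trans (Nat.mul_le_mul_left p ?_)
    have h5 := h2.trans hT
    omega

end Pool.Agent.Work.MuI
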