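import Pool.Agent.Work.MP_a4986b_nt.IRam
import Pool.Agent.Work.MP_a4986b_nt.IGrowth
import Pool.Agent.Work.MP_a4986b_nt.IFinalA
import Pool.Agent.Work.MP_a4986b_nt.ITower

set_option autoImplicit false
set_option maxHeartbeats 400000

/-! # C7: Iwasawa's theorem on `p`-extensions (elementary form) -/

namespace Pool.Agent.Work.MuI

open NumberField Module IntermediateField
open scoped Pointwise nonZeroDivisors

/-- C7: final theorem, with `OnePrime` -/
theorem mu_final' {p : ℕ} {F : Type} [Field F] [NumberField F] (hp : p.Prime) (hp2 : p ≠ 2)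
    (hF : ¬ p ∣ Nat.card (ClassGroup (𝓞 F))) (hone' : Mu22.OnePrime p F)
    (L : IntermediateField ℚ ℂ) [NumberField L] [Algebra F L] [IsGalois F L] (n : ℕ)
    (hn : finrank F L = p ^ n) (L' : IntermediateField ℚ ℂ) (hL' : L' ≤ L)
    (hcop : ¬ p ∣ IntermediateField.relfinrank L' L) :
    ∃ C : ℕ, ∀ (m : ℕ) (E : IntermediateField ℚ ℂ),
      E ≤ IntermediateField.adjoin ℚ {z : ℂ | z ^ (p ^ (m + 1)) = 1} →
      finrank ℚ E = p ^ m →
      padicValNat p (Nat.card (ClassGroup (𝓞 ↥(L' ⊔ E)))) ≤ C * (m + 1) := by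
  have hLf : FiniteDimensional ℚ L := gr_fin L
  have hst : IsScalarTower ℚ F L := IsScalarTower.of_algebraMap_eq' (Subsingleton.elim _ _)
  obtain ⟨F0, hF0, ⟨e⟩, hgal, hfr⟩ := fi_prep (k := ℚ) (F := F) L
  have hF0nf : NumberField F0 := NumberField.of_ringEquiv F F0 e
  obtain ⟨hF0', hone0⟩ := Mu22.tw_equiv (p := p) e hone' hF
  obtain ⟨T, hT⟩ := ncard_ram_layer_le hp F0 L hF0
  choose B hB using fun j => rk_tower hp (hp.odd_of_ne_two hp2) T 0 j
  have hmain : ∀ (m : ℕ) (E : IntermediateField ℚ ℂ), IsLayer p m E →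
      rk p (ClassGroup (𝓞 ↥(L ⊔ E))) ≤ ∑ j ∈ Finset.range (n + 1), B j := by
    intro m E hE
    have hEfin : FiniteDimensional ℚ E := by
      apply FiniteDimensional.of_finrank_pos
      rw [hE.2]; exact pow_pos hp.pos _
    have hF0f : FiniteDimensional ℚ F0 := gr_fin F0
    have hNfin : FiniteDimensional ℚ ↥(L ⊔ E) := IntermediateField.finiteDimensional_sup L E
    have hMfin : FiniteDimensional ℚ ↥(F0 ⊔ E) := IntermediateField.finiteDimensional_sup F0 E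
    have hNnf : NumberField ↥(L ⊔ E) := NumberField.of_module_finite ℚ _
    have hMnf : NumberField ↥(F0 ⊔ E) := NumberField.of_module_finite ℚ _
    have hFE := Mu22.cyc_tower hp hp2 F0 hone0 hF0' m (m + 1) E hE.1 hE.2
    have hT' := hT m E hE
    have hG := fi_galois F0 L E hF0
    let alg : Algebra ↥(F0 ⊔ E) ↥(L ⊔ E) :=
      (IntermediateField.inclusion (sup_le_sup_right hF0 E)).toRingHom.toAlgebra
    obtain ⟨hg, hd⟩ := hG
    rw [hfr, hn] at hd
    obtain ⟨j, hj, hjd⟩ := (Nat.dvd_prime_pow hp).1 hd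
    have h1 := hB j ↥(F0 ⊔ E) ↥(L ⊔ E) hjd hT' (rk_eq_zero hFE).le
    exact h1.trans (Finset.single_le_sum (f := B) (fun _ _ => Nat.zero_le _)
      (Finset.mem_range.2 (by omega)))
  obtain ⟨C, hC⟩ := growth hp hp2 L _ hmain
  exact ⟨C, fun m E h1 h2 => (descent hp hp2 L' L hL' hcop m E ⟨h1, h2⟩).trans (hC m E ⟨h1, h2⟩)⟩

/-- C7: final theorem -/
theorem mu_final {p : ℕ} {F : Type} [Field F] [NumberField F] (hp : p.Prime) (hp2 : p ≠ 2)
    (hF : ¬ p ∣ Nat.card (ClassGroup (𝓞 F)))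
    (hone : ∃! P : Ideal (𝓞 F), P.IsPrime ∧ (p : 𝓞 F) ∈ P)
    (L : IntermediateField ℚ ℂ) [NumberField L] [Algebra F L] [IsGalois F L] (n : ℕ)
    (hn : finrank F L = p ^ n) (L' : IntermediateField ℚ ℂ) (hL' : L' ≤ L)
    (hcop : ¬ p ∣ IntermediateField.relfinrank L' L) :
    ∃ C : ℕ, ∀ (m : ℕ) (E : IntermediateField ℚ ℂ),
      E ≤ IntermediateField.adjoin ℚ {z : ℂ | z ^ (p ^ (m + 1)) = 1} →
      finrank ℚ E = p ^ m →
      padicValNat p (Nat.card (ClassGroup (𝓞 ↥(L' ⊔ E)))) ≤ C * (m + 1) :=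
  mu_final' hp hp2 hF (fun _ _ hP hQ hpP hpQ => hone.unique ⟨hP, hpP⟩ ⟨hQ, hpQ⟩) L n hn L' hL' hcop

end Pool.Agent.Work.MuI
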