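import Pool.Agent.Work.MP_a4986b_nt.ClosF
import Pool.Agent.Work.MP_a4986b_nt.IFinal

set_option autoImplicit false
set_option maxHeartbeats 400000

/-! # Pure cubic fields: final statement with `p`-extensions of arbitrary ramification -/

namespace Pool.Agent.Work.Mu22

open NumberField Module IntermediateField
open scoped Pointwise nonZeroDivisors

theorem cg_main (p : ℕ) (t w : ℂ) [NumberField ℚ⟮t⟯] (hp : p.Prime) (hp2 : p ≠ 2)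
    (ht : t ^ 3 ∈ Set.range (algebraMap ℚ ℂ)) (h3 : finrank ℚ ℚ⟮t⟯ = 3)
    (hw : w ^ 2 + w + 1 = 0)
    (h : t ^ 3 = p ∨ (|discr ℚ⟮t⟯| ≤ 27 * (p : ℤ) ^ 2 ∧
      ∃! P : Ideal (𝓞 ℚ⟮t⟯), P.IsPrime ∧ (p : 𝓞 ℚ⟮t⟯) ∈ P)) :
    (∀ K : IntermediateField ℚ ℂ, K = ℚ⟮t⟯ ∨ (p % 3 = 2 ∧ K = IntermediateField.adjoin ℚ {t, w}) →
      ∀ (L : IntermediateField ℚ ℂ) [NumberField L] [Algebra K L] [IsGalois K L] (n : ℕ),
        finrank K L = p ^ n →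
        ((∀ Q : Ideal (𝓞 L), Q.IsPrime → Q ≠ ⊥ → (p : 𝓞 L) ∉ Q → Q.ramificationIdx (𝓞 K) = 1) →
        ∀ (m : ℕ) (E : IntermediateField ℚ ℂ),
          E ≤ IntermediateField.adjoin ℚ {w : ℂ | w ^ (p ^ (m + 1)) = 1} → finrank ℚ E = p ^ m →
          ¬ p ∣ Nat.card (ClassGroup (𝓞 ↥(L ⊔ E)))) ∧
        (∀ L' : IntermediateField ℚ ℂ, L' ≤ L → ¬ p ∣ relfinrank L' L →
          ∃ C : ℕ, ∀ (m : ℕ) (E : IntermediateField ℚ ℂ),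
            E ≤ IntermediateField.adjoin ℚ {w : ℂ | w ^ (p ^ (m + 1)) = 1} →
            finrank ℚ E = p ^ m →
            padicValNat p (Nat.card (ClassGroup (𝓞 ↥(L' ⊔ E)))) ≤ C * (m + 1))) ∧
    (p ≠ 3 → ∀ (m : ℕ) (E : IntermediateField ℚ ℂ),
      E ≤ IntermediateField.adjoin ℚ {w : ℂ | w ^ (p ^ (m + 1)) = 1} → finrank ℚ E = p ^ m →
      padicValNat p (Nat.card (ClassGroup (𝓞 ↥(IntermediateField.adjoin ℚ {t, w} ⊔ E)))) =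
        padicValNat p (Nat.card (ClassGroup (𝓞 ↥(ℚ⟮w⟯ ⊔ E))))) := by
  obtain ⟨hb, hb2⟩ := cf_base p t w hp hp2 ht h3 hw h
  refine ⟨?_, hb2⟩
  intro K hK L _ _ _ n hn
  obtain ⟨hKn, hK1, hK2⟩ := hb K hK
  refine ⟨fun hun m E hE hEd => ?_, fun L' hL' hcop => ?_⟩
  · obtain ⟨hL, hL1⟩ := tower hp n hn (hp.odd_of_ne_two hp2) hK2 hun hK1
    exact cyc_tower hp hp2 L hL1 hL m (m + 1) E hE hEd
  · exact MuI.mu_final' hp hp2 hK1 hK2 L n hn L' hL' hcop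

end Pool.Agent.Work.Mu22
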