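import Mathlib

set_option autoImplicit false

/-! # Split primes: definitions, part 1 -/

namespace Pool.Agent.Work.MuS

open NumberField

/-- for `(p) = A B` with `A`, `B` coprime: `c` is, modulo `p²`, the prime to `p` part of the local
norm of `γ` at `A`, computed as the norm of an element close to `γ` at `A` and to `1` at `B` -/
def NormAt (p : ℕ) {F : Type*} [Field F] [NumberField F] (A B : Ideal (𝓞 F)) (γ : 𝓞 F)
    (c : ℤ) : Prop :=
  ∃ (M V : ℕ) (y : 𝓞 F), V + 2 ≤ M ∧ y - γ ∈ A ^ M ∧ y - 1 ∈ B ^ M ∧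
    Algebra.norm ℤ y = (p : ℤ) ^ V * c ∧ ¬ (p : ℤ) ∣ c

/-- the Fermat quotient `(c ^ (p - 1) - 1) / p` modulo `p` -/
def fq (p : ℕ) (c : ℤ) : ZMod p := (((c ^ (p - 1) - 1) / p : ℤ) : ZMod p)

/-- `(p) = A_i B_i` with `A_i + B_i = 1`, elements `γ_j` dividing powers of `p`, `c_ij` the local
norm of `γ_j` at `A_i` (see `NormAt`), and the matrix of the Fermat quotients of the `c_ij` is
invertible modulo `p` (`1 ≤ i, j ≤ r`) -/
def LogDatum (p r : ℕ) (F : Type*) [Field F] [NumberField F] : Prop :=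
  ∃ (A B : Fin r → Ideal (𝓞 F)) (γ : Fin r → 𝓞 F) (c : Fin r → Fin r → ℤ),
    (∀ i, A i * B i = Ideal.span {(p : 𝓞 F)}) ∧ (∀ i, A i ⊔ B i = ⊤) ∧
    (∀ j, ∃ t : ℕ, γ j ∣ (p : 𝓞 F) ^ t) ∧ (∀ i j, NormAt p (A i) (B i) (γ j) (c i j)) ∧
    (Matrix.of fun i j => fq p (c i j)).det ≠ 0

/-- there are `n` pairwise non-isomorphic number fields with a property `T` -/
def ManyFields (n : ℕ) (T : ∀ (F : Type) [Field F] [NumberField F], Prop) : Prop :=
  ∃ (F : Fin n → Type) (_ : ∀ i, Field (F i)) (_ : ∀ i, NumberField (F i)),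
    (∀ i j, Nonempty (F i ≃+* F j) → i = j) ∧ ∀ i, T (F i)

end Pool.Agent.Work.MuS
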