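import Pool.Agent.Work.MP_a4986b_nt.YExP
import Pool.Agent.Work.MP_a4986b_nt.SpDef

/-! Many pairwise non-isomorphic explicit Kummer extensions. -/

set_option autoImplicit false

namespace Pool.Agent.Work.MuY

open NumberField Module Finset

/-- telescoping bound for the sum of the inverse squares of the odd numbers from `3` on -/
theorem sum_odd_sq (K : ℕ) :
    ∑ i ∈ range K, (1 : ℚ) / ((2 * i + 3 : ℕ) : ℚ) ^ 2 ≤ 1 / 4 - 1 / (4 * ((K : ℚ) + 1)) := by
  induction K with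
  | zero => simp
  | succ K ih =>
    rw [sum_range_succ]
    have h1 : (1 : ℚ) / ((2 * K + 3 : ℕ) : ℚ) ^ 2 ≤
        1 / (4 * ((K : ℚ) + 1)) - 1 / (4 * (((K + 1 : ℕ) : ℚ) + 1)) := by
      push_cast
      have hK : (0 : ℚ) ≤ K := Nat.cast_nonneg K
      rw [div_sub_div _ _ (by positivity) (by positivity), div_le_div_iff₀ (by positivity)
        (by positivity)]
      nlinarith
    linarith

/-- squarefree numbers in `(1, B]` prime to `p q` -/
def sqf (p q B : ℕ) : Finset ℕ :=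
  (Ioc 1 B).filter fun b => Squarefree b ∧ ¬ p ∣ b ∧ ¬ q ∣ b

theorem card_sqf {p q : ℕ} (hp : p.Prime) (hq : q.Prime) (hp2 : p ≠ 2) (hq2 : q ≠ 2)
    (hpq : p ≠ q) (B : ℕ) : B ≤ 9 * ((sqf p q B).card + 1) := by
  classical
  -- the odd primes `p = 2 i + 3`
  have hodd : ∀ l : ℕ, l.Prime → l ≠ 2 → ∃ i, l = 2 * i + 3 := by
    intro l hl hl2
    obtain ⟨r, hr⟩ := hl.odd_of_ne_two hl2
    have h1 : l ≠ 1 := hl.ne_one
    exact ⟨r - 1, by omega⟩
  obtain ⟨ip, hip⟩ := hodd p hp hp2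
  obtain ⟨iq, hiq⟩ := hodd q hq hq2
  have hipq : ip ≠ iq := by
    rintro rfl
    exact hpq (hip.trans hiq.symm)
  set K := B + ip + iq + 1 with hK
  set S := (range K).erase ip |>.erase iq with hS
  let mult : ℕ → Finset ℕ := fun d => (Ioc 0 B).filter fun b => d ∣ b
  have hmult : ∀ d, (mult d).card = B / d := fun d => Nat.Ioc_filter_dvd_card_eq_div B d
  have hsub : Ioc 0 B ⊆ sqf p q B ∪ {1} ∪ mult 4 ∪ mult p ∪ mult q ∪
      S.biUnion fun i => mult ((2 * i + 3) ^ 2) := by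
    intro b hb
    rw [mem_Ioc] at hb
    simp only [mem_union, mem_singleton, sqf, mult, mem_filter, mem_Ioc, mem_biUnion]
    by_cases h1 : b = 1
    · simp [h1]
    by_cases h4 : 4 ∣ b
    · simp [h4, hb]
    by_cases hpb : p ∣ b
    · simp [hpb, hb]
    by_cases hqb : q ∣ b
    · simp [hqb, hb]
    by_cases hsq : Squarefree b
    · have : 1 < b := by omega
      simp [hsq, hpb, hqb, this, hb]
    · right
      rw [Nat.squarefree_iff_prime_squarefree] at hsq
      push Not at hsq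
      obtain ⟨l, hl, hlb⟩ := hsq
      have hl2 : l ≠ 2 := by
        rintro rfl
        exact h4 hlb
      obtain ⟨i, hi⟩ := hodd l hl hl2
      have hlp : l ≠ p := by
        rintro rfl
        exact hpb (dvd_trans (dvd_mul_right _ _) hlb)
      have hlq : l ≠ q := by
        rintro rfl
        exact hqb (dvd_trans (dvd_mul_right _ _) hlb)
      refine ⟨i, ?_, ⟨hb, ?_⟩⟩
      · rw [hS, mem_erase, mem_erase, mem_range]
        refine ⟨?_, ?_, ?_⟩
        · rintro rfl
          exact hlq (hi.trans hiq.symm)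
        · rintro rfl
          exact hlp (hi.trans hip.symm)
        · have h5 : l * l ≤ b := Nat.le_of_dvd hb.1 hlb
          have h6 : l ≤ l * l := Nat.le_mul_self l
          omega
      · rw [← hi, sq]
        exact hlb
  have hcard := card_le_card hsub
  rw [Nat.card_Ioc, Nat.sub_zero] at hcard
  have h1 : B ≤ (sqf p q B).card + 1 + B / 4 + B / p + B / q +
      ∑ i ∈ S, B / (2 * i + 3) ^ 2 := by
    refine hcard.trans ?_
    refine (card_union_le _ _).trans (add_le_add ?_ ?_)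
    · refine (card_union_le _ _).trans (add_le_add ?_ (hmult q).le)
      refine (card_union_le _ _).trans (add_le_add ?_ (hmult p).le)
      refine (card_union_le _ _).trans (add_le_add ?_ (hmult 4).le)
      refine (card_union_le _ _).trans (add_le_add le_rfl ?_)
      simp
    · refine card_biUnion_le.trans (sum_le_sum fun i _ => (hmult _).le)
  -- pass to rationals
  have hsum : ∑ i ∈ S, ((B / (2 * i + 3) ^ 2 : ℕ) : ℚ) ≤
      B * (1 / 4 - 1 / (p : ℚ) ^ 2 - 1 / (q : ℚ) ^ 2) := by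
    calc ∑ i ∈ S, ((B / (2 * i + 3) ^ 2 : ℕ) : ℚ)
        ≤ ∑ i ∈ S, (B : ℚ) * ((1 : ℚ) / ((2 * i + 3 : ℕ) : ℚ) ^ 2) := by
          refine sum_le_sum fun i _ => ?_
          refine (Nat.cast_div_le).trans (le_of_eq ?_)
          push_cast
          ring
      _ = B * ∑ i ∈ S, (1 : ℚ) / ((2 * i + 3 : ℕ) : ℚ) ^ 2 := by rw [mul_sum]
      _ ≤ B * (1 / 4 - 1 / (p : ℚ) ^ 2 - 1 / (q : ℚ) ^ 2) := by
          refine mul_le_mul_of_nonneg_left ?_ (Nat.cast_nonneg B)
          have h2 := sum_odd_sq K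
          have hipK : ip ∈ range K := mem_range.2 (by omega)
          have hiqK : iq ∈ (range K).erase ip := mem_erase.2 ⟨hipq.symm, mem_range.2 (by omega)⟩
          have h3 := sum_erase_add (range K) (fun i => (1 : ℚ) / ((2 * i + 3 : ℕ) : ℚ) ^ 2) hipK
          have h4 := sum_erase_add ((range K).erase ip)
            (fun i => (1 : ℚ) / ((2 * i + 3 : ℕ) : ℚ) ^ 2) hiqK
          have h5 : (0 : ℚ) ≤ 1 / (4 * ((K : ℚ) + 1)) := by positivity
          rw [← hip] at h3
          rw [← hiq] at h4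
          rw [hS]
          linarith
  have h2 : (B : ℚ) ≤ ((sqf p q B).card : ℚ) + 1 + B / 4 + B / p + B / q +
      B * (1 / 4 - 1 / (p : ℚ) ^ 2 - 1 / (q : ℚ) ^ 2) := by
    have h3 : (B : ℚ) ≤ (((sqf p q B).card + 1 + B / 4 + B / p + B / q +
      ∑ i ∈ S, B / (2 * i + 3) ^ 2 : ℕ) : ℚ) := by exact_mod_cast h1
    push_cast at h3 hsum
    have h4 : ((B / 4 : ℕ) : ℚ) ≤ (B : ℚ) / (4 : ℕ) := Nat.cast_div_le
    have h5 : ((B / p : ℕ) : ℚ) ≤ (B : ℚ) / p := Nat.cast_div_le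
    have h6 : ((B / q : ℕ) : ℚ) ≤ (B : ℚ) / q := Nat.cast_div_le
    push_cast at h4
    linarith
  have hB : (0 : ℚ) ≤ B := Nat.cast_nonneg B
  -- `1 / x - 1 / x ^ 2` for the two primes
  have hx : ∀ x : ℕ, 3 ≤ x → (1 : ℚ) / x - 1 / (x : ℚ) ^ 2 ≤ 2 / 9 := by
    intro x hx
    have hx' : (3 : ℚ) ≤ x := by exact_mod_cast hx
    rw [div_sub_div _ _ (by positivity) (by positivity), div_le_div_iff₀ (by positivity)
      (by positivity)]
    nlinarith [mul_nonneg (sub_nonneg.2 hx') (sub_nonneg.2 hx'), sq_nonneg ((x : ℚ) - 3)]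
  have hx5 : ∀ x : ℕ, 5 ≤ x → (1 : ℚ) / x - 1 / (x : ℚ) ^ 2 ≤ 4 / 25 := by
    intro x hx
    have hx' : (5 : ℚ) ≤ x := by exact_mod_cast hx
    rw [div_sub_div _ _ (by positivity) (by positivity), div_le_div_iff₀ (by positivity)
      (by positivity)]
    nlinarith [mul_nonneg (sub_nonneg.2 hx') (sub_nonneg.2 hx'), sq_nonneg ((x : ℚ) - 5)]
  have h3p : 3 ≤ p := by omega
  have h3q : 3 ≤ q := by omega
  have hboth : (1 : ℚ) / p - 1 / (p : ℚ) ^ 2 + (1 / q - 1 / (q : ℚ) ^ 2) ≤ 2 / 9 + 4 / 25 := by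
    rcases Nat.lt_or_ge p 5 with h | h
    · have h5q : 5 ≤ q := by omega
      linarith [hx p h3p, hx5 q h5q]
    · linarith [hx q h3q, hx5 p h]
  have h3 : (B : ℚ) / p + B / q + B * (1 / 4 - 1 / (p : ℚ) ^ 2 - 1 / (q : ℚ) ^ 2) =
      B * (1 / 4 + ((1 : ℚ) / p - 1 / (p : ℚ) ^ 2 + (1 / q - 1 / (q : ℚ) ^ 2))) := by ring
  have h4 : B * (1 / 4 + ((1 : ℚ) / p - 1 / (p : ℚ) ^ 2 + (1 / q - 1 / (q : ℚ) ^ 2))) ≤
      B * (1 / 4 + (2 / 9 + 4 / 25)) := mul_le_mul_of_nonneg_left (by linarith) hB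
  have h5 : (B : ℚ) ≤ 9 * (((sqf p q B).card : ℚ) + 1) := by
    have h6 : (B : ℚ) ≤ ((sqf p q B).card : ℚ) + 1 + B / 4 + B * (1 / 4 + (2 / 9 + 4 / 25)) := by
      linarith
    linarith
  exact_mod_cast h5

open Polynomial in
/-- existence of the Kummer extension -/
theorem exists_root_field (k : Type) [Field k] [NumberField k] {n : ℕ} (hn : n ≠ 0) (a : k)
    (hirr : Irreducible (X ^ n - C a)) :
    ∃ (F : Type) (_ : Field F) (_ : NumberField F) (_ : Algebra k F) (t : F),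
      t ^ n = algebraMap k F a ∧ IntermediateField.adjoin k {t} = ⊤ := by
  classical
  have hfact : Fact (Irreducible (X ^ n - C a)) := ⟨hirr⟩
  have hmonic : (X ^ n - C a : k[X]).Monic := monic_X_pow_sub_C a hn
  let F := AdjoinRoot (X ^ n - C a : k[X])
  have hchar : CharZero F := charZero_of_injective_algebraMap (algebraMap k F).injective
  have hfink : FiniteDimensional k F := (AdjoinRoot.powerBasis hmonic.ne_zero).finite
  have htow : IsScalarTower ℚ k F := inferInstance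
  have hfinQ : FiniteDimensional ℚ F := FiniteDimensional.trans ℚ k F
  have hNF : NumberField F := ⟨⟩
  refine ⟨F, inferInstance, hNF, inferInstance, AdjoinRoot.root _, ?_, ?_⟩
  · have h1 := AdjoinRoot.eval₂_root (X ^ n - C a : k[X])
    rw [eval₂_sub, eval₂_X_pow, eval₂_C, sub_eq_zero] at h1
    exact h1
  · rw [← IntermediateField.adjoin_root_eq_top]

/-- many pairwise non-isomorphic extensions `k((z * b) ^ (1 / q ^ j))` -/
theorem exp_many {q p : ℕ} (hq : q.Prime) (hq2 : q ≠ 2) (hp : p.Prime) (hp2 : p ≠ 2)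
    (hprim : orderOf (p : ZMod (q ^ 2)) = q * (q - 1)) {j : ℕ} (hj : j ≠ 0)
    (k : Type) [Field k] [NumberField k] [IsCyclotomicExtension {q ^ j} ℚ k]
    (z : 𝓞 k) (hz : IsPrimitiveRoot z (q ^ j)) (B N : ℕ) (hN : 9 * (N + 1) ≤ B)
    (T : ∀ (F : Type) [Field F] [NumberField F], Prop)
    (H : ∀ b : ℕ, 1 < b → b ≤ B → Squarefree b → ¬ p ∣ b → ¬ q ∣ b →
      ∀ (F : Type) [Field F] [NumberField F] [Algebra k F] (t : F),
        t ^ q ^ j = algebraMap k F ((z * b : 𝓞 k) : k) →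
        IntermediateField.adjoin k {t} = ⊤ → T F) :
    Pool.Agent.Work.MuS.ManyFields N (fun F _ _ =>
      finrank ℚ F = q ^ j * Nat.totient (q ^ j) ∧ ¬ IsGalois ℚ F ∧ T F) := by
  classical
  have hpq := exp_ne hq hq2 hp hprim
  have hn : q ^ j ≠ 0 := (pow_pos hq.pos _).ne'
  have hcard : N ≤ (sqf p q B).card := by
    have h1 := card_sqf hp hq hp2 hq2 hpq B
    omega
  obtain ⟨S, hS, hSN⟩ := Finset.exists_subset_card_eq hcard
  let em := S.orderEmbOfFin hSN
  have hmem : ∀ i, em i ∈ sqf p q B := fun i => hS (S.orderEmbOfFin_mem hSN i)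
  have hprop : ∀ i, 1 < em i ∧ em i ≤ B ∧ Squarefree (em i) ∧ ¬ p ∣ em i ∧ ¬ q ∣ em i := by
    intro i
    have h1 := hmem i
    rw [sqf, mem_filter, mem_Ioc] at h1
    exact ⟨h1.1.1, h1.1.2, h1.2.1, h1.2.2.1, h1.2.2.2⟩
  have hirr : ∀ i, Irreducible (Polynomial.X ^ (q ^ j) -
      Polynomial.C (((z * (em i : ℕ) : 𝓞 k)) : k)) := by
    intro i
    apply X_pow_sub_C_irreducible_of_prime_pow hq hq2
    intro x hx
    have hxint : IsIntegral ℤ x := by
      refine IsIntegral.of_pow hq.pos ?_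
      rw [hx]
      exact RingOfIntegers.isIntegral_coe _
    let x' : 𝓞 k := ⟨x, hxint⟩
    have h0 : x' ^ q = z * (em i : ℕ) := RingOfIntegers.ext hx
    have h1 := exp_not_pow hq hq2 hp hprim hj k z hz ((em i : ℕ) : ℤ)
      (by exact_mod_cast (hprop i).2.2.2.1) x'
    apply h1
    rw [h0]
    simp
  choose F iF iN iA t ht htop using fun i => exists_root_field k hn _ (hirr i)
  refine ⟨F, iF, iN, ?_, ?_⟩
  · intro i i' hii
    by_contra hne
    have h1 : em i ≠ em i' := fun h => hne (em.injective h)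
    obtain ⟨e⟩ := hii
    exact (exp_not_iso_squarefree hq hq2 hp hprim hj k z hz (em i) (em i') (hprop i).2.2.2.1
      (hprop i').2.2.2.1 (hprop i).2.2.1 (hprop i').2.2.1 (hprop i).2.2.2.2 (hprop i').2.2.2.2 h1
      (F i) (t i) (ht i) (htop i) (F i') (t i') (ht i') (htop i')).false e
  · intro i
    obtain ⟨h1, h2, h3, h4, h5⟩ := hprop i
    refine ⟨?_, ?_, H (em i) h1 h2 h3 h4 h5 (F i) (t i) (ht i) (htop i)⟩
    · exact (exp_data hq hq2 hp hprim hj k z hz ((em i : ℕ) : ℤ) (by exact_mod_cast h4) (F i)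
        (t i) (by simpa using ht i) (htop i)).1
    · exact exp_not_galois hq hq2 hp hprim hj k z hz (em i) h4 h3 (by omega) h5 (F i) (t i)
        (ht i) (htop i)

end Pool.Agent.Work.MuY
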