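import Pool.Agent.Work.MP_a4986b_nt.YDefC

set_option autoImplicit false
set_option maxHeartbeats 400000

/-! # Many principal ideals that are inequivalent modulo n-th powers -/

namespace Pool.Agent.Work.MuY.CntA

open NumberField UniqueFactorizationMonoid Filter Topology
open scoped nonZeroDivisors

noncomputable section

section

variable (k : Type) [Field k] [NumberField k]

open Classical in
/-- nonzero ideals of norm at most `m` -/
def BI (m : ℕ) : Finset (Ideal (𝓞 k)) :=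
  (Ideal.finite_setOfPred_absNorm_le (S := 𝓞 k) m).toFinset.filter (fun I => I ≠ ⊥)

theorem mem_BI {m : ℕ} {I : Ideal (𝓞 k)} : I ∈ BI k m ↔ I ≠ ⊥ ∧ Ideal.absNorm I ≤ m := by
  simp [BI, and_comm]

theorem one_le_absNorm {I : Ideal (𝓞 k)} (hI : I ≠ ⊥) : 1 ≤ Ideal.absNorm I :=
  Nat.one_le_iff_ne_zero.2 (fun h => hI (Ideal.absNorm_eq_zero_iff.1 h))

theorem BI_mono {a b : ℕ} (h : a ≤ b) : BI k a ⊆ BI k b := by
  intro I hI
  rw [mem_BI] at hI ⊢
  exact ⟨hI.1, hI.2.trans h⟩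

theorem card_BI_eq (m : ℕ) :
    Nat.card {I : (Ideal (𝓞 k))⁰ // (Ideal.absNorm (I : Ideal (𝓞 k)) : ℝ) ≤ (m : ℝ)} =
      (BI k m).card := by
  rw [← Nat.card_eq_finsetCard]
  refine Nat.card_congr
    { toFun := fun I => ⟨(I.1 : Ideal (𝓞 k)), ?_⟩
      invFun := fun I => ⟨⟨I.1, ?_⟩, ?_⟩
      left_inv := ?_
      right_inv := ?_ }
  · rw [mem_BI]
    exact ⟨nonZeroDivisors.ne_zero I.1.2, by exact_mod_cast I.2⟩
  · have := ((mem_BI k).1 I.2).1
    exact mem_nonZeroDivisors_of_ne_zero this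
  · have := ((mem_BI k).1 I.2).2
    exact_mod_cast this
  · intro I; rfl
  · intro I; rfl

theorem card_BI_le : ∃ C : ℝ, 0 < C ∧ ∀ m : ℕ, ((BI k m).card : ℝ) ≤ C * m := by
  have h := (NumberField.Ideal.tendsto_norm_le_div_atTop₀ k).comp
    (tendsto_natCast_atTop_atTop (R := ℝ))
  obtain ⟨C, hC⟩ := h.bddAbove_range
  refine ⟨max C 1, by positivity, fun m => ?_⟩
  rcases Nat.eq_zero_or_pos m with rfl | hm
  · have : BI k 0 = ∅ := by
      apply Finset.eq_empty_of_forall_notMem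
      intro I hI
      rw [mem_BI] at hI
      have := one_le_absNorm k hI.1
      omega
    simp [this]
  · have h1 := hC ⟨m, rfl⟩
    simp only [Function.comp_apply] at h1
    rw [card_BI_eq, div_le_iff₀ (by exact_mod_cast hm)] at h1
    exact h1.trans (mul_le_mul_of_nonneg_right (le_max_left _ _) (by positivity))

open Classical in
/-- nonzero principal ideals of norm at most `m` -/
def PI (m : ℕ) : Finset (Ideal (𝓞 k)) :=
  (BI k m).filter (fun I => Submodule.IsPrincipal I)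

theorem mem_PI {m : ℕ} {I : Ideal (𝓞 k)} :
    I ∈ PI k m ↔ I ≠ ⊥ ∧ Ideal.absNorm I ≤ m ∧ Submodule.IsPrincipal I := by
  simp [PI, mem_BI, and_assoc]

theorem card_PI_eq (m : ℕ) :
    Nat.card {I : (Ideal (𝓞 k))⁰ // (Ideal.absNorm (I : Ideal (𝓞 k)) : ℝ) ≤ (m : ℝ) ∧
      ClassGroup.mk0 I = 1} = (PI k m).card := by
  rw [← Nat.card_eq_finsetCard]
  refine Nat.card_congr
    { toFun := fun I => ⟨(I.1 : Ideal (𝓞 k)), ?_⟩
      invFun := fun I => ⟨⟨I.1, ?_⟩, ?_, ?_⟩
      left_inv := ?_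
      right_inv := ?_ }
  · rw [mem_PI]
    exact ⟨nonZeroDivisors.ne_zero I.1.2, by exact_mod_cast I.2.1,
      (ClassGroup.mk0_eq_one_iff I.1.2).1 I.2.2⟩
  · have := ((mem_PI k).1 I.2).1
    exact mem_nonZeroDivisors_of_ne_zero this
  · have := ((mem_PI k).1 I.2).2.1
    exact_mod_cast this
  · have := ((mem_PI k).1 I.2).2.2
    exact (ClassGroup.mk0_eq_one_iff _).2 this
  · intro I; rfl
  · intro I; rfl

theorem le_card_PI : ∃ c : ℝ, 0 < c ∧ ∃ m0 : ℕ, ∀ m : ℕ, m0 ≤ m →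
    c * m ≤ ((PI k m).card : ℝ) := by
  have h := (NumberField.Ideal.tendsto_norm_le_and_mk_eq_div_atTop k (C := 1)).comp
    (tendsto_natCast_atTop_atTop (R := ℝ))
  set L : ℝ := (2 ^ InfinitePlace.nrRealPlaces k * (2 * Real.pi) ^ InfinitePlace.nrComplexPlaces k *
    Units.regulator k) / (Units.torsionOrder k * Real.sqrt |discr k|) with hL
  have hLp : 0 < L := by
    rw [hL]
    have h1 : 0 < Units.regulator k := Units.regulator_pos k
    have h2 : 0 < Units.torsionOrder k := Units.torsionOrder_pos k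
    have h3 : (0 : ℝ) < |(discr k : ℝ)| := by
      rw [abs_pos]
      exact_mod_cast discr_ne_zero k
    have h4 : 0 < Real.sqrt |(discr k : ℝ)| := Real.sqrt_pos.2 h3
    have h5 := Real.pi_pos
    have h6 : (0 : ℝ) < Units.torsionOrder k := by exact_mod_cast h2
    positivity
  refine ⟨L / 2, by positivity, ?_⟩
  have h1 : ∀ᶠ m : ℕ in atTop, L / 2 < ((fun s : ℝ ↦
      (Nat.card {I : (Ideal (𝓞 k))⁰ //
        Ideal.absNorm (I : Ideal (𝓞 k)) ≤ s ∧ ClassGroup.mk0 I = 1} : ℝ) / s) ∘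
          (Nat.cast : ℕ → ℝ)) m :=
    h.eventually_const_lt (by linarith)
  obtain ⟨m0, hm0⟩ := eventually_atTop.1 (h1.and (eventually_gt_atTop 0))
  refine ⟨m0, fun m hm => ?_⟩
  have h2 := (hm0 m hm).1
  have h3 : (0 : ℝ) < m := by exact_mod_cast (hm0 m hm).2
  simp only [Function.comp_apply] at h2
  rw [card_PI_eq, lt_div_iff₀ h3] at h2
  exact h2.le

/-! ### n-th power parts -/

open Classical in
/-- exponent of `p` in the ideal `I` -/
def ex (I p : Ideal (𝓞 k)) : ℕ := (normalizedFactors I).count p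

open Classical in
/-- the part of `I` that is an n-th power -/
def pw (n : ℕ) (I : Ideal (𝓞 k)) : Ideal (𝓞 k) :=
  ∏ p ∈ (normalizedFactors I).toFinset, p ^ (ex k I p / n)

open Classical in
/-- the n-free part of `I` -/
def fp (n : ℕ) (I : Ideal (𝓞 k)) : Ideal (𝓞 k) :=
  ∏ p ∈ (normalizedFactors I).toFinset, p ^ (ex k I p % n)

/-- exponents modulo n -/
def fr (n : ℕ) (I : Ideal (𝓞 k)) : Ideal (𝓞 k) → ℕ := fun p => ex k I p % n

theorem fp_mul_pw (n : ℕ) {I : Ideal (𝓞 k)} (hI : I ≠ ⊥) : fp k n I * pw k n I ^ n = I := by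
  classical
  rw [fp, pw, ← Finset.prod_pow, ← Finset.prod_mul_distrib]
  conv_rhs => rw [← Ideal.prod_normalizedFactors_eq_self hI, Finset.prod_multiset_count]
  refine Finset.prod_congr rfl fun p _ => ?_
  rw [← pow_mul, ← pow_add, mul_comm (ex k I p / n) n, Nat.mod_add_div]
  simp only [ex]

theorem ext_fr_pw {n : ℕ} {I J : Ideal (𝓞 k)} (hI : I ≠ ⊥) (hJ : J ≠ ⊥)
    (h : fr k n I = fr k n J) (h2 : pw k n I = pw k n J) : I = J := by
  classical
  have key : ∀ A : Ideal (𝓞 k), ∀ S : Finset (Ideal (𝓞 k)),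
      (normalizedFactors A).toFinset ⊆ S → fp k n A = ∏ p ∈ S, p ^ (fr k n A p) := by
    intro A S hS
    rw [fp]
    refine Finset.prod_subset hS fun p _ hp => ?_
    have : ex k A p = 0 := by
      rw [ex]
      convert Multiset.count_eq_zero_of_notMem (a := p) ?_
      exact fun h => hp (Multiset.mem_toFinset.2 h)
    simp [this]
  rw [← fp_mul_pw k n hI, ← fp_mul_pw k n hJ, h2,
    key I ((normalizedFactors I).toFinset ∪ (normalizedFactors J).toFinset)
      Finset.subset_union_left,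
    key J ((normalizedFactors I).toFinset ∪ (normalizedFactors J).toFinset)
      Finset.subset_union_right, h]

theorem pw_ne_bot {n : ℕ} (hn : n ≠ 0) {I : Ideal (𝓞 k)} (hI : I ≠ ⊥) : pw k n I ≠ ⊥ := by
  intro h
  apply hI
  rw [← fp_mul_pw k n hI, h, ← Ideal.zero_eq_bot, zero_pow hn, mul_zero]

theorem fp_ne_bot {n : ℕ} {I : Ideal (𝓞 k)} (hI : I ≠ ⊥) : fp k n I ≠ ⊥ := by
  intro h
  apply hI
  rw [← fp_mul_pw k n hI, h, ← Ideal.zero_eq_bot, zero_mul]

theorem ex_mul {I J : Ideal (𝓞 k)} (hI : I ≠ ⊥) (hJ : J ≠ ⊥) (p : Ideal (𝓞 k)) :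
    ex k (I * J) p = ex k I p + ex k J p := by
  classical
  simp only [ex]
  rw [normalizedFactors_mul hI hJ, Multiset.count_add]

theorem ex_pow {I : Ideal (𝓞 k)} (n : ℕ) (p : Ideal (𝓞 k)) :
    ex k (I ^ n) p = n * ex k I p := by
  classical
  simp only [ex]
  rw [normalizedFactors_pow, Multiset.count_nsmul]

theorem fr_eq_of_equiv {n : ℕ} {A B I J : Ideal (𝓞 k)} (hA : A ≠ ⊥) (hB : B ≠ ⊥) (hI : I ≠ ⊥)
    (hJ : J ≠ ⊥) (h : A * I ^ n = B * J ^ n) : fr k n A = fr k n B := by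
  funext p
  have h1 : ex k (A * I ^ n) p = ex k (B * J ^ n) p := by rw [h]
  rw [ex_mul k hA (pow_ne_zero n hI), ex_mul k hB (pow_ne_zero n hJ), ex_pow, ex_pow] at h1
  have h2 := congrArg (fun t => t % n) h1
  simpa [fr] using h2

/-! ### The tail -/

theorem tail_aux {C : ℝ} (hC : ∀ m : ℕ, ((BI k m).card : ℝ) ≤ C * m) (K L : ℕ) :
    ∑ c ∈ BI k (2 ^ (K + L)) \ BI k (2 ^ K), (1 : ℝ) / (Ideal.absNorm c : ℝ) ^ 2 ≤
      4 * C / 2 ^ K - 4 * C / 2 ^ (K + L) := by
  classical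
  induction L with
  | zero => simp
  | succ L ih =>
    have hsub : BI k (2 ^ (K + (L + 1))) \ BI k (2 ^ K) ⊆
        (BI k (2 ^ (K + L)) \ BI k (2 ^ K)) ∪
          (BI k (2 ^ (K + (L + 1))) \ BI k (2 ^ (K + L))) := by
      intro c hc
      simp only [Finset.mem_sdiff, Finset.mem_union] at hc ⊢
      tauto
    have h1 : ∑ c ∈ BI k (2 ^ (K + (L + 1))) \ BI k (2 ^ (K + L)),
        (1 : ℝ) / (Ideal.absNorm c : ℝ) ^ 2 ≤
        ((BI k (2 ^ (K + (L + 1)))).card : ℝ) * (1 / ((2 : ℝ) ^ (K + L)) ^ 2) := by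
      rw [← nsmul_eq_mul]
      refine (Finset.sum_le_card_nsmul _ _ (1 / ((2 : ℝ) ^ (K + L)) ^ 2) ?_).trans ?_
      · intro c hc
        simp only [Finset.mem_sdiff, mem_BI, not_and, not_le] at hc
        have h2 : 2 ^ (K + L) < Ideal.absNorm c := hc.2 hc.1.1
        have h3 : ((2 : ℝ) ^ (K + L)) ≤ (Ideal.absNorm c : ℝ) := by exact_mod_cast h2.le
        exact one_div_le_one_div_of_le (by positivity) (pow_le_pow_left₀ (by positivity) h3 2)
      · rw [nsmul_eq_mul, nsmul_eq_mul]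
        refine mul_le_mul_of_nonneg_right ?_ (by positivity)
        exact_mod_cast Finset.card_le_card Finset.sdiff_subset
    have h2 := hC (2 ^ (K + (L + 1)))
    have h3 : ((BI k (2 ^ (K + (L + 1)))).card : ℝ) * (1 / ((2 : ℝ) ^ (K + L)) ^ 2) ≤
        2 * C / 2 ^ (K + L) := by
      refine (mul_le_mul_of_nonneg_right h2 (by positivity)).trans (le_of_eq ?_)
      push_cast
      rw [← add_assoc, pow_succ]
      field_simp
    have h4 : ∑ c ∈ BI k (2 ^ (K + (L + 1))) \ BI k (2 ^ K),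
        (1 : ℝ) / (Ideal.absNorm c : ℝ) ^ 2 ≤
        ∑ c ∈ BI k (2 ^ (K + L)) \ BI k (2 ^ K), (1 : ℝ) / (Ideal.absNorm c : ℝ) ^ 2 +
        ∑ c ∈ BI k (2 ^ (K + (L + 1))) \ BI k (2 ^ (K + L)),
          (1 : ℝ) / (Ideal.absNorm c : ℝ) ^ 2 := by
      refine (Finset.sum_le_sum_of_subset_of_nonneg hsub fun _ _ _ => by positivity).trans ?_
      have := Finset.sum_union_inter (s₁ := BI k (2 ^ (K + L)) \ BI k (2 ^ K))
        (s₂ := BI k (2 ^ (K + (L + 1))) \ BI k (2 ^ (K + L)))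
        (f := fun c => (1 : ℝ) / (Ideal.absNorm c : ℝ) ^ 2)
      rw [← this]
      have h0 : 0 ≤ ∑ c ∈ (BI k (2 ^ (K + L)) \ BI k (2 ^ K)) ∩
        (BI k (2 ^ (K + (L + 1))) \ BI k (2 ^ (K + L))),
          (1 : ℝ) / (Ideal.absNorm c : ℝ) ^ 2 := Finset.sum_nonneg fun _ _ => by positivity
      linarith
    have h5 : (4 * C / 2 ^ K - 4 * C / 2 ^ (K + L)) + 2 * C / 2 ^ (K + L) =
        4 * C / 2 ^ K - 4 * C / 2 ^ (K + (L + 1)) := by
      rw [← add_assoc K L 1, pow_succ]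
      field_simp
      ring
    linarith

theorem tail {C : ℝ} (hC0 : 0 < C) (hC : ∀ m : ℕ, ((BI k m).card : ℝ) ≤ C * m) (K M : ℕ) :
    ∑ c ∈ BI k M \ BI k (2 ^ K), (1 : ℝ) / (Ideal.absNorm c : ℝ) ^ 2 ≤ 4 * C / 2 ^ K := by
  classical
  have h1 : BI k M \ BI k (2 ^ K) ⊆ BI k (2 ^ (K + M)) \ BI k (2 ^ K) := by
    refine Finset.sdiff_subset_sdiff (BI_mono k ?_) le_rfl
    calc M ≤ 2 ^ M := Nat.lt_two_pow_self.le
      _ ≤ 2 ^ (K + M) := Nat.pow_le_pow_right (by norm_num) (by omega)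
  refine (Finset.sum_le_sum_of_subset_of_nonneg h1 fun _ _ _ => by positivity).trans ?_
  refine (tail_aux k hC K M).trans ?_
  have : 0 < 4 * C / 2 ^ (K + M) := by positivity
  linarith

/-! ### Counting classes -/

open Classical in
/-- ideals with a large n-th power part -/
def Bad (n m D : ℕ) : Finset (Ideal (𝓞 k)) :=
  (BI k m).filter (fun I => D < Ideal.absNorm (pw k n I))

theorem card_bad {C : ℝ} (hC0 : 0 < C) (hC : ∀ m : ℕ, ((BI k m).card : ℝ) ≤ C * m) {n : ℕ}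
    (hn : 2 ≤ n) (m K : ℕ) :
    ((Bad k n m (2 ^ K)).card : ℝ) ≤ C * m * (4 * C / 2 ^ K) := by
  classical
  have hn0 : n ≠ 0 := by omega
  have hsub : Bad k n m (2 ^ K) ⊆ (BI k m \ BI k (2 ^ K)).biUnion (fun c =>
      (BI k (m / (Ideal.absNorm c) ^ n)).image (fun J => J * c ^ n)) := by
    intro I hI
    rw [Bad, Finset.mem_filter, mem_BI] at hI
    obtain ⟨⟨hI0, hIm⟩, hID⟩ := hI
    have hc0 := pw_ne_bot k hn0 hI0
    have hf0 := fp_ne_bot k (n := n) hI0
    have h1 : Ideal.absNorm (fp k n I) * Ideal.absNorm (pw k n I) ^ n ≤ m := by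
      rw [← map_pow, ← map_mul, fp_mul_pw k n hI0]
      exact hIm
    have h2 := one_le_absNorm k hc0
    have h3 := one_le_absNorm k hf0
    rw [Finset.mem_biUnion]
    refine ⟨pw k n I, ?_, ?_⟩
    · rw [Finset.mem_sdiff, mem_BI, mem_BI]
      refine ⟨⟨hc0, ?_⟩, fun h => absurd h.2 (by omega)⟩
      calc Ideal.absNorm (pw k n I) = Ideal.absNorm (pw k n I) ^ 1 := (pow_one _).symm
        _ ≤ Ideal.absNorm (pw k n I) ^ n := Nat.pow_le_pow_right h2 (by omega)
        _ ≤ Ideal.absNorm (fp k n I) * Ideal.absNorm (pw k n I) ^ n :=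
            Nat.le_mul_of_pos_left _ h3
        _ ≤ m := h1
    · rw [Finset.mem_image]
      refine ⟨fp k n I, ?_, fp_mul_pw k n hI0⟩
      rw [mem_BI]
      exact ⟨hf0, (Nat.le_div_iff_mul_le (by positivity)).2 h1⟩
  have h1 : (Bad k n m (2 ^ K)).card ≤
      ∑ c ∈ BI k m \ BI k (2 ^ K), (BI k (m / (Ideal.absNorm c) ^ n)).card := by
    refine (Finset.card_le_card hsub).trans (Finset.card_biUnion_le.trans ?_)
    exact Finset.sum_le_sum fun c _ => Finset.card_image_le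
  have h2 : ((Bad k n m (2 ^ K)).card : ℝ) ≤
      ∑ c ∈ BI k m \ BI k (2 ^ K), ((BI k (m / (Ideal.absNorm c) ^ n)).card : ℝ) := by
    exact_mod_cast h1
  refine h2.trans ?_
  have h3 : ∀ c ∈ BI k m \ BI k (2 ^ K), ((BI k (m / (Ideal.absNorm c) ^ n)).card : ℝ) ≤
      C * m * (1 / (Ideal.absNorm c : ℝ) ^ 2) := by
    intro c hc
    rw [Finset.mem_sdiff, mem_BI] at hc
    have hc1 : (1 : ℝ) ≤ Ideal.absNorm c := by exact_mod_cast one_le_absNorm k hc.1.1
    refine (hC _).trans ?_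
    rw [mul_assoc]
    refine mul_le_mul_of_nonneg_left ?_ hC0.le
    refine (Nat.cast_div_le).trans ?_
    push_cast
    rw [← div_eq_mul_one_div]
    exact div_le_div_of_nonneg_left (by positivity) (by positivity)
      (pow_le_pow_right₀ hc1 hn)
  refine (Finset.sum_le_sum h3).trans ?_
  rw [← Finset.mul_sum]
  exact mul_le_mul_of_nonneg_left (tail k hC0 hC K m) (by positivity)

open Classical in
/-- principal ideals with a small n-th power part -/
def TT (n m D : ℕ) : Finset (Ideal (𝓞 k)) :=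
  (PI k m).filter (fun I => Ideal.absNorm (pw k n I) ≤ D)

open Classical in
theorem card_TT_le {n : ℕ} (hn : n ≠ 0) (m D : ℕ) :
    (TT k n m D).card ≤ (BI k D).card * ((TT k n m D).image (fr k n)).card := by
  refine Finset.card_le_mul_card_image _ _ ?_
  intro φ _
  refine Finset.card_le_card_of_injOn (pw k n) ?_ ?_
  · intro I hI
    simp only [TT, Finset.coe_filter, Set.mem_ofPred_eq, Finset.mem_filter, mem_PI] at hI
    rw [Finset.mem_coe, mem_BI]
    exact ⟨pw_ne_bot k hn hI.1.1.1, hI.1.2⟩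
  · intro I hI J hJ h
    simp only [TT, Finset.coe_filter, Set.mem_ofPred_eq, Finset.mem_filter, mem_PI] at hI hJ
    exact ext_fr_pw k hI.1.1.1 hJ.1.1.1 (hI.2.trans hJ.2.symm) h

open Classical in
theorem many_classes {n : ℕ} (hn : 2 ≤ n) : ∃ c : ℝ, 0 < c ∧ ∃ m0 : ℕ, ∀ m : ℕ, m0 ≤ m →
    c * m ≤ (((PI k m).image (fr k n)).card : ℝ) := by
  obtain ⟨C, hC0, hC⟩ := card_BI_le k
  obtain ⟨κ, hκ0, m0, hκ⟩ := le_card_PI k
  obtain ⟨K, hK⟩ := exists_nat_gt (8 * C ^ 2 / κ)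
  have hK2 : C * (4 * C / 2 ^ K) ≤ κ / 2 := by
    have h1 : (K : ℝ) ≤ 2 ^ K := by exact_mod_cast Nat.lt_two_pow_self.le
    have h2 : 8 * C ^ 2 / κ ≤ 2 ^ K := hK.le.trans h1
    rw [div_le_iff₀ hκ0] at h2
    rw [mul_div_assoc', div_le_iff₀ (by positivity)]
    linarith
  have hB : 0 < (BI k (2 ^ K)).card := by
    rw [Finset.card_pos]
    refine ⟨⊤, ?_⟩
    rw [mem_BI]
    refine ⟨top_ne_bot, ?_⟩
    rw [Ideal.absNorm_top]
    exact Nat.one_le_two_pow
  have hB' : (0 : ℝ) < (BI k (2 ^ K)).card := by exact_mod_cast hB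
  refine ⟨κ / (2 * (BI k (2 ^ K)).card), by positivity, m0, fun m hm => ?_⟩
  have h1 := hκ m hm
  have h2 : (PI k m).card ≤ (TT k n m (2 ^ K)).card + (Bad k n m (2 ^ K)).card := by
    refine (Finset.card_le_card ?_).trans (Finset.card_union_le _ _)
    intro I hI
    rw [Finset.mem_union]
    by_cases h : Ideal.absNorm (pw k n I) ≤ 2 ^ K
    · left
      exact Finset.mem_filter.2 ⟨hI, h⟩
    · right
      rw [Bad, Finset.mem_filter]
      rw [mem_PI] at hI
      exact ⟨(mem_BI k).2 ⟨hI.1, hI.2.1⟩, not_le.1 h⟩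
  have h2' : ((PI k m).card : ℝ) ≤ (TT k n m (2 ^ K)).card + (Bad k n m (2 ^ K)).card := by
    exact_mod_cast h2
  have h3 := card_bad k hC0 hC hn m K
  have h4 : ((TT k n m (2 ^ K)).card : ℝ) ≤
      (BI k (2 ^ K)).card * ((PI k m).image (fr k n)).card := by
    have h5 := card_TT_le k (n := n) (by omega) m (2 ^ K)
    have h6 : ((TT k n m (2 ^ K)).image (fr k n)).card ≤ ((PI k m).image (fr k n)).card :=
      Finset.card_le_card (Finset.image_subset_image (Finset.filter_subset _ _))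
    exact_mod_cast h5.trans (Nat.mul_le_mul_left _ h6)
  have h5 : C * m * (4 * C / 2 ^ K) ≤ κ / 2 * m := by
    have : C * m * (4 * C / 2 ^ K) = C * (4 * C / 2 ^ K) * m := by ring
    rw [this]
    exact mul_le_mul_of_nonneg_right hK2 (by positivity)
  have h6 : κ / 2 * m ≤ (BI k (2 ^ K)).card * ((PI k m).image (fr k n)).card := by linarith
  calc κ / (2 * (BI k (2 ^ K)).card) * m = (κ / 2 * m) / (BI k (2 ^ K)).card := by
        field_simp
    _ ≤ _ := by
        rw [div_le_iff₀ hB']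
        linarith

end

/-! ### Elements with prescribed exponents -/

section

variable {k : Type} [Field k] [NumberField k]

theorem cnt_eq {P : Ideal (𝓞 k)} (hP : P.IsPrime) {z : 𝓞 k} {i : ℕ} (h1 : z ∈ P ^ i)
    (h2 : z ∉ P ^ (i + 1)) : cnt P z = i := by
  classical
  have := Ideal.count_normalizedFactors_eq (p := P) (x := Ideal.span {z}) (n := i)
    ((Ideal.span_singleton_le_iff_mem _).2 h1)
    (fun h => h2 ((Ideal.span_singleton_le_iff_mem _).1 h))
  rw [cnt]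
  convert this

theorem exists_mult (P Q : Ideal (𝓞 k)) (hP : P.IsPrime) (hQ : Q.IsPrime) (hP0 : P ≠ ⊥)
    (hQ0 : Q ≠ ⊥) (hPQ : P ≠ Q) (i j : ℕ) :
    ∃ z : 𝓞 k, z ≠ 0 ∧ cnt P z = i ∧ cnt Q z = j := by
  obtain ⟨x, hx, hx'⟩ := Ideal.exists_mem_pow_notMem_pow_succ P hP0 hP.ne_top i
  obtain ⟨y, hy, hy'⟩ := Ideal.exists_mem_pow_notMem_pow_succ Q hQ0 hQ.ne_top j
  have hPm := hP.isMaximal hP0
  have hQm := hQ.isMaximal hQ0
  have hco : IsCoprime (P ^ (i + 1)) (Q ^ (j + 1)) :=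
    IsCoprime.pow (Ideal.isCoprime_iff_sup_eq.2 (hPm.coprime_of_ne hQm hPQ))
  obtain ⟨a, ha, b, hb, hab⟩ := Ideal.isCoprime_iff_exists.1 hco
  have h1 : b * x + a * y - x ∈ P ^ (i + 1) := by
    have : b * x + a * y - x = a * (y - x) := by
      have hb1 : b = 1 - a := by rw [← hab]; ring
      rw [hb1]; ring
    rw [this]
    exact Ideal.mul_mem_right _ _ ha
  have h2 : b * x + a * y - y ∈ Q ^ (j + 1) := by
    have : b * x + a * y - y = b * (x - y) := by
      have ha1 : a = 1 - b := by rw [← hab]; ring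
      rw [ha1]; ring
    rw [this]
    exact Ideal.mul_mem_right _ _ hb
  have h3 : b * x + a * y ∉ P ^ (i + 1) := by
    intro h
    apply hx'
    have := Ideal.sub_mem _ h h1
    simpa using this
  have h4 : b * x + a * y ∉ Q ^ (j + 1) := by
    intro h
    apply hy'
    have := Ideal.sub_mem _ h h2
    simpa using this
  have h5 : b * x + a * y ∈ P ^ i := by
    have := Ideal.add_mem _ (Ideal.pow_le_pow_right (Nat.le_succ i) h1) hx
    simpa using this
  have h6 : b * x + a * y ∈ Q ^ j := by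
    have := Ideal.add_mem _ (Ideal.pow_le_pow_right (Nat.le_succ j) h2) hy
    simpa using this
  refine ⟨b * x + a * y, ?_, cnt_eq hP h5 h3, cnt_eq hQ h6 h4⟩
  intro h
  exact h3 (h ▸ Ideal.zero_mem _)

theorem cnt_eq_ex (P : Ideal (𝓞 k)) (a : 𝓞 k) : cnt P a = ex k (Ideal.span {a}) P := rfl

theorem cnt_mul (P : Ideal (𝓞 k)) {a b : 𝓞 k} (ha : a ≠ 0) (hb : b ≠ 0) :
    cnt P (a * b) = cnt P a + cnt P b := by
  rw [cnt_eq_ex, cnt_eq_ex, cnt_eq_ex, ← Ideal.span_singleton_mul_span_singleton, ex_mul]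
  · simpa using ha
  · simpa using hb

theorem abs_norm_eq (a : 𝓞 k) :
    |(Algebra.norm ℤ a : ℝ)| = (Ideal.absNorm (Ideal.span {a}) : ℝ) := by
  rw [Ideal.absNorm_span_singleton, Nat.cast_natAbs]
  push_cast
  rfl

end

end

end Pool.Agent.Work.MuY.CntA

namespace Pool.Agent.Work.MuY

open NumberField CntA

/-- many elements of small norm that are inequivalent modulo n-th powers of ideals, with
prescribed exponents modulo n at two primes -/
theorem many_elements (k : Type) [Field k] [NumberField k] (n : ℕ) (hn : 2 ≤ n)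
    (P Q : Ideal (𝓞 k)) (hP : P.IsPrime) (hQ : Q.IsPrime) (hP0 : P ≠ ⊥) (hQ0 : Q ≠ ⊥)
    (hPQ : P ≠ Q) :
    ∃ c : ℝ, 0 < c ∧ ∀ (X : ℝ) (N : ℕ), (N : ℝ) ≤ c * X →
      ∃ a : Fin N → 𝓞 k,
        (∀ i, a i ≠ 0 ∧ |(Algebra.norm ℤ (a i) : ℝ)| ≤ X ∧ cnt P (a i) % n = 1 ∧
          cnt Q (a i) % n = 0) ∧
        ∀ i j, (∃ I J : Ideal (𝓞 k), I ≠ ⊥ ∧ J ≠ ⊥ ∧
          Ideal.span {a i} * I ^ n = Ideal.span {a j} * J ^ n) → i = j := by
  classical
  obtain ⟨c, hc, m0, hm0⟩ := many_classes k hn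
  choose z hz0 hzP hzQ using exists_mult P Q hP hQ hP0 hQ0 hPQ
  set W : ℕ := ∑ u ∈ Finset.range n ×ˢ Finset.range n,
    Ideal.absNorm (Ideal.span {z (n + 1 - u.1) (n - u.2)}) with hW
  have hWle : ∀ u ∈ Finset.range n ×ˢ Finset.range n,
      Ideal.absNorm (Ideal.span {z (n + 1 - u.1) (n - u.2)}) ≤ W := by
    intro u hu
    exact Finset.single_le_sum
      (f := fun u : ℕ × ℕ => Ideal.absNorm (Ideal.span {z (n + 1 - u.1) (n - u.2)}))
      (fun _ _ => Nat.zero_le _) hu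
  have hW1 : 1 ≤ W := by
    refine le_trans ?_ (hWle (0, 0) (by simp; omega))
    exact one_le_absNorm k (by simpa using hz0 _ _)
  have hW1' : (1 : ℝ) ≤ W := by exact_mod_cast hW1
  have hWp : (0 : ℝ) < W := by linarith
  have hnp : (0 : ℝ) < n := by exact_mod_cast (by omega : 0 < n)
  set c1 : ℝ := min (c / (2 * W * (n * n))) (1 / (2 * W * (m0 + 1))) with hc1
  have hc1p : 0 < c1 := by
    rw [hc1]
    exact lt_min (by positivity) (by positivity)
  refine ⟨c1, hc1p, fun X N hN => ?_⟩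
  rcases Nat.eq_zero_or_pos N with rfl | hNpos
  · exact ⟨fun i => i.elim0, fun i => i.elim0, fun i => i.elim0⟩
  have hN1 : (1 : ℝ) ≤ N := by exact_mod_cast hNpos
  have hX : 2 * W * (m0 + 1) ≤ X := by
    have h1 : 1 ≤ c1 * X := hN1.trans hN
    have hXp : 0 < X := by
      by_contra h
      have : c1 * X ≤ 0 := mul_nonpos_of_nonneg_of_nonpos hc1p.le (not_lt.1 h)
      linarith
    have h2 : c1 * X ≤ 1 / (2 * W * (m0 + 1)) * X :=
      mul_le_mul_of_nonneg_right (min_le_right _ _) hXp.le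
    have h3 : 1 ≤ 1 / (2 * W * (m0 + 1)) * X := h1.trans h2
    rw [one_div_mul_eq_div, le_div_iff₀ (by positivity)] at h3
    linarith
  have hXp : 0 < X := lt_of_lt_of_le (by positivity) hX
  set m : ℕ := ⌊X / W⌋₊ with hm
  have hXW : 2 * ((m0 : ℝ) + 1) ≤ X / W := by
    rw [le_div_iff₀ hWp]
    linarith
  have hm1 : X / W - 1 ≤ m := by
    have := Nat.lt_floor_add_one (X / W)
    linarith
  have hm2 : (m : ℝ) ≤ X / W := Nat.floor_le (by positivity)
  have hm00 : (0 : ℝ) ≤ m0 := by positivity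
  have hm3 : X / (2 * W) ≤ m := by
    have : X / (2 * W) = X / W / 2 := by
      rw [mul_comm 2 (W : ℝ), div_mul_eq_div_div]
    rw [this]
    linarith
  have hm4 : m0 ≤ m := by
    have : (m0 : ℝ) ≤ m := by linarith
    exact_mod_cast this
  have hS := hm0 m hm4
  set S := (PI k m).image (fr k n) with hSdef
  have hcard : (n * n) * (N : ℝ) ≤ S.card := by
    refine le_trans ?_ hS
    have h1 : c1 * X ≤ c / (2 * W * (n * n)) * X :=
      mul_le_mul_of_nonneg_right (min_le_left _ _) hXp.le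
    calc (n * n) * (N : ℝ) ≤ (n * n) * (c / (2 * W * (n * n)) * X) :=
          mul_le_mul_of_nonneg_left (hN.trans h1) (by positivity)
      _ = c * (X / (2 * W)) := by field_simp
      _ ≤ c * m := mul_le_mul_of_nonneg_left hm3 hc.le
  obtain ⟨u, hu, hub⟩ := Finset.exists_le_card_fiber_of_nsmul_le_card_of_maps_to
    (s := S) (t := Finset.range n ×ˢ Finset.range n)
    (f := fun φ : Ideal (𝓞 k) → ℕ => (φ P, φ Q)) (b := (N : ℝ)) (by
      intro φ hφ
      rw [hSdef, Finset.mem_image] at hφ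
      obtain ⟨I, _, rfl⟩ := hφ
      simp only [Finset.mem_product, Finset.mem_range, fr]
      exact ⟨Nat.mod_lt _ (by omega), Nat.mod_lt _ (by omega)⟩)
    ⟨(0, 0), by simp; omega⟩ (by
      rw [Finset.card_product, Finset.card_range, nsmul_eq_mul]
      push_cast
      exact hcard)
  have hub' : N ≤ (S.filter (fun φ => (φ P, φ Q) = u)).card := by exact_mod_cast hub
  obtain ⟨e⟩ : Nonempty (Fin N ↪ {φ // φ ∈ S.filter (fun φ => (φ P, φ Q) = u)}) := by
    apply Function.Embedding.nonempty_of_card_le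
    rw [Fintype.card_fin, Fintype.card_coe]
    exact hub'
  have hex : ∀ i : Fin N, ∃ a : 𝓞 k, a ≠ 0 ∧ Ideal.absNorm (Ideal.span {a}) ≤ m ∧
      fr k n (Ideal.span {a}) = (e i).1 := by
    intro i
    have h1 := (Finset.mem_filter.1 (e i).2).1
    obtain ⟨I, hI, hIe⟩ := Finset.mem_image.1 h1
    rw [mem_PI] at hI
    obtain ⟨hI0, hIm, hIp⟩ := hI
    obtain ⟨a, ha⟩ := hIp
    rw [Ideal.submodule_span_eq] at ha
    refine ⟨a, ?_, ?_, ?_⟩
    · rintro rfl
      apply hI0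
      rw [ha]
      simp
    · rw [← ha]; exact hIm
    · rw [← ha]; exact hIe
  choose a ha0 ham hae using hex
  set w := z (n + 1 - u.1) (n - u.2) with hw
  rw [Finset.mem_product, Finset.mem_range, Finset.mem_range] at hu
  have hw0 : w ≠ 0 := hz0 _ _
  have hfr : ∀ i, fr k n (Ideal.span {a i}) P = u.1 ∧ fr k n (Ideal.span {a i}) Q = u.2 := by
    intro i
    have h1 := (Finset.mem_filter.1 (e i).2).2
    rw [hae i]
    exact ⟨congrArg Prod.fst h1, congrArg Prod.snd h1⟩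
  refine ⟨fun i => a i * w, fun i => ⟨mul_ne_zero (ha0 i) hw0, ?_, ?_, ?_⟩, ?_⟩
  · rw [abs_norm_eq, ← Ideal.span_singleton_mul_span_singleton, map_mul]
    push_cast
    have h1 : (Ideal.absNorm (Ideal.span {a i}) : ℝ) ≤ m := by exact_mod_cast ham i
    have h2 : (Ideal.absNorm (Ideal.span {w}) : ℝ) ≤ W := by
      exact_mod_cast hWle u (by
        rw [Finset.mem_product, Finset.mem_range, Finset.mem_range]; exact hu)
    calc (Ideal.absNorm (Ideal.span {a i}) : ℝ) * (Ideal.absNorm (Ideal.span {w}) : ℝ)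
        ≤ m * W := mul_le_mul h1 h2 (by positivity) (by positivity)
      _ ≤ X / W * W := mul_le_mul_of_nonneg_right hm2 hWp.le
      _ = X := by field_simp
  · rw [cnt_mul P (ha0 i) hw0, hw, hzP, Nat.add_mod, cnt_eq_ex]
    have h1 : ex k (Ideal.span {a i}) P % n = u.1 := (hfr i).1
    rw [h1]
    have h2 : (u.1 + (n + 1 - u.1) % n) % n = (u.1 + (n + 1 - u.1)) % n := by
      rw [Nat.add_mod u.1 (n + 1 - u.1) n, Nat.add_mod u.1 ((n + 1 - u.1) % n) n, Nat.mod_mod]
    rw [h2]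
    have h3 : u.1 + (n + 1 - u.1) = 1 + n := by omega
    rw [h3, Nat.add_mod_right]
    exact Nat.mod_eq_of_lt (by omega)
  · rw [cnt_mul Q (ha0 i) hw0, hw, hzQ, Nat.add_mod, cnt_eq_ex]
    have h1 : ex k (Ideal.span {a i}) Q % n = u.2 := (hfr i).2
    rw [h1]
    have h2 : (u.2 + (n - u.2) % n) % n = (u.2 + (n - u.2)) % n := by
      rw [Nat.add_mod u.2 (n - u.2) n, Nat.add_mod u.2 ((n - u.2) % n) n, Nat.mod_mod]
    rw [h2]
    have h3 : u.2 + (n - u.2) = n := by omega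
    rw [h3, Nat.mod_self]
  · rintro i j ⟨I, J, hI, hJ, h⟩
    have hai : Ideal.span {a i} ≠ ⊥ := by simpa using ha0 i
    have haj : Ideal.span {a j} ≠ ⊥ := by simpa using ha0 j
    have hwb : Ideal.span {w} ≠ ⊥ := by simpa using hw0
    have h1 : Ideal.span {a i} * I ^ n = Ideal.span {a j} * J ^ n := by
      rw [← Ideal.span_singleton_mul_span_singleton, ← Ideal.span_singleton_mul_span_singleton]
        at h
      refine mul_left_cancel₀ hwb ?_
      calc Ideal.span {w} * (Ideal.span {a i} * I ^ n)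
          = Ideal.span {a i} * Ideal.span {w} * I ^ n := by ring
        _ = Ideal.span {a j} * Ideal.span {w} * J ^ n := h
        _ = _ := by ring
    have h2 := fr_eq_of_equiv k hai haj hI hJ h1
    rw [hae i, hae j] at h2
    exact e.injective (Subtype.ext h2)

end Pool.Agent.Work.MuY
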