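import Pool.Agent.Work.MP_a4986b_nt.YDefC

/-! Isomorphisms between Kummer extensions of a cyclotomic field. -/

set_option autoImplicit false

namespace Pool.Agent.Work.MuY

open NumberField Polynomial IntermediateField UniqueFactorizationMonoid

/-- splitting field of `X ^ n - b` from a generating root -/
theorem yiso_split {n : ℕ} (hn : 0 < n) {K L : Type} [Field K] [Field L] [Algebra K L]
    [FiniteDimensional K L] (hK : (primitiveRoots n K).Nonempty) {a : K} {α : L}
    (ha : α ^ n = algebraMap K L a) (hα : K⟮α⟯ = ⊤) :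
    IsSplittingField K L (X ^ n - C a) := by
  constructor
  · rw [Polynomial.map_sub, Polynomial.map_pow, Polynomial.map_C,
      Polynomial.map_X]
    have ⟨_, hζ⟩ := hK
    rw [mem_primitiveRoots hn] at hζ
    exact X_pow_sub_C_splits_of_isPrimitiveRoot (hζ.map_of_injective (algebraMap K _).injective) ha
  · rw [eq_top_iff, ← IntermediateField.top_toSubalgebra, ← hα,
      IntermediateField.adjoin_simple_toSubalgebra_of_isAlgebraic (IsAlgebraic.of_finite K α)]
    apply Algebra.adjoin_mono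
    rw [Set.singleton_subset_iff, mem_rootSet_of_ne (X_pow_sub_C_ne_zero hn a),
      aeval_def, eval₂_sub, eval₂_X_pow, eval₂_C, ha, sub_self]

/-- two radical generators of the same Kummer extension -/
theorem yiso_kummer {n : ℕ} (hn : 2 ≤ n) {K L : Type} [Field K] [Field L] [Algebra K L]
    [FiniteDimensional K L] (hK : (primitiveRoots n K).Nonempty) {a b : K} {u t : L}
    (Ha : Irreducible (X ^ n - C a)) (Hb : Irreducible (X ^ n - C b))
    (hu : u ^ n = algebraMap K L a) (hutop : K⟮u⟯ = ⊤)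
    (ht : t ^ n = algebraMap K L b) (httop : K⟮t⟯ = ⊤) :
    ∃ (e : ℕ) (c : K), e < n ∧ Nat.Coprime e n ∧ c ≠ 0 ∧ u ^ e = algebraMap K L c * t := by
  have hn0 : 0 < n := by omega
  have : NeZero n := ⟨by omega⟩
  obtain ⟨ζ, hζ⟩ := id hK
  rw [mem_primitiveRoots hn0] at hζ
  have Sa := yiso_split hn0 hK hu hutop
  have Sb := yiso_split hn0 hK ht httop
  have : IsGalois K L := isGalois_of_isSplittingField_X_pow_sub_C hK Hb L
  have hb0 : b ≠ 0 := by
    rintro rfl
    exact ne_zero_of_irreducible_X_pow_sub_C' (by omega) Hb rfl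
  have ha0 : a ≠ 0 := by
    rintro rfl
    exact ne_zero_of_irreducible_X_pow_sub_C' (by omega) Ha rfl
  have hu0 : u ≠ 0 := by
    rintro rfl
    rw [zero_pow hn0.ne'] at hu
    exact ha0 ((map_eq_zero _).1 hu.symm)
  have ht0 : t ≠ 0 := by
    rintro rfl
    rw [zero_pow hn0.ne'] at ht
    exact hb0 ((map_eq_zero _).1 ht.symm)
  let χa := autEquivRootsOfUnity hK Ha L
  let χb := autEquivRootsOfUnity hK Hb L
  obtain ⟨m, hm⟩ := MonoidHom.map_cyclic ((χa.symm.trans χb).toMonoidHom)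
  have hm' : ∀ g : Gal(L/K), χb g = (χa g) ^ m := by
    intro g
    have := hm (χa g)
    simpa using this
  -- the exponent
  set e : ℕ := (m % (n : ℤ)).toNat with he
  have hmod0 : (0 : ℤ) ≤ m % (n : ℤ) := Int.emod_nonneg _ (by exact_mod_cast hn0.ne')
  have hmodlt : m % (n : ℤ) < n := Int.emod_lt_of_pos _ (by exact_mod_cast hn0)
  have heZ : (e : ℤ) = m % (n : ℤ) := Int.toNat_of_nonneg hmod0
  have hpow : ∀ z : rootsOfUnity n K, z ^ m = z ^ e := by
    intro z
    have hz : z ^ (n : ℤ) = 1 := by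
      rw [zpow_natCast]
      ext
      have := z.2
      rw [mem_rootsOfUnity] at this
      simpa using congrArg (fun w : Kˣ => (w : K)) this
    have h1 : m = (e : ℤ) + n * (m / n) := by
      rw [heZ]; exact (Int.emod_add_mul_ediv m n).symm
    rw [h1, zpow_add, zpow_mul, hz, one_zpow, mul_one, zpow_natCast]
  have hme : ∀ g : Gal(L/K), χb g = (χa g) ^ e := fun g => (hm' g).trans (hpow _)
  have hen : e < n := by
    have : (e : ℤ) < n := heZ ▸ hmodlt
    exact_mod_cast this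
  -- a primitive root as an element of the group
  have hcop : Nat.Coprime e n := by
    -- the element of order n
    let z : rootsOfUnity n K := hζ.toRootsOfUnity
    have hz : IsPrimitiveRoot ((z : Kˣ) : K) n := by
      simpa [z] using hζ
    obtain ⟨g, hg⟩ := χb.surjective z
    by_contra hc
    set d := Nat.gcd e n with hd
    have hd1 : d ≠ 1 := hc
    have hd0 : 0 < d := Nat.gcd_pos_of_pos_right _ hn0
    have hdn : d ∣ n := Nat.gcd_dvd_right _ _
    have hde : d ∣ e := Nat.gcd_dvd_left _ _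
    have h1 : z ^ (n / d) = 1 := by
      rw [← hg, hme, ← pow_mul]
      obtain ⟨r, hr⟩ := hde
      have h2 : e * (n / d) = n * r := by
        calc e * (n / d) = r * (d * (n / d)) := by rw [hr]; ring
          _ = n * r := by rw [Nat.mul_div_cancel' hdn]; ring
      rw [h2, pow_mul]
      have h3 : (χa g) ^ n = 1 := by
        ext
        have := (χa g).2
        rw [mem_rootsOfUnity] at this
        simpa using congrArg (fun w : Kˣ => (w : K)) this
      rw [h3, one_pow]
    have h4 : (((z : Kˣ) : K)) ^ (n / d) = 1 := by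
      have := congrArg (fun w : rootsOfUnity n K => (((w : Kˣ) : K))) h1
      simpa using this
    have h5 := Nat.le_of_dvd (Nat.div_pos (Nat.le_of_dvd hn0 hdn) hd0) (hz.dvd_of_pow_eq_one _ h4)
    have h6 : n / d < n := Nat.div_lt_self hn0 (by omega)
    omega
  -- the quotient is fixed
  have hfix : ∀ g : Gal(L/K), g (u ^ e / t) = u ^ e / t := by
    intro g
    have h1 : χa g • u = g u := autEquivRootsOfUnity_smul hK Ha L hu g
    have h2 : χb g • t = g t := autEquivRootsOfUnity_smul hK Hb L ht g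
    rw [map_div₀, map_pow, ← h1, ← h2, hme]
    rw [Subgroup.smul_def, Subgroup.smul_def, Units.smul_def, Units.smul_def,
      Algebra.smul_def, Algebra.smul_def, mul_pow]
    have h3 : algebraMap K L (((χa g : Kˣ) : K)) ≠ 0 := by
      simp
    have h4 : algebraMap K L ((((χa g) ^ e : rootsOfUnity n K) : Kˣ) : K) =
        (algebraMap K L (((χa g : Kˣ) : K))) ^ e := by
      simp
    rw [h4, mul_div_mul_left _ _ (pow_ne_zero _ h3)]
  have hbot : u ^ e / t ∈ (⊥ : IntermediateField K L) := by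
    rw [IsGalois.mem_bot_iff_fixed]
    exact hfix
  rw [IntermediateField.mem_bot] at hbot
  obtain ⟨c, hc⟩ := hbot
  refine ⟨e, c, hen, hcop, ?_, ?_⟩
  · rintro rfl
    rw [map_zero, eq_comm, div_eq_zero_iff] at hc
    rcases hc with hc | hc
    · exact pow_ne_zero e hu0 hc
    · exact ht0 hc
  · rw [hc, div_mul_cancel₀ _ ht0]

/-- isomorphisms between Kummer extensions of the cyclotomic field -/
theorem kum_iso {n : ℕ} (hn : 2 ≤ n) (k : Type) [Field k] [NumberField k]
    [IsCyclotomicExtension {n} ℚ k] (a b : 𝓞 k) (ha : Irreducible (X ^ n - C (a : k)))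
    (hb : Irreducible (X ^ n - C (b : k))) (F F' : Type) [Field F] [NumberField F]
    [Algebra k F] [Field F'] [NumberField F'] [Algebra k F'] (t : F) (t' : F')
    (ht : t ^ n = algebraMap k F a) (htop : IntermediateField.adjoin k {t} = ⊤)
    (ht' : t' ^ n = algebraMap k F' b) (htop' : IntermediateField.adjoin k {t'} = ⊤)
    (φ : F ≃+* F') :
    ∃ σ : k ≃+* k, (∀ x, φ (algebraMap k F x) = algebraMap k F' (σ x)) ∧
      ∃ (e : ℕ) (x y : 𝓞 k), e < n + 1 ∧ Nat.Coprime e n ∧ x ≠ 0 ∧ y ≠ 0 ∧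
        b * x ^ n = (RingOfIntegers.mapRingEquiv σ a) ^ e * y ^ n := by
  have hn0 : 0 < n := by omega
  have : NeZero n := ⟨by omega⟩
  have : IsGalois ℚ k := IsCyclotomicExtension.isGalois {n} ℚ k
  have hK : (primitiveRoots n k).Nonempty :=
    ⟨IsCyclotomicExtension.zeta n ℚ k,
      (mem_primitiveRoots hn0).2 (IsCyclotomicExtension.zeta_spec n ℚ k)⟩
  -- the restriction to `k`
  let Φ : F ≃ₐ[ℚ] F' := AlgEquiv.ofRingEquiv (f := φ) (fun x => by simp)
  let σ' : k ≃ₐ[ℚ] k := Φ.restrictNormal k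
  have hσ' : ∀ x, φ (algebraMap k F x) = algebraMap k F' (σ' x) := fun x =>
    (Φ.restrictNormal_commutes k x).symm
  let σ : k ≃+* k := σ'.toRingEquiv
  have hσ : ∀ x, φ (algebraMap k F x) = algebraMap k F' (σ x) := hσ'
  refine ⟨σ, hσ, ?_⟩
  set u : F' := φ t with hu
  have hun : u ^ n = algebraMap k F' (σ a) := by
    rw [hu, ← map_pow, ht, hσ]
  have hutop : IntermediateField.adjoin k {u} = ⊤ := by
    rw [eq_top_iff]
    intro y _
    obtain ⟨x, rfl⟩ := φ.surjective y
    have hx : x ∈ IntermediateField.adjoin k {t} := htop ▸ IntermediateField.mem_top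
    induction hx using IntermediateField.adjoin_induction with
    | mem z hz =>
      rw [Set.mem_singleton_iff] at hz
      subst hz
      exact IntermediateField.mem_adjoin_simple_self k u
    | algebraMap z =>
      rw [hσ]
      exact IntermediateField.algebraMap_mem _ _
    | add x y _ _ hx hy =>
      rw [map_add]
      exact add_mem (hx trivial) (hy trivial)
    | inv x _ hx =>
      rw [map_inv₀]
      exact inv_mem (hx trivial)
    | mul x y _ _ hx hy =>
      rw [map_mul]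
      exact mul_mem (hx trivial) (hy trivial)
  have hσa : Irreducible (X ^ n - C (σ a : k)) := by
    have h1 := (MulEquiv.irreducible_iff (Polynomial.mapEquiv σ)).2 ha
    simpa using h1
  have : FiniteDimensional k F' := by
    have : IsScalarTower ℚ k F' := inferInstance
    exact FiniteDimensional.right ℚ k F'
  obtain ⟨e, c, hen, hcop, hc0, hec⟩ :=
    yiso_kummer hn hK hσa hb hun hutop ht' htop'
  obtain ⟨x, y, hy, hxy⟩ := IsFractionRing.div_surjective (A := 𝓞 k) c
  have hy0 : y ≠ 0 := nonZeroDivisors.ne_zero hy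
  have hx0 : x ≠ 0 := by
    rintro rfl
    rw [map_zero, zero_div] at hxy
    exact hc0 hxy.symm
  refine ⟨e, x, y, by omega, hcop, hx0, hy0, ?_⟩
  have hk : (σ a) ^ e = c ^ n * b := by
    apply (algebraMap k F').injective
    rw [map_pow, ← hun, map_mul, map_pow, ← ht', ← mul_pow, ← hec, ← pow_mul, ← pow_mul,
      mul_comm]
  have hk2 : (b : k) * (x : k) ^ n = (σ a) ^ e * (y : k) ^ n := by
    have hy1 : (y : k) ≠ 0 := by
      intro h
      exact hy0 (RingOfIntegers.coe_eq_zero_iff.1 h)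
    have hcy : c * (y : k) = x := by
      rw [← hxy]
      exact div_mul_cancel₀ _ hy1
    rw [hk, ← hcy]
    ring
  apply RingOfIntegers.ext
  push_cast
  exact hk2

theorem yiso_cnt_mul {k : Type} [Field k] [NumberField k] (P : Ideal (𝓞 k)) {a b : 𝓞 k}
    (ha : a ≠ 0) (hb : b ≠ 0) : cnt P (a * b) = cnt P a + cnt P b := by
  classical
  unfold cnt
  rw [← Ideal.span_singleton_mul_span_singleton, normalizedFactors_mul (by simpa using ha)
    (by simpa using hb), Multiset.count_add]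

theorem yiso_cnt_pow {k : Type} [Field k] [NumberField k] (P : Ideal (𝓞 k)) (a : 𝓞 k)
    (m : ℕ) : cnt P (a ^ m) = m * cnt P a := by
  classical
  unfold cnt
  rw [← Ideal.span_singleton_pow, normalizedFactors_pow, Multiset.count_nsmul]

theorem yiso_mem_pow {k : Type} [Field k] [NumberField k] {P : Ideal (𝓞 k)} (hP : P.IsPrime)
    (hP0 : P ≠ ⊥) {a : 𝓞 k} (ha : a ≠ 0) (j : ℕ) : a ∈ P ^ j ↔ j ≤ cnt P a := by
  classical
  have h1 : Irreducible P := (Ideal.prime_of_isPrime hP0 hP).irreducible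
  have h2 : Ideal.span {a} ≠ ⊥ := by simpa using ha
  have h3 := emultiplicity_eq_count_normalizedFactors h1 h2
  rw [← Ideal.dvd_span_singleton, pow_dvd_iff_le_emultiplicity, h3, normalize_eq]
  unfold cnt
  simp

theorem yiso_cnt_comap {k : Type} [Field k] [NumberField k] {P : Ideal (𝓞 k)} (hP : P.IsPrime)
    (hP0 : P ≠ ⊥) (τ : 𝓞 k ≃+* 𝓞 k) {a : 𝓞 k} (ha : a ≠ 0) :
    cnt P (τ a) = cnt (P.comap τ) a := by
  have hQ : (P.comap τ).IsPrime := Ideal.comap_isPrime τ P
  have hQ0 : P.comap τ ≠ ⊥ := by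
    intro h
    apply hP0
    rw [eq_bot_iff]
    intro x hx
    have : τ.symm x ∈ P.comap τ := by
      rw [Ideal.mem_comap]
      simpa using hx
    rw [h, Ideal.mem_bot] at this
    rw [Ideal.mem_bot]
    simpa using this
  have hτa : τ a ≠ 0 := by simpa using ha
  have key : ∀ j, j ≤ cnt P (τ a) ↔ j ≤ cnt (P.comap τ) a := by
    intro j
    rw [← yiso_mem_pow hP hP0 hτa, ← yiso_mem_pow hQ hQ0 ha]
    have h1 : P.comap τ ^ j = (P ^ j).comap τ := by
      rw [← Ideal.map_symm, ← Ideal.map_symm, Ideal.map_pow]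
    rw [h1, Ideal.mem_comap]
  exact le_antisymm ((key _).1 le_rfl) ((key _).2 le_rfl)

theorem kum_not_galois {n : ℕ} (hn : 2 ≤ n) (k : Type) [Field k] [NumberField k]
    [IsCyclotomicExtension {n} ℚ k] (a : 𝓞 k) (ha : Irreducible (X ^ n - C (a : k)))
    (F : Type) [Field F] [NumberField F] [Algebra k F] (t : F)
    (ht : t ^ n = algebraMap k F a) (htop : IntermediateField.adjoin k {t} = ⊤)
    (σ : k ≃+* k) (P Q : Ideal (𝓞 k)) (hP : P.IsPrime) (hQ : Q.IsPrime) (hP0 : P ≠ ⊥)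
    (hPQ : Q = P.comap (RingOfIntegers.mapRingEquiv σ)) (hcP : cnt P a % n = 1)
    (hcQ : cnt Q a % n = 0) : ¬ IsGalois ℚ F := by
  intro hG
  have _ := hQ
  have ha0 : a ≠ 0 := by
    rintro rfl
    exact ne_zero_of_irreducible_X_pow_sub_C' (by omega) ha (by simp)
  let σ' : k ≃ₐ[ℚ] k := AlgEquiv.ofRingEquiv (f := σ) (fun x => by simp)
  let φ : F ≃ₐ[ℚ] F := σ'.liftNormal F
  have hφ : ∀ x, φ (algebraMap k F x) = algebraMap k F (σ x) := fun x =>
    σ'.liftNormal_commutes F x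
  obtain ⟨τ, hτ, e, x, y, -, -, hx, hy, hxy⟩ :=
    kum_iso hn k a a ha ha F F t t ht htop ht htop φ.toRingEquiv
  have hτσ : τ = σ := by
    ext z
    apply (algebraMap k F).injective
    rw [← hτ z]
    exact hφ z
  subst hτσ
  have hσa : RingOfIntegers.mapRingEquiv τ a ≠ 0 := by simpa using ha0
  have h1 := congrArg (cnt P) hxy
  rw [yiso_cnt_mul P ha0 (pow_ne_zero _ hx), yiso_cnt_mul P (pow_ne_zero _ hσa)
    (pow_ne_zero _ hy), yiso_cnt_pow, yiso_cnt_pow, yiso_cnt_pow,
    yiso_cnt_comap hP hP0 _ ha0, ← hPQ] at h1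
  have h2 := congrArg (· % n) h1
  simp only [Nat.add_mul_mod_self_left] at h2
  rw [hcP, Nat.mul_mod, hcQ, mul_zero, Nat.zero_mod] at h2
  omega

theorem exists_moved (n : ℕ) (hn : 3 ≤ n) (k : Type) [Field k] [NumberField k]
    [IsCyclotomicExtension {n} ℚ k] :
    ∃ (P Q : Ideal (𝓞 k)) (σ : k ≃+* k), P.IsPrime ∧ Q.IsPrime ∧ P ≠ ⊥ ∧ Q ≠ ⊥ ∧ P ≠ Q ∧
      Q = P.comap (RingOfIntegers.mapRingEquiv σ) := by
  have hn0 : 0 < n := by omega
  have : NeZero n := ⟨by omega⟩
  have : IsGalois ℚ k := IsCyclotomicExtension.isGalois {n} ℚ k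
  obtain ⟨l, hl, hln, hmod⟩ := Nat.exists_prime_gt_modEq_one (k := n) n hn0.ne'
  have : Fact l.Prime := ⟨hl⟩
  have hdvd : n ∣ l - 1 := (Nat.modEq_iff_dvd' hl.one_lt.le).1 hmod.symm
  -- a primitive root of unity modulo `l`
  have hcard : Fintype.card (ZMod l)ˣ = l - 1 := ZMod.card_units l
  obtain ⟨g, hg⟩ := IsCyclic.exists_generator (α := (ZMod l)ˣ)
  have hgo : orderOf g = l - 1 := by
    rw [orderOf_eq_card_of_forall_mem_zpowers hg, Nat.card_eq_fintype_card, hcard]
  have hl1 : 0 < l - 1 := by have := hl.two_le; omega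
  set c0 : (ZMod l)ˣ := g ^ ((l - 1) / n) with hc0
  have hc0o : orderOf c0 = n := by
    rw [hc0, orderOf_pow_of_dvd, hgo, Nat.div_div_self hdvd hl1.ne']
    · exact (Nat.div_pos (Nat.le_of_dvd hl1 hdvd) hn0).ne'
    · rw [hgo]; exact Nat.div_dvd_of_dvd hdvd
  have hprim : IsPrimitiveRoot (c0 : ZMod l) n := by
    rw [IsPrimitiveRoot.coe_units_iff, ← hc0o]
    exact IsPrimitiveRoot.orderOf c0
  obtain ⟨c, hc⟩ := ZMod.intCast_surjective (c0 : ZMod l)
  have hlne : ((n : ℕ) : ZMod l) ≠ 0 := by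
    rw [Ne, ZMod.natCast_eq_zero_iff]
    intro h
    exact absurd (Nat.le_of_dvd hn0 h) (by omega)
  have hroot : (l : ℤ) ∣ (cyclotomic n ℤ).eval c := by
    rw [← ZMod.intCast_zmod_eq_zero_iff_dvd]
    have : NeZero ((n : ℕ) : ZMod l) := ⟨hlne⟩
    have h1 := (isRoot_cyclotomic_iff (n := n) (R := ZMod l) (μ := (c0 : ZMod l))).2 hprim
    rw [IsRoot.def] at h1
    have h2 : (cyclotomic n (ZMod l)).eval ((c : ℤ) : ZMod l) =
        (((cyclotomic n ℤ).eval c : ℤ) : ZMod l) := by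
      rw [← map_cyclotomic_int n (ZMod l)]
      have := Polynomial.eval_intCast_map (Int.castRingHom (ZMod l)) (cyclotomic n ℤ) c
      simpa using this
    rw [hc] at h2
    rw [← h2, h1]
  -- a prime above `l`
  have hlk : ¬ IsUnit ((l : ℕ) : 𝓞 k) := by
    intro h
    have h1 := h.map (Algebra.norm ℤ)
    rw [← map_natCast (algebraMap ℤ (𝓞 k)), Algebra.norm_algebraMap] at h1
    have h2 : IsUnit ((l : ℕ) : ℤ) := isUnit_pow_iff (Module.finrank_pos.ne') |>.1 h1
    have h3 := Int.isUnit_iff.1 h2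
    have := hl.two_le
    omega
  obtain ⟨P, hPmax, hlP⟩ := Ideal.exists_le_maximal (Ideal.span {((l : ℕ) : 𝓞 k)})
    (by rwa [Ne, Ideal.span_singleton_eq_top])
  have hP : P.IsPrime := hPmax.isPrime
  have hlmem : ((l : ℕ) : 𝓞 k) ∈ P := hlP (Ideal.mem_span_singleton_self _)
  have hP0 : P ≠ ⊥ := by
    rintro rfl
    rw [Ideal.mem_bot] at hlmem
    exact hl.ne_zero (by exact_mod_cast hlmem)
  -- some `c - μ` lies in `P`
  let ζ : 𝓞 k := (IsCyclotomicExtension.zeta_spec n ℚ k).toInteger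
  have hζ : IsPrimitiveRoot ζ n := (IsCyclotomicExtension.zeta_spec n ℚ k).toInteger_isPrimitiveRoot
  have hprod : ∏ μ ∈ primitiveRoots n (𝓞 k), ((c : 𝓞 k) - μ) ∈ P := by
    have h1 := cyclotomic_eq_prod_X_sub_primitiveRoots hζ
    have h2 : ∏ μ ∈ primitiveRoots n (𝓞 k), ((c : 𝓞 k) - μ) =
        (((cyclotomic n ℤ).eval c : ℤ) : 𝓞 k) := by
      have h3 : (cyclotomic n (𝓞 k)).eval ((c : ℤ) : 𝓞 k) =
          (((cyclotomic n ℤ).eval c : ℤ) : 𝓞 k) := by
        rw [← map_cyclotomic_int n (𝓞 k)]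
        have := Polynomial.eval_intCast_map (Int.castRingHom (𝓞 k)) (cyclotomic n ℤ) c
        simpa using this
      rw [← h3, h1, eval_prod]
      simp
    rw [h2]
    obtain ⟨d, hd⟩ := hroot
    rw [hd]
    push_cast
    exact Ideal.mul_mem_right _ _ hlmem
  obtain ⟨μ, hμ, hcμ⟩ := (hP.prod_mem_iff).1 hprod
  rw [mem_primitiveRoots hn0] at hμ
  have hμk : IsPrimitiveRoot (μ : k) n := hμ.map_of_injective RingOfIntegers.coe_injective
  -- the inversion
  have hconj : IsConjRoot ℚ (μ : k) (μ : k)⁻¹ := by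
    rw [IsConjRoot, ← cyclotomic_eq_minpoly_rat hμk hn0, ← cyclotomic_eq_minpoly_rat hμk.inv hn0]
  obtain ⟨σ', hσ'⟩ := isConjRoot_iff_exists_algEquiv.1 hconj
  let σ : k ≃+* k := σ'.toRingEquiv
  have hσμ : RingOfIntegers.mapRingEquiv σ μ * μ = 1 := by
    have h2 : (μ : k) ≠ 0 := hμk.ne_zero hn0.ne'
    have h0 : σ' (μ : k) = (μ : k)⁻¹ := by
      have := congrArg (fun z => z⁻¹) hσ'
      rwa [map_inv₀, inv_inv] at this
    apply RingOfIntegers.coe_injective
    rw [map_mul, map_one]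
    have h3 : algebraMap (𝓞 k) k (RingOfIntegers.mapRingEquiv σ μ) = (μ : k)⁻¹ := h0
    rw [h3]
    exact inv_mul_cancel₀ h2
  refine ⟨P, P.comap (RingOfIntegers.mapRingEquiv σ), σ, hP, Ideal.comap_isPrime _ _, hP0, ?_, ?_,
    rfl⟩
  · intro h
    have h1 : ((l : ℕ) : 𝓞 k) ∈ P.comap (RingOfIntegers.mapRingEquiv σ) := by
      rw [Ideal.mem_comap, map_natCast]
      exact hlmem
    rw [h, Ideal.mem_bot] at h1
    exact hl.ne_zero (by exact_mod_cast h1)
  · intro h
    have h1 : ((c : 𝓞 k) - μ) ∈ P.comap (RingOfIntegers.mapRingEquiv σ) := h ▸ hcμ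
    rw [Ideal.mem_comap, map_sub, map_intCast] at h1
    set ν := RingOfIntegers.mapRingEquiv σ μ with hν
    have h2 : (((c ^ 2 - 1 : ℤ)) : 𝓞 k) ∈ P := by
      have h3 : (((c ^ 2 - 1 : ℤ)) : 𝓞 k) = ((c : 𝓞 k) - μ) * c + ((c : 𝓞 k) - ν) * μ := by
        push_cast
        linear_combination hσμ
      rw [h3]
      exact add_mem (Ideal.mul_mem_right _ _ hcμ) (Ideal.mul_mem_right _ _ h1)
    have h4 : (l : ℤ) ∣ c ^ 2 - 1 := by
      by_contra hnd
      have hcop : IsCoprime (l : ℤ) (c ^ 2 - 1) :=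
        (Prime.coprime_iff_not_dvd (Nat.prime_iff_prime_int.1 hl)).2 hnd
      obtain ⟨u, v, huv⟩ := hcop
      apply hP.ne_top
      rw [Ideal.eq_top_iff_one]
      have h5 : (1 : 𝓞 k) = (u : 𝓞 k) * ((l : ℕ) : 𝓞 k) + (v : 𝓞 k) * (((c ^ 2 - 1 : ℤ)) : 𝓞 k) := by
        have := congrArg (fun z : ℤ => (z : 𝓞 k)) huv
        push_cast at this ⊢
        exact this.symm
      rw [h5]
      exact add_mem (Ideal.mul_mem_left _ _ hlmem) (Ideal.mul_mem_left _ _ h2)
    rw [← ZMod.intCast_zmod_eq_zero_iff_dvd] at h4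
    push_cast at h4
    rw [hc, sub_eq_zero] at h4
    have h6 := Nat.le_of_dvd (by norm_num) (hprim.dvd_of_pow_eq_one 2 h4)
    omega

end Pool.Agent.Work.MuY
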