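import Pool.Agent.Work.MP_a4986b_nt.YKumQ
import Pool.Agent.Work.MP_a4986b_nt.YCnt
import Pool.Agent.Work.MP_a4986b_nt.YIso
import Pool.Agent.Work.MP_a4986b_nt.YCountA
import Pool.Agent.Work.MP_a4986b_nt.SpDef

set_option autoImplicit false
set_option maxHeartbeats 400000
set_option linter.unusedSectionVars false

/-! # Many Kummer extensions of degree `n = q ^ j` of the `n`-th cyclotomic field -/

namespace Pool.Agent.Work.MuY

open NumberField Module
open Pool.Agent.Work.MuB Pool.Agent.Work.MuS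

/-- representatives of classes with at most `M` elements -/
theorem exists_reps {ι : Type} [Fintype ι] (r : Setoid ι) (M N : ℕ) (hM0 : 0 < M)
    (hM : ∀ i, Nat.card {j // r i j} ≤ M) (h : N * M ≤ Fintype.card ι) :
    ∃ f : Fin N → ι, ∀ i j, r (f i) (f j) → i = j := by
  classical
  have hcard : Fintype.card ι ≤ Fintype.card (Quotient r) * M := by
    have h1 : Fintype.card ι = ∑ x : Quotient r, Fintype.card {i // Quotient.mk r i = x} := by
      rw [← Fintype.card_sigma]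
      exact Fintype.card_congr (Equiv.sigmaFiberEquiv (Quotient.mk r)).symm
    rw [h1, ← smul_eq_mul, ← Finset.card_univ (α := Quotient r)]
    refine Finset.sum_le_card_nsmul _ _ _ fun x _ => ?_
    obtain ⟨i, rfl⟩ := Quotient.exists_rep x
    refine le_trans (le_of_eq ?_) (hM i)
    rw [← Nat.card_eq_fintype_card]
    refine Nat.card_congr (Equiv.subtypeEquivRight fun j => ?_)
    rw [Quotient.eq]
    exact ⟨fun h => Setoid.symm h, fun h => Setoid.symm h⟩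
  have hN : N ≤ Fintype.card (Quotient r) := Nat.le_of_mul_le_mul_right (h.trans hcard) hM0
  obtain ⟨g⟩ : Nonempty (Fin N ↪ Quotient r) := by
    apply Function.Embedding.nonempty_of_card_le
    rw [Fintype.card_fin]
    exact hN
  refine ⟨fun i => (g i).out, fun i j hij => g.injective ?_⟩
  rw [← Quotient.out_eq (g i), ← Quotient.out_eq (g j)]
  exact Quotient.sound hij

theorem finite_ringEquiv (k : Type) [Field k] [NumberField k] : Finite (k ≃+* k) := by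
  have h1 : Finite (k →ₐ[ℚ] k) := inferInstance
  refine Finite.of_injective (fun σ : k ≃+* k => (σ : k →+* k).toRatAlgHom) ?_
  intro σ τ h
  ext x
  exact congrArg (fun f : k →ₐ[ℚ] k => f x) h

/-- `p` generates a prime ideal -/
theorem span_prime {n p : ℕ} (hn : n ≠ 0) (hp : p.Prime) (hpn : ¬ p ∣ n)
    (hprim : orderOf (p : ZMod n) = Nat.totient n)
    (k : Type) [Field k] [NumberField k] [IsCyclotomicExtension {n} ℚ k] :
    (Ideal.span {(p : 𝓞 k)}).IsPrime := by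
  have : NeZero n := ⟨hn⟩
  have hfk : finrank ℚ k = Nat.totient n := IsCyclotomicExtension.Rat.finrank n k
  obtain ⟨P, ⟨hP, hpP⟩, -⟩ := existsUnique_of_inertiaDeg_ge (K := k) hp fun P hP hpP => by
    rw [cycn_inertiaDeg hn hp hpn k P hP hpP, hprim, hfk]
  have h1 := eq_span_of_inertiaDeg_ge hp P hP hpP (by
    rw [cycn_inertiaDeg hn hp hpn k P hP hpP, hprim, hfk])
  rw [← h1]
  exact hP

/-- `a` or `z a` is not a `q`-th power modulo `p` -/
theorem exists_nonpower {q p : ℕ} (hq : q.Prime) (hq2 : q ≠ 2) (hp : p.Prime)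
    (hprim : orderOf (p : ZMod (q ^ 2)) = q * (q - 1)) {j : ℕ} (hj : j ≠ 0)
    (k : Type) [Field k] [NumberField k] [IsCyclotomicExtension {q ^ j} ℚ k]
    (z : 𝓞 k) (hz : IsPrimitiveRoot z (q ^ j)) (a : 𝓞 k) (ha : ¬ (p : 𝓞 k) ∣ a) :
    ∃ a' : 𝓞 k, (a' = a ∨ a' = z * a) ∧ ∀ b : 𝓞 k, ¬ (p : 𝓞 k) ∣ b ^ q - a' := by
  by_contra hcon
  push Not at hcon
  obtain ⟨x, hx⟩ := hcon a (Or.inl rfl)
  obtain ⟨y, hy⟩ := hcon (z * a) (Or.inr rfl)
  have hpq := exp_ne hq hq2 hp hprim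
  have hn : q ^ j ≠ 0 := (pow_pos hq.pos _).ne'
  have hpn : ¬ p ∣ q ^ j := fun h5 =>
    hpq ((Nat.prime_dvd_prime_iff_eq hp hq).1 (hp.dvd_of_dvd_pow h5))
  have hprime := span_prime hn hp hpn (exp_order hq hq2 hp hprim hj) k
  have hp0 : (p : 𝓞 k) ≠ 0 := by exact_mod_cast hp.ne_zero
  have hmax : (Ideal.span {(p : 𝓞 k)}).IsMaximal := hprime.isMaximal (by simpa using hp0)
  have hxp : x ∉ Ideal.span {(p : 𝓞 k)} := by
    intro h
    apply ha
    rw [Ideal.mem_span_singleton] at h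
    have h1 : (p : 𝓞 k) ∣ x ^ q := dvd_pow h hq.ne_zero
    have h2 := dvd_sub h1 hx
    rwa [sub_sub_cancel] at h2
  obtain ⟨x', hx'⟩ := hmax.exists_inv hxp
  obtain ⟨w, hw, hw1⟩ := hx'
  rw [Ideal.mem_span_singleton] at hw
  -- `x' x = 1` modulo `p`
  have h1 : (p : 𝓞 k) ∣ x' * x - 1 := by
    have h2 : x' * x - 1 = -w := by rw [← hw1]; ring
    rw [h2]
    exact (dvd_neg).2 hw
  have h2 : (p : 𝓞 k) ∣ (x' * x) ^ q - 1 := by
    have h3 := h1.trans (sub_dvd_pow_sub_pow (x' * x) 1 q)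
    rwa [one_pow] at h3
  have key := exp_not_pow hq hq2 hp hprim hj k z hz 1 (by
    intro h
    have := Int.natAbs_dvd_natAbs.2 h
    simp only [Int.natAbs_natCast, Int.natAbs_one] at this
    exact hp.one_lt.ne' (Nat.dvd_one.1 this)) (y * x')
  apply key
  have h4 : (y * x') ^ q - z * ((1 : ℤ) : 𝓞 k) =
      (y ^ q - z * a) * x' ^ q - z * x' ^ q * (x ^ q - a) + z * ((x' * x) ^ q - 1) := by
    push_cast
    ring
  rw [h4]
  exact dvd_add (dvd_sub (Dvd.dvd.mul_right hy _) (Dvd.dvd.mul_left hx _)) (Dvd.dvd.mul_left h2 _)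

open Polynomial in
theorem finrank_root (k : Type) [Field k] [NumberField k] {n : ℕ} (hn : n ≠ 0) (a : k)
    (hirr : Irreducible (X ^ n - C a)) (F : Type) [Field F] [NumberField F] [Algebra k F] (t : F)
    (ht : t ^ n = algebraMap k F a) (htop : IntermediateField.adjoin k {t} = ⊤) :
    finrank k F = n := by
  have hmin : minpoly k t = X ^ n - C a := by
    refine (minpoly.eq_of_irreducible_of_monic hirr ?_ (monic_X_pow_sub_C _ hn)).symm
    rw [map_sub, map_pow, aeval_X, aeval_C, ht, sub_self]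
  have h1 := IntermediateField.adjoin.finrank (K := k) (x := t) (IsIntegral.of_finite k t)
  rw [htop, hmin, natDegree_X_pow_sub_C] at h1
  rw [← h1]
  exact IntermediateField.finrank_top'.symm

/-- many fields -/
theorem many_pow_aux (q j : ℕ) (hq : q.Prime) (hq2 : q ≠ 2) (hj : j ≠ 0) (k : Type) [Field k]
    [NumberField k] [IsCyclotomicExtension {q ^ j} ℚ k] (z : 𝓞 k) (hz : IsPrimitiveRoot z (q ^ j)) :
    ∃ c : ℝ, 0 < c ∧
    ∀ p : ℕ, p.Prime → p ≠ 2 → orderOf (p : ZMod (q ^ 2)) = q * (q - 1) →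
      ∀ N : ℕ, (N : ℝ) ^ (q ^ j - 1) ≤ c * (p : ℝ) ^ (2 * Nat.totient (q ^ j)) →
        ManyFields N (fun F _ _ => finrank ℚ F = q ^ j * Nat.totient (q ^ j) ∧ ¬ IsGalois ℚ F ∧
          ((∃! P : Ideal (𝓞 F), P.IsPrime ∧ (p : 𝓞 F) ∈ P) ∧
            ¬ p ∣ Nat.card (ClassGroup (𝓞 F)) ∧ Extensions p F)) := by
  have hq3 : 3 ≤ q := by
    have := hq.two_le
    omega
  have hn3 : 3 ≤ q ^ j := by
    calc 3 ≤ q := hq3
      _ = q ^ 1 := (pow_one q).symm
      _ ≤ q ^ j := Nat.pow_le_pow_right hq.pos (by omega)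
  have hne : NeZero (q ^ j) := ⟨by omega⟩
  obtain ⟨c0, hc0, h⟩ := kummer_pow q j hq hq2 hj k
  obtain ⟨P, Q, σ, hP, hQ, hP0, hQ0, hPQ, hσ⟩ := exists_moved (q ^ j) hn3 k
  obtain ⟨c1, hc1, hmany⟩ := many_elements k (q ^ j) (by omega) P Q hP hQ hP0 hQ0 hPQ
  have hfinσ : Finite (k ≃+* k) := finite_ringEquiv k
  obtain ⟨M, hM⟩ : ∃ M : ℕ, M = Nat.card (k ≃+* k) * (q ^ j + 1) := ⟨_, rfl⟩
  have hM0 : 0 < M := by rw [hM]; exact Nat.mul_pos Nat.card_pos (by omega)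
  have hMR : (0 : ℝ) < M := by exact_mod_cast hM0
  obtain ⟨c2, hc2⟩ : ∃ c2 : ℝ, c2 = min (1 / 2) c0 := ⟨_, rfl⟩
  have hc2pos : 0 < c2 := by rw [hc2]; exact lt_min (by norm_num) hc0
  refine ⟨c1 ^ (q ^ j - 1) * c2 / (M : ℝ) ^ (q ^ j - 1), by positivity, ?_⟩
  intro p hp hp2 hprim N hN
  have hp1 : (1 : ℝ) ≤ p := by exact_mod_cast hp.one_lt.le
  have hpq := exp_ne hq hq2 hp hprim
  have hpn : ¬ p ∣ q ^ j := fun h5 =>
    hpq ((Nat.prime_dvd_prime_iff_eq hp hq).1 (hp.dvd_of_dvd_pow h5))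
  have hprimj := exp_order hq hq2 hp hprim hj
  have hfk : finrank ℚ k = Nat.totient (q ^ j) := IsCyclotomicExtension.Rat.finrank (q ^ j) k
  have hphi : 0 < Nat.totient (q ^ j) := Nat.totient_pos.2 (by omega)
  have hn1 : q ^ j - 1 ≠ 0 := by omega
  -- the bound for the norms
  obtain ⟨Y, hY⟩ : ∃ Y : ℝ, Y = c2 * (p : ℝ) ^ (2 * Nat.totient (q ^ j)) := ⟨_, rfl⟩
  have hY0 : 0 < Y := by rw [hY]; positivity
  obtain ⟨X, hX⟩ : ∃ X : ℝ, X = Y ^ (((q ^ j - 1 : ℕ) : ℝ)⁻¹) := ⟨_, rfl⟩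
  have hX0 : 0 < X := by rw [hX]; exact Real.rpow_pos_of_pos hY0 _
  have hXn : X ^ (q ^ j - 1) = Y := by
    rw [hX, ← Real.rpow_natCast, ← Real.rpow_mul hY0.le, inv_mul_cancel₀ (by exact_mod_cast hn1),
      Real.rpow_one]
  have hNX : ((N * M : ℕ) : ℝ) ≤ c1 * X := by
    have h1 : ((N * M : ℕ) : ℝ) ^ (q ^ j - 1) ≤ (c1 * X) ^ (q ^ j - 1) := by
      push_cast
      rw [mul_pow, mul_pow, hXn, hY]
      calc (N : ℝ) ^ (q ^ j - 1) * (M : ℝ) ^ (q ^ j - 1)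
          ≤ c1 ^ (q ^ j - 1) * c2 / (M : ℝ) ^ (q ^ j - 1) *
            (p : ℝ) ^ (2 * Nat.totient (q ^ j)) * (M : ℝ) ^ (q ^ j - 1) := by gcongr
        _ = c1 ^ (q ^ j - 1) * (c2 * (p : ℝ) ^ (2 * Nat.totient (q ^ j))) := by field_simp
    exact (pow_le_pow_iff_left₀ (by positivity) (by positivity) hn1).1 h1
  obtain ⟨a, ha1, ha2⟩ := hmany X (N * M) hNX
  have hnorm : ∀ i, |(Algebra.norm ℤ (a i) : ℝ)| ^ (q ^ j - 1) ≤ Y := by
    intro i
    rw [← hXn]
    exact pow_le_pow_left₀ (abs_nonneg _) (ha1 i).2.1 _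
  -- `p` does not divide `a i`
  have hpa : ∀ i, ¬ (p : 𝓞 k) ∣ a i := by
    intro i hdvd
    have h1 := map_dvd (Algebra.norm ℤ) hdvd
    have h2 := Algebra.norm_algebraMap (R := ℤ) (S := 𝓞 k) (p : ℤ)
    rw [show (algebraMap ℤ (𝓞 k)) (p : ℤ) = (p : 𝓞 k) by simp] at h2
    rw [h2, RingOfIntegers.rank, hfk] at h1
    have h3 : Algebra.norm ℤ (a i) ≠ 0 := (Algebra.norm_ne_zero_iff).2 (ha1 i).1
    have h4 := Int.le_of_dvd (abs_pos.2 h3) ((dvd_abs _ _).2 h1)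
    have h5 : (p : ℝ) ^ Nat.totient (q ^ j) ≤ |(Algebra.norm ℤ (a i) : ℝ)| := by exact_mod_cast h4
    have h6 : (p : ℝ) ^ (2 * Nat.totient (q ^ j)) ≤ Y := by
      calc (p : ℝ) ^ (2 * Nat.totient (q ^ j)) = ((p : ℝ) ^ Nat.totient (q ^ j)) ^ 2 := by
            rw [← pow_mul, mul_comm]
        _ ≤ ((p : ℝ) ^ Nat.totient (q ^ j)) ^ (q ^ j - 1) :=
            pow_le_pow_right₀ (one_le_pow₀ hp1) (by omega)
        _ ≤ |(Algebra.norm ℤ (a i) : ℝ)| ^ (q ^ j - 1) := pow_le_pow_left₀ (by positivity) h5 _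
        _ ≤ Y := hnorm i
    have h7 : Y < (p : ℝ) ^ (2 * Nat.totient (q ^ j)) := by
      have h8 : c2 ≤ 1 / 2 := by rw [hc2]; exact min_le_left _ _
      have h9 : (0 : ℝ) < (p : ℝ) ^ (2 * Nat.totient (q ^ j)) := by positivity
      rw [hY]
      nlinarith
    linarith
  choose a' ha'1 ha'2 using fun i => exists_nonpower hq hq2 hp hprim hj k z hz (a i) (hpa i)
  have hzu : IsUnit z := IsUnit.of_pow_eq_one hz.pow_eq_one (by omega)
  have hspan : ∀ i, Ideal.span {a' i} = Ideal.span {a i} := by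
    intro i
    rcases ha'1 i with h1 | h1
    · rw [h1]
    · rw [h1]
      exact Ideal.span_singleton_mul_left_unit hzu (a i)
  have hnorm' : ∀ i, |(Algebra.norm ℤ (a' i) : ℝ)| = |(Algebra.norm ℤ (a i) : ℝ)| := by
    intro i
    have h1 : Associated (a' i) (a i) := Ideal.span_singleton_eq_span_singleton.1 (hspan i)
    have h2 : Associated (Algebra.norm ℤ (a' i)) (Algebra.norm ℤ (a i)) := h1.map (Algebra.norm ℤ)
    have h3 := Int.associated_iff_natAbs.1 h2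
    have h4 : |Algebra.norm ℤ (a' i)| = |Algebra.norm ℤ (a i)| := by
      rw [Int.abs_eq_natAbs, Int.abs_eq_natAbs, h3]
    exact_mod_cast h4
  have hcnt : ∀ (R : Ideal (𝓞 k)) i, cnt R (a' i) = cnt R (a i) := by
    intro R i
    unfold cnt
    rw [hspan i]
  have hirr : ∀ i, Irreducible (Polynomial.X ^ (q ^ j) - Polynomial.C ((a' i : 𝓞 k) : k)) := by
    intro i
    apply X_pow_sub_C_irreducible_of_prime_pow hq hq2
    intro x hx
    have hxint : IsIntegral ℤ x := by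
      refine IsIntegral.of_pow hq.pos ?_
      rw [hx]
      exact RingOfIntegers.isIntegral_coe _
    let x' : 𝓞 k := ⟨x, hxint⟩
    have h0 : x' ^ q = a' i := RingOfIntegers.ext hx
    apply ha'2 i x'
    rw [h0, sub_self]
    exact dvd_zero _
  choose F iF iN iA t ht htop using fun i => exists_root_field k (by omega : q ^ j ≠ 0) _ (hirr i)
  have hT : ∀ i, (∃! P : Ideal (𝓞 (F i)), P.IsPrime ∧ (p : 𝓞 (F i)) ∈ P) ∧
      ¬ p ∣ Nat.card (ClassGroup (𝓞 (F i))) ∧ Extensions p (F i) := by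
    intro i
    refine h p hp hp2 hprimj (a' i) (ha'2 i) ?_ (F i) (t i) (ht i) (htop i)
    have hlog0 : 0 ≤ Real.log p := Real.log_nonneg hp1
    have hL : (1 : ℝ) ≤ (1 + Real.log p) ^ (Nat.totient (q ^ j) ^ 2 - 2 * (q ^ j - 1)) :=
      one_le_pow₀ (by linarith)
    rw [hnorm' i]
    calc |(Algebra.norm ℤ (a i) : ℝ)| ^ (q ^ j - 1) ≤ Y := hnorm i
      _ ≤ c0 * (p : ℝ) ^ (2 * Nat.totient (q ^ j)) := by
          rw [hY, hc2]
          exact mul_le_mul_of_nonneg_right (min_le_right _ _) (by positivity)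
      _ ≤ _ := le_mul_of_one_le_right (by positivity) hL
  -- isomorphism classes
  let r : Setoid (Fin (N * M)) :=
    { r := fun i i' => Nonempty (F i ≃+* F i')
      iseqv := ⟨fun i => ⟨RingEquiv.refl _⟩, fun ⟨e⟩ => ⟨e.symm⟩, fun ⟨e⟩ ⟨e'⟩ => ⟨e.trans e'⟩⟩ }
  have hr : ∀ i, Nat.card {i' // r i i'} ≤ M := by
    intro i
    have h1 : ∀ i' : {i' // r i i'}, ∃ (τ : k ≃+* k) (e : ℕ) (x y : 𝓞 k), e < q ^ j + 1 ∧
        x ≠ 0 ∧ y ≠ 0 ∧ a' i'.1 * x ^ (q ^ j) =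
          (RingOfIntegers.mapRingEquiv τ (a' i)) ^ e * y ^ (q ^ j) := by
      rintro ⟨i', ⟨φ⟩⟩
      obtain ⟨τ, -, e, x, y, he, -, hx, hy, hxy⟩ := kum_iso (by omega : 2 ≤ q ^ j) k (a' i) (a' i')
        (hirr i) (hirr i') (F i) (F i') (t i) (t i') (ht i) (htop i) (ht i') (htop i') φ
      exact ⟨τ, e, x, y, he, hx, hy, hxy⟩
    choose τ e x y he hx hy hxy using h1
    have hcard : Nat.card ((k ≃+* k) × Fin (q ^ j + 1)) = M := by
      rw [Nat.card_prod, hM, Nat.card_eq_fintype_card (α := Fin (q ^ j + 1)), Fintype.card_fin]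
    refine le_trans (Nat.card_le_card_of_injective
      (fun i' => (τ i', (⟨e i', he i'⟩ : Fin (q ^ j + 1)))) ?_) hcard.le
    intro i1 i2 h12
    have hτ : τ i1 = τ i2 := congrArg Prod.fst h12
    have he' : e i1 = e i2 :=
      congrArg (fun u : (k ≃+* k) × Fin (q ^ j + 1) => (u.2 : ℕ)) h12
    apply Subtype.ext
    apply ha2
    refine ⟨Ideal.span {x i1 * y i2}, Ideal.span {x i2 * y i1}, ?_, ?_, ?_⟩
    · rw [Ne, Ideal.span_singleton_eq_bot]
      exact mul_ne_zero (hx i1) (hy i2)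
    · rw [Ne, Ideal.span_singleton_eq_bot]
      exact mul_ne_zero (hx i2) (hy i1)
    · rw [← hspan, ← hspan, Ideal.span_singleton_pow, Ideal.span_singleton_pow,
        Ideal.span_singleton_mul_span_singleton, Ideal.span_singleton_mul_span_singleton]
      congr 2
      have e1 := hxy i1
      have e2 := hxy i2
      rw [← hτ, ← he'] at e2
      calc a' i1 * (x i1 * y i2) ^ (q ^ j) = (a' i1 * x i1 ^ (q ^ j)) * y i2 ^ (q ^ j) := by ring
        _ = (a' i2 * x i2 ^ (q ^ j)) * y i1 ^ (q ^ j) := by rw [e1, e2]; ring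
        _ = a' i2 * (x i2 * y i1) ^ (q ^ j) := by ring
  obtain ⟨f, hf⟩ := exists_reps r M N hM0 hr (by rw [Fintype.card_fin])
  refine ⟨fun i => F (f i), fun i => iF (f i), fun i => iN (f i), fun i i' hii => hf i i' hii, ?_⟩
  intro i
  refine ⟨?_, ?_, hT (f i)⟩
  · have h1 := finrank_root k (by omega : q ^ j ≠ 0) _ (hirr (f i)) (F (f i)) (t (f i)) (ht (f i))
      (htop (f i))
    have h2 : finrank ℚ (F (f i)) = finrank ℚ k * finrank k (F (f i)) :=
      (Module.finrank_mul_finrank ℚ k (F (f i))).symm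
    rw [h1, hfk, mul_comm] at h2
    exact h2
  · exact kum_not_galois (by omega) k (a' (f i)) (hirr (f i)) (F (f i)) (t (f i)) (ht (f i))
      (htop (f i)) σ P Q hP hQ hP0 hσ (by rw [hcnt]; exact (ha1 (f i)).2.2.1)
      (by rw [hcnt]; exact (ha1 (f i)).2.2.2)

/-- many fields -/
theorem many_pow2 (q j : ℕ) (hq : q.Prime) (hq2 : q ≠ 2) (hj : j ≠ 0) : ∃ c : ℝ, 0 < c ∧
    ∀ p : ℕ, p.Prime → p ≠ 2 → orderOf (p : ZMod (q ^ 2)) = q * (q - 1) →
      ∀ N : ℕ, (N : ℝ) ^ (q ^ j - 1) ≤ c * (p : ℝ) ^ (2 * Nat.totient (q ^ j)) →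
        ManyFields N (fun F _ _ => finrank ℚ F = q ^ j * Nat.totient (q ^ j) ∧ ¬ IsGalois ℚ F ∧
          ((∃! P : Ideal (𝓞 F), P.IsPrime ∧ (p : 𝓞 F) ∈ P) ∧
            ¬ p ∣ Nat.card (ClassGroup (𝓞 F)) ∧ Extensions p F)) := by
  have hn : 0 < q ^ j := pow_pos hq.pos _
  have hne : NeZero (q ^ j) := ⟨hn.ne'⟩
  have hcyc : IsCyclotomicExtension {q ^ j} ℚ (CyclotomicField (q ^ j) ℚ) :=
    CyclotomicField.isCyclotomicExtension (q ^ j) ℚ
  have hnf : NumberField (CyclotomicField (q ^ j) ℚ) :=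
    IsCyclotomicExtension.numberField {q ^ j} ℚ _
  exact many_pow_aux q j hq hq2 hj (CyclotomicField (q ^ j) ℚ) _
    (IsCyclotomicExtension.zeta_spec (q ^ j) ℚ
      (CyclotomicField (q ^ j) ℚ)).toInteger_isPrimitiveRoot

end Pool.Agent.Work.MuY
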