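import Pool.Agent.Work.MP_a4986b_nt.Defs2

set_option autoImplicit false
set_option maxHeartbeats 400000

/-! # Artin's inequality for the units of a complex cubic field -/

namespace Pool.Agent.Work.Mu22

open NumberField Module Polynomial
open scoped Pointwise nonZeroDivisors ComplexConjugate

/-- the real inequality behind Artin's inequality -/
theorem artin_real {x r : ℝ} (hx : 0 < x) (hx1 : x ≤ 1) :
    4 * (x⁻¹ - r ^ 2) * (x ^ 2 - 2 * x * r + x⁻¹) ^ 2 ≤ 4 * x⁻¹ ^ 3 + 24 := by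
  set ε := x⁻¹ with hε
  have hxε : x * ε = 1 := mul_inv_cancel₀ hx.ne'
  have hε0 : 0 < ε := inv_pos.mpr hx
  set w := r * ε + r * x ^ 2 + 2 - 2 * r ^ 2 * x with hw
  have key : 4 * (ε - r ^ 2) * (x ^ 2 - 2 * x * r + ε) ^ 2 =
      4 * (ε ^ 3 + 2 + x ^ 3 + 4 - 4 * r ^ 2 * x - w ^ 2) := by
    have hinv : ε = 1 / x := by rw [hε]; ring
    rw [hw, hinv]
    field_simp
    ring
  rw [key]
  have hy0 : 0 < x ^ 3 := by positivity
  have hy1 : x ^ 3 ≤ 1 := pow_le_one₀ hx.le hx1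
  have main : x ^ 3 ≤ 4 * r ^ 2 * x + w ^ 2 := by
    rcases le_or_gt (x ^ 2) (4 * r ^ 2) with h | h
    · have : x ^ 3 ≤ 4 * r ^ 2 * x := by
        have := mul_le_mul_of_nonneg_right h hx.le
        nlinarith
      nlinarith [sq_nonneg w]
    · rcases le_or_gt 0 r with hr0 | hr0
      · have h1 : 2 * r ^ 2 * x ≤ 1 / 2 := by nlinarith
        have h2 : 3 / 2 ≤ w := by
          have h3 : 0 ≤ r * ε := mul_nonneg hr0 hε0.le
          have h4 : 0 ≤ r * x ^ 2 := by positivity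
          rw [hw]; linarith
        nlinarith [mul_nonneg (sq_nonneg r) hx.le]
      · set e := - r * ε with he
        have hre : r = - (e * x) := by
          rw [he]; linear_combination (-r) * hxε
        have he0 : 0 < e := by rw [he]; nlinarith
        have he1 : e < 1 / 2 := by
          rw [hre] at h
          by_contra h0
          push Not at h0
          have : 1 / 4 ≤ e ^ 2 := by nlinarith
          nlinarith [mul_pos hx hx]
        set y := x ^ 3 with hy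
        have hwe : w = 2 - e - e * y - 2 * e ^ 2 * y := by
          rw [hw, hre, hy]
          linear_combination (-e) * hxε
        have h4 : 4 * r ^ 2 * x = 4 * e ^ 2 * y := by
          rw [hre, hy]; ring
        rw [h4]
        have h5 : 2 - 2 * e - 2 * e ^ 2 ≤ w := by
          rw [hwe]
          nlinarith [mul_nonneg he0.le (sub_nonneg.mpr hy1), mul_nonneg (sq_nonneg e) (sub_nonneg.mpr hy1)]
        have h6 : 0 ≤ 2 - 2 * e - 2 * e ^ 2 := by nlinarith
        have h7 : (2 - 2 * e - 2 * e ^ 2) ^ 2 ≤ w ^ 2 := pow_le_pow_left₀ h6 h5 2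
        have h8 : 1 ≤ 4 * e ^ 2 + (2 - 2 * e - 2 * e ^ 2) ^ 2 := by
          nlinarith [sq_nonneg (2 * e - 1), sq_nonneg (e * (2 * e - 1)), sq_nonneg (2*e^2 + 2 * e - 1)]
        have h9 : y * (2 - 2 * e - 2 * e ^ 2) ^ 2 ≤ (2 - 2 * e - 2 * e ^ 2) ^ 2 := by
          nlinarith [sq_nonneg (2 - 2 * e - 2 * e ^ 2)]
        nlinarith
  linarith

variable {K : Type*} [Field K] [NumberField K]

/-- a unit of `ℤ` is `1` or `-1`, seen in `𝓞 K` -/
theorem unit_of_rat (u : (𝓞 K)ˣ) (q : ℚ) (h : ((u : 𝓞 K) : K) = algebraMap ℚ K q) :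
    u = 1 ∨ u = -1 := by
  have hint : IsIntegral ℤ q := by
    have h1 : IsIntegral ℤ (algebraMap ℚ K q) := h ▸ RingOfIntegers.isIntegral_coe (u : 𝓞 K)
    exact (isIntegral_algebraMap_iff (algebraMap ℚ K).injective).mp h1
  obtain ⟨a, ha⟩ := IsIntegrallyClosed.isIntegral_iff.mp hint
  have h1 : (u : 𝓞 K) = algebraMap ℤ (𝓞 K) a := by
    apply RingOfIntegers.coe_injective
    refine h.trans ?_
    rw [← ha]
    simp
  have h2 : IsUnit (Algebra.norm ℤ (u : 𝓞 K)) := u.isUnit.map (Algebra.norm ℤ (S := 𝓞 K))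
  rw [h1, Algebra.norm_algebraMap, RingOfIntegers.rank] at h2
  have h3 : IsUnit a := (isUnit_pow_iff finrank_pos.ne').mp h2
  rcases Int.isUnit_iff.mp h3 with h4 | h4
  · left
    apply Units.ext
    rw [h1, h4]; simp
  · right
    apply Units.ext
    rw [h1, h4]; simp

/-- in a cubic field a unit different from `1` and `-1` takes a non-real value -/
theorem unit_im_ne (h3 : finrank ℚ K = 3) (ψ : K →+* ℂ)
    (hψ : ¬ ComplexEmbedding.IsReal ψ) (u : (𝓞 K)ˣ) (h1 : u ≠ 1) (h2 : u ≠ -1) :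
    conj (ψ (u : 𝓞 K)) ≠ ψ (u : 𝓞 K) := by
  intro h
  set v : K := ((u : 𝓞 K) : K) with hv
  have hint : IsIntegral ℚ v := IsIntegral.of_finite ℚ v
  have hdvd : (minpoly ℚ v).natDegree ∣ 3 := h3 ▸ minpoly.degree_dvd hint
  rcases (Nat.dvd_prime Nat.prime_three).mp hdvd with hd | hd
  · have h4 : v ∈ (algebraMap ℚ K).range := minpoly.natDegree_eq_one_iff.mp hd
    obtain ⟨q, hq⟩ := h4
    rcases unit_of_rat u q hq.symm with h5 | h5
    · exact h1 h5
    · exact h2 h5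
  · have h4 : IntermediateField.adjoin ℚ {v} = ⊤ := by
      rw [Field.primitive_element_iff_minpoly_natDegree_eq, hd, h3]
    have h5 : Algebra.adjoin ℚ {v} = ⊤ := by
      have h := IntermediateField.adjoin_simple_toSubalgebra_of_isAlgebraic hint.isAlgebraic
      rw [← h, h4]
      rfl
    apply hψ
    rw [ComplexEmbedding.isReal_iff]
    have h6 : (ComplexEmbedding.conjugate ψ).toRatAlgHom = ψ.toRatAlgHom := by
      apply AlgHom.ext_of_adjoin_eq_top h5
      intro x hx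
      rw [Set.mem_singleton_iff] at hx
      rw [hx]
      exact h
    ext x
    exact congrArg (fun f : K →ₐ[ℚ] ℂ => f x) h6

/-- the three embeddings of a complex cubic field -/
theorem exists_equiv (h3 : finrank ℚ K = 3) (φ : K →+* ℝ) (ψ : K →+* ℂ)
    (hψ : ¬ ComplexEmbedding.IsReal ψ) : ∃ e : Fin 3 ≃ (K →ₐ[ℚ] ℂ),
      (∀ x, e 0 x = φ x) ∧ (∀ x, e 1 x = ψ x) ∧ (∀ x, e 2 x = conj (ψ x)) := by
  let f : Fin 3 → (K →ₐ[ℚ] ℂ) := ![(Complex.ofRealHom.comp φ).toRatAlgHom, ψ.toRatAlgHom,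
    (ComplexEmbedding.conjugate ψ).toRatAlgHom]
  have f0 : ∀ x, f 0 x = φ x := fun x => rfl
  have f1 : ∀ x, f 1 x = ψ x := fun x => rfl
  have f2 : ∀ x, f 2 x = conj (ψ x) := fun x => rfl
  obtain ⟨x, hx⟩ : ∃ x, conj (ψ x) ≠ ψ x := by
    by_contra h
    push Not at h
    apply hψ
    rw [ComplexEmbedding.isReal_iff]
    ext x
    exact h x
  have h01 : f 0 ≠ f 1 := by
    intro h
    apply hx
    rw [← f1, ← h, f0, Complex.conj_ofReal]
  have h02 : f 0 ≠ f 2 := by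
    intro h
    apply hx
    have h4 : conj (conj (ψ x)) = conj (ψ x) := by
      rw [← f2, ← h, f0, Complex.conj_ofReal]
    rw [Complex.conj_conj] at h4
    exact h4.symm
  have h12 : f 1 ≠ f 2 := by
    intro h
    apply hx
    rw [← f2, ← h, f1]
  have hinj : Function.Injective f := by
    intro i j hij
    fin_cases i <;> fin_cases j
    · rfl
    · exact absurd hij h01
    · exact absurd hij h02
    · exact absurd hij.symm h01
    · rfl
    · exact absurd hij h12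
    · exact absurd hij.symm h02
    · exact absurd hij.symm h12
    · rfl
  have hcard : Fintype.card (Fin 3) = Fintype.card (K →ₐ[ℚ] ℂ) := by
    rw [AlgHom.card, h3, Fintype.card_fin]
  have hbij : Function.Bijective f := (Fintype.bijective_iff_injective_and_card f).mpr ⟨hinj, hcard⟩
  exact ⟨Equiv.ofBijective f hbij, f0, f1, f2⟩

/-- the discriminant of `1, v, v ^ 2` -/
theorem discr_family (h3 : finrank ℚ K = 3) (φ : K →+* ℝ) (ψ : K →+* ℂ)
    (hψ : ¬ ComplexEmbedding.IsReal ψ) (v : K) :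
    ((Algebra.discr ℚ (fun i : Fin 3 => v ^ (i : ℕ)) : ℚ) : ℂ) =
      ((φ v - ψ v) * (φ v - conj (ψ v)) * (ψ v - conj (ψ v))) ^ 2 := by
  obtain ⟨e, e0, e1, e2⟩ := exists_equiv h3 φ ψ hψ
  have h := Algebra.discr_eq_det_embeddingsMatrixReindex_pow_two ℚ ℂ
    (fun i : Fin 3 => v ^ (i : ℕ)) e
  have h4 : algebraMap ℚ ℂ (Algebra.discr ℚ (fun i : Fin 3 => v ^ (i : ℕ))) =
    ((Algebra.discr ℚ (fun i : Fin 3 => v ^ (i : ℕ)) : ℚ) : ℂ) := rfl
  rw [← h4, h, Matrix.det_fin_three]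
  simp only [Algebra.embeddingsMatrixReindex, Matrix.reindex_apply, Matrix.submatrix_apply,
    Algebra.embeddingsMatrix_apply, Equiv.symm_symm, Equiv.refl_symm, Equiv.refl_apply, map_pow,
    e0, e1, e2]
  simp
  ring

/-- the discriminant of `1, v, v ^ 2` is a square times the discriminant of the field -/
theorem discr_family_eq (h3 : finrank ℚ K = 3) (v : 𝓞 K) : ∃ r : ℤ,
    Algebra.discr ℚ (fun i : Fin 3 => (v : K) ^ (i : ℕ)) = (r : ℚ) ^ 2 * (discr K : ℚ) := by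
  classical
  have hcard : Fintype.card (Free.ChooseBasisIndex ℤ (𝓞 K)) = Fintype.card (Fin 3) := by
    rw [Fintype.card_fin, ← h3, ← RingOfIntegers.rank K, finrank_eq_card_chooseBasisIndex]
  let e := Fintype.equivOfCardEq hcard
  let b' : Basis (Fin 3) ℚ K := (integralBasis K).reindex e
  let Q : Matrix (Fin 3) (Fin 3) ℤ := fun i j => (RingOfIntegers.basis K).repr (v ^ (j : ℕ)) (e.symm i)
  refine ⟨Q.det, ?_⟩
  have h2 : b'.toMatrix (fun i : Fin 3 => (v : K) ^ (i : ℕ)) = Q.map (Int.castRingHom ℚ) := by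
    ext i j
    rw [Basis.toMatrix_apply, Matrix.map_apply]
    have h3 : (v : K) ^ (j : ℕ) = algebraMap (𝓞 K) K (v ^ (j : ℕ)) := by
      rw [map_pow]
    simp only [b', Basis.repr_reindex_apply]
    rw [h3, integralBasis_repr_apply]
    rfl
  have h5 := Algebra.discr_of_matrix_vecMul b' (b'.toMatrix (fun i : Fin 3 => (v : K) ^ (i : ℕ)))
  rw [Basis.toMatrix_map_vecMul, h2, ← RingHom.mapMatrix_apply, ← RingHom.map_det] at h5
  rw [h5]
  have h6 : Algebra.discr ℚ b' = (discr K : ℚ) := by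
    rw [coe_discr, Basis.coe_reindex, Algebra.discr_reindex]
  rw [h6]
  rfl

/-- `φ u * |ψ u| ^ 2 = 1` or `-1` for a unit -/
theorem artin_unit_norm (h3 : finrank ℚ K = 3) (φ : K →+* ℝ) (ψ : K →+* ℂ)
    (hψ : ¬ ComplexEmbedding.IsReal ψ) (u : (𝓞 K)ˣ) :
    |φ (u : 𝓞 K) * Complex.normSq (ψ (u : 𝓞 K))| = 1 := by
  obtain ⟨e, e0, e1, e2⟩ := exists_equiv h3 φ ψ hψ
  have h1 := Algebra.norm_eq_prod_embeddings ℚ ℂ ((u : 𝓞 K) : K)
  rw [← Equiv.prod_comp e, Fin.prod_univ_three, e0, e1, e2, mul_assoc, Complex.mul_conj] at h1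
  have h2 : |Algebra.norm ℚ ((u : 𝓞 K) : K)| = 1 := by
    have h3 := NumberField.isUnit_iff_norm.mp u.isUnit
    rw [RingOfIntegers.coe_norm] at h3
    exact h3
  have h4 : ((Algebra.norm ℚ ((u : 𝓞 K) : K) : ℚ) : ℝ) =
      φ (u : 𝓞 K) * Complex.normSq (ψ (u : 𝓞 K)) := by
    have h5 : (((Algebra.norm ℚ ((u : 𝓞 K) : K) : ℚ) : ℝ) : ℂ) =
      ((φ (u : 𝓞 K) * Complex.normSq (ψ (u : 𝓞 K)) : ℝ) : ℂ) := by
      rw [Complex.ofReal_mul, ← h1]
      simp
    exact_mod_cast h5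
  rw [← h4, ← Rat.cast_abs, h2]
  simp

omit [NumberField K] in
theorem unit_mul_inv (φ : K →+* ℝ) (u : (𝓞 K)ˣ) :
    φ (u : 𝓞 K) * φ ((u⁻¹ : (𝓞 K)ˣ) : 𝓞 K) = 1 := by
  have h4 : ((u : 𝓞 K) : K) * (((u⁻¹ : (𝓞 K)ˣ) : 𝓞 K) : K) = 1 := by
    have := congrArg (algebraMap (𝓞 K) K) (Units.mul_inv u)
    rwa [map_mul, map_one] at this
  rw [← map_mul, h4, map_one]

omit [NumberField K] in
theorem unit_neg (φ : K →+* ℝ) (u : (𝓞 K)ˣ) :
    φ ((-u : (𝓞 K)ˣ) : 𝓞 K) = - φ (u : 𝓞 K) := by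
  have h4 : (((-u : (𝓞 K)ˣ) : 𝓞 K) : K) = -((u : 𝓞 K) : K) := by
    rw [Units.val_neg]
    exact map_neg (algebraMap (𝓞 K) K) _
  rw [h4, map_neg]

/-- G1': Artin's inequality -/
theorem artin (h3 : finrank ℚ K = 3) (φ : K →+* ℝ) (ψ : K →+* ℂ)
    (hψ : ¬ ComplexEmbedding.IsReal ψ) (u : (𝓞 K)ˣ) (h1 : u ≠ 1) (h2 : u ≠ -1)
    (hu : 1 < φ (u : 𝓞 K)) :
    |(discr K : ℝ)| ≤ 4 * φ (u : 𝓞 K) ^ 3 + 24 := by
  set v : (𝓞 K)ˣ := u⁻¹ with hv
  have hv1 : v ≠ 1 := by simpa [hv] using h1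
  have hv2 : v ≠ -1 := by
    intro h
    apply h2
    rw [← inv_inv u, ← hv, h]
    simp
  have e3 : φ (u : 𝓞 K) * φ (v : 𝓞 K) = 1 := unit_mul_inv φ u
  set x := φ (v : 𝓞 K) with hx
  have hxu : φ (u : 𝓞 K) = x⁻¹ := eq_inv_of_mul_eq_one_left e3
  have hx0 : 0 < x := by
    rw [hxu] at hu
    exact inv_pos.mp (lt_trans one_pos hu)
  have hx1 : x ≤ 1 := by
    rw [hxu] at hu
    exact ((one_lt_inv₀ hx0).mp hu).le
  set z := ψ (v : 𝓞 K) with hz
  have hn : x * Complex.normSq z = 1 := by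
    have := artin_unit_norm h3 φ ψ hψ v
    rwa [abs_of_nonneg (mul_nonneg hx0.le (Complex.normSq_nonneg _))] at this
  have hn' : Complex.normSq z = x⁻¹ := eq_inv_of_mul_eq_one_right hn
  have him : z.im ≠ 0 := by
    intro h
    exact unit_im_ne h3 ψ hψ v hv1 hv2 (Complex.conj_eq_iff_im.mpr h)
  have hd := discr_family h3 φ ψ hψ ((v : 𝓞 K) : K)
  obtain ⟨r, hr⟩ := discr_family_eq h3 (v : 𝓞 K)
  have hd' : ((r : ℝ) ^ 2 * (discr K : ℝ)) =
      - (4 * z.im ^ 2 * (x ^ 2 - 2 * x * z.re + Complex.normSq z) ^ 2) := by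
    rw [hr] at hd
    have h5 : (((r : ℝ) ^ 2 * (discr K : ℝ) : ℝ) : ℂ) =
      ((- (4 * z.im ^ 2 * (x ^ 2 - 2 * x * z.re + Complex.normSq z) ^ 2) : ℝ) : ℂ) := by
      push_cast at hd ⊢
      rw [hd]
      have hz1 : conj z = z - 2 * z.im * Complex.I := by
        apply Complex.ext <;> simp
        ring
      have hz2 : z * conj z = Complex.normSq z := Complex.mul_conj z
      have hz3 : z + conj z = 2 * z.re := by
        rw [Complex.add_conj]
        push_cast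
        ring
      have hz4 : ((x : ℂ) - z) * (x - conj z) = x ^ 2 - 2 * x * z.re + Complex.normSq z := by
        rw [← hz2]
        linear_combination (-(x : ℂ)) * hz3
      have hz5 : (z - conj z) ^ 2 = -(4 * (z.im : ℂ) ^ 2) := by
        rw [hz1]
        linear_combination (4 * (z.im : ℂ) ^ 2) * Complex.I_sq
      rw [← hx, ← hz, mul_pow, hz4, hz5]
      ring
    exact_mod_cast h5
  have him2 : z.im ^ 2 = x⁻¹ - z.re ^ 2 := by
    rw [← hn', Complex.normSq_apply]; ring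
  have hpos : 0 < 4 * z.im ^ 2 * (x ^ 2 - 2 * x * z.re + Complex.normSq z) ^ 2 := by
    have h6 : 0 < x ^ 2 - 2 * x * z.re + Complex.normSq z := by
      rw [Complex.normSq_apply]
      have := sq_nonneg (x - z.re)
      have h7 : 0 < z.im * z.im := mul_self_pos.mpr him
      nlinarith
    have h7 : 0 < z.im ^ 2 := by positivity
    positivity
  have hr0 : r ≠ 0 := by
    rintro rfl
    rw [Int.cast_zero] at hd'
    linarith
  have hr1 : (1 : ℝ) ≤ (r : ℝ) ^ 2 := by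
    have h6 : (1 : ℤ) ≤ r ^ 2 := by
      have := sq_nonneg r
      have h7 : r ^ 2 ≠ 0 := pow_ne_zero 2 hr0
      omega
    exact_mod_cast h6
  have h8 : (r : ℝ) ^ 2 * |(discr K : ℝ)| =
      4 * z.im ^ 2 * (x ^ 2 - 2 * x * z.re + Complex.normSq z) ^ 2 := by
    rw [← abs_of_nonneg (sq_nonneg (r : ℝ)), ← abs_mul, hd', abs_neg, abs_of_pos hpos]
  have h9 : |(discr K : ℝ)| ≤ (r : ℝ) ^ 2 * |(discr K : ℝ)| := by
    have := abs_nonneg (discr K : ℝ)
    nlinarith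
  rw [h8, him2, hn'] at h9
  rw [hxu]
  exact h9.trans (artin_real hx0 hx1)

/-- G2': lower bound for `|log |φ u||` -/
theorem artin_log (h3 : finrank ℚ K = 3) (φ : K →+* ℝ) (ψ : K →+* ℂ)
    (hψ : ¬ ComplexEmbedding.IsReal ψ) (hD : 108 ≤ |(discr K : ℝ)|)
    (u : (𝓞 K)ˣ) (h1 : u ≠ 1) (h2 : u ≠ -1) :
    Real.log ((|(discr K : ℝ)| - 24) / 4) / 3 ≤ abs (Real.log (abs (φ (u : 𝓞 K)))) := by
  -- the case of a value larger than one
  have main : ∀ w : (𝓞 K)ˣ, w ≠ 1 → w ≠ -1 → 1 < φ (w : 𝓞 K) →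
      Real.log ((|(discr K : ℝ)| - 24) / 4) / 3 ≤ Real.log (φ (w : 𝓞 K)) := by
    intro w hw1 hw2 hw
    have h4 := artin h3 φ ψ hψ w hw1 hw2 hw
    have h5 : (|(discr K : ℝ)| - 24) / 4 ≤ φ (w : 𝓞 K) ^ 3 := by linarith
    have h6 := Real.log_le_log (by linarith) h5
    rw [Real.log_pow] at h6
    push_cast at h6
    linarith
  have main2 : ∀ w : (𝓞 K)ˣ, w ≠ 1 → w ≠ -1 → 1 < |φ (w : 𝓞 K)| →
      Real.log ((|(discr K : ℝ)| - 24) / 4) / 3 ≤ Real.log |φ (w : 𝓞 K)| := by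
    intro w hw1 hw2 hw
    rcases lt_or_ge 0 (φ (w : 𝓞 K)) with h | h
    · rw [abs_of_pos h] at hw ⊢
      exact main w hw1 hw2 hw
    · rw [abs_of_nonpos h] at hw ⊢
      have h5 : φ ((-w : (𝓞 K)ˣ) : 𝓞 K) = - φ (w : 𝓞 K) := unit_neg φ w
      rw [← h5] at hw ⊢
      refine main (-w) ?_ ?_ hw
      · intro h6
        apply hw2
        rw [← neg_neg w, h6]
      · intro h6
        apply hw1
        rw [← neg_neg w, h6, neg_neg]
  have e3 : φ (u : 𝓞 K) * φ ((u⁻¹ : (𝓞 K)ˣ) : 𝓞 K) = 1 := unit_mul_inv φ u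
  rcases lt_trichotomy 1 |φ (u : 𝓞 K)| with h | h | h
  · exact (main2 u h1 h2 h).trans (le_abs_self _)
  · exfalso
    rcases eq_or_eq_neg_of_abs_eq h.symm with h5 | h5
    · apply h1
      apply Units.ext
      apply RingOfIntegers.coe_injective
      apply φ.injective
      simpa using h5
    · apply h2
      apply Units.ext
      apply RingOfIntegers.coe_injective
      apply φ.injective
      simpa using h5
  · have e4 : |φ (u : 𝓞 K)| * |φ ((u⁻¹ : (𝓞 K)ˣ) : 𝓞 K)| = 1 := by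
      rw [← abs_mul, e3, abs_one]
    have hu' : 1 < |φ ((u⁻¹ : (𝓞 K)ˣ) : 𝓞 K)| := by
      by_contra h0
      push Not at h0
      have := mul_lt_one_of_nonneg_of_lt_one_left (abs_nonneg _) h h0
      linarith
    have h1' : u⁻¹ ≠ 1 := by simpa using h1
    have h2' : u⁻¹ ≠ -1 := by
      intro h
      apply h2
      rw [← inv_inv u, h]
      simp
    have h6 : |φ (u : 𝓞 K)| = |φ ((u⁻¹ : (𝓞 K)ˣ) : 𝓞 K)|⁻¹ := eq_inv_of_mul_eq_one_left e4
    rw [h6, Real.log_inv, abs_neg]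
    exact (main2 u⁻¹ h1' h2' hu').trans (le_abs_self _)

end Pool.Agent.Work.Mu22
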