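import Pool.Agent.Work.MP_a4986b_nt.Defs

set_option autoImplicit false
set_option maxHeartbeats 400000

/-! # A1: Cauchy-Schwarz for the periodisation -/

namespace Pool.Agent.Work.Mu22

open NumberField Module MeasureTheory
open scoped Pointwise nonZeroDivisors ENNReal Real

/-- Cauchy-Schwarz on a set -/
theorem sq_lintegral_le {E : Type*} [MeasurableSpace E] (μ : Measure E) (D : Set E)
    (G : E → ℝ≥0∞) (hG : Measurable G) :
    (∫⁻ x in D, G x ∂μ) ^ 2 ≤ μ D * ∫⁻ x in D, G x ^ 2 ∂μ := by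
  have h := ENNReal.lintegral_mul_le_Lp_mul_Lq (μ.restrict D) Real.HolderConjugate.two_two
    (f := fun _ => 1) (g := G) aemeasurable_const hG.aemeasurable
  simp only [Pi.mul_apply, one_mul, ENNReal.one_rpow, lintegral_const, Measure.restrict_apply,
    MeasurableSet.univ, Set.univ_inter] at h
  calc (∫⁻ x in D, G x ∂μ) ^ 2
      ≤ (μ D ^ (1 / 2 : ℝ) * (∫⁻ x in D, G x ^ (2 : ℝ) ∂μ) ^ (1 / 2 : ℝ)) ^ 2 := by
        gcongr
    _ = μ D * ∫⁻ x in D, G x ^ 2 ∂μ := by
        rw [mul_pow, ← ENNReal.rpow_natCast, ← ENNReal.rpow_mul, ← ENNReal.rpow_natCast,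
          ← ENNReal.rpow_mul]
        norm_num

/-- A1: Cauchy-Schwarz for the periodisation -/
theorem autocorr {E : Type*} [AddCommGroup E] [MeasurableSpace E] [MeasurableAdd₂ E]
    (μ : Measure E) [SFinite μ] [μ.IsAddLeftInvariant] (Λ : AddSubgroup E) [Countable Λ]
    (D : Set E) (hD : IsAddFundamentalDomain Λ D μ) (g : E → ℝ≥0∞) (hg : Measurable g) :
    (∫⁻ x, g x ∂μ) ^ 2 ≤ μ D * ∑' v : Λ, ∫⁻ x, g x * g (x + v) ∂μ := by
  have hgv : ∀ v : E, Measurable fun x => g (x + v) := fun v =>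
    hg.comp (measurable_id.add measurable_const)
  set G : E → ℝ≥0∞ := fun x => ∑' v : Λ, g (x + v) with hGdef
  have hG : Measurable G := Measurable.tsum fun v : Λ => hgv v
  have hper : ∀ (v : Λ) (x : E), G (x + v) = G x := by
    intro v x
    simp only [hGdef]
    rw [← (Equiv.addLeft v).tsum_eq (fun w : Λ => g (x + w))]
    refine tsum_congr fun w => ?_
    rw [Equiv.coe_addLeft, AddSubgroup.coe_add, add_assoc]
  have h1 : ∫⁻ x in D, G x ∂μ = ∫⁻ x, g x ∂μ := by
    rw [hD.lintegral_eq_tsum'' g, lintegral_tsum fun v : Λ => (hgv v).aemeasurable]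
    refine tsum_congr fun v => lintegral_congr fun x => ?_
    rw [AddSubgroup.vadd_def, vadd_eq_add, add_comm]
  have h2 : ∫⁻ x in D, G x ^ 2 ∂μ = ∑' v : Λ, ∫⁻ x, g x * g (x + v) ∂μ := by
    have h3 : ∫⁻ x, g x * G x ∂μ = ∑' v : Λ, ∫⁻ x, g x * g (x + v) ∂μ := by
      have h5 : ∀ v : Λ, Measurable fun x => g x * g (x + v) := fun v => hg.mul (hgv v)
      rw [← lintegral_tsum fun v : Λ => (h5 v).aemeasurable]
      refine lintegral_congr fun x => ?_
      rw [ENNReal.tsum_mul_left]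
    rw [← h3, hD.lintegral_eq_tsum'' fun x => g x * G x,
      ← lintegral_tsum fun v : Λ => by
        have h5 : (fun x => g (v +ᵥ x) * G (v +ᵥ x)) = fun x => g (x + v) * G (x + v) := by
          funext x
          rw [AddSubgroup.vadd_def, vadd_eq_add, add_comm]
        rw [h5]
        exact ((hgv v).mul (hG.comp (measurable_id.add measurable_const))).aemeasurable]
    refine lintegral_congr fun x => ?_
    have h4 : ∀ v : Λ, g (v +ᵥ x) * G (v +ᵥ x) = g (x + v) * G x := by
      intro v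
      rw [AddSubgroup.vadd_def, vadd_eq_add, add_comm (v : E) x, hper]
    rw [tsum_congr h4, ENNReal.tsum_mul_right, sq]
  rw [← h1, ← h2]
  exact sq_lintegral_le μ D G hG

end Pool.Agent.Work.Mu22
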