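import Pool.Agent.Work.MP_a4986b_nt.BCover

set_option autoImplicit false
set_option maxHeartbeats 400000

/-! # Two abstract lemmas: from the covering inequality to a class number bound, and from a class
number bound to the prime-to-`p` statement -/

namespace Pool.Agent.Work.MuB

open NumberField Module MeasureTheory NumberField.InfinitePlace NumberField.Units
open scoped nonZeroDivisors ENNReal NNReal Real Pointwise

theorem one_le_abs_discr (F : Type*) [Field F] [NumberField F] : 1 ≤ |(discr F : ℝ)| := by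
  have h : (discr F : ℤ) ≠ 0 := discr_ne_zero F
  have h1 : (1 : ℤ) ≤ |discr F| := Int.one_le_abs h
  have h2 : ((1 : ℤ) : ℝ) ≤ ((|discr F| : ℤ) : ℝ) := Int.cast_le.mpr h1
  simpa using h2

/-- From the covering inequality to the class number bound: `C` the constant of the sum over
ideals, `c` the constant of the regulator bound with exponent `ρ`. -/
theorem class_bound (F : Type*) [Field F] [NumberField F] {C c : ℝ} (hc : 0 < c)
    (m ρ : ℕ) (hC : 0 ≤ C)
    (h1 : ∀ M : ℝ, 1 ≤ M → ∑' I : (Ideal (𝓞 F))⁰,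
        ENNReal.ofReal (Real.log (M / Ideal.absNorm (I : Ideal (𝓞 F)))) ^ Units.rank F ≤
      ENNReal.ofReal (C * M * (1 + Real.log M) ^ (m - 1)))
    (h2 : c * (1 + Real.log |(discr F : ℝ)|) ^ ρ ≤ regulator F) (hm : 1 ≤ m) :
    (Nat.card (ClassGroup (𝓞 F)) : ℝ) * (1 + Real.log |(discr F : ℝ)|) ^ ((ρ : ℤ) - m + 1) ≤
      2 ^ m * C / c * √|(discr F : ℝ)| := by
  have hD := one_le_abs_discr F
  set D : ℝ := |(discr F : ℝ)| with hDdef
  have hD0 : 0 < D := by linarith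
  have hs : 1 ≤ √D := by
    rw [show (1 : ℝ) = √1 by simp]
    exact Real.sqrt_le_sqrt hD
  have hM : (2 / π) ^ nrComplexPlaces F * √D < 2 * √D := by
    have h3 : (2 / π : ℝ) ^ nrComplexPlaces F ≤ 1 := by
      apply pow_le_one₀ (by positivity)
      rw [div_le_one Real.pi_pos]
      linarith [Real.pi_gt_three]
    nlinarith
  have hcov := covering hM
  have h4 := hcov.trans (h1 (2 * √D) (by linarith))
  have hL : 0 ≤ Real.log D := Real.log_nonneg hD
  have hlog : Real.log (2 * √D) ≤ 1 + Real.log D := by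
    rw [Real.log_mul (by norm_num) (by positivity), Real.log_sqrt hD0.le]
    have := Real.log_two_lt_d9
    linarith
  have hlog0 : 0 ≤ Real.log (2 * √D) := Real.log_nonneg (by linarith)
  have h5 : (Nat.card (ClassGroup (𝓞 F)) : ℝ) * regulator F ≤
      C * (2 * √D) * (1 + Real.log (2 * √D)) ^ (m - 1) := by
    refine (ENNReal.ofReal_le_ofReal_iff ?_).mp h4
    positivity
  have h6 : (1 + Real.log (2 * √D)) ^ (m - 1) ≤ (2 * (1 + Real.log D)) ^ (m - 1) :=
    pow_le_pow_left₀ (by linarith) (by linarith) _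
  have hh : (0 : ℝ) ≤ Nat.card (ClassGroup (𝓞 F)) := Nat.cast_nonneg _
  have h7 : (Nat.card (ClassGroup (𝓞 F)) : ℝ) * (c * (1 + Real.log D) ^ ρ) ≤
      C * (2 * √D) * (2 * (1 + Real.log D)) ^ (m - 1) :=
    (mul_le_mul_of_nonneg_left h2 hh).trans
      (h5.trans (mul_le_mul_of_nonneg_left h6 (by positivity)))
  have hpos : 0 < 1 + Real.log D := by linarith
  obtain ⟨n, rfl⟩ : ∃ n, m = n + 1 := ⟨m - 1, by omega⟩
  simp only [Nat.add_sub_cancel] at h7
  have h8 : (1 + Real.log D) ^ ((ρ : ℤ) - ((n + 1 : ℕ) : ℤ) + 1) =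
      (1 + Real.log D) ^ ρ / (1 + Real.log D) ^ n := by
    rw [show (ρ : ℤ) - ((n + 1 : ℕ) : ℤ) + 1 = (ρ : ℤ) - (n : ℤ) by push_cast; ring,
      zpow_sub₀ hpos.ne', zpow_natCast, zpow_natCast]
  rw [h8, ← mul_div_assoc, div_le_iff₀ (by positivity)]
  have h9 : (Nat.card (ClassGroup (𝓞 F)) : ℝ) * (1 + Real.log D) ^ ρ ≤
      (C * (2 * √D) * (2 * (1 + Real.log D)) ^ n) / c := by
    rw [le_div_iff₀ hc]
    calc _ = (Nat.card (ClassGroup (𝓞 F)) : ℝ) * (c * (1 + Real.log D) ^ ρ) := by ring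
      _ ≤ _ := h7
  refine h9.trans (le_of_eq ?_)
  rw [mul_pow, pow_succ]
  ring

/-- From `h (1 + log D)^e ≤ C √D` and `D ≤ c p² (1 + log p)^(2 e)` to `h < p`. -/
theorem lt_of_bound (C : ℝ) (m0 : ℕ) : ∃ c : ℝ, 0 < c ∧ c ≤ 1 ∧
    ∀ (h p : ℕ) (e : ℤ) (D : ℝ), 2 ≤ p → 1 ≤ D → |e| ≤ m0 →
      (h : ℝ) * (1 + Real.log D) ^ e ≤ C * √D →
      D ≤ c * (p : ℝ) ^ 2 * (1 + Real.log p) ^ (2 * e) → h < p := by
  -- constants
  set C' : ℝ := max C 1 with hC'
  have hC1 : 1 ≤ C' := le_max_right _ _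
  obtain ⟨P0, hP0⟩ : ∃ P0 : ℕ, C' ^ 2 < P0 := exists_nat_gt _
  have hP0' : (1 : ℝ) < P0 := by nlinarith
  set A : ℝ := (P0 : ℝ) ^ 2 * (1 + Real.log P0) ^ (2 * m0) with hA
  have hlogP0 : 0 ≤ Real.log P0 := Real.log_nonneg hP0'.le
  have hA1 : 1 ≤ A := by
    have h1 : (1 : ℝ) ≤ (P0 : ℝ) ^ 2 := one_le_pow₀ hP0'.le
    have h2 : (1 : ℝ) ≤ (1 + Real.log P0) ^ (2 * m0) := one_le_pow₀ (by linarith)
    nlinarith
  set B : ℝ := 4 * C' ^ 2 * 4 ^ m0 with hB
  have hB1 : 1 ≤ B := by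
    have h1 : (1 : ℝ) ≤ 4 ^ m0 := one_le_pow₀ (by norm_num)
    nlinarith
  have hAB : 0 < A * B := by positivity
  refine ⟨1 / (2 * (A * B)), by positivity, ?_, ?_⟩
  · rw [div_le_one (by positivity)]
    nlinarith
  intro h p e D hp hD he h1 h2
  set c : ℝ := 1 / (2 * (A * B)) with hc
  have hcpos : 0 < c := by positivity
  have hcA : c * A ≤ 1 / 2 := by
    rw [hc, div_mul_eq_mul_div, one_mul, div_le_div_iff₀ (by positivity) (by norm_num)]
    nlinarith
  have hcB : c * B ≤ 1 / 2 := by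
    rw [hc, div_mul_eq_mul_div, one_mul, div_le_div_iff₀ (by positivity) (by norm_num)]
    nlinarith
  have hc1 : c ≤ 1 := by nlinarith
  have hp' : (2 : ℝ) ≤ p := by exact_mod_cast hp
  have hLp : 0 ≤ Real.log p := Real.log_nonneg (by linarith)
  have hLD : 0 ≤ Real.log D := Real.log_nonneg hD
  have hLp1 : 0 < 1 + Real.log p := by linarith
  have hLD1 : 0 < 1 + Real.log D := by linarith
  have hD0 : 0 < D := by linarith
  have h1' : (h : ℝ) * (1 + Real.log D) ^ e ≤ C' * √D :=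
    h1.trans (mul_le_mul_of_nonneg_right (le_max_left _ _) (Real.sqrt_nonneg _))
  -- `h² ≤ C'² D / LD^(2e)`
  have hsq : (h : ℝ) ^ 2 * (1 + Real.log D) ^ (2 * e) ≤ C' ^ 2 * D := by
    have h3 : ((h : ℝ) * (1 + Real.log D) ^ e) ^ 2 ≤ (C' * √D) ^ 2 :=
      pow_le_pow_left₀ (by positivity) h1' 2
    rw [mul_pow, mul_pow, Real.sq_sqrt hD0.le] at h3
    have h4 : ((1 + Real.log D) ^ e) ^ 2 = (1 + Real.log D) ^ (2 * e) := by
      rw [← zpow_natCast, ← zpow_mul]
      congr 1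
      push_cast
      ring
    rwa [h4] at h3
  have key : (h : ℝ) ^ 2 < (p : ℝ) ^ 2 → h < p := by
    intro h3
    have : (h : ℝ) < p := lt_of_pow_lt_pow_left₀ 2 (by linarith) h3
    exact_mod_cast this
  apply key
  rcases le_or_gt 0 e with he0 | he0
  · -- e ≥ 0
    obtain ⟨n, rfl⟩ := Int.eq_ofNat_of_zero_le he0
    have hn : n ≤ m0 := by
      have : |((n : ℕ) : ℤ)| = n := by simp
      rw [this] at he
      exact_mod_cast he
    have e1 : (1 + Real.log D) ^ (2 * ((n : ℕ) : ℤ)) = (1 + Real.log D) ^ (2 * n) := by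
      rw [← zpow_natCast]; push_cast; rfl
    have e2 : (1 + Real.log p) ^ (2 * ((n : ℕ) : ℤ)) = (1 + Real.log p) ^ (2 * n) := by
      rw [← zpow_natCast]; push_cast; rfl
    rw [e1] at hsq
    rw [e2] at h2
    rcases le_or_gt D p with hDp | hDp
    · -- `D ≤ p`: then `h² ≤ C'² p` and `p > P0`
      have hpP : (P0 : ℝ) < p := by
        by_contra hcon
        push Not at hcon
        have h3 : (1 + Real.log p) ^ (2 * n) ≤ (1 + Real.log P0) ^ (2 * m0) := by
          have hl : Real.log p ≤ Real.log P0 := Real.log_le_log (by linarith) hcon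
          calc (1 + Real.log p) ^ (2 * n) ≤ (1 + Real.log P0) ^ (2 * n) :=
                pow_le_pow_left₀ hLp1.le (by linarith) _
            _ ≤ _ := pow_le_pow_right₀ (by linarith) (by omega)
        have h4 : (p : ℝ) ^ 2 * (1 + Real.log p) ^ (2 * n) ≤ A :=
          mul_le_mul (pow_le_pow_left₀ (by linarith) hcon 2) h3 (by positivity) (by positivity)
        have h5 : D ≤ c * A := by
          refine h2.trans ?_
          rw [mul_assoc]
          exact mul_le_mul_of_nonneg_left h4 hcpos.le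
        linarith
      have h3 : (1 : ℝ) ≤ (1 + Real.log D) ^ (2 * n) := one_le_pow₀ (by linarith)
      have h4 : (h : ℝ) ^ 2 ≤ C' ^ 2 * D := by
        refine le_trans ?_ hsq
        exact le_mul_of_one_le_right (by positivity) h3
      have h5 : C' ^ 2 * D ≤ C' ^ 2 * p := mul_le_mul_of_nonneg_left hDp (by positivity)
      have h6 : C' ^ 2 * (p : ℝ) < p * p := by
        apply mul_lt_mul_of_pos_right _ (by linarith)
        linarith
      nlinarith
    · -- `D > p`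
      have h3 : (1 + Real.log p) ^ (2 * n) ≤ (1 + Real.log D) ^ (2 * n) :=
        pow_le_pow_left₀ hLp1.le (by linarith [Real.log_le_log (by linarith) hDp.le]) _
      have hq : 0 < (1 + Real.log p) ^ (2 * n) := by positivity
      have h4 : (h : ℝ) ^ 2 * (1 + Real.log p) ^ (2 * n) ≤
          C' ^ 2 * (c * (p : ℝ) ^ 2) * (1 + Real.log p) ^ (2 * n) := by
        calc (h : ℝ) ^ 2 * (1 + Real.log p) ^ (2 * n) ≤ (h : ℝ) ^ 2 * (1 + Real.log D) ^ (2 * n) :=
              mul_le_mul_of_nonneg_left h3 (by positivity)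
          _ ≤ C' ^ 2 * D := hsq
          _ ≤ C' ^ 2 * (c * (p : ℝ) ^ 2 * (1 + Real.log p) ^ (2 * n)) :=
              mul_le_mul_of_nonneg_left h2 (by positivity)
          _ = _ := by ring
      have h5 := le_of_mul_le_mul_right h4 hq
      have h6 : C' ^ 2 * c ≤ 1 / 2 := by
        have : C' ^ 2 ≤ B := by
          have h7 : (1 : ℝ) ≤ 4 ^ m0 := one_le_pow₀ (by norm_num)
          nlinarith [sq_nonneg C']
        nlinarith
      nlinarith [sq_nonneg (p : ℝ)]
  · -- e < 0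
    obtain ⟨n, hn⟩ : ∃ n : ℕ, e = -(n : ℤ) := ⟨e.natAbs, by omega⟩
    subst hn
    have hn : n ≤ m0 := by
      have : |(-(n : ℤ))| = n := by simp
      rw [this] at he
      exact_mod_cast he
    have e1 : (1 + Real.log D) ^ (2 * (-(n : ℤ))) = ((1 + Real.log D) ^ (2 * n))⁻¹ := by
      rw [← zpow_natCast, ← zpow_neg]; push_cast; congr 1; ring
    have e2 : (1 + Real.log p) ^ (2 * (-(n : ℤ))) = ((1 + Real.log p) ^ (2 * n))⁻¹ := by
      rw [← zpow_natCast, ← zpow_neg]; push_cast; congr 1; ring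
    rw [e1, ← div_eq_mul_inv, div_le_iff₀ (by positivity)] at hsq
    rw [e2, ← div_eq_mul_inv, le_div_iff₀ (by positivity)] at h2
    have h3 : (1 : ℝ) ≤ (1 + Real.log p) ^ (2 * n) := one_le_pow₀ (by linarith)
    have hDp : D ≤ (p : ℝ) ^ 2 := by
      have h4 : D ≤ D * (1 + Real.log p) ^ (2 * n) := le_mul_of_one_le_right hD0.le h3
      nlinarith [sq_nonneg (p : ℝ)]
    have hlog : Real.log D ≤ 2 * Real.log p := by
      have := Real.log_le_log hD0 hDp
      rwa [Real.log_pow] at this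
    have h5 : (1 + Real.log D) ^ (2 * n) ≤ 4 ^ m0 * (1 + Real.log p) ^ (2 * n) := by
      calc (1 + Real.log D) ^ (2 * n) ≤ (2 * (1 + Real.log p)) ^ (2 * n) :=
            pow_le_pow_left₀ hLD1.le (by linarith) _
        _ = 4 ^ n * (1 + Real.log p) ^ (2 * n) := by
            rw [mul_pow, pow_mul]; norm_num
        _ ≤ 4 ^ m0 * (1 + Real.log p) ^ (2 * n) :=
            mul_le_mul_of_nonneg_right (pow_le_pow_right₀ (by norm_num) hn) (by positivity)
    have h6 : (h : ℝ) ^ 2 ≤ C' ^ 2 * 4 ^ m0 * (c * (p : ℝ) ^ 2) := by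
      calc (h : ℝ) ^ 2 ≤ C' ^ 2 * D * (1 + Real.log D) ^ (2 * n) := hsq
        _ ≤ C' ^ 2 * D * (4 ^ m0 * (1 + Real.log p) ^ (2 * n)) :=
            mul_le_mul_of_nonneg_left h5 (by positivity)
        _ = C' ^ 2 * 4 ^ m0 * (D * (1 + Real.log p) ^ (2 * n)) := by ring
        _ ≤ C' ^ 2 * 4 ^ m0 * (c * (p : ℝ) ^ 2) := mul_le_mul_of_nonneg_left h2 (by positivity)
    have h7 : C' ^ 2 * 4 ^ m0 * c ≤ 1 / 8 := by
      have : 4 * (C' ^ 2 * 4 ^ m0 * c) = c * B := by rw [hB]; ring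
      linarith
    nlinarith [sq_nonneg (p : ℝ)]

/-- From a class number bound to the prime-to-`p` statement. -/
theorem not_dvd_of_bound (C : ℝ) (m0 : ℕ) : ∃ c : ℝ, 0 < c ∧ c ≤ 1 ∧
    ∀ (h p : ℕ) (e : ℤ) (D : ℝ), p.Prime → 0 < h → 1 ≤ D → |e| ≤ m0 →
      (h : ℝ) * (1 + Real.log D) ^ e ≤ C * √D →
      D ≤ c * (p : ℝ) ^ 2 * (1 + Real.log p) ^ (2 * e) → ¬ p ∣ h := by
  obtain ⟨c, hc, hc1, H⟩ := lt_of_bound C m0
  refine ⟨c, hc, hc1, fun h p e D hp hh hD he h1 h2 hdvd => ?_⟩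
  exact absurd (Nat.le_of_dvd hh hdvd) (not_le.mpr (H h p e D hp.two_le hD he h1 h2))

end Pool.Agent.Work.MuB
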