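import Pool.Agent.Work.MP_a4986b_nt.Defs

set_option autoImplicit false
set_option maxHeartbeats 400000

/-! # D3: the arithmetic function `bb` -/

namespace Pool.Agent.Work.Mu22

open NumberField Module MeasureTheory
open scoped Pointwise nonZeroDivisors ENNReal Real

theorem chi3_mul (m n : ℕ) : chi3 (m * n) = chi3 m * chi3 n := by
  have h : (m * n) % 3 = ((m % 3) * (n % 3)) % 3 := Nat.mul_mod m n 3
  have hm : m % 3 = 0 ∨ m % 3 = 1 ∨ m % 3 = 2 := by omega
  have hn : n % 3 = 0 ∨ n % 3 = 1 ∨ n % 3 = 2 := by omega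
  unfold chi3
  rw [h]
  rcases hm with hm | hm | hm <;> rcases hn with hn | hn | hn <;> simp [hm, hn]

theorem chi3_one : chi3 1 = 1 := by simp [chi3]

theorem chi3_pow (q j : ℕ) : chi3 (q ^ j) = chi3 q ^ j := by
  induction j with
  | zero => simp [chi3_one]
  | succ j ih => rw [pow_succ, chi3_mul, ih, pow_succ]

/-- the character as an arithmetic function -/
def chiA : ArithmeticFunction ℤ := ⟨chi3, by simp [chi3]⟩

theorem chiA_apply (n : ℕ) : chiA n = chi3 n := rfl

theorem chiA_mult : chiA.IsMultiplicative :=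
  ⟨by rw [chiA_apply, chi3_one], fun {m n} _ => by simp only [chiA_apply, chi3_mul]⟩

theorem bb_eq (n : ℕ) : bb n = (chiA * ((ArithmeticFunction.sigma 0 : ArithmeticFunction ℕ) :
    ArithmeticFunction ℤ)) n := by
  unfold bb
  rw [ArithmeticFunction.mul_apply]
  rw [Nat.sum_divisorsAntidiagonal (f := fun a b => chiA a *
    (((ArithmeticFunction.sigma 0 : ArithmeticFunction ℕ) : ArithmeticFunction ℤ) b))]
  refine Finset.sum_congr rfl fun d _ => ?_
  rw [chiA_apply, ArithmeticFunction.natCoe_apply, ArithmeticFunction.sigma_zero_apply]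

/-- D3a -/
theorem bb_mul {m n : ℕ} (h : m.Coprime n) : bb (m * n) = bb m * bb n := by
  rw [bb_eq, bb_eq, bb_eq]
  exact (chiA_mult.mul ArithmeticFunction.isMultiplicative_sigma.natCast).map_mul_of_coprime h

theorem bb_prime_pow {q : ℕ} (hq : q.Prime) (k : ℕ) :
    bb (q ^ k) = ∑ j ∈ Finset.range (k + 1), chi3 q ^ j * ((k - j + 1 : ℕ) : ℤ) := by
  unfold bb
  rw [Nat.divisors_prime_pow hq, Finset.sum_map]
  refine Finset.sum_congr rfl fun j hj => ?_
  have hjk : j ≤ k := by
    have := Finset.mem_range.1 hj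
    omega
  simp only [Function.Embedding.coeFn_mk]
  rw [chi3_pow, Nat.pow_div hjk hq.pos, Nat.divisors_prime_pow hq, Finset.card_map,
    Finset.card_range]

/-- D3b -/
theorem bb_pow_one {q : ℕ} (hq : q.Prime) (h : q % 3 = 1) (k : ℕ) :
    bb (q ^ k) = ((k + 2).choose 2 : ℤ) := by
  have hc : chi3 q = 1 := by simp [chi3, h]
  rw [bb_prime_pow hq]
  simp only [hc, one_pow, one_mul]
  rw [← Nat.cast_sum]
  congr 1
  have h1 : ∑ j ∈ Finset.range (k + 1), (k - j + 1) = ∑ j ∈ Finset.range (k + 1), (j + 1) := by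
    rw [← Finset.sum_range_reflect]
    refine Finset.sum_congr rfl fun j hj => ?_
    have := Finset.mem_range.1 hj
    omega
  rw [h1]
  have h2 : ∑ j ∈ Finset.range (k + 1), (j + 1) = ∑ j ∈ Finset.range (k + 2), j := by
    rw [Finset.sum_range_succ' _ (k + 1)]
    simp
  rw [h2, Finset.sum_range_id, Nat.choose_two_right]

/-- D3c -/
theorem bb_pow_two {q : ℕ} (hq : q.Prime) (h : q % 3 = 2) (k : ℕ) :
    bb (q ^ k) = ((k / 2 + 1 : ℕ) : ℤ) := by
  have hc : chi3 q = -1 := by simp [chi3, h]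
  rw [bb_prime_pow hq]
  simp only [hc]
  -- two step recursion
  have key : ∀ k : ℕ, (∑ j ∈ Finset.range (k + 1), (-1 : ℤ) ^ j * ((k - j + 1 : ℕ) : ℤ)
      = ((k / 2 + 1 : ℕ) : ℤ)) := by
    intro k
    induction k using Nat.strong_induction_on with
    | _ k ih =>
      match k with
      | 0 => simp
      | 1 => simp [Finset.sum_range_succ]
      | k + 2 =>
        have h1 := ih k (by omega)
        rw [Finset.sum_range_succ', Finset.sum_range_succ']
        have h2 : ∑ j ∈ Finset.range (k + 1), (-1 : ℤ) ^ (j + 1 + 1) *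
            ((k + 2 - (j + 1 + 1) + 1 : ℕ) : ℤ) =
            ∑ j ∈ Finset.range (k + 1), (-1 : ℤ) ^ j * ((k - j + 1 : ℕ) : ℤ) := by
          refine Finset.sum_congr rfl fun j _ => ?_
          have e1 : k + 2 - (j + 1 + 1) + 1 = k - j + 1 := by omega
          rw [e1, pow_succ, pow_succ]
          ring
        rw [h2, h1]
        have e2 : k + 2 - (0 + 1) + 1 = k + 2 := by omega
        have e3 : (k + 2) / 2 = k / 2 + 1 := by omega
        rw [e2, e3]
        push_cast
        ring
  exact key k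

/-- D3d -/
theorem bb_pow_three (k : ℕ) : bb (3 ^ k) = ((k + 1 : ℕ) : ℤ) := by
  have hc : chi3 3 = 0 := by simp [chi3]
  rw [bb_prime_pow Nat.prime_three]
  simp only [hc]
  rw [Finset.sum_eq_single 0]
  · simp
  · intro j _ hj
    rw [zero_pow hj, zero_mul]
  · intro h
    exact absurd (Finset.mem_range.2 (Nat.succ_pos k)) h

end Pool.Agent.Work.Mu22
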