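import Pool.Agent.Work.MP_a4986b_nt.BClassB

set_option autoImplicit false
set_option maxHeartbeats 400000

/-! # Class numbers of all extensions of a fixed number field, from the regulator bound R2++ -/

namespace Pool.Agent.Work.MuB

open NumberField Module MeasureTheory NumberField.InfinitePlace NumberField.Units
open scoped nonZeroDivisors ENNReal NNReal Real Pointwise

/-- H1++ from R2++ -/
theorem class_le_all_of (k : Type) [Field k] [NumberField k] (m : ℕ)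
    (hR2 : ∃ C c : ℝ, 1 ≤ C ∧ 0 < c ∧
    ∀ (F : Type) [Field F] [NumberField F] [Algebra k F] (ρ : ℕ), finrank k F = m →
      (∀ F' : IntermediateField k F, F' ≠ ⊤ → Units.rank F' ≤ ρ) →
      C ≤ |(discr F : ℝ)| →
      c * (1 + Real.log |(discr F : ℝ)|) ^ (Units.rank F - ρ) ≤ regulator F) :
    ∃ C : ℝ, 0 < C ∧
    ∀ (F : Type) [Field F] [NumberField F] [Algebra k F] (ρ : ℕ), finrank k F = m →
      (∀ F' : IntermediateField k F, F' ≠ ⊤ → Units.rank F' ≤ ρ) → ρ ≤ Units.rank F →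
      (Nat.card (ClassGroup (𝓞 F)) : ℝ) * (1 + Real.log |(discr F : ℝ)|) ^
        ((Units.rank F : ℤ) - ρ - m + 1) ≤ C * √|(discr F : ℝ)| := by
  rcases Nat.eq_zero_or_pos m with rfl | hm
  · refine ⟨1, one_pos, fun F _ _ _ _ h => ?_⟩
    have hfin : Module.Finite k F := Module.Finite.of_restrictScalars_finite ℚ k F
    have : 0 < finrank k F := finrank_pos
    omega
  obtain ⟨C0, c, hC0, hc, hreg⟩ := hR2
  obtain ⟨C2, hC2, hcrude⟩ := class_le_gen k m
  choose! S hS0 hS using fun (r : ℕ) (hr : 1 ≤ r) => tsum_ideal_log_le k m r hm hr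
  set R : ℕ := m * (Units.rank k + 1) with hR
  set A : ℝ := ∑ r ∈ Finset.Icc 1 R, 2 ^ m * S r / c with hA
  have hSnn : ∀ r ∈ Finset.Icc 1 R, 0 ≤ 2 ^ m * S r / c := by
    intro r hr
    have := hS0 r (Finset.mem_Icc.mp hr).1
    positivity
  have hA0 : 0 ≤ A := Finset.sum_nonneg hSnn
  have hlC0 : 0 ≤ Real.log C0 := Real.log_nonneg hC0
  set B : ℝ := C2 * (1 + Real.log C0) ^ R with hB
  have hB0 : 0 < B := by positivity
  refine ⟨A + B, by positivity, fun F _ _ _ ρ0 hF hsub hρ0 => ?_⟩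
  obtain ⟨hr1, hr2⟩ := rank_bounds_gen k m F hF
  have hD := one_le_abs_discr F
  set D : ℝ := |(discr F : ℝ)| with hDdef
  have hD0 : 0 < D := by linarith
  have hL : 0 ≤ Real.log D := Real.log_nonneg hD
  have hL1 : 0 < 1 + Real.log D := by linarith
  have hsD : 0 ≤ √D := Real.sqrt_nonneg _
  have hh : (0 : ℝ) ≤ Nat.card (ClassGroup (𝓞 F)) := Nat.cast_nonneg _
  -- the exponent
  obtain ⟨ρ, hρ⟩ : ∃ ρ : ℕ, Units.rank F - ρ0 = ρ := ⟨_, rfl⟩
  have hexp : (Units.rank F : ℤ) - ρ0 - m + 1 = (ρ : ℤ) - m + 1 := by omega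
  rw [hexp]
  have hcr := hcrude F hF
  rw [← hDdef] at hcr
  -- the crude bound gives `h (1+L)^e ≤ C2 √D (1+L)^ρ`
  have hcr2 : (Nat.card (ClassGroup (𝓞 F)) : ℝ) * (1 + Real.log D) ^ ((ρ : ℤ) - m + 1) ≤
      C2 * √D * (1 + Real.log D) ^ ρ := by
    obtain ⟨n, rfl⟩ : ∃ n, m = n + 1 := ⟨m - 1, by omega⟩
    simp only [Nat.add_sub_cancel] at hcr
    rw [show (ρ : ℤ) - ((n + 1 : ℕ) : ℤ) + 1 = (ρ : ℤ) - (n : ℤ) by push_cast; ring,
      zpow_sub₀ hL1.ne', zpow_natCast, zpow_natCast, ← mul_div_assoc,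
      div_le_iff₀ (by positivity)]
    calc (Nat.card (ClassGroup (𝓞 F)) : ℝ) * (1 + Real.log D) ^ ρ
        ≤ (C2 * √D * (1 + Real.log D) ^ n) * (1 + Real.log D) ^ ρ :=
          mul_le_mul_of_nonneg_right hcr (by positivity)
      _ = _ := by ring
  rcases le_or_gt C0 D with hbig | hsmall
  · rcases Nat.eq_zero_or_pos (Units.rank F) with h0 | h0
    · have hρ0 : ρ = 0 := by omega
      subst hρ0
      rw [pow_zero, mul_one] at hcr2
      refine hcr2.trans (mul_le_mul_of_nonneg_right ?_ hsD)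
      have : (1 : ℝ) ≤ (1 + Real.log C0) ^ R := one_le_pow₀ (by linarith)
      nlinarith
    · have hreg' := hreg F ρ0 hF hsub hbig
      rw [hρ] at hreg'
      have hmain := class_bound F hc m ρ (hS0 _ h0) (hS (Units.rank F) h0 F hF) hreg' hm
      rw [← hDdef] at hmain
      refine hmain.trans (mul_le_mul_of_nonneg_right ?_ hsD)
      have : 2 ^ m * S (Units.rank F) / c ≤ A :=
        Finset.single_le_sum (f := fun r => 2 ^ m * S r / c) hSnn
          (Finset.mem_Icc.mpr ⟨h0, by omega⟩)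
      linarith
  · refine hcr2.trans ?_
    have h1 : (1 + Real.log D) ^ ρ ≤ (1 + Real.log C0) ^ R := by
      calc (1 + Real.log D) ^ ρ ≤ (1 + Real.log C0) ^ ρ :=
            pow_le_pow_left₀ hL1.le (by linarith [Real.log_le_log hD0 hsmall.le]) _
        _ ≤ _ := pow_le_pow_right₀ (by linarith) (by omega)
    calc C2 * √D * (1 + Real.log D) ^ ρ ≤ C2 * √D * (1 + Real.log C0) ^ R :=
          mul_le_mul_of_nonneg_left h1 (by positivity)
      _ = B * √D := by rw [hB]; ring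
      _ ≤ (A + B) * √D := mul_le_mul_of_nonneg_right (by linarith) hsD

/-- H2++ from H1++ -/
theorem not_dvd_all_of (k : Type) [Field k] [NumberField k] (m : ℕ)
    (hH1 : ∃ C : ℝ, 0 < C ∧
    ∀ (F : Type) [Field F] [NumberField F] [Algebra k F] (ρ : ℕ), finrank k F = m →
      (∀ F' : IntermediateField k F, F' ≠ ⊤ → Units.rank F' ≤ ρ) → ρ ≤ Units.rank F →
      (Nat.card (ClassGroup (𝓞 F)) : ℝ) * (1 + Real.log |(discr F : ℝ)|) ^
        ((Units.rank F : ℤ) - ρ - m + 1) ≤ C * √|(discr F : ℝ)|) :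
    ∃ c : ℝ, 0 < c ∧
    ∀ (F : Type) [Field F] [NumberField F] [Algebra k F] (ρ p : ℕ), p.Prime → finrank k F = m →
      (∀ F' : IntermediateField k F, F' ≠ ⊤ → Units.rank F' ≤ ρ) → ρ ≤ Units.rank F →
      |(discr F : ℝ)| ≤ c * (p : ℝ) ^ 2 *
        (1 + Real.log p) ^ (2 * ((Units.rank F : ℤ) - ρ - m + 1)) →
      ¬ p ∣ Nat.card (ClassGroup (𝓞 F)) := by
  obtain ⟨C, hC, h⟩ := hH1
  obtain ⟨c, hc, hc1, H⟩ := not_dvd_of_bound C (m * (Units.rank k + 1) + m)
  refine ⟨c, hc, fun F _ _ _ ρ p hp hF hsub hρ hD => ?_⟩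
  obtain ⟨hr1, hr2⟩ := rank_bounds_gen k m F hF
  refine H _ p _ _ hp ?_ (one_le_abs_discr F) ?_ (h F ρ hF hsub hρ) hD
  · exact Nat.card_pos
  · rw [abs_le]
    have h1 : (Units.rank F : ℤ) + 1 ≤ ((m * (Units.rank k + 1) : ℕ) : ℤ) := by exact_mod_cast hr2
    have h2 : (ρ : ℤ) ≤ Units.rank F := by exact_mod_cast hρ
    constructor <;> push_cast at * <;> omega

end Pool.Agent.Work.MuB
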