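import Pool.Agent.Work.MP_a4986b_nt.BTower
import Pool.Agent.Work.MP_a4986b_nt.IFinal

set_option autoImplicit false
set_option maxHeartbeats 400000

/-! # The common conclusion of all hand-ins -/

namespace Pool.Agent.Work.MuB

open NumberField Module

/-- the statement of Q1 for the prime `p` and the field `L`: the exponent of `p` in the class
number of `L Q_m` is at most `C (m + 1)`, where `Q_m` is the subfield of degree `p ^ m` of
`ℚ(ζ_(p^(m+1)))` -/
def MuZero (p : ℕ) (L : IntermediateField ℚ ℂ) : Prop :=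
  ∃ C : ℕ, ∀ (m : ℕ) (E : IntermediateField ℚ ℂ),
    E ≤ IntermediateField.adjoin ℚ {z : ℂ | z ^ (p ^ (m + 1)) = 1} →
    finrank ℚ E = p ^ m →
    padicValNat p (Nat.card (ClassGroup (𝓞 ↥(L ⊔ E)))) ≤ C * (m + 1)

/-- conclusion for `F` and `p`: for every Galois extension `L / F` of `p`-power degree inside `ℂ`
(a) Q1 holds for `p` and every subfield of `L` of index prime to `p`;
(b) if `L / F` is unramified outside `p` then no class number of a layer `L Q_m` is divisible
by `p` -/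
def Extensions (p : ℕ) (F : Type) [Field F] [NumberField F] : Prop :=
  ∀ (L : IntermediateField ℚ ℂ) [NumberField L] [Algebra F L] [IsGalois F L] (n : ℕ),
    finrank F L = p ^ n →
    (∀ L' : IntermediateField ℚ ℂ, L' ≤ L → ¬ p ∣ IntermediateField.relfinrank L' L →
      MuZero p L') ∧
    ((∀ Q : Ideal (𝓞 L), Q.IsPrime → Q ≠ ⊥ → (p : 𝓞 L) ∉ Q → Q.ramificationIdx (𝓞 F) = 1) →
      ∀ (m : ℕ) (E : IntermediateField ℚ ℂ),
        E ≤ IntermediateField.adjoin ℚ {z : ℂ | z ^ (p ^ (m + 1)) = 1} →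
        finrank ℚ E = p ^ m → ¬ p ∣ Nat.card (ClassGroup (𝓞 ↥(L ⊔ E))))

theorem extensions {F : Type} [Field F] [NumberField F] {p : ℕ} (hp : p.Prime) (hp2 : p ≠ 2)
    (hF : ¬ p ∣ Nat.card (ClassGroup (𝓞 F)))
    (hone : ∃! P : Ideal (𝓞 F), P.IsPrime ∧ (p : 𝓞 F) ∈ P) : Extensions p F := by
  intro L _ _ _ n hn
  exact ⟨fun L' hL' hcop => MuI.mu_final hp hp2 hF hone L n hn L' hL' hcop,
    fun hun m E hE hEd => concl hp hp2 hF hone L n hn hun m E hE hEd⟩

end Pool.Agent.Work.MuB
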