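import Mathlib

set_option autoImplicit false
set_option maxHeartbeats 400000

/-! # The covering inequality `h R ≤ ∑ (log⁺ (M / N I)) ^ r` for `M > (2/π)^(r₂) √|D|` -/

namespace Pool.Agent.Work.MuB

open NumberField Module MeasureTheory NumberField.InfinitePlace NumberField.Units
open NumberField.Units.dirichletUnitTheorem
open scoped nonZeroDivisors ENNReal NNReal Real Pointwise

section

variable {F : Type*} [Field F] [NumberField F]

/-- Minkowski's theorem for an integral ideal -/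
theorem minkowski (J : (Ideal (𝓞 F))⁰) (f : InfinitePlace F → ℝ) (hf : ∀ w, 0 < f w)
    (h : (2 / π) ^ nrComplexPlaces F * √|(discr F : ℝ)| * Ideal.absNorm (J : Ideal (𝓞 F)) <
      ∏ w, f w ^ mult w) :
    ∃ a : 𝓞 F, a ∈ (J : Ideal (𝓞 F)) ∧ a ≠ 0 ∧ ∀ w : InfinitePlace F, w (a : F) < f w := by
  classical
  set I : (FractionalIdeal (𝓞 F)⁰ F)ˣ := FractionalIdeal.mk0 F J with hI
  have hvol : mixedEmbedding.minkowskiBound F I <
      volume (mixedEmbedding.convexBodyLT F fun w => (f w).toNNReal) := by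
    have e1 : mixedEmbedding.minkowskiBound F I =
        ENNReal.ofReal (Ideal.absNorm (J : Ideal (𝓞 F)) *
          ((2 : ℝ)⁻¹ ^ nrComplexPlaces F * √|(discr F : ℝ)|) * 2 ^ finrank ℚ F) := by
      rw [mixedEmbedding.minkowskiBound,
        mixedEmbedding.volume_fundamentalDomain_fractionalIdealLatticeBasis,
        mixedEmbedding.volume_fundamentalDomain_latticeBasis, mixedEmbedding.finrank]
      have hn : (FractionalIdeal.absNorm I.1 : ℚ) = Ideal.absNorm (J : Ideal (𝓞 F)) := by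
        rw [hI, FractionalIdeal.coe_mk0, FractionalIdeal.coeIdeal_absNorm]
      rw [hn, ENNReal.ofReal_mul (by positivity), ENNReal.ofReal_mul (by positivity),
        ENNReal.ofReal_mul (by positivity), ENNReal.ofReal_pow (by positivity),
        ENNReal.ofReal_pow (by positivity), ENNReal.ofReal_inv_of_pos (by norm_num)]
      have h2 : ENNReal.ofReal 2 = 2 := by simp
      have h3 : ENNReal.ofReal √|(discr F : ℝ)| = (NNReal.sqrt ‖discr F‖₊ : ℝ≥0∞) := by
        rw [ENNReal.ofReal]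
        congr 1
        ext
        rw [Real.coe_toNNReal _ (Real.sqrt_nonneg _), Real.coe_sqrt, coe_nnnorm,
          Int.norm_eq_abs]
      rw [h2, h3]
      simp
    rw [e1, mixedEmbedding.convexBodyLT_volume]
    have e2 : ((mixedEmbedding.convexBodyLTFactor F : ℝ≥0∞) *
        ((∏ w, (f w).toNNReal ^ mult w : ℝ≥0) : ℝ≥0∞)) =
        ENNReal.ofReal (2 ^ nrRealPlaces F * π ^ nrComplexPlaces F * ∏ w, f w ^ mult w) := by
      have : (2 : ℝ) ^ nrRealPlaces F * π ^ nrComplexPlaces F * ∏ w, f w ^ mult w =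
          ((mixedEmbedding.convexBodyLTFactor F * ∏ w, (f w).toNNReal ^ mult w : ℝ≥0) : ℝ) := by
        push_cast
        congr 1
        refine Finset.prod_congr rfl fun w _ => ?_
        rw [Real.coe_toNNReal _ (hf w).le]
      rw [this, ENNReal.ofReal_coe_nnreal]
      push_cast
      rfl
    rw [e2]
    refine (ENNReal.ofReal_lt_ofReal_iff ?_).mpr ?_
    · have : 0 < ∏ w, f w ^ mult w := Finset.prod_pos fun w _ => pow_pos (hf w) _
      positivity
    · have hn : finrank ℚ F = nrRealPlaces F + 2 * nrComplexPlaces F :=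
        (card_add_two_mul_card_eq_rank F).symm
      have hpi : (0 : ℝ) < π := Real.pi_pos
      rw [hn, pow_add, pow_mul]
      have h4 : ((2 : ℝ)⁻¹ ^ nrComplexPlaces F * √|(discr F : ℝ)|) *
          (2 ^ nrRealPlaces F * (2 ^ 2) ^ nrComplexPlaces F) =
          2 ^ nrRealPlaces F * π ^ nrComplexPlaces F *
            ((2 / π) ^ nrComplexPlaces F * √|(discr F : ℝ)|) := by
        have : ((2 : ℝ)⁻¹) ^ nrComplexPlaces F * (2 ^ 2) ^ nrComplexPlaces F =
            π ^ nrComplexPlaces F * (2 / π) ^ nrComplexPlaces F := by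
          rw [← mul_pow, ← mul_pow]
          congr 1
          field_simp
        calc _ = (2 : ℝ) ^ nrRealPlaces F * √|(discr F : ℝ)| *
              (((2 : ℝ)⁻¹) ^ nrComplexPlaces F * (2 ^ 2) ^ nrComplexPlaces F) := by ring
          _ = _ := by rw [this]; ring
      rw [mul_assoc, h4]
      have h5 : (0 : ℝ) < 2 ^ nrRealPlaces F * π ^ nrComplexPlaces F := by positivity
      have := mul_lt_mul_of_pos_left h h5
      linarith
  obtain ⟨a, ha, ha0, hlt⟩ := mixedEmbedding.exists_ne_zero_mem_ideal_lt F I hvol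
  rw [hI, FractionalIdeal.coe_mk0, FractionalIdeal.mem_coeIdeal] at ha
  obtain ⟨x, hx, rfl⟩ := ha
  refine ⟨x, hx, ?_, fun w => ?_⟩
  · rintro rfl
    exact ha0 (by simp)
  · have := hlt w
    rwa [Real.coe_toNNReal _ (hf w).le] at this

/-- the log vector of a nonzero element, without the place `w₀` -/
noncomputable def lv (a : 𝓞 F) : logSpace F := fun w => mult w.1 * Real.log (w.1 (a : F))

omit [NumberField F] in
theorem place_pos (w : InfinitePlace F) {a : 𝓞 F} (ha : a ≠ 0) : 0 < w (a : F) := by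
  rw [InfinitePlace.pos_iff]
  exact RingOfIntegers.coe_ne_zero_iff.mpr ha

theorem lv_mul {a b : 𝓞 F} (ha : a ≠ 0) (hb : b ≠ 0) : lv (a * b) = lv a + lv b := by
  ext w
  have h1 := (place_pos w.1 ha).ne'
  have h2 := (place_pos w.1 hb).ne'
  simp only [lv, Pi.add_apply, map_mul]
  rw [Real.log_mul h1 h2]
  ring

theorem lv_unit (u : (𝓞 F)ˣ) : lv (u : 𝓞 F) = logEmbedding F (Additive.ofMul u) := rfl

/-- the box attached to a vector and a size -/
def box (x : logSpace F) (S : ℝ) : Set (logSpace F) :=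
  Set.pi Set.univ fun w => Set.Ioo (-x w - S) (-x w)

theorem mem_box {x y : logSpace F} {S : ℝ} : y ∈ box x S ↔ ∀ w, -x w - S < y w ∧ y w < -x w := by
  simp [box, Set.mem_pi]

open scoped Classical in
theorem volume_box (x : logSpace F) (S : ℝ) :
    volume (box x S) = ENNReal.ofReal S ^ Units.rank F := by
  rw [box, Real.volume_pi_Ioo]
  have h1 : ∀ w : {w : InfinitePlace F // w ≠ w₀}, -x w - (-x w - S) = S := fun w => by ring
  simp only [h1, Finset.prod_const, Finset.card_univ]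
  congr 1
  rw [← Module.finrank_fintype_fun_eq_card ℝ]
  exact NumberField.Units.finrank_eq_rank F

theorem key (J : (Ideal (𝓞 F))⁰) {M : ℝ}
    (hM : (2 / π) ^ nrComplexPlaces F * √|(discr F : ℝ)| < M) (τ : logSpace F) :
    ∃ a : 𝓞 F, a ∈ (J : Ideal (𝓞 F)) ∧ a ≠ 0 ∧
      τ ∈ box (lv a) (Real.log (M * Ideal.absNorm (J : Ideal (𝓞 F)) /
        Ideal.absNorm (Ideal.span {a}))) := by
  classical
  have hM0 : 0 < M := lt_of_le_of_lt (by positivity) hM
  have hJ : 0 < (Ideal.absNorm (J : Ideal (𝓞 F)) : ℝ) := by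
    exact_mod_cast Nat.pos_of_ne_zero (Ideal.absNorm_ne_zero_of_nonZeroDivisors J)
  set f : InfinitePlace F → ℝ := fun w => if h : w ≠ w₀ then Real.exp (-τ ⟨w, h⟩ / mult w)
    else Real.exp ((Real.log (M * Ideal.absNorm (J : Ideal (𝓞 F))) + ∑ v, τ v) / mult w) with hf
  have hf0 : ∀ w, 0 < f w := fun w => by
    rw [hf]
    dsimp only
    split_ifs <;> exact Real.exp_pos _
  have hm : ∀ w : InfinitePlace F, (mult w : ℝ) ≠ 0 := fun w => by
    exact_mod_cast (mult_pos (w := w)).ne'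
  have h1 : ∀ w (h : w ≠ w₀), f w = Real.exp (-τ ⟨w, h⟩ / mult w) := fun w h => by
    rw [hf]; dsimp only; rw [dif_pos h]
  have h2 : f w₀ = Real.exp ((Real.log (M * Ideal.absNorm (J : Ideal (𝓞 F))) + ∑ v, τ v) /
      mult (w₀ : InfinitePlace F)) := by
    rw [hf]; dsimp only; rw [dif_neg (by simp)]
  have hprod : ∏ w, f w ^ mult w = M * Ideal.absNorm (J : Ideal (𝓞 F)) := by
    rw [Fintype.prod_eq_mul_prod_subtype_ne _ (w₀ : InfinitePlace F), h2, ← Real.exp_nat_mul,
      mul_div_cancel₀ _ (hm _)]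
    have h3 : ∀ w : {w : InfinitePlace F // w ≠ w₀}, f w.1 ^ mult w.1 = Real.exp (-τ w) := fun w => by
      rw [h1 w.1 w.2, ← Real.exp_nat_mul, mul_div_cancel₀ _ (hm _)]
    rw [Finset.prod_congr rfl fun w _ => h3 w, ← Real.exp_sum, ← Real.exp_add,
      Finset.sum_neg_distrib, add_neg_cancel_right, Real.exp_log (by positivity)]
  obtain ⟨a, haJ, ha0, hlt⟩ := minkowski J f hf0 (by
    rw [hprod]
    exact mul_lt_mul_of_pos_right hM hJ)
  refine ⟨a, haJ, ha0, ?_⟩
  have hspan : Ideal.span {a} ≠ ⊥ := by simpa using ha0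
  have hN : 0 < (Ideal.absNorm (Ideal.span {a}) : ℝ) := by
    exact_mod_cast Nat.pos_of_ne_zero (Ideal.absNorm_eq_zero_iff.not.mpr hspan)
  have hlogN : Real.log (Ideal.absNorm (Ideal.span {a})) =
      mult (w₀ : InfinitePlace F) * Real.log (w₀ (a : F)) + ∑ w, lv a w := by
    have h4 := InfinitePlace.prod_eq_abs_norm (a : F)
    have h5 : (Ideal.absNorm (Ideal.span {a}) : ℝ) = ∏ w : InfinitePlace F, w (a : F) ^ mult w := by
      rw [h4, Ideal.absNorm_span_singleton]
      rw [show (Algebra.norm ℚ (a : F) : ℚ) = ((Algebra.norm ℤ a : ℤ) : ℚ) from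
        (Algebra.coe_norm_int a).symm]
      push_cast [Nat.cast_natAbs]
      rfl
    rw [h5, Real.log_prod fun w _ => (pow_pos (place_pos w ha0) _).ne',
      Fintype.sum_eq_add_sum_subtype_ne _ (w₀ : InfinitePlace F)]
    simp only [Real.log_pow, lv]
  have hlt0 : mult (w₀ : InfinitePlace F) * Real.log (w₀ (a : F)) <
      Real.log (M * Ideal.absNorm (J : Ideal (𝓞 F))) + ∑ v, τ v := by
    have h6 := hlt w₀
    rw [h2] at h6
    have h7 := (Real.log_lt_iff_lt_exp (place_pos w₀ ha0)).mpr h6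
    have h8 : (0 : ℝ) < mult (w₀ : InfinitePlace F) := by exact_mod_cast mult_pos
    rw [lt_div_iff₀ h8] at h7
    linarith
  have hlt1 : ∀ w : {w : InfinitePlace F // w ≠ w₀}, lv a w < -τ w := fun w => by
    have h6 := hlt w.1
    rw [h1 w.1 w.2] at h6
    have h7 := (Real.log_lt_iff_lt_exp (place_pos w.1 ha0)).mpr h6
    have h8 : (0 : ℝ) < mult w.1 := by exact_mod_cast mult_pos
    rw [lt_div_iff₀ h8] at h7
    simp only [lv]
    linarith
  rw [mem_box]
  intro w
  refine ⟨?_, by linarith [hlt1 w]⟩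
  have hsum : -τ w - lv a w ≤ ∑ v, (-τ v - lv a v) :=
    Finset.single_le_sum (f := fun v => -τ v - lv a v)
      (fun v _ => by linarith [hlt1 v]) (Finset.mem_univ w)
  rw [Finset.sum_sub_distrib, Finset.sum_neg_distrib] at hsum
  rw [Real.log_div (by positivity) hN.ne', hlogN]
  linarith

theorem countable_ideals : Countable (Ideal (𝓞 F))⁰ := by
  have h : (Set.univ : Set (Ideal (𝓞 F))).Countable := by
    have : (Set.univ : Set (Ideal (𝓞 F))) = ⋃ n : ℕ, {I | Ideal.absNorm I = n} := by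
      ext I; simp
    rw [this]
    exact Set.countable_iUnion fun n => (Ideal.finite_setOfPred_absNorm_eq n).countable
  have h2 : Countable (Ideal (𝓞 F)) := Set.countable_univ_iff.mp h
  infer_instance

open scoped Classical in
/-- one ideal class -/
theorem covering_class (C : ClassGroup (𝓞 F)) {M : ℝ}
    (hM : (2 / π) ^ nrComplexPlaces F * √|(discr F : ℝ)| < M) :
    ENNReal.ofReal (regulator F) ≤
      ∑' I : (ClassGroup.mk0 : (Ideal (𝓞 F))⁰ → ClassGroup (𝓞 F)) ⁻¹' {C},
        ENNReal.ofReal (Real.log (M / Ideal.absNorm (I.1 : Ideal (𝓞 F)))) ^ Units.rank F := by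
  have hM0 : 0 < M := lt_of_le_of_lt (by positivity) hM
  obtain ⟨J, hJ⟩ := ClassGroup.mk0_surjective C⁻¹
  have hJN : (Ideal.absNorm (J : Ideal (𝓞 F)) : ℝ) ≠ 0 := by
    exact_mod_cast Ideal.absNorm_ne_zero_of_nonZeroDivisors J
  -- a generator of `I J`
  have hgen : ∀ I : (ClassGroup.mk0 : (Ideal (𝓞 F))⁰ → ClassGroup (𝓞 F)) ⁻¹' {C},
      ∃ a : 𝓞 F, Ideal.span {a} = (I.1 : Ideal (𝓞 F)) * J := by
    rintro ⟨I, hI⟩
    have h1 : ClassGroup.mk0 (I * J) = 1 := by
      rw [map_mul, hJ, show ClassGroup.mk0 I = C from hI, mul_inv_cancel]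
    have h2 := (ClassGroup.mk0_eq_one_iff (I * J).2).mp h1
    obtain ⟨a, ha⟩ := h2.principal
    exact ⟨a, by rw [← Ideal.submodule_span_eq, ← ha]; rfl⟩
  choose g hg using hgen
  have hg0 : ∀ I, g I ≠ 0 := fun I h0 => by
    have h1 := hg I
    rw [h0, Ideal.span_singleton_zero, eq_comm, Ideal.mul_eq_bot] at h1
    rcases h1 with h1 | h1
    · exact nonZeroDivisors.coe_ne_zero I.1 h1
    · exact nonZeroDivisors.coe_ne_zero J h1
  set Λ := unitLattice F with hΛ
  set b := Module.Free.chooseBasis ℤ Λ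
  have hD := ZLattice.isAddFundamentalDomain b (volume : Measure (logSpace F))
  set D : Set (logSpace F) := ZSpan.fundamentalDomain (b.ofZLatticeBasis ℝ Λ) with hDdef
  have hcov : ENNReal.ofReal (regulator F) = volume D := by
    rw [NumberField.Units.regulator, ZLattice.covolume_eq_measure_fundamentalDomain _ _ hD,
      Measure.real, ENNReal.ofReal_toReal]
    exact (ZSpan.fundamentalDomain_isBounded _).measure_lt_top.ne
  have : Countable (Ideal (𝓞 F))⁰ := countable_ideals
  have : MeasurableVAdd Λ (logSpace F) :=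
    (inferInstance : MeasurableVAdd Λ.toAddSubgroup (logSpace F))
  have : VAddInvariantMeasure Λ (logSpace F) volume :=
    (inferInstance : VAddInvariantMeasure Λ.toAddSubgroup (logSpace F) volume)
  have : Countable Λ := by
    have : DiscreteTopology Λ := instDiscrete_unitLattice F
    infer_instance
  set X : (ClassGroup.mk0 : (Ideal (𝓞 F))⁰ → ClassGroup (𝓞 F)) ⁻¹' {C} → Set (logSpace F) :=
    fun I => box (lv (g I)) (Real.log (M / Ideal.absNorm (I.1 : Ideal (𝓞 F)))) with hX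
  have hsub : D ⊆ ⋃ I, ⋃ l : Λ, ((l +ᵥ X I) ∩ D) := by
    intro τ hτ
    obtain ⟨a, haJ, ha0, hbox⟩ := key J hM τ
    have hdvd : (J : Ideal (𝓞 F)) ∣ Ideal.span {a} := by
      rw [Ideal.dvd_span_singleton]; exact haJ
    obtain ⟨I₀, hI₀⟩ := hdvd
    have hI₀0 : I₀ ∈ (Ideal (𝓞 F))⁰ := by
      rw [mem_nonZeroDivisors_iff_ne_zero]
      rintro rfl
      apply ha0
      simpa using hI₀
    have hC : ClassGroup.mk0 (⟨I₀, hI₀0⟩ : (Ideal (𝓞 F))⁰) = C := by
      have h1 : ClassGroup.mk0 (J * ⟨I₀, hI₀0⟩) = 1 := by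
        rw [ClassGroup.mk0_eq_one_iff]
        exact ⟨a, by rw [Ideal.submodule_span_eq, hI₀]; rfl⟩
      rw [map_mul, hJ] at h1
      have := eq_inv_of_mul_eq_one_right h1
      simpa using this
    set I : (ClassGroup.mk0 : (Ideal (𝓞 F))⁰ → ClassGroup (𝓞 F)) ⁻¹' {C} :=
      ⟨⟨I₀, hI₀0⟩, hC⟩ with hI
    have hassoc : Ideal.span {a} = Ideal.span {g I} := by
      rw [hg I, hI₀, mul_comm]
    rw [Ideal.span_singleton_eq_span_singleton] at hassoc
    obtain ⟨u, hu⟩ := hassoc.symm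
    have hlv : lv a = lv (g I) + logEmbedding F (Additive.ofMul u) := by
      rw [← hu, lv_mul (hg0 I) u.ne_zero, lv_unit]
    have hmem : logEmbedding F (Additive.ofMul u) ∈ Λ :=
      ⟨Additive.ofMul u, trivial, rfl⟩
    rw [Set.mem_iUnion]
    refine ⟨I, ?_⟩
    rw [Set.mem_iUnion]
    refine ⟨-⟨_, hmem⟩, ⟨?_, hτ⟩⟩
    rw [Set.mem_vadd_set_iff_neg_vadd_mem, neg_neg]
    have hN : (Ideal.absNorm (Ideal.span {a}) : ℝ) =
        Ideal.absNorm (J : Ideal (𝓞 F)) * Ideal.absNorm I₀ := by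
      rw [hI₀, map_mul]; push_cast; rfl
    have hS : M * Ideal.absNorm (J : Ideal (𝓞 F)) / Ideal.absNorm (Ideal.span {a}) =
        M / Ideal.absNorm I₀ := by
      rw [hN, mul_comm M, mul_div_mul_left _ _ hJN]
    rw [hS, mem_box] at hbox
    rw [hX]
    dsimp only
    rw [mem_box]
    intro w
    have h1 := hbox w
    rw [hlv] at h1
    have h2 : ((⟨logEmbedding F (Additive.ofMul u), hmem⟩ : Λ) +ᵥ τ) w =
        logEmbedding F (Additive.ofMul u) w + τ w := rfl
    rw [h2]
    simp only [Pi.add_apply] at h1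
    constructor <;> linarith [h1.1, h1.2]
  calc ENNReal.ofReal (regulator F) = volume D := hcov
    _ ≤ volume (⋃ I, ⋃ l : Λ, ((l +ᵥ X I) ∩ D)) := measure_mono hsub
    _ ≤ ∑' I, volume (⋃ l : Λ, ((l +ᵥ X I) ∩ D)) := measure_iUnion_le _
    _ ≤ ∑' I, ∑' l : Λ, volume ((l +ᵥ X I) ∩ D) :=
        ENNReal.tsum_le_tsum fun I => measure_iUnion_le _
    _ = ∑' I, volume (X I) := tsum_congr fun I => (hD.measure_eq_tsum (X I)).symm
    _ = _ := tsum_congr fun I => volume_box _ _

/-- the covering inequality -/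
theorem covering {M : ℝ} (hM : (2 / π) ^ nrComplexPlaces F * √|(discr F : ℝ)| < M) :
    ENNReal.ofReal (Nat.card (ClassGroup (𝓞 F)) * regulator F) ≤
      ∑' I : (Ideal (𝓞 F))⁰,
        ENNReal.ofReal (Real.log (M / Ideal.absNorm (I : Ideal (𝓞 F)))) ^ Units.rank F := by
  rw [← ENNReal.tsum_fiberwise _ (ClassGroup.mk0 : (Ideal (𝓞 F))⁰ → ClassGroup (𝓞 F)),
    ENNReal.ofReal_mul (by positivity), ENNReal.ofReal_natCast, Nat.card_eq_fintype_card,
    tsum_fintype, ← nsmul_eq_mul, ← Finset.card_univ]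
  exact Finset.card_nsmul_le_sum _ _ _ fun C _ => covering_class C hM

end

end Pool.Agent.Work.MuB
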