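import Mathlib

set_option autoImplicit false
set_option maxHeartbeats 400000

/-! # The fields `K(√(p α))`: one prime above an inert `p`, signature -/

namespace Pool.Agent.Work.MuB

open NumberField Module NumberField.InfinitePlace NumberField.Units
open scoped nonZeroDivisors Real

section OnePrime

variable {K F : Type*} [Field K] [NumberField K] [Field F] [NumberField F] [Algebra K F]

theorem absNorm_comap_le (P : Ideal (𝓞 F)) (h0 : P ≠ ⊥) :
    Ideal.absNorm (P.comap (algebraMap (𝓞 K) (𝓞 F))) ≤ Ideal.absNorm P := by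
  rw [Ideal.absNorm_apply, Ideal.absNorm_apply, Submodule.cardQuot_apply,
    Submodule.cardQuot_apply]
  have : Finite (𝓞 F ⧸ P) := Ideal.finiteQuotientOfFreeOfNeBot P h0
  exact Nat.card_le_card_of_injective
    (Ideal.quotientMap P (algebraMap (𝓞 K) (𝓞 F)) le_rfl) Ideal.quotientMap_injective

theorem absNorm_span_nat (p : ℕ) :
    Ideal.absNorm (Ideal.span {(p : 𝓞 F)}) = p ^ finrank ℚ F := by
  rw [Ideal.absNorm_span_singleton]
  have : Algebra.norm ℤ (p : 𝓞 F) = (p : ℤ) ^ finrank ℤ (𝓞 F) := by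
    have := Algebra.norm_algebraMap_of_basis (Free.chooseBasis ℤ (𝓞 F)) (p : ℤ)
    rw [← finrank_eq_card_chooseBasisIndex] at this
    rw [← this]
    congr 1
    simp
  rw [this, RingOfIntegers.rank, Int.natAbs_pow, Int.natAbs_natCast]

/-- `p` inert in `K`, `z² = p α` with `p ∤ α`: there is exactly one prime above `p` -/
theorem existsUnique_prime {p : ℕ} (hp : p.Prime) (hin : (Ideal.span {(p : 𝓞 K)}).IsPrime)
    (h2 : finrank K F = 2)
    (a : 𝓞 K) (ha : a ∉ Ideal.span {(p : 𝓞 K)}) (z : 𝓞 F)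
    (hz : z ^ 2 = algebraMap (𝓞 K) (𝓞 F) ((p : 𝓞 K) * a)) :
    ∃! P : Ideal (𝓞 F), P.IsPrime ∧ (p : 𝓞 F) ∈ P := by
  have hp0 : (p : 𝓞 F) ≠ 0 := by exact_mod_cast hp.ne_zero
  have hpK0 : (p : 𝓞 K) ≠ 0 := by exact_mod_cast hp.ne_zero
  have hmaxK : (Ideal.span {(p : 𝓞 K)}).IsMaximal :=
    hin.isMaximal (by simpa using hpK0)
  have hnotunit : ¬ IsUnit (p : 𝓞 F) := by
    intro hu
    have h1 : Ideal.span {(p : 𝓞 F)} = ⊤ := Ideal.span_singleton_eq_top.mpr hu
    have h3 := absNorm_span_nat (F := F) p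
    rw [h1, Ideal.absNorm_top] at h3
    have h4 : 0 < finrank ℚ F := finrank_pos
    have := Nat.one_lt_pow h4.ne' hp.one_lt
    omega
  obtain ⟨P, hPm, hpP⟩ := Ideal.exists_le_maximal (Ideal.span {(p : 𝓞 F)})
    (fun h => hnotunit (Ideal.span_singleton_eq_top.mp h))
  have hpP' : (p : 𝓞 F) ∈ P := hpP (Ideal.mem_span_singleton_self _)
  refine ⟨P, ⟨hPm.isPrime, hpP'⟩, ?_⟩
  rintro Q ⟨hQ, hpQ⟩
  by_contra hne
  have hne0 : ∀ R : Ideal (𝓞 F), (p : 𝓞 F) ∈ R → R ≠ ⊥ := fun R hR h => by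
    rw [h] at hR
    exact hp0 (by simpa using hR)
  have hQm : Q.IsMaximal := hQ.isMaximal (hne0 Q hpQ)
  -- contraction
  have hcomap : ∀ R : Ideal (𝓞 F), R.IsPrime → (p : 𝓞 F) ∈ R →
      R.comap (algebraMap (𝓞 K) (𝓞 F)) = Ideal.span {(p : 𝓞 K)} := by
    intro R hR hpR
    refine (hmaxK.eq_of_le ?_ ?_).symm
    · exact (Ideal.IsPrime.comap (algebraMap (𝓞 K) (𝓞 F))).ne_top
    · rw [Ideal.span_singleton_le_iff_mem, Ideal.mem_comap]
      simpa using hpR
  have hnorm : ∀ R : Ideal (𝓞 F), R.IsPrime → (p : 𝓞 F) ∈ R →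
      p ^ finrank ℚ K ≤ Ideal.absNorm R := by
    intro R hR hpR
    have := absNorm_comap_le (K := K) R (hne0 R hpR)
    rwa [hcomap R hR hpR, absNorm_span_nat] at this
  have hzR : ∀ R : Ideal (𝓞 F), R.IsPrime → (p : 𝓞 F) ∈ R → z ∈ R := by
    intro R hR hpR
    refine hR.mem_of_pow_mem 2 ?_
    rw [hz, map_mul, map_natCast]
    exact R.mul_mem_right _ hpR
  have hαR : ∀ R : Ideal (𝓞 F), R.IsPrime → (p : 𝓞 F) ∈ R →
      algebraMap (𝓞 K) (𝓞 F) a ∉ R := by
    intro R hR hpR h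
    apply ha
    rw [← hcomap R hR hpR]
    exact h
  have hcopPQ : IsCoprime P Q := by
    rw [Ideal.isCoprime_iff_sup_eq]
    exact hPm.coprime_of_ne hQm (fun h => hne h.symm)
  have hPQz : P * Q ∣ Ideal.span {z} := by
    rw [Ideal.dvd_span_singleton, Ideal.mul_eq_inf_of_isCoprime hcopPQ]
    exact ⟨hzR P hPm.isPrime hpP', hzR Q hQ hpQ⟩
  have hsq : (P * Q) ^ 2 ∣ Ideal.span {(p : 𝓞 F)} * Ideal.span {algebraMap (𝓞 K) (𝓞 F) a} := by
    rw [Ideal.span_singleton_mul_span_singleton]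
    have h5 : (p : 𝓞 F) * algebraMap (𝓞 K) (𝓞 F) a = z ^ 2 := by
      rw [hz, map_mul, map_natCast]
    rw [h5, ← Ideal.span_singleton_pow]
    exact pow_dvd_pow_of_dvd hPQz 2
  have hcopA : ∀ R : Ideal (𝓞 F), R.IsMaximal → (p : 𝓞 F) ∈ R →
      IsCoprime R (Ideal.span {algebraMap (𝓞 K) (𝓞 F) a}) := by
    intro R hR hpR
    rw [Ideal.isCoprime_iff_sup_eq]
    by_contra h
    have h6 : R = R ⊔ Ideal.span {algebraMap (𝓞 K) (𝓞 F) a} := hR.eq_of_le h le_sup_left
    apply hαR R hR.isPrime hpR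
    rw [h6]
    exact Ideal.mem_sup_right (Ideal.mem_span_singleton_self _)
  have hcop2 : IsCoprime ((P * Q) ^ 2) (Ideal.span {algebraMap (𝓞 K) (𝓞 F) a}) :=
    ((hcopA P hPm hpP').mul_left (hcopA Q hQm hpQ)).pow_left
  have hdvd : (P * Q) ^ 2 ∣ Ideal.span {(p : 𝓞 F)} := hcop2.dvd_of_dvd_mul_right hsq
  have hle := Nat.le_of_dvd (by
    rw [absNorm_span_nat]
    exact pow_pos hp.pos _) (map_dvd Ideal.absNorm hdvd)
  rw [map_pow, map_mul, absNorm_span_nat] at hle
  have h7 := hnorm P hPm.isPrime hpP'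
  have h8 := hnorm Q hQ hpQ
  have h9 : finrank ℚ F = finrank ℚ K * 2 := by
    rw [← Module.finrank_mul_finrank ℚ K F, h2]
  rw [h9, pow_mul] at hle
  have h10 : 1 < p ^ finrank ℚ K := Nat.one_lt_pow finrank_pos.ne' hp.one_lt
  have h11 : (p ^ finrank ℚ K) * (p ^ finrank ℚ K) ≤ Ideal.absNorm P * Ideal.absNorm Q :=
    Nat.mul_le_mul h7 h8
  have h12 : ((p ^ finrank ℚ K) * (p ^ finrank ℚ K)) ^ 2 ≤
      (Ideal.absNorm P * Ideal.absNorm Q) ^ 2 := Nat.pow_le_pow_left h11 2
  have h13 : ((p ^ finrank ℚ K) * (p ^ finrank ℚ K)) ^ 2 ≤ (p ^ finrank ℚ K) ^ 2 := h12.trans hle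
  have h14 : (p ^ finrank ℚ K) * (p ^ finrank ℚ K) ≤ p ^ finrank ℚ K :=
    (Nat.pow_le_pow_iff_left two_ne_zero).mp h13
  nlinarith

end OnePrime

section Rank

variable {K F : Type*} [Field K] [NumberField K] [Field F] [NumberField F] [Algebra K F]

theorem rank_of_totallyReal (K : Type*) [Field K] [NumberField K] [IsTotallyReal K] :
    Units.rank K = finrank ℚ K - 1 := by
  have h := nrComplexPlaces_eq_zero_iff (K := K).mpr inferInstance
  rw [Units.rank, IsTotallyReal.finrank, card_eq_nrRealPlaces_add_nrComplexPlaces, h, add_zero]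

theorem totallyReal_of_real (h2 : finrank ℚ K = 2) (r : K →+* ℝ) : IsTotallyReal K := by
  classical
  have hr : 0 < nrRealPlaces K := by
    rw [NumberField.InfinitePlace.nrRealPlaces, Fintype.card_pos_iff]
    refine ⟨⟨InfinitePlace.mk ((algebraMap ℝ ℂ).comp r), ?_⟩⟩
    refine ⟨(algebraMap ℝ ℂ).comp r, ?_, rfl⟩
    ext x
    simp
  have h := card_add_two_mul_card_eq_rank K
  rw [h2] at h
  rw [← nrComplexPlaces_eq_zero_iff]
  omega

/-- `F = K(√b)` with `b` totally positive is totally real -/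
theorem totallyReal_of_sq [IsTotallyReal K] (h2 : finrank K F = 2) (b : K)
    (hb : ∀ r : K →+* ℝ, 0 < r b) (z : F) (hz : z ^ 2 = algebraMap K F b)
    (hzK : IntermediateField.adjoin K {z} = ⊤) : IsTotallyReal F := by
  refine ⟨fun w => ?_⟩
  rw [← mk_embedding w, isReal_mk_iff]
  set φ := w.embedding
  have hreal : ComplexEmbedding.IsReal (φ.comp (algebraMap K F)) := by
    have := IsTotallyReal.isReal (InfinitePlace.mk (φ.comp (algebraMap K F)))
    exact isReal_mk_iff.mp this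
  have hφb : φ (algebraMap K F b) = ((hreal.embedding b : ℝ) : ℂ) :=
    (hreal.coe_embedding_apply b).symm
  have hpos := hb hreal.embedding
  have hz2 : (φ z) ^ 2 = ((hreal.embedding b : ℝ) : ℂ) := by
    rw [← map_pow, hz, hφb]
  have him : (starRingEnd ℂ) (φ z) = φ z := by
    rw [Complex.conj_eq_iff_im]
    have h3 := congrArg Complex.im hz2
    have h4 := congrArg Complex.re hz2
    rw [sq, Complex.mul_im, Complex.ofReal_im] at h3
    rw [sq, Complex.mul_re, Complex.ofReal_re] at h4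
    have h5 : (φ z).re * (φ z).im = 0 := by linarith
    rcases mul_eq_zero.mp h5 with h | h
    · rw [h] at h4
      nlinarith [mul_self_nonneg (φ z).im]
    · exact h
  -- the two embeddings agree on `K` and on `z`
  have hS : ∀ x : F, (starRingEnd ℂ) (φ x) = φ x := by
    intro x
    have hx : x ∈ IntermediateField.adjoin K {z} := by rw [hzK]; trivial
    induction hx using IntermediateField.adjoin_induction with
    | mem y hy =>
      rw [Set.mem_singleton_iff.mp hy]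
      exact him
    | algebraMap y =>
      have := congrArg (fun f => f y) hreal
      exact this
    | add y w _ _ hy hw => rw [map_add, map_add, hy, hw]
    | inv y _ hy => rw [map_inv₀, map_inv₀, hy]
    | mul y w _ _ hy hw => rw [map_mul, map_mul, hy, hw]
  ext x
  exact hS x

end Rank

end Pool.Agent.Work.MuB
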