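import Pool.Agent.Work.MP_a4986b_nt.BConcl
import Pool.Agent.Work.MP_a4986b_nt.BCor
import Pool.Agent.Work.MP_a4986b_nt.BClassC
import Pool.Agent.Work.MP_a4986b_nt.BRegAll

set_option autoImplicit false
set_option maxHeartbeats 400000

/-! # Theorem B++, final form -/

namespace Pool.Agent.Work.MuB

open NumberField Module NumberField.InfinitePlace NumberField.Units

theorem relative_fields :
    (∀ (k : Type) [Field k] [NumberField k] (d : ℕ), ∃ c : ℝ, 0 < c ∧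
      ∀ (F : Type) [Field F] [NumberField F] [Algebra k F] (ρ p : ℕ), p.Prime → p ≠ 2 →
        finrank k F = d →
        (∀ F' : IntermediateField k F, F' ≠ ⊤ → Units.rank F' ≤ ρ) → ρ ≤ Units.rank F →
        |(discr F : ℝ)| ≤ c * (p : ℝ) ^ 2 *
          (1 + Real.log p) ^ (2 * ((Units.rank F : ℤ) - ρ - d + 1)) →
        (∃! P : Ideal (𝓞 F), P.IsPrime ∧ (p : 𝓞 F) ∈ P) → Extensions p F) ∧
    (∀ (K : Type) [Field K] [NumberField K], finrank ℚ K = 2 → Nonempty (K →+* ℝ) →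
      ∀ α : 𝓞 K, (∀ φ : K →+* ℝ, 0 < φ α) → ∃ p0 : ℕ, ∀ p : ℕ, p.Prime → p0 ≤ p →
        (Ideal.span {(p : 𝓞 K)}).IsPrime →
        ∀ (F : Type) [Field F] [NumberField F] [Algebra K F], finrank K F = 2 →
          (∃ z : F, z ^ 2 = algebraMap K F (p * α)) →
          (∃! P : Ideal (𝓞 F), P.IsPrime ∧ (p : 𝓞 F) ∈ P) ∧ Extensions p F) := by
  refine ⟨?_, ?_⟩
  · intro k _ _ d
    obtain ⟨c, hc, h⟩ := not_dvd_all_of k d (class_le_all_of k d (regulator_ge_all k d))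
    exact ⟨c, hc, fun F _ _ _ ρ p hp hp2 hF hρ hρr hD hone =>
      extensions hp hp2 (h F ρ p hp hF hρ hρr hD) hone⟩
  · intro K _ _ hK ⟨r⟩ α hα
    obtain ⟨p0, h⟩ := real_quadratic K hK r α hα
    refine ⟨max p0 3, ?_⟩
    intro p hp hpp hin F _ _ _ hF ⟨z, hz⟩
    have hp3 : 3 ≤ p := (le_max_right _ _).trans hpp
    obtain ⟨h1, h2⟩ := h p hp ((le_max_left _ _).trans hpp) hin F hF z hz
    exact ⟨h2, extensions hp (by omega) h1 h2⟩

end Pool.Agent.Work.MuB
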