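import Mathlib

set_option autoImplicit false
set_option maxHeartbeats 400000

/-! # An injection of the ideals of an extension of number fields into tuples of ideals of the
ground field, which does not increase the norms -/

namespace Pool.Agent.Work.MuB

open NumberField Module MeasureTheory NumberField.InfinitePlace NumberField.Units
open scoped nonZeroDivisors ENNReal NNReal Real Pointwise

open UniqueFactorizationMonoid

section label

variable (k : Type*) [Field k] [NumberField k] (F : Type*) [Field F] [NumberField F] [Algebra k F]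

theorem prime_under {Q : Ideal (𝓞 F)} (hQ : Prime Q) : Prime (Q.under (𝓞 k)) := by
  have h1 : Q.IsPrime := Ideal.isPrime_of_prime hQ
  refine Ideal.prime_of_isPrime ?_ inferInstance
  exact Ideal.IsIntegral.comap_ne_bot (R := 𝓞 k) hQ.ne_zero

theorem absNorm_under_le {Q : Ideal (𝓞 F)} (hQ : Prime Q) :
    Ideal.absNorm (Q.under (𝓞 k)) ≤ Ideal.absNorm Q := by
  have h1 : Q.IsPrime := Ideal.isPrime_of_prime hQ
  have h2 := prime_under k F hQ
  have h3 : (Q.under (𝓞 k)).IsPrime := Ideal.isPrime_of_prime h2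
  have h4 : (Q.under (𝓞 k)).IsMaximal := h3.isMaximal h2.ne_zero
  rw [Ideal.absNorm_eq_pow_inertiaDeg'_of_liesOver Q (Q.under (𝓞 k)) h3 h2.ne_zero]
  exact Nat.le_self_pow (Ideal.inertiaDeg'_ne_zero (Q.under (𝓞 k)) Q) _

/-- labels of the primes: primes over the same prime of the ground field have different labels -/
theorem exists_label {m : ℕ} (hm : finrank k F = m) :
    ∃ lab : Ideal (𝓞 F) → Fin m, ∀ Q Q' : Ideal (𝓞 F), Prime Q → Prime Q' →
      Q.under (𝓞 k) = Q'.under (𝓞 k) → lab Q = lab Q' → Q = Q' := by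
  classical
  have hm0 : 0 < m := by
    rw [← hm]
    exact finrank_pos
  have key : ∀ P : Ideal (𝓞 k), ∃ f : Ideal (𝓞 F) → Fin m, ∀ Q Q' : Ideal (𝓞 F), Prime Q →
      Prime Q' → Q.under (𝓞 k) = P → Q'.under (𝓞 k) = P → f Q = f Q' → Q = Q' := by
    intro P
    by_cases hP : Prime P
    · have h1 : P.IsPrime := Ideal.isPrime_of_prime hP
      have h2 : P.IsMaximal := h1.isMaximal hP.ne_zero
      have h0 : NoZeroSMulDivisors (𝓞 k) (𝓞 F) := ⟨fun {c x} h => by
        rw [Algebra.smul_def, mul_eq_zero] at h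
        exact h.imp (fun h => (map_eq_zero_iff _
          (FaithfulSMul.algebraMap_injective (𝓞 k) (𝓞 F))).mp h) id⟩
      have h3 := Ideal.card_primesOverFinset_le_finrank (𝓞 F) k F (p := P) hP.ne_zero
      rw [hm] at h3
      obtain ⟨e⟩ : Nonempty ((IsDedekindDomain.primesOverFinset P (𝓞 F)) ↪ Fin m) := by
        apply Function.Embedding.nonempty_of_card_le
        rw [Fintype.card_coe, Fintype.card_fin]
        exact h3
      refine ⟨fun Q => if h : Q ∈ IsDedekindDomain.primesOverFinset P (𝓞 F) then e ⟨Q, h⟩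
        else ⟨0, hm0⟩, ?_⟩
      intro Q Q' hQ hQ' hQP hQP' heq
      have hmem : ∀ Q : Ideal (𝓞 F), Prime Q → Q.under (𝓞 k) = P →
          Q ∈ IsDedekindDomain.primesOverFinset P (𝓞 F) := by
        intro Q hQ hQP
        rw [IsDedekindDomain.mem_primesOverFinset_iff hP.ne_zero]
        exact ⟨Ideal.isPrime_of_prime hQ, ⟨hQP.symm⟩⟩
      simp only at heq
      rw [dif_pos (hmem Q hQ hQP), dif_pos (hmem Q' hQ' hQP')] at heq
      exact congrArg Subtype.val (e.injective heq)
    · refine ⟨fun _ => ⟨0, hm0⟩, ?_⟩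
      intro Q Q' hQ hQ' hQP hQP' heq
      exact absurd (hQP ▸ prime_under k F hQ) hP
  choose f hf using key
  refine ⟨fun Q => f (Q.under (𝓞 k)) Q, ?_⟩
  intro Q Q' hQ hQ' h1 h2
  refine hf (Q.under (𝓞 k)) Q Q' hQ hQ' rfl h1.symm ?_
  simp only at h2
  rw [h2, h1]

end label

theorem multiset_prod_filter {α β : Type*} [CommMonoid β] {m : ℕ} (lab : α → Fin m) (h : α → β)
    (s : Multiset α) :
    ∏ j, ((s.filter (fun a => lab a = j)).map h).prod = (s.map h).prod := by
  classical
  induction s using Multiset.induction_on with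
  | empty => simp
  | cons a s ih =>
    have h1 : ∀ j : Fin m, (((a ::ₘ s).filter (fun a => lab a = j)).map h).prod =
        (if lab a = j then h a else 1) * ((s.filter (fun a => lab a = j)).map h).prod := by
      intro j
      by_cases hj : lab a = j
      · rw [Multiset.filter_cons_of_pos (p := fun a => lab a = j) _ hj, Multiset.map_cons,
          Multiset.prod_cons, if_pos hj]
      · rw [Multiset.filter_cons_of_neg (p := fun a => lab a = j) _ hj, if_neg hj, one_mul]
    rw [Finset.prod_congr rfl (fun j _ => h1 j), Finset.prod_mul_distrib, ih, Multiset.map_cons,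
      Multiset.prod_cons, Finset.prod_ite_eq]
    simp

theorem multiset_eq_of_map {α β : Type*} [Nonempty α] {f : α → β} {T : Set α}
    (hf : Set.InjOn f T) {s t : Multiset α} (hs : ∀ a ∈ s, a ∈ T) (ht : ∀ a ∈ t, a ∈ T)
    (h : s.map f = t.map f) : s = t := by
  have key : ∀ s : Multiset α, (∀ a ∈ s, a ∈ T) → (s.map f).map (Function.invFunOn f T) = s := by
    intro s hs
    rw [Multiset.map_map]
    conv_rhs => rw [← Multiset.map_id s]
    refine Multiset.map_congr rfl ?_
    intro a ha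
    exact hf.leftInvOn_invFunOn (hs a ha)
  rw [← key s hs, h, key t ht]

section tuples

variable (k : Type*) [Field k] [NumberField k]

/-- injection of the ideals of `F` into tuples of ideals of `k` that does not increase norms -/
theorem tsum_ideal_le_fin (F : Type*) [Field F] [NumberField F] [Algebra k F] {m : ℕ}
    (hm : finrank k F = m) (φ : ℕ → ℝ≥0∞) (hφ : ∀ m n : ℕ, 1 ≤ m → m ≤ n → φ n ≤ φ m) :
    ∑' I : (Ideal (𝓞 F))⁰, φ (Ideal.absNorm (I : Ideal (𝓞 F))) ≤
      ∑' x : Fin m → (Ideal (𝓞 k))⁰, φ (∏ j, Ideal.absNorm (x j : Ideal (𝓞 k))) := by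
  classical
  obtain ⟨lab, hlab⟩ := exists_label k F hm
  let u : Ideal (𝓞 F) → Ideal (𝓞 k) := fun Q => Q.under (𝓞 k)
  let s : Ideal (𝓞 F) → Fin m → Multiset (Ideal (𝓞 k)) := fun I j =>
    ((normalizedFactors I).filter (fun Q => lab Q = j)).map u
  have hs : ∀ I j, ∀ P ∈ s I j, Prime P := by
    intro I j P hP
    rw [Multiset.mem_map] at hP
    obtain ⟨Q, hQ, rfl⟩ := hP
    exact prime_under k F (prime_of_normalized_factor Q (Multiset.mem_of_mem_filter hQ))
  have hs0 : ∀ I j, (s I j).prod ≠ 0 := fun I j => (s I j).prod_ne_zero_of_prime (hs I j)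
  let g : (Ideal (𝓞 F))⁰ → Fin m → (Ideal (𝓞 k))⁰ := fun I j =>
    ⟨(s (I : Ideal (𝓞 F)) j).prod, mem_nonZeroDivisors_iff_ne_zero.mpr (hs0 _ j)⟩
  have hg : Function.Injective g := by
    intro I I' h
    have h1 : ∀ j, s I j = s I' j := by
      intro j
      have h2 : (s I j).prod = (s I' j).prod := congrArg Subtype.val (congrFun h j)
      rw [← normalizedFactors_prod_of_prime (hs I j), h2, normalizedFactors_prod_of_prime (hs I' j)]
    have h3 : ∀ j, (normalizedFactors (I : Ideal (𝓞 F))).filter (fun Q => lab Q = j) =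
        (normalizedFactors (I' : Ideal (𝓞 F))).filter (fun Q => lab Q = j) := by
      intro j
      refine multiset_eq_of_map (f := u) (T := {Q | Prime Q ∧ lab Q = j}) ?_ ?_ ?_ (h1 j)
      · intro Q hQ Q' hQ' heq
        exact hlab Q Q' hQ.1 hQ'.1 heq (hQ.2.trans hQ'.2.symm)
      · intro Q hQ
        rw [Multiset.mem_filter] at hQ
        exact ⟨prime_of_normalized_factor Q hQ.1, hQ.2⟩
      · intro Q hQ
        rw [Multiset.mem_filter] at hQ
        exact ⟨prime_of_normalized_factor Q hQ.1, hQ.2⟩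
    have h4 : normalizedFactors (I : Ideal (𝓞 F)) = normalizedFactors (I' : Ideal (𝓞 F)) := by
      ext Q
      rw [← Multiset.count_filter_of_pos (p := fun Q' => lab Q' = lab Q) (s := normalizedFactors
        (I : Ideal (𝓞 F))) rfl, h3,
        Multiset.count_filter_of_pos (p := fun Q' => lab Q' = lab Q) rfl]
    apply Subtype.ext
    rw [← Ideal.prod_normalizedFactors_eq_self (nonZeroDivisors.coe_ne_zero I), h4,
      Ideal.prod_normalizedFactors_eq_self (nonZeroDivisors.coe_ne_zero I')]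
  refine le_trans (ENNReal.tsum_le_tsum fun I => ?_)
    (ENNReal.tsum_comp_le_tsum_of_injective hg
      (fun x : Fin m → (Ideal (𝓞 k))⁰ => φ (∏ j, Ideal.absNorm (x j : Ideal (𝓞 k)))))
  have e1 : ∏ j, Ideal.absNorm ((g I j : (Ideal (𝓞 k))⁰) : Ideal (𝓞 k)) =
      ((normalizedFactors (I : Ideal (𝓞 F))).map (fun Q => Ideal.absNorm (u Q))).prod := by
    rw [← multiset_prod_filter lab]
    refine Finset.prod_congr rfl (fun j _ => ?_)
    change Ideal.absNorm (s (I : Ideal (𝓞 F)) j).prod = _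
    rw [map_multiset_prod, Multiset.map_map]
    rfl
  have e2 : Ideal.absNorm (I : Ideal (𝓞 F)) =
      ((normalizedFactors (I : Ideal (𝓞 F))).map (fun Q => Ideal.absNorm Q)).prod := by
    conv_lhs => rw [← Ideal.prod_normalizedFactors_eq_self (nonZeroDivisors.coe_ne_zero I)]
    rw [map_multiset_prod]
  refine hφ _ _ ?_ ?_
  · rw [Nat.one_le_iff_ne_zero]
    exact Finset.prod_ne_zero_iff.mpr (fun j _ => by
      rw [Ne, Ideal.absNorm_eq_zero_iff]
      exact hs0 _ j)
  · rw [e1, e2]
    refine Multiset.prod_map_le_prod_map₀ _ _ (fun Q _ => Nat.zero_le _) (fun Q hQ => ?_)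
    exact absNorm_under_le k F (prime_of_normalized_factor Q hQ)

/-- C1: injection of the ideals of `F` into pairs of ideals of `k` that does not increase norms
(label the at most two primes above each prime of `k`; send `∏ Q ^ v` to
`(∏_{label 0} (Q ∩ k) ^ v, ∏_{label 1} (Q ∩ k) ^ v)`) -/
theorem tsum_ideal_le (F : Type*) [Field F] [NumberField F] [Algebra k F] (h2 : finrank k F = 2)
    (φ : ℕ → ℝ≥0∞) (hφ : ∀ m n : ℕ, 1 ≤ m → m ≤ n → φ n ≤ φ m) :
    ∑' I : (Ideal (𝓞 F))⁰, φ (Ideal.absNorm (I : Ideal (𝓞 F))) ≤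
      ∑' x : (Ideal (𝓞 k))⁰ × (Ideal (𝓞 k))⁰,
        φ (Ideal.absNorm (x.1 : Ideal (𝓞 k)) * Ideal.absNorm (x.2 : Ideal (𝓞 k))) := by
  refine (tsum_ideal_le_fin k F h2 φ hφ).trans (le_of_eq ?_)
  rw [← (finTwoArrowEquiv (Ideal (𝓞 k))⁰).tsum_eq (fun x : (Ideal (𝓞 k))⁰ × (Ideal (𝓞 k))⁰ =>
    φ (Ideal.absNorm (x.1 : Ideal (𝓞 k)) * Ideal.absNorm (x.2 : Ideal (𝓞 k))))]
  refine tsum_congr (fun x => ?_)
  rw [Fin.prod_univ_two]
  rfl

end tuples

end Pool.Agent.Work.MuB
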