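import Mathlib

set_option autoImplicit false
set_option maxHeartbeats 400000

/-! # Theorem C, modules T1 and T2: decomposition of primes in a cubic field, its quadratic
resolvent and the Galois closure -/

namespace Pool.Agent.Work.MuB

open NumberField Module MeasureTheory NumberField.InfinitePlace NumberField.Units
open scoped nonZeroDivisors ENNReal NNReal Real Pointwise

namespace CDecomp

theorem isPrime_span {q : ℕ} (hq : q.Prime) : (Ideal.span {(q : ℤ)}).IsPrime :=
  (Ideal.span_singleton_prime (by exact_mod_cast hq.ne_zero)).mpr (Nat.prime_iff_prime_int.mp hq)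

theorem isMaximal_span {q : ℕ} (hq : q.Prime) : (Ideal.span {(q : ℤ)}).IsMaximal :=
  (isPrime_span hq).isMaximal (by simpa using hq.ne_zero)

/-- primes of `𝓞 M` containing `q` are the primes over `span {q}` -/
theorem primesOver_eq (M : Type*) [Field M] [NumberField M] {q : ℕ} (hq : q.Prime) :
    {P : Ideal (𝓞 M) | P.IsPrime ∧ (q : 𝓞 M) ∈ P} =
      (Ideal.span {(q : ℤ)}).primesOver (𝓞 M) := by
  have hmax := isMaximal_span hq
  ext P
  constructor
  · rintro ⟨h1, h2⟩
    refine ⟨h1, ⟨?_⟩⟩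
    have h3 : Ideal.span {(q : ℤ)} ≤ P.under ℤ := by
      rw [Ideal.span_singleton_le_iff_mem, Ideal.mem_comap]
      simpa using h2
    exact hmax.eq_of_le (h1.under ℤ).ne_top h3
  · rintro ⟨h1, h2⟩
    refine ⟨h1, ?_⟩
    have h3 : (q : ℤ) ∈ P.under ℤ := by
      rw [← h2.over]
      exact Ideal.mem_span_singleton_self _
    rw [Ideal.mem_comap] at h3
    simpa using h3

variable {M : Type*} [Field M] [NumberField M] {q : ℕ}

theorem sum_ef (hq : q.Prime) [Fintype ((Ideal.span {(q : ℤ)}).primesOver (𝓞 M))] :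
    ∑ P : (Ideal.span {(q : ℤ)}).primesOver (𝓞 M), P.1.ramificationIdx ℤ * P.1.inertiaDeg ℤ =
      finrank ℚ M := by
  have := isPrime_span hq
  rw [Ideal.sum_ramification_inertia_eq_finrank, RingOfIntegers.rank]

theorem finite_po (hq : q.Prime) : Finite ((Ideal.span {(q : ℤ)}).primesOver (𝓞 M)) := by
  have := isPrime_span hq
  exact Algebra.QuasiFinite.finite_primesOver _

theorem ef_add_le (hq : q.Prime) {P Q : Ideal (𝓞 M)}
    (hP : P ∈ (Ideal.span {(q : ℤ)}).primesOver (𝓞 M))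
    (hQ : Q ∈ (Ideal.span {(q : ℤ)}).primesOver (𝓞 M)) (hPQ : P ≠ Q) :
    P.ramificationIdx ℤ * P.inertiaDeg ℤ + Q.ramificationIdx ℤ * Q.inertiaDeg ℤ ≤
      finrank ℚ M := by
  classical
  have := finite_po (M := M) hq
  have := Fintype.ofFinite ((Ideal.span {(q : ℤ)}).primesOver (𝓞 M))
  rw [← sum_ef (M := M) hq]
  have h : (⟨P, hP⟩ : (Ideal.span {(q : ℤ)}).primesOver (𝓞 M)) ≠ ⟨Q, hQ⟩ := by
    intro h
    exact hPQ (congrArg Subtype.val h)
  rw [← Finset.sum_pair (f := fun R : (Ideal.span {(q : ℤ)}).primesOver (𝓞 M) =>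
    R.1.ramificationIdx ℤ * R.1.inertiaDeg ℤ) h]
  exact Finset.sum_le_sum_of_subset (Finset.subset_univ _)

theorem ef_le (hq : q.Prime) {P : Ideal (𝓞 M)}
    (hP : P ∈ (Ideal.span {(q : ℤ)}).primesOver (𝓞 M)) :
    P.ramificationIdx ℤ * P.inertiaDeg ℤ ≤ finrank ℚ M := by
  classical
  have := finite_po (M := M) hq
  have := Fintype.ofFinite ((Ideal.span {(q : ℤ)}).primesOver (𝓞 M))
  rw [← sum_ef (M := M) hq]
  exact Finset.single_le_sum (f := fun R : (Ideal.span {(q : ℤ)}).primesOver (𝓞 M) =>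
    R.1.ramificationIdx ℤ * R.1.inertiaDeg ℤ) (fun _ _ => Nat.zero_le _)
    (Finset.mem_univ (⟨P, hP⟩ : (Ideal.span {(q : ℤ)}).primesOver (𝓞 M)))

theorem e_pos {P : Ideal (𝓞 M)} (hP : P ∈ (Ideal.span {(q : ℤ)}).primesOver (𝓞 M)) :
    0 < P.ramificationIdx ℤ := by
  have := hP.1
  exact P.ramificationIdx_pos ℤ

theorem f_pos {P : Ideal (𝓞 M)} (hP : P ∈ (Ideal.span {(q : ℤ)}).primesOver (𝓞 M)) :
    0 < P.inertiaDeg ℤ := by
  have := hP.1
  exact P.inertiaDeg_pos ℤ

theorem pow_f {P : Ideal (𝓞 M)} (hP : P ∈ (Ideal.span {(q : ℤ)}).primesOver (𝓞 M)) :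
    q ^ P.inertiaDeg ℤ = Ideal.absNorm P := by
  have := hP.1
  have := hP.2
  exact Ideal.pow_inertiaDeg q P

/-- an ideal of prime norm `q` is a prime over `q` of inertia degree one -/
theorem mem_of_norm (hq : q.Prime) {P : Ideal (𝓞 M)} (hP : Ideal.absNorm P = q) :
    P ∈ (Ideal.span {(q : ℤ)}).primesOver (𝓞 M) := by
  rw [← primesOver_eq M hq]
  refine ⟨Ideal.isPrime_of_irreducible_absNorm (by rw [hP]; exact hq), ?_⟩
  have := Ideal.absNorm_mem P
  rwa [hP] at this

theorem f_eq_one (hq : q.Prime) {P : Ideal (𝓞 M)} (hP : Ideal.absNorm P = q) :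
    P.inertiaDeg ℤ = 1 := by
  have h := pow_f (mem_of_norm hq hP)
  rw [hP] at h
  exact Nat.pow_right_injective hq.two_le (by simpa using h)

section Under

variable {L : Type*} [Field L] [NumberField L] [Algebra M L]

omit [NumberField M] [NumberField L] in
theorem under_mem {P : Ideal (𝓞 L)}
    (hP : P ∈ (Ideal.span {(q : ℤ)}).primesOver (𝓞 L)) :
    P.under (𝓞 M) ∈ (Ideal.span {(q : ℤ)}).primesOver (𝓞 M) := by
  have := hP.1
  have := hP.2
  refine ⟨inferInstance, ?_⟩
  exact Ideal.LiesOver.tower_bot P (P.under (𝓞 M)) _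

omit [NumberField M] [NumberField L] in
theorem exists_over {p : Ideal (𝓞 M)}
    (hp : p ∈ (Ideal.span {(q : ℤ)}).primesOver (𝓞 M)) :
    ∃ P ∈ (Ideal.span {(q : ℤ)}).primesOver (𝓞 L), P.under (𝓞 M) = p := by
  have := hp.1
  have := hp.2
  obtain ⟨⟨P, h1, h2⟩⟩ := (inferInstance : Nonempty (p.primesOver (𝓞 L)))
  exact ⟨P, ⟨h1, Ideal.LiesOver.trans P p _⟩, h2.over.symm⟩

end Under

section Top

theorem finrank_top {F L : Type*} [Field F] [NumberField F] [Field L] [NumberField L]
    [Algebra F L] {a b : ℕ} (hF : finrank ℚ F = a) (hL : finrank ℚ L = a * b) (ha : 0 < a) :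
    finrank F L = b := by
  have h := finrank_mul_finrank ℚ F L
  rw [hF, hL] at h
  exact Nat.eq_of_mul_eq_mul_left ha h

/-- `F` is Galois if the subgroup fixing it is normal -/
theorem galois_of_normal {K F L : Type*} [Field K] [Field F] [Field L] [Algebra K F]
    [Algebra K L] [Algebra F L] [IsScalarTower K F L] [FiniteDimensional K L] [IsGalois K L]
    (H : Subgroup Gal(L/K)) (hH : IsGaloisGroup H F L) (hn : H.Normal) : IsGalois K F := by
  have h : (IsScalarTower.toAlgHom K F L).fieldRange = IntermediateField.fixedField H := by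
    apply SetLike.coe_injective
    have h1 := IsGaloisGroup.fixedPoints_eq_range_algebraMap Gal(L/K) K L H F
    change _ = ((FixedPoints.intermediateField H : IntermediateField K L) : Set L)
    rw [h1]
    ext x
    simp
  have h2 : IsGalois K (IntermediateField.fixedField H) :=
    IsGalois.of_fixedField_normal_subgroup H
  rw [← h] at h2
  exact IsGalois.of_algEquiv (IsScalarTower.toAlgHom K F L).equivFieldRange.symm

/-- a subgroup of order two of a group of order six acting trivially on a transitive set of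
three elements is normal -/
theorem normal_of_fix {G X : Type*} [Group G] [MulAction G X] [MulAction.IsPretransitive G X]
    (H : Subgroup G) (hG : Nat.card G = 6) (hH : Nat.card H = 2) (hX : Nat.card X = 3)
    (hfix : ∀ g ∈ H, ∀ x : X, g • x = x) : H.Normal := by
  classical
  have hf : Finite G := Nat.finite_of_card_ne_zero (by omega)
  have hne : Nonempty X := (Nat.card_pos_iff.mp (by omega)).1
  obtain ⟨x⟩ := hne
  have hst : Nat.card (MulAction.stabilizer G x) = 2 := by
    have h1 := MulAction.index_stabilizer_of_transitive G x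
    have h2 := (MulAction.stabilizer G x).card_mul_index
    rw [h1, hG, hX] at h2
    omega
  let N : Subgroup G := (MulAction.toPermHom G X).ker
  have hHN : H ≤ N := by
    intro g hg
    rw [MonoidHom.mem_ker]
    ext1 y
    exact hfix g hg y
  have hNs : N ≤ MulAction.stabilizer G x := by
    intro g hg
    rw [MonoidHom.mem_ker] at hg
    rw [MulAction.mem_stabilizer_iff]
    exact congrArg (fun e => e x) hg
  have hHN' : H = N := by
    apply Subgroup.eq_of_le_of_card_ge hHN
    rw [hH, ← hst]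
    exact Nat.le_of_dvd Nat.card_pos (Subgroup.card_dvd_of_le hNs)
  rw [hHN']
  exact MonoidHom.normal_ker _

end Top

end CDecomp

section Cubic

variable {F k L : Type*} [Field F] [NumberField F] [Field k] [NumberField k] [Field L]
  [NumberField L] [Algebra F L] [Algebra k L] [IsGalois ℚ L]

/-- the core group-theoretic step: with three primes in `L` over `q`, at least three in `F`, the
subgroup fixing `F` is normal -/
theorem CDecomp.core (hF : finrank ℚ F = 3) (hL : finrank ℚ L = 6) {q : ℕ} (hq : q.Prime)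
    (h : 3 ≤ ((Ideal.span {(q : ℤ)}).primesOver (𝓞 F)).ncard)
    (hX : ((Ideal.span {(q : ℤ)}).primesOver (𝓞 L)).ncard ≤ 3) : IsGalois ℚ F := by
  classical
  have hsp := CDecomp.isPrime_span hq
  have hfL := CDecomp.finite_po (M := L) hq
  set p := Ideal.span {(q : ℤ)} with hp
  have hfL' : (p.primesOver (𝓞 L)).Finite := Set.toFinite _
  have himg : (fun P : Ideal (𝓞 L) => P.under (𝓞 F)) '' (p.primesOver (𝓞 L)) =
      p.primesOver (𝓞 F) := by
    ext P
    constructor
    · rintro ⟨Q, hQ, rfl⟩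
      exact CDecomp.under_mem hQ
    · intro hP
      obtain ⟨Q, hQ, h1⟩ := CDecomp.exists_over (L := L) hP
      exact ⟨Q, hQ, h1⟩
  have hle := Set.ncard_image_le (f := fun P : Ideal (𝓞 L) => P.under (𝓞 F)) hfL'
  rw [himg] at hle
  have hcX : (p.primesOver (𝓞 L)).ncard = 3 := by omega
  have hinj : Set.InjOn (fun P : Ideal (𝓞 L) => P.under (𝓞 F)) (p.primesOver (𝓞 L)) := by
    apply Set.injOn_of_ncard_image_eq _ hfL'
    rw [himg]
    omega
  let H : Subgroup Gal(L/ℚ) := fixingSubgroup Gal(L/ℚ) (Set.range (algebraMap F L))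
  have hH : IsGaloisGroup H F L := IsGaloisGroup.of_isScalarTower Gal(L/ℚ) ℚ L F
  have hcH : Nat.card H = 2 := by
    rw [IsGaloisGroup.card_eq_finrank H F L]
    exact CDecomp.finrank_top hF (b := 2) (by omega) (by norm_num)
  have hcG : Nat.card Gal(L/ℚ) = 6 := by
    rw [IsGaloisGroup.card_eq_finrank Gal(L/ℚ) ℚ L, hL]
  have hnor : H.Normal := by
    refine @CDecomp.normal_of_fix Gal(L/ℚ) (p.primesOver (𝓞 L)) _
      Ideal.instMulActionElemPrimesOver
      (Ideal.isPretransitive_of_isGaloisGroup (p := p) (B := 𝓞 L) (G := Gal(L/ℚ))) H hcG hcH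
      (by rw [Nat.card_coe_set_eq, hcX]) ?_
    have hH' : IsGaloisGroup H (𝓞 F) (𝓞 L) :=
      IsGaloisGroup.of_isFractionRing H (𝓞 F) (𝓞 L) F L
    have hH2 : SMulCommClass H (𝓞 F) (𝓞 L) := hH'.commutes
    intro g hg x
    apply Subtype.ext
    apply hinj (Subtype.coe_prop _) x.2
    exact Ideal.under_smul (𝓞 F) x.1 (⟨g, hg⟩ : H)
  exact CDecomp.galois_of_normal H hH hnor

theorem split_of_three (hF : finrank ℚ F = 3) (hk : finrank ℚ k = 2) (hL : finrank ℚ L = 6)
    (hn : ¬ IsGalois ℚ F) {q : ℕ} (hq : q.Prime)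
    (h : 3 ≤ {P : Ideal (𝓞 F) | P.IsPrime ∧ (q : 𝓞 F) ∈ P}.ncard) :
    2 ≤ {P : Ideal (𝓞 k) | P.IsPrime ∧ (q : 𝓞 k) ∈ P}.ncard := by
  classical
  rw [CDecomp.primesOver_eq _ hq] at h ⊢
  by_contra hlt
  have hsp := CDecomp.isPrime_span hq
  have hfk := CDecomp.finite_po (M := k) hq
  apply hn
  apply CDecomp.core (L := L) hF hL hq h
  set p := Ideal.span {(q : ℤ)} with hp
  obtain ⟨pk, hpk⟩ : Nonempty (p.primesOver (𝓞 k)) := inferInstance
  have huk : ∀ P ∈ p.primesOver (𝓞 k), P = pk := by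
    by_contra! hc
    obtain ⟨P, hP, hne⟩ := hc
    apply hlt
    rw [← Set.ncard_pair hne]
    refine Set.ncard_le_ncard ?_ (Set.toFinite _)
    intro Q hQ
    rcases hQ with rfl | rfl
    · exact hP
    · exact hpk
  have hkX : p.primesOver (𝓞 L) = pk.primesOver (𝓞 L) := by
    ext P
    constructor
    · intro hP
      refine ⟨hP.1, ⟨?_⟩⟩
      exact (huk _ (CDecomp.under_mem hP)).symm
    · rintro ⟨h1, h2⟩
      have := hpk.2
      exact ⟨h1, Ideal.LiesOver.trans P pk _⟩
  have hg : IsGalois k L := IsGalois.tower_top_of_isGalois ℚ k L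
  have hpk' := hpk.1
  have h1 := Ideal.ncard_primesOver_mul_ramificationIdxIn_mul_inertiaDegIn pk (𝓞 L) Gal(L/k)
  rw [IsGaloisGroup.card_eq_finrank Gal(L/k) k L,
    CDecomp.finrank_top hk (b := 3) (by omega) (by norm_num)] at h1
  rw [hkX]
  exact Nat.le_of_dvd (by norm_num) (Dvd.intro _ h1)

theorem one_of_inert (hF : finrank ℚ F = 3) (hk : finrank ℚ k = 2) (hL : finrank ℚ L = 6)
    (hn : ¬ IsGalois ℚ F) {q : ℕ} (hq : q.Prime)
    (h : ∀ P : Ideal (𝓞 k), Ideal.absNorm P ≠ q) (P Q : Ideal (𝓞 F))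
    (hP : Ideal.absNorm P = q) (hQ : Ideal.absNorm Q = q) : P = Q := by
  classical
  by_contra hPQ
  have hsp := CDecomp.isPrime_span hq
  -- no prime of `k` over `q` has inertia degree one
  have hk1 : ∀ R ∈ (Ideal.span {(q : ℤ)}).primesOver (𝓞 k), R.inertiaDeg ℤ ≠ 1 := by
    intro R hR h1
    apply h R
    rw [← CDecomp.pow_f hR, h1, pow_one]
  have hk2 : ∀ R ∈ (Ideal.span {(q : ℤ)}).primesOver (𝓞 k), R.ramificationIdx ℤ = 1 := by
    intro R hR
    have h1 := CDecomp.ef_le hq hR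
    have h2 := CDecomp.f_pos hR
    have h3 := CDecomp.e_pos hR
    have h4 := hk1 R hR
    rw [hk] at h1
    have h5 : 2 ≤ R.inertiaDeg ℤ := by omega
    nlinarith
  have hk3 : ¬ 2 ≤ ((Ideal.span {(q : ℤ)}).primesOver (𝓞 k)).ncard := by
    intro h2
    obtain ⟨R, hR, S, hS, hRS⟩ := (Set.one_lt_ncard_iff_nontrivial_and_finite.mp h2).1
    have h3 := CDecomp.ef_add_le hq hR hS hRS
    have h4 := hk1 R hR
    have h5 := CDecomp.f_pos hR
    have h6 := CDecomp.f_pos hS
    rw [hk2 R hR, hk2 S hS, hk] at h3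
    omega
  have hF3 : ¬ 3 ≤ ((Ideal.span {(q : ℤ)}).primesOver (𝓞 F)).ncard := by
    intro h3
    apply hk3
    rw [← CDecomp.primesOver_eq _ hq] at h3 ⊢
    exact split_of_three (L := L) hF hk hL hn hq h3
  have hPm := CDecomp.mem_of_norm hq hP
  have hQm := CDecomp.mem_of_norm hq hQ
  have hfF := CDecomp.finite_po (M := F) hq
  have huF : (Ideal.span {(q : ℤ)}).primesOver (𝓞 F) = {P, Q} := by
    symm
    apply Set.eq_of_subset_of_ncard_le
    · intro R hR
      rcases hR with rfl | rfl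
      · exact hPm
      · exact hQm
    · rw [Set.ncard_pair hPQ]
      omega
    · exact Set.toFinite _
  -- ramification indices in `F` are odd
  have hodd : ∀ R ∈ (Ideal.span {(q : ℤ)}).primesOver (𝓞 F), ¬ 2 ∣ R.ramificationIdx ℤ := by
    intro R hR h2
    obtain ⟨S, hS, hSR⟩ := CDecomp.exists_over (L := L) hR
    have hSp := hS.1
    have hl : S.LiesOver R := ⟨hSR.symm⟩
    have h3 : R.ramificationIdx ℤ ∣ S.ramificationIdx ℤ := Ideal.ramificationIdx_below_dvd R S
    have h4 : S.ramificationIdx ℤ =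
        (S.under (𝓞 k)).ramificationIdx ℤ * S.ramificationIdx (𝓞 k) :=
      Ideal.ramificationIdx_tower (S.under (𝓞 k)) S
    rw [hk2 _ (CDecomp.under_mem hS), one_mul] at h4
    have hg : IsGalois k L := IsGalois.tower_top_of_isGalois ℚ k L
    have hpk := (CDecomp.under_mem (M := k) hS).1
    have h5 := Ideal.ncard_primesOver_mul_ramificationIdxIn_mul_inertiaDegIn
      (S.under (𝓞 k)) (𝓞 L) Gal(L/k)
    rw [IsGaloisGroup.card_eq_finrank Gal(L/k) k L,
      CDecomp.finrank_top hk (b := 3) (by omega) (by norm_num),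
      Ideal.ramificationIdxIn_eq_ramificationIdx (S.under (𝓞 k)) S Gal(L/k), ← h4] at h5
    have h6 : 2 ∣ 3 := by
      rw [← h5]
      exact Dvd.dvd.mul_left (Dvd.dvd.mul_right (h2.trans h3) _) _
    omega
  have := Fintype.ofFinite ((Ideal.span {(q : ℤ)}).primesOver (𝓞 F))
  have hsum := CDecomp.sum_ef (M := F) hq
  have h7 : P.ramificationIdx ℤ + Q.ramificationIdx ℤ = 3 := by
    rw [← hF, ← hsum, Finset.sum_set_coe (f := fun R : Ideal (𝓞 F) =>
      R.ramificationIdx ℤ * R.inertiaDeg ℤ)]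
    have h10 : ((Ideal.span {(q : ℤ)}).primesOver (𝓞 F)).toFinset = {P, Q} := by
      ext R
      rw [Set.mem_toFinset, huF]
      simp
    rw [h10, Finset.sum_pair hPQ, CDecomp.f_eq_one hq hP, CDecomp.f_eq_one hq hQ, mul_one,
      mul_one]
  have h8 := hodd P hPm
  have h9 := hodd Q hQm
  omega

end Cubic

end Pool.Agent.Work.MuB
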