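import Mathlib
import Pool.Agent.Work.MP_a4986b_nt.BIdeal
import Pool.Agent.Work.MP_a4986b_nt.CDecomp

set_option autoImplicit false
set_option maxHeartbeats 400000

/-! # I1: an injection of the ideals of a number field into pairs (positive integer, ideal of
another field) from a domination of the primes above each rational prime -/

namespace Pool.Agent.Work.MuB

open NumberField Module MeasureTheory NumberField.InfinitePlace NumberField.Units
open scoped nonZeroDivisors ENNReal NNReal Real Pointwise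

open UniqueFactorizationMonoid

namespace BInj

variable {F : Type*} [Field F]

theorem exists_prime_mem [NumberField F] {P : Ideal (𝓞 F)} (hP : Prime P) :
    ∃ q : ℕ, q.Prime ∧ (q : 𝓞 F) ∈ P ∧ q ≤ Ideal.absNorm P := by
  have h1 : P.IsPrime := Ideal.isPrime_of_prime hP
  have h2 : Ideal.absNorm P ≠ 0 := by
    rw [Ne, Ideal.absNorm_eq_zero_iff]
    exact hP.ne_zero
  have h3 : ((Ideal.absNorm P : ℕ) : 𝓞 F) ∈ P := Ideal.absNorm_mem P
  have key : ∀ n : ℕ, n ≠ 0 → (n : 𝓞 F) ∈ P → ∃ q : ℕ, q.Prime ∧ (q : 𝓞 F) ∈ P ∧ q ≤ n := by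
    intro n
    induction n using Nat.strong_induction_on with
    | _ n ih =>
      intro hn hnP
      have hn1 : n ≠ 1 := by
        rintro rfl
        rw [Nat.cast_one] at hnP
        exact h1.ne_top ((Ideal.eq_top_iff_one P).mpr hnP)
      obtain ⟨p, hp, m, rfl⟩ := Nat.exists_prime_and_dvd hn1
      rw [Nat.cast_mul] at hnP
      rcases h1.mem_or_mem hnP with h | h
      · exact ⟨p, hp, h, Nat.le_mul_of_pos_right _ (Nat.pos_of_ne_zero (by
          rintro rfl
          exact hn (mul_zero _)))⟩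
      · have hm0 : m ≠ 0 := by
          rintro rfl
          exact hn (mul_zero _)
        obtain ⟨q, hq, hqP, hle⟩ := ih m
          (by
            have := hp.two_le
            have := Nat.pos_of_ne_zero hm0
            nlinarith) hm0 h
        exact ⟨q, hq, hqP, hle.trans (Nat.le_mul_of_pos_left _ hp.pos)⟩
  exact key _ h2 h3

theorem prime_unique {P : Ideal (𝓞 F)} (hP : P.IsPrime) {q q' : ℕ} (hq : q.Prime) (hq' : q'.Prime)
    (h : (q : 𝓞 F) ∈ P) (h' : (q' : 𝓞 F) ∈ P) : q = q' := by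
  by_contra hne
  have hco : IsCoprime (q : ℤ) (q' : ℤ) :=
    Nat.isCoprime_iff_coprime.mpr ((Nat.coprime_primes hq hq').mpr hne)
  obtain ⟨a, b, hab⟩ := hco
  apply hP.ne_top
  rw [Ideal.eq_top_iff_one]
  have h3 : ((a * q + b * q' : ℤ) : 𝓞 F) ∈ P := by
    push_cast
    exact P.add_mem (P.mul_mem_left _ h) (P.mul_mem_left _ h')
  rw [hab] at h3
  simpa using h3

end BInj

section Ideals

variable (F E : Type*) [Field F] [NumberField F] [Field E] [NumberField E]

/-- I1: general injection of the ideals of `F` into pairs (positive integer, ideal of `E`) when the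
primes of `F` above every `q` can be sent injectively to `q` (`none`) or to primes of `E` above
`q` (`some R`) without increasing norms -/
theorem tsum_ideal_le_of_dominate
    (h : ∀ q : ℕ, q.Prime → ∃ l : {P : Ideal (𝓞 F) // P.IsPrime ∧ (q : 𝓞 F) ∈ P} →
        Option {R : Ideal (𝓞 E) // R.IsPrime ∧ (q : 𝓞 E) ∈ R},
      Function.Injective l ∧ ∀ P R, l P = some R → Ideal.absNorm R.1 ≤ Ideal.absNorm P.1)
    (φ : ℕ → ℝ≥0∞) (hφ : ∀ m n : ℕ, 1 ≤ m → m ≤ n → φ n ≤ φ m) :
    ∑' I : (Ideal (𝓞 F))⁰, φ (Ideal.absNorm (I : Ideal (𝓞 F))) ≤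
      ∑' x : ℕ+ × (Ideal (𝓞 E))⁰, φ (x.1 * Ideal.absNorm (x.2 : Ideal (𝓞 E))) := by
  classical
  choose l hl1 hl2 using h
  have hl3 : ∀ (q : ℕ) (hq : q.Prime) (x y : {P : Ideal (𝓞 F) // P.IsPrime ∧ (q : 𝓞 F) ∈ P}),
      (l q hq x).map Subtype.val = (l q hq y).map Subtype.val → x = y := by
    intro q hq x y hxy
    apply hl1 q hq
    generalize l q hq x = a at hxy ⊢
    generalize l q hq y = b at hxy ⊢
    exact Option.map_injective Subtype.val_injective hxy
  have hl4 : ∀ (q : ℕ) (hq : q.Prime) (x : {P : Ideal (𝓞 F) // P.IsPrime ∧ (q : 𝓞 F) ∈ P})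
      (R : Ideal (𝓞 E)), (l q hq x).map Subtype.val = some R →
      R.IsPrime ∧ (q : 𝓞 E) ∈ R ∧ Ideal.absNorm R ≤ Ideal.absNorm x.1 := by
    intro q hq x R hxR
    have h2 := hl2 q hq x
    generalize l q hq x = a at hxR h2
    rcases a with _ | R'
    · simp at hxR
    · rw [Option.map_some, Option.some.injEq] at hxR
      subst hxR
      exact ⟨R'.2.1, R'.2.2, h2 R' rfl⟩
  -- for each prime a rational prime and (perhaps) a prime of `E`
  have hA : ∀ P : Ideal (𝓞 F), ∃ q : ℕ, ∃ r : Option (Ideal (𝓞 E)), Prime P →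
      ∃ (q' : ℕ) (hq : q'.Prime) (hP : P.IsPrime ∧ (q' : 𝓞 F) ∈ P),
        q = q' ∧ q ≤ Ideal.absNorm P ∧ r = (l q' hq ⟨P, hP⟩).map Subtype.val := by
    intro P
    by_cases hP : Prime P
    · obtain ⟨q, hq, h1, h2⟩ := BInj.exists_prime_mem hP
      exact ⟨q, (l q hq ⟨P, Ideal.isPrime_of_prime hP, h1⟩).map Subtype.val,
        fun _ => ⟨q, hq, ⟨Ideal.isPrime_of_prime hP, h1⟩, rfl, h2, rfl⟩⟩
    · exact ⟨0, none, fun h => absurd h hP⟩
  choose qq rr hA using hA
  have hqp : ∀ P, Prime P → (qq P).Prime := by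
    intro P hP
    obtain ⟨q', hq', -, h1, -, -⟩ := hA P hP
    rw [h1]
    exact hq'
  have hql : ∀ P, Prime P → qq P ≤ Ideal.absNorm P := by
    intro P hP
    obtain ⟨q', hq', -, -, h1, -⟩ := hA P hP
    exact h1
  -- properties of `rr`
  have hr : ∀ P R, Prime P → rr P = some R →
      R.IsPrime ∧ (qq P : 𝓞 E) ∈ R ∧ Ideal.absNorm R ≤ Ideal.absNorm P := by
    intro P R hP hR
    obtain ⟨q', hq, hP', h0, -, h1⟩ := hA P hP
    rw [hR] at h1
    rw [h0]
    exact hl4 q' hq ⟨P, hP'⟩ R h1.symm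
  have hinj : ∀ P P', Prime P → Prime P' → qq P = qq P' → rr P = rr P' → P = P' := by
    intro P P' hP hP' hqq hrr
    obtain ⟨q, hq, hPq, h0, -, h1⟩ := hA P hP
    obtain ⟨q', hq', hPq', h0', -, h1'⟩ := hA P' hP'
    obtain rfl : q = q' := by rw [← h0, ← h0', hqq]
    rw [h1, h1'] at hrr
    exact congrArg Subtype.val (hl3 q hq ⟨P, hPq⟩ ⟨P', hPq'⟩ hrr)
  have hrp : ∀ P R, Prime P → rr P = some R → Prime R := by
    intro P R hP hR
    obtain ⟨h1, h2, -⟩ := hr P R hP hR
    refine Ideal.prime_of_isPrime ?_ h1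
    rintro rfl
    rw [Ideal.mem_bot] at h2
    have h3 : qq P = 0 := by exact_mod_cast h2
    exact (hqp P hP).ne_zero h3
  -- the two parts
  let A : Ideal (𝓞 F) → Multiset ℕ := fun I =>
    ((normalizedFactors I).filter (fun P => rr P = none)).map qq
  let u : Ideal (𝓞 F) → Ideal (𝓞 E) := fun P => (rr P).getD 1
  let B : Ideal (𝓞 F) → Multiset (Ideal (𝓞 E)) := fun I =>
    ((normalizedFactors I).filter (fun P => ¬ rr P = none)).map u
  have hu : ∀ P, ¬ rr P = none → rr P = some (u P) := by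
    intro P hP
    obtain ⟨R, hR⟩ := Option.ne_none_iff_exists'.mp hP
    simp only [u, hR, Option.getD_some]
  have hAp : ∀ I, ∀ q ∈ A I, q.Prime := by
    intro I q hq
    rw [Multiset.mem_map] at hq
    obtain ⟨P, hP, rfl⟩ := hq
    exact hqp P (prime_of_normalized_factor P (Multiset.mem_of_mem_filter hP))
  have hBp : ∀ I, ∀ R ∈ B I, Prime R := by
    intro I R hR
    rw [Multiset.mem_map] at hR
    obtain ⟨P, hP, rfl⟩ := hR
    rw [Multiset.mem_filter] at hP
    exact hrp P _ (prime_of_normalized_factor P hP.1) (hu P hP.2)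
  have hA0 : ∀ I, 0 < (A I).prod := by
    intro I
    refine Nat.pos_of_ne_zero ?_
    rw [Ne, Multiset.prod_eq_zero_iff]
    intro h0
    exact Nat.not_prime_zero (hAp I 0 h0)
  have hB0 : ∀ I, (B I).prod ≠ 0 := fun I => (B I).prod_ne_zero_of_prime (hBp I)
  let g : (Ideal (𝓞 F))⁰ → ℕ+ × (Ideal (𝓞 E))⁰ := fun I =>
    (⟨(A (I : Ideal (𝓞 F))).prod, hA0 _⟩,
      ⟨(B (I : Ideal (𝓞 F))).prod, mem_nonZeroDivisors_iff_ne_zero.mpr (hB0 _)⟩)
  have hg : Function.Injective g := by
    intro I I' heq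
    have hA' : (A (I : Ideal (𝓞 F))).prod = (A (I' : Ideal (𝓞 F))).prod :=
      congrArg (fun x : ℕ+ × (Ideal (𝓞 E))⁰ => (x.1 : ℕ)) heq
    have hB' : (B (I : Ideal (𝓞 F))).prod = (B (I' : Ideal (𝓞 F))).prod :=
      congrArg (fun x : ℕ+ × (Ideal (𝓞 E))⁰ => (x.2 : Ideal (𝓞 E))) heq
    have hA2 : A (I : Ideal (𝓞 F)) = A (I' : Ideal (𝓞 F)) := by
      rw [← normalizedFactors_prod_of_prime (fun q hq => (hAp _ q hq).prime), hA',
        normalizedFactors_prod_of_prime (fun q hq => (hAp _ q hq).prime)]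
    have hB2 : B (I : Ideal (𝓞 F)) = B (I' : Ideal (𝓞 F)) := by
      rw [← normalizedFactors_prod_of_prime (hBp _), hB', normalizedFactors_prod_of_prime (hBp _)]
    have hA3 : (normalizedFactors (I : Ideal (𝓞 F))).filter (fun P => rr P = none) =
        (normalizedFactors (I' : Ideal (𝓞 F))).filter (fun P => rr P = none) := by
      refine multiset_eq_of_map (f := qq) (T := {P | Prime P ∧ rr P = none}) ?_ ?_ ?_ hA2
      · intro P hP P' hP' heq
        exact hinj P P' hP.1 hP'.1 heq (hP.2.trans hP'.2.symm)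
      · intro P hP
        rw [Multiset.mem_filter] at hP
        exact ⟨prime_of_normalized_factor P hP.1, hP.2⟩
      · intro P hP
        rw [Multiset.mem_filter] at hP
        exact ⟨prime_of_normalized_factor P hP.1, hP.2⟩
    have hB3 : (normalizedFactors (I : Ideal (𝓞 F))).filter (fun P => ¬ rr P = none) =
        (normalizedFactors (I' : Ideal (𝓞 F))).filter (fun P => ¬ rr P = none) := by
      refine multiset_eq_of_map (f := u) (T := {P | Prime P ∧ ¬ rr P = none}) ?_ ?_ ?_ hB2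
      · intro P hP P' hP' heq
        have h1 := hu P hP.2
        have h2 := hu P' hP'.2
        rw [← heq] at h2
        refine hinj P P' hP.1 hP'.1 ?_ (h1.trans h2.symm)
        obtain ⟨h3, h4, -⟩ := hr P _ hP.1 h1
        obtain ⟨-, h5, -⟩ := hr P' _ hP'.1 h2
        exact BInj.prime_unique h3 (hqp P hP.1) (hqp P' hP'.1) h4 h5
      · intro P hP
        rw [Multiset.mem_filter] at hP
        exact ⟨prime_of_normalized_factor P hP.1, hP.2⟩
      · intro P hP
        rw [Multiset.mem_filter] at hP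
        exact ⟨prime_of_normalized_factor P hP.1, hP.2⟩
    have h4 : normalizedFactors (I : Ideal (𝓞 F)) = normalizedFactors (I' : Ideal (𝓞 F)) := by
      rw [← Multiset.filter_add_not (fun P => rr P = none) (normalizedFactors (I : Ideal (𝓞 F))),
        hA3, hB3, Multiset.filter_add_not]
    apply Subtype.ext
    rw [← Ideal.prod_normalizedFactors_eq_self (nonZeroDivisors.coe_ne_zero I), h4,
      Ideal.prod_normalizedFactors_eq_self (nonZeroDivisors.coe_ne_zero I')]
  refine le_trans (ENNReal.tsum_le_tsum fun I => ?_)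
    (ENNReal.tsum_comp_le_tsum_of_injective hg
      (fun x : ℕ+ × (Ideal (𝓞 E))⁰ => φ (x.1 * Ideal.absNorm (x.2 : Ideal (𝓞 E)))))
  have e0 : Ideal.absNorm (B (I : Ideal (𝓞 F))).prod =
      (((normalizedFactors (I : Ideal (𝓞 F))).filter (fun P => ¬ rr P = none)).map
        (fun P => Ideal.absNorm (u P))).prod := by
    rw [map_multiset_prod, Multiset.map_map]
    rfl
  have e2 : Ideal.absNorm (I : Ideal (𝓞 F)) =
      (((normalizedFactors (I : Ideal (𝓞 F))).filter (fun P => rr P = none)).map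
        (fun P => Ideal.absNorm P)).prod *
      (((normalizedFactors (I : Ideal (𝓞 F))).filter (fun P => ¬ rr P = none)).map
        (fun P => Ideal.absNorm P)).prod := by
    conv_lhs => rw [← Ideal.prod_normalizedFactors_eq_self (nonZeroDivisors.coe_ne_zero I)]
    rw [map_multiset_prod, ← Multiset.prod_add, ← Multiset.map_add, Multiset.filter_add_not]
  change φ (Ideal.absNorm (I : Ideal (𝓞 F))) ≤
    φ ((A (I : Ideal (𝓞 F))).prod * Ideal.absNorm (B (I : Ideal (𝓞 F))).prod)
  refine hφ _ _ ?_ ?_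
  · rw [Nat.one_le_iff_ne_zero]
    refine mul_ne_zero (hA0 _).ne' ?_
    rw [Ne, Ideal.absNorm_eq_zero_iff]
    exact hB0 _
  · rw [e0, e2]
    refine Nat.mul_le_mul ?_ ?_
    · refine Multiset.prod_map_le_prod_map₀ _ _ (fun Q _ => Nat.zero_le _) (fun P hP => ?_)
      exact hql P (prime_of_normalized_factor P (Multiset.mem_of_mem_filter hP))
    · refine Multiset.prod_map_le_prod_map₀ _ _ (fun Q _ => Nat.zero_le _) (fun P hP => ?_)
      rw [Multiset.mem_filter] at hP
      exact (hr P _ (prime_of_normalized_factor P hP.1) (hu P hP.2)).2.2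

end Ideals

end Pool.Agent.Work.MuB
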