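import Mathlib

set_option autoImplicit false
set_option maxHeartbeats 400000

/-! # Sums over pairs of a function of the product of the norms -/

namespace Pool.Agent.Work.MuB

open NumberField Module MeasureTheory NumberField.InfinitePlace NumberField.Units
open scoped nonZeroDivisors ENNReal NNReal Real Pointwise

/-- dyadic lemma: if at most `C n` indices have `N i ≤ n` (`n ≥ 1`) and `g` is antitone -/
theorem tsum_dyadic_le {ι : Type*} (N : ι → ℕ) (hN : ∀ i, 1 ≤ N i) (C : ℝ)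
    (h : ∀ n : ℕ, 1 ≤ n → ∑' i, (if N i ≤ n then (1 : ℝ≥0∞) else 0) ≤ ENNReal.ofReal (C * n))
    (g : ℕ → ℝ≥0∞) (hg : ∀ m n : ℕ, 1 ≤ m → m ≤ n → g n ≤ g m) :
    ∑' i, g (N i) ≤ ∑' j : ℕ, ENNReal.ofReal (2 * C * 2 ^ j) * g (2 ^ j) := by
  calc ∑' i, g (N i)
      ≤ ∑' i, ∑' j : ℕ, (if N i ≤ 2 ^ (j + 1) then (1 : ℝ≥0∞) else 0) * g (2 ^ j) := by
        refine ENNReal.tsum_le_tsum fun i => ?_
        refine le_trans ?_ (ENNReal.le_tsum (Nat.log 2 (N i)))
        rw [if_pos (Nat.lt_pow_succ_log_self (by norm_num) _).le, one_mul]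
        exact hg _ _ Nat.one_le_two_pow (Nat.pow_log_le_self 2 (by have := hN i; omega))
    _ = ∑' j : ℕ, (∑' i, (if N i ≤ 2 ^ (j + 1) then (1 : ℝ≥0∞) else 0)) * g (2 ^ j) := by
        rw [ENNReal.tsum_comm]
        exact tsum_congr fun j => ENNReal.tsum_mul_right
    _ ≤ ∑' j : ℕ, ENNReal.ofReal (2 * C * 2 ^ j) * g (2 ^ j) := by
        refine ENNReal.tsum_le_tsum fun j => ?_
        refine mul_le_mul' ((h _ Nat.one_le_two_pow).trans (ENNReal.ofReal_le_ofReal ?_)) le_rfl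
        push_cast
        rw [pow_succ]
        exact le_of_eq (by ring)

/-- counting from a bound of the cardinality -/
theorem tsum_ite_le_of_ncard {ι : Type*} (N : ι → ℕ) (n : ℕ) (hf : {i | N i ≤ n}.Finite) (C : ℝ)
    (h : ({i | N i ≤ n}.ncard : ℝ) ≤ C) :
    ∑' i, (if N i ≤ n then (1 : ℝ≥0∞) else 0) ≤ ENNReal.ofReal C := by
  classical
  rw [tsum_eq_sum (s := hf.toFinset) (fun i hi => if_neg (by simpa using hi)),
    Finset.sum_congr rfl (fun i hi => if_pos (by simpa using hi)), Finset.sum_const, nsmul_eq_mul,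
    mul_one, ← Set.ncard_eq_toFinset_card _ hf, ← ENNReal.ofReal_natCast]
  exact ENNReal.ofReal_le_ofReal h

/-- growth of exponent `e`: at most `C x (1 + log x) ^ e` indices have `N i ≤ x` -/
def Grow {ι : Type*} (N : ι → ℕ) (e : ℕ) : Prop :=
  (∀ i, 1 ≤ N i) ∧ ∃ C : ℝ, 0 ≤ C ∧ ∀ x : ℝ, 1 ≤ x →
    ∑' i, (if (N i : ℝ) ≤ x then (1 : ℝ≥0∞) else 0) ≤
      ENNReal.ofReal (C * x * (1 + Real.log x) ^ e)

theorem grow_zero {ι : Type*} (N : ι → ℕ) (hN : ∀ i, 1 ≤ N i) (C : ℝ) (hC : 0 ≤ C)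
    (h : ∀ n : ℕ, 1 ≤ n → ∑' i, (if N i ≤ n then (1 : ℝ≥0∞) else 0) ≤ ENNReal.ofReal (C * n)) :
    Grow N 0 := by
  refine ⟨hN, C, hC, fun x hx => ?_⟩
  have h1 : ∀ i, (if (N i : ℝ) ≤ x then (1 : ℝ≥0∞) else 0) = if N i ≤ ⌊x⌋₊ then 1 else 0 := by
    intro i
    simp only [Nat.le_floor_iff (zero_le_one.trans hx)]
  simp only [h1, pow_zero, mul_one]
  refine (h _ (Nat.le_floor (by simpa using hx))).trans (ENNReal.ofReal_le_ofReal ?_)
  exact mul_le_mul_of_nonneg_left (Nat.floor_le (zero_le_one.trans hx)) hC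

theorem Grow.mul {ι κ : Type*} {N : ι → ℕ} {N' : κ → ℕ} {e : ℕ} (h : Grow N 0)
    (h' : Grow N' e) : Grow (fun x : ι × κ => N x.1 * N' x.2) (e + 1) := by
  obtain ⟨hN, C, hC, h⟩ := h
  obtain ⟨hN', C', hC', h'⟩ := h'
  refine ⟨fun x => Nat.one_le_iff_ne_zero.2 (Nat.mul_ne_zero (by have := hN x.1; omega)
    (by have := hN' x.2; omega)), 4 * C * C', by positivity, fun x hx => ?_⟩
  have hx0 : 0 < x := zero_lt_one.trans_le hx
  have hlx : 0 ≤ Real.log x := Real.log_nonneg hx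
  set K : ℝ := C' * x * (1 + Real.log x) ^ e with hK
  have hK0 : 0 ≤ K := by positivity
  set g : ℕ → ℝ≥0∞ := fun n => if (n : ℝ) ≤ x then ENNReal.ofReal (1 / n) else 0 with hg
  have hga : ∀ m n : ℕ, 1 ≤ m → m ≤ n → g n ≤ g m := by
    intro m n hm hmn
    simp only [hg]
    have hmn' : (m : ℝ) ≤ n := by exact_mod_cast hmn
    have hm' : (0 : ℝ) < m := by exact_mod_cast hm
    by_cases h1 : (n : ℝ) ≤ x
    · rw [if_pos h1, if_pos (hmn'.trans h1)]
      exact ENNReal.ofReal_le_ofReal (one_div_le_one_div_of_le hm' hmn')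
    · rw [if_neg h1]
      exact zero_le
  rw [ENNReal.tsum_prod']
  have h1 : ∀ a : ι, ∑' b : κ, (if (((N a * N' b : ℕ)) : ℝ) ≤ x then (1 : ℝ≥0∞) else 0) ≤
      g (N a) * ENNReal.ofReal K := by
    intro a
    have ha : (0 : ℝ) < N a := by exact_mod_cast hN a
    have ha1 : (1 : ℝ) ≤ N a := by exact_mod_cast hN a
    by_cases h1 : (N a : ℝ) ≤ x
    · simp only [hg, if_pos h1]
      have h2 : ∀ b : κ, (if (((N a * N' b : ℕ)) : ℝ) ≤ x then (1 : ℝ≥0∞) else 0) =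
          if (N' b : ℝ) ≤ x / N a then 1 else 0 := by
        intro b
        congr 1
        rw [le_div_iff₀ ha, Nat.cast_mul, mul_comm]
      simp only [h2]
      refine (h' _ ((one_le_div ha).2 h1)).trans ?_
      rw [← ENNReal.ofReal_mul (by positivity)]
      refine ENNReal.ofReal_le_ofReal ?_
      have h3 : Real.log (x / N a) ≤ Real.log x :=
        Real.log_le_log (by positivity) (div_le_self hx0.le ha1)
      have h4 : 0 ≤ Real.log (x / N a) := Real.log_nonneg ((one_le_div ha).2 h1)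
      calc C' * (x / N a) * (1 + Real.log (x / N a)) ^ e
          ≤ C' * (x / N a) * (1 + Real.log x) ^ e := by gcongr
        _ = 1 / N a * K := by rw [hK]; ring
    · refine (le_of_eq ?_).trans (zero_le (a := g (N a) * ENNReal.ofReal K))
      refine ENNReal.tsum_eq_zero.2 fun b => if_neg fun h2 => h1 ?_
      have hb1 : (1 : ℝ) ≤ N' b := by exact_mod_cast hN' b
      push_cast at h2
      nlinarith
  refine (ENNReal.tsum_le_tsum h1).trans ?_
  rw [ENNReal.tsum_mul_right]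
  have h2 := tsum_dyadic_le N hN C (fun n hn => by
    have := h n (by exact_mod_cast hn)
    simpa using this) g hga
  set L : ℕ := Nat.log 2 ⌊x⌋₊ with hL
  have hfl : ⌊x⌋₊ ≠ 0 := by
    have : 1 ≤ ⌊x⌋₊ := Nat.le_floor (by simpa using hx)
    omega
  have h3 : ∑' j : ℕ, ENNReal.ofReal (2 * C * 2 ^ j) * g (2 ^ j) ≤
      ENNReal.ofReal ((L + 1) * (2 * C)) := by
    rw [tsum_eq_sum (s := Finset.range (L + 1))]
    · calc ∑ j ∈ Finset.range (L + 1), ENNReal.ofReal (2 * C * 2 ^ j) * g (2 ^ j)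
          ≤ ∑ j ∈ Finset.range (L + 1), ENNReal.ofReal (2 * C) := by
            refine Finset.sum_le_sum fun j _ => ?_
            simp only [hg]
            by_cases h4 : (((2 ^ j : ℕ)) : ℝ) ≤ x
            · rw [if_pos h4, ← ENNReal.ofReal_mul (by positivity)]
              refine ENNReal.ofReal_le_ofReal ?_
              push_cast
              rw [mul_assoc, mul_one_div_cancel (by positivity), mul_one]
            · rw [if_neg h4, mul_zero]
              exact zero_le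
        _ = ENNReal.ofReal ((L + 1) * (2 * C)) := by
            rw [Finset.sum_const, Finset.card_range, nsmul_eq_mul, ← ENNReal.ofReal_natCast,
              ← ENNReal.ofReal_mul (Nat.cast_nonneg _), Nat.cast_add_one]
    · intro j hj
      have h4 : ¬ (((2 ^ j : ℕ)) : ℝ) ≤ x := by
        intro h4
        apply hj
        rw [Finset.mem_range, Nat.lt_succ_iff, hL]
        exact Nat.le_log_of_pow_le (by norm_num) (Nat.le_floor h4)
      simp only [hg, if_neg h4, mul_zero]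
  have hL2 : (L : ℝ) ≤ 2 * Real.log x := by
    have h4 : ((2 : ℝ) ^ L) ≤ x := by
      have h5 : (2 ^ L : ℕ) ≤ ⌊x⌋₊ := Nat.pow_log_le_self 2 hfl
      have h6 : (((2 ^ L : ℕ)) : ℝ) ≤ x := (Nat.cast_le.2 h5).trans (Nat.floor_le hx0.le)
      push_cast at h6
      exact h6
    have h5 : Real.log ((2 : ℝ) ^ L) ≤ Real.log x := Real.log_le_log (by positivity) h4
    rw [Real.log_pow] at h5
    have h6 : (1 / 2 : ℝ) ≤ Real.log 2 := by
      have := Real.log_two_gt_d9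
      linarith
    have h7 : (0 : ℝ) ≤ L := Nat.cast_nonneg L
    nlinarith
  refine (mul_le_mul' (h2.trans h3) le_rfl).trans ?_
  rw [← ENNReal.ofReal_mul (by positivity)]
  refine ENNReal.ofReal_le_ofReal ?_
  calc ((L : ℝ) + 1) * (2 * C) * K ≤ (2 * Real.log x + 2) * (2 * C) * K := by
        gcongr
        linarith
    _ = 4 * C * C' * x * (1 + Real.log x) ^ (e + 1) := by
        rw [hK, pow_succ]
        ring

/-- sum of `(log⁺ (M / N i)) ^ r` for a family of growth exponent `e` -/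
theorem Grow.tsum_log_le {ι : Type*} {N : ι → ℕ} {e : ℕ} (h : Grow N e) (r : ℕ) (hr : 1 ≤ r) :
    ∃ C : ℝ, 0 ≤ C ∧ ∀ M : ℝ, 1 ≤ M →
      ∑' i, ENNReal.ofReal (Real.log (M / N i)) ^ r ≤
        ENNReal.ofReal (C * M * (1 + Real.log M) ^ e) := by
  obtain ⟨hN, C, hC, h⟩ := h
  have hs : Summable fun j : ℕ => ((j : ℝ) + 1) ^ r * Real.exp (-j) := by
    have h1 := ((summable_nat_add_iff 1).2
      (Real.summable_pow_mul_exp_neg_nat_mul r (r := 1) zero_lt_one)).mul_right (Real.exp 1)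
    refine h1.congr fun j => ?_
    push_cast
    rw [mul_assoc, ← Real.exp_add]
    congr 2
    ring
  have hs0 : ∀ j : ℕ, 0 ≤ ((j : ℝ) + 1) ^ r * Real.exp (-j) := fun j => by positivity
  refine ⟨C * ∑' j : ℕ, ((j : ℝ) + 1) ^ r * Real.exp (-j),
    mul_nonneg hC (tsum_nonneg hs0), fun M hM => ?_⟩
  have hM0 : 0 < M := zero_lt_one.trans_le hM
  have hlM : 0 ≤ Real.log M := Real.log_nonneg hM
  have h1 : ∀ i, ENNReal.ofReal (Real.log (M / N i)) ^ r ≤
      ∑' j : ℕ, ENNReal.ofReal (((j : ℝ) + 1) ^ r) *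
        (if (N i : ℝ) ≤ M * Real.exp (-j) then (1 : ℝ≥0∞) else 0) := by
    intro i
    have hi : (0 : ℝ) < N i := by exact_mod_cast hN i
    by_cases h0 : Real.log (M / N i) ≤ 0
    · rw [ENNReal.ofReal_of_nonpos h0, zero_pow (by omega)]
      exact zero_le
    · push Not at h0
      refine le_trans ?_ (ENNReal.le_tsum ⌊Real.log (M / N i)⌋₊)
      rw [if_pos, mul_one, ← ENNReal.ofReal_pow h0.le]
      · refine ENNReal.ofReal_le_ofReal (pow_le_pow_left₀ h0.le ?_ r)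
        exact (Nat.lt_floor_add_one _).le
      · have h2 : ((⌊Real.log (M / N i)⌋₊ : ℕ) : ℝ) ≤ Real.log (M / N i) := Nat.floor_le h0.le
        rw [Real.le_log_iff_exp_le (by positivity), le_div_iff₀ hi] at h2
        rw [Real.exp_neg, ← div_eq_mul_inv, le_div_iff₀ (Real.exp_pos _)]
        linarith
  have h2 : ∀ j : ℕ, ∑' i, (if (N i : ℝ) ≤ M * Real.exp (-j) then (1 : ℝ≥0∞) else 0) ≤
      ENNReal.ofReal (C * M * (1 + Real.log M) ^ e * Real.exp (-j)) := by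
    intro j
    by_cases h3 : 1 ≤ M * Real.exp (-j)
    · refine (h _ h3).trans (ENNReal.ofReal_le_ofReal ?_)
      have h4 : M * Real.exp (-j) ≤ M := by
        have : Real.exp (-(j : ℝ)) ≤ 1 := Real.exp_le_one_iff.2 (by
          have : (0 : ℝ) ≤ j := Nat.cast_nonneg j
          linarith)
        nlinarith
      have h5 : Real.log (M * Real.exp (-j)) ≤ Real.log M := Real.log_le_log (by positivity) h4
      have h6 : 0 ≤ Real.log (M * Real.exp (-j)) := Real.log_nonneg h3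
      calc C * (M * Real.exp (-j)) * (1 + Real.log (M * Real.exp (-j))) ^ e
          ≤ C * (M * Real.exp (-j)) * (1 + Real.log M) ^ e := by gcongr
        _ = C * M * (1 + Real.log M) ^ e * Real.exp (-j) := by ring
    · refine (le_of_eq ?_).trans (zero_le (a := ENNReal.ofReal _))
      refine ENNReal.tsum_eq_zero.2 fun i => if_neg fun h4 => h3 ?_
      have hi1 : (1 : ℝ) ≤ N i := by exact_mod_cast hN i
      linarith
  calc ∑' i, ENNReal.ofReal (Real.log (M / N i)) ^ r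
      ≤ ∑' i, ∑' j : ℕ, ENNReal.ofReal (((j : ℝ) + 1) ^ r) *
        (if (N i : ℝ) ≤ M * Real.exp (-j) then (1 : ℝ≥0∞) else 0) := ENNReal.tsum_le_tsum h1
    _ = ∑' j : ℕ, ENNReal.ofReal (((j : ℝ) + 1) ^ r) *
        ∑' i, (if (N i : ℝ) ≤ M * Real.exp (-j) then (1 : ℝ≥0∞) else 0) := by
        rw [ENNReal.tsum_comm]
        exact tsum_congr fun j => ENNReal.tsum_mul_left
    _ ≤ ∑' j : ℕ, ENNReal.ofReal (C * M * (1 + Real.log M) ^ e) *
        ENNReal.ofReal (((j : ℝ) + 1) ^ r * Real.exp (-j)) := by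
        refine ENNReal.tsum_le_tsum fun j => (mul_le_mul' le_rfl (h2 j)).trans (le_of_eq ?_)
        rw [← ENNReal.ofReal_mul (by positivity), ← ENNReal.ofReal_mul (by positivity)]
        congr 1
        ring
    _ = ENNReal.ofReal ((C * ∑' j : ℕ, ((j : ℝ) + 1) ^ r * Real.exp (-j)) * M *
        (1 + Real.log M) ^ e) := by
        rw [ENNReal.tsum_mul_left, ← ENNReal.ofReal_tsum_of_nonneg hs0 hs,
          ← ENNReal.ofReal_mul (by positivity)]
        congr 1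
        ring

/-- abstract two-family version -/
theorem tsum_prod_log_le {ι κ : Type*} (N : ι → ℕ) (N' : κ → ℕ) (h : Grow N 0) (h' : Grow N' 0)
    (r : ℕ) (hr : 1 ≤ r) : ∃ C : ℝ, 0 ≤ C ∧ ∀ M : ℝ, 1 ≤ M →
      ∑' x : ι × κ, ENNReal.ofReal (Real.log (M / ((N x.1 * N' x.2 : ℕ) : ℝ))) ^ r ≤
        ENNReal.ofReal (C * M * (1 + Real.log M)) := by
  simpa using (h.mul h').tsum_log_le r hr

section

variable (k : Type*) [Field k] [NumberField k]

theorem pair_one_le_absNorm (I : (Ideal (𝓞 k))⁰) : 1 ≤ Ideal.absNorm (I : Ideal (𝓞 k)) :=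
  Nat.one_le_iff_ne_zero.2 (Ideal.absNorm_ne_zero_of_nonZeroDivisors I)

/-- number of ideals of norm at most `n` -/
theorem card_ideal_le : ∃ C : ℝ, 0 ≤ C ∧ ∀ n : ℕ, 1 ≤ n →
    ({I : (Ideal (𝓞 k))⁰ | Ideal.absNorm (I : Ideal (𝓞 k)) ≤ n}.ncard : ℝ) ≤ C * n := by
  have h1 := (NumberField.Ideal.tendsto_norm_le_div_atTop₀ k).comp
    (tendsto_natCast_atTop_atTop (R := ℝ))
  obtain ⟨C, hC⟩ := h1.bddAbove_range
  refine ⟨max C 0, le_max_right _ _, fun n hn => ?_⟩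
  have hn' : (0 : ℝ) < n := by exact_mod_cast hn
  have h2 := hC (Set.mem_range_self n)
  simp only [Function.comp_apply, Nat.cast_le] at h2
  rw [div_le_iff₀ hn'] at h2
  refine (le_of_eq ?_).trans (h2.trans (by gcongr; exact le_max_left _ _))
  rfl

theorem tsum_ideal_ite_le : ∃ C : ℝ, 0 ≤ C ∧ ∀ n : ℕ, 1 ≤ n →
    ∑' I : (Ideal (𝓞 k))⁰, (if Ideal.absNorm (I : Ideal (𝓞 k)) ≤ n then (1 : ℝ≥0∞) else 0) ≤
      ENNReal.ofReal (C * n) := by
  obtain ⟨C, hC, h⟩ := card_ideal_le k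
  exact ⟨C, hC, fun n hn => tsum_ite_le_of_ncard
    (fun I : (Ideal (𝓞 k))⁰ => Ideal.absNorm (I : Ideal (𝓞 k))) n
    (Ideal.finite_setOfPred_absNorm_le₀ n) _ (h n hn)⟩

theorem grow_ideal : Grow (fun I : (Ideal (𝓞 k))⁰ => Ideal.absNorm (I : Ideal (𝓞 k))) 0 := by
  obtain ⟨C, hC, h⟩ := tsum_ideal_ite_le k
  exact grow_zero _ (pair_one_le_absNorm k) C hC h

theorem grow_pnat : Grow (fun n : ℕ+ => (n : ℕ)) 0 := by
  have hf : ∀ n : ℕ, {i : ℕ+ | (i : ℕ) ≤ n}.Finite := fun n => by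
    refine Set.Finite.of_finite_image (f := fun i : ℕ+ => (i : ℕ)) ?_ PNat.coe_injective.injOn
    refine (Set.finite_Icc 1 n).subset ?_
    rintro _ ⟨i, hi, rfl⟩
    exact ⟨i.pos, hi⟩
  refine grow_zero _ (fun n => n.pos) 1 zero_le_one fun n _ =>
    tsum_ite_le_of_ncard _ n (hf n) _ ?_
  rw [one_mul]
  have h1 : {i : ℕ+ | (i : ℕ) ≤ n}.ncard =
      ((fun i : ℕ+ => (i : ℕ)) '' {i : ℕ+ | (i : ℕ) ≤ n}).ncard :=
    (Set.ncard_image_of_injective _ PNat.coe_injective).symm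
  have h2 : ((fun i : ℕ+ => (i : ℕ)) '' {i : ℕ+ | (i : ℕ) ≤ n}).ncard ≤ (Set.Icc 1 n).ncard := by
    refine Set.ncard_le_ncard ?_ (Set.finite_Icc 1 n)
    rintro _ ⟨i, hi, rfl⟩
    exact ⟨i.pos, hi⟩
  have h3 : (Set.Icc 1 n).ncard = n := by
    rw [Set.ncard_eq_toFinset_card']
    simp
  exact_mod_cast (h1.trans_le h2).trans h3.le

/-- C2: dyadic summation over pairs, `#{I : N I ≤ n} ≤ C n`
(`NumberField.Ideal.tendsto_norm_le_div_atTop`), `(log t)^r ≤ C √t` for `t ≥ 1` -/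
theorem tsum_pair_log_le (r : ℕ) (hr : 1 ≤ r) : ∃ C : ℝ, 0 ≤ C ∧ ∀ M : ℝ, 1 ≤ M →
    ∑' x : (Ideal (𝓞 k))⁰ × (Ideal (𝓞 k))⁰,
      ENNReal.ofReal (Real.log (M / ((Ideal.absNorm (x.1 : Ideal (𝓞 k)) *
        Ideal.absNorm (x.2 : Ideal (𝓞 k)) : ℕ) : ℝ))) ^ r ≤
      ENNReal.ofReal (C * M * (1 + Real.log M)) :=
  tsum_prod_log_le _ _ (grow_ideal k) (grow_ideal k) r hr

/-- pairs (positive integer, ideal) -/
theorem tsum_pnat_pair_log_le (r : ℕ) (hr : 1 ≤ r) : ∃ C : ℝ, 0 ≤ C ∧ ∀ M : ℝ, 1 ≤ M →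
    ∑' x : ℕ+ × (Ideal (𝓞 k))⁰,
      ENNReal.ofReal (Real.log (M / (((x.1 : ℕ) *
        Ideal.absNorm (x.2 : Ideal (𝓞 k)) : ℕ) : ℝ))) ^ r ≤
      ENNReal.ofReal (C * M * (1 + Real.log M)) :=
  tsum_prod_log_le _ _ grow_pnat (grow_ideal k) r hr

end

end Pool.Agent.Work.MuB
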