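import Pool.Agent.Work.MP_a4986b_nt.BRegAux

set_option autoImplicit false
set_option maxHeartbeats 400000

/-! # R2: lower bound for the regulator of a quadratic extension of a fixed number field -/

namespace Pool.Agent.Work.MuB

open NumberField Module MeasureTheory NumberField.InfinitePlace NumberField.Units
open scoped nonZeroDivisors ENNReal NNReal Real Pointwise
open NumberField.Units.dirichletUnitTheorem

section

variable (k : Type*) [Field k] [NumberField k]

open scoped Classical in
/-- units with very small logarithms are roots of unity -/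
theorem exists_delta : ∃ δ : ℝ, 0 < δ ∧ ∀ u : (𝓞 k)ˣ,
    (∀ v : InfinitePlace k, |Real.log (v (u : k))| < δ) → ∀ v : InfinitePlace k, v (u : k) = 1 := by
  have hfin := unitLattice_inter_ball_finite k 1
  have hfin2 : (((unitLattice k : Set (logSpace k)) ∩ Metric.closedBall 0 1) \ {0}).Finite :=
    hfin.subset Set.sdiff_subset
  obtain ⟨ε, hε, hεS⟩ : ∃ ε : ℝ, 0 < ε ∧
      ∀ x ∈ ((unitLattice k : Set (logSpace k)) ∩ Metric.closedBall 0 1) \ {0}, ε ≤ ‖x‖ := by
    rcases Set.eq_empty_or_nonempty
      (((unitLattice k : Set (logSpace k)) ∩ Metric.closedBall 0 1) \ {0}) with h | h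
    · exact ⟨1, one_pos, fun x hx => by rw [h] at hx; exact absurd hx (Set.notMem_empty x)⟩
    · obtain ⟨x0, hx0, hmin⟩ := Set.exists_min_image _ (fun x => ‖x‖) hfin2 h
      exact ⟨‖x0‖, norm_pos_iff.mpr hx0.2, hmin⟩
  refine ⟨min ε 1 / 2, by positivity, fun u hu => ?_⟩
  have hn : ‖logEmbedding k (Additive.ofMul u)‖ < min ε 1 := by
    rw [pi_norm_lt_iff (by positivity)]
    intro w
    rw [logEmbedding_component, Real.norm_eq_abs, abs_mul, Nat.abs_cast]
    have h1 : (mult w.1 : ℝ) ≤ 2 := by
      have : mult w.1 ≤ 2 := by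
        rw [mult]; split_ifs <;> norm_num
      exact_mod_cast this
    have h2 := hu w.1
    have h3 := abs_nonneg (Real.log (w.1 (u : k)))
    have h4 : 0 < min ε 1 / 2 := by positivity
    nlinarith
  have hmem : logEmbedding k (Additive.ofMul u) ∈ (unitLattice k : Set (logSpace k)) :=
    ⟨Additive.ofMul u, trivial, rfl⟩
  have h0 : logEmbedding k (Additive.ofMul u) = 0 := by
    by_contra hne
    have := hεS _ ⟨⟨hmem, by
      rw [mem_closedBall_zero_iff]
      exact hn.le.trans (min_le_right _ _)⟩, hne⟩
    exact absurd (hn.trans_le (min_le_left _ _)) (not_lt.mpr this)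
  exact (mem_torsion k).mp (logEmbedding_eq_zero_iff.mp h0)

variable {k}

/-- a unit of `k` whose logarithms at the places different from `v₀` are small has small
logarithms everywhere -/
theorem abs_log_lt_of_ne {u : (𝓞 k)ˣ} {v₀ : InfinitePlace k} {a δ : ℝ} (ha : 0 ≤ a)
    (h : ∀ v, v ≠ v₀ → |Real.log (v (u : k))| < a) (had : 2 * finrank ℚ k * a + a < δ) :
    ∀ v : InfinitePlace k, |Real.log (v (u : k))| < δ := by
  classical
  intro v
  have hd : (0 : ℝ) ≤ 2 * finrank ℚ k * a := by positivity
  by_cases hv : v = v₀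
  · subst hv
    have h1 := sum_mult_mul_log u
    rw [← Finset.add_sum_erase _ _ (Finset.mem_univ v)] at h1
    have h2 : |(mult v : ℝ) * Real.log (v (u : k))| ≤ 2 * finrank ℚ k * a := by
      rw [eq_neg_of_add_eq_zero_left h1, abs_neg]
      refine (Finset.abs_sum_le_sum_abs _ _).trans ?_
      have h3 : ∀ w ∈ Finset.univ.erase v, |(mult w : ℝ) * Real.log (w (u : k))| ≤ mult w * a := by
        intro w hw
        rw [abs_mul, Nat.abs_cast]
        exact mul_le_mul_of_nonneg_left (h w (Finset.ne_of_mem_erase hw)).le (Nat.cast_nonneg _)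
      refine (Finset.sum_le_sum h3).trans ?_
      rw [← Finset.sum_mul]
      gcongr
      calc ∑ w ∈ Finset.univ.erase v, (mult w : ℝ) ≤ ∑ w : InfinitePlace k, (mult w : ℝ) :=
            Finset.sum_le_sum_of_subset_of_nonneg (Finset.erase_subset _ _)
              fun _ _ _ => Nat.cast_nonneg _
        _ = finrank ℚ k := by exact_mod_cast congrArg (Nat.cast (R := ℝ)) (sum_mult_eq (K := k))
        _ ≤ 2 * finrank ℚ k := by
          have : (0 : ℝ) ≤ finrank ℚ k := Nat.cast_nonneg _
          linarith
    rw [abs_mul, Nat.abs_cast] at h2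
    have h4 : (1 : ℝ) ≤ mult v := by exact_mod_cast mult_pos (w := v)
    have h5 := abs_nonneg (Real.log (v (u : k)))
    by_cases ha0 : a = 0
    · subst ha0
      nlinarith
    · have : 0 < a := lt_of_le_of_ne ha (Ne.symm ha0)
      nlinarith
  · have := h v hv
    linarith

section body

variable {F : Type*} [Field F] [NumberField F] [Algebra k F]

open scoped Classical in
/-- the class of a place of `F` different from `w₀` -/
noncomputable def cls (k : Type*) [Field k] [NumberField k] {F : Type*} [Field F] [NumberField F]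
    [Algebra k F] (w : {w : InfinitePlace F // w ≠ w₀}) : InfinitePlace k :=
  w.1.comap (algebraMap k F)

/-- the chosen place of `F` above a place of `k` -/
noncomputable def sec (k : Type*) [Field k] [NumberField k] {F : Type*} [Field F] [NumberField F]
    [Algebra k F] : InfinitePlace k → InfinitePlace F :=
  Function.surjInv (comap_surjective (k := k) (K := F))

theorem comap_sec (v : InfinitePlace k) : (sec k v : InfinitePlace F).comap (algebraMap k F) = v :=
  Function.surjInv_eq (comap_surjective (k := k) (K := F)) v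

/-- being a chosen place above a place different from `w₀ ∩ k` -/
def isRep (k : Type*) [Field k] [NumberField k] {F : Type*} [Field F] [NumberField F]
    [Algebra k F] (w : {w : InfinitePlace F // w ≠ w₀}) : Prop :=
  cls k w ≠ (w₀ : InfinitePlace F).comap (algebraMap k F) ∧ sec k (cls k w) = w.1

theorem isRep_inj (i j : {w : InfinitePlace F // w ≠ w₀}) (hi : isRep k i) (hj : isRep k j)
    (h : cls k i = cls k j) : i = j := by
  apply Subtype.ext
  rw [← hi.2, ← hj.2, h]

open scoped Classical in
/-- the number of chosen places is the unit rank of `k` -/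
theorem card_isRep : (Finset.univ.filter fun w : {w : InfinitePlace F // w ≠ w₀} =>
    isRep k w).card = Units.rank k := by
  have h1 : Units.rank k = (Finset.univ.erase
      ((w₀ : InfinitePlace F).comap (algebraMap k F))).card := by
    rw [Finset.card_erase_of_mem (Finset.mem_univ _), Finset.card_univ, Units.rank]
  rw [h1]
  refine Finset.card_bij (fun w _ => cls k w) ?_ ?_ ?_
  · intro w hw
    rw [Finset.mem_filter] at hw
    exact Finset.mem_erase.mpr ⟨hw.2.1, Finset.mem_univ _⟩
  · intro w hw w' hw' h
    rw [Finset.mem_filter] at hw hw'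
    exact isRep_inj w w' hw.2 hw'.2 h
  · intro v hv
    have hv1 := Finset.ne_of_mem_erase hv
    have hne : (sec k v : InfinitePlace F) ≠ w₀ := by
      intro h
      apply hv1
      rw [← h, comap_sec]
    have hc : cls k (⟨sec k v, hne⟩ : {w : InfinitePlace F // w ≠ w₀}) = v := comap_sec v
    refine ⟨⟨sec k v, hne⟩, ?_, hc⟩
    rw [Finset.mem_filter]
    exact ⟨Finset.mem_univ _, by rw [hc]; exact hv1, by rw [hc]⟩

open scoped Classical in
/-- the abstract inequality: if the body contains no nonzero logarithm of a unit then the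
regulator is at least `a ^ (rank k) * B ^ (rank F - rank k) / (rank F)!` -/
theorem regulator_ge_of_body (a B : ℝ) (ha : 0 ≤ a) (hB : 0 ≤ B)
    (h0 : ∀ u : (𝓞 F)ˣ, (∀ i, |shear (cls k) (isRep k) (logEmbedding F (Additive.ofMul u)) i| <
      if isRep k i then a else B) → logEmbedding F (Additive.ofMul u) = 0) :
    a ^ Units.rank k * B ^ (Units.rank F - Units.rank k) / (Units.rank F).factorial ≤
      regulator F := by
  set b : {w : InfinitePlace F // w ≠ w₀} → ℝ := fun i => if isRep k i then a else B with hb
  have hb0 : ∀ i, 0 ≤ b i := fun i => by simp only [hb]; split_ifs <;> assumption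
  have h1 := volume_shear_ge (cls k) (isRep k) (fun i j => isRep_inj i j) b hb0
  have h2 := volume_le_covolume (unitLattice F)
    (shear (cls k) (isRep k) ⁻¹' {y | ∀ i, |y i| < b i}) ?_ ?_ ?_
  · have h3 := h1.trans h2
    have hcard : Fintype.card {w : InfinitePlace F // w ≠ w₀} = Units.rank F := by
      rw [Fintype.card_subtype_compl, Fintype.card_subtype_eq, Units.rank]
    rw [ENNReal.ofReal_le_ofReal_iff (by
      have := ZLattice.covolume_pos (unitLattice F)
      positivity)] at h3
    have hprod : ∏ i, 2 * b i = 2 ^ Units.rank F *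
        (a ^ Units.rank k * B ^ (Units.rank F - Units.rank k)) := by
      rw [Finset.prod_mul_distrib, Finset.prod_const, Finset.card_univ, hcard]
      congr 1
      rw [← Finset.prod_filter_mul_prod_filter_not Finset.univ (fun i => isRep k i)]
      rw [Finset.prod_congr rfl (g := fun _ => a) (fun i hi => by
          simp only [hb]; rw [if_pos (Finset.mem_filter.mp hi).2]),
        Finset.prod_congr (s₁ := Finset.univ.filter fun i => ¬ isRep k i) rfl (g := fun _ => B)
          (fun i hi => by simp only [hb]; rw [if_neg (Finset.mem_filter.mp hi).2]),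
        Finset.prod_const, Finset.prod_const, card_isRep]
      congr 2
      have h8 := Finset.card_filter_add_card_filter_not
        (s := (Finset.univ : Finset {w : InfinitePlace F // w ≠ w₀})) (fun i => isRep k i)
      rw [card_isRep, Finset.card_univ, hcard] at h8
      omega
    rw [hprod, hcard] at h3
    have h4 : (0 : ℝ) < 2 ^ Units.rank F := by positivity
    have h5 : (0 : ℝ) < ((Units.rank F).factorial : ℕ) := by exact_mod_cast Nat.factorial_pos _
    rw [div_le_iff₀ h5] at h3 ⊢
    have h6 : (2 : ℝ) ^ Units.rank F * (a ^ Units.rank k * B ^ (Units.rank F - Units.rank k)) ≤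
        2 ^ Units.rank F * (regulator F * ((Units.rank F).factorial : ℕ)) := by
      refine h3.trans (le_of_eq ?_)
      rw [regulator]
      ring
    exact le_of_mul_le_mul_left h6 h4
  · intro x hx i
    have := hx i
    rwa [map_neg, Pi.neg_apply, abs_neg]
  · apply Convex.linear_preimage
    have h7 : {y : {w : InfinitePlace F // w ≠ w₀} → ℝ | ∀ i, |y i| < b i} =
        Set.pi Set.univ fun i => Set.Ioo (-b i) (b i) := by
      ext y
      simp [abs_lt]
    rw [h7]
    exact convex_pi fun i _ => convex_Ioo _ _
  · rintro x ⟨u, -, rfl⟩ hx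
    exact h0 u.toMul hx

open scoped Classical in
/-- points of the body have bounded coordinates -/
theorem abs_le_of_shear {a B : ℝ} (ha : 0 ≤ a) (hB : 0 ≤ B)
    {x : {w : InfinitePlace F // w ≠ w₀} → ℝ}
    (hx : ∀ i, |shear (cls k) (isRep k) x i| < if isRep k i then a else B) (i) :
    |x i| ≤ a + Units.rank F * B := by
  have hcard : Fintype.card {w : InfinitePlace F // w ≠ w₀} = Units.rank F := by
    rw [Fintype.card_subtype_compl, Fintype.card_subtype_eq, Units.rank]
  have hnot : ∀ j, ¬ isRep k j → |x j| < B := by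
    intro j hj
    have := hx j
    rwa [shear_apply_not _ _ _ hj, if_neg hj] at this
  have hcard1 : 1 ≤ Units.rank F := by
    rw [← hcard]
    exact Fintype.card_pos_iff.mpr ⟨i⟩
  by_cases hi : isRep k i
  · have h1 := hx i
    rw [shear_apply_rep _ _ _ hi, if_pos hi,
      ← Finset.add_sum_erase _ _ (Finset.mem_univ i), if_pos rfl] at h1
    have h2 : |∑ j ∈ Finset.univ.erase i, (if cls k j = cls k i then x j else 0)| ≤
        Units.rank F * B := by
      refine (Finset.abs_sum_le_sum_abs _ _).trans ?_
      have h3 : ∀ j ∈ Finset.univ.erase i, |if cls k j = cls k i then x j else 0| ≤ B := by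
        intro j hj
        split_ifs with h
        · refine (hnot j fun hj' => ?_).le
          exact Finset.ne_of_mem_erase hj (isRep_inj j i hj' hi h)
        · simpa using hB
      refine (Finset.sum_le_card_nsmul _ _ _ h3).trans ?_
      rw [nsmul_eq_mul]
      gcongr
      calc (Finset.univ.erase i).card ≤ (Finset.univ : Finset
            {w : InfinitePlace F // w ≠ w₀}).card := Finset.card_le_card (Finset.erase_subset _ _)
        _ = Units.rank F := by rw [Finset.card_univ, hcard]
    have h4 := abs_sub_abs_le_abs_add (x i)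
      (∑ j ∈ Finset.univ.erase i, (if cls k j = cls k i then x j else 0))
    linarith
  · have h1 := hnot i hi
    have h2 : (1 : ℝ) ≤ Units.rank F := by exact_mod_cast hcard1
    nlinarith

open scoped Classical in
/-- logarithms of units in the body -/
theorem abs_log_le_of_body {a B : ℝ} (ha : 0 ≤ a) (hB : 0 ≤ B) {u : (𝓞 F)ˣ}
    (hx : ∀ i, |shear (cls k) (isRep k) (logEmbedding F (Additive.ofMul u)) i| <
      if isRep k i then a else B) (w : InfinitePlace F) :
    |Real.log (w (u : F))| ≤ finrank ℚ F * (a + finrank ℚ F * B) := by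
  have hcard : Fintype.card {w : InfinitePlace F // w ≠ w₀} = Units.rank F := by
    rw [Fintype.card_subtype_compl, Fintype.card_subtype_eq, Units.rank]
  have hrank : (Units.rank F : ℝ) ≤ finrank ℚ F := by
    have : Units.rank F ≤ finrank ℚ F := by
      rw [Units.rank]
      have h1 := sum_mult_eq (K := F)
      have h2 : Fintype.card (InfinitePlace F) ≤ ∑ w : InfinitePlace F, mult w := by
        rw [← Finset.card_univ, Finset.card_eq_sum_ones]
        exact Finset.sum_le_sum fun w _ => mult_pos
      omega
    exact_mod_cast this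
  have hn1 : (1 : ℝ) ≤ finrank ℚ F := by
    have : 1 ≤ finrank ℚ F := finrank_pos
    exact_mod_cast this
  have hX := abs_le_of_shear ha hB hx
  have hX' : ∀ i, |logEmbedding F (Additive.ofMul u) i| ≤ a + finrank ℚ F * B := by
    intro i
    refine (hX i).trans ?_
    gcongr
  have hab : 0 ≤ a + finrank ℚ F * B := by positivity
  have hmw : ∀ w : InfinitePlace F, (1 : ℝ) ≤ mult w := fun w => by
    exact_mod_cast mult_pos (w := w)
  by_cases hw : w = w₀
  · have h1 := sum_logEmbedding_component u
    have h2 : |∑ w, logEmbedding F (Additive.ofMul u) w| ≤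
        finrank ℚ F * (a + finrank ℚ F * B) := by
      refine (Finset.abs_sum_le_sum_abs _ _).trans ?_
      refine (Finset.sum_le_card_nsmul _ _ _ fun i _ => hX' i).trans ?_
      rw [nsmul_eq_mul, Finset.card_univ, hcard]
      gcongr
    rw [h1, neg_mul, abs_neg, abs_mul, Nat.abs_cast, ← hw] at h2
    have h3 := hmw w
    have h4 := abs_nonneg (Real.log (w (u : F)))
    nlinarith
  · have h1 := hX' ⟨w, hw⟩
    rw [logEmbedding_component, abs_mul, Nat.abs_cast] at h1
    have h3 := hmw w
    have h4 := abs_nonneg (Real.log (w (u : F)))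
    have h5 : |Real.log (w (u : F))| ≤ a + finrank ℚ F * B := by
      refine le_trans ?_ h1
      exact le_mul_of_one_le_left h4 h3
    nlinarith

open scoped Classical in
/-- units of `k` in the body -/
theorem unit_of_base {a B δ : ℝ} (ha : 0 ≤ a)
    (hδ : ∀ u : (𝓞 k)ˣ, (∀ v : InfinitePlace k, |Real.log (v (u : k))| < δ) →
      ∀ v : InfinitePlace k, v (u : k) = 1)
    (had : 2 * finrank ℚ k * a + a < δ) {u : (𝓞 F)ˣ}
    (hx : ∀ i, |shear (cls k) (isRep k) (logEmbedding F (Additive.ofMul u)) i| <
      if isRep k i then a else B) (hu : (u : F) ∈ Set.range (algebraMap k F)) :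
    logEmbedding F (Additive.ofMul u) = 0 := by
  -- the unit of `k`
  obtain ⟨y, hy⟩ := hu
  have hy1 : IsIntegral ℤ y := by
    have h1 : IsIntegral ℤ (algebraMap k F y) := by
      rw [hy]; exact (u : 𝓞 F).isIntegral_coe
    exact (isIntegral_algebraMap_iff (algebraMap k F).injective).mp h1
  have hy2 : IsIntegral ℤ y⁻¹ := by
    have h1 : IsIntegral ℤ (algebraMap k F y⁻¹) := by
      have h2 : algebraMap k F y⁻¹ = ((u⁻¹ : (𝓞 F)ˣ) : F) := by
        rw [map_inv₀, hy]
        simp
      rw [h2]; exact ((u⁻¹ : (𝓞 F)ˣ) : 𝓞 F).isIntegral_coe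
    exact (isIntegral_algebraMap_iff (algebraMap k F).injective).mp h1
  have hy0 : y ≠ 0 := by
    rintro rfl
    rw [map_zero] at hy
    exact (Units.coe_ne_zero u) hy.symm
  let u0 : (𝓞 k)ˣ := ⟨⟨y, hy1⟩, ⟨y⁻¹, hy2⟩, Subtype.ext (mul_inv_cancel₀ hy0),
    Subtype.ext (inv_mul_cancel₀ hy0)⟩
  have hu0 : (u0 : k) = y := rfl
  have hplace : ∀ w : InfinitePlace F, w (u : F) = (w.comap (algebraMap k F)) (u0 : k) := by
    intro w
    rw [comap_apply, hu0, hy]
  have hsmall : ∀ v, v ≠ (w₀ : InfinitePlace F).comap (algebraMap k F) →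
      |Real.log (v (u0 : k))| < a := by
    intro v hv
    have hne : (sec k v : InfinitePlace F) ≠ w₀ := by
      intro h
      apply hv
      rw [← h, comap_sec]
    have hc : cls k (⟨sec k v, hne⟩ : {w : InfinitePlace F // w ≠ w₀}) = v := comap_sec v
    have hrep : isRep k (⟨sec k v, hne⟩ : {w : InfinitePlace F // w ≠ w₀}) :=
      ⟨by rw [hc]; exact hv, by rw [hc]⟩
    have h1 := hx ⟨sec k v, hne⟩
    rw [if_pos hrep, shear_apply_rep _ _ _ hrep, hc] at h1
    have h2 : ∑ j : {w : InfinitePlace F // w ≠ w₀}, (if cls k j = v then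
        logEmbedding F (Additive.ofMul u) j else 0) =
        (∑ j : {w : InfinitePlace F // w ≠ w₀}, (if cls k j = v then (mult j.1 : ℝ) else 0)) *
          Real.log (v (u0 : k)) := by
      rw [Finset.sum_mul]
      refine Finset.sum_congr rfl fun j _ => ?_
      split_ifs with h
      · rw [logEmbedding_component, hplace, ← h]
        rfl
      · simp
    rw [h2, abs_mul] at h1
    have h3 : (1 : ℝ) ≤ |∑ j : {w : InfinitePlace F // w ≠ w₀},
        (if cls k j = v then (mult j.1 : ℝ) else 0)| := by
      refine le_trans ?_ (le_abs_self _)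
      calc (1 : ℝ) ≤ mult (sec k v : InfinitePlace F) := by
            exact_mod_cast mult_pos (w := (sec k v : InfinitePlace F))
        _ = (if cls k (⟨sec k v, hne⟩ : {w : InfinitePlace F // w ≠ w₀}) = v then
              (mult (sec k v : InfinitePlace F) : ℝ) else 0) := by rw [if_pos hc]
        _ ≤ _ := Finset.single_le_sum (f := fun j : {w : InfinitePlace F // w ≠ w₀} =>
            (if cls k j = v then (mult j.1 : ℝ) else 0)) (fun j _ => by positivity)
            (Finset.mem_univ _)
    have h4 := abs_nonneg (Real.log (v (u0 : k)))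
    nlinarith
  have h5 := hδ u0 (abs_log_lt_of_ne ha hsmall had)
  rw [logEmbedding_eq_zero_iff, mem_torsion]
  intro w
  rw [hplace, h5]

end body

/-- R2 -/
theorem regulator_ge (k : Type*) [Field k] [NumberField k] :
    ∃ C c : ℝ, 1 ≤ C ∧ 0 < c ∧ ∀ (F : Type) [Field F] [NumberField F]
    [Algebra k F], finrank k F = 2 → C ≤ |(discr F : ℝ)| →
      c * (1 + Real.log |(discr F : ℝ)|) ^ (Units.rank F - Units.rank k) ≤ regulator F := by
  classical
  obtain ⟨δ, hδ0, hδ⟩ := exists_delta k
  obtain ⟨C1, hC1⟩ := log_discr_le_of_adjoin k 2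
  set d : ℝ := ((finrank ℚ k : ℕ) : ℝ) with hd
  have hd1 : 1 ≤ d := by
    have : 1 ≤ finrank ℚ k := finrank_pos
    rw [hd]; exact_mod_cast this
  set a : ℝ := δ / (4 * d) with ha
  have ha0 : 0 < a := by positivity
  have had : 2 * d * a + a < δ := by
    rw [ha]
    rw [show 2 * d * (δ / (4 * d)) = δ / 2 by field_simp; ring]
    have : δ / (4 * d) ≤ δ / 4 := by
      apply div_le_div_of_nonneg_left hδ0.le (by norm_num) (by linarith)
    linarith
  set C2 : ℝ := |C1| + 16 * d ^ 2 * a with hC2
  set t : ℝ := 1 / (256 * d ^ 3) with ht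
  have hd3 : 1 ≤ d ^ 3 := one_le_pow₀ hd1
  have ht0 : 0 < t := by positivity
  have ht1 : t ≤ 1 := by
    rw [ht, div_le_one (by positivity)]
    linarith
  refine ⟨Real.exp (2 * C2 + 1), a ^ Units.rank k * t ^ (2 * finrank ℚ k) /
    ((2 * finrank ℚ k).factorial : ℕ), ?_, ?_, ?_⟩
  · apply Real.one_le_exp
    positivity
  · have : (0 : ℝ) < ((2 * finrank ℚ k).factorial : ℕ) := by exact_mod_cast Nat.factorial_pos _
    positivity
  intro F _ _ _ h2 hD
  have hn : finrank ℚ F = 2 * finrank ℚ k := by
    rw [← finrank_mul_finrank ℚ k F, h2, mul_comm]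
  have hnR : (finrank ℚ F : ℝ) = 2 * d := by rw [hn, hd]; push_cast; ring
  set L : ℝ := Real.log |(discr F : ℝ)| with hL
  have hL1 : 2 * C2 + 1 ≤ L := by
    rw [hL, Real.le_log_iff_exp_le (lt_of_lt_of_le (Real.exp_pos _) hD)]
    exact hD
  have hC20 : 0 ≤ C2 := by positivity
  set B : ℝ := t * (1 + L) with hB
  have hB0 : 0 ≤ B := by
    have : 0 ≤ 1 + L := by linarith
    positivity
  have hbody := regulator_ge_of_body (k := k) (F := F) a B ha0.le hB0 (by
    intro u hx
    by_cases hu : (u : F) ∈ Set.range (algebraMap k F)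
    · exact unit_of_base ha0.le hδ had hx hu
    · exfalso
      have hlog := abs_log_le_of_body ha0.le hB0 hx
      rw [hnR] at hlog
      set E : ℝ := 2 * d * (a + 2 * d * B) with hE
      have hE0 : 0 ≤ E := by positivity
      have hdeg : (minpoly k (u : F)).natDegree = 2 := by
        have hint : IsIntegral k (u : F) := Algebra.IsIntegral.isIntegral _
        have h3 := minpoly.degree_dvd hint
        rw [h2] at h3
        rcases (Nat.dvd_prime Nat.prime_two).mp h3 with h4 | h4
        · exact absurd (minpoly.natDegree_eq_one_iff.mp h4) hu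
        · exact h4
      have h5 := hC1 F h2 (u : 𝓞 F) hdeg (Real.exp E) (Real.one_le_exp hE0) (fun σ => by
        have h6 := hlog (InfinitePlace.mk σ)
        rw [InfinitePlace.apply] at h6
        have h7 : 0 < ‖σ (u : F)‖ := by
          rw [norm_pos_iff, Ne, map_eq_zero]
          exact Units.coe_ne_zero u
        rw [← Real.log_le_iff_le_exp h7]
        exact (le_abs_self _).trans h6)
      rw [Real.log_exp] at h5
      have h8 : C1 ≤ |C1| := le_abs_self _
      have h9 : 2 * ((finrank ℚ k : ℝ) * ((2 : ℕ) : ℝ)) * ((2 : ℕ) : ℝ) * E =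
          16 * d ^ 2 * a + 32 * d ^ 3 * B := by
        rw [hE, ← hd]; push_cast; ring
      rw [h9] at h5
      have h10 : 32 * d ^ 3 * B = (1 + L) / 8 := by
        rw [hB, ht]; field_simp; ring
      rw [h10] at h5
      rw [← hL] at h5
      linarith)
  refine le_trans ?_ hbody
  have hrk : Units.rank F ≤ 2 * finrank ℚ k := by
    rw [Units.rank, ← hn]
    have h1 := sum_mult_eq (K := F)
    have h2 : Fintype.card (InfinitePlace F) ≤ ∑ w : InfinitePlace F, mult w := by
      rw [← Finset.card_univ, Finset.card_eq_sum_ones]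
      exact Finset.sum_le_sum fun w _ => mult_pos
    omega
  have hL0 : 0 ≤ 1 + L := by linarith
  rw [hB, mul_pow, div_mul_eq_mul_div]
  have hf1 : (0 : ℝ) < ((Units.rank F).factorial : ℕ) := by exact_mod_cast Nat.factorial_pos _
  have hf2 : (((Units.rank F).factorial : ℕ) : ℝ) ≤ ((2 * finrank ℚ k).factorial : ℕ) := by
    exact_mod_cast Nat.factorial_le hrk
  have ht2 : t ^ (2 * finrank ℚ k) ≤ t ^ (Units.rank F - Units.rank k) :=
    pow_le_pow_of_le_one ht0.le ht1 (by omega)
  calc a ^ Units.rank k * t ^ (2 * finrank ℚ k) *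
        (1 + L) ^ (Units.rank F - Units.rank k) / ((2 * finrank ℚ k).factorial : ℕ)
      ≤ a ^ Units.rank k * t ^ (Units.rank F - Units.rank k) *
        (1 + L) ^ (Units.rank F - Units.rank k) / ((Units.rank F).factorial : ℕ) := by
        gcongr
    _ = a ^ Units.rank k * (t ^ (Units.rank F - Units.rank k) *
        (1 + L) ^ (Units.rank F - Units.rank k)) / ((Units.rank F).factorial : ℕ) := by
        rw [mul_assoc]

end

end Pool.Agent.Work.MuB
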