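import Mathlib

set_option autoImplicit false
set_option maxHeartbeats 400000

/-! # Auxiliary results for the lower bound for the regulator:
discriminant bound by a relative generator, shears, Minkowski -/

namespace Pool.Agent.Work.MuB

open NumberField Module MeasureTheory
open scoped Nat ENNReal

/-- the discriminant of a number field is at most the discriminant of any `ℚ`-linearly independent
family of `[F:ℚ]` algebraic integers -/
theorem abs_discr_le_of_family {F : Type*} [Field F] [NumberField F] {ι : Type*} [Fintype ι]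
    [DecidableEq ι] (y : ι → 𝓞 F) (hcard : Fintype.card ι = finrank ℚ F)
    (hli : LinearIndependent ℚ (fun i => (y i : F))) :
    |(discr F : ℝ)| ≤ |(Algebra.discr ℤ y : ℝ)| := by
  classical
  have : Nonempty ι := Fintype.card_pos_iff.mp (hcard ▸ finrank_pos)
  have hc : Fintype.card ι = Fintype.card (Module.Free.ChooseBasisIndex ℤ (𝓞 F)) := by
    rw [hcard, ← RingOfIntegers.rank F, Module.finrank_eq_card_chooseBasisIndex]
  let e : Module.Free.ChooseBasisIndex ℤ (𝓞 F) ≃ ι := (Fintype.equivOfCardEq hc).symm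
  let b : Basis ι ℤ (𝓞 F) := (RingOfIntegers.basis F).reindex e
  have h1 : Algebra.discr ℤ y = (b.toMatrix y).det ^ 2 * Algebra.discr ℤ b := by
    rw [← Algebra.discr_of_matrix_vecMul b (b.toMatrix y)]
    congr 1
    funext i
    have h2 : (algebraMap ℤ (𝓞 F)).mapMatrix (b.toMatrix y) =
      (b.toMatrix y).map (algebraMap ℤ (𝓞 F)) := rfl
    have := congrFun (b.toMatrix_map_vecMul y) i
    exact this.symm
  have h2 : Algebra.discr ℤ b = discr F := (discr_eq_discr F b)
  have h3 : Algebra.discr ℤ y ≠ 0 := by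
    have hb : Algebra.discr ℚ (fun i => (y i : F)) ≠ 0 := by
      let B : Basis ι ℚ F := basisOfLinearIndependentOfCardEqFinrank hli hcard
      have h4 : (fun i => (y i : F)) = B := by
        simp [B]
      rw [h4]
      exact Algebra.discr_not_zero_of_basis ℚ B
    intro h0
    apply hb
    have h6 : (algebraMap ℤ ℚ) (Algebra.discr ℤ y) = Algebra.discr ℚ (fun i => (y i : F)) := by
      rw [Algebra.discr_def, Algebra.discr_def, RingHom.map_det]
      congr 1
      ext i j
      simp only [RingHom.mapMatrix_apply, Matrix.map_apply, Algebra.traceMatrix_apply,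
        Algebra.traceForm_apply]
      rw [← Algebra.trace_localization ℤ (nonZeroDivisors ℤ) (Rₘ := ℚ) (Sₘ := F)]
      simp
    rw [← h6, h0, map_zero]
  have hdet : (b.toMatrix y).det ≠ 0 := by
    intro h0
    apply h3
    rw [h1, h0]
    simp
  rw [h1, h2]
  generalize (b.toMatrix y).det = d at hdet
  push_cast
  rw [abs_mul, abs_of_nonneg (sq_nonneg (d : ℝ))]
  have h7 : (1 : ℝ) ≤ (d : ℝ) ^ 2 := by
    have : 1 ≤ d ^ 2 := by
      have := sq_pos_of_ne_zero (a := d) hdet
      omega
    exact_mod_cast this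
  nlinarith [abs_nonneg (discr F : ℝ)]

/-- Leibniz bound for the discriminant of a family of algebraic integers -/
theorem abs_discr_family_le {F : Type*} [Field F] [NumberField F] {ι : Type*} [Fintype ι]
    [DecidableEq ι] (y : ι → 𝓞 F) (hcard : Fintype.card ι = finrank ℚ F) (M : ℝ)
    (hM : ∀ (σ : F →+* ℂ) (i : ι), ‖σ (y i)‖ ≤ M) :
    |(Algebra.discr ℤ y : ℝ)| ≤ ((Fintype.card ι)! * M ^ Fintype.card ι) ^ 2 := by
  classical
  have h6 : (algebraMap ℤ ℚ) (Algebra.discr ℤ y) = Algebra.discr ℚ (fun i => (y i : F)) := by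
    rw [Algebra.discr_def, Algebra.discr_def, RingHom.map_det]
    congr 1
    ext i j
    simp only [RingHom.mapMatrix_apply, Matrix.map_apply, Algebra.traceMatrix_apply,
      Algebra.traceForm_apply]
    rw [← Algebra.trace_localization ℤ (nonZeroDivisors ℤ) (Rₘ := ℚ) (Sₘ := F)]
    simp
  have hc : Fintype.card ι = Fintype.card (F →ₐ[ℚ] ℂ) := by
    rw [hcard, AlgHom.card]
  let e : ι ≃ (F →ₐ[ℚ] ℂ) := Fintype.equivOfCardEq hc
  have h1 := Algebra.discr_eq_det_embeddingsMatrixReindex_pow_two ℚ ℂ (fun i => (y i : F)) e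
  have h2 : ‖(algebraMap ℚ ℂ) (Algebra.discr ℚ (fun i => (y i : F)))‖ =
      |(Algebra.discr ℤ y : ℝ)| := by
    rw [← h6]
    simp
  rw [← h2, h1, norm_pow]
  gcongr
  have h3 := Matrix.det_le (A := Algebra.embeddingsMatrixReindex ℚ ℂ (fun i => (y i : F)) e)
    (abv := NormedField.toAbsoluteValue ℂ) (x := M) (fun i j =>
      hM ((e j : F →ₐ[ℚ] ℂ) : F →+* ℂ) i)
  rw [nsmul_eq_mul] at h3
  exact h3

/-- if `x ∈ 𝓞 F` generates `F` over `K` then `log |D_F| ≤ C + 2 n m log H` -/
theorem log_discr_le_of_adjoin (K : Type*) [Field K] [NumberField K] (m : ℕ) :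
    ∃ C : ℝ, ∀ (F : Type*) [Field F] [NumberField F] [Algebra K F], finrank K F = m →
      ∀ x : 𝓞 F, (minpoly K (x : F)).natDegree = m → ∀ H : ℝ, 1 ≤ H →
      (∀ σ : F →+* ℂ, ‖σ x‖ ≤ H) →
      Real.log |(discr F : ℝ)| ≤ C + 2 * (finrank ℚ K * m) * m * Real.log H := by
  classical
  let b := RingOfIntegers.basis K
  -- a bound for the conjugates of the integral basis of `K`
  obtain ⟨A, hA1, hA⟩ : ∃ A : ℝ, 1 ≤ A ∧ ∀ (τ : K →+* ℂ) i, ‖τ (b i : K)‖ ≤ A := by
    have hfin : (Set.range fun p : (K →+* ℂ) × Module.Free.ChooseBasisIndex ℤ (𝓞 K) =>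
      ‖p.1 (b p.2 : K)‖).Finite := Set.finite_range _
    obtain ⟨A, hA⟩ := hfin.bddAbove
    exact ⟨max A 1, le_max_right _ _, fun τ i => (hA ⟨(τ, i), rfl⟩).trans (le_max_left _ _)⟩
  refine ⟨2 * Real.log ((finrank ℚ K * m)! * A ^ (finrank ℚ K * m)), ?_⟩
  intro F _ _ _ hm x hx H hH hxH
  let y : Module.Free.ChooseBasisIndex ℤ (𝓞 K) × Fin (minpoly K (x : F)).natDegree → 𝓞 F :=
    fun p => algebraMap (𝓞 K) (𝓞 F) (b p.1) * x ^ (p.2 : ℕ)
  have hdK : Fintype.card (Module.Free.ChooseBasisIndex ℤ (𝓞 K)) = finrank ℚ K := by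
    rw [← RingOfIntegers.rank K, Module.finrank_eq_card_chooseBasisIndex]
  have hcard' : Fintype.card (Module.Free.ChooseBasisIndex ℤ (𝓞 K) ×
      Fin (minpoly K (x : F)).natDegree) = finrank ℚ K * m := by
    rw [Fintype.card_prod, Fintype.card_fin, hx, hdK]
  have hn : finrank ℚ F = finrank ℚ K * m := by
    rw [← hm, finrank_mul_finrank]
  have hcard := hcard'.trans hn.symm
  have hyF : ∀ p, (y p : F) = algebraMap K F (b p.1) * (x : F) ^ (p.2 : ℕ) := by
    intro p
    simp only [y, map_mul, map_pow]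
    rfl
  have hli : LinearIndependent ℚ (fun i => (y i : F)) := by
    have h1 : LinearIndependent ℚ (fun i => (b i : K)) := by
      have h0 := (integralBasis K).linearIndependent
      have h0' : (⇑(integralBasis K) : _ → K) = fun i => (b i : K) := by
        funext i
        rw [integralBasis_apply]
      rwa [h0'] at h0
    have h2 := linearIndependent_pow (K := K) (x : F)
    have h3 := linearIndependent_smul h1 h2
    have h4 : (fun i => (y i : F)) = (fun p : Module.Free.ChooseBasisIndex ℤ (𝓞 K) ×
        Fin (minpoly K (x : F)).natDegree => (b p.1 : K) • ((x : F) ^ (p.2 : ℕ))) := by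
      funext p
      rw [hyF p, Algebra.smul_def]
    rw [h4]
    exact h3
  have hM : ∀ (σ : F →+* ℂ) i, ‖σ (y i)‖ ≤ A * H ^ m := by
    intro σ i
    have h1 := hA (σ.comp (algebraMap K F)) i.1
    have h2 := hxH σ
    rw [hyF i, map_mul, map_pow, norm_mul, norm_pow]
    have h4 : ‖σ (x : F)‖ ^ (i.2 : ℕ) ≤ H ^ m := by
      calc ‖σ (x : F)‖ ^ (i.2 : ℕ) ≤ H ^ (i.2 : ℕ) := by gcongr
        _ ≤ H ^ m := pow_le_pow_right₀ hH (by have := i.2.2; omega)
    exact mul_le_mul h1 h4 (by positivity) (by positivity)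
  have h4 := (abs_discr_le_of_family y hcard hli).trans (abs_discr_family_le y hcard _ hM)
  rw [hcard'] at h4
  have hD : 0 < |(discr F : ℝ)| := by
    rw [abs_pos]
    exact_mod_cast discr_ne_zero F
  have h5 := Real.log_le_log hD h4
  have hH0 : 0 < H := by linarith
  have hA0 : 0 < A := by linarith
  have hfac : (0 : ℝ) < ((finrank ℚ K * m)! : ℕ) := by exact_mod_cast Nat.factorial_pos _
  refine h5.trans (le_of_eq ?_)
  rw [Real.log_pow, mul_pow, ← mul_assoc, Real.log_mul (by positivity) (by positivity),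
    ← pow_mul, Real.log_pow]
  push_cast
  ring

section shear

variable {ι κ : Type*} [Fintype ι] [DecidableEq ι] [DecidableEq κ]

/-- the linear map adding to the coordinate of a representative all coordinates of its class -/
noncomputable def shear (cls : ι → κ) (rep : ι → Prop) [DecidablePred rep] :
    (ι → ℝ) →ₗ[ℝ] (ι → ℝ) where
  toFun x i := if rep i then ∑ j, (if cls j = cls i then x j else 0) else x i
  map_add' x y := by
    funext i
    by_cases h : rep i
    · simp only [h, if_true, Pi.add_apply]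
      rw [← Finset.sum_add_distrib]
      refine Finset.sum_congr rfl fun j _ => ?_
      split_ifs <;> simp
    · simp [h]
  map_smul' c x := by
    funext i
    by_cases h : rep i
    · simp only [h, if_true, Pi.smul_apply, smul_eq_mul, RingHom.id_apply]
      rw [Finset.mul_sum]
      refine Finset.sum_congr rfl fun j _ => ?_
      split_ifs <;> simp
    · simp [h]

omit [DecidableEq ι] in
theorem shear_apply_rep (cls : ι → κ) (rep : ι → Prop) [DecidablePred rep] (x : ι → ℝ) {i : ι}
    (h : rep i) : shear cls rep x i = ∑ j, (if cls j = cls i then x j else 0) := by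
  simp [shear, h]

omit [DecidableEq ι] in
theorem shear_apply_not (cls : ι → κ) (rep : ι → Prop) [DecidablePred rep] (x : ι → ℝ) {i : ι}
    (h : ¬ rep i) : shear cls rep x i = x i := by
  simp [shear, h]

theorem shear_injective (cls : ι → κ) (rep : ι → Prop) [DecidablePred rep]
    (hrep : ∀ i j, rep i → rep j → cls i = cls j → i = j) :
    Function.Injective (shear cls rep) := by
  rw [injective_iff_map_eq_zero]
  intro x hx
  have h1 : ∀ i, ¬ rep i → x i = 0 := by
    intro i hi
    have := congrFun hx i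
    rwa [shear_apply_not cls rep x hi] at this
  funext i
  by_cases hi : rep i
  · have := congrFun hx i
    rw [shear_apply_rep cls rep x hi, Finset.sum_eq_single i] at this
    · simpa using this
    · intro j _ hj
      split_ifs with h2
      · exact h1 j fun h3 => hj (hrep j i h3 hi h2)
      · rfl
    · intro h; exact absurd (Finset.mem_univ i) h
  · exact h1 i hi

theorem abs_det_shear_le (cls : ι → κ) (rep : ι → Prop) [DecidablePred rep] :
    |LinearMap.det (shear cls rep)| ≤ (Fintype.card ι)! := by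
  rw [← LinearMap.det_toMatrix']
  have h := Matrix.det_le (A := LinearMap.toMatrix' (shear cls rep)) (abv := AbsoluteValue.abs)
    (x := (1 : ℝ)) (fun i j => by
      rw [LinearMap.toMatrix'_apply]
      change |shear cls rep _ i| ≤ 1
      by_cases hi : rep i
      · rw [shear_apply_rep cls rep _ hi, Finset.sum_eq_single j]
        · split_ifs <;> simp
        · intro b _ hb
          simp [hb]
        · intro h; exact absurd (Finset.mem_univ j) h
      · rw [shear_apply_not cls rep _ hi]
        rcases eq_or_ne i j with rfl | hij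
        · simp
        · simp [hij])
  simpa using h

/-- the volume of the preimage of a box under the shear -/
theorem volume_shear_ge (cls : ι → κ) (rep : ι → Prop) [DecidablePred rep]
    (hrep : ∀ i j, rep i → rep j → cls i = cls j → i = j) (b : ι → ℝ) (hb : ∀ i, 0 ≤ b i) :
    ENNReal.ofReal ((∏ i, 2 * b i) / (Fintype.card ι)!) ≤
      volume (shear cls rep ⁻¹' {y | ∀ i, |y i| < b i}) := by
  have hdet : LinearMap.det (shear cls rep) ≠ 0 := by
    have h1 : IsUnit (shear cls rep) := by
      rw [LinearMap.isUnit_iff_ker_eq_bot]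
      exact LinearMap.ker_eq_bot.mpr (shear_injective cls rep hrep)
    exact ((LinearMap.isUnit_iff_isUnit_det _).mp h1).ne_zero
  rw [Measure.addHaar_preimage_linearMap volume hdet]
  have h2 : {y : ι → ℝ | ∀ i, |y i| < b i} = Set.pi Set.univ fun i => Set.Ioo (-b i) (b i) := by
    ext y
    simp [abs_lt]
  rw [h2, Real.volume_pi_Ioo]
  have h3 : ∀ i, b i - -b i = 2 * b i := fun i => by ring
  simp only [h3]
  rw [← ENNReal.ofReal_prod_of_nonneg (fun i _ => by have := hb i; positivity),
    ← ENNReal.ofReal_mul (abs_nonneg _)]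
  apply ENNReal.ofReal_le_ofReal
  rw [div_eq_inv_mul, abs_inv]
  have h4 := abs_det_shear_le cls rep
  have h5 : 0 < |LinearMap.det (shear cls rep)| := abs_pos.mpr hdet
  have h6 : 0 ≤ ∏ i, 2 * b i := Finset.prod_nonneg fun i _ => by have := hb i; positivity
  gcongr

end shear

/-- Minkowski: a symmetric convex set without nonzero lattice points has volume at most
`2 ^ n` times the covolume -/
theorem volume_le_covolume {ι : Type*} [Fintype ι] (L : Submodule ℤ (ι → ℝ)) [DiscreteTopology L]
    [IsZLattice ℝ L] (s : Set (ι → ℝ)) (h_symm : ∀ x ∈ s, -x ∈ s) (h_conv : Convex ℝ s)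
    (h0 : ∀ x ∈ L, x ∈ s → x = 0) :
    volume s ≤ ENNReal.ofReal (ZLattice.covolume L * 2 ^ Fintype.card ι) := by
  by_contra hlt
  push Not at hlt
  have hfund := ZLattice.isAddFundamentalDomain (Free.chooseBasis ℤ L) (volume : Measure (ι → ℝ))
  have h1 := ZLattice.covolume_eq_measure_fundamentalDomain L volume hfund
  have hfin : volume (ZSpan.fundamentalDomain ((Free.chooseBasis ℤ L).ofZLatticeBasis ℝ)) ≠ ∞ :=
    (Bornology.IsBounded.measure_lt_top (ZSpan.fundamentalDomain_isBounded _)).ne
  have h2 : ENNReal.ofReal (ZLattice.covolume L * 2 ^ Fintype.card ι) =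
      volume (ZSpan.fundamentalDomain ((Free.chooseBasis ℤ L).ofZLatticeBasis ℝ)) *
        2 ^ finrank ℝ (ι → ℝ) := by
    rw [h1, ENNReal.ofReal_mul (by positivity), Measure.real, ENNReal.ofReal_toReal hfin]
    simp [ENNReal.ofReal_pow]
  rw [h2] at hlt
  have hfund' : IsAddFundamentalDomain L.toAddSubgroup
    (ZSpan.fundamentalDomain ((Free.chooseBasis ℤ L).ofZLatticeBasis ℝ)) volume := hfund
  have : Countable L.toAddSubgroup := (inferInstance : Countable L)
  obtain ⟨x, hx0, hxs⟩ := exists_ne_zero_mem_lattice_of_measure_mul_two_pow_lt_measure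
    hfund' h_symm h_conv hlt
  apply hx0
  exact Subtype.ext (h0 x x.2 hxs)

end Pool.Agent.Work.MuB
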