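import Mathlib

set_option autoImplicit false
set_option maxHeartbeats 400000

/-! # Skeleton (statements only, NEVER import): quadratic extensions of a fixed number field

Final theorem: for every number field `k` there is `c > 0` such that for every odd prime `p` and
every quadratic extension `F / k` with `r_F > r_k`, exactly one prime above `p` and
`|D_F| ≤ c p² (1 + log p)^(2 (r_F - r_k - 1))` the class number of `F` is prime to `p`. -/

namespace Pool.Agent.Work.MuB

open NumberField Module MeasureTheory NumberField.InfinitePlace NumberField.Units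
open scoped nonZeroDivisors ENNReal NNReal Real Pointwise

section

variable {F : Type*} [Field F] [NumberField F]

/-- DONE (BCover.lean) -/
theorem covering {M : ℝ} (hM : (2 / π) ^ nrComplexPlaces F * √|(discr F : ℝ)| < M) :
    ENNReal.ofReal (Nat.card (ClassGroup (𝓞 F)) * regulator F) ≤
      ∑' I : (Ideal (𝓞 F))⁰,
        ENNReal.ofReal (Real.log (M / Ideal.absNorm (I : Ideal (𝓞 F)))) ^ Units.rank F := by
  sorry

end

section

variable (k : Type*) [Field k] [NumberField k]

/-- C1: injection of the ideals of `F` into pairs of ideals of `k` that does not increase norms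
(label the at most two primes above each prime of `k`; send `∏ Q ^ v` to
`(∏_{label 0} (Q ∩ k) ^ v, ∏_{label 1} (Q ∩ k) ^ v)`) -/
theorem tsum_ideal_le (F : Type*) [Field F] [NumberField F] [Algebra k F] (h2 : finrank k F = 2)
    (φ : ℕ → ℝ≥0∞) (hφ : ∀ m n : ℕ, 1 ≤ m → m ≤ n → φ n ≤ φ m) :
    ∑' I : (Ideal (𝓞 F))⁰, φ (Ideal.absNorm (I : Ideal (𝓞 F))) ≤
      ∑' x : (Ideal (𝓞 k))⁰ × (Ideal (𝓞 k))⁰,
        φ (Ideal.absNorm (x.1 : Ideal (𝓞 k)) * Ideal.absNorm (x.2 : Ideal (𝓞 k))) := by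
  sorry

/-- C2: dyadic summation over pairs, `#{I : N I ≤ n} ≤ C n`
(`NumberField.Ideal.tendsto_norm_le_div_atTop`), `(log t)^r ≤ C √t` for `t ≥ 1` -/
theorem tsum_pair_log_le (r : ℕ) (hr : 1 ≤ r) : ∃ C : ℝ, 0 ≤ C ∧ ∀ M : ℝ, 1 ≤ M →
    ∑' x : (Ideal (𝓞 k))⁰ × (Ideal (𝓞 k))⁰,
      ENNReal.ofReal (Real.log (M / ((Ideal.absNorm (x.1 : Ideal (𝓞 k)) *
        Ideal.absNorm (x.2 : Ideal (𝓞 k)) : ℕ) : ℝ))) ^ r ≤
      ENNReal.ofReal (C * M * (1 + Real.log M)) := by
  sorry

/-- R1: discriminant of `θ_i, θ_i u` (`θ_i` an integral basis of `k`): expand the determinant -/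
theorem discr_le_of_unit_le : ∃ C : ℝ, 0 < C ∧ ∀ (F : Type) [Field F] [NumberField F]
    [Algebra k F], finrank k F = 2 → ∀ u : 𝓞 F, (u : F) ∉ Set.range (algebraMap k F) →
      ∀ B : ℝ, 1 ≤ B → (∀ w : InfinitePlace F, w (u : F) ≤ B) →
        |(discr F : ℝ)| ≤ C * B ^ (2 * finrank ℚ k) := by
  sorry

/-- R2: Minkowski's theorem for the unit lattice and the body
`|x_w| < b` (`w` not the chosen place above `v`), `|∑_{w | v} x_w| < a` (`v ≠ v₀`);
`b = (log |D_F| - C) / (2 d) - C`, `a` a small constant depending on `k`. Uses R1. -/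
theorem regulator_ge : ∃ C c : ℝ, 1 ≤ C ∧ 0 < c ∧ ∀ (F : Type) [Field F] [NumberField F]
    [Algebra k F], finrank k F = 2 → C ≤ |(discr F : ℝ)| →
      c * (1 + Real.log |(discr F : ℝ)|) ^ (Units.rank F - Units.rank k) ≤ regulator F := by
  sorry

/-- R3: all ranks: `r_k ≤ r_F ≤ 2 r_k + 1` (places of `F` over places of `k`) -/
theorem rank_bounds (F : Type*) [Field F] [NumberField F] [Algebra k F] (h2 : finrank k F = 2) :
    Units.rank k ≤ Units.rank F ∧ Units.rank F ≤ 2 * Units.rank k + 1 := by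
  sorry

/-- H0: crude bound, used only for small `|D_F|`: every class contains an ideal of norm
`≤ (4/π)^(r₂) √|D_F|`; count with C1 -/
theorem class_le : ∃ C : ℝ, 0 < C ∧ ∀ (F : Type) [Field F] [NumberField F] [Algebra k F],
    finrank k F = 2 → (Nat.card (ClassGroup (𝓞 F)) : ℝ) ≤
      C * √|(discr F : ℝ)| * (1 + Real.log |(discr F : ℝ)|) := by
  sorry

/-- H1: from `covering`, C1, C2, R2, H0 -/
theorem class_le' : ∃ C : ℝ, 0 < C ∧ ∀ (F : Type) [Field F] [NumberField F] [Algebra k F],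
    finrank k F = 2 → Units.rank k < Units.rank F →
      (Nat.card (ClassGroup (𝓞 F)) : ℝ) * (1 + Real.log |(discr F : ℝ)|) ^
        (Units.rank F - Units.rank k - 1) ≤ C * √|(discr F : ℝ)| := by
  sorry

/-- H2: from H1 (`c` small forces `p` large; cases `|D_F| ≤ p` and `|D_F| > p`) -/
theorem not_dvd : ∃ c : ℝ, 0 < c ∧ ∀ (F : Type) [Field F] [NumberField F] [Algebra k F] (p : ℕ),
    p.Prime → finrank k F = 2 → Units.rank k < Units.rank F →
      |(discr F : ℝ)| ≤ c * (p : ℝ) ^ 2 *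
        (1 + Real.log p) ^ (2 * (Units.rank F - Units.rank k - 1)) →
      ¬ p ∣ Nat.card (ClassGroup (𝓞 F)) := by
  sorry

end

end Pool.Agent.Work.MuB
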