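import Mathlib

set_option autoImplicit false
set_option maxHeartbeats 400000

/-! # Skeleton 2 (statements only, NEVER import): relative extensions of a fixed number field

Theorem B+ (replaces Theorem B): for every number field `k` and every `m` there is `c > 0` such
that for every odd prime `p` and every extension `F / k` of degree `m` without intermediate fields,
with exactly one prime above `p` and
`|D_F| ≤ c p² (1 + log p)^(2 (r_F - r_k - m + 1))` (the exponent may be negative)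
the class number of `F` is prime to `p`. -/

namespace Pool.Agent.Work.MuB

open NumberField Module MeasureTheory NumberField.InfinitePlace NumberField.Units
open scoped nonZeroDivisors ENNReal NNReal Real Pointwise

section

variable (k : Type*) [Field k] [NumberField k]

/-- C1+ : DONE by helper65 (BIdeal.lean) -/
theorem tsum_ideal_le_fin (F : Type*) [Field F] [NumberField F] [Algebra k F] {m : ℕ}
    (hm : finrank k F = m) (φ : ℕ → ℝ≥0∞) (hφ : ∀ m n : ℕ, 1 ≤ m → m ≤ n → φ n ≤ φ m) :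
    ∑' I : (Ideal (𝓞 F))⁰, φ (Ideal.absNorm (I : Ideal (𝓞 F))) ≤
      ∑' x : Fin m → (Ideal (𝓞 k))⁰, φ (∏ j, Ideal.absNorm (x j : Ideal (𝓞 k))) := by
  sorry

/-- C2+ -/
theorem tsum_tuple_log_le (m r : ℕ) (hm : 1 ≤ m) (hr : 1 ≤ r) : ∃ C : ℝ, 0 ≤ C ∧ ∀ M : ℝ, 1 ≤ M →
    ∑' x : Fin m → (Ideal (𝓞 k))⁰,
      ENNReal.ofReal (Real.log (M / ((∏ j, Ideal.absNorm (x j : Ideal (𝓞 k)) : ℕ) : ℝ))) ^ r ≤
      ENNReal.ofReal (C * M * (1 + Real.log M) ^ (m - 1)) := by
  sorry

/-- C3+ : number of tuples (for the crude bound H0+) -/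
theorem card_tuple_le (m : ℕ) (hm : 1 ≤ m) : ∃ C : ℝ, 0 ≤ C ∧ ∀ M : ℝ, 1 ≤ M →
    ∑' x : Fin m → (Ideal (𝓞 k))⁰,
      (if ((∏ j, Ideal.absNorm (x j : Ideal (𝓞 k)) : ℕ) : ℝ) ≤ M then (1 : ℝ≥0∞) else 0) ≤
      ENNReal.ofReal (C * M * (1 + Real.log M) ^ (m - 1)) := by
  sorry

/-- R2+ -/
theorem regulator_ge_gen (m : ℕ) : ∃ C c : ℝ, 1 ≤ C ∧ 0 < c ∧ ∀ (F : Type) [Field F]
    [NumberField F] [Algebra k F], finrank k F = m →
      (∀ u : F, u ∉ Set.range (algebraMap k F) → IntermediateField.adjoin k {u} = ⊤) →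
      C ≤ |(discr F : ℝ)| →
      c * (1 + Real.log |(discr F : ℝ)|) ^ (Units.rank F - Units.rank k) ≤ regulator F := by
  sorry

/-- R3+ -/
theorem rank_bounds_gen (m : ℕ) (F : Type*) [Field F] [NumberField F] [Algebra k F]
    (hm : finrank k F = m) :
    Units.rank k ≤ Units.rank F ∧ Units.rank F + 1 ≤ m * (Units.rank k + 1) := by
  sorry

/-- H0+ : crude bound, used only for small `|D_F|` -/
theorem class_le_gen (m : ℕ) : ∃ C : ℝ, 0 < C ∧ ∀ (F : Type) [Field F] [NumberField F]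
    [Algebra k F], finrank k F = m → (Nat.card (ClassGroup (𝓞 F)) : ℝ) ≤
      C * √|(discr F : ℝ)| * (1 + Real.log |(discr F : ℝ)|) ^ (m - 1) := by
  sorry

/-- H1+ : from `covering`, C1+, C2+, R2+, H0+ -/
theorem class_le_gen' (m : ℕ) : ∃ C : ℝ, 0 < C ∧ ∀ (F : Type) [Field F] [NumberField F]
    [Algebra k F], finrank k F = m →
      (∀ u : F, u ∉ Set.range (algebraMap k F) → IntermediateField.adjoin k {u} = ⊤) →
      (Nat.card (ClassGroup (𝓞 F)) : ℝ) * (1 + Real.log |(discr F : ℝ)|) ^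
        ((Units.rank F : ℤ) - Units.rank k - m + 1) ≤ C * √|(discr F : ℝ)| := by
  sorry

/-- H2+ : from H1+ (`c` small forces `p` large; cases `|D_F| ≤ p` and `|D_F| > p`) -/
theorem not_dvd_gen (m : ℕ) : ∃ c : ℝ, 0 < c ∧ ∀ (F : Type) [Field F] [NumberField F]
    [Algebra k F] (p : ℕ), p.Prime → finrank k F = m →
      (∀ u : F, u ∉ Set.range (algebraMap k F) → IntermediateField.adjoin k {u} = ⊤) →
      |(discr F : ℝ)| ≤ c * (p : ℝ) ^ 2 *
        (1 + Real.log p) ^ (2 * ((Units.rank F : ℤ) - Units.rank k - m + 1)) →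
      ¬ p ∣ Nat.card (ClassGroup (𝓞 F)) := by
  sorry

end

end Pool.Agent.Work.MuB
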