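import Mathlib

set_option autoImplicit false
set_option maxHeartbeats 400000

/-! # Skeleton 3 (statements only, NEVER import): Theorem B++, all extensions `F / k`

`ρ` bounds the unit ranks of the proper intermediate fields; exponent `2 (r_F - ρ - m + 1)`. -/

namespace Pool.Agent.Work.MuB

open NumberField Module MeasureTheory NumberField.InfinitePlace NumberField.Units
open scoped nonZeroDivisors ENNReal NNReal Real Pointwise

/-- S1: uniform Kronecker theorem -/
theorem exists_delta_unif (N : ℕ) : ∃ δ : ℝ, 0 < δ ∧ ∀ (F : Type) [Field F] [NumberField F],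
    finrank ℚ F = N → ∀ u : (𝓞 F)ˣ,
      (∀ w : InfinitePlace F, |Real.log (w (u : F))| < δ) → ∀ w : InfinitePlace F, w (u : F) = 1 := by
  sorry

/-- S2: number of intermediate fields, uniformly in the degree (partitions of the set of
embeddings) -/
theorem card_intermediate_le (m : ℕ) : ∃ A : ℕ, ∀ (k F : Type) [Field k] [Field F] [CharZero k]
    [Algebra k F], finrank k F = m → 0 < m →
      (Set.univ : Set (IntermediateField k F)).Finite ∧
      (Set.univ : Set (IntermediateField k F)).ncard ≤ A := by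
  sorry

/-- S3: linear algebra: a grid `∑ a_i v_i`, `0 ≤ a_i ≤ A`, on `s` independent vectors is not covered
by `A` subspaces of dimension `< s` -/
theorem exists_combination {V : Type*} [AddCommGroup V] [Module ℝ V] {s A : ℕ}
    (v : Fin s → V) (hv : LinearIndependent ℝ v) {ι : Type*} (T : Finset ι) (hT : T.card ≤ A)
    (W : ι → Submodule ℝ V) (hW : ∀ i ∈ T, finrank ℝ (W i) < s)
    (hfd : ∀ i ∈ T, FiniteDimensional ℝ (W i)) :
    ∃ a : Fin s → ℕ, (∀ i, a i ≤ A) ∧ ∀ i ∈ T, ∑ j, (a j : ℝ) • v j ∉ W i := by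
  sorry

/-- S4: geometry of numbers: a lattice `Λ` in `ℝ^r` without nonzero vectors of norm `< δ` whose
vectors of norm `< B` span a space of dimension `≤ ρ` has covolume at least
`c δ^ρ (B)^(r - ρ)` (scales `B / K^j`, pigeonhole, Minkowski's theorem for
`|x_V| < δ / 2`, `|x_(V^⊥)| < B_j / 4`) -/
theorem covolume_ge (r : ℕ) (δ : ℝ) (hδ : 0 < δ) : ∃ c : ℝ, 0 < c ∧
    ∀ (ι : Type) [Fintype ι], Fintype.card ι = r → ∀ (L : Submodule ℤ (ι → ℝ)) [DiscreteTopology L]
      [IsZLattice ℝ L] (B : ℝ) (ρ : ℕ), 1 ≤ B → ρ ≤ r →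
      (∀ x ∈ L, (∀ i, |x i| < δ) → x = 0) →
      (finrank ℝ (Submodule.span ℝ {x : ι → ℝ | x ∈ L ∧ ∀ i, |x i| < B}) ≤ ρ) →
      c * B ^ (r - ρ) ≤ ZLattice.covolume L := by
  sorry

/-- R2++ : regulator -/
theorem regulator_ge_all (k : Type) [Field k] [NumberField k] (m : ℕ) : ∃ C c : ℝ, 1 ≤ C ∧ 0 < c ∧
    ∀ (F : Type) [Field F] [NumberField F] [Algebra k F] (ρ : ℕ), finrank k F = m →
      (∀ F' : IntermediateField k F, F' ≠ ⊤ → Units.rank F' ≤ ρ) →
      C ≤ |(discr F : ℝ)| →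
      c * (1 + Real.log |(discr F : ℝ)|) ^ (Units.rank F - ρ) ≤ regulator F := by
  sorry

/-- H1++ -/
theorem class_le_all (k : Type) [Field k] [NumberField k] (m : ℕ) : ∃ C : ℝ, 0 < C ∧
    ∀ (F : Type) [Field F] [NumberField F] [Algebra k F] (ρ : ℕ), finrank k F = m →
      (∀ F' : IntermediateField k F, F' ≠ ⊤ → Units.rank F' ≤ ρ) → ρ ≤ Units.rank F →
      (Nat.card (ClassGroup (𝓞 F)) : ℝ) * (1 + Real.log |(discr F : ℝ)|) ^
        ((Units.rank F : ℤ) - ρ - m + 1) ≤ C * √|(discr F : ℝ)| := by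
  sorry

/-- H2++ -/
theorem not_dvd_all (k : Type) [Field k] [NumberField k] (m : ℕ) : ∃ c : ℝ, 0 < c ∧
    ∀ (F : Type) [Field F] [NumberField F] [Algebra k F] (ρ p : ℕ), p.Prime → finrank k F = m →
      (∀ F' : IntermediateField k F, F' ≠ ⊤ → Units.rank F' ≤ ρ) → ρ ≤ Units.rank F →
      |(discr F : ℝ)| ≤ c * (p : ℝ) ^ 2 *
        (1 + Real.log p) ^ (2 * ((Units.rank F : ℤ) - ρ - m + 1)) →
      ¬ p ∣ Nat.card (ClassGroup (𝓞 F)) := by
  sorry

end Pool.Agent.Work.MuB
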