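import Pool.Agent.Work.MP_a4986b_nt.Tower
import Pool.Agent.Work.MP_a4986b_nt.Cyc

set_option autoImplicit false
set_option maxHeartbeats 400000

/-! # The common conclusion -/

namespace Pool.Agent.Work.MuB

open NumberField Module

/-- if the class number of `F` is prime to `p` and exactly one prime lies above `p`, then the
class numbers of the cyclotomic layers of every Galois extension `L / F` of `p`-power degree
unramified outside `p` are prime to `p` -/
theorem concl {F : Type} [Field F] [NumberField F] {p : ℕ} (hp : p.Prime) (hp2 : p ≠ 2)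
    (hF : ¬ p ∣ Nat.card (ClassGroup (𝓞 F)))
    (hone : ∃! P : Ideal (𝓞 F), P.IsPrime ∧ (p : 𝓞 F) ∈ P)
    (L : IntermediateField ℚ ℂ) [NumberField L] [Algebra F L] [IsGalois F L] (n : ℕ)
    (hn : finrank F L = p ^ n)
    (hun : ∀ Q : Ideal (𝓞 L), Q.IsPrime → Q ≠ ⊥ → (p : 𝓞 L) ∉ Q →
      Q.ramificationIdx (𝓞 F) = 1)
    (m : ℕ) (E : IntermediateField ℚ ℂ)
    (hE : E ≤ IntermediateField.adjoin ℚ {w : ℂ | w ^ (p ^ (m + 1)) = 1})
    (hEd : finrank ℚ E = p ^ m) :
    ¬ p ∣ Nat.card (ClassGroup (𝓞 ↥(L ⊔ E))) := by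
  have hone' : Mu22.OnePrime p F := by
    intro P Q hP hQ hpP hpQ
    exact hone.unique ⟨hP, hpP⟩ ⟨hQ, hpQ⟩
  obtain ⟨hL, hL1⟩ := Mu22.tower hp n hn (hp.odd_of_ne_two hp2) hone' hun hF
  exact Mu22.cyc_tower hp hp2 L hL1 hL m (m + 1) E hE hEd

end Pool.Agent.Work.MuB
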