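import Mathlib

set_option autoImplicit false
set_option maxHeartbeats 400000

/-! # T4: the quadratic resolvent and the closure of a cubic field -/

namespace Pool.Agent.Work.MuB

open NumberField Module MeasureTheory NumberField.InfinitePlace NumberField.Units
open scoped nonZeroDivisors ENNReal NNReal Real Pointwise

section Gen

open IntermediateField

variable (Q F E : Type) [Field Q] [CharZero Q] [Field F] [Algebra Q F] [FiniteDimensional Q F]
  [Field E] [Algebra Q E] [IsAlgClosed E]

/-- the normal closure of a field of degree three has degree at most six -/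
theorem finrank_normalClosure_le [Algebra.IsAlgebraic Q E] (hF : finrank Q F = 3) :
    finrank Q (normalClosure Q F E) ≤ 6 := by
  have hN : Normal Q E :=
    normal_iff.mpr fun x => ⟨Algebra.IsIntegral.isIntegral x, IsAlgClosed.splits _⟩
  have hne : Nonempty (F →ₐ[Q] E) := ⟨IsAlgClosed.lift⟩
  have hsep : Algebra.IsSeparable Q (normalClosure Q F E) := inferInstance
  have hgal : IsGalois Q (normalClosure Q F E) := ⟨⟩
  have hncl : IsNormalClosure Q F (normalClosure Q F E) := isNormalClosure_normalClosure Q F E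
  have hfd : FiniteDimensional Q (normalClosure Q F E) := inferInstance
  have hcard : Nat.card (F →ₐ[Q] normalClosure Q F E) = 3 := by
    rw [Nat.card_congr (normalClosure.algHomEquiv Q F E)]
    rw [Nat.card_eq_fintype_card, AlgHom.card, hF]
  generalize normalClosure Q F E = L at *
  have hcl : normalClosure Q F L = ⊤ :=
    (Algebra.IsAlgebraic.isNormalClosure_iff.mp hncl).2
  have hfin : Finite (F →ₐ[Q] L) := Nat.finite_of_card_ne_zero (by omega)
  let Φ : (L ≃ₐ[Q] L) → Equiv.Perm (F →ₐ[Q] L) := fun σ =>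
    { toFun := fun φ => (σ : L →ₐ[Q] L).comp φ
      invFun := fun φ => (σ.symm : L →ₐ[Q] L).comp φ
      left_inv := fun φ => by ext x; simp
      right_inv := fun φ => by ext x; simp }
  have hinj : Function.Injective Φ := by
    intro σ τ h
    let S : IntermediateField Q L :=
      { AlgHom.equalizer (σ : L →ₐ[Q] L) (τ : L →ₐ[Q] L) with
        inv_mem' := fun x (hx : σ x = τ x) => by
          change σ x⁻¹ = τ x⁻¹
          rw [map_inv₀, map_inv₀, hx] }
    have hS : S = ⊤ := by
      rw [← top_le_iff, ← hcl, normalClosure_def]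
      refine iSup_le fun φ => ?_
      rintro _ ⟨x, rfl⟩
      change σ (φ x) = τ (φ x)
      have h1 := DFunLike.congr_fun h φ
      exact DFunLike.congr_fun h1 x
    ext1 x
    have : x ∈ S := by rw [hS]; trivial
    exact this
  rw [← IsGalois.card_aut_eq_finrank]
  refine (Nat.card_le_card_of_injective Φ hinj).trans ?_
  rw [Nat.card_perm, hcard]
  decide

/-- a square root of the discriminant in the normal closure -/
theorem exists_sqrt_discr {ι : Type} [Fintype ι] [DecidableEq ι] (b : Basis ι Q F) :
    ∃ x : E, x ∈ normalClosure Q F E ∧ x ^ 2 = algebraMap Q E (Algebra.discr Q b) := by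
  have hc : Fintype.card ι = Fintype.card (F →ₐ[Q] E) := by
    rw [AlgHom.card, ← finrank_eq_card_basis b]
  let e := Fintype.equivOfCardEq hc
  let M' : Matrix ι ι (normalClosure Q F E) :=
    fun i j => ⟨e j (b i), (e j).fieldRange_le_normalClosure ⟨b i, rfl⟩⟩
  refine ⟨M'.det, M'.det.2, ?_⟩
  rw [Algebra.discr_eq_det_embeddingsMatrixReindex_pow_two Q E (b := b) e]
  congr 1
  have h2 : (algebraMap (normalClosure Q F E) E) M'.det =
      (Algebra.embeddingsMatrixReindex Q E b e).det := by
    rw [RingHom.map_det]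
    congr 1
  exact h2

omit [CharZero Q] [FiniteDimensional Q F] in
/-- if `F` is normal the normal closure is a copy of `F` -/
theorem finrank_normalClosure_of_normal [Normal Q F] :
    finrank Q (normalClosure Q F E) = finrank Q F := by
  have f0 : F →ₐ[Q] E := IsAlgClosed.lift
  have hN : Normal Q f0.fieldRange := Normal.of_algEquiv (AlgEquiv.ofInjectiveField f0)
  have h1 : normalClosure Q F E = f0.fieldRange := by
    apply le_antisymm
    · rw [normalClosure_le_iff]
      intro f
      have h2 := AlgHom.fieldRange_of_normal (E := f0.fieldRange)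
        (f.comp (AlgEquiv.ofInjectiveField f0).symm.toAlgHom)
      rw [← h2]
      rintro _ ⟨x, rfl⟩
      refine ⟨AlgEquiv.ofInjectiveField f0 x, ?_⟩
      change f ((AlgEquiv.ofInjectiveField f0).symm ((AlgEquiv.ofInjectiveField f0) x)) = f x
      rw [AlgEquiv.symm_apply_apply]
    · exact f0.fieldRange_le_normalClosure
  rw [h1]
  exact (AlgEquiv.ofInjectiveField f0).toLinearEquiv.finrank_eq.symm

/-- the quadratic resolvent is contained in the normal closure -/
theorem fieldRange_le_of_sqrt (k : Type) [Field k] [Algebra Q k] (hk : finrank Q k = 2)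
    (s : k) (d f : Q) (hs : s ^ 2 = algebraMap Q k d) (hd : ¬ IsSquare d) (hf0 : f ≠ 0)
    {ι : Type} [Fintype ι] [DecidableEq ι] (b : Basis ι Q F)
    (hb : Algebra.discr Q b = d * f ^ 2) (ψ : k →ₐ[Q] E) :
    ψ.fieldRange ≤ normalClosure Q F E := by
  obtain ⟨x, hx, hx2⟩ := exists_sqrt_discr Q F E b
  have hfE : algebraMap Q E f ≠ 0 := by
    rw [Ne, FaithfulSMul.algebraMap_eq_zero_iff]
    exact hf0
  have h1 : (ψ s) ^ 2 = (x / algebraMap Q E f) ^ 2 := by
    rw [← map_pow, hs, AlgHom.commutes, div_pow, hx2, hb, map_mul, map_pow]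
    field_simp
  have hmem : ψ s ∈ normalClosure Q F E := by
    have h2 : x / algebraMap Q E f ∈ normalClosure Q F E :=
      div_mem hx (IntermediateField.algebraMap_mem _ f)
    rcases sq_eq_sq_iff_eq_or_eq_neg.mp h1 with h | h
    · rw [h]; exact h2
    · rw [h]; exact neg_mem h2
  have hso : IsSimpleOrder (IntermediateField Q k) :=
    IntermediateField.isSimpleOrder_of_finrank_prime Q k (by rw [hk]; exact Nat.prime_two)
  have htop : IntermediateField.adjoin Q {s} = ⊤ := by
    rcases hso.eq_bot_or_eq_top (IntermediateField.adjoin Q {s}) with h | h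
    · exfalso
      rw [IntermediateField.adjoin_simple_eq_bot_iff, IntermediateField.mem_bot] at h
      obtain ⟨y, hy⟩ := h
      refine hd ⟨y, ?_⟩
      apply FaithfulSMul.algebraMap_injective Q k
      rw [map_mul, hy, ← hs, pow_two]
    · exact h
  have h3 : ψ.fieldRange = IntermediateField.adjoin Q {ψ s} := by
    rw [AlgHom.fieldRange_eq_map, ← htop, IntermediateField.adjoin_map, Set.image_singleton]
  rw [h3, IntermediateField.adjoin_le_iff, Set.singleton_subset_iff]
  exact hmem

/-- the closure of a cubic field with non-square discriminant has degree six -/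
theorem closure_aux [Algebra.IsAlgebraic Q E] (hF : finrank Q F = 3) (k : Type) [Field k]
    [Algebra Q k] (hk : finrank Q k = 2)
    (s : k) (d f : Q) (hs : s ^ 2 = algebraMap Q k d) (hd : ¬ IsSquare d) (hf0 : f ≠ 0)
    {ι : Type} [Fintype ι] [DecidableEq ι] (b : Basis ι Q F)
    (hb : Algebra.discr Q b = d * f ^ 2) :
    ¬ Normal Q F ∧ ∃ (L : Type) (_ : Field L) (_ : Algebra Q L), FiniteDimensional Q L ∧
      IsGalois Q L ∧ finrank Q L = 6 ∧ Nonempty (F →ₐ[Q] L) ∧ Nonempty (k →ₐ[Q] L) := by
  have hkfd : FiniteDimensional Q k := Module.finite_of_finrank_pos (by omega)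
  have ψ : k →ₐ[Q] E := IsAlgClosed.lift
  have hψ := fieldRange_le_of_sqrt Q F E k hk s d f hs hd hf0 b hb ψ
  have hfd : FiniteDimensional Q (normalClosure Q F E) := inferInstance
  have h2 : 2 ∣ finrank Q (normalClosure Q F E) := by
    have h := IntermediateField.finrank_dvd_of_le_right hψ
    have h' : finrank Q ψ.fieldRange = 2 :=
      (AlgEquiv.ofInjectiveField ψ).toLinearEquiv.finrank_eq.symm.trans hk
    rwa [h'] at h
  have f0 : F →ₐ[Q] E := IsAlgClosed.lift
  have h3 : 3 ∣ finrank Q (normalClosure Q F E) := by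
    have h := IntermediateField.finrank_dvd_of_le_right f0.fieldRange_le_normalClosure
    have h' : finrank Q f0.fieldRange = 3 :=
      (AlgEquiv.ofInjectiveField f0).toLinearEquiv.finrank_eq.symm.trans hF
    rwa [h'] at h
  have hpos : 0 < finrank Q (normalClosure Q F E) := finrank_pos
  have hle := finrank_normalClosure_le Q F E hF
  have h6 : finrank Q (normalClosure Q F E) = 6 := by omega
  have hNE : Normal Q E :=
    normal_iff.mpr fun x => ⟨Algebra.IsIntegral.isIntegral x, IsAlgClosed.splits _⟩
  have hsep : Algebra.IsSeparable Q (normalClosure Q F E) := inferInstance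
  have hgal : IsGalois Q (normalClosure Q F E) := ⟨⟩
  refine ⟨fun hn => ?_, normalClosure Q F E, inferInstance, inferInstance, hfd, hgal, h6,
    ⟨f0.codRestrict _ fun x => f0.fieldRange_le_normalClosure ⟨x, rfl⟩⟩,
    ⟨ψ.codRestrict _ fun x => hψ ⟨x, rfl⟩⟩⟩
  have := finrank_normalClosure_of_normal Q F E
  omega

end Gen

theorem transfer (k F L : Type) [Field k] [Field F] [NumberField F] [NumberField k] [Field L]
    [inst : Algebra ℚ L] [FiniteDimensional ℚ L] (hG : IsGalois ℚ L) (h6 : finrank ℚ L = 6)
    (φ : F →+* L) (ψ : k →+* L) :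
    ∃ (L : Type) (_ : Field L) (_ : NumberField L) (_ : Algebra F L)
      (_ : Algebra k L), IsGalois ℚ L ∧ finrank ℚ L = 6 := by
  have hc : CharZero L := algebraRat.charZero L
  have hinst : inst = DivisionRing.toRatAlgebra := Subsingleton.elim _ _
  subst hinst
  exact ⟨L, inferInstance, { to_charZero := hc, to_finiteDimensional := inferInstance },
    φ.toAlgebra, ψ.toAlgebra, hG, h6⟩

theorem exists_algClosure : ∃ (E : Type) (_ : Field E) (_ : Algebra ℚ E),
    IsAlgClosed E ∧ Algebra.IsAlgebraic ℚ E :=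
  ⟨AlgebraicClosure ℚ, inferInstance, AlgebraicClosure.instAlgebra ℚ, inferInstance,
    AlgebraicClosure.isAlgebraic ℚ⟩

/-- T4: the quadratic resolvent -/
theorem exists_closure (d : ℤ) (hd : ¬ IsSquare d) (k : Type) [Field k] [NumberField k]
    (hk : finrank ℚ k = 2) (s : k) (hs : s ^ 2 = (d : k)) (F : Type) [Field F] [NumberField F]
    (hF : finrank ℚ F = 3) (f : ℤ) (hf : discr F = d * f ^ 2) :
    ¬ IsGalois ℚ F ∧ ∃ (L : Type) (_ : Field L) (_ : NumberField L) (_ : Algebra F L)
      (_ : Algebra k L), IsGalois ℚ L ∧ finrank ℚ L = 6 := by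
  classical
  have hd' : ¬ IsSquare (d : ℚ) := by rwa [Rat.isSquare_intCast_iff]
  have hf0 : (f : ℚ) ≠ 0 := by
    intro h
    have h0 : f = 0 := by exact_mod_cast h
    exact discr_ne_zero F (by rw [hf, h0]; ring)
  have hb : Algebra.discr ℚ (integralBasis F) = (d : ℚ) * (f : ℚ) ^ 2 := by
    rw [← coe_discr, hf]
    push_cast
    ring
  obtain ⟨E, _, _, _, _⟩ := exists_algClosure
  obtain ⟨hN, L, _, _, _, hgal, h6, ⟨φ⟩, ⟨ψ⟩⟩ := closure_aux ℚ F E hF k hk s (d : ℚ) (f : ℚ)
    (by rw [hs]; simp) hd' hf0 (integralBasis F) hb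
  exact ⟨fun h => hN h.to_normal, transfer k F L hgal h6 φ ψ⟩

end Pool.Agent.Work.MuB
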