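import Mathlib
import Pool.Agent.Work.MP_a4986b_nt.BInj

set_option autoImplicit false
set_option maxHeartbeats 400000

/-! # Theorem C, module T3: ideals of a cubic field against pairs (positive integer, ideal of the
quadratic resolvent) -/

namespace Pool.Agent.Work.MuB

open NumberField Module MeasureTheory NumberField.InfinitePlace NumberField.Units
open scoped nonZeroDivisors ENNReal NNReal Real Pointwise

namespace CIdeal

theorem ncard_le (M : Type*) [Field M] [NumberField M] {q : ℕ} (hq : q.Prime) :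
    {P : Ideal (𝓞 M) | P.IsPrime ∧ (q : 𝓞 M) ∈ P}.ncard ≤ finrank ℚ M := by
  classical
  rw [CDecomp.primesOver_eq _ hq]
  have h1 := CDecomp.finite_po (M := M) hq
  have h2 : Fintype ((Ideal.span {(q : ℤ)}).primesOver (𝓞 M)) := Fintype.ofFinite _
  rw [← Nat.card_coe_set_eq, Nat.card_eq_fintype_card, ← CDecomp.sum_ef hq, ← Finset.card_univ,
    Finset.card_eq_sum_ones]
  refine Finset.sum_le_sum fun P _ => ?_
  exact Nat.mul_pos (CDecomp.e_pos P.2) (CDecomp.f_pos P.2)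

variable {M : Type*} [Field M] [NumberField M] {q : ℕ}

theorem le_norm (hq : q.Prime) {P : Ideal (𝓞 M)} (hP : P.IsPrime ∧ (q : 𝓞 M) ∈ P) :
    q ≤ Ideal.absNorm P := by
  have h1 : P ∈ (Ideal.span {(q : ℤ)}).primesOver (𝓞 M) := by
    rw [← CDecomp.primesOver_eq _ hq]
    exact hP
  rw [← CDecomp.pow_f h1]
  exact Nat.le_self_pow (CDecomp.f_pos h1).ne' q

theorem sq_le_norm (hq : q.Prime) {P : Ideal (𝓞 M)} (hP : P.IsPrime ∧ (q : 𝓞 M) ∈ P)
    (hne : Ideal.absNorm P ≠ q) : q ^ 2 ≤ Ideal.absNorm P := by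
  have h1 : P ∈ (Ideal.span {(q : ℤ)}).primesOver (𝓞 M) := by
    rw [← CDecomp.primesOver_eq _ hq]
    exact hP
  have h2 := CDecomp.f_pos h1
  have h3 := CDecomp.pow_f h1
  have h4 : P.inertiaDeg ℤ ≠ 1 := by
    intro h
    rw [h, pow_one] at h3
    exact hne h3.symm
  rw [← h3]
  exact Nat.pow_le_pow_right hq.pos (by omega)

theorem norm_le_sq (hM : finrank ℚ M = 2) (hq : q.Prime) {P : Ideal (𝓞 M)}
    (hP : P.IsPrime ∧ (q : 𝓞 M) ∈ P) : Ideal.absNorm P ≤ q ^ 2 := by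
  have h1 : P ∈ (Ideal.span {(q : ℤ)}).primesOver (𝓞 M) := by
    rw [← CDecomp.primesOver_eq _ hq]
    exact hP
  have h2 := CDecomp.ef_le hq h1
  have h3 := CDecomp.e_pos h1
  rw [hM] at h2
  rw [← CDecomp.pow_f h1]
  exact Nat.pow_le_pow_right hq.pos (by nlinarith)

theorem norm_eq_of_two (hM : finrank ℚ M = 2) (hq : q.Prime) {P Q : Ideal (𝓞 M)}
    (hP : P.IsPrime ∧ (q : 𝓞 M) ∈ P) (hQ : Q.IsPrime ∧ (q : 𝓞 M) ∈ Q) (hPQ : P ≠ Q) :
    Ideal.absNorm P = q := by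
  have h1 : P ∈ (Ideal.span {(q : ℤ)}).primesOver (𝓞 M) := by
    rw [← CDecomp.primesOver_eq _ hq]
    exact hP
  have h1' : Q ∈ (Ideal.span {(q : ℤ)}).primesOver (𝓞 M) := by
    rw [← CDecomp.primesOver_eq _ hq]
    exact hQ
  have h2 := CDecomp.ef_add_le hq h1 h1' hPQ
  rw [hM] at h2
  have h3 := CDecomp.e_pos h1
  have h4 := CDecomp.e_pos h1'
  have h5 := CDecomp.f_pos h1
  have h6 := CDecomp.f_pos h1'
  have h7 : P.inertiaDeg ℤ = 1 := by
    have h8 := Nat.mul_pos h4 h6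
    have h9 : P.ramificationIdx ℤ * P.inertiaDeg ℤ ≤ 1 := by omega
    nlinarith
  rw [← CDecomp.pow_f h1, h7, pow_one]

end CIdeal

section Cubic

variable {F k L : Type*} [Field F] [NumberField F] [Field k] [NumberField k] [Field L]
  [NumberField L] [Algebra F L] [Algebra k L] [IsGalois ℚ L]

/-- T3: injection of the ideals of `F` into pairs (positive integer, ideal of `k`) not increasing
norms: primes of `F` above `q` are sent injectively to `q` or to primes of `k` above `q`, not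
increasing norms -/
theorem tsum_cubic_le (hF : finrank ℚ F = 3) (hk : finrank ℚ k = 2) (hL : finrank ℚ L = 6)
    (hn : ¬ IsGalois ℚ F) (φ : ℕ → ℝ≥0∞) (hφ : ∀ m n : ℕ, 1 ≤ m → m ≤ n → φ n ≤ φ m) :
    ∑' I : (Ideal (𝓞 F))⁰, φ (Ideal.absNorm (I : Ideal (𝓞 F))) ≤
      ∑' x : ℕ+ × (Ideal (𝓞 k))⁰, φ (x.1 * Ideal.absNorm (x.2 : Ideal (𝓞 k))) := by
  classical
  refine tsum_ideal_le_of_dominate F k ?_ φ hφ
  intro q hq
  have hsp := CDecomp.isPrime_span hq
  have hle := CIdeal.ncard_le F hq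
  rw [hF] at hle
  have hfin : {P : Ideal (𝓞 F) | P.IsPrime ∧ (q : 𝓞 F) ∈ P}.Finite := by
    rw [CDecomp.primesOver_eq _ hq]
    exact CDecomp.finite_po hq
  obtain ⟨R₀, hR₀⟩ : ∃ R : Ideal (𝓞 k), R.IsPrime ∧ (q : 𝓞 k) ∈ R := by
    obtain ⟨R, hR⟩ : Nonempty ((Ideal.span {(q : ℤ)}).primesOver (𝓞 k)) := inferInstance
    rw [← CDecomp.primesOver_eq _ hq] at hR
    exact ⟨R, hR⟩
  rcases Nat.lt_or_ge {P : Ideal (𝓞 F) | P.IsPrime ∧ (q : 𝓞 F) ∈ P}.ncard 3 with h3 | h3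
  · -- at most two primes: `P₀` goes to `q`, the others (at most one) to `R`
    have key : ∀ (P₀ : Ideal (𝓞 F)) (R : {R : Ideal (𝓞 k) // R.IsPrime ∧ (q : 𝓞 k) ∈ R}),
        (∀ P Q : Ideal (𝓞 F), P.IsPrime ∧ (q : 𝓞 F) ∈ P → Q.IsPrime ∧ (q : 𝓞 F) ∈ Q →
          P ≠ P₀ → Q ≠ P₀ → P = Q) →
        (∀ P : Ideal (𝓞 F), P.IsPrime ∧ (q : 𝓞 F) ∈ P → P ≠ P₀ →
          Ideal.absNorm R.1 ≤ Ideal.absNorm P) →
        ∃ l : {P : Ideal (𝓞 F) // P.IsPrime ∧ (q : 𝓞 F) ∈ P} →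
          Option {R : Ideal (𝓞 k) // R.IsPrime ∧ (q : 𝓞 k) ∈ R},
          Function.Injective l ∧ ∀ P R, l P = some R → Ideal.absNorm R.1 ≤ Ideal.absNorm P.1 := by
      intro P₀ R h1 h2
      refine ⟨fun P => if P.1 = P₀ then none else some R, ?_, ?_⟩
      · intro P Q hPQ
        simp only at hPQ
        apply Subtype.ext
        by_cases hP : P.1 = P₀
        · by_cases hQ : Q.1 = P₀
          · rw [hP, hQ]
          · rw [if_pos hP, if_neg hQ] at hPQ
            exact absurd hPQ (by simp)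
        · by_cases hQ : Q.1 = P₀
          · rw [if_neg hP, if_pos hQ] at hPQ
            exact absurd hPQ (by simp)
          · exact h1 _ _ P.2 Q.2 hP hQ
      · intro P R' hPR
        simp only at hPR
        by_cases hP : P.1 = P₀
        · rw [if_pos hP] at hPR
          exact absurd hPR (by simp)
        · rw [if_neg hP, Option.some.injEq] at hPR
          rw [← hPR]
          exact h2 _ P.2 hP
    -- the other primes are equal as soon as `P₀` is one of the primes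
    have huniq : ∀ P₀ : Ideal (𝓞 F), P₀.IsPrime ∧ (q : 𝓞 F) ∈ P₀ →
        ∀ P Q : Ideal (𝓞 F), P.IsPrime ∧ (q : 𝓞 F) ∈ P → Q.IsPrime ∧ (q : 𝓞 F) ∈ Q →
          P ≠ P₀ → Q ≠ P₀ → P = Q := by
      intro P₀ hP₀ P Q hP hQ h1 h2
      by_contra hne
      have h4 : ({P₀, P, Q} : Set (Ideal (𝓞 F))).ncard = 3 :=
        Set.ncard_eq_three.mpr ⟨P₀, P, Q, h1.symm, h2.symm, hne, rfl⟩
      have h5 : ({P₀, P, Q} : Set (Ideal (𝓞 F))).ncard ≤
          {P : Ideal (𝓞 F) | P.IsPrime ∧ (q : 𝓞 F) ∈ P}.ncard := by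
        refine Set.ncard_le_ncard ?_ hfin
        intro x hx
        rcases hx with rfl | rfl | rfl
        · exact hP₀
        · exact hP
        · exact hQ
      omega
    by_cases hR : ∃ R : Ideal (𝓞 k), Ideal.absNorm R = q
    · obtain ⟨R, hR⟩ := hR
      have hR' : R.IsPrime ∧ (q : 𝓞 k) ∈ R := by
        have := CDecomp.mem_of_norm hq hR
        rw [← CDecomp.primesOver_eq _ hq] at this
        exact this
      by_cases hne : ∃ P₀ : Ideal (𝓞 F), P₀.IsPrime ∧ (q : 𝓞 F) ∈ P₀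
      · obtain ⟨P₀, hP₀⟩ := hne
        refine key P₀ ⟨R, hR'⟩ (huniq P₀ hP₀) ?_
        intro P hP _
        rw [hR]
        exact CIdeal.le_norm hq hP
      · exact ⟨fun _ => none, fun P => absurd ⟨P.1, P.2⟩ hne, fun P => absurd ⟨P.1, P.2⟩ hne⟩
    · push Not at hR
      -- at most one prime of norm `q`
      by_cases hex : ∃ P₀ : Ideal (𝓞 F), Ideal.absNorm P₀ = q
      · obtain ⟨P₀, hP₀⟩ := hex
        have hP₀' : P₀.IsPrime ∧ (q : 𝓞 F) ∈ P₀ := by
          have := CDecomp.mem_of_norm hq hP₀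
          rw [← CDecomp.primesOver_eq _ hq] at this
          exact this
        refine key P₀ ⟨R₀, hR₀⟩ (huniq P₀ hP₀') ?_
        intro P hP hne
        refine (CIdeal.norm_le_sq hk hq hR₀).trans (CIdeal.sq_le_norm hq hP ?_)
        intro h
        exact hne (one_of_inert (L := L) hF hk hL hn hq hR P P₀ h hP₀)
      · push Not at hex
        by_cases hne : ∃ P₀ : Ideal (𝓞 F), P₀.IsPrime ∧ (q : 𝓞 F) ∈ P₀
        · obtain ⟨P₀, hP₀⟩ := hne
          refine key P₀ ⟨R₀, hR₀⟩ (huniq P₀ hP₀) ?_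
          intro P hP _
          exact (CIdeal.norm_le_sq hk hq hR₀).trans (CIdeal.sq_le_norm hq hP (hex P))
        · exact ⟨fun _ => none, fun P => absurd ⟨P.1, P.2⟩ hne, fun P => absurd ⟨P.1, P.2⟩ hne⟩
  · -- three primes
    have h2 := split_of_three (k := k) (L := L) hF hk hL hn hq h3
    obtain ⟨P₀, P₁, P₂, h01, h02, h12, hS⟩ :=
      Set.ncard_eq_three.mp (le_antisymm hle h3)
    obtain ⟨R, R', hR, hR', hRR⟩ : ∃ R R' : Ideal (𝓞 k), (R.IsPrime ∧ (q : 𝓞 k) ∈ R) ∧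
        (R'.IsPrime ∧ (q : 𝓞 k) ∈ R') ∧ R ≠ R' := by
      have hfk : {P : Ideal (𝓞 k) | P.IsPrime ∧ (q : 𝓞 k) ∈ P}.Finite := by
        rw [CDecomp.primesOver_eq _ hq]
        exact CDecomp.finite_po hq
      obtain ⟨R, hR, R', hR', hne⟩ := (Set.one_lt_ncard hfk).mp h2
      exact ⟨R, R', hR, hR', hne⟩
    have hRn := CIdeal.norm_eq_of_two hk hq hR hR' hRR
    have hRn' := CIdeal.norm_eq_of_two hk hq hR' hR hRR.symm
    have hmem : ∀ P : {P : Ideal (𝓞 F) // P.IsPrime ∧ (q : 𝓞 F) ∈ P},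
        P.1 = P₀ ∨ P.1 = P₁ ∨ P.1 = P₂ := by
      intro P
      have h4 : P.1 ∈ {P : Ideal (𝓞 F) | P.IsPrime ∧ (q : 𝓞 F) ∈ P} := P.2
      rw [hS] at h4
      exact h4
    have hne' : (⟨R, hR⟩ : {R : Ideal (𝓞 k) // R.IsPrime ∧ (q : 𝓞 k) ∈ R}) ≠ ⟨R', hR'⟩ :=
      fun h => hRR (congrArg Subtype.val h)
    refine ⟨fun P => if P.1 = P₀ then none else if P.1 = P₁ then some ⟨R, hR⟩ else
      some ⟨R', hR'⟩, ?_, ?_⟩
    · intro P Q hPQ
      apply Subtype.ext
      rcases hmem P with h | h | h <;> rcases hmem Q with h' | h' | h' <;>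
        simp [h, h', h01, h02, h12, h01.symm, h02.symm, h12.symm, hne', hne'.symm] at hPQ ⊢
    · intro P S hPS
      have h5 : Ideal.absNorm S.1 = q := by
        rcases hmem P with h | h | h
        · simp [h] at hPS
        · simp [h, h01.symm] at hPS
          rw [← hPS]
          exact hRn
        · simp [h, h02.symm, h12.symm] at hPS
          rw [← hPS]
          exact hRn'
      rw [h5]
      exact CIdeal.le_norm hq P.2

end Cubic

end Pool.Agent.Work.MuB
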