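import Pool.Agent.Work.MP_a4986b_nt.BTuple

set_option autoImplicit false
set_option maxHeartbeats 400000

/-! # Sums over pairs from two families (Theorems C and Q) -/

namespace Pool.Agent.Work.MuB

open NumberField Module MeasureTheory NumberField.InfinitePlace NumberField.Units
open scoped nonZeroDivisors ENNReal NNReal Real Pointwise

/-- the pair sum for two families with linear counting functions -/
theorem cpair_abs {ι κ : Type*} (N : ι → ℕ) (N₂ : κ → ℕ)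
    (hN : ∀ i, 1 ≤ N i) (hN₂ : ∀ i, 1 ≤ N₂ i)
    (h1 : ∃ C : ℝ, 0 ≤ C ∧ ∀ t : ℝ, 1 ≤ t →
      ∑' i, (if (N i : ℝ) ≤ t then (1 : ℝ≥0∞) else 0) ≤ ENNReal.ofReal (C * t))
    (h2 : ∃ C : ℝ, 0 ≤ C ∧ ∀ t : ℝ, 1 ≤ t →
      ∑' i, (if (N₂ i : ℝ) ≤ t then (1 : ℝ≥0∞) else 0) ≤ ENNReal.ofReal (C * t))
    (r : ℕ) (hr : 1 ≤ r) : ∃ C₁ : ℝ, 0 ≤ C₁ ∧ ∀ M : ℝ, 1 ≤ M →
    ∑' x : ι × κ, ENNReal.ofReal (Real.log (M / ((N x.1 * N₂ x.2 : ℕ) : ℝ))) ^ r ≤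
      ENNReal.ofReal (C₁ * M * (1 + Real.log M)) := by
  obtain ⟨A, hA, h1⟩ := h1
  obtain ⟨B, hB, h2⟩ := h2
  have h3 : ∃ C : ℝ, 0 ≤ C ∧ ∀ t : ℝ, 1 ≤ t →
      ∑' i : ι ⊕ κ, (if ((Sum.elim N N₂ i : ℕ) : ℝ) ≤ t then (1 : ℝ≥0∞) else 0) ≤
        ENNReal.ofReal (C * t) := by
    refine ⟨A + B, by positivity, fun t ht => ?_⟩
    rw [Summable.tsum_sum (ENNReal.summable) (ENNReal.summable), add_mul,
      ENNReal.ofReal_add (by positivity) (by positivity)]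
    exact add_le_add (h1 t ht) (h2 t ht)
  have h4 : ∀ i : ι ⊕ κ, 1 ≤ Sum.elim N N₂ i := by
    rintro (i | i)
    · exact hN i
    · exact hN₂ i
  obtain ⟨C, hC, h5⟩ := Tuple.tsum_log_le h4 h3 1 r hr
  refine ⟨C, hC, fun M hM => ?_⟩
  have h6 := h5 M hM
  rw [pow_one] at h6
  refine le_trans ?_ h6
  let e : ι × κ → (Fin (1 + 1) → ι ⊕ κ) := fun x => ![Sum.inl x.1, Sum.inr x.2]
  have he : Function.Injective e := by
    rintro ⟨a, b⟩ ⟨c, d⟩ h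
    have ha := congrFun h 0
    have hb := congrFun h 1
    simp only [e, Matrix.cons_val_zero, Matrix.cons_val_one, Sum.inl.injEq,
      Sum.inr.injEq] at ha hb
    exact Prod.ext ha hb
  refine le_trans (le_of_eq (tsum_congr (fun x => ?_))) (ENNReal.tsum_comp_le_tsum_of_injective he
    (fun x : Fin (1 + 1) → ι ⊕ κ => ENNReal.ofReal
      (Real.log (M / ((∏ j, Sum.elim N N₂ (x j) : ℕ) : ℝ))) ^ r))
  have h7 : (∏ j : Fin (1 + 1), Sum.elim N N₂ (e x j)) = N x.1 * N₂ x.2 := by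
    exact Fin.prod_univ_two (fun j => Sum.elim N N₂ (e x j))
  rw [h7]

/-- counting positive integers -/
theorem cpnat_count : ∃ C : ℝ, 0 ≤ C ∧ ∀ t : ℝ, 1 ≤ t →
    ∑' n : ℕ+, (if ((n : ℕ) : ℝ) ≤ t then (1 : ℝ≥0∞) else 0) ≤ ENNReal.ofReal (C * t) := by
  refine ⟨1, zero_le_one, fun t ht => ?_⟩
  have h1 : ∑' n : ℕ+, (if ((n : ℕ) : ℝ) ≤ t then (1 : ℝ≥0∞) else 0) ≤
      ∑' n : ℕ, (if n ∈ Finset.Icc 1 ⌊t⌋₊ then (1 : ℝ≥0∞) else 0) := by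
    refine le_trans (ENNReal.tsum_le_tsum (fun n => ?_)) (ENNReal.tsum_comp_le_tsum_of_injective
      PNat.coe_injective (fun n : ℕ => (if n ∈ Finset.Icc 1 ⌊t⌋₊ then (1 : ℝ≥0∞) else 0)))
    by_cases h : ((n : ℕ) : ℝ) ≤ t
    · rw [if_pos h, if_pos]
      rw [Finset.mem_Icc]
      exact ⟨n.2, Nat.le_floor h⟩
    · rw [if_neg h]
      exact bot_le
  refine h1.trans ?_
  rw [tsum_eq_sum (s := Finset.Icc 1 ⌊t⌋₊) (fun b hb => if_neg hb)]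
  rw [Finset.sum_congr rfl (fun b hb => if_pos hb), Finset.sum_const, nsmul_eq_mul, mul_one,
    Nat.card_Icc, Nat.add_sub_cancel, one_mul, ← ENNReal.ofReal_natCast]
  exact ENNReal.ofReal_le_ofReal (Nat.floor_le (by linarith))

/-- the sum needed for cubic fields -/
theorem cpair_k (k : Type*) [Field k] [NumberField k] (r : ℕ) (hr : 1 ≤ r) :
    ∃ C₁ : ℝ, 0 ≤ C₁ ∧ ∀ M : ℝ, 1 ≤ M →
    ∑' x : ℕ+ × (Ideal (𝓞 k))⁰, ENNReal.ofReal (Real.log (M / (((x.1 : ℕ) *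
      Ideal.absNorm (x.2 : Ideal (𝓞 k)) : ℕ) : ℝ))) ^ r ≤
      ENNReal.ofReal (C₁ * M * (1 + Real.log M)) :=
  cpair_abs (fun n : ℕ+ => (n : ℕ)) (fun I : (Ideal (𝓞 k))⁰ => Ideal.absNorm (I : Ideal (𝓞 k)))
    (fun n => n.2) (one_le_absNorm k) cpnat_count (ideal_count_le k) r hr

end Pool.Agent.Work.MuB
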