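import Pool.Agent.Work.MP_a4986b_nt.BRegG

set_option autoImplicit false
set_option maxHeartbeats 400000

/-! # P2: lower bound for the regulator of a primitive number field of fixed degree -/

namespace Pool.Agent.Work.MuB

open NumberField Module MeasureTheory NumberField.InfinitePlace NumberField.Units
open scoped nonZeroDivisors ENNReal NNReal Real Pointwise

/-- P2: regulator of a primitive field (no intermediate fields), box `|x_w| < b` -/
theorem regulator_ge_of_primitive (n : ℕ) : ∃ C c : ℝ, 1 ≤ C ∧ 0 < c ∧
    ∀ (F : Type) [Field F] [NumberField F], finrank ℚ F = n →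
      (∀ u : F, u ∉ Set.range (algebraMap ℚ F) → IntermediateField.adjoin ℚ {u} = ⊤) →
      C ≤ |(discr F : ℝ)| →
      c * (1 + Real.log |(discr F : ℝ)|) ^ Units.rank F ≤ regulator F := by
  rcases Nat.eq_zero_or_pos n with rfl | hn
  · refine ⟨1, 1, le_refl _, one_pos, fun F _ _ hF => ?_⟩
    have : 0 < finrank ℚ F := finrank_pos
    omega
  · obtain ⟨C, c, hC, hc, h⟩ := regulator_ge_gen ℚ n hn
    refine ⟨C, c, hC, hc, fun F _ _ hF hprim hD => ?_⟩
    have h0 : Units.rank ℚ = 0 := by
      rw [Units.rank, Fintype.card_eq_one_iff.mpr]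
      exact ⟨default, fun v => Subsingleton.elim _ _⟩
    have h1 := h F hF (fun u hu => by
      rw [← IntermediateField.adjoin.finrank (K := ℚ) (x := (u : F))
        (Algebra.IsIntegral.isIntegral _), hprim _ hu, IntermediateField.finrank_top', hF]) hD
    rwa [h0, Nat.sub_zero] at h1

end Pool.Agent.Work.MuB
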