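import Pool.Agent.Work.MP_a4986b_nt.CClassA
import Pool.Agent.Work.MP_a4986b_nt.CReg
import Pool.Agent.Work.MP_a4986b_nt.CIdeal
import Pool.Agent.Work.MP_a4986b_nt.CClosure
import Pool.Agent.Work.MP_a4986b_nt.CPair

set_option autoImplicit false
set_option maxHeartbeats 400000

/-! # Theorem C, modules T5, T6: class numbers of cubic fields with fixed quadratic resolvent -/

namespace Pool.Agent.Work.MuB

open NumberField Module MeasureTheory NumberField.InfinitePlace NumberField.Units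
open scoped nonZeroDivisors ENNReal NNReal Real Pointwise

/-- sum over the ideals of a cubic field -/
theorem cls_sum (d : ℤ) (hd : ¬ IsSquare d) : ∃ C : ℝ, 0 ≤ C ∧
    ∀ (F : Type) [Field F] [NumberField F], finrank ℚ F = 3 → (∃ f : ℤ, discr F = d * f ^ 2) →
      ∀ r : ℕ, 1 ≤ r → r ≤ 2 → ∀ M : ℝ, 1 ≤ M → ∑' I : (Ideal (𝓞 F))⁰,
        ENNReal.ofReal (Real.log (M / Ideal.absNorm (I : Ideal (𝓞 F)))) ^ r ≤
      ENNReal.ofReal (C * M * (1 + Real.log M)) := by
  obtain ⟨k, _, _, hk, s, hs⟩ := cls_quad d hd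
  obtain ⟨C₁, hC₁, h1⟩ := cpair_k k 1 le_rfl
  obtain ⟨C₂, hC₂, h2⟩ := cpair_k k 2 (by norm_num)
  refine ⟨max C₁ C₂, le_max_of_le_left hC₁, ?_⟩
  intro F _ _ hF ⟨f, hf⟩ r hr1 hr2 M hM
  obtain ⟨hn, L, _, _, _, _, hG, hL⟩ := exists_closure d hd k hk s hs F hF f hf
  have hM0 : 0 < M := by linarith
  have hlM : 0 ≤ Real.log M := Real.log_nonneg hM
  have h3 := tsum_cubic_le (F := F) (k := k) (L := L) hF hk hL hn
    (fun m => ENNReal.ofReal (Real.log (M / m)) ^ r) (cls_phi hM0 r)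
  refine h3.trans ?_
  have hmono : ∀ C, C ≤ max C₁ C₂ → ENNReal.ofReal (C * M * (1 + Real.log M)) ≤
      ENNReal.ofReal (max C₁ C₂ * M * (1 + Real.log M)) := by
    intro C hC
    apply ENNReal.ofReal_le_ofReal
    have : 0 ≤ M * (1 + Real.log M) := by positivity
    nlinarith
  have hr : r = 1 ∨ r = 2 := by omega
  rcases hr with rfl | rfl
  · exact (h1 M hM).trans (hmono C₁ (le_max_left _ _))
  · exact (h2 M hM).trans (hmono C₂ (le_max_right _ _))

/-- T5: class number bound -/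
theorem cubic_class_le (d : ℤ) (hd : ¬ IsSquare d) : ∃ C : ℝ, 0 < C ∧
    ∀ (F : Type) [Field F] [NumberField F], finrank ℚ F = 3 → (∃ f : ℤ, discr F = d * f ^ 2) →
      (Nat.card (ClassGroup (𝓞 F)) : ℝ) * (1 + Real.log |(discr F : ℝ)|) ^ (Units.rank F - 1) ≤
        C * √|(discr F : ℝ)| := by
  obtain ⟨C, hC, hsum⟩ := cls_sum d hd
  obtain ⟨C₀, c, hC₀, hc, hreg⟩ := regulator_ge_of_primitive 3
  have hsC : 1 ≤ √C₀ := Real.one_le_sqrt.mpr hC₀
  have hlC : 0 ≤ Real.log C₀ := Real.log_nonneg hC₀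
  have hl3 : 0 ≤ Real.log (3 * √C₀) := Real.log_nonneg (by linarith)
  set K : ℝ := C * (3 * √C₀) * (1 + Real.log (3 * √C₀)) with hK
  have hK0 : 0 ≤ K := by positivity
  refine ⟨4 * C / c + K * (1 + Real.log C₀) + 1, by positivity, ?_⟩
  intro F _ _ hF hf
  have hD1 : 1 ≤ |(discr F : ℝ)| := cls_discr_one_le F
  have hs1 : 1 ≤ √|(discr F : ℝ)| := Real.one_le_sqrt.mpr hD1
  have hL : 0 ≤ Real.log |(discr F : ℝ)| := Real.log_nonneg hD1
  have hrk := (cls_rank F hF).1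
  have hr1 : 1 ≤ Units.rank F := by omega
  have hr2 : Units.rank F ≤ 2 := by omega
  rcases le_or_gt C₀ |(discr F : ℝ)| with hD | hD
  · have h1 := cls_bound F hr1 hC hc (hsum F hF hf (Units.rank F) hr1 hr2)
      (hreg F hF (cls_prim F hF) hD)
    refine h1.trans (mul_le_mul_of_nonneg_right ?_ (by linarith))
    have : 0 ≤ K * (1 + Real.log C₀) := by positivity
    linarith
  · have h1 := cls_crude F hF hC hsC (Real.sqrt_le_sqrt hD.le) (hsum F hF hf 1 le_rfl (by norm_num))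
    rw [← hK] at h1
    have h2 : (1 + Real.log |(discr F : ℝ)|) ^ (Units.rank F - 1) ≤ 1 + Real.log C₀ := by
      have h3 : Real.log |(discr F : ℝ)| ≤ Real.log C₀ := Real.log_le_log (by linarith) hD.le
      rcases hrk with h | h
      · rw [h]; simpa using hlC
      · rw [h]; simpa using h3
    have h4 : (Nat.card (ClassGroup (𝓞 F)) : ℝ) *
        (1 + Real.log |(discr F : ℝ)|) ^ (Units.rank F - 1) ≤ K * (1 + Real.log C₀) :=
      mul_le_mul h1 h2 (by positivity) hK0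
    have h5 : 0 ≤ K * (1 + Real.log C₀) := by positivity
    have h6 : 0 ≤ 4 * C / c := by positivity
    nlinarith

/-- T6 -/
theorem cubic_not_dvd (d : ℤ) (hd : ¬ IsSquare d) : ∃ c : ℝ, 0 < c ∧
    ∀ (F : Type) [Field F] [NumberField F] (p : ℕ), p.Prime → finrank ℚ F = 3 →
      (∃ f : ℤ, discr F = d * f ^ 2) →
      |(discr F : ℝ)| ≤ c * (p : ℝ) ^ 2 * (1 + Real.log p) ^ (2 * (Units.rank F - 1)) →
      ¬ p ∣ Nat.card (ClassGroup (𝓞 F)) := by
  obtain ⟨C, hC, h1⟩ := cubic_class_le d hd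
  obtain ⟨c, hc, h2⟩ := cls_not_dvd 1 hC
  refine ⟨c, hc, fun F _ _ p hp hF hf hD => ?_⟩
  have hrk := (cls_rank F hF).1
  exact h2 (Units.rank F - 1) _ p _ (by omega) Nat.card_pos (cls_discr_one_le F) hp (h1 F hF hf) hD

end Pool.Agent.Work.MuB
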