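import Pool.Agent.Work.MP_a4986b_nt.BCover

set_option autoImplicit false
set_option maxHeartbeats 400000

/-! # Theorem C, module CClassA: abstract class number bounds for cubic fields -/

namespace Pool.Agent.Work.MuB

open NumberField Module MeasureTheory NumberField.InfinitePlace NumberField.Units
open scoped nonZeroDivisors ENNReal NNReal Real Pointwise

theorem cls_discr_one_le (F : Type*) [Field F] [NumberField F] : 1 ≤ |(discr F : ℝ)| := by
  have h : (1 : ℤ) ≤ |discr F| := Int.one_le_abs (discr_ne_zero F)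
  exact_mod_cast h

theorem cls_M (F : Type*) [Field F] [NumberField F] :
    (2 / π) ^ nrComplexPlaces F * √|(discr F : ℝ)| < 2 * √|(discr F : ℝ)| := by
  have h0 : 0 < √|(discr F : ℝ)| := Real.sqrt_pos.mpr (by linarith [cls_discr_one_le F])
  have h1 : (2 / π) ^ nrComplexPlaces F ≤ 1 := by
    apply pow_le_one₀ (by positivity)
    rw [div_le_one Real.pi_pos]
    linarith [Real.pi_gt_three]
  nlinarith

/-- abstract class number bound -/
theorem cls_bound (F : Type*) [Field F] [NumberField F] (hr : 1 ≤ Units.rank F) {C₁ c : ℝ}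
    (hC : 0 ≤ C₁) (hc : 0 < c)
    (h1 : ∀ M : ℝ, 1 ≤ M → ∑' I : (Ideal (𝓞 F))⁰,
        ENNReal.ofReal (Real.log (M / Ideal.absNorm (I : Ideal (𝓞 F)))) ^ Units.rank F ≤
      ENNReal.ofReal (C₁ * M * (1 + Real.log M)))
    (h2 : c * (1 + Real.log |(discr F : ℝ)|) ^ Units.rank F ≤ regulator F) :
    (Nat.card (ClassGroup (𝓞 F)) : ℝ) * (1 + Real.log |(discr F : ℝ)|) ^ (Units.rank F - 1) ≤
      4 * C₁ / c * √|(discr F : ℝ)| := by
  set D : ℝ := |(discr F : ℝ)| with hD
  have hD1 : 1 ≤ D := cls_discr_one_le F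
  have hs1 : 1 ≤ √D := Real.one_le_sqrt.mpr hD1
  have hL : 0 ≤ Real.log D := Real.log_nonneg hD1
  have h3 := (covering (cls_M F)).trans (h1 (2 * √D) (by linarith))
  have hlog : Real.log (2 * √D) = Real.log 2 + Real.log D / 2 := by
    rw [Real.log_mul (by norm_num) (by positivity), Real.log_sqrt (by linarith)]
  have hlog2 : Real.log 2 < 1 := by linarith [Real.log_two_lt_d9]
  have hlog20 : 0 < Real.log 2 := Real.log_pos (by norm_num)
  have h4 : (Nat.card (ClassGroup (𝓞 F)) : ℝ) * regulator F ≤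
      C₁ * (2 * √D) * (1 + Real.log (2 * √D)) := by
    rw [ENNReal.ofReal_le_ofReal_iff] at h3
    · exact h3
    · rw [hlog]; positivity
  have hh : (0 : ℝ) ≤ Nat.card (ClassGroup (𝓞 F)) := by positivity
  have h5 : (Nat.card (ClassGroup (𝓞 F)) : ℝ) * (c * (1 + Real.log D) ^ Units.rank F) ≤
      4 * C₁ * √D * (1 + Real.log D) := by
    calc _ ≤ (Nat.card (ClassGroup (𝓞 F)) : ℝ) * regulator F := mul_le_mul_of_nonneg_left h2 hh
      _ ≤ C₁ * (2 * √D) * (1 + Real.log (2 * √D)) := h4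
      _ ≤ C₁ * (2 * √D) * (2 * (1 + Real.log D)) := by
          apply mul_le_mul_of_nonneg_left _ (by positivity)
          rw [hlog]; linarith
      _ = _ := by ring
  obtain ⟨r, hr'⟩ : ∃ r, Units.rank F = r + 1 := ⟨Units.rank F - 1, by omega⟩
  rw [hr', Nat.add_sub_cancel]
  rw [hr', pow_succ] at h5
  have h6 : 0 < 1 + Real.log D := by linarith
  rw [div_mul_eq_mul_div, le_div_iff₀ hc]
  have h7 : ((Nat.card (ClassGroup (𝓞 F)) : ℝ) * (1 + Real.log D) ^ r * c) * (1 + Real.log D) ≤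
      (4 * C₁ * √D) * (1 + Real.log D) := by linarith
  exact le_of_mul_le_mul_right h7 h6

/-- abstract non-divisibility -/
theorem cls_not_dvd (S : ℕ) {C : ℝ} (hC : 0 < C) : ∃ c : ℝ, 0 < c ∧
    ∀ (s h p : ℕ) (D : ℝ), s ≤ S → 1 ≤ h → 1 ≤ D → p.Prime →
      (h : ℝ) * (1 + Real.log D) ^ s ≤ C * √D →
      D ≤ c * (p : ℝ) ^ 2 * (1 + Real.log p) ^ (2 * s) → ¬ p ∣ h := by
  set E : ℝ := max C 1 with hE
  have hE1 : 1 ≤ E := le_max_right _ _
  have hEC : C ≤ E := le_max_left _ _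
  set B : ℝ := E ^ 4 * (1 + Real.log (E ^ 2)) ^ (2 * S) with hB
  have hlE : 0 ≤ Real.log (E ^ 2) := Real.log_nonneg (one_le_pow₀ hE1)
  have hB1 : 1 ≤ B := by
    have h1 : 1 ≤ E ^ 4 := one_le_pow₀ hE1
    have h2 : 1 ≤ (1 + Real.log (E ^ 2)) ^ (2 * S) := one_le_pow₀ (by linarith)
    nlinarith
  refine ⟨min (1 / (4 * E ^ 2)) (1 / (2 * B)), by positivity, ?_⟩
  intro s h p D hs hh hD hp h1 h2 hdvd
  set c : ℝ := min (1 / (4 * E ^ 2)) (1 / (2 * B)) with hc
  have hc0 : 0 < c := by positivity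
  have hph : (p : ℝ) ≤ h := by exact_mod_cast Nat.le_of_dvd hh hdvd
  have hp1 : (1 : ℝ) < p := by exact_mod_cast hp.one_lt
  have hlp : 0 < Real.log p := Real.log_pos hp1
  have hLD : 0 ≤ Real.log D := Real.log_nonneg hD
  have hsD : 0 < √D := by positivity
  rcases le_or_gt (p : ℝ) D with hpD | hpD
  · -- `D ≥ p`
    have h3 : (1 + Real.log p) ^ s ≤ (1 + Real.log D) ^ s := by
      apply pow_le_pow_left₀ (by linarith)
      have := Real.log_le_log (by linarith) hpD
      linarith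
    have h4 : (p : ℝ) * (1 + Real.log p) ^ s ≤ C * √D :=
      (mul_le_mul hph h3 (by positivity) (by positivity)).trans h1
    have h5 : ((p : ℝ) * (1 + Real.log p) ^ s) ^ 2 ≤ C ^ 2 * D := by
      calc _ ≤ (C * √D) ^ 2 := pow_le_pow_left₀ (by positivity) h4 2
        _ = _ := by rw [mul_pow, Real.sq_sqrt (by linarith)]
    have h6 : C ^ 2 * c ≤ 1 / 4 := by
      have h7 : c ≤ 1 / (4 * E ^ 2) := min_le_left _ _
      have h8 : C ^ 2 ≤ E ^ 2 := pow_le_pow_left₀ hC.le hEC 2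
      calc C ^ 2 * c ≤ E ^ 2 * (1 / (4 * E ^ 2)) :=
            mul_le_mul h8 h7 hc0.le (by positivity)
        _ = 1 / 4 := by field_simp
    have h9 : 0 < ((p : ℝ) * (1 + Real.log p) ^ s) ^ 2 := by positivity
    have h10 : c * (p : ℝ) ^ 2 * (1 + Real.log p) ^ (2 * s) =
        c * ((p : ℝ) * (1 + Real.log p) ^ s) ^ 2 := by
      rw [mul_pow, ← pow_mul, mul_comm s 2]; ring
    rw [h10] at h2
    have h11 : C ^ 2 * D ≤ C ^ 2 * c * ((p : ℝ) * (1 + Real.log p) ^ s) ^ 2 := by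
      have := mul_le_mul_of_nonneg_left h2 (sq_nonneg C)
      linarith
    nlinarith
  · -- `D < p`
    have h3 : (p : ℝ) ≤ C * √D := by
      have h4 : 1 ≤ (1 + Real.log D) ^ s := one_le_pow₀ (by linarith)
      have h5 : (h : ℝ) ≤ (h : ℝ) * (1 + Real.log D) ^ s :=
        le_mul_of_one_le_right (by positivity) h4
      linarith
    have h4 : (p : ℝ) ^ 2 ≤ C ^ 2 * D := by
      calc _ ≤ (C * √D) ^ 2 := pow_le_pow_left₀ (by positivity) h3 2
        _ = _ := by rw [mul_pow, Real.sq_sqrt (by linarith)]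
    have h5 : (p : ℝ) < E ^ 2 := by
      have h6 : C ^ 2 ≤ E ^ 2 := pow_le_pow_left₀ hC.le hEC 2
      have h7 : C ^ 2 * D < C ^ 2 * p := by
        have : 0 < C ^ 2 := by positivity
        exact mul_lt_mul_of_pos_left hpD this
      nlinarith
    have h6 : (p : ℝ) ^ 2 * (1 + Real.log p) ^ (2 * s) ≤ B := by
      have h7 : (1 + Real.log p) ^ (2 * s) ≤ (1 + Real.log (E ^ 2)) ^ (2 * S) := by
        calc _ ≤ (1 + Real.log (E ^ 2)) ^ (2 * s) := by
              apply pow_le_pow_left₀ (by linarith)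
              have := Real.log_le_log (by linarith) h5.le
              linarith
          _ ≤ _ := pow_le_pow_right₀ (by linarith) (by omega)
      have h8 : (p : ℝ) ^ 2 ≤ E ^ 4 := by
        calc _ ≤ (E ^ 2) ^ 2 := pow_le_pow_left₀ (by positivity) h5.le 2
          _ = _ := by ring
      exact mul_le_mul h8 h7 (by positivity) (by positivity)
    have h9 : c ≤ 1 / (2 * B) := min_le_right _ _
    have h10 : c * (p : ℝ) ^ 2 * (1 + Real.log p) ^ (2 * s) ≤ 1 / 2 := by
      calc _ = c * ((p : ℝ) ^ 2 * (1 + Real.log p) ^ (2 * s)) := by ring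
        _ ≤ 1 / (2 * B) * B := mul_le_mul h9 h6 (by positivity) (by positivity)
        _ = 1 / 2 := by field_simp
    linarith


/-- the quadratic field `ℚ(√d)` -/
theorem cls_quad (d : ℤ) (hd : ¬ IsSquare d) : ∃ (k : Type) (_ : Field k) (_ : NumberField k),
    finrank ℚ k = 2 ∧ ∃ s : k, s ^ 2 = (d : k) := by
  have hirr : Irreducible (Polynomial.X ^ 2 - Polynomial.C (d : ℚ)) := by
    apply X_pow_sub_C_irreducible_of_prime Nat.prime_two
    intro b hb
    apply hd
    rw [← Rat.isSquare_intCast_iff]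
    exact ⟨b, by rw [← hb, sq]⟩
  have : Fact (Irreducible (Polynomial.X ^ 2 - Polynomial.C (d : ℚ))) := ⟨hirr⟩
  let k := AdjoinRoot (Polynomial.X ^ 2 - Polynomial.C (d : ℚ))
  have hpb := AdjoinRoot.powerBasis (f := Polynomial.X ^ 2 - Polynomial.C (d : ℚ)) hirr.ne_zero
  have : FiniteDimensional ℚ k := hpb.finite
  have hfr : finrank ℚ k = 2 := by
    have h1 := (AdjoinRoot.powerBasis (f := Polynomial.X ^ 2 - Polynomial.C (d : ℚ))
      hirr.ne_zero).finrank
    rw [AdjoinRoot.powerBasis_dim, Polynomial.natDegree_X_pow_sub_C] at h1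
    exact h1
  have : CharZero k := algebraRat.charZero k
  have : NumberField k := { to_charZero := inferInstance, to_finiteDimensional := inferInstance }
  refine ⟨k, inferInstance, inferInstance, hfr, AdjoinRoot.root _, ?_⟩
  have h2 : (AdjoinRoot.mk (Polynomial.X ^ 2 - Polynomial.C (d : ℚ)))
      (Polynomial.X ^ 2 - Polynomial.C (d : ℚ)) = 0 := AdjoinRoot.mk_self
  rw [map_sub, map_pow, AdjoinRoot.mk_X, AdjoinRoot.mk_C, sub_eq_zero] at h2
  rw [h2]
  simp

theorem cls_rank (F : Type*) [Field F] [NumberField F] (hF : finrank ℚ F = 3) :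
    (Units.rank F = 1 ∨ Units.rank F = 2) ∧ nrComplexPlaces F ≤ 1 := by
  have h1 := card_eq_nrRealPlaces_add_nrComplexPlaces F
  have h2 := card_add_two_mul_card_eq_rank F
  have h3 : Units.rank F = Fintype.card (InfinitePlace F) - 1 := rfl
  rw [hF] at h2
  rw [h1] at h3
  omega

theorem cls_prim (F : Type*) [Field F] [NumberField F] (hF : finrank ℚ F = 3) (u : F)
    (hu : u ∉ Set.range (algebraMap ℚ F)) : IntermediateField.adjoin ℚ {u} = ⊤ := by
  have := IntermediateField.isSimpleOrder_of_finrank_prime ℚ F (by rw [hF]; exact Nat.prime_three)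
  rcases eq_bot_or_eq_top (IntermediateField.adjoin ℚ {u}) with h | h
  · exfalso
    apply hu
    have h1 : u ∈ IntermediateField.adjoin ℚ {u} := IntermediateField.mem_adjoin_simple_self ℚ u
    rw [h, IntermediateField.mem_bot] at h1
    exact h1
  · exact h

theorem cls_phi {M : ℝ} (hM : 0 < M) (r : ℕ) : ∀ m n : ℕ, 1 ≤ m → m ≤ n →
    ENNReal.ofReal (Real.log (M / n)) ^ r ≤ ENNReal.ofReal (Real.log (M / m)) ^ r := by
  intro m n hm hmn
  have hm0 : (0 : ℝ) < m := by exact_mod_cast hm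
  have hn0 : (0 : ℝ) < n := by exact_mod_cast lt_of_lt_of_le hm hmn
  have hmn' : (m : ℝ) ≤ n := by exact_mod_cast hmn
  apply pow_le_pow_left' (ENNReal.ofReal_le_ofReal _)
  exact Real.log_le_log (by positivity) (div_le_div_of_nonneg_left hM.le hm0 hmn')

/-- crude bound for the class number -/
theorem cls_crude (F : Type) [Field F] [NumberField F] (hF : finrank ℚ F = 3) {C B : ℝ}
    (hC : 0 ≤ C) (hB : 1 ≤ B) (hDB : √|(discr F : ℝ)| ≤ B)
    (h : ∀ M : ℝ, 1 ≤ M → ∑' I : (Ideal (𝓞 F))⁰,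
        ENNReal.ofReal (Real.log (M / Ideal.absNorm (I : Ideal (𝓞 F)))) ^ 1 ≤
      ENNReal.ofReal (C * M * (1 + Real.log M))) :
    (Nat.card (ClassGroup (𝓞 F)) : ℝ) ≤ C * (3 * B) * (1 + Real.log (3 * B)) := by
  classical
  have hex : ∀ c : ClassGroup (𝓞 F), ∃ I : (Ideal (𝓞 F))⁰, ClassGroup.mk0 I = c ∧
      (Ideal.absNorm (I : Ideal (𝓞 F)) : ℝ) ≤ B := by
    intro c
    obtain ⟨I, hI, hN⟩ := exists_ideal_in_class_of_norm_le c
    refine ⟨I, hI, hN.trans ?_⟩
    rw [hF]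
    have h1 : (4 / π) ^ nrComplexPlaces F ≤ 4 / 3 := by
      have h2 := (cls_rank F hF).2
      have h3 : (4 / π) ≤ 4 / 3 := by
        apply div_le_div_of_nonneg_left (by norm_num) (by norm_num)
        linarith [Real.pi_gt_three]
      interval_cases (nrComplexPlaces F)
      · norm_num
      · simpa using h3
    have h4 : ((Nat.factorial 3 : ℕ) : ℝ) / ((3 : ℕ) : ℝ) ^ 3 = 6 / 27 := by
      norm_num [Nat.factorial]
    rw [h4]
    have h6 : 0 ≤ √|(discr F : ℝ)| := Real.sqrt_nonneg _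
    nlinarith
  choose g hg hgN using hex
  have hinj : Function.Injective g := fun a b hab => by rw [← hg a, hab, hg b]
  have h1 : ((Nat.card (ClassGroup (𝓞 F)) : ℕ) : ℝ≥0∞) ≤ ∑' I : (Ideal (𝓞 F))⁰,
        ENNReal.ofReal (Real.log ((3 * B) / Ideal.absNorm (I : Ideal (𝓞 F)))) ^ 1 := by
    refine le_trans ?_ (ENNReal.tsum_comp_le_tsum_of_injective hinj _)
    rw [tsum_fintype, Nat.card_eq_fintype_card]
    have h2 : ∀ c : ClassGroup (𝓞 F), (1 : ℝ≥0∞) ≤
        ENNReal.ofReal (Real.log ((3 * B) / Ideal.absNorm (g c : Ideal (𝓞 F)))) ^ 1 := by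
      intro c
      rw [pow_one, ENNReal.one_le_ofReal]
      have h3 : 0 < (Ideal.absNorm (g c : Ideal (𝓞 F)) : ℝ) := by
        exact_mod_cast Nat.pos_of_ne_zero (Ideal.absNorm_ne_zero_of_nonZeroDivisors (g c))
      have h4 : 3 ≤ (3 * B) / Ideal.absNorm (g c : Ideal (𝓞 F)) := by
        rw [le_div_iff₀ h3]; linarith [hgN c]
      rw [Real.le_log_iff_exp_le (by linarith)]
      linarith [Real.exp_one_lt_d9]
    calc ((Fintype.card (ClassGroup (𝓞 F)) : ℕ) : ℝ≥0∞) = ∑ _c : ClassGroup (𝓞 F), 1 := by simp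
      _ ≤ _ := Finset.sum_le_sum fun c _ => h2 c
  have h2 := h1.trans (h (3 * B) (by linarith))
  have hlog : 0 ≤ Real.log (3 * B) := Real.log_nonneg (by linarith)
  rw [← ENNReal.ofReal_natCast, ENNReal.ofReal_le_ofReal_iff (by positivity)] at h2
  exact h2

end Pool.Agent.Work.MuB
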