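import Pool.Agent.Work.MP_a4986b_nt.ClosE

set_option autoImplicit false
set_option maxHeartbeats 400000

/-! # CL: Galois closures of cubic fields along the cyclotomic tower -/

namespace Pool.Agent.Work.MuB

open NumberField Module IntermediateField
open Pool.Agent.Work.Mu22

theorem cl_aut {F : Type} [Field F] [NumberField F] (hF : finrank ℚ F = 3)
    (hng : ¬ IsGalois ℚ F) (g : F ≃ₐ[ℚ] F) : g = 1 := by
  have h1 := IntermediateField.finrank_fixedField_eq_card (⊤ : Subgroup (F ≃ₐ[ℚ] F))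
  have h2 := finrank_mul_finrank ℚ (IntermediateField.fixedField (⊤ : Subgroup (F ≃ₐ[ℚ] F))) F
  rw [h1, hF, Subgroup.card_top] at h2
  have h4 : Nat.card (F ≃ₐ[ℚ] F) ∣ 3 := ⟨_, by rw [mul_comm]; exact h2.symm⟩
  rcases (Nat.dvd_prime Nat.prime_three).mp h4 with h | h
  · exact (Nat.card_eq_one_iff_unique.mp h).1.elim g 1
  · exact absurd (IsGalois.of_card_aut_eq_finrank ℚ F (by rw [h, hF])) hng

theorem cl_range_inj {F : Type} [Field F] [NumberField F] (hF : finrank ℚ F = 3)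
    (hng : ¬ IsGalois ℚ F) (φ ψ : F →ₐ[ℚ] ℂ) (h : φ.fieldRange = ψ.fieldRange) : φ = ψ := by
  let e : F ≃ₐ[ℚ] F := (AlgEquiv.ofInjectiveField φ).trans
    ((IntermediateField.equivOfEq h).trans (AlgEquiv.ofInjectiveField ψ).symm)
  have he := cl_aut hF hng e
  ext x
  have h1 : AlgEquiv.ofInjectiveField ψ (e x) =
      (IntermediateField.equivOfEq h) (AlgEquiv.ofInjectiveField φ x) :=
    (AlgEquiv.ofInjectiveField ψ).apply_symm_apply _
  rw [he, AlgEquiv.one_apply] at h1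
  exact (congrArg Subtype.val h1).symm

/-- images in the normal closure -/
theorem cl_le {F : Type} [Field F] [NumberField F] (N : IntermediateField ℚ ℂ)
    (hN : @Normal ℚ N _ _ N.algebra') (f : F →ₐ[ℚ] N) (φ : F →ₐ[ℚ] ℂ) : φ.fieldRange ≤ N := by
  let _ : Algebra F N := f.toRingHom.toAlgebra
  let _ : Algebra F ℂ := φ.toRingHom.toAlgebra
  have t1 : IsScalarTower ℚ F N := IsScalarTower.of_algebraMap_eq' (by ext x; simp)
  have t2 : IsScalarTower ℚ F ℂ := IsScalarTower.of_algebraMap_eq' (by ext x; simp)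
  have hal : Algebra.IsAlgebraic F N := by
    have : Algebra.IsAlgebraic ℚ N := hN.toIsAlgebraic
    exact Algebra.IsAlgebraic.tower_top (K := ℚ) F
  let ψ : N →ₐ[F] ℂ := IsAlgClosed.lift
  have h1 : (ψ.restrictScalars ℚ).fieldRange = N := AlgHom.fieldRange_of_normal _
  rintro _ ⟨x, rfl⟩
  have h2 : ψ (algebraMap F N x) = φ x := ψ.commutes x
  have h3 : φ x ∈ (ψ.restrictScalars ℚ).fieldRange := ⟨algebraMap F N x, h2⟩
  rw [h1] at h3
  exact h3

theorem cl_join33 {A B N : IntermediateField ℚ ℂ} [FiniteDimensional ℚ N] (hA : A ≤ N) (hB : B ≤ N)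
    (hN : finrank ℚ N = 6) (hA3 : finrank ℚ A = 3) (hB3 : finrank ℚ B = 3) (hne : A ≠ B) :
    A ⊔ B = N := by
  have hle : A ⊔ B ≤ N := sup_le hA hB
  have hfin : FiniteDimensional ℚ ↥(A ⊔ B) := FiniteDimensional.of_injective
    (IntermediateField.inclusion hle).toLinearMap (IntermediateField.inclusion hle).injective
  have h1 : finrank ℚ ↥(A ⊔ B) ∣ 6 := hN ▸ IntermediateField.finrank_dvd_of_le_right hle
  have h2 : 3 ∣ finrank ℚ ↥(A ⊔ B) := hA3 ▸ IntermediateField.finrank_dvd_of_le_right le_sup_left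
  have h3 : finrank ℚ ↥(A ⊔ B) ≠ 3 := by
    intro h
    apply hne
    have e1 : A = A ⊔ B := IntermediateField.eq_of_le_of_finrank_eq le_sup_left (by rw [hA3, h])
    have e2 : B = A ⊔ B := IntermediateField.eq_of_le_of_finrank_eq le_sup_right (by rw [hB3, h])
    rw [e1]; exact e2.symm
  have h4 : finrank ℚ ↥(A ⊔ B) = 6 := by
    have h5 : finrank ℚ ↥(A ⊔ B) ≤ 6 := Nat.le_of_dvd (by norm_num) h1
    interval_cases finrank ℚ ↥(A ⊔ B) <;> omega
  exact IntermediateField.eq_of_le_of_finrank_eq hle (by rw [h4, hN])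

theorem cl_join23 {A B N : IntermediateField ℚ ℂ} [FiniteDimensional ℚ N] (hA : A ≤ N) (hB : B ≤ N)
    (hN : finrank ℚ N = 6) (hA2 : finrank ℚ A = 2) (hB3 : finrank ℚ B = 3) : A ⊔ B = N := by
  have hle : A ⊔ B ≤ N := sup_le hA hB
  have hfin : FiniteDimensional ℚ ↥(A ⊔ B) := FiniteDimensional.of_injective
    (IntermediateField.inclusion hle).toLinearMap (IntermediateField.inclusion hle).injective
  have h1 : finrank ℚ ↥(A ⊔ B) ∣ 6 := hN ▸ IntermediateField.finrank_dvd_of_le_right hle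
  have h2 : 2 ∣ finrank ℚ ↥(A ⊔ B) := hA2 ▸ IntermediateField.finrank_dvd_of_le_right le_sup_left
  have h3 : 3 ∣ finrank ℚ ↥(A ⊔ B) := hB3 ▸ IntermediateField.finrank_dvd_of_le_right le_sup_right
  have h4 : finrank ℚ ↥(A ⊔ B) = 6 := by
    have h5 : finrank ℚ ↥(A ⊔ B) ≤ 6 := Nat.le_of_dvd (by norm_num) h1
    have h6 : 0 < finrank ℚ ↥(A ⊔ B) := Nat.pos_of_dvd_of_pos h1 (by norm_num)
    interval_cases finrank ℚ ↥(A ⊔ B) <;> omega
  exact IntermediateField.eq_of_le_of_finrank_eq hle (by rw [h4, hN])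

theorem cl_sup {A B N E : IntermediateField ℚ ℂ} (h : A ⊔ B = N) :
    (A ⊔ E) ⊔ (B ⊔ E) = N ⊔ E := by
  rw [← h, sup_sup_sup_comm, sup_idem]

theorem cl_conj {F : Type} [Field F] [NumberField F] {p : ℕ} (hp : p.Prime) (hp2 : p ≠ 2)
    (hF : finrank ℚ F = 3) (hone : OnePrime p F) (hcl : ¬ p ∣ Nat.card (ClassGroup (𝓞 F)))
    (φ : F →ₐ[ℚ] ℂ) (m : ℕ) (E : IntermediateField ℚ ℂ)
    (hE : E ≤ IntermediateField.adjoin ℚ {w : ℂ | w ^ (p ^ (m + 1)) = 1})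
    (hEd : finrank ℚ E = p ^ m) :
    finrank ℚ φ.fieldRange = 3 ∧ ¬ p ∣ Nat.card (ClassGroup (𝓞 ↥(φ.fieldRange ⊔ E))) := by
  have e : F ≃ₐ[ℚ] φ.fieldRange := AlgEquiv.ofInjectiveField φ
  have hy3 : finrank ℚ φ.fieldRange = 3 := by
    rw [← hF]; exact (LinearEquiv.finrank_eq e.toLinearEquiv).symm
  have hyf : FiniteDimensional ℚ φ.fieldRange :=
    FiniteDimensional.of_finrank_pos (by rw [hy3]; norm_num)
  have hyn : NumberField φ.fieldRange := ⟨⟩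
  obtain ⟨h1, h2⟩ := tw_equiv e.toRingEquiv hone hcl
  exact ⟨hy3, cyc_tower hp hp2 φ.fieldRange h2 h1 m (m + 1) E hE hEd⟩

theorem cubic_closure {F : Type} [Field F] [NumberField F] {p : ℕ} (hp : p.Prime) (hp2 : p ≠ 2)
    (hp3 : p ≠ 3) (hF : finrank ℚ F = 3) (hng : ¬ IsGalois ℚ F)
    (hone : ∃! P : Ideal (𝓞 F), P.IsPrime ∧ (p : 𝓞 F) ∈ P)
    (hcl : ¬ p ∣ Nat.card (ClassGroup (𝓞 F)))
    (N : IntermediateField ℚ ℂ) [NumberField N] [IsGalois ℚ N] (hN : finrank ℚ N = 6)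
    (f : F →+* N) (Y : IntermediateField ℚ ℂ) (hYN : Y ≤ N) (hY : finrank ℚ Y = 2)
    (m : ℕ) (E : IntermediateField ℚ ℂ)
    (hE : E ≤ IntermediateField.adjoin ℚ {w : ℂ | w ^ (p ^ (m + 1)) = 1})
    (hEd : finrank ℚ E = p ^ m) :
    padicValNat p (Nat.card (ClassGroup (𝓞 ↥(N ⊔ E)))) =
      padicValNat p (Nat.card (ClassGroup (𝓞 ↥(Y ⊔ E)))) := by
  have hone' : OnePrime p F := fun P Q hP hQ hpP hpQ => hone.unique ⟨hP, hpP⟩ ⟨hQ, hpQ⟩
  have hNg : @IsGalois ℚ _ N _ N.algebra' := cc_cast _ _ inferInstance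
  have hN6 : @finrank ℚ N _ _ N.algebra'.toModule = 6 := by
    rw [cy_finrank _ (@Algebra.toModule ℚ N _ _ DivisionRing.toRatAlgebra)]; exact hN
  have hNf : @FiniteDimensional ℚ N _ _ N.algebra'.toModule :=
    FiniteDimensional.of_finrank_pos (by rw [hN6]; norm_num)
  have hNn : @Normal ℚ N _ _ N.algebra' := hNg.to_normal
  classical
  have hcomm : ∀ r : ℚ, f (algebraMap ℚ F r) = (@algebraMap ℚ N _ _ N.algebra') r := by
    intro r
    rw [eq_ratCast, map_ratCast]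
    exact (eq_ratCast (@algebraMap ℚ N _ _ N.algebra') r).symm
  let f' : @AlgHom ℚ F N _ _ _ _ N.algebra' := { f with commutes' := hcomm }
  obtain ⟨φ0, φ1, φ2, h01, h02, h12, -⟩ : ∃ a b c : F →ₐ[ℚ] ℂ, a ≠ b ∧ a ≠ c ∧ b ≠ c ∧
      (Finset.univ : Finset (F →ₐ[ℚ] ℂ)) = {a, b, c} := by
    apply Finset.card_eq_three.mp
    rw [Finset.card_univ, AlgHom.card ℚ F ℂ, hF]
  have hr01 : φ0.fieldRange ≠ φ1.fieldRange := fun h => h01 (cl_range_inj hF hng _ _ h)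
  have hr02 : φ0.fieldRange ≠ φ2.fieldRange := fun h => h02 (cl_range_inj hF hng _ _ h)
  have hr12 : φ1.fieldRange ≠ φ2.fieldRange := fun h => h12 (cl_range_inj hF hng _ _ h)
  have hle := fun φ : F →ₐ[ℚ] ℂ => cl_le N hNn f' φ
  have hcj := fun φ : F →ₐ[ℚ] ℂ => cl_conj hp hp2 hF hone' hcl φ m E hE hEd
  have j01 := cl_join33 (hle φ0) (hle φ1) hN6 (hcj φ0).1 (hcj φ1).1 hr01
  have j02 := cl_join33 (hle φ0) (hle φ2) hN6 (hcj φ0).1 (hcj φ2).1 hr02
  have j12 := cl_join33 (hle φ1) (hle φ2) hN6 (hcj φ1).1 (hcj φ2).1 hr12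
  have jY := fun φ : F →ₐ[ℚ] ℂ => cl_join23 hYN (hle φ) hN6 hY (hcj φ).1
  -- degrees
  have hcop2 : Nat.Coprime 2 (p ^ m) :=
    Nat.Coprime.pow_right m ((Nat.coprime_primes Nat.prime_two hp).2 (Ne.symm hp2))
  have hcop3 : Nat.Coprime 3 (p ^ m) :=
    Nat.Coprime.pow_right m ((Nat.coprime_primes Nat.prime_three hp).2 (Ne.symm hp3))
  have hcop6 : Nat.Coprime 6 (p ^ m) := Nat.Coprime.mul_left hcop2 hcop3
  have hEf : FiniteDimensional ℚ E :=
    FiniteDimensional.of_finrank_pos (by rw [hEd]; exact pow_pos hp.pos _)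
  have hYf : FiniteDimensional ℚ Y := FiniteDimensional.of_finrank_pos (by rw [hY]; norm_num)
  have hrank : ∀ (X : IntermediateField ℚ ℂ) (d : ℕ), finrank ℚ X = d → FiniteDimensional ℚ X →
      Nat.Coprime d (p ^ m) → finrank ℚ ↥(X ⊔ E) = d * p ^ m := by
    intro X d hX hfd hc
    have hdis : X.LinearDisjoint E :=
      IntermediateField.LinearDisjoint.of_finrank_coprime (by rw [hX, hEd]; exact hc)
    rw [hdis.finrank_sup, hX, hEd]
  have hgE := ce_galE hp m E hE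
  have hMf : FiniteDimensional ℚ ↥(N ⊔ E) := IntermediateField.finiteDimensional_sup N E
  have hMg : @IsGalois ℚ _ ↥(N ⊔ E) _ (N ⊔ E).algebra' :=
    ce_galsup N E (hA := hNg) (hB := cc_cast _ _ hgE)
  have hMn : NumberField ↥(N ⊔ E) := ⟨⟩
  have hMg' : @IsGalois ℚ _ ↥(N ⊔ E) _ DivisionRing.toRatAlgebra := cc_cast _ _ hMg
  have hfr : ∀ φ : F →ₐ[ℚ] ℂ, FiniteDimensional ℚ φ.fieldRange := fun φ =>
    FiniteDimensional.of_finrank_pos (by rw [(hcj φ).1]; norm_num)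
  refine ce_main hp hp3 (N ⊔ E) E (Y ⊔ E) (φ0.fieldRange ⊔ E) (φ1.fieldRange ⊔ E)
    (φ2.fieldRange ⊔ E) (p ^ m) (pow_pos hp.pos m) ?_ hEd ?_ ?_ ?_ ?_ le_sup_right le_sup_right
    le_sup_right le_sup_right (cl_sup (jY φ0)) (cl_sup (jY φ1)) (cl_sup (jY φ2)) (cl_sup j01)
    (cl_sup j02) (cl_sup j12) (ce_bot hp hp2 m E hE hEd) (hcj φ0).2 (hcj φ1).2 (hcj φ2).2
  · rw [cy_finrank _ (N ⊔ E).algebra'.toModule]
    exact hrank N 6 hN6 hNf hcop6
  · exact hrank _ 2 hY hYf hcop2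
  · exact hrank _ 3 (hcj φ0).1 (hfr _) hcop3
  · exact hrank _ 3 (hcj φ1).1 (hfr _) hcop3
  · exact hrank _ 3 (hcj φ2).1 (hfr _) hcop3

end Pool.Agent.Work.MuB
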