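import Mathlib
import Pool.Agent.Work.MP_a4986b_nt.BEx

set_option autoImplicit false
set_option maxHeartbeats 400000

/-! # The family `t³ = 3 p t + 2 p x`: `p` is totally ramified, the field is totally real -/

namespace Pool.Agent.Work.MuB

open NumberField Module NumberField.InfinitePlace NumberField.Units
open scoped nonZeroDivisors Real

section Family

/-- `p` does not divide `2 x` -/
theorem family_not_dvd {p D : ℕ} (hp : p.Prime) (hD : 0 < D) (hpD : 2 * D + 2 < p) (x y : ℤ)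
    (hxy : x ^ 2 + D * y ^ 2 = p) : ¬ (p : ℤ) ∣ 2 * x := by
  intro h
  have hpi := Nat.prime_iff_prime_int.mp hp
  have hp4 : (4 : ℤ) < p := by exact_mod_cast (by omega : 4 < p)
  have hD' : (0 : ℤ) < D := by exact_mod_cast hD
  have hpD' : (2 : ℤ) * D + 2 < p := by exact_mod_cast hpD
  rcases hpi.dvd_or_dvd h with h2 | hx
  · have := Int.le_of_dvd (by norm_num) h2
    linarith
  · obtain ⟨k, rfl⟩ := hx
    have hk : k = 0 := by
      by_contra hk
      have h1 : 1 ≤ k ^ 2 := by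
        have : 0 < k ^ 2 := by positivity
        linarith
      have h3 : 0 ≤ (D : ℤ) * y ^ 2 := by positivity
      nlinarith [mul_le_mul_of_nonneg_left h1 (by positivity : (0 : ℤ) ≤ (p : ℤ) ^ 2)]
    subst hk
    have h5 : (D : ℤ) * y ^ 2 = p := by simpa using hxy
    have h6 : (p : ℤ) ∣ D ∨ (p : ℤ) ∣ y ^ 2 := hpi.dvd_or_dvd ⟨1, by rw [h5]; ring⟩
    rcases h6 with h6 | h6
    · have := Int.le_of_dvd hD' h6
      linarith
    · obtain ⟨m, rfl⟩ := hpi.dvd_of_dvd_pow h6
      have hm : m ≠ 0 := by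
        rintro rfl
        simp at h5
        have := hp.pos
        omega
      have h1 : 1 ≤ m ^ 2 := by
        have : 0 < m ^ 2 := by positivity
        linarith
      have h7 : (p : ℤ) ^ 2 ≤ D * (p * m) ^ 2 := by
        have : (D : ℤ) * (p * m) ^ 2 = p ^ 2 * (D * m ^ 2) := by ring
        rw [this]
        have h8 : 1 ≤ (D : ℤ) * m ^ 2 := by nlinarith
        nlinarith [mul_le_mul_of_nonneg_left h8 (by positivity : (0 : ℤ) ≤ (p : ℤ) ^ 2)]
      nlinarith

theorem family_integral {F : Type*} [Field F] [NumberField F] {p : ℕ} (x : ℤ) (t : F)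
    (ht : t ^ 3 = 3 * p * t + 2 * p * x) : IsIntegral ℤ t := by
  refine ⟨Polynomial.X ^ 3 + (-Polynomial.C (3 * (p : ℤ)) * Polynomial.X
    - Polynomial.C (2 * (p : ℤ) * x)), ?_, ?_⟩
  · refine Polynomial.monic_X_pow_add ?_
    refine lt_of_le_of_lt (Polynomial.degree_sub_le _ _) ?_
    rw [max_lt_iff]
    constructor
    · rw [← Polynomial.C_neg]
      refine lt_of_le_of_lt (Polynomial.degree_C_mul_X_le _) ?_
      norm_num
    · refine lt_of_le_of_lt Polynomial.degree_C_le ?_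
      norm_num
  · simp only [Polynomial.eval₂_add, Polynomial.eval₂_sub, Polynomial.eval₂_mul,
      Polynomial.eval₂_neg, Polynomial.eval₂_pow, Polynomial.eval₂_X, Polynomial.eval₂_C]
    rw [ht]
    simp only [algebraMap_int_eq, eq_intCast]
    push_cast
    ring

theorem family_existsUnique_prime {F : Type*} [Field F] [NumberField F] (hF : finrank ℚ F = 3)
    {p D : ℕ} (hp : p.Prime) (hD : 0 < D) (hpD : 2 * D + 2 < p) (x y : ℤ)
    (hxy : x ^ 2 + D * y ^ 2 = p) (t : F) (ht : t ^ 3 = 3 * p * t + 2 * p * x) :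
    ∃! P : Ideal (𝓞 F), P.IsPrime ∧ (p : 𝓞 F) ∈ P := by
  have hnd := family_not_dvd hp hD hpD x y hxy
  obtain ⟨T, hTt⟩ : ∃ T : 𝓞 F, algebraMap (𝓞 F) F T = t := ⟨⟨t, family_integral x t ht⟩, rfl⟩
  have hT : T ^ 3 = (p : 𝓞 F) * (3 * T + 2 * (x : 𝓞 F)) := by
    apply FaithfulSMul.algebraMap_injective (𝓞 F) F
    simp only [map_pow, map_mul, map_add, map_natCast, map_intCast, map_ofNat]
    rw [hTt, ht]
    ring
  have hp0 : (p : 𝓞 F) ≠ 0 := by exact_mod_cast hp.ne_zero
  have hnotunit : ¬ IsUnit (p : 𝓞 F) := by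
    intro hu
    have h1 : Ideal.span {(p : 𝓞 F)} = ⊤ := Ideal.span_singleton_eq_top.mpr hu
    have h3 := absNorm_span_nat (F := F) p
    rw [h1, Ideal.absNorm_top] at h3
    have h4 : 0 < finrank ℚ F := finrank_pos
    have := Nat.one_lt_pow h4.ne' hp.one_lt
    omega
  obtain ⟨P, hPm, hpP⟩ := Ideal.exists_le_maximal (Ideal.span {(p : 𝓞 F)})
    (fun h => hnotunit (Ideal.span_singleton_eq_top.mp h))
  have hpP' : (p : 𝓞 F) ∈ P := hpP (Ideal.mem_span_singleton_self _)
  refine ⟨P, ⟨hPm.isPrime, hpP'⟩, ?_⟩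
  rintro Q ⟨hQ, hpQ⟩
  by_contra hne
  have hne0 : ∀ R : Ideal (𝓞 F), (p : 𝓞 F) ∈ R → R ≠ ⊥ := fun R hR h => by
    rw [h] at hR
    exact hp0 (by simpa using hR)
  have hQm : Q.IsMaximal := hQ.isMaximal (hne0 Q hpQ)
  have hnorm : ∀ R : Ideal (𝓞 F), R.IsPrime → (p : 𝓞 F) ∈ R → p ≤ Ideal.absNorm R := by
    intro R hR hpR
    have h1 : Ideal.absNorm R ∣ p ^ 3 := by
      have h2 : Ideal.absNorm R ∣ Ideal.absNorm (Ideal.span {(p : 𝓞 F)}) :=
        Ideal.absNorm_dvd_absNorm_of_le (by rwa [Ideal.span_singleton_le_iff_mem])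
      rwa [absNorm_span_nat, hF] at h2
    obtain ⟨k, _, hk⟩ := (Nat.dvd_prime_pow hp).mp h1
    have hk0 : k ≠ 0 := by
      rintro rfl
      rw [pow_zero, Ideal.absNorm_eq_one_iff] at hk
      exact hR.ne_top hk
    rw [hk]
    exact Nat.le_self_pow hk0 p
  have hzR : ∀ R : Ideal (𝓞 F), R.IsPrime → (p : 𝓞 F) ∈ R → T ∈ R := by
    intro R hR hpR
    refine hR.mem_of_pow_mem 3 ?_
    rw [hT]
    exact R.mul_mem_right _ hpR
  have hαR : ∀ R : Ideal (𝓞 F), R.IsPrime → (p : 𝓞 F) ∈ R →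
      (3 * T + 2 * (x : 𝓞 F)) ∉ R := by
    intro R hR hpR h
    have h2x : ((2 * x : ℤ) : 𝓞 F) ∈ R := by
      have := R.sub_mem h (R.mul_mem_left 3 (hzR R hR hpR))
      rw [add_sub_cancel_left] at this
      push_cast
      exact this
    have hcop : IsCoprime (p : ℤ) (2 * x) :=
      (Int.isCoprime_iff_gcd_eq_one.mpr ?_)
    · obtain ⟨u, v, huv⟩ := hcop
      apply hR.ne_top
      rw [Ideal.eq_top_iff_one]
      have h1 : (1 : 𝓞 F) = (u : 𝓞 F) * (p : 𝓞 F) + (v : 𝓞 F) * ((2 * x : ℤ) : 𝓞 F) := by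
        have := congrArg (fun z : ℤ => (z : 𝓞 F)) huv
        simp only [Int.cast_add, Int.cast_mul, Int.cast_natCast, Int.cast_one] at this
        rw [← this]
        push_cast
        ring
      rw [h1]
      exact R.add_mem (R.mul_mem_left _ hpR) (R.mul_mem_left _ h2x)
    · rw [Int.gcd_eq_natAbs, Int.natAbs_natCast]
      exact (Nat.Prime.coprime_iff_not_dvd hp).mpr (fun h => hnd (Int.natCast_dvd.mpr h))
  have hcopPQ : IsCoprime P Q := by
    rw [Ideal.isCoprime_iff_sup_eq]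
    exact hPm.coprime_of_ne hQm (fun h => hne h.symm)
  have hPQz : P * Q ∣ Ideal.span {T} := by
    rw [Ideal.dvd_span_singleton, Ideal.mul_eq_inf_of_isCoprime hcopPQ]
    exact ⟨hzR P hPm.isPrime hpP', hzR Q hQ hpQ⟩
  have hsq : (P * Q) ^ 3 ∣ Ideal.span {(p : 𝓞 F)} * Ideal.span {3 * T + 2 * (x : 𝓞 F)} := by
    rw [Ideal.span_singleton_mul_span_singleton, ← hT, ← Ideal.span_singleton_pow]
    exact pow_dvd_pow_of_dvd hPQz 3
  have hcopA : ∀ R : Ideal (𝓞 F), R.IsMaximal → (p : 𝓞 F) ∈ R →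
      IsCoprime R (Ideal.span {3 * T + 2 * (x : 𝓞 F)}) := by
    intro R hR hpR
    rw [Ideal.isCoprime_iff_sup_eq]
    by_contra h
    have h6 : R = R ⊔ Ideal.span {3 * T + 2 * (x : 𝓞 F)} := hR.eq_of_le h le_sup_left
    apply hαR R hR.isPrime hpR
    rw [h6]
    exact Ideal.mem_sup_right (Ideal.mem_span_singleton_self _)
  have hcop2 : IsCoprime ((P * Q) ^ 3) (Ideal.span {3 * T + 2 * (x : 𝓞 F)}) :=
    ((hcopA P hPm hpP').mul_left (hcopA Q hQm hpQ)).pow_left
  have hdvd : (P * Q) ^ 3 ∣ Ideal.span {(p : 𝓞 F)} := hcop2.dvd_of_dvd_mul_right hsq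
  have hle := Nat.le_of_dvd (by
    rw [absNorm_span_nat]
    exact pow_pos hp.pos _) (map_dvd Ideal.absNorm hdvd)
  rw [map_pow, map_mul, absNorm_span_nat, hF] at hle
  have h7 := hnorm P hPm.isPrime hpP'
  have h8 := hnorm Q hQ hpQ
  have h11 : p * p ≤ Ideal.absNorm P * Ideal.absNorm Q := Nat.mul_le_mul h7 h8
  have h14 : Ideal.absNorm P * Ideal.absNorm Q ≤ p :=
    (Nat.pow_le_pow_iff_left three_ne_zero).mp hle
  have := hp.one_lt
  nlinarith

end Family

section Real

theorem family_adjoin {F : Type*} [Field F] [NumberField F] (hF : finrank ℚ F = 3)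
    {p D : ℕ} (hp : p.Prime) (hD : 0 < D) (hpD : 2 * D + 2 < p) (x y : ℤ)
    (hxy : x ^ 2 + D * y ^ 2 = p) (t : F) (ht : t ^ 3 = 3 * p * t + 2 * p * x) :
    IntermediateField.adjoin ℚ {t} = ⊤ := by
  have hnd := family_not_dvd hp hD hpD x y hxy
  have hdeg : finrank ℚ (IntermediateField.adjoin ℚ {t}) ∣ 3 := by
    rw [← hF]
    exact ⟨_, (Module.finrank_mul_finrank ℚ (IntermediateField.adjoin ℚ {t}) F).symm⟩
  rcases (Nat.dvd_prime Nat.prime_three).mp hdeg with h | h
  · exfalso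
    rw [IntermediateField.finrank_adjoin_simple_eq_one_iff, IntermediateField.mem_bot] at h
    obtain ⟨q, hq⟩ := h
    have hint : IsIntegral ℤ q := by
      have h1 := family_integral x t ht
      rw [← hq] at h1
      exact (isIntegral_algebraMap_iff (algebraMap ℚ F).injective).mp h1
    obtain ⟨m, hm⟩ := IsIntegrallyClosed.isIntegral_iff.mp hint
    have hmt : (m : F) = t := by
      rw [← hq, ← hm]
      simp
    have h3 : m ^ 3 = p * (3 * m + 2 * x) := by
      have : ((m ^ 3 : ℤ) : F) = ((p * (3 * m + 2 * x) : ℤ) : F) := by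
        push_cast
        rw [hmt, ht]
        ring
      exact_mod_cast this
    have hpi := Nat.prime_iff_prime_int.mp hp
    have h4 : (p : ℤ) ∣ m := hpi.dvd_of_dvd_pow ⟨_, h3⟩
    obtain ⟨k, rfl⟩ := h4
    apply hnd
    have hp0 : (p : ℤ) ≠ 0 := by exact_mod_cast hp.ne_zero
    refine ⟨p * k ^ 3 - 3 * k, ?_⟩
    have h5 : (p : ℤ) * (2 * x) = p * (p * (p * k ^ 3 - 3 * k)) := by
      linear_combination -h3
    exact mul_left_cancel₀ hp0 h5
  · refine IntermediateField.eq_of_le_of_finrank_eq le_top ?_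
    rw [h, IntermediateField.finrank_top', hF]

theorem family_totallyReal {F : Type*} [Field F] [NumberField F] (hF : finrank ℚ F = 3)
    {p D : ℕ} (hp : p.Prime) (hD : 0 < D) (hpD : 2 * D + 2 < p) (x y : ℤ)
    (hxy : x ^ 2 + D * y ^ 2 = p) (t : F) (ht : t ^ 3 = 3 * p * t + 2 * p * x) :
    IsTotallyReal F := by
  have hpp : (0 : ℝ) < p := by exact_mod_cast hp.pos
  have htop := family_adjoin hF hp hD hpD x y hxy t ht
  refine ⟨fun w => ?_⟩
  rw [← mk_embedding w, isReal_mk_iff]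
  set φ := w.embedding
  have him : (starRingEnd ℂ) (φ t) = φ t := by
    rw [Complex.conj_eq_iff_im]
    by_contra hb
    have h3 : (φ t) ^ 3 = 3 * p * φ t + 2 * p * x := by
      rw [← map_pow, ht]
      simp only [map_add, map_mul, map_natCast, map_intCast, map_ofNat]
    have hre := congrArg Complex.re h3
    have him := congrArg Complex.im h3
    simp only [pow_succ, pow_zero, one_mul, Complex.mul_re, Complex.mul_im, Complex.add_re,
      Complex.add_im, Complex.natCast_re, Complex.natCast_im, Complex.intCast_re,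
      Complex.intCast_im, Complex.re_ofNat, Complex.im_ofNat] at hre him
    set a := (φ t).re
    set b := (φ t).im
    have e1 : b * (b ^ 2 - (3 * a ^ 2 - 3 * p)) = 0 := by linear_combination -him
    have e2 : b ^ 2 = 3 * a ^ 2 - 3 * p := by
      rcases mul_eq_zero.mp e1 with h | h
      · exact absurd h hb
      · linarith
    have e3 : (p : ℝ) * x = a * (3 * p - 4 * a ^ 2) := by
      linear_combination (-1 / 2 : ℝ) * hre - (3 / 2 : ℝ) * a * e2
    have hb2 : 0 < b ^ 2 := by positivity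
    have ha2 : (p : ℝ) < a ^ 2 := by linarith
    have hx2 : ((x : ℝ)) ^ 2 ≤ p := by
      have h5 : ((x ^ 2 + D * y ^ 2 : ℤ) : ℝ) = ((p : ℤ) : ℝ) := by rw [hxy]
      push_cast at h5
      have : (0 : ℝ) ≤ D * y ^ 2 := by positivity
      linarith
    have e4 : ((p : ℝ) * x) ^ 2 = a ^ 2 * (4 * a ^ 2 - 3 * p) ^ 2 := by rw [e3]; ring
    have h6 : (p : ℝ) < 4 * a ^ 2 - 3 * p := by linarith
    have h7 : (p : ℝ) ^ 2 < (4 * a ^ 2 - 3 * p) ^ 2 := by
      apply pow_lt_pow_left₀ h6 hpp.le two_ne_zero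
    have h8 : (p : ℝ) * p ^ 2 < a ^ 2 * (4 * a ^ 2 - 3 * p) ^ 2 :=
      mul_lt_mul'' ha2 h7 hpp.le (by positivity)
    have h9 : ((p : ℝ) * x) ^ 2 ≤ p ^ 2 * p := by
      rw [mul_pow]
      exact mul_le_mul_of_nonneg_left hx2 (by positivity)
    linarith
  have hS : ∀ z : F, (starRingEnd ℂ) (φ z) = φ z := by
    intro z
    have hx : z ∈ IntermediateField.adjoin ℚ {t} := by rw [htop]; trivial
    induction hx using IntermediateField.adjoin_induction with
    | mem y hy =>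
      rw [Set.mem_singleton_iff.mp hy]
      exact him
    | algebraMap y => simp
    | add y w _ _ hy hw => rw [map_add, map_add, hy, hw]
    | inv y _ hy => rw [map_inv₀, map_inv₀, hy]
    | mul y w _ _ hy hw => rw [map_mul, map_mul, hy, hw]
  ext z
  exact hS z

theorem family_rank {F : Type*} [Field F] [NumberField F] (hF : finrank ℚ F = 3)
    {p D : ℕ} (hp : p.Prime) (hD : 0 < D) (hpD : 2 * D + 2 < p) (x y : ℤ)
    (hxy : x ^ 2 + D * y ^ 2 = p) (t : F) (ht : t ^ 3 = 3 * p * t + 2 * p * x) :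
    Units.rank F = 2 := by
  have := family_totallyReal hF hp hD hpD x y hxy t ht
  rw [rank_of_totallyReal F, hF]

end Real

end Pool.Agent.Work.MuB
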