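import Pool.Agent.Work.MP_a4986b_nt.CExA
import Pool.Agent.Work.MP_a4986b_nt.CExB
import Pool.Agent.Work.MP_a4986b_nt.CClass

set_option autoImplicit false
set_option maxHeartbeats 400000

/-! # The explicit family of Theorem C -/

namespace Pool.Agent.Work.MuB

open NumberField Module NumberField.InfinitePlace NumberField.Units Filter
open scoped nonZeroDivisors Real Topology

/-- the family `t³ = 3 p t + 2 p x`, `p = x² + D y²` -/
theorem cubic_family (D : ℕ) (hD : 0 < D) (h3 : ¬ IsSquare (3 * D)) :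
    ∃ p0 : ℕ, ∀ p : ℕ, p.Prime → p0 ≤ p → ∀ x y : ℤ, x ^ 2 + D * y ^ 2 = p →
      ∀ (F : Type) [Field F] [NumberField F], finrank ℚ F = 3 →
        ∀ t : F, t ^ 3 = 3 * p * t + 2 * p * x →
          ¬ p ∣ Nat.card (ClassGroup (𝓞 F)) ∧
            ∃! P : Ideal (𝓞 F), P.IsPrime ∧ (p : 𝓞 F) ∈ P := by
  obtain ⟨d, hd, hdf⟩ := exists_squarefree_part hD h3
  obtain ⟨c, hc, hnd⟩ := cubic_not_dvd d hd
  obtain ⟨n0, hn0⟩ : ∃ n0 : ℕ, ∀ n : ℕ, n0 ≤ n → 108 * (D : ℝ) ≤ c * (1 + Real.log n) ^ 2 := by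
    have h1 : Tendsto (fun n : ℕ => c * (1 + Real.log n) ^ 2) atTop atTop := by
      refine Tendsto.const_mul_atTop hc ?_
      refine (tendsto_pow_atTop two_ne_zero).comp ?_
      exact tendsto_atTop_add_const_left _ _
        (Real.tendsto_log_atTop.comp tendsto_natCast_atTop_atTop)
    exact eventually_atTop.mp (h1.eventually_ge_atTop (108 * (D : ℝ)))
  refine ⟨max n0 (2 * D + 3), ?_⟩
  intro p hp hpp x y hxy F _ _ hF t ht
  have hpn0 : n0 ≤ p := (le_max_left _ _).trans hpp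
  have hpD : 2 * D + 2 < p := (le_max_right _ _).trans hpp
  refine ⟨?_, family_existsUnique_prime hF hp hD hpD x y hxy t ht⟩
  obtain ⟨i, hi0, hi⟩ := family_discr hF hp hD hpD x y hxy t ht
  have hrank := family_rank hF hp hD hpD x y hxy t ht
  refine hnd F p hp hF (hdf _ i p hi0 hi) ?_
  rw [hrank]
  have h1 : |(discr F : ℝ)| ≤ 108 * D * (p : ℝ) ^ 2 := by
    have h2 : (1 : ℝ) ≤ (i : ℝ) ^ 2 := by
      have : (1 : ℤ) ≤ i ^ 2 := by
        have := sq_nonneg i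
        have h3 : i ^ 2 ≠ 0 := pow_ne_zero 2 hi0
        omega
      exact_mod_cast this
    have h3 : (discr F : ℝ) * (i : ℝ) ^ 2 = 108 * D * (p : ℝ) ^ 2 := by exact_mod_cast hi
    have h4 : |(discr F : ℝ)| * (i : ℝ) ^ 2 = 108 * D * (p : ℝ) ^ 2 := by
      rw [← abs_of_nonneg (sq_nonneg (i : ℝ)), ← abs_mul, h3, abs_of_nonneg (by positivity)]
    have h5 := abs_nonneg (discr F : ℝ)
    nlinarith
  have h6 := hn0 p hpn0
  calc |(discr F : ℝ)| ≤ 108 * D * (p : ℝ) ^ 2 := h1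
    _ ≤ (c * (1 + Real.log p) ^ 2) * (p : ℝ) ^ 2 := by gcongr
    _ = c * (p : ℝ) ^ 2 * (1 + Real.log p) ^ (2 * (2 - 1)) := by
      norm_num
      ring

end Pool.Agent.Work.MuB
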