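import Mathlib

set_option autoImplicit false
set_option maxHeartbeats 400000

/-! # Skeleton (statements only, NEVER import): an explicit family for Theorem C

`p = x² + D y²` a large prime, `F = ℚ(t)`, `t³ = 3 p t + 2 p x`.
With `w = (t² - x t - 2 p) / y` one has `t² = 2 p + x t + y w`, `t w = D y t - x w`,
`w² = 2 p D - D x t - D y w`; the trace matrix of `1, t, w` is `diag (3, 6 p, 6 p D)`. -/

namespace Pool.Agent.Work.MuB

open NumberField Module NumberField.InfinitePlace NumberField.Units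
open scoped nonZeroDivisors Real

/-- CE1: the discriminant (`BRegAux.lean` has `abs_discr_le_of_family` and its proof) -/
theorem family_discr {F : Type*} [Field F] [NumberField F] (hF : finrank ℚ F = 3) {p D : ℕ}
    (hp : p.Prime) (hD : 0 < D) (hpD : 2 * D + 2 < p) (x y : ℤ) (hxy : x ^ 2 + D * y ^ 2 = p)
    (t : F) (ht : t ^ 3 = 3 * p * t + 2 * p * x) :
    ∃ i : ℤ, i ≠ 0 ∧ discr F * i ^ 2 = 108 * D * (p : ℤ) ^ 2 := by
  sorry

/-- CE2: `d` is the squarefree part of `3 D` -/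
theorem exists_squarefree_part {D : ℕ} (hD : 0 < D) (h3 : ¬ IsSquare (3 * D)) :
    ∃ d : ℤ, ¬ IsSquare d ∧ ∀ a i p : ℤ, i ≠ 0 → a * i ^ 2 = 108 * D * p ^ 2 →
      ∃ f : ℤ, a = d * f ^ 2 := by
  sorry

/-- CE3: `p` is totally ramified (compare `existsUnique_prime` in `BEx.lean`: if `P ≠ Q` contain
`p` then `t ∈ P ⊓ Q`, `(P Q)³ ∣ (t³) = (p) (3 t + 2 x)`, `3 t + 2 x ∉ P, Q`, norms) -/
theorem family_existsUnique_prime {F : Type*} [Field F] [NumberField F] (hF : finrank ℚ F = 3)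
    {p D : ℕ} (hp : p.Prime) (hD : 0 < D) (hpD : 2 * D + 2 < p) (x y : ℤ)
    (hxy : x ^ 2 + D * y ^ 2 = p) (t : F) (ht : t ^ 3 = 3 * p * t + 2 * p * x) :
    ∃! P : Ideal (𝓞 F), P.IsPrime ∧ (p : 𝓞 F) ∈ P := by
  sorry

/-- CE4: `F` is totally real, so its unit rank is 2 (`rank_of_totallyReal` in `BEx.lean`);
if `φ t = a + b i`, `b ≠ 0`, then `b² = 3 a² - 3 p`, `p x = 3 p a - 4 a³`, `a² > p`,
so `x² > p` -/
theorem family_rank {F : Type*} [Field F] [NumberField F] (hF : finrank ℚ F = 3)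
    {p D : ℕ} (hp : p.Prime) (hD : 0 < D) (hpD : 2 * D + 2 < p) (x y : ℤ)
    (hxy : x ^ 2 + D * y ^ 2 = p) (t : F) (ht : t ^ 3 = 3 * p * t + 2 * p * x) :
    Units.rank F = 2 := by
  sorry

end Pool.Agent.Work.MuB
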