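import Pool.Agent.Work.MP_a4986b_nt.Defs

set_option autoImplicit false
set_option maxHeartbeats 400000

/-! # Skeleton (statement only, NEVER import): Galois closures of the cubic fields of Theorem C -/

namespace Pool.Agent.Work.MuB

open NumberField Module

/-- CL: `N` = Galois closure (group `S₃`) of the cubic field `F`, `Y` = its quadratic subfield.
If `h(F)` is prime to `p` and one prime of `F` lies above `p` then
`v_p (h (N Q_m)) = v_p (h (Y Q_m))` for all `m` (`ce_main` in `ClosE.lean`, `cyc_tower` for the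
conjugates of `F`; compare `ce_conj`, `cf_main`) -/
theorem cubic_closure {F : Type} [Field F] [NumberField F] {p : ℕ} (hp : p.Prime) (hp2 : p ≠ 2)
    (hp3 : p ≠ 3) (hF : finrank ℚ F = 3) (hng : ¬ IsGalois ℚ F)
    (hone : ∃! P : Ideal (𝓞 F), P.IsPrime ∧ (p : 𝓞 F) ∈ P)
    (hcl : ¬ p ∣ Nat.card (ClassGroup (𝓞 F)))
    (N : IntermediateField ℚ ℂ) [NumberField N] [IsGalois ℚ N] (hN : finrank ℚ N = 6)
    (f : F →+* N) (Y : IntermediateField ℚ ℂ) (hYN : Y ≤ N) (hY : finrank ℚ Y = 2)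
    (m : ℕ) (E : IntermediateField ℚ ℂ)
    (hE : E ≤ IntermediateField.adjoin ℚ {w : ℂ | w ^ (p ^ (m + 1)) = 1})
    (hEd : finrank ℚ E = p ^ m) :
    padicValNat p (Nat.card (ClassGroup (𝓞 ↥(N ⊔ E)))) =
      padicValNat p (Nat.card (ClassGroup (𝓞 ↥(Y ⊔ E)))) := by
  sorry

end Pool.Agent.Work.MuB
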