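import Mathlib
import Pool.Agent.Work.MP_a4986b_nt.CExB

set_option autoImplicit false
set_option maxHeartbeats 400000

/-! # The family `t³ = 3 p t + 2 p x`: the discriminant -/

namespace Pool.Agent.Work.MuB

open NumberField Module NumberField.InfinitePlace NumberField.Units
open scoped nonZeroDivisors Real

/-- the discriminant of a family of integers is the discriminant of the field times a square -/
theorem exists_discr_mul_sq {F : Type*} [Field F] [NumberField F] {ι : Type*} [Fintype ι]
    [DecidableEq ι] (y : ι → 𝓞 F) (hcard : Fintype.card ι = finrank ℚ F) :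
    ∃ i : ℤ, Algebra.discr ℚ (fun j => (y j : F)) = ((discr F * i ^ 2 : ℤ) : ℚ) := by
  classical
  have hc : Fintype.card ι = Fintype.card (Module.Free.ChooseBasisIndex ℤ (𝓞 F)) := by
    rw [hcard, ← RingOfIntegers.rank F, Module.finrank_eq_card_chooseBasisIndex]
  let e : Module.Free.ChooseBasisIndex ℤ (𝓞 F) ≃ ι := (Fintype.equivOfCardEq hc).symm
  let b : Basis ι ℤ (𝓞 F) := (RingOfIntegers.basis F).reindex e
  have h1 : Algebra.discr ℤ y = (b.toMatrix y).det ^ 2 * Algebra.discr ℤ b := by
    rw [← Algebra.discr_of_matrix_vecMul b (b.toMatrix y)]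
    congr 1
    funext i
    have := congrFun (b.toMatrix_map_vecMul y) i
    exact this.symm
  have h2 : Algebra.discr ℤ b = discr F := (discr_eq_discr F b)
  have h6 : (algebraMap ℤ ℚ) (Algebra.discr ℤ y) = Algebra.discr ℚ (fun i => (y i : F)) := by
    rw [Algebra.discr_def, Algebra.discr_def, RingHom.map_det]
    congr 1
    ext i j
    simp only [RingHom.mapMatrix_apply, Matrix.map_apply, Algebra.traceMatrix_apply,
      Algebra.traceForm_apply]
    rw [← Algebra.trace_localization ℤ (nonZeroDivisors ℤ) (Rₘ := ℚ) (Sₘ := F)]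
    simp
  refine ⟨(b.toMatrix y).det, ?_⟩
  rw [← h6, h1, h2, mul_comm]
  simp

theorem trace_of_matrix {F : Type*} [Field F] [NumberField F] (B : Basis (Fin 3) ℚ F) (z : F)
    (c : Fin 3 → Fin 3 → ℚ) (h : ∀ j, z * B j = ∑ i, c j i • B i) :
    Algebra.trace ℚ F z = c 0 0 + c 1 1 + c 2 2 := by
  rw [Algebra.trace_eq_matrix_trace B, Matrix.trace_fin_three]
  simp only [Algebra.leftMulMatrix_eq_repr_mul]
  rw [h 0, h 1, h 2]
  simp [map_sum, Finsupp.single_apply]

theorem family_y_ne {p D : ℕ} (hp : p.Prime) (x y : ℤ) (hxy : x ^ 2 + D * y ^ 2 = p) : y ≠ 0 := by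
  rintro rfl
  have h : x * x = p := by linarith
  have hpi := Nat.prime_iff_prime_int.mp hp
  exact hpi.irreducible.not_isSquare ⟨x, h.symm⟩

theorem family_discr {F : Type*} [Field F] [NumberField F] (hF : finrank ℚ F = 3) {p D : ℕ}
    (hp : p.Prime) (hD : 0 < D) (hpD : 2 * D + 2 < p) (x y : ℤ) (hxy : x ^ 2 + D * y ^ 2 = p)
    (t : F) (ht : t ^ 3 = 3 * p * t + 2 * p * x) :
    ∃ i : ℤ, i ≠ 0 ∧ discr F * i ^ 2 = 108 * D * (p : ℤ) ^ 2 := by
  have hy := family_y_ne hp x y hxy
  have hyF : (y : F) ≠ 0 := by exact_mod_cast hy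
  have hxyF : (x : F) ^ 2 + D * y ^ 2 = p := by
    have h5 : ((x ^ 2 + D * y ^ 2 : ℤ) : F) = ((p : ℤ) : F) := by rw [hxy]
    push_cast at h5
    exact h5
  obtain ⟨w, hw⟩ : ∃ w : F, y * w = t ^ 2 - x * t - 2 * p :=
    ⟨(t ^ 2 - x * t - 2 * p) / y, by field_simp⟩
  have m11 : t * t = 2 * p + x * t + y * w := by rw [hw]; ring
  have m12 : t * w = D * y * t - x * w := by
    apply mul_left_cancel₀ hyF
    linear_combination (t + x) * hw + ht - t * hxyF
  have m22 : w * w = 2 * p * D - D * x * t - D * y * w := by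
    apply mul_left_cancel₀ hyF
    linear_combination w * hw + (t - 2 * x) * m12 + (D * y) * m11 + 2 * w * hxyF
  have hti := family_integral x t ht
  have hw3 : w ^ 3 + (-(3 * p * D) * w + 2 * p * D ^ 2 * y) = 0 := by
    linear_combination (w - D * y) * m22 + D * w * hxyF - D * x * m12
  have hwi : IsIntegral ℤ w := by
    refine ⟨Polynomial.X ^ 3 + (-Polynomial.C (3 * (p : ℤ) * D) * Polynomial.X
      + Polynomial.C (2 * (p : ℤ) * D ^ 2 * y)), ?_, ?_⟩
    · refine Polynomial.monic_X_pow_add ?_
      refine lt_of_le_of_lt (Polynomial.degree_add_le _ _) ?_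
      rw [max_lt_iff]
      constructor
      · rw [← Polynomial.C_neg]
        refine lt_of_le_of_lt (Polynomial.degree_C_mul_X_le _) ?_
        norm_num
      · refine lt_of_le_of_lt Polynomial.degree_C_le ?_
        norm_num
    · simp only [Polynomial.eval₂_add, Polynomial.eval₂_mul,
        Polynomial.eval₂_neg, Polynomial.eval₂_pow, Polynomial.eval₂_X, Polynomial.eval₂_C]
      simp only [algebraMap_int_eq, eq_intCast]
      push_cast
      exact hw3
  -- linear independence
  have htop := family_adjoin hF hp hD hpD x y hxy t ht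
  have hdeg : (minpoly ℚ t).natDegree = 3 := by
    rw [← IntermediateField.adjoin.finrank (hti.tower_top), htop,
      IntermediateField.finrank_top', hF]
  have hli0 : LinearIndependent ℚ (fun i : Fin 3 => t ^ (i : ℕ)) := by
    rw [← hdeg]
    exact linearIndependent_pow t
  have hli : LinearIndependent ℚ ![(1 : F), t, w] := by
    rw [Fintype.linearIndependent_iff]
    intro g hg
    simp only [Fin.sum_univ_three, Matrix.cons_val_zero, Matrix.cons_val_one,
      Matrix.cons_val] at hg
    rw [Fintype.linearIndependent_iff] at hli0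
    have h := hli0 ![y * g 0 - 2 * p * g 2, y * g 1 - x * g 2, g 2] (by
      simp only [Fin.sum_univ_three, Matrix.cons_val_zero, Matrix.cons_val_one,
        Matrix.cons_val, Fin.val_zero, Fin.val_one, Fin.val_two,
        Algebra.smul_def, map_sub, map_mul, map_natCast, map_intCast, map_ofNat] at hg ⊢
      linear_combination (y : F) * hg - (algebraMap ℚ F (g 2)) * hw)
    have hyQ : (y : ℚ) ≠ 0 := by exact_mod_cast hy
    have h2 : g 2 = 0 := by simpa using h 2
    have h1 : g 1 = 0 := by
      have := h 1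
      simp only [Matrix.cons_val_one, Matrix.cons_val_zero, Matrix.cons_val, h2, mul_zero,
        sub_zero] at this
      exact (mul_eq_zero.mp this).resolve_left hyQ
    have h0 : g 0 = 0 := by
      have := h 0
      simp only [Matrix.cons_val_zero, h2, mul_zero, sub_zero] at this
      exact (mul_eq_zero.mp this).resolve_left hyQ
    intro i
    fin_cases i
    · exact h0
    · exact h1
    · exact h2
  let B : Basis (Fin 3) ℚ F := basisOfLinearIndependentOfCardEqFinrank hli (by simp [hF])
  have hB : (B : Fin 3 → F) = ![(1 : F), t, w] := by simp [B]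
  have hB0 : B 0 = 1 := by rw [hB]; rfl
  have hB1 : B 1 = t := by rw [hB]; rfl
  have hB2 : B 2 = w := by rw [hB]; rfl
  have tr1 : Algebra.trace ℚ F 1 = 3 := by
    rw [← map_one (algebraMap ℚ F), Algebra.trace_algebraMap, hF]; norm_num
  have trt : Algebra.trace ℚ F t = 0 := by
    rw [trace_of_matrix B t ![![0, 1, 0], ![2 * p, x, y], ![0, D * y, -x]]]
    · simp
    · intro j
      fin_cases j <;>
        simp only [Fin.zero_eta, Fin.mk_one, Fin.reduceFinMk, Fin.sum_univ_three, hB0, hB1, hB2,
          Matrix.cons_val_zero, Matrix.cons_val_one, Matrix.cons_val,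
          Algebra.smul_def, map_neg, map_mul, map_natCast, map_intCast, map_ofNat, map_zero,
          map_one]
      · ring
      · linear_combination m11
      · linear_combination m12
  have trw : Algebra.trace ℚ F w = 0 := by
    rw [trace_of_matrix B w ![![0, 0, 1], ![0, D * y, -x], ![2 * p * D, -(D * x), -(D * y)]]]
    · simp
    · intro j
      fin_cases j <;>
        simp only [Fin.zero_eta, Fin.mk_one, Fin.reduceFinMk, Fin.sum_univ_three, hB0, hB1, hB2,
          Matrix.cons_val_zero, Matrix.cons_val_one, Matrix.cons_val,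
          Algebra.smul_def, map_neg, map_mul, map_natCast, map_intCast, map_ofNat, map_zero,
          map_one]
      · ring
      · linear_combination m12
      · linear_combination m22
  have trlin : ∀ a b c : ℚ, Algebra.trace ℚ F (a • 1 + b • t + c • w) = 3 * a := by
    intro a b c
    rw [map_add, map_add, map_smul, map_smul, map_smul, tr1, trt, trw]
    simp [mul_comm]
  have t11 : Algebra.trace ℚ F (t * t) = 6 * p := by
    have : t * t = (2 * p : ℚ) • (1 : F) + (x : ℚ) • t + (y : ℚ) • w := by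
      rw [m11]
      simp only [Algebra.smul_def, map_mul, map_natCast, map_intCast, map_ofNat]
      ring
    rw [this, trlin]; ring
  have t12 : Algebra.trace ℚ F (t * w) = 0 := by
    have : t * w = (0 : ℚ) • (1 : F) + (D * y : ℚ) • t + (-x : ℚ) • w := by
      rw [m12]
      simp only [Algebra.smul_def, map_mul, map_natCast, map_intCast, map_neg, map_zero]
      ring
    rw [this, trlin]; ring
  have t22 : Algebra.trace ℚ F (w * w) = 6 * p * D := by
    have : w * w = (2 * p * D : ℚ) • (1 : F) + (-(D * x) : ℚ) • t + (-(D * y) : ℚ) • w := by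
      rw [m22]
      simp only [Algebra.smul_def, map_mul, map_natCast, map_intCast, map_ofNat, map_neg]
      ring
    rw [this, trlin]; ring
  have hdisc : Algebra.discr ℚ ![(1 : F), t, w] = 108 * D * p ^ 2 := by
    rw [Algebra.discr_def, Matrix.det_fin_three]
    simp only [Algebra.traceMatrix_apply, Algebra.traceForm_apply, Matrix.cons_val_zero,
      Matrix.cons_val_one, Matrix.cons_val, one_mul, mul_one, tr1, trt, trw,
      t11, t22, t12, mul_comm w t]
    ring
  let Y : Fin 3 → 𝓞 F := ![1, ⟨t, hti⟩, ⟨w, hwi⟩]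
  have hY : (fun j => ((Y j : 𝓞 F) : F)) = ![(1 : F), t, w] := by
    funext j
    fin_cases j
    · simp [Y]
    · rfl
    · rfl
  obtain ⟨i, hi⟩ := exists_discr_mul_sq Y (by simp [hF])
  rw [hY, hdisc] at hi
  have hi' : discr F * i ^ 2 = 108 * D * (p : ℤ) ^ 2 := by
    have h : ((108 * D * (p : ℤ) ^ 2 : ℤ) : ℚ) = ((discr F * i ^ 2 : ℤ) : ℚ) := by
      rw [← hi]; push_cast; ring
    exact (by exact_mod_cast h : 108 * (D : ℤ) * (p : ℤ) ^ 2 = discr F * i ^ 2).symm
  refine ⟨i, ?_, hi'⟩
  rintro rfl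
  have h1 : (0 : ℤ) < 108 * D * (p : ℤ) ^ 2 := by
    have := hp.pos
    positivity
  rw [← hi'] at h1
  simp at h1

theorem exists_squarefree_part {D : ℕ} (hD : 0 < D) (h3 : ¬ IsSquare (3 * D)) :
    ∃ d : ℤ, ¬ IsSquare d ∧ ∀ a i p : ℤ, i ≠ 0 → a * i ^ 2 = 108 * D * p ^ 2 →
      ∃ f : ℤ, a = d * f ^ 2 := by
  obtain ⟨d, s, hds, hsq⟩ := Nat.sq_mul_squarefree (3 * D)
  have hd0 : d ≠ 0 := hsq.ne_zero
  refine ⟨d, ?_, ?_⟩
  · rintro ⟨e, he⟩
    apply h3
    refine ⟨s * e.natAbs, ?_⟩
    have h1 : d = e.natAbs * e.natAbs := by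
      have := congrArg Int.natAbs he
      rwa [Int.natAbs_natCast, Int.natAbs_mul] at this
    rw [← hds, h1]
    ring
  · intro a i p hi ha
    have hds' : (s : ℤ) ^ 2 * d = 3 * D := by exact_mod_cast hds
    have h1 : a * i ^ 2 = d * (6 * s * p) ^ 2 := by
      rw [ha]; linear_combination (-36 * p ^ 2) * hds'
    have h2 : i ^ 2 ∣ ((d : ℤ) * (6 * s * p)) ^ 2 := ⟨d * a, by linear_combination (-(d : ℤ)) * h1⟩
    obtain ⟨k, hk⟩ := (Int.pow_dvd_pow_iff two_ne_zero).mp h2
    have h3 : (d : ℤ) * a = k ^ 2 := by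
      have h4 : i ^ 2 * (d * a) = i ^ 2 * k ^ 2 := by
        have : i ^ 2 * k ^ 2 = ((d : ℤ) * (6 * s * p)) ^ 2 := by rw [hk]; ring
        rw [this]
        linear_combination (d : ℤ) * h1
      exact mul_left_cancel₀ (pow_ne_zero _ hi) h4
    have hsq' : Squarefree (d : ℤ) := Int.squarefree_natCast.mpr hsq
    have h5 : (d : ℤ) ∣ k := (hsq'.dvd_pow_iff_dvd two_ne_zero).mp ⟨a, h3.symm⟩
    obtain ⟨f, rfl⟩ := h5
    refine ⟨f, mul_left_cancel₀ (by exact_mod_cast hd0 : (d : ℤ) ≠ 0) ?_⟩
    rw [h3]; ring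

end Pool.Agent.Work.MuB
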