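import Pool.Agent.Work.MP_a4986b_nt.DThm

set_option autoImplicit false
set_option maxHeartbeats 400000

/-! # Theorem D, final form -/

namespace Pool.Agent.Work.MuB

open NumberField Module NumberField.InfinitePlace NumberField.Units Filter MeasureTheory
open scoped nonZeroDivisors Real Topology ENNReal

/-- the regulator of an imaginary quadratic field is `1` -/
theorem regulator_imag (k : Type) [Field k] [NumberField k] (h : Units.rank k = 0) :
    regulator k = 1 := by
  classical
  have hempty : IsEmpty (Fin (Units.rank k)) := by rw [h]; infer_instance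
  have e := equivFinRank (K := k)
  have hempty2 : IsEmpty {w : InfinitePlace k // w ≠ dirichletUnitTheorem.w₀} :=
    e.symm.isEmpty
  rw [regulator_eq_det k dirichletUnitTheorem.w₀ e.symm, Matrix.det_isEmpty, abs_one]

theorem resid_imag (k : Type) [Field k] [NumberField k] (hk : finrank ℚ k = 2)
    (him : nrComplexPlaces k = 1) :
    3 * resid k / (4 * π) = 3 / 2 * (classNumber k / (torsionOrder k * √|(discr k : ℝ)|)) := by
  have hr : nrRealPlaces k = 0 := by
    have := card_add_two_mul_card_eq_rank k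
    rw [hk, him] at this
    omega
  have hrk : Units.rank k = 0 := by
    rw [Units.rank, card_eq_nrRealPlaces_add_nrComplexPlaces, hr, him]
  rw [resid, regulator_imag k hrk, hr, him]
  have hπ : π ≠ 0 := Real.pi_ne_zero
  have h1 : (torsionOrder k : ℝ) ≠ 0 := by
    have := torsionOrder_ne_zero k
    exact_mod_cast this
  have h2 : √|(discr k : ℝ)| ≠ 0 := by
    have : (discr k : ℝ) ≠ 0 := by exact_mod_cast discr_ne_zero k
    positivity
  field_simp
  ring

/-- Theorem D -/
theorem imag_not_dvd (k : Type) [Field k] [NumberField k] (hk : finrank ℚ k = 2)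
    (him : nrComplexPlaces k = 1) {ε : ℝ} (hε : 0 < ε) :
    ∃ p0 : ℕ, ∀ (F : Type) [Field F] [NumberField F] (p : ℕ), p.Prime → p0 ≤ p →
      finrank ℚ F = 3 → ∀ f : ℤ, discr F = discr k * f ^ 2 →
        3 * (classNumber k : ℝ) * |(f : ℝ)| ≤ 2 * (1 - ε) * torsionOrder k * p →
        ¬ p ∣ Nat.card (ClassGroup (𝓞 F)) := by
  set h : ℝ := (classNumber k : ℝ) with hh
  set w : ℝ := (torsionOrder k : ℝ) with hw
  set s : ℝ := √|(discr k : ℝ)| with hs
  have hs0 : 0 < s := by
    have : (discr k : ℝ) ≠ 0 := by exact_mod_cast discr_ne_zero k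
    positivity
  have hh0 : 0 < h := by
    have := classNumber_pos k
    rw [hh]; exact_mod_cast this
  have hw0 : 0 < w := by
    have := torsionOrder_pos k
    rw [hw]; exact_mod_cast this
  have hA : 3 * resid k / (4 * π) < 3 / 2 * (h / (w * s)) * (1 + ε) := by
    rw [resid_imag k hk him]
    have : 0 < 3 / 2 * (h / (w * s)) := by positivity
    nlinarith
  obtain ⟨D0, hD0⟩ := class_le_imag k hk him hA
  obtain ⟨C, hC0, hC⟩ := class_le_gen ℚ 3
  set B : ℝ := C * √(max D0 1) * (1 + Real.log (max D0 1)) ^ 2 with hB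
  obtain ⟨p0, hp0⟩ := exists_nat_gt B
  refine ⟨p0, ?_⟩
  intro F _ _ p hp hpp hF f hf hle
  have hp0' : (0 : ℝ) < p := by exact_mod_cast hp.pos
  have hcard : 0 < Nat.card (ClassGroup (𝓞 F)) := Nat.card_pos
  suffices hlt : (Nat.card (ClassGroup (𝓞 F)) : ℝ) < p by
    intro hdvd
    have h1 := Nat.le_of_dvd hcard hdvd
    have h2 : (p : ℝ) ≤ Nat.card (ClassGroup (𝓞 F)) := by exact_mod_cast h1
    linarith
  by_cases hD : D0 ≤ |(discr F : ℝ)|
  · have h1 := hD0 F hF ⟨f, hf⟩ hD
    have h2 : √|(discr F : ℝ)| = s * |(f : ℝ)| := by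
      rw [hf]
      push_cast
      rw [abs_mul, abs_pow, Real.sqrt_mul (abs_nonneg _), Real.sqrt_sq (abs_nonneg _)]
    rw [h2] at h1
    have h3 : 3 / 2 * (h / (w * s)) * (1 + ε) * (s * |(f : ℝ)|) =
        (1 + ε) * (3 * h * |(f : ℝ)|) / (2 * w) := by
      field_simp
    rw [h3] at h1
    refine lt_of_le_of_lt h1 ?_
    rw [div_lt_iff₀ (by positivity)]
    calc (1 + ε) * (3 * h * |(f : ℝ)|) ≤ (1 + ε) * (2 * (1 - ε) * w * p) := by gcongr
      _ = (p * (2 * w)) * (1 - ε ^ 2) := by ring
      _ < (p * (2 * w)) * 1 := by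
        apply mul_lt_mul_of_pos_left _ (by positivity)
        nlinarith [sq_pos_of_pos hε]
      _ = p * (2 * w) := by ring
  · push Not at hD
    have h1 := hC F hF
    have hDF1 : (1 : ℝ) ≤ |(discr F : ℝ)| := by
      have h : (1 : ℤ) ≤ |discr F| := Int.one_le_abs (discr_ne_zero F)
      exact_mod_cast h
    have h2 : |(discr F : ℝ)| ≤ max D0 1 := hD.le.trans (le_max_left _ _)
    have h3 : (Nat.card (ClassGroup (𝓞 F)) : ℝ) ≤ B := by
      refine h1.trans ?_
      rw [hB]
      have h4 : 0 ≤ Real.log |(discr F : ℝ)| := Real.log_nonneg hDF1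
      have h5 : Real.log |(discr F : ℝ)| ≤ Real.log (max D0 1) :=
        Real.log_le_log (by linarith) h2
      gcongr
    have h4 : (p0 : ℝ) ≤ p := by exact_mod_cast hpp
    linarith

end Pool.Agent.Work.MuB
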