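import Pool.Agent.Work.MP_a4986b_nt.BConcl
import Pool.Agent.Work.MP_a4986b_nt.CCor
import Pool.Agent.Work.MP_a4986b_nt.CClos
import Pool.Agent.Work.MP_a4986b_nt.DNot

set_option autoImplicit false
set_option maxHeartbeats 400000

/-! # Theorem C, final form -/

namespace Pool.Agent.Work.MuB

open NumberField Module NumberField.InfinitePlace NumberField.Units

/-- conclusion for a cubic field `F` that is not Galois over `ℚ`: the conclusion `Extensions`
for `F`; and for the Galois closure `N` of `F` with quadratic subfield `Y` the exponents of `p` in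
the class numbers of `N Q_m` and `Y Q_m` are equal, and the conclusion `Extensions` holds for `N`
when the class number of `Y` is prime to `p` and exactly one prime of `N` lies above `p` -/
def CubicExtensions (p : ℕ) (F : Type) [Field F] [NumberField F] : Prop :=
  Extensions p F ∧
    (p ≠ 3 → ∀ (N : IntermediateField ℚ ℂ) [NumberField N] [IsGalois ℚ N], finrank ℚ N = 6 →
      Nonempty (F →+* N) → ∀ Y : IntermediateField ℚ ℂ, Y ≤ N → finrank ℚ Y = 2 →
        (∀ (m : ℕ) (E : IntermediateField ℚ ℂ),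
          E ≤ IntermediateField.adjoin ℚ {z : ℂ | z ^ (p ^ (m + 1)) = 1} →
          finrank ℚ E = p ^ m →
          padicValNat p (Nat.card (ClassGroup (𝓞 ↥(N ⊔ E)))) =
            padicValNat p (Nat.card (ClassGroup (𝓞 ↥(Y ⊔ E))))) ∧
        (¬ p ∣ Nat.card (ClassGroup (𝓞 Y)) →
          (∃! P : Ideal (𝓞 N), P.IsPrime ∧ (p : 𝓞 N) ∈ P) → Extensions p N))

theorem cubicExtensions {F : Type} [Field F] [NumberField F] {p : ℕ} (hp : p.Prime) (hp2 : p ≠ 2)
    (hF3 : finrank ℚ F = 3) (hng : ¬ IsGalois ℚ F)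
    (hF : ¬ p ∣ Nat.card (ClassGroup (𝓞 F)))
    (hone : ∃! P : Ideal (𝓞 F), P.IsPrime ∧ (p : 𝓞 F) ∈ P) : CubicExtensions p F := by
  refine ⟨extensions hp hp2 hF hone, ?_⟩
  intro hp3 N _ _ hN ⟨f⟩ Y hYN hY
  have key := cubic_closure hp hp2 hp3 hF3 hng hone hF N hN f Y hYN hY
  refine ⟨fun m E hE hEd => key m E hE hEd, ?_⟩
  intro hYp honeN
  refine extensions hp hp2 ?_ honeN
  have h0 := key 0 ⊥ bot_le (by simp)
  rw [sup_bot_eq, sup_bot_eq] at h0
  intro hdvd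
  have hpp := Fact.mk hp
  have h1 : padicValNat p (Nat.card (ClassGroup (𝓞 Y))) = 0 := padicValNat.eq_zero_of_not_dvd hYp
  rw [h1] at h0
  have h2 : Nat.card (ClassGroup (𝓞 N)) ≠ 0 := Nat.card_pos.ne'
  rcases padicValNat.eq_zero_iff.mp h0 with h | h | h
  · exact hp.one_lt.ne' h
  · exact h2 h
  · exact h hdvd

theorem not_galois_of_discr {d : ℤ} (hd : ¬ IsSquare d) {F : Type} [Field F] [NumberField F]
    (hF : finrank ℚ F = 3) (f : ℤ) (hf : discr F = d * f ^ 2) : ¬ IsGalois ℚ F := by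
  obtain ⟨k, _, _, hk, s, hs⟩ := cls_quad d hd
  exact (exists_closure d hd k hk s hs F hF f hf).1

theorem cubic_fields :
    (∀ d : ℤ, ¬ IsSquare d → ∃ c : ℝ, 0 < c ∧ ∀ (F : Type) [Field F] [NumberField F] (p : ℕ),
      p.Prime → p ≠ 2 → finrank ℚ F = 3 → (∃ f : ℤ, discr F = d * f ^ 2) →
      |(discr F : ℝ)| ≤ c * (p : ℝ) ^ 2 * (1 + Real.log p) ^ (2 * (Units.rank F - 1)) →
      (∃! P : Ideal (𝓞 F), P.IsPrime ∧ (p : 𝓞 F) ∈ P) → CubicExtensions p F) ∧
    (∀ (k : Type) [Field k] [NumberField k], finrank ℚ k = 2 → nrComplexPlaces k = 1 →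
      ∀ ε : ℝ, 0 < ε → ∃ p0 : ℕ, ∀ (F : Type) [Field F] [NumberField F] (p : ℕ), p.Prime →
        p0 ≤ p → finrank ℚ F = 3 → ∀ f : ℤ, discr F = discr k * f ^ 2 →
        3 * (Nat.card (ClassGroup (𝓞 k)) : ℝ) * |(f : ℝ)| ≤ 2 * (1 - ε) * torsionOrder k * p →
        (∃! P : Ideal (𝓞 F), P.IsPrime ∧ (p : 𝓞 F) ∈ P) → CubicExtensions p F) ∧
    (∀ D : ℕ, 0 < D → ¬ IsSquare (3 * D) → ∃ p0 : ℕ, ∀ p : ℕ, p.Prime → p0 ≤ p →
      ∀ x y : ℤ, x ^ 2 + D * y ^ 2 = p → ∀ (F : Type) [Field F] [NumberField F],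
        finrank ℚ F = 3 → (∃ t : F, t ^ 3 = 3 * p * t + 2 * p * x) →
        (∃! P : Ideal (𝓞 F), P.IsPrime ∧ (p : 𝓞 F) ∈ P) ∧ CubicExtensions p F) := by
  refine ⟨?_, ?_, ?_⟩
  · intro d hd
    obtain ⟨c, hc, h⟩ := cubic_not_dvd d hd
    refine ⟨c, hc, ?_⟩
    intro F _ _ p hp hp2 hF ⟨f, hf⟩ hD hone
    exact cubicExtensions hp hp2 hF (not_galois_of_discr hd hF f hf)
      (h F p hp hF ⟨f, hf⟩ hD) hone
  · intro k _ _ hk him ε hε
    obtain ⟨p0, h⟩ := imag_not_dvd k hk him hε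
    refine ⟨max p0 3, ?_⟩
    intro F _ _ p hp hpp hF f hf hle hone
    have hsk : (discr k).sign = -1 := by rw [sign_discr, him, pow_one]
    have hdk : discr k < 0 := Int.sign_eq_neg_one_iff_neg.mp hsk
    have hnsq : ¬ IsSquare (discr k) := by
      rintro ⟨a, ha⟩
      nlinarith [mul_self_nonneg a]
    have hp3 : 3 ≤ p := (le_max_right _ _).trans hpp
    refine cubicExtensions hp (by omega) hF (not_galois_of_discr hnsq hF f hf)
      (h F p hp ((le_max_left _ _).trans hpp) hF f hf ?_) hone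
    rw [NumberField.classNumber, ← Nat.card_eq_fintype_card]
    exact hle
  · intro D hD h3
    obtain ⟨p0, h⟩ := cubic_family D hD h3
    obtain ⟨d, hd, hdf⟩ := exists_squarefree_part hD h3
    refine ⟨max p0 (2 * D + 3), ?_⟩
    intro p hp hpp x y hxy F _ _ hF ⟨t, ht⟩
    have hp0 : p0 ≤ p := (le_max_left _ _).trans hpp
    have hpD : 2 * D + 3 ≤ p := (le_max_right _ _).trans hpp
    obtain ⟨h1, h2⟩ := h p hp hp0 x y hxy F hF t ht
    obtain ⟨i, hi0, hi⟩ := family_discr hF hp hD (by omega) x y hxy t ht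
    obtain ⟨f, hf⟩ := hdf _ i p hi0 hi
    exact ⟨h2, cubicExtensions hp (by omega) hF (not_galois_of_discr hd hF f hf) h1 h2⟩

end Pool.Agent.Work.MuB
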