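import Mathlib

set_option autoImplicit false
set_option maxHeartbeats 400000

/-! # Skeleton (statements only, NEVER import): cubic fields with fixed quadratic resolvent

Final theorem: for every non-square integer `d` there is `c > 0` such that for every odd prime `p`
and every cubic field `F` with `D_F = d f²`, exactly one prime above `p` and
`|D_F| ≤ c p² (1 + log p)^(2 (r_F - 1))` the class number of `F` is prime to `p`. -/

namespace Pool.Agent.Work.MuB

open NumberField Module MeasureTheory NumberField.InfinitePlace NumberField.Units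
open scoped nonZeroDivisors ENNReal NNReal Real Pointwise

section Prim

/-- P1: the discriminant of `1, u, ..., u^(n-1)` is `∏_{i ≠ j} (u_i - u_j)` -/
theorem discr_le_of_primitive (F : Type*) [Field F] [NumberField F] (u : 𝓞 F)
    (hu : IntermediateField.adjoin ℚ {(u : F)} = ⊤) (B : ℝ) (hB : 1 ≤ B)
    (h : ∀ w : InfinitePlace F, w (u : F) ≤ B) :
    |(discr F : ℝ)| ≤ (2 * B) ^ (finrank ℚ F * (finrank ℚ F - 1)) := by
  sorry

/-- P2: regulator of a primitive field (no intermediate fields), box `|x_w| < b` -/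
theorem regulator_ge_of_primitive (n : ℕ) : ∃ C c : ℝ, 1 ≤ C ∧ 0 < c ∧
    ∀ (F : Type) [Field F] [NumberField F], finrank ℚ F = n →
      (∀ u : F, u ∉ Set.range (algebraMap ℚ F) → IntermediateField.adjoin ℚ {u} = ⊤) →
      C ≤ |(discr F : ℝ)| →
      c * (1 + Real.log |(discr F : ℝ)|) ^ Units.rank F ≤ regulator F := by
  sorry

end Prim

section Cubic

variable {F k L : Type*} [Field F] [NumberField F] [Field k] [NumberField k] [Field L]
  [NumberField L] [Algebra F L] [Algebra k L] [IsGalois ℚ L]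

/-- T1: three primes above `q` in `F`: all have `e = f = 1`, the decomposition group of a prime
of `L` lies in all conjugates of `Gal(L/F)`, so it is trivial and `q` splits in `k` -/
theorem split_of_three (hF : finrank ℚ F = 3) (hk : finrank ℚ k = 2) (hL : finrank ℚ L = 6)
    (hn : ¬ IsGalois ℚ F) {q : ℕ} (hq : q.Prime)
    (h : 3 ≤ {P : Ideal (𝓞 F) | P.IsPrime ∧ (q : 𝓞 F) ∈ P}.ncard) :
    2 ≤ {P : Ideal (𝓞 k) | P.IsPrime ∧ (q : 𝓞 k) ∈ P}.ncard := by
  sorry

/-- T2: if `q` is inert in `k` then `F` has at most one prime of norm `q` above `q`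
(`q = P₁² P₂` would make the ramification index in `L` even, but it divides `3`) -/
theorem one_of_inert (hF : finrank ℚ F = 3) (hk : finrank ℚ k = 2) (hL : finrank ℚ L = 6)
    (hn : ¬ IsGalois ℚ F) {q : ℕ} (hq : q.Prime)
    (h : ∀ P : Ideal (𝓞 k), Ideal.absNorm P ≠ q) (P Q : Ideal (𝓞 F))
    (hP : Ideal.absNorm P = q) (hQ : Ideal.absNorm Q = q) : P = Q := by
  sorry

/-- T3: injection of the ideals of `F` into pairs (positive integer, ideal of `k`) not increasing
norms: primes of `F` above `q` are sent injectively to `q` or to primes of `k` above `q`, not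
increasing norms -/
theorem tsum_cubic_le (hF : finrank ℚ F = 3) (hk : finrank ℚ k = 2) (hL : finrank ℚ L = 6)
    (hn : ¬ IsGalois ℚ F) (φ : ℕ → ℝ≥0∞) (hφ : ∀ m n : ℕ, 1 ≤ m → m ≤ n → φ n ≤ φ m) :
    ∑' I : (Ideal (𝓞 F))⁰, φ (Ideal.absNorm (I : Ideal (𝓞 F))) ≤
      ∑' x : ℕ+ × (Ideal (𝓞 k))⁰, φ (x.1 * Ideal.absNorm (x.2 : Ideal (𝓞 k))) := by
  sorry

end Cubic

/-- T4: the quadratic resolvent -/
theorem exists_closure (d : ℤ) (hd : ¬ IsSquare d) (k : Type) [Field k] [NumberField k]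
    (hk : finrank ℚ k = 2) (s : k) (hs : s ^ 2 = (d : k)) (F : Type) [Field F] [NumberField F]
    (hF : finrank ℚ F = 3) (f : ℤ) (hf : discr F = d * f ^ 2) :
    ¬ IsGalois ℚ F ∧ ∃ (L : Type) (_ : Field L) (_ : NumberField L) (_ : Algebra F L)
      (_ : Algebra k L), IsGalois ℚ L ∧ finrank ℚ L = 6 := by
  sorry

/-- T5: class number bound -/
theorem cubic_class_le (d : ℤ) (hd : ¬ IsSquare d) : ∃ C : ℝ, 0 < C ∧
    ∀ (F : Type) [Field F] [NumberField F], finrank ℚ F = 3 → (∃ f : ℤ, discr F = d * f ^ 2) →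
      (Nat.card (ClassGroup (𝓞 F)) : ℝ) * (1 + Real.log |(discr F : ℝ)|) ^ (Units.rank F - 1) ≤
        C * √|(discr F : ℝ)| := by
  sorry

/-- T6 -/
theorem cubic_not_dvd (d : ℤ) (hd : ¬ IsSquare d) : ∃ c : ℝ, 0 < c ∧
    ∀ (F : Type) [Field F] [NumberField F] (p : ℕ), p.Prime → finrank ℚ F = 3 →
      (∃ f : ℤ, discr F = d * f ^ 2) →
      |(discr F : ℝ)| ≤ c * (p : ℝ) ^ 2 * (1 + Real.log p) ^ (2 * (Units.rank F - 1)) →
      ¬ p ∣ Nat.card (ClassGroup (𝓞 F)) := by
  sorry

end Pool.Agent.Work.MuB
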