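import Pool.Agent.Work.MP_a4986b_nt.Mult
import Pool.Agent.Work.MP_a4986b_nt.BB

set_option autoImplicit false
set_option maxHeartbeats 400000

/-! # D4: comparison of the number of ideals of given norm with `bb`, from the prime power cases -/

namespace Pool.Agent.Work.Mu22

open NumberField Module MeasureTheory
open scoped Pointwise nonZeroDivisors ENNReal Real

section

variable {K : Type*} [Field K] [NumberField K]

/-- D4 from the prime power cases -/
theorem card_norm_le_bb_of {p : ℕ}
    (d2a : ∀ {q : ℕ}, q.Prime → ∀ k : ℕ,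
      Nat.card {I : Ideal (𝓞 K) // Ideal.absNorm I = q ^ k} ≤ (k + 2).choose 2)
    (d2b : ∀ k : ℕ, Nat.card {I : Ideal (𝓞 K) // Ideal.absNorm I = 3 ^ k} ≤ k + 1)
    (d2c : ∀ {q : ℕ}, q.Prime → q % 3 = 2 → q ≠ p → ∀ k : ℕ,
      Nat.card {I : Ideal (𝓞 K) // Ideal.absNorm I = q ^ k} ≤ k / 2 + 1)
    (d2d : ∀ k : ℕ, Nat.card {I : Ideal (𝓞 K) // Ideal.absNorm I = p ^ k} ≤ 1)
    {n : ℕ} (hn : n ≠ 0) :
    (Nat.card {I : Ideal (𝓞 K) // Ideal.absNorm I = n} : ℤ) ≤ bb n := by
  induction n using Nat.recOnPosPrimePosCoprime with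
  | zero => exact absurd rfl hn
  | one =>
    have h := d2a Nat.prime_two 0
    rw [pow_zero] at h
    have hb : bb 1 = 1 := by simp [bb, chi3]
    rw [hb]
    exact_mod_cast h
  | prime_pow q k hq hk =>
    by_cases h3 : q = 3
    · subst h3
      rw [bb_pow_three]
      exact_mod_cast d2b k
    · have hmod : q % 3 = 1 ∨ q % 3 = 2 := by
        have : q % 3 ≠ 0 := by
          intro h0
          have hd : 3 ∣ q := Nat.dvd_of_mod_eq_zero h0
          exact h3 ((Nat.prime_dvd_prime_iff_eq Nat.prime_three hq).1 hd).symm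
        omega
      rcases hmod with h1 | h2
      · rw [bb_pow_one hq h1]
        exact_mod_cast d2a hq k
      · rw [bb_pow_two hq h2]
        by_cases hqp : q = p
        · subst hqp
          have := d2d k
          have h4 : Nat.card {I : Ideal (𝓞 K) // Ideal.absNorm I = q ^ k} ≤ k / 2 + 1 := by omega
          exact_mod_cast h4
        · exact_mod_cast d2c hq h2 hqp k
  | coprime a b ha hb hab iha ihb =>
    have ha0 : a ≠ 0 := by omega
    have hb0 : b ≠ 0 := by omega
    rw [card_norm_mul ha0 hb0 hab, bb_mul hab]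
    push_cast
    exact mul_le_mul (iha ha0) (ihb hb0) (Int.natCast_nonneg _)
      ((Int.natCast_nonneg _).trans (iha ha0))

end

end Pool.Agent.Work.Mu22
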