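import Pool.Agent.Work.MP_a4986b_nt.CubicT

set_option autoImplicit false
set_option maxHeartbeats 400000

/-! # H1 and S1: discriminant and signature of a pure cubic field of prime radicand -/

namespace Pool.Agent.Work.Mu22

open NumberField Module Polynomial
open scoped Pointwise nonZeroDivisors

variable {K : Type*} [Field K] [NumberField K]

omit [NumberField K] in
theorem cube_coe {p : ℕ} (t : 𝓞 K) (ht : t ^ 3 = p) : (t : K) ^ 3 = p := by
  have h := congrArg (algebraMap (𝓞 K) K) ht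
  rw [map_pow, map_natCast] at h
  exact h

/-- the discriminant divides `27 p ^ 2` up to a square -/
theorem discr_mul_sq (h3 : finrank ℚ K = 3) {p : ℕ} (hp : p.Prime) (t : 𝓞 K)
    (ht : t ^ 3 = p) : ∃ r : ℤ, (r : ℚ) ^ 2 * (discr K : ℚ) = -27 * (p : ℚ) ^ 2 := by
  classical
  obtain ⟨B, hB, hdim⟩ := exists_powerBasis h3 hp (t : K) (cube_coe t ht)
  have h1 := discr_powerBasis hp (t : K) (cube_coe t ht) B hB hdim
  let e := (integralBasis K).indexEquiv B.basis
  let b' := B.basis.reindex e.symm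
  let Q : Matrix _ _ ℤ := fun i j => (RingOfIntegers.basis K).repr (t ^ ((e j : Fin B.dim) : ℕ)) i
  refine ⟨Q.det, ?_⟩
  have h2 : (integralBasis K).toMatrix b' = Q.map (Int.castRingHom ℚ) := by
    ext i j
    rw [Basis.toMatrix_apply, Matrix.map_apply]
    have h3 : b' j = algebraMap (𝓞 K) K (t ^ ((e j : Fin B.dim) : ℕ)) := by
      simp only [b', Basis.reindex_apply, Equiv.symm_symm, PowerBasis.coe_basis, hB, map_pow]
    rw [h3, integralBasis_repr_apply]
    rfl
  have h4 : Algebra.discr ℚ b' = Algebra.discr ℚ B.basis := by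
    rw [Basis.coe_reindex, Algebra.discr_reindex]
  have h5 := Algebra.discr_of_matrix_vecMul (integralBasis K) ((integralBasis K).toMatrix b')
  rw [Basis.toMatrix_map_vecMul, h4, h1, h2, ← RingHom.mapMatrix_apply, ← RingHom.map_det,
    ← coe_discr] at h5
  exact h5.symm

/-- H1: the discriminant -/
theorem discr_le (h3 : finrank ℚ K = 3) {p : ℕ} (hp : p.Prime) (t : 𝓞 K) (ht : t ^ 3 = p) :
    |(discr K : ℝ)| ≤ 27 * (p : ℝ) ^ 2 := by
  obtain ⟨r, hr⟩ := discr_mul_sq h3 hp t ht
  have hr' : r ^ 2 * discr K = -27 * (p : ℤ) ^ 2 := by exact_mod_cast hr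
  have hr0 : r ≠ 0 := by
    rintro rfl
    have : (p : ℤ) ≠ 0 := by exact_mod_cast hp.ne_zero
    have h := hr'.symm
    simp at h
    exact this (by exact_mod_cast h)
  have h1 : 1 ≤ r ^ 2 := by
    have := sq_nonneg r
    have h2 : r ^ 2 ≠ 0 := pow_ne_zero 2 hr0
    omega
  have h2 : |discr K| ≤ 27 * (p : ℤ) ^ 2 := by
    have h3 : r ^ 2 * |discr K| = 27 * (p : ℤ) ^ 2 := by
      rw [← abs_of_nonneg (sq_nonneg r), ← abs_mul, hr', abs_mul]
      simp
    rw [← h3]
    have := abs_nonneg (discr K)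
    nlinarith
  exact_mod_cast h2

/-- S1: the signature -/
theorem exists_embeddings (h3 : finrank ℚ K = 3) {p : ℕ} (hp : p.Prime) (t : 𝓞 K)
    (ht : t ^ 3 = p) :
    (∃ _ : K →+* ℝ, True) ∧ ∃ ψ : K →+* ℂ, ¬ ComplexEmbedding.IsReal ψ := by
  obtain ⟨B, hB, hdim⟩ := exists_powerBasis h3 hp (t : K) (cube_coe t ht)
  have hmin : minpoly ℚ B.gen = X ^ 3 - C (p : ℚ) := by
    rw [hB, minpoly_rat hp _ (cube_coe t ht)]
  set s : ℝ := (p : ℝ) ^ ((1 : ℝ) / 3) with hs
  have hp0 : (0 : ℝ) < p := by exact_mod_cast hp.pos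
  have hs3 : s ^ 3 = p := by
    rw [hs, ← Real.rpow_natCast, ← Real.rpow_mul hp0.le]
    norm_num
  have hs0 : 0 < s := Real.rpow_pos_of_pos hp0 _
  refine ⟨⟨(B.lift s ?_).toRingHom, trivial⟩, ?_⟩
  · rw [hmin]
    simp [hs3]
  · set z : ℂ := s * ⟨-1 / 2, √3 / 2⟩ with hz
    have hz3 : z ^ 3 = p := by
      have h1 : (⟨-1 / 2, √3 / 2⟩ : ℂ) ^ 3 = 1 := by
        have h3 : √3 * √3 = 3 := Real.mul_self_sqrt (by norm_num)
        apply Complex.ext
        · simp [pow_succ, Complex.mul_re, Complex.mul_im]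
          linear_combination (3 / 8 : ℝ) * h3
        · simp [pow_succ, Complex.mul_re, Complex.mul_im]
          linear_combination (-√3 / 8 : ℝ) * h3
      rw [hz, mul_pow, h1, mul_one]
      exact_mod_cast hs3
    have hroot : aeval z (minpoly ℚ B.gen) = 0 := by
      rw [hmin]
      simp [hz3]
    refine ⟨(B.lift z hroot).toRingHom, ?_⟩
    intro h
    rw [ComplexEmbedding.isReal_iff] at h
    have h1 := congrArg (fun f : K →+* ℂ => f B.gen) h
    simp only [ComplexEmbedding.conjugate_coe_eq] at h1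
    have h2 : (B.lift z hroot).toRingHom B.gen = z := B.lift_gen z hroot
    rw [h2, Complex.conj_eq_iff_im] at h1
    rw [hz] at h1
    simp at h1
    exact hs0.ne' h1

end Pool.Agent.Work.Mu22
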