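import Pool.Agent.Work.MP_a4986b_nt.Defs

set_option autoImplicit false
set_option maxHeartbeats 400000

/-! # D2: prime ideals of pure cubic fields and the number of ideals of prime power norm -/

namespace Pool.Agent.Work.Mu22

open NumberField Module MeasureTheory UniqueFactorizationMonoid
open scoped Pointwise nonZeroDivisors ENNReal Real

section

variable {K : Type*} [Field K] [NumberField K]

open Classical in
/-- the primes above `q` -/
noncomputable def pS (K : Type*) [Field K] [NumberField K] (q : ℕ) : Finset (Ideal (𝓞 K)) :=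
  (normalizedFactors (Ideal.span {(q : 𝓞 K)})).toFinset

/-- exponent of `q` in the norm -/
noncomputable def ff (q : ℕ) (P : Ideal (𝓞 K)) : ℕ := (Ideal.absNorm P).factorization q

open Classical in
/-- exponent of `P` in `I` -/
noncomputable def cc (I P : Ideal (𝓞 K)) : ℕ := (normalizedFactors I).count P

theorem span_ne {q : ℕ} (hq : q.Prime) : Ideal.span {(q : 𝓞 K)} ≠ ⊥ := by
  rw [Ne, Ideal.span_singleton_eq_bot]
  exact_mod_cast hq.ne_zero

theorem mem_pS {q : ℕ} (hq : q.Prime) (P : Ideal (𝓞 K)) :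
    P ∈ pS K q ↔ P.IsPrime ∧ (q : 𝓞 K) ∈ P := by
  classical
  rw [pS, Multiset.mem_toFinset, Ideal.mem_normalizedFactors_iff (span_ne hq),
    Ideal.span_singleton_le_iff_mem]

theorem absNorm_span {q : ℕ} (h3 : finrank ℚ K = 3) :
    Ideal.absNorm (Ideal.span {(q : 𝓞 K)}) = q ^ 3 := by
  rw [Ideal.absNorm_span_natCast, RingOfIntegers.rank, h3]

theorem ne_bot_of_norm {q : ℕ} (hq : q.Prime) {k : ℕ} {I : Ideal (𝓞 K)}
    (hI : Ideal.absNorm I = q ^ k) : I ≠ ⊥ := by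
  intro h
  rw [h, Ideal.absNorm_bot] at hI
  exact (pow_ne_zero k hq.ne_zero) hI.symm

theorem mem_of_dvd {q : ℕ} {k : ℕ} {I P : Ideal (𝓞 K)}
    (hI : Ideal.absNorm I = q ^ k) (hP : P.IsPrime) (hPI : I ≤ P) : (q : 𝓞 K) ∈ P := by
  have h1 : ((Ideal.absNorm I : ℕ) : 𝓞 K) ∈ P := hPI (Ideal.absNorm_mem I)
  rw [hI, Nat.cast_pow] at h1
  exact hP.mem_of_pow_mem _ h1

theorem norm_pow {q : ℕ} (h3 : finrank ℚ K = 3) (hq : q.Prime) {P : Ideal (𝓞 K)}
    (hP : P ∈ pS K q) : ∃ f, 1 ≤ f ∧ Ideal.absNorm P = q ^ f ∧ ff q P = f := by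
  rw [mem_pS hq] at hP
  have h1 : Ideal.absNorm P ∣ q ^ 3 := by
    rw [← absNorm_span (K := K) h3]
    apply Ideal.absNorm_dvd_absNorm_of_le
    rw [Ideal.span_singleton_le_iff_mem]
    exact hP.2
  obtain ⟨f, -, hf⟩ := (Nat.dvd_prime_pow hq).1 h1
  refine ⟨f, ?_, hf, ?_⟩
  · rcases Nat.eq_zero_or_pos f with h | h
    · subst h
      rw [pow_zero, Ideal.absNorm_eq_one_iff] at hf
      exact absurd hf hP.1.ne_top
    · exact h
  · rw [ff, hf, hq.factorization_pow, Finsupp.single_eq_same]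

theorem ff_pos {q : ℕ} (h3 : finrank ℚ K = 3) (hq : q.Prime) {P : Ideal (𝓞 K)}
    (hP : P ∈ pS K q) : 1 ≤ ff q P := by
  obtain ⟨f, h1, -, h2⟩ := norm_pow h3 hq hP
  omega

/-- the fundamental identity -/
theorem sum_cc {q : ℕ} (hq : q.Prime) {k : ℕ} {I : Ideal (𝓞 K)}
    (hI : Ideal.absNorm I = q ^ k) : ∑ P ∈ pS K q, cc I P * ff q P = k := by
  classical
  have hI0 : I ≠ ⊥ := ne_bot_of_norm hq hI
  have h1 : (normalizedFactors I).toFinset ⊆ pS K q := by
    intro P hP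
    rw [Multiset.mem_toFinset, Ideal.mem_normalizedFactors_iff hI0] at hP
    rw [mem_pS hq]
    exact ⟨hP.1, mem_of_dvd hI hP.1 hP.2⟩
  have h2 : ∑ P ∈ pS K q, cc I P * ff q P =
      ∑ P ∈ (normalizedFactors I).toFinset, cc I P * ff q P := by
    symm
    apply Finset.sum_subset h1
    intro P _ hP
    rw [Multiset.mem_toFinset] at hP
    rw [cc, Multiset.count_eq_zero_of_notMem hP, zero_mul]
  rw [h2]
  have h3 : ((normalizedFactors I).map (ff q)).sum =
      ∑ P ∈ (normalizedFactors I).toFinset, cc I P * ff q P := by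
    rw [Finset.sum_multiset_map_count]
    rfl
  rw [← h3]
  have h4 : ∀ m : Multiset (Ideal (𝓞 K)), (∀ P ∈ m, P ≠ ⊥) →
      (m.map (ff q)).sum = (Ideal.absNorm m.prod).factorization q := by
    intro m
    induction m using Multiset.induction_on with
    | empty => intro _; simp
    | cons a m ih =>
      intro hm
      have ha : a ≠ ⊥ := hm a (Multiset.mem_cons_self a m)
      have hm' : ∀ P ∈ m, P ≠ ⊥ := fun P hP => hm P (Multiset.mem_cons_of_mem hP)
      have hp : m.prod ≠ ⊥ := by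
        intro h0
        have : (0 : Ideal (𝓞 K)) ∈ m := Multiset.prod_eq_zero_iff.1 h0
        exact hm' _ this rfl
      rw [Multiset.map_cons, Multiset.sum_cons, Multiset.prod_cons, map_mul,
        Nat.factorization_mul (by rwa [Ne, Ideal.absNorm_eq_zero_iff])
          (by rwa [Ne, Ideal.absNorm_eq_zero_iff]), Finsupp.add_apply, ih hm']
      rfl
  rw [h4 _ (fun P hP h0 => by
    rw [Ideal.mem_normalizedFactors_iff hI0] at hP
    rw [h0] at hP
    exact hI0 (le_bot_iff.1 hP.2))]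
  have h5 : (normalizedFactors I).prod = I := by
    have := prod_normalizedFactors (show I ≠ 0 from hI0)
    exact associated_iff_eq.1 this
  rw [h5, hI, hq.factorization_pow, Finsupp.single_eq_same]

theorem ext_cc {q : ℕ} (hq : q.Prime) {k : ℕ} {I J : Ideal (𝓞 K)}
    (hI : Ideal.absNorm I = q ^ k) (hJ : Ideal.absNorm J = q ^ k)
    (h : ∀ P ∈ pS K q, cc I P = cc J P) : I = J := by
  classical
  have hI0 : I ≠ ⊥ := ne_bot_of_norm hq hI
  have hJ0 : J ≠ ⊥ := ne_bot_of_norm hq hJ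
  have h1 : normalizedFactors I = normalizedFactors J := by
    ext P
    by_cases hP : P ∈ pS K q
    · exact h P hP
    · have e1 : P ∉ normalizedFactors I := by
        intro h2
        rw [Ideal.mem_normalizedFactors_iff hI0] at h2
        exact hP ((mem_pS hq P).2 ⟨h2.1, mem_of_dvd hI h2.1 h2.2⟩)
      have e2 : P ∉ normalizedFactors J := by
        intro h2
        rw [Ideal.mem_normalizedFactors_iff hJ0] at h2
        exact hP ((mem_pS hq P).2 ⟨h2.1, mem_of_dvd hJ h2.1 h2.2⟩)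
      rw [Multiset.count_eq_zero_of_notMem e1, Multiset.count_eq_zero_of_notMem e2]
  have a1 := prod_normalizedFactors (show I ≠ 0 from hI0)
  have a2 := prod_normalizedFactors (show J ≠ 0 from hJ0)
  rw [associated_iff_eq] at a1 a2
  rw [← a1, ← a2, h1]

/-- `∑ e f = 3` -/
theorem sum_ef {q : ℕ} (h3 : finrank ℚ K = 3) (hq : q.Prime) :
    ∑ P ∈ pS K q, cc (Ideal.span {(q : 𝓞 K)}) P * ff q P = 3 :=
  sum_cc hq (absNorm_span h3)

theorem cc_pos {q : ℕ} {P : Ideal (𝓞 K)} (hP : P ∈ pS K q) :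
    1 ≤ cc (Ideal.span {(q : 𝓞 K)}) P := by
  classical
  rw [pS, Multiset.mem_toFinset] at hP
  exact Multiset.one_le_count_iff_mem.2 hP

theorem card_le_three {q : ℕ} (h3 : finrank ℚ K = 3) (hq : q.Prime) : (pS K q).card ≤ 3 := by
  rw [← sum_ef h3 hq, Finset.card_eq_sum_ones]
  apply Finset.sum_le_sum
  intro P hP
  exact Nat.one_le_iff_ne_zero.2 (Nat.mul_ne_zero (by have := cc_pos hP; omega)
    (by have := ff_pos h3 hq hP; omega))

theorem card_le_of_inj {α β : Type*} (f : α → β) (T : Finset β) (hf : Function.Injective f)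
    (hT : ∀ a, f a ∈ T) : Nat.card α ≤ T.card := by
  have h := Nat.card_le_card_of_injective (fun a => (⟨f a, hT a⟩ : T))
    (fun a b hab => hf (congrArg Subtype.val hab))
  simpa using h

/-- one prime above `q` -/
theorem card_of_one {q : ℕ} (h3 : finrank ℚ K = 3) (hq : q.Prime) {P : Ideal (𝓞 K)}
    (hS : pS K q = {P}) (k : ℕ) :
    Nat.card {I : Ideal (𝓞 K) // Ideal.absNorm I = q ^ k} ≤ 1 := by
  have hf := ff_pos h3 hq (K := K) (P := P) (by rw [hS]; exact Finset.mem_singleton_self P)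
  have h := card_le_of_inj (α := {I : Ideal (𝓞 K) // Ideal.absNorm I = q ^ k}) (β := ℕ)
    (fun _ => 0) {0} ?_ (fun _ => by simp)
  · simpa using h
  · intro I J _
    apply Subtype.ext
    apply ext_cc hq I.2 J.2
    intro Q hQ
    rw [hS, Finset.mem_singleton] at hQ
    subst hQ
    have h1 := sum_cc hq I.2
    have h2 := sum_cc hq J.2
    rw [hS, Finset.sum_singleton] at h1 h2
    exact Nat.eq_of_mul_eq_mul_right hf (h1.trans h2.symm)

/-- two primes above `q` -/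
theorem card_of_two {q : ℕ} (h3 : finrank ℚ K = 3) (hq : q.Prime) {P Q : Ideal (𝓞 K)}
    (hPQ : P ≠ Q) (hS : pS K q = {P, Q}) (k : ℕ) :
    Nat.card {I : Ideal (𝓞 K) // Ideal.absNorm I = q ^ k} ≤ k / ff q P + 1 := by
  have hf := ff_pos h3 hq (K := K) (P := P) (by rw [hS]; simp)
  have hg := ff_pos h3 hq (K := K) (P := Q) (by rw [hS]; simp)
  have h := card_le_of_inj (α := {I : Ideal (𝓞 K) // Ideal.absNorm I = q ^ k}) (β := ℕ)
    (fun I => cc I.1 P) (Finset.range (k / ff q P + 1)) ?_ ?_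
  · simpa using h
  · intro I J hIJ
    apply Subtype.ext
    apply ext_cc hq I.2 J.2
    have h1 := sum_cc hq I.2
    have h2 := sum_cc hq J.2
    rw [hS, Finset.sum_pair hPQ] at h1 h2
    have h4 : cc I.1 P = cc J.1 P := hIJ
    intro R hR
    rw [hS, Finset.mem_insert, Finset.mem_singleton] at hR
    rcases hR with rfl | rfl
    · exact h4
    · rw [h4] at h1
      have h5 : cc I.1 R * ff q R = cc J.1 R * ff q R := by omega
      exact Nat.eq_of_mul_eq_mul_right hg h5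
  · intro I
    have h1 := sum_cc hq I.2
    rw [hS, Finset.sum_pair hPQ] at h1
    rw [Finset.mem_range, Nat.lt_succ_iff, Nat.le_div_iff_mul_le hf]
    omega

theorem sum_sub_choose (k : ℕ) : ∑ a ∈ Finset.range (k + 1), (k + 1 - a) = (k + 2).choose 2 := by
  induction k with
  | zero => simp
  | succ k ih =>
    rw [Finset.sum_range_succ, Nat.choose_succ_succ' (k + 1 + 1) 1, Nat.choose_one_right, ← ih]
    have : ∑ a ∈ Finset.range (k + 1), (k + 1 + 1 - a) =
        ∑ a ∈ Finset.range (k + 1), (1 + (k + 1 - a)) := by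
      apply Finset.sum_congr rfl
      intro a ha
      rw [Finset.mem_range] at ha
      omega
    rw [this, Finset.sum_add_distrib]
    simp only [Finset.sum_const, Finset.card_range, smul_eq_mul, mul_one]
    omega

/-- three primes above `q` -/
theorem card_of_three {q : ℕ} (h3 : finrank ℚ K = 3) (hq : q.Prime) {P Q R : Ideal (𝓞 K)}
    (hPQ : P ≠ Q) (hPR : P ≠ R) (hQR : Q ≠ R) (hS : pS K q = {P, Q, R}) (k : ℕ) :
    Nat.card {I : Ideal (𝓞 K) // Ideal.absNorm I = q ^ k} ≤ (k + 2).choose 2 := by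
  have hf := ff_pos h3 hq (K := K) (P := P) (by rw [hS]; simp)
  have hg := ff_pos h3 hq (K := K) (P := Q) (by rw [hS]; simp)
  have hh := ff_pos h3 hq (K := K) (P := R) (by rw [hS]; simp)
  have key : ∀ I : {I : Ideal (𝓞 K) // Ideal.absNorm I = q ^ k},
      cc I.1 P * ff q P + (cc I.1 Q * ff q Q + cc I.1 R * ff q R) = k := by
    intro I
    have h1 := sum_cc hq I.2
    rw [hS, Finset.sum_insert (by simp [hPQ, hPR]), Finset.sum_pair hQR] at h1
    exact h1
  have h := card_le_of_inj (α := {I : Ideal (𝓞 K) // Ideal.absNorm I = q ^ k}) (β := Σ _ : ℕ, ℕ)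
    (fun I => ⟨cc I.1 P, cc I.1 Q⟩)
    ((Finset.range (k + 1)).sigma (fun a => Finset.range (k + 1 - a))) ?_ ?_
  · rw [Finset.card_sigma] at h
    simp only [Finset.card_range] at h
    rwa [sum_sub_choose] at h
  · intro I J hIJ
    simp only [Sigma.mk.injEq, heq_eq_eq] at hIJ
    apply Subtype.ext
    apply ext_cc hq I.2 J.2
    have h1 := key I
    have h2 := key J
    intro T hT
    rw [hS, Finset.mem_insert, Finset.mem_insert, Finset.mem_singleton] at hT
    rcases hT with rfl | rfl | rfl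
    · exact hIJ.1
    · exact hIJ.2
    · rw [hIJ.1, hIJ.2] at h1
      have h5 : cc I.1 T * ff q T = cc J.1 T * ff q T := by omega
      exact Nat.eq_of_mul_eq_mul_right hh h5
  · intro I
    have h1 := key I
    have a1 : cc I.1 P ≤ cc I.1 P * ff q P := Nat.le_mul_of_pos_right _ hf
    have a2 : cc I.1 Q ≤ cc I.1 Q * ff q Q := Nat.le_mul_of_pos_right _ hg
    simp only [Finset.mem_sigma, Finset.mem_range]
    omega

/-- D2a: at most three primes above `q` -/
theorem card_norm_pow_le (h3 : finrank ℚ K = 3) {q : ℕ} (hq : q.Prime) (k : ℕ) :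
    Nat.card {I : Ideal (𝓞 K) // Ideal.absNorm I = q ^ k} ≤ (k + 2).choose 2 := by
  have hc := card_le_three (K := K) h3 hq
  have hc0 : (pS K q).card ≠ 0 := by
    intro h0
    have h1 := sum_ef (K := K) h3 hq
    rw [Finset.card_eq_zero.1 h0] at h1
    simp at h1
  have hk : k + 1 ≤ (k + 2).choose 2 := by
    rw [← sum_sub_choose, Finset.sum_range_succ']
    simp
  obtain h | h | h : (pS K q).card = 1 ∨ (pS K q).card = 2 ∨ (pS K q).card = 3 := by omega
  · obtain ⟨P, hP⟩ := Finset.card_eq_one.1 h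
    have := card_of_one h3 hq hP k
    omega
  · obtain ⟨P, Q, hPQ, hS⟩ := Finset.card_eq_two.1 h
    have := card_of_two h3 hq hPQ hS k
    have := Nat.div_le_self k (ff q P)
    omega
  · obtain ⟨P, Q, R, hPQ, hPR, hQR, hS⟩ := Finset.card_eq_three.1 h
    exact card_of_three h3 hq hPQ hPR hQR hS k

/-! ### the prime above `p` -/

theorem t_ne_zero {p : ℕ} (hp : p.Prime) {t : 𝓞 K} (ht : t ^ 3 = p) : t ≠ 0 := by
  intro h
  rw [h, zero_pow (by norm_num)] at ht
  exact hp.ne_zero (by exact_mod_cast ht.symm)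

theorem three_le_cc {p : ℕ} (hp : p.Prime) {t : 𝓞 K} (ht : t ^ 3 = p) {R : Ideal (𝓞 K)}
    (hR : R ∈ pS K p) : 3 ≤ cc (Ideal.span {(p : 𝓞 K)}) R := by
  classical
  have hR' := (mem_pS hp R).1 hR
  have ht0 := t_ne_zero hp ht
  have htR : t ∈ R := by
    apply hR'.1.mem_of_pow_mem 3
    rw [ht]
    exact hR'.2
  have h1 : Ideal.span {(p : 𝓞 K)} = Ideal.span {t} ^ 3 := by
    rw [Ideal.span_singleton_pow, ht]
  have h2 : R ∈ normalizedFactors (Ideal.span {t}) := by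
    rw [Ideal.mem_normalizedFactors_iff (by rwa [Ne, Ideal.span_singleton_eq_bot]),
      Ideal.span_singleton_le_iff_mem]
    exact ⟨hR'.1, htR⟩
  rw [cc, h1, normalizedFactors_pow, Multiset.count_nsmul]
  have := Multiset.one_le_count_iff_mem.2 h2
  omega

theorem exists_one {p : ℕ} (h3 : finrank ℚ K = 3) (hp : p.Prime) {t : 𝓞 K} (ht : t ^ 3 = p) :
    ∃ P, pS K p = {P} := by
  have h1 := sum_ef (K := K) h3 hp
  have h2 : ∀ R ∈ pS K p, 3 ≤ cc (Ideal.span {(p : 𝓞 K)}) R * ff p R := by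
    intro R hR
    calc 3 ≤ cc (Ideal.span {(p : 𝓞 K)}) R * 1 := by
          rw [mul_one]; exact three_le_cc hp ht hR
      _ ≤ _ := Nat.mul_le_mul_left _ (ff_pos h3 hp hR)
  have h4 : (pS K p).card * 3 ≤ 3 := by
    calc (pS K p).card * 3 = ∑ _R ∈ pS K p, 3 := by rw [Finset.sum_const, smul_eq_mul]
      _ ≤ _ := Finset.sum_le_sum h2
      _ = 3 := h1
  have hc0 : (pS K p).card ≠ 0 := by
    intro h0
    rw [Finset.card_eq_zero.1 h0] at h1
    simp at h1
  exact Finset.card_eq_one.1 (by omega)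

/-- D2d: `q = p` -/
theorem card_norm_pow_le_p (h3 : finrank ℚ K = 3) {p : ℕ} (hp : p.Prime)
    (t : 𝓞 K) (ht : t ^ 3 = p) (k : ℕ) :
    Nat.card {I : Ideal (𝓞 K) // Ideal.absNorm I = p ^ k} ≤ 1 := by
  obtain ⟨P, hP⟩ := exists_one h3 hp ht
  exact card_of_one h3 hp hP k

/-- D2e -/
theorem onePrime_of_cube (h3 : finrank ℚ K = 3) {p : ℕ} (hp : p.Prime)
    (t : 𝓞 K) (ht : t ^ 3 = p) : OnePrime p K := by
  obtain ⟨R, hR⟩ := exists_one h3 hp ht
  intro P Q hP hQ hpP hpQ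
  have h1 := (mem_pS hp P).2 ⟨hP, hpP⟩
  have h2 := (mem_pS hp Q).2 ⟨hQ, hpQ⟩
  rw [hR, Finset.mem_singleton] at h1 h2
  rw [h1, h2]

/-! ### traces -/

theorem trace_cube {x : K} {a : ℚ} (hx : x ^ 3 = algebraMap ℚ K a)
    (ha : ∀ b : ℚ, b ^ 3 ≠ a) : Algebra.trace ℚ K x = 0 := by
  have hirr := X_pow_sub_C_irreducible_of_prime Nat.prime_three ha
  have hmin : minpoly ℚ x = Polynomial.X ^ 3 - Polynomial.C a := by
    refine (minpoly.eq_of_irreducible_of_monic hirr ?_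
      (Polynomial.monic_X_pow_sub_C _ three_ne_zero)).symm
    simp [hx]
  rw [trace_eq_finrank_mul_minpoly_nextCoeff, hmin]
  have : (Polynomial.X ^ 3 - Polynomial.C a : Polynomial ℚ).nextCoeff = 0 := by
    rw [Polynomial.nextCoeff, Polynomial.natDegree_X_pow_sub_C, if_neg three_ne_zero,
      Polynomial.coeff_sub, Polynomial.coeff_X_pow, Polynomial.coeff_C]
    norm_num
  rw [this, neg_zero, mul_zero]

theorem not_cube {p : ℕ} (hp : p.Prime) (j : ℕ) (hj : j % 3 ≠ 0) (b : ℚ) :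
    b ^ 3 ≠ ((p ^ j : ℕ) : ℚ) := by
  intro hb
  have hp' : Fact p.Prime := ⟨hp⟩
  have h0 : b ≠ 0 := by
    rintro rfl
    rw [zero_pow (by norm_num)] at hb
    exact (pow_ne_zero j hp.ne_zero) (by exact_mod_cast hb.symm)
  have h1 : padicValRat p (b ^ 3) = j := by
    rw [hb, padicValRat.of_nat, padicValNat.prime_pow]
  rw [padicValRat.pow] at h1
  push_cast at h1
  omega

theorem trace_t {p : ℕ} (hp : p.Prime) {t : 𝓞 K} (ht : t ^ 3 = p) :
    Algebra.trace ℤ (𝓞 K) t = 0 := by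
  have h1 : Algebra.trace ℚ K (t : K) = 0 := by
    apply trace_cube (a := ((p ^ 1 : ℕ) : ℚ)) _ (not_cube hp 1 (by norm_num))
    rw [pow_one, map_natCast, ← map_pow, ht, map_natCast]
  rw [← Algebra.coe_trace_int] at h1
  exact_mod_cast h1

theorem trace_tt {p : ℕ} (hp : p.Prime) {t : 𝓞 K} (ht : t ^ 3 = p) :
    Algebra.trace ℤ (𝓞 K) (t ^ 2) = 0 := by
  have h1 : Algebra.trace ℚ K ((t ^ 2 : 𝓞 K) : K) = 0 := by
    apply trace_cube (a := ((p ^ 2 : ℕ) : ℚ)) _ (not_cube hp 2 (by norm_num))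
    rw [← map_pow, ← pow_mul, mul_comm 2 3, pow_mul, ht, map_natCast, map_pow, map_natCast,
      Nat.cast_pow]
  rw [← Algebra.coe_trace_int] at h1
  exact_mod_cast h1

theorem trace_int (h3 : finrank ℚ K = 3) (n : ℤ) : Algebra.trace ℤ (𝓞 K) (n : 𝓞 K) = 3 * n := by
  have h := Algebra.trace_algebraMap (R := ℤ) (S := 𝓞 K) n
  rw [RingOfIntegers.rank, h3] at h
  simpa using h

/-! ### the prime 3 -/

theorem cube_eq_of_norm {q : ℕ} (hq : q.Prime) {R : Ideal (𝓞 K)} (hR : R.IsPrime)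
    (hn : Ideal.absNorm R = q) (x : 𝓞 K) : x ^ q - x ∈ R := by
  have hR0 : R ≠ ⊥ := ne_bot_of_norm hq (k := 1) (by rw [hn, pow_one])
  have hmax : R.IsMaximal := hR.isMaximal hR0
  have hcard : Nat.card (𝓞 K ⧸ R) = q := by
    rw [← hn, Ideal.absNorm_apply, Submodule.cardQuot_apply]
  let _ : Field (𝓞 K ⧸ R) := Ideal.Quotient.field R
  have hfin : Finite (𝓞 K ⧸ R) := Nat.finite_of_card_ne_zero (by rw [hcard]; exact hq.ne_zero)
  let _ : Fintype (𝓞 K ⧸ R) := Fintype.ofFinite _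
  have h1 : (Ideal.Quotient.mk R x) ^ q = Ideal.Quotient.mk R x := by
    have := FiniteField.pow_card (Ideal.Quotient.mk R x)
    rwa [← Nat.card_eq_fintype_card, hcard] at this
  rw [← Ideal.Quotient.eq, map_pow, h1]

/-- D2b: `q = 3` -/
theorem card_norm_pow_le_three (h3 : finrank ℚ K = 3) {p : ℕ} (hp : p.Prime) (hp3 : 3 < p)
    (t : 𝓞 K) (ht : t ^ 3 = p) (k : ℕ) :
    Nat.card {I : Ideal (𝓞 K) // Ideal.absNorm I = 3 ^ k} ≤ k + 1 := by
  classical
  have hq := Nat.prime_three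
  have hc := card_le_three (K := K) h3 hq
  have hc0 : (pS K 3).card ≠ 0 := by
    intro h0
    have h1 := sum_ef (K := K) h3 hq
    rw [Finset.card_eq_zero.1 h0] at h1
    simp at h1
  obtain h | h | h : (pS K 3).card = 1 ∨ (pS K 3).card = 2 ∨ (pS K 3).card = 3 := by omega
  · obtain ⟨P, hP⟩ := Finset.card_eq_one.1 h
    have := card_of_one h3 hq hP k
    omega
  · obtain ⟨P, Q, hPQ, hS⟩ := Finset.card_eq_two.1 h
    have := card_of_two h3 hq hPQ hS k
    have := Nat.div_le_self k (ff 3 P)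
    omega
  · exfalso
    have h1 := sum_ef (K := K) h3 hq
    have h2 : ∀ R ∈ pS K 3, 1 ≤ cc (Ideal.span {((3 : ℕ) : 𝓞 K)}) R * ff 3 R := by
      intro R hR
      exact Nat.one_le_iff_ne_zero.2 (Nat.mul_ne_zero (by have := cc_pos hR; omega)
        (by have := ff_pos h3 hq hR; omega))
    have h4 : ∀ R ∈ pS K 3, cc (Ideal.span {((3 : ℕ) : 𝓞 K)}) R * ff 3 R = 1 := by
      have h5 : ∑ R ∈ pS K 3, 1 = ∑ R ∈ pS K 3, cc (Ideal.span {((3 : ℕ) : 𝓞 K)}) R * ff 3 R := by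
        rw [h1, Finset.sum_const, h, smul_eq_mul, mul_one]
      intro R hR
      exact ((Finset.sum_eq_sum_iff_of_le h2).1 h5 R hR).symm
    -- everything is congruent to `p`
    have h6 : ∀ R ∈ pS K 3, t - p ∈ R := by
      intro R hR
      obtain ⟨f, -, hf1, hf2⟩ := norm_pow h3 hq hR
      have hf : f = 1 := by
        rw [← hf2]
        exact Nat.eq_one_of_mul_eq_one_left (h4 R hR)
      rw [hf, pow_one] at hf1
      have h7 := cube_eq_of_norm hq ((mem_pS hq R).1 hR).1 hf1 t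
      rw [ht] at h7
      have : t - (p : 𝓞 K) = -((p : 𝓞 K) - t) := by ring
      rw [this]
      exact R.neg_mem h7
    have htr := trace_t hp ht
    have htr2 := trace_tt hp ht
    have hne : t - (p : 𝓞 K) ≠ 0 := by
      intro h0
      have h8 : t = ((p : ℤ) : 𝓞 K) := by
        rw [Int.cast_natCast]; exact sub_eq_zero.1 h0
      rw [h8, trace_int h3] at htr
      have := hp.pos
      omega
    have h9 : Ideal.span {((3 : ℕ) : 𝓞 K)} ∣ Ideal.span {t - (p : 𝓞 K)} := by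
      rw [dvd_iff_normalizedFactors_le_normalizedFactors
        (show Ideal.span {((3 : ℕ) : 𝓞 K)} ≠ 0 from span_ne hq)
        (show Ideal.span {t - (p : 𝓞 K)} ≠ 0 by
          rwa [Ne, Ideal.zero_eq_bot, Ideal.span_singleton_eq_bot]), Multiset.le_iff_count]
      intro R
      by_cases hR : R ∈ pS K 3
      · have h10 : cc (Ideal.span {((3 : ℕ) : 𝓞 K)}) R = 1 :=
          Nat.eq_one_of_mul_eq_one_right (h4 R hR)
        have h11 : R ∈ normalizedFactors (Ideal.span {t - (p : 𝓞 K)}) := by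
          rw [Ideal.mem_normalizedFactors_iff (by rwa [Ne, Ideal.span_singleton_eq_bot]),
            Ideal.span_singleton_le_iff_mem]
          exact ⟨((mem_pS hq R).1 hR).1, h6 R hR⟩
        have h12 := Multiset.one_le_count_iff_mem.2 h11
        rw [cc] at h10
        omega
      · rw [pS, Multiset.mem_toFinset] at hR
        rw [Multiset.count_eq_zero_of_notMem hR]
        exact Nat.zero_le _
    rw [Ideal.dvd_span_singleton, Ideal.mem_span_singleton] at h9
    obtain ⟨y, hy⟩ := h9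
    have h13 : Algebra.trace ℤ (𝓞 K) ((t - p) ^ 2) = 3 * (p : ℤ) ^ 2 := by
      have : (t - (p : 𝓞 K)) ^ 2 = t ^ 2 - (2 * (p : ℤ)) • t + (((p : ℤ) ^ 2 : ℤ) : 𝓞 K) := by
        rw [zsmul_eq_mul]; push_cast; ring
      rw [this, map_add, map_sub, map_zsmul, htr, htr2, trace_int h3]
      simp
    have h14 : (t - (p : 𝓞 K)) ^ 2 = (9 : ℤ) • y ^ 2 := by
      rw [hy, zsmul_eq_mul]; push_cast; ring
    rw [h14, map_zsmul, smul_eq_mul] at h13
    have h15 : (3 : ℤ) ∣ (p : ℤ) ^ 2 := ⟨Algebra.trace ℤ (𝓞 K) (y ^ 2), by linarith⟩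
    have h16 : (3 : ℤ) ∣ (p : ℤ) := Int.Prime.dvd_pow' hq h15
    have h17 : 3 ∣ p := by exact_mod_cast h16
    have := (Nat.prime_dvd_prime_iff_eq hq hp).1 h17
    omega

/-! ### primes `q = 2 mod 3` -/

theorem not_two_degree_one (h3 : finrank ℚ K = 3) {p : ℕ} (hp : p.Prime)
    (t : 𝓞 K) (ht : t ^ 3 = p) {q : ℕ} (hq : q.Prime) (hq2 : q % 3 = 2) (hqp : q ≠ p)
    {P Q : Ideal (𝓞 K)} (hP : P ∈ pS K q) (hQ : Q ∈ pS K q) (hPQ : P ≠ Q)
    (hfP : ff q P = 1) (hfQ : ff q Q = 1) : False := by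
  classical
  have hq' : Fact q.Prime := ⟨hq⟩
  have h1 := sum_ef (K := K) h3 hq
  have hpos : ∀ R ∈ pS K q, ff q R ≤ cc (Ideal.span {(q : 𝓞 K)}) R * ff q R := by
    intro R hR
    exact Nat.le_mul_of_pos_left _ (cc_pos hR)
  have hall : ∀ R ∈ pS K q, ff q R = 1 := by
    intro R hR
    by_cases hRP : R = P
    · rw [hRP]; exact hfP
    by_cases hRQ : R = Q
    · rw [hRQ]; exact hfQ
    have hsub : ({R, P, Q} : Finset (Ideal (𝓞 K))) ⊆ pS K q := by
      intro T hT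
      rw [Finset.mem_insert, Finset.mem_insert, Finset.mem_singleton] at hT
      rcases hT with rfl | rfl | rfl <;> assumption
    have h2 : ∑ T ∈ ({R, P, Q} : Finset (Ideal (𝓞 K))), ff q T ≤ 3 := by
      calc ∑ T ∈ ({R, P, Q} : Finset (Ideal (𝓞 K))), ff q T
          ≤ ∑ T ∈ pS K q, ff q T := Finset.sum_le_sum_of_subset hsub
        _ ≤ _ := Finset.sum_le_sum hpos
        _ = 3 := h1
    rw [Finset.sum_insert (by simp [hRP, hRQ]), Finset.sum_pair hPQ, hfP, hfQ] at h2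
    have := ff_pos h3 hq hR
    omega
  obtain ⟨m, hm⟩ : ∃ m, 3 * m = 2 * q - 1 := ⟨(2 * q - 1) / 3, by omega⟩
  have hq1 : 1 ≤ q := hq.one_lt.le
  have h4 : ∀ R ∈ pS K q, t - (p : 𝓞 K) ^ m ∈ R := by
    intro R hR
    obtain ⟨f, -, hf1, hf2⟩ := norm_pow h3 hq hR
    rw [← hf2, hall R hR, pow_one] at hf1
    have h5 := cube_eq_of_norm hq ((mem_pS hq R).1 hR).1 hf1 t
    have h6 : t ^ (2 * q - 1) - t = t ^ (q - 1) * (t ^ q - t) + (t ^ q - t) := by
      have e1 : t ^ (2 * q - 1) = t ^ (q - 1) * t ^ q := by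
        rw [← pow_add]; congr 1; omega
      have e2 : t ^ (q - 1) * t = t ^ q := by
        rw [← pow_succ]; congr 1; omega
      rw [e1, mul_sub, e2]; ring
    have h7 : t ^ (2 * q - 1) - t ∈ R := by
      rw [h6]
      exact R.add_mem (R.mul_mem_left _ h5) h5
    rw [← hm, pow_mul, ht] at h7
    have : t - (p : 𝓞 K) ^ m = -((p : 𝓞 K) ^ m - t) := by ring
    rw [this]
    exact R.neg_mem h7
  have hcop : Nat.Coprime q (3 * (p ^ m) ^ 2) := by
    apply Nat.Coprime.mul_right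
    · rw [Nat.coprime_primes hq Nat.prime_three]
      omega
    · exact Nat.Coprime.pow_right _ (Nat.Coprime.pow_right _ ((Nat.coprime_primes hq hp).2 hqp))
  have hw : ∀ R ∈ pS K q, t ^ 2 + (p : 𝓞 K) ^ m * t + ((p : 𝓞 K) ^ m) ^ 2 ∉ R := by
    intro R hR hmem
    have h5 := h4 R hR
    have h6 := (mem_pS hq R).1 hR
    have h7 : ((3 * (p ^ m) ^ 2 : ℕ) : 𝓞 K) ∈ R := by
      have : ((3 * (p ^ m) ^ 2 : ℕ) : 𝓞 K) =
          (t ^ 2 + (p : 𝓞 K) ^ m * t + ((p : 𝓞 K) ^ m) ^ 2) -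
            (t + 2 * (p : 𝓞 K) ^ m) * (t - (p : 𝓞 K) ^ m) := by
        push_cast; ring
      rw [this]
      exact R.sub_mem hmem (R.mul_mem_left _ h5)
    apply h6.1.ne_top
    rw [Ideal.eq_top_iff_one]
    obtain ⟨a, b, hab⟩ := Nat.isCoprime_iff_coprime.2 hcop
    have h8 : (a : 𝓞 K) * (q : 𝓞 K) + (b : 𝓞 K) * ((3 * (p ^ m) ^ 2 : ℕ) : 𝓞 K) = 1 := by
      exact_mod_cast congrArg (Int.cast : ℤ → 𝓞 K) hab
    rw [← h8]
    exact R.add_mem (R.mul_mem_left _ h6.2) (R.mul_mem_left _ h7)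
  have hcop2 : IsCoprime (q : 𝓞 K) (t ^ 2 + (p : 𝓞 K) ^ m * t + ((p : 𝓞 K) ^ m) ^ 2) := by
    rw [← Ideal.isCoprime_span_singleton_iff, Ideal.isCoprime_iff_sup_eq]
    by_contra hne
    obtain ⟨M, hM, hle⟩ := Ideal.exists_le_maximal _ hne
    have a1 : (q : 𝓞 K) ∈ M :=
      hle (Ideal.mem_sup_left (Ideal.mem_span_singleton_self _))
    have a2 := hle (Ideal.mem_sup_right (Ideal.mem_span_singleton_self
      (t ^ 2 + (p : 𝓞 K) ^ m * t + ((p : 𝓞 K) ^ m) ^ 2)))
    exact hw M ((mem_pS hq M).2 ⟨hM.isPrime, a1⟩) a2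
  have hdiv : (q : 𝓞 K) ∣ (t - (p : 𝓞 K) ^ m) *
      (t ^ 2 + (p : 𝓞 K) ^ m * t + ((p : 𝓞 K) ^ m) ^ 2) := by
    have e1 : (t - (p : 𝓞 K) ^ m) * (t ^ 2 + (p : 𝓞 K) ^ m * t + ((p : 𝓞 K) ^ m) ^ 2) =
        (((p : ℤ) - (p : ℤ) ^ (2 * q - 1) : ℤ) : 𝓞 K) := by
      have : (t - (p : 𝓞 K) ^ m) * (t ^ 2 + (p : 𝓞 K) ^ m * t + ((p : 𝓞 K) ^ m) ^ 2) =
          t ^ 3 - (p : 𝓞 K) ^ (3 * m) := by
        rw [mul_comm 3 m, pow_mul]; ring
      rw [this, ht, hm]; push_cast; ring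
    have e2 : (q : ℤ) ∣ (p : ℤ) - (p : ℤ) ^ (2 * q - 1) := by
      rw [← ZMod.intCast_zmod_eq_zero_iff_dvd]
      push_cast
      have e3 : (p : ZMod q) ^ (2 * q - 1) = (p : ZMod q) ^ (q - 1) * (p : ZMod q) ^ q := by
        rw [← pow_add]; congr 1; omega
      rw [e3, ZMod.pow_card, ← pow_succ, Nat.sub_add_cancel hq1, ZMod.pow_card, sub_self]
    rw [e1]
    obtain ⟨c, hc⟩ := e2
    exact ⟨(c : 𝓞 K), by rw [hc]; push_cast; ring⟩
  obtain ⟨s, hs⟩ := hcop2.dvd_of_dvd_mul_right hdiv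
  have htr := congrArg (Algebra.trace ℤ (𝓞 K)) hs
  have e4 : t - (p : 𝓞 K) ^ m = t - (((p : ℤ) ^ m : ℤ) : 𝓞 K) := by push_cast; ring
  have e5 : (q : 𝓞 K) * s = (q : ℤ) • s := by rw [zsmul_eq_mul]; push_cast; ring
  rw [e4, e5, map_sub, trace_t hp ht, trace_int h3, map_zsmul, smul_eq_mul] at htr
  have h20 : (q : ℤ) ∣ ((3 * p ^ m : ℕ) : ℤ) := ⟨-Algebra.trace ℤ (𝓞 K) s, by
    push_cast; linarith⟩
  have h21 : q ∣ 3 * p ^ m := by exact_mod_cast h20
  have h22 : Nat.Coprime q (3 * p ^ m) := by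
    apply Nat.Coprime.mul_right
    · rw [Nat.coprime_primes hq Nat.prime_three]
      omega
    · exact Nat.Coprime.pow_right _ ((Nat.coprime_primes hq hp).2 hqp)
  have h23 := Nat.Coprime.eq_one_of_dvd h22 h21
  exact hq.one_lt.ne' h23

/-- D2c: `q = 2 mod 3`, `q ≠ p` -/
theorem card_norm_pow_le_two (h3 : finrank ℚ K = 3) {p : ℕ} (hp : p.Prime) (_hp3 : 3 < p)
    (t : 𝓞 K) (ht : t ^ 3 = p) {q : ℕ} (hq : q.Prime) (hq2 : q % 3 = 2) (hqp : q ≠ p) (k : ℕ) :
    Nat.card {I : Ideal (𝓞 K) // Ideal.absNorm I = q ^ k} ≤ k / 2 + 1 := by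
  classical
  have hc := card_le_three (K := K) h3 hq
  have h1 := sum_ef (K := K) h3 hq
  have hc0 : (pS K q).card ≠ 0 := by
    intro h0
    rw [Finset.card_eq_zero.1 h0] at h1
    simp at h1
  obtain h | h | h : (pS K q).card = 1 ∨ (pS K q).card = 2 ∨ (pS K q).card = 3 := by omega
  · obtain ⟨P, hP⟩ := Finset.card_eq_one.1 h
    have := card_of_one h3 hq hP k
    omega
  · obtain ⟨P, Q, hPQ, hS⟩ := Finset.card_eq_two.1 h
    have hP : P ∈ pS K q := by rw [hS]; simp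
    have hQ : Q ∈ pS K q := by rw [hS]; simp
    have hfP := ff_pos h3 hq hP
    have hfQ := ff_pos h3 hq hQ
    have hno := not_two_degree_one h3 hp t ht hq hq2 hqp hP hQ hPQ
    by_cases h2 : 2 ≤ ff q P
    · have := card_of_two h3 hq hPQ hS k
      have := Nat.div_le_div_left h2 (by norm_num) (a := k)
      omega
    · have h4 : ff q P = 1 := by omega
      have h5 : ff q Q ≠ 1 := fun h => hno h4 h
      have hS' : pS K q = {Q, P} := by rw [hS, Finset.pair_comm]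
      have := card_of_two h3 hq hPQ.symm hS' k
      have := Nat.div_le_div_left (show 2 ≤ ff q Q by omega) (by norm_num) (a := k)
      omega
  · exfalso
    obtain ⟨P, Q, R, hPQ, hPR, hQR, hS⟩ := Finset.card_eq_three.1 h
    have hP : P ∈ pS K q := by rw [hS]; simp
    have hQ : Q ∈ pS K q := by rw [hS]; simp
    have hR : R ∈ pS K q := by rw [hS]; simp
    have a1 := ff_pos h3 hq hP
    have a2 := ff_pos h3 hq hQ
    have a3 := ff_pos h3 hq hR
    have b1 : ff q P ≤ cc (Ideal.span {(q : 𝓞 K)}) P * ff q P :=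
      Nat.le_mul_of_pos_left _ (cc_pos hP)
    have b2 : ff q Q ≤ cc (Ideal.span {(q : 𝓞 K)}) Q * ff q Q :=
      Nat.le_mul_of_pos_left _ (cc_pos hQ)
    have b3 : ff q R ≤ cc (Ideal.span {(q : 𝓞 K)}) R * ff q R :=
      Nat.le_mul_of_pos_left _ (cc_pos hR)
    rw [hS, Finset.sum_insert (by simp [hPQ, hPR]), Finset.sum_pair hQR] at h1
    exact not_two_degree_one h3 hp t ht hq hq2 hqp hP hQ hPQ (by omega) (by omega)

end

end Pool.Agent.Work.Mu22
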