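import Mathlib

set_option autoImplicit false
set_option maxHeartbeats 400000

/-! # Definitions for the tower theorem and the class number bound (MP_a4986b_nt) -/

namespace Pool.Agent.Work.Mu22

open NumberField Module
open scoped Pointwise nonZeroDivisors ENNReal Real

section Hom

variable {M G : Type*} [CommGroup M] [Group G] [MulDistribMulAction G M]

/-- `u ↦ σ u / u` -/
def dHom (σ : G) : M →* M where
  toFun u := (σ • u) / u
  map_one' := by simp
  map_mul' a b := by simp [mul_div_mul_comm]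

/-- `u ↦ ∏_{i < p} σ ^ i u` -/
def nHom (σ : G) (p : ℕ) : M →* M where
  toFun u := ∏ i ∈ Finset.range p, (σ ^ i • u)
  map_one' := by simp
  map_mul' a b := by simp [Finset.prod_mul_distrib]

theorem dHom_apply (σ : G) (u : M) : dHom σ u = (σ • u) / u := rfl

theorem nHom_apply (σ : G) (p : ℕ) (u : M) : nHom σ p u = ∏ i ∈ Finset.range p, (σ ^ i • u) := rfl

end Hom

/-- the test function `∫ exp (-(π/4) e^(-2s) - e^s x) ds` -/
noncomputable def kk (x : ℝ) : ℝ≥0∞ :=
  ∫⁻ s : ℝ, ENNReal.ofReal (Real.exp (-(π / 4) * Real.exp (-2 * s) - Real.exp s * x))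

/-- the quadratic character modulo 3 -/
def chi3 (n : ℕ) : ℤ := if n % 3 = 1 then 1 else if n % 3 = 2 then -1 else 0

/-- the coefficients of `ζ(s)^2 L(s, χ_{-3})` -/
def bb (n : ℕ) : ℤ := ∑ d ∈ n.divisors, chi3 d * ((n / d).divisors.card : ℤ)

/-- exactly one prime ideal contains `p` -/
def OnePrime (p : ℕ) (K : Type*) [Field K] [NumberField K] : Prop :=
  ∀ P Q : Ideal (𝓞 K), P.IsPrime → Q.IsPrime → (p : 𝓞 K) ∈ P → (p : 𝓞 K) ∈ Q → P = Q

/-- all prime ideals of `L` that do not contain `p` are unramified over `K` -/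
def UnramOutside (p : ℕ) (K L : Type*) [Field K] [NumberField K] [Field L] [NumberField L]
    [Algebra K L] : Prop :=
  ∀ Q : Ideal (𝓞 L), Q.IsPrime → Q ≠ ⊥ → (p : 𝓞 L) ∉ Q → Q.ramificationIdx (𝓞 K) = 1

end Pool.Agent.Work.Mu22
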