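import Mathlib
import Pool.Agent.Work.MP_a4986b_nt.Defs

set_option autoImplicit false
set_option maxHeartbeats 400000

/-! # E1: the summatory function of the coefficients of `ζ(s)^2 L(s, χ_{-3})` -/

namespace Pool.Agent.Work.Mu22

open NumberField Module
open scoped Pointwise nonZeroDivisors ENNReal Real

/-- summatory function of the number of divisors -/
def sumBB_T (N : ℕ) : ℕ := ∑ n ∈ Finset.Ioc 0 N, n.divisors.card

theorem sumBB_T_eq (N : ℕ) : sumBB_T N = ∑ n ∈ Finset.Ioc 0 N, N / n := by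
  rw [← ArithmeticFunction.sum_Ioc_sigma0_eq_sum_div]
  refine Finset.sum_congr rfl fun n _ => ?_
  rw [ArithmeticFunction.sigma_zero_apply]

theorem sumBB_T_mono {M N : ℕ} (h : M ≤ N) : sumBB_T M ≤ sumBB_T N :=
  Finset.sum_le_sum_of_subset (Finset.Ioc_subset_Ioc_right h)

theorem sumBB_T_zero : sumBB_T 0 = 0 := rfl

theorem sumBB_T_le (M : ℕ) : (sumBB_T M : ℝ) ≤ M * (1 + Real.log M) := by
  have h1 : (sumBB_T M : ℝ) ≤ ∑ n ∈ Finset.Icc 1 M, (M : ℝ) * (n : ℝ)⁻¹ := by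
    rw [sumBB_T_eq]
    push_cast
    have : Finset.Ioc 0 M = Finset.Icc 1 M := rfl
    rw [this]
    refine Finset.sum_le_sum fun n _ => ?_
    rw [← div_eq_mul_inv]
    exact Nat.cast_div_le
  refine h1.trans ?_
  rw [← Finset.mul_sum]
  refine mul_le_mul_of_nonneg_left ?_ (Nat.cast_nonneg M)
  have h2 := harmonic_le_one_add_log M
  rw [harmonic_eq_sum_Icc] at h2
  push_cast at h2
  exact h2

theorem sumBB_le_T (M : ℕ) : (M : ℝ) * Real.log (M + 1) - M ≤ sumBB_T M := by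
  have h1 : ∑ n ∈ Finset.Icc 1 M, ((M : ℝ) * (n : ℝ)⁻¹ - 1) ≤ sumBB_T M := by
    rw [sumBB_T_eq]
    push_cast
    have : Finset.Ioc 0 M = Finset.Icc 1 M := rfl
    rw [this]
    refine Finset.sum_le_sum fun n hn => ?_
    have hn1 : 1 ≤ n := (Finset.mem_Icc.1 hn).1
    have h3 := Nat.lt_div_mul_add (a := M) (b := n) (by omega)
    have h4 : (M : ℝ) < (M / n : ℕ) * n + n := by exact_mod_cast h3
    have hn0 : (0 : ℝ) < n := by exact_mod_cast (show 0 < n by omega)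
    rw [← div_eq_mul_inv, sub_le_iff_le_add, div_le_iff₀ hn0]
    linarith
  refine le_trans ?_ h1
  rw [Finset.sum_sub_distrib, ← Finset.mul_sum]
  have h2 := log_add_one_le_harmonic M
  rw [harmonic_eq_sum_Icc] at h2
  push_cast at h2
  have h3 := mul_le_mul_of_nonneg_left h2 (Nat.cast_nonneg (α := ℝ) M)
  simp only [Finset.sum_const, Nat.card_Icc, nsmul_eq_mul, mul_one]
  have h4 : ((M + 1 - 1 : ℕ) : ℝ) = M := by simp
  rw [h4]
  linarith

/-- upper bound for real arguments -/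
theorem sumBB_up {x y : ℝ} (hx : 1 ≤ x) (hy : 0 ≤ y) (hyx : y ≤ x) :
    (sumBB_T ⌊y⌋₊ : ℝ) ≤ y * (1 + Real.log x) := by
  have hlx : 0 ≤ Real.log x := Real.log_nonneg hx
  have h1 : ((⌊y⌋₊ : ℕ) : ℝ) ≤ y := Nat.floor_le hy
  rcases Nat.eq_zero_or_pos ⌊y⌋₊ with h0 | h0
  · rw [h0, sumBB_T_zero]
    push_cast
    positivity
  · have h2 : (0 : ℝ) < ((⌊y⌋₊ : ℕ) : ℝ) := by exact_mod_cast h0
    refine (sumBB_T_le _).trans ?_
    have h3 : Real.log ((⌊y⌋₊ : ℕ) : ℝ) ≤ Real.log x := Real.log_le_log h2 (h1.trans hyx)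
    have h4 : 0 ≤ 1 + Real.log x := by linarith
    calc ((⌊y⌋₊ : ℕ) : ℝ) * (1 + Real.log ((⌊y⌋₊ : ℕ) : ℝ))
        ≤ ((⌊y⌋₊ : ℕ) : ℝ) * (1 + Real.log x) := mul_le_mul_of_nonneg_left (by linarith) h2.le
      _ ≤ y * (1 + Real.log x) := mul_le_mul_of_nonneg_right h1 h4

/-- lower bound for real arguments -/
theorem sumBB_low {y : ℝ} (hy : 0 < y) :
    y * Real.log y - 2 * y ≤ (sumBB_T ⌊y⌋₊ : ℝ) := by
  rcases lt_or_ge y 1 with h | h
  · have h1 : Real.log y ≤ 0 := Real.log_nonpos hy.le h.le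
    have h2 : y * Real.log y ≤ 0 := mul_nonpos_of_nonneg_of_nonpos hy.le h1
    have h3 : (0 : ℝ) ≤ (sumBB_T ⌊y⌋₊ : ℝ) := Nat.cast_nonneg _
    linarith
  · refine le_trans ?_ (sumBB_le_T _)
    have h1 : ((⌊y⌋₊ : ℕ) : ℝ) ≤ y := Nat.floor_le hy.le
    have h2 : y < ((⌊y⌋₊ : ℕ) : ℝ) + 1 := Nat.lt_floor_add_one y
    have h3 : 0 ≤ Real.log y := Real.log_nonneg h
    have h4 : Real.log y ≤ Real.log (((⌊y⌋₊ : ℕ) : ℝ) + 1) := Real.log_le_log hy h2.le
    have h5 : Real.log y ≤ y - 1 := Real.log_le_sub_one_of_pos hy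
    have h6 : (y - 1) * Real.log y ≤ ((⌊y⌋₊ : ℕ) : ℝ) * Real.log (((⌊y⌋₊ : ℕ) : ℝ) + 1) :=
      mul_le_mul (by linarith) h4 h3 (Nat.cast_nonneg _)
    nlinarith

/-- the alternating sum -/
theorem sumBB_alt {a : ℕ → ℤ} (ha : ∀ m n, m ≤ n → 0 < m → a n ≤ a m) (K : ℕ) :
    ∑ d ∈ Finset.Ioc 0 (3 * K + 7), chi3 d * a d ≤ a 1 - a 2 + a 4 - a 5 + a 7 := by
  induction K with
  | zero =>
    have : Finset.Ioc 0 (3 * 0 + 7) = {1, 2, 3, 4, 5, 6, 7} := by decide
    rw [this]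
    simp [chi3]
    linarith
  | succ K ih =>
    have e : 3 * (K + 1) + 7 = 3 * K + 7 + 1 + 1 + 1 := by ring
    rw [e, Finset.sum_Ioc_succ_top (by omega), Finset.sum_Ioc_succ_top (by omega),
      Finset.sum_Ioc_succ_top (by omega)]
    have c1 : chi3 (3 * K + 7 + 1) = -1 := by
      unfold chi3; rw [if_neg (by omega), if_pos (by omega)]
    have c2 : chi3 (3 * K + 7 + 1 + 1) = 0 := by
      unfold chi3; rw [if_neg (by omega), if_neg (by omega)]
    have c3 : chi3 (3 * K + 7 + 1 + 1 + 1) = 1 := by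
      unfold chi3; rw [if_pos (by omega)]
    rw [c1, c2, c3]
    have := ha (3 * K + 7 + 1) (3 * K + 7 + 1 + 1 + 1) (by omega) (by omega)
    linarith

/-- the summatory function of `bb` -/
theorem sumBB_eq (N : ℕ) :
    ∑ n ∈ Finset.Icc 1 N, bb n = ∑ d ∈ Finset.Ioc 0 N, chi3 d * (sumBB_T (N / d) : ℤ) := by
  let f : ArithmeticFunction ℤ := ⟨chi3, rfl⟩
  let g : ArithmeticFunction ℤ := ⟨fun n => (n.divisors.card : ℤ), by simp⟩
  have h := ArithmeticFunction.sum_Ioc_mul_eq_sum_sum f g N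
  have h1 : ∀ n, (f * g) n = bb n := by
    intro n
    rw [ArithmeticFunction.mul_apply]
    unfold bb
    exact Nat.sum_divisorsAntidiagonal (fun i j => chi3 i * (j.divisors.card : ℤ))
  simp only [h1] at h
  have : Finset.Icc 1 N = Finset.Ioc 0 N := rfl
  rw [this, h]
  refine Finset.sum_congr rfl fun d _ => ?_
  unfold sumBB_T
  push_cast
  rfl

/-- E1 -/
theorem sum_bb_le : ∃ C : ℝ, 0 ≤ C ∧ ∀ x : ℝ, 1 ≤ x →
    ∑ n ∈ Finset.Icc 1 ⌊x⌋₊, (bb n : ℝ) ≤ 0.693 * x * Real.log x + C * x := by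
  refine ⟨4, by norm_num, fun x hx => ?_⟩
  have hx0 : 0 < x := by linarith
  set N := ⌊x⌋₊ with hN
  have h1 : ∑ n ∈ Finset.Icc 1 N, bb n ≤
      (sumBB_T (N / 1) : ℤ) - sumBB_T (N / 2) + sumBB_T (N / 4) - sumBB_T (N / 5)
        + sumBB_T (N / 7) := by
    rw [sumBB_eq]
    have h2 := sumBB_alt (a := fun d => (sumBB_T (N / d) : ℤ)) (fun m n hmn hm => by
      exact_mod_cast sumBB_T_mono (Nat.div_le_div_left hmn hm)) N
    refine le_trans (le_of_eq ?_) h2
    refine Finset.sum_subset (Finset.Ioc_subset_Ioc_right (by omega)) fun d hd hd' => ?_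
    have h3 : N < d := by
      rw [Finset.mem_Ioc] at hd hd'
      omega
    rw [Nat.div_eq_of_lt h3, sumBB_T_zero]
    simp
  have h2 : ∑ n ∈ Finset.Icc 1 N, (bb n : ℝ) ≤
      (sumBB_T (N / 1) : ℝ) - sumBB_T (N / 2) + sumBB_T (N / 4) - sumBB_T (N / 5)
        + sumBB_T (N / 7) := by
    exact_mod_cast h1
  refine h2.trans ?_
  have hd : ∀ d : ℕ, N / d = ⌊x / d⌋₊ := fun d => (Nat.floor_div_natCast x d).symm
  have u1 := sumBB_up hx (y := x / (1 : ℕ)) (by positivity) (by simp)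
  have u4 := sumBB_up hx (y := x / (4 : ℕ)) (by positivity) (by
    push_cast; linarith)
  have u7 := sumBB_up hx (y := x / (7 : ℕ)) (by positivity) (by
    push_cast; linarith)
  have l2 := sumBB_low (y := x / (2 : ℕ)) (by positivity)
  have l5 := sumBB_low (y := x / (5 : ℕ)) (by positivity)
  rw [← hd] at u1 u4 u7 l2 l5
  push_cast at u1 u4 u7 l2 l5
  rw [Real.log_div hx0.ne' (by norm_num)] at l2 l5
  have hlx : 0 ≤ Real.log x := Real.log_nonneg hx
  have hxl : 0 ≤ x * Real.log x := by positivity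
  have hl2 : Real.log 2 ≤ 1 := by
    have := Real.log_two_lt_d9; linarith
  have hl5 : Real.log 5 ≤ 3 := by
    have h3 : Real.log 5 ≤ Real.log 8 := Real.log_le_log (by norm_num) (by norm_num)
    have h4 : Real.log 8 = 3 * Real.log 2 := by
      rw [show (8 : ℝ) = 2 ^ 3 by norm_num, Real.log_pow]; norm_num
    have := Real.log_two_lt_d9
    linarith
  have e2 : x / 2 * (Real.log x - Real.log 2) = x * Real.log x / 2 - x * Real.log 2 / 2 := by ring
  have e5 : x / 5 * (Real.log x - Real.log 5) = x * Real.log x / 5 - x * Real.log 5 / 5 := by ring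
  have m2 : x * Real.log 2 ≤ x * 1 := mul_le_mul_of_nonneg_left hl2 hx0.le
  have m5 : x * Real.log 5 ≤ x * 3 := mul_le_mul_of_nonneg_left hl5 hx0.le
  have e1 : x / 1 * (1 + Real.log x) = x + x * Real.log x := by ring
  have e4 : x / 4 * (1 + Real.log x) = x / 4 + x * Real.log x / 4 := by ring
  have e7 : x / 7 * (1 + Real.log x) = x / 7 + x * Real.log x / 7 := by ring
  rw [e1] at u1
  rw [e4] at u4
  rw [e7] at u7
  rw [e2] at l2
  rw [e5] at l5
  have e0 : 0.693 * x * Real.log x = 0.693 * (x * Real.log x) := by ring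
  rw [e0]
  norm_num at u1 u4 u7 l2 l5 ⊢
  linarith

end Pool.Agent.Work.Mu22
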