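import Pool.Agent.Work.MP_a4986b_nt.Defs

set_option autoImplicit false
set_option maxHeartbeats 400000

/-! # F1: the sum of the test function over the ideals -/

namespace Pool.Agent.Work.Mu22

open NumberField Module MeasureTheory Set
open scoped Pointwise nonZeroDivisors ENNReal Real

namespace SumKK

/-- lower integral on the half line of a nonnegative integrable function -/
theorem lint_Ioi (f : ℝ → ℝ) (hf : IntegrableOn f (Ioi 0)) (h0 : ∀ x, 0 < x → 0 ≤ f x) :
    ∫⁻ x in Ioi (0 : ℝ), ENNReal.ofReal (f x) = ENNReal.ofReal (∫ x in Ioi (0 : ℝ), f x) := by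
  rw [ofReal_integral_eq_lintegral_ofReal hf]
  rw [Filter.EventuallyLE, ae_restrict_iff' measurableSet_Ioi]
  exact Filter.Eventually.of_forall fun x hx => h0 x hx

theorem int_one : IntegrableOn (fun u : ℝ => Real.exp (-u) * u) (Ioi 0) ∧
    ∫ u in Ioi (0 : ℝ), Real.exp (-u) * u = 1 := by
  have h1 := Real.GammaIntegral_convergent (s := 2) (by norm_num)
  have h2 := Real.Gamma_eq_integral (s := 2) (by norm_num)
  have h3 : ∀ u : ℝ, u ^ ((2 : ℝ) - 1) = u := fun u => by norm_num
  simp only [h3] at h1 h2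
  refine ⟨h1, ?_⟩
  rw [← h2]
  exact Real.Gamma_two

theorem int_two : IntegrableOn (fun u : ℝ => Real.exp (-u) * u ^ 2) (Ioi 0) := by
  have h1 := Real.GammaIntegral_convergent (s := 3) (by norm_num)
  have h3 : ∀ u : ℝ, u ^ ((3 : ℝ) - 1) = u ^ 2 := fun u => by
    rw [← Real.rpow_natCast]; norm_num
  simp only [h3] at h1
  exact h1

/-- the constant of the first step -/
noncomputable def K2 : ℝ := ∫ u in Ioi (0 : ℝ), Real.exp (-u) * u ^ 2

/-- the constant of the second step -/
noncomputable def K1 : ℝ := ∫ w in Ioi (0 : ℝ), Real.exp (-(π / 4) * w ^ 2) * w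

theorem K2_nonneg : 0 ≤ K2 :=
  setIntegral_nonneg measurableSet_Ioi fun u _ => by positivity

theorem K1_nonneg : 0 ≤ K1 :=
  setIntegral_nonneg measurableSet_Ioi fun _ hw => mul_nonneg (Real.exp_nonneg _) (le_of_lt hw)

theorem exp_eq (a : ℝ) (ha : 0 < a) : ENNReal.ofReal (Real.exp (-a)) =
    ∫⁻ u in Ioi (0 : ℝ), (Ioi a).indicator (fun u => ENNReal.ofReal (Real.exp (-u))) u := by
  rw [lintegral_indicator measurableSet_Ioi, Measure.restrict_restrict measurableSet_Ioi]
  have h1 : Ioi a ∩ Ioi 0 = Ioi a := inter_eq_left.mpr (Ioi_subset_Ioi ha.le)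
  rw [h1, ← ofReal_integral_eq_lintegral_ofReal (integrableOn_exp_neg_Ioi a)
    (Filter.Eventually.of_forall fun u => Real.exp_nonneg _), integral_exp_neg_Ioi]

theorem card_bound {ι : Type} (N : ι → ℕ) (hfin : ∀ x : ℕ, Finite {i // N i ≤ x})
    (x : ℝ) (G : Finset ι) (hG : ∀ i ∈ G, (N i : ℝ) ≤ x) :
    G.card ≤ Nat.card {i // (N i : ℝ) ≤ x} := by
  have h1 : Finite {i // (N i : ℝ) ≤ x} := by
    have := hfin ⌊x⌋₊
    refine Finite.of_injective (fun i : {i // (N i : ℝ) ≤ x} =>
      (⟨i.1, Nat.le_floor i.2⟩ : {i // N i ≤ ⌊x⌋₊})) ?_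
    intro i j hij
    have h := congrArg (fun z => z.1) hij
    exact Subtype.ext h
  have h2 : G.card = Nat.card G := by simp
  rw [h2]
  refine Nat.card_le_card_of_injective (fun i : G => (⟨i.1, hG i.1 i.2⟩ : {i // (N i : ℝ) ≤ x})) ?_
  intro i j hij
  have h := congrArg (fun z => z.1) hij
  exact Subtype.ext h

theorem step1 (c C : ℝ) (hc : 0 ≤ c) (hC : 0 ≤ C) {ι : Type} (N : ι → ℕ) (hN : ∀ i, 1 ≤ N i)
    (hfin : ∀ x : ℕ, Finite {i // N i ≤ x})
    (hcnt : ∀ x : ℝ, 1 ≤ x →
      (Nat.card {i // (N i : ℝ) ≤ x} : ℝ) ≤ c * x * Real.log x + C * x)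
    (F : Finset ι) (y : ℝ) (hy : 0 < y) :
    ∑ i ∈ F, ENNReal.ofReal (Real.exp (-(N i / y))) ≤
      ENNReal.ofReal (y * (c * max (Real.log y) 0 + c * K2 + C)) := by
  classical
  set L : ℝ := max (Real.log y) 0 with hL
  have hL0 : 0 ≤ L := le_max_right _ _
  have hLy : Real.log y ≤ L := le_max_left _ _
  have hpos : ∀ i, (0 : ℝ) < N i / y := fun i => div_pos (by exact_mod_cast hN i) hy
  calc ∑ i ∈ F, ENNReal.ofReal (Real.exp (-(N i / y)))
      = ∑ i ∈ F, ∫⁻ u in Ioi (0 : ℝ), (Ioi ((N i : ℝ) / y)).indicator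
          (fun u => ENNReal.ofReal (Real.exp (-u))) u :=
        Finset.sum_congr rfl fun i _ => exp_eq _ (hpos i)
    _ = ∫⁻ u in Ioi (0 : ℝ), ∑ i ∈ F, (Ioi ((N i : ℝ) / y)).indicator
          (fun u => ENNReal.ofReal (Real.exp (-u))) u := by
        rw [lintegral_finsetSum]
        intro i _
        refine Measurable.indicator ?_ measurableSet_Ioi
        fun_prop
    _ ≤ ∫⁻ u in Ioi (0 : ℝ), ENNReal.ofReal
          ((y * c) * (Real.exp (-u) * u ^ 2) + (y * (c * L + C)) * (Real.exp (-u) * u)) := by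
        refine setLIntegral_mono (by fun_prop) fun u hu => ?_
        have hu0 : (0 : ℝ) < u := hu
        have h1 : ∑ i ∈ F, (Ioi ((N i : ℝ) / y)).indicator
            (fun u => ENNReal.ofReal (Real.exp (-u))) u =
            ((F.filter fun i => (N i : ℝ) / y < u).card : ℝ≥0∞) *
              ENNReal.ofReal (Real.exp (-u)) := by
          simp only [Set.indicator_apply, mem_Ioi]
          rw [← Finset.sum_filter, Finset.sum_const, nsmul_eq_mul]
        rw [h1]
        rcases Nat.eq_zero_or_pos (F.filter fun i => (N i : ℝ) / y < u).card with h2 | h2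
        · rw [h2]
          simp
        · have hG : ∀ i ∈ F.filter fun i => (N i : ℝ) / y < u, (N i : ℝ) ≤ u * y := by
            intro i hi
            have := (Finset.mem_filter.mp hi).2
            rw [div_lt_iff₀ hy] at this
            exact this.le
          obtain ⟨i, hi⟩ := Finset.card_pos.mp h2
          have h3 : (1 : ℝ) ≤ u * y := le_trans (by exact_mod_cast hN i) (hG i hi)
          have h4 := card_bound N hfin (u * y) _ hG
          have h5 := hcnt (u * y) h3
          have h6 : (((F.filter fun i => (N i : ℝ) / y < u).card : ℕ) : ℝ) ≤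
              c * (u * y) * Real.log (u * y) + C * (u * y) :=
            le_trans (by exact_mod_cast h4) h5
          have h7 : Real.log (u * y) ≤ u + L := by
            rw [Real.log_mul hu0.ne' hy.ne']
            have := Real.log_le_sub_one_of_pos hu0
            linarith
          have h8 : (((F.filter fun i => (N i : ℝ) / y < u).card : ℕ) : ℝ) ≤
              c * (u * y) * (u + L) + C * (u * y) := by
            refine h6.trans ?_
            have : 0 ≤ c * (u * y) := by positivity
            nlinarith [mul_le_mul_of_nonneg_left h7 this]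
          rw [← ENNReal.ofReal_natCast, ← ENNReal.ofReal_mul (Nat.cast_nonneg _)]
          refine ENNReal.ofReal_le_ofReal ?_
          have h9 := mul_le_mul_of_nonneg_right h8 (Real.exp_nonneg (-u))
          refine h9.trans (le_of_eq ?_)
          ring
    _ = ENNReal.ofReal (y * (c * L + c * K2 + C)) := by
        have i1 := int_one.1.const_mul (y * (c * L + C))
        have i2 := int_two.const_mul (y * c)
        have i3 : IntegrableOn (fun u : ℝ => (y * c) * (Real.exp (-u) * u ^ 2) +
          (y * (c * L + C)) * (Real.exp (-u) * u)) (Ioi 0) := i2.add i1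
        rw [lint_Ioi _ i3]
        · congr 1
          rw [integral_add i2 i1, integral_const_mul, integral_const_mul, int_one.2]
          show y * c * K2 + _ = _
          ring
        · intro u hu
          positivity

theorem step2 (c C₁ : ℝ) (hc : 0 ≤ c) (hC₁ : 0 ≤ C₁) (Y : ℝ) (hY : 1 ≤ Y) :
    ∫⁻ s : ℝ, ENNReal.ofReal (Real.exp (-(π / 4) * Real.exp (-2 * s))) *
      ENNReal.ofReal ((Y * Real.exp (-s)) * (c * max (Real.log (Y * Real.exp (-s))) 0 + C₁)) ≤
    ENNReal.ofReal (c * Y * Real.log Y + (c * K1 + C₁) * Y) := by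
  have hY0 : 0 < Y := by linarith
  have himg : (fun s : ℝ => Real.exp (-s)) '' univ = Ioi 0 := by
    ext w
    simp only [mem_image, mem_univ, true_and, mem_Ioi]
    constructor
    · rintro ⟨s, rfl⟩
      exact Real.exp_pos _
    · intro hw
      exact ⟨-Real.log w, by rw [neg_neg, Real.exp_log hw]⟩
  have hcv := lintegral_image_eq_lintegral_abs_deriv_mul (s := univ)
    (f := fun s : ℝ => Real.exp (-s)) (f' := fun s : ℝ => -Real.exp (-s)) MeasurableSet.univ
    (fun s _ => by
      have h := (hasDerivAt_neg s).exp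
      have h' : HasDerivAt (fun s : ℝ => Real.exp (-s)) (-Real.exp (-s)) s := by simpa using h
      exact h'.hasDerivWithinAt)
    (fun s _ t _ h => by
      have := Real.exp_injective h
      linarith)
    (fun w => ENNReal.ofReal (Real.exp (-(π / 4) * w ^ 2) *
      (Y * (c * max (Real.log (Y * w)) 0 + C₁))))
  rw [himg, Measure.restrict_univ] at hcv
  have h1 : ∀ s : ℝ, ENNReal.ofReal (Real.exp (-(π / 4) * Real.exp (-2 * s))) *
      ENNReal.ofReal ((Y * Real.exp (-s)) * (c * max (Real.log (Y * Real.exp (-s))) 0 + C₁)) =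
      ENNReal.ofReal |-Real.exp (-s)| * ENNReal.ofReal (Real.exp (-(π / 4) * Real.exp (-s) ^ 2) *
        (Y * (c * max (Real.log (Y * Real.exp (-s))) 0 + C₁))) := by
    intro s
    rw [← ENNReal.ofReal_mul (Real.exp_nonneg _), ← ENNReal.ofReal_mul (abs_nonneg _), abs_neg,
      abs_of_pos (Real.exp_pos _), ← Real.exp_nat_mul]
    congr 1
    have : ((2 : ℕ) : ℝ) * -s = -2 * s := by push_cast; ring
    rw [this]
    ring
  rw [lintegral_congr h1, ← hcv]
  have i1 : IntegrableOn (fun w : ℝ => Real.exp (-(π / 4) * w ^ 2)) (Ioi 0) :=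
    (integrable_exp_neg_mul_sq (by positivity)).integrableOn
  have i2 : IntegrableOn (fun w : ℝ => Real.exp (-(π / 4) * w ^ 2) * w) (Ioi 0) := by
    have := (integrable_mul_exp_neg_mul_sq (b := π / 4) (by positivity)).integrableOn (s := Ioi 0)
    refine this.congr_fun (fun w _ => ?_) measurableSet_Ioi
    ring
  have v1 : ∫ w in Ioi (0 : ℝ), Real.exp (-(π / 4) * w ^ 2) = 1 := by
    rw [integral_gaussian_Ioi]
    have : π / (π / 4) = 2 ^ 2 := by
      field_simp
      norm_num
    rw [this, Real.sqrt_sq (by norm_num)]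
    norm_num
  calc ∫⁻ w in Ioi (0 : ℝ), ENNReal.ofReal
        (Real.exp (-(π / 4) * w ^ 2) * (Y * (c * max (Real.log (Y * w)) 0 + C₁)))
      ≤ ∫⁻ w in Ioi (0 : ℝ), ENNReal.ofReal
        ((Y * (c * Real.log Y + C₁)) * Real.exp (-(π / 4) * w ^ 2) +
          (Y * c) * (Real.exp (-(π / 4) * w ^ 2) * w)) := by
        refine setLIntegral_mono (by fun_prop) fun w hw => ENNReal.ofReal_le_ofReal ?_
        have hw0 : (0 : ℝ) < w := hw
        have h2 : max (Real.log (Y * w)) 0 ≤ Real.log Y + w := by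
          refine max_le ?_ (add_nonneg (Real.log_nonneg hY) hw0.le)
          rw [Real.log_mul hY0.ne' hw0.ne']
          have := Real.log_le_sub_one_of_pos hw0
          linarith
        have h3 : Y * (c * max (Real.log (Y * w)) 0 + C₁) ≤ Y * (c * (Real.log Y + w) + C₁) := by
          gcongr
        have h4 := mul_le_mul_of_nonneg_left h3 (Real.exp_nonneg (-(π / 4) * w ^ 2))
        refine h4.trans (le_of_eq ?_)
        ring
    _ = ENNReal.ofReal (c * Y * Real.log Y + (c * K1 + C₁) * Y) := by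
        have j1 := i1.const_mul (Y * (c * Real.log Y + C₁))
        have j2 := i2.const_mul (Y * c)
        rw [lint_Ioi (fun w => (Y * (c * Real.log Y + C₁)) * Real.exp (-(π / 4) * w ^ 2) +
          (Y * c) * (Real.exp (-(π / 4) * w ^ 2) * w)) (j1.add j2)]
        · congr 1
          rw [integral_add j1 j2, integral_const_mul, integral_const_mul, v1]
          show _ + Y * c * K1 = _
          ring
        · intro w hw
          have := Real.log_nonneg hY
          positivity

end SumKK

open SumKK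

/-- F1 -/
theorem tsum_kk_le (c C : ℝ) (hc : 0 ≤ c) (hC : 0 ≤ C) : ∃ C' : ℝ, 0 ≤ C' ∧
    ∀ (ι : Type) [Countable ι] (N : ι → ℕ), (∀ i, 1 ≤ N i) → (∀ x : ℕ, Finite {i // N i ≤ x}) →
      (∀ x : ℝ, 1 ≤ x → (Nat.card {i // (N i : ℝ) ≤ x} : ℝ) ≤ c * x * Real.log x + C * x) →
      ∀ Y : ℝ, 1 ≤ Y → ∑' i, kk (N i / Y) ≤ ENNReal.ofReal (c * Y * Real.log Y + C' * Y) := by
  have hK1 := K1_nonneg
  have hK2 := K2_nonneg
  refine ⟨c * K1 + (c * K2 + C), by positivity, ?_⟩
  intro ι _ N hN hfin hcnt Y hY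
  have hY0 : 0 < Y := by linarith
  rw [ENNReal.tsum_eq_iSup_sum]
  refine iSup_le fun F => ?_
  refine le_trans ?_ (step2 c (c * K2 + C) hc (by positivity) Y hY)
  simp only [kk]
  rw [← lintegral_finsetSum _ (fun i _ => by fun_prop)]
  refine lintegral_mono fun s => ?_
  have h1 : ∀ i, ENNReal.ofReal (Real.exp (-(π / 4) * Real.exp (-2 * s) - Real.exp s * (N i / Y))) =
      ENNReal.ofReal (Real.exp (-(π / 4) * Real.exp (-2 * s))) *
        ENNReal.ofReal (Real.exp (-(N i / (Y * Real.exp (-s))))) := by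
    intro i
    rw [← ENNReal.ofReal_mul (Real.exp_nonneg _), ← Real.exp_add]
    congr 2
    rw [Real.exp_neg]
    have := Real.exp_pos s
    field_simp
    ring
  rw [Finset.sum_congr rfl fun i _ => h1 i, ← Finset.mul_sum]
  have h2 := step1 c C hc hC N hN hfin hcnt F (Y * Real.exp (-s)) (by positivity)
  have h3 : c * max (Real.log (Y * Real.exp (-s))) 0 + c * K2 + C =
      c * max (Real.log (Y * Real.exp (-s))) 0 + (c * K2 + C) := by ring
  rw [h3] at h2
  exact mul_le_mul_right h2 _

end Pool.Agent.Work.Mu22
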