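import Pool.Agent.Work.MP_a4986b_nt.Autocorr

set_option autoImplicit false
set_option maxHeartbeats 400000

/-! # A2: the theta inequality -/

namespace Pool.Agent.Work.Mu22

open NumberField Module MeasureTheory
open scoped Pointwise nonZeroDivisors ENNReal Real

theorem gauss_real (c : ℝ) (hc : 0 < c) :
    ∫⁻ x : ℝ, ENNReal.ofReal (Real.exp (-c * x ^ 2)) = ENNReal.ofReal (√(π / c)) := by
  rw [← ofReal_integral_eq_lintegral_ofReal (integrable_exp_neg_mul_sq hc)
    (ae_of_all _ fun x => (Real.exp_pos _).le), integral_gaussian]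

theorem gauss_complex (c : ℝ) (hc : 0 < c) :
    ∫⁻ z : ℂ, ENNReal.ofReal (Real.exp (-c * ‖z‖ ^ 2)) = ENNReal.ofReal (π / c) := by
  have h : ∫ z : ℂ, Real.exp (-c * ‖z‖ ^ 2) = π / c := by
    have h := GaussianFourier.integral_rexp_neg_mul_sq_norm (V := ℂ) hc
    rw [h, Complex.finrank_real_complex]
    norm_num
  rw [← ofReal_integral_eq_lintegral_ofReal (Integrable.of_integral_ne_zero (by
      rw [h]; positivity))
    (ae_of_all _ fun x => (Real.exp_pos _).le), h]

theorem acorr_real (c : ℝ) (hc : 0 < c) (v : ℝ) :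
    ∫⁻ x : ℝ, ENNReal.ofReal (Real.exp (-c * x ^ 2)) *
      ENNReal.ofReal (Real.exp (-c * (x + v) ^ 2)) =
    ENNReal.ofReal (Real.exp (-(c / 2) * v ^ 2)) * ENNReal.ofReal (√(π / (2 * c))) := by
  rw [← gauss_real (2 * c) (by positivity),
    ← lintegral_add_right_eq_self (μ := volume) (fun x : ℝ =>
      ENNReal.ofReal (Real.exp (-(2 * c) * x ^ 2))) (v / 2),
    ← lintegral_const_mul' _ _ ENNReal.ofReal_ne_top]
  refine lintegral_congr fun x => ?_
  rw [← ENNReal.ofReal_mul (Real.exp_pos _).le, ← ENNReal.ofReal_mul (Real.exp_pos _).le,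
    ← Real.exp_add, ← Real.exp_add]
  congr 2
  ring

theorem acorr_complex (c : ℝ) (hc : 0 < c) (v : ℂ) :
    ∫⁻ x : ℂ, ENNReal.ofReal (Real.exp (-c * ‖x‖ ^ 2)) *
      ENNReal.ofReal (Real.exp (-c * ‖x + v‖ ^ 2)) =
    ENNReal.ofReal (Real.exp (-(c / 2) * ‖v‖ ^ 2)) * ENNReal.ofReal (π / (2 * c)) := by
  rw [← gauss_complex (2 * c) (by positivity),
    ← lintegral_add_right_eq_self (μ := volume) (fun x : ℂ =>
      ENNReal.ofReal (Real.exp (-(2 * c) * ‖x‖ ^ 2))) (v / 2),
    ← lintegral_const_mul' _ _ ENNReal.ofReal_ne_top]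
  refine lintegral_congr fun x => ?_
  rw [← ENNReal.ofReal_mul (Real.exp_pos _).le, ← ENNReal.ofReal_mul (Real.exp_pos _).le,
    ← Real.exp_add, ← Real.exp_add]
  congr 2
  have h := parallelogram_law_with_norm ℝ (x + v / 2) (v / 2)
  rw [show x + v / 2 + v / 2 = x + v by ring, show x + v / 2 - v / 2 = x by ring] at h
  have h2 : ‖v / 2‖ ^ 2 = ‖v‖ ^ 2 / 4 := by
    rw [norm_div, RCLike.norm_ofNat]
    ring
  rw [h2] at h
  linear_combination (-c) * h

theorem lintegral_pi_unique {ι β : Type*} [hι : Fintype ι] [Subsingleton ι] [MeasureSpace β]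
    [SigmaFinite (volume : Measure β)]
    (F : β → ℝ≥0∞) (i : ι) : ∫⁻ x : ι → β, F (x i) = ∫⁻ t, F t := by
  let : Unique ι := ⟨⟨i⟩, fun j => Subsingleton.elim _ _⟩
  obtain rfl : hι = Unique.fintype := Subsingleton.elim _ _
  exact (volume_preserving_funUnique ι β).lintegral_comp_emb
    (MeasurableEquiv.measurableEmbedding _) F

section

variable {K : Type*} [Field K] [NumberField K]

open InfinitePlace mixedEmbedding Submodule ZSpan

open scoped Classical in
theorem places (h3 : finrank ℚ K = 3) (φ : K →+* ℝ) (ψ : K →+* ℂ)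
    (hψ : ¬ ComplexEmbedding.IsReal ψ) :
    nrRealPlaces K = 1 ∧ nrComplexPlaces K = 1 := by
  have h := card_add_two_mul_card_eq_rank (K := K)
  rw [h3] at h
  have h1 : 0 < nrRealPlaces K := by
    refine Fintype.card_pos_iff.2 ⟨⟨InfinitePlace.mk (Complex.ofRealHom.comp φ), ?_⟩⟩
    rw [isReal_mk_iff, ComplexEmbedding.isReal_iff]
    ext x
    simp
  have h2 : 0 < nrComplexPlaces K :=
    Fintype.card_pos_iff.2 ⟨⟨InfinitePlace.mk ψ, isComplex_mk_iff.2 hψ⟩⟩
  omega

open scoped Classical in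
/-- A2: theta inequality for an ideal of a field of signature (1, 1) -/
theorem theta_ineq (h3 : finrank ℚ K = 3) (φ : K →+* ℝ) (ψ : K →+* ℂ)
    (hψ : ¬ ComplexEmbedding.IsReal ψ) (I : Ideal (𝓞 K)) (hI : I ≠ ⊥) (a b : ℝ) (ha : 0 < a)
    (hb : 0 < b) :
    ENNReal.ofReal (4 * π * a * b / (Ideal.absNorm I * √|(discr K : ℝ)|)) ≤
      ∑' x : I, ENNReal.ofReal
        (Real.exp (-(π / 4) * (φ (x : 𝓞 K) / a) ^ 2 - ‖ψ (x : 𝓞 K)‖ ^ 2 / b)) := by
  obtain ⟨hr, hc⟩ := places h3 φ ψ hψ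
  have hsr : Subsingleton {w : InfinitePlace K // w.IsReal} :=
    Fintype.card_le_one_iff_subsingleton.1 hr.le
  have hsc : Subsingleton {w : InfinitePlace K // w.IsComplex} :=
    Fintype.card_le_one_iff_subsingleton.1 hc.le
  have hre : (InfinitePlace.mk (Complex.ofRealHom.comp φ)).IsReal := by
    rw [isReal_mk_iff, ComplexEmbedding.isReal_iff]
    ext x
    simp
  let w0 : {w : InfinitePlace K // w.IsReal} := ⟨_, hre⟩
  let w1 : {w : InfinitePlace K // w.IsComplex} := ⟨_, isComplex_mk_iff.2 hψ⟩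
  have hw0 : ∀ x : K, ((mixedEmbedding K x).1 w0) ^ 2 = φ x ^ 2 := by
    intro x
    have h1 : (w0 : InfinitePlace K) x = |φ x| := by
      change ‖((φ x : ℝ) : ℂ)‖ = _
      rw [Complex.norm_real, Real.norm_eq_abs]
    rw [mixedEmbedding_apply_isReal, ← sq_abs, ← Real.norm_eq_abs, norm_embedding_of_isReal, h1,
      sq_abs]
  have hw1 : ∀ x : K, ‖(mixedEmbedding K x).2 w1‖ = ‖ψ x‖ := by
    intro x
    rw [mixedEmbedding_apply_isComplex, norm_embedding_eq]
    rfl
  let J : (FractionalIdeal (𝓞 K)⁰ K)ˣ :=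
    FractionalIdeal.mk0 K ⟨I, mem_nonZeroDivisors_of_ne_zero hI⟩
  let B := fractionalIdealLatticeBasis K J
  set c1 : ℝ := π / (2 * a ^ 2) with hc1
  set c2 : ℝ := 2 / b with hc2
  have hc1p : 0 < c1 := by positivity
  have hc2p : 0 < c2 := by positivity
  let g : mixedSpace K → ℝ≥0∞ := fun x => ENNReal.ofReal (Real.exp (-c1 * x.1 w0 ^ 2)) *
    ENNReal.ofReal (Real.exp (-c2 * ‖x.2 w1‖ ^ 2))
  have hg : Measurable g := by fun_prop
  let Λ : AddSubgroup (mixedSpace K) := (span ℤ (Set.range B)).toAddSubgroup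
  have hΛ : Countable Λ := by
    change Countable (span ℤ (Set.range (fractionalIdealLatticeBasis K J)))
    infer_instance
  have key := autocorr (volume : Measure (mixedSpace K)) Λ (fundamentalDomain B)
    (ZSpan.isAddFundamentalDomain' B volume) g hg
  have hprod : ∀ (F : ℝ → ℝ≥0∞) (H : ℂ → ℝ≥0∞), Measurable F → Measurable H →
      ∫⁻ x : mixedSpace K, F (x.1 w0) * H (x.2 w1) = (∫⁻ t, F t) * ∫⁻ z, H z := by
    intro F H hF hH
    have hF' : Measurable fun x : {w : InfinitePlace K // w.IsReal} → ℝ => F (x w0) :=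
      hF.comp (measurable_pi_apply _)
    have hH' : Measurable fun x : {w : InfinitePlace K // w.IsComplex} → ℂ => H (x w1) :=
      hH.comp (measurable_pi_apply _)
    rw [← lintegral_pi_unique F w0, ← lintegral_pi_unique H w1,
      ← lintegral_prod_mul hF'.aemeasurable hH'.aemeasurable]
    rfl
  have hint : ∫⁻ x, g x = ENNReal.ofReal (√2 * a * (π * b / 2)) := by
    rw [hprod (fun t => ENNReal.ofReal (Real.exp (-c1 * t ^ 2)))
      (fun z => ENNReal.ofReal (Real.exp (-c2 * ‖z‖ ^ 2))) (by fun_prop) (by fun_prop),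
      gauss_real c1 hc1p, gauss_complex c2 hc2p, ← ENNReal.ofReal_mul (Real.sqrt_nonneg _)]
    congr 2
    · rw [hc1, show π / (π / (2 * a ^ 2)) = 2 * a ^ 2 by field_simp,
        Real.sqrt_mul (by norm_num), Real.sqrt_sq ha.le]
    · rw [hc2]
      field_simp
  have hac : ∀ v : Λ, ∫⁻ x, g x * g (x + v) =
      ENNReal.ofReal (Real.exp (-(π / 4) * ((v : mixedSpace K).1 w0 / a) ^ 2
        - ‖(v : mixedSpace K).2 w1‖ ^ 2 / b)) * ENNReal.ofReal (a * (π * b / 4)) := by
    intro v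
    have h1 : ∀ x : mixedSpace K, g x * g (x + v) =
        (ENNReal.ofReal (Real.exp (-c1 * x.1 w0 ^ 2)) *
          ENNReal.ofReal (Real.exp (-c1 * (x.1 w0 + (v : mixedSpace K).1 w0) ^ 2))) *
        (ENNReal.ofReal (Real.exp (-c2 * ‖x.2 w1‖ ^ 2)) *
          ENNReal.ofReal (Real.exp (-c2 * ‖x.2 w1 + (v : mixedSpace K).2 w1‖ ^ 2))) := by
      intro x
      simp only [g, Prod.fst_add, Prod.snd_add, Pi.add_apply]
      ring
    simp only [h1]
    rw [hprod (fun t => ENNReal.ofReal (Real.exp (-c1 * t ^ 2)) *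
        ENNReal.ofReal (Real.exp (-c1 * (t + (v : mixedSpace K).1 w0) ^ 2)))
      (fun z => ENNReal.ofReal (Real.exp (-c2 * ‖z‖ ^ 2)) *
        ENNReal.ofReal (Real.exp (-c2 * ‖z + (v : mixedSpace K).2 w1‖ ^ 2)))
      (by fun_prop) (by fun_prop), acorr_real c1 hc1p, acorr_complex c2 hc2p,
      ENNReal.ofReal_mul ha.le, sub_eq_add_neg, Real.exp_add,
      ENNReal.ofReal_mul (Real.exp_pos _).le]
    have h2 : √(π / (2 * c1)) = a := by
      rw [hc1, show π / (2 * (π / (2 * a ^ 2))) = a ^ 2 by field_simp, Real.sqrt_sq ha.le]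
    have h3 : π / (2 * c2) = π * b / 4 := by
      rw [hc2]
      field_simp
      norm_num
    have h4 : -(c1 / 2) * (v : mixedSpace K).1 w0 ^ 2 =
        -(π / 4) * ((v : mixedSpace K).1 w0 / a) ^ 2 := by
      rw [hc1]
      field_simp
      ring
    have h5 : -(c2 / 2) * ‖(v : mixedSpace K).2 w1‖ ^ 2 =
        -(‖(v : mixedSpace K).2 w1‖ ^ 2 / b) := by
      rw [hc2]
      field_simp
    rw [h2, h3, h4, h5]
    ring
  have hvol : volume (fundamentalDomain B) =
      ENNReal.ofReal (Ideal.absNorm I * √|(discr K : ℝ)| / 2) := by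
    rw [volume_fundamentalDomain_fractionalIdealLatticeBasis,
      volume_fundamentalDomain_latticeBasis, hc, pow_one, FractionalIdeal.coe_mk0,
      FractionalIdeal.coeIdeal_absNorm, Rat.cast_natCast]
    have h1 : ((NNReal.sqrt ‖discr K‖₊ : NNReal) : ℝ≥0∞) = ENNReal.ofReal (√|(discr K : ℝ)|) := by
      rw [← ENNReal.ofReal_coe_nnreal, Real.coe_sqrt, coe_nnnorm, Int.norm_eq_abs]
    rw [h1, mul_div_assoc, ENNReal.ofReal_mul (by positivity), div_eq_inv_mul,
      ENNReal.ofReal_mul (by positivity), ENNReal.ofReal_inv_of_pos (by norm_num)]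
    norm_num
  have hsum : ∑' v : Λ, ENNReal.ofReal (Real.exp (-(π / 4) * ((v : mixedSpace K).1 w0 / a) ^ 2
        - ‖(v : mixedSpace K).2 w1‖ ^ 2 / b)) = ∑' x : I, ENNReal.ofReal
        (Real.exp (-(π / 4) * (φ (x : 𝓞 K) / a) ^ 2 - ‖ψ (x : 𝓞 K)‖ ^ 2 / b)) := by
    have hmem : ∀ x : I, mixedEmbedding K ((x : 𝓞 K) : K) ∈ Λ := by
      intro x
      simp only [Λ, mem_toAddSubgroup]
      rw [mem_span_fractionalIdealLatticeBasis]
      refine ⟨((x : 𝓞 K) : K), ?_, rfl⟩
      rw [FractionalIdeal.coe_mk0]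
      exact ⟨x, x.2, rfl⟩
    let e : I → Λ := fun x => ⟨mixedEmbedding K ((x : 𝓞 K) : K), hmem x⟩
    have he : Function.Bijective e := by
      constructor
      · intro x y hxy
        have h1 := (mixedEmbedding K).injective (congrArg Subtype.val hxy)
        exact Subtype.ext (RingOfIntegers.ext h1)
      · rintro ⟨v, hv⟩
        simp only [Λ, mem_toAddSubgroup] at hv
        rw [mem_span_fractionalIdealLatticeBasis] at hv
        obtain ⟨y, hy, rfl⟩ := hv
        rw [FractionalIdeal.coe_mk0] at hy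
        obtain ⟨x, hx, rfl⟩ := hy
        exact ⟨⟨x, hx⟩, rfl⟩
    rw [← (Equiv.ofBijective e he).tsum_eq]
    refine tsum_congr fun x => ?_
    simp only [Equiv.ofBijective_apply, e, div_pow, hw0, hw1]
  simp only [hac, hint, hvol] at key
  rw [ENNReal.tsum_mul_right, hsum] at key
  have hN : 0 < (Ideal.absNorm I : ℝ) := by
    exact_mod_cast Nat.pos_of_ne_zero (by rwa [ne_eq, Ideal.absNorm_eq_zero_iff])
  have hd : 0 < √|(discr K : ℝ)| := by
    have : discr K ≠ 0 := discr_ne_zero K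
    positivity
  set S := ∑' x : I, ENNReal.ofReal
        (Real.exp (-(π / 4) * (φ (x : 𝓞 K) / a) ^ 2 - ‖ψ (x : 𝓞 K)‖ ^ 2 / b)) with hS
  set A : ℝ := Ideal.absNorm I * √|(discr K : ℝ)| / 2 * (a * (π * b / 4)) with hA
  have hA0 : 0 < A := by positivity
  have h1 : ENNReal.ofReal (4 * π * a * b / (Ideal.absNorm I * √|(discr K : ℝ)|)) *
      ENNReal.ofReal A ≤ S * ENNReal.ofReal A := by
    calc ENNReal.ofReal (4 * π * a * b / (Ideal.absNorm I * √|(discr K : ℝ)|)) *
          ENNReal.ofReal A = ENNReal.ofReal (√2 * a * (π * b / 2)) ^ 2 := by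
          rw [← ENNReal.ofReal_mul (by positivity), ← ENNReal.ofReal_pow (by positivity)]
          congr 1
          rw [mul_pow, mul_pow, Real.sq_sqrt (by norm_num), hA]
          field_simp
      _ ≤ _ := key
      _ = S * ENNReal.ofReal A := by
          rw [hA, ENNReal.ofReal_mul (p := Ideal.absNorm I * √|(discr K : ℝ)| / 2)
            (by positivity)]
          exact mul_left_comm _ _ _
  exact (ENNReal.mul_le_mul_iff_left (ENNReal.ofReal_pos.2 hA0).ne' ENNReal.ofReal_ne_top).1 h1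

end

end Pool.Agent.Work.Mu22
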