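import Pool.Agent.Work.MP_a4986b_nt.UnfoldB
import Pool.Agent.Work.MP_a4986b_nt.Theta

set_option autoImplicit false
set_option maxHeartbeats 400000

/-! # Unfolding over all classes and units -/

namespace Pool.Agent.Work.Mu22

open NumberField Module MeasureTheory
open scoped Pointwise nonZeroDivisors ENNReal Real

variable {K : Type*} [Field K] [NumberField K]

/-- A3: unfolding over all classes and units -/
theorem unfold_ineq (h3 : finrank ℚ K = 3) (φ : K →+* ℝ) (ψ : K →+* ℂ)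
    (hψ : ¬ ComplexEmbedding.IsReal ψ) (R : ℝ) (hR : 0 < R)
    (hunit : ∀ u : (𝓞 K)ˣ, u ≠ 1 → u ≠ -1 → R ≤ abs (Real.log (abs (φ (u : 𝓞 K))))) (Y : ℝ)
    (hY : 0 < Y) :
    ENNReal.ofReal (Nat.card (ClassGroup (𝓞 K)) * R * (4 * π * Y / √|(discr K : ℝ)| - 1)) ≤
      2 * ∑' I : {I : Ideal (𝓞 K) // I ≠ ⊥}, kk (Ideal.absNorm I.1 / Y) :=
  unfold_core h3 φ ψ hψ R hR hunit Y hY fun I hI a b ha hb =>
    theta_ineq h3 φ ψ hψ I hI a b ha hb

end Pool.Agent.Work.Mu22
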