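import Pool.Agent.Work.MP_a4986b_nt.CubicT

set_option autoImplicit false
set_option maxHeartbeats 400000

/-! # G1: lower bound for the units of a pure cubic field of prime radicand -/

namespace Pool.Agent.Work.Mu22

open NumberField Module Polynomial
open scoped Pointwise nonZeroDivisors

/-- the norm form -/
def FF (P a b c : ℤ) : ℤ := a ^ 3 + P * b ^ 3 + P ^ 2 * c ^ 3 - 3 * P * a * b * c

theorem FF_mul (P a b c a' b' c' : ℤ) : FF P a b c * FF P a' b' c' =
    FF P (a * a' + P * (b * c' + c * b')) (a * b' + b * a' + P * (c * c'))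
      (a * c' + b * b' + c * a') := by
  unfold FF
  ring

theorem abs_le_of_sq_le {x : ℝ} (h : x ^ 2 ≤ 28697814) : |x| ≤ 5358 := by
  apply abs_le_of_sq_le_sq _ (by norm_num)
  norm_num
  linarith

/-- the real inequality -/
theorem real_ineq {s x : ℝ} {P a b c : ℤ} (hs : 10000 ≤ s) (hsP : s ^ 3 = P)
    (hx : x = a + b * s + c * s ^ 2) (hx1 : 27 ≤ |x|) (hF : |FF P a b c| ≤ 729 ^ 3) :
    (b = 0 ∧ c = 0) ∨ 27 * (s ^ 2 / 18) ≤ |x| := by
  set G : ℝ := a ^ 2 + b ^ 2 * s ^ 2 + c ^ 2 * s ^ 4 - a * b * s - b * c * s ^ 3 - a * c * s ^ 2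
    with hG
  have h1 : ((FF P a b c : ℤ) : ℝ) = x * G := by
    unfold FF
    push_cast
    rw [← hsP, hx, hG]
    ring
  have h2 : |x| * |G| ≤ 729 ^ 3 := by
    rw [← abs_mul, ← h1]
    exact_mod_cast hF
  have h3 : |G| ≤ 14348907 := by
    have h4 : 27 * |G| ≤ |x| * |G| := mul_le_mul_of_nonneg_right hx1 (abs_nonneg _)
    norm_num at h2
    linarith
  have h4 : G ≤ 14348907 := le_trans (le_abs_self _) h3
  have h5 : 2 * G = (a - b * s) ^ 2 + (b * s - c * s ^ 2) ^ 2 + (c * s ^ 2 - a) ^ 2 := by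
    rw [hG]; ring
  have h6 : |b * s - c * s ^ 2| ≤ 5358 := by
    apply abs_le_of_sq_le
    nlinarith [sq_nonneg (a - b * s : ℝ), sq_nonneg (c * s ^ 2 - a : ℝ)]
  have h7 : |c * s ^ 2 - a| ≤ 5358 := by
    apply abs_le_of_sq_le
    nlinarith [sq_nonneg (a - b * s : ℝ), sq_nonneg (b * s - c * s ^ 2 : ℝ)]
  by_cases hc : c = 0
  · left
    refine ⟨?_, hc⟩
    by_contra hb
    have h8 : (1 : ℝ) ≤ |(b : ℝ)| := by
      have := Int.one_le_abs hb
      exact_mod_cast this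
    rw [hc] at h6
    simp only [Int.cast_zero, zero_mul, sub_zero, abs_mul] at h6
    rw [abs_of_pos (by linarith : (0 : ℝ) < s)] at h6
    nlinarith
  · right
    have h8 : (1 : ℝ) ≤ |(c : ℝ)| := by
      have := Int.one_le_abs hc
      exact_mod_cast this
    have h9 : s ^ 2 ≤ |c * s ^ 2| := by
      rw [abs_mul, abs_of_nonneg (sq_nonneg s)]
      nlinarith [sq_nonneg s]
    have h10 : 3 * (c * s ^ 2) = x - (b * s - c * s ^ 2) + (c * s ^ 2 - a) := by
      rw [hx]; ring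
    have h11 : 3 * |c * s ^ 2| ≤ |x| + 5358 + 5358 := by
      have h12 : 3 * |c * s ^ 2| = |3 * (c * s ^ 2)| := by
        rw [abs_mul (3 : ℝ), abs_of_pos (by norm_num : (0 : ℝ) < 3)]
      rw [h12, h10]
      calc |x - (b * s - c * s ^ 2) + (c * s ^ 2 - a)|
          ≤ |x - (b * s - c * s ^ 2)| + |c * s ^ 2 - a| := abs_add_le _ _
        _ ≤ (|x| + |b * s - c * s ^ 2|) + |c * s ^ 2 - a| := by
          gcongr
          exact abs_sub _ _
        _ ≤ _ := by linarith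
    nlinarith

variable {K : Type*} [Field K] [NumberField K]

/-- a unit whose multiple by `27` is an integer is `1` or `-1` -/
theorem unit_of_int (h3 : finrank ℚ K = 3) (u : (𝓞 K)ˣ) (a : ℤ)
    (h : 27 * ((u : 𝓞 K) : K) = a) : u = 1 ∨ u = -1 := by
  have h1 : Algebra.norm ℤ (27 * (u : 𝓞 K)) = a ^ 3 := by
    have h2 : 27 * (u : 𝓞 K) = algebraMap ℤ (𝓞 K) a := by
      apply RingOfIntegers.coe_injective
      rw [map_mul, map_ofNat]
      exact h.trans (by simp)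
    rw [h2, Algebra.norm_algebraMap, RingOfIntegers.rank, h3]
  have h4 : Algebra.norm ℤ (27 : 𝓞 K) = 27 ^ 3 := by
    have h5 : (27 : 𝓞 K) = algebraMap ℤ (𝓞 K) 27 := by simp
    rw [h5, Algebra.norm_algebraMap, RingOfIntegers.rank, h3]
  rw [map_mul, h4] at h1
  have h6 := Int.isUnit_iff.mp (u.isUnit.map (Algebra.norm ℤ (S := 𝓞 K)))
  have hodd : Function.Injective (fun x : ℤ => x ^ 3) :=
    (Odd.strictMono_pow (by decide : Odd 3)).injective
  have h27 : ((27 : ℤ) : K) ≠ 0 := by norm_num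
  rcases h6 with h6 | h6
  · left
    rw [h6, mul_one] at h1
    have h7 : (27 : ℤ) = a := hodd h1
    rw [← h7] at h
    push_cast at h
    have h8 : ((u : 𝓞 K) : K) = 1 := by
      have : (27 : K) * ((u : 𝓞 K) : K) = 27 * 1 := by rw [h]; ring
      exact mul_left_cancel₀ (by norm_num) this
    apply Units.ext
    apply RingOfIntegers.coe_injective
    simpa using h8
  · right
    rw [h6] at h1
    have h7 : (-27 : ℤ) = a := by
      apply hodd
      simp only
      rw [← h1]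
      norm_num
    rw [← h7] at h
    push_cast at h
    have h8 : ((u : 𝓞 K) : K) = -1 := by
      have : (27 : K) * ((u : 𝓞 K) : K) = 27 * (-1) := by rw [h]; ring
      exact mul_left_cancel₀ (by norm_num) this
    apply Units.ext
    apply RingOfIntegers.coe_injective
    simpa using h8

theorem cube_root_ge {s : ℝ} {p : ℕ} (hs : s ^ 3 = p) (hbig : (10 : ℝ) ^ 12 ≤ p) :
    10000 ≤ s := by
  by_contra h
  push Not at h
  rw [← hs] at hbig
  have hs0 : 0 ≤ s := by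
    by_contra h0
    push Not at h0
    have : s ^ 3 < 0 := by
      have := Odd.pow_neg (by decide : Odd 3) h0
      exact this
    linarith [show (0 : ℝ) < 10 ^ 12 by norm_num]
  have h1 : s ^ 3 < 10000 ^ 3 := pow_lt_pow_left₀ h hs0 (by norm_num)
  norm_num at h1 hbig
  linarith

theorem unit_big (h3 : finrank ℚ K = 3) {p : ℕ} (hp : p.Prime) (hbig : (10 : ℝ) ^ 12 ≤ p)
    (t : 𝓞 K) (ht : t ^ 3 = p) (φ : K →+* ℝ) (u : (𝓞 K)ˣ) (h1 : u ≠ 1) (h2 : u ≠ -1)
    (hu : 1 ≤ |φ (u : 𝓞 K)|) : (φ t) ^ 2 / 18 ≤ |φ (u : 𝓞 K)| := by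
  have htK : (t : K) ^ 3 = p := by
    have h := congrArg (algebraMap (𝓞 K) K) ht
    rw [map_pow, map_natCast] at h
    exact h
  have hs : (φ t) ^ 3 = p := by
    rw [← map_pow, htK, map_natCast]
  obtain ⟨a, b, c, e1⟩ := smul_mem h3 hp (t : K) htK (RingOfIntegers.isIntegral_coe (u : 𝓞 K))
  obtain ⟨a', b', c', e2⟩ := smul_mem h3 hp (t : K) htK
    (RingOfIntegers.isIntegral_coe ((u⁻¹ : (𝓞 K)ˣ) : 𝓞 K))
  have e3 : ((u : 𝓞 K) : K) * (((u⁻¹ : (𝓞 K)ˣ) : 𝓞 K) : K) = 1 := by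
    have := congrArg (algebraMap (𝓞 K) K) (Units.mul_inv u)
    simpa using this
  have e4 : (((a * a' + p * (b * c' + c * b') - 729 : ℤ)) : K) +
      ((a * b' + b * a' + p * (c * c') : ℤ) : K) * t +
      ((a * c' + b * b' + c * a' : ℤ) : K) * (t : K) ^ 2 = 0 := by
    have e5 : (27 * ((u : 𝓞 K) : K)) * (27 * (((u⁻¹ : (𝓞 K)ˣ) : 𝓞 K) : K)) = 729 := by
      linear_combination 729 * e3
    rw [e1, e2] at e5
    push_cast
    linear_combination e5 + (- (b * c' : K) - c * b' - c * c' * t) * htK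
  obtain ⟨f1, f2, f3⟩ := lin_indep hp (t : K) htK e4
  have hF : FF p a b c * FF p a' b' c' = 729 ^ 3 := by
    rw [FF_mul, f2, f3, sub_eq_zero.mp f1]
    unfold FF
    ring
  have hF1 : |FF p a b c| ≤ 729 ^ 3 := by
    have hdvd : |FF p a b c| ∣ 729 ^ 3 := (abs_dvd _ _).mpr (Dvd.intro _ hF)
    exact Int.le_of_dvd (by norm_num) hdvd
  have hx : 27 * φ (u : 𝓞 K) = a + b * φ t + c * (φ t) ^ 2 := by
    have h := congrArg φ e1
    rw [map_mul, map_add, map_add, map_mul, map_mul, map_pow, map_ofNat] at h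
    simp only [map_intCast] at h
    exact h
  have hx1 : 27 ≤ |27 * φ (u : 𝓞 K)| := by
    rw [abs_mul, abs_of_pos (by norm_num : (0 : ℝ) < 27)]
    linarith
  rcases real_ineq (P := (p : ℤ)) (cube_root_ge hs hbig) (by rw [hs]; simp) hx hx1 hF1 with
    ⟨hb, hc⟩ | h
  · exfalso
    rw [hb, hc] at e1
    rcases unit_of_int h3 u a (by rw [e1]; simp) with h | h
    · exact h1 h
    · exact h2 h
  · rw [abs_mul, abs_of_pos (by norm_num : (0 : ℝ) < 27)] at h
    linarith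

theorem log_bound {s x : ℝ} {p : ℕ} (hs : s ^ 3 = p) (hbig : (10 : ℝ) ^ 12 ≤ p)
    (hx : s ^ 2 / 18 ≤ |x|) : 2 / 3 * Real.log p - 10 ^ 12 ≤ abs (Real.log |x|) := by
  have h1 := cube_root_ge hs hbig
  have hs0 : 0 < s := by linarith
  have h2 : Real.log (s ^ 2 / 18) ≤ Real.log |x| :=
    Real.log_le_log (by positivity) hx
  rw [Real.log_div (by positivity) (by norm_num), Real.log_pow] at h2
  have h3 : Real.log p = 3 * Real.log s := by
    rw [← hs, Real.log_pow]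
    norm_num
  have h4 : Real.log 18 ≤ 18 := by
    have := Real.log_le_sub_one_of_pos (by norm_num : (0 : ℝ) < 18)
    linarith
  have h5 := le_abs_self (Real.log |x|)
  rw [h3]
  push_cast at h2
  have h6 : (18 : ℝ) ≤ 10 ^ 12 := by norm_num
  linarith

/-- G1: lower bound for the units -/
theorem unit_bound : ∃ C : ℝ, ∀ (K : Type) [Field K] [NumberField K], finrank ℚ K = 3 →
    ∀ p : ℕ, p.Prime → C ≤ p → ∀ t : 𝓞 K, t ^ 3 = p → ∀ φ : K →+* ℝ,
      ∀ u : (𝓞 K)ˣ, u ≠ 1 → u ≠ -1 →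
        2 / 3 * Real.log p - C ≤ abs (Real.log (abs (φ (u : 𝓞 K)))) := by
  refine ⟨10 ^ 12, ?_⟩
  intro K _ _ h3 p hp hbig t ht φ u h1 h2
  have htK : (t : K) ^ 3 = p := by
    have h := congrArg (algebraMap (𝓞 K) K) ht
    rw [map_pow, map_natCast] at h
    exact h
  have hs : (φ t) ^ 3 = p := by
    rw [← map_pow, htK, map_natCast]
  have e3 : φ (u : 𝓞 K) * φ ((u⁻¹ : (𝓞 K)ˣ) : 𝓞 K) = 1 := by
    have := congrArg (fun x : 𝓞 K => φ x) (Units.mul_inv u)
    simpa using this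
  rcases le_or_gt 1 |φ (u : 𝓞 K)| with hu | hu
  · exact log_bound hs hbig (unit_big h3 hp hbig t ht φ u h1 h2 hu)
  · have e4 : |φ (u : 𝓞 K)| * |φ ((u⁻¹ : (𝓞 K)ˣ) : 𝓞 K)| = 1 := by
      rw [← abs_mul, e3, abs_one]
    have hu' : 1 ≤ |φ ((u⁻¹ : (𝓞 K)ˣ) : 𝓞 K)| := by
      by_contra h
      push Not at h
      have := mul_lt_one_of_nonneg_of_lt_one_left (abs_nonneg _) hu h.le
      linarith
    have h1' : u⁻¹ ≠ 1 := by simpa using h1
    have h2' : u⁻¹ ≠ -1 := by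
      intro h
      apply h2
      rw [← inv_inv u, h]
      simp
    have h5 := log_bound hs hbig (unit_big h3 hp hbig t ht φ u⁻¹ h1' h2' hu')
    have h6 : |φ (u : 𝓞 K)| = |φ ((u⁻¹ : (𝓞 K)ˣ) : 𝓞 K)|⁻¹ := eq_inv_of_mul_eq_one_left e4
    rw [h6, Real.log_inv, abs_neg]
    exact h5

end Pool.Agent.Work.Mu22
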