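import Pool.Agent.Work.MP_a4986b_nt.ClassNoAux
import Pool.Agent.Work.MP_a4986b_nt.Unfold
import Pool.Agent.Work.MP_a4986b_nt.CountA
import Pool.Agent.Work.MP_a4986b_nt.Primes
import Pool.Agent.Work.MP_a4986b_nt.SumBB
import Pool.Agent.Work.MP_a4986b_nt.SumKK
import Pool.Agent.Work.MP_a4986b_nt.UnitB
import Pool.Agent.Work.MP_a4986b_nt.Disc

set_option autoImplicit false
set_option maxHeartbeats 400000

/-! # I1: the class number bound for pure cubic fields `ℚ(∛p)` -/

namespace Pool.Agent.Work.Mu22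

open NumberField Module MeasureTheory
open scoped Pointwise nonZeroDivisors ENNReal Real

/-- I1 -/
theorem classNumber_lt : ∃ p₀ : ℕ, ∀ (K : Type) [Field K] [NumberField K], finrank ℚ K = 3 →
    ∀ p : ℕ, p.Prime → p₀ ≤ p → ∀ t : 𝓞 K, t ^ 3 = p →
      Nat.card (ClassGroup (𝓞 K)) < p :=
  classNumber_lt_of (fun _ _ _ => unfold_ineq)
    (fun K _ _ h3 p hp hp3 t ht _ hn => card_norm_le_bb_of (K := K) (p := p)
      (fun hq k => card_norm_pow_le h3 hq k) (fun k => card_norm_pow_le_three h3 hp hp3 t ht k)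
      (fun hq h2 hqp k => card_norm_pow_le_two h3 hp hp3 t ht hq h2 hqp k)
      (fun k => card_norm_pow_le_p h3 hp t ht k) hn)
    sum_bb_le tsum_kk_le unit_bound (fun _ _ _ => discr_le) (fun _ _ _ => exists_embeddings)

end Pool.Agent.Work.Mu22
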