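import Pool.Agent.Work.MP_a4986b_nt.Defs

set_option autoImplicit false
set_option maxHeartbeats 400000

/-! # Definitions for the explicit class number bound `27 h ^ 2 < |D|` for pure cubic fields -/

namespace Pool.Agent.Work.Mu22

open NumberField Module
open scoped ENNReal Real

/-- number of ideals of norm `n` of `ℤ[ω]` -/
def rr (n : ℕ) : ℤ := ∑ d ∈ n.divisors, chi3 d

/-- `∑ rr(n) e^(-n v)` -/
noncomputable def HH (v : ℝ) : ℝ := ∑' n : ℕ, (rr n : ℝ) * Real.exp (-(n * v))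

/-- `∑_{m ≥ 1} e^(-(π/4) m² s²)` -/
noncomputable def JJ (s : ℝ) : ℝ := ∑' m : ℕ, Real.exp (-(π / 4) * (((m : ℝ) + 1) * s) ^ 2)

/-- `L(1, χ₋₃) = π / (3 √3)` -/
noncomputable def LL : ℝ := π / (3 * √3)

/-- the cubic field `K` is `ℚ(t)` with `t ^ 3 = a b ^ 2`, `a b > 1` squarefree -/
structure PureCubic (K : Type*) [Field K] [NumberField K] (a b : ℕ) (t : 𝓞 K) : Prop where
  three : finrank ℚ K = 3
  sqf : Squarefree (a * b)
  one_lt : 1 < a * b
  cube : t ^ 3 = ((a * b ^ 2 : ℕ) : 𝓞 K)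

end Pool.Agent.Work.Mu22
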