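import Pool.Agent.Work.MP_a4986b_nt.Primes
import Pool.Agent.Work.MP_a4986b_nt.Defs2

set_option autoImplicit false
set_option maxHeartbeats 400000

/-! # D2b'-D2e': ideals of prime power norm in all pure cubic fields -/

namespace Pool.Agent.Work.Mu22

open NumberField Module MeasureTheory UniqueFactorizationMonoid
open scoped Pointwise nonZeroDivisors ENNReal Real

section

variable {K : Type*} [Field K] [NumberField K]

/-- all ramification indices at `q` are divisible by 3 -/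
theorem three_le_cc' {m : ℕ} (hm : m ≠ 0) {t : 𝓞 K} (ht : t ^ 3 = m) {q : ℕ} (hq : q.Prime)
    (hv : ¬ 3 ∣ m.factorization q) {R : Ideal (𝓞 K)}
    (hR : R ∈ pS K q) : 3 ≤ cc (Ideal.span {(q : 𝓞 K)}) R := by
  classical
  have hR' := (mem_pS hq R).1 hR
  have ht0 : t ≠ 0 := by
    intro h
    rw [h, zero_pow (by norm_num)] at ht
    exact hm (by exact_mod_cast ht.symm)
  obtain ⟨m', hm'⟩ := Nat.ordProj_dvd m q
  set v := m.factorization q with hvdef
  have hcop : Nat.Coprime q m' := by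
    have h1 := Nat.coprime_ordCompl hq hm
    have h2 : m / q ^ v = m' := Nat.div_eq_of_eq_mul_right (pow_pos hq.pos _) hm'
    rwa [← hvdef, h2] at h1
  have hm'0 : m' ≠ 0 := by
    rintro rfl
    rw [mul_zero] at hm'
    exact hm hm'
  have h1 : Ideal.span {t} ^ 3 = Ideal.span {(q : 𝓞 K)} ^ v * Ideal.span {(m' : 𝓞 K)} := by
    rw [Ideal.span_singleton_pow, Ideal.span_singleton_pow, Ideal.span_singleton_mul_span_singleton,
      ht, hm']
    push_cast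
    rfl
  have h2 : R ∉ normalizedFactors (Ideal.span {(m' : 𝓞 K)}) := by
    rw [Ideal.mem_normalizedFactors_iff (by
      rw [Ne, Ideal.span_singleton_eq_bot]; exact_mod_cast hm'0), Ideal.span_singleton_le_iff_mem]
    rintro ⟨-, h3⟩
    apply hR'.1.ne_top
    rw [Ideal.eq_top_iff_one]
    obtain ⟨a, b, hab⟩ := Nat.isCoprime_iff_coprime.2 hcop
    have h8 : (a : 𝓞 K) * (q : 𝓞 K) + (b : 𝓞 K) * (m' : 𝓞 K) = 1 := by
      exact_mod_cast congrArg (Int.cast : ℤ → 𝓞 K) hab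
    rw [← h8]
    exact R.add_mem (R.mul_mem_left _ hR'.2) (R.mul_mem_left _ h3)
  have h4 := congrArg (fun I => (normalizedFactors I).count R) h1
  have hq0 : (Ideal.span {(q : 𝓞 K)} ^ v : Ideal (𝓞 K)) ≠ 0 := pow_ne_zero _ (span_ne hq)
  have hm0 : (Ideal.span {(m' : 𝓞 K)} : Ideal (𝓞 K)) ≠ 0 := by
    rw [Ne, Ideal.zero_eq_bot, Ideal.span_singleton_eq_bot]
    exact_mod_cast hm'0
  simp only [normalizedFactors_pow, normalizedFactors_mul hq0 hm0, Multiset.count_nsmul,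
    Multiset.count_add, Multiset.count_eq_zero_of_notMem h2, add_zero] at h4
  have h5 : 3 ∣ v * (normalizedFactors (Ideal.span {(q : 𝓞 K)})).count R := ⟨_, h4.symm⟩
  have h6 := (Nat.prime_three.dvd_mul.1 h5).resolve_left hv
  have h7 := cc_pos hR
  rw [cc] at h7 ⊢
  exact Nat.le_of_dvd (by omega) h6

theorem exists_one' {m : ℕ} (h3 : finrank ℚ K = 3) (hm : m ≠ 0) {t : 𝓞 K} (ht : t ^ 3 = m)
    {q : ℕ} (hq : q.Prime) (hv : ¬ 3 ∣ m.factorization q) :
    ∃ P, pS K q = {P} := by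
  have h1 := sum_ef (K := K) h3 hq
  have h2 : ∀ R ∈ pS K q, 3 ≤ cc (Ideal.span {(q : 𝓞 K)}) R * ff q R := by
    intro R hR
    calc 3 ≤ cc (Ideal.span {(q : 𝓞 K)}) R * 1 := by
          rw [mul_one]; exact three_le_cc' hm ht hq hv hR
      _ ≤ _ := Nat.mul_le_mul_left _ (ff_pos h3 hq hR)
  have h4 : (pS K q).card * 3 ≤ 3 := by
    calc (pS K q).card * 3 = ∑ _R ∈ pS K q, 3 := by rw [Finset.sum_const, smul_eq_mul]
      _ ≤ _ := Finset.sum_le_sum h2
      _ = 3 := h1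
  have hc0 : (pS K q).card ≠ 0 := by
    intro h0
    rw [Finset.card_eq_zero.1 h0] at h1
    simp at h1
  exact Finset.card_eq_one.1 (by omega)

/-- at most one ideal of norm `q ^ k` if `q` is totally ramified -/
theorem card_norm_pow_le_ram {m : ℕ} (h3 : finrank ℚ K = 3) (hm : m ≠ 0)
    (t : 𝓞 K) (ht : t ^ 3 = m) {q : ℕ} (hq : q.Prime) (hv : ¬ 3 ∣ m.factorization q) (k : ℕ) :
    Nat.card {I : Ideal (𝓞 K) // Ideal.absNorm I = q ^ k} ≤ 1 := by
  obtain ⟨P, hP⟩ := exists_one' h3 hm ht hq hv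
  exact card_of_one h3 hq hP k

/-- exactly one prime contains `q` if `q` is totally ramified -/
theorem onePrime_of_ram {m : ℕ} (h3 : finrank ℚ K = 3) (hm : m ≠ 0)
    (t : 𝓞 K) (ht : t ^ 3 = m) {q : ℕ} (hq : q.Prime) (hv : ¬ 3 ∣ m.factorization q) :
    OnePrime q K := by
  obtain ⟨R, hR⟩ := exists_one' h3 hm ht hq hv
  intro P Q hP hQ hpP hpQ
  have h1 := (mem_pS hq P).2 ⟨hP, hpP⟩
  have h2 := (mem_pS hq Q).2 ⟨hQ, hpQ⟩
  rw [hR, Finset.mem_singleton] at h1 h2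
  rw [h1, h2]

/-! ### traces -/

theorem not_cube_sq {m : ℕ} (hnc : ∀ b : ℚ, b ^ 3 ≠ m) (b : ℚ) : b ^ 3 ≠ ((m ^ 2 : ℕ) : ℚ) := by
  intro hb
  have hm : (m : ℚ) ≠ 0 := by
    intro h
    apply hnc 0
    rw [h]; norm_num
  have hb0 : b ≠ 0 := by
    rintro rfl
    push_cast at hb
    have : (m : ℚ) ^ 2 = 0 := by rw [← hb]; norm_num
    exact hm (pow_eq_zero_iff (by norm_num) |>.1 this)
  apply hnc (m / b)
  rw [div_pow, hb]
  push_cast
  field_simp

theorem not_cube_of_factorization {m q : ℕ} (hq : q.Prime)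
    (hv : ¬ 3 ∣ m.factorization q) (b : ℚ) : b ^ 3 ≠ (m : ℚ) := by
  intro hb
  have hq' : Fact q.Prime := ⟨hq⟩
  have h1 : padicValRat q (b ^ 3) = m.factorization q := by
    rw [hb, padicValRat.of_nat, Nat.factorization_def _ hq]
  by_cases h0 : b = 0
  · rw [h0, zero_pow (by norm_num), padicValRat.zero] at h1
    apply hv
    rw [← Int.natCast_dvd_natCast, ← h1]
    exact dvd_zero _
  · rw [padicValRat.pow] at h1
    push_cast at h1
    apply hv
    rw [← Int.natCast_dvd_natCast, ← h1]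
    exact ⟨_, rfl⟩

theorem trace_t' {m : ℕ} (hnc : ∀ b : ℚ, b ^ 3 ≠ m) {t : 𝓞 K} (ht : t ^ 3 = m) :
    Algebra.trace ℤ (𝓞 K) t = 0 := by
  have h1 : Algebra.trace ℚ K (t : K) = 0 := by
    apply trace_cube (a := (m : ℚ)) _ hnc
    rw [map_natCast, ← map_pow, ht, map_natCast]
  rw [← Algebra.coe_trace_int] at h1
  exact_mod_cast h1

theorem trace_tt' {m : ℕ} (hnc : ∀ b : ℚ, b ^ 3 ≠ m) {t : 𝓞 K} (ht : t ^ 3 = m) :
    Algebra.trace ℤ (𝓞 K) (t ^ 2) = 0 := by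
  have h1 : Algebra.trace ℚ K ((t ^ 2 : 𝓞 K) : K) = 0 := by
    apply trace_cube (a := ((m ^ 2 : ℕ) : ℚ)) _ (not_cube_sq hnc)
    rw [← map_pow, ← pow_mul, mul_comm 2 3, pow_mul, ht, map_natCast, map_pow, map_natCast,
      Nat.cast_pow]
  rw [← Algebra.coe_trace_int] at h1
  exact_mod_cast h1

/-! ### the prime 3 -/

/-- `q = 3` -/
theorem card_norm_pow_le_three' (h3 : finrank ℚ K = 3) {m : ℕ} (hnc : ∀ b : ℚ, b ^ 3 ≠ m)
    (hm3 : ¬ 3 ∣ m) (t : 𝓞 K) (ht : t ^ 3 = m) (k : ℕ) :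
    Nat.card {I : Ideal (𝓞 K) // Ideal.absNorm I = 3 ^ k} ≤ k + 1 := by
  classical
  have hq := Nat.prime_three
  have hc := card_le_three (K := K) h3 hq
  have hc0 : (pS K 3).card ≠ 0 := by
    intro h0
    have h1 := sum_ef (K := K) h3 hq
    rw [Finset.card_eq_zero.1 h0] at h1
    simp at h1
  obtain h | h | h : (pS K 3).card = 1 ∨ (pS K 3).card = 2 ∨ (pS K 3).card = 3 := by omega
  · obtain ⟨P, hP⟩ := Finset.card_eq_one.1 h
    have := card_of_one h3 hq hP k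
    omega
  · obtain ⟨P, Q, hPQ, hS⟩ := Finset.card_eq_two.1 h
    have := card_of_two h3 hq hPQ hS k
    have := Nat.div_le_self k (ff 3 P)
    omega
  · exfalso
    have h1 := sum_ef (K := K) h3 hq
    have h2 : ∀ R ∈ pS K 3, 1 ≤ cc (Ideal.span {((3 : ℕ) : 𝓞 K)}) R * ff 3 R := by
      intro R hR
      exact Nat.one_le_iff_ne_zero.2 (Nat.mul_ne_zero (by have := cc_pos hR; omega)
        (by have := ff_pos h3 hq hR; omega))
    have h4 : ∀ R ∈ pS K 3, cc (Ideal.span {((3 : ℕ) : 𝓞 K)}) R * ff 3 R = 1 := by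
      have h5 : ∑ R ∈ pS K 3, 1 = ∑ R ∈ pS K 3, cc (Ideal.span {((3 : ℕ) : 𝓞 K)}) R * ff 3 R := by
        rw [h1, Finset.sum_const, h, smul_eq_mul, mul_one]
      intro R hR
      exact ((Finset.sum_eq_sum_iff_of_le h2).1 h5 R hR).symm
    have h6 : ∀ R ∈ pS K 3, t - m ∈ R := by
      intro R hR
      obtain ⟨f, -, hf1, hf2⟩ := norm_pow h3 hq hR
      have hf : f = 1 := by
        rw [← hf2]
        exact Nat.eq_one_of_mul_eq_one_left (h4 R hR)
      rw [hf, pow_one] at hf1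
      have h7 := cube_eq_of_norm hq ((mem_pS hq R).1 hR).1 hf1 t
      rw [ht] at h7
      have : t - (m : 𝓞 K) = -((m : 𝓞 K) - t) := by ring
      rw [this]
      exact R.neg_mem h7
    have htr := trace_t' hnc ht
    have htr2 := trace_tt' hnc ht
    have hne : t - (m : 𝓞 K) ≠ 0 := by
      intro h0
      have h8 : t = ((m : ℤ) : 𝓞 K) := by
        rw [Int.cast_natCast]; exact sub_eq_zero.1 h0
      rw [h8, trace_int h3] at htr
      apply hm3
      have : m = 0 := by omega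
      rw [this]
      exact dvd_zero _
    have h9 : Ideal.span {((3 : ℕ) : 𝓞 K)} ∣ Ideal.span {t - (m : 𝓞 K)} := by
      rw [dvd_iff_normalizedFactors_le_normalizedFactors
        (show Ideal.span {((3 : ℕ) : 𝓞 K)} ≠ 0 from span_ne hq)
        (show Ideal.span {t - (m : 𝓞 K)} ≠ 0 by
          rwa [Ne, Ideal.zero_eq_bot, Ideal.span_singleton_eq_bot]), Multiset.le_iff_count]
      intro R
      by_cases hR : R ∈ pS K 3
      · have h10 : cc (Ideal.span {((3 : ℕ) : 𝓞 K)}) R = 1 :=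
          Nat.eq_one_of_mul_eq_one_right (h4 R hR)
        have h11 : R ∈ normalizedFactors (Ideal.span {t - (m : 𝓞 K)}) := by
          rw [Ideal.mem_normalizedFactors_iff (by rwa [Ne, Ideal.span_singleton_eq_bot]),
            Ideal.span_singleton_le_iff_mem]
          exact ⟨((mem_pS hq R).1 hR).1, h6 R hR⟩
        have h12 := Multiset.one_le_count_iff_mem.2 h11
        rw [cc] at h10
        omega
      · rw [pS, Multiset.mem_toFinset] at hR
        rw [Multiset.count_eq_zero_of_notMem hR]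
        exact Nat.zero_le _
    rw [Ideal.dvd_span_singleton, Ideal.mem_span_singleton] at h9
    obtain ⟨y, hy⟩ := h9
    have h13 : Algebra.trace ℤ (𝓞 K) ((t - m) ^ 2) = 3 * (m : ℤ) ^ 2 := by
      have : (t - (m : 𝓞 K)) ^ 2 = t ^ 2 - (2 * (m : ℤ)) • t + (((m : ℤ) ^ 2 : ℤ) : 𝓞 K) := by
        rw [zsmul_eq_mul]; push_cast; ring
      rw [this, map_add, map_sub, map_zsmul, htr, htr2, trace_int h3]
      simp
    have h14 : (t - (m : 𝓞 K)) ^ 2 = (9 : ℤ) • y ^ 2 := by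
      rw [hy, zsmul_eq_mul]; push_cast; ring
    rw [h14, map_zsmul, smul_eq_mul] at h13
    have h15 : (3 : ℤ) ∣ (m : ℤ) ^ 2 := ⟨Algebra.trace ℤ (𝓞 K) (y ^ 2), by linarith⟩
    have h16 : (3 : ℤ) ∣ (m : ℤ) := Int.Prime.dvd_pow' hq h15
    exact hm3 (by exact_mod_cast h16)

/-! ### primes `q = 2 mod 3` -/

theorem not_two_degree_one' (h3 : finrank ℚ K = 3) {m : ℕ} (hnc : ∀ b : ℚ, b ^ 3 ≠ m)
    (t : 𝓞 K) (ht : t ^ 3 = m) {q : ℕ} (hq : q.Prime) (hq2 : q % 3 = 2) (hqm : ¬ q ∣ m)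
    {P Q : Ideal (𝓞 K)} (hP : P ∈ pS K q) (hQ : Q ∈ pS K q) (hPQ : P ≠ Q)
    (hfP : ff q P = 1) (hfQ : ff q Q = 1) : False := by
  classical
  have hq' : Fact q.Prime := ⟨hq⟩
  have h1 := sum_ef (K := K) h3 hq
  have hpos : ∀ R ∈ pS K q, ff q R ≤ cc (Ideal.span {(q : 𝓞 K)}) R * ff q R := by
    intro R hR
    exact Nat.le_mul_of_pos_left _ (cc_pos hR)
  have hall : ∀ R ∈ pS K q, ff q R = 1 := by
    intro R hR
    by_cases hRP : R = P
    · rw [hRP]; exact hfP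
    by_cases hRQ : R = Q
    · rw [hRQ]; exact hfQ
    have hsub : ({R, P, Q} : Finset (Ideal (𝓞 K))) ⊆ pS K q := by
      intro T hT
      rw [Finset.mem_insert, Finset.mem_insert, Finset.mem_singleton] at hT
      rcases hT with rfl | rfl | rfl <;> assumption
    have h2 : ∑ T ∈ ({R, P, Q} : Finset (Ideal (𝓞 K))), ff q T ≤ 3 := by
      calc ∑ T ∈ ({R, P, Q} : Finset (Ideal (𝓞 K))), ff q T
          ≤ ∑ T ∈ pS K q, ff q T := Finset.sum_le_sum_of_subset hsub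
        _ ≤ _ := Finset.sum_le_sum hpos
        _ = 3 := h1
    rw [Finset.sum_insert (by simp [hRP, hRQ]), Finset.sum_pair hPQ, hfP, hfQ] at h2
    have := ff_pos h3 hq hR
    omega
  obtain ⟨j, hj⟩ : ∃ j, 3 * j = 2 * q - 1 := ⟨(2 * q - 1) / 3, by omega⟩
  have hq1 : 1 ≤ q := hq.one_lt.le
  have hqm' : Nat.Coprime q m := (Nat.Prime.coprime_iff_not_dvd hq).2 hqm
  have h4 : ∀ R ∈ pS K q, t - (m : 𝓞 K) ^ j ∈ R := by
    intro R hR
    obtain ⟨f, -, hf1, hf2⟩ := norm_pow h3 hq hR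
    rw [← hf2, hall R hR, pow_one] at hf1
    have h5 := cube_eq_of_norm hq ((mem_pS hq R).1 hR).1 hf1 t
    have h6 : t ^ (2 * q - 1) - t = t ^ (q - 1) * (t ^ q - t) + (t ^ q - t) := by
      have e1 : t ^ (2 * q - 1) = t ^ (q - 1) * t ^ q := by
        rw [← pow_add]; congr 1; omega
      have e2 : t ^ (q - 1) * t = t ^ q := by
        rw [← pow_succ]; congr 1; omega
      rw [e1, mul_sub, e2]; ring
    have h7 : t ^ (2 * q - 1) - t ∈ R := by
      rw [h6]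
      exact R.add_mem (R.mul_mem_left _ h5) h5
    rw [← hj, pow_mul, ht] at h7
    have : t - (m : 𝓞 K) ^ j = -((m : 𝓞 K) ^ j - t) := by ring
    rw [this]
    exact R.neg_mem h7
  have hcop : Nat.Coprime q (3 * (m ^ j) ^ 2) := by
    apply Nat.Coprime.mul_right
    · rw [Nat.coprime_primes hq Nat.prime_three]
      omega
    · exact Nat.Coprime.pow_right _ (Nat.Coprime.pow_right _ hqm')
  have hw : ∀ R ∈ pS K q, t ^ 2 + (m : 𝓞 K) ^ j * t + ((m : 𝓞 K) ^ j) ^ 2 ∉ R := by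
    intro R hR hmem
    have h5 := h4 R hR
    have h6 := (mem_pS hq R).1 hR
    have h7 : ((3 * (m ^ j) ^ 2 : ℕ) : 𝓞 K) ∈ R := by
      have : ((3 * (m ^ j) ^ 2 : ℕ) : 𝓞 K) =
          (t ^ 2 + (m : 𝓞 K) ^ j * t + ((m : 𝓞 K) ^ j) ^ 2) -
            (t + 2 * (m : 𝓞 K) ^ j) * (t - (m : 𝓞 K) ^ j) := by
        push_cast; ring
      rw [this]
      exact R.sub_mem hmem (R.mul_mem_left _ h5)
    apply h6.1.ne_top
    rw [Ideal.eq_top_iff_one]
    obtain ⟨a, b, hab⟩ := Nat.isCoprime_iff_coprime.2 hcop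
    have h8 : (a : 𝓞 K) * (q : 𝓞 K) + (b : 𝓞 K) * ((3 * (m ^ j) ^ 2 : ℕ) : 𝓞 K) = 1 := by
      exact_mod_cast congrArg (Int.cast : ℤ → 𝓞 K) hab
    rw [← h8]
    exact R.add_mem (R.mul_mem_left _ h6.2) (R.mul_mem_left _ h7)
  have hcop2 : IsCoprime (q : 𝓞 K) (t ^ 2 + (m : 𝓞 K) ^ j * t + ((m : 𝓞 K) ^ j) ^ 2) := by
    rw [← Ideal.isCoprime_span_singleton_iff, Ideal.isCoprime_iff_sup_eq]
    by_contra hne
    obtain ⟨M, hM, hle⟩ := Ideal.exists_le_maximal _ hne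
    have a1 : (q : 𝓞 K) ∈ M :=
      hle (Ideal.mem_sup_left (Ideal.mem_span_singleton_self _))
    have a2 := hle (Ideal.mem_sup_right (Ideal.mem_span_singleton_self
      (t ^ 2 + (m : 𝓞 K) ^ j * t + ((m : 𝓞 K) ^ j) ^ 2)))
    exact hw M ((mem_pS hq M).2 ⟨hM.isPrime, a1⟩) a2
  have hdiv : (q : 𝓞 K) ∣ (t - (m : 𝓞 K) ^ j) *
      (t ^ 2 + (m : 𝓞 K) ^ j * t + ((m : 𝓞 K) ^ j) ^ 2) := by
    have e1 : (t - (m : 𝓞 K) ^ j) * (t ^ 2 + (m : 𝓞 K) ^ j * t + ((m : 𝓞 K) ^ j) ^ 2) =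
        (((m : ℤ) - (m : ℤ) ^ (2 * q - 1) : ℤ) : 𝓞 K) := by
      have : (t - (m : 𝓞 K) ^ j) * (t ^ 2 + (m : 𝓞 K) ^ j * t + ((m : 𝓞 K) ^ j) ^ 2) =
          t ^ 3 - (m : 𝓞 K) ^ (3 * j) := by
        rw [mul_comm 3 j, pow_mul]; ring
      rw [this, ht, hj]; push_cast; ring
    have e2 : (q : ℤ) ∣ (m : ℤ) - (m : ℤ) ^ (2 * q - 1) := by
      rw [← ZMod.intCast_zmod_eq_zero_iff_dvd]
      push_cast
      have e3 : (m : ZMod q) ^ (2 * q - 1) = (m : ZMod q) ^ (q - 1) * (m : ZMod q) ^ q := by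
        rw [← pow_add]; congr 1; omega
      rw [e3, ZMod.pow_card, ← pow_succ, Nat.sub_add_cancel hq1, ZMod.pow_card, sub_self]
    rw [e1]
    obtain ⟨c, hc⟩ := e2
    exact ⟨(c : 𝓞 K), by rw [hc]; push_cast; ring⟩
  obtain ⟨s, hs⟩ := hcop2.dvd_of_dvd_mul_right hdiv
  have htr := congrArg (Algebra.trace ℤ (𝓞 K)) hs
  have e4 : t - (m : 𝓞 K) ^ j = t - (((m : ℤ) ^ j : ℤ) : 𝓞 K) := by push_cast; ring
  have e5 : (q : 𝓞 K) * s = (q : ℤ) • s := by rw [zsmul_eq_mul]; push_cast; ring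
  rw [e4, e5, map_sub, trace_t' hnc ht, trace_int h3, map_zsmul, smul_eq_mul] at htr
  have h20 : (q : ℤ) ∣ ((3 * m ^ j : ℕ) : ℤ) := ⟨-Algebra.trace ℤ (𝓞 K) s, by
    push_cast; linarith⟩
  have h21 : q ∣ 3 * m ^ j := by exact_mod_cast h20
  have h22 : Nat.Coprime q (3 * m ^ j) := by
    apply Nat.Coprime.mul_right
    · rw [Nat.coprime_primes hq Nat.prime_three]
      omega
    · exact Nat.Coprime.pow_right _ hqm'
  have h23 := Nat.Coprime.eq_one_of_dvd h22 h21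
  exact hq.one_lt.ne' h23

/-- `q = 2 mod 3`, `q` does not divide `m` -/
theorem card_norm_pow_le_two' (h3 : finrank ℚ K = 3) {m : ℕ} (hnc : ∀ b : ℚ, b ^ 3 ≠ m)
    (t : 𝓞 K) (ht : t ^ 3 = m) {q : ℕ} (hq : q.Prime) (hq2 : q % 3 = 2) (hqm : ¬ q ∣ m) (k : ℕ) :
    Nat.card {I : Ideal (𝓞 K) // Ideal.absNorm I = q ^ k} ≤ k / 2 + 1 := by
  classical
  have hc := card_le_three (K := K) h3 hq
  have h1 := sum_ef (K := K) h3 hq
  have hc0 : (pS K q).card ≠ 0 := by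
    intro h0
    rw [Finset.card_eq_zero.1 h0] at h1
    simp at h1
  obtain h | h | h : (pS K q).card = 1 ∨ (pS K q).card = 2 ∨ (pS K q).card = 3 := by omega
  · obtain ⟨P, hP⟩ := Finset.card_eq_one.1 h
    have := card_of_one h3 hq hP k
    omega
  · obtain ⟨P, Q, hPQ, hS⟩ := Finset.card_eq_two.1 h
    have hP : P ∈ pS K q := by rw [hS]; simp
    have hQ : Q ∈ pS K q := by rw [hS]; simp
    have hfP := ff_pos h3 hq hP
    have hfQ := ff_pos h3 hq hQ
    have hno := not_two_degree_one' h3 hnc t ht hq hq2 hqm hP hQ hPQ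
    by_cases h2 : 2 ≤ ff q P
    · have := card_of_two h3 hq hPQ hS k
      have := Nat.div_le_div_left h2 (by norm_num) (a := k)
      omega
    · have h4 : ff q P = 1 := by omega
      have h5 : ff q Q ≠ 1 := fun h => hno h4 h
      have hS' : pS K q = {Q, P} := by rw [hS, Finset.pair_comm]
      have := card_of_two h3 hq hPQ.symm hS' k
      have := Nat.div_le_div_left (show 2 ≤ ff q Q by omega) (by norm_num) (a := k)
      omega
  · exfalso
    obtain ⟨P, Q, R, hPQ, hPR, hQR, hS⟩ := Finset.card_eq_three.1 h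
    have hP : P ∈ pS K q := by rw [hS]; simp
    have hQ : Q ∈ pS K q := by rw [hS]; simp
    have hR : R ∈ pS K q := by rw [hS]; simp
    have a1 := ff_pos h3 hq hP
    have a2 := ff_pos h3 hq hQ
    have a3 := ff_pos h3 hq hR
    have b1 : ff q P ≤ cc (Ideal.span {(q : 𝓞 K)}) P * ff q P :=
      Nat.le_mul_of_pos_left _ (cc_pos hP)
    have b2 : ff q Q ≤ cc (Ideal.span {(q : 𝓞 K)}) Q * ff q Q :=
      Nat.le_mul_of_pos_left _ (cc_pos hQ)
    have b3 : ff q R ≤ cc (Ideal.span {(q : 𝓞 K)}) R * ff q R :=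
      Nat.le_mul_of_pos_left _ (cc_pos hR)
    rw [hS, Finset.sum_insert (by simp [hPQ, hPR]), Finset.sum_pair hQR] at h1
    exact not_two_degree_one' h3 hnc t ht hq hq2 hqm hP hQ hPQ (by omega) (by omega)

/-! ### the form `a * b ^ 2` -/

theorem factorization_ab {a b q : ℕ} (hab : Squarefree (a * b)) (hq : q.Prime)
    (hqab : q ∣ a * b) : ¬ 3 ∣ (a * b ^ 2).factorization q := by
  have h0 : a * b ≠ 0 := hab.ne_zero
  have ha : a ≠ 0 := left_ne_zero_of_mul h0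
  have hb : b ≠ 0 := right_ne_zero_of_mul h0
  have h1 : (a * b).factorization q ≤ 1 := hab.natFactorization_le_one q
  have h2 : 1 ≤ (a * b).factorization q := (hq.dvd_iff_one_le_factorization h0).1 hqab
  rw [Nat.factorization_mul ha hb, Finsupp.add_apply] at h1 h2
  rw [Nat.factorization_mul ha (pow_ne_zero 2 hb), Finsupp.add_apply, Nat.factorization_pow,
    Finsupp.smul_apply, smul_eq_mul]
  omega

theorem ab_ne_zero {a b : ℕ} (hab : Squarefree (a * b)) : a * b ^ 2 ≠ 0 :=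
  mul_ne_zero (left_ne_zero_of_mul hab.ne_zero) (pow_ne_zero 2 (right_ne_zero_of_mul hab.ne_zero))

theorem not_cube_ab {a b : ℕ} (hab : Squarefree (a * b)) (h1 : 1 < a * b) (x : ℚ) :
    x ^ 3 ≠ ((a * b ^ 2 : ℕ) : ℚ) := by
  obtain ⟨q, hq, hqab⟩ := Nat.exists_prime_and_dvd h1.ne'
  exact not_cube_of_factorization hq (factorization_ab hab hq hqab) x

theorem dvd_ab_of {a b q : ℕ} (hq : q.Prime) (h : ¬ q ∣ a * b) : ¬ q ∣ a * b ^ 2 := by
  intro h2
  apply h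
  rcases (hq.dvd_mul.1 h2) with h3 | h3
  · exact Dvd.dvd.mul_right h3 b
  · exact Dvd.dvd.mul_left (hq.dvd_of_dvd_pow h3) a

/-- D2b': `q = 3` -/
theorem PureCubic.card_three {a b : ℕ} {t : 𝓞 K} (h : PureCubic K a b t) (h3 : ¬ 3 ∣ a * b)
    (k : ℕ) : Nat.card {I : Ideal (𝓞 K) // Ideal.absNorm I = 3 ^ k} ≤ k + 1 :=
  card_norm_pow_le_three' h.three (not_cube_ab h.sqf h.one_lt) (dvd_ab_of Nat.prime_three h3)
    t h.cube k

/-- D2c': `q = 2 mod 3` -/
theorem PureCubic.card_two {a b : ℕ} {t : 𝓞 K} (h : PureCubic K a b t) {q : ℕ} (hq : q.Prime)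
    (hq2 : q % 3 = 2) (hqa : ¬ q ∣ a * b) (k : ℕ) :
    Nat.card {I : Ideal (𝓞 K) // Ideal.absNorm I = q ^ k} ≤ k / 2 + 1 :=
  card_norm_pow_le_two' h.three (not_cube_ab h.sqf h.one_lt) t h.cube hq hq2
    (dvd_ab_of hq hqa) k

/-- D2d': `q ∣ a b` -/
theorem PureCubic.card_ram {a b : ℕ} {t : 𝓞 K} (h : PureCubic K a b t) {q : ℕ} (hq : q.Prime)
    (hqa : q ∣ a * b) (k : ℕ) :
    Nat.card {I : Ideal (𝓞 K) // Ideal.absNorm I = q ^ k} ≤ 1 :=
  card_norm_pow_le_ram h.three (ab_ne_zero h.sqf) t h.cube hq (factorization_ab h.sqf hq hqa) k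

/-- D2e' -/
theorem PureCubic.onePrime {a b : ℕ} {t : 𝓞 K} (h : PureCubic K a b t) {q : ℕ} (hq : q.Prime)
    (hqa : q ∣ a * b) : OnePrime q K :=
  onePrime_of_ram h.three (ab_ne_zero h.sqf) t h.cube hq (factorization_ab h.sqf hq hqa)

end

end Pool.Agent.Work.Mu22
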