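import Pool.Agent.Work.MP_a4986b_nt.Cubic3

set_option autoImplicit false
set_option maxHeartbeats 400000

/-! # Signature and discriminant of a pure cubic field -/

namespace Pool.Agent.Work.Mu22

open NumberField Module Polynomial
open scoped Pointwise nonZeroDivisors

theorem eis_gen {q : ℕ} (hq : q.Prime) {α β γ : ℤ} (hα : (q : ℤ) ∣ α) (hβ : (q : ℤ) ∣ β)
    (h1 : (q : ℤ) ∣ γ) (h2 : ¬ (q : ℤ) ^ 2 ∣ γ) {F : ℤ[X]} (hmon : F.Monic)
    (hdeg : F.natDegree = 3) (hexp : F = X ^ 3 + C α * X ^ 2 + C β * X + C γ) :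
    F.IsEisensteinAt (Ideal.span {(q : ℤ)}) := by
  have hprime := Nat.prime_iff_prime_int.mp hq
  constructor
  · rw [hmon.leadingCoeff]
    intro h
    rw [Ideal.mem_span_singleton] at h
    exact hprime.not_isUnit (isUnit_of_dvd_one h)
  · intro n hn
    rw [hdeg] at hn
    rw [Ideal.mem_span_singleton, hexp]
    simp only [coeff_add, coeff_C_mul, coeff_X, coeff_X_pow, coeff_C]
    interval_cases n
    · simpa using h1
    · simpa using hβ
    · simpa using hα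
  · rw [Ideal.span_singleton_pow, Ideal.mem_span_singleton, hexp]
    simp only [coeff_add, coeff_C_mul, coeff_X, coeff_X_pow, coeff_C]
    simpa using h2

theorem eis_of {q : ℕ} (hq : q.Prime) {m A : ℤ} (h3m : (q : ℤ) ∣ 3 * m)
    (h1 : (q : ℤ) ∣ m ^ 3 - A) (h2 : ¬ (q : ℤ) ^ 2 ∣ m ^ 3 - A) :
    ((X + C m) ^ 3 - C A : ℤ[X]).IsEisensteinAt (Ideal.span {(q : ℤ)}) := by
  refine eis_gen hq h3m (Dvd.dvd.mul_right h3m m) h1 h2 (PureCubic.monic_shift m A)
    (PureCubic.natDegree_shift m A) ?_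
  simp only [C_mul, C_sub, C_pow]
  have h3 : (C (3 : ℤ) : ℤ[X]) = 3 := rfl
  rw [h3]
  ring

/-- a matrix with determinant divisible by `q` is singular modulo `q` -/
theorem exists_vec_of_dvd_det {n : ℕ} (Q : Matrix (Fin n) (Fin n) ℤ) {q : ℕ} (hq : q.Prime)
    (hdet : (q : ℤ) ∣ Q.det) :
    ∃ x : Fin n → ℤ, (∃ i, ¬ (q : ℤ) ∣ x i) ∧ ∀ i, (q : ℤ) ∣ (Q.mulVec x) i := by
  have := Fact.mk hq
  have h1 : (Q.map (Int.castRingHom (ZMod q))).det = 0 := by
    rw [← RingHom.mapMatrix_apply, ← RingHom.map_det]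
    rw [eq_intCast, ZMod.intCast_zmod_eq_zero_iff_dvd]
    exact hdet
  obtain ⟨y, hy0, hy⟩ := Matrix.exists_mulVec_eq_zero_iff.2 h1
  choose x hx using fun i => ZMod.intCast_surjective (y i)
  refine ⟨x, ?_, fun i => ?_⟩
  · by_contra hcon
    push Not at hcon
    apply hy0
    funext i
    rw [← hx i, Pi.zero_apply, ZMod.intCast_zmod_eq_zero_iff_dvd]
    exact hcon i
  · rw [← ZMod.intCast_zmod_eq_zero_iff_dvd]
    have h2 := congrFun hy i
    rw [Pi.zero_apply] at h2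
    rw [← h2]
    simp only [Matrix.mulVec, dotProduct, Int.cast_sum, Int.cast_mul, Matrix.map_apply,
      Int.coe_castRingHom, hx]

variable {K : Type*} [Field K] [NumberField K]

namespace PureCubic

variable {a b : ℕ} {t : 𝓞 K}

theorem sq_not_dvd (h : PureCubic K a b t) {q : ℕ} (hq : q.Prime) (hqa : q ∣ a) :
    ¬ q ^ 2 ∣ a * b ^ 2 := by
  have ha := h.a_ne_zero
  have hb := h.b_ne_zero
  rw [hq.pow_dvd_iff_le_factorization (mul_ne_zero ha (pow_ne_zero 2 hb))]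
  have h2 := h.sqf.natFactorization_le_one q
  have h3 : 1 ≤ a.factorization q := (hq.dvd_iff_one_le_factorization ha).1 hqa
  rw [Nat.factorization_mul ha hb] at h2
  rw [Nat.factorization_mul ha (pow_ne_zero 2 hb), Nat.factorization_pow]
  simp only [Finsupp.coe_add, Pi.add_apply, Finsupp.coe_smul, Pi.smul_apply, smul_eq_mul]
    at h2 ⊢
  omega

theorem not_dvd_b (h : PureCubic K a b t) {q : ℕ} (hq : q.Prime) (hqa : q ∣ a) : ¬ q ∣ b := by
  intro hqb
  have h1 : q * q ∣ a * b := mul_dvd_mul hqa hqb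
  exact hq.not_isUnit (h.sqf q h1)

/-- Eisenstein at the primes dividing `a` -/
theorem eis_a (h : PureCubic K a b t) {q : ℕ} (hq : q.Prime) (hqa : q ∣ a) :
    ((X + C 0) ^ 3 - C ((a * b ^ 2 : ℕ) : ℤ) : ℤ[X]).IsEisensteinAt (Ideal.span {(q : ℤ)}) := by
  apply eis_of hq
  · simp
  · have h1 : (q : ℤ) ∣ ((a * b ^ 2 : ℕ) : ℤ) := by
      exact_mod_cast Dvd.dvd.mul_right hqa (b ^ 2)
    simpa using h1
  · intro h1
    apply h.sq_not_dvd hq hqa
    have h2 : ((q : ℤ) ^ 2) ∣ ((a * b ^ 2 : ℕ) : ℤ) := by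
      have := (dvd_neg (α := ℤ)).2 h1
      simpa using this
    exact_mod_cast h2

/-- Eisenstein at `3` -/
theorem eis_three (h9 : ¬ (9 : ℤ) ∣ ((a * b ^ 2 : ℕ) : ℤ) ^ 3 - ((a * b ^ 2 : ℕ) : ℤ)) :
    ((X + C ((a * b ^ 2 : ℕ) : ℤ)) ^ 3 - C ((a * b ^ 2 : ℕ) : ℤ) : ℤ[X]).IsEisensteinAt
      (Ideal.span {((3 : ℕ) : ℤ)}) := by
  apply eis_of Nat.prime_three
  · exact Dvd.intro _ rfl
  · push_cast
    generalize ((a : ℤ) * (b : ℤ) ^ 2) = A
    have h1 : A % 3 = 0 ∨ A % 3 = 1 ∨ A % 3 = 2 := by omega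
    apply Int.dvd_of_emod_eq_zero
    rcases h1 with h1 | h1 | h1 <;> simp [Int.sub_emod, pow_succ, Int.mul_emod, h1]
  · norm_num at h9 ⊢
    exact h9

/-- the index is prime to `q` -/
theorem key (h : PureCubic K a b t) {s : 𝓞 K} (hbs : (b : 𝓞 K) * s = t ^ 2)
    {q : ℕ} (hq : q.Prime) (hqb : ¬ q ∣ b) (m : ℤ)
    (hei : ((X + C m) ^ 3 - C ((a * b ^ 2 : ℕ) : ℤ) : ℤ[X]).IsEisensteinAt
      (Ideal.span {(q : ℤ)})) {x y z : ℤ} {v : 𝓞 K}
    (hqv : (q : 𝓞 K) * v = x + y * t + z * s) :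
    (q : ℤ) ∣ x ∧ (q : ℤ) ∣ y ∧ (q : ℤ) ∣ z := by
  have h1 : (q : K) * ((b : K) * v) = ((b * x : ℤ) : K) + ((b * y : ℤ) : K) * t +
      (z : K) * (t : K) ^ 2 := by
    have h2 : (q : 𝓞 K) * ((b : 𝓞 K) * v) = ((b * x : ℤ) : 𝓞 K) + ((b * y : ℤ) : 𝓞 K) * t +
      (z : 𝓞 K) * t ^ 2 := by
      rw [← hbs]
      push_cast
      linear_combination (b : 𝓞 K) * hqv
    have h3 := congrArg (algebraMap (𝓞 K) K) h2
    simp only [map_mul, map_add, map_pow, map_natCast, map_intCast] at h3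
    exact h3
  have hint : IsIntegral ℤ ((b : K) * v) := by
    have h4 : IsIntegral ℤ (b : K) := by
      have := isIntegral_algebraMap (R := ℤ) (A := K) (x := (b : ℤ))
      rwa [algebraMap_int_eq, eq_intCast, Int.cast_natCast] at this
    exact h4.mul (RingOfIntegers.isIntegral_coe v)
  obtain ⟨e1, e2, e3⟩ := h.eis_dvd hq m hei hint h1
  have hcop : IsCoprime (q : ℤ) (b : ℤ) := by
    rw [Nat.isCoprime_iff_coprime]
    exact (Nat.Prime.coprime_iff_not_dvd hq).2 hqb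
  exact ⟨hcop.dvd_of_dvd_mul_left e1, hcop.dvd_of_dvd_mul_left e2, e3⟩

/-- the discriminant of `1, t, s` -/
theorem discr_family (h : PureCubic K a b t) {s : 𝓞 K} (hs : PureCubic K b a s)
    (hbs : (b : 𝓞 K) * s = t ^ 2) (hat : (a : 𝓞 K) * t = s ^ 2)
    (hts : t * s = ((a * b : ℕ) : 𝓞 K)) :
    Algebra.discr ℤ ![1, t, s] = -27 * ((a * b : ℕ) : ℤ) ^ 2 := by
  have h1 : Algebra.trace ℤ (𝓞 K) t = 0 := h.trace_eq_zero
  have h2 : Algebra.trace ℤ (𝓞 K) s = 0 := hs.trace_eq_zero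
  have hn : ∀ n : ℕ, Algebra.trace ℤ (𝓞 K) (n : 𝓞 K) = 3 * n := by
    intro n
    have h3 := Algebra.trace_algebraMap (R := ℤ) (S := 𝓞 K) (n : ℤ)
    rw [RingOfIntegers.rank, h.three] at h3
    simpa using h3
  have h5 : Algebra.trace ℤ (𝓞 K) (t * t) = 0 := by
    rw [← sq, ← hbs]
    have := (Algebra.trace ℤ (𝓞 K)).map_smul (b : ℤ) s
    simpa [h2] using this
  have h6 : Algebra.trace ℤ (𝓞 K) (s * s) = 0 := by
    rw [← sq, ← hat]
    have := (Algebra.trace ℤ (𝓞 K)).map_smul (a : ℤ) t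
    simpa [h1] using this
  have h7 : Algebra.trace ℤ (𝓞 K) (t * s) = 3 * (a * b) := by
    rw [hts, hn]
    push_cast
    ring
  have h8 : Algebra.trace ℤ (𝓞 K) (s * t) = 3 * (a * b) := by rw [mul_comm, h7]
  have h9 : Algebra.trace ℤ (𝓞 K) (1 : 𝓞 K) = 3 := by simpa using hn 1
  rw [Algebra.discr_def, Matrix.det_fin_three]
  simp only [Algebra.traceMatrix_apply, Algebra.traceForm_apply, Matrix.cons_val_zero,
    Matrix.cons_val_one, Matrix.cons_val, one_mul, mul_one, h1, h2, h5, h6, h7, h8, h9]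
  push_cast
  ring

/-- the index `r` of `ℤ[1, t, s]` -/
theorem exists_index (h : PureCubic K a b t) : ∃ r : ℤ,
    r ^ 2 * discr K = -27 * ((a * b : ℕ) : ℤ) ^ 2 ∧
    (∀ q : ℕ, q.Prime → q ∣ a * b → ¬ (q : ℤ) ∣ r) ∧
    (¬ 3 ∣ a * b → ¬ (9 : ℤ) ∣ ((a * b ^ 2 : ℕ) : ℤ) ^ 3 - ((a * b ^ 2 : ℕ) : ℤ) →
      ¬ (3 : ℤ) ∣ r) := by
  obtain ⟨s, hs, hbs, hat, hts⟩ := h.symm
  have hrank : finrank ℤ (𝓞 K) = 3 := by rw [RingOfIntegers.rank, h.three]
  let β : Basis (Fin 3) ℤ (𝓞 K) := finBasisOfFinrankEq ℤ (𝓞 K) hrank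
  let w : Fin 3 → 𝓞 K := ![1, t, s]
  let Q : Matrix (Fin 3) (Fin 3) ℤ := β.toMatrix w
  have hdisc : Q.det ^ 2 * discr K = -27 * ((a * b : ℕ) : ℤ) ^ 2 := by
    have h1 := Algebra.discr_of_matrix_vecMul (A := ℤ) β Q
    rw [show Matrix.vecMul β (Q.map (algebraMap ℤ (𝓞 K))) = w from
      Basis.toMatrix_map_vecMul β w, NumberField.discr_eq_discr K β] at h1
    rw [← h1]
    exact h.discr_family hs hbs hat hts
  have hvec : ∀ q : ℕ, q.Prime → (q : ℤ) ∣ Q.det → ∃ x y z : ℤ, ∃ v : 𝓞 K,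
      (q : 𝓞 K) * v = x + y * t + z * s ∧ ¬ ((q : ℤ) ∣ x ∧ (q : ℤ) ∣ y ∧ (q : ℤ) ∣ z) := by
    intro q hq hdet
    obtain ⟨x, ⟨i, hi⟩, hx⟩ := exists_vec_of_dvd_det Q hq hdet
    choose u hu using hx
    refine ⟨x 0, x 1, x 2, ∑ j, u j • β j, ?_, ?_⟩
    · have h1 : ∑ j, x j • w j = (q : 𝓞 K) * ∑ j, u j • β j := by
        have h2 : ∀ j, w j = ∑ i, Q i j • β i := fun j => by
          have := β.sum_repr (w j)
          rw [← this]
          rfl
        calc ∑ j, x j • w j = ∑ j, x j • ∑ i, Q i j • β i := by simp only [← h2]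
          _ = ∑ i, (Q.mulVec x) i • β i := by
            simp only [Finset.smul_sum, Matrix.mulVec, dotProduct, Finset.sum_smul]
            rw [Finset.sum_comm]
            refine Finset.sum_congr rfl fun i _ => Finset.sum_congr rfl fun j _ => ?_
            rw [smul_smul, mul_comm]
          _ = (q : 𝓞 K) * ∑ j, u j • β j := by
            rw [Finset.mul_sum]
            refine Finset.sum_congr rfl fun i _ => ?_
            rw [hu i, mul_smul]
            simp [zsmul_eq_mul]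
      rw [← h1, Fin.sum_univ_three]
      simp [w, zsmul_eq_mul]
    · rintro ⟨h0, h1, h2⟩
      apply hi
      fin_cases i
      · exact h0
      · exact h1
      · exact h2
  refine ⟨Q.det, hdisc, ?_, ?_⟩
  · intro q hq hqab hdet
    obtain ⟨x, y, z, v, hqv, hne⟩ := hvec q hq hdet
    rcases (hq.dvd_mul).1 hqab with hqa | hqb
    · exact hne (h.key hbs hq (h.not_dvd_b hq hqa) 0 (h.eis_a hq hqa) hqv)
    · have hqv' : (q : 𝓞 K) * v = x + z * s + y * t := by rw [hqv]; ring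
      obtain ⟨e1, e2, e3⟩ := hs.key hat hq (hs.not_dvd_b hq hqb) 0 (hs.eis_a hq hqb) hqv'
      exact hne ⟨e1, e3, e2⟩
  · intro h3 h9 hdet
    obtain ⟨x, y, z, v, hqv, hne⟩ := hvec 3 Nat.prime_three (by exact_mod_cast hdet)
    refine hne (h.key hbs Nat.prime_three ?_ _ (eis_three h9) hqv)
    intro h3b
    exact h3 (Dvd.dvd.mul_left h3b a)

/-- H1': the discriminant -/
theorem discr_bounds (h : PureCubic K a b t) :
    108 ≤ |(discr K : ℝ)| ∧ |(discr K : ℝ)| ≤ 27 * ((a * b : ℕ) : ℝ) ^ 2 := by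
  obtain ⟨r, hr, hr1, hr2⟩ := h.exists_index
  have h1lt := h.one_lt
  have hD : r ^ 2 * |discr K| = 27 * ((a * b : ℕ) : ℤ) ^ 2 := by
    rw [← abs_of_nonneg (sq_nonneg r), ← abs_mul, hr, abs_mul]
    simp
  have hr0 : r ≠ 0 := by
    rintro rfl
    have h2 : (0 : ℤ) < ((a * b : ℕ) : ℤ) := by exact_mod_cast (by omega : 0 < a * b)
    have h3 : (0 : ℤ) = 27 * ((a * b : ℕ) : ℤ) ^ 2 := by simpa using hD
    have h4 : (0 : ℤ) < 27 * ((a * b : ℕ) : ℤ) ^ 2 := by positivity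
    omega
  -- `r` is prime to `a b`
  have hcop : IsCoprime (r ^ 2) (((a * b : ℕ) : ℤ) ^ 2) := by
    apply IsCoprime.pow
    rw [Int.isCoprime_iff_gcd_eq_one]
    by_contra hg
    obtain ⟨q, hq, hqd⟩ := Nat.exists_prime_and_dvd hg
    have h2 : (q : ℤ) ∣ r := (Int.natCast_dvd_natCast.2 hqd).trans (Int.gcd_dvd_left ..)
    have h3 : (q : ℤ) ∣ ((a * b : ℕ) : ℤ) :=
      (Int.natCast_dvd_natCast.2 hqd).trans (Int.gcd_dvd_right ..)
    exact hr1 q hq (by exact_mod_cast h3) h2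
  have h27 : r ^ 2 ∣ 27 := by
    apply hcop.dvd_of_dvd_mul_right
    exact ⟨|discr K|, hD.symm⟩
  have hle : r ^ 2 ≤ 27 := Int.le_of_dvd (by norm_num) h27
  have hrsq : r ^ 2 = 1 ∨ r ^ 2 = 9 := by
    have h2 : -5 ≤ r := by nlinarith
    have h3 : r ≤ 5 := by nlinarith
    interval_cases r <;> simp_all
  have hab2 : (2 : ℤ) ≤ ((a * b : ℕ) : ℤ) := by exact_mod_cast h1lt
  have hmain : 108 ≤ |discr K| ∧ |discr K| ≤ 27 * ((a * b : ℕ) : ℤ) ^ 2 := by
    rcases hrsq with h1 | h9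
    · rw [h1, one_mul] at hD
      rw [hD]
      exact ⟨by nlinarith, le_refl _⟩
    · rw [h9] at hD
      have h3r : (3 : ℤ) ∣ r := by
        have : (3 : ℤ) ∣ r ^ 2 := by rw [h9]; norm_num
        exact Int.Prime.dvd_pow' Nat.prime_three (by exact_mod_cast this)
      have h3ab : ¬ 3 ∣ a * b := fun h3 => hr1 3 Nat.prime_three h3 (by exact_mod_cast h3r)
      have h9A : (9 : ℤ) ∣ ((a * b ^ 2 : ℕ) : ℤ) ^ 3 - ((a * b ^ 2 : ℕ) : ℤ) := by
        by_contra hcon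
        exact hr2 h3ab hcon h3r
      have h6 : 6 ≤ a * b := by
        by_contra hcon
        push Not at hcon
        have ha : a ≤ 5 := by
          have := h.b_ne_zero
          nlinarith [Nat.pos_of_ne_zero this]
        have hb : b ≤ 5 := by
          have := h.a_ne_zero
          nlinarith [Nat.pos_of_ne_zero this]
        have hsq := h.sqf
        have h4 : a * b ≠ 4 := by
          intro h4
          rw [h4] at hsq
          have := hsq 2 (by norm_num)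
          rw [Nat.isUnit_iff] at this
          omega
        clear hsq hr1 hr2 hr hcop hD
        interval_cases a <;> interval_cases b <;> omega
      have h6' : (6 : ℤ) ≤ ((a * b : ℕ) : ℤ) := by exact_mod_cast h6
      constructor
      · nlinarith
      · nlinarith [abs_nonneg (discr K)]
  constructor
  · exact_mod_cast hmain.1
  · exact_mod_cast hmain.2

/-- S1': the signature -/
theorem exists_embeddings (h : PureCubic K a b t) :
    (∃ _ : K →+* ℝ, True) ∧ ∃ ψ : K →+* ℂ, ¬ ComplexEmbedding.IsReal ψ := by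
  obtain ⟨B, hB, hdim⟩ := h.exists_pb 0
  rw [Int.cast_zero, sub_zero] at hB
  have hmin : minpoly ℚ B.gen = X ^ 3 - C ((a * b ^ 2 : ℕ) : ℚ) := by
    rw [hB, h.minpoly_rat]
  have hA : 0 < a * b ^ 2 :=
    Nat.pos_of_ne_zero (mul_ne_zero h.a_ne_zero (pow_ne_zero 2 h.b_ne_zero))
  generalize (a * b ^ 2) = A at hmin hA
  set s : ℝ := (A : ℝ) ^ ((1 : ℝ) / 3) with hs
  have hp0 : (0 : ℝ) < A := by exact_mod_cast hA
  have hs3 : s ^ 3 = A := by
    rw [hs, ← Real.rpow_natCast, ← Real.rpow_mul hp0.le]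
    norm_num
  have hs0 : 0 < s := Real.rpow_pos_of_pos hp0 _
  refine ⟨⟨(B.lift s ?_).toRingHom, trivial⟩, ?_⟩
  · rw [hmin]
    simp [hs3]
  · set z : ℂ := s * ⟨-1 / 2, √3 / 2⟩ with hz
    have hz3 : z ^ 3 = A := by
      have h1 : (⟨-1 / 2, √3 / 2⟩ : ℂ) ^ 3 = 1 := by
        have h3 : √3 * √3 = 3 := Real.mul_self_sqrt (by norm_num)
        apply Complex.ext
        · simp [pow_succ, Complex.mul_re, Complex.mul_im]
          linear_combination (3 / 8 : ℝ) * h3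
        · simp [pow_succ, Complex.mul_re, Complex.mul_im]
          linear_combination (-√3 / 8 : ℝ) * h3
      rw [hz, mul_pow, h1, mul_one]
      exact_mod_cast hs3
    have hroot : aeval z (minpoly ℚ B.gen) = 0 := by
      rw [hmin]
      simp [hz3]
    refine ⟨(B.lift z hroot).toRingHom, ?_⟩
    intro h
    rw [ComplexEmbedding.isReal_iff] at h
    have h1 := congrArg (fun f : K →+* ℂ => f B.gen) h
    simp only [ComplexEmbedding.conjugate_coe_eq] at h1
    have h2 : (B.lift z hroot).toRingHom B.gen = z := B.lift_gen z hroot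
    rw [h2, Complex.conj_eq_iff_im] at h1
    rw [hz] at h1
    simp at h1
    exact hs0.ne' h1

end PureCubic

end Pool.Agent.Work.Mu22
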