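import Pool.Agent.Work.MP_a4986b_nt.Defs2

set_option autoImplicit false
set_option maxHeartbeats 400000

/-! I0a, I0b: the final numerical inequalities -/

namespace Pool.Agent.Work.Mu22

open Real

theorem sqrt27 : √(27 : ℝ) = 3 * √3 := by
  rw [show (27 : ℝ) = 3 ^ 2 * 3 by norm_num, Real.sqrt_mul (by norm_num), Real.sqrt_sq (by norm_num)]

/-- `Y * LL` -/
theorem Y_mul_LL (K x : ℝ) : K * √27 * x / (4 * π) * LL = K * x / 4 := by
  unfold LL
  rw [sqrt27]
  have h3 : √(3 : ℝ) ≠ 0 := by positivity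
  have hpi : π ≠ 0 := Real.pi_ne_zero
  field_simp

theorem Y_le {K x : ℝ} (hK : 0 ≤ K) (hx : 0 ≤ x) :
    K * √27 * x / (4 * π) ≤ K * x * 0.4135 := by
  have h1 : √(27 : ℝ) ≤ 5.19616 := by
    rw [Real.sqrt_le_left (by norm_num)]
    norm_num
  have hpi : (3.14159 : ℝ) < π := by
    have := Real.pi_gt_d6
    linarith
  rw [div_le_iff₀ (by positivity)]
  have h2 : K * √27 * x ≤ K * x * 5.19616 := by
    have := mul_le_mul_of_nonneg_left h1 (mul_nonneg hK hx)
    nlinarith
  have h3 : K * x * 5.19616 ≤ K * x * 0.4135 * (4 * π) := by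
    have := mul_le_mul_of_nonneg_left hpi.le (mul_nonneg hK hx)
    nlinarith
  linarith

theorem Y_pos {K x : ℝ} (hK : 0 < K) (hx : 0 < x) : 0 < K * √27 * x / (4 * π) := by
  positivity

/-- lower bound of the logarithm of the discriminant -/
theorem log_disc {x : ℝ} (hx : 2 ≤ x) :
    Real.log 6.75 + 2 * Real.log x - 8 / (9 * x ^ 2 - 8) ≤
      Real.log ((27 * x ^ 2 - 24) / 4) := by
  have hx0 : 0 < x := by linarith
  have h9 : 0 < 9 * x ^ 2 - 8 := by nlinarith
  have h1 : (27 * x ^ 2 - 24) / 4 = 6.75 * x ^ 2 * ((9 * x ^ 2 - 8) / (9 * x ^ 2)) := by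
    field_simp
    ring
  have h2 : 0 < (9 * x ^ 2 - 8) / (9 * x ^ 2) := by positivity
  rw [h1, Real.log_mul (by positivity) h2.ne', Real.log_mul (by norm_num) (by positivity),
    Real.log_pow]
  have h3 := Real.one_sub_inv_le_log_of_pos h2
  have h4 : 1 - ((9 * x ^ 2 - 8) / (9 * x ^ 2))⁻¹ = -(8 / (9 * x ^ 2 - 8)) := by
    rw [inv_div]
    field_simp
    ring
  rw [h4] at h3
  push_cast
  linarith

theorem numeric_small {x : ℝ} (hx : 2 ≤ x) (hx' : x ≤ 20) :
    2 * (3 * √27 * x / (4 * π) * (LL * Real.log (3 * √27 * x / (4 * π)) + 0.064) +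
      Real.log (3 * √27 * x / (4 * π)) / 12 + 0.388) <
    2 * x * (Real.log ((27 * x ^ 2 - 24) / 4) / 3) := by
  have hx0 : 0 < x := by linarith
  have hY := Y_mul_LL 3 x
  have hY1 := Y_le (K := 3) (by norm_num) hx0.le
  have hY0 := Y_pos (K := 3) (by norm_num) hx0
  obtain ⟨Y, hYd⟩ : ∃ Y, Y = 3 * √27 * x / (4 * π) := ⟨_, rfl⟩
  rw [← hYd] at hY hY1 hY0 ⊢
  have hlY : Real.log Y ≤ Real.log 1.2405 + Real.log x := by
    rw [← Real.log_mul (by norm_num) hx0.ne']
    exact Real.log_le_log hY0 (by linarith)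
  have hD := log_disc hx
  have hE : 0.9477 ≤ 2 / 3 * Real.log 6.75 - 1.5 * Real.log 1.2405 := by
    have h1 : Real.log (6.75 ^ 4 / 1.2405 ^ 9) = 4 * Real.log 6.75 - 9 * Real.log 1.2405 := by
      rw [Real.log_div (by norm_num) (by norm_num), Real.log_pow, Real.log_pow]
      norm_num
    have h2 : Real.log (6.75 ^ 4 / 1.2405 ^ 9) =
        8 * Real.log 2 + Real.log (6.75 ^ 4 / 1.2405 ^ 9 / 256) := by
      rw [Real.log_div (by norm_num) (by norm_num : (256 : ℝ) ≠ 0),
        show (256 : ℝ) = 2 ^ 8 by norm_num, Real.log_pow]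
      push_cast
      ring
    have h3 := Real.one_sub_inv_le_log_of_pos
      (show (0 : ℝ) < 6.75 ^ 4 / 1.2405 ^ 9 / 256 by norm_num)
    have h4 := Real.log_two_gt_d9
    norm_num at h1 h2 h3 ⊢
    linarith
  have hE2 : Real.log 1.2405 ≤ 0.2405 := by
    have := Real.log_le_sub_one_of_pos (show (0 : ℝ) < 1.2405 by norm_num)
    linarith
  -- the logarithm of x
  have hl0 : 0 ≤ Real.log x := Real.log_nonneg (by linarith)
  have h16 : 16 * x / (27 * x ^ 2 - 24) ≤ 8 / 21 := by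
    rw [div_le_iff₀ (by nlinarith)]
    nlinarith
  have h8 : 8 / (9 * x ^ 2 - 8) * x = 3 / 2 * (16 * x / (27 * x ^ 2 - 24)) := by
    have h9 : 9 * x ^ 2 - 8 ≠ 0 := by nlinarith
    rw [show 27 * x ^ 2 - 24 = 3 * (9 * x ^ 2 - 8) by ring]
    field_simp
    ring
  have key : (x + 1) / 6 * Real.log x < 0.7889 * x - 8 / 21 - 0.8161 := by
    have hl2 := Real.log_two_lt_d9
    have step : ∀ k : ℕ, Real.log x ≤ k * Real.log 2 + (x / 2 ^ k - 1) := by
      intro k
      have h1 := Real.log_le_sub_one_of_pos (show 0 < x / 2 ^ k by positivity)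
      rw [Real.log_div hx0.ne' (by positivity), Real.log_pow] at h1
      linarith
    rcases le_total x 3 with h | h
    · have := step 1
      norm_num at this
      nlinarith
    rcases le_total x 6 with h' | h'
    · have := step 2
      norm_num at this
      nlinarith
    rcases le_total x 12 with h'' | h''
    · have := step 3
      norm_num at this
      nlinarith
    · have := step 4
      norm_num at this
      nlinarith
  have e1 : 2 * (Y * (LL * Real.log Y + 0.064) + Real.log Y / 12 + 0.388) =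
      (3 / 2 * x + 1 / 6) * Real.log Y + 0.128 * Y + 0.776 := by
    have : Y * (LL * Real.log Y + 0.064) = (Y * LL) * Real.log Y + 0.064 * Y := by ring
    rw [this, hY]
    ring
  have e2 : (3 / 2 * x + 1 / 6) * Real.log Y ≤
      (3 / 2 * x + 1 / 6) * (Real.log 1.2405 + Real.log x) :=
    mul_le_mul_of_nonneg_left hlY (by positivity)
  have e3 : 2 * x * ((Real.log 6.75 + 2 * Real.log x - 8 / (9 * x ^ 2 - 8)) / 3) ≤
      2 * x * (Real.log ((27 * x ^ 2 - 24) / 4) / 3) := by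
    have := mul_le_mul_of_nonneg_left hD hx0.le
    linarith
  have e4 : 2 * x * ((Real.log 6.75 + 2 * Real.log x - 8 / (9 * x ^ 2 - 8)) / 3) =
      2 / 3 * Real.log 6.75 * x + 4 / 3 * (x * Real.log x) - 16 * x / (27 * x ^ 2 - 24) := by
    linear_combination (-(2 / 3 : ℝ)) * h8
  have e5 := mul_le_mul_of_nonneg_right hE hx0.le
  rw [e1]
  rw [e4] at e3
  nlinarith [e2, e3, e5, key, h16, hY1, hE2]

theorem numeric_large {x : ℝ} (hx : 10 ≤ x) :
    2 * (6 * √27 * x / (4 * π) * (LL * Real.log (6 * √27 * x / (4 * π)) + 0.064) +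
      Real.log (6 * √27 * x / (4 * π)) / 12 + 0.388) <
    5 * x * (Real.log ((27 * x ^ 2 - 24) / 4) / 3) := by
  have hx0 : 0 < x := by linarith
  have hY := Y_mul_LL 6 x
  have hY1 := Y_le (K := 6) (by norm_num) hx0.le
  have hY0 := Y_pos (K := 6) (by norm_num) hx0
  obtain ⟨Y, hYd⟩ : ∃ Y, Y = 6 * √27 * x / (4 * π) := ⟨_, rfl⟩
  rw [← hYd] at hY hY1 hY0 ⊢
  have hlY : Real.log Y ≤ Real.log 2.481 + Real.log x := by
    rw [← Real.log_mul (by norm_num) hx0.ne']
    exact Real.log_le_log hY0 (by linarith)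
  have hD := log_disc (show (2 : ℝ) ≤ x by linarith)
  have hE : 0.39 ≤ 5 / 3 * Real.log 6.75 - 3 * Real.log 2.481 := by
    have h1 : Real.log (6.75 ^ 5 / 2.481 ^ 9) = 5 * Real.log 6.75 - 9 * Real.log 2.481 := by
      rw [Real.log_div (by norm_num) (by norm_num), Real.log_pow, Real.log_pow]
      norm_num
    have h2 : Real.log (6.75 ^ 5 / 2.481 ^ 9) =
        Real.log 2 + Real.log (6.75 ^ 5 / 2.481 ^ 9 / 2) := by
      rw [Real.log_div (by norm_num) (by norm_num : (2 : ℝ) ≠ 0)]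
      ring
    have h3 := Real.one_sub_inv_le_log_of_pos
      (show (0 : ℝ) < 6.75 ^ 5 / 2.481 ^ 9 / 2 by norm_num)
    have h4 := Real.log_two_gt_d9
    norm_num at h1 h2 h3 ⊢
    linarith
  have hE2 : Real.log 2.481 ≤ 1.481 := by
    have := Real.log_le_sub_one_of_pos (show (0 : ℝ) < 2.481 by norm_num)
    linarith
  have hl : 2 ≤ Real.log x := by
    have h1 : Real.log (2 ^ 3) ≤ Real.log x := Real.log_le_log (by norm_num) (by linarith)
    rw [Real.log_pow] at h1
    have h4 := Real.log_two_gt_d9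
    push_cast at h1
    linarith
  have h8 : 8 / (9 * x ^ 2 - 8) * x ≤ 0.1 := by
    rw [div_mul_eq_mul_div, div_le_iff₀ (by nlinarith)]
    nlinarith
  have e1 : 2 * (Y * (LL * Real.log Y + 0.064) + Real.log Y / 12 + 0.388) =
      (3 * x + 1 / 6) * Real.log Y + 0.128 * Y + 0.776 := by
    have : Y * (LL * Real.log Y + 0.064) = (Y * LL) * Real.log Y + 0.064 * Y := by ring
    rw [this, hY]
    ring
  have e2 : (3 * x + 1 / 6) * Real.log Y ≤
      (3 * x + 1 / 6) * (Real.log 2.481 + Real.log x) :=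
    mul_le_mul_of_nonneg_left hlY (by positivity)
  have e3 : 5 * x * ((Real.log 6.75 + 2 * Real.log x - 8 / (9 * x ^ 2 - 8)) / 3) ≤
      5 * x * (Real.log ((27 * x ^ 2 - 24) / 4) / 3) := by
    have := mul_le_mul_of_nonneg_left hD hx0.le
    linarith
  have e4 : 5 * x * ((Real.log 6.75 + 2 * Real.log x - 8 / (9 * x ^ 2 - 8)) / 3) =
      5 / 3 * Real.log 6.75 * x + 10 / 3 * (x * Real.log x) - 5 / 3 * (8 / (9 * x ^ 2 - 8) * x) := by
    ring
  have e5 := mul_le_mul_of_nonneg_right hE hx0.le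
  have e6 : 0 ≤ (Real.log x - 2) * (x / 3 - 1 / 6) := mul_nonneg (by linarith) (by linarith)
  rw [e1]
  rw [e4] at e3
  nlinarith [e2, e3, e5, h8, hY1, hE2, e6]

end Pool.Agent.Work.Mu22
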