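import Pool.Agent.Work.MP_a4986b_nt.Defs2
import Pool.Agent.Work.MP_a4986b_nt.BB

set_option autoImplicit false
set_option maxHeartbeats 400000

/-! # E0, E0', E1': the arithmetic function `rr` -/

namespace Pool.Agent.Work.Mu22

open NumberField Module MeasureTheory
open scoped Pointwise nonZeroDivisors ENNReal Real

/-- `rr` as an arithmetic function -/
theorem rr_eq (n : ℕ) : rr n = (chiA * ((ArithmeticFunction.zeta : ArithmeticFunction ℕ) :
    ArithmeticFunction ℤ)) n := by
  rw [ArithmeticFunction.coe_mul_zeta_apply]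
  rfl

theorem chiZeta_mult : (chiA * ((ArithmeticFunction.zeta : ArithmeticFunction ℕ) :
    ArithmeticFunction ℤ)).IsMultiplicative :=
  chiA_mult.mul ArithmeticFunction.isMultiplicative_zeta.natCast

/-- D3a for `rr` -/
theorem rr_mul {m n : ℕ} (h : m.Coprime n) : rr (m * n) = rr m * rr n := by
  rw [rr_eq, rr_eq, rr_eq]
  exact chiZeta_mult.map_mul_of_coprime h

theorem rr_prime_pow {q : ℕ} (hq : q.Prime) (k : ℕ) :
    rr (q ^ k) = ∑ j ∈ Finset.range (k + 1), chi3 q ^ j := by
  unfold rr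
  rw [Nat.divisors_prime_pow hq, Finset.sum_map]
  refine Finset.sum_congr rfl fun j _ => ?_
  simp only [Function.Embedding.coeFn_mk]
  rw [chi3_pow]

theorem chi3_cases (n : ℕ) : chi3 n = 1 ∨ chi3 n = -1 ∨ chi3 n = 0 := by
  unfold chi3
  split_ifs <;> simp

theorem abs_chi3_le (n : ℕ) : |chi3 n| ≤ 1 := by
  rcases chi3_cases n with h | h | h <;> simp [h]

theorem rr_prime_pow_nonneg {q : ℕ} (hq : q.Prime) (k : ℕ) : 0 ≤ rr (q ^ k) := by
  rw [rr_prime_pow hq]
  rcases chi3_cases q with h | h | h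
  · simp only [h, one_pow, Finset.sum_const, Finset.card_range, nsmul_eq_mul, mul_one]
    positivity
  · rw [h, neg_one_geom_sum]
    split_ifs <;> norm_num
  · rw [h, Finset.sum_range_succ']
    simp

theorem rr_zero : rr 0 = 0 := by simp [rr]

theorem rr_one : rr 1 = 1 := by simp [rr, chi3_one]

/-- E0 -/
theorem rr_nonneg (n : ℕ) : 0 ≤ rr n := by
  rcases Nat.eq_zero_or_pos n with rfl | hn
  · rw [rr_zero]
  · rw [rr_eq, chiZeta_mult.multiplicative_factorization _ hn.ne']
    refine Finset.prod_nonneg fun q hq => ?_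
    show 0 ≤ (chiA * ((ArithmeticFunction.zeta : ArithmeticFunction ℕ) :
      ArithmeticFunction ℤ)) (q ^ (n.factorization q))
    rw [← rr_eq]
    exact rr_prime_pow_nonneg (Nat.prime_of_mem_primeFactors (Nat.support_factorization n ▸ hq)) _

/-- E0' -/
theorem bb_eq_sum_rr (n : ℕ) : bb n = ∑ d ∈ n.divisors, rr d := by
  rw [bb_eq]
  have h : ((ArithmeticFunction.sigma 0 : ArithmeticFunction ℕ) : ArithmeticFunction ℤ) =
      ((ArithmeticFunction.zeta : ArithmeticFunction ℕ) : ArithmeticFunction ℤ) *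
      ((ArithmeticFunction.zeta : ArithmeticFunction ℕ) : ArithmeticFunction ℤ) := by
    ext m
    rw [ArithmeticFunction.coe_mul_zeta_apply, ArithmeticFunction.natCoe_apply,
      ArithmeticFunction.sigma_zero_apply]
    rw [Finset.card_eq_sum_ones, Nat.cast_sum]
    refine Finset.sum_congr rfl fun d hd => ?_
    rw [ArithmeticFunction.natCoe_apply, ArithmeticFunction.zeta_apply,
      if_neg (Nat.pos_of_mem_divisors hd).ne']
  rw [h, ← mul_assoc, ArithmeticFunction.coe_mul_zeta_apply]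
  exact Finset.sum_congr rfl fun d _ => (rr_eq d).symm

/-- trivial bound -/
theorem abs_rr_le (n : ℕ) : |rr n| ≤ n := by
  unfold rr
  calc |∑ d ∈ n.divisors, chi3 d| ≤ ∑ d ∈ n.divisors, |chi3 d| := Finset.abs_sum_le_sum_abs _ _
    _ ≤ ∑ _d ∈ n.divisors, (1 : ℤ) := Finset.sum_le_sum fun d _ => abs_chi3_le d
    _ = (n.divisors.card : ℤ) := by simp
    _ ≤ n := by exact_mod_cast Nat.card_divisors_le_self n

theorem rr_le (n : ℕ) : rr n ≤ n := (le_abs_self _).trans (abs_rr_le n)

/-- E1' -/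
theorem HH_summable {v : ℝ} (hv : 0 < v) :
    Summable fun n : ℕ => (rr n : ℝ) * Real.exp (-(n * v)) := by
  have h := Real.summable_pow_mul_exp_neg_nat_mul 1 hv
  refine Summable.of_nonneg_of_le (fun n => ?_) (fun n => ?_) h
  · exact mul_nonneg (by exact_mod_cast rr_nonneg n) (Real.exp_pos _).le
  · have h1 : (rr n : ℝ) ≤ (n : ℝ) := by exact_mod_cast rr_le n
    have h2 : Real.exp (-(n * v)) = Real.exp (-v * n) := by ring_nf
    rw [h2, pow_one]
    exact mul_le_mul_of_nonneg_right h1 (Real.exp_pos _).le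

end Pool.Agent.Work.Mu22
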