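import Mathlib
import Pool.Agent.Work.MP_a4986b_nt.RR

set_option autoImplicit false
set_option maxHeartbeats 400000

/-! # E4, E5: integrals of `HH` over `(1, ∞)` -/

namespace Pool.Agent.Work.Mu22

open MeasureTheory Set
open scoped ENNReal Real

theorem HHint_abs_rr (n : ℕ) : |(rr n : ℝ)| ≤ n := by
  have h1 : |rr n| ≤ (n.divisors.card : ℤ) := by
    unfold rr
    refine (Finset.abs_sum_le_sum_abs _ _).trans ?_
    have : ∀ d ∈ n.divisors, |chi3 d| ≤ 1 := by
      intro d _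
      unfold chi3
      split_ifs <;> norm_num
    calc ∑ d ∈ n.divisors, |chi3 d| ≤ ∑ d ∈ n.divisors, 1 := Finset.sum_le_sum this
      _ = (n.divisors.card : ℤ) := by simp
  have h2 : (n.divisors.card : ℤ) ≤ n := by exact_mod_cast Nat.card_divisors_le_self n
  exact_mod_cast h1.trans h2

theorem HHint_bound {n : ℕ} {v : ℝ} (hv : 1 ≤ v) :
    ‖(rr n : ℝ) * Real.exp (-(n * v))‖ ≤ n * Real.exp (-n) * Real.exp (-(v - 1)) := by
  rw [norm_mul, Real.norm_eq_abs, Real.norm_eq_abs, Real.abs_exp, mul_assoc, ← Real.exp_add]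
  rcases Nat.eq_zero_or_pos n with h | h
  · subst h
    simp [rr]
  · have hn : (1 : ℝ) ≤ n := by exact_mod_cast h
    refine mul_le_mul (HHint_abs_rr n) (Real.exp_le_exp.2 ?_) (Real.exp_pos _).le (by positivity)
    nlinarith

theorem HHint_summable : Summable fun n : ℕ => (n : ℝ) * Real.exp (-n) := by
  have := Real.summable_pow_mul_exp_neg_nat_mul 1 (r := 1) one_pos
  simpa using this

theorem HHint_contOn : ContinuousOn HH (Ici 1) := by
  unfold HH
  refine continuousOn_tsum (u := fun n : ℕ => (n : ℝ) * Real.exp (-n)) (fun n => ?_)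
    HHint_summable fun n v hv => ?_
  · fun_prop
  · refine (HHint_bound (mem_Ici.1 hv)).trans ?_
    have h1 : Real.exp (-(v - 1)) ≤ 1 := Real.exp_le_one_iff.2 (by linarith [mem_Ici.1 hv])
    have h2 : 0 ≤ (n : ℝ) * Real.exp (-n) := by positivity
    calc (n : ℝ) * Real.exp (-n) * Real.exp (-(v - 1)) ≤ (n : ℝ) * Real.exp (-n) * 1 :=
          mul_le_mul_of_nonneg_left h1 h2
      _ = _ := mul_one _

theorem HHint_integrable : IntegrableOn HH (Ioi 1) := by
  set C : ℝ := ∑' n : ℕ, (n : ℝ) * Real.exp (-n) with hC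
  have hg : IntegrableOn (fun v : ℝ => C * Real.exp 1 * Real.exp (-v)) (Ioi 1) :=
    (integrableOn_exp_neg_Ioi 1).const_mul _
  refine Integrable.mono' hg
    ((HHint_contOn.mono Ioi_subset_Ici_self).aestronglyMeasurable measurableSet_Ioi) ?_
  filter_upwards [ae_restrict_mem measurableSet_Ioi] with v hv
  have hv1 : 1 ≤ v := (mem_Ioi.1 hv).le
  have h1 : HasSum (fun n : ℕ => (n : ℝ) * Real.exp (-n) * Real.exp (-(v - 1)))
      (C * Real.exp (-(v - 1))) := HHint_summable.hasSum.mul_right _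
  have h2 := tsum_of_norm_bounded h1 fun n => HHint_bound (n := n) hv1
  have h3 : C * Real.exp (-(v - 1)) = C * Real.exp 1 * Real.exp (-v) := by
    rw [mul_assoc, ← Real.exp_add]
    congr 2
    ring
  rw [← h3]
  exact h2

theorem HHint_exp {n : ℕ} (hn : 1 ≤ n) :
    IntegrableOn (fun v : ℝ => Real.exp (-(n * v))) (Ioi 1) ∧
      ∫ v in Ioi (1 : ℝ), Real.exp (-(n * v)) = Real.exp (-n) / n := by
  have hn0 : (0 : ℝ) < n := by exact_mod_cast hn
  have e : (fun v : ℝ => Real.exp (-(n * v))) = fun v : ℝ => Real.exp (-(n : ℝ) * v) := by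
    funext v
    rw [neg_mul]
  rw [e]
  refine ⟨integrableOn_exp_mul_Ioi (by linarith) 1, ?_⟩
  rw [integral_exp_mul_Ioi (by linarith) 1, mul_one, neg_div_neg_eq]

theorem HHint_term (n : ℕ) :
    IntegrableOn (fun v : ℝ => (rr n : ℝ) * Real.exp (-(n * v))) (Ioi 1) ∧
      ∫ v in Ioi (1 : ℝ), (rr n : ℝ) * Real.exp (-(n * v)) = rr n * (Real.exp (-n) / n) := by
  rcases Nat.eq_zero_or_pos n with h | h
  · subst h
    simp [rr]
  · obtain ⟨h1, h2⟩ := HHint_exp h
    refine ⟨h1.const_mul _, ?_⟩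
    rw [integral_const_mul, h2]

theorem HHint_le_exp (n : ℕ) : |(rr n : ℝ)| * (Real.exp (-n) / n) ≤ Real.exp (-n) := by
  rcases Nat.eq_zero_or_pos n with h | h
  · subst h
    simp
  · have hn0 : (0 : ℝ) < n := by exact_mod_cast h
    calc |(rr n : ℝ)| * (Real.exp (-n) / n) ≤ n * (Real.exp (-n) / n) :=
          mul_le_mul_of_nonneg_right (HHint_abs_rr n) (by positivity)
      _ = Real.exp (-n) := by field_simp

theorem HHint_hasSum :
    HasSum (fun n : ℕ => (rr n : ℝ) * (Real.exp (-n) / n)) (∫ v in Ioi (1 : ℝ), HH v) := by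
  have h := hasSum_integral_of_summable_integral_norm (μ := volume.restrict (Ioi (1 : ℝ)))
    (F := fun (n : ℕ) (v : ℝ) => (rr n : ℝ) * Real.exp (-(n * v))) (fun n => (HHint_term n).1) ?_
  · simp only [(HHint_term _).2] at h
    exact h
  · have hval : ∀ n : ℕ, ∫ v in Ioi (1 : ℝ), ‖(rr n : ℝ) * Real.exp (-(n * v))‖ =
        |(rr n : ℝ)| * (Real.exp (-n) / n) := by
      intro n
      have e : (fun v : ℝ => ‖(rr n : ℝ) * Real.exp (-(n * v))‖) =
          fun v : ℝ => |(rr n : ℝ)| * Real.exp (-(n * v)) := by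
        funext v
        rw [norm_mul, Real.norm_eq_abs, Real.norm_eq_abs, Real.abs_exp]
      rw [e]
      rcases Nat.eq_zero_or_pos n with h | h
      · subst h
        simp [rr]
      · rw [integral_const_mul, (HHint_exp h).2]
    simp only [hval]
    refine Summable.of_nonneg_of_le (fun n => by positivity) HHint_le_exp ?_
    have := Real.summable_exp_neg_nat
    exact this

theorem HHint_rr_values : rr 0 = 0 ∧ rr 1 = 1 ∧ rr 2 = 0 ∧ rr 3 = 1 ∧ rr 4 = 1 ∧ rr 5 = 0 ∧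
    rr 6 = 0 ∧ rr 7 = 2 ∧ rr 8 = 0 ∧ rr 9 = 1 := by decide

/-- E4: `∑ rr(n) e^(-n)/n ≤ 0.3895` -/
theorem integral_HH : IntegrableOn HH (Set.Ioi 1) ∧ ∫ v in Set.Ioi (1 : ℝ), HH v ≤ 0.3895 := by
  refine ⟨HHint_integrable, ?_⟩
  have h := HHint_hasSum
  rw [← h.tsum_eq, ← h.summable.sum_add_tsum_nat_add 10]
  set q : ℝ := Real.exp (-1) with hq
  have hq0 : 0 < q := Real.exp_pos _
  have hq1 : q ≤ 0.36788 := by
    rw [hq, Real.exp_neg]
    have h1 := Real.exp_one_gt_d9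
    rw [inv_le_comm₀ (Real.exp_pos _) (by norm_num)]
    refine le_trans ?_ h1.le
    norm_num
  have hpow : ∀ n : ℕ, Real.exp (-(n : ℝ)) = q ^ n := by
    intro n
    rw [hq, ← Real.exp_nat_mul]
    congr 1
    ring
  have htail : ∑' n : ℕ, (rr (n + 10) : ℝ) * (Real.exp (-((n + 10 : ℕ) : ℝ)) / ((n + 10 : ℕ) : ℝ))
      ≤ q ^ 10 * (1 - q)⁻¹ := by
    have hg : HasSum (fun n : ℕ => q ^ 10 * q ^ n) (q ^ 10 * (1 - q)⁻¹) :=
      (hasSum_geometric_of_lt_one hq0.le (by linarith)).mul_left _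
    refine hasSum_le (fun n => ?_) ((summable_nat_add_iff 10).2 h.summable).hasSum hg
    calc (rr (n + 10) : ℝ) * (Real.exp (-((n + 10 : ℕ) : ℝ)) / ((n + 10 : ℕ) : ℝ))
        ≤ |(rr (n + 10) : ℝ)| * (Real.exp (-((n + 10 : ℕ) : ℝ)) / ((n + 10 : ℕ) : ℝ)) :=
          mul_le_mul_of_nonneg_right (le_abs_self _) (by positivity)
      _ ≤ Real.exp (-((n + 10 : ℕ) : ℝ)) := HHint_le_exp (n + 10)
      _ = q ^ 10 * q ^ n := by rw [hpow, pow_add, mul_comm]
  obtain ⟨r0, r1, r2, r3, r4, r5, r6, r7, r8, r9⟩ := HHint_rr_values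
  have hfin : ∑ n ∈ Finset.range 10, (rr n : ℝ) * (Real.exp (-(n : ℝ)) / n) =
      q + q ^ 3 / 3 + q ^ 4 / 4 + 2 * (q ^ 7 / 7) + q ^ 9 / 9 := by
    simp only [Finset.sum_range_succ, Finset.sum_range_zero, r0, r1, r2, r3, r4, r5, r6, r7, r8,
      r9, hpow]
    push_cast
    ring
  rw [hfin]
  have p3 : q ^ 3 ≤ 0.36788 ^ 3 := pow_le_pow_left₀ hq0.le hq1 3
  have p4 : q ^ 4 ≤ 0.36788 ^ 4 := pow_le_pow_left₀ hq0.le hq1 4
  have p7 : q ^ 7 ≤ 0.36788 ^ 7 := pow_le_pow_left₀ hq0.le hq1 7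
  have p9 : q ^ 9 ≤ 0.36788 ^ 9 := pow_le_pow_left₀ hq0.le hq1 9
  have p10 : q ^ 10 * (1 - q)⁻¹ ≤ 0.36788 ^ 10 * (1 - 0.36788)⁻¹ := by
    refine mul_le_mul (pow_le_pow_left₀ hq0.le hq1 10) ?_ (inv_nonneg.2 (by linarith))
      (by norm_num)
    exact inv_anti₀ (by norm_num) (by linarith)
  have hnum : (0.36788 : ℝ) + 0.36788 ^ 3 / 3 + 0.36788 ^ 4 / 4 + 2 * (0.36788 ^ 7 / 7) +
      0.36788 ^ 9 / 9 + 0.36788 ^ 10 * (1 - 0.36788)⁻¹ ≤ 0.3895 := by norm_num
  linarith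

theorem HHint_ge {v : ℝ} (hv : 0 < v) : Real.exp (-v) + Real.exp (-(3 * v)) ≤ HH v := by
  have h1 := (HH_summable hv).sum_le_tsum {1, 3} fun n _ =>
    mul_nonneg (by exact_mod_cast rr_nonneg n) (Real.exp_pos _).le
  obtain ⟨r0, r1, r2, r3, r4, r5, r6, r7, r8, r9⟩ := HHint_rr_values
  rw [Finset.sum_pair (by norm_num), r1, r3] at h1
  push_cast at h1
  rw [one_mul, one_mul, one_mul] at h1
  exact h1

/-- E5: `HH v ≥ e^(-v) + e^(-3v)` -/
theorem integral_HH_div : IntegrableOn (fun v => HH v / v) (Set.Ioi 1) ∧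
    0.188 ≤ ∫ v in Set.Ioi (1 : ℝ), HH v / v := by
  have hint : IntegrableOn (fun v => HH v / v) (Set.Ioi 1) := by
    refine Integrable.mono HHint_integrable ?_ ?_
    · refine ContinuousOn.aestronglyMeasurable ?_ measurableSet_Ioi
      refine (HHint_contOn.mono Ioi_subset_Ici_self).div continuousOn_id fun v hv => ?_
      have : (1 : ℝ) < v := hv
      show v ≠ 0
      linarith
    · filter_upwards [ae_restrict_mem measurableSet_Ioi] with v hv
      have h1 : (1 : ℝ) < v := hv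
      rw [norm_div, Real.norm_eq_abs v, abs_of_pos (by linarith)]
      exact div_le_self (norm_nonneg _) h1.le
  refine ⟨hint, ?_⟩
  -- restrict to `(1, 3]`
  have hpos : ∀ v ∈ Ioi (1 : ℝ), 0 ≤ HH v / v := by
    intro v hv
    have h1 : (1 : ℝ) < v := hv
    have h2 := HHint_ge (v := v) (by linarith)
    have h3 : 0 ≤ HH v := le_trans (by positivity) h2
    exact div_nonneg h3 (by linarith)
  have hstep1 : ∫ v in Ioc (1 : ℝ) 3, HH v / v ≤ ∫ v in Ioi (1 : ℝ), HH v / v := by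
    refine setIntegral_mono_set hint ?_ (Ioc_subset_Ioi_self.eventuallyLE)
    filter_upwards [ae_restrict_mem measurableSet_Ioi] with v hv
    exact hpos v hv
  set g : ℝ → ℝ := fun v => Real.exp (-v) * (1 - v / 4) +
    Real.exp (-(3 * v)) * (3 / 2 - 9 * v / 16) with hg
  have hgc : Continuous g := by rw [hg]; fun_prop
  have hstep2 : ∫ v in Ioc (1 : ℝ) 3, g v ≤ ∫ v in Ioc (1 : ℝ) 3, HH v / v := by
    refine setIntegral_mono_on (hgc.integrableOn_Ioc) (hint.mono_set Ioc_subset_Ioi_self)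
      measurableSet_Ioc fun v hv => ?_
    have h1 : (1 : ℝ) < v := hv.1
    have hv0 : 0 < v := by linarith
    have h2 := HHint_ge hv0
    rw [le_div_iff₀ hv0]
    refine le_trans ?_ h2
    have e1 : (1 - v / 4) * v ≤ 1 := by nlinarith [sq_nonneg (v - 2)]
    have e2 : (3 / 2 - 9 * v / 16) * v ≤ 1 := by nlinarith [sq_nonneg (3 * v - 4)]
    have e3 := mul_le_mul_of_nonneg_left e1 (Real.exp_pos (-v)).le
    have e4 := mul_le_mul_of_nonneg_left e2 (Real.exp_pos (-(3 * v))).le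
    have e5 : g v * v = Real.exp (-v) * ((1 - v / 4) * v) +
      Real.exp (-(3 * v)) * ((3 / 2 - 9 * v / 16) * v) := by rw [hg]; ring
    rw [e5]
    linarith
  -- the primitive
  have hF : ∀ v : ℝ, HasDerivAt (fun v => Real.exp (-v) * (v / 4 - 3 / 4) +
      Real.exp (-(3 * v)) * (3 * v / 16 - 7 / 16)) (g v) v := by
    intro v
    have h1 : HasDerivAt (fun v : ℝ => Real.exp (-v)) (Real.exp (-v) * (-1)) v :=
      (hasDerivAt_neg v).exp
    have h2 : HasDerivAt (fun v : ℝ => Real.exp (-(3 * v))) (Real.exp (-(3 * v)) * (-3)) v := by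
      have h3 : HasDerivAt (fun v : ℝ => -(3 * v)) (-3) v := by
        simpa using ((hasDerivAt_id v).const_mul (3 : ℝ)).fun_neg
      exact h3.exp
    have h3 : HasDerivAt (fun v : ℝ => v / 4 - 3 / 4) (1 / 4) v := by
      simpa using ((hasDerivAt_id v).div_const 4).sub_const (3 / 4)
    have h4 : HasDerivAt (fun v : ℝ => 3 * v / 16 - 7 / 16) (3 / 16) v := by
      have := (((hasDerivAt_id v).const_mul 3).div_const 16).sub_const (7 / 16)
      simpa using this
    have h5 := (h1.mul h3).add (h2.mul h4)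
    refine h5.congr_deriv ?_
    rw [hg]
    ring
  have hval : ∫ v in Ioc (1 : ℝ) 3, g v = (Real.exp (-3) * (3 / 4 - 3 / 4) +
      Real.exp (-(3 * 3)) * (3 * 3 / 16 - 7 / 16)) - (Real.exp (-1) * (1 / 4 - 3 / 4) +
      Real.exp (-(3 * 1)) * (3 * 1 / 16 - 7 / 16)) := by
    rw [← intervalIntegral.integral_of_le (by norm_num)]
    exact intervalIntegral.integral_eq_sub_of_hasDerivAt (fun v _ => hF v)
      (hgc.intervalIntegrable _ _)
  have hq : 0.3678 ≤ Real.exp (-1) := by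
    rw [Real.exp_neg]
    have h1 := Real.exp_one_lt_d9
    rw [le_inv_comm₀ (by norm_num) (Real.exp_pos _)]
    refine h1.le.trans ?_
    norm_num
  have hq3 : (0.3678 : ℝ) ^ 3 ≤ Real.exp (-(3 * 1)) := by
    have : Real.exp (-(3 * 1)) = Real.exp (-1) ^ 3 := by
      rw [← Real.exp_nat_mul]
      congr 1
      norm_num
    rw [this]
    exact pow_le_pow_left₀ (by norm_num) hq 3
  have hq9 : 0 < Real.exp (-(3 * 3)) := Real.exp_pos _
  have h1 : (0.188 : ℝ) ≤ ∫ v in Ioc (1 : ℝ) 3, g v := by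
    rw [hval]
    norm_num at hq hq3 hq9 ⊢
    linarith
  linarith

end Pool.Agent.Work.Mu22
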