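import Pool.Agent.Work.MP_a4986b_nt.Defs2

set_option autoImplicit false
set_option maxHeartbeats 400000

/-! # J0, J1: summability of `JJ` and the bound from the theta inversion -/

namespace Pool.Agent.Work.Mu22

open NumberField Module MeasureTheory
open scoped Pointwise nonZeroDivisors ENNReal Real

namespace JJb

/-- summability and size of the tail of a Gaussian sum -/
theorem gauss_summable {c : ℝ} (hc : 0 < c) :
    Summable fun m : ℕ => Real.exp (-c * ((m : ℝ) + 1) ^ 2) := by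
  have h1 : Summable fun m : ℕ => Real.exp (-c) ^ (m + 1) :=
    (summable_nat_add_iff 1).2 (summable_geometric_of_lt_one (Real.exp_pos _).le
      (Real.exp_lt_one_iff.2 (by linarith)))
  refine Summable.of_nonneg_of_le (fun m => (Real.exp_pos _).le) (fun m => ?_) h1
  rw [← Real.exp_nat_mul]
  refine Real.exp_le_exp.2 ?_
  have hm : (0 : ℝ) ≤ m := Nat.cast_nonneg m
  have h3 : ((m : ℝ) + 1) ≤ ((m : ℝ) + 1) ^ 2 := by nlinarith
  push_cast
  nlinarith

theorem gauss_le {c : ℝ} (hc : 0 < c) (hq : Real.exp (-c) ≤ 1 / 2) :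
    ∑' m : ℕ, Real.exp (-c * ((m : ℝ) + 1) ^ 2) ≤ 2 * Real.exp (-c) := by
  have hg : Summable fun m : ℕ => Real.exp (-c) * (1 / 2 : ℝ) ^ m :=
    (summable_geometric_of_lt_one (by norm_num) (by norm_num)).mul_left _
  have h := Summable.tsum_le_tsum (fun m => ?_) (gauss_summable hc) hg
  · rw [tsum_mul_left, tsum_geometric_of_lt_one (by norm_num) (by norm_num)] at h
    have h4 : (1 - 1 / 2 : ℝ)⁻¹ = 2 := by norm_num
    rw [h4] at h
    linarith
  · have h5 : Real.exp (-c) ^ m ≤ (1 / 2 : ℝ) ^ m :=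
      pow_le_pow_left₀ (Real.exp_pos _).le hq m
    refine le_trans ?_ (mul_le_mul_of_nonneg_left h5 (Real.exp_pos _).le)
    rw [← Real.exp_nat_mul, ← Real.exp_add]
    refine Real.exp_le_exp.2 ?_
    have hm : (0 : ℝ) ≤ m := Nat.cast_nonneg m
    have h3 : ((m : ℝ) + 1) ≤ ((m : ℝ) + 1) ^ 2 := by nlinarith
    nlinarith

theorem int_sum {c : ℝ} (hc : 0 < c) :
    ∑' n : ℤ, Real.exp (-c * (n : ℝ) ^ 2) =
      1 + 2 * ∑' m : ℕ, Real.exp (-c * ((m : ℝ) + 1) ^ 2) := by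
  have h1 := gauss_summable hc
  have h := tsum_of_add_one_of_neg_add_one (f := fun n : ℤ => Real.exp (-c * (n : ℝ) ^ 2))
    (by simpa using h1) (by
      refine h1.congr fun m => ?_
      push_cast
      congr 1
      ring)
  rw [h]
  have e1 : ∑' n : ℕ, Real.exp (-c * (((n : ℤ) + 1 : ℤ) : ℝ) ^ 2) =
      ∑' m : ℕ, Real.exp (-c * ((m : ℝ) + 1) ^ 2) := tsum_congr fun m => by push_cast; rfl
  have e2 : ∑' n : ℕ, Real.exp (-c * ((-((n : ℤ) + 1) : ℤ) : ℝ) ^ 2) =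
      ∑' m : ℕ, Real.exp (-c * ((m : ℝ) + 1) ^ 2) := tsum_congr fun m => by
    push_cast
    congr 1
    ring
  rw [e1, e2]
  simp
  ring

end JJb

open JJb

theorem JJ_summable {s : ℝ} (hs : 0 < s) :
    Summable fun m : ℕ => Real.exp (-(π / 4) * (((m : ℝ) + 1) * s) ^ 2) := by
  have hc : 0 < π / 4 * s ^ 2 := by have := Real.pi_pos; positivity
  refine (gauss_summable hc).congr fun m => ?_
  congr 1
  ring

/-- J1: theta inversion (`Real.tsum_exp_neg_mul_int_sq`) -/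
theorem JJ_le {s : ℝ} (hs : 0 < s) (hs1 : s ≤ 1) : JJ s ≤ 1 / s - 1 / 2 + 1 / 10000 * s ^ 2 := by
  have hπ := Real.pi_gt_three
  have hc : 0 < π / 4 * s ^ 2 := by positivity
  have hs2 : 0 < s ^ 2 := by positivity
  have hs21 : s ^ 2 ≤ 1 := by nlinarith
  have hd : 0 < 4 * π / s ^ 2 := by positivity
  have e0 : JJ s = ∑' m : ℕ, Real.exp (-(π / 4 * s ^ 2) * ((m : ℝ) + 1) ^ 2) := by
    rw [JJ]
    refine tsum_congr fun m => ?_
    congr 1
    ring
  have h1 := Real.tsum_exp_neg_mul_int_sq (a := s ^ 2 / 4) (by positivity)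
  have e1 : ∑' n : ℤ, Real.exp (-π * (s ^ 2 / 4) * (n : ℝ) ^ 2) = 1 + 2 * JJ s := by
    rw [e0, ← int_sum hc]
    refine tsum_congr fun n => ?_
    congr 1
    ring
  have e2 : ∑' n : ℤ, Real.exp (-π / (s ^ 2 / 4) * (n : ℝ) ^ 2) =
      1 + 2 * ∑' m : ℕ, Real.exp (-(4 * π / s ^ 2) * ((m : ℝ) + 1) ^ 2) := by
    rw [← int_sum hd]
    refine tsum_congr fun n => ?_
    congr 1
    field_simp
  have e3 : (s ^ 2 / 4) ^ (1 / 2 : ℝ) = s / 2 := by
    rw [← Real.sqrt_eq_rpow, show s ^ 2 / 4 = (s / 2) ^ 2 by ring, Real.sqrt_sq (by positivity)]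
  rw [e1, e2, e3] at h1
  set S := ∑' m : ℕ, Real.exp (-(4 * π / s ^ 2) * ((m : ℝ) + 1) ^ 2) with hS
  -- the size of the first term
  set u : ℝ := 1 / s ^ 2 with hu
  have hu1 : 1 ≤ u := by rw [hu, le_div_iff₀ hs2]; linarith
  have hcu : 4 * π / s ^ 2 = 4 * π * u := by rw [hu]; ring
  have hus : u * s ^ 2 = 1 := by rw [hu]; field_simp
  have hE : Real.exp (-(12 : ℝ)) ≤ 1 / 150000 := by
    rw [Real.exp_neg, one_div]
    refine inv_anti₀ (by norm_num) ?_
    have h2 : Real.exp 12 = Real.exp 1 ^ 12 := by rw [← Real.exp_nat_mul]; norm_num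
    rw [h2]
    calc (150000 : ℝ) ≤ 2.7 ^ 12 := by norm_num
      _ ≤ _ := pow_le_pow_left₀ (by norm_num) (by have := Real.exp_one_gt_d9; linarith) 12
  have hq0 : u ^ 2 * Real.exp (-(4 * π / s ^ 2)) ≤ Real.exp (-(12 : ℝ)) := by
    have h3 : u ≤ Real.exp (u - 1) := by have := Real.add_one_le_exp (u - 1); linarith
    have h4 : u ^ 2 ≤ Real.exp (u - 1) ^ 2 := pow_le_pow_left₀ (by linarith) h3 2
    calc u ^ 2 * Real.exp (-(4 * π / s ^ 2)) ≤
        Real.exp (u - 1) ^ 2 * Real.exp (-(4 * π / s ^ 2)) :=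
          mul_le_mul_of_nonneg_right h4 (Real.exp_pos _).le
      _ = Real.exp (2 * (u - 1) + -(4 * π * u)) := by
          rw [← Real.exp_nat_mul, ← Real.exp_add, hcu]
          norm_num
      _ ≤ _ := Real.exp_le_exp.2 (by nlinarith)
  have hq1 : Real.exp (-(4 * π / s ^ 2)) ≤ u ^ 2 * Real.exp (-(4 * π / s ^ 2)) := by
    have h5 : (1 : ℝ) ≤ u ^ 2 := by nlinarith
    have := Real.exp_pos (-(4 * π / s ^ 2))
    nlinarith
  have hSle : S ≤ 2 * Real.exp (-(4 * π / s ^ 2)) := gauss_le hd (by linarith)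
  have hkey : u ^ 2 * S ≤ 2 / 150000 := by
    have h6 : u ^ 2 * S ≤ u ^ 2 * (2 * Real.exp (-(4 * π / s ^ 2))) :=
      mul_le_mul_of_nonneg_left hSle (by positivity)
    linarith
  have hS4 : S ≤ 2 / 150000 * s ^ 4 := by
    have h7 : u ^ 2 * S * s ^ 4 ≤ 2 / 150000 * s ^ 4 :=
      mul_le_mul_of_nonneg_right hkey (by positivity)
    have h8 : u ^ 2 * S * s ^ 4 = S := by
      calc u ^ 2 * S * s ^ 4 = (u * s ^ 2) ^ 2 * S := by ring
        _ = S := by rw [hus]; ring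
    linarith
  have e4 : JJ s = 1 / s - 1 / 2 + 2 / s * S := by
    have h9 : 1 / (s / 2) = 2 / s := by field_simp
    rw [h9] at h1
    have h10 : 2 / s = 2 * (1 / s) := by ring
    rw [h10] at h1 ⊢
    linarith
  rw [e4]
  have h11 : 2 / s * S ≤ 2 / s * (2 / 150000 * s ^ 4) :=
    mul_le_mul_of_nonneg_left hS4 (by positivity)
  have h12 : 2 / s * (2 / 150000 * s ^ 4) = 4 / 150000 * s ^ 3 := by field_simp; norm_num
  have h13 : s ^ 3 ≤ s ^ 2 := by
    calc s ^ 3 = s ^ 2 * s := by ring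
      _ ≤ s ^ 2 * 1 := mul_le_mul_of_nonneg_left hs1 hs2.le
      _ = s ^ 2 := mul_one _
  rw [h12] at h11
  have h14 : 4 / 150000 * s ^ 3 ≤ 1 / 10000 * s ^ 2 := by nlinarith
  linarith

end Pool.Agent.Work.Mu22
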