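import Pool.Agent.Work.MP_a4986b_nt.Defs2

set_option autoImplicit false
set_option maxHeartbeats 400000

/-! # J2: the integral of `JJ` over `(1, ∞)` -/

namespace Pool.Agent.Work.Mu22

open NumberField Module MeasureTheory
open scoped Pointwise nonZeroDivisors ENNReal Real

namespace JJint

theorem term_le {s : ℝ} (hs : 1 ≤ s) (m : ℕ) :
    Real.exp (-(π / 4) * (((m : ℝ) + 1) * s) ^ 2) ≤ Real.exp (-(π / 4)) ^ m := by
  rw [← Real.exp_nat_mul]
  refine Real.exp_le_exp.2 ?_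
  have hπ := Real.pi_pos
  have hm : (0 : ℝ) ≤ m := Nat.cast_nonneg m
  have h1 : (m : ℝ) ≤ (((m : ℝ) + 1) * s) ^ 2 := by
    have h2 : (m : ℝ) + 1 ≤ ((m : ℝ) + 1) * s := by nlinarith
    nlinarith
  nlinarith

theorem exp_lt_one_aux : Real.exp (-(π / 4)) < 1 := by
  rw [← Real.exp_zero]
  exact Real.exp_lt_exp.2 (by have := Real.pi_pos; linarith)

theorem summable_aux {s : ℝ} (hs : 1 ≤ s) :
    Summable fun m : ℕ => Real.exp (-(π / 4) * (((m : ℝ) + 1) * s) ^ 2) := by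
  refine Summable.of_nonneg_of_le (fun m => (Real.exp_pos _).le) (term_le hs) ?_
  exact summable_geometric_of_lt_one (Real.exp_pos _).le
    exp_lt_one_aux

theorem JJ_nonneg (s : ℝ) : 0 ≤ JJ s := tsum_nonneg fun _ => (Real.exp_pos _).le

/-- the dominating function -/
theorem JJ_le_dom {s : ℝ} (hs : 1 ≤ s) :
    JJ s ≤ Real.exp (-(π / 4) * s ^ 2) + Real.exp (-π * s ^ 2) + 2 * Real.exp (-7 * s) := by
  have hπ := Real.pi_gt_three
  have hπ' := Real.pi_gt_d2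
  have h0 := (summable_aux hs).sum_add_tsum_nat_add 2
  rw [JJ, ← h0, Finset.sum_range_succ, Finset.sum_range_one]
  have h1 : Real.exp (-(π / 4) * ((((0 : ℕ) : ℝ) + 1) * s) ^ 2) =
      Real.exp (-(π / 4) * s ^ 2) := by norm_num
  have h2 : Real.exp (-(π / 4) * ((((1 : ℕ) : ℝ) + 1) * s) ^ 2) = Real.exp (-π * s ^ 2) := by
    congr 1
    push_cast
    ring
  rw [h1, h2]
  have h3 : ∑' m : ℕ, Real.exp (-(π / 4) * ((((m + 2 : ℕ) : ℝ) + 1) * s) ^ 2) ≤
      ∑' m : ℕ, Real.exp (-7 * s) * (1 / 2 : ℝ) ^ m := by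
    refine Summable.tsum_le_tsum (fun m => ?_) ((summable_nat_add_iff 2).2 (summable_aux hs))
      ((summable_geometric_of_lt_one (by norm_num) (by norm_num)).mul_left _)
    have hm : (0 : ℝ) ≤ m := Nat.cast_nonneg m
    have h4 : Real.exp (-(m : ℝ)) ≤ (1 / 2 : ℝ) ^ m := by
      have h5 : Real.exp (-1) ≤ 1 / 2 := by
        rw [Real.exp_neg, one_div]
        exact inv_anti₀ (by norm_num) (by have := Real.exp_one_gt_d9; linarith)
      calc Real.exp (-(m : ℝ)) = Real.exp (-1) ^ m := by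
            rw [← Real.exp_nat_mul]; congr 1; ring
        _ ≤ _ := pow_le_pow_left₀ (Real.exp_pos _).le h5 m
    refine le_trans ?_ (mul_le_mul_of_nonneg_left h4 (Real.exp_pos _).le)
    rw [← Real.exp_add]
    refine Real.exp_le_exp.2 ?_
    push_cast
    have h6 : ((m : ℝ) + 2 + 1) ^ 2 ≥ 9 + 6 * m := by nlinarith
    have h7 : s ≤ s ^ 2 := by nlinarith
    have h8 : (9 + 6 * (m : ℝ)) * s ≤ (((m : ℝ) + 2 + 1) * s) ^ 2 := by
      rw [mul_pow]
      exact mul_le_mul h6 h7 (by linarith) (by positivity)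
    have h9 : 7 * s + m ≤ π / 4 * ((9 + 6 * (m : ℝ)) * s) := by
      have h10 : (0.785 : ℝ) ≤ π / 4 := by linarith
      have h11 : (0 : ℝ) ≤ (9 + 6 * (m : ℝ)) * s := by positivity
      have h12 : 0.785 * ((9 + 6 * (m : ℝ)) * s) ≤ π / 4 * ((9 + 6 * (m : ℝ)) * s) :=
        mul_le_mul_of_nonneg_right h10 h11
      nlinarith [mul_nonneg hm (by linarith : (0 : ℝ) ≤ s - 1)]
    have h13 : π / 4 * ((9 + 6 * (m : ℝ)) * s) ≤ π / 4 * (((m : ℝ) + 2 + 1) * s) ^ 2 :=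
      mul_le_mul_of_nonneg_left h8 (by positivity)
    linarith
  rw [tsum_mul_left, tsum_geometric_of_lt_one (by norm_num) (by norm_num)] at h3
  have h4 : (1 - 1 / 2 : ℝ)⁻¹ = 2 := by norm_num
  rw [h4] at h3
  linarith

theorem continuousOn_JJ : ContinuousOn JJ (Set.Ici 1) := by
  refine continuousOn_tsum (u := fun m : ℕ => Real.exp (-(π / 4)) ^ m) (fun m => ?_) ?_ ?_
  · exact (by fun_prop : Continuous fun s : ℝ =>
      Real.exp (-(π / 4) * (((m : ℝ) + 1) * s) ^ 2)).continuousOn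
  · exact summable_geometric_of_lt_one (Real.exp_pos _).le
      exp_lt_one_aux
  · intro m s hs
    rw [Real.norm_of_nonneg (Real.exp_pos _).le]
    exact term_le hs m

/-- lower bound for the exponential -/
theorem exp_lower {y : ℝ} (hy : 0 ≤ y) (hy1 : y ≤ 1) :
    1 - y + y ^ 2 / 2 - y ^ 3 / 6 + y ^ 4 / 24 - y ^ 5 / 120 - 7 / 4320 * y ^ 6 ≤
      Real.exp (-y) := by
  have h := Real.exp_bound (x := -y) (by rw [abs_neg, abs_of_nonneg hy]; exact hy1)
    (n := 6) (by norm_num)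
  rw [abs_le] at h
  have h1 := h.1
  simp only [Finset.sum_range_succ, Finset.sum_range_zero, abs_neg, abs_of_nonneg hy,
    Nat.factorial] at h1
  norm_num at h1
  have e3 : (-y) ^ 3 = -y ^ 3 := by ring
  have e5 : (-y) ^ 5 = -y ^ 5 := by ring
  linarith [e3, e5, show (-y) ^ 2 = y ^ 2 by ring, show (-y) ^ 4 = y ^ 4 by ring]

theorem int_gauss_one : ∫ s in Set.Ioi (1 : ℝ), Real.exp (-(π / 4) * s ^ 2) ≤ 21016 / 100000 := by
  have hc : 0 < π / 4 := by have := Real.pi_pos; positivity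
  have hI : Integrable fun s : ℝ => Real.exp (-(π / 4) * s ^ 2) := integrable_exp_neg_mul_sq hc
  have h1 : ∫ s in Set.Ioi (0 : ℝ), Real.exp (-(π / 4) * s ^ 2) = 1 := by
    rw [integral_gaussian_Ioi]
    have : π / (π / 4) = 2 ^ 2 := by field_simp; norm_num
    rw [this, Real.sqrt_sq (by norm_num)]
    norm_num
  have h2 := intervalIntegral.integral_interval_add_Ioi (f := fun s : ℝ =>
    Real.exp (-(π / 4) * s ^ 2)) (a := 0) (b := 1) (μ := volume) hI.integrableOn hI.integrableOn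
  have hπ1 : (0.78539 : ℝ) ≤ π / 4 := by have := Real.pi_gt_d6; linarith
  have hπ2 : π / 4 ≤ 0.7854 := by have := Real.pi_lt_d6; linarith
  set c := π / 4 with hcd
  have h3 : ∫ s in (0 : ℝ)..1, (1 - c * s ^ 2 + c ^ 2 / 2 * s ^ 4 - c ^ 3 / 6 * s ^ 6 +
      c ^ 4 / 24 * s ^ 8 - c ^ 5 / 120 * s ^ 10 - 7 / 4320 * c ^ 6 * s ^ 12) ≤
      ∫ s in (0 : ℝ)..1, Real.exp (-c * s ^ 2) := by
    refine intervalIntegral.integral_mono_on (by norm_num)
      (Continuous.intervalIntegrable (by fun_prop) _ _)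
      (Continuous.intervalIntegrable (by fun_prop) _ _) fun s hs => ?_
    have hs2 : s ^ 2 ≤ 1 := by nlinarith [hs.1, hs.2]
    have h4 := exp_lower (y := c * s ^ 2) (by positivity) (by nlinarith [sq_nonneg s])
    rw [neg_mul]
    refine le_trans (le_of_eq ?_) h4
    ring
  have h5 : ∫ s in (0 : ℝ)..1, (1 - c * s ^ 2 + c ^ 2 / 2 * s ^ 4 - c ^ 3 / 6 * s ^ 6 +
      c ^ 4 / 24 * s ^ 8 - c ^ 5 / 120 * s ^ 10 - 7 / 4320 * c ^ 6 * s ^ 12) =
      1 - c / 3 + c ^ 2 / 10 - c ^ 3 / 42 + c ^ 4 / 216 - c ^ 5 / 1320 - 7 / 56160 * c ^ 6 := by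
    have hd : ∀ s ∈ Set.uIcc (0 : ℝ) 1, HasDerivAt (fun s : ℝ => s - c / 3 * s ^ 3 +
        c ^ 2 / 10 * s ^ 5 - c ^ 3 / 42 * s ^ 7 + c ^ 4 / 216 * s ^ 9 - c ^ 5 / 1320 * s ^ 11 -
        7 / 56160 * c ^ 6 * s ^ 13) (1 - c * s ^ 2 + c ^ 2 / 2 * s ^ 4 - c ^ 3 / 6 * s ^ 6 +
      c ^ 4 / 24 * s ^ 8 - c ^ 5 / 120 * s ^ 10 - 7 / 4320 * c ^ 6 * s ^ 12) s := fun s _ => by
      have := (((((((hasDerivAt_id s).sub ((hasDerivAt_pow 3 s).const_mul (c / 3))).add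
        ((hasDerivAt_pow 5 s).const_mul (c ^ 2 / 10))).sub
        ((hasDerivAt_pow 7 s).const_mul (c ^ 3 / 42))).add
        ((hasDerivAt_pow 9 s).const_mul (c ^ 4 / 216))).sub
        ((hasDerivAt_pow 11 s).const_mul (c ^ 5 / 1320))).sub
        ((hasDerivAt_pow 13 s).const_mul (7 / 56160 * c ^ 6)))
      refine this.congr_deriv ?_
      norm_num
      ring
    rw [intervalIntegral.integral_eq_sub_of_hasDerivAt hd
      (Continuous.intervalIntegrable (by fun_prop) _ _)]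
    norm_num
  rw [h1] at h2
  rw [h5] at h3
  have c2 : (0.78539 : ℝ) ^ 2 ≤ c ^ 2 := pow_le_pow_left₀ (by norm_num) hπ1 2
  have c3 : c ^ 3 ≤ (0.7854 : ℝ) ^ 3 := pow_le_pow_left₀ hc.le hπ2 3
  have c4 : (0.78539 : ℝ) ^ 4 ≤ c ^ 4 := pow_le_pow_left₀ (by norm_num) hπ1 4
  have c5 : c ^ 5 ≤ (0.7854 : ℝ) ^ 5 := pow_le_pow_left₀ hc.le hπ2 5
  have c6 : c ^ 6 ≤ (0.7854 : ℝ) ^ 6 := pow_le_pow_left₀ hc.le hπ2 6
  norm_num at c2 c3 c4 c5 c6
  have h6 : ∫ s in Set.Ioi (1 : ℝ), Real.exp (-c * s ^ 2) =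
      1 - ∫ s in (0 : ℝ)..1, Real.exp (-c * s ^ 2) := by linarith
  rw [h6]
  linarith

theorem exp_neg_pi_le : Real.exp (-π) ≤ 0.0434 := by
  have h1 : Real.exp (-π) ≤ Real.exp (-3.14) :=
    Real.exp_le_exp.2 (by have := Real.pi_gt_d2; linarith)
  refine h1.trans ?_
  rw [Real.exp_neg, inv_le_comm₀ (Real.exp_pos _) (by norm_num)]
  have h2 : Real.exp 3.14 = Real.exp 1 ^ 3 * Real.exp 0.14 := by
    rw [← Real.exp_nat_mul, ← Real.exp_add]
    norm_num
  have h3 : (2.718 : ℝ) ^ 3 ≤ Real.exp 1 ^ 3 :=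
    pow_le_pow_left₀ (by norm_num) (by have := Real.exp_one_gt_d9; linarith) 3
  have h4 : (1.1498 : ℝ) ≤ Real.exp 0.14 := by
    have := Real.quadratic_le_exp_of_nonneg (x := 0.14) (by norm_num)
    norm_num at this ⊢
    linarith
  rw [h2]
  calc (0.0434 : ℝ)⁻¹ ≤ 2.718 ^ 3 * 1.1498 := by norm_num
    _ ≤ _ := mul_le_mul h3 h4 (by norm_num) (by positivity)

theorem int_gauss_two : ∫ s in Set.Ioi (1 : ℝ), Real.exp (-π * s ^ 2) ≤ 622 / 100000 := by
  have hπ := Real.pi_pos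
  have hπ3 := Real.pi_gt_d2
  have hI : Integrable fun s : ℝ => Real.exp (-π * s ^ 2) := integrable_exp_neg_mul_sq hπ
  set F : ℝ → ℝ := fun s => -(s / (2 * π * s ^ 2 + 1)) * Real.exp (-π * s ^ 2) with hF
  have hd : ∀ s ∈ Set.Ioi (1 : ℝ), HasDerivAt F
      ((1 - 2 / (2 * π * s ^ 2 + 1) ^ 2) * Real.exp (-π * s ^ 2)) s := by
    intro s hs
    have hne : 2 * π * s ^ 2 + 1 ≠ 0 := by positivity
    have h1 : HasDerivAt (fun s : ℝ => 2 * π * s ^ 2 + 1) (2 * π * (2 * s)) s := by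
      have := ((hasDerivAt_pow 2 s).const_mul (2 * π)).add_const (1 : ℝ)
      refine this.congr_deriv ?_
      norm_num
    have h2 : HasDerivAt (fun s : ℝ => Real.exp (-π * s ^ 2))
        (Real.exp (-π * s ^ 2) * (-π * (2 * s))) s := by
      have := ((hasDerivAt_pow 2 s).const_mul (-π)).exp
      refine this.congr_deriv ?_
      norm_num
    have h3 := (((hasDerivAt_id s).div h1 hne).neg).mul h2
    refine (h3.congr_deriv ?_)
    simp only [Pi.neg_apply, Pi.div_apply, id]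
    field_simp
    ring
  have hcont : ContinuousWithinAt F (Set.Ici 1) 1 := by
    refine Continuous.continuousWithinAt ?_
    have : ∀ s : ℝ, 2 * π * s ^ 2 + 1 ≠ 0 := fun s => by positivity
    fun_prop (disch := exact this _)
  have hlow : ∀ s ∈ Set.Ioi (1 : ℝ), (0.96 : ℝ) ≤ 1 - 2 / (2 * π * s ^ 2 + 1) ^ 2 := by
    intro s hs
    have hs1 : (1 : ℝ) ≤ s ^ 2 := by have : (1 : ℝ) < s := hs; nlinarith
    have h4 : (7.28 : ℝ) ≤ 2 * π * s ^ 2 + 1 := by nlinarith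
    have h5 : (7.28 : ℝ) ^ 2 ≤ (2 * π * s ^ 2 + 1) ^ 2 := pow_le_pow_left₀ (by norm_num) h4 2
    have h6 : 2 / (2 * π * s ^ 2 + 1) ^ 2 ≤ 2 / 7.28 ^ 2 :=
      div_le_div_of_nonneg_left (by norm_num) (by norm_num) h5
    norm_num at h6 ⊢
    linarith
  have hpos : ∀ s ∈ Set.Ioi (1 : ℝ),
      0 ≤ (1 - 2 / (2 * π * s ^ 2 + 1) ^ 2) * Real.exp (-π * s ^ 2) := fun s hs =>
    mul_nonneg (by have := hlow s hs; linarith) (Real.exp_pos _).le
  have hlim : Filter.Tendsto F Filter.atTop (nhds 0) := by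
    have h1 : Filter.Tendsto (fun s : ℝ => Real.exp (-s)) Filter.atTop (nhds 0) :=
      Real.tendsto_exp_neg_atTop_nhds_zero
    refine squeeze_zero_norm' ?_ h1
    filter_upwards [Filter.eventually_ge_atTop (1 : ℝ)] with s hs
    rw [hF]
    simp only [norm_mul, norm_neg, Real.norm_eq_abs, Real.abs_exp]
    have h2 : |s / (2 * π * s ^ 2 + 1)| ≤ 1 := by
      rw [abs_of_nonneg (by positivity), div_le_one (by positivity)]
      nlinarith
    have h3 : Real.exp (-π * s ^ 2) ≤ Real.exp (-s) := Real.exp_le_exp.2 (by nlinarith)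
    calc |s / (2 * π * s ^ 2 + 1)| * Real.exp (-π * s ^ 2) ≤ 1 * Real.exp (-s) :=
          mul_le_mul h2 h3 (Real.exp_pos _).le zero_le_one
      _ = _ := one_mul _
  have hint := integral_Ioi_of_hasDerivAt_of_nonneg hcont hd hpos hlim
  have hintb := integrableOn_Ioi_deriv_of_nonneg hcont hd hpos hlim
  have h7 : ∫ s in Set.Ioi (1 : ℝ), (0.96 : ℝ) * Real.exp (-π * s ^ 2) ≤
      ∫ s in Set.Ioi (1 : ℝ), (1 - 2 / (2 * π * s ^ 2 + 1) ^ 2) * Real.exp (-π * s ^ 2) :=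
    setIntegral_mono_on (hI.integrableOn.const_mul _) hintb measurableSet_Ioi fun s hs =>
      mul_le_mul_of_nonneg_right (hlow s hs) (Real.exp_pos _).le
  rw [hint, integral_const_mul] at h7
  have h8 : 0 - F 1 ≤ 0.0434 / 7.28 := by
    rw [hF]
    simp only [one_pow, mul_one, zero_sub, neg_mul, neg_neg]
    have h9 := exp_neg_pi_le
    calc 1 / (2 * π + 1) * Real.exp (-π) ≤ 1 / 7.28 * 0.0434 :=
          mul_le_mul (one_div_le_one_div_of_le (by norm_num) (by linarith)) h9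
            (Real.exp_pos _).le (by norm_num)
      _ = _ := by norm_num
  have h10 : (0.96 : ℝ) = 96 / 100 := by norm_num
  have h11 : (0.0434 / 7.28 : ℝ) = 434 / 72800 := by norm_num
  rw [h10] at h7
  rw [h11] at h8
  linarith

theorem int_exp_seven : IntegrableOn (fun s : ℝ => Real.exp (-7 * s)) (Set.Ioi 1) ∧
    ∫ s in Set.Ioi (1 : ℝ), Real.exp (-7 * s) ≤ 15 / 100000 := by
  refine ⟨integrableOn_exp_mul_Ioi (by norm_num) 1, ?_⟩
  rw [integral_exp_mul_Ioi (by norm_num)]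
  have h1 : Real.exp (-7 * 1) ≤ 1 / 1000 := by
    rw [mul_one, Real.exp_neg, one_div]
    refine inv_anti₀ (by norm_num) ?_
    have h2 : Real.exp 7 = Real.exp 1 ^ 7 := by rw [← Real.exp_nat_mul]; norm_num
    rw [h2]
    calc (1000 : ℝ) ≤ 2.71 ^ 7 := by norm_num
      _ ≤ _ := pow_le_pow_left₀ (by norm_num) (by have := Real.exp_one_gt_d9; linarith) 7
  have h3 : -Real.exp (-7 * 1) / -7 = Real.exp (-7 * 1) / 7 := by rw [neg_div_neg_eq]
  rw [h3]
  linarith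

end JJint

open JJint in
/-- J2: `1 - ∫_0^1 e^(-(π/4)s²) ds + ∫_1^∞ e^(-π s²) ds + ... = 0.2166` -/
theorem integral_JJ : IntegrableOn JJ (Set.Ioi 1) ∧ ∫ s in Set.Ioi (1 : ℝ), JJ s ≤ 0.217 := by
  have hπ := Real.pi_pos
  have i1 : IntegrableOn (fun s : ℝ => Real.exp (-(π / 4) * s ^ 2)) (Set.Ioi 1) :=
    (integrable_exp_neg_mul_sq (by positivity)).integrableOn
  have i2 : IntegrableOn (fun s : ℝ => Real.exp (-π * s ^ 2)) (Set.Ioi 1) :=
    (integrable_exp_neg_mul_sq hπ).integrableOn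
  obtain ⟨i3, b3⟩ := int_exp_seven
  have i12 := i1.add i2
  have iD : IntegrableOn (fun s : ℝ => Real.exp (-(π / 4) * s ^ 2) + Real.exp (-π * s ^ 2) +
      2 * Real.exp (-7 * s)) (Set.Ioi 1) := i12.add (i3.const_mul 2)
  have hJ : IntegrableOn JJ (Set.Ioi 1) := by
    refine Integrable.mono' iD
      ((continuousOn_JJ.mono Set.Ioi_subset_Ici_self).aestronglyMeasurable measurableSet_Ioi) ?_
    refine (ae_restrict_iff' measurableSet_Ioi).2 (Filter.Eventually.of_forall fun s hs => ?_)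
    rw [Real.norm_of_nonneg (JJ_nonneg s)]
    exact JJ_le_dom (le_of_lt hs)
  refine ⟨hJ, ?_⟩
  have h1 : ∫ s in Set.Ioi (1 : ℝ), JJ s ≤ ∫ s in Set.Ioi (1 : ℝ),
      (Real.exp (-(π / 4) * s ^ 2) + Real.exp (-π * s ^ 2) + 2 * Real.exp (-7 * s)) :=
    setIntegral_mono_on hJ iD measurableSet_Ioi fun s hs => JJ_le_dom (le_of_lt hs)
  have h2 : ∫ s in Set.Ioi (1 : ℝ),
      (Real.exp (-(π / 4) * s ^ 2) + Real.exp (-π * s ^ 2) + 2 * Real.exp (-7 * s)) =
      (∫ s in Set.Ioi (1 : ℝ), Real.exp (-(π / 4) * s ^ 2)) +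
      (∫ s in Set.Ioi (1 : ℝ), Real.exp (-π * s ^ 2)) +
      2 * ∫ s in Set.Ioi (1 : ℝ), Real.exp (-7 * s) := by
    have e1 : ∫ s in Set.Ioi (1 : ℝ),
        (Real.exp (-(π / 4) * s ^ 2) + Real.exp (-π * s ^ 2) + 2 * Real.exp (-7 * s)) =
        (∫ s in Set.Ioi (1 : ℝ), (Real.exp (-(π / 4) * s ^ 2) + Real.exp (-π * s ^ 2))) +
        ∫ s in Set.Ioi (1 : ℝ), 2 * Real.exp (-7 * s) := integral_add i12 (i3.const_mul 2)
    rw [e1, integral_add i1 i2, integral_const_mul]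
  rw [h2] at h1
  have b1 := int_gauss_one
  have b2 := int_gauss_two
  have e2 : (0.217 : ℝ) = 217 / 1000 := by norm_num
  rw [e2]
  linarith

end Pool.Agent.Work.Mu22
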