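import Pool.Agent.Work.MP_a4986b_nt.HHb
import Pool.Agent.Work.MP_a4986b_nt.HHint
import Pool.Agent.Work.MP_a4986b_nt.JJb
import Pool.Agent.Work.MP_a4986b_nt.JJint

set_option autoImplicit false
set_option maxHeartbeats 400000

/-! # F2': the bound for the integral of `HH v * JJ (1 / (Y v)) / v` -/

namespace Pool.Agent.Work.Mu22

open NumberField Module MeasureTheory
open scoped Pointwise nonZeroDivisors ENNReal Real

namespace Split

theorem HH_nn (v : ℝ) : 0 ≤ HH v :=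
  tsum_nonneg fun n => mul_nonneg (by exact_mod_cast rr_nonneg n) (Real.exp_pos _).le

theorem JJ_nn (s : ℝ) : 0 ≤ JJ s := tsum_nonneg fun _ => (Real.exp_pos _).le

theorem LL_pos : 0 < LL := by
  unfold LL
  have := Real.pi_pos
  positivity

theorem LL_ge : 0.6045 ≤ LL := by
  unfold LL
  have h1 := Real.pi_gt_d4
  have h2 : √3 ≤ 1.7321 := by
    rw [Real.sqrt_le_left (by norm_num)]
    norm_num
  have h3 : 0 < √3 := Real.sqrt_pos.mpr (by norm_num)
  rw [le_div_iff₀ (by positivity)]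
  nlinarith

theorem LL_le : LL ≤ 0.6047 := by
  unfold LL
  have h1 := Real.pi_lt_d4
  have h2 : 1.732 ≤ √3 := by
    apply Real.le_sqrt_of_sq_le
    norm_num
  rw [div_le_iff₀ (by positivity)]
  nlinarith

/-- the part `v < 1 / Y` -/
theorem partA {Y : ℝ} (hY : 0 < Y) :
    ∫⁻ v in Set.Ioc (0 : ℝ) (1 / Y), ENNReal.ofReal (HH v * JJ (1 / (Y * v)) / v) ≤
      ENNReal.ofReal (LL * Y * 0.217) := by
  have hL := LL_pos
  rw [setLIntegral_congr Ioo_ae_eq_Ioc.symm]
  have himg : (fun v : ℝ => 1 / (Y * v)) '' Set.Ioo 0 (1 / Y) = Set.Ioi 1 := by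
    ext s
    simp only [Set.mem_image, Set.mem_Ioo, Set.mem_Ioi]
    constructor
    · rintro ⟨v, ⟨h0, h1⟩, rfl⟩
      rw [lt_div_iff₀ (by positivity)]
      rw [lt_div_iff₀ hY] at h1
      linarith
    · intro hs
      have hs0 : 0 < s := by linarith
      refine ⟨1 / (Y * s), ⟨by positivity, ?_⟩, ?_⟩
      · rw [div_lt_div_iff₀ (by positivity) hY]
        nlinarith
      · field_simp
  have hder : ∀ x ∈ Set.Ioo (0 : ℝ) (1 / Y),
      HasDerivWithinAt (fun v : ℝ => 1 / (Y * v)) (-(1 / (Y * x ^ 2))) (Set.Ioo 0 (1 / Y)) x := by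
    intro x hx
    have hx0 : x ≠ 0 := hx.1.ne'
    have h1 : HasDerivAt (fun v : ℝ => Y * v) Y x := by
      simpa using (hasDerivAt_id x).const_mul Y
    have h2 : HasDerivAt (fun v : ℝ => 1 / (Y * v)) ((0 * (Y * x) - 1 * Y) / (Y * x) ^ 2) x :=
      (hasDerivAt_const x (1 : ℝ)).div h1 (mul_ne_zero hY.ne' hx0)
    have h3 : (0 * (Y * x) - 1 * Y) / (Y * x) ^ 2 = -(1 / (Y * x ^ 2)) := by
      field_simp
      ring
    rw [h3] at h2
    exact h2.hasDerivWithinAt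
  have hinj : Set.InjOn (fun v : ℝ => 1 / (Y * v)) (Set.Ioo 0 (1 / Y)) := by
    intro a ha b hb hab
    have ha0 := ha.1
    have hb0 := hb.1
    simp only [one_div, inv_inj] at hab
    exact mul_left_cancel₀ hY.ne' hab
  have hsub := lintegral_image_eq_lintegral_abs_deriv_mul measurableSet_Ioo hder hinj
    (fun s => ENNReal.ofReal (JJ s))
  rw [himg] at hsub
  obtain ⟨hint, hle⟩ := integral_JJ
  have hJ : ∫⁻ s in Set.Ioi (1 : ℝ), ENNReal.ofReal (JJ s) ≤ ENNReal.ofReal 0.217 := by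
    rw [← ofReal_integral_eq_lintegral_ofReal hint (Filter.Eventually.of_forall JJ_nn)]
    exact ENNReal.ofReal_le_ofReal hle
  calc ∫⁻ v in Set.Ioo (0 : ℝ) (1 / Y), ENNReal.ofReal (HH v * JJ (1 / (Y * v)) / v)
      ≤ ∫⁻ v in Set.Ioo (0 : ℝ) (1 / Y), ENNReal.ofReal (LL * Y) *
          (ENNReal.ofReal |(-(1 / (Y * v ^ 2)))| * ENNReal.ofReal (JJ (1 / (Y * v)))) := by
        refine setLIntegral_mono' measurableSet_Ioo fun v hv => ?_
        have hv0 := hv.1
        rw [← ENNReal.ofReal_mul (abs_nonneg _), ← ENNReal.ofReal_mul (by positivity)]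
        refine ENNReal.ofReal_le_ofReal ?_
        rw [abs_neg, abs_of_pos (by positivity)]
        have h1 := HH_le hv0
        have h2 := JJ_nn (1 / (Y * v))
        calc HH v * JJ (1 / (Y * v)) / v ≤ LL / v * JJ (1 / (Y * v)) / v := by gcongr
          _ = LL * Y * (1 / (Y * v ^ 2) * JJ (1 / (Y * v))) := by field_simp
    _ = ENNReal.ofReal (LL * Y) * ∫⁻ s in Set.Ioi (1 : ℝ), ENNReal.ofReal (JJ s) := by
        rw [lintegral_const_mul' _ _ ENNReal.ofReal_ne_top, hsub]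
    _ ≤ ENNReal.ofReal (LL * Y) * ENNReal.ofReal 0.217 := by gcongr
    _ = ENNReal.ofReal (LL * Y * 0.217) := (ENNReal.ofReal_mul (by positivity)).symm

/-- the factor `JJ` for `v > 1 / Y` -/
theorem JJ_fac {Y v : ℝ} (hY : 0 < Y) (hv : 1 / Y ≤ v) :
    JJ (1 / (Y * v)) ≤ Y * v - 1 / 2 + 1 / 10000 * (1 / (Y * v)) ^ 2 := by
  have hv0 : 0 < v := lt_of_lt_of_le (by positivity) hv
  have h := JJ_le (s := 1 / (Y * v)) (by positivity) (by
    rw [div_le_iff₀ (by positivity)]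
    rw [div_le_iff₀ hY] at hv
    linarith)
  simpa using h

/-- antiderivative for the middle part -/
noncomputable def FB (Y v : ℝ) : ℝ :=
  Y * (LL * Real.log v - v / 6 + 0.012 * v ^ 2) + 1 / 2 * (LL / v + Real.log v / 6 + 0.024 * v)
    - 1 / 30000 * LL / Y ^ 2 / v ^ 3

noncomputable def fB (Y v : ℝ) : ℝ :=
  Y * (LL / v - 1 / 6 + 0.024 * v) - 1 / 2 * ((LL / v - 1 / 6 - 0.024 * v) / v)
    + 1 / 10000 * LL / Y ^ 2 / v ^ 4

theorem hasDerivAt_FB {Y v : ℝ} (hv : v ≠ 0) : HasDerivAt (FB Y) (fB Y v) v := by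
  unfold FB fB
  have h1 := Real.hasDerivAt_log hv
  have h2 : HasDerivAt (fun v : ℝ => v) 1 v := hasDerivAt_id v
  have h3 : HasDerivAt (fun v : ℝ => v ^ 2) (2 * v) v := by simpa using hasDerivAt_pow 2 v
  have h4 : HasDerivAt (fun v : ℝ => LL / v) (-LL / v ^ 2) v := by
    have := (hasDerivAt_const v LL).div h2 hv
    refine this.congr_deriv ?_
    ring
  have h5 : HasDerivAt (fun v : ℝ => 1 / 30000 * LL / Y ^ 2 / v ^ 3)
      (-(1 / 10000 * LL / Y ^ 2 / v ^ 4)) v := by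
    have := (hasDerivAt_const v (1 / 30000 * LL / Y ^ 2)).div (hasDerivAt_pow 3 v)
      (pow_ne_zero 3 hv)
    refine this.congr_deriv ?_
    field_simp
    ring
  have h6 := ((((h1.const_mul LL).sub (h2.div_const 6)).add (h3.const_mul 0.012)).const_mul Y).add
    (((h4.add (h1.div_const 6)).add (h2.const_mul 0.024)).const_mul (1 / 2))
  have h7 := h6.sub h5
  refine h7.congr_deriv ?_
  field_simp
  ring

theorem fac_le {Y v : ℝ} (hY : 0 < Y) (hv : 1 / Y ≤ v) :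
    HH v * JJ (1 / (Y * v)) / v ≤ fB Y v := by
  have hv0 : 0 < v := lt_of_lt_of_le (by positivity) hv
  have h1 := JJ_fac hY hv
  have h2 := HH_nn v
  have h3 := HH_le hv0
  have h4 := HH_le' hv0
  have h5 := HH_ge' hv0
  calc HH v * JJ (1 / (Y * v)) / v
      ≤ HH v * (Y * v - 1 / 2 + 1 / 10000 * (1 / (Y * v)) ^ 2) / v := by gcongr
    _ = Y * HH v - 1 / 2 * (HH v / v) + 1 / 10000 / Y ^ 2 * (HH v / v ^ 3) := by
        field_simp
    _ ≤ Y * (LL / v - 1 / 6 + 0.024 * v) - 1 / 2 * ((LL / v - 1 / 6 - 0.024 * v) / v)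
        + 1 / 10000 / Y ^ 2 * ((LL / v) / v ^ 3) := by
        have e1 : Y * HH v ≤ Y * (LL / v - 1 / 6 + 0.024 * v) := by gcongr
        have e2 : (LL / v - 1 / 6 - 0.024 * v) / v ≤ HH v / v := by gcongr
        have e3 : 1 / 10000 / Y ^ 2 * (HH v / v ^ 3) ≤ 1 / 10000 / Y ^ 2 * ((LL / v) / v ^ 3) := by
          gcongr
        linarith
    _ = fB Y v := by
        unfold fB
        field_simp

/-- the part `1 / Y < v < 1` -/
theorem partB {Y : ℝ} (hY : 1 ≤ Y) :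
    ∫⁻ v in Set.Ioc (1 / Y) 1, ENNReal.ofReal (HH v * JJ (1 / (Y * v)) / v) ≤
      ENNReal.ofReal (FB Y 1 - FB Y (1 / Y)) ∧ 0 ≤ FB Y 1 - FB Y (1 / Y) := by
  have hY0 : 0 < Y := by linarith
  have h1Y : 1 / Y ≤ 1 := by rw [div_le_iff₀ hY0]; linarith
  have h0Y : 0 < 1 / Y := by positivity
  have hcont : ContinuousOn (fB Y) (Set.uIcc (1 / Y) 1) := by
    rw [Set.uIcc_of_le h1Y]
    have hne : ∀ v ∈ Set.Icc (1 / Y) 1, v ≠ 0 := fun v hv => (h0Y.trans_le hv.1).ne'
    have hne4 : ∀ v ∈ Set.Icc (1 / Y) 1, v ^ 4 ≠ 0 := fun v hv => pow_ne_zero 4 (hne v hv)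
    unfold fB
    fun_prop (disch := assumption)
  have hint : IntervalIntegrable (fB Y) volume (1 / Y) 1 := hcont.intervalIntegrable
  have hF := intervalIntegral.integral_eq_sub_of_hasDerivAt (f := FB Y) (f' := fB Y)
    (a := 1 / Y) (b := 1) (fun x hx => hasDerivAt_FB (by
      rw [Set.uIcc_of_le h1Y] at hx
      exact (h0Y.trans_le hx.1).ne')) hint
  have hnn : ∀ v ∈ Set.Ioc (1 / Y) 1, 0 ≤ fB Y v := fun v hv => by
    refine le_trans ?_ (fac_le hY0 hv.1.le)
    have := HH_nn v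
    have := JJ_nn (1 / (Y * v))
    have hv0 : 0 < v := h0Y.trans hv.1
    positivity
  rw [← hF, intervalIntegral.integral_of_le h1Y]
  constructor
  · rw [ofReal_integral_eq_lintegral_ofReal hint.1
      ((ae_restrict_iff' measurableSet_Ioc).mpr (Filter.Eventually.of_forall hnn))]
    exact setLIntegral_mono' measurableSet_Ioc fun v hv =>
      ENNReal.ofReal_le_ofReal (fac_le hY0 hv.1.le)
  · exact setIntegral_nonneg measurableSet_Ioc hnn

/-- the part `1 < v` -/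
theorem partC {Y : ℝ} (hY : 1 ≤ Y) :
    ∫⁻ v in Set.Ioi (1 : ℝ), ENNReal.ofReal (HH v * JJ (1 / (Y * v)) / v) ≤
      ENNReal.ofReal ((Y + 1 / 10000 / Y ^ 2) * 0.3895 - 0.094) := by
  have hY0 : 0 < Y := by linarith
  obtain ⟨i1, l1⟩ := integral_HH
  obtain ⟨i2, l2⟩ := integral_HH_div
  have hb : ∀ v ∈ Set.Ioi (1 : ℝ), HH v * JJ (1 / (Y * v)) / v ≤
      (Y + 1 / 10000 / Y ^ 2) * HH v - 1 / 2 * (HH v / v) := fun v hv => by
    have hv1 : 1 < v := hv
    have hv0 : 0 < v := by linarith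
    have h1 := JJ_fac hY0 (v := v) (by rw [div_le_iff₀ hY0]; nlinarith)
    have h2 := HH_nn v
    calc HH v * JJ (1 / (Y * v)) / v
        ≤ HH v * (Y * v - 1 / 2 + 1 / 10000 * (1 / (Y * v)) ^ 2) / v := by gcongr
      _ = Y * HH v - 1 / 2 * (HH v / v) + 1 / 10000 / Y ^ 2 * (HH v / v ^ 3) := by
          field_simp
      _ ≤ Y * HH v - 1 / 2 * (HH v / v) + 1 / 10000 / Y ^ 2 * (HH v) := by
          have : HH v / v ^ 3 ≤ HH v := div_le_self h2 (one_le_pow₀ hv1.le)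
          have h0 : 0 ≤ 1 / 10000 / Y ^ 2 := by positivity
          nlinarith
      _ = _ := by ring
  have hnn : ∀ v ∈ Set.Ioi (1 : ℝ), 0 ≤ (Y + 1 / 10000 / Y ^ 2) * HH v - 1 / 2 * (HH v / v) :=
    fun v hv => by
      refine le_trans ?_ (hb v hv)
      have := HH_nn v
      have := JJ_nn (1 / (Y * v))
      have hv1 : 1 < v := hv
      have hv0 : 0 < v := by linarith
      positivity
  have hi : IntegrableOn (fun v => (Y + 1 / 10000 / Y ^ 2) * HH v - 1 / 2 * (HH v / v))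
      (Set.Ioi 1) := (i1.const_mul _).sub (i2.const_mul _)
  calc ∫⁻ v in Set.Ioi (1 : ℝ), ENNReal.ofReal (HH v * JJ (1 / (Y * v)) / v)
      ≤ ∫⁻ v in Set.Ioi (1 : ℝ),
          ENNReal.ofReal ((Y + 1 / 10000 / Y ^ 2) * HH v - 1 / 2 * (HH v / v)) :=
        setLIntegral_mono' measurableSet_Ioi fun v hv => ENNReal.ofReal_le_ofReal (hb v hv)
    _ = ENNReal.ofReal (∫ v in Set.Ioi (1 : ℝ),
          ((Y + 1 / 10000 / Y ^ 2) * HH v - 1 / 2 * (HH v / v))) := by
        rw [ofReal_integral_eq_lintegral_ofReal hi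
          ((ae_restrict_iff' measurableSet_Ioi).mpr (Filter.Eventually.of_forall hnn))]
    _ ≤ _ := by
        refine ENNReal.ofReal_le_ofReal ?_
        rw [integral_sub (i1.const_mul _) (i2.const_mul _), integral_const_mul, integral_const_mul]
        have : (Y + 1 / 10000 / Y ^ 2) * ∫ v in Set.Ioi (1 : ℝ), HH v ≤
            (Y + 1 / 10000 / Y ^ 2) * 0.3895 := by gcongr
        linarith

end Split

open Split in
/-- F2': split at `v = 1/Y` and `v = 1` -/
theorem lintegral_HH_JJ_le {Y : ℝ} (hY : 1 ≤ Y) :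
    ∫⁻ v in Set.Ioi (0 : ℝ), ENNReal.ofReal (HH v * JJ (1 / (Y * v)) / v) ≤
      ENNReal.ofReal (Y * (LL * Real.log Y + 0.064) + Real.log Y / 12 + 0.388) := by
  have hY0 : 0 < Y := by linarith
  have hL := LL_pos
  have hcov : Set.Ioi (0 : ℝ) ⊆ Set.Ioc 0 (1 / Y) ∪ (Set.Ioc (1 / Y) 1 ∪ Set.Ioi 1) := by
    intro v hv
    have hv0 : 0 < v := hv
    rcases le_or_gt v (1 / Y) with h | h
    · exact Or.inl ⟨hv0, h⟩
    · rcases le_or_gt v 1 with h' | h'
      · exact Or.inr (Or.inl ⟨h, h'⟩)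
      · exact Or.inr (Or.inr h')
  obtain ⟨hB, hB0⟩ := partB hY
  have hA := partA hY0
  have hC := partC hY
  have hC0 : 0 ≤ (Y + 1 / 10000 / Y ^ 2) * 0.3895 - 0.094 := by
    have : 0 ≤ 1 / 10000 / Y ^ 2 := by positivity
    nlinarith
  calc ∫⁻ v in Set.Ioi (0 : ℝ), ENNReal.ofReal (HH v * JJ (1 / (Y * v)) / v)
      ≤ ∫⁻ v in Set.Ioc 0 (1 / Y) ∪ (Set.Ioc (1 / Y) 1 ∪ Set.Ioi 1),
          ENNReal.ofReal (HH v * JJ (1 / (Y * v)) / v) := lintegral_mono_set hcov
    _ ≤ _ := lintegral_union_le _ _ _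
    _ ≤ (∫⁻ v in Set.Ioc 0 (1 / Y), ENNReal.ofReal (HH v * JJ (1 / (Y * v)) / v)) +
        ((∫⁻ v in Set.Ioc (1 / Y) 1, ENNReal.ofReal (HH v * JJ (1 / (Y * v)) / v)) +
        ∫⁻ v in Set.Ioi 1, ENNReal.ofReal (HH v * JJ (1 / (Y * v)) / v)) := by
        gcongr
        exact lintegral_union_le _ _ _
    _ ≤ ENNReal.ofReal (LL * Y * 0.217) + (ENNReal.ofReal (FB Y 1 - FB Y (1 / Y)) +
        ENNReal.ofReal ((Y + 1 / 10000 / Y ^ 2) * 0.3895 - 0.094)) := by gcongr
    _ = ENNReal.ofReal (LL * Y * 0.217 + ((FB Y 1 - FB Y (1 / Y)) +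
        ((Y + 1 / 10000 / Y ^ 2) * 0.3895 - 0.094))) := by
        rw [← ENNReal.ofReal_add hB0 hC0, ← ENNReal.ofReal_add (by positivity) (by positivity)]
    _ ≤ _ := by
        refine ENNReal.ofReal_le_ofReal ?_
        have hlog : Real.log (1 / Y) = -Real.log Y := by
          rw [one_div, Real.log_inv]
        have e1 : FB Y 1 - FB Y (1 / Y) = Y * (LL * Real.log Y) + Real.log Y / 12
            - Y / 6 + 0.012 * Y + 1 / 6 - 0.012 / Y + LL / 2 + 0.012 - LL / 2 * Y - 0.012 / Y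
            + 1 / 30000 * LL * Y - 1 / 30000 * LL / Y ^ 2 := by
          unfold FB
          rw [hlog, Real.log_one]
          field_simp
          ring
        rw [e1]
        have h1 := LL_ge
        have h2 := LL_le
        have h3 : 0 ≤ 1 / 30000 * LL / Y ^ 2 := by positivity
        have h4 : 1 / 10000 / Y ^ 2 * 0.3895 ≤ 0.012 / Y := by
          have : 1 / Y ^ 2 ≤ 1 / Y := by
            rw [div_le_div_iff₀ (by positivity) hY0]
            nlinarith
          have e3 : 1 / 10000 / Y ^ 2 * 0.3895 = 1 / 10000 * 0.3895 * (1 / Y ^ 2) := by ring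
          have e4 : 0.012 / Y = 0.012 * (1 / Y) := by ring
          have h5 : 0 < 1 / Y := by positivity
          rw [e3, e4]
          nlinarith
        have h6 : 0 < 0.012 / Y := by positivity
        nlinarith

end Pool.Agent.Work.Mu22
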