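import Pool.Agent.Work.MP_a4986b_nt.TsumBAux
import Pool.Agent.Work.MP_a4986b_nt.RR

set_option autoImplicit false
set_option maxHeartbeats 400000

/-! # F1': `∑ bb(n) kk(n / Y) = ∫ HH(v) JJ(1 / (Y v)) dv / v` -/

namespace Pool.Agent.Work.Mu22

open NumberField Module MeasureTheory
open scoped Pointwise nonZeroDivisors ENNReal Real

theorem JJ_summable_aux (s : ℝ) (hs : 0 < s) :
    Summable fun m : ℕ => Real.exp (-(π / 4) * (((m : ℝ) + 1) * s) ^ 2) := by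
  set c : ℝ := π / 4 * s ^ 2 with hc
  have hc0 : 0 < c := by positivity
  have h1 : Summable fun m : ℕ => Real.exp (-c) ^ (m + 1) :=
    (summable_nat_add_iff 1).2 (summable_geometric_of_lt_one (Real.exp_pos _).le
      (Real.exp_lt_one_iff.2 (by linarith)))
  refine Summable.of_nonneg_of_le (fun m => (Real.exp_pos _).le) (fun m => ?_) h1
  rw [← Real.exp_nat_mul]
  refine Real.exp_le_exp.2 ?_
  have h2 : (1 : ℝ) ≤ (m : ℝ) + 1 := by linarith [Nat.cast_nonneg (α := ℝ) m]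
  have h3 : ((m : ℝ) + 1) ≤ ((m : ℝ) + 1) ^ 2 := by nlinarith
  have h4 : -(π / 4) * (((m : ℝ) + 1) * s) ^ 2 = -(((m : ℝ) + 1) ^ 2 * c) := by
    rw [hc]
    ring
  rw [h4]
  push_cast
  nlinarith

/-- F1': Tonelli and the substitution `v = e^s m / Y` -/
theorem tsum_bb_kk {Y : ℝ} (hY : 0 < Y) :
    ∑' n : ℕ, ENNReal.ofReal (bb (n + 1)) * kk (((n + 1 : ℕ) : ℝ) / Y) =
      ∫⁻ v in Set.Ioi (0 : ℝ), ENNReal.ofReal (HH v * JJ (1 / (Y * v)) / v) :=
  tsum_bb_kk_of rr_nonneg bb_eq_sum_rr (fun _ hv => HH_summable hv) JJ_summable_aux hY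

end Pool.Agent.Work.Mu22
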