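import Pool.Agent.Work.MP_a4986b_nt.ClassNo3Aux
import Pool.Agent.Work.MP_a4986b_nt.Unfold
import Pool.Agent.Work.MP_a4986b_nt.Count3
import Pool.Agent.Work.MP_a4986b_nt.Artin
import Pool.Agent.Work.MP_a4986b_nt.Disc3
import Pool.Agent.Work.MP_a4986b_nt.TsumB
import Pool.Agent.Work.MP_a4986b_nt.Split
import Pool.Agent.Work.MP_a4986b_nt.Numeric3

set_option autoImplicit false
set_option maxHeartbeats 400000

/-! # I1': the explicit class number bound `27 h ^ 2 < |D|` for pure cubic fields -/

namespace Pool.Agent.Work.Mu22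

open NumberField Module MeasureTheory
open scoped Pointwise nonZeroDivisors ENNReal Real

variable {K : Type*} [Field K] [NumberField K]

/-- I1': the class number bound -/
theorem PureCubic.classNumber {a b : ℕ} {t : 𝓞 K} (h : PureCubic K a b t) :
    27 * (Nat.card (ClassGroup (𝓞 K)) : ℝ) ^ 2 < |(discr K : ℝ)| :=
  classNumber3_of (unfold_ineq h.three) (fun hn => h.card_norm_le_bb hn) (artin_log h.three)
    h.discr_bounds.1 h.exists_embeddings tsum_bb_kk lintegral_HH_JJ_le numeric_small numeric_large

end Pool.Agent.Work.Mu22
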