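import Pool.Agent.Work.MP_a4986b_nt.Defs2

set_option autoImplicit false
set_option maxHeartbeats 400000

/-! # I1': the class number bound `27 h ^ 2 < |D|`, from the module statements as hypotheses -/

namespace Pool.Agent.Work.Mu22

open NumberField Module MeasureTheory
open scoped Pointwise nonZeroDivisors ENNReal Real

section

variable {K : Type*} [Field K] [NumberField K]

/-- grouping the ideals by their norm -/
theorem tsum_ideals_le (b : ℕ → ℤ)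
    (hb : ∀ n : ℕ, n ≠ 0 → (Nat.card {I : Ideal (𝓞 K) // Ideal.absNorm I = n} : ℤ) ≤ b n)
    (g : ℕ → ℝ≥0∞) :
    ∑' I : {I : Ideal (𝓞 K) // I ≠ ⊥}, g (Ideal.absNorm I.1) ≤
      ∑' n : ℕ, ENNReal.ofReal (b (n + 1)) * g (n + 1) := by
  classical
  let f : {I : Ideal (𝓞 K) // I ≠ ⊥} → ℕ := fun I => Ideal.absNorm I.1 - 1
  have hpos : ∀ I : {I : Ideal (𝓞 K) // I ≠ ⊥}, 1 ≤ Ideal.absNorm I.1 := fun I =>
    Nat.one_le_iff_ne_zero.mpr (mt Ideal.absNorm_eq_zero_iff.mp I.2)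
  have hf : ∀ I, f I + 1 = Ideal.absNorm I.1 := fun I => Nat.sub_add_cancel (hpos I)
  rw [← (Equiv.sigmaFiberEquiv f).tsum_eq, ENNReal.tsum_sigma']
  refine ENNReal.tsum_le_tsum fun n => ?_
  have h1 : ∀ x : {I // f I = n}, g (Ideal.absNorm ((Equiv.sigmaFiberEquiv f) ⟨n, x⟩).1) =
      g (n + 1) := by
    intro x
    rw [← hf]
    have h2 : f ((Equiv.sigmaFiberEquiv f) ⟨n, x⟩) = n := x.2
    rw [h2]
  rw [tsum_congr h1]
  have hfinI : Finite {I : Ideal (𝓞 K) // Ideal.absNorm I = n + 1} :=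
    (Ideal.finite_setOfPred_absNorm_eq (n + 1)).to_subtype
  let φ : {I // f I = n} → {I : Ideal (𝓞 K) // Ideal.absNorm I = n + 1} := fun x =>
    ⟨x.1.1, by rw [← hf x.1, x.2]⟩
  have hφ : Function.Injective φ := by
    intro x y hxy
    have h2 : (x.1.1 : Ideal (𝓞 K)) = y.1.1 := Subtype.mk.inj hxy
    exact Subtype.ext (Subtype.ext h2)
  have hfin : Finite {I // f I = n} := Finite.of_injective φ hφ
  have : Fintype {I // f I = n} := Fintype.ofFinite _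
  rw [tsum_fintype, Finset.sum_const, Finset.card_univ, nsmul_eq_mul]
  gcongr
  have h3 : (Fintype.card {I // f I = n} : ℤ) ≤ b (n + 1) := by
    have h4 := Nat.card_le_card_of_injective φ hφ
    rw [Nat.card_eq_fintype_card] at h4
    exact le_trans (by exact_mod_cast h4) (hb (n + 1) (Nat.succ_ne_zero n))
  have h5 : (Fintype.card {I // f I = n} : ℝ) ≤ (b (n + 1) : ℝ) := by exact_mod_cast h3
  calc (Fintype.card {I // f I = n} : ℝ≥0∞) = ENNReal.ofReal (Fintype.card {I // f I = n} : ℝ) := by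
        rw [ENNReal.ofReal_natCast]
    _ ≤ ENNReal.ofReal (b (n + 1)) := ENNReal.ofReal_le_ofReal h5

end

theorem LL_pos : 0 < LL := by
  unfold LL
  positivity

/-- the comparison for one value of the parameter `κ` -/
theorem classNumber_core (h R D x κ : ℝ) (hR : 0 < R) (hx : 0 < x) (hκ : 1 < κ)
    (hD : √D = √27 * x) (hY1 : 1 ≤ κ * √27 * x / (4 * π))
    (hA : ∀ Y : ℝ, 1 ≤ Y → ENNReal.ofReal (h * R * (4 * π * Y / √D - 1)) ≤
      2 * ENNReal.ofReal (Y * (LL * Real.log Y + 0.064) + Real.log Y / 12 + 0.388))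
    (hnum : 2 * (κ * √27 * x / (4 * π) * (LL * Real.log (κ * √27 * x / (4 * π)) + 0.064) +
      Real.log (κ * √27 * x / (4 * π)) / 12 + 0.388) < (κ - 1) * x * R) : h < x := by
  have hA' := hA _ hY1
  have h1 : 4 * π * (κ * √27 * x / (4 * π)) / √D - 1 = κ - 1 := by
    have h27 : √27 ≠ (0 : ℝ) := by positivity
    rw [hD]
    have hpi : (π : ℝ) ≠ 0 := Real.pi_ne_zero
    field_simp
  rw [h1] at hA'
  have hLL := LL_pos
  have hlog : 0 ≤ Real.log (κ * √27 * x / (4 * π)) := Real.log_nonneg hY1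
  have hB0 : 0 ≤ κ * √27 * x / (4 * π) * (LL * Real.log (κ * √27 * x / (4 * π)) + 0.064) +
      Real.log (κ * √27 * x / (4 * π)) / 12 + 0.388 := by positivity
  rw [show (2 : ℝ≥0∞) = ENNReal.ofReal 2 by simp, ← ENNReal.ofReal_mul (by norm_num),
    ENNReal.ofReal_le_ofReal_iff (by positivity)] at hA'
  have h2 : h * R * (κ - 1) < (κ - 1) * x * R := lt_of_le_of_lt hA' hnum
  have h3 : h * ((κ - 1) * R) < x * ((κ - 1) * R) := by linarith
  exact lt_of_mul_lt_mul_right h3 (mul_nonneg (by linarith) hR.le)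

/-- I1' from the statements of A3, D4', G2', H1', S1', F1', F2', I0a, I0b -/
theorem classNumber3_of {K : Type*} [Field K] [NumberField K]
    (A3 : ∀ (φ : K →+* ℝ) (ψ : K →+* ℂ), ¬ ComplexEmbedding.IsReal ψ → ∀ (R : ℝ), 0 < R →
      (∀ u : (𝓞 K)ˣ, u ≠ 1 → u ≠ -1 → R ≤ abs (Real.log (abs (φ (u : 𝓞 K))))) → ∀ (Y : ℝ),
      0 < Y →
      ENNReal.ofReal (Nat.card (ClassGroup (𝓞 K)) * R * (4 * π * Y / √|(discr K : ℝ)| - 1)) ≤
        2 * ∑' I : {I : Ideal (𝓞 K) // I ≠ ⊥}, kk (Ideal.absNorm I.1 / Y))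
    (D4 : ∀ {n : ℕ}, n ≠ 0 →
      (Nat.card {I : Ideal (𝓞 K) // Ideal.absNorm I = n} : ℤ) ≤ bb n)
    (G2 : ∀ (φ : K →+* ℝ) (ψ : K →+* ℂ), ¬ ComplexEmbedding.IsReal ψ →
      108 ≤ |(discr K : ℝ)| → ∀ (u : (𝓞 K)ˣ), u ≠ 1 → u ≠ -1 →
      Real.log ((|(discr K : ℝ)| - 24) / 4) / 3 ≤ abs (Real.log (abs (φ (u : 𝓞 K)))))
    (H1 : 108 ≤ |(discr K : ℝ)|)
    (S1 : (∃ _ : K →+* ℝ, True) ∧ ∃ ψ : K →+* ℂ, ¬ ComplexEmbedding.IsReal ψ)
    (F1 : ∀ {Y : ℝ}, 0 < Y →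
      ∑' n : ℕ, ENNReal.ofReal (bb (n + 1)) * kk (((n + 1 : ℕ) : ℝ) / Y) =
        ∫⁻ v in Set.Ioi (0 : ℝ), ENNReal.ofReal (HH v * JJ (1 / (Y * v)) / v))
    (F2 : ∀ {Y : ℝ}, 1 ≤ Y →
      ∫⁻ v in Set.Ioi (0 : ℝ), ENNReal.ofReal (HH v * JJ (1 / (Y * v)) / v) ≤
        ENNReal.ofReal (Y * (LL * Real.log Y + 0.064) + Real.log Y / 12 + 0.388))
    (I0a : ∀ {x : ℝ}, 2 ≤ x → x ≤ 20 →
      2 * (3 * √27 * x / (4 * π) * (LL * Real.log (3 * √27 * x / (4 * π)) + 0.064) +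
        Real.log (3 * √27 * x / (4 * π)) / 12 + 0.388) <
      2 * x * (Real.log ((27 * x ^ 2 - 24) / 4) / 3))
    (I0b : ∀ {x : ℝ}, 10 ≤ x →
      2 * (6 * √27 * x / (4 * π) * (LL * Real.log (6 * √27 * x / (4 * π)) + 0.064) +
        Real.log (6 * √27 * x / (4 * π)) / 12 + 0.388) <
      5 * x * (Real.log ((27 * x ^ 2 - 24) / 4) / 3)) :
    27 * (Nat.card (ClassGroup (𝓞 K)) : ℝ) ^ 2 < |(discr K : ℝ)| := by
  obtain ⟨⟨φ, -⟩, ψ, hψ⟩ := S1
  set D : ℝ := |(discr K : ℝ)| with hDdef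
  have hD0 : 0 < D := by linarith
  set x : ℝ := √(D / 27) with hxdef
  have hx2 : x ^ 2 = D / 27 := Real.sq_sqrt (by positivity)
  have hx : 2 ≤ x := by
    rw [hxdef, Real.le_sqrt (by norm_num) (by positivity)]
    linarith
  have hx0 : 0 < x := by linarith
  have hsqD : √D = √27 * x := by
    rw [hxdef, ← Real.sqrt_mul (by norm_num)]
    congr 1
    field_simp
  have h27 : (5.19 : ℝ) ≤ √27 := by
    rw [Real.le_sqrt (by norm_num) (by norm_num)]
    norm_num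
  have hR : 0 < Real.log ((D - 24) / 4) / 3 := by
    have : 0 < Real.log ((D - 24) / 4) := Real.log_pos (by linarith)
    positivity
  have hunit := G2 φ ψ hψ H1
  have hh0 : (0 : ℝ) ≤ Nat.card (ClassGroup (𝓞 K)) := Nat.cast_nonneg _
  have hA : ∀ Y : ℝ, 1 ≤ Y → ENNReal.ofReal ((Nat.card (ClassGroup (𝓞 K)) : ℝ) *
      (Real.log ((D - 24) / 4) / 3) * (4 * π * Y / √D - 1)) ≤
      2 * ENNReal.ofReal (Y * (LL * Real.log Y + 0.064) + Real.log Y / 12 + 0.388) := by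
    intro Y hY
    have hY0 : 0 < Y := by linarith
    refine (A3 φ ψ hψ _ hR hunit Y hY0).trans ?_
    gcongr
    refine (tsum_ideals_le bb (fun n hn => D4 hn) (fun m => kk (m / Y))).trans ?_
    exact (F1 hY0).le.trans (F2 hY)
  have hxD : (27 * x ^ 2 - 24) / 4 = (D - 24) / 4 := by rw [hx2]; ring
  have hpi4 : π ≤ 3.15 := Real.pi_lt_d2.le
  have hpi0 : 0 < π := Real.pi_pos
  have hYge : ∀ κ : ℝ, 3 ≤ κ → 1 ≤ κ * √27 * x / (4 * π) := by
    intro κ hκ
    rw [le_div_iff₀ (by positivity)]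
    have h1 : 3 * 5.19 * 2 ≤ κ * √27 * x := by
      apply mul_le_mul _ hx (by norm_num) (by positivity)
      exact mul_le_mul hκ h27 (by norm_num) (by linarith)
    linarith
  have hlt : (Nat.card (ClassGroup (𝓞 K)) : ℝ) < x := by
    rcases le_total x 20 with h20 | h20
    · refine classNumber_core _ _ D x 3 hR hx0 (by norm_num) hsqD (hYge 3 le_rfl) hA ?_
      have := I0a hx h20
      rw [hxD] at this
      refine this.trans_le (le_of_eq ?_)
      ring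
    · refine classNumber_core _ _ D x 6 hR hx0 (by norm_num) hsqD
        (hYge 6 (by norm_num)) hA ?_
      have := I0b (x := x) (by linarith)
      rw [hxD] at this
      refine this.trans_le (le_of_eq ?_)
      ring
  have hsq : (Nat.card (ClassGroup (𝓞 K)) : ℝ) ^ 2 < x ^ 2 := by
    exact pow_lt_pow_left₀ hlt hh0 two_ne_zero
  rw [hx2] at hsq
  linarith

end Pool.Agent.Work.Mu22
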