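import Pool.Agent.Work.MP_a4986b_nt.Defs

set_option autoImplicit false
set_option maxHeartbeats 400000

/-! # I1: the class number bound, from the module statements as hypotheses -/

namespace Pool.Agent.Work.Mu22

open NumberField Module MeasureTheory
open scoped Pointwise nonZeroDivisors ENNReal Real

section

variable (K : Type) [Field K] [NumberField K]

theorem countable_ideals : Countable (Ideal (𝓞 K)) := by
  have h : (⋃ n : ℕ, {I : Ideal (𝓞 K) | Ideal.absNorm I = n}) = Set.univ := by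
    ext I; simp
  rw [← Set.countable_univ_iff, ← h]
  exact Set.countable_iUnion fun n => (Ideal.finite_setOfPred_absNorm_eq n).countable

theorem card_norm_le_sum (x : ℝ) (b : ℕ → ℤ)
    (hb : ∀ n : ℕ, n ≠ 0 → (Nat.card {I : Ideal (𝓞 K) // Ideal.absNorm I = n} : ℤ) ≤ b n) :
    (Nat.card {i : {I : Ideal (𝓞 K) // I ≠ ⊥} // ((Ideal.absNorm i.1 : ℕ) : ℝ) ≤ x} : ℝ) ≤
      ∑ n ∈ Finset.Icc 1 ⌊x⌋₊, (b n : ℝ) := by
  classical
  have hfin : ∀ n : ℕ, Finite {I : Ideal (𝓞 K) // Ideal.absNorm I = n} := fun n =>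
    (Ideal.finite_setOfPred_absNorm_eq n).to_subtype
  let f : {i : {I : Ideal (𝓞 K) // I ≠ ⊥} // ((Ideal.absNorm i.1 : ℕ) : ℝ) ≤ x} →
      (Σ n : Finset.Icc 1 ⌊x⌋₊, {I : Ideal (𝓞 K) // Ideal.absNorm I = (n : ℕ)}) := fun i =>
    ⟨⟨Ideal.absNorm i.1.1, by
      rw [Finset.mem_Icc]
      refine ⟨?_, Nat.le_floor i.2⟩
      exact Nat.one_le_iff_ne_zero.mpr (mt Ideal.absNorm_eq_zero_iff.mp i.1.2)⟩,
      ⟨i.1.1, rfl⟩⟩
  have hf : Function.Injective f := by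
    intro i j hij
    have h1 : i.1.1 = j.1.1 := by
      have h2 : ((f i).2 : Ideal (𝓞 K)) = ((f j).2 : Ideal (𝓞 K)) := by rw [hij]
      exact h2
    exact Subtype.ext (Subtype.ext h1)
  have h1 := Nat.card_le_card_of_injective f hf
  rw [Nat.card_sigma] at h1
  have h2 : (∑ n : Finset.Icc 1 ⌊x⌋₊, Nat.card {I : Ideal (𝓞 K) // Ideal.absNorm I = (n : ℕ)}) =
      ∑ n ∈ Finset.Icc 1 ⌊x⌋₊, Nat.card {I : Ideal (𝓞 K) // Ideal.absNorm I = n} := by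
    rw [← Finset.sum_coe_sort (Finset.Icc 1 ⌊x⌋₊)]
  rw [h2] at h1
  calc (Nat.card {i : {I : Ideal (𝓞 K) // I ≠ ⊥} // ((Ideal.absNorm i.1 : ℕ) : ℝ) ≤ x} : ℝ)
      ≤ ((∑ n ∈ Finset.Icc 1 ⌊x⌋₊, Nat.card {I : Ideal (𝓞 K) // Ideal.absNorm I = n} : ℕ) : ℝ) := by
        exact_mod_cast h1
    _ = ∑ n ∈ Finset.Icc 1 ⌊x⌋₊, (Nat.card {I : Ideal (𝓞 K) // Ideal.absNorm I = n} : ℝ) := by
        push_cast; rfl
    _ ≤ ∑ n ∈ Finset.Icc 1 ⌊x⌋₊, (b n : ℝ) := by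
        apply Finset.sum_le_sum
        intro n hn
        have := hb n (by rw [Finset.mem_Icc] at hn; omega)
        exact_mod_cast this

end

/-- the final asymptotic comparison -/
theorem final_ineq (C' CG : ℝ) : ∃ p₀ : ℕ, ∀ p : ℕ, p₀ ≤ p → ∀ h : ℝ, 0 ≤ h →
    h * (2 / 3 * Real.log p - CG) * (18.99 : ℝ) ≤
      2 * (0.693 * (8.27 * p) * Real.log (8.27 * p) + C' * (8.27 * p)) →
    0 < 2 / 3 * Real.log p - CG ∧ h < p := by
  obtain ⟨p₀, hp₀⟩ : ∃ p₀ : ℕ, ∀ p : ℕ, p₀ ≤ p → |CG| * 100 + |C'| * 100 + 100 ≤ Real.log p := by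
    have h := Real.tendsto_log_atTop.comp tendsto_natCast_atTop_atTop
    have h2 := h.eventually_ge_atTop (|CG| * 100 + |C'| * 100 + 100)
    rw [Filter.eventually_atTop] at h2
    exact h2
  refine ⟨max p₀ 1, fun p hp h hh hle => ?_⟩
  have hlog := hp₀ p ((le_max_left _ _).trans hp)
  have hp1 : (1 : ℝ) ≤ p := by exact_mod_cast (le_max_right _ _).trans hp
  have hp0 : (0 : ℝ) < p := by linarith
  have hCG := le_abs_self CG
  have hCG' := abs_nonneg CG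
  have hC := le_abs_self C'
  have hC' := abs_nonneg C'
  have hR : 0 < 2 / 3 * Real.log p - CG := by linarith
  refine ⟨hR, ?_⟩
  have hlog2 : Real.log (8.27 * p) ≤ Real.log p + 8.27 := by
    rw [Real.log_mul (by norm_num) hp0.ne']
    have := Real.log_le_self (x := 8.27) (by norm_num)
    linarith
  by_contra hcon
  push Not at hcon
  have h1 : (p : ℝ) * (2 / 3 * Real.log p - CG) * 18.99 ≤
      h * (2 / 3 * Real.log p - CG) * (18.99 : ℝ) := by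
    apply mul_le_mul_of_nonneg_right _ (by norm_num)
    exact mul_le_mul_of_nonneg_right hcon hR.le
  have h2 : 2 * (0.693 * (8.27 * p) * Real.log (8.27 * p) + C' * (8.27 * p)) ≤
      2 * (0.693 * (8.27 * p) * (Real.log p + 8.27) + |C'| * (8.27 * p)) := by
    have h3 : 0.693 * (8.27 * (p : ℝ)) * Real.log (8.27 * p) ≤
        0.693 * (8.27 * p) * (Real.log p + 8.27) :=
      mul_le_mul_of_nonneg_left hlog2 (by positivity)
    have h4 : C' * (8.27 * (p : ℝ)) ≤ |C'| * (8.27 * p) :=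
      mul_le_mul_of_nonneg_right hC (by positivity)
    linarith
  have h5 : (p : ℝ) * (2 / 3 * Real.log p - CG) * 18.99 ≤
      2 * (0.693 * (8.27 * p) * (Real.log p + 8.27) + |C'| * (8.27 * p)) := h1.trans (hle.trans h2)
  have h6 : (p : ℝ) * ((2 / 3 * Real.log p - CG) * 18.99) ≤
      p * (2 * (0.693 * 8.27 * (Real.log p + 8.27) + |C'| * 8.27)) := by
    calc _ = (p : ℝ) * (2 / 3 * Real.log p - CG) * 18.99 := by ring
      _ ≤ _ := h5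
      _ = _ := by ring
  have h7 := le_of_mul_le_mul_left h6 hp0
  nlinarith

/-- I1 from the statements of A3, D4, E1, F1, G1, H1, S1 -/
theorem classNumber_lt_of
    (A3 : ∀ (K : Type) [Field K] [NumberField K], finrank ℚ K = 3 → ∀ (φ : K →+* ℝ)
      (ψ : K →+* ℂ), ¬ ComplexEmbedding.IsReal ψ → ∀ (R : ℝ), 0 < R →
      (∀ u : (𝓞 K)ˣ, u ≠ 1 → u ≠ -1 → R ≤ abs (Real.log (abs (φ (u : 𝓞 K))))) → ∀ (Y : ℝ),
      0 < Y →
      ENNReal.ofReal (Nat.card (ClassGroup (𝓞 K)) * R * (4 * π * Y / √|(discr K : ℝ)| - 1)) ≤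
        2 * ∑' I : {I : Ideal (𝓞 K) // I ≠ ⊥}, kk (Ideal.absNorm I.1 / Y))
    (D4 : ∀ (K : Type) [Field K] [NumberField K], finrank ℚ K = 3 → ∀ {p : ℕ}, p.Prime → 3 < p →
      ∀ (t : 𝓞 K), t ^ 3 = p → ∀ {n : ℕ}, n ≠ 0 →
      (Nat.card {I : Ideal (𝓞 K) // Ideal.absNorm I = n} : ℤ) ≤ bb n)
    (E1 : ∃ C : ℝ, 0 ≤ C ∧ ∀ x : ℝ, 1 ≤ x →
      ∑ n ∈ Finset.Icc 1 ⌊x⌋₊, (bb n : ℝ) ≤ 0.693 * x * Real.log x + C * x)
    (F1 : ∀ (c C : ℝ), 0 ≤ c → 0 ≤ C → ∃ C' : ℝ, 0 ≤ C' ∧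
      ∀ (ι : Type) [Countable ι] (N : ι → ℕ), (∀ i, 1 ≤ N i) → (∀ x : ℕ, Finite {i // N i ≤ x}) →
        (∀ x : ℝ, 1 ≤ x → (Nat.card {i // (N i : ℝ) ≤ x} : ℝ) ≤ c * x * Real.log x + C * x) →
        ∀ Y : ℝ, 1 ≤ Y → ∑' i, kk (N i / Y) ≤ ENNReal.ofReal (c * Y * Real.log Y + C' * Y))
    (G1 : ∃ C : ℝ, ∀ (K : Type) [Field K] [NumberField K], finrank ℚ K = 3 →
      ∀ p : ℕ, p.Prime → C ≤ p → ∀ t : 𝓞 K, t ^ 3 = p → ∀ φ : K →+* ℝ,
        ∀ u : (𝓞 K)ˣ, u ≠ 1 → u ≠ -1 →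
          2 / 3 * Real.log p - C ≤ abs (Real.log (abs (φ (u : 𝓞 K)))))
    (H1 : ∀ (K : Type) [Field K] [NumberField K], finrank ℚ K = 3 → ∀ {p : ℕ}, p.Prime →
      ∀ (t : 𝓞 K), t ^ 3 = p → |(discr K : ℝ)| ≤ 27 * (p : ℝ) ^ 2)
    (S1 : ∀ (K : Type) [Field K] [NumberField K], finrank ℚ K = 3 → ∀ {p : ℕ}, p.Prime →
      ∀ (t : 𝓞 K), t ^ 3 = p →
      (∃ _ : K →+* ℝ, True) ∧ ∃ ψ : K →+* ℂ, ¬ ComplexEmbedding.IsReal ψ) :
    ∃ p₀ : ℕ, ∀ (K : Type) [Field K] [NumberField K], finrank ℚ K = 3 →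
      ∀ p : ℕ, p.Prime → p₀ ≤ p → ∀ t : 𝓞 K, t ^ 3 = p →
        Nat.card (ClassGroup (𝓞 K)) < p := by
  obtain ⟨C, hC0, hC⟩ := E1
  obtain ⟨C', hC'0, hC'⟩ := F1 0.693 C (by norm_num) hC0
  obtain ⟨CG, hCG⟩ := G1
  obtain ⟨p₀, hp₀⟩ := final_ineq C' CG
  refine ⟨max (max p₀ 5) ⌈CG⌉₊, ?_⟩
  intro K _ _ h3 p hp hpp t ht
  have hpp0 : p₀ ≤ p := (le_max_left _ _).trans ((le_max_left _ _).trans hpp)
  have h5 : 5 ≤ p := (le_max_right _ _).trans ((le_max_left _ _).trans hpp)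
  have hCGp : CG ≤ p := (Nat.le_ceil CG).trans (by exact_mod_cast (le_max_right _ _).trans hpp)
  have hp0 : (0 : ℝ) < p := by exact_mod_cast hp.pos
  have hp5 : (5 : ℝ) ≤ p := by exact_mod_cast h5
  obtain ⟨⟨φ, -⟩, ψ, hψ⟩ := S1 K h3 hp t ht
  have hD := H1 K h3 hp t ht
  have hunit := hCG K h3 p hp hCGp t ht φ
  -- positivity of `R`
  have hR : 0 < 2 / 3 * Real.log p - CG := (hp₀ p hpp0 0 le_rfl (by
    have h1 : 0 ≤ Real.log (8.27 * p) := Real.log_nonneg (by nlinarith)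
    have h2 : (0 : ℝ) ≤ 0.693 * (8.27 * p) * Real.log (8.27 * p) := by positivity
    have h3 : 0 ≤ C' * (8.27 * (p : ℝ)) := by positivity
    linarith)).1
  have hY : (0 : ℝ) < 8.27 * p := by positivity
  have hA := A3 K h3 φ ψ hψ (2 / 3 * Real.log p - CG) hR hunit (8.27 * p) hY
  have hcnt : Countable (Ideal (𝓞 K)) := countable_ideals K
  have hN1 : ∀ i : {I : Ideal (𝓞 K) // I ≠ ⊥}, 1 ≤ Ideal.absNorm i.1 := fun i =>
    Nat.one_le_iff_ne_zero.mpr (mt Ideal.absNorm_eq_zero_iff.mp i.2)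
  have hfin : ∀ x : ℕ, Finite {i : {I : Ideal (𝓞 K) // I ≠ ⊥} // Ideal.absNorm i.1 ≤ x} := by
    intro x
    have h1 : Finite {I : Ideal (𝓞 K) // Ideal.absNorm I ≤ x} :=
      (Ideal.finite_setOfPred_absNorm_le x).to_subtype
    exact Finite.of_injective
      (fun i => (⟨i.1.1, i.2⟩ : {I : Ideal (𝓞 K) // Ideal.absNorm I ≤ x}))
      (fun i j hij => by
        have h2 : (i.1.1 : Ideal (𝓞 K)) = j.1.1 := Subtype.mk.inj hij
        exact Subtype.ext (Subtype.ext h2))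
  have hB := hC' {I : Ideal (𝓞 K) // I ≠ ⊥} (fun i => Ideal.absNorm i.1) hN1 hfin (by
    intro x hx
    refine (card_norm_le_sum K x bb (fun n hn => D4 K h3 hp (by omega) t ht hn)).trans ?_
    exact hC x hx) (8.27 * p) (by nlinarith)
  have hAB := hA.trans (mul_le_mul_right hB 2)
  have hB0 : 0 ≤ 0.693 * (8.27 * (p : ℝ)) * Real.log (8.27 * p) + C' * (8.27 * p) := by
    have h1 : 0 ≤ Real.log (8.27 * p) := Real.log_nonneg (by nlinarith)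
    positivity
  rw [show (2 : ℝ≥0∞) = ENNReal.ofReal 2 by simp, ← ENNReal.ofReal_mul (by norm_num),
    ENNReal.ofReal_le_ofReal_iff (by positivity)] at hAB
  -- lower bound for `4 π Y / √|D| - 1`
  have hsq : √|(discr K : ℝ)| ≤ 5.19616 * p := by
    rw [Real.sqrt_le_left (by positivity)]
    calc |(discr K : ℝ)| ≤ 27 * (p : ℝ) ^ 2 := hD
      _ ≤ (5.19616 * p) ^ 2 := by nlinarith [sq_nonneg (p : ℝ)]
  have hdisc : (discr K : ℝ) ≠ 0 := by exact_mod_cast discr_ne_zero K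
  have hsqpos : 0 < √|(discr K : ℝ)| := Real.sqrt_pos.mpr (abs_pos.mpr hdisc)
  have hlow : 18.99 ≤ 4 * π * (8.27 * p) / √|(discr K : ℝ)| - 1 := by
    have h1 : (19.99 : ℝ) ≤ 4 * π * (8.27 * p) / √|(discr K : ℝ)| := by
      rw [le_div_iff₀ hsqpos]
      have hpi := Real.pi_gt_d4
      nlinarith
    linarith
  have hcard0 : (0 : ℝ) ≤ Nat.card (ClassGroup (𝓞 K)) := Nat.cast_nonneg _
  have hfinal : (Nat.card (ClassGroup (𝓞 K)) : ℝ) * (2 / 3 * Real.log p - CG) * 18.99 ≤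
      2 * (0.693 * (8.27 * p) * Real.log (8.27 * p) + C' * (8.27 * p)) :=
    (mul_le_mul_of_nonneg_left hlow (mul_nonneg hcard0 hR.le)).trans hAB
  have := (hp₀ p hpp0 _ hcard0 hfinal).2
  exact_mod_cast this

end Pool.Agent.Work.Mu22
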