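import Pool.Agent.Work.MP_a4986b_nt.Defs

set_option autoImplicit false
set_option maxHeartbeats 400000

/-! # One prime above `p` in the Galois closure of a pure cubic field, `p ≡ 2 mod 3` (helper52) -/

namespace Pool.Agent.Work.Mu22

open NumberField Module
open scoped Pointwise nonZeroDivisors

theorem clos_spanPrime {p : ℕ} (hp : p.Prime) : (Ideal.span {(p : ℤ)}).IsPrime := by
  rw [Ideal.span_singleton_prime (by exact_mod_cast hp.ne_zero)]
  exact Nat.prime_iff_prime_int.1 hp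

theorem clos_over {F : Type*} [Field F] [NumberField F] {p : ℕ} (hp : p.Prime)
    (Q : Ideal (𝓞 F)) (hQ : Q.IsPrime) (hpQ : (p : 𝓞 F) ∈ Q) :
    Q.LiesOver (Ideal.span {(p : ℤ)}) := by
  have hqp := clos_spanPrime hp
  have hq0 : Ideal.span {(p : ℤ)} ≠ ⊥ := by
    rw [Ne, Ideal.span_singleton_eq_bot]
    exact_mod_cast hp.ne_zero
  have hmax : (Ideal.span {(p : ℤ)}).IsMaximal := hqp.isMaximal hq0
  refine ⟨hmax.eq_of_le (Ideal.IsPrime.ne_top (Ideal.IsPrime.under ℤ Q)) ?_⟩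
  rw [Ideal.span_singleton_le_iff_mem, Ideal.under_def, Ideal.mem_comap]
  simpa using hpQ

theorem clos_mem {F : Type*} [Field F] [NumberField F] {p : ℕ}
    (Q : Ideal (𝓞 F)) [h : Q.LiesOver (Ideal.span {(p : ℤ)})] : (p : 𝓞 F) ∈ Q := by
  have h1 : (p : ℤ) ∈ Q.under ℤ := by
    rw [← Ideal.over_def Q (Ideal.span {(p : ℤ)})]
    exact Ideal.mem_span_singleton_self _
  rw [Ideal.under_def, Ideal.mem_comap] at h1
  simpa using h1

/-- a single prime over `p`: `e f = [F : ℚ]` -/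
theorem clos_ef {F : Type*} [Field F] [NumberField F] {p : ℕ} (hp : p.Prime) (hone : OnePrime p F)
    (Q : Ideal (𝓞 F)) (hQ : Q.IsPrime) (hpQ : (p : 𝓞 F) ∈ Q) :
    Q.ramificationIdx ℤ * Q.inertiaDeg ℤ = finrank ℚ F := by
  have hqp := clos_spanPrime hp
  set q : Ideal ℤ := Ideal.span {(p : ℤ)} with hq
  have hover : Q.LiesOver q := clos_over hp Q hQ hpQ
  have hft : Fintype (q.primesOver (𝓞 F)) := (Algebra.QuasiFinite.finite_primesOver q).fintype
  have h := Ideal.sum_ramification_inertia_eq_finrank q (𝓞 F)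
  rw [RingOfIntegers.rank] at h
  rw [← h]
  symm
  rw [Finset.sum_eq_single_of_mem (⟨Q, hQ, hover⟩ : q.primesOver (𝓞 F)) (Finset.mem_univ _)]
  rintro ⟨P, hP, hPo⟩ _ hne
  exfalso
  apply hne
  apply Subtype.ext
  exact hone P Q hP hQ (clos_mem P) hpQ

/-- a primitive cube root of unity forces even residue degree if `p ≡ 2 mod 3` -/
theorem clos_even {N : Type*} [Field N] [NumberField N] {p : ℕ} (hp : p.Prime) (hp3 : p % 3 = 2)
    (ω : N) (hω : IsPrimitiveRoot ω 3) (Q : Ideal (𝓞 N)) (hQ : Q.IsPrime) (hpQ : (p : 𝓞 N) ∈ Q) :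
    2 ∣ Q.inertiaDeg ℤ := by
  have hover : Q.LiesOver (Ideal.span {(p : ℤ)}) := clos_over hp Q hQ hpQ
  have hcard := Ideal.pow_inertiaDeg p Q
  have hp0 : (p : 𝓞 N) ≠ 0 := by exact_mod_cast hp.ne_zero
  have hQ0 : Q ≠ ⊥ := by
    rintro rfl
    exact hp0 (by simpa using hpQ)
  have hQm : Q.IsMaximal := hQ.isMaximal hQ0
  have hfin : Finite (𝓞 N ⧸ Q) := Ideal.finiteQuotientOfFreeOfNeBot Q hQ0
  let _ : Field (𝓞 N ⧸ Q) := Ideal.Quotient.field Q
  have hint : IsIntegral ℤ ω := hω.isIntegral (by norm_num)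
  set w : 𝓞 N := ⟨ω, hint⟩ with hw
  have hw3 : w ^ 3 = 1 := by
    apply RingOfIntegers.ext
    exact hω.pow_eq_one
  have hsum : w ^ 2 + w + 1 = 0 := by
    apply RingOfIntegers.ext
    have h1 : ω ≠ 1 := hω.ne_one (by norm_num)
    have h2 : (ω - 1) * (ω ^ 2 + ω + 1) = 0 := by
      have := hω.pow_eq_one
      linear_combination this
    rcases mul_eq_zero.1 h2 with h | h
    · exact absurd (sub_eq_zero.1 h) h1
    · exact h
  set x : 𝓞 N ⧸ Q := Ideal.Quotient.mk Q w with hx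
  have hx3 : x ^ 3 = 1 := by rw [hx, ← map_pow, hw3, map_one]
  have hx1 : x ≠ 1 := by
    intro h
    have h1 : Ideal.Quotient.mk Q (w ^ 2 + w + 1) = 0 := by rw [hsum, map_zero]
    rw [map_add, map_add, map_pow, ← hx, h, map_one] at h1
    have h3 : Ideal.Quotient.mk Q (3 : 𝓞 N) = 0 := by
      rw [map_ofNat, ← h1]; norm_num
    rw [Ideal.Quotient.eq_zero_iff_mem] at h3
    have h4 : ((3 : ℕ) : 𝓞 N) ∈ Q := by exact_mod_cast h3
    have hcop : Nat.Coprime p 3 := by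
      rw [Nat.coprime_primes hp Nat.prime_three]
      rintro rfl
      omega
    apply hQ.ne_top
    rw [Ideal.eq_top_iff_one]
    have h5 := Nat.gcd_eq_gcd_ab p 3
    rw [hcop.gcd_eq_one] at h5
    have h6 : ((1 : ℕ) : 𝓞 N) = (p : 𝓞 N) * (p.gcdA 3 : 𝓞 N) + ((3 : ℕ) : 𝓞 N) * (p.gcdB 3 : 𝓞 N) := by
      exact_mod_cast congrArg (Int.cast : ℤ → 𝓞 N) h5
    rw [Nat.cast_one] at h6
    rw [h6]
    exact Q.add_mem (Q.mul_mem_right _ hpQ) (Q.mul_mem_right _ h4)
  have hx0 : x ≠ 0 := by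
    rintro h
    rw [h] at hx3
    norm_num at hx3
  have hord : orderOf (Units.mk0 x hx0) = 3 := by
    apply orderOf_eq_prime
    · apply Units.ext
      rw [Units.val_pow_eq_pow_val, Units.val_mk0, Units.val_one, hx3]
    · intro h
      apply hx1
      have := congrArg Units.val h
      simpa using this
  have hdvd : 3 ∣ Nat.card (𝓞 N ⧸ Q)ˣ := by
    rw [← hord]
    exact orderOf_dvd_natCard _
  have hcu : Nat.card (𝓞 N ⧸ Q)ˣ = p ^ Q.inertiaDeg ℤ - 1 := by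
    rw [Nat.card_units, hcard, Ideal.absNorm_apply, Submodule.cardQuot_apply]
  rw [hcu] at hdvd
  rw [← even_iff_two_dvd]
  by_contra hodd
  rw [Nat.not_even_iff_odd] at hodd
  obtain ⟨k, hk⟩ := hodd
  have h7 : p ^ Q.inertiaDeg ℤ % 3 = 2 := by
    rw [hk, pow_succ, pow_mul, Nat.mul_mod, Nat.pow_mod, Nat.pow_mod p 2 3, hp3]
    norm_num
  omega

/-- one prime above `p` in the Galois closure -/
theorem clos_onePrime {N F : Type*} [Field N] [NumberField N] [IsGalois ℚ N] [Field F]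
    [NumberField F] [Algebra F N] {p : ℕ} (hp : p.Prime) (hp3 : p % 3 = 2) (ω : N)
    (hω : IsPrimitiveRoot ω 3) (hN : finrank ℚ N = 6) (hF : finrank ℚ F = 3)
    (hone : OnePrime p F) : OnePrime p N := by
  intro P Q hP hQ hpP hpQ
  have hqp := clos_spanPrime hp
  set q : Ideal ℤ := Ideal.span {(p : ℤ)} with hq
  have hPo : P.LiesOver q := clos_over hp P hP hpP
  have hQo : Q.LiesOver q := clos_over hp Q hQ hpQ
  have hmain := Ideal.ncard_primesOver_mul_ramificationIdxIn_mul_inertiaDegIn q (𝓞 N) Gal(N/ℚ)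
  rw [IsGalois.card_aut_eq_finrank, hN, Ideal.ramificationIdxIn_eq_ramificationIdx q P Gal(N/ℚ),
    Ideal.inertiaDegIn_eq_inertiaDeg q P Gal(N/ℚ)] at hmain
  obtain ⟨f, hf⟩ := clos_even hp hp3 ω hω P hP hpP
  -- the prime below in `F`
  have hP' : (P.under (𝓞 F)).IsPrime := Ideal.IsPrime.under (𝓞 F) P
  have hpP' : (p : 𝓞 F) ∈ P.under (𝓞 F) := by
    rw [Ideal.under_def, Ideal.mem_comap]; simpa using hpP
  have hef := clos_ef hp hone (P.under (𝓞 F)) hP' hpP'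
  have he := Ideal.ramificationIdx_tower (R := ℤ) (P.under (𝓞 F)) P
  have hf' := Ideal.inertiaDeg_tower (R := ℤ) (P.under (𝓞 F)) P
  have h3 : 3 ∣ P.ramificationIdx ℤ * P.inertiaDeg ℤ := by
    rw [he, hf', mul_mul_mul_comm, hef, hF]
    exact dvd_mul_right _ _
  have hr : (Ideal.primesOver q (𝓞 N)).ncard = 1 := by
    set r := (Ideal.primesOver q (𝓞 N)).ncard
    set e := P.ramificationIdx ℤ
    rw [hf] at hmain h3
    obtain ⟨c, hc⟩ := h3
    have h1 : r * (e * f) = 3 := by nlinarith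
    have h2 : 3 ∣ e * f := by
      have : 3 ∣ 2 * (e * f) := ⟨c, by rw [← hc]; ring⟩
      exact (Nat.Coprime.dvd_of_dvd_mul_left (by norm_num) this)
    obtain ⟨d, hd⟩ := h2
    rw [hd] at h1
    have h4 : r * d = 1 := by nlinarith
    exact Nat.eq_one_of_mul_eq_one_right h4
  obtain ⟨R, hR⟩ := Set.ncard_eq_one.1 hr
  have hP1 : P ∈ Ideal.primesOver q (𝓞 N) := ⟨hP, hPo⟩
  have hQ1 : Q ∈ Ideal.primesOver q (𝓞 N) := ⟨hQ, hQo⟩
  rw [hR, Set.mem_singleton_iff] at hP1 hQ1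
  rw [hP1, hQ1]

end Pool.Agent.Work.Mu22
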