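import Pool.Agent.Work.MP_a4986b_nt.Step

set_option autoImplicit false
set_option maxHeartbeats 400000

/-! # T8: the tower theorem (helper31) -/

namespace Pool.Agent.Work.Mu22

open NumberField Module
open scoped Pointwise nonZeroDivisors ENNReal Real

attribute [local instance] Units.mulDistribMulActionRight

theorem tw_equiv {p : ℕ} {K L : Type*} [Field K] [NumberField K] [Field L] [NumberField L]
    (e : K ≃+* L) (hone : OnePrime p K) (hK : ¬ p ∣ Nat.card (ClassGroup (𝓞 K))) :
    ¬ p ∣ Nat.card (ClassGroup (𝓞 L)) ∧ OnePrime p L := by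
  have f : 𝓞 K ≃+* 𝓞 L := RingOfIntegers.mapRingEquiv e
  refine ⟨?_, ?_⟩
  · rwa [← Nat.card_congr (ClassGroup.mulEquiv f).toEquiv]
  · intro P Q hP hQ hpP hpQ
    have h1 := hone (P.comap f) (Q.comap f) (Ideal.comap_isPrime f P) (Ideal.comap_isPrime f Q)
      (by simpa [Ideal.mem_comap] using hpP) (by simpa [Ideal.mem_comap] using hpQ)
    exact Ideal.comap_injective_of_surjective (f : 𝓞 K →+* 𝓞 L) f.surjective h1

theorem tw_zero {p : ℕ} {K L : Type*} [Field K] [NumberField K] [Field L] [NumberField L]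
    [Algebra K L] (hd : finrank K L = 1) (hone : OnePrime p K)
    (hK : ¬ p ∣ Nat.card (ClassGroup (𝓞 K))) :
    ¬ p ∣ Nat.card (ClassGroup (𝓞 L)) ∧ OnePrime p L := by
  have hs : Function.Surjective (algebraMap K L) := by
    have := (Subalgebra.bot_eq_top_iff_finrank_eq_one (F := K) (E := L)).2 hd
    intro x
    have hx : x ∈ (⊥ : Subalgebra K L) := by rw [this]; trivial
    exact Algebra.mem_bot.1 hx
  exact tw_equiv (RingEquiv.ofBijective (algebraMap K L)
    ⟨(algebraMap K L).injective, hs⟩) hone hK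

/-- a prime of `L` over `Q` with ramification index one has `Q` unramified -/
theorem tw_unram_bot {p : ℕ} (K M L : Type*) [Field K] [NumberField K] [Field M] [NumberField M]
    [Field L] [NumberField L] [Algebra K M] [Algebra M L] [Algebra K L] [IsScalarTower K M L]
    (h : UnramOutside p K L) : UnramOutside p K M := by
  intro Q hQ h0 hp
  obtain ⟨⟨Q', hQ', hover⟩⟩ := (inferInstance : Nonempty (Ideal.primesOver Q (𝓞 L)))
  have h0' : Q' ≠ ⊥ := Ideal.ne_bot_of_liesOver_of_ne_bot h0 Q'
  have hp' : (p : 𝓞 L) ∉ Q' := by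
    intro hmem
    apply hp
    rw [Ideal.over_def Q' Q, Ideal.under_def, Ideal.mem_comap]
    simpa using hmem
  have h1 := h Q' hQ' h0' hp'
  have h2 := Ideal.ramificationIdx_tower (R := 𝓞 K) Q Q'
  rw [h1] at h2
  exact Nat.dvd_one.1 ⟨_, h2⟩

theorem tw_unram_top {p : ℕ} (K M L : Type*) [Field K] [NumberField K] [Field M] [NumberField M]
    [Field L] [NumberField L] [Algebra K M] [Algebra M L] [Algebra K L] [IsScalarTower K M L]
    (h : UnramOutside p K L) : UnramOutside p M L := by
  intro Q hQ h0 hp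
  have h1 := h Q hQ h0 hp
  have h2 := Ideal.ramificationIdx_tower (R := 𝓞 K) (Q.under (𝓞 M)) Q
  rw [h1] at h2
  exact Nat.dvd_one.1 ⟨_, h2.trans (mul_comm _ _)⟩

theorem tw_prime {p : ℕ} (hp : p.Prime) {K L : Type*} [Field K] [NumberField K] [Field L]
    [NumberField L] [Algebra K L] [IsGalois K L] (hd : finrank K L = p)
    (hodd : Odd p) (hone : OnePrime p K) (hun : UnramOutside p K L)
    (hK : ¬ p ∣ Nat.card (ClassGroup (𝓞 K))) :
    ¬ p ∣ Nat.card (ClassGroup (𝓞 L)) ∧ OnePrime p L := by
  have hLone : OnePrime p L := by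
    intro P Q hP hQ hpP hpQ
    by_contra hPQ
    have hpL : (p : 𝓞 L) ≠ 0 := by exact_mod_cast hp.ne_zero
    have hP0 : P ≠ ⊥ := by rintro rfl; exact hpL (by simpa using hpP)
    have hQ0 : Q ≠ ⊥ := by rintro rfl; exact hpL (by simpa using hpQ)
    have hunder : P.under (𝓞 K) = Q.under (𝓞 K) := by
      apply hone
      · exact Ideal.IsPrime.under (𝓞 K) P
      · exact Ideal.IsPrime.under (𝓞 K) Q
      · rw [Ideal.under_def, Ideal.mem_comap]; simpa using hpP
      · rw [Ideal.under_def, Ideal.mem_comap]; simpa using hpQ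
    set q := P.under (𝓞 K) with hq
    have hqp : q.IsPrime := Ideal.IsPrime.under (𝓞 K) P
    have : P.LiesOver q := ⟨rfl⟩
    have : Q.LiesOver q := ⟨hunder⟩
    have hmain := Ideal.ncard_primesOver_mul_ramificationIdxIn_mul_inertiaDegIn q (𝓞 L) Gal(L/K)
    have hcard : Nat.card Gal(L/K) = p := by
      rw [IsGalois.card_aut_eq_finrank, hd]
    rw [hcard] at hmain
    have hfin : (Ideal.primesOver q (𝓞 L)).Finite := by
      exact Algebra.QuasiFinite.finite_primesOver q
    have hnc : 1 < (Ideal.primesOver q (𝓞 L)).ncard := by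
      rw [Set.one_lt_ncard_iff hfin]
      exact ⟨P, Q, ⟨hP, inferInstance⟩, ⟨hQ, inferInstance⟩, hPQ⟩
    have hdvd : (Ideal.primesOver q (𝓞 L)).ncard ∣ p := ⟨_, hmain.symm⟩
    have hnp : (Ideal.primesOver q (𝓞 L)).ncard = p := by
      rcases (Nat.dvd_prime hp).1 hdvd with h | h
      · omega
      · exact h
    rw [hnp] at hmain
    have hef : q.ramificationIdxIn (𝓞 L) * q.inertiaDegIn (𝓞 L) = 1 := by
      have : p * (q.ramificationIdxIn (𝓞 L) * q.inertiaDegIn (𝓞 L)) = p * 1 := by
        rw [hmain, mul_one]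
      exact Nat.eq_of_mul_eq_mul_left hp.pos this
    have he : q.ramificationIdxIn (𝓞 L) = 1 := Nat.dvd_one.1 ⟨_, hef.symm⟩
    -- everything is unramified
    refine hK (unram_step hp hd hodd ?_)
    intro R hR hR0
    by_cases hpR : (p : 𝓞 L) ∈ R
    · have hRunder : R.under (𝓞 K) = q := by
        apply hone
        · exact Ideal.IsPrime.under (𝓞 K) R
        · exact hqp
        · rw [Ideal.under_def, Ideal.mem_comap]; simpa using hpR
        · rw [hq, Ideal.under_def, Ideal.mem_comap]; simpa using hpP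
      have : R.LiesOver q := ⟨hRunder.symm⟩
      rw [← Ideal.ramificationIdxIn_eq_ramificationIdx q R Gal(L/K)]
      exact he
    · exact hun R hR hR0 hpR
  refine ⟨?_, hLone⟩
  -- the unique prime above `p`
  obtain ⟨P, hP, hpP⟩ : ∃ P : Ideal (𝓞 L), P.IsPrime ∧ (p : 𝓞 L) ∈ P := by
    have hpp : (Ideal.span {(p : ℤ)}).IsPrime := by
      rw [Ideal.span_singleton_prime (by exact_mod_cast hp.ne_zero)]
      exact Nat.prime_iff_prime_int.1 hp
    obtain ⟨⟨P, hP, hover⟩⟩ :=
      (inferInstance : Nonempty (Ideal.primesOver (Ideal.span {(p : ℤ)}) (𝓞 L)))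
    refine ⟨P, hP, ?_⟩
    have h1 : (p : ℤ) ∈ P.under ℤ := by
      rw [← Ideal.over_def P (Ideal.span {(p : ℤ)})]
      exact Ideal.mem_span_singleton_self _
    rw [Ideal.under_def, Ideal.mem_comap] at h1
    simpa using h1
  have hpL : (p : 𝓞 L) ≠ 0 := by exact_mod_cast hp.ne_zero
  have hP0 : P ≠ ⊥ := by rintro rfl; exact hpL (by simpa using hpP)
  refine step hp hd hodd P hP hP0 ?_ ?_ hK
  · intro g
    refine hLone _ _ inferInstance hP ?_ hpP
    rw [Ideal.mem_pointwise_smul_iff_inv_smul_mem]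
    have : g⁻¹ • (p : 𝓞 L) = (p : 𝓞 L) :=
      map_natCast (MulSemiringAction.toRingHom Gal(L/K) (𝓞 L) g⁻¹) p
    rw [this]
    exact hpP
  · intro Q hQ hQ0 hQP
    refine hun Q hQ hQ0 ?_
    intro hmem
    exact hQP (hLone Q P hQ hP hmem hpP)


/-- T8: the tower theorem (Iwasawa 1956) -/
theorem tower {p : ℕ} (hp : p.Prime) (n : ℕ) {K L : Type*} [Field K] [NumberField K] [Field L]
    [NumberField L] [Algebra K L] [IsGalois K L] (hd : finrank K L = p ^ n)
    (hodd : Odd p) (hone : OnePrime p K) (hun : UnramOutside p K L)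
    (hK : ¬ p ∣ Nat.card (ClassGroup (𝓞 K))) :
    ¬ p ∣ Nat.card (ClassGroup (𝓞 L)) ∧ OnePrime p L := by
  induction n generalizing L with
  | zero => exact tw_zero (by simpa using hd) hone hK
  | succ n ih =>
    have : Fact p.Prime := ⟨hp⟩
    have hcard : Nat.card Gal(L/K) = p ^ (n + 1) := by
      rw [IsGalois.card_aut_eq_finrank, hd]
    have hpg : IsPGroup p Gal(L/K) := IsPGroup.of_card hcard
    have hnt : Nontrivial Gal(L/K) := by
      rw [← Finite.one_lt_card_iff_nontrivial, hcard]
      exact Nat.one_lt_pow (by omega) hp.one_lt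
    obtain ⟨z, hz⟩ : ∃ z : Subgroup.center Gal(L/K), orderOf z = p := by
      have hc := hpg.center_nontrivial
      have hcp : IsPGroup p (Subgroup.center Gal(L/K)) := hpg.to_subgroup _
      have hdvd : p ∣ Nat.card (Subgroup.center Gal(L/K)) := by
        rcases hcp.card_eq_or_dvd with h | h
        · rw [Nat.card_eq_one_iff_unique] at h
          exact absurd h.1 (not_subsingleton _)
        · exact h
      exact exists_prime_orderOf_dvd_card' p hdvd
    have hz' : orderOf (z : Gal(L/K)) = p := by rw [← hz]; exact Subgroup.orderOf_coe z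
    set H : Subgroup Gal(L/K) := Subgroup.zpowers (z : Gal(L/K)) with hH
    have hHc : H ≤ Subgroup.center Gal(L/K) := by
      rw [hH, Subgroup.zpowers_le]; exact z.2
    have hHn : H.Normal := by
      constructor
      intro a ha g
      have := Subgroup.mem_center_iff.1 (hHc ha) g
      rwa [this, mul_inv_cancel_right]
    have hHcard : Nat.card H = p := by rw [hH, Nat.card_zpowers, hz']
    let M : IntermediateField K L := IntermediateField.fixedField H
    have hML : finrank M L = p := by
      rw [IntermediateField.finrank_fixedField_eq_card, hHcard]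
    have hKM : finrank K M = p ^ n := by
      have h1 := finrank_mul_finrank K M L
      rw [hML, hd, pow_succ] at h1
      exact Nat.eq_of_mul_eq_mul_right hp.pos h1
    have : IsGalois K M := IsGalois.of_fixedField_normal_subgroup H
    have hM := ih hKM (tw_unram_bot K M L hun)
    exact tw_prime hp hML hodd hM.2 (tw_unram_top K M L hun) hM.1

end Pool.Agent.Work.Mu22
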