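import Pool.Agent.Work.MP_a4986b_nt.ClosA
import Pool.Agent.Work.MP_a4986b_nt.ClosB
import Pool.Agent.Work.MP_a4986b_nt.Tower

set_option autoImplicit false
set_option maxHeartbeats 400000

/-! # The Galois closure of a pure cubic field (helper52) -/

namespace Pool.Agent.Work.Mu22

open NumberField Module IntermediateField
open scoped Pointwise nonZeroDivisors

theorem clos_irr {F : Type*} [Field F] [NumberField F] (h3 : finrank ℚ F = 3) (x : F)
    (hx : x ∉ (algebraMap ℚ F).range) (r : ℚ) (hr : x ^ 3 = algebraMap ℚ F r) :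
    Irreducible (Polynomial.X ^ 3 - Polynomial.C r : Polynomial ℚ) := by
  have hint : IsIntegral ℚ x := Algebra.IsIntegral.isIntegral x
  have h1 : finrank ℚ ℚ⟮x⟯ ∣ 3 := by
    rw [← h3]
    exact Dvd.intro _ (finrank_mul_finrank ℚ ℚ⟮x⟯ F)
  have h2 : finrank ℚ ℚ⟮x⟯ ≠ 1 := by
    intro h
    rw [IntermediateField.finrank_eq_one_iff, IntermediateField.adjoin_simple_eq_bot_iff] at h
    obtain ⟨y, hy⟩ := IntermediateField.mem_bot.1 h
    exact hx ⟨y, hy⟩
  have h4 : finrank ℚ ℚ⟮x⟯ = 3 := by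
    rcases (Nat.dvd_prime Nat.prime_three).1 h1 with h | h
    · exact absurd h h2
    · exact h
  rw [IntermediateField.adjoin.finrank hint] at h4
  have h5 : minpoly ℚ x ∣ Polynomial.X ^ 3 - Polynomial.C r := by
    apply minpoly.dvd
    simp [hr]
  have h6 : Polynomial.X ^ 3 - Polynomial.C r = minpoly ℚ x := by
    refine (Polynomial.eq_of_monic_of_dvd_of_natDegree_le (minpoly.monic hint)
      (Polynomial.monic_X_pow_sub_C _ three_ne_zero) h5 ?_)
    rw [Polynomial.natDegree_X_pow_sub_C, h4]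
  rw [h6]
  exact minpoly.irreducible hint

theorem clos_minpoly {N : Type*} [Field N] [NumberField N] (r : ℚ)
    (hirr : Irreducible (Polynomial.X ^ 3 - Polynomial.C r : Polynomial ℚ)) (y : N)
    (hy : y ^ 3 = algebraMap ℚ N r) : minpoly ℚ y = Polynomial.X ^ 3 - Polynomial.C r := by
  refine (minpoly.eq_of_irreducible_of_monic hirr ?_
    (Polynomial.monic_X_pow_sub_C _ three_ne_zero)).symm
  simp [hy]

theorem closure_main {F N : Type*} [Field F] [NumberField F] [Field N] [NumberField N]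
    [IsGalois ℚ N] [Algebra F N] {p : ℕ} (hp : p.Prime) (hp3 : p % 3 = 2)
    (h3 : finrank ℚ F = 3) (x : F) (hx : x ∉ (algebraMap ℚ F).range)
    (hx3 : x ^ 3 ∈ (algebraMap ℚ F).range) (hN : finrank ℚ N = 6) (hone : OnePrime p F)
    (hF : ¬ p ∣ Nat.card (ClassGroup (𝓞 F))) :
    ¬ p ∣ Nat.card (ClassGroup (𝓞 N)) ∧ OnePrime p N := by
  obtain ⟨r, hr⟩ := hx3
  have hirr := clos_irr h3 x hx r hr.symm
  set t : N := algebraMap F N x with ht
  have ht3 : t ^ 3 = algebraMap ℚ N r := by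
    rw [ht, ← map_pow, ← hr, ← IsScalarTower.algebraMap_apply ℚ F N]
  have htr : t ∉ (algebraMap ℚ N).range := by
    rintro ⟨q, hq⟩
    apply hx
    refine ⟨q, ?_⟩
    apply (algebraMap F N).injective
    rw [← ht, ← hq, ← IsScalarTower.algebraMap_apply ℚ F N]
  have ht0 : t ≠ 0 := by
    intro h
    exact htr ⟨0, by rw [map_zero, h]⟩
  -- a primitive cube root of unity
  obtain ⟨g0, hg0⟩ : ∃ g : Gal(N/ℚ), g t ≠ t := by
    by_contra hcon
    push Not at hcon
    apply htr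
    have h := (IsGalois.mem_bot_iff_fixed (F := ℚ) (E := N) t).2 hcon
    obtain ⟨y, hy⟩ := IntermediateField.mem_bot.1 h
    exact ⟨y, hy⟩
  set ω : N := g0 t / t with hωd
  have hω3 : ω ^ 3 = 1 := by
    rw [hωd, div_pow, ← map_pow, ht3, AlgEquiv.commutes, div_self]
    rw [← ht3]
    exact pow_ne_zero _ ht0
  have hω1 : ω ≠ 1 := by
    intro h
    rw [hωd, div_eq_one_iff_eq ht0] at h
    exact hg0 h
  have hω : IsPrimitiveRoot ω 3 := by
    have := Fact.mk Nat.prime_three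
    rw [IsPrimitiveRoot.iff_orderOf]
    exact orderOf_eq_prime hω3 hω1
  have hωi : ∀ i : ℕ, (ω ^ i * t) ^ 3 = algebraMap ℚ N r := by
    intro i
    rw [mul_pow, ← pow_mul, mul_comm i 3, pow_mul, hω3, one_pow, one_mul, ht3]
  have hmp : ∀ i : ℕ, minpoly ℚ (ω ^ i * t) = Polynomial.X ^ 3 - Polynomial.C r := fun i =>
    clos_minpoly r hirr _ (hωi i)
  have hfr3 : ∀ i : ℕ, finrank ℚ ℚ⟮ω ^ i * t⟯ = 3 := by
    intro i
    rw [IntermediateField.adjoin.finrank (Algebra.IsIntegral.isIntegral _), hmp,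
      Polynomial.natDegree_X_pow_sub_C]
  have hfr2 : finrank ℚ ℚ⟮ω⟯ = 2 := by
    rw [IntermediateField.adjoin.finrank (Algebra.IsIntegral.isIntegral _),
      ← Polynomial.cyclotomic_eq_minpoly_rat hω (by norm_num), Polynomial.natDegree_cyclotomic]
    decide
  -- `t` and `ω` generate
  have hgen : ∀ g : Gal(N/ℚ), g ω = ω → g t = t → g = 1 := by
    have hfr3' : finrank ℚ ℚ⟮t⟯ = 3 := by
      have := hfr3 0
      rwa [pow_zero, one_mul] at this
    have htop : ℚ⟮t⟯ ⊔ ℚ⟮ω⟯ = ⊤ := by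
      have d3 : 3 ∣ finrank ℚ ↥(ℚ⟮t⟯ ⊔ ℚ⟮ω⟯) := by
        rw [← hfr3']
        exact IntermediateField.finrank_dvd_of_le_right le_sup_left
      have d2 : 2 ∣ finrank ℚ ↥(ℚ⟮t⟯ ⊔ ℚ⟮ω⟯) := by
        rw [← hfr2]
        exact IntermediateField.finrank_dvd_of_le_right le_sup_right
      have d6 : 6 ∣ finrank ℚ ↥(ℚ⟮t⟯ ⊔ ℚ⟮ω⟯) :=
        Nat.Coprime.mul_dvd_of_dvd_of_dvd (by norm_num) d3 d2
      apply IntermediateField.eq_of_le_of_finrank_le le_top
      rw [IntermediateField.finrank_top', hN]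
      exact Nat.le_of_dvd finrank_pos d6
    intro g hg1 hg2
    have h1 : ℚ⟮t⟯ ⊔ ℚ⟮ω⟯ ≤ IntermediateField.fixedField (Subgroup.zpowers g) := by
      rw [sup_le_iff, IntermediateField.adjoin_simple_le_iff,
        IntermediateField.adjoin_simple_le_iff, IntermediateField.mem_fixedField_iff,
        IntermediateField.mem_fixedField_iff]
      constructor
      · intro f hf
        have h1 : g ∈ MulAction.stabilizer Gal(N/ℚ) t := hg2
        have h2 : Subgroup.zpowers g ≤ MulAction.stabilizer Gal(N/ℚ) t := by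
          rw [Subgroup.zpowers_le]; exact h1
        exact h2 hf
      · intro f hf
        have h1 : g ∈ MulAction.stabilizer Gal(N/ℚ) ω := hg1
        have h2 : Subgroup.zpowers g ≤ MulAction.stabilizer Gal(N/ℚ) ω := by
          rw [Subgroup.zpowers_le]; exact h1
        exact h2 hf
    rw [htop] at h1
    apply AlgEquiv.ext
    intro y
    have h2 := h1 (IntermediateField.mem_top (x := y))
    rw [IntermediateField.mem_fixedField_iff] at h2
    exact h2 g (Subgroup.mem_zpowers g)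
  -- class numbers of the cubic subfields
  have hcl : ∀ i : ℕ, ¬ p ∣ Nat.card (ClassGroup (𝓞 ℚ⟮ω ^ i * t⟯)) := by
    intro i
    have e1 : F ≃ₐ[ℚ] (IsScalarTower.toAlgHom ℚ F N).fieldRange :=
      AlgHom.equivFieldRange _
    have hle : ℚ⟮t⟯ = (IsScalarTower.toAlgHom ℚ F N).fieldRange := by
      have hle' : ℚ⟮t⟯ ≤ (IsScalarTower.toAlgHom ℚ F N).fieldRange := by
        rw [IntermediateField.adjoin_simple_le_iff]
        exact ⟨x, rfl⟩
      apply IntermediateField.eq_of_le_of_finrank_le hle'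
      rw [← LinearEquiv.finrank_eq e1.toLinearEquiv, h3]
      have := hfr3 0
      rw [pow_zero, one_mul] at this
      rw [this]
    have e2 : (IsScalarTower.toAlgHom ℚ F N).fieldRange ≃ₐ[ℚ] ℚ⟮t⟯ :=
      IntermediateField.equivOfEq hle.symm
    have e3 : ℚ⟮t⟯ ≃ₐ[ℚ] ℚ⟮ω ^ i * t⟯ :=
      minpoly.algEquiv (Algebra.IsAlgebraic.isAlgebraic _)
        (by rw [hmp i, clos_minpoly r hirr t ht3])
    exact (tw_equiv ((e1.trans e2).trans e3).toRingEquiv hone hF).1
  have hp3' : p ≠ 3 := by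
    rintro rfl
    omega
  exact ⟨clos_class hp hp3' t ω ht0 hω hN hgen hfr3 hfr2 hcl,
    clos_onePrime hp hp3 ω hω hN h3 hone⟩

end Pool.Agent.Work.Mu22
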