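import Pool.Agent.Work.MP_a4986b_nt.Defs

set_option autoImplicit false
set_option maxHeartbeats 400000

namespace Pool.Agent.Work.Mu22

open NumberField Module
open scoped Pointwise nonZeroDivisors

section

variable {K L : Type*} [Field K] [NumberField K] [Field L] [NumberField L] [Algebra K L]
  [IsGalois K L]

theorem clos_prod_prime (P : Ideal (𝓞 L)) [hP : P.IsPrime] (h0 : P ≠ ⊥) :
    ∏ g : Gal(L/K), g • P =
      (Ideal.relNorm (𝓞 K) P).map (algebraMap (𝓞 K) (𝓞 L)) := by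
  classical
  set p : Ideal (𝓞 K) := P.under (𝓞 K) with hp
  have hover : P.LiesOver p := ⟨rfl⟩
  have hmaxP : P.IsMaximal := hP.isMaximal h0
  have hmax : p.IsMaximal := Ideal.IsMaximal.under (𝓞 K) P
  have hp0 : p ≠ ⊥ := Ideal.IsIntegral.comap_ne_bot (𝓞 K) h0
  rw [Ideal.relNorm_eq_pow_of_isMaximal P p, Ideal.map_pow,
    Ideal.map_algebraMap_eq_finsetProd_pow hp0, ← Finset.prod_pow]
  have h1 : ∏ g : Gal(L/K), g • P =
      ∏ Q ∈ (p.primesOver (𝓞 L)).toFinset, ∏ g : Gal(L/K) with g • P = Q, g • P := by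
    symm
    apply Finset.prod_fiberwise_of_maps_to
    intro g _
    rw [Set.mem_toFinset, ← Algebra.IsInvariant.orbit_eq_primesOver (𝓞 K) (𝓞 L) Gal(L/K) p P]
    exact ⟨g, rfl⟩
  rw [h1]
  apply Finset.prod_congr rfl
  intro Q hQ
  rw [Set.mem_toFinset] at hQ
  have hQ1 : Q.IsPrime := hQ.1
  have hQ2 : Q.LiesOver p := hQ.2
  obtain ⟨g0, hg0⟩ := Ideal.exists_smul_eq_of_isGaloisGroup p P Q Gal(L/K)
  have h2 : ∏ g : Gal(L/K) with g • P = Q, g • P =
      Q ^ (Finset.univ.filter fun g : Gal(L/K) => g • P = Q).card := by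
    rw [← Finset.prod_const]
    apply Finset.prod_congr rfl
    intro g hg
    exact (Finset.mem_filter.1 hg).2
  have h3 : (Finset.univ.filter fun g : Gal(L/K) => g • P = Q).card =
      Nat.card (MulAction.stabilizer Gal(L/K) P) := by
    rw [Nat.card_eq_fintype_card, ← Finset.card_univ]
    symm
    refine Finset.card_bij (fun g _ => g0 * (g : Gal(L/K))) ?_ ?_ ?_
    · intro g _
      have : (g : Gal(L/K)) • P = P := g.2
      rw [Finset.mem_filter]
      exact ⟨Finset.mem_univ _, by rw [mul_smul, this, hg0]⟩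
    · intro a _ b _ h
      exact Subtype.ext (mul_left_cancel h)
    · intro b hb
      rw [Finset.mem_filter] at hb
      refine ⟨⟨g0⁻¹ * b, ?_⟩, Finset.mem_univ _, by group⟩
      show (g0⁻¹ * b) • P = P
      rw [mul_smul, hb.2, ← hg0, inv_smul_smul]
  rw [h2, h3, Ideal.card_stabilizer_eq p P, Ideal.ramificationIdxIn_eq_ramificationIdx p Q Gal(L/K),
    Ideal.inertiaDegIn_eq_inertiaDeg p P Gal(L/K), pow_mul]

theorem clos_prod (I : Ideal (𝓞 L)) (hI : I ≠ ⊥) :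
    ∏ g : Gal(L/K), g • I =
      (Ideal.relNorm (𝓞 K) I).map (algebraMap (𝓞 K) (𝓞 L)) := by
  classical
  induction I using UniqueFactorizationMonoid.induction_on_prime with
  | h₁ => exact absurd rfl hI
  | h₂ x hx =>
    rw [Ideal.isUnit_iff] at hx
    subst hx
    have h1 : ∀ g : Gal(L/K), g • (⊤ : Ideal (𝓞 L)) = ⊤ := fun g => by
      rw [← Ideal.one_eq_top, smul_one]
    simp [h1, Ideal.relNorm_top, Ideal.map_top]
  | h₃ a P ha hP ih =>
    have hP0 : P ≠ ⊥ := hP.ne_zero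
    have hPp : P.IsPrime := Ideal.isPrime_of_prime hP
    simp only [smul_mul', Finset.prod_mul_distrib, map_mul, Ideal.map_mul]
    rw [clos_prod_prime P hP0, ih ha]

end


section

variable {K L : Type*} [Field K] [NumberField K] [Field L] [NumberField L] [Algebra K L]
  [IsGalois K L] {p : ℕ}

theorem clos_principal (hp : p.Prime) (hK : ¬ p ∣ Nat.card (ClassGroup (𝓞 K)))
    (I : Ideal (𝓞 L)) (hI : I ≠ ⊥) (hIp : (I ^ p).IsPrincipal) :
    (∏ g : Gal(L/K), g • I).IsPrincipal := by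
  rw [clos_prod I hI]
  have h1 : ((Ideal.relNorm (𝓞 K) I) ^ p).IsPrincipal := by
    rw [← map_pow]
    obtain ⟨x, hx⟩ := hIp.principal
    rw [hx, Ideal.submodule_span_eq, Ideal.relNorm_singleton]
    exact ⟨⟨_, rfl⟩⟩
  have h2 : (Ideal.relNorm (𝓞 K) I).IsPrincipal := by
    refine Ideal.IsPrincipal.of_isPrincipal_pow_of_coprime ?_ h1
    rw [← Nat.card_eq_fintype_card]
    exact (hp.coprime_iff_not_dvd).2 hK
  obtain ⟨x, hx⟩ := h2.principal
  rw [hx, Ideal.submodule_span_eq, Ideal.map_span, Set.image_singleton]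
  exact ⟨⟨_, rfl⟩⟩

end

section

variable {N : Type*} [Field N] [NumberField N] [IsGalois ℚ N] {p : ℕ}

theorem clos_fixing (hp : p.Prime) (E : IntermediateField ℚ N)
    (hE : ¬ p ∣ Nat.card (ClassGroup (𝓞 E)))
    (I : Ideal (𝓞 N)) (hI : I ≠ ⊥) (hIp : (I ^ p).IsPrincipal) (S : Finset Gal(N/ℚ))
    (hS : ∀ g, g ∈ S ↔ g ∈ E.fixingSubgroup) :
    (∏ g ∈ S, g • I).IsPrincipal := by
  have h1 := clos_principal (K := E) (L := N) hp hE I hI hIp
  have h2 : ∏ g ∈ S, g • I = ∏ g : Gal(N/E), g • I := by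
    refine Finset.prod_bij' (fun g hg => IntermediateField.fixingSubgroupEquiv E ⟨g, (hS g).1 hg⟩)
      (fun g _ => ((IntermediateField.fixingSubgroupEquiv E).symm g : Gal(N/ℚ))) ?_ ?_ ?_ ?_ ?_
    · intro g _; exact Finset.mem_univ _
    · intro g _; exact (hS _).2 (((IntermediateField.fixingSubgroupEquiv E).symm g).2)
    · intro g hg; simp
    · intro g hg; simp
    · intro g hg
      rfl
  rw [h2]
  exact h1

end

theorem clos_k {N : Type*} [Field N] [NumberField N] {p : ℕ} (hp : p.Prime) (ω : N)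
    (hω : IsPrimitiveRoot ω 3) :
    ¬ p ∣ Nat.card (ClassGroup (𝓞 (IntermediateField.adjoin ℚ {ω}))) := by
  have h0 := hω.intermediateField_adjoin_isCyclotomicExtension ℚ
  have h1 : @IsCyclotomicExtension {3} ℚ (IntermediateField.adjoin ℚ {ω}) _ _
      DivisionRing.toRatAlgebra := by
    have e : (DivisionRing.toRatAlgebra : Algebra ℚ (IntermediateField.adjoin ℚ {ω})) =
      (IntermediateField.adjoin ℚ {ω}).algebra' := Subsingleton.elim _ _
    rw [e]
    exact h0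
  have h2 : IsPrincipalIdealRing (𝓞 (IntermediateField.adjoin ℚ {ω})) :=
    IsCyclotomicExtension.Rat.three_pid (IntermediateField.adjoin ℚ {ω})
  have h3 : NumberField.classNumber (IntermediateField.adjoin ℚ {ω}) = 1 :=
    NumberField.classNumber_eq_one_iff.2 h2
  rw [NumberField.classNumber, ← Nat.card_eq_fintype_card] at h3
  rw [h3, Nat.dvd_one]
  exact hp.ne_one


section

theorem clos_comb {G C : Type*} [Fintype G] [DecidableEq G] [One G] [CommGroup C] (f : G → C)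
    (A T0 T1 T2 : Finset G) (hG : Fintype.card G = 6) (hA : A.card = 3)
    (h0 : T0.card = 2) (h1 : T1.card = 2) (h2 : T2.card = 2)
    (h10 : (1 : G) ∈ T0) (h11 : (1 : G) ∈ T1) (h12 : (1 : G) ∈ T2)
    (hA0 : ∀ g ∈ A, g ∈ T0 → g = 1) (hA1 : ∀ g ∈ A, g ∈ T1 → g = 1)
    (hA2 : ∀ g ∈ A, g ∈ T2 → g = 1) (h01 : ∀ g ∈ T0, g ∈ T1 → g = 1)
    (h02 : ∀ g ∈ T0, g ∈ T2 → g = 1) (h12' : ∀ g ∈ T1, g ∈ T2 → g = 1)
    (p0 : ∏ g ∈ T0, f g = 1) (p1 : ∏ g ∈ T1, f g = 1) (p2 : ∏ g ∈ T2, f g = 1)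
    (pA : ∏ g ∈ A, f g = 1) (pG : ∏ g, f g = 1) : f 1 ^ 3 = 1 := by
  have key : ∀ T : Finset G, T.card = 2 → (1 : G) ∈ T → ∃ τ, τ ≠ 1 ∧ T = {1, τ} := by
    intro T hT h1T
    obtain ⟨a, b, hab, rfl⟩ := Finset.card_eq_two.1 hT
    rw [Finset.mem_insert, Finset.mem_singleton] at h1T
    rcases h1T with rfl | rfl
    · exact ⟨b, hab.symm, rfl⟩
    · exact ⟨a, hab, Finset.pair_comm _ _⟩
  obtain ⟨a, ha, rfl⟩ := key T0 h0 h10
  obtain ⟨b, hb, rfl⟩ := key T1 h1 h11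
  obtain ⟨c, hc, rfl⟩ := key T2 h2 h12
  have ea : a ∉ A := fun h => ha (hA0 a h (by simp))
  have eb : b ∉ A := fun h => hb (hA1 b h (by simp))
  have ec : c ∉ A := fun h => hc (hA2 c h (by simp))
  have eab : a ≠ b := fun h => ha (h01 a (by simp) (by simp [h]))
  have eac : a ≠ c := fun h => ha (h02 a (by simp) (by simp [h]))
  have ebc : b ≠ c := fun h => hb (h12' b (by simp) (by simp [h]))
  rw [Finset.prod_pair ha.symm] at p0
  rw [Finset.prod_pair hb.symm] at p1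
  rw [Finset.prod_pair hc.symm] at p2
  have hu : (Finset.univ : Finset G) = insert a (insert b (insert c A)) := by
    symm
    apply Finset.eq_univ_of_card
    rw [Finset.card_insert_of_notMem, Finset.card_insert_of_notMem, Finset.card_insert_of_notMem ec,
      hA, hG]
    · simp [ebc, eb]
    · simp [eab, eac, ea]
  rw [hu, Finset.prod_insert, Finset.prod_insert, Finset.prod_insert ec, pA, mul_one] at pG
  · have e0 : f a = (f 1)⁻¹ := eq_inv_of_mul_eq_one_right p0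
    have e1 : f b = (f 1)⁻¹ := eq_inv_of_mul_eq_one_right p1
    have e2 : f c = (f 1)⁻¹ := eq_inv_of_mul_eq_one_right p2
    rw [e0, e1, e2] at pG
    rw [pow_succ, pow_two, ← inv_inj, mul_inv, mul_inv, inv_one, mul_assoc]
    exact pG
  · simp [ebc, eb]
  · simp [eab, eac, ea]

variable {N : Type*} [Field N] [NumberField N] [IsGalois ℚ N] {p : ℕ}

theorem clos_class (hp : p.Prime) (hp3 : p ≠ 3) (t ω : N) (ht : t ≠ 0)
    (hω : IsPrimitiveRoot ω 3)
    (hN : finrank ℚ N = 6) (hgen : ∀ g : Gal(N/ℚ), g ω = ω → g t = t → g = 1)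
    (h3 : ∀ i : ℕ, finrank ℚ (IntermediateField.adjoin ℚ {ω ^ i * t}) = 3)
    (h2 : finrank ℚ (IntermediateField.adjoin ℚ {ω}) = 2)
    (hF : ∀ i : ℕ, ¬ p ∣ Nat.card (ClassGroup (𝓞 (IntermediateField.adjoin ℚ {ω ^ i * t})))) :
    ¬ p ∣ Nat.card (ClassGroup (𝓞 N)) := by
  classical
  intro hdvd
  have := Fact.mk hp
  obtain ⟨c, hc⟩ := exists_prime_orderOf_dvd_card' p hdvd
  obtain ⟨⟨I, hI⟩, rfl⟩ := ClassGroup.mk0_surjective c
  have hI0 : I ≠ ⊥ := nonZeroDivisors.ne_zero hI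
  have hIp : (I ^ p).IsPrincipal := by
    rw [← ClassGroup.mk0_eq_one_iff (pow_mem hI p)]
    have h1 : (ClassGroup.mk0 ⟨I, hI⟩) ^ p = 1 := by rw [← hc]; exact pow_orderOf_eq_one _
    rwa [← map_pow] at h1
  have hg0 : ∀ g : Gal(N/ℚ), g • I ∈ (Ideal (𝓞 N))⁰ := fun g => by
    rw [mem_nonZeroDivisors_iff_ne_zero]
    intro h
    apply hI0
    have h4 : g⁻¹ • (g • I) = g⁻¹ • (⊥ : Ideal (𝓞 N)) := by
      rw [h]; rfl
    rw [inv_smul_smul] at h4
    rw [h4]
    exact smul_zero _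
  set f : Gal(N/ℚ) → ClassGroup (𝓞 N) := fun g => ClassGroup.mk0 ⟨g • I, hg0 g⟩ with hf
  have hprod : ∀ S : Finset Gal(N/ℚ), (∏ g ∈ S, g • I).IsPrincipal → ∏ g ∈ S, f g = 1 := by
    intro S hS
    have h5 : ∏ g ∈ S, f g = ClassGroup.mk0 (∏ g ∈ S, ⟨g • I, hg0 g⟩) := (map_prod _ _ _).symm
    rw [h5]
    have h6 : (∏ g ∈ S, (⟨g • I, hg0 g⟩ : (Ideal (𝓞 N))⁰)) =
        ⟨∏ g ∈ S, g • I, by
          rw [mem_nonZeroDivisors_iff_ne_zero, Finset.prod_ne_zero_iff]
          exact fun g _ => nonZeroDivisors.ne_zero (hg0 g)⟩ := by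
      apply Subtype.ext
      rw [SubmonoidClass.coe_finsetProd]
    rw [h6, ClassGroup.mk0_eq_one_iff]
    exact hS
  have hmem : ∀ (x : N) (g : Gal(N/ℚ)),
      g ∈ (IntermediateField.adjoin ℚ {x}).fixingSubgroup ↔ g x = x := by
    intro x g
    constructor
    · intro h
      exact (IntermediateField.mem_fixingSubgroup_iff _ _).1 h x
        (IntermediateField.mem_adjoin_simple_self ℚ x)
    · intro h
      rw [← Subgroup.zpowers_le, ← IntermediateField.le_iff_le, IntermediateField.adjoin_simple_le_iff,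
        IntermediateField.mem_fixedField_iff]
      intro f hf
      have h1 : g ∈ MulAction.stabilizer Gal(N/ℚ) x := h
      have h2 : Subgroup.zpowers g ≤ MulAction.stabilizer Gal(N/ℚ) x := by
        rw [Subgroup.zpowers_le]; exact h1
      exact h2 hf
  have hcard : ∀ (x : N) (S : Finset Gal(N/ℚ)) (_ : ∀ g, g ∈ S ↔ g x = x),
      finrank ℚ (IntermediateField.adjoin ℚ {x}) * S.card = 6 := by
    intro x S hS
    have h1 : S.card = Nat.card (IntermediateField.adjoin ℚ {x}).fixingSubgroup := by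
      rw [← Nat.card_eq_finsetCard]
      exact Nat.card_congr (Equiv.subtypeEquivRight fun g => (hS g).trans (hmem x g).symm)
    rw [h1, IsGalois.card_fixingSubgroup_eq_finrank, finrank_mul_finrank, hN]
  have hcop : Nat.Coprime p 3 := (Nat.coprime_primes hp Nat.prime_three).2 hp3
  have hT : ∀ (x : N), ∀ g : Gal(N/ℚ), g ∈ (Finset.univ.filter fun g : Gal(N/ℚ) => g x = x) ↔
      g x = x := fun x g => by simp
  have hpr : ∀ x : N, ¬ p ∣ Nat.card (ClassGroup (𝓞 (IntermediateField.adjoin ℚ {x}))) →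
      ∏ g ∈ (Finset.univ.filter fun g : Gal(N/ℚ) => g x = x), f g = 1 := by
    intro x hx
    apply hprod
    exact clos_fixing hp _ hx I hI0 hIp _ fun g => (hT x g).trans (hmem x g).symm
  have hk : ¬ p ∣ Nat.card (ClassGroup (𝓞 (IntermediateField.adjoin ℚ {ω}))) := clos_k hp ω hω
  have hQ : ¬ p ∣ Nat.card (ClassGroup (𝓞 ℚ)) := by
    have h := Rat.classNumber_eq
    rw [NumberField.classNumber] at h
    rw [Nat.card_eq_fintype_card, h, Nat.dvd_one]
    exact hp.ne_one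
  have hω0 : ω ≠ 0 := hω.ne_zero (by norm_num)
  have hT0 : ∀ i : ℕ, (Finset.univ.filter fun g : Gal(N/ℚ) => g (ω ^ i * t) = ω ^ i * t).card = 2 := by
    intro i
    have h := hcard (ω ^ i * t) _ (hT _)
    rw [h3 i] at h
    omega
  have hA : (Finset.univ.filter fun g : Gal(N/ℚ) => g ω = ω).card = 3 := by
    have h := hcard ω _ (hT _)
    rw [h2] at h
    omega
  have hωt : ∀ (i : ℕ) (g : Gal(N/ℚ)), g ω = ω → g (ω ^ i * t) = ω ^ i * t → g = 1 := by
    intro i g hg1 hg2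
    refine hgen g hg1 ?_
    rw [map_mul, map_pow, hg1] at hg2
    exact mul_left_cancel₀ (pow_ne_zero i hω0) hg2
  have hij : ∀ (i : ℕ) (g : Gal(N/ℚ)), g (ω ^ i * t) = ω ^ i * t →
      g (ω ^ (i + 1) * t) = ω ^ (i + 1) * t → g ω = ω := by
    intro i g h4 h5
    have h6 : ω ^ (i + 1) * t = ω * (ω ^ i * t) := by ring
    rw [h6, map_mul, h4] at h5
    exact mul_right_cancel₀ (mul_ne_zero (pow_ne_zero i hω0) ht) h5
  have hω3 : ω ^ 3 = 1 := hω.pow_eq_one
  have h20 : ∀ g : Gal(N/ℚ), g (ω ^ 0 * t) = ω ^ 0 * t → g (ω ^ 2 * t) = ω ^ 2 * t → g = 1 := by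
    intro g h4 h5
    have h6 : ω ^ 0 * t = ω * (ω ^ 2 * t) := by
      rw [pow_zero, ← mul_assoc, ← pow_succ', hω3]
    have h7 : g ω = ω := by
      rw [h6, map_mul, h5] at h4
      exact mul_right_cancel₀ (mul_ne_zero (pow_ne_zero 2 hω0) ht) h4
    exact hωt 0 g h7 (by rw [h6, map_mul, h5, h7])
  have h31 : f 1 ^ 3 = 1 := by
    refine clos_comb f (Finset.univ.filter fun g : Gal(N/ℚ) => g ω = ω)
      (Finset.univ.filter fun g : Gal(N/ℚ) => g (ω ^ 0 * t) = ω ^ 0 * t)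
      (Finset.univ.filter fun g : Gal(N/ℚ) => g (ω ^ 1 * t) = ω ^ 1 * t)
      (Finset.univ.filter fun g : Gal(N/ℚ) => g (ω ^ 2 * t) = ω ^ 2 * t)
      ?_ hA (hT0 0) (hT0 1) (hT0 2) ?_ ?_ ?_ ?_ ?_ ?_ ?_ ?_ ?_
      (hpr _ (hF 0)) (hpr _ (hF 1)) (hpr _ (hF 2)) (hpr _ hk) ?_
    · rw [← Nat.card_eq_fintype_card, IsGalois.card_aut_eq_finrank, hN]
    · simp
    · simp
    · simp
    · intro g h4 h5
      exact hωt 0 g ((hT _ _).1 h4) ((hT _ _).1 h5)
    · intro g h4 h5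
      exact hωt 1 g ((hT _ _).1 h4) ((hT _ _).1 h5)
    · intro g h4 h5
      exact hωt 2 g ((hT _ _).1 h4) ((hT _ _).1 h5)
    · intro g h4 h5
      exact hωt 0 g (hij 0 g ((hT _ _).1 h4) ((hT _ _).1 h5)) ((hT _ _).1 h4)
    · intro g h4 h5
      exact h20 g ((hT _ _).1 h4) ((hT _ _).1 h5)
    · intro g h4 h5
      exact hωt 1 g (hij 1 g ((hT _ _).1 h4) ((hT _ _).1 h5)) ((hT _ _).1 h4)
    · exact hprod _ (clos_principal hp hQ I hI0 hIp)
  have h7 : f 1 = ClassGroup.mk0 ⟨I, hI⟩ := by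
    rw [hf]
    simp
  rw [h7] at h31
  have h8 := orderOf_dvd_of_pow_eq_one h31
  rw [hc] at h8
  have := (Nat.prime_dvd_prime_iff_eq hp Nat.prime_three).1 h8
  exact hp3 this

end

end Pool.Agent.Work.Mu22
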