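import Pool.Agent.Work.MP_a4986b_nt.Final3
import Pool.Agent.Work.MP_a4986b_nt.Clos

set_option autoImplicit false
set_option maxHeartbeats 400000

/-! # The Galois closure of a pure cubic field inside `ℂ` (helper52) -/

namespace Pool.Agent.Work.Mu22

open NumberField Module IntermediateField
open scoped Pointwise nonZeroDivisors

theorem cc_root {z w y : ℂ} (hw : w ^ 2 + w + 1 = 0) (h : y ^ 3 = z ^ 3) :
    y = z ∨ y = w * z ∨ y = w ^ 2 * z := by
  have h1 : (y - z) * ((y - w * z) * (y - w ^ 2 * z)) = 0 := by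
    have hw3 : w ^ 3 = 1 := by linear_combination (w - 1) * hw
    have : (y - z) * ((y - w * z) * (y - w ^ 2 * z)) =
      (y ^ 3 - z ^ 3) - (w ^ 2 + w + 1) * (y ^ 2 * z - y * z ^ 2) + (1 - w ^ 3) * (z ^ 3 - y * z ^ 2) := by
      ring
    rw [this, h, hw, hw3]
    ring
  rcases mul_eq_zero.1 h1 with h2 | h2
  · exact Or.inl (sub_eq_zero.1 h2)
  · rcases mul_eq_zero.1 h2 with h3 | h3
    · exact Or.inr (Or.inl (sub_eq_zero.1 h3))
    · exact Or.inr (Or.inr (sub_eq_zero.1 h3))

theorem cc_cast {N : Type*} [Field N] [CharZero N] (i1 i2 : Algebra ℚ N) (h : @IsGalois ℚ _ N _ i1) :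
    @IsGalois ℚ _ N _ i2 := by
  have : i1 = i2 := Subsingleton.elim _ _
  rwa [← this]

theorem cc_galois {r : ℚ} (hr0 : r ≠ 0) (z w : ℂ) (hz : z ^ 3 = algebraMap ℚ ℂ r)
    (hw : w ^ 2 + w + 1 = 0) :
    FiniteDimensional ℚ (IntermediateField.adjoin ℚ {z, w}) ∧
    IsGalois ℚ (IntermediateField.adjoin ℚ {z, w}) := by
  set f : Polynomial ℚ := Polynomial.X ^ 3 - Polynomial.C r with hf
  have hz0 : z ≠ 0 := by
    rintro rfl
    apply hr0
    have h1 : algebraMap ℚ ℂ r = 0 := by rw [← hz]; norm_num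
    exact (map_eq_zero_iff _ (algebraMap ℚ ℂ).injective).1 h1
  have hsep : f.Separable := Polynomial.separable_X_pow_sub_C _ (by norm_num) hr0
  have hf0 : f ≠ 0 := (Polynomial.monic_X_pow_sub_C _ three_ne_zero).ne_zero
  have hmem : ∀ y : ℂ, y ∈ f.rootSet ℂ ↔ y ^ 3 = z ^ 3 := by
    intro y
    rw [Polynomial.mem_rootSet, hz]
    constructor
    · rintro ⟨_, h⟩
      have h1 : y ^ 3 - algebraMap ℚ ℂ r = 0 := by
        rw [hf, map_sub, map_pow, Polynomial.aeval_X, Polynomial.aeval_C] at h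
        exact h
      exact sub_eq_zero.1 h1
    · intro h
      refine ⟨hf0, ?_⟩
      rw [hf, map_sub, map_pow, Polynomial.aeval_X, Polynomial.aeval_C, h, sub_self]
  have hspl : f.IsSplittingField ℚ (IntermediateField.adjoin ℚ (f.rootSet ℂ)) :=
    IntermediateField.adjoin_rootSet_isSplittingField (IsAlgClosed.splits _)
  have heq : IntermediateField.adjoin ℚ (f.rootSet ℂ) = IntermediateField.adjoin ℚ {z, w} := by
    have hzm : z ∈ IntermediateField.adjoin ℚ {z, w} :=
      IntermediateField.subset_adjoin _ _ (by simp)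
    have hwm : w ∈ IntermediateField.adjoin ℚ {z, w} :=
      IntermediateField.subset_adjoin _ _ (by simp)
    apply le_antisymm
    · rw [IntermediateField.adjoin_le_iff]
      intro y hy
      rcases cc_root hw ((hmem y).1 hy) with rfl | rfl | rfl
      · exact hzm
      · exact mul_mem hwm hzm
      · exact mul_mem (pow_mem hwm 2) hzm
    · rw [IntermediateField.adjoin_le_iff]
      have h1 : z ∈ IntermediateField.adjoin ℚ (f.rootSet ℂ) :=
        IntermediateField.subset_adjoin _ _ ((hmem z).2 rfl)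
      have hw3 : w ^ 3 = 1 := by linear_combination (w - 1) * hw
      have h2 : w * z ∈ IntermediateField.adjoin ℚ (f.rootSet ℂ) :=
        IntermediateField.subset_adjoin _ _ ((hmem _).2 (by rw [mul_pow, hw3, one_mul]))
      rintro y (rfl | rfl)
      · exact h1
      · have h3 : y = (y * z) / z := by field_simp
        rw [h3]
        exact div_mem h2 h1
  have hfin := Polynomial.IsSplittingField.finiteDimensional
    (IntermediateField.adjoin ℚ (f.rootSet ℂ)) f
  have hgal : IsGalois ℚ (IntermediateField.adjoin ℚ (f.rootSet ℂ)) :=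
    IsGalois.of_separable_splitting_field (p := f) hsep
  rw [heq] at hfin hgal
  exact ⟨hfin, hgal⟩

theorem cc_prim {w : ℂ} (hw : w ^ 2 + w + 1 = 0) : IsPrimitiveRoot w 3 := by
  have := Fact.mk Nat.prime_three
  rw [IsPrimitiveRoot.iff_orderOf]
  refine orderOf_eq_prime (by linear_combination (w - 1) * hw) ?_
  rintro rfl
  norm_num at hw

theorem cc_two {w : ℂ} (hw : w ^ 2 + w + 1 = 0) : finrank ℚ ℚ⟮w⟯ = 2 := by
  have hwp := cc_prim hw
  rw [IntermediateField.adjoin.finrank (hwp.isIntegral (by norm_num)).tower_top,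
    ← Polynomial.cyclotomic_eq_minpoly_rat hwp (by norm_num), Polynomial.natDegree_cyclotomic]
  decide

theorem cc_six {z w : ℂ} (h3 : finrank ℚ ℚ⟮z⟯ = 3) (hw : w ^ 2 + w + 1 = 0)
    (hfin : FiniteDimensional ℚ (IntermediateField.adjoin ℚ {z, w})) :
    finrank ℚ (IntermediateField.adjoin ℚ {z, w}) = 6 := by
  set N : IntermediateField ℚ ℂ := IntermediateField.adjoin ℚ {z, w} with hN
  have hle : ℚ⟮z⟯ ≤ N := by
    rw [IntermediateField.adjoin_simple_le_iff]
    exact IntermediateField.subset_adjoin _ _ (by simp)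
  have hle2 : ℚ⟮w⟯ ≤ N := by
    rw [IntermediateField.adjoin_simple_le_iff]
    exact IntermediateField.subset_adjoin _ _ (by simp)
  have hw2 := cc_two hw
  have hsup : N = ℚ⟮z⟯ ⊔ ℚ⟮w⟯ := by
    rw [hN, ← IntermediateField.adjoin_union]
    rfl
  have d3 : 3 ∣ finrank ℚ N := by
    rw [← h3]; exact IntermediateField.finrank_dvd_of_le_right hle
  have d2 : 2 ∣ finrank ℚ N := by
    rw [← hw2]; exact IntermediateField.finrank_dvd_of_le_right hle2
  have d6 : 6 ∣ finrank ℚ N := Nat.Coprime.mul_dvd_of_dvd_of_dvd (by norm_num) d3 d2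
  have hle6 : finrank ℚ N ≤ 6 := by
    rw [hsup]
    refine (IntermediateField.finrank_sup_le _ _).trans ?_
    rw [h3, hw2]
  have hpos : 0 < finrank ℚ N := finrank_pos
  have := Nat.le_of_dvd hpos d6
  omega

end Pool.Agent.Work.Mu22
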