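import Pool.Agent.Work.MP_a4986b_nt.ClosA

set_option autoImplicit false
set_option maxHeartbeats 400000

/-! # The `p`-part of the class group in an extension with group of order 6 (helper52) -/

namespace Pool.Agent.Work.Mu22

open NumberField Module
open scoped Pointwise nonZeroDivisors

section

variable {N : Type*} [Field N] [NumberField N] [IsGalois ℚ N] {p : ℕ}

theorem cd_prod (E : IntermediateField ℚ N) (I : Ideal (𝓞 N)) (hI : I ≠ ⊥)
    (S : Finset Gal(N/ℚ)) (hS : ∀ g, g ∈ S ↔ g ∈ E.fixingSubgroup) :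
    ∏ g ∈ S, g • I = (Ideal.relNorm (𝓞 E) I).map (algebraMap (𝓞 E) (𝓞 N)) := by
  rw [← clos_prod I hI]
  refine Finset.prod_bij' (fun g hg => IntermediateField.fixingSubgroupEquiv E ⟨g, (hS g).1 hg⟩)
    (fun g _ => ((IntermediateField.fixingSubgroupEquiv E).symm g : Gal(N/ℚ))) ?_ ?_ ?_ ?_ ?_
  · intro g _; exact Finset.mem_univ _
  · intro g _; exact (hS _).2 (((IntermediateField.fixingSubgroupEquiv E).symm g).2)
  · intro g hg; simp
  · intro g hg; simp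
  · intro g hg
    rfl

theorem cd_principal (hp : p.Prime) (E : IntermediateField ℚ N)
    (hE : ¬ p ∣ Nat.card (ClassGroup (𝓞 E)))
    (I : Ideal (𝓞 N)) (hI : I ≠ ⊥) (a : ℕ) (hIp : (I ^ p ^ a).IsPrincipal) (S : Finset Gal(N/ℚ))
    (hS : ∀ g, g ∈ S ↔ g ∈ E.fixingSubgroup) :
    (∏ g ∈ S, g • I).IsPrincipal := by
  rw [cd_prod E I hI S hS]
  have h1 : ((Ideal.relNorm (𝓞 E) I) ^ p ^ a).IsPrincipal := by
    rw [← map_pow]
    obtain ⟨x, hx⟩ := hIp.principal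
    rw [hx, Ideal.submodule_span_eq, Ideal.relNorm_singleton]
    exact ⟨⟨_, rfl⟩⟩
  have h2 : (Ideal.relNorm (𝓞 E) I).IsPrincipal := by
    refine Ideal.IsPrincipal.of_isPrincipal_pow_of_coprime ?_ h1
    rw [← Nat.card_eq_fintype_card]
    exact Nat.Coprime.pow_left a ((hp.coprime_iff_not_dvd).2 hE)
  obtain ⟨x, hx⟩ := h2.principal
  rw [hx, Ideal.submodule_span_eq, Ideal.map_span, Set.image_singleton]
  exact ⟨⟨_, rfl⟩⟩

end

theorem cd_padic {H1 H2 : Type*} [CommGroup H1] [Finite H1] [CommGroup H2] [Finite H2] {p : ℕ}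
    (hp : p.Prime) (hp3 : p ≠ 3) (j : H1 →* H2) (hker : ∀ x, j x = 1 → x ^ 3 = 1)
    (hsurj : ∀ (c : H2) (a : ℕ), c ^ p ^ a = 1 → c ^ 3 ∈ j.range) :
    padicValNat p (Nat.card H2) = padicValNat p (Nat.card H1) := by
  have hfp := Fact.mk hp
  have hcop : ¬ p ∣ 3 := fun h => hp3 ((Nat.prime_dvd_prime_iff_eq hp Nat.prime_three).1 h)
  have h1 : ¬ p ∣ Nat.card j.ker := by
    intro h
    obtain ⟨x, hx⟩ := exists_prime_orderOf_dvd_card' p h
    have h2 : x ^ 3 = 1 := Subtype.ext (hker x x.2)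
    have h3 := orderOf_dvd_of_pow_eq_one h2
    rw [hx] at h3
    exact hcop h3
  have h2 : ¬ p ∣ j.range.index := by
    intro h
    rw [Subgroup.index] at h
    obtain ⟨y, hy⟩ := exists_prime_orderOf_dvd_card' p h
    obtain ⟨c, rfl⟩ := QuotientGroup.mk_surjective y
    obtain ⟨a, m, hm, hcard⟩ := Nat.exists_eq_pow_mul_and_not_dvd (n := Nat.card H2)
      Nat.card_pos.ne' p hp.ne_one
    have h3 : (c ^ m) ^ p ^ a = 1 := by
      rw [← pow_mul, mul_comm, ← hcard, pow_card_eq_one']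
    have h4 := hsurj _ a h3
    have h5 : (QuotientGroup.mk c : H2 ⧸ j.range) ^ (m * 3) = 1 := by
      rw [← QuotientGroup.mk_pow, QuotientGroup.eq_one_iff, pow_mul]
      exact h4
    have h6 := orderOf_dvd_of_pow_eq_one h5
    rw [hy] at h6
    rcases hp.dvd_mul.1 h6 with h7 | h7
    · exact hm h7
    · exact hcop h7
  have e1 : Nat.card H1 = Nat.card j.ker * Nat.card j.range := by
    rw [← Subgroup.card_mul_index j.ker, Subgroup.index_ker]
  have e2 : Nat.card H2 = Nat.card j.range * j.range.index := (Subgroup.card_mul_index _).symm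
  have hi : j.range.index ≠ 0 := Subgroup.FiniteIndex.index_ne_zero
  rw [e1, e2, padicValNat.mul Nat.card_pos.ne' hi, padicValNat.mul Nat.card_pos.ne' Nat.card_pos.ne',
    padicValNat.eq_zero_of_not_dvd h1, padicValNat.eq_zero_of_not_dvd h2, add_zero, zero_add]

theorem cd_comb {G C : Type*} [DecidableEq G] [One G] [CommGroup C] (f : G → C)
    (S A T0 T1 T2 : Finset G) (hS : S.card = 6) (hA : A.card = 3)
    (h0 : T0.card = 2) (h1 : T1.card = 2) (h2 : T2.card = 2)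
    (lA : A ⊆ S) (l0 : T0 ⊆ S) (l1 : T1 ⊆ S) (l2 : T2 ⊆ S)
    (h10 : (1 : G) ∈ T0) (h11 : (1 : G) ∈ T1) (h12 : (1 : G) ∈ T2)
    (hA0 : ∀ g ∈ A, g ∈ T0 → g = 1) (hA1 : ∀ g ∈ A, g ∈ T1 → g = 1)
    (hA2 : ∀ g ∈ A, g ∈ T2 → g = 1) (h01 : ∀ g ∈ T0, g ∈ T1 → g = 1)
    (h02 : ∀ g ∈ T0, g ∈ T2 → g = 1) (h12' : ∀ g ∈ T1, g ∈ T2 → g = 1)
    (p0 : ∏ g ∈ T0, f g = 1) (p1 : ∏ g ∈ T1, f g = 1) (p2 : ∏ g ∈ T2, f g = 1)
    (pS : ∏ g ∈ S, f g = 1) : f 1 ^ 3 = ∏ g ∈ A, f g := by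
  have key : ∀ T : Finset G, T.card = 2 → (1 : G) ∈ T → ∃ τ, τ ≠ 1 ∧ T = {1, τ} := by
    intro T hT h1T
    obtain ⟨a, b, hab, rfl⟩ := Finset.card_eq_two.1 hT
    rw [Finset.mem_insert, Finset.mem_singleton] at h1T
    rcases h1T with rfl | rfl
    · exact ⟨b, hab.symm, rfl⟩
    · exact ⟨a, hab, Finset.pair_comm _ _⟩
  obtain ⟨a, ha, rfl⟩ := key T0 h0 h10
  obtain ⟨b, hb, rfl⟩ := key T1 h1 h11
  obtain ⟨c, hc, rfl⟩ := key T2 h2 h12
  have ea : a ∉ A := fun h => ha (hA0 a h (by simp))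
  have eb : b ∉ A := fun h => hb (hA1 b h (by simp))
  have ec : c ∉ A := fun h => hc (hA2 c h (by simp))
  have eab : a ≠ b := fun h => ha (h01 a (by simp) (by simp [h]))
  have eac : a ≠ c := fun h => ha (h02 a (by simp) (by simp [h]))
  have ebc : b ≠ c := fun h => hb (h12' b (by simp) (by simp [h]))
  rw [Finset.prod_pair ha.symm] at p0
  rw [Finset.prod_pair hb.symm] at p1
  rw [Finset.prod_pair hc.symm] at p2
  have hcd : (insert a (insert b (insert c A))).card = 6 := by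
    rw [Finset.card_insert_of_notMem, Finset.card_insert_of_notMem, Finset.card_insert_of_notMem ec,
      hA]
    · simp [ebc, eb]
    · simp [eab, eac, ea]
  have hu : insert a (insert b (insert c A)) = S := by
    apply Finset.eq_of_subset_of_card_le
    · intro x hx
      simp only [Finset.mem_insert] at hx
      rcases hx with rfl | rfl | rfl | hx
      · exact l0 (by simp)
      · exact l1 (by simp)
      · exact l2 (by simp)
      · exact lA hx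
    · rw [hcd, hS]
  rw [← hu, Finset.prod_insert, Finset.prod_insert, Finset.prod_insert ec] at pS
  · have e0 : f a = (f 1)⁻¹ := eq_inv_of_mul_eq_one_right p0
    have e1 : f b = (f 1)⁻¹ := eq_inv_of_mul_eq_one_right p1
    have e2 : f c = (f 1)⁻¹ := eq_inv_of_mul_eq_one_right p2
    rw [e0, e1, e2] at pS
    have h5 : ∏ g ∈ A, f g = f 1 * (f 1 * (f 1 * ((f 1)⁻¹ * ((f 1)⁻¹ * ((f 1)⁻¹ * ∏ g ∈ A, f g))))) := by
      group
    rw [h5, pS, mul_one, pow_succ, pow_two, mul_assoc]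
  · simp [ebc, eb]
  · simp [eab, eac, ea]

variable {N : Type*} [Field N] [NumberField N] [IsGalois ℚ N] {p : ℕ}

theorem cd_main (hp : p.Prime) (hp3 : p ≠ 3) (E0 Y X0 X1 X2 : IntermediateField ℚ N)
    (hE0 : finrank E0 N = 6) (hY : finrank Y N = 3) (hX0 : finrank X0 N = 2)
    (hX1 : finrank X1 N = 2) (hX2 : finrank X2 N = 2)
    (lY : E0 ≤ Y) (l0 : E0 ≤ X0) (l1 : E0 ≤ X1) (l2 : E0 ≤ X2)
    (sY0 : Y ⊔ X0 = ⊤) (sY1 : Y ⊔ X1 = ⊤) (sY2 : Y ⊔ X2 = ⊤)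
    (s01 : X0 ⊔ X1 = ⊤) (s02 : X0 ⊔ X2 = ⊤) (s12 : X1 ⊔ X2 = ⊤)
    (cE : ¬ p ∣ Nat.card (ClassGroup (𝓞 E0))) (c0 : ¬ p ∣ Nat.card (ClassGroup (𝓞 X0)))
    (c1 : ¬ p ∣ Nat.card (ClassGroup (𝓞 X1))) (c2 : ¬ p ∣ Nat.card (ClassGroup (𝓞 X2))) :
    padicValNat p (Nat.card (ClassGroup (𝓞 N))) = padicValNat p (Nat.card (ClassGroup (𝓞 Y))) := by
  classical
  refine cd_padic hp hp3 (ClassGroup.extendedHom (𝓞 Y) (𝓞 N)) ?_ ?_
  · intro x hx
    obtain ⟨J, rfl⟩ := ClassGroup.mk0_surjective x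
    rw [ClassGroup.extendedHom_mk0, ClassGroup.mk0_eq_one_iff] at hx
    rw [← map_pow, ClassGroup.mk0_eq_one_iff]
    have h1 : Ideal.relNorm (𝓞 Y) ((J : Ideal (𝓞 Y)).map (algebraMap (𝓞 Y) (𝓞 N))) =
        (J : Ideal (𝓞 Y)) ^ 3 := by
      rw [Ideal.relNorm_algebraMap]
      congr 1
      rw [← hY]
      exact (IsFractionRing.finrank_eq (𝓞 Y) Y (𝓞 N) N).symm
    show ((J : Ideal (𝓞 Y)) ^ 3).IsPrincipal
    rw [← h1]
    obtain ⟨x, hx⟩ := hx.principal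
    have hx' : (J : Ideal (𝓞 Y)).map (algebraMap (𝓞 Y) (𝓞 N)) = Ideal.span {x} := hx
    rw [hx', Ideal.relNorm_singleton]
    exact ⟨⟨_, rfl⟩⟩
  · intro c a hca
    obtain ⟨⟨I, hI⟩, rfl⟩ := ClassGroup.mk0_surjective c
    have hI0 : I ≠ ⊥ := nonZeroDivisors.ne_zero hI
    have hIp : (I ^ p ^ a).IsPrincipal := by
      rw [← ClassGroup.mk0_eq_one_iff (pow_mem hI (p ^ a))]
      rwa [← map_pow] at hca
    have hg0 : ∀ g : Gal(N/ℚ), g • I ∈ (Ideal (𝓞 N))⁰ := fun g => by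
      rw [mem_nonZeroDivisors_iff_ne_zero]
      intro h
      apply hI0
      have h4 : g⁻¹ • (g • I) = g⁻¹ • (⊥ : Ideal (𝓞 N)) := by
        rw [h]; rfl
      rw [inv_smul_smul] at h4
      rw [h4]
      exact smul_zero _
    set f : Gal(N/ℚ) → ClassGroup (𝓞 N) := fun g => ClassGroup.mk0 ⟨g • I, hg0 g⟩ with hf
    have hprod0 : ∀ S : Finset Gal(N/ℚ), ∃ hS : ∏ g ∈ S, g • I ∈ (Ideal (𝓞 N))⁰,
        ∏ g ∈ S, f g = ClassGroup.mk0 ⟨∏ g ∈ S, g • I, hS⟩ := by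
      intro S
      have hS : ∏ g ∈ S, g • I ∈ (Ideal (𝓞 N))⁰ := by
        rw [mem_nonZeroDivisors_iff_ne_zero, Finset.prod_ne_zero_iff]
        exact fun g _ => nonZeroDivisors.ne_zero (hg0 g)
      refine ⟨hS, ?_⟩
      have h5 : ∏ g ∈ S, f g = ClassGroup.mk0 (∏ g ∈ S, ⟨g • I, hg0 g⟩) := (map_prod _ _ _).symm
      rw [h5]
      have h6 : (∏ g ∈ S, (⟨g • I, hg0 g⟩ : (Ideal (𝓞 N))⁰)) = ⟨∏ g ∈ S, g • I, hS⟩ := by
        apply Subtype.ext
        rw [SubmonoidClass.coe_finsetProd]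
      rw [h6]
    have hprod : ∀ S : Finset Gal(N/ℚ), (∏ g ∈ S, g • I).IsPrincipal → ∏ g ∈ S, f g = 1 := by
      intro S hS
      obtain ⟨h5, h6⟩ := hprod0 S
      rw [h6, ClassGroup.mk0_eq_one_iff]
      exact hS
    set Fx : IntermediateField ℚ N → Finset Gal(N/ℚ) :=
      fun X => Finset.univ.filter fun g => g ∈ X.fixingSubgroup with hFx
    have hT : ∀ (X : IntermediateField ℚ N) (g : Gal(N/ℚ)), g ∈ Fx X ↔ g ∈ X.fixingSubgroup :=
      fun X g => by simp [hFx]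
    have hcard : ∀ X : IntermediateField ℚ N, (Fx X).card = finrank X N := by
      intro X
      rw [← IsGalois.card_fixingSubgroup_eq_finrank, ← Nat.card_eq_finsetCard]
      exact Nat.card_congr (Equiv.subtypeEquivRight fun g => hT X g)
    have hpr : ∀ X : IntermediateField ℚ N, ¬ p ∣ Nat.card (ClassGroup (𝓞 X)) →
        ∏ g ∈ Fx X, f g = 1 := by
      intro X hX
      apply hprod
      exact cd_principal hp X hX I hI0 a hIp _ (hT X)
    have hsub : ∀ X Z : IntermediateField ℚ N, X ≤ Z → Fx Z ⊆ Fx X := by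
      intro X Z h g hg
      rw [hT] at hg ⊢
      exact IntermediateField.fixingSubgroup_antitone h hg
    have hone : ∀ X : IntermediateField ℚ N, (1 : Gal(N/ℚ)) ∈ Fx X := by
      intro X
      rw [hT]
      exact one_mem _
    have hsup : ∀ X Z : IntermediateField ℚ N, X ⊔ Z = ⊤ → ∀ g ∈ Fx X, g ∈ Fx Z → g = 1 := by
      intro X Z h g hg1 hg2
      rw [hT] at hg1 hg2
      have h1 : g ∈ (X ⊔ Z).fixingSubgroup := by
        rw [IntermediateField.fixingSubgroup_sup]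
        exact ⟨hg1, hg2⟩
      rw [h, IntermediateField.fixingSubgroup_top] at h1
      exact Subgroup.mem_bot.1 h1
    have h31 : f 1 ^ 3 = ∏ g ∈ Fx Y, f g := by
      refine cd_comb f (Fx E0) (Fx Y) (Fx X0) (Fx X1) (Fx X2) ?_ ?_ ?_ ?_ ?_
        (hsub _ _ lY) (hsub _ _ l0) (hsub _ _ l1) (hsub _ _ l2) (hone _) (hone _) (hone _)
        (hsup _ _ sY0) (hsup _ _ sY1) (hsup _ _ sY2) (hsup _ _ s01) (hsup _ _ s02) (hsup _ _ s12)
        (hpr _ c0) (hpr _ c1) (hpr _ c2) (hpr _ cE)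
      · rw [hcard, hE0]
      · rw [hcard, hY]
      · rw [hcard, hX0]
      · rw [hcard, hX1]
      · rw [hcard, hX2]
    have h7 : f 1 = ClassGroup.mk0 ⟨I, hI⟩ := by
      rw [hf]
      simp
    rw [← h7, h31]
    obtain ⟨h8, h9⟩ := hprod0 (Fx Y)
    rw [h9]
    have hJ : Ideal.relNorm (𝓞 Y) I ∈ (Ideal (𝓞 Y))⁰ := by
      rw [mem_nonZeroDivisors_iff_ne_zero]
      intro h
      exact hI0 (Ideal.relNorm_eq_bot_iff.1 h)
    refine ⟨ClassGroup.mk0 ⟨Ideal.relNorm (𝓞 Y) I, hJ⟩, ?_⟩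
    rw [ClassGroup.extendedHom_mk0]
    congr 1
    apply Subtype.ext
    exact (cd_prod Y I hI0 (Fx Y) (hT Y)).symm

end Pool.Agent.Work.Mu22
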