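import Pool.Agent.Work.MP_a4986b_nt.ClosC
import Pool.Agent.Work.MP_a4986b_nt.ClosD

set_option autoImplicit false
set_option maxHeartbeats 400000

/-! # The `p`-part of the class group of the layers over the Galois closure (helper52) -/

namespace Pool.Agent.Work.Mu22

open NumberField Module IntermediateField
open scoped Pointwise nonZeroDivisors

theorem cd_main' {N : Type*} [Field N] [NumberField N] [i : Algebra ℚ N] [IsGalois ℚ N] {p : ℕ}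
    (hp : p.Prime) (hp3 : p ≠ 3) (E0 Y X0 X1 X2 : IntermediateField ℚ N)
    (hE0 : finrank E0 N = 6) (hY : finrank Y N = 3) (hX0 : finrank X0 N = 2)
    (hX1 : finrank X1 N = 2) (hX2 : finrank X2 N = 2)
    (lY : E0 ≤ Y) (l0 : E0 ≤ X0) (l1 : E0 ≤ X1) (l2 : E0 ≤ X2)
    (sY0 : Y ⊔ X0 = ⊤) (sY1 : Y ⊔ X1 = ⊤) (sY2 : Y ⊔ X2 = ⊤)
    (s01 : X0 ⊔ X1 = ⊤) (s02 : X0 ⊔ X2 = ⊤) (s12 : X1 ⊔ X2 = ⊤)
    (cE : ¬ p ∣ Nat.card (ClassGroup (𝓞 E0))) (c0 : ¬ p ∣ Nat.card (ClassGroup (𝓞 X0)))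
    (c1 : ¬ p ∣ Nat.card (ClassGroup (𝓞 X1))) (c2 : ¬ p ∣ Nat.card (ClassGroup (𝓞 X2))) :
    padicValNat p (Nat.card (ClassGroup (𝓞 N))) =
      padicValNat p (Nat.card (ClassGroup (𝓞 Y))) := by
  obtain rfl : i = DivisionRing.toRatAlgebra := Subsingleton.elim _ _
  exact cd_main hp hp3 E0 Y X0 X1 X2 hE0 hY hX0 hX1 hX2 lY l0 l1 l2 sY0 sY1 sY2 s01 s02 s12
    cE c0 c1 c2

theorem ce_card {K L : Type*} [Field K] [Field L] (e : K ≃+* L) :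
    Nat.card (ClassGroup (𝓞 K)) = Nat.card (ClassGroup (𝓞 L)) :=
  Nat.card_congr (ClassGroup.mulEquiv (RingOfIntegers.mapRingEquiv e)).toEquiv

section

variable {X Z M : IntermediateField ℚ ℂ}

theorem ce_sup (hX : X ≤ M) (hZ : Z ≤ M) (h : X ⊔ Z = M) :
    IntermediateField.restrict hX ⊔ IntermediateField.restrict hZ = ⊤ := by
  apply IntermediateField.lift_injective
  rw [IntermediateField.lift_sup, IntermediateField.lift_restrict,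
    IntermediateField.lift_restrict, IntermediateField.lift_top, h]

theorem ce_le (hX : X ≤ M) (hZ : Z ≤ M) (h : X ≤ Z) :
    IntermediateField.restrict hX ≤ IntermediateField.restrict hZ := by
  intro x hx
  rw [IntermediateField.mem_restrict] at hx ⊢
  exact h hx

theorem ce_cardr (hX : X ≤ M) :
    Nat.card (ClassGroup (𝓞 (IntermediateField.restrict hX))) = Nat.card (ClassGroup (𝓞 X)) :=
  (ce_card (IntermediateField.restrictAlgEquiv hX).toRingEquiv).symm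

theorem ce_rank (hX : X ≤ M) (a b : ℕ) (hX' : finrank ℚ X = a) (hM : finrank ℚ M = b * a)
    (ha : 0 < a) : finrank (IntermediateField.restrict hX) M = b := by
  have h1 := finrank_mul_finrank ℚ (IntermediateField.restrict hX) M
  rw [← LinearEquiv.finrank_eq (IntermediateField.restrictAlgEquiv hX).toLinearEquiv, hX', hM,
    mul_comm] at h1
  exact Nat.eq_of_mul_eq_mul_right ha h1

end

theorem ce_main {p : ℕ} (hp : p.Prime) (hp3 : p ≠ 3) (M E0 Y X0 X1 X2 : IntermediateField ℚ ℂ)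
    [NumberField M] [IsGalois ℚ M] (d : ℕ) (hd : 0 < d)
    (hM : finrank ℚ M = 6 * d) (hE0 : finrank ℚ E0 = d) (hY : finrank ℚ Y = 2 * d)
    (hX0 : finrank ℚ X0 = 3 * d) (hX1 : finrank ℚ X1 = 3 * d) (hX2 : finrank ℚ X2 = 3 * d)
    (lY : E0 ≤ Y) (l0 : E0 ≤ X0) (l1 : E0 ≤ X1) (l2 : E0 ≤ X2)
    (sY0 : Y ⊔ X0 = M) (sY1 : Y ⊔ X1 = M) (sY2 : Y ⊔ X2 = M)
    (s01 : X0 ⊔ X1 = M) (s02 : X0 ⊔ X2 = M) (s12 : X1 ⊔ X2 = M)
    (cE : ¬ p ∣ Nat.card (ClassGroup (𝓞 E0))) (c0 : ¬ p ∣ Nat.card (ClassGroup (𝓞 X0)))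
    (c1 : ¬ p ∣ Nat.card (ClassGroup (𝓞 X1))) (c2 : ¬ p ∣ Nat.card (ClassGroup (𝓞 X2))) :
    padicValNat p (Nat.card (ClassGroup (𝓞 M))) =
      padicValNat p (Nat.card (ClassGroup (𝓞 Y))) := by
  have mY : Y ≤ M := by rw [← sY0]; exact le_sup_left
  have m0 : X0 ≤ M := by rw [← sY0]; exact le_sup_right
  have m1 : X1 ≤ M := by rw [← sY1]; exact le_sup_right
  have m2 : X2 ≤ M := by rw [← sY2]; exact le_sup_right
  have mE : E0 ≤ M := lY.trans mY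
  have hgal : @IsGalois ℚ _ M _ M.algebra' := cc_cast _ _ inferInstance
  rw [← ce_cardr mY]
  refine cd_main' hp hp3 (IntermediateField.restrict mE) (IntermediateField.restrict mY)
    (IntermediateField.restrict m0) (IntermediateField.restrict m1) (IntermediateField.restrict m2)
    (ce_rank mE d 6 hE0 hM hd) (ce_rank mY (2 * d) 3 hY (by omega) (by omega))
    (ce_rank m0 (3 * d) 2 hX0 (by omega) (by omega)) (ce_rank m1 (3 * d) 2 hX1 (by omega) (by omega))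
    (ce_rank m2 (3 * d) 2 hX2 (by omega) (by omega)) (ce_le _ _ lY) (ce_le _ _ l0) (ce_le _ _ l1)
    (ce_le _ _ l2) (ce_sup _ _ sY0) (ce_sup _ _ sY1) (ce_sup _ _ sY2) (ce_sup _ _ s01)
    (ce_sup _ _ s02) (ce_sup _ _ s12) ?_ ?_ ?_ ?_
  · rwa [ce_cardr]
  · rwa [ce_cardr]
  · rwa [ce_cardr]
  · rwa [ce_cardr]

theorem ce_rat {p : ℕ} (hp : p.Prime) :
    ¬ p ∣ Nat.card (ClassGroup (𝓞 ℚ)) ∧ OnePrime p ℚ := by
  constructor
  · have h := Rat.classNumber_eq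
    rw [NumberField.classNumber] at h
    rw [Nat.card_eq_fintype_card, h, Nat.dvd_one]
    exact hp.ne_one
  · intro P Q hP hQ hpP hpQ
    have key : ∀ R : Ideal (𝓞 ℚ), R.IsPrime → (p : 𝓞 ℚ) ∈ R →
        R.comap Rat.ringOfIntegersEquiv.symm = Ideal.span {(p : ℤ)} := by
      intro R hR hpR
      have hqp : (Ideal.span {(p : ℤ)}).IsPrime := by
        rw [Ideal.span_singleton_prime (by exact_mod_cast hp.ne_zero)]
        exact Nat.prime_iff_prime_int.1 hp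
      have hq0 : Ideal.span {(p : ℤ)} ≠ ⊥ := by
        rw [Ne, Ideal.span_singleton_eq_bot]
        exact_mod_cast hp.ne_zero
      have hmax : (Ideal.span {(p : ℤ)}).IsMaximal := hqp.isMaximal hq0
      symm
      apply hmax.eq_of_le (Ideal.comap_isPrime _ R).ne_top
      rw [Ideal.span_singleton_le_iff_mem, Ideal.mem_comap]
      simpa using hpR
    have h1 := (key P hP hpP).trans (key Q hQ hpQ).symm
    exact Ideal.comap_injective_of_surjective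
      (Rat.ringOfIntegersEquiv.symm : ℤ →+* 𝓞 ℚ) Rat.ringOfIntegersEquiv.symm.surjective h1


/-- the conjugates of a pure cubic field -/
theorem ce_conj {p : ℕ} (hp : p.Prime) (hp2 : p ≠ 2) (t y : ℂ) (r : ℚ)
    (ht3 : t ^ 3 = algebraMap ℚ ℂ r) (h3 : finrank ℚ ℚ⟮t⟯ = 3) [NumberField ℚ⟮t⟯]
    (hone : OnePrime p ℚ⟮t⟯) (hF : ¬ p ∣ Nat.card (ClassGroup (𝓞 ℚ⟮t⟯)))
    (hy : y ^ 3 = algebraMap ℚ ℂ r) (m : ℕ) (E : IntermediateField ℚ ℂ)
    (hE : E ≤ IntermediateField.adjoin ℚ {w : ℂ | w ^ (p ^ (m + 1)) = 1})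
    (hEd : finrank ℚ E = p ^ m) :
    finrank ℚ ℚ⟮y⟯ = 3 ∧ ¬ p ∣ Nat.card (ClassGroup (𝓞 ↥(ℚ⟮y⟯ ⊔ E))) := by
  have hfd : FiniteDimensional ℚ ℚ⟮t⟯ := FiniteDimensional.of_finrank_pos (by rw [h3]; norm_num)
  have hint : IsIntegral ℚ t := by
    refine ⟨Polynomial.X ^ 3 - Polynomial.C r,
      Polynomial.monic_X_pow_sub_C _ three_ne_zero, ?_⟩
    rw [Polynomial.eval₂_sub, Polynomial.eval₂_X_pow, Polynomial.eval₂_C, ht3, sub_self]
  have hmp : minpoly ℚ t = Polynomial.X ^ 3 - Polynomial.C r := by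
    rw [IntermediateField.adjoin.finrank hint] at h3
    symm
    refine (Polynomial.eq_of_monic_of_dvd_of_natDegree_le (minpoly.monic hint)
      (Polynomial.monic_X_pow_sub_C _ three_ne_zero) ?_ ?_)
    · apply minpoly.dvd
      rw [map_sub, map_pow, Polynomial.aeval_X, Polynomial.aeval_C, ht3, sub_self]
    · rw [Polynomial.natDegree_X_pow_sub_C, h3]
  have hirr : Irreducible (Polynomial.X ^ 3 - Polynomial.C r : Polynomial ℚ) := by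
    rw [← hmp]
    exact minpoly.irreducible hint
  have hmpy : minpoly ℚ y = Polynomial.X ^ 3 - Polynomial.C r := by
    refine (minpoly.eq_of_irreducible_of_monic hirr ?_
      (Polynomial.monic_X_pow_sub_C _ three_ne_zero)).symm
    rw [map_sub, map_pow, Polynomial.aeval_X, Polynomial.aeval_C, hy, sub_self]
  have e : ℚ⟮t⟯ ≃ₐ[ℚ] ℚ⟮y⟯ := minpoly.algEquiv hint.isAlgebraic (by rw [hmp, hmpy])
  have hy3 : finrank ℚ ℚ⟮y⟯ = 3 := by
    rw [← h3]; exact (LinearEquiv.finrank_eq e.toLinearEquiv).symm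
  have hyf : FiniteDimensional ℚ ℚ⟮y⟯ := FiniteDimensional.of_finrank_pos (by rw [hy3]; norm_num)
  have hyn : NumberField ℚ⟮y⟯ := ⟨⟩
  obtain ⟨h1, h2⟩ := tw_equiv e.toRingEquiv hone hF
  exact ⟨hy3, cyc_tower hp hp2 ℚ⟮y⟯ h2 h1 m (m + 1) E hE hEd⟩

theorem ce_bot {p : ℕ} (hp : p.Prime) (hp2 : p ≠ 2) (m : ℕ) (E : IntermediateField ℚ ℂ)
    (hE : E ≤ IntermediateField.adjoin ℚ {w : ℂ | w ^ (p ^ (m + 1)) = 1})
    (hEd : finrank ℚ E = p ^ m) : ¬ p ∣ Nat.card (ClassGroup (𝓞 E)) := by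
  have hnf : NumberField (⊥ : IntermediateField ℚ ℂ) := by
    have : FiniteDimensional ℚ (⊥ : IntermediateField ℚ ℂ) := inferInstance
    exact ⟨⟩
  obtain ⟨h1, h2⟩ := ce_rat hp
  obtain ⟨h3, h4⟩ := tw_equiv (IntermediateField.botEquiv ℚ ℂ).symm.toRingEquiv h2 h1
  have h5 := cyc_tower hp hp2 (⊥ : IntermediateField ℚ ℂ) h4 h3 m (m + 1) E hE hEd
  rwa [bot_sup_eq] at h5

theorem ce_galE {p : ℕ} (hp : p.Prime) (m : ℕ) (E : IntermediateField ℚ ℂ)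
    (hE : E ≤ IntermediateField.adjoin ℚ {w : ℂ | w ^ (p ^ (m + 1)) = 1}) : IsGalois ℚ E := by
  have hn0 : p ^ (m + 1) ≠ 0 := pow_ne_zero _ hp.ne_zero
  have hne : NeZero (p ^ (m + 1)) := ⟨hn0⟩
  obtain ⟨ζ, hζ⟩ : ∃ ζ : ℂ, IsPrimitiveRoot ζ (p ^ (m + 1)) :=
    ⟨_, Complex.isPrimitiveRoot_exp _ hn0⟩
  have hζint : IsIntegral ℚ ζ := (hζ.isIntegral (Nat.pos_of_ne_zero hn0)).tower_top
  refine cy_abel E (p ^ (m + 1)) ζ hζ hζint (hE.trans ?_)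
  rw [IntermediateField.adjoin_le_iff]
  intro z hz
  obtain ⟨i, -, rfl⟩ := hζ.eq_pow_of_pow_eq_one hz
  exact pow_mem (IntermediateField.mem_adjoin_simple_self ℚ ζ) i

theorem ce_galsup {k K : Type*} [Field k] [CharZero k] [Field K] [Algebra k K]
    (A B : IntermediateField k K) [hA : IsGalois k A] [hB : IsGalois k B] :
    IsGalois k ↥(A ⊔ B) := by
  have h1 : Normal k A := hA.to_normal
  have h2 : Normal k B := hB.to_normal
  have h3 : Normal k ↥(A ⊔ B) := IntermediateField.normal_sup k K A B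
  have h4 : Algebra.IsAlgebraic k ↥(A ⊔ B) := h3.toIsAlgebraic
  exact { to_normal := h3, to_isSeparable := inferInstance }

/-- the field generated by `t`, `w` and `E` as a join -/
theorem ce_gen {t w : ℂ} {E Z : IntermediateField ℚ ℂ} (hw0 : w ≠ 0)
    (h1 : Z ≤ IntermediateField.adjoin ℚ {t, w} ⊔ E) (h2 : E ≤ Z) (h4 : w ∈ Z)
    (i : ℕ) (hi : w ^ i * t ∈ Z) : Z = IntermediateField.adjoin ℚ {t, w} ⊔ E := by
  refine le_antisymm h1 (sup_le ?_ h2)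
  rw [IntermediateField.adjoin_le_iff]
  rintro y (rfl | rfl)
  · have h6 : y = (w ^ i * y) / w ^ i := by field_simp
    rw [h6]
    exact div_mem hi (pow_mem h4 i)
  · exact h4

theorem ce_XX {t w : ℂ} {E X Z : IntermediateField ℚ ℂ} (hw0 : w ≠ 0)
    (hX : X ≤ IntermediateField.adjoin ℚ {t, w} ⊔ E)
    (hZ : Z ≤ IntermediateField.adjoin ℚ {t, w} ⊔ E) (hE : E ≤ X) (i j k : ℕ)
    (hi : w ^ i * t ∈ X) (hj : w ^ j * t ∈ Z) (hk : (w ^ j * t / (w ^ i * t)) ^ k = w) :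
    X ⊔ Z = IntermediateField.adjoin ℚ {t, w} ⊔ E := by
  have h1 : X ≤ X ⊔ Z := le_sup_left
  have h2 : Z ≤ X ⊔ Z := le_sup_right
  refine ce_gen hw0 (sup_le hX hZ) (hE.trans h1) ?_ i (h1 hi)
  rw [← hk]
  exact pow_mem (div_mem (h2 hj) (h1 hi)) k

theorem ce_YX {t w : ℂ} {E Y Z : IntermediateField ℚ ℂ} (hw0 : w ≠ 0)
    (hY : Y ≤ IntermediateField.adjoin ℚ {t, w} ⊔ E)
    (hZ : Z ≤ IntermediateField.adjoin ℚ {t, w} ⊔ E) (hE : E ≤ Y) (j : ℕ)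
    (hwY : w ∈ Y) (hj : w ^ j * t ∈ Z) :
    Y ⊔ Z = IntermediateField.adjoin ℚ {t, w} ⊔ E := by
  have h1 : Y ≤ Y ⊔ Z := le_sup_left
  have h2 : Z ≤ Y ⊔ Z := le_sup_right
  exact ce_gen hw0 (sup_le hY hZ) (hE.trans h1) (h1 hwY) j (h2 hj)

theorem ce_layers {p : ℕ} (hp : p.Prime) (hp2 : p ≠ 2) (hp3 : p ≠ 3) (t w : ℂ) (r : ℚ)
    (ht3 : t ^ 3 = algebraMap ℚ ℂ r) (h3 : finrank ℚ ℚ⟮t⟯ = 3) [NumberField ℚ⟮t⟯]
    (hw : w ^ 2 + w + 1 = 0) (hone : OnePrime p ℚ⟮t⟯)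
    (hF : ¬ p ∣ Nat.card (ClassGroup (𝓞 ℚ⟮t⟯))) (m : ℕ) (E : IntermediateField ℚ ℂ)
    (hE : E ≤ IntermediateField.adjoin ℚ {w : ℂ | w ^ (p ^ (m + 1)) = 1})
    (hEd : finrank ℚ E = p ^ m) :
    padicValNat p (Nat.card (ClassGroup (𝓞 ↥(IntermediateField.adjoin ℚ {t, w} ⊔ E)))) =
      padicValNat p (Nat.card (ClassGroup (𝓞 ↥(ℚ⟮w⟯ ⊔ E)))) := by
  have ht0 : t ≠ 0 := by
    rintro rfl
    rw [IntermediateField.adjoin_zero, IntermediateField.finrank_bot] at h3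
    omega
  have hr0 : r ≠ 0 := by
    rintro rfl
    rw [map_zero] at ht3
    exact ht0 (pow_eq_zero_iff (three_ne_zero) |>.1 ht3)
  have hw3 : w ^ 3 = 1 := by linear_combination (w - 1) * hw
  have hw0 : w ≠ 0 := by
    rintro rfl
    norm_num at hw
  obtain ⟨hfin, hgal⟩ := cc_galois hr0 t w ht3 hw
  have hN6 := cc_six h3 hw hfin
  have hw2 := cc_two hw
  set N : IntermediateField ℚ ℂ := IntermediateField.adjoin ℚ {t, w} with hN
  have hcop2 : Nat.Coprime 2 (p ^ m) :=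
    Nat.Coprime.pow_right m ((Nat.coprime_primes Nat.prime_two hp).2 (Ne.symm hp2))
  have hcop3 : Nat.Coprime 3 (p ^ m) :=
    Nat.Coprime.pow_right m ((Nat.coprime_primes Nat.prime_three hp).2 (Ne.symm hp3))
  have hcop6 : Nat.Coprime 6 (p ^ m) := Nat.Coprime.mul_left hcop2 hcop3
  have hEf : FiniteDimensional ℚ E := FiniteDimensional.of_finrank_pos (by rw [hEd]; exact pow_pos hp.pos _)
  have hwf : FiniteDimensional ℚ ℚ⟮w⟯ := FiniteDimensional.of_finrank_pos (by rw [hw2]; norm_num)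
  have hrank : ∀ (X : IntermediateField ℚ ℂ) (d : ℕ), finrank ℚ X = d → Nat.Coprime d (p ^ m) →
      finrank ℚ ↥(X ⊔ E) = d * p ^ m := by
    intro X d hX hc
    have hdis : X.LinearDisjoint E :=
      IntermediateField.LinearDisjoint.of_finrank_coprime (by rw [hX, hEd]; exact hc)
    rw [hdis.finrank_sup, hX, hEd]
  have hgE := ce_galE hp m E hE
  have hMf : FiniteDimensional ℚ ↥(N ⊔ E) := IntermediateField.finiteDimensional_sup N E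
  have hMg : @IsGalois ℚ _ ↥(N ⊔ E) _ (N ⊔ E).algebra' :=
    ce_galsup N E (hA := cc_cast _ _ hgal) (hB := cc_cast _ _ hgE)
  have hMn : NumberField ↥(N ⊔ E) := ⟨⟩
  have hMg' : @IsGalois ℚ _ ↥(N ⊔ E) _ DivisionRing.toRatAlgebra := cc_cast _ _ hMg
  have htN : t ∈ N := IntermediateField.subset_adjoin _ _ (by simp)
  have hwN : w ∈ N := IntermediateField.subset_adjoin _ _ (by simp)
  have hyi : ∀ i : ℕ, (w ^ i * t) ^ 3 = algebraMap ℚ ℂ r := by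
    intro i
    rw [mul_pow, ← pow_mul, mul_comm i 3, pow_mul, hw3, one_pow, one_mul, ht3]
  have hcj := fun i : ℕ => ce_conj hp hp2 t (w ^ i * t) r ht3 h3 hone hF (hyi i) m E hE hEd
  -- inclusions
  have hXM : ∀ i : ℕ, ℚ⟮w ^ i * t⟯ ⊔ E ≤ N ⊔ E := by
    intro i
    refine sup_le_sup_right ?_ E
    rw [IntermediateField.adjoin_simple_le_iff]
    exact mul_mem (pow_mem hwN i) htN
  have hYM : ℚ⟮w⟯ ⊔ E ≤ N ⊔ E := by
    refine sup_le_sup_right ?_ E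
    rwa [IntermediateField.adjoin_simple_le_iff]
  have hmemY : w ∈ ℚ⟮w⟯ ⊔ E :=
    (le_sup_left : ℚ⟮w⟯ ≤ ℚ⟮w⟯ ⊔ E) (IntermediateField.mem_adjoin_simple_self ℚ w)
  have hmemX : ∀ i : ℕ, w ^ i * t ∈ ℚ⟮w ^ i * t⟯ ⊔ E := fun i =>
    (le_sup_left : ℚ⟮w ^ i * t⟯ ≤ ℚ⟮w ^ i * t⟯ ⊔ E) (IntermediateField.mem_adjoin_simple_self ℚ _)
  have hEX : ∀ i : ℕ, E ≤ ℚ⟮w ^ i * t⟯ ⊔ E := fun i => le_sup_right
  have hEY : E ≤ ℚ⟮w⟯ ⊔ E := le_sup_right
  have e01 : (w ^ 1 * t / (w ^ 0 * t)) ^ 1 = w := by field_simp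
  have e12 : (w ^ 2 * t / (w ^ 1 * t)) ^ 1 = w := by field_simp
  have e02 : (w ^ 2 * t / (w ^ 0 * t)) ^ 2 = w := by
    have h4 : w ^ 2 * t / (w ^ 0 * t) = w ^ 2 := by field_simp
    have h5 : (w ^ 2) ^ 2 = w ^ 3 * w := by ring
    rw [h4, h5, hw3, one_mul]
  have s01 := ce_XX hw0 (hXM 0) (hXM 1) (hEX 0) 0 1 1 (hmemX 0) (hmemX 1) e01
  have s12 := ce_XX hw0 (hXM 1) (hXM 2) (hEX 1) 1 2 1 (hmemX 1) (hmemX 2) e12
  have s02 := ce_XX hw0 (hXM 0) (hXM 2) (hEX 0) 0 2 2 (hmemX 0) (hmemX 2) e02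
  have sY := fun i : ℕ => ce_YX hw0 hYM (hXM i) hEY i hmemY (hmemX i)
  refine ce_main hp hp3 (N ⊔ E) E (ℚ⟮w⟯ ⊔ E) (ℚ⟮w ^ 0 * t⟯ ⊔ E) (ℚ⟮w ^ 1 * t⟯ ⊔ E)
    (ℚ⟮w ^ 2 * t⟯ ⊔ E) (p ^ m) (pow_pos hp.pos m) ?_ hEd ?_ ?_ ?_ ?_ hEY (hEX 0) (hEX 1) (hEX 2)
    (sY 0) (sY 1) (sY 2) s01 s02 s12 (ce_bot hp hp2 m E hE hEd) (hcj 0).2 (hcj 1).2 (hcj 2).2
  · rw [cy_finrank _ (N ⊔ E).algebra'.toModule]
    exact hrank N 6 hN6 hcop6
  · exact hrank _ 2 hw2 hcop2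
  · exact hrank _ 3 (hcj 0).1 hcop3
  · exact hrank _ 3 (hcj 1).1 hcop3
  · exact hrank _ 3 (hcj 2).1 hcop3

end Pool.Agent.Work.Mu22
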