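import Pool.Agent.Work.MP_a4986b_nt.ClosE

set_option autoImplicit false
set_option maxHeartbeats 400000

/-! # Assembly for `F = ℚ(t)`, `t ^ 3` rational, and its Galois closure (helper52) -/

namespace Pool.Agent.Work.Mu22

open NumberField Module IntermediateField
open scoped Pointwise nonZeroDivisors

theorem cf_cbrt {p : ℕ} (hp : p.Prime) (z : ℂ) (hz : z ^ 3 = p) [NumberField ℚ⟮z⟯] :
    |(discr ℚ⟮z⟯ : ℝ)| ≤ 27 * (p : ℝ) ^ 2 ∧ OnePrime p ℚ⟮z⟯ := by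
  obtain ⟨h3, hzr⟩ := finrank_adjoin_cbrt3 hp z hz
  have hint : IsIntegral ℤ (⟨z, IntermediateField.mem_adjoin_simple_self ℚ z⟩ : ℚ⟮z⟯) := by
    refine ⟨Polynomial.X ^ 3 - Polynomial.C (p : ℤ),
      Polynomial.monic_X_pow_sub_C _ three_ne_zero, ?_⟩
    apply Subtype.ext
    simp [hz]
  obtain ⟨t, ht⟩ : ∃ t : 𝓞 ℚ⟮z⟯, algebraMap (𝓞 ℚ⟮z⟯) ℚ⟮z⟯ t =
    ⟨z, IntermediateField.mem_adjoin_simple_self ℚ z⟩ := ⟨⟨_, hint⟩, rfl⟩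
  have ht3 : t ^ 3 = ((p * 1 ^ 2 : ℕ) : 𝓞 ℚ⟮z⟯) := by
    apply FaithfulSMul.algebraMap_injective (𝓞 ℚ⟮z⟯) ℚ⟮z⟯
    rw [map_pow, map_natCast, ht]
    apply Subtype.ext
    simpa using hz
  have hP : PureCubic ℚ⟮z⟯ p 1 t :=
    ⟨h3, by simpa using hp.squarefree, by simpa using hp.one_lt, ht3⟩
  exact ⟨by simpa using hP.discr_bounds.2, hP.onePrime hp (by simp)⟩

theorem cf_base (p : ℕ) (t w : ℂ) [NumberField ℚ⟮t⟯] (hp : p.Prime) (hp2 : p ≠ 2)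
    (ht : t ^ 3 ∈ Set.range (algebraMap ℚ ℂ)) (h3 : finrank ℚ ℚ⟮t⟯ = 3)
    (hw : w ^ 2 + w + 1 = 0)
    (h : t ^ 3 = p ∨ (|discr ℚ⟮t⟯| ≤ 27 * (p : ℤ) ^ 2 ∧
      ∃! P : Ideal (𝓞 ℚ⟮t⟯), P.IsPrime ∧ (p : 𝓞 ℚ⟮t⟯) ∈ P)) :
    (∀ K : IntermediateField ℚ ℂ, K = ℚ⟮t⟯ ∨ (p % 3 = 2 ∧ K = IntermediateField.adjoin ℚ {t, w}) →
      ∃ _ : NumberField K, ¬ p ∣ Nat.card (ClassGroup (𝓞 K)) ∧ OnePrime p K) ∧
    (p ≠ 3 → ∀ (m : ℕ) (E : IntermediateField ℚ ℂ),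
      E ≤ IntermediateField.adjoin ℚ {w : ℂ | w ^ (p ^ (m + 1)) = 1} → finrank ℚ E = p ^ m →
      padicValNat p (Nat.card (ClassGroup (𝓞 ↥(IntermediateField.adjoin ℚ {t, w} ⊔ E)))) =
        padicValNat p (Nat.card (ClassGroup (𝓞 ↥(ℚ⟮w⟯ ⊔ E))))) := by
  obtain ⟨r, hr⟩ := ht
  have hx : (⟨t, IntermediateField.mem_adjoin_simple_self ℚ t⟩ : ℚ⟮t⟯) ∉
      (algebraMap ℚ ℚ⟮t⟯).range := by
    rintro ⟨s, hs⟩
    have h1 : t ∈ (⊥ : IntermediateField ℚ ℂ) :=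
      IntermediateField.mem_bot.2 ⟨s, by simpa using congrArg Subtype.val hs⟩
    rw [← IntermediateField.adjoin_simple_eq_bot_iff] at h1
    rw [h1, IntermediateField.finrank_bot] at h3
    omega
  have hx3 : (⟨t, IntermediateField.mem_adjoin_simple_self ℚ t⟩ : ℚ⟮t⟯) ^ 3 ∈
      (algebraMap ℚ ℚ⟮t⟯).range :=
    ⟨r, by apply Subtype.ext; simpa using hr⟩
  have hF : IsPureCubic ℚ⟮t⟯ := ⟨h3, _, hx, hx3⟩
  obtain ⟨hD, hone⟩ : |(discr ℚ⟮t⟯ : ℝ)| ≤ 27 * (p : ℝ) ^ 2 ∧ OnePrime p ℚ⟮t⟯ := by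
    rcases h with h | ⟨h1, h2⟩
    · exact cf_cbrt hp t h
    · refine ⟨by exact_mod_cast h1, ?_⟩
      intro P Q hP hQ hpP hpQ
      exact h2.unique ⟨hP, hpP⟩ ⟨hQ, hpQ⟩
  have hnd := not_dvd_pure hF hD
  have hr0 : r ≠ 0 := by
    rintro rfl
    apply hx
    rw [map_zero] at hr
    have ht0 : t = 0 := pow_eq_zero_iff (three_ne_zero) |>.1 hr.symm
    exact ⟨0, by apply Subtype.ext; simp [ht0]⟩
  refine ⟨?_, fun hp3 m E hE hEd => ce_layers hp hp2 hp3 t w r hr.symm h3 hw hone hnd m E hE hEd⟩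
  intro K hK
  rcases hK with rfl | ⟨hp3, rfl⟩
  · exact ⟨inferInstance, hnd, hone⟩
  · obtain ⟨hfin, hgal⟩ := cc_galois hr0 t w hr.symm hw
    have hN6 := cc_six h3 hw hfin
    set N : IntermediateField ℚ ℂ := IntermediateField.adjoin ℚ {t, w} with hN
    have hnf : NumberField N := ⟨⟩
    have hle : ℚ⟮t⟯ ≤ N := by
      rw [IntermediateField.adjoin_simple_le_iff]
      exact IntermediateField.subset_adjoin _ _ (by simp)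
    let aFN : Algebra ℚ⟮t⟯ N := (IntermediateField.inclusion hle).toRingHom.toAlgebra
    have hgal' : @IsGalois ℚ _ N _ DivisionRing.toRatAlgebra := cc_cast _ _ hgal
    have hN6' : @finrank ℚ N _ _ DivisionRing.toRatAlgebra.toModule = 6 := by
      rw [cy_finrank _ N.algebra'.toModule]; exact hN6
    exact ⟨hnf, closure_main (F := ℚ⟮t⟯) (N := N) hp hp3 h3 _ hx hx3 hN6' hone hnd⟩

theorem cf_main (p : ℕ) (t w : ℂ) [NumberField ℚ⟮t⟯] (hp : p.Prime) (hp2 : p ≠ 2)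
    (ht : t ^ 3 ∈ Set.range (algebraMap ℚ ℂ)) (h3 : finrank ℚ ℚ⟮t⟯ = 3)
    (hw : w ^ 2 + w + 1 = 0)
    (h : t ^ 3 = p ∨ (|discr ℚ⟮t⟯| ≤ 27 * (p : ℤ) ^ 2 ∧
      ∃! P : Ideal (𝓞 ℚ⟮t⟯), P.IsPrime ∧ (p : 𝓞 ℚ⟮t⟯) ∈ P)) :
    (∀ K : IntermediateField ℚ ℂ, K = ℚ⟮t⟯ ∨ (p % 3 = 2 ∧ K = IntermediateField.adjoin ℚ {t, w}) →
      ∀ (L : IntermediateField ℚ ℂ) [NumberField L] [Algebra K L] [IsGalois K L] (n : ℕ),
        finrank K L = p ^ n →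
        (∀ Q : Ideal (𝓞 L), Q.IsPrime → Q ≠ ⊥ → (p : 𝓞 L) ∉ Q → Q.ramificationIdx (𝓞 K) = 1) →
        ∀ (m : ℕ) (E : IntermediateField ℚ ℂ),
          E ≤ IntermediateField.adjoin ℚ {w : ℂ | w ^ (p ^ (m + 1)) = 1} → finrank ℚ E = p ^ m →
          ¬ p ∣ Nat.card (ClassGroup (𝓞 ↥(L ⊔ E)))) ∧
    (p ≠ 3 → ∀ (m : ℕ) (E : IntermediateField ℚ ℂ),
      E ≤ IntermediateField.adjoin ℚ {w : ℂ | w ^ (p ^ (m + 1)) = 1} → finrank ℚ E = p ^ m →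
      padicValNat p (Nat.card (ClassGroup (𝓞 ↥(IntermediateField.adjoin ℚ {t, w} ⊔ E)))) =
        padicValNat p (Nat.card (ClassGroup (𝓞 ↥(ℚ⟮w⟯ ⊔ E))))) := by
  obtain ⟨hb, hb2⟩ := cf_base p t w hp hp2 ht h3 hw h
  refine ⟨?_, hb2⟩
  intro K hK L _ _ _ n hn hun m E hE hEd
  obtain ⟨hKn, hK1, hK2⟩ := hb K hK
  obtain ⟨hL, hL1⟩ := tower hp n hn (hp.odd_of_ne_two hp2) hK2 hun hK1
  exact cyc_tower hp hp2 L hL1 hL m (m + 1) E hE hEd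

end Pool.Agent.Work.Mu22
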