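import Pool.Agent.Work.MP_a4986b_nt.CountA
import Pool.Agent.Work.MP_a4986b_nt.Primes

set_option autoImplicit false
set_option maxHeartbeats 400000

/-! # D4: comparison of the number of ideals of given norm with `bb` -/

namespace Pool.Agent.Work.Mu22

open NumberField Module MeasureTheory
open scoped Pointwise nonZeroDivisors ENNReal Real

section

variable {K : Type*} [Field K] [NumberField K]

/-- D4 -/
theorem card_norm_le_bb (h3 : finrank ℚ K = 3) {p : ℕ} (hp : p.Prime) (hp3 : 3 < p)
    (t : 𝓞 K) (ht : t ^ 3 = p) {n : ℕ} (hn : n ≠ 0) :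
    (Nat.card {I : Ideal (𝓞 K) // Ideal.absNorm I = n} : ℤ) ≤ bb n :=
  card_norm_le_bb_of (p := p) (fun hq k => card_norm_pow_le h3 hq k)
    (fun k => card_norm_pow_le_three h3 hp hp3 t ht k)
    (fun hq hq2 hqp k => card_norm_pow_le_two h3 hp hp3 t ht hq hq2 hqp k)
    (fun k => card_norm_pow_le_p h3 hp t ht k) hn

end

end Pool.Agent.Work.Mu22
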