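import Pool.Agent.Work.MP_a4986b_nt.Defs2

set_option autoImplicit false
set_option maxHeartbeats 400000

/-! # Basic facts on pure cubic fields -/

namespace Pool.Agent.Work.Mu22

open NumberField Module Polynomial
open scoped Pointwise nonZeroDivisors

theorem not_cube_nat {a b : ℕ} (hs : Squarefree (a * b)) (h1 : 1 < a * b) (n : ℕ) :
    n ^ 3 ≠ a * b ^ 2 := by
  intro h
  obtain ⟨q, hq, hqd⟩ := Nat.exists_prime_and_dvd (by omega : a * b ≠ 1)
  have ha : a ≠ 0 := by rintro rfl; simp at h1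
  have hb : b ≠ 0 := by rintro rfl; simp at h1
  have h2 := (hs.natFactorization_le_one q)
  have h3 : 1 ≤ (a * b).factorization q :=
    (hq.dvd_iff_one_le_factorization (mul_ne_zero ha hb)).1 hqd
  rw [Nat.factorization_mul ha hb] at h2 h3
  have h4 := congrArg (fun m => m.factorization q) h
  simp only [Nat.factorization_pow, Nat.factorization_mul ha (pow_ne_zero 2 hb)] at h4
  simp only [Finsupp.coe_add, Pi.add_apply, Finsupp.coe_smul, Pi.smul_apply, smul_eq_mul]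
    at h2 h3 h4
  omega

theorem not_cube_rat {a b : ℕ} (hs : Squarefree (a * b)) (h1 : 1 < a * b) (x : ℚ) :
    x ^ 3 ≠ ((a * b ^ 2 : ℕ) : ℚ) := by
  intro h
  have hint : IsIntegral ℤ x :=
    ⟨X ^ 3 - C ((a * b ^ 2 : ℕ) : ℤ), monic_X_pow_sub_C _ (by norm_num), by
      rw [eval₂_sub, eval₂_pow, eval₂_X, eval₂_C, h]
      simp⟩
  obtain ⟨n, hn⟩ := IsIntegrallyClosed.isIntegral_iff.1 hint
  have h2 : n ^ 3 = ((a * b ^ 2 : ℕ) : ℤ) := by
    rw [← hn] at h
    simp only [algebraMap_int_eq, eq_intCast] at h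
    exact_mod_cast h
  apply not_cube_nat hs h1 n.natAbs
  have h3 := congrArg Int.natAbs h2
  rwa [Int.natAbs_pow, Int.natAbs_natCast] at h3

variable {K : Type*} [Field K] [NumberField K]

namespace PureCubic

variable {a b : ℕ} {t : 𝓞 K}

theorem a_ne_zero (h : PureCubic K a b t) : a ≠ 0 := by
  rintro rfl
  have := h.one_lt
  simp at this

theorem b_ne_zero (h : PureCubic K a b t) : b ≠ 0 := by
  rintro rfl
  have := h.one_lt
  simp at this

theorem cubeK (h : PureCubic K a b t) : (t : K) ^ 3 = ((a * b ^ 2 : ℕ) : K) := by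
  have h1 := congrArg (algebraMap (𝓞 K) K) h.cube
  rw [map_pow, map_natCast] at h1
  exact h1

/-- the other cube root `s = t ^ 2 / b` -/
theorem symm (h : PureCubic K a b t) : ∃ s : 𝓞 K, PureCubic K b a s ∧
    (b : 𝓞 K) * s = t ^ 2 ∧ (a : 𝓞 K) * t = s ^ 2 ∧ t * s = ((a * b : ℕ) : 𝓞 K) := by
  have hb : (b : K) ≠ 0 := by exact_mod_cast h.b_ne_zero
  have hb' : (b : 𝓞 K) ≠ 0 := by exact_mod_cast h.b_ne_zero
  have hcube := h.cubeK
  push_cast at hcube
  have h1 : ((t : K) ^ 2 / b) ^ 3 = ((b * a ^ 2 : ℕ) : K) := by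
    rw [div_pow, div_eq_iff (pow_ne_zero 3 hb)]
    push_cast
    have e : ((t : K) ^ 2) ^ 3 = ((t : K) ^ 3) ^ 2 := by ring
    rw [e, hcube]
    ring
  have hint : IsIntegral ℤ ((t : K) ^ 2 / b) :=
    ⟨X ^ 3 - C ((b * a ^ 2 : ℕ) : ℤ), monic_X_pow_sub_C _ (by norm_num), by
      rw [eval₂_sub, eval₂_pow, eval₂_X, eval₂_C, h1]
      simp⟩
  obtain ⟨s, hs⟩ : ∃ s : 𝓞 K, (s : K) = (t : K) ^ 2 / b := ⟨⟨_, hint⟩, rfl⟩
  have hbs : (b : 𝓞 K) * s = t ^ 2 := by
    apply RingOfIntegers.coe_injective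
    rw [map_mul, map_pow, map_natCast]
    show (b : K) * (s : K) = (t : K) ^ 2
    rw [hs, mul_div_cancel₀ _ hb]
  have hcube' := h.cube
  push_cast at hcube'
  refine ⟨s, ⟨h.three, by rw [mul_comm]; exact h.sqf, by rw [mul_comm]; exact h.one_lt, ?_⟩,
    hbs, ?_, ?_⟩
  · apply RingOfIntegers.coe_injective
    rw [map_pow, map_natCast]
    show (s : K) ^ 3 = _
    rw [hs]
    exact h1
  · apply mul_left_cancel₀ (pow_ne_zero 2 hb')
    rw [← mul_pow, hbs]
    linear_combination (-t) * hcube'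
  · apply mul_left_cancel₀ hb'
    rw [mul_left_comm, hbs]
    push_cast
    linear_combination hcube'

theorem minpoly_rat (h : PureCubic K a b t) :
    minpoly ℚ (t : K) = X ^ 3 - C ((a * b ^ 2 : ℕ) : ℚ) := by
  symm
  apply minpoly.eq_of_irreducible_of_monic
  · exact X_pow_sub_C_irreducible_of_prime Nat.prime_three
      fun x => not_cube_rat h.sqf h.one_lt x
  · rw [map_sub, map_pow, aeval_X, aeval_C, h.cubeK]
    simp
  · exact monic_X_pow_sub_C _ (by norm_num)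

theorem minpoly_rat_shift (h : PureCubic K a b t) (m : ℤ) :
    minpoly ℚ ((t : K) - m) = (X + C (m : ℚ)) ^ 3 - C ((a * b ^ 2 : ℕ) : ℚ) := by
  have h1 := minpoly.sub_algebraMap (A := ℚ) (t : K) (m : ℚ)
  rw [h.minpoly_rat] at h1
  rw [map_intCast] at h1
  rw [h1]
  simp

omit [NumberField K] in
theorem isIntegral_shift (t : 𝓞 K) (m : ℤ) : IsIntegral ℤ ((t : K) - m) := by
  have h1 : IsIntegral ℤ (m : K) := by
    have := isIntegral_algebraMap (R := ℤ) (A := K) (x := m)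
    rwa [algebraMap_int_eq, eq_intCast] at this
  exact (RingOfIntegers.isIntegral_coe t).sub h1

theorem minpoly_int_shift (h : PureCubic K a b t) (m : ℤ) :
    minpoly ℤ ((t : K) - m) = (X + C m) ^ 3 - C ((a * b ^ 2 : ℕ) : ℤ) := by
  have h1 := minpoly.isIntegrallyClosed_eq_field_fractions' ℚ (isIntegral_shift t m)
  rw [h.minpoly_rat_shift m] at h1
  apply Polynomial.map_injective (algebraMap ℤ ℚ) (RingHom.injective_int _)
  rw [← h1]
  simp [Polynomial.map_sub, Polynomial.map_pow]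

theorem natDegree_shift (m : ℤ) (A : ℤ) : ((X + C m) ^ 3 - C A : ℤ[X]).natDegree = 3 := by
  rw [natDegree_sub_C, natDegree_pow_X_add_C]

theorem monic_shift (m : ℤ) (A : ℤ) : ((X + C m) ^ 3 - C A : ℤ[X]).Monic := by
  apply ((monic_X_add_C m).pow 3).sub_of_left
  rw [degree_pow, degree_X_add_C]
  exact lt_of_le_of_lt degree_C_le (by norm_num)

theorem exists_pb (h : PureCubic K a b t) (m : ℤ) :
    ∃ B : PowerBasis ℚ K, B.gen = (t : K) - m ∧ B.dim = 3 := by
  have hint : IsIntegral ℚ ((t : K) - m) := IsIntegral.of_finite ℚ _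
  have hdeg : (minpoly ℚ ((t : K) - m)).natDegree = 3 := by
    rw [h.minpoly_rat_shift m, natDegree_sub_C, natDegree_pow_X_add_C]
  have h1 : IntermediateField.adjoin ℚ {(t : K) - m} = ⊤ := by
    rw [Field.primitive_element_iff_minpoly_natDegree_eq, hdeg, h.three]
  have h2 : Algebra.adjoin ℚ {(t : K) - m} = ⊤ := by
    have h := IntermediateField.adjoin_simple_toSubalgebra_of_isAlgebraic hint.isAlgebraic
    rw [← h, h1]
    rfl
  refine ⟨PowerBasis.ofAdjoinEqTop hint h2, rfl, ?_⟩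
  rw [PowerBasis.ofAdjoinEqTop_dim, hdeg]

/-- linear independence of `1, t, t ^ 2` -/
theorem lin_indep (h : PureCubic K a b t) {x y z : ℤ}
    (h0 : (x : K) + y * t + z * (t : K) ^ 2 = 0) : x = 0 ∧ y = 0 ∧ z = 0 := by
  have h1 : aeval (t : K) (C (x : ℚ) + C (y : ℚ) * X + C (z : ℚ) * X ^ 2 : ℚ[X]) = 0 := by
    simpa using h0
  have h2 : (C (x : ℚ) + C (y : ℚ) * X + C (z : ℚ) * X ^ 2 : ℚ[X]) = 0 := by
    by_contra hne
    have h3 := natDegree_le_natDegree (minpoly.degree_le_of_ne_zero ℚ (t : K) hne h1)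
    rw [h.minpoly_rat, natDegree_X_pow_sub_C] at h3
    have h4 : (C (x : ℚ) + C (y : ℚ) * X + C (z : ℚ) * X ^ 2 : ℚ[X]).natDegree ≤ 2 := by
      compute_degree
    omega
  have e0 := congrArg (fun f => coeff f 0) h2
  have e1 := congrArg (fun f => coeff f 1) h2
  have e2 := congrArg (fun f => coeff f 2) h2
  simp only [coeff_add, coeff_C_mul, coeff_X, coeff_C, coeff_X_pow, coeff_zero] at e0 e1 e2
  norm_num at e0 e1 e2
  exact ⟨e0, e1, e2⟩

/-- elements of `ℤ[t - m]` -/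
theorem mem_adjoin_shift (h : PureCubic K a b t) (m : ℤ) {v : K}
    (hv : v ∈ Algebra.adjoin ℤ ({(t : K) - m} : Set K)) :
    ∃ x y z : ℤ, v = x + y * t + z * (t : K) ^ 2 := by
  rw [Algebra.adjoin_singleton_eq_range_aeval] at hv
  obtain ⟨Q, hQ⟩ := hv
  set F : ℤ[X] := (X + C m) ^ 3 - C ((a * b ^ 2 : ℕ) : ℤ) with hF
  have hmon : F.Monic := monic_shift m _
  have hroot : aeval ((t : K) - m) F = 0 := by
    rw [hF, ← h.minpoly_int_shift m]
    exact minpoly.aeval _ _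
  have h5 : aeval ((t : K) - m) (Q %ₘ F) = v := by
    have h6 := congrArg (aeval ((t : K) - m)) (modByMonic_add_div Q F)
    rw [map_add, map_mul, hroot, zero_mul, add_zero] at h6
    rw [h6]
    exact hQ
  have h7 : (Q %ₘ F).natDegree < 3 := by
    have h8 := natDegree_modByMonic_lt Q hmon (by
      intro h
      have := congrArg natDegree h
      rw [natDegree_shift] at this
      simp at this)
    rwa [natDegree_shift] at h8
  set R := Q %ₘ F with hR
  rw [aeval_eq_sum_range' h7] at h5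
  simp only [Finset.sum_range_succ, Finset.sum_range_zero, zero_add, pow_zero, pow_one,
    zsmul_eq_mul, mul_one] at h5
  refine ⟨R.coeff 0 - R.coeff 1 * m + R.coeff 2 * m ^ 2, R.coeff 1 - 2 * m * R.coeff 2,
    R.coeff 2, ?_⟩
  rw [← h5]
  push_cast
  ring

omit [NumberField K] in
theorem mem_adjoin_of (t : 𝓞 K) (m x y z : ℤ) :
    (x : K) + y * t + z * (t : K) ^ 2 ∈ Algebra.adjoin ℤ ({(t : K) - m} : Set K) := by
  have hi : ∀ n : ℤ, (n : K) ∈ Algebra.adjoin ℤ ({(t : K) - m} : Set K) := fun n => by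
    have := Subalgebra.algebraMap_mem (Algebra.adjoin ℤ ({(t : K) - m} : Set K)) n
    rwa [algebraMap_int_eq, eq_intCast] at this
  have h1 : (t : K) - m ∈ Algebra.adjoin ℤ ({(t : K) - m} : Set K) :=
    Algebra.subset_adjoin (Set.mem_singleton _)
  have h2 : (t : K) ∈ Algebra.adjoin ℤ ({(t : K) - m} : Set K) := by
    have := Subalgebra.add_mem _ h1 (hi m)
    rwa [sub_add_cancel] at this
  exact Subalgebra.add_mem _ (Subalgebra.add_mem _ (hi x) (Subalgebra.mul_mem _ (hi y) h2))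
    (Subalgebra.mul_mem _ (hi z) (Subalgebra.pow_mem _ h2 2))

/-- divisibility at a prime where the minimal polynomial of `t - m` is Eisenstein -/
theorem eis_dvd (h : PureCubic K a b t) {q : ℕ} (hq : q.Prime) (m : ℤ)
    (hei : ((X + C m) ^ 3 - C ((a * b ^ 2 : ℕ) : ℤ) : ℤ[X]).IsEisensteinAt
      (Ideal.span {(q : ℤ)})) {x y z : ℤ} {v : K} (hv : IsIntegral ℤ v)
    (hqv : (q : K) * v = x + y * t + z * (t : K) ^ 2) :
    (q : ℤ) ∣ x ∧ (q : ℤ) ∣ y ∧ (q : ℤ) ∣ z := by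
  obtain ⟨B, hB, hdim⟩ := h.exists_pb m
  have hprime := Nat.prime_iff_prime_int.mp hq
  have hint : IsIntegral ℤ B.gen := by rw [hB]; exact isIntegral_shift t m
  have h1 : (q : ℤ) • v ∈ Algebra.adjoin ℤ ({B.gen} : Set K) := by
    rw [zsmul_eq_mul, Int.cast_natCast, hqv, hB]
    exact mem_adjoin_of t m x y z
  have h2 : v ∈ Algebra.adjoin ℤ ({B.gen} : Set K) := by
    apply mem_adjoin_of_smul_prime_smul_of_minpoly_isEisensteinAt (K := ℚ) hprime hint hv h1
    rw [hB, h.minpoly_int_shift m]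
    exact hei
  rw [hB] at h2
  obtain ⟨x', y', z', h3⟩ := h.mem_adjoin_shift m h2
  have h4 : ((x - q * x' : ℤ) : K) + ((y - q * y' : ℤ) : K) * t +
      ((z - q * z' : ℤ) : K) * (t : K) ^ 2 = 0 := by
    rw [h3] at hqv
    push_cast
    linear_combination -hqv
  obtain ⟨e1, e2, e3⟩ := h.lin_indep h4
  exact ⟨⟨x', sub_eq_zero.mp e1⟩, ⟨y', sub_eq_zero.mp e2⟩, ⟨z', sub_eq_zero.mp e3⟩⟩

theorem trace_eq_zero (h : PureCubic K a b t) : Algebra.trace ℤ (𝓞 K) t = 0 := by
  obtain ⟨B, hB, -⟩ := h.exists_pb 0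
  rw [Int.cast_zero, sub_zero] at hB
  have h1 := PowerBasis.trace_gen_eq_nextCoeff_minpoly B
  rw [hB, h.minpoly_rat, nextCoeff, natDegree_X_pow_sub_C] at h1
  have h2 : (X ^ 3 - C ((a * b ^ 2 : ℕ) : ℚ) : ℚ[X]).coeff (3 - 1) = 0 := by
    rw [coeff_sub, coeff_X_pow, coeff_C]
    norm_num
  rw [h2, if_neg (by norm_num), neg_zero] at h1
  have h3 := Algebra.coe_trace_int t
  rw [h1] at h3
  exact_mod_cast h3

end PureCubic

end Pool.Agent.Work.Mu22
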