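import Pool.Agent.Work.MP_a4986b_nt.Defs

set_option autoImplicit false
set_option maxHeartbeats 400000

/-! # The cubic field generated by a cube root of a prime: basic facts -/

namespace Pool.Agent.Work.Mu22

open NumberField Module Polynomial
open scoped Pointwise nonZeroDivisors

theorem eisen {p : ℕ} (hp : p.Prime) :
    (X ^ 3 - C (p : ℤ) : ℤ[X]).IsEisensteinAt (Ideal.span {(p : ℤ)}) := by
  have hdeg : (X ^ 3 - C (p : ℤ) : ℤ[X]).natDegree = 3 := natDegree_X_pow_sub_C
  have hprime := Nat.prime_iff_prime_int.mp hp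
  constructor
  · rw [(monic_X_pow_sub_C _ (by norm_num)).leadingCoeff]
    intro h
    rw [Ideal.mem_span_singleton] at h
    exact hprime.not_isUnit (isUnit_of_dvd_one h)
  · intro n hn
    rw [hdeg] at hn
    rw [Ideal.mem_span_singleton]
    interval_cases n <;> simp [coeff_X_pow]
  · rw [Ideal.span_singleton_pow, Ideal.mem_span_singleton]
    simp only [coeff_sub, coeff_X_pow, coeff_C_zero]
    norm_num
    intro h
    rw [pow_two] at h
    have h1 := hprime.ne_zero
    have h2 : (p : ℤ) ∣ 1 := by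
      obtain ⟨c, hc⟩ := h
      refine ⟨c, ?_⟩
      have h3 : (p : ℤ) * 1 = p * (p * c) := by linarith
      exact mul_left_cancel₀ h1 h3
    exact hprime.not_isUnit (isUnit_of_dvd_one h2)

theorem irred_int {p : ℕ} (hp : p.Prime) : Irreducible (X ^ 3 - C (p : ℤ) : ℤ[X]) := by
  have hprime := Nat.prime_iff_prime_int.mp hp
  refine (eisen hp).irreducible ((Ideal.span_singleton_prime hprime.ne_zero).mpr hprime)
    (monic_X_pow_sub_C _ (by norm_num)).isPrimitive ?_
  rw [natDegree_X_pow_sub_C]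
  norm_num

variable {K : Type*} [Field K] [NumberField K]

theorem minpoly_rat {p : ℕ} (hp : p.Prime) (t : K) (ht : t ^ 3 = p) :
    minpoly ℚ t = X ^ 3 - C (p : ℚ) := by
  symm
  apply minpoly.eq_of_irreducible_of_monic
  · have h1 := (Monic.irreducible_iff_irreducible_map_fraction_map (K := ℚ)
      (monic_X_pow_sub_C (p : ℤ) (by norm_num : (3 : ℕ) ≠ 0))).mp (irred_int hp)
    simpa [Polynomial.map_sub, Polynomial.map_pow] using h1
  · simp [ht]
  · exact monic_X_pow_sub_C _ (by norm_num)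

theorem minpoly_int {p : ℕ} (hp : p.Prime) (t : K) (ht : t ^ 3 = p) :
    minpoly ℤ t = X ^ 3 - C (p : ℤ) := by
  have hint : IsIntegral ℤ t := by
    refine ⟨X ^ 3 - C (p : ℤ), monic_X_pow_sub_C _ (by norm_num), ?_⟩
    simp [ht]
  have h1 := minpoly.isIntegrallyClosed_eq_field_fractions' ℚ hint
  rw [minpoly_rat hp t ht] at h1
  apply Polynomial.map_injective (algebraMap ℤ ℚ) (RingHom.injective_int _)
  rw [← h1]
  simp [Polynomial.map_sub, Polynomial.map_pow]

/-- the power basis `1, t, t ^ 2` -/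
theorem exists_powerBasis (h3 : finrank ℚ K = 3) {p : ℕ} (hp : p.Prime) (t : K)
    (ht : t ^ 3 = p) : ∃ B : PowerBasis ℚ K, B.gen = t ∧ B.dim = 3 := by
  have hint : IsIntegral ℚ t := IsIntegral.of_finite ℚ t
  have h1 : IntermediateField.adjoin ℚ {t} = ⊤ := by
    rw [Field.primitive_element_iff_minpoly_natDegree_eq, minpoly_rat hp t ht, h3,
      natDegree_X_pow_sub_C]
  have h2 : Algebra.adjoin ℚ {t} = ⊤ := by
    have h := IntermediateField.adjoin_simple_toSubalgebra_of_isAlgebraic hint.isAlgebraic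
    rw [← h, h1]
    rfl
  refine ⟨PowerBasis.ofAdjoinEqTop hint h2, rfl, ?_⟩
  rw [PowerBasis.ofAdjoinEqTop_dim, minpoly_rat hp t ht, natDegree_X_pow_sub_C]

/-- linear independence of `1, t, t ^ 2` -/
theorem lin_indep {p : ℕ} (hp : p.Prime) (t : K) (ht : t ^ 3 = p)
    {a b c : ℤ} (h : (a : K) + b * t + c * t ^ 2 = 0) : a = 0 ∧ b = 0 ∧ c = 0 := by
  have h1 : aeval t (C (a : ℚ) + C (b : ℚ) * X + C (c : ℚ) * X ^ 2 : ℚ[X]) = 0 := by
    simpa using h
  have h2 : (C (a : ℚ) + C (b : ℚ) * X + C (c : ℚ) * X ^ 2 : ℚ[X]) = 0 := by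
    by_contra h0
    have h3 := natDegree_le_natDegree (minpoly.degree_le_of_ne_zero ℚ t h0 h1)
    rw [minpoly_rat hp t ht, natDegree_X_pow_sub_C] at h3
    have h4 : (C (a : ℚ) + C (b : ℚ) * X + C (c : ℚ) * X ^ 2 : ℚ[X]).natDegree ≤ 2 := by
      compute_degree
    omega
  have e0 := congrArg (fun f => coeff f 0) h2
  have e1 := congrArg (fun f => coeff f 1) h2
  have e2 := congrArg (fun f => coeff f 2) h2
  simp only [coeff_add, coeff_C_mul, coeff_X, coeff_C, coeff_X_pow, coeff_zero] at e0 e1 e2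
  norm_num at e0 e1 e2
  exact ⟨e0, e1, e2⟩

/-- the discriminant of the power basis -/
theorem discr_powerBasis {p : ℕ} (hp : p.Prime) (t : K) (ht : t ^ 3 = p) (B : PowerBasis ℚ K)
    (hB : B.gen = t) (hdim : B.dim = 3) : Algebra.discr ℚ B.basis = -27 * (p : ℚ) ^ 2 := by
  rw [Algebra.discr_powerBasis_eq_norm, B.finrank, hdim, hB, minpoly_rat hp t ht]
  have h1 : (aeval t) (derivative (X ^ 3 - C (p : ℚ) : ℚ[X])) = algebraMap ℚ K 3 * t ^ 2 := by
    simp
    left
    norm_num
  have h2 : Algebra.norm ℚ t = p := by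
    have h := Algebra.PowerBasis.norm_gen_eq_coeff_zero_minpoly B
    rw [hB, hdim, minpoly_rat hp t ht] at h
    rw [h]
    simp only [coeff_sub, coeff_X_pow, coeff_C_zero]
    norm_num
  rw [h1, map_mul, map_pow, h2, Algebra.norm_algebraMap, B.finrank, hdim]
  norm_num

/-- `27 v` is a polynomial in `t` with integral coefficients -/
theorem smul_mem (h3 : finrank ℚ K = 3) {p : ℕ} (hp : p.Prime) (t : K)
    (ht : t ^ 3 = p) {v : K} (hv : IsIntegral ℤ v) :
    ∃ a b c : ℤ, 27 * v = a + b * t + c * t ^ 2 := by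
  obtain ⟨B, hB, hdim⟩ := exists_powerBasis h3 hp t ht
  have hprime := Nat.prime_iff_prime_int.mp hp
  have hint : IsIntegral ℤ B.gen := by
    rw [hB]
    refine ⟨X ^ 3 - C (p : ℤ), monic_X_pow_sub_C _ (by norm_num), ?_⟩
    simp [ht]
  have h1 := Algebra.discr_mul_isIntegral_mem_adjoin ℚ hint hv
  rw [discr_powerBasis hp t ht B hB hdim] at h1
  have h27 : IsIntegral ℤ (27 * v) := by
    have := hv.smul (27 : ℤ)
    simpa using this
  have h2 : ((p : ℤ) ^ 2) • (27 * v) ∈ Algebra.adjoin ℤ ({B.gen} : Set K) := by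
    have h := Subalgebra.neg_mem _ h1
    convert! h using 1
    simp [Algebra.smul_def]
    ring
  have h4 : 27 * v ∈ Algebra.adjoin ℤ ({B.gen} : Set K) := by
    apply mem_adjoin_of_smul_prime_pow_smul_of_minpoly_isEisensteinAt (K := ℚ) hprime hint h27 h2
    rw [hB, minpoly_int hp t ht]
    exact eisen hp
  rw [hB, Algebra.adjoin_singleton_eq_range_aeval] at h4
  obtain ⟨Q, hQ⟩ := h4
  have hmon : (X ^ 3 - C (p : ℤ) : ℤ[X]).Monic := monic_X_pow_sub_C _ (by norm_num)
  have h5 : aeval t (Q %ₘ (X ^ 3 - C (p : ℤ))) = 27 * v := by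
    have h6 := congrArg (aeval t) (modByMonic_add_div Q (X ^ 3 - C (p : ℤ)))
    rw [map_add, map_mul] at h6
    simp only [map_sub, map_pow, aeval_X, map_natCast] at h6
    simp [ht] at h6
    rw [← hQ]
    simpa using h6
  have h7 : (Q %ₘ (X ^ 3 - C (p : ℤ))).natDegree < 3 := by
    have h8 := natDegree_modByMonic_lt Q hmon (by
      intro h
      have := congrArg natDegree h
      rw [natDegree_X_pow_sub_C] at this
      simp at this)
    rwa [natDegree_X_pow_sub_C] at h8
  set R := Q %ₘ (X ^ 3 - C (p : ℤ)) with hR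
  refine ⟨R.coeff 0, R.coeff 1, R.coeff 2, ?_⟩
  rw [← h5, aeval_eq_sum_range' h7]
  simp [Finset.sum_range_succ]

end Pool.Agent.Work.Mu22
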