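import Mathlib

set_option autoImplicit false
set_option maxHeartbeats 400000

/-! # Counting pairs (positive integer, ideal) with the sharp constant -/

namespace Pool.Agent.Work.MuB

open NumberField Module NumberField.InfinitePlace NumberField.Units Filter
open scoped nonZeroDivisors Real Topology

variable (k : Type) [Field k] [NumberField k]

/-- the residue -/
noncomputable def resid : ℝ :=
  (2 ^ nrRealPlaces k * (2 * π) ^ nrComplexPlaces k * regulator k * classNumber k) /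
    (torsionOrder k * Real.sqrt |discr k|)

theorem finite_le (x : ℝ) : Finite {I : (Ideal (𝓞 k))⁰ // (Ideal.absNorm (I : Ideal (𝓞 k)) : ℝ) ≤ x} := by
  have h1 : Finite {I : Ideal (𝓞 k) // Ideal.absNorm I ≤ ⌊x⌋₊} :=
    (Ideal.finite_setOfPred_absNorm_le ⌊x⌋₊).to_subtype
  exact Finite.of_injective
    (fun i => (⟨i.1.1, Nat.le_floor i.2⟩ : {I : Ideal (𝓞 k) // Ideal.absNorm I ≤ ⌊x⌋₊}))
    (fun i j hij => by
      have h2 : (i.1.1 : Ideal (𝓞 k)) = j.1.1 := Subtype.mk.inj hij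
      exact Subtype.ext (Subtype.ext h2))

theorem one_le_norm (I : (Ideal (𝓞 k))⁰) : 1 ≤ Ideal.absNorm (I : Ideal (𝓞 k)) :=
  Nat.one_le_iff_ne_zero.mpr (mt Ideal.absNorm_eq_zero_iff.mp (nonZeroDivisors.coe_ne_zero I))

theorem count_le {κ : ℝ} (hκ : resid k < κ) (hκ0 : 0 ≤ κ) : ∃ C : ℝ, 0 ≤ C ∧ ∀ s : ℝ, 0 ≤ s →
    (Nat.card {I : (Ideal (𝓞 k))⁰ // (Ideal.absNorm (I : Ideal (𝓞 k)) : ℝ) ≤ s} : ℝ) ≤
      κ * s + C := by
  have h := NumberField.Ideal.tendsto_norm_le_div_atTop₀ k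
  have h1 := (h.eventually_lt_const (u := κ) hκ).and (eventually_ge_atTop (1 : ℝ))
  obtain ⟨s0, hs0⟩ := eventually_atTop.mp h1
  refine ⟨Nat.card {I : (Ideal (𝓞 k))⁰ // (Ideal.absNorm (I : Ideal (𝓞 k)) : ℝ) ≤ s0},
    Nat.cast_nonneg _, ?_⟩
  intro s hs
  by_cases hss : s0 ≤ s
  · obtain ⟨h2, h3⟩ := hs0 s hss
    rw [div_lt_iff₀ (by linarith)] at h2
    have : (0 : ℝ) ≤ (Nat.card {I : (Ideal (𝓞 k))⁰ //
      (Ideal.absNorm (I : Ideal (𝓞 k)) : ℝ) ≤ s0} : ℝ) := Nat.cast_nonneg _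
    linarith
  · push Not at hss
    have hf := finite_le k s0
    have h4 : Nat.card {I : (Ideal (𝓞 k))⁰ // (Ideal.absNorm (I : Ideal (𝓞 k)) : ℝ) ≤ s} ≤
        Nat.card {I : (Ideal (𝓞 k))⁰ // (Ideal.absNorm (I : Ideal (𝓞 k)) : ℝ) ≤ s0} :=
      Nat.card_le_card_of_injective (fun i => ⟨i.1, i.2.trans hss.le⟩)
        (fun i j hij => Subtype.ext (by simpa using hij))
    have h5 : (Nat.card {I : (Ideal (𝓞 k))⁰ // (Ideal.absNorm (I : Ideal (𝓞 k)) : ℝ) ≤ s} : ℝ) ≤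
        Nat.card {I : (Ideal (𝓞 k))⁰ // (Ideal.absNorm (I : Ideal (𝓞 k)) : ℝ) ≤ s0} := by
      exact_mod_cast h4
    have : 0 ≤ κ * s := by positivity
    linarith

theorem finite_pair (x : ℝ) : Finite {i : ℕ+ × (Ideal (𝓞 k))⁰ //
    (((i.1 : ℕ) * Ideal.absNorm (i.2 : Ideal (𝓞 k)) : ℕ) : ℝ) ≤ x} := by
  have h1 := finite_le k x
  have h2 : Finite (Fin (⌊x⌋₊ + 1)) := inferInstance
  refine Finite.of_injective
    (β := Fin (⌊x⌋₊ + 1) × {I : (Ideal (𝓞 k))⁰ // (Ideal.absNorm (I : Ideal (𝓞 k)) : ℝ) ≤ x})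
    (fun i => (⟨i.1.1, ?_⟩, ⟨i.1.2, ?_⟩)) ?_
  · have h3 : ((i.1.1 : ℕ) : ℝ) ≤ x := by
      refine le_trans ?_ i.2
      have := Nat.le_mul_of_pos_right (i.1.1 : ℕ) (one_le_norm k i.1.2)
      exact_mod_cast this
    have := Nat.le_floor h3
    omega
  · refine le_trans ?_ i.2
    have := Nat.le_mul_of_pos_left (Ideal.absNorm (i.1.2 : Ideal (𝓞 k))) i.1.1.pos
    exact_mod_cast this
  · intro i j hij
    simp only [Prod.mk.injEq, Fin.mk.injEq, Subtype.mk.injEq] at hij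
    exact Subtype.ext (Prod.ext (PNat.coe_injective hij.1) hij.2)

/-- number of pairs -/
theorem count_pair_le {κ : ℝ} (hκ : resid k < κ) (hκ0 : 0 ≤ κ) : ∃ C : ℝ, 0 ≤ C ∧
    ∀ x : ℝ, 1 ≤ x → (Nat.card {i : ℕ+ × (Ideal (𝓞 k))⁰ //
      (((i.1 : ℕ) * Ideal.absNorm (i.2 : Ideal (𝓞 k)) : ℕ) : ℝ) ≤ x} : ℝ) ≤
        κ * x * Real.log x + C * x := by
  obtain ⟨C, hC, h⟩ := count_le k hκ hκ0
  refine ⟨κ + C, by positivity, ?_⟩
  intro x hx
  set N := ⌊x⌋₊ with hN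
  have hfin : ∀ n : ℕ, Finite {I : (Ideal (𝓞 k))⁰ //
      (Ideal.absNorm (I : Ideal (𝓞 k)) : ℝ) ≤ x / n} := fun n => finite_le k _
  let f : {i : ℕ+ × (Ideal (𝓞 k))⁰ //
      (((i.1 : ℕ) * Ideal.absNorm (i.2 : Ideal (𝓞 k)) : ℕ) : ℝ) ≤ x} →
      (Σ n : Finset.Icc 1 N, {I : (Ideal (𝓞 k))⁰ //
        (Ideal.absNorm (I : Ideal (𝓞 k)) : ℝ) ≤ x / (n : ℕ)}) := fun i =>
    ⟨⟨i.1.1, by
      rw [Finset.mem_Icc]
      refine ⟨i.1.1.pos, Nat.le_floor ?_⟩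
      refine le_trans ?_ i.2
      have := Nat.le_mul_of_pos_right (i.1.1 : ℕ) (one_le_norm k i.1.2)
      exact_mod_cast this⟩, ⟨i.1.2, by
      have hpos : (0 : ℝ) < (i.1.1 : ℕ) := by exact_mod_cast i.1.1.pos
      rw [le_div_iff₀ hpos, mul_comm]
      have := i.2
      push_cast at this
      exact this⟩⟩
  have hf : Function.Injective f := by
    intro i j hij
    have h1 : ((f i).1 : ℕ) = (f j).1 := by rw [hij]
    have h2 : ((f i).2 : (Ideal (𝓞 k))⁰) = ((f j).2 : (Ideal (𝓞 k))⁰) := by rw [hij]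
    exact Subtype.ext (Prod.ext (PNat.coe_injective h1) h2)
  have h1 := Nat.card_le_card_of_injective f hf
  rw [Nat.card_sigma] at h1
  have h2 : (∑ n : Finset.Icc 1 N, Nat.card {I : (Ideal (𝓞 k))⁰ //
        (Ideal.absNorm (I : Ideal (𝓞 k)) : ℝ) ≤ x / (n : ℕ)}) =
      ∑ n ∈ Finset.Icc 1 N, Nat.card {I : (Ideal (𝓞 k))⁰ //
        (Ideal.absNorm (I : Ideal (𝓞 k)) : ℝ) ≤ x / (n : ℕ)} := by
    rw [← Finset.sum_coe_sort (Finset.Icc 1 N)]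
  rw [h2] at h1
  have h3 : ((∑ n ∈ Finset.Icc 1 N, Nat.card {I : (Ideal (𝓞 k))⁰ //
        (Ideal.absNorm (I : Ideal (𝓞 k)) : ℝ) ≤ x / (n : ℕ)} : ℕ) : ℝ) ≤
      ∑ n ∈ Finset.Icc 1 N, (κ * (x / n) + C) := by
    push_cast
    apply Finset.sum_le_sum
    intro n _
    exact h (x / n) (by positivity)
  have h4 : ∑ n ∈ Finset.Icc 1 N, (κ * (x / n) + C) =
      κ * x * ∑ n ∈ Finset.Icc 1 N, (n : ℝ)⁻¹ + N * C := by
    rw [Finset.sum_add_distrib, Finset.sum_const, Nat.card_Icc, nsmul_eq_mul, Finset.mul_sum]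
    congr 1
    exact Finset.sum_congr rfl fun n _ => by rw [div_eq_mul_inv]; ring
  have h5 : ∑ n ∈ Finset.Icc 1 N, (n : ℝ)⁻¹ ≤ 1 + Real.log x := by
    have h6 := harmonic_le_one_add_log N
    rw [harmonic_eq_sum_Icc] at h6
    push_cast at h6
    refine h6.trans ?_
    have h7 : (N : ℝ) ≤ x := Nat.floor_le (by linarith)
    have h8 : (0 : ℝ) < N := by
      have : 1 ≤ N := Nat.le_floor (by simpa using hx)
      exact_mod_cast this
    linarith [Real.log_le_log h8 h7]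
  have h9 : (N : ℝ) ≤ x := Nat.floor_le (by linarith)
  calc _ ≤ ((∑ n ∈ Finset.Icc 1 N, Nat.card {I : (Ideal (𝓞 k))⁰ //
        (Ideal.absNorm (I : Ideal (𝓞 k)) : ℝ) ≤ x / (n : ℕ)} : ℕ) : ℝ) := by exact_mod_cast h1
    _ ≤ _ := h3
    _ = _ := h4
    _ ≤ κ * x * (1 + Real.log x) + x * C := by gcongr
    _ = κ * x * Real.log x + (κ + C) * x := by ring

end Pool.Agent.Work.MuB
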