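import Pool.Agent.Work.MP_a4986b_nt.DCount
import Pool.Agent.Work.MP_a4986b_nt.CClosure
import Pool.Agent.Work.MP_a4986b_nt.CIdeal
import Pool.Agent.Work.MP_a4986b_nt.Unfold
import Pool.Agent.Work.MP_a4986b_nt.SumKK
import Pool.Agent.Work.MP_a4986b_nt.Artin
import Pool.Agent.Work.MP_a4986b_nt.BClassA
import Pool.Agent.Work.MP_a4986b_nt.BCover

set_option autoImplicit false
set_option maxHeartbeats 400000

/-! # Theorem D: complex cubic fields with fixed imaginary quadratic resolvent, sharp constant -/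

namespace Pool.Agent.Work.MuB

open NumberField Module NumberField.InfinitePlace NumberField.Units Filter MeasureTheory
open scoped nonZeroDivisors Real Topology ENNReal

theorem kk_anti {x y : ℝ} (h : x ≤ y) : Mu22.kk y ≤ Mu22.kk x := by
  unfold Mu22.kk
  refine lintegral_mono fun s => ENNReal.ofReal_le_ofReal (Real.exp_le_exp.mpr ?_)
  have := mul_le_mul_of_nonneg_left h (Real.exp_pos s).le
  linarith

/-- the final comparison -/
theorem final_cmp {A κ C' : ℝ} (hκ : 0 ≤ κ) (hA : 3 * κ / (4 * π) < A) :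
    ∃ l D0 : ℝ, 1 ≤ l ∧ 48 ≤ D0 ∧ ∀ h D : ℝ, D0 ≤ D → 0 ≤ h →
      h * (Real.log ((D - 24) / 4) / 3) * (4 * π * l - 1) ≤
        2 * (κ * (l * √D) * Real.log (l * √D) + C' * (l * √D)) → h ≤ A * √D := by
  have hπ := Real.pi_gt_three
  have hA0 : 0 < A := lt_of_le_of_lt (by positivity) hA
  -- choice of `l`
  obtain ⟨l, hl1, hl⟩ : ∃ l : ℝ, 1 ≤ l ∧ 3 * l * κ < A * (4 * π * l - 1) := by
    have h1 : 0 < A * (4 * π) - 3 * κ := by
      rw [div_lt_iff₀ (by positivity)] at hA
      linarith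
    refine ⟨max 1 ((A + 1) / (A * (4 * π) - 3 * κ)), le_max_left _ _, ?_⟩
    have h2 := le_max_right 1 ((A + 1) / (A * (4 * π) - 3 * κ))
    rw [div_le_iff₀ h1] at h2
    linarith
  have hl0 : 0 < l := by linarith
  set q : ℝ := A * (4 * π * l - 1) / 3 - l * κ with hq
  have hq0 : 0 < q := by rw [hq]; linarith
  set W : ℝ := A * (4 * π * l - 1) / 3 * Real.log 8 + 2 * l * κ * Real.log l + 2 * l * C' with hW
  obtain ⟨D1, hD1⟩ := (tendsto_atTop.mp Real.tendsto_log_atTop (|W| / q + 1)).exists_forall_of_atTop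
  refine ⟨l, max D1 48, hl1, le_max_right _ _, ?_⟩
  intro h D hD hh hle
  have hDD1 : D1 ≤ D := (le_max_left _ _).trans hD
  have hD48 : 48 ≤ D := (le_max_right _ _).trans hD
  have hlog := hD1 D hDD1
  by_contra hcon
  push Not at hcon
  have hD0 : 0 < D := by linarith
  have hs : 0 < √D := Real.sqrt_pos.mpr hD0
  have hlogs : Real.log (l * √D) = Real.log l + Real.log D / 2 := by
    rw [Real.log_mul hl0.ne' hs.ne', Real.log_sqrt hD0.le]
  have hR : Real.log D - Real.log 8 ≤ Real.log ((D - 24) / 4) := by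
    rw [← Real.log_div hD0.ne' (by norm_num)]
    apply Real.log_le_log (by positivity)
    linarith
  have hR0 : 0 ≤ Real.log ((D - 24) / 4) := Real.log_nonneg (by linarith)
  have h4 : 0 < 4 * π * l - 1 := by nlinarith
  have h5 : A * √D * (Real.log ((D - 24) / 4) / 3) * (4 * π * l - 1) ≤
      2 * (κ * (l * √D) * Real.log (l * √D) + C' * (l * √D)) := by
    refine le_trans ?_ hle
    gcongr
  rw [hlogs] at h5
  have h6 : √D * (A * (Real.log ((D - 24) / 4) / 3) * (4 * π * l - 1)) ≤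
      √D * (2 * (κ * l * (Real.log l + Real.log D / 2) + C' * l)) := by
    calc _ = A * √D * (Real.log ((D - 24) / 4) / 3) * (4 * π * l - 1) := by ring
      _ ≤ _ := h5
      _ = _ := by ring
  have h7 := le_of_mul_le_mul_left h6 hs
  have h8 : A * ((Real.log D - Real.log 8) / 3) * (4 * π * l - 1) ≤
      A * (Real.log ((D - 24) / 4) / 3) * (4 * π * l - 1) := by gcongr
  have h9 : q * Real.log D ≤ W := by
    rw [hq, hW]
    nlinarith [h7, h8]
  have h10 : q * (|W| / q + 1) ≤ q * Real.log D := mul_le_mul_of_nonneg_left hlog hq0.le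
  have h11 : q * (|W| / q + 1) = |W| + q := by
    field_simp
  have h12 := le_abs_self W
  linarith

/-- the discriminant of a quadratic field is a square in it -/
theorem exists_sqrt_discr_quad (k : Type) [Field k] [NumberField k] (hk : finrank ℚ k = 2) :
    ∃ s : k, s ^ 2 = (discr k : k) := by
  have hq : Algebra.IsQuadraticExtension ℚ k := { toFree := inferInstance, finrank_eq_two' := hk }
  have hN : Normal ℚ k := inferInstance
  obtain ⟨x, hx, hx2⟩ := exists_sqrt_discr ℚ k (AlgebraicClosure ℚ) (integralBasis k)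
  have f0 : k →ₐ[ℚ] AlgebraicClosure ℚ := IsAlgClosed.lift
  have h1 : IntermediateField.normalClosure ℚ k (AlgebraicClosure ℚ) = f0.fieldRange := by
    refine le_antisymm ?_ f0.fieldRange_le_normalClosure
    have h3 : finrank ℚ (IntermediateField.normalClosure ℚ k (AlgebraicClosure ℚ)) = finrank ℚ f0.fieldRange := by
      rw [finrank_normalClosure_of_normal]
      exact (AlgEquiv.ofInjectiveField f0).toLinearEquiv.finrank_eq
    have h4 : f0.fieldRange = IntermediateField.normalClosure ℚ k (AlgebraicClosure ℚ) := by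
      have : FiniteDimensional ℚ (IntermediateField.normalClosure ℚ k (AlgebraicClosure ℚ)) := inferInstance
      exact IntermediateField.eq_of_le_of_finrank_eq f0.fieldRange_le_normalClosure h3.symm
    rw [h4]
  rw [h1] at hx
  obtain ⟨s, hs⟩ := hx
  refine ⟨s, ?_⟩
  have hs' : f0 s = x := hs
  have h5 : f0 (s ^ 2) = f0 (discr k : k) := by
    rw [map_pow, hs', hx2, ← coe_discr]
    simp
  exact f0.injective h5

/-- the class number of a cubic field with resolvent `k` imaginary quadratic -/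
theorem class_le_imag (k : Type) [Field k] [NumberField k] (hk : finrank ℚ k = 2)
    (him : nrComplexPlaces k = 1) {A : ℝ} (hA : 3 * resid k / (4 * π) < A) :
    ∃ D0 : ℝ, ∀ (F : Type) [Field F] [NumberField F], finrank ℚ F = 3 →
      (∃ f : ℤ, discr F = discr k * f ^ 2) → D0 ≤ |(discr F : ℝ)| →
        (Nat.card (ClassGroup (𝓞 F)) : ℝ) ≤ A * √|(discr F : ℝ)| := by
  classical
  have hres0 : 0 ≤ resid k := by
    unfold resid
    have := regulator_pos k
    positivity
  obtain ⟨κ, hκ1, hκ2⟩ : ∃ κ : ℝ, resid k < κ ∧ 3 * κ / (4 * π) < A := by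
    have h1 : resid k < A * (4 * π) / 3 := by
      rw [div_lt_iff₀ (by positivity)] at hA
      linarith
    obtain ⟨κ, h2, h3⟩ := exists_between h1
    refine ⟨κ, h2, ?_⟩
    rw [div_lt_iff₀ (by positivity)]
    linarith
  have hκ0 : 0 ≤ κ := hres0.trans hκ1.le
  obtain ⟨C, hC0, hC⟩ := count_pair_le k hκ1 hκ0
  obtain ⟨C', hC'0, hC'⟩ := Mu22.tsum_kk_le κ C hκ0 hC0
  obtain ⟨l, D0, hl1, hD048, hfinal⟩ := final_cmp (C' := C') hκ0 hκ2
  refine ⟨max D0 108, ?_⟩
  intro F _ _ hF ⟨f, hf⟩ hDF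
  have hDD0 : D0 ≤ |(discr F : ℝ)| := (le_max_left _ _).trans hDF
  have hD108 : 108 ≤ |(discr F : ℝ)| := (le_max_right _ _).trans hDF
  set D := |(discr F : ℝ)| with hD
  -- signs
  have hsk : (discr k).sign = -1 := by rw [sign_discr, him, pow_one]
  have hdk : discr k < 0 := Int.sign_eq_neg_one_iff_neg.mp hsk
  have hnsq : ¬ IsSquare (discr k) := by
    rintro ⟨a, ha⟩
    nlinarith [mul_self_nonneg a]
  obtain ⟨s, hs⟩ := exists_sqrt_discr_quad k hk
  obtain ⟨hng, L, _, _, _, _, hgal, hL6⟩ := exists_closure (discr k) hnsq k hk s hs F hF f hf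
  have hf0 : f ≠ 0 := by
    rintro rfl
    have := discr_ne_zero F
    rw [hf] at this
    simp at this
  have hdF : discr F < 0 := by
    rw [hf]
    exact mul_neg_of_neg_of_pos hdk (by positivity)
  have hcF : nrComplexPlaces F = 1 := by
    have h1 : (discr F).sign = -1 := Int.sign_eq_neg_one_iff_neg.mpr hdF
    rw [sign_discr] at h1
    have h2 := card_add_two_mul_card_eq_rank F
    rw [hF] at h2
    have h3 : nrComplexPlaces F ≤ 1 := by omega
    interval_cases nrComplexPlaces F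
    · simp at h1
    · rfl
  have hrF : nrRealPlaces F = 1 := by
    have h2 := card_add_two_mul_card_eq_rank F
    rw [hF, hcF] at h2
    omega
  -- the embeddings
  obtain ⟨w, hw⟩ : ∃ w : InfinitePlace F, w.IsReal := by
    have : 0 < nrRealPlaces F := by omega
    rw [nrRealPlaces, Fintype.card_pos_iff] at this
    exact ⟨this.some.1, this.some.2⟩
  obtain ⟨v, hv⟩ : ∃ v : InfinitePlace F, v.IsComplex := by
    have : 0 < nrComplexPlaces F := by omega
    rw [nrComplexPlaces, Fintype.card_pos_iff] at this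
    exact ⟨this.some.1, this.some.2⟩
  set φ : F →+* ℝ := embedding_of_isReal hw with hφ
  set ψ : F →+* ℂ := v.embedding with hψ
  have hψc : ¬ ComplexEmbedding.IsReal ψ := isComplex_iff.mp hv
  have hR : ∀ u : (𝓞 F)ˣ, u ≠ 1 → u ≠ -1 →
      Real.log ((D - 24) / 4) / 3 ≤ abs (Real.log (abs (φ (u : 𝓞 F)))) :=
    fun u h1 h2 => Mu22.artin_log hF φ ψ hψc hD108 u h1 h2
  have hR0 : 0 < Real.log ((D - 24) / 4) / 3 := by
    have : 0 < Real.log ((D - 24) / 4) := Real.log_pos (by linarith)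
    positivity
  have hs1 : 1 ≤ √D := by
    rw [Real.one_le_sqrt]; linarith
  have hY : 0 < l * √D := by positivity
  have hY1 : 1 ≤ l * √D := by nlinarith
  have h1 := Mu22.unfold_ineq hF φ ψ hψc _ hR0 hR (l * √D) hY
  -- the sum over the ideals
  have h2 : ∑' I : {I : Ideal (𝓞 F) // I ≠ ⊥}, Mu22.kk (Ideal.absNorm I.1 / (l * √D)) ≤
      ENNReal.ofReal (κ * (l * √D) * Real.log (l * √D) + C' * (l * √D)) := by
    have h3 : ∑' I : {I : Ideal (𝓞 F) // I ≠ ⊥}, Mu22.kk (Ideal.absNorm I.1 / (l * √D)) =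
        ∑' I : (Ideal (𝓞 F))⁰, Mu22.kk (Ideal.absNorm (I : Ideal (𝓞 F)) / (l * √D)) := by
      let e : {I : Ideal (𝓞 F) // I ≠ ⊥} ≃ (Ideal (𝓞 F))⁰ :=
        Equiv.subtypeEquivRight fun I => mem_nonZeroDivisors_iff_ne_zero.symm
      exact (e.tsum_eq (fun I : (Ideal (𝓞 F))⁰ =>
        Mu22.kk (Ideal.absNorm (I : Ideal (𝓞 F)) / (l * √D))))
    rw [h3]
    have hcnt : Countable ((Ideal (𝓞 k))⁰) := countable_ideals
    refine (tsum_cubic_le (k := k) (L := L) hF hk hL6 hng
      (fun n => Mu22.kk (n / (l * √D))) ?_).trans ?_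
    · intro m n _ hmn
      apply kk_anti
      gcongr
    · refine hC' (ℕ+ × (Ideal (𝓞 k))⁰)
        (fun x => (x.1 : ℕ) * Ideal.absNorm (x.2 : Ideal (𝓞 k))) ?_ ?_ hC (l * √D) hY1
      · intro x
        exact Nat.mul_pos x.1.pos (one_le_norm k x.2)
      · intro x
        have := finite_pair k (x : ℝ)
        exact Finite.of_injective (β := {i : ℕ+ × (Ideal (𝓞 k))⁰ //
          (((i.1 : ℕ) * Ideal.absNorm (i.2 : Ideal (𝓞 k)) : ℕ) : ℝ) ≤ x})
          (fun i => ⟨i.1, by exact_mod_cast i.2⟩)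
          (fun i j hij => Subtype.ext (by simpa using hij))
  have h3 := h1.trans (mul_le_mul_right h2 2)
  have hB0 : 0 ≤ κ * (l * √D) * Real.log (l * √D) + C' * (l * √D) := by
    have : 0 ≤ Real.log (l * √D) := Real.log_nonneg hY1
    positivity
  rw [show (2 : ℝ≥0∞) = ENNReal.ofReal 2 by simp, ← ENNReal.ofReal_mul (by norm_num),
    ENNReal.ofReal_le_ofReal_iff (by positivity)] at h3
  have h4 : 4 * π * (l * √D) / √D - 1 = 4 * π * l - 1 := by
    have : √D ≠ 0 := by positivity
    field_simp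
  rw [h4] at h3
  exact hfinal _ D hDD0 (Nat.cast_nonneg _) h3

end Pool.Agent.Work.MuB
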