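import Pool.Agent.Work.MP_a4986b_nt.Defs

set_option autoImplicit false
set_option maxHeartbeats 400000

namespace Pool.Agent.Work.Mu22

open NumberField Module MeasureTheory
open scoped Pointwise nonZeroDivisors ENNReal Real

/-- A1: Cauchy-Schwarz for the periodisation -/
theorem autocorr {E : Type*} [AddCommGroup E] [MeasurableSpace E] [MeasurableAdd₂ E]
    (μ : Measure E) [SFinite μ] [μ.IsAddLeftInvariant] (Λ : AddSubgroup E) [Countable Λ]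
    (D : Set E) (hD : IsAddFundamentalDomain Λ D μ) (g : E → ℝ≥0∞) (hg : Measurable g) :
    (∫⁻ x, g x ∂μ) ^ 2 ≤ μ D * ∑' v : Λ, ∫⁻ x, g x * g (x + v) ∂μ := by
  sorry

section

variable {K : Type*} [Field K] [NumberField K]

/-- A2: theta inequality for an ideal of a field of signature (1, 1) -/
theorem theta_ineq (h3 : finrank ℚ K = 3) (φ : K →+* ℝ) (ψ : K →+* ℂ)
    (hψ : ¬ ComplexEmbedding.IsReal ψ) (I : Ideal (𝓞 K)) (hI : I ≠ ⊥) (a b : ℝ) (ha : 0 < a)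
    (hb : 0 < b) :
    ENNReal.ofReal (4 * π * a * b / (Ideal.absNorm I * √|(discr K : ℝ)|)) ≤
      ∑' x : I, ENNReal.ofReal
        (Real.exp (-(π / 4) * (φ (x : 𝓞 K) / a) ^ 2 - ‖ψ (x : 𝓞 K)‖ ^ 2 / b)) := by
  sorry

/-- A3: unfolding over all classes and units -/
theorem unfold_ineq (h3 : finrank ℚ K = 3) (φ : K →+* ℝ) (ψ : K →+* ℂ)
    (hψ : ¬ ComplexEmbedding.IsReal ψ) (R : ℝ) (hR : 0 < R)
    (hunit : ∀ u : (𝓞 K)ˣ, u ≠ 1 → u ≠ -1 → R ≤ abs (Real.log (abs (φ (u : 𝓞 K))))) (Y : ℝ)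
    (hY : 0 < Y) :
    ENNReal.ofReal (Nat.card (ClassGroup (𝓞 K)) * R * (4 * π * Y / √|(discr K : ℝ)| - 1)) ≤
      2 * ∑' I : {I : Ideal (𝓞 K) // I ≠ ⊥}, kk (Ideal.absNorm I.1 / Y) := by
  sorry

/-- D1: multiplicativity of the number of ideals of given norm -/
theorem card_norm_mul {m n : ℕ} (hm : m ≠ 0) (hn : n ≠ 0) (h : m.Coprime n) :
    Nat.card {I : Ideal (𝓞 K) // Ideal.absNorm I = m * n} =
      Nat.card {I : Ideal (𝓞 K) // Ideal.absNorm I = m} *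
        Nat.card {I : Ideal (𝓞 K) // Ideal.absNorm I = n} := by
  sorry

/-- D2a: at most three primes above `q` -/
theorem card_norm_pow_le (h3 : finrank ℚ K = 3) {q : ℕ} (hq : q.Prime) (k : ℕ) :
    Nat.card {I : Ideal (𝓞 K) // Ideal.absNorm I = q ^ k} ≤ (k + 2).choose 2 := by
  sorry

/-- D2b: `q = 3` -/
theorem card_norm_pow_le_three (h3 : finrank ℚ K = 3) {p : ℕ} (hp : p.Prime) (hp3 : 3 < p)
    (t : 𝓞 K) (ht : t ^ 3 = p) (k : ℕ) :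
    Nat.card {I : Ideal (𝓞 K) // Ideal.absNorm I = 3 ^ k} ≤ k + 1 := by
  sorry

/-- D2c: `q = 2 mod 3`, `q ≠ p` -/
theorem card_norm_pow_le_two (h3 : finrank ℚ K = 3) {p : ℕ} (hp : p.Prime) (hp3 : 3 < p)
    (t : 𝓞 K) (ht : t ^ 3 = p) {q : ℕ} (hq : q.Prime) (hq2 : q % 3 = 2) (hqp : q ≠ p) (k : ℕ) :
    Nat.card {I : Ideal (𝓞 K) // Ideal.absNorm I = q ^ k} ≤ k / 2 + 1 := by
  sorry

/-- D2d: `q = p` -/
theorem card_norm_pow_le_p (h3 : finrank ℚ K = 3) {p : ℕ} (hp : p.Prime)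
    (t : 𝓞 K) (ht : t ^ 3 = p) (k : ℕ) :
    Nat.card {I : Ideal (𝓞 K) // Ideal.absNorm I = p ^ k} ≤ 1 := by
  sorry

/-- D2e -/
theorem onePrime_of_cube (h3 : finrank ℚ K = 3) {p : ℕ} (hp : p.Prime)
    (t : 𝓞 K) (ht : t ^ 3 = p) : OnePrime p K := by
  sorry

/-- D4 -/
theorem card_norm_le_bb (h3 : finrank ℚ K = 3) {p : ℕ} (hp : p.Prime) (hp3 : 3 < p)
    (t : 𝓞 K) (ht : t ^ 3 = p) {n : ℕ} (hn : n ≠ 0) :
    (Nat.card {I : Ideal (𝓞 K) // Ideal.absNorm I = n} : ℤ) ≤ bb n := by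
  sorry

/-- G1: lower bound for the units -/
theorem unit_bound : ∃ C : ℝ, ∀ (K : Type) [Field K] [NumberField K], finrank ℚ K = 3 →
    ∀ p : ℕ, p.Prime → C ≤ p → ∀ t : 𝓞 K, t ^ 3 = p → ∀ φ : K →+* ℝ,
      ∀ u : (𝓞 K)ˣ, u ≠ 1 → u ≠ -1 →
        2 / 3 * Real.log p - C ≤ abs (Real.log (abs (φ (u : 𝓞 K)))) := by
  sorry

/-- H1: the discriminant -/
theorem discr_le (h3 : finrank ℚ K = 3) {p : ℕ} (hp : p.Prime) (t : 𝓞 K) (ht : t ^ 3 = p) :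
    |(discr K : ℝ)| ≤ 27 * (p : ℝ) ^ 2 := by
  sorry

/-- S1: the signature -/
theorem exists_embeddings (h3 : finrank ℚ K = 3) {p : ℕ} (hp : p.Prime) (t : 𝓞 K)
    (ht : t ^ 3 = p) :
    (∃ _ : K →+* ℝ, True) ∧ ∃ ψ : K →+* ℂ, ¬ ComplexEmbedding.IsReal ψ := by
  sorry

end

/-- D3a -/
theorem bb_mul {m n : ℕ} (h : m.Coprime n) : bb (m * n) = bb m * bb n := by
  sorry

/-- D3b -/
theorem bb_pow_one {q : ℕ} (hq : q.Prime) (h : q % 3 = 1) (k : ℕ) :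
    bb (q ^ k) = ((k + 2).choose 2 : ℤ) := by
  sorry

/-- D3c -/
theorem bb_pow_two {q : ℕ} (hq : q.Prime) (h : q % 3 = 2) (k : ℕ) :
    bb (q ^ k) = ((k / 2 + 1 : ℕ) : ℤ) := by
  sorry

/-- D3d -/
theorem bb_pow_three (k : ℕ) : bb (3 ^ k) = ((k + 1 : ℕ) : ℤ) := by
  sorry

/-- E1 -/
theorem sum_bb_le : ∃ C : ℝ, 0 ≤ C ∧ ∀ x : ℝ, 1 ≤ x →
    ∑ n ∈ Finset.Icc 1 ⌊x⌋₊, (bb n : ℝ) ≤ 0.693 * x * Real.log x + C * x := by
  sorry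

/-- F1 -/
theorem tsum_kk_le (c C : ℝ) (hc : 0 ≤ c) (hC : 0 ≤ C) : ∃ C' : ℝ, 0 ≤ C' ∧
    ∀ (ι : Type) [Countable ι] (N : ι → ℕ), (∀ i, 1 ≤ N i) → (∀ x : ℕ, Finite {i // N i ≤ x}) →
      (∀ x : ℝ, 1 ≤ x → (Nat.card {i // (N i : ℝ) ≤ x} : ℝ) ≤ c * x * Real.log x + C * x) →
      ∀ Y : ℝ, 1 ≤ Y → ∑' i, kk (N i / Y) ≤ ENNReal.ofReal (c * Y * Real.log Y + C' * Y) := by
  sorry

/-- I1 -/
theorem classNumber_lt : ∃ p₀ : ℕ, ∀ (K : Type) [Field K] [NumberField K], finrank ℚ K = 3 →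
    ∀ p : ℕ, p.Prime → p₀ ≤ p → ∀ t : 𝓞 K, t ^ 3 = p →
      Nat.card (ClassGroup (𝓞 K)) < p := by
  sorry

end Pool.Agent.Work.Mu22
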