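import Pool.Agent.Work.MP_a4986b_nt.Skel1
import Pool.Agent.Work.MP_a4986b_nt.Skel2

set_option autoImplicit false
set_option maxHeartbeats 400000

namespace Pool.Agent.Work.Mu22

open NumberField Module IntermediateField
open scoped Pointwise nonZeroDivisors ENNReal Real

theorem finrank_adjoin_cbrt {p : ℕ} (hp : p.Prime) (z : ℂ) (hz : z ^ 3 = p) :
    finrank ℚ ℚ⟮z⟯ = 3 := by
  have hirr : Irreducible (Polynomial.X ^ 3 - Polynomial.C (p : ℚ)) := by
    have h := Polynomial.irreducible_of_eisenstein_criterion (R := ℤ)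
      (P := Ideal.span {(p : ℤ)}) (f := Polynomial.X ^ 3 - Polynomial.C (p : ℤ)) ?_ ?_ ?_ ?_ ?_ ?_
    · have h2 := (Polynomial.IsPrimitive.Int.irreducible_iff_irreducible_map_cast
        (Polynomial.Monic.isPrimitive (Polynomial.monic_X_pow_sub_C _ three_ne_zero))).mp h
      simpa using h2
    · rw [Ideal.span_singleton_prime (by exact_mod_cast hp.ne_zero)]
      exact Nat.prime_iff_prime_int.mp hp
    · rw [Polynomial.leadingCoeff_X_pow_sub_C (by norm_num)]
      rw [Ideal.mem_span_singleton]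
      intro h
      have := Int.isUnit_iff.mp (isUnit_of_dvd_one h)
      have h2 := hp.two_le
      omega
    · intro n hn
      have hd : (Polynomial.X ^ 3 - Polynomial.C (p : ℤ)).degree = 3 :=
        Polynomial.degree_X_pow_sub_C (by norm_num) _
      rw [hd] at hn
      have hn3 : n < 3 := by exact_mod_cast hn
      rw [Polynomial.coeff_sub, Polynomial.coeff_X_pow, if_neg (by omega), Polynomial.coeff_C]
      split_ifs
      · rw [zero_sub, Ideal.neg_mem_iff]; exact Ideal.mem_span_singleton_self _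
      · simp
    · rw [Polynomial.degree_X_pow_sub_C (by norm_num)]; norm_num
    · rw [Polynomial.coeff_sub, Polynomial.coeff_X_pow, if_neg (by norm_num),
        Polynomial.coeff_C_zero, zero_sub, Ideal.neg_mem_iff, pow_two, Ideal.span_singleton_mul_span_singleton,
        Ideal.mem_span_singleton]
      rintro ⟨c, hc⟩
      have hp0 : (p : ℤ) ≠ 0 := by exact_mod_cast hp.ne_zero
      have : (p : ℤ) * c = 1 := by
        have : (p : ℤ) * ((p : ℤ) * c) = p * 1 := by linarith [hc]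
        exact mul_left_cancel₀ hp0 this
      have := Int.isUnit_iff.mp (IsUnit.of_mul_eq_one _ this)
      have h2 := hp.two_le
      omega
    · exact Polynomial.Monic.isPrimitive (Polynomial.monic_X_pow_sub_C _ three_ne_zero)
  have hint : IsIntegral ℚ z := by
    refine ⟨Polynomial.X ^ 3 - Polynomial.C (p : ℚ), Polynomial.monic_X_pow_sub_C _ three_ne_zero, ?_⟩
    simp [hz]
  rw [IntermediateField.adjoin.finrank hint]
  have hmin : minpoly ℚ z = Polynomial.X ^ 3 - Polynomial.C (p : ℚ) := by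
    refine (minpoly.eq_of_irreducible_of_monic hirr ?_ (Polynomial.monic_X_pow_sub_C _ three_ne_zero)).symm
    simp [hz]
  rw [hmin, Polynomial.natDegree_X_pow_sub_C]

theorem main : ∃ p₀ : ℕ, ∀ p : ℕ, p.Prime → p₀ ≤ p →
    (∀ (F : Type) [Field F] [NumberField F], finrank ℚ F = 3 → (∃ t : F, t ^ 3 = p) →
      Nat.card (ClassGroup (𝓞 F)) < p ∧
      ∀ (L : Type) [Field L] [NumberField L] [Algebra F L] [IsGalois F L] (n : ℕ),
        finrank F L = p ^ n →
        (∀ Q : Ideal (𝓞 L), Q.IsPrime → Q ≠ ⊥ → (p : 𝓞 L) ∉ Q → Q.ramificationIdx (𝓞 F) = 1) →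
        ¬ p ∣ Nat.card (ClassGroup (𝓞 L))) ∧
    (∀ z : ℂ, z ^ 3 = p → ∀ (m : ℕ) (E : IntermediateField ℚ ℂ),
      E ≤ IntermediateField.adjoin ℚ {w : ℂ | w ^ (p ^ (m + 1)) = 1} → finrank ℚ E = p ^ m →
      ¬ p ∣ Nat.card (ClassGroup (𝓞 ↥(ℚ⟮z⟯ ⊔ E)))) := by
  obtain ⟨p₀, h₀⟩ := classNumber_lt
  refine ⟨max p₀ 5, fun p hp hpp => ?_⟩
  have h0p : p₀ ≤ p := (le_max_left _ _).trans hpp
  have h5p : 5 ≤ p := (le_max_right _ _).trans hpp
  have key : ∀ (F : Type) [Field F] [NumberField F], finrank ℚ F = 3 → (∃ t : F, t ^ 3 = p) →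
      Nat.card (ClassGroup (𝓞 F)) < p ∧ ¬ p ∣ Nat.card (ClassGroup (𝓞 F)) ∧ OnePrime p F := by
    intro F _ _ h3 ⟨t, ht⟩
    have hint : IsIntegral ℤ t := by
      refine ⟨Polynomial.X ^ 3 - Polynomial.C (p : ℤ),
        Polynomial.monic_X_pow_sub_C _ three_ne_zero, ?_⟩
      simp [ht]
    obtain ⟨t', rfl⟩ : ∃ t' : 𝓞 F, algebraMap (𝓞 F) F t' = t := ⟨⟨t, hint⟩, rfl⟩
    have ht' : t' ^ 3 = p := by
      apply FaithfulSMul.algebraMap_injective (𝓞 F) F
      rw [map_pow, map_natCast]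
      exact ht
    have hlt := h₀ F h3 p hp h0p t' ht'
    exact ⟨hlt, fun hdvd => absurd (Nat.le_of_dvd Nat.card_pos hdvd) (not_le.mpr hlt),
      onePrime_of_cube h3 hp _ ht'⟩
  constructor
  · intro F _ _ h3 ht
    obtain ⟨h1, h2, h4⟩ := key F h3 ht
    refine ⟨h1, ?_⟩
    intro L _ _ _ _ n hn hun
    have hodd : Odd (finrank ℚ L) := by
      rw [← finrank_mul_finrank ℚ F L, h3, hn]
      exact Odd.mul (by decide) ((hp.odd_of_ne_two (by omega)).pow)
    exact (tower hp n hn hodd h4 hun h2).1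
  · intro z hz m E hE hEd
    have h3 := finrank_adjoin_cbrt hp z hz
    have : FiniteDimensional ℚ ℚ⟮z⟯ := FiniteDimensional.of_finrank_pos (by rw [h3]; norm_num)
    have : NumberField ℚ⟮z⟯ := ⟨⟩
    obtain ⟨h1, h2, h4⟩ := key ℚ⟮z⟯ h3 ⟨⟨z, IntermediateField.mem_adjoin_simple_self ℚ z⟩, by
      apply Subtype.ext; simpa using hz⟩
    exact cyc_tower hp (by omega) ℚ⟮z⟯ (by rw [h3]; decide) h4 h2 m (m + 1) E hE hEd

end Pool.Agent.Work.Mu22
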