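import Pool.Agent.Work.MP_a4986b_nt.Defs2

set_option autoImplicit false
set_option maxHeartbeats 400000

/-! # N1: every pure cubic field has a cubefree radicand -/

namespace Pool.Agent.Work.Mu22

open NumberField Module Polynomial

/-- cubefree decomposition of a natural number -/
theorem cubefree_decomp (n : ℕ) (hn : n ≠ 0) :
    ∃ a b c : ℕ, c ≠ 0 ∧ n = c ^ 3 * (a * b ^ 2) ∧ Squarefree (a * b) := by
  induction n using Nat.strong_induction_on with
  | _ n ih =>
    by_cases h : ∃ p : ℕ, p.Prime ∧ p ^ 3 ∣ n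
    · obtain ⟨p, hp, m, rfl⟩ := h
      have hm : m ≠ 0 := by
        rintro rfl
        exact hn (by simp)
      have hlt : m < p ^ 3 * m := by
        have h1 : 1 < p ^ 3 := Nat.one_lt_pow (by norm_num) hp.one_lt
        nlinarith [Nat.pos_of_ne_zero hm]
      obtain ⟨a, b, c, hc, h1, h2⟩ := ih m hlt hm
      refine ⟨a, b, p * c, mul_ne_zero hp.ne_zero hc, ?_, h2⟩
      conv_lhs => rw [h1]
      ring
    · push Not at h
      obtain ⟨a, b, hab, ha⟩ := Nat.sq_mul_squarefree n
      refine ⟨a, b, 1, one_ne_zero, by rw [← hab]; ring, ?_⟩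
      have hb : Squarefree b := by
        rw [Nat.squarefree_iff_prime_squarefree]
        intro p hp hd
        refine h p hp ?_
        obtain ⟨k, rfl⟩ := hd
        refine ⟨p * k ^ 2 * a, ?_⟩
        rw [← hab]
        ring
      rw [Nat.squarefree_mul_iff]
      refine ⟨?_, ha, hb⟩
      refine Nat.coprime_of_dvd fun p hp hpa hpb => h p hp ?_
      obtain ⟨k, rfl⟩ := hpa
      obtain ⟨l, rfl⟩ := hpb
      refine ⟨k * l ^ 2, ?_⟩
      rw [← hab]
      ring

section

variable {K : Type*} [Field K] [NumberField K]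

/-- N1: every pure cubic field has a cubefree radicand -/
theorem exists_pureCubic (h3 : finrank ℚ K = 3) (x : K) (hx : x ∉ (algebraMap ℚ K).range)
    (hx3 : x ^ 3 ∈ (algebraMap ℚ K).range) : ∃ (a b : ℕ) (t : 𝓞 K), PureCubic K a b t := by
  obtain ⟨r, hr⟩ := hx3
  -- an integer multiple whose cube is a natural number
  obtain ⟨y, n, hy, hyn⟩ : ∃ (y : K) (n : ℕ), y ∉ (algebraMap ℚ K).range ∧ y ^ 3 = (n : K) := by
    have hd : (r.den : K) ≠ 0 := by exact_mod_cast r.den_ne_zero
    have key : ((r.den : K) * x) ^ 3 = ((r.num * (r.den : ℤ) ^ 2 : ℤ) : K) := by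
      rw [mul_pow, ← hr]
      have h1 : (algebraMap ℚ K r) = (r.num : K) / (r.den : K) := by
        conv_lhs => rw [← Rat.num_div_den r]
        simp
      rw [h1]
      push_cast
      field_simp
    have hnr : (r.den : K) * x ∉ (algebraMap ℚ K).range := by
      rintro ⟨s, hs⟩
      refine hx ⟨s / r.den, ?_⟩
      rw [map_div₀, hs]
      simp [hd]
    set N : ℤ := r.num * (r.den : ℤ) ^ 2 with hN
    rcases le_total 0 N with h0 | h0
    · refine ⟨(r.den : K) * x, N.toNat, hnr, ?_⟩
      rw [key]
      have : ((N.toNat : ℤ) : K) = (N : K) := by rw [Int.toNat_of_nonneg h0]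
      exact_mod_cast this.symm
    · refine ⟨-((r.den : K) * x), (-N).toNat, ?_, ?_⟩
      · rintro ⟨s, hs⟩
        exact hnr ⟨-s, by rw [map_neg, hs, neg_neg]⟩
      · have h2 : (((-N).toNat : ℤ) : K) = ((-N : ℤ) : K) := by
          rw [Int.toNat_of_nonneg (by omega)]
        have h3 : (-((r.den : K) * x)) ^ 3 = -(((r.den : K) * x) ^ 3) := by ring
        rw [h3, key]
        rw [Int.cast_natCast] at h2
        rw [h2]
        push_cast
        ring
  have hn : n ≠ 0 := by
    rintro rfl
    have : y = 0 := by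
      have := hyn
      simpa using this
    exact hy ⟨0, by simp [this]⟩
  obtain ⟨a, b, c, hc, hdec, hsq⟩ := cubefree_decomp n hn
  have hcK : (c : K) ≠ 0 := by exact_mod_cast hc
  set z : K := y / c with hz
  have hz3 : z ^ 3 = ((a * b ^ 2 : ℕ) : K) := by
    rw [hz, div_pow, hyn, hdec]
    push_cast
    field_simp
  have hzn : z ∉ (algebraMap ℚ K).range := by
    rintro ⟨s, hs⟩
    refine hy ⟨s * c, ?_⟩
    rw [map_mul, hs, hz]
    simp
    field_simp
  have hzi : IsIntegral ℤ z := by
    refine IsIntegral.of_pow (n := 3) (by norm_num) ?_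
    rw [hz3]
    exact isIntegral_natCast _
  refine ⟨a, b, ⟨z, hzi⟩, h3, hsq, ?_, ?_⟩
  · have hab0 : a * b ≠ 0 := hsq.ne_zero
    by_contra hle
    have hab : a * b = 1 := by omega
    obtain ⟨ha, hb⟩ := mul_eq_one.mp hab
    subst ha; subst hb
    have hz1 : z ≠ 1 := by
      intro h
      exact hzn ⟨1, by simp [h]⟩
    have hroot : z ^ 2 + z + 1 = 0 := by
      have h1 : (z - 1) * (z ^ 2 + z + 1) = 0 := by
        have : z ^ 3 = 1 := by simpa using hz3
        linear_combination this
      rcases mul_eq_zero.mp h1 with h | h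
      · exact absurd (sub_eq_zero.mp h) hz1
      · exact h
    have hint : IsIntegral ℚ z := Algebra.IsIntegral.isIntegral z
    have hdvd : (minpoly ℚ z).natDegree ∣ 3 := h3 ▸ minpoly.degree_dvd hint
    have hle2 : (minpoly ℚ z).natDegree ≤ 2 := by
      have hmon : (X ^ 2 + X + 1 : ℚ[X]).Monic := by monicity!
      have hev : aeval z (X ^ 2 + X + 1 : ℚ[X]) = 0 := by simpa using hroot
      have h5 := natDegree_le_natDegree (minpoly.min ℚ z hmon hev)
      refine h5.trans ?_
      compute_degree
    have h1 : (minpoly ℚ z).natDegree = 1 := by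
      rcases (Nat.dvd_prime Nat.prime_three).mp hdvd with h | h
      · exact h
      · omega
    have hdeg : (minpoly ℚ z).degree = 1 := by
      rw [degree_eq_natDegree (minpoly.ne_zero hint), h1]
      rfl
    exact hzn (minpoly.mem_range_of_degree_eq_one ℚ z hdeg)
  · apply RingOfIntegers.ext
    simpa using hz3

end

end Pool.Agent.Work.Mu22
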