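import Pool.Agent.Work.MP_a4986b_nt.Tower
import Pool.Agent.Work.MP_a4986b_nt.Cyc
import Pool.Agent.Work.MP_a4986b_nt.ClassNo3
import Pool.Agent.Work.MP_a4986b_nt.Reduce3
import Pool.Agent.Work.MP_a4986b_nt.Primes3

set_option autoImplicit false
set_option maxHeartbeats 400000

namespace Pool.Agent.Work.Mu22

open NumberField Module IntermediateField
open scoped Pointwise nonZeroDivisors ENNReal Real

theorem finrank_adjoin_cbrt3 {p : ℕ} (hp : p.Prime) (z : ℂ) (hz : z ^ 3 = p) :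
    finrank ℚ ℚ⟮z⟯ = 3 ∧ z ∉ (algebraMap ℚ ℂ).range := by
  have hirr : Irreducible (Polynomial.X ^ 3 - Polynomial.C (p : ℚ)) := by
    have h := Polynomial.irreducible_of_eisenstein_criterion (R := ℤ)
      (P := Ideal.span {(p : ℤ)}) (f := Polynomial.X ^ 3 - Polynomial.C (p : ℤ)) ?_ ?_ ?_ ?_ ?_ ?_
    · have h2 := (Polynomial.IsPrimitive.Int.irreducible_iff_irreducible_map_cast
        (Polynomial.Monic.isPrimitive (Polynomial.monic_X_pow_sub_C _ three_ne_zero))).mp h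
      simpa using h2
    · rw [Ideal.span_singleton_prime (by exact_mod_cast hp.ne_zero)]
      exact Nat.prime_iff_prime_int.mp hp
    · rw [Polynomial.leadingCoeff_X_pow_sub_C (by norm_num)]
      rw [Ideal.mem_span_singleton]
      intro h
      have := Int.isUnit_iff.mp (isUnit_of_dvd_one h)
      have h2 := hp.two_le
      omega
    · intro n hn
      have hd : (Polynomial.X ^ 3 - Polynomial.C (p : ℤ)).degree = 3 :=
        Polynomial.degree_X_pow_sub_C (by norm_num) _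
      rw [hd] at hn
      have hn3 : n < 3 := by exact_mod_cast hn
      rw [Polynomial.coeff_sub, Polynomial.coeff_X_pow, if_neg (by omega), Polynomial.coeff_C]
      split_ifs
      · rw [zero_sub, Ideal.neg_mem_iff]; exact Ideal.mem_span_singleton_self _
      · simp
    · rw [Polynomial.degree_X_pow_sub_C (by norm_num)]; norm_num
    · rw [Polynomial.coeff_sub, Polynomial.coeff_X_pow, if_neg (by norm_num),
        Polynomial.coeff_C_zero, zero_sub, Ideal.neg_mem_iff, pow_two, Ideal.span_singleton_mul_span_singleton,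
        Ideal.mem_span_singleton]
      rintro ⟨c, hc⟩
      have hp0 : (p : ℤ) ≠ 0 := by exact_mod_cast hp.ne_zero
      have : (p : ℤ) * c = 1 := by
        have : (p : ℤ) * ((p : ℤ) * c) = p * 1 := by linarith [hc]
        exact mul_left_cancel₀ hp0 this
      have := Int.isUnit_iff.mp (IsUnit.of_mul_eq_one _ this)
      have h2 := hp.two_le
      omega
    · exact Polynomial.Monic.isPrimitive (Polynomial.monic_X_pow_sub_C _ three_ne_zero)
  have hint : IsIntegral ℚ z := by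
    refine ⟨Polynomial.X ^ 3 - Polynomial.C (p : ℚ), Polynomial.monic_X_pow_sub_C _ three_ne_zero, ?_⟩
    simp [hz]
  have hmin : minpoly ℚ z = Polynomial.X ^ 3 - Polynomial.C (p : ℚ) := by
    refine (minpoly.eq_of_irreducible_of_monic hirr ?_ (Polynomial.monic_X_pow_sub_C _ three_ne_zero)).symm
    simp [hz]
  constructor
  · rw [IntermediateField.adjoin.finrank hint, hmin, Polynomial.natDegree_X_pow_sub_C]
  · rintro ⟨r, hr⟩
    have h1 : (minpoly ℚ z).natDegree = 1 := by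
      rw [← hr, minpoly.eq_X_sub_C]
      exact Polynomial.natDegree_X_sub_C r
    rw [hmin, Polynomial.natDegree_X_pow_sub_C] at h1
    omega

/-- a pure cubic field: degree 3 and generated by a cube root of a rational number -/
def IsPureCubic (F : Type*) [Field F] [NumberField F] : Prop :=
  finrank ℚ F = 3 ∧ ∃ x : F, x ∉ (algebraMap ℚ F).range ∧ x ^ 3 ∈ (algebraMap ℚ F).range

theorem classNumber_pure {F : Type*} [Field F] [NumberField F] (hF : IsPureCubic F) :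
    27 * (Nat.card (ClassGroup (𝓞 F)) : ℝ) ^ 2 < |(discr F : ℝ)| := by
  obtain ⟨h3, x, hx, hx3⟩ := hF
  obtain ⟨a, b, t, h⟩ := exists_pureCubic h3 x hx hx3
  exact h.classNumber

theorem not_dvd_pure {F : Type*} [Field F] [NumberField F] (hF : IsPureCubic F) {p : ℕ}
    (hD : |(discr F : ℝ)| ≤ 27 * (p : ℝ) ^ 2) : ¬ p ∣ Nat.card (ClassGroup (𝓞 F)) := by
  intro hdvd
  have h1 := classNumber_pure hF
  have h2 : p ≤ Nat.card (ClassGroup (𝓞 F)) := Nat.le_of_dvd Nat.card_pos hdvd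
  have h3 : (p : ℝ) ≤ Nat.card (ClassGroup (𝓞 F)) := by exact_mod_cast h2
  have h4 : (p : ℝ) ^ 2 ≤ (Nat.card (ClassGroup (𝓞 F)) : ℝ) ^ 2 := by gcongr
  linarith

theorem main3 :
    (∀ (F : Type) [Field F] [NumberField F], IsPureCubic F →
      27 * (Nat.card (ClassGroup (𝓞 F)) : ℝ) ^ 2 < |(discr F : ℝ)|) ∧
    (∀ (F : Type) [Field F] [NumberField F] (p : ℕ), IsPureCubic F → p.Prime → p ≠ 2 →
      |(discr F : ℝ)| ≤ 27 * (p : ℝ) ^ 2 → OnePrime p F →
      ∀ (L : Type) [Field L] [NumberField L] [Algebra F L] [IsGalois F L] (n : ℕ),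
        finrank F L = p ^ n → UnramOutside p F L → ¬ p ∣ Nat.card (ClassGroup (𝓞 L))) ∧
    (∀ (F : IntermediateField ℚ ℂ) [NumberField F] (p : ℕ), IsPureCubic F → p.Prime → p ≠ 2 →
      |(discr F : ℝ)| ≤ 27 * (p : ℝ) ^ 2 → OnePrime p F →
      ∀ (m : ℕ) (E : IntermediateField ℚ ℂ),
        E ≤ IntermediateField.adjoin ℚ {w : ℂ | w ^ (p ^ (m + 1)) = 1} → finrank ℚ E = p ^ m →
        ¬ p ∣ Nat.card (ClassGroup (𝓞 ↥(F ⊔ E)))) ∧
    (∀ (p : ℕ) (z : ℂ), p.Prime → p ≠ 2 → z ^ 3 = p →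
      ∀ (m : ℕ) (E : IntermediateField ℚ ℂ),
        E ≤ IntermediateField.adjoin ℚ {w : ℂ | w ^ (p ^ (m + 1)) = 1} → finrank ℚ E = p ^ m →
        ¬ p ∣ Nat.card (ClassGroup (𝓞 ↥(ℚ⟮z⟯ ⊔ E)))) := by
  have hB' : ∀ (F : IntermediateField ℚ ℂ) [NumberField F] (p : ℕ), IsPureCubic F → p.Prime →
      p ≠ 2 → |(discr F : ℝ)| ≤ 27 * (p : ℝ) ^ 2 → OnePrime p F →
      ∀ (m : ℕ) (E : IntermediateField ℚ ℂ),
        E ≤ IntermediateField.adjoin ℚ {w : ℂ | w ^ (p ^ (m + 1)) = 1} → finrank ℚ E = p ^ m →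
        ¬ p ∣ Nat.card (ClassGroup (𝓞 ↥(F ⊔ E))) := by
    intro F _ p hF hp hp2 hD hone m E hE hEd
    exact cyc_tower hp hp2 F hone (not_dvd_pure hF hD) m (m + 1) E hE hEd
  refine ⟨fun F _ _ hF => classNumber_pure hF, ?_, hB', ?_⟩
  · intro F _ _ p hF hp hp2 hD hone L _ _ _ _ n hn hun
    exact (tower hp n hn (hp.odd_of_ne_two hp2) hone hun (not_dvd_pure hF hD)).1
  · intro p z hp hp2 hz m E hE hEd
    obtain ⟨h3, hzr⟩ := finrank_adjoin_cbrt3 hp z hz
    have : FiniteDimensional ℚ ℚ⟮z⟯ := FiniteDimensional.of_finrank_pos (by rw [h3]; norm_num)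
    have : NumberField ℚ⟮z⟯ := ⟨⟩
    have hint : IsIntegral ℤ (⟨z, IntermediateField.mem_adjoin_simple_self ℚ z⟩ : ℚ⟮z⟯) := by
      refine ⟨Polynomial.X ^ 3 - Polynomial.C (p : ℤ),
        Polynomial.monic_X_pow_sub_C _ three_ne_zero, ?_⟩
      apply Subtype.ext
      simp [hz]
    obtain ⟨t, ht⟩ : ∃ t : 𝓞 ℚ⟮z⟯, algebraMap (𝓞 ℚ⟮z⟯) ℚ⟮z⟯ t =
      ⟨z, IntermediateField.mem_adjoin_simple_self ℚ z⟩ := ⟨⟨_, hint⟩, rfl⟩
    have ht3 : t ^ 3 = ((p * 1 ^ 2 : ℕ) : 𝓞 ℚ⟮z⟯) := by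
      apply FaithfulSMul.algebraMap_injective (𝓞 ℚ⟮z⟯) ℚ⟮z⟯
      rw [map_pow, map_natCast, ht]
      apply Subtype.ext
      simpa using hz
    have hP : PureCubic ℚ⟮z⟯ p 1 t :=
      ⟨h3, by simpa using hp.squarefree, by simpa using hp.one_lt, ht3⟩
    have hF : IsPureCubic ℚ⟮z⟯ := by
      refine ⟨h3, ⟨z, IntermediateField.mem_adjoin_simple_self ℚ z⟩, ?_, ?_⟩
      · rintro ⟨r, hr⟩
        exact hzr ⟨r, by simpa using congrArg Subtype.val hr⟩
      · exact ⟨p, by apply Subtype.ext; simpa using hz.symm⟩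
    refine hB' ℚ⟮z⟯ p hF hp hp2 ?_ (hP.onePrime hp (by simp)) m E hE hEd
    simpa using hP.discr_bounds.2

end Pool.Agent.Work.Mu22
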