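import Pool.Agent.Work.MP_a4986b_nt.Defs

set_option autoImplicit false
set_option maxHeartbeats 400000

/-! # T5: a fixed class of order `p` -/

namespace Pool.Agent.Work.Mu22

open NumberField Module
open scoped Pointwise nonZeroDivisors ENNReal Real

attribute [local instance] Units.mulDistribMulActionRight

section

variable {K L : Type*} [Field K] [NumberField K] [Field L] [NumberField L] [Algebra K L]
  [IsGalois K L] {p : ℕ}

theorem smul_ne_bot_of (σ : Gal(L/K)) (I : (Ideal (𝓞 L))⁰) :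
    σ • (I : Ideal (𝓞 L)) ∈ (Ideal (𝓞 L))⁰ := by
  rw [mem_nonZeroDivisors_iff_ne_zero]
  intro h
  have h1 : (I : Ideal (𝓞 L)) = σ⁻¹ • (0 : Ideal (𝓞 L)) := by rw [← h, inv_smul_smul]
  rw [smul_zero] at h1
  exact nonZeroDivisors.coe_ne_zero _ h1

/-- the action on nonzero ideals -/
noncomputable def actI (σ : Gal(L/K)) (I : (Ideal (𝓞 L))⁰) : (Ideal (𝓞 L))⁰ :=
  ⟨σ • (I : Ideal (𝓞 L)), smul_ne_bot_of σ I⟩

theorem actI_coe (σ : Gal(L/K)) (I : (Ideal (𝓞 L))⁰) :
    (actI σ I : Ideal (𝓞 L)) = σ • (I : Ideal (𝓞 L)) := rfl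

theorem actI_pow (σ : Gal(L/K)) (I : (Ideal (𝓞 L))⁰) (k : ℕ) :
    actI σ (I ^ k) = actI σ I ^ k := by
  apply Subtype.ext
  rw [actI_coe, SubmonoidClass.coe_pow, SubmonoidClass.coe_pow, actI_coe, smul_pow']

theorem smul_span_singleton' (σ : Gal(L/K)) (x : 𝓞 L) :
    σ • (Ideal.span {x} : Ideal (𝓞 L)) = Ideal.span {σ • x} := by
  rw [Ideal.smul_closure, Set.smul_set_singleton]

theorem mk0_actI (σ : Gal(L/K)) {I J : (Ideal (𝓞 L))⁰}
    (h : ClassGroup.mk0 I = ClassGroup.mk0 J) :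
    ClassGroup.mk0 (actI σ I) = ClassGroup.mk0 (actI σ J) := by
  rw [ClassGroup.mk0_eq_mk0_iff] at h ⊢
  obtain ⟨x, y, hx, hy, hxy⟩ := h
  refine ⟨σ • x, σ • y, (smul_ne_zero_iff_ne σ).mpr hx, (smul_ne_zero_iff_ne σ).mpr hy, ?_⟩
  rw [actI_coe, actI_coe, ← smul_span_singleton', ← smul_span_singleton', ← smul_mul', ← smul_mul',
    hxy]

/-- the action on classes -/
noncomputable def actC (σ : Gal(L/K)) (c : ClassGroup (𝓞 L)) : ClassGroup (𝓞 L) :=
  ClassGroup.mk0 (actI σ (ClassGroup.mk0_surjective c).choose)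

theorem actC_mk0 (σ : Gal(L/K)) (I : (Ideal (𝓞 L))⁰) :
    actC σ (ClassGroup.mk0 I) = ClassGroup.mk0 (actI σ I) :=
  mk0_actI σ (ClassGroup.mk0_surjective (ClassGroup.mk0 I)).choose_spec

theorem actC_pow (σ : Gal(L/K)) (c : ClassGroup (𝓞 L)) (k : ℕ) :
    actC σ (c ^ k) = actC σ c ^ k := by
  obtain ⟨I, rfl⟩ := ClassGroup.mk0_surjective c
  rw [← map_pow, actC_mk0, actC_mk0, actI_pow, map_pow]

theorem actC_one (σ : Gal(L/K)) : actC σ 1 = 1 := by
  have h := actC_pow σ 1 0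
  simpa using h

theorem actC_iterate (σ : Gal(L/K)) (k : ℕ) (I : (Ideal (𝓞 L))⁰) :
    (actC σ)^[k] (ClassGroup.mk0 I) = ClassGroup.mk0 (actI (σ ^ k) I) := by
  induction k with
  | zero =>
    rw [Function.iterate_zero, id, pow_zero]
    congr 1
    apply Subtype.ext
    rw [actI_coe, one_smul]
  | succ k ih =>
    rw [Function.iterate_succ_apply', ih, actC_mk0]
    congr 1
    apply Subtype.ext
    rw [actI_coe, actI_coe, actI_coe, smul_smul, pow_succ']

/-- T5: a fixed class of order `p` -/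
theorem exists_fixed_class (hp : p.Prime) (hd : finrank K L = p) (σ : Gal(L/K))
    (hσ : ∀ x, x ∈ Subgroup.zpowers σ) (hL : p ∣ Nat.card (ClassGroup (𝓞 L))) :
    ∃ I : (Ideal (𝓞 L))⁰, ClassGroup.mk0 I ≠ 1 ∧ ClassGroup.mk0 I ^ p = 1 ∧
      ∃ x y : 𝓞 L, x ≠ 0 ∧ y ≠ 0 ∧
        Ideal.span {x} * (I : Ideal (𝓞 L)) = Ideal.span {y} * (σ • (I : Ideal (𝓞 L))) := by
  classical
  have hpf : Fact p.Prime := ⟨hp⟩
  have hσp : σ ^ p = 1 := by
    rw [← hd, ← IsGalois.card_aut_eq_finrank K L]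
    exact pow_card_eq_one'
  -- the group of classes killed by `p`
  let S : Subgroup (ClassGroup (𝓞 L)) := (powMonoidHom p : ClassGroup (𝓞 L) →* _).ker
  have hmem : ∀ c : ClassGroup (𝓞 L), c ∈ S ↔ c ^ p = 1 := fun c => by
    rw [MonoidHom.mem_ker, powMonoidHom_apply]
  have hfinC : Finite (ClassGroup (𝓞 L)) := inferInstance
  let f : Function.End S := fun c : S => (⟨actC σ c.1, by
    rw [hmem, ← actC_pow, (hmem _).mp c.2, actC_one]⟩ : S)
  have hfit : ∀ (k : ℕ) (c : S), ((f^[k] c : S) : ClassGroup (𝓞 L)) = (actC σ)^[k] c.1 := by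
    intro k c
    induction k with
    | zero => rfl
    | succ k ih => rw [Function.iterate_succ_apply', Function.iterate_succ_apply', ← ih]
  have hfp : f ^ p ^ 1 = 1 := by
    rw [pow_one]
    funext c
    have h1 : (f ^ p) c = f^[p] c := by
      have h2 : ∀ k : ℕ, ∀ d : S, (f ^ k) d = (f^[k] d : S) := by
        intro k
        induction k with
        | zero => intro d; rfl
        | succ k ih =>
          intro d
          rw [Function.iterate_succ_apply, ← ih, pow_succ]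
          rfl
      exact h2 p c
    rw [h1]
    apply Subtype.ext
    rw [hfit]
    obtain ⟨I, hI⟩ := ClassGroup.mk0_surjective c.1
    rw [← hI, actC_iterate, hσp]
    have : actI (1 : Gal(L/K)) I = I := by
      apply Subtype.ext
      rw [actI_coe, one_smul]
    rw [this, hI]
    rfl
  have : Fintype S := Fintype.ofFinite S
  have hmod := Equiv.Perm.card_fixedPoints_modEq (f := f) (p := p) (n := 1) hfp
  -- `p ∣ |S|`
  have hSp : p ∣ Fintype.card S := by
    obtain ⟨c, hc⟩ := exists_prime_orderOf_dvd_card' p hL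
    have hcS : c ∈ S := by rw [hmem, ← hc, pow_orderOf_eq_one]
    have h1 : orderOf (⟨c, hcS⟩ : S) = p := by rw [← hc]; exact Subgroup.orderOf_mk c hcS
    rw [← h1]
    exact orderOf_dvd_card
  have hfix : p ∣ Fintype.card (Function.fixedPoints f) :=
    (Nat.modEq_zero_iff_dvd.mp ((hmod.symm).trans (Nat.modEq_zero_iff_dvd.mpr hSp)))
  have h1fix : (1 : S) ∈ Function.fixedPoints f := by
    apply Subtype.ext
    exact actC_one σ
  have hgt : 1 < Fintype.card (Function.fixedPoints f) := by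
    have hpos : 0 < Fintype.card (Function.fixedPoints f) := Fintype.card_pos_iff.mpr ⟨⟨1, h1fix⟩⟩
    exact lt_of_lt_of_le hp.one_lt (Nat.le_of_dvd hpos hfix)
  obtain ⟨⟨c, hcf⟩, hc1⟩ := Fintype.exists_ne_of_one_lt_card hgt ⟨1, h1fix⟩
  have hc1' : c.1 ≠ 1 := fun h => hc1 (Subtype.ext (Subtype.ext h))
  obtain ⟨I, hI⟩ := ClassGroup.mk0_surjective c.1
  refine ⟨I, by rw [hI]; exact hc1', by rw [hI]; exact (hmem _).mp c.2, ?_⟩
  have hcf' : actC σ c.1 = c.1 := congrArg Subtype.val hcf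
  rw [← hI, actC_mk0] at hcf'
  obtain ⟨x, y, hx, hy, hxy⟩ := ClassGroup.mk0_eq_mk0_iff.mp hcf'.symm
  exact ⟨x, y, hx, hy, hxy⟩

end

end Pool.Agent.Work.Mu22
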