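import Pool.Agent.Work.MP_a4986b_nt.Defs2

set_option autoImplicit false
set_option maxHeartbeats 400000

/-! # E2', E3', E3'': bounds for the theta series of `ℤ[ω]` -/

namespace Pool.Agent.Work.Mu22

open NumberField Module MeasureTheory Filter Topology
open scoped Pointwise nonZeroDivisors ENNReal Real

namespace HHb

/-! ### the Lambert series -/

/-- `1 / (1 + 2 cosh x)` -/
noncomputable def G (x : ℝ) : ℝ := 1 / (1 + 2 * Real.cosh x)

theorem den_pos (x : ℝ) : 0 < 1 + 2 * Real.cosh x := by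
  have := Real.cosh_pos x
  linarith

theorem G_pos (x : ℝ) : 0 < G x := one_div_pos.mpr (den_pos x)

theorem chi3_add (n : ℕ) : chi3 (n + 3) = chi3 n := by
  unfold chi3
  rw [Nat.add_mod_right]

theorem abs_chi3 (n : ℕ) : |(chi3 n : ℝ)| ≤ 1 := by
  unfold chi3
  split_ifs <;> simp

theorem summable_chi {r : ℝ} (h0 : 0 ≤ r) (h1 : r < 1) :
    Summable fun n : ℕ => (chi3 n : ℝ) * r ^ n := by
  refine Summable.of_norm_bounded (summable_geometric_of_lt_one h0 h1) fun n => ?_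
  rw [norm_mul, norm_pow, Real.norm_of_nonneg h0, Real.norm_eq_abs]
  have := abs_chi3 n
  have h2 : 0 ≤ r ^ n := by positivity
  nlinarith

theorem tsum_chi {r : ℝ} (h0 : 0 ≤ r) (h1 : r < 1) :
    ∑' n : ℕ, (chi3 n : ℝ) * r ^ n = r / (1 + r + r ^ 2) := by
  have hs := summable_chi h0 h1
  have h2 := hs.sum_add_tsum_nat_add 3
  have h3 : ∀ n : ℕ, (chi3 (n + 3) : ℝ) * r ^ (n + 3) = r ^ 3 * ((chi3 n : ℝ) * r ^ n) := by
    intro n
    rw [chi3_add]
    ring
  rw [tsum_congr h3, tsum_mul_left] at h2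
  set S := ∑' n : ℕ, (chi3 n : ℝ) * r ^ n with hS
  have c0 : ((chi3 0 : ℤ) : ℝ) = 0 := by simp [chi3]
  have c1 : ((chi3 1 : ℤ) : ℝ) = 1 := by simp [chi3]
  have c2 : ((chi3 2 : ℤ) : ℝ) = -1 := by simp [chi3]
  simp only [Finset.sum_range_succ, Finset.sum_range_zero, c0, c1, c2] at h2
  have h4 : S * (1 - r ^ 3) = r - r ^ 2 := by linear_combination -h2
  have h6 : 1 + r + r ^ 2 ≠ 0 := by positivity
  rw [eq_div_iff h6]
  have h7 : (1 - r) ≠ 0 := by linarith
  apply mul_right_cancel₀ h7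
  linear_combination h4

theorem G_eq (x : ℝ) : G x = Real.exp (-x) / (1 + Real.exp (-x) + Real.exp (-x) ^ 2) := by
  unfold G
  rw [Real.cosh_eq]
  have h1 : Real.exp x = (Real.exp (-x))⁻¹ := by rw [Real.exp_neg, inv_inv]
  rw [h1]
  have := Real.exp_pos (-x)
  field_simp
  ring

theorem summable_pair {q : ℝ} (h0 : 0 ≤ q) (h1 : q < 1) :
    Summable fun c : ℕ+ × ℕ+ => (chi3 c.1 : ℝ) * q ^ ((c.1 : ℕ) * c.2) := by
  have h2 := summable_prod_mul_pow (𝕜 := ℝ) 0 (r := q) (by rwa [Real.norm_of_nonneg h0])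
  simp only [pow_zero, one_mul] at h2
  refine Summable.of_norm_bounded h2 fun c => ?_
  rw [norm_mul, norm_pow, Real.norm_of_nonneg h0, Real.norm_eq_abs]
  have := abs_chi3 c.1
  have h3 : 0 ≤ q ^ ((c.1 : ℕ) * c.2) := by positivity
  nlinarith

theorem rr_zero : rr 0 = 0 := by
  simp [rr]

theorem tsum_rr {q : ℝ} (h0 : 0 ≤ q) (h1 : q < 1) :
    Summable (fun n : ℕ+ => (rr n : ℝ) * q ^ (n : ℕ)) ∧
    ∑' n : ℕ+, (rr n : ℝ) * q ^ (n : ℕ) =
      ∑' c : ℕ+ × ℕ+, (chi3 c.1 : ℝ) * q ^ ((c.1 : ℕ) * c.2) := by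
  have hs := summable_pair h0 h1
  have hs2 := (sigmaAntidiagonalEquivProd.summable_iff).mpr hs
  have h2 : ∀ n : ℕ+, ∑' x : Nat.divisorsAntidiagonal n,
      (fun c : ℕ+ × ℕ+ => (chi3 c.1 : ℝ) * q ^ ((c.1 : ℕ) * c.2))
        (sigmaAntidiagonalEquivProd ⟨n, x⟩) = (rr n : ℝ) * q ^ (n : ℕ) := by
    intro n
    rw [tsum_fintype]
    have h3 : ∀ x : Nat.divisorsAntidiagonal n,
        (fun c : ℕ+ × ℕ+ => (chi3 c.1 : ℝ) * q ^ ((c.1 : ℕ) * c.2))
        (sigmaAntidiagonalEquivProd ⟨n, x⟩) = (chi3 x.1.1 : ℝ) * q ^ (n : ℕ) := by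
      intro x
      have h4 := (Nat.mem_divisorsAntidiagonal.mp x.2).1
      show (chi3 x.1.1 : ℝ) * q ^ (x.1.1 * x.1.2) = _
      rw [h4]
    rw [Finset.sum_congr rfl fun x _ => h3 x, Finset.univ_eq_attach,
      Finset.sum_attach (Nat.divisorsAntidiagonal n) fun x => (chi3 x.1 : ℝ) * q ^ (n : ℕ),
      ← Finset.sum_mul, rr, Int.cast_sum,
      Nat.sum_divisorsAntidiagonal (fun x _ => (chi3 x : ℝ))]
  refine ⟨?_, ?_⟩
  · have := hs2.sigma
    refine this.congr fun n => ?_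
    rw [← h2 n]
    rfl
  · rw [← sigmaAntidiagonalEquivProd.tsum_eq]
    have h5 := hs2.tsum_sigma
    simp only [Function.comp_apply] at h5
    rw [h5]
    exact tsum_congr fun n => (h2 n).symm

theorem HH_eq {v : ℝ} (hv : 0 < v) :
    Summable (fun m : ℕ => G ((m + 1 : ℕ) * v)) ∧ HH v = ∑' m : ℕ, G ((m + 1 : ℕ) * v) := by
  set q := Real.exp (-v) with hq
  have h0 : 0 < q := Real.exp_pos _
  have h1 : q < 1 := by
    rw [hq]
    exact Real.exp_lt_one_iff.mpr (by linarith)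
  have hs := summable_pair h0.le h1
  have hr := tsum_rr h0.le h1
  have hqn : ∀ n : ℕ, Real.exp (-(n * v)) = q ^ n := by
    intro n
    rw [hq, ← Real.exp_nat_mul]
    congr 1
    ring
  have hinner : ∀ m : ℕ+, ∑' d : ℕ+, (chi3 d : ℝ) * q ^ ((d : ℕ) * m) = G ((m : ℕ) * v) := by
    intro m
    have h2 : (q ^ (m : ℕ)) < 1 := pow_lt_one₀ h0.le h1 m.ne_zero
    have h3 : 0 ≤ q ^ (m : ℕ) := by positivity
    rw [G_eq, hqn, ← tsum_chi h3 h2, ← tsum_zero_pnat_eq_tsum_nat (summable_chi h3 h2)]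
    have h4 : ((chi3 0 : ℤ) : ℝ) = 0 := by simp [chi3]
    rw [h4, zero_mul, zero_add]
    refine tsum_congr fun d => ?_
    rw [← pow_mul, mul_comm (d : ℕ) (m : ℕ)]
  have hs' := hs.prod_symm
  have h5 : HH v = ∑' n : ℕ+, (rr n : ℝ) * q ^ (n : ℕ) := by
    unfold HH
    have h6 : Summable fun n : ℕ => (rr n : ℝ) * q ^ n := by
      have := (summable_pnat_iff_summable_nat (f := fun n : ℕ => (rr n : ℝ) * q ^ n)).mp hr.1
      exact this
    rw [tsum_congr fun n : ℕ => by rw [hqn n], ← tsum_zero_pnat_eq_tsum_nat h6, rr_zero]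
    simp
  have h7 : HH v = ∑' m : ℕ+, G ((m : ℕ) * v) := by
    rw [h5, hr.2, ← (Equiv.prodComm ℕ+ ℕ+).tsum_eq]
    have h8 : Summable fun c : ℕ+ × ℕ+ => (chi3 c.2 : ℝ) * q ^ ((c.2 : ℕ) * c.1) := hs'
    show ∑' c : ℕ+ × ℕ+, (chi3 c.2 : ℝ) * q ^ ((c.2 : ℕ) * c.1) = _
    rw [h8.tsum_prod]
    exact tsum_congr fun m => hinner m
  have h9 : Summable fun m : ℕ+ => G ((m : ℕ) * v) := by
    have h8 : Summable fun c : ℕ+ × ℕ+ => (chi3 c.2 : ℝ) * q ^ ((c.2 : ℕ) * c.1) := hs'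
    exact (h8.prod).congr fun m => hinner m
  have h10 := (summable_pnat_iff_summable_succ (f := fun m : ℕ => G ((m : ℕ) * v))).mp h9
  refine ⟨h10, ?_⟩
  rw [h7, tsum_pnat_eq_tsum_succ (f := fun m : ℕ => G ((m : ℕ) * v))]

/-! ### the function `G` -/

/-- derivative of `G` -/
noncomputable def G1 (x : ℝ) : ℝ := -(2 * Real.sinh x) / (1 + 2 * Real.cosh x) ^ 2

/-- second derivative of `G` -/
noncomputable def G2 (x : ℝ) : ℝ :=
  (4 * Real.cosh x ^ 2 - 2 * Real.cosh x - 8) / (1 + 2 * Real.cosh x) ^ 3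

/-- antiderivative of `G` -/
noncomputable def F (x : ℝ) : ℝ := 2 / √3 * Real.arctan ((2 * Real.exp x + 1) / √3)

theorem hasDerivAt_den (x : ℝ) : HasDerivAt (fun x => 1 + 2 * Real.cosh x) (2 * Real.sinh x) x :=
  ((Real.hasDerivAt_cosh x).const_mul 2).const_add 1

theorem hasDerivAt_G (x : ℝ) : HasDerivAt G (G1 x) x := by
  have h := (hasDerivAt_den x).inv (den_pos x).ne'
  have h2 : G = fun x => (1 + 2 * Real.cosh x)⁻¹ := by
    funext y
    rw [G, one_div]
  rw [h2]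
  exact h

theorem hasDerivAt_G1 (x : ℝ) : HasDerivAt G1 (G2 x) x := by
  have h1 : HasDerivAt (fun x => -(2 * Real.sinh x)) (-(2 * Real.cosh x)) x :=
    ((Real.hasDerivAt_sinh x).const_mul 2).neg
  have h2 := (hasDerivAt_den x).pow 2
  have h3 := h1.div h2 (pow_ne_zero 2 (den_pos x).ne')
  refine h3.congr_deriv ?_
  have h4 := (den_pos x).ne'
  have h5 := Real.cosh_sq x
  have h6 : Real.sinh x ^ 2 = Real.cosh x ^ 2 - 1 := by linarith
  have h7 : -(2 * Real.cosh x) * (1 + 2 * Real.cosh x) ^ 2 - -(2 * Real.sinh x) *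
      ((2 : ℕ) * (1 + 2 * Real.cosh x) ^ (2 - 1) * (2 * Real.sinh x)) =
      (1 + 2 * Real.cosh x) * (4 * Real.cosh x ^ 2 - 2 * Real.cosh x - 8) := by
    push_cast
    linear_combination 8 * (1 + 2 * Real.cosh x) * h6
  show (-(2 * Real.cosh x) * (1 + 2 * Real.cosh x) ^ 2 - -(2 * Real.sinh x) *
      ((2 : ℕ) * (1 + 2 * Real.cosh x) ^ (2 - 1) * (2 * Real.sinh x))) /
      ((1 + 2 * Real.cosh x) ^ 2) ^ 2 = G2 x
  rw [h7]
  unfold G2
  rw [div_eq_div_iff (pow_ne_zero _ (pow_ne_zero _ h4)) (pow_ne_zero _ h4)]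
  ring

theorem hasDerivAt_F (x : ℝ) : HasDerivAt F (G x) x := by
  have h3 : (0 : ℝ) < √3 := Real.sqrt_pos.mpr (by norm_num)
  have h3' : √3 ^ 2 = 3 := Real.sq_sqrt (by norm_num)
  have h1 : HasDerivAt (fun x => (2 * Real.exp x + 1) / √3) (2 * Real.exp x / √3) x :=
    (((Real.hasDerivAt_exp x).const_mul 2).add_const 1).div_const _
  have h2 := (h1.arctan).const_mul (2 / √3)
  refine h2.congr_deriv ?_
  unfold G
  rw [Real.cosh_eq, Real.exp_neg]
  have := Real.exp_pos x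
  field_simp
  rw [h3']
  ring

theorem G_le {x y : ℝ} (hx : 0 ≤ x) (hxy : x ≤ y) : G y ≤ G x := by
  unfold G
  have h1 : Real.cosh x ≤ Real.cosh y := by
    rw [Real.cosh_le_cosh, abs_of_nonneg hx, abs_of_nonneg (hx.trans hxy)]
    exact hxy
  exact one_div_le_one_div_of_le (den_pos x) (by linarith)

theorem F_zero : F 0 = 2 * LL := by
  unfold F LL
  have h3 : (0 : ℝ) < √3 := Real.sqrt_pos.mpr (by norm_num)
  have h3' : √3 ^ 2 = 3 := Real.sq_sqrt (by norm_num)
  have h1 : (2 * Real.exp 0 + 1) / √3 = √3 := by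
    rw [Real.exp_zero]
    field_simp
    rw [h3']
    norm_num
  rw [h1, Real.arctan_sqrt_three]
  field_simp

theorem F_lt (x : ℝ) : F x < 3 * LL := by
  unfold F LL
  have h3 : (0 : ℝ) < √3 := Real.sqrt_pos.mpr (by norm_num)
  have h1 := Real.arctan_lt_pi_div_two ((2 * Real.exp x + 1) / √3)
  have h2 : 2 / √3 * Real.arctan ((2 * Real.exp x + 1) / √3) < 2 / √3 * (π / 2) :=
    mul_lt_mul_of_pos_left h1 (by positivity)
  refine h2.trans_le (le_of_eq ?_)
  field_simp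

theorem tendsto_F : Tendsto F atTop (𝓝 (3 * LL)) := by
  have h3 : (0 : ℝ) < √3 := Real.sqrt_pos.mpr (by norm_num)
  have h1 : Tendsto (fun x : ℝ => (2 * Real.exp x + 1) / √3) atTop atTop := by
    refine Tendsto.atTop_div_const h3 (tendsto_atTop_add_const_right _ _ ?_)
    exact Real.tendsto_exp_atTop.const_mul_atTop (by norm_num)
  have h2 := (tendsto_nhds_of_tendsto_nhdsWithin Real.tendsto_arctan_atTop).comp h1
  have h4 := h2.const_mul (2 / √3)
  have h5 : 2 / √3 * (π / 2) = 3 * LL := by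
    unfold LL
    field_simp
  rw [h5] at h4
  exact h4

/-- one step of the upper bound -/
theorem step_upper {v : ℝ} (hv : 0 < v) (m : ℕ) :
    v * G ((m + 1 : ℕ) * v) ≤ F ((m + 1 : ℕ) * v) - F ((m : ℕ) * v) := by
  have hlt : (m : ℕ) * v < (m + 1 : ℕ) * v := by
    push_cast
    nlinarith
  obtain ⟨ξ, hξ, h1⟩ := exists_hasDerivAt_eq_slope F G hlt
    (fun x _ => (hasDerivAt_F x).continuousAt.continuousWithinAt) (fun x _ => hasDerivAt_F x)
  have h2 : ((m + 1 : ℕ) : ℝ) * v - (m : ℕ) * v = v := by push_cast; ring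
  rw [h2, eq_div_iff hv.ne'] at h1
  rw [← h1, mul_comm]
  refine mul_le_mul_of_nonneg_right ?_ hv.le
  exact G_le (le_trans (by positivity) hξ.1.le) hξ.2.le

end HHb

open HHb

/-- E2' -/
theorem HH_le {v : ℝ} (hv : 0 < v) : HH v ≤ LL / v := by
  obtain ⟨hs, he⟩ := HH_eq hv
  rw [he]
  refine hs.tsum_le_of_sum_range_le fun n => ?_
  rw [le_div_iff₀ hv, mul_comm, Finset.mul_sum]
  calc ∑ m ∈ Finset.range n, v * G ((m + 1 : ℕ) * v)
      ≤ ∑ m ∈ Finset.range n, (F ((m + 1 : ℕ) * v) - F ((m : ℕ) * v)) :=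
        Finset.sum_le_sum fun m _ => step_upper hv m
    _ = F ((n : ℕ) * v) - F 0 := by
        rw [Finset.sum_range_sub (fun m : ℕ => F ((m : ℕ) * v))]
        simp
    _ ≤ LL := by
        have h1 := F_lt ((n : ℕ) * v)
        have h2 := F_zero
        linarith

namespace HHb

/-! ### the trapezoidal rule -/

/-- the primitive used for one step -/
noncomputable def Th (a v x : ℝ) : ℝ :=
  (x - a - v / 2) * G x - F x - ((x - a) ^ 2 / 2 - v * (x - a) / 2 + v ^ 2 / 12) * G1 x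

theorem hasDerivAt_Th (a v x : ℝ) : HasDerivAt (Th a v)
    (-(((x - a) ^ 2 / 2 - v * (x - a) / 2 + v ^ 2 / 12) * G2 x)) x := by
  have e1 : HasDerivAt (fun x => x - a) 1 x := (hasDerivAt_id x).sub_const a
  have h1 : HasDerivAt (fun x => x - a - v / 2) 1 x := e1.sub_const _
  have h2 := h1.mul (hasDerivAt_G x)
  have e2 := (e1.pow 2).div_const 2
  have e3 := (e1.const_mul v).div_const 2
  have e4 := ((e2.sub e3).add_const (v ^ 2 / 12)).mul (hasDerivAt_G1 x)
  have h3 := (h2.sub (hasDerivAt_F x)).sub e4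
  refine (h3.congr_deriv ?_)
  simp only [Pi.sub_apply, Pi.pow_apply]
  push_cast
  ring

theorem continuous_G2 : Continuous G2 := by
  unfold G2
  refine Continuous.div (by fun_prop) (by fun_prop) fun x => ?_
  have := den_pos x
  positivity

/-- the error on one interval -/
theorem step_error {v : ℝ} (hv : 0 < v) (a : ℝ) :
    |v / 2 * (G a + G (a + v)) - (F (a + v) - F a) - v ^ 2 / 12 * (G1 (a + v) - G1 a)| ≤
      v ^ 2 / 12 * ∫ x in a..(a + v), |G2 x| := by
  have hle : a ≤ a + v := by linarith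
  have hcont : Continuous fun x : ℝ =>
      -(((x - a) ^ 2 / 2 - v * (x - a) / 2 + v ^ 2 / 12) * G2 x) := by
    have := continuous_G2
    fun_prop
  have h1 : ∫ x in a..(a + v), -(((x - a) ^ 2 / 2 - v * (x - a) / 2 + v ^ 2 / 12) * G2 x) =
      Th a v (a + v) - Th a v a :=
    intervalIntegral.integral_eq_sub_of_hasDerivAt (fun x _ => hasDerivAt_Th a v x)
      (hcont.intervalIntegrable _ _)
  have h2 : v / 2 * (G a + G (a + v)) - (F (a + v) - F a) - v ^ 2 / 12 * (G1 (a + v) - G1 a) =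
      Th a v (a + v) - Th a v a := by
    unfold Th
    ring
  rw [h2, ← h1, ← intervalIntegral.integral_const_mul]
  have hc2 : Continuous fun x => v ^ 2 / 12 * |G2 x| := continuous_const.mul continuous_G2.abs
  rw [← Real.norm_eq_abs]
  refine intervalIntegral.norm_integral_le_of_norm_le hle ?_ (hc2.intervalIntegrable _ _)
  refine (ae_of_all _ fun x hx => ?_)
  rw [Real.norm_eq_abs, abs_neg, abs_mul]
  refine mul_le_mul_of_nonneg_right ?_ (abs_nonneg _)
  have hx1 : 0 ≤ x - a := by linarith [hx.1]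
  have hx2 : x - a ≤ v := by linarith [hx.2]
  rw [abs_le]
  constructor
  · nlinarith [sq_nonneg (x - a - v / 2), sq_nonneg v]
  · nlinarith [mul_nonneg hx1 (sub_nonneg.mpr hx2)]

theorem exists_x0 : ∃ x₀ : ℝ, 0 ≤ x₀ ∧ 2 * Real.cosh x₀ ^ 2 - Real.cosh x₀ - 4 = 0 := by
  have hc : ContinuousOn (fun x : ℝ => 2 * Real.cosh x ^ 2 - Real.cosh x - 4) (Set.Icc 0 2) := by
    fun_prop
  have h2 : 3 ≤ Real.cosh 2 := by
    rw [Real.cosh_eq]
    have h1 := Real.exp_one_gt_d9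
    have h3 : Real.exp 2 = Real.exp 1 ^ 2 := by
      rw [← Real.exp_nat_mul]
      norm_num
    have h4 := Real.exp_pos (-2)
    rw [h3]
    nlinarith
  have h := intermediate_value_Icc (by norm_num : (0 : ℝ) ≤ 2) hc
  have h0 : (0 : ℝ) ∈ Set.Icc (2 * Real.cosh 0 ^ 2 - Real.cosh 0 - 4)
      (2 * Real.cosh 2 ^ 2 - Real.cosh 2 - 4) := by
    constructor
    · rw [Real.cosh_zero]; norm_num
    · nlinarith
  obtain ⟨x, hx, h5⟩ := h h0
  exact ⟨x, hx.1, h5⟩

theorem G1_zero : G1 0 = 0 := by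
  simp [G1]

theorem G1_nonpos {x : ℝ} (hx : 0 ≤ x) : G1 x ≤ 0 := by
  unfold G1
  have h1 := Real.sinh_nonneg_iff.mpr hx
  have h2 := den_pos x
  exact div_nonpos_of_nonpos_of_nonneg (by linarith) (by positivity)

theorem int_G2 (a b : ℝ) : ∫ x in a..b, G2 x = G1 b - G1 a :=
  intervalIntegral.integral_eq_sub_of_hasDerivAt (fun x _ => hasDerivAt_G1 x)
    (continuous_G2.intervalIntegrable _ _)

theorem variation : ∃ x₀ : ℝ, ∀ X : ℝ, x₀ ≤ X → ∫ x in (0 : ℝ)..X, |G2 x| ≤ 0.288 := by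
  obtain ⟨x₀, hx₀, hc⟩ := exists_x0
  refine ⟨x₀, fun X hX => ?_⟩
  set c := Real.cosh x₀ with hcdef
  have hc1 : 1 ≤ c := Real.one_le_cosh _
  have hc2 : 1.4 ≤ c := by nlinarith
  have i1 : ∀ a b : ℝ, IntervalIntegrable (fun x => |G2 x|) volume a b := fun a b =>
    continuous_G2.abs.intervalIntegrable _ _
  rw [← intervalIntegral.integral_add_adjacent_intervals (i1 0 x₀) (i1 x₀ X)]
  have h1 : ∫ x in (0 : ℝ)..x₀, |G2 x| = ∫ x in (0 : ℝ)..x₀, -G2 x := by
    refine intervalIntegral.integral_congr fun x hx => ?_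
    rw [Set.uIcc_of_le hx₀] at hx
    refine abs_of_nonpos ?_
    have h2 : Real.cosh x ≤ c := by
      rw [hcdef, Real.cosh_le_cosh, abs_of_nonneg hx.1, abs_of_nonneg hx₀]
      exact hx.2
    have h3 := Real.one_le_cosh x
    have h4 := den_pos x
    refine div_nonpos_of_nonpos_of_nonneg ?_ (by positivity)
    nlinarith
  have h2 : ∫ x in x₀..X, |G2 x| = ∫ x in x₀..X, G2 x := by
    refine intervalIntegral.integral_congr fun x hx => ?_
    rw [Set.uIcc_of_le hX] at hx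
    refine abs_of_nonneg ?_
    have h2 : c ≤ Real.cosh x := by
      rw [hcdef, Real.cosh_le_cosh, abs_of_nonneg hx₀, abs_of_nonneg (hx₀.trans hx.1)]
      exact hx.1
    have h4 := den_pos x
    refine div_nonneg ?_ (by positivity)
    nlinarith
  rw [h1, h2, intervalIntegral.integral_neg, int_G2, int_G2, G1_zero]
  have h3 := G1_nonpos (hx₀.trans hX)
  have h4 : -G1 x₀ ≤ 0.144 := by
    unfold G1
    rw [← hcdef]
    have h5 : 0 < (1 + 2 * c) ^ 2 := by positivity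
    rw [neg_div, neg_neg, div_le_iff₀ h5]
    have h6 : Real.sinh x₀ ^ 2 = c ^ 2 - 1 := by
      have := Real.cosh_sq x₀
      rw [← hcdef] at this
      linarith
    have h7 : (1 + 2 * c) ^ 2 = 9 + 6 * c := by nlinarith
    rw [h7]
    refine le_of_sq_le_sq ?_ (by positivity)
    nlinarith
  linarith

theorem G_le_exp (x : ℝ) : G x ≤ Real.exp (-x) := by
  rw [G_eq]
  have := Real.exp_pos (-x)
  rw [div_le_iff₀ (by positivity)]
  nlinarith [sq_nonneg (Real.exp (-x)), mul_pos this this, pow_pos this 3]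

theorem abs_G1_le (x : ℝ) : |G1 x| ≤ G x := by
  unfold G1 G
  have h1 := den_pos x
  have h2 : |Real.sinh x| ≤ Real.cosh x := by
    rw [abs_le]
    have h3 := Real.exp_pos x
    have h4 := Real.exp_pos (-x)
    rw [Real.sinh_eq, Real.cosh_eq]
    constructor <;> linarith
  rw [abs_div, abs_neg, abs_of_pos (pow_pos h1 2), div_le_div_iff₀ (by positivity) h1, abs_mul,
    abs_of_pos (by norm_num : (0 : ℝ) < 2)]
  nlinarith

theorem tendsto_G : Tendsto G atTop (𝓝 0) :=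
  squeeze_zero (fun x => (G_pos x).le) G_le_exp Real.tendsto_exp_neg_atTop_nhds_zero

theorem tendsto_G1 : Tendsto G1 atTop (𝓝 0) :=
  squeeze_zero_norm (fun x => abs_G1_le x) tendsto_G

theorem trapezoid {v : ℝ} (hv : 0 < v) : |v * HH v + v / 6 - LL| ≤ 0.024 * v ^ 2 := by
  obtain ⟨hs, he⟩ := HH_eq hv
  obtain ⟨x₀, hx₀⟩ := variation
  -- the exact sum
  have key : ∀ N : ℕ, x₀ ≤ N * v →
      |v * ∑ m ∈ Finset.range N, G ((m + 1 : ℕ) * v) + v / 2 * (1 / 3 - G (N * v)) -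
        (F (N * v) - F 0) - v ^ 2 / 12 * G1 (N * v)| ≤ 0.024 * v ^ 2 := by
    intro N hN
    have h1 : v * ∑ m ∈ Finset.range N, G ((m + 1 : ℕ) * v) + v / 2 * (1 / 3 - G (N * v)) -
        (F (N * v) - F 0) - v ^ 2 / 12 * G1 (N * v) =
        ∑ m ∈ Finset.range N, (v / 2 * (G (m * v) + G (m * v + v)) - (F (m * v + v) - F (m * v)) -
          v ^ 2 / 12 * (G1 (m * v + v) - G1 (m * v))) := by
      have h2 : ∀ m : ℕ, (m : ℝ) * v + v = (m + 1 : ℕ) * v := by
        intro m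
        push_cast
        ring
      simp only [h2]
      rw [Finset.sum_sub_distrib, Finset.sum_sub_distrib, ← Finset.mul_sum, ← Finset.mul_sum,
        Finset.sum_range_sub (fun m : ℕ => F ((m : ℕ) * v)),
        Finset.sum_range_sub (fun m : ℕ => G1 ((m : ℕ) * v)), Finset.sum_add_distrib]
      have h3 := Finset.sum_range_succ' (fun m : ℕ => G ((m : ℕ) * v)) N
      rw [Finset.sum_range_succ] at h3
      have h4 : G (((0 : ℕ) : ℝ) * v) = 1 / 3 := by
        simp [G]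
        norm_num
      rw [h4] at h3
      have h5 : ∑ m ∈ Finset.range N, G ((m : ℕ) * v) =
          ∑ m ∈ Finset.range N, G ((m + 1 : ℕ) * v) + 1 / 3 - G (N * v) := by linarith
      rw [h5]
      simp only [Nat.cast_zero, zero_mul, G1_zero]
      ring
    rw [h1]
    refine (Finset.abs_sum_le_sum_abs _ _).trans ?_
    refine (Finset.sum_le_sum fun (m : ℕ) _ => step_error hv ((m : ℝ) * v)).trans ?_
    rw [← Finset.mul_sum]
    have h6 : ∑ m ∈ Finset.range N, ∫ x in ((m : ℕ) * v)..((m : ℕ) * v + v), |G2 x| =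
        ∫ x in (0 : ℝ)..(N * v), |G2 x| := by
      have h7 := intervalIntegral.sum_integral_adjacent_intervals (μ := volume)
        (f := fun x => |G2 x|) (a := fun m : ℕ => (m : ℝ) * v) (n := N)
        (fun k _ => continuous_G2.abs.intervalIntegrable _ _)
      simp only [Nat.cast_zero, zero_mul] at h7
      rw [← h7]
      refine Finset.sum_congr rfl fun m _ => ?_
      congr 1
      push_cast
      ring
    rw [h6]
    have h8 := hx₀ _ hN
    nlinarith [sq_nonneg v]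
  have hNv : Tendsto (fun N : ℕ => (N : ℝ) * v) atTop atTop :=
    tendsto_natCast_atTop_atTop.atTop_mul_const hv
  have t1 := (hs.hasSum.tendsto_sum_nat).const_mul v
  rw [← he] at t1
  have t2 := (((tendsto_G.comp hNv).const_sub (1 / 3)).const_mul (v / 2))
  have t3 := (tendsto_F.comp hNv).sub_const (F 0)
  have t4 := (tendsto_G1.comp hNv).const_mul (v ^ 2 / 12)
  have t5 := (((t1.add t2).sub t3).sub t4).abs
  have h9 : |v * HH v + v / 2 * (1 / 3 - 0) - (3 * LL - F 0) - v ^ 2 / 12 * 0| =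
      |v * HH v + v / 6 - LL| := by
    congr 1
    rw [F_zero]
    ring
  rw [h9] at t5
  refine le_of_tendsto t5 ?_
  filter_upwards [hNv.eventually_ge_atTop x₀] with N hN
  exact key N hN

end HHb

/-- E3' -/
theorem HH_le' {v : ℝ} (hv : 0 < v) : HH v ≤ LL / v - 1 / 6 + 0.024 * v := by
  have h := (abs_le.mp (trapezoid hv)).2
  have h1 : v * HH v ≤ v * (LL / v - 1 / 6 + 0.024 * v) := by
    have h2 : v * (LL / v - 1 / 6 + 0.024 * v) = LL - v / 6 + 0.024 * v ^ 2 := by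
      field_simp
    rw [h2]
    linarith
  exact le_of_mul_le_mul_left h1 hv

/-- E3'' -/
theorem HH_ge' {v : ℝ} (hv : 0 < v) : LL / v - 1 / 6 - 0.024 * v ≤ HH v := by
  have h := (abs_le.mp (trapezoid hv)).1
  have h1 : v * (LL / v - 1 / 6 - 0.024 * v) ≤ v * HH v := by
    have h2 : v * (LL / v - 1 / 6 - 0.024 * v) = LL - v / 6 - 0.024 * v ^ 2 := by
      field_simp
    rw [h2]
    linarith
  exact le_of_mul_le_mul_left h1 hv

end Pool.Agent.Work.Mu22
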