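import Mathlib

/-!
# Herbrand quotient of a finitely generated abelian group with an automorphism of prime order

`M` finitely generated abelian, `σ ^ p = 1`, `D = σ - 1`, `N = 1 + σ + … + σ ^ (p - 1)`.
If `rank M + 1 = p (rank M ^ σ + 1)` then `[ker N : D M] = p [M ^ σ : N M]`.
-/

set_option autoImplicit false

namespace Pool.Agent.Work.MP_a4986b_nt.Herb

open Polynomial

section index

variable {A B : Type*} [AddCommGroup A] [AddCommGroup B]

theorem card_dom (f : A →+ B) : Nat.card A = Nat.card f.range * Nat.card f.ker := by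
  rw [AddSubgroup.card_eq_card_quotient_mul_card_addSubgroup f.ker,
    Nat.card_congr (QuotientAddGroup.quotientKerEquivRange f).toEquiv]

/-- index of an endomorphism: `[A : φ A]` -/
noncomputable def ci (f : A →+ A) : ℕ := f.range.index

/-- cardinality of the kernel -/
noncomputable def kc (f : A →+ A) : ℕ := Nat.card f.ker

theorem kc_comp (f g : A →+ A) :
    kc (f.comp g) = Nat.card (g.range.addSubgroupOf f.ker) * kc g := by
  set φ : (f.comp g).ker →+ f.ker :=
    { toFun := fun x => ⟨g x.1, by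
        have := x.2
        rw [AddMonoidHom.mem_ker] at this
        rw [AddMonoidHom.mem_ker]; exact this⟩
      map_zero' := by ext; simp
      map_add' := fun x y => by ext; simp } with hφ
  unfold kc
  rw [card_dom φ]
  have h1 : φ.range = g.range.addSubgroupOf f.ker := by
    ext x
    rw [AddMonoidHom.mem_range, AddSubgroup.mem_addSubgroupOf, AddMonoidHom.mem_range]
    constructor
    · rintro ⟨y, hy⟩
      exact ⟨y.1, congrArg Subtype.val hy⟩
    · rintro ⟨y, hy⟩
      refine ⟨⟨y, ?_⟩, ?_⟩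
      · rw [AddMonoidHom.mem_ker, AddMonoidHom.comp_apply, hy]
        exact x.2
      · ext; exact hy
  have h2 : Nat.card φ.ker = Nat.card g.ker := by
    apply Nat.card_congr
    refine ⟨fun x => ⟨x.1.1, ?_⟩, fun y => ⟨⟨y.1, ?_⟩, ?_⟩, ?_, ?_⟩
    · have := x.2
      rw [AddMonoidHom.mem_ker] at this
      have h := congrArg Subtype.val this
      rw [AddMonoidHom.mem_ker]
      exact h
    · rw [AddMonoidHom.mem_ker, AddMonoidHom.comp_apply, y.2, map_zero]
    · rw [AddMonoidHom.mem_ker]
      ext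
      exact y.2
    · intro x; rfl
    · intro y; rfl
  rw [h1, h2]

theorem ci_mul (f g : A →+ A) :
    ci (f.comp g) * (kc f * kc g) = ci f * ci g * kc (f.comp g) := by
  have h1 : (f.comp g).range = g.range.map f := by
    rw [AddMonoidHom.range_comp]
  have h2 : ci (f.comp g) = (g.range ⊔ f.ker).index * ci f := by
    unfold ci
    rw [h1, AddSubgroup.index_map]
  have h3 : ci g = g.range.relIndex (g.range ⊔ f.ker) * (g.range ⊔ f.ker).index := by
    unfold ci
    rw [AddSubgroup.relIndex_mul_index le_sup_left]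
  have h4 : g.range.relIndex (g.range ⊔ f.ker) = g.range.relIndex f.ker :=
    AddSubgroup.relIndex_sup_left f.ker g.range
  have h5 : Nat.card (g.range.addSubgroupOf f.ker) * g.range.relIndex f.ker = kc f :=
    AddSubgroup.card_mul_index _
  rw [h2, h3, h4, kc_comp, ← h5]
  ring

end index

section nsmul

variable {A B : Type*} [AddCommGroup A] [AddCommGroup B] {p m n : ℕ}

/-- multiplication by `p` -/
noncomputable def mp (A : Type*) [AddCommGroup A] (p : ℕ) : A →+ A := nsmulAddMonoidHom p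

theorem mp_apply (x : A) : mp A p x = p • x := rfl

/-- `[A : p A] = p ^ n |A[p]|` -/
def QP (A : Type*) [AddCommGroup A] (p n : ℕ) : Prop :=
  kc (mp A p) ≠ 0 ∧ ci (mp A p) = p ^ n * kc (mp A p)

theorem QP.equiv (e : A ≃+ B) (h : QP A p n) : QP B p n := by
  have h1 : (mp B p).range = (mp A p).range.map (e : A →+ B) := by
    ext x
    simp only [AddMonoidHom.mem_range, AddSubgroup.mem_map]
    constructor
    · rintro ⟨y, rfl⟩
      refine ⟨p • e.symm y, ⟨e.symm y, rfl⟩, ?_⟩
      simp [mp_apply]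
    · rintro ⟨_, ⟨z, rfl⟩, rfl⟩
      refine ⟨e z, ?_⟩
      simp [mp_apply]
  have h2 : (mp B p).ker = (mp A p).ker.map (e : A →+ B) := by
    ext x
    simp only [AddMonoidHom.mem_ker, AddSubgroup.mem_map, mp_apply]
    constructor
    · intro h
      refine ⟨e.symm x, ?_, by simp⟩
      rw [← map_nsmul, h, map_zero]
    · rintro ⟨z, hz, rfl⟩
      show p • e z = 0
      rw [← map_nsmul, hz, map_zero]
  have h3 : ci (mp B p) = ci (mp A p) := by
    unfold ci
    rw [h1]
    exact AddSubgroup.index_map_of_bijective e.bijective _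
  have h4 : kc (mp B p) = kc (mp A p) := by
    unfold kc
    rw [h2]
    exact AddSubgroup.card_map_of_injective e.injective
  rw [QP, h3, h4]
  exact h

theorem QP.prod (h : QP A p n) (h' : QP B p m) : QP (A × B) p (n + m) := by
  have h1 : (mp (A × B) p).range = (mp A p).range.prod (mp B p).range := by
    ext ⟨x, y⟩
    simp only [AddMonoidHom.mem_range, AddSubgroup.mem_prod, mp_apply]
    constructor
    · rintro ⟨⟨a, b⟩, h⟩
      exact ⟨⟨a, congrArg Prod.fst h⟩, ⟨b, congrArg Prod.snd h⟩⟩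
    · rintro ⟨⟨a, ha⟩, ⟨b, hb⟩⟩
      exact ⟨(a, b), Prod.ext ha hb⟩
  have h2 : (mp (A × B) p).ker = (mp A p).ker.prod (mp B p).ker := by
    ext ⟨x, y⟩
    simp only [AddMonoidHom.mem_ker, AddSubgroup.mem_prod, mp_apply]
    rw [Prod.ext_iff]
    rfl
  have h3 : ci (mp (A × B) p) = ci (mp A p) * ci (mp B p) := by
    unfold ci
    rw [h1, AddSubgroup.index_prod]
  have h4 : kc (mp (A × B) p) = kc (mp A p) * kc (mp B p) := by
    unfold kc
    rw [h2, Nat.card_congr (AddSubgroup.prodEquiv _ _).toEquiv, Nat.card_prod]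
  refine ⟨?_, ?_⟩
  · rw [h4]
    exact mul_ne_zero h.1 h'.1
  · rw [h3, h4, h.2, h'.2, pow_add]
    ring

theorem QP.finite [Finite A] : QP A p 0 := by
  have h0 : kc (mp A p) ≠ 0 := Nat.card_pos.ne'
  refine ⟨h0, ?_⟩
  rw [pow_zero, one_mul]
  have h1 := card_dom (mp A p)
  have h2 := AddSubgroup.card_mul_index (mp A p).range
  have h3 : Nat.card (mp A p).range ≠ 0 := Nat.card_pos.ne'
  have h4 : Nat.card (mp A p).range * ci (mp A p) = Nat.card (mp A p).range * kc (mp A p) := by
    unfold ci kc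
    rw [h2, ← h1]
  exact Nat.eq_of_mul_eq_mul_left (Nat.pos_of_ne_zero h3) h4

theorem QP.pi (hp : 0 < p) : QP (Fin n → ℤ) p n := by
  have h1 : (mp (Fin n → ℤ) p).ker = ⊥ := by
    rw [AddMonoidHom.ker_eq_bot_iff]
    intro x y h
    have h2 : p • x = p • y := h
    funext i
    have h3 := congrFun h2 i
    simp only [Pi.smul_apply, nsmul_eq_mul] at h3
    have : (p : ℤ) ≠ 0 := by exact_mod_cast hp.ne'
    exact mul_left_cancel₀ this h3
  have h2 : (mp (Fin n → ℤ) p).range =
      AddSubgroup.pi Set.univ (fun _ : Fin n => AddSubgroup.zmultiples (p : ℤ)) := by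
    ext x
    simp only [AddMonoidHom.mem_range, AddSubgroup.mem_pi, Set.mem_univ, true_implies,
      Int.mem_zmultiples_iff, mp_apply]
    constructor
    · rintro ⟨y, rfl⟩ i
      exact ⟨y i, by simp⟩
    · intro h
      choose y hy using h
      refine ⟨y, ?_⟩
      funext i
      simp [hy]
  have h3 : kc (mp (Fin n → ℤ) p) = 1 := by
    unfold kc
    rw [h1]
    exact AddSubgroup.card_bot
  refine ⟨by rw [h3]; exact one_ne_zero, ?_⟩
  rw [h3, mul_one]
  unfold ci
  rw [h2, AddSubgroup.index_pi]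
  simp [Int.index_zmultiples]

theorem finrank_prod_torsion {F T : Type*} [AddCommGroup F] [AddCommGroup T]
    [Module.Finite ℤ F] [Module.Finite ℤ T] [Finite T] :
    Module.finrank ℤ (F × T) = Module.finrank ℤ F := by
  have h1 := (LinearMap.ker (LinearMap.fst ℤ F T)).finrank_quotient_add_finrank
  have h2 : Module.finrank ℤ ((F × T) ⧸ LinearMap.ker (LinearMap.fst ℤ F T)) =
      Module.finrank ℤ F :=
    ((LinearMap.fst ℤ F T).quotKerEquivOfSurjective LinearMap.fst_surjective).finrank_eq
  have h3 : Module.finrank ℤ (LinearMap.ker (LinearMap.fst ℤ F T)) = 0 := by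
    rw [Module.finrank_eq_zero_iff_isTorsion]
    intro x
    have hT : 0 < Nat.card T := Nat.card_pos
    refine ⟨⟨(Nat.card T : ℤ), mem_nonZeroDivisors_of_ne_zero (by exact_mod_cast hT.ne')⟩, ?_⟩
    ext
    · have := x.2
      rw [LinearMap.mem_ker] at this
      show (Nat.card T : ℤ) • x.1.1 = 0
      have h4 : x.1.1 = 0 := this
      rw [h4, smul_zero]
    · show (Nat.card T : ℤ) • x.1.2 = 0
      rw [natCast_zsmul]
      exact card_nsmul_eq_zero'
  omega

/-- `[A : p A] = p ^ rank |A[p]|` -/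
theorem qp_fg [Module.Finite ℤ A] (hp : 0 < p) : QP A p (Module.finrank ℤ A) := by
  have hfg : AddGroup.FG A := Module.Finite.iff_addGroup_fg.1 inferInstance
  obtain ⟨n, ι, _, q, hq, e, ⟨f⟩⟩ := AddCommGroup.equiv_free_prod_directSum_zmod A
  have hne : ∀ i, NeZero (q i ^ e i) := fun i => ⟨pow_ne_zero _ (hq i).ne_zero⟩
  set T := DirectSum ι fun i => ZMod (q i ^ e i) with hT
  have hTfin : Finite T := Finite.of_equiv _ DFinsupp.equivFunOnFintype.symm
  have hTf : Module.Finite ℤ T := Module.Finite.of_finite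
  let g : A ≃+ (Fin n → ℤ) × T :=
    f.trans ((Finsupp.linearEquivFunOnFinite ℤ ℤ (Fin n)).toAddEquiv.prodCongr (AddEquiv.refl _))
  have hn : Module.finrank ℤ A = n := by
    rw [g.toIntLinearEquiv.finrank_eq, finrank_prod_torsion]
    simp
  rw [hn]
  have h1 : QP ((Fin n → ℤ) × T) p (n + 0) := (QP.pi hp).prod QP.finite
  exact h1.equiv g.symm

end nsmul

section cyc

/-- on a group with `1 + σ + … + σ ^ (p - 1) = 0` -/
theorem dvd_of_root {p : ℕ} (hp : p.Prime) (P : ℤ[X])
    (h : ∀ ζ : ℂ, IsPrimitiveRoot ζ p → aeval ζ P = 0) : cyclotomic p ℤ ∣ P := by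
  have hζ := Complex.isPrimitiveRoot_exp p hp.ne_zero
  rw [cyclotomic_eq_minpoly hζ hp.pos]
  exact minpoly.isIntegrallyClosed_dvd (hζ.isIntegral hp.pos) (h _ hζ)

theorem dvd_prod {p : ℕ} (hp : p.Prime) :
    cyclotomic p ℤ ∣ ∏ k ∈ Finset.range (p - 1), (1 - X ^ (k + 1)) - C (p : ℤ) := by
  apply dvd_of_root hp
  intro ζ hζ
  have h1 : p - 1 + 1 = p := Nat.sub_add_cancel hp.one_le
  rw [← h1] at hζ
  have h2 := hζ.prod_one_sub_pow_eq_order
  simp only [map_sub, map_prod, map_one, map_pow, aeval_X, eq_intCast, map_intCast]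
  rw [h2]
  have h3 : (p : ℂ) = ((p - 1 : ℕ) : ℂ) + 1 := by
    rw [← Nat.cast_succ, Nat.succ_eq_add_one, h1]
  simp [h3]

theorem dvd_unit {p j k : ℕ} (hp : p.Prime) (hjk : j * k % p = 1 % p) :
    cyclotomic p ℤ ∣ (∑ i ∈ Finset.range j, X ^ i) * (∑ i ∈ Finset.range k, (X ^ j) ^ i) - 1 := by
  apply dvd_of_root hp
  intro ζ hζ
  have h1 : ζ ^ (j * k) = ζ := by
    rw [← Nat.mod_add_div (j * k) p, pow_add, pow_mul, hζ.pow_eq_one, one_pow, mul_one, hjk,
      Nat.mod_eq_of_lt hp.one_lt, pow_one]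
  have h2 : ζ - 1 ≠ 0 := sub_ne_zero.2 (hζ.ne_one hp.one_lt)
  simp only [map_sub, map_mul, map_sum, map_one, map_pow, aeval_X]
  have h3 := geom_sum_mul ζ j
  have h4 := geom_sum_mul (ζ ^ j) k
  rw [← pow_mul, h1] at h4
  apply mul_left_cancel₀ h2
  rw [mul_zero, mul_sub, ← mul_assoc, mul_comm (ζ - 1), h3, mul_comm, h4]
  ring

end cyc

section endo

variable {A : Type*} [AddCommGroup A] {p : ℕ}

/-- index in the endomorphism ring -/
noncomputable def eci (f : AddMonoid.End A) : ℕ := ci (A := A) f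

/-- kernel in the endomorphism ring -/
noncomputable def ekc (f : AddMonoid.End A) : ℕ := kc (A := A) f

theorem eci_eq {f : AddMonoid.End A} {H : AddSubgroup A} (h : AddMonoidHom.range f = H) :
    eci f = H.index := congrArg AddSubgroup.index h

theorem ekc_eq {f : AddMonoid.End A} {H : AddSubgroup A} (h : AddMonoidHom.ker f = H) :
    ekc f = Nat.card H := by
  subst h; rfl

theorem eci_mul (f g : AddMonoid.End A) :
    eci (f * g) * (ekc f * ekc g) = eci f * eci g * ekc (f * g) := ci_mul f g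

theorem eci_one : eci (1 : AddMonoid.End A) = 1 := by
  have h : AddMonoidHom.range (1 : AddMonoid.End A) = ⊤ := by
    ext x
    exact ⟨fun _ => trivial, fun _ => ⟨x, rfl⟩⟩
  unfold eci ci
  rw [h, AddSubgroup.index_top]

theorem ekc_one : ekc (1 : AddMonoid.End A) = 1 := by
  have h : AddMonoidHom.ker (1 : AddMonoid.End A) = ⊥ := by
    ext x
    exact Iff.rfl
  unfold ekc kc
  rw [h, AddSubgroup.card_bot]

theorem eci_mul_unit {f u v : AddMonoid.End A} (huv : u * v = 1) : eci (f * u) = eci f := by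
  have h : AddMonoidHom.range (f * u) = AddMonoidHom.range f := by
    ext x
    constructor
    · rintro ⟨y, rfl⟩
      exact ⟨u y, rfl⟩
    · rintro ⟨y, rfl⟩
      refine ⟨v y, ?_⟩
      have h1 : u (v y) = y := DFunLike.congr_fun huv y
      show f (u (v y)) = f y
      rw [h1]
  unfold eci ci
  rw [h]

theorem ekc_unit_mul {f u v : AddMonoid.End A} (hvu : v * u = 1) : ekc (u * f) = ekc f := by
  have h : AddMonoidHom.ker (u * f) = AddMonoidHom.ker f := by
    ext x
    simp only [AddMonoidHom.mem_ker]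
    show u (f x) = 0 ↔ f x = 0
    constructor
    · intro h
      have h1 : v (u (f x)) = f x := DFunLike.congr_fun hvu (f x)
      rw [h, map_zero] at h1
      exact h1.symm
    · intro h
      rw [h, map_zero]
  unfold ekc kc
  rw [h]

theorem ekc_ne_zero_of_mul {f g h : AddMonoid.End A} (hfg : g * f = h) (hh : ekc h ≠ 0) :
    ekc f ≠ 0 := by
  have h1 : AddMonoidHom.ker f ≤ AddMonoidHom.ker h := by
    intro x hx
    rw [AddMonoidHom.mem_ker] at hx ⊢
    rw [← hfg]
    have hx' : f x = 0 := hx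
    exact (congrArg g hx').trans (map_zero g)
  have h2 : Finite (AddMonoidHom.ker h) := Nat.finite_of_card_ne_zero hh
  have h3 : Finite (AddMonoidHom.ker f) :=
    Finite.of_injective (AddSubgroup.inclusion h1) (AddSubgroup.inclusion_injective h1)
  exact Nat.card_pos.ne'

/-- **the cyclotomic part** -/
theorem ci_one_sub (hp : p.Prime) [Module.Finite ℤ A] (σ : AddMonoid.End A)
    (h : ∑ i ∈ Finset.range p, σ ^ i = 0) {b : ℕ} (hb : (p - 1) * b ≤ Module.finrank ℤ A) :
    ekc (1 - σ) ≠ 0 ∧ p ^ b * ekc (1 - σ) ≤ eci (1 - σ) := by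
  have hcyc : ∀ P : ℤ[X], cyclotomic p ℤ ∣ P → aeval σ P = 0 := by
    rintro _ ⟨Q, rfl⟩
    have := Fact.mk hp
    rw [map_mul, cyclotomic_prime, map_sum]
    simp only [map_pow, aeval_X]
    rw [h, zero_mul]
  set F : ℕ → ℤ[X] := fun k => 1 - X ^ (k + 1) with hF
  set P : ℕ → AddMonoid.End A := fun m => aeval σ (∏ k ∈ Finset.range m, F k) with hP
  set f : ℕ → AddMonoid.End A := fun k => aeval σ (F k) with hf
  have hPs : ∀ m, P (m + 1) = P m * f m := fun m => by
    simp only [hP, hf]
    rw [Finset.prod_range_succ, map_mul]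
  have hPp : P (p - 1) = (p : AddMonoid.End A) := by
    have h1 := hcyc _ (dvd_prod hp)
    rw [map_sub, sub_eq_zero] at h1
    have h2 : aeval σ (C (p : ℤ)) = (p : AddMonoid.End A) := by
      simp
    rw [← h2, ← h1]
  have hqp := qp_fg (A := A) (p := p) hp.pos
  have hep : eci (p : AddMonoid.End A) = ci (mp A p) := rfl
  have hkp : ekc (p : AddMonoid.End A) = kc (mp A p) := rfl
  have hkp0 : ekc (p : AddMonoid.End A) ≠ 0 := by rw [hkp]; exact hqp.1
  have hP0 : ∀ m, m ≤ p - 1 → ekc (P m) ≠ 0 := by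
    intro m hm
    refine ekc_ne_zero_of_mul (g := aeval σ (∏ k ∈ Finset.Ico m (p - 1), F k))
      (h := (p : AddMonoid.End A)) ?_ hkp0
    rw [← hPp]
    simp only [hP]
    rw [← map_mul, mul_comm, Finset.prod_range_mul_prod_Ico F hm]
  -- the factors
  have hfk : ∀ k, k < p - 1 → eci (f k) = eci (1 - σ) ∧ ekc (f k) = ekc (1 - σ) := by
    intro k hk
    have hkp : k + 1 < p := by omega
    have hco : Nat.Coprime (k + 1) p :=
      (Nat.coprime_of_lt_prime (by omega) hkp hp).symm
    obtain ⟨l, -, hl⟩ := Nat.exists_mul_mod_eq_one_of_coprime hco hp.one_lt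
    have hl' : (k + 1) * l % p = 1 % p := by rw [hl, Nat.mod_eq_of_lt hp.one_lt]
    set u : ℤ[X] := ∑ i ∈ Finset.range (k + 1), X ^ i with hu
    set v : ℤ[X] := ∑ i ∈ Finset.range l, (X ^ (k + 1)) ^ i with hv
    have h1 : aeval σ u * aeval σ v = 1 := by
      have h2 := hcyc _ (dvd_unit hp hl')
      rw [map_sub, map_mul, map_one, sub_eq_zero] at h2
      exact h2
    have h2 : aeval σ v * aeval σ u = 1 := by
      rw [← map_mul, mul_comm, map_mul, h1]
    have h3 : F k = (1 - X) * u := by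
      rw [hF, hu]
      simp only
      rw [mul_comm, ← neg_sub X 1, mul_neg, geom_sum_mul]
      ring
    have h4 : aeval σ (1 - X : ℤ[X]) = 1 - σ := by simp
    constructor
    · rw [hf]
      simp only
      rw [h3, map_mul, h4]
      exact eci_mul_unit h1
    · rw [hf]
      simp only
      rw [h3, mul_comm, map_mul, h4]
      exact ekc_unit_mul h2
  have hmain : ∀ m, m ≤ p - 1 → eci (P m) * ekc (1 - σ) ^ m = eci (1 - σ) ^ m * ekc (P m) := by
    intro m
    induction m with
    | zero =>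
      intro _
      have : P 0 = 1 := by simp [hP]
      rw [this, eci_one, ekc_one]
      simp
    | succ m ih =>
      intro hm
      have h1 := ih (by omega)
      have h2 := eci_mul (P m) (f m)
      obtain ⟨h3, h4⟩ := hfk m (by omega)
      rw [← hPs, h3, h4] at h2
      have h5 : 0 < ekc (P m) := Nat.pos_of_ne_zero (hP0 m (by omega))
      apply Nat.eq_of_mul_eq_mul_left h5
      calc ekc (P m) * (eci (P (m + 1)) * ekc (1 - σ) ^ (m + 1))
          = eci (P (m + 1)) * (ekc (P m) * ekc (1 - σ)) * ekc (1 - σ) ^ m := by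
            rw [pow_succ]; ring
        _ = (eci (P m) * ekc (1 - σ) ^ m) * eci (1 - σ) * ekc (P (m + 1)) := by
            rw [h2]; ring
        _ = ekc (P m) * (eci (1 - σ) ^ (m + 1) * ekc (P (m + 1))) := by
            rw [h1, pow_succ]; ring
  have hp1 : 1 ≤ p - 1 := by have := hp.two_le; omega
  have hk1 : ekc (1 - σ) ≠ 0 := by
    have h1 := hP0 1 hp1
    have h2 : P 1 = 1 - σ := by
      simp [hP, hF]
    rwa [h2] at h1
  refine ⟨hk1, ?_⟩
  have h1 := hmain (p - 1) le_rfl
  rw [hPp, hep, hkp, hqp.2] at h1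
  have h2 : 0 < kc (mp A p) := Nat.pos_of_ne_zero hqp.1
  have h3 : p ^ Module.finrank ℤ A * ekc (1 - σ) ^ (p - 1) = eci (1 - σ) ^ (p - 1) := by
    apply Nat.eq_of_mul_eq_mul_left h2
    linarith
  have h4 : (p ^ b * ekc (1 - σ)) ^ (p - 1) ≤ eci (1 - σ) ^ (p - 1) := by
    rw [← h3, mul_pow, ← pow_mul, mul_comm b]
    exact Nat.mul_le_mul_right _ (Nat.pow_le_pow_right hp.pos hb)
  exact (Nat.pow_le_pow_iff_left (by omega : p - 1 ≠ 0)).1 h4

end endo

section final

variable {M : Type*} [AddCommGroup M] {p : ℕ}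

theorem relIndex_range (f : M →+ M) (H : AddSubgroup M) :
    (H.map f).relIndex f.range = (H ⊔ f.ker).index := by
  rw [AddMonoidHom.range_eq_map, AddSubgroup.relIndex_map_map, top_sup_eq,
    AddSubgroup.relIndex_top_right]

/-- **the Herbrand quotient**, torsion allowed -/
theorem herb [Module.Finite ℤ M] (hp : p.Prime) (σ : AddMonoid.End M) (hσ : σ ^ p = 1) (r : ℕ)
    (D N : AddMonoid.End M) (hD : D = 1 - σ) (hN : N = ∑ i ∈ Finset.range p, σ ^ i)
    (h1 : p * (r + 1) ≤ Module.finrank ℤ M + 1)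
    (h2 : Module.finrank ℤ (AddMonoidHom.ker D) ≤ r) :
    (AddMonoidHom.range N).relIndex (AddMonoidHom.ker D) ≠ 0 ∧
    (AddMonoidHom.range D).relIndex (AddMonoidHom.ker N) ≠ 0 ∧
      p * (AddMonoidHom.range N).relIndex (AddMonoidHom.ker D) ≤
        (AddMonoidHom.range D).relIndex (AddMonoidHom.ker N) := by
  have hDN : ∀ x, D (N x) = 0 := by
    intro x
    have h3 : D * N = 0 := by
      rw [hD, hN, mul_neg_geom_sum, hσ, sub_self]
    exact DFunLike.congr_fun h3 x
  have hND : ∀ x, N (D x) = 0 := by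
    intro x
    have h3 : N * D = 0 := by
      rw [hD, hN, geom_sum_mul_neg, hσ, sub_self]
    exact DFunLike.congr_fun h3 x
  have hrD : AddMonoidHom.range D ≤ AddMonoidHom.ker N := by
    rintro _ ⟨x, rfl⟩
    exact hND x
  have hrN : AddMonoidHom.range N ≤ AddMonoidHom.ker D := by
    rintro _ ⟨x, rfl⟩
    exact hDN x
  have hσN : ∀ x, N (σ x) = σ (N x) := by
    intro x
    have h3 : N * σ = σ * N := by
      rw [hN, Finset.sum_mul, Finset.mul_sum]
      refine Finset.sum_congr rfl fun i _ => ?_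
      rw [← pow_succ, ← pow_succ']
    exact DFunLike.congr_fun h3 x
  have hDx : ∀ x, D x = x - σ x := by
    intro x
    rw [hD]; rfl
  have hfixpow : ∀ x, D x = 0 → ∀ i, (σ ^ i) x = x := by
    intro x hx i
    have h3 : σ x = x := by
      rw [hDx, sub_eq_zero] at hx
      exact hx.symm
    induction i with
    | zero => rfl
    | succ i ih =>
      rw [pow_succ]
      show (σ ^ i) (σ x) = x
      rw [h3, ih]
  have hNx : ∀ x, N x = ∑ i ∈ Finset.range p, (σ ^ i) x := by
    intro x
    rw [hN]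
    exact AddMonoidHom.finsetSum_apply _ _ _
  have hNfix : ∀ x, D x = 0 → N x = p • x := by
    intro x hx
    rw [hNx, Finset.sum_congr rfl fun i _ => hfixpow x hx i]
    simp
  -- the kernel of `N`
  set M0 : AddSubgroup M := AddMonoidHom.ker N with hM0
  set F : AddSubgroup M := AddMonoidHom.ker D with hF
  have hmem : ∀ x : M0, σ x.1 ∈ M0 := by
    intro x
    have h3 : N x.1 = 0 := x.2
    show N (σ x.1) = 0
    rw [hσN, h3, map_zero]
  let σ₀ : AddMonoid.End M0 :=
    { toFun := fun x => ⟨σ x.1, hmem x⟩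
      map_zero' := by ext; exact map_zero σ
      map_add' := fun x y => by ext; exact map_add σ _ _ }
  have hpow : ∀ (i : ℕ) (x : M0), ((σ₀ ^ i) x).1 = (σ ^ i) x.1 := by
    intro i
    induction i with
    | zero => intro x; rfl
    | succ i ih =>
      intro x
      rw [pow_succ, pow_succ]
      exact ih (σ₀ x)
  have hsum : ∑ i ∈ Finset.range p, σ₀ ^ i = 0 := by
    apply AddMonoidHom.ext
    intro x
    apply Subtype.ext
    have h3 : ((∑ i ∈ Finset.range p, σ₀ ^ i : AddMonoid.End M0) x) =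
        ∑ i ∈ Finset.range p, (σ₀ ^ i) x := AddMonoidHom.finsetSum_apply _ _ _
    have h4 : ((∑ i ∈ Finset.range p, (σ₀ ^ i) x : M0) : M) =
        ∑ i ∈ Finset.range p, (σ ^ i) x.1 := by
      rw [AddSubgroup.val_finsetSum]
      exact Finset.sum_congr rfl fun i _ => hpow i x
    have h5 : N x.1 = 0 := x.2
    rw [hNx] at h5
    exact (congrArg Subtype.val h3).trans (h4.trans h5)
  -- ranks
  have hfinM0 : Module.Finite ℤ M0 :=
    (inferInstance : Module.Finite ℤ (AddSubgroup.toIntSubmodule M0))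
  have hfinF : Module.Finite ℤ F :=
    (inferInstance : Module.Finite ℤ (AddSubgroup.toIntSubmodule F))
  have hfinR : Module.Finite ℤ (AddMonoidHom.range N) :=
    (inferInstance : Module.Finite ℤ (AddSubgroup.toIntSubmodule (AddMonoidHom.range N)))
  have hrank : Module.finrank ℤ (AddMonoidHom.range N) + Module.finrank ℤ M0 =
      Module.finrank ℤ M := by
    have h3 := (LinearMap.ker (AddMonoidHom.toIntLinearMap N)).finrank_quotient_add_finrank
    rw [(LinearMap.quotKerEquivRange (AddMonoidHom.toIntLinearMap N)).finrank_eq] at h3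
    exact h3
  have hrankF : Module.finrank ℤ (AddMonoidHom.range N) ≤ Module.finrank ℤ F :=
    LinearMap.finrank_le_finrank_of_injective
      (f := (AddSubgroup.inclusion hrN).toIntLinearMap) (AddSubgroup.inclusion_injective hrN)
  have hb : (p - 1) * (r + 1) ≤ Module.finrank ℤ M0 := by
    have h3 : p * (r + 1) = (p - 1) * (r + 1) + (r + 1) := by
      obtain ⟨q, rfl⟩ : ∃ q, p = q + 1 := ⟨p - 1, (Nat.sub_add_cancel hp.one_le).symm⟩
      rw [Nat.add_sub_cancel]
      ring
    omega
  obtain ⟨hk0, hc0⟩ := ci_one_sub hp σ₀ hsum hb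
  -- translation
  have hc1 : eci (1 - σ₀) = (M0.map D).relIndex M0 := by
    have h3 : AddMonoidHom.range (1 - σ₀) = (M0.map D).addSubgroupOf M0 := by
      ext x
      rw [AddMonoidHom.mem_range, AddSubgroup.mem_addSubgroupOf, AddSubgroup.mem_map]
      constructor
      · rintro ⟨y, rfl⟩
        exact ⟨y.1, y.2, hDx y.1⟩
      · rintro ⟨y, hy, hyx⟩
        refine ⟨⟨y, hy⟩, ?_⟩
        apply Subtype.ext
        exact (hDx y).symm.trans hyx
    exact eci_eq h3
  have hk1 : ekc (1 - σ₀) = Nat.card (F.addSubgroupOf M0) := by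
    have h3 : AddMonoidHom.ker (1 - σ₀) = F.addSubgroupOf M0 := by
      ext x
      rw [AddMonoidHom.mem_ker, AddSubgroup.mem_addSubgroupOf, hF]
      constructor
      · intro h
        have h4 := congrArg Subtype.val h
        show D x.1 = 0
        rw [hDx]
        exact h4
      · intro h
        have h4 : D x.1 = 0 := h
        rw [hDx] at h4
        apply Subtype.ext
        exact h4
    exact ekc_eq h3
  have hswap : Nat.card (F.addSubgroupOf M0) = Nat.card (M0.addSubgroupOf F) := by
    apply Nat.card_congr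
    refine ⟨fun x => ⟨⟨x.1.1, x.2⟩, x.1.2⟩, fun x => ⟨⟨x.1.1, x.2⟩, x.1.2⟩, ?_, ?_⟩
    · intro x; rfl
    · intro x; rfl
  have hqF := qp_fg (A := F) (p := p) hp.pos
  have hcF : ci (mp F p) = (F.map N).relIndex F := by
    have h3 : (mp F p).range = (F.map N).addSubgroupOf F := by
      ext x
      rw [AddMonoidHom.mem_range, AddSubgroup.mem_addSubgroupOf, AddSubgroup.mem_map]
      constructor
      · rintro ⟨y, rfl⟩
        refine ⟨y.1, y.2, ?_⟩
        exact hNfix y.1 y.2
      · rintro ⟨y, hy, hyx⟩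
        refine ⟨⟨y, hy⟩, ?_⟩
        apply Subtype.ext
        rw [← hyx]
        exact (hNfix y hy).symm
    unfold ci
    rw [h3]
    rfl
  have hkF : kc (mp F p) = Nat.card (M0.addSubgroupOf F) := by
    have h3 : (mp F p).ker = M0.addSubgroupOf F := by
      ext x
      rw [AddMonoidHom.mem_ker, AddSubgroup.mem_addSubgroupOf, hM0]
      constructor
      · intro h
        have h4 := congrArg Subtype.val h
        show N x.1 = 0
        rw [hNfix x.1 x.2]
        exact h4
      · intro h
        have h4 : N x.1 = 0 := h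
        rw [hNfix x.1 x.2] at h4
        apply Subtype.ext
        exact h4
    unfold kc
    rw [h3]
  set t : ℕ := (M0 ⊔ F).index with ht
  set k : ℕ := Nat.card (M0.addSubgroupOf F) with hk
  have e1 : (M0.map D).relIndex M0 =
      t * (AddMonoidHom.range D).relIndex M0 := by
    rw [← AddSubgroup.relIndex_mul_relIndex (M0.map D) (AddMonoidHom.range D) M0
      (AddSubgroup.map_le_range D M0) hrD]
    rw [ht]
    congr 1
    exact relIndex_range D M0
  have e2 : (F.map N).relIndex F =
      t * (AddMonoidHom.range N).relIndex F := by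
    rw [← AddSubgroup.relIndex_mul_relIndex (F.map N) (AddMonoidHom.range N) F
      (AddSubgroup.map_le_range N F) hrN]
    rw [ht, sup_comm]
    congr 1
    exact relIndex_range N F
  rw [hc1, hk1, hswap, e1] at hc0
  have hk0' : k ≠ 0 := by rwa [hk1, hswap] at hk0
  have e3 := hqF.2
  rw [hcF, hkF, e2] at e3
  have hpa : p ^ Module.finrank ℤ F ≤ p ^ r := Nat.pow_le_pow_right hp.pos h2
  have e4 : t * (AddMonoidHom.range N).relIndex F ≠ 0 := by
    rw [e3]
    exact mul_ne_zero (pow_ne_zero _ hp.ne_zero) hk0'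
  have e5 : t * (AddMonoidHom.range D).relIndex M0 ≠ 0 := by
    have : 0 < p ^ (r + 1) * k := Nat.mul_pos (pow_pos hp.pos _) (Nat.pos_of_ne_zero hk0')
    omega
  refine ⟨(mul_ne_zero_iff.1 e4).2, (mul_ne_zero_iff.1 e5).2, ?_⟩
  have ht0 : 0 < t := Nat.pos_of_ne_zero (mul_ne_zero_iff.1 e4).1
  apply Nat.le_of_mul_le_mul_left _ ht0
  calc t * (p * (AddMonoidHom.range N).relIndex F)
      = p * (p ^ Module.finrank ℤ F * k) := by rw [← e3]; ring
    _ ≤ p * (p ^ r * k) := by gcongr
    _ = p ^ (r + 1) * k := by rw [pow_succ]; ring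
    _ ≤ t * (AddMonoidHom.range D).relIndex M0 := hc0

end final

end Pool.Agent.Work.MP_a4986b_nt.Herb
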