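import Pool.Agent.Work.MP_a4986b_nt.Defs

set_option autoImplicit false
set_option maxHeartbeats 400000

/-! # T3: Hilbert 90 for integers (helper70) -/

namespace Pool.Agent.Work.Mu22

open NumberField Module
open scoped Pointwise nonZeroDivisors ENNReal Real

attribute [local instance] Units.mulDistribMulActionRight

section

variable {K L : Type*} [Field K] [NumberField K] [Field L] [NumberField L] [Algebra K L]
  [IsGalois K L] {p : ℕ}

theorem pow_eq_one_of_gen (hd : finrank K L = p) (σ : Gal(L/K)) : σ ^ p = 1 := by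
  have h1 : Nat.card Gal(L/K) = p := by rw [IsGalois.card_aut_eq_finrank, hd]
  rw [← h1]
  exact pow_card_eq_one'

theorem orderOf_of_gen (hd : finrank K L = p) (σ : Gal(L/K))
    (hσ : ∀ x, x ∈ Subgroup.zpowers σ) : orderOf σ = p := by
  have h1 : Nat.card Gal(L/K) = p := by rw [IsGalois.card_aut_eq_finrank, hd]
  rw [← h1]
  exact orderOf_eq_card_of_forall_mem_zpowers hσ

/-- an element of `L` is a quotient of integers -/
theorem exists_int_mul (z : L) : ∃ (m : 𝓞 L) (a : 𝓞 L), m ≠ 0 ∧ (m : L) * z = a := by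
  obtain ⟨⟨a, m⟩, h⟩ := IsLocalization.surj (nonZeroDivisors (𝓞 L)) z
  refine ⟨m, a, nonZeroDivisors.ne_zero m.2, ?_⟩
  rw [mul_comm]
  exact h

/-- T3: Hilbert 90 -/
theorem hilbert90 (hd : finrank K L = p) (σ : Gal(L/K)) (hσ : ∀ x, x ∈ Subgroup.zpowers σ)
    (x y : 𝓞 L) (hx : x ≠ 0) (hy : y ≠ 0)
    (h : ∏ i ∈ Finset.range p, (σ ^ i • x) = ∏ i ∈ Finset.range p, (σ ^ i • y)) :
    ∃ b : 𝓞 L, b ≠ 0 ∧ x * b = y * (σ • b) := by
  have hp1 : σ ^ p = 1 := pow_eq_one_of_gen hd σ
  have hord := orderOf_of_gen hd σ hσ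
  have hp0 : 0 < p := by
    rw [← hd]; exact finrank_pos
  set A : ℕ → 𝓞 L := fun i => (∏ j ∈ Finset.range i, (σ ^ j • y)) *
    ∏ j ∈ Finset.Ico i p, (σ ^ j • x) with hA
  have hA0 : A 0 = ∏ j ∈ Finset.range p, (σ ^ j • x) := by
    simp [hA]
  have hAp : A p = ∏ j ∈ Finset.range p, (σ ^ j • y) := by
    simp [hA]
  have hstep : ∀ i, i < p → y * (σ • A i) = x * A (i + 1) := by
    intro i hi
    have h1 : ∏ j ∈ Finset.range (i + 1), (σ ^ j • y) =
        (σ • ∏ j ∈ Finset.range i, (σ ^ j • y)) * y := by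
      rw [Finset.prod_range_succ', pow_zero, one_smul, Finset.smul_prod']
      congr 1
      refine Finset.prod_congr rfl fun j _ => ?_
      rw [smul_smul, ← pow_succ']
    have h2 : (σ • ∏ j ∈ Finset.Ico i p, (σ ^ j • x)) =
        (∏ j ∈ Finset.Ico (i + 1) p, (σ ^ j • x)) * x := by
      have h3 : (σ • ∏ j ∈ Finset.Ico i p, (σ ^ j • x)) =
          ∏ j ∈ Finset.Ico (i + 1) (p + 1), (σ ^ j • x) := by
        rw [Finset.smul_prod', ← Finset.prod_Ico_add' (fun j => σ ^ j • x) i p 1]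
        refine Finset.prod_congr rfl fun j _ => ?_
        rw [smul_smul, ← pow_succ']
      rw [h3, Finset.prod_Ico_succ_top (by omega), hp1, one_smul]
    simp only [hA]
    rw [smul_mul', h1, h2]
    ring
  set b : 𝓞 L → 𝓞 L := fun z => ∑ i ∈ Finset.range p, A i * (σ ^ i • z) with hb
  have hbz : ∀ z, x * b z = y * (σ • b z) := by
    intro z
    have h1 : y * (σ • b z) = x * ∑ i ∈ Finset.range p, A (i + 1) * (σ ^ (i + 1) • z) := by
      simp only [hb]
      rw [Finset.smul_sum, Finset.mul_sum, Finset.mul_sum]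
      refine Finset.sum_congr rfl fun i hi => ?_
      rw [smul_mul', smul_smul, ← pow_succ', ← mul_assoc, hstep i (Finset.mem_range.1 hi),
        mul_assoc]
    have h2 := Finset.sum_range_succ (fun i => A i * (σ ^ i • z)) p
    rw [Finset.sum_range_succ'] at h2
    have h3 : A 0 * (σ ^ 0 • z) = A p * (σ ^ p • z) := by
      rw [pow_zero, hp1, hA0, hAp, h]
    rw [h1]
    congr 1
    have h4 : ∑ i ∈ Finset.range p, A (i + 1) * (σ ^ (i + 1) • z) =
        ∑ i ∈ Finset.range p, A i * (σ ^ i • z) := by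
      rw [h3] at h2
      exact add_right_cancel h2
    rw [h4]
  by_contra hcon
  push Not at hcon
  have hb0 : ∀ z, b z = 0 := fun z => by
    by_contra hz
    exact hcon (b z) hz (hbz z)
  -- independence of characters
  let f : Fin p → (𝓞 L →* L) := fun i =>
    ((algebraMap (𝓞 L) L).toMonoidHom.comp (MulSemiringAction.toRingHom Gal(L/K) (𝓞 L)
      (σ ^ (i : ℕ))).toMonoidHom)
  have hfz : ∀ (i : Fin p) (z : 𝓞 L), f i z = ((σ ^ (i : ℕ) • z : 𝓞 L) : L) := fun i z => rfl
  have hinj : Function.Injective f := by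
    intro i j hij
    have h1 : σ ^ (i : ℕ) = σ ^ (j : ℕ) := by
      ext z
      obtain ⟨m, a, hm, hma⟩ := exists_int_mul z
      have hm0 : (m : L) ≠ 0 := by exact_mod_cast hm
      have h2 : ∀ w : 𝓞 L, (σ ^ (i : ℕ)) (w : L) = (σ ^ (j : ℕ)) (w : L) := fun w =>
        DFunLike.congr_fun hij w
      have h3 : (σ ^ (i : ℕ)) ((m : L) * z) = (σ ^ (j : ℕ)) ((m : L) * z) := by
        rw [hma]; exact h2 a
      rw [map_mul, map_mul, h2 m] at h3
      refine mul_left_cancel₀ ?_ h3
      intro h0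
      exact hm0 ((map_eq_zero (σ ^ (j : ℕ))).1 h0)
    have hi : (i : ℕ) ∈ Set.Iio (orderOf σ) := by rw [hord]; exact i.2
    have hj : (j : ℕ) ∈ Set.Iio (orderOf σ) := by rw [hord]; exact j.2
    exact Fin.ext (pow_injOn_Iio_orderOf hi hj h1)
  have hli : LinearIndependent L (fun i : Fin p => (f i : 𝓞 L → L)) :=
    (linearIndependent_monoidHom (𝓞 L) L).comp f hinj
  rw [Fintype.linearIndependent_iff] at hli
  have h1 := hli (fun i => (A i : L)) ?_ ⟨0, hp0⟩
  · have h2 : A 0 = 0 := by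
      have h3 : ((A 0 : 𝓞 L) : L) = 0 := h1
      exact_mod_cast h3
    rw [hA0, Finset.prod_eq_zero_iff] at h2
    obtain ⟨j, -, hj⟩ := h2
    exact hx ((smul_eq_zero_iff_eq (σ ^ j)).1 hj)
  · funext z
    have h2 := congrArg (algebraMap (𝓞 L) L) (hb0 z)
    simp only [hb] at h2
    rw [map_sum, map_zero, ← Fin.sum_univ_eq_sum_range
      (fun i => algebraMap (𝓞 L) L (A i * (σ ^ i • z)))] at h2
    rw [Finset.sum_apply, Pi.zero_apply, ← h2]
    refine Finset.sum_congr rfl fun i _ => ?_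
    rw [map_mul]
    rfl

end

end Pool.Agent.Work.Mu22
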