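import Pool.Agent.Work.MP_a4986b_nt.IDefs

set_option autoImplicit false
set_option maxHeartbeats 400000

/-! # G0: the ambiguous class inequality, abstract form -/

namespace Pool.Agent.Work.MuI

open scoped Pointwise

section Amb

variable {Λ : Type*} [CommGroup Λ]

/-- `y ↦ s y / y` -/
def ambDelta (s : Λ ≃* Λ) : Λ →* Λ where
  toFun y := s y / y
  map_one' := by simp
  map_mul' a b := by rw [map_mul, mul_div_mul_comm]

/-- `y ↦ ∏ s ^ i y` -/
def ambNu (s : Λ ≃* Λ) (p : ℕ) : Λ →* Λ where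
  toFun y := ∏ i ∈ Finset.range p, (s ^ i) y
  map_one' := by simp
  map_mul' a b := by simp [Finset.prod_mul_distrib]

theorem ambDelta_apply (s : Λ ≃* Λ) (y : Λ) : ambDelta s y = s y / y := rfl

theorem ambNu_apply (s : Λ ≃* Λ) (p : ℕ) (y : Λ) :
    ambNu s p y = ∏ i ∈ Finset.range p, (s ^ i) y := rfl

theorem ambNu_s (s : Λ ≃* Λ) (p : ℕ) (hs : s ^ p = 1) (y : Λ) :
    ambNu s p (s y) = ambNu s p y := by
  have h1 : ∀ n : ℕ, (∏ i ∈ Finset.range n, (s ^ i) (s y)) * y =
      (∏ i ∈ Finset.range n, (s ^ i) y) * (s ^ n) y := by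
    intro n
    induction n with
    | zero => simp
    | succ n ih =>
      have h2 : (s ^ n) (s y) = (s ^ (n + 1)) y := by rw [pow_succ]; rfl
      rw [Finset.prod_range_succ, Finset.prod_range_succ, mul_right_comm, ih, h2]
  have h3 := h1 p
  rw [hs] at h3
  exact mul_right_cancel h3

theorem s_ambNu (s : Λ ≃* Λ) (p : ℕ) (hs : s ^ p = 1) (y : Λ) :
    s (ambNu s p y) = ambNu s p y := by
  conv_rhs => rw [← ambNu_s s p hs y]
  rw [ambNu_apply, ambNu_apply, map_prod]
  refine Finset.prod_congr rfl fun i _ => ?_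
  have h1 : s ((s ^ i) y) = (s ^ (i + 1)) y := by rw [pow_succ']; rfl
  have h2 : (s ^ i) (s y) = (s ^ (i + 1)) y := by rw [pow_succ]; rfl
  rw [h1, h2]

theorem ambNu_delta (s : Λ ≃* Λ) (p : ℕ) (hs : s ^ p = 1) (y : Λ) :
    ambNu s p (ambDelta s y) = 1 := by
  rw [ambDelta_apply, map_div, ambNu_s s p hs, div_self']

theorem relIndex_eq_pow {G : Type*} [CommGroup G] {p : ℕ} (hp : p.Prime) (H K : Subgroup G)
    (h0 : H.relIndex K ≠ 0) (h : ∀ x ∈ K, x ^ p ∈ H) : ∃ n, H.relIndex K = p ^ n := by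
  have := Fact.mk hp
  have hfin : Finite (K ⧸ H.subgroupOf K) := Nat.finite_of_card_ne_zero h0
  have hP : IsPGroup p (K ⧸ H.subgroupOf K) := by
    intro g
    obtain ⟨x, rfl⟩ := QuotientGroup.mk_surjective g
    refine ⟨1, ?_⟩
    rw [pow_one, ← QuotientGroup.mk_pow, QuotientGroup.eq_one_iff]
    exact h x x.2
  exact (IsPGroup.iff_card.1 hP)

end Amb

/-- G0: the ambiguous class inequality, abstract form: `Λ = M^*`, `𝓓` = fractional ideals,
`π` = principal ideals -/
theorem amb_abstract {p : ℕ} {Λ D : Type*} [CommGroup Λ] [CommGroup D] (hp : p.Prime) (π : Λ →* D)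
    (s : Λ ≃* Λ) (φ : D ≃* D) (hπ : ∀ x, π (s x) = φ (π x)) (hs : s ^ p = 1) (hφ : φ ^ p = 1)
    (h90 : ∀ x : Λ, ∏ i ∈ Finset.range p, (s ^ i) x = 1 → ∃ y, x = s y / y)
    (Dinv : Subgroup D) (hDinv : ∀ x, x ∈ Dinv ↔ φ x = x)
    (P0 : Subgroup D) (hP0 : ∀ x, x ∈ P0 ↔ ∃ y : Λ, s y = y ∧ π y = x)
    (EN EsE ENorm Efix : Subgroup Λ)
    (hEN : ∀ x, x ∈ EN ↔ π x = 1 ∧ ∏ i ∈ Finset.range p, (s ^ i) x = 1)
    (hEsE : ∀ x, x ∈ EsE ↔ ∃ y, π y = 1 ∧ x = s y / y)
    (hENorm : ∀ x, x ∈ ENorm ↔ ∃ y, π y = 1 ∧ x = ∏ i ∈ Finset.range p, (s ^ i) y)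
    (hEfix : ∀ x, x ∈ Efix ↔ π x = 1 ∧ s x = x)
    (h1 : ENorm.relIndex Efix ≠ 0) (h2 : EsE.relIndex EN ≠ 0)
    (h3 : p * ENorm.relIndex Efix ≤ EsE.relIndex EN)
    (h4 : P0.relIndex Dinv ≠ 0)
    (X : Type*) [CommGroup X] [Finite X] (q : D →* X) (hq : Function.Surjective q)
    (hqk : q.ker = π.range) (a : X ≃* X) (ha : ∀ x, q (φ x) = a (q x)) :
    padicValNat p (Nat.card {x : X // a x = x}) + 1 ≤ padicValNat p (P0.relIndex Dinv) := by
  have hFact := Fact.mk hp
  -- the principal invariant ideals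
  set U : Subgroup Λ := Dinv.comap π with hU
  have hUmem : ∀ y, y ∈ U ↔ π (ambDelta s y) = 1 := by
    intro y
    rw [hU, Subgroup.mem_comap, hDinv, ambDelta_apply, map_div, hπ, div_eq_one]
  have hcomap : P0.comap π = EsE.comap (ambDelta s) := by
    ext y
    rw [Subgroup.mem_comap, Subgroup.mem_comap, hP0, hEsE]
    constructor
    · rintro ⟨z, hz, hzy⟩
      refine ⟨y / z, by rw [map_div, hzy, div_self'], ?_⟩
      rw [ambDelta_apply, map_div, hz]
      rw [div_div_div_cancel_right]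
    · rintro ⟨e, he, hye⟩
      refine ⟨y / e, ?_, by rw [map_div, he, div_one]⟩
      rw [ambDelta_apply] at hye
      rw [map_div, div_eq_div_iff_mul_eq_mul]
      rw [div_eq_div_iff_mul_eq_mul] at hye
      rw [hye, mul_comm]
  have hmapU : U.map (ambDelta s) = EN := by
    ext x
    rw [Subgroup.mem_map, hEN]
    constructor
    · rintro ⟨y, hy, rfl⟩
      exact ⟨(hUmem y).1 hy, ambNu_delta s p hs y⟩
    · rintro ⟨hx1, hx2⟩
      obtain ⟨y, rfl⟩ := h90 x hx2
      exact ⟨y, (hUmem y).2 hx1, rfl⟩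
  have hPG : P0.relIndex (U.map π) = EsE.relIndex EN := by
    rw [← Subgroup.relIndex_comap, hcomap, Subgroup.relIndex_comap, hmapU]
  have hmapπ : U.map π = π.range ⊓ Dinv := by
    ext x
    rw [Subgroup.mem_map, Subgroup.mem_inf]
    constructor
    · rintro ⟨y, hy, rfl⟩
      exact ⟨⟨y, rfl⟩, hy⟩
    · rintro ⟨⟨y, rfl⟩, hy⟩
      exact ⟨y, hy, rfl⟩
  have hP0le : P0 ≤ U.map π := by
    intro x hx
    obtain ⟨y, hy, rfl⟩ := (hP0 x).1 hx
    refine ⟨y, ?_, rfl⟩
    exact (hUmem y).2 (by rw [ambDelta_apply, hy, div_self', map_one])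
  have hle2 : U.map π ≤ Dinv := by rw [hmapπ]; exact inf_le_right
  have hS : (U.map π).relIndex Dinv = Nat.card (Dinv.map q) := by
    rw [hmapπ, Subgroup.inf_relIndex_right, ← hqk, Subgroup.relIndex_ker]
  have hprod : P0.relIndex Dinv = EsE.relIndex EN * Nat.card (Dinv.map q) := by
    rw [← Subgroup.relIndex_mul_relIndex _ _ _ hP0le hle2, hPG, hS]
  -- the fixed classes
  let Fs : Subgroup X :=
    { carrier := {x | a x = x}
      mul_mem' := by
        intro x y hx hy
        change a (x * y) = x * y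
        rw [map_mul, show a x = x from hx, show a y = y from hy]
      one_mem' := map_one a
      inv_mem' := by
        intro x hx
        change a x⁻¹ = x⁻¹
        rw [map_inv, show a x = x from hx] }
  have hFs : ∀ x, x ∈ Fs ↔ a x = x := fun x => Iff.rfl
  have hSle : Dinv.map q ≤ Fs := by
    rintro _ ⟨d, hd, rfl⟩
    rw [hFs, ← ha, (hDinv d).1 hd]
  -- pairs
  let W : Subgroup (D × Λ) :=
    { carrier := {w | φ w.1 = w.1 * π w.2}
      mul_mem' := by
        intro x y hx hy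
        change φ (x.1 * y.1) = x.1 * y.1 * π (x.2 * y.2)
        rw [map_mul, map_mul, show φ x.1 = x.1 * π x.2 from hx,
          show φ y.1 = y.1 * π y.2 from hy]
        exact mul_mul_mul_comm _ _ _ _
      one_mem' := by
        change φ (1 : D) = 1 * π (1 : Λ)
        simp
      inv_mem' := by
        intro x hx
        change φ x.1⁻¹ = x.1⁻¹ * π x.2⁻¹
        rw [map_inv, map_inv, show φ x.1 = x.1 * π x.2 from hx, mul_inv] }
  have hWmem : ∀ d y, (d, y) ∈ W ↔ φ d = d * π y := fun d y => Iff.rfl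
  let f : D × Λ →* X := q.comp (MonoidHom.fst D Λ)
  let g : D × Λ →* Λ := (ambNu s p).comp (MonoidHom.snd D Λ)
  have hWf : W.map f = Fs := by
    ext x
    rw [Subgroup.mem_map, hFs]
    constructor
    · rintro ⟨⟨d, y⟩, hw, rfl⟩
      change a (q d) = q d
      rw [← ha, (hWmem d y).1 hw, map_mul]
      have : π y ∈ q.ker := by rw [hqk]; exact ⟨y, rfl⟩
      rw [MonoidHom.mem_ker.1 this, mul_one]
    · intro hx
      obtain ⟨d, rfl⟩ := hq x
      have h5 : φ d / d ∈ q.ker := by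
        rw [MonoidHom.mem_ker, map_div, ha, hx, div_self']
      rw [hqk] at h5
      obtain ⟨y, hy⟩ := h5
      exact ⟨(d, y), by rw [hWmem, hy, mul_div_cancel], rfl⟩
  have hWg : W.map g ≤ Efix := by
    rintro _ ⟨⟨d, y⟩, hw, rfl⟩
    change ambNu s p y ∈ Efix
    rw [hEfix]
    refine ⟨?_, s_ambNu s p hs y⟩
    have h5 : ∀ z : Λ, π (ambNu s p z) = ambNu φ p (π z) := by
      intro z
      rw [ambNu_apply, ambNu_apply, map_prod]
      have h6 : ∀ i : ℕ, π ((s ^ i) z) = (φ ^ i) (π z) := by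
        intro i
        induction i with
        | zero => rfl
        | succ i ih =>
          rw [pow_succ', pow_succ']
          change π (s ((s ^ i) z)) = φ ((φ ^ i) (π z))
          rw [hπ, ih]
      exact Finset.prod_congr rfl fun i _ => h6 i
    have h6 : π y = ambDelta φ d := by
      rw [ambDelta_apply, (hWmem d y).1 hw, mul_div_cancel_left]
    rw [h5, h6, ambNu_delta φ p hφ]
  have hker : ENorm.comap g ⊓ W ≤ (Dinv.map q).comap f ⊓ W := by
    rintro ⟨d, y⟩ ⟨hw1, hw2⟩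
    refine ⟨?_, hw2⟩
    change q d ∈ Dinv.map q
    have hw1' : ambNu s p y ∈ ENorm := hw1
    obtain ⟨e, he, hye⟩ := (hENorm _).1 hw1'
    rw [← ambNu_apply] at hye
    have h5 : ambNu s p (y / e) = 1 := by rw [map_div, hye, div_self']
    obtain ⟨z, hz⟩ := h90 (y / e) h5
    refine ⟨d / π z, ?_, ?_⟩
    · change d / π z ∈ Dinv
      rw [hDinv, map_div, ← hπ, (hWmem d y).1 hw2]
      have h6 : π y = π (s z) / π z := by
        rw [← map_div, ← hz, map_div, he, div_one]
      rw [h6]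
      rw [← mul_div_assoc, div_div, mul_comm (π z), ← div_div, mul_div_cancel_right]
    · rw [map_div]
      have : π z ∈ q.ker := by rw [hqk]; exact ⟨z, rfl⟩
      rw [MonoidHom.mem_ker.1 this, div_one]
  have hdvd : (Dinv.map q).relIndex Fs ∣ ENorm.relIndex Efix := by
    rw [← hWf, ← Subgroup.relIndex_comap, ← Subgroup.inf_relIndex_right]
    refine (Subgroup.relIndex_dvd_of_le_left W hker).trans ?_
    rw [Subgroup.inf_relIndex_right, Subgroup.relIndex_comap,
      ← Subgroup.relIndex_sup_right (W.map g) ENorm]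
    have h5 : W.map g ⊔ ENorm ≤ Efix := by
      refine sup_le hWg ?_
      intro x hx
      obtain ⟨y, hy, rfl⟩ := (hENorm x).1 hx
      rw [hEfix, ← ambNu_apply]
      refine ⟨?_, s_ambNu s p hs y⟩
      rw [ambNu_apply, map_prod]
      refine Finset.prod_eq_one fun i _ => ?_
      have h6 : ∀ i : ℕ, π ((s ^ i) y) = 1 := by
        intro i
        induction i with
        | zero => exact hy
        | succ i ih =>
          rw [pow_succ']
          change π (s ((s ^ i) y)) = 1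
          rw [hπ, ih, map_one]
      exact h6 i
    exact ⟨_, (Subgroup.relIndex_mul_relIndex _ _ _ le_sup_right h5).symm⟩
  -- powers of `p`
  obtain ⟨n1, hn1⟩ := relIndex_eq_pow hp ENorm Efix h1 (by
    intro x hx
    rw [hEfix] at hx
    rw [hENorm]
    refine ⟨x, hx.1, ?_⟩
    have h5 : ∀ i : ℕ, (s ^ i) x = x := by
      intro i
      induction i with
      | zero => rfl
      | succ i ih =>
        rw [pow_succ']
        change s ((s ^ i) x) = x
        rw [ih, hx.2]
    simp only [h5]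
    rw [Finset.prod_const, Finset.card_range])
  obtain ⟨n2, hn2⟩ := relIndex_eq_pow hp EsE EN h2 (by
    intro x hx
    rw [hEN] at hx
    have h5 : x ^ p = ∏ i ∈ Finset.range p, (x / (s ^ i) x) := by
      rw [Finset.prod_div_distrib, hx.2, div_one, Finset.prod_const, Finset.card_range]
    rw [h5]
    refine Subgroup.prod_mem _ fun i _ => ?_
    have h6 : ∀ i : ℕ, π ((s ^ i) x) = 1 ∧ x / (s ^ i) x ∈ EsE := by
      intro i
      induction i with
      | zero => exact ⟨hx.1, by rw [pow_zero]; change x / x ∈ EsE; rw [div_self']; exact one_mem _⟩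
      | succ i ih =>
        have e1 : (s ^ (i + 1)) x = s ((s ^ i) x) := by rw [pow_succ']; rfl
        refine ⟨by rw [e1, hπ, ih.1, map_one], ?_⟩
        have e2 : x / (s ^ (i + 1)) x = (x / (s ^ i) x) * (s ((s ^ i) x) / (s ^ i) x)⁻¹ := by
          rw [e1, inv_div, div_mul_div_cancel]
        rw [e2]
        refine mul_mem ih.2 (inv_mem ((hEsE _).2 ⟨_, ih.1, rfl⟩))
    exact (h6 i).2)
  have hn12 : n1 + 1 ≤ n2 := by
    rw [hn1, hn2, ← pow_succ'] at h3
    exact (Nat.pow_le_pow_iff_right hp.one_lt).1 h3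
  have hcF : Nat.card {x : X // a x = x} = Nat.card (Dinv.map q) * (Dinv.map q).relIndex Fs := by
    have h5 : Nat.card {x : X // a x = x} = Nat.card Fs := rfl
    rw [h5, ← Subgroup.relIndex_bot_left (Dinv.map q), ← Subgroup.relIndex_bot_left Fs,
      Subgroup.relIndex_mul_relIndex _ _ _ bot_le hSle]
  rw [hn1] at hdvd
  obtain ⟨n3, hn3, hn3'⟩ := (Nat.dvd_prime_pow hp).1 hdvd
  have hc0 : Nat.card (Dinv.map q) ≠ 0 := Nat.card_pos.ne'
  rw [hprod, hcF, hn3', hn2, padicValNat.mul hc0 (pow_ne_zero _ hp.ne_zero),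
    padicValNat.mul (pow_ne_zero _ hp.ne_zero) hc0, padicValNat.prime_pow, padicValNat.prime_pow]
  omega

end Pool.Agent.Work.MuI
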