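import Mathlib

set_option autoImplicit false

/-! # C1: number of primes above `l` in fields with many roots of unity (MP_a4986b_nt) -/

namespace Pool.Agent.Work.MuI

open NumberField Module Ideal

/-- lifting the exponent: `p ^ k ∣ l ^ f - 1` forces `p ^ k ≤ p ^ a * f` -/
theorem exists_lte {p l : ℕ} (hp : p.Prime) (hl : l.Prime) (hne : l ≠ p) :
    ∃ a : ℕ, ∀ k f : ℕ, f ≠ 0 → p ^ k ∣ l ^ f - 1 → p ^ k ≤ p ^ a * f := by
  have : Fact p.Prime := ⟨hp⟩
  have hl2 : 2 ≤ l := hl.two_le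
  have hpl : ¬ p ∣ l := fun h => hne ((Nat.prime_dvd_prime_iff_eq hp hl).mp h).symm
  have key : ∀ (a k f : ℕ), f ≠ 0 → k ≤ a + padicValNat p f → p ^ k ≤ p ^ a * f := by
    intro a k f hf h
    calc p ^ k ≤ p ^ (a + padicValNat p f) := Nat.pow_le_pow_right hp.pos h
      _ = p ^ a * p ^ padicValNat p f := pow_add _ _ _
      _ ≤ p ^ a * f := Nat.mul_le_mul_left _ (Nat.le_of_dvd (Nat.pos_of_ne_zero hf)
          pow_padicValNat_dvd)
  have hval : ∀ (f g : ℕ), f ≠ 0 → g ≠ 0 → ∀ k, p ^ k ∣ l ^ f - 1 →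
      k ≤ padicValNat p (l ^ (g * f) - 1) := by
    intro f g hf hg k hk
    have h1 : l ^ f - 1 ∣ l ^ (g * f) - 1 := by
      rw [mul_comm, pow_mul]
      simpa using Nat.sub_dvd_pow_sub_pow (l ^ f) 1 g
    have h2 : l ^ (g * f) - 1 ≠ 0 := by
      have : 1 < l ^ (g * f) := Nat.one_lt_pow (Nat.mul_ne_zero hg hf) hl2
      omega
    exact (padicValNat_dvd_iff_le h2).mp (hk.trans h1)
  rcases hp.eq_two_or_odd' with rfl | hodd
  · refine ⟨padicValNat 2 (l + 1) + padicValNat 2 (l - 1), fun k f hf hk => ?_⟩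
    apply key _ _ _ hf
    have h1 := hval f 2 hf two_ne_zero k hk
    have h2 := padicValNat.pow_two_sub_one (x := l) (n := 2 * f) hl2 hpl (by positivity)
      (even_two_mul f)
    have h3 : padicValNat 2 (2 * f) = 1 + padicValNat 2 f := by
      rw [padicValNat.mul two_ne_zero hf, padicValNat.self (by norm_num)]
    omega
  · refine ⟨padicValNat p (l ^ (p - 1) - 1), fun k f hf hk => ?_⟩
    apply key _ _ _ hf
    have hp1 : p - 1 ≠ 0 := by have := hp.two_le; omega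
    have h1 := hval f (p - 1) hf hp1 k hk
    have h3 : 1 < l ^ (p - 1) := Nat.one_lt_pow hp1 hl2
    have h4 : p ∣ l ^ (p - 1) - 1 := by
      have h5 := Nat.ModEq.pow_totient ((Nat.coprime_primes hl hp).mpr hne)
      rw [Nat.totient_prime hp] at h5
      exact (Nat.modEq_iff_dvd' h3.le).mp h5.symm
    have h2 := padicValNat.pow_sub_pow (x := l ^ (p - 1)) (y := 1) hodd h3 h4
      (fun h => hpl (hp.dvd_of_dvd_pow h)) hf
    rw [one_pow, ← pow_mul] at h2
    omega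

section Prod

variable {N : Type*} [Field N] [NumberField N]

/-- the basic count -/
theorem prod_norm_dvd (l : ℕ) (hl : l.Prime) (T : Finset (Ideal (𝓞 N)))
    (hT : ∀ Q ∈ T, Q.IsPrime ∧ (l : 𝓞 N) ∈ Q) (I : Ideal (𝓞 N)) (hI : ∀ Q ∈ T, I ≤ Q) :
    ∏ Q ∈ T, absNorm Q ∣ absNorm I := by
  have h1 : ∀ Q ∈ T, Prime Q := by
    intro Q hQ
    have h2 : Q ≠ ⊥ := by
      rintro rfl
      have := (hT _ hQ).2
      rw [Ideal.mem_bot] at this
      exact hl.ne_zero (by exact_mod_cast this)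
    exact Ideal.prime_of_isPrime h2 (hT Q hQ).1
  have h2 : ∏ Q ∈ T, Q ∣ I :=
    Finset.prod_primes_dvd I h1 (fun Q hQ => Ideal.dvd_iff_le.mpr (hI Q hQ))
  have h3 := map_dvd (absNorm (S := 𝓞 N)) h2
  rwa [map_prod] at h3

theorem exists_norm_eq (l : ℕ) (hl : l.Prime) (Q : Ideal (𝓞 N)) (hQ : Q.IsPrime)
    (hlQ : (l : 𝓞 N) ∈ Q) : ∃ f : ℕ, f ≠ 0 ∧ absNorm Q = l ^ f := by
  have h1 : absNorm Q ∣ l ^ finrank ℤ (𝓞 N) := by
    rw [← absNorm_span_natCast]
    exact absNorm_dvd_absNorm_of_le ((span_singleton_le_iff_mem _).mpr hlQ)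
  obtain ⟨f, _, hf⟩ := (Nat.dvd_prime_pow hl).mp h1
  refine ⟨f, ?_, hf⟩
  rintro rfl
  rw [pow_zero, absNorm_eq_one_iff] at hf
  exact hQ.ne_top hf

end Prod

/-- C1: number of primes above `ℓ` in a field containing the `p ^ k`-th roots of unity -/
theorem ncard_primes_le {p : ℕ} (hp : p.Prime) (l : ℕ) (hl : l.Prime) (D : ℕ) : ∃ c : ℕ,
    ∀ (N : Type) [Field N] [NumberField N] (k : ℕ) (z : N), 1 ≤ k → IsPrimitiveRoot z (p ^ k) →
      finrank ℚ N ≤ D * p ^ k → {Q : Ideal (𝓞 N) | Q.IsPrime ∧ (l : 𝓞 N) ∈ Q}.ncard ≤ c := by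
  have : Fact p.Prime := ⟨hp⟩
  -- it is enough to bound finite subsets
  suffices H : ∃ c : ℕ, ∀ (N : Type) [Field N] [NumberField N] (k : ℕ) (z : N), 1 ≤ k →
      IsPrimitiveRoot z (p ^ k) → finrank ℚ N ≤ D * p ^ k → ∀ T : Finset (Ideal (𝓞 N)),
      (∀ Q ∈ T, Q.IsPrime ∧ (l : 𝓞 N) ∈ Q) → T.card ≤ c by
    obtain ⟨c, hc⟩ := H
    refine ⟨c, fun N _ _ k z hk hz hN => ?_⟩
    by_cases hfin : {Q : Ideal (𝓞 N) | Q.IsPrime ∧ (l : 𝓞 N) ∈ Q}.Finite
    · rw [Set.ncard_eq_toFinset_card _ hfin]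
      apply hc N k z hk hz hN
      intro Q hQ
      simpa using hQ
    · rw [Set.Infinite.ncard hfin]; exact Nat.zero_le _
  by_cases hlp : l = p
  · subst hlp
    refine ⟨2 * D, fun N _ _ k z hk hz hN T hT => ?_⟩
    have hk0 : NeZero (l ^ k) := ⟨pow_ne_zero _ hp.ne_zero⟩
    set w : 𝓞 N := hz.toInteger with hw
    have hwp : IsPrimitiveRoot w (l ^ k) := hz.toInteger_isPrimitiveRoot
    have hcyc : (l : 𝓞 N) = ∏ μ ∈ primitiveRoots (l ^ k) (𝓞 N), (1 - μ) := by
      obtain ⟨k', rfl⟩ : ∃ k', k = k' + 1 := ⟨k - 1, by omega⟩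
      have h1 := Polynomial.eval_one_cyclotomic_prime_pow (R := 𝓞 N) (p := l) k'
      rw [Polynomial.cyclotomic_eq_prod_X_sub_primitiveRoots hwp, Polynomial.eval_prod] at h1
      rw [← h1]
      apply Finset.prod_congr rfl
      intro μ _
      simp
    have hdiv1 : ∀ μ ∈ primitiveRoots (l ^ k) (𝓞 N), (1 - w) ∣ (1 - μ) := by
      intro μ hμ
      rw [mem_primitiveRoots (NeZero.pos _)] at hμ
      obtain ⟨i, _, hi⟩ := hwp.eq_pow_of_pow_eq_one hμ.pow_eq_one
      rw [← hi]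
      exact one_sub_dvd_one_sub_pow w i
    have hdiv2 : ∀ μ ∈ primitiveRoots (l ^ k) (𝓞 N), (1 - μ) ∣ (1 - w) := by
      intro μ hμ
      rw [mem_primitiveRoots (NeZero.pos _)] at hμ
      obtain ⟨i, _, hi⟩ := hμ.eq_pow_of_pow_eq_one hwp.pow_eq_one
      rw [← hi]
      exact one_sub_dvd_one_sub_pow μ i
    have hmem : ∀ Q ∈ T, span {1 - w} ≤ Q := by
      intro Q hQ
      rw [span_singleton_le_iff_mem]
      obtain ⟨h1, h2⟩ := hT Q hQ
      rw [hcyc] at h2
      obtain ⟨μ, hμ, h3⟩ := (h1.prod_mem_iff).mp h2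
      exact Q.mem_of_dvd (hdiv2 μ hμ) h3
    have h1 := prod_norm_dvd l hl T hT (span {1 - w}) hmem
    have h2 : absNorm (span {1 - w}) ^ (Nat.totient (l ^ k)) ∣ l ^ finrank ℤ (𝓞 N) := by
      rw [← absNorm_span_natCast, ← map_pow, Ideal.span_singleton_pow]
      apply map_dvd
      rw [Ideal.dvd_span_singleton, Ideal.mem_span_singleton, hcyc, ← hwp.card_primitiveRoots,
        ← Finset.prod_const]
      exact Finset.prod_dvd_prod_of_dvd _ _ hdiv1
    rw [RingOfIntegers.rank] at h2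
    have h3 : l ^ (T.card * Nat.totient (l ^ k)) ≤ l ^ finrank ℚ N := by
      calc l ^ (T.card * Nat.totient (l ^ k)) = (∏ _Q ∈ T, l) ^ Nat.totient (l ^ k) := by
            rw [Finset.prod_const, pow_mul]
        _ ≤ (∏ Q ∈ T, absNorm Q) ^ Nat.totient (l ^ k) := by
            apply Nat.pow_le_pow_left
            apply Finset.prod_le_prod' 
            intro Q hQ
            obtain ⟨f, hf, hQf⟩ := exists_norm_eq l hl Q (hT Q hQ).1 (hT Q hQ).2
            rw [hQf]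
            calc l = l ^ 1 := (pow_one _).symm
              _ ≤ l ^ f := Nat.pow_le_pow_right hl.pos (Nat.one_le_iff_ne_zero.mpr hf)
        _ ≤ l ^ finrank ℚ N := Nat.le_of_dvd (pow_pos hl.pos _) ((pow_dvd_pow_of_dvd h1 _).trans h2)
    have h4 : T.card * Nat.totient (l ^ k) ≤ finrank ℚ N :=
      (Nat.pow_le_pow_iff_right hl.one_lt).mp h3
    have h5 : l ^ k ≤ 2 * Nat.totient (l ^ k) := by
      obtain ⟨k', rfl⟩ : ∃ k', k = k' + 1 := ⟨k - 1, by omega⟩
      rw [Nat.totient_prime_pow_succ hl, pow_succ]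
      have h6 : l ≤ 2 * (l - 1) := by have := hl.two_le; omega
      calc l ^ k' * l ≤ l ^ k' * (2 * (l - 1)) := Nat.mul_le_mul_left _ h6
        _ = 2 * (l ^ k' * (l - 1)) := by ring
    have h7 : T.card * Nat.totient (l ^ k) ≤ 2 * D * Nat.totient (l ^ k) := by
      calc T.card * Nat.totient (l ^ k) ≤ D * l ^ k := h4.trans hN
        _ ≤ D * (2 * Nat.totient (l ^ k)) := Nat.mul_le_mul_left _ h5
        _ = 2 * D * Nat.totient (l ^ k) := by ring
    exact Nat.le_of_mul_le_mul_right h7 (Nat.totient_pos.mpr (pow_pos hl.pos _))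
  · obtain ⟨a, ha⟩ := exists_lte hp hl hlp
    refine ⟨p ^ a * D, fun N _ _ k z hk hz hN T hT => ?_⟩
    have hk0 : NeZero (p ^ k) := ⟨pow_ne_zero _ hp.ne_zero⟩
    set w : 𝓞 N := hz.toInteger with hw
    have hwp : IsPrimitiveRoot w (p ^ k) := hz.toInteger_isPrimitiveRoot
    have h1 := prod_norm_dvd l hl T hT (span {(l : 𝓞 N)})
      (fun Q hQ => (span_singleton_le_iff_mem _).mpr (hT Q hQ).2)
    rw [absNorm_span_natCast, RingOfIntegers.rank] at h1
    have h2 : ∀ Q : Ideal (𝓞 N), ∃ f : ℕ, Q ∈ T → absNorm Q = l ^ f ∧ p ^ k ≤ p ^ a * f := by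
      intro Q
      by_cases hQ : Q ∈ T
      · obtain ⟨f, hf, hQf⟩ := exists_norm_eq l hl Q (hT Q hQ).1 (hT Q hQ).2
        refine ⟨f, fun _ => ⟨hQf, ha k f hf ?_⟩⟩
        have hne1 : absNorm Q ≠ 1 := by
          intro h
          rw [absNorm_eq_one_iff] at h
          exact (hT Q hQ).1.ne_top h
        have hcop : (absNorm Q).Coprime (p ^ k) := by
          rw [hQf]
          exact Nat.Coprime.pow _ _ ((Nat.coprime_primes hl hp).mpr hlp)
        have hprim := hwp.idealQuotient_mk hne1 hcop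
        have hQbot : Q ≠ ⊥ := by
          rintro rfl
          have := (hT _ hQ).2
          rw [Ideal.mem_bot] at this
          exact hl.ne_zero (by exact_mod_cast this)
        have hmax : Q.IsMaximal := (hT Q hQ).1.isMaximal hQbot
        classical
        let := Ideal.Quotient.field Q
        have hfin : Finite (𝓞 N ⧸ Q) := Ideal.finiteQuotientOfFreeOfNeBot Q hQbot
        let := Fintype.ofFinite (𝓞 N ⧸ Q)
        have hcard : Fintype.card (𝓞 N ⧸ Q) = l ^ f := by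
          rw [← hQf, absNorm_apply, Submodule.cardQuot_apply, Nat.card_eq_fintype_card]
        rw [← hcard, ← Fintype.card_units]
        have hu : IsUnit (Ideal.Quotient.mk Q w) := hprim.isUnit (pow_ne_zero _ hp.ne_zero)
        obtain ⟨u, hu⟩ := hu
        rw [← hu, IsPrimitiveRoot.coe_units_iff] at hprim
        rw [hprim.eq_orderOf]
        exact orderOf_dvd_card
      · exact ⟨0, fun h => absurd h hQ⟩
    choose f hf using h2
    have h3 : ∏ Q ∈ T, absNorm Q = l ^ ∑ Q ∈ T, f Q := by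
      rw [← Finset.prod_pow_eq_pow_sum]
      exact Finset.prod_congr rfl (fun Q hQ => (hf Q hQ).1)
    rw [h3] at h1
    have h4 : ∑ Q ∈ T, f Q ≤ finrank ℚ N := (Nat.pow_dvd_pow_iff_le_right hl.one_lt).mp h1
    have h5 : T.card * p ^ k ≤ p ^ a * D * p ^ k := by
      calc T.card * p ^ k = ∑ _Q ∈ T, p ^ k := by rw [Finset.sum_const, smul_eq_mul]
        _ ≤ ∑ Q ∈ T, p ^ a * f Q := Finset.sum_le_sum (fun Q hQ => (hf Q hQ).2)
        _ = p ^ a * ∑ Q ∈ T, f Q := by rw [Finset.mul_sum]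
        _ ≤ p ^ a * (D * p ^ k) := Nat.mul_le_mul_left _ (h4.trans hN)
        _ = p ^ a * D * p ^ k := by ring
    exact Nat.le_of_mul_le_mul_right h5 (pow_pos hp.pos _)

end Pool.Agent.Work.MuI
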