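import Mathlib

set_option autoImplicit false
set_option maxHeartbeats 400000

/-! # Definitions for Iwasawa's theorem on `p`-extensions (MP_a4986b_nt) -/

namespace Pool.Agent.Work.MuI

open NumberField Module
open scoped Pointwise nonZeroDivisors

/-- the `p`-rank of a finite commutative group: `|X / X^p| = p ^ rk p X` -/
noncomputable def rk (p : ℕ) (X : Type*) [CommGroup X] : ℕ :=
  padicValNat p (Nat.card (X ⧸ (powMonoidHom p : X →* X).range))

/-- the action of a Galois group on the class group -/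
noncomputable def clAct {K M : Type*} [Field K] [NumberField K] [Field M] [NumberField M]
    [Algebra K M] (g : Gal(M/K)) : ClassGroup (𝓞 M) ≃* ClassGroup (𝓞 M) :=
  ClassGroup.mulEquiv (MulSemiringAction.toRingEquiv Gal(M/K) (𝓞 M) g)

/-- the nonzero primes of `M` that are ramified over `K` -/
def RamSet (K M : Type*) [Field K] [NumberField K] [Field M] [NumberField M]
    [Algebra K M] : Set (Ideal (𝓞 M)) :=
  {Q | Q.IsPrime ∧ Q ≠ ⊥ ∧ Q.ramificationIdx (𝓞 K) ≠ 1}

/-- `E` is the degree `p ^ m` subfield of `ℚ(ζ_(p^(m+1)))` -/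
def IsLayer (p m : ℕ) (E : IntermediateField ℚ ℂ) : Prop :=
  E ≤ IntermediateField.adjoin ℚ {z : ℂ | z ^ (p ^ (m + 1)) = 1} ∧ finrank ℚ E = p ^ m

end Pool.Agent.Work.MuI
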