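import Pool.Agent.Work.MP_a4986b_nt.INorm
import Pool.Agent.Work.MP_a4986b_nt.ILayer

set_option autoImplicit false
set_option maxHeartbeats 400000

/-! # C6: descent to a subfield of index prime to `p` -/

namespace Pool.Agent.Work.MuI

open NumberField Module IntermediateField
open scoped Pointwise nonZeroDivisors

theorem de_group {X Y : Type*} [CommGroup X] [Finite X] [CommGroup Y] [Finite Y] {p : ℕ}
    (hp : p.Prime) (j : X →* Y) (N : Y →* X) (d : ℕ) (hd : ¬ p ∣ d)
    (h : ∀ x, N (j x) = x ^ d) :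
    padicValNat p (Nat.card X) ≤ padicValNat p (Nat.card Y) := by
  have := Fact.mk hp
  have hker : ¬ p ∣ Nat.card j.ker := by
    intro hdvd
    obtain ⟨x, hx⟩ := exists_prime_orderOf_dvd_card' p hdvd
    have h1 : (x : X) ^ d = 1 := by
      rw [← h]
      have : j (x : X) = 1 := x.2
      rw [this, map_one]
    have h2 : x ^ d = 1 := Subtype.ext h1
    have h3 := orderOf_dvd_of_pow_eq_one h2
    rw [hx] at h3
    exact hd h3
  have h1 : Nat.card X = Nat.card j.ker * Nat.card j.range := by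
    rw [← Subgroup.card_mul_index j.ker, Subgroup.index_ker]
  have h2 : Nat.card j.range ∣ Nat.card Y := Subgroup.card_subgroup_dvd_card _
  have hk0 : Nat.card j.ker ≠ 0 := Nat.card_pos.ne'
  have hr0 : Nat.card j.range ≠ 0 := Nat.card_pos.ne'
  rw [h1, padicValNat.mul hk0 hr0, padicValNat.eq_zero_of_not_dvd hker, zero_add]
  exact (padicValNat_dvd_iff_le Nat.card_pos.ne').1 (pow_padicValNat_dvd.trans h2)

section Fields

variable {k A : Type*} [Field k] [Field A] [Algebra k A]

/-- the degree of a compositum grows by at most `d` -/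
theorem de_deg_le (L E E' : IntermediateField k A) [FiniteDimensional k L]
    [FiniteDimensional k E] [FiniteDimensional k E'] (h : E ≤ E') (d : ℕ)
    (hd : finrank k E' = finrank k E * d) :
    finrank k ↥(L ⊔ E') ≤ finrank k ↥(L ⊔ E) * d := by
  have h1 : E ≤ L ⊔ E := le_sup_right
  have hsup : (L ⊔ E) ⊔ E' = L ⊔ E' := by rw [sup_assoc, sup_eq_right.2 h]
  have h2 := IntermediateField.finrank_sup_le (extendScalars h1) (extendScalars h)
  rw [extendScalars_sup] at h2
  have e1 := finrank_bot_mul_relfinrank h1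
  have e2 := finrank_bot_mul_relfinrank h
  have e3 := finrank_bot_mul_relfinrank (le_sup_of_le_left h1 : E ≤ (L ⊔ E) ⊔ E')
  rw [relfinrank_eq_finrank_of_le h1] at e1
  rw [relfinrank_eq_finrank_of_le h] at e2
  rw [relfinrank_eq_finrank_of_le (le_sup_of_le_left h1 : E ≤ (L ⊔ E) ⊔ E')] at e3
  have hpos : 0 < finrank k E := finrank_pos
  have e4 : finrank E (extendScalars h) = d :=
    Nat.eq_of_mul_eq_mul_left hpos (by rw [e2, hd])
  have e5 : finrank k ↥(L ⊔ E ⊔ E') = finrank k ↥(L ⊔ E') := by rw [hsup]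
  rw [← e5, ← e3, ← e1, mul_assoc]
  rw [e4] at h2
  exact Nat.mul_le_mul_left _ h2

theorem de_index {p : ℕ} (hp : p.Prime) (L' L E : IntermediateField k A) (h : L' ≤ L)
    [FiniteDimensional k L'] [FiniteDimensional k L] [FiniteDimensional k E] [IsGalois k E]
    (m : ℕ) (hE : finrank k E = p ^ m) (hcop : ¬ p ∣ relfinrank L' L) :
    finrank k ↥(L ⊔ E) = finrank k ↥(L' ⊔ E) * relfinrank L' L := by
  set c := relfinrank L' L with hc
  have hbc : finrank k L' * c = finrank k L := finrank_bot_mul_relfinrank h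
  obtain ⟨-, hdvd', hmul', hfr'⟩ := Mu22.cy_galois L' E
  obtain ⟨-, hdvd, hmul, hfr⟩ := Mu22.cy_galois L E
  rw [hE] at hdvd hdvd'
  obtain ⟨i, -, hi⟩ := (Nat.dvd_prime_pow hp).1 hdvd'
  obtain ⟨j, -, hj⟩ := (Nat.dvd_prime_pow hp).1 hdvd
  rw [hi, hfr'] at hmul'
  rw [hj, hfr] at hmul
  have hle : finrank k ↥(E ⊔ L) ≤ finrank k ↥(E ⊔ L') * c := de_deg_le E L' L h c hbc.symm
  rw [sup_comm E L, sup_comm E L'] at hle
  have hle2 : L' ⊔ E ≤ L ⊔ E := sup_le_sup_right h E
  have hd : finrank k ↥(L' ⊔ E) * relfinrank (L' ⊔ E) (L ⊔ E) = finrank k ↥(L ⊔ E) :=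
    finrank_bot_mul_relfinrank hle2
  set d := relfinrank (L' ⊔ E) (L ⊔ E) with hdd
  have hfin : FiniteDimensional k ↥(L' ⊔ E) := IntermediateField.finiteDimensional_sup L' E
  have hfin2 : FiniteDimensional k ↥(L ⊔ E) := IntermediateField.finiteDimensional_sup L E
  have hpos : 0 < finrank k ↥(L' ⊔ E) := finrank_pos
  have hposL : 0 < finrank k L' := finrank_pos
  have hdc : d ≤ c := by
    rw [← hd] at hle
    exact Nat.le_of_mul_le_mul_left hle hpos
  have heq : c * p ^ j = p ^ i * d := by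
    apply Nat.eq_of_mul_eq_mul_left hposL
    rw [← mul_assoc, hbc, hmul, ← hd, ← hmul', mul_assoc]
  have hcd : c ∣ d := by
    have h1 : c ∣ p ^ i * d := ⟨p ^ j, heq.symm⟩
    have h2 : Nat.Coprime c (p ^ i) :=
      Nat.Coprime.pow_right i ((Nat.Prime.coprime_iff_not_dvd hp).2 hcop).symm
    exact h2.dvd_of_dvd_mul_left h1
  have hdpos : 0 < d := by
    rcases Nat.eq_zero_or_pos d with h0 | h0
    · exfalso
      have h3 : 0 < finrank k ↥(L ⊔ E) := finrank_pos
      rw [← hd, h0, mul_zero] at h3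
      exact lt_irrefl 0 h3
    · exact h0
  have : d = c := le_antisymm hdc (Nat.le_of_dvd hdpos hcd)
  rw [← hd, this]

end Fields

/-- C6: descent to a subfield of index prime to `p` -/
theorem descent {p : ℕ} (hp : p.Prime) (hp2 : p ≠ 2) (L' L : IntermediateField ℚ ℂ)
    [NumberField L] (h : L' ≤ L) (hcop : ¬ p ∣ IntermediateField.relfinrank L' L) (m : ℕ)
    (E : IntermediateField ℚ ℂ) (hE : IsLayer p m E) :
    padicValNat p (Nat.card (ClassGroup (𝓞 ↥(L' ⊔ E)))) ≤
      padicValNat p (Nat.card (ClassGroup (𝓞 ↥(L ⊔ E)))) := by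
  have hLf : FiniteDimensional ℚ L := by
    have h1 : @FiniteDimensional ℚ L _ _ DivisionRing.toRatAlgebra.toModule := inferInstance
    have h2 : (DivisionRing.toRatAlgebra : Algebra ℚ L) = L.algebra' := Subsingleton.elim _ _
    rwa [h2] at h1
  have hL'f : FiniteDimensional ℚ L' :=
    FiniteDimensional.of_injective (IntermediateField.inclusion h).toLinearMap
      (IntermediateField.inclusion h).toRingHom.injective
  obtain ⟨hgE, -⟩ := layer_galois hp hp2 hE
  have hinst : (DivisionRing.toRatAlgebra : Algebra ℚ E) = E.algebra' := Subsingleton.elim _ _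
  rw [hinst] at hgE
  have hEfin : FiniteDimensional ℚ E := by
    apply FiniteDimensional.of_finrank_pos
    rw [hE.2]; exact pow_pos hp.pos _
  have key := de_index hp L' L E h m ((Mu22.cy_finrank _ _).trans hE.2) hcop
  have hNfin : FiniteDimensional ℚ ↥(L ⊔ E) := IntermediateField.finiteDimensional_sup L E
  have hMfin : FiniteDimensional ℚ ↥(L' ⊔ E) := IntermediateField.finiteDimensional_sup L' E
  have hNnf : NumberField ↥(L ⊔ E) := NumberField.of_module_finite ℚ _
  have hMnf : NumberField ↥(L' ⊔ E) := NumberField.of_module_finite ℚ _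
  have hle : L' ⊔ E ≤ L ⊔ E := sup_le_sup_right h E
  let alg : Algebra ↥(L' ⊔ E) ↥(L ⊔ E) :=
    (IntermediateField.inclusion hle).toRingHom.toAlgebra
  have hst : IsScalarTower ℚ ↥(L' ⊔ E) ↥(L ⊔ E) := IsScalarTower.of_algebraMap_eq (fun _ => rfl)
  have hdeg : finrank ↥(L' ⊔ E) ↥(L ⊔ E) = relfinrank L' L := by
    have h1 := finrank_mul_finrank ℚ ↥(L' ⊔ E) ↥(L ⊔ E)
    rw [key] at h1
    exact Nat.eq_of_mul_eq_mul_left finrank_pos h1
  obtain ⟨N, hN, -, -⟩ := exists_clNorm ↥(L' ⊔ E) ↥(L ⊔ E)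
  rw [hdeg] at hN
  exact de_group hp _ N _ hcop hN

end Pool.Agent.Work.MuI
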