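import Pool.Agent.Work.MP_a4986b_nt.IDefs

set_option autoImplicit false
set_option maxHeartbeats 400000
set_option linter.unusedSectionVars false
set_option linter.unusedVariables false

/-! # Growth of `p`-parts and unipotent actions -/

namespace Pool.Agent.Work.MuI

section Group

variable {X Y : Type*} [CommGroup X] [Finite X] [CommGroup Y] [Finite Y] {p : ℕ}

/-- G4 -/
theorem rk_eq_zero (h : ¬ p ∣ Nat.card X) : rk p X = 0 := by
  unfold rk
  apply padicValNat.eq_zero_of_not_dvd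
  intro h1
  exact h (h1.trans (Subgroup.card_quotient_dvd_card _))

/-- `v_p |X| = v_p |X^p| + rk` -/
theorem val_card_eq (hp : p.Prime) : padicValNat p (Nat.card X) =
    rk p X + padicValNat p (Nat.card (powMonoidHom p : X →* X).range) := by
  have : Fact p.Prime := ⟨hp⟩
  unfold rk
  rw [Subgroup.card_eq_card_quotient_mul_card_subgroup (powMonoidHom p : X →* X).range]
  exact padicValNat.mul Nat.card_pos.ne' Nat.card_pos.ne'

theorem aut_pow_eq (σ : X ≃* X) {x y : X} (h : σ x = x * y ^ p) (i : ℕ) :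
    (σ ^ i) x = x * (∏ j ∈ Finset.range i, (σ ^ j) y) ^ p := by
  induction i with
  | zero => simp
  | succ i ih =>
    rw [pow_succ, MulAut.mul_apply, h, map_mul, ih, map_pow, Finset.prod_range_succ, mul_pow]
    group

/-- the norm of `x` is `x ^ p` up to a `p ^ 2`-th power -/
theorem norm_eq (hp : p.Prime) (hp2 : p ≠ 2) (σ : X ≃* X)
    (htriv : ∀ x : X, ∃ y : X, σ x = x * y ^ p) (x : X) :
    ∃ w : X, ∏ i ∈ Finset.range p, (σ ^ i) x = x ^ p * (w ^ p) ^ p := by
  obtain ⟨y, hy⟩ := htriv x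
  set A := (powMonoidHom p : X →* X).range with hA
  have hmk : ∀ (j : ℕ) (z : X), (QuotientGroup.mk ((σ ^ j) z) : X ⧸ A) = QuotientGroup.mk z := by
    intro j z
    induction j with
    | zero => simp
    | succ j ih =>
      rw [pow_succ', MulAut.mul_apply]
      obtain ⟨w, hw⟩ := htriv ((σ ^ j) z)
      rw [hw, QuotientGroup.mk_mul, ih]
      have h1 : (QuotientGroup.mk (w ^ p) : X ⧸ A) = 1 :=
        (QuotientGroup.eq_one_iff _).mpr ⟨w, rfl⟩
      rw [h1, mul_one]
  have h2 : (QuotientGroup.mk (∏ i ∈ Finset.range p, ∏ j ∈ Finset.range i, (σ ^ j) y) : X ⧸ A) =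
      1 := by
    have h3 : (QuotientGroup.mk (∏ i ∈ Finset.range p, ∏ j ∈ Finset.range i, (σ ^ j) y) : X ⧸ A) =
        ∏ i ∈ Finset.range p, ∏ j ∈ Finset.range i, QuotientGroup.mk ((σ ^ j) y) := by
      have := map_prod (QuotientGroup.mk' A)
        (fun i => ∏ j ∈ Finset.range i, (σ ^ j) y) (Finset.range p)
      simp only [QuotientGroup.mk'_apply] at this
      rw [this]
      refine Finset.prod_congr rfl (fun i _ => ?_)
      have := map_prod (QuotientGroup.mk' A) (fun j => (σ ^ j) y) (Finset.range i)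
      simp only [QuotientGroup.mk'_apply] at this
      exact this
    rw [h3]
    simp only [hmk, Finset.prod_const, Finset.card_range]
    rw [Finset.prod_pow_eq_pow_sum, Finset.sum_range_id]
    obtain ⟨k, hk⟩ := hp.odd_of_ne_two hp2
    have h4 : p * (p - 1) / 2 = p * k := by
      have : p - 1 = 2 * k := by omega
      rw [this, mul_left_comm, Nat.mul_div_cancel_left _ (by norm_num)]
    rw [h4, pow_mul, ← QuotientGroup.mk_pow,
      (QuotientGroup.eq_one_iff (y ^ p)).mpr (show y ^ p ∈ A from ⟨y, rfl⟩), one_pow]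
  obtain ⟨w, hw⟩ := (QuotientGroup.eq_one_iff _).mp h2
  refine ⟨w, ?_⟩
  have hw' : w ^ p = ∏ i ∈ Finset.range p, ∏ j ∈ Finset.range i, (σ ^ j) y := hw
  rw [hw', Finset.prod_congr rfl (fun i _ => aut_pow_eq σ hy i), Finset.prod_mul_distrib,
    Finset.prod_const, Finset.card_range, Finset.prod_pow]

/-- G2: growth -/
theorem val_le_of_trivial (hp : p.Prime) (hp2 : p ≠ 2) (σ : X ≃* X) (hσ : σ ^ p = 1)
    (N : X →* Y) (j : Y →* X) (hjN : ∀ x, j (N x) = ∏ i ∈ Finset.range p, (σ ^ i) x)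
    (htriv : ∀ x : X, ∃ y : X, σ x = x * y ^ p) :
    padicValNat p (Nat.card X) ≤ padicValNat p (Nat.card Y) + rk p X := by
  have : Fact p.Prime := ⟨hp⟩
  set R := (j.comp N).range with hR
  have hR' : ∀ x, (∏ i ∈ Finset.range p, (σ ^ i) x) ∈ R := fun x => ⟨x, hjN x⟩
  let pw : ℕ → Subgroup X := fun n => (powMonoidHom (p ^ n) : X →* X).range
  have hpw : ∀ n z, z ^ p ^ n ∈ pw n := fun n z => ⟨z, rfl⟩
  have h1 : pw 1 ≤ R ⊔ pw 2 := by
    rintro _ ⟨x, rfl⟩
    obtain ⟨w, hw⟩ := norm_eq hp hp2 σ htriv x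
    have h2 : (powMonoidHom (p ^ 1)) x = (∏ i ∈ Finset.range p, (σ ^ i) x) *
        (w⁻¹ ^ p ^ 2) := by
      rw [hw, powMonoidHom_apply, pow_one, pow_two p, inv_pow, pow_mul]
      group
    rw [h2]
    exact Subgroup.mul_mem_sup (hR' x) (hpw 2 _)
  have h2 : ∀ n, pw (n + 1) ≤ R ⊔ pw (n + 2) := by
    intro n
    rintro _ ⟨x, rfl⟩
    have h3 : x ^ p ^ 1 ∈ R ⊔ pw 2 := h1 (hpw 1 x)
    obtain ⟨r, hr, s, ⟨w, hw⟩, hrs⟩ := Subgroup.mem_sup.mp h3
    have hw' : w ^ p ^ 2 = s := hw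
    have h4 : (powMonoidHom (p ^ (n + 1))) x = r ^ p ^ n * w ^ p ^ (n + 2) := by
      rw [powMonoidHom_apply, pow_succ', pow_mul, ← pow_one p, ← hrs, pow_one, mul_pow, ← hw',
        ← pow_mul, ← pow_add, add_comm 2 n]
    rw [h4]
    exact Subgroup.mul_mem_sup (R.pow_mem hr _) (hpw (n + 2) w)
  have h3 : ∀ n, pw 1 ≤ R ⊔ pw (n + 1) := by
    intro n
    induction n with
    | zero => exact le_sup_right
    | succ n ih =>
      refine ih.trans (sup_le le_sup_left (h2 n))
  set v := padicValNat p (Nat.card X) with hv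
  have h4 : ¬ p ∣ Nat.card (pw (v + 1)) := by
    intro h5
    obtain ⟨⟨z, y, hy⟩, hz⟩ := exists_prime_orderOf_dvd_card' p h5
    have hy' : y ^ p ^ (v + 1) = z := hy
    rw [← Subgroup.orderOf_coe] at hz
    have hz' : orderOf z = p := hz
    have h6 : orderOf y = p ^ (v + 2) := by
      apply orderOf_eq_prime_pow (n := v + 1)
      · rw [hy']
        intro h7
        rw [h7, orderOf_one] at hz'
        exact hp.one_lt.ne hz'
      · rw [pow_succ, pow_mul, hy', ← hz']
        exact pow_orderOf_eq_one z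
    have h7 : p ^ (v + 2) ∣ Nat.card X := h6 ▸ orderOf_dvd_natCard y
    have h8 := (padicValNat_dvd_iff_le (p := p) Nat.card_pos.ne').mp h7
    omega
  have h5 : Nat.card (R ⊔ pw (v + 1) : Subgroup X) ∣ Nat.card R * Nat.card (pw (v + 1)) := by
    let f : R × pw (v + 1) →* X := R.subtype.coprod (pw (v + 1)).subtype
    have hf : f.range = R ⊔ pw (v + 1) := by
      rw [MonoidHom.range_eq_map]
      ext z
      constructor
      · rintro ⟨⟨a, b⟩, -, rfl⟩
        exact Subgroup.mul_mem_sup a.2 b.2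
      · intro hz
        obtain ⟨a, ha, b, hb, rfl⟩ := Subgroup.mem_sup.mp hz
        exact ⟨(⟨a, ha⟩, ⟨b, hb⟩), trivial, rfl⟩
    rw [← hf, ← Nat.card_prod]
    exact Subgroup.card_range_dvd f
  have h6 : Nat.card (pw 1) ∣ Nat.card R * Nat.card (pw (v + 1)) :=
    (Subgroup.card_dvd_of_le (h3 v)).trans h5
  have h7 : padicValNat p (Nat.card (pw 1)) ≤ padicValNat p (Nat.card R) := by
    have h8 := padicValNat_dvd_iff_le (p := p)
      (n := padicValNat p (Nat.card (pw 1))) (a := Nat.card R * Nat.card (pw (v + 1)))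
      (mul_ne_zero Nat.card_pos.ne' Nat.card_pos.ne')
    have h9 := h8.mp (pow_padicValNat_dvd.trans h6)
    rw [padicValNat.mul Nat.card_pos.ne' Nat.card_pos.ne',
      padicValNat.eq_zero_of_not_dvd h4, add_zero] at h9
    exact h9
  have h8 : Nat.card R ∣ Nat.card Y := by
    let f : N.range →* X := j.comp N.range.subtype
    have hf : f.range = R := by
      ext z
      constructor
      · rintro ⟨⟨_, x, rfl⟩, rfl⟩
        exact ⟨x, rfl⟩
      · rintro ⟨x, rfl⟩
        exact ⟨⟨N x, x, rfl⟩, rfl⟩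
    rw [← hf]
    exact (Subgroup.card_range_dvd f).trans (Subgroup.card_subgroup_dvd_card _)
  have h9 : padicValNat p (Nat.card R) ≤ padicValNat p (Nat.card Y) := by
    have h10 := padicValNat_dvd_iff_le (p := p)
      (n := padicValNat p (Nat.card R)) (a := Nat.card Y) Nat.card_pos.ne'
    exact h10.mp (pow_padicValNat_dvd.trans h8)
  have h10 := val_card_eq (X := X) hp
  have h11 : pw 1 = (powMonoidHom p : X →* X).range := by
    change (powMonoidHom (p ^ 1) : X →* X).range = _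
    rw [pow_one]
  rw [h11] at h7
  omega

theorem unip_lin {p : ℕ} {V : Type*} [AddCommGroup V] [Finite V] [Fact p.Prime]
    [Module (ZMod p) V] (f : Module.End (ZMod p) V) (n : ℕ) (h : f ^ (p ^ n) = 1) (k : ℕ)
    (hk : padicValNat p (Nat.card V) ≤ p ^ k) : f ^ (p ^ k) = 1 := by
  have hfgV : Module.Finite (ZMod p) V := Module.Finite.of_finite
  have h2 : ∀ i : ℕ, (f - 1) ^ (p ^ i) = f ^ (p ^ i) - 1 := by
    intro i
    have h3 : ((Polynomial.X : Polynomial (ZMod p)) - 1) ^ (p ^ i) =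
        Polynomial.X ^ (p ^ i) - 1 := by
      rw [sub_pow_char_pow, one_pow]
    have h4 := congrArg (Polynomial.aeval f) h3
    rw [map_pow, map_sub, map_sub, map_pow, Polynomial.aeval_X, map_one] at h4
    exact h4
  have h3 : IsNilpotent (f - 1) := ⟨p ^ n, by rw [h2, h, sub_self]⟩
  have h4 := h3.charpoly_eq_X_pow_finrank
  have h5 : (f - 1) ^ Module.finrank (ZMod p) V = 0 := by
    have h6 := LinearMap.aeval_self_charpoly (f - 1)
    rw [h4, map_pow, Polynomial.aeval_X] at h6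
    exact h6
  have h6 : Module.finrank (ZMod p) V ≤ p ^ k := by
    refine le_trans (le_of_eq ?_) hk
    have h7 := Module.natCard_eq_pow_finrank (K := ZMod p) (V := V)
    rw [Nat.card_zmod] at h7
    rw [h7, padicValNat.prime_pow]
  have h8 : (f - 1) ^ (p ^ k) = 0 := pow_eq_zero_of_le h6 h5
  rw [h2] at h8
  exact sub_eq_zero.mp h8

theorem unip_it {p : ℕ} {V : Type*} [AddCommGroup V] [Finite V] [Fact p.Prime]
    [Module (ZMod p) V] (τ : V →+ V) (n : ℕ) (hτ : ∀ z, τ^[p ^ n] z = z) (k : ℕ)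
    (hk : padicValNat p (Nat.card V) ≤ p ^ k) (z : V) : τ^[p ^ k] z = z := by
  let f : Module.End (ZMod p) V := AddMonoidHom.toZModLinearMap p τ
  have hfi : ∀ (i : ℕ) (z : V), (f ^ i) z = τ^[i] z := by
    intro i z
    rw [Module.End.pow_apply]
    rfl
  have h1 : f ^ (p ^ n) = 1 := by
    apply LinearMap.ext
    intro z
    rw [hfi, hτ]
    rfl
  rw [← hfi, unip_lin f n h1 k hk]
  rfl

theorem unip_aux {p : ℕ} {V : Type*} [AddCommGroup V] [Finite V] (hp : p.Prime)
    (hV : ∀ z : V, p • z = 0) (τ : V →+ V) (n : ℕ) (hτ : ∀ z, τ^[p ^ n] z = z) (k : ℕ)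
    (hk : padicValNat p (Nat.card V) ≤ p ^ k) (z : V) : τ^[p ^ k] z = z := by
  have hp' : Fact p.Prime := ⟨hp⟩
  exact @unip_it p V _ _ _ (AddCommGroup.zmodModule hV) τ n hτ k hk z

/-- G3: unipotence -/
theorem trivial_of_rk (hp : p.Prime) (σ : X ≃* X) (n : ℕ) (hσ : σ ^ (p ^ n) = 1) (k : ℕ)
    (hk : rk p X ≤ p ^ k) (x : X) : ∃ y : X, (σ ^ (p ^ k)) x = x * y ^ p := by
  have : Fact p.Prime := ⟨hp⟩
  set A := (powMonoidHom p : X →* X).range with hA
  have hAσ : ∀ w ∈ A, σ w ∈ A := by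
    rintro _ ⟨w, rfl⟩
    exact ⟨σ w, by rw [powMonoidHom_apply, powMonoidHom_apply, map_pow]⟩
  let τ : X ⧸ A →* X ⧸ A := QuotientGroup.map A A σ.toMonoidHom hAσ
  have hτ : ∀ (i : ℕ) (z : X), τ^[i] (QuotientGroup.mk z) = QuotientGroup.mk ((σ ^ i) z) := by
    intro i
    induction i with
    | zero => intro z; rfl
    | succ i ih =>
      intro z
      rw [Function.iterate_succ_apply]
      have h1 : τ (QuotientGroup.mk z) = QuotientGroup.mk (σ z) := rfl
      rw [h1, ih, pow_succ, MulAut.mul_apply]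
  have hit : ∀ (i : ℕ) (q : X ⧸ A), (MonoidHom.toAdditive τ)^[i] (Additive.ofMul q) =
      Additive.ofMul (τ^[i] q) := by
    intro i
    induction i with
    | zero => intro q; rfl
    | succ i ih =>
      intro q
      rw [Function.iterate_succ_apply, Function.iterate_succ_apply]
      have h1 : (MonoidHom.toAdditive τ) (Additive.ofMul q) = Additive.ofMul (τ q) := rfl
      rw [h1, ih]
  have h1 := unip_aux (V := Additive (X ⧸ A)) (p := p) hp (by
    intro z
    obtain ⟨q, rfl⟩ : ∃ q : X ⧸ A, Additive.ofMul q = z := ⟨z.toMul, rfl⟩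
    induction q using QuotientGroup.induction_on with
    | H w =>
      rw [← ofMul_pow, ← QuotientGroup.mk_pow,
        (QuotientGroup.eq_one_iff (w ^ p)).mpr (show w ^ p ∈ A from ⟨w, rfl⟩)]
      rfl) (MonoidHom.toAdditive τ) n (by
    intro z
    obtain ⟨q, rfl⟩ : ∃ q : X ⧸ A, Additive.ofMul q = z := ⟨z.toMul, rfl⟩
    induction q using QuotientGroup.induction_on with
    | H w => rw [hit, hτ, hσ]; rfl) k hk (Additive.ofMul (QuotientGroup.mk x))
  rw [hit, hτ] at h1
  have h9 : (QuotientGroup.mk ((σ ^ (p ^ k)) x) : X ⧸ A) = QuotientGroup.mk x := h1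
  have h10 := QuotientGroup.eq.mp h9.symm
  obtain ⟨y, hy⟩ := h10
  refine ⟨y, ?_⟩
  have hy' : y ^ p = x⁻¹ * (σ ^ (p ^ k)) x := hy
  rw [hy']
  group

end Group

end Pool.Agent.Work.MuI
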