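import Pool.Agent.Work.MP_a4986b_nt.INorm
import Pool.Agent.Work.MP_a4986b_nt.IGrow

set_option autoImplicit false
set_option maxHeartbeats 400000

/-! # C5, first part: one step of the growth estimate -/

namespace Pool.Agent.Work.MuI

open NumberField Module
open scoped Pointwise nonZeroDivisors

theorem pow_triv {X : Type*} [CommGroup X] {p : ℕ} (τ : X ≃* X)
    (h : ∀ x : X, ∃ y : X, τ x = x * y ^ p) (j : ℕ) (x : X) : ∃ y : X, (τ ^ j) x = x * y ^ p := by
  induction j generalizing x with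
  | zero => exact ⟨1, by simp⟩
  | succ j ih =>
    obtain ⟨y, hy⟩ := h x
    obtain ⟨z, hz⟩ := ih (τ x)
    refine ⟨y * z, ?_⟩
    rw [pow_succ, MulAut.mul_apply, hz, hy, mul_pow, mul_assoc]

theorem clAct_tower {K M N : Type*} [Field K] [NumberField K] [Field M] [NumberField M]
    [Field N] [NumberField N] [Algebra K M] [Algebra M N] [Algebra K N] [IsScalarTower K M N]
    (g : Gal(N/M)) : clAct g = clAct (AlgEquiv.restrictScalars K g) := by
  have h : MulSemiringAction.toRingEquiv Gal(N/M) (𝓞 N) g =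
      MulSemiringAction.toRingEquiv Gal(N/K) (𝓞 N) (AlgEquiv.restrictScalars K g) := by
    ext x
    rfl
  rw [clAct, clAct, h]

theorem prod_gal_eq {G X : Type*} [Group G] [Fintype G] [CommMonoid X] (g : G)
    (hg : ∀ x, x ∈ Subgroup.zpowers g) (f : G → X) :
    ∏ x : G, f x = ∏ i ∈ Finset.range (Nat.card G), f (g ^ i) := by
  classical
  have hord : orderOf g = Nat.card G := orderOf_eq_card_of_forall_mem_zpowers hg
  symm
  refine Finset.prod_bij (fun i _ => g ^ i) (fun _ _ => Finset.mem_univ _) ?_ ?_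
    (fun _ _ => rfl)
  · intro i hi j hj hij
    rw [Finset.mem_range, ← hord] at hi hj
    exact pow_injOn_Iio_orderOf hi hj hij
  · intro x _
    obtain ⟨i, hi, hx⟩ := ((isOfFinOrder_of_finite g).mem_zpowers_iff_mem_range_orderOf
      (y := x)).1 (hg x) |> Finset.mem_image.1
    exact ⟨i, by rwa [← hord], hx⟩

/-- one step of the growth estimate -/
theorem growth_step {K M N : Type*} [Field K] [NumberField K] [Field M] [NumberField M]
    [Field N] [NumberField N] [Algebra K M] [Algebra M N] [Algebra K N] [IsScalarTower K M N]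
    [IsGalois K N] {p : ℕ} (hp : p.Prime) (hp2 : p ≠ 2) (hcyc : IsCyclic Gal(N/K)) (n : ℕ)
    (hn : finrank K N = p ^ n) (hd : finrank M N = p) (k : ℕ) (hk : k + 1 ≤ n)
    (hrk : rk p (ClassGroup (𝓞 N)) ≤ p ^ k) :
    padicValNat p (Nat.card (ClassGroup (𝓞 N))) ≤
      padicValNat p (Nat.card (ClassGroup (𝓞 M))) + rk p (ClassGroup (𝓞 N)) := by
  have hgal : IsGalois M N := IsGalois.tower_top_of_isGalois K M N
  have hcardM : Nat.card Gal(N/M) = p := by rw [IsGalois.card_aut_eq_finrank, hd]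
  have hcardK : Nat.card Gal(N/K) = p ^ n := by rw [IsGalois.card_aut_eq_finrank, hn]
  have hcM : IsCyclic Gal(N/M) := by
    have := Fact.mk hp
    exact isCyclic_of_prime_card hcardM
  obtain ⟨g, hg⟩ := hcM.exists_generator
  obtain ⟨σ, hσ⟩ := hcyc.exists_generator
  set g' : Gal(N/K) := AlgEquiv.restrictScalars K g with hg'
  have hg'p : g' ^ p = 1 := by
    have h1 : g ^ p = 1 := by rw [← hcardM]; exact pow_card_eq_one'
    have h2 : ∀ i : ℕ, g' ^ i = AlgEquiv.restrictScalars K (g ^ i) := by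
      intro i
      induction i with
      | zero => rfl
      | succ i ih => rw [pow_succ, ih, pow_succ]; rfl
    rw [h2, h1]
    rfl
  obtain ⟨i, hi⟩ : ∃ i : ℕ, σ ^ i = g' := by
    have := (mem_powers_iff_mem_zpowers (x := σ) (y := g')).2 (hσ g')
    exact (Submonoid.mem_powers_iff _ _).1 this
  have hord : orderOf σ = p ^ n := by rw [orderOf_eq_card_of_forall_mem_zpowers hσ, hcardK]
  have hdvd : p ^ n ∣ i * p := by
    rw [← hord]
    apply orderOf_dvd_of_pow_eq_one
    rw [pow_mul, hi, hg'p]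
  have hdvd2 : p ^ k ∣ i := by
    have h1 : p ^ (k + 1) ∣ i * p := (pow_dvd_pow p hk).trans hdvd
    rw [pow_succ] at h1
    exact Nat.dvd_of_mul_dvd_mul_right hp.pos h1
  obtain ⟨j, rfl⟩ := hdvd2
  have hσn : (clAct σ) ^ (p ^ n) = 1 := by
    rw [← clAct_pow, ← hord, pow_orderOf_eq_one, clAct_one]
  have htriv : ∀ x : ClassGroup (𝓞 N), ∃ y, clAct g x = x * y ^ p := by
    intro x
    have h1 := pow_triv ((clAct σ) ^ (p ^ k)) (trivial_of_rk hp (clAct σ) n hσn k hrk) j x
    rwa [← pow_mul, ← clAct_pow, hi, ← clAct_tower g] at h1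
  have hgp : (clAct g) ^ p = 1 := by
    rw [← clAct_pow, ← hcardM, pow_card_eq_one', clAct_one]
  obtain ⟨Nm, -, -, hNm⟩ := exists_clNorm M N
  refine val_le_of_trivial hp hp2 (clAct g) hgp Nm (ClassGroup.extendedHom (𝓞 M) (𝓞 N)) ?_ htriv
  intro x
  rw [hNm hgal x, prod_gal_eq g hg, hcardM]
  exact Finset.prod_congr rfl fun i _ => by rw [clAct_pow]

end Pool.Agent.Work.MuI
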