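import Pool.Agent.Work.MP_a4986b_nt.Defs

/-! # T4b: the `p`-th power of an invariant prime comes from below -/

set_option autoImplicit false
set_option maxHeartbeats 400000

namespace Pool.Agent.Work.Mu22

open NumberField Module
open scoped Pointwise nonZeroDivisors ENNReal Real

attribute [local instance] Units.mulDistribMulActionRight

section

variable {K L : Type*} [Field K] [NumberField K] [Field L] [NumberField L] [Algebra K L]
  [IsGalois K L] {p : ℕ}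

/-- ideals from below are invariant -/
theorem smul_map_eq (g : Gal(L/K)) (J : Ideal (𝓞 K)) :
    g • (J.map (algebraMap (𝓞 K) (𝓞 L))) = J.map (algebraMap (𝓞 K) (𝓞 L)) := by
  rw [Ideal.pointwise_smul_def, Ideal.map_map]
  congr 1
  ext x
  simp [MulSemiringAction.toRingHom_apply, smul_algebraMap]

omit [NumberField K] [NumberField L] [IsGalois K L] in
/-- the prime below a nonzero prime is not zero -/
theorem under_ne_bot_of (Q : Ideal (𝓞 L)) (hQ : Q ≠ ⊥) : Q.under (𝓞 K) ≠ ⊥ := by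
  intro h
  exact hQ (Ideal.eq_bot_of_comap_eq_bot h)

omit [NumberField K] [NumberField L] [IsGalois K L] in
/-- the extension of a nonzero ideal is not zero -/
theorem map_ne_bot_of {J : Ideal (𝓞 K)} (hJ : J ≠ ⊥) :
    J.map (algebraMap (𝓞 K) (𝓞 L)) ≠ ⊥ := Ideal.map_ne_bot_of_ne_bot hJ

/-- primes containing the extension of `Q ∩ 𝓞 K` are conjugate to `Q` -/
theorem conj_of_map_le (Q : Ideal (𝓞 L)) [Q.IsPrime] (hQ : Q ≠ ⊥) (P : Ideal (𝓞 L)) [P.IsPrime]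
    (hP : (Q.under (𝓞 K)).map (algebraMap (𝓞 K) (𝓞 L)) ≤ P) : ∃ g : Gal(L/K), g • Q = P := by
  have hq0 : Q.under (𝓞 K) ≠ ⊥ := under_ne_bot_of (K := K) Q hQ
  have hqm : (Q.under (𝓞 K)).IsMaximal :=
    Ideal.IsPrime.isMaximal (Ideal.IsPrime.under (𝓞 K) Q) hq0
  have h1 : Q.under (𝓞 K) ≤ P.under (𝓞 K) := Ideal.map_le_iff_le_comap.mp hP
  have h2 : Q.under (𝓞 K) = P.under (𝓞 K) :=
    hqm.eq_of_le (Ideal.IsPrime.under (𝓞 K) P).ne_top h1
  have : P.LiesOver (Q.under (𝓞 K)) := ⟨h2⟩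
  exact Ideal.exists_smul_eq_of_isGaloisGroup (Q.under (𝓞 K)) Q P Gal(L/K)

omit [NumberField K] [NumberField L] in
theorem natCard_gal [FiniteDimensional K L] : Nat.card Gal(L/K) = finrank K L :=
  IsGalois.card_aut_eq_finrank K L

omit [NumberField K] [NumberField L] [IsGalois K L] in
theorem under_ne_bot (Q : Ideal (𝓞 L)) (h0 : Q ≠ ⊥) : Q.under (𝓞 K) ≠ ⊥ := by
  intro h
  exact h0 (Ideal.eq_bot_of_comap_eq_bot h)

theorem smul_eq_of_under (P Q : Ideal (𝓞 L)) [P.IsPrime] [Q.IsPrime]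
    (h : P.under (𝓞 K) = Q.under (𝓞 K)) : ∃ g : Gal(L/K), g • Q = P := by
  have hQ : Q.LiesOver (P.under (𝓞 K)) := ⟨h⟩
  exact Ideal.exists_smul_eq_of_isGaloisGroup (P.under (𝓞 K)) Q P Gal(L/K)

omit [IsGalois K L] in
/-- the lift of a prime ideal -/
theorem map_eq_prod (q : Ideal (𝓞 K)) [q.IsMaximal] (h0 : q ≠ ⊥) :
    q.map (algebraMap (𝓞 K) (𝓞 L)) =
      ∏ P ∈ (q.primesOver (𝓞 L)).toFinset, P ^ P.ramificationIdx (𝓞 K) := by
  have := Ideal.map_algebraMap_eq_finsetProd_pow (R := 𝓞 L) (p := q) h0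
  convert this

/-- T4b -/
theorem pow_eq_map (hp : p.Prime) (hd : finrank K L = p) (𝔓 : Ideal (𝓞 L)) (hP : 𝔓.IsPrime)
    (h0 : 𝔓 ≠ ⊥)
    (hfix : ∀ g : Gal(L/K), g • 𝔓 = 𝔓) :
    ∃ J : Ideal (𝓞 K), J ≠ ⊥ ∧ 𝔓 ^ p = J.map (algebraMap (𝓞 K) (𝓞 L)) := by
  set q := 𝔓.under (𝓞 K) with hq
  have hq0 : q ≠ ⊥ := under_ne_bot_of (K := K) 𝔓 h0
  have hm0 : q.map (algebraMap (𝓞 K) (𝓞 L)) ≠ ⊥ := map_ne_bot_of hq0
  have hPm : 𝔓.IsMaximal := Ideal.IsPrime.isMaximal hP h0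
  have hqp : q.IsPrime := Ideal.IsPrime.under (𝓞 K) 𝔓
  have : 𝔓.LiesOver q := ⟨hq⟩
  -- `q 𝓞 L = 𝔓 ^ e`
  obtain ⟨I, hcop, hI⟩ := Ideal.eq_prime_pow_mul_coprime hm0 𝔓
  rw [← Ideal.IsDedekindDomain.ramificationIdx_eq_normalizedFactors_count q 𝔓 hm0] at hI
  have hItop : I = ⊤ := by
    by_contra hne
    obtain ⟨Q, hQm, hIQ⟩ := Ideal.exists_le_maximal I hne
    have := hQm.isPrime
    obtain ⟨g, hg⟩ := conj_of_map_le (K := K) 𝔓 h0 Q (by
      rw [← hq, hI]; exact Ideal.mul_le_right.trans hIQ)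
    rw [hfix g] at hg
    rw [← hg] at hIQ
    exact hP.ne_top (top_le_iff.mp (hcop ▸ sup_le le_rfl hIQ))
  rw [hItop, Ideal.mul_top] at hI
  -- `e * f = p`
  have hone : (q.primesOver (𝓞 L)).ncard = 1 := by
    rw [Set.ncard_eq_one]
    refine ⟨𝔓, ?_⟩
    ext Q
    simp only [Set.mem_singleton_iff]
    constructor
    · rintro ⟨h1, h2⟩
      obtain ⟨g, hg⟩ := Ideal.exists_smul_eq_of_isGaloisGroup q 𝔓 Q Gal(L/K)
      rw [← hg, hfix g]
    · rintro rfl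
      exact ⟨hP, inferInstance⟩
  have hef := Ideal.ncard_primesOver_mul_ramificationIdxIn_mul_inertiaDegIn q (𝓞 L) Gal(L/K)
  rw [hone, one_mul, Ideal.ramificationIdxIn_eq_ramificationIdx q 𝔓 Gal(L/K),
    IsGaloisGroup.card_eq_finrank Gal(L/K) K L, hd] at hef
  have hdvd : 𝔓.ramificationIdx (𝓞 K) ∣ p := ⟨_, hef.symm⟩
  rcases (Nat.dvd_prime hp).mp hdvd with h | h
  · refine ⟨q ^ p, pow_ne_zero _ hq0, ?_⟩
    rw [Ideal.map_pow, hI, h, pow_one]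
  · exact ⟨q, hq0, by rw [hI, h]⟩

end

end Pool.Agent.Work.Mu22
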