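import Pool.Agent.Work.MP_a4986b_nt.IDefs
import Pool.Agent.Work.MP_a4986b_nt.PowMap

set_option autoImplicit false
set_option maxHeartbeats 400000

/-! # N3: invariant fractional ideals -/

namespace Pool.Agent.Work.MuI

open NumberField Module UniqueFactorizationMonoid
open scoped Pointwise nonZeroDivisors

namespace Inv

section

variable {K M : Type*} [Field K] [NumberField K] [Field M] [NumberField M] [Algebra K M]

/-- the multiplicity of a prime in an ideal from below is divisible by the ramification index -/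
theorem dvd_count_map (Q : Ideal (𝓞 M)) (hQp : Q.IsPrime) (J : Ideal (𝓞 K))
    (hJ : J ≠ ⊥) : Q.ramificationIdx (𝓞 K) ∣
      (normalizedFactors (J.map (algebraMap (𝓞 K) (𝓞 M)))).count Q := by
  classical
  induction J using UniqueFactorizationMonoid.induction_on_prime with
  | h₁ => exact absurd rfl hJ
  | h₂ J hu =>
    rw [Ideal.isUnit_iff.mp hu, Ideal.map_top, ← Ideal.one_eq_top, normalizedFactors_one]
    simp
  | h₃ J q hJ0 hq ih =>
    have hq0 : q ≠ ⊥ := hq.ne_zero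
    have hqp : q.IsPrime := Ideal.isPrime_of_prime hq
    have hqm0 : q.map (algebraMap (𝓞 K) (𝓞 M)) ≠ ⊥ := Mu22.map_ne_bot_of hq0
    have hJm0 : J.map (algebraMap (𝓞 K) (𝓞 M)) ≠ ⊥ := Mu22.map_ne_bot_of hJ0
    rw [Ideal.map_mul, normalizedFactors_mul hqm0 hJm0, Multiset.count_add]
    refine dvd_add ?_ (ih hJ0)
    by_cases hmem : Q ∈ normalizedFactors (q.map (algebraMap (𝓞 K) (𝓞 M)))
    · have hle : q.map (algebraMap (𝓞 K) (𝓞 M)) ≤ Q :=
        Ideal.dvd_iff_le.mp (dvd_of_mem_normalizedFactors hmem)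
      have hlo : Q.LiesOver q :=
        ⟨(hqp.isMaximal hq0).eq_of_le (Ideal.IsPrime.under (𝓞 K) Q).ne_top
          (Ideal.map_le_iff_le_comap.mp hle)⟩
      rw [← Ideal.IsDedekindDomain.ramificationIdx_eq_normalizedFactors_count q Q hqm0]
    · rw [Multiset.count_eq_zero_of_notMem hmem]
      exact dvd_zero _

variable [IsGalois K M] {p : ℕ}

theorem ram_eq (hp : p.Prime) (hd : finrank K M = p) {Q : Ideal (𝓞 M)} (hQp : Q.IsPrime)
    (he : Q.ramificationIdx (𝓞 K) ≠ 1) : Q.ramificationIdx (𝓞 K) = p := by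
  have hqp : (Q.under (𝓞 K)).IsPrime := Ideal.IsPrime.under (𝓞 K) Q
  have hef := Ideal.ncard_primesOver_mul_ramificationIdxIn_mul_inertiaDegIn (Q.under (𝓞 K)) (𝓞 M)
    Gal(M/K)
  rw [Ideal.ramificationIdxIn_eq_ramificationIdx (Q.under (𝓞 K)) Q Gal(M/K),
    IsGaloisGroup.card_eq_finrank Gal(M/K) K M, hd] at hef
  have hdvd : Q.ramificationIdx (𝓞 K) ∣ p := by
    rw [← hef]
    exact Dvd.dvd.mul_left (Dvd.intro _ rfl) _
  exact ((Nat.dvd_prime hp).mp hdvd).resolve_left he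

/-- invariant ideals with divisible multiplicities at the ramified primes come from below -/
theorem invariant_ideal (hp : p.Prime) (hd : finrank K M = p) (I : Ideal (𝓞 M)) (hI : I ≠ ⊥)
    (hinv : ∀ g : Gal(M/K), g • I = I)
    (hcount : ∀ Q : Ideal (𝓞 M), Q.IsPrime → Q ≠ ⊥ → Q.ramificationIdx (𝓞 K) ≠ 1 →
      p ∣ (normalizedFactors I).count Q) :
    ∃ J : Ideal (𝓞 K), J ≠ ⊥ ∧ I = J.map (algebraMap (𝓞 K) (𝓞 M)) := by
  classical
  induction I using WellFoundedGT.induction with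
  | ind I ih =>
    by_cases hIt : I = ⊤
    · exact ⟨⊤, top_ne_bot, by simp [hIt, Ideal.map_top]⟩
    obtain ⟨Q, hQm, hIQ⟩ := Ideal.exists_le_maximal I hIt
    have hQp : Q.IsPrime := hQm.isPrime
    have hQ0 : Q ≠ ⊥ := ne_bot_of_le_ne_bot hI hIQ
    set q := Q.under (𝓞 K) with hq
    have hq0 : q ≠ ⊥ := Mu22.under_ne_bot_of (K := K) Q hQ0
    have hm0 : q.map (algebraMap (𝓞 K) (𝓞 M)) ≠ ⊥ := Mu22.map_ne_bot_of hq0
    have hmQ : q.map (algebraMap (𝓞 K) (𝓞 M)) ≤ Q := Ideal.map_comap_le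
    have hdvd : q.map (algebraMap (𝓞 K) (𝓞 M)) ∣ I := by
      rw [dvd_iff_normalizedFactors_le_normalizedFactors hm0 hI, Multiset.le_iff_count]
      intro P
      by_cases hPm : P ∈ normalizedFactors (q.map (algebraMap (𝓞 K) (𝓞 M)))
      · have hPprime : P.IsPrime :=
          Ideal.isPrime_of_prime (prime_of_normalized_factor P hPm)
        have hle : q.map (algebraMap (𝓞 K) (𝓞 M)) ≤ P :=
          Ideal.dvd_iff_le.mp (dvd_of_mem_normalizedFactors hPm)
        obtain ⟨g, hg⟩ := Mu22.conj_of_map_le (K := K) Q hQ0 P hle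
        have hP0 : P ≠ ⊥ := ne_bot_of_le_ne_bot hm0 hle
        have hlo : P.LiesOver q := by
          have hqm : q.IsMaximal :=
            Ideal.IsPrime.isMaximal (Ideal.IsPrime.under (𝓞 K) Q) hq0
          exact ⟨hqm.eq_of_le (Ideal.IsPrime.under (𝓞 K) P).ne_top
            (Ideal.map_le_iff_le_comap.mp hle)⟩
        rw [← Ideal.IsDedekindDomain.ramificationIdx_eq_normalizedFactors_count q P hm0]
        have hIP : I ≤ P := by
          rw [← hg, ← hinv g]
          exact Ideal.pointwise_smul_le_pointwise_smul_iff.mpr hIQ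
        have hPir : Irreducible P := (Ideal.prime_of_isPrime hP0 hPprime).irreducible
        obtain ⟨R, hR, hRP⟩ := exists_mem_normalizedFactors_of_dvd hI hPir
          (Ideal.dvd_iff_le.mpr hIP)
        have hmem : P ∈ normalizedFactors I := by
          rw [associated_iff_eq.mp hRP]
          exact hR
        have h1 : 1 ≤ (normalizedFactors I).count P := Multiset.one_le_count_iff_mem.mpr hmem
        by_cases he : P.ramificationIdx (𝓞 K) = 1
        · rw [he]
          exact h1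
        · rw [ram_eq hp hd hPprime he]
          exact Nat.le_of_dvd (by omega) (hcount P hPprime hP0 he)
      · rw [Multiset.count_eq_zero_of_notMem hPm]
        exact Nat.zero_le _
    obtain ⟨I', hI'⟩ := hdvd
    have hI'0 : I' ≠ ⊥ := by
      rintro rfl
      exact hI (by rw [hI', Ideal.mul_bot])
    have hI'inv : ∀ g : Gal(M/K), g • I' = I' := by
      intro g
      have h := hinv g
      rw [hI', smul_mul', Mu22.smul_map_eq g q] at h
      exact mul_left_cancel₀ hm0 h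
    have hmt : q.map (algebraMap (𝓞 K) (𝓞 M)) ≠ ⊤ := fun h =>
      hQp.ne_top (top_le_iff.mp (h ▸ hmQ))
    have hlt : I < I' := by
      refine lt_of_le_of_ne (hI' ▸ Ideal.mul_le_right) ?_
      intro h
      rw [h] at hI'
      have h2 : q.map (algebraMap (𝓞 K) (𝓞 M)) * I' = ⊤ * I' := by rw [← hI', Ideal.top_mul]
      exact hmt (mul_right_cancel₀ hI'0 h2)
    have hc' : ∀ Q : Ideal (𝓞 M), Q.IsPrime → Q ≠ ⊥ → Q.ramificationIdx (𝓞 K) ≠ 1 →
        p ∣ (normalizedFactors I').count Q := by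
      intro P hP hP0 he
      have h1 := hcount P hP hP0 he
      rw [hI', normalizedFactors_mul hm0 hI'0, Multiset.count_add] at h1
      have h2 := dvd_count_map (K := K) P hP q hq0
      rw [ram_eq hp hd hP he] at h2
      exact (Nat.dvd_add_right h2).mp h1
    obtain ⟨J, hJ, h⟩ := ih I' hlt hI'0 hI'inv hc'
    refine ⟨q * J, mul_ne_zero hq0 hJ, ?_⟩
    rw [hI', h, Ideal.map_mul]

end

section Frac

variable {K M : Type*} [Field K] [NumberField K] [Field M] [NumberField M] [Algebra K M]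

theorem gal_apply (g : Gal(M/K)) (z : M) : IsFractionRing.ringEquivOfRingEquiv (K := M) (L := M)
    (MulSemiringAction.toRingEquiv Gal(M/K) (𝓞 M) g) z = g z := by
  have h : ((IsFractionRing.ringEquivOfRingEquiv (K := M) (L := M)
      (MulSemiringAction.toRingEquiv Gal(M/K) (𝓞 M) g) : M ≃+* M) : M →+* M) =
      ((g : M ≃ₐ[K] M) : M →+* M) := by
    apply IsLocalization.ringHom_ext (𝓞 M)⁰
    ext a
    simp only [RingHom.comp_apply, RingHom.coe_coe]
    rw [IsFractionRing.ringEquivOfRingEquiv_algebraMap]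
    rfl
  exact RingHom.congr_fun h z

theorem mem_act (g : Gal(M/K)) (x : FractionalIdeal (𝓞 M)⁰ M) (y : M) :
    y ∈ FractionalIdeal.ringEquivOfRingEquiv M M
      (MulSemiringAction.toRingEquiv Gal(M/K) (𝓞 M) g) x ↔ ∃ z ∈ x, g z = y := by
  rw [← FractionalIdeal.mem_coe]
  change y ∈ Submodule.map _ _ ↔ _
  rw [Submodule.mem_map]
  constructor
  · rintro ⟨z, hz, h⟩
    refine ⟨z, hz, ?_⟩
    rw [← h, ← gal_apply]
    rfl
  · rintro ⟨z, hz, h⟩
    refine ⟨z, hz, ?_⟩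
    rw [← h, ← gal_apply]
    rfl

theorem act_coeIdeal (g : Gal(M/K)) (I : Ideal (𝓞 M)) :
    FractionalIdeal.ringEquivOfRingEquiv M M
      (MulSemiringAction.toRingEquiv Gal(M/K) (𝓞 M) g) (I : FractionalIdeal (𝓞 M)⁰ M) =
      ((g • I : Ideal (𝓞 M)) : FractionalIdeal (𝓞 M)⁰ M) := by
  ext y
  rw [mem_act, FractionalIdeal.mem_coeIdeal]
  constructor
  · rintro ⟨z, hz, rfl⟩
    obtain ⟨a, ha, rfl⟩ := (FractionalIdeal.mem_coeIdeal _).mp hz
    exact ⟨g • a, Ideal.smul_mem_pointwise_smul g a I ha, rfl⟩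
  · rintro ⟨a, ha, rfl⟩
    refine ⟨algebraMap (𝓞 M) M (g⁻¹ • a), (FractionalIdeal.mem_coeIdeal _).mpr
      ⟨g⁻¹ • a, Ideal.mem_pointwise_smul_iff_inv_smul_mem.mp ha, rfl⟩, ?_⟩
    change g (g⁻¹ (algebraMap (𝓞 M) M a)) = algebraMap (𝓞 M) M a
    exact AlgEquiv.apply_symm_apply g _

theorem act_spanSingleton (g : Gal(M/K)) (y : M) :
    FractionalIdeal.ringEquivOfRingEquiv M M
      (MulSemiringAction.toRingEquiv Gal(M/K) (𝓞 M) g) (FractionalIdeal.spanSingleton (𝓞 M)⁰ y) =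
      FractionalIdeal.spanSingleton (𝓞 M)⁰ (g y) := by
  ext z
  rw [mem_act, FractionalIdeal.mem_spanSingleton]
  constructor
  · rintro ⟨w, hw, rfl⟩
    obtain ⟨r, rfl⟩ := (FractionalIdeal.mem_spanSingleton _).mp hw
    refine ⟨g • r, ?_⟩
    rw [Algebra.smul_def, Algebra.smul_def, map_mul]
    rfl
  · rintro ⟨r, rfl⟩
    refine ⟨(g⁻¹ • r) • y, (FractionalIdeal.mem_spanSingleton _).mpr ⟨_, rfl⟩, ?_⟩
    rw [Algebra.smul_def, Algebra.smul_def, map_mul]
    congr 1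
    change g (g⁻¹ (algebraMap (𝓞 M) M r)) = algebraMap (𝓞 M) M r
    exact AlgEquiv.apply_symm_apply g _

theorem exists_denom (M : Type*) [Field M] [NumberField M] (x : FractionalIdeal (𝓞 M)⁰ M) :
    ∃ (n : ℕ) (I : Ideal (𝓞 M)), n ≠ 0 ∧
      FractionalIdeal.spanSingleton (𝓞 M)⁰ (n : M) * x = (I : FractionalIdeal (𝓞 M)⁰ M) := by
  obtain ⟨a, I, ha, hx⟩ := FractionalIdeal.exists_eq_spanSingleton_mul x
  have hspan : Ideal.span {a} ≠ ⊥ := by simpa using ha
  have hn : Ideal.absNorm (Ideal.span {a}) ≠ 0 := by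
    rw [Ne, Ideal.absNorm_eq_zero_iff]
    exact hspan
  obtain ⟨b, hb⟩ := Ideal.mem_span_singleton'.mp (Ideal.absNorm_mem (Ideal.span {a}))
  refine ⟨Ideal.absNorm (Ideal.span {a}), Ideal.span {b} * I, hn, ?_⟩
  have ha' : algebraMap (𝓞 M) M a ≠ 0 := by
    rw [Ne, FaithfulSMul.algebraMap_eq_zero_iff]
    exact ha
  have h1 : ((Ideal.absNorm (Ideal.span {a}) : ℕ) : M) =
      algebraMap (𝓞 M) M b * algebraMap (𝓞 M) M a := by
    rw [← map_mul, hb, map_natCast]
  rw [hx, ← mul_assoc, FractionalIdeal.spanSingleton_mul_spanSingleton, h1,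
    mul_inv_cancel_right₀ ha', FractionalIdeal.coeIdeal_mul,
    FractionalIdeal.coeIdeal_span_singleton]

/-- extension of fractional ideals -/
noncomputable def extU (K M : Type*) [Field K] [NumberField K] [Field M] [NumberField M]
    [Algebra K M] : (FractionalIdeal (𝓞 K)⁰ K)ˣ →* (FractionalIdeal (𝓞 M)⁰ M)ˣ :=
  Units.map (FractionalIdeal.extendedHom M (𝓞 M) :
    FractionalIdeal (𝓞 K)⁰ K →+* FractionalIdeal (𝓞 M)⁰ M).toMonoidHom

theorem extU_coe (u : (FractionalIdeal (𝓞 K)⁰ K)ˣ) :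
    ((extU K M u : (FractionalIdeal (𝓞 M)⁰ M)ˣ) : FractionalIdeal (𝓞 M)⁰ M) =
      FractionalIdeal.extendedHom M (𝓞 M) (u : FractionalIdeal (𝓞 K)⁰ K) := rfl

theorem ext_span (y : K) : FractionalIdeal.extendedHom M (𝓞 M)
    (FractionalIdeal.spanSingleton (𝓞 K)⁰ y) =
      FractionalIdeal.spanSingleton (𝓞 M)⁰ (algebraMap K M y) := by
  rw [FractionalIdeal.extendedHom_spanSingleton]
  congr 1
  have h : IsFractionRing.map (K := K) (L := M)
      (FaithfulSMul.algebraMap_injective (𝓞 K) (𝓞 M)) = algebraMap K M := by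
    apply IsLocalization.ringHom_ext (𝓞 K)⁰
    ext a
    simp only [RingHom.comp_apply]
    rw [IsFractionRing.map, IsLocalization.map_eq]
    rfl
  exact RingHom.congr_fun h y

variable [IsGalois K M]

/-- extended fractional ideals are invariant -/
theorem act_ext (g : Gal(M/K)) (u : (FractionalIdeal (𝓞 K)⁰ K)ˣ) :
    FractionalIdeal.ringEquivOfRingEquiv M M
      (MulSemiringAction.toRingEquiv Gal(M/K) (𝓞 M) g)
        ((extU K M u : (FractionalIdeal (𝓞 M)⁰ M)ˣ) : FractionalIdeal (𝓞 M)⁰ M) =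
      ((extU K M u : (FractionalIdeal (𝓞 M)⁰ M)ˣ) : FractionalIdeal (𝓞 M)⁰ M) := by
  obtain ⟨n, I, hn, hI⟩ := exists_denom K (u : FractionalIdeal (𝓞 K)⁰ K)
  have h1 : FractionalIdeal.spanSingleton (𝓞 M)⁰ (n : M) *
      ((extU K M u : (FractionalIdeal (𝓞 M)⁰ M)ˣ) : FractionalIdeal (𝓞 M)⁰ M) =
      ((I.map (algebraMap (𝓞 K) (𝓞 M)) : Ideal (𝓞 M)) : FractionalIdeal (𝓞 M)⁰ M) := by
    rw [extU_coe, ← FractionalIdeal.extendedHom_coeIdeal_eq_map (K := K), ← hI, map_mul, ext_span,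
      map_natCast]
  have h2 := congrArg (FractionalIdeal.ringEquivOfRingEquiv M M
      (MulSemiringAction.toRingEquiv Gal(M/K) (𝓞 M) g)) h1
  rw [map_mul, act_spanSingleton, act_coeIdeal, Mu22.smul_map_eq, ← h1, map_natCast] at h2
  have hn0 : FractionalIdeal.spanSingleton (𝓞 M)⁰ (n : M) ≠ 0 := by
    rw [Ne, FractionalIdeal.spanSingleton_eq_zero_iff]
    exact_mod_cast hn
  exact mul_left_cancel₀ hn0 h2

open scoped Classical in
theorem count_coeIdeal (v : IsDedekindDomain.HeightOneSpectrum (𝓞 M)) (I : Ideal (𝓞 M))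
    (hI : I ≠ ⊥) : FractionalIdeal.count M v (I : FractionalIdeal (𝓞 M)⁰ M) =
      ((normalizedFactors I).count v.asIdeal : ℤ) := by
  rw [FractionalIdeal.count_coe M v hI, Ideal.count_associates_factors_eq hI v.isPrime v.ne_bot]

/-- an invariant fractional ideal with divisible multiplicities at the ramified primes comes
from below -/
theorem mem_range_ext {p : ℕ} (hp : p.Prime) (hd : finrank K M = p)
    (x : (FractionalIdeal (𝓞 M)⁰ M)ˣ)
    (hx : ∀ g : Gal(M/K), FractionalIdeal.ringEquivOfRingEquiv M M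
      (MulSemiringAction.toRingEquiv Gal(M/K) (𝓞 M) g) (x : FractionalIdeal (𝓞 M)⁰ M) = x)
    (hc : ∀ v : IsDedekindDomain.HeightOneSpectrum (𝓞 M), v.asIdeal.ramificationIdx (𝓞 K) ≠ 1 →
      (p : ℤ) ∣ FractionalIdeal.count M v (x : FractionalIdeal (𝓞 M)⁰ M)) :
    x ∈ (extU K M).range := by
  classical
  obtain ⟨n, I, hn, hI⟩ := exists_denom M (x : FractionalIdeal (𝓞 M)⁰ M)
  have hn0 : FractionalIdeal.spanSingleton (𝓞 M)⁰ (n : M) ≠ 0 := by
    rw [Ne, FractionalIdeal.spanSingleton_eq_zero_iff]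
    exact_mod_cast hn
  have hI0 : I ≠ ⊥ := by
    rintro rfl
    rw [FractionalIdeal.coeIdeal_bot] at hI
    exact mul_ne_zero hn0 x.ne_zero hI
  have hinv : ∀ g : Gal(M/K), g • I = I := by
    intro g
    have h2 := congrArg (FractionalIdeal.ringEquivOfRingEquiv M M
      (MulSemiringAction.toRingEquiv Gal(M/K) (𝓞 M) g)) hI
    rw [map_mul, act_spanSingleton, act_coeIdeal, hx g, map_natCast, hI] at h2
    exact (FractionalIdeal.coeIdeal_injective h2).symm
  have hnK : Ideal.span {(n : 𝓞 K)} ≠ ⊥ := by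
    rw [Ne, Ideal.span_singleton_eq_bot]
    exact_mod_cast hn
  have hspan : FractionalIdeal.spanSingleton (𝓞 M)⁰ (n : M) =
      (((Ideal.span {(n : 𝓞 K)}).map (algebraMap (𝓞 K) (𝓞 M)) : Ideal (𝓞 M)) :
        FractionalIdeal (𝓞 M)⁰ M) := by
    rw [Ideal.map_span, Set.image_singleton, FractionalIdeal.coeIdeal_span_singleton, map_natCast,
      map_natCast]
  have hcount : ∀ Q : Ideal (𝓞 M), Q.IsPrime → Q ≠ ⊥ → Q.ramificationIdx (𝓞 K) ≠ 1 →
      p ∣ (normalizedFactors I).count Q := by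
    intro Q hQ hQ0 he
    let v : IsDedekindDomain.HeightOneSpectrum (𝓞 M) := ⟨Q, hQ, hQ0⟩
    have h1 := congrArg (FractionalIdeal.count M v) hI
    rw [FractionalIdeal.count_mul M v hn0 x.ne_zero, hspan,
      count_coeIdeal v _ (Mu22.map_ne_bot_of hnK), count_coeIdeal v I hI0] at h1
    have h2 : (p : ℤ) ∣ (((normalizedFactors ((Ideal.span {(n : 𝓞 K)}).map
        (algebraMap (𝓞 K) (𝓞 M)))).count v.asIdeal : ℕ) : ℤ) := by
      have h3 := dvd_count_map (K := K) Q hQ (Ideal.span {(n : 𝓞 K)}) hnK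
      rw [ram_eq hp hd hQ he] at h3
      exact_mod_cast h3
    have h4 := dvd_add h2 (hc v he)
    rw [h1] at h4
    exact_mod_cast h4
  obtain ⟨J, hJ0, hJ⟩ := invariant_ideal hp hd I hI0 hinv hcount
  have hJ1 : (J : FractionalIdeal (𝓞 K)⁰ K) ≠ 0 := by
    rw [Ne, FractionalIdeal.coeIdeal_eq_zero]
    exact hJ0
  have hnK1 : FractionalIdeal.spanSingleton (𝓞 K)⁰ (n : K) ≠ 0 := by
    rw [Ne, FractionalIdeal.spanSingleton_eq_zero_iff]
    exact_mod_cast hn
  refine ⟨(Units.mk0 _ hnK1)⁻¹ * Units.mk0 _ hJ1, ?_⟩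
  have h5 : extU K M (Units.mk0 _ hnK1) * x = extU K M (Units.mk0 _ hJ1) := by
    apply Units.ext
    rw [Units.val_mul, extU_coe, extU_coe, Units.val_mk0, Units.val_mk0, ext_span, map_natCast, hI,
      FractionalIdeal.extendedHom_coeIdeal_eq_map, hJ]
  rw [map_mul, map_inv, ← h5, inv_mul_cancel_left]

end Frac

section Index

variable {K M : Type*} [Field K] [NumberField K] [Field M] [NumberField M] [Algebra K M]

theorem ramSet_fin : (RamSet K M).Finite := by
  have hD : differentIdeal (𝓞 K) (𝓞 M) ≠ 0 := differentIdeal_ne_bot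
  have hf := Ideal.finite_factors hD
  refine (hf.image (fun v => v.asIdeal)).subset ?_
  rintro Q ⟨hQ, hQ0, he⟩
  refine ⟨⟨Q, hQ, hQ0⟩, ?_, rfl⟩
  change Q ∣ differentIdeal (𝓞 K) (𝓞 M)
  by_contra hdvd
  have h := not_dvd_differentIdeal_iff.mp hdvd
  exact he (Q.ramificationIdx_eq_one (𝓞 K))

/-- the multiplicities at the ramified primes, modulo `p` -/
noncomputable def cnt (K M : Type*) [Field K] [NumberField K] [Field M] [NumberField M]
    [Algebra K M] (p : ℕ) : (FractionalIdeal (𝓞 M)⁰ M)ˣ →*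
      (RamSet K M → Multiplicative (ZMod p)) where
  toFun x := fun Q => Multiplicative.ofAdd
    ((FractionalIdeal.count M ⟨Q.1, Q.2.1, Q.2.2.1⟩ (x : FractionalIdeal (𝓞 M)⁰ M) : ℤ) : ZMod p)
  map_one' := by
    funext Q
    rw [Units.val_one, FractionalIdeal.count_one]
    simp
  map_mul' x y := by
    funext Q
    rw [Units.val_mul, FractionalIdeal.count_mul M _ x.ne_zero y.ne_zero]
    simp

theorem cnt_ker {p : ℕ} (x : (FractionalIdeal (𝓞 M)⁰ M)ˣ) (hx : x ∈ (cnt K M p).ker)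
    (v : IsDedekindDomain.HeightOneSpectrum (𝓞 M)) (hv : v.asIdeal.ramificationIdx (𝓞 K) ≠ 1) :
    (p : ℤ) ∣ FractionalIdeal.count M v (x : FractionalIdeal (𝓞 M)⁰ M) := by
  have h := congrFun ((MonoidHom.mem_ker).mp hx) ⟨v.asIdeal, v.isPrime, v.ne_bot, hv⟩
  rw [← ZMod.intCast_zmod_eq_zero_iff_dvd]
  exact Multiplicative.ofAdd.injective h

variable [IsGalois K M] {p : ℕ}

theorem relIndex_range_dvd (hp : p.Prime) (hd : finrank K M = p)
    (Dinv : Subgroup (FractionalIdeal (𝓞 M)⁰ M)ˣ)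
    (hDinv : ∀ x : (FractionalIdeal (𝓞 M)⁰ M)ˣ, x ∈ Dinv ↔ ∀ g : Gal(M/K),
      FractionalIdeal.ringEquivOfRingEquiv M M (MulSemiringAction.toRingEquiv Gal(M/K) (𝓞 M) g)
        (x : FractionalIdeal (𝓞 M)⁰ M) = x) :
    (extU K M).range.relIndex Dinv ∣ p ^ (RamSet K M).ncard := by
  have : NeZero p := ⟨hp.ne_zero⟩
  have : Finite (RamSet K M) := ramSet_fin
  have : Fintype (RamSet K M) := Fintype.ofFinite _
  have hle : (cnt K M p).ker ⊓ Dinv ≤ (extU K M).range := by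
    rintro x ⟨hx1, hx2⟩
    exact mem_range_ext hp hd x ((hDinv x).mp hx2) (cnt_ker x hx1)
  have h1 := Subgroup.relIndex_dvd_of_le_left Dinv hle
  rw [Subgroup.inf_relIndex_right, Subgroup.relIndex_ker] at h1
  refine h1.trans ((Subgroup.card_subgroup_dvd_card _).trans ?_)
  rw [Nat.card_fun, Set.ncard_eq_toFinset_card', Nat.card_eq_fintype_card,
    Nat.card_eq_fintype_card]
  simp [ZMod.card]

omit [IsGalois K M] in
theorem map_principal (P0 : Subgroup (FractionalIdeal (𝓞 M)⁰ M)ˣ)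
    (hP0 : ∀ x : (FractionalIdeal (𝓞 M)⁰ M)ˣ, x ∈ P0 ↔ ∃ y : K, y ≠ 0 ∧
      (x : FractionalIdeal (𝓞 M)⁰ M) = FractionalIdeal.spanSingleton (𝓞 M)⁰ (algebraMap K M y)) :
    P0 = Subgroup.map (extU K M) (toPrincipalIdeal (𝓞 K) K).range := by
  ext x
  rw [hP0, Subgroup.mem_map]
  constructor
  · rintro ⟨y, hy, hx⟩
    refine ⟨toPrincipalIdeal (𝓞 K) K (Units.mk0 y hy), ⟨_, rfl⟩, ?_⟩
    apply Units.ext
    rw [extU_coe, coe_toPrincipalIdeal, Units.val_mk0, ext_span, hx]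
  · rintro ⟨_, ⟨y, rfl⟩, rfl⟩
    refine ⟨y, y.ne_zero, ?_⟩
    rw [extU_coe, coe_toPrincipalIdeal, ext_span]

omit [IsGalois K M] in
theorem relIndex_principal_dvd (P0 : Subgroup (FractionalIdeal (𝓞 M)⁰ M)ˣ)
    (hP0 : ∀ x : (FractionalIdeal (𝓞 M)⁰ M)ˣ, x ∈ P0 ↔ ∃ y : K, y ≠ 0 ∧
      (x : FractionalIdeal (𝓞 M)⁰ M) = FractionalIdeal.spanSingleton (𝓞 M)⁰ (algebraMap K M y)) :
    P0.relIndex (extU K M).range ∣ Nat.card (ClassGroup (𝓞 K)) := by
  have h1 : (toPrincipalIdeal (𝓞 K) K).range.index = Nat.card (ClassGroup (𝓞 K)) :=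
    (Nat.card_congr (ClassGroup.equiv K).toEquiv).symm
  rw [map_principal P0 hP0, MonoidHom.range_eq_map (extU K M), Subgroup.relIndex_map_map,
    top_sup_eq, Subgroup.relIndex_top_right, ← h1]
  exact Subgroup.index_dvd_of_le le_sup_left

end Index

end Inv

/-- N3: invariant fractional ideals; `J` runs over the fractional ideals of `K`.
`Dinv` = invariant fractional ideals, `P0` = fractional ideals of `M` generated by elements
of `K` -/
theorem relIndex_inv (K M : Type*) [Field K] [NumberField K] [Field M] [NumberField M]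
    [Algebra K M] [IsGalois K M] {p : ℕ} (hp : p.Prime) (hd : finrank K M = p)
    (Dinv P0 : Subgroup (FractionalIdeal (𝓞 M)⁰ M)ˣ)
    (hDinv : ∀ x : (FractionalIdeal (𝓞 M)⁰ M)ˣ, x ∈ Dinv ↔ ∀ g : Gal(M/K),
      FractionalIdeal.ringEquivOfRingEquiv M M (MulSemiringAction.toRingEquiv Gal(M/K) (𝓞 M) g)
        (x : FractionalIdeal (𝓞 M)⁰ M) = x)
    (hP0 : ∀ x : (FractionalIdeal (𝓞 M)⁰ M)ˣ, x ∈ P0 ↔ ∃ y : K, y ≠ 0 ∧
      (x : FractionalIdeal (𝓞 M)⁰ M) = FractionalIdeal.spanSingleton (𝓞 M)⁰ (algebraMap K M y)) :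
    P0.relIndex Dinv ≠ 0 ∧
      padicValNat p (P0.relIndex Dinv) ≤
        padicValNat p (Nat.card (ClassGroup (𝓞 K))) + (RamSet K M).ncard := by
  have : Fact p.Prime := ⟨hp⟩
  have h1 := Inv.relIndex_range_dvd hp hd Dinv hDinv
  have h2 := Inv.relIndex_principal_dvd P0 hP0
  have hle1 : P0 ≤ (Inv.extU K M).range := by
    rw [Inv.map_principal P0 hP0]
    exact Subgroup.map_le_range _ _
  have hle2 : (Inv.extU K M).range ≤ Dinv := by
    rintro _ ⟨u, rfl⟩
    exact (hDinv _).mpr fun g => Inv.act_ext g u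
  have hc : Nat.card (ClassGroup (𝓞 K)) ≠ 0 := Nat.card_pos.ne'
  have hpn : p ^ (RamSet K M).ncard ≠ 0 := pow_ne_zero _ hp.ne_zero
  have hdvd : P0.relIndex Dinv ∣ Nat.card (ClassGroup (𝓞 K)) * p ^ (RamSet K M).ncard := by
    rw [← Subgroup.relIndex_mul_relIndex P0 _ Dinv hle1 hle2]
    exact mul_dvd_mul h2 h1
  have hne : P0.relIndex Dinv ≠ 0 := ne_zero_of_dvd_ne_zero (mul_ne_zero hc hpn) hdvd
  refine ⟨hne, ?_⟩
  have h3 := (padicValNat_dvd_iff_le (p := p) (mul_ne_zero hc hpn)).mp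
    (pow_padicValNat_dvd.trans hdvd)
  rwa [padicValNat.mul hc hpn, padicValNat.prime_pow] at h3

end Pool.Agent.Work.MuI
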