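import Pool.Agent.Work.MP_a4986b_nt.IDefs

set_option autoImplicit false
set_option maxHeartbeats 400000

/-! # N1, N2: Galois action and norm on class groups -/

namespace Pool.Agent.Work.MuI

open NumberField Module
open scoped Pointwise nonZeroDivisors

section Cl

theorem ringEquiv_coeIdeal {R S : Type*} (K L : Type*) [CommRing R] [IsDomain R] [CommRing S]
    [IsDomain S] [Field K] [Field L] [Algebra R K] [Algebra S L] [IsFractionRing R K]
    [IsFractionRing S L] (f : R ≃+* S) (I : Ideal R) :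
    FractionalIdeal.ringEquivOfRingEquiv K L f (I : FractionalIdeal R⁰ K) =
      ((I.map (f : R →+* S) : Ideal S) : FractionalIdeal S⁰ L) := by
  ext x
  rw [← FractionalIdeal.mem_coe, FractionalIdeal.ringEquivOfRingEquiv_apply,
    FractionalIdeal.mem_coeIdeal]
  constructor
  · intro hx
    obtain ⟨y, hy, rfl⟩ := Submodule.mem_map.1 hx
    obtain ⟨z, hz, rfl⟩ := (FractionalIdeal.mem_coeIdeal _).1 hy
    refine ⟨f z, Ideal.mem_map_of_mem _ hz, ?_⟩
    simp [IsFractionRing.semilinearEquivOfRingEquiv_apply]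
  · rintro ⟨y, hy, rfl⟩
    obtain ⟨z, hz, rfl⟩ := (Ideal.mem_map_iff_of_surjective (f : R →+* S) f.surjective).1 hy
    refine Submodule.mem_map.2 ⟨algebraMap R K z, (FractionalIdeal.mem_coeIdeal _).2 ⟨z, hz, rfl⟩,
      ?_⟩
    simp [IsFractionRing.semilinearEquivOfRingEquiv_apply]

variable {K M : Type*} [Field K] [NumberField K] [Field M] [NumberField M] [Algebra K M]

/-- N1 -/
theorem clAct_mk0 (g : Gal(M/K)) (I : (Ideal (𝓞 M))⁰) (J : (Ideal (𝓞 M))⁰)
    (h : (J : Ideal (𝓞 M)) = g • (I : Ideal (𝓞 M))) :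
    clAct g (ClassGroup.mk0 I) = ClassGroup.mk0 J := by
  apply (ClassGroup.equiv (FractionRing (𝓞 M))).injective
  rw [clAct, ClassGroup.mulEquiv]
  simp only [MulEquiv.trans_apply, MulEquiv.apply_symm_apply, ClassGroup.equiv_mk0]
  rw [QuotientGroup.mk'_apply, QuotientGroup.congr_mk, QuotientGroup.mk'_apply]
  congr 1
  apply Units.ext
  rw [Units.coe_mapEquiv, FractionalIdeal.coe_mk0, FractionalIdeal.coe_mk0]
  have := ringEquiv_coeIdeal (FractionRing (𝓞 M)) (FractionRing (𝓞 M))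
    (MulSemiringAction.toRingEquiv Gal(M/K) (𝓞 M) g) (I : Ideal (𝓞 M))
  rw [h]
  exact this

/-- N1 -/
theorem clAct_mul (g h : Gal(M/K)) (c : ClassGroup (𝓞 M)) :
    clAct (g * h) c = clAct g (clAct h c) := by
  obtain ⟨I, rfl⟩ := ClassGroup.mk0_surjective c
  have hne : ∀ (g : Gal(M/K)) (I : (Ideal (𝓞 M))⁰), g • (I : Ideal (𝓞 M)) ∈ (Ideal (𝓞 M))⁰ := by
    intro g I
    rw [mem_nonZeroDivisors_iff_ne_zero]
    intro h0
    have h1 : (I : Ideal (𝓞 M)) = 0 := by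
      have := congrArg (fun J => g⁻¹ • J) h0
      simpa using this
    exact (mem_nonZeroDivisors_iff_ne_zero.1 I.2) h1
  rw [clAct_mk0 h I ⟨_, hne h I⟩ rfl, clAct_mk0 g ⟨_, hne h I⟩ ⟨_, hne g ⟨_, hne h I⟩⟩ rfl]
  exact clAct_mk0 (g * h) I _ (by simp [mul_smul])

/-- N1 -/
theorem clAct_one : clAct (1 : Gal(M/K)) = 1 := by
  ext c
  obtain ⟨I, rfl⟩ := ClassGroup.mk0_surjective c
  rw [clAct_mk0 1 I I (by simp)]
  rfl

/-- N1 -/
theorem clAct_pow (g : Gal(M/K)) (n : ℕ) : clAct (g ^ n) = (clAct g) ^ n := by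
  induction n with
  | zero => rw [pow_zero, pow_zero, clAct_one]
  | succ n ih =>
    ext c
    rw [pow_succ, pow_succ, clAct_mul, ih]
    rfl

omit [NumberField K] [NumberField M] in
theorem smul_mem_nzd (g : Gal(M/K)) (I : (Ideal (𝓞 M))⁰) :
    g • (I : Ideal (𝓞 M)) ∈ (Ideal (𝓞 M))⁰ := by
  rw [mem_nonZeroDivisors_iff_ne_zero]
  intro h0
  have h1 : (I : Ideal (𝓞 M)) = 0 := by
    have := congrArg (fun J => g⁻¹ • J) h0
    simpa using this
  exact (mem_nonZeroDivisors_iff_ne_zero.1 I.2) h1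

theorem algebraMap_intNorm_prod [IsGalois K M] (x : 𝓞 M) :
    algebraMap (𝓞 K) (𝓞 M) (Algebra.intNorm (𝓞 K) (𝓞 M) x) = ∏ g : Gal(M/K), g • x := by
  apply FaithfulSMul.algebraMap_injective (𝓞 M) M
  rw [← IsScalarTower.algebraMap_apply, IsScalarTower.algebraMap_apply (𝓞 K) K M,
    Algebra.algebraMap_intNorm (A := 𝓞 K) (K := K) (L := M) (B := 𝓞 M),
    Algebra.norm_eq_prod_automorphisms, map_prod]
  rfl

omit [NumberField K] [NumberField M] in
theorem smulComm : SMulCommClass Gal(M/K) (𝓞 K) (𝓞 M) := by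
  refine ⟨fun g a x => ?_⟩
  rw [Algebra.smul_def, Algebra.smul_def, smul_mul']
  congr 1
  apply FaithfulSMul.algebraMap_injective (𝓞 M) M
  exact g.commutes (algebraMap (𝓞 K) K a)

theorem relNorm_smul_ideal (g : Gal(M/K)) (I : Ideal (𝓞 M)) :
    Ideal.relNorm (𝓞 K) (g • I) = Ideal.relNorm (𝓞 K) I := by
  have := smulComm (K := K) (M := M)
  exact Ideal.relNorm_smul (𝓞 K) g I

theorem absNorm_smul_ideal (g : Gal(M/K)) (I : Ideal (𝓞 M)) :
    Ideal.absNorm (g • I) = Ideal.absNorm I := by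
  rw [← Ideal.absNorm_relNorm (R := 𝓞 K) (I := g • I), relNorm_smul_ideal, Ideal.absNorm_relNorm]

/-- the extension of the relative norm is the product of the conjugates -/
theorem map_relNorm_eq_prod [IsGalois K M] (I : Ideal (𝓞 M)) (hI : I ≠ ⊥) :
    (Ideal.relNorm (𝓞 K) I).map (algebraMap (𝓞 K) (𝓞 M)) = ∏ g : Gal(M/K), g • I := by
  have hdvd : (∏ g : Gal(M/K), g • I) ∣
      (Ideal.relNorm (𝓞 K) I).map (algebraMap (𝓞 K) (𝓞 M)) := by
    rw [Ideal.dvd_iff_le, Ideal.map_relNorm, Ideal.span_le]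
    rintro _ ⟨x, hx, rfl⟩
    rw [Function.comp_apply, algebraMap_intNorm_prod]
    exact Ideal.prod_mem_prod fun g _ => Ideal.smul_mem_pointwise_smul g x I hx
  have hcard : Fintype.card Gal(M/K) = finrank (𝓞 K) (𝓞 M) := by
    rw [← Nat.card_eq_fintype_card, IsGalois.card_aut_eq_finrank,
      IsFractionRing.finrank_eq (𝓞 K) K (𝓞 M) M]
  have hN : Ideal.absNorm (∏ g : Gal(M/K), g • I) =
      Ideal.absNorm ((Ideal.relNorm (𝓞 K) I).map (algebraMap (𝓞 K) (𝓞 M))) := by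
    rw [map_prod, Ideal.absNorm_algebraMap, Ideal.absNorm_relNorm]
    simp only [absNorm_smul_ideal]
    rw [Finset.prod_const, Finset.card_univ, hcard]
  obtain ⟨C, hC⟩ := hdvd
  have hne : Ideal.absNorm ((Ideal.relNorm (𝓞 K) I).map (algebraMap (𝓞 K) (𝓞 M))) ≠ 0 := by
    rw [Ideal.absNorm_algebraMap, Ideal.absNorm_relNorm]
    exact pow_ne_zero _ (fun h => hI (Ideal.absNorm_eq_zero_iff.1 h))
  have hC1 : Ideal.absNorm C = 1 := by
    have h1 := congrArg Ideal.absNorm hC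
    rw [map_mul, hN] at h1
    exact (Nat.eq_of_mul_eq_mul_left (Nat.pos_of_ne_zero hne) (by rw [mul_one]; exact h1)).symm
  rw [hC, Ideal.absNorm_eq_one_iff.1 hC1, Ideal.mul_top]

/-- N2: the norm on classes (`Ideal.relNorm`) -/
theorem exists_clNorm (K M : Type*) [Field K] [NumberField K] [Field M] [NumberField M]
    [Algebra K M] : ∃ N : ClassGroup (𝓞 M) →* ClassGroup (𝓞 K),
      (∀ c : ClassGroup (𝓞 K), N (ClassGroup.extendedHom (𝓞 K) (𝓞 M) c) = c ^ finrank K M) ∧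
      (∀ (g : Gal(M/K)) (c : ClassGroup (𝓞 M)), N (clAct g c) = N c) ∧
      (IsGalois K M → ∀ c : ClassGroup (𝓞 M), ClassGroup.extendedHom (𝓞 K) (𝓞 M) (N c) =
        ∏ g : Gal(M/K), clAct g c) := by
  classical
  have hne : ∀ I : (Ideal (𝓞 M))⁰, Ideal.relNorm (𝓞 K) (I : Ideal (𝓞 M)) ∈ (Ideal (𝓞 K))⁰ := by
    intro I
    rw [mem_nonZeroDivisors_iff_ne_zero]
    exact fun h => (mem_nonZeroDivisors_iff_ne_zero.1 I.2) (Ideal.relNorm_eq_bot_iff.1 h)
  let ν : (Ideal (𝓞 M))⁰ →* ClassGroup (𝓞 K) :=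
    { toFun := fun I => ClassGroup.mk0 ⟨_, hne I⟩
      map_one' := by
        rw [← map_one (ClassGroup.mk0 (R := 𝓞 K))]
        congr 1
        apply Subtype.ext
        simp
      map_mul' := by
        intro I J
        rw [← map_mul]
        congr 1
        apply Subtype.ext
        simp }
  have hν : ∀ I J : (Ideal (𝓞 M))⁰, ClassGroup.mk0 I = ClassGroup.mk0 J → ν I = ν J := by
    intro I J h
    obtain ⟨x, y, hx, hy, hxy⟩ := ClassGroup.mk0_eq_mk0_iff.1 h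
    refine ClassGroup.mk0_eq_mk0_iff.2 ⟨Algebra.intNorm (𝓞 K) (𝓞 M) x,
      Algebra.intNorm (𝓞 K) (𝓞 M) y, ?_, ?_, ?_⟩
    · exact Algebra.intNorm_ne_zero.2 hx
    · exact Algebra.intNorm_ne_zero.2 hy
    · have h1 := congrArg (Ideal.relNorm (𝓞 K)) hxy
      rwa [map_mul, map_mul, Ideal.relNorm_singleton, Ideal.relNorm_singleton] at h1
  choose r hr using ClassGroup.mk0_surjective (R := 𝓞 M)
  let N : ClassGroup (𝓞 M) →* ClassGroup (𝓞 K) :=
    { toFun := fun c => ν (r c)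
      map_one' := by
        rw [← map_one ν]
        exact hν _ _ (by rw [hr, map_one])
      map_mul' := by
        intro a b
        rw [← map_mul ν]
        exact hν _ _ (by rw [hr, map_mul, hr, hr]) }
  have hN : ∀ I : (Ideal (𝓞 M))⁰, N (ClassGroup.mk0 I) = ClassGroup.mk0 ⟨_, hne I⟩ :=
    fun I => hν _ _ (hr _)
  refine ⟨N, ?_, ?_, ?_⟩
  · intro c
    obtain ⟨I, rfl⟩ := ClassGroup.mk0_surjective c
    rw [ClassGroup.extendedHom_mk0, hN, ← map_pow]
    congr 1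
    apply Subtype.ext
    rw [SubmonoidClass.coe_pow, IsFractionRing.finrank_eq (𝓞 K) K (𝓞 M) M]
    exact Ideal.relNorm_algebraMap (𝓞 M) (I : Ideal (𝓞 K))
  · intro g c
    obtain ⟨I, rfl⟩ := ClassGroup.mk0_surjective c
    rw [clAct_mk0 g I ⟨_, smul_mem_nzd g I⟩ rfl, hN, hN]
    congr 1
    apply Subtype.ext
    exact relNorm_smul_ideal g (I : Ideal (𝓞 M))
  · intro hG c
    obtain ⟨I, rfl⟩ := ClassGroup.mk0_surjective c
    have h1 : ∀ g : Gal(M/K), clAct g (ClassGroup.mk0 I) =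
        ClassGroup.mk0 ⟨_, smul_mem_nzd g I⟩ := fun g => clAct_mk0 g I ⟨_, smul_mem_nzd g I⟩ rfl
    rw [hN, ClassGroup.extendedHom_mk0]
    simp only [h1]
    rw [← map_prod]
    congr 1
    apply Subtype.ext
    rw [Submonoid.coe_finsetProd]
    exact map_relNorm_eq_prod (I : Ideal (𝓞 M)) (mem_nonZeroDivisors_iff_ne_zero.1 I.2)

end Cl

end Pool.Agent.Work.MuI
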