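import Pool.Agent.Work.MP_a4986b_nt.IDefs
import Pool.Agent.Work.MP_a4986b_nt.ICount
import Pool.Agent.Work.MP_a4986b_nt.Cyc

set_option autoImplicit false
set_option maxHeartbeats 400000

/-! # C2, C3: primes and ramified primes in the layers -/

namespace Pool.Agent.Work.MuI

open NumberField Module
open scoped Pointwise nonZeroDivisors

section Fin

variable {K : Type*} [Field K] [NumberField K]

theorem finite_primes_mem (n : ℕ) (hn : n ≠ 0) :
    {Q : Ideal (𝓞 K) | Q.IsPrime ∧ (n : 𝓞 K) ∈ Q}.Finite := by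
  have h0 : (Ideal.span {(n : 𝓞 K)}) ≠ 0 := by
    rw [Ne, Ideal.zero_eq_bot, Ideal.span_singleton_eq_bot]
    exact_mod_cast hn
  have hf : Finite {I : Ideal (𝓞 K) // I ∣ Ideal.span {(n : 𝓞 K)}} :=
    @Finite.of_fintype _ (UniqueFactorizationMonoid.fintypeSubtypeDvd _ h0)
  have : {I : Ideal (𝓞 K) | I ∣ Ideal.span {(n : 𝓞 K)}}.Finite := hf
  refine this.subset ?_
  rintro Q ⟨-, hQ⟩
  rw [Set.mem_ofPred_eq, Ideal.dvd_iff_le, Ideal.span_singleton_le_iff_mem]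
  exact hQ

theorem exists_prime_mem (Q : Ideal (𝓞 K)) (hQ : Q.IsPrime) (h0 : Q ≠ ⊥) :
    ∃ l : ℕ, l.Prime ∧ (l : 𝓞 K) ∈ Q := by
  have key : ∀ n : ℕ, n ≠ 0 → (n : 𝓞 K) ∈ Q → ∃ l : ℕ, l.Prime ∧ (l : 𝓞 K) ∈ Q := by
    intro n
    induction n using Nat.strong_induction_on with
    | _ n ih =>
      intro hn hmem
      have h1 : n ≠ 1 := by
        rintro rfl
        exact hQ.ne_top ((Ideal.eq_top_iff_one Q).2 (by simpa using hmem))
      have hp := Nat.minFac_prime h1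
      obtain ⟨m, hm⟩ := Nat.minFac_dvd n
      have hmem' : ((n.minFac : ℕ) : 𝓞 K) * (m : 𝓞 K) ∈ Q := by
        rw [← Nat.cast_mul, ← hm]
        exact hmem
      rcases hQ.mem_or_mem hmem' with h | h
      · exact ⟨_, hp, h⟩
      · have hm0 : m ≠ 0 := by
          rintro rfl
          exact hn (by rw [hm, mul_zero])
        refine ih m ?_ hm0 h
        conv_rhs => rw [hm]
        have := hp.two_le
        nlinarith [Nat.pos_of_ne_zero hm0]
  refine key (Ideal.absNorm Q) ?_ (Ideal.absNorm_mem Q)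
  rwa [Ne, Ideal.absNorm_eq_zero_iff]

theorem ramSet_fin (F L : Type*) [Field F] [NumberField F] [Field L] [NumberField L]
    [Algebra F L] : (RamSet F L).Finite := by
  have h0 : differentIdeal (𝓞 F) (𝓞 L) ≠ 0 := differentIdeal_ne_bot
  have hf : Finite {I : Ideal (𝓞 L) // I ∣ differentIdeal (𝓞 F) (𝓞 L)} :=
    @Finite.of_fintype _ (UniqueFactorizationMonoid.fintypeSubtypeDvd _ h0)
  have : {I : Ideal (𝓞 L) | I ∣ differentIdeal (𝓞 F) (𝓞 L)}.Finite := hf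
  refine this.subset ?_
  rintro Q ⟨hQ, hQ0, hr⟩
  rw [Set.mem_ofPred_eq]
  by_contra hd
  apply hr
  have key : Algebra.IsUnramifiedAt (𝓞 F) Q := by
    rw [← not_dvd_differentIdeal_iff]
    exact hd
  exact Ideal.ramificationIdx_eq_one Q (𝓞 F)

theorem ncard_primes_le_of_alg (K N : Type*) [Field K] [NumberField K] [Field N] [NumberField N]
    [Algebra K N] (l : ℕ) (hl : l ≠ 0) :
    {Q : Ideal (𝓞 K) | Q.IsPrime ∧ (l : 𝓞 K) ∈ Q}.ncard ≤
      {Q : Ideal (𝓞 N) | Q.IsPrime ∧ (l : 𝓞 N) ∈ Q}.ncard := by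
  have hsub : {Q : Ideal (𝓞 K) | Q.IsPrime ∧ (l : 𝓞 K) ∈ Q} ⊆
      (fun Q : Ideal (𝓞 N) => Q.under (𝓞 K)) ''
        {Q : Ideal (𝓞 N) | Q.IsPrime ∧ (l : 𝓞 N) ∈ Q} := by
    rintro Q ⟨hQ, hlQ⟩
    obtain ⟨⟨Q', hQ', hover⟩⟩ := (inferInstance : Nonempty (Ideal.primesOver Q (𝓞 N)))
    refine ⟨Q', ⟨hQ', ?_⟩, (Ideal.over_def Q' Q).symm⟩
    rw [Ideal.over_def Q' Q, Ideal.under_def, Ideal.mem_comap] at hlQ
    simpa using hlQ
  have hfin := finite_primes_mem (K := N) l hl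
  exact (Set.ncard_le_ncard hsub (hfin.image _)).trans (Set.ncard_image_le hfin)

end Fin

section Layers

variable {p : ℕ}

/-- the cyclotomic field above a layer -/
theorem layer_le_adjoin (hp : p.Prime) {m : ℕ} {E : IntermediateField ℚ ℂ} (hE : IsLayer p m E)
    {ζ : ℂ} (hζ : IsPrimitiveRoot ζ (p ^ (m + 1))) :
    E ≤ IntermediateField.adjoin ℚ {ζ} := by
  have hn0 : p ^ (m + 1) ≠ 0 := pow_ne_zero _ hp.ne_zero
  have hne : NeZero (p ^ (m + 1)) := ⟨hn0⟩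
  refine hE.1.trans ?_
  rw [IntermediateField.adjoin_le_iff]
  intro z hz
  obtain ⟨i, -, rfl⟩ := hζ.eq_pow_of_pow_eq_one hz
  exact pow_mem (IntermediateField.mem_adjoin_simple_self ℚ ζ) i

theorem fd_of_nf (F : IntermediateField ℚ ℂ) [NumberField F] : FiniteDimensional ℚ F := by
  have h1 : @FiniteDimensional ℚ F _ _ DivisionRing.toRatAlgebra.toModule := inferInstance
  have h2 : (DivisionRing.toRatAlgebra : Algebra ℚ F) = F.algebra' := Subsingleton.elim _ _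
  rwa [h2] at h1

/-- degree of `L(ζ)` -/
theorem finrank_sup_adjoin_le (L : IntermediateField ℚ ℂ) (n : ℕ) (hn : n ≠ 0) (ζ : ℂ)
    (hζ : IsPrimitiveRoot ζ n) :
    finrank ℚ ↥(L ⊔ IntermediateField.adjoin ℚ {ζ}) ≤ finrank ℚ L * n := by
  have hζint : IsIntegral ℚ ζ := (hζ.isIntegral (Nat.pos_of_ne_zero hn)).tower_top
  refine (IntermediateField.finrank_sup_le _ _).trans (Nat.mul_le_mul_left _ ?_)
  rw [IntermediateField.adjoin.finrank hζint]
  have h1 : minpoly ℚ ζ ∣ Polynomial.X ^ n - 1 := by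
    apply minpoly.dvd
    simp [hζ.pow_eq_one]
  have h2 := Polynomial.natDegree_le_of_dvd h1
    (Polynomial.X_pow_sub_C_ne_zero (Nat.pos_of_ne_zero hn) 1)
  refine h2.trans ?_
  exact (Polynomial.natDegree_X_pow_sub_C (n := n) (r := (1 : ℚ))).le

/-- C2: number of primes above `ℓ` in the layers -/
theorem ncard_primes_layer_le (hp : p.Prime) (l : ℕ) (hl : l.Prime) (L : IntermediateField ℚ ℂ)
    [NumberField L] : ∃ c : ℕ, ∀ (m : ℕ) (E : IntermediateField ℚ ℂ), IsLayer p m E →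
      {Q : Ideal (𝓞 ↥(L ⊔ E)) | Q.IsPrime ∧ (l : 𝓞 ↥(L ⊔ E)) ∈ Q}.ncard ≤ c := by
  obtain ⟨c, hc⟩ := ncard_primes_le hp l hl (finrank ℚ L)
  refine ⟨c, fun m E hE => ?_⟩
  have hn0 : p ^ (m + 1) ≠ 0 := pow_ne_zero _ hp.ne_zero
  obtain ⟨ζ, hζ⟩ : ∃ ζ : ℂ, IsPrimitiveRoot ζ (p ^ (m + 1)) :=
    ⟨_, Complex.isPrimitiveRoot_exp _ hn0⟩
  have hEC := layer_le_adjoin hp hE hζ
  have hdeg := finrank_sup_adjoin_le L (p ^ (m + 1)) hn0 ζ hζ
  have hζint : IsIntegral ℚ ζ := (hζ.isIntegral (Nat.pos_of_ne_zero hn0)).tower_top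
  have hζC : ζ ∈ IntermediateField.adjoin ℚ {ζ} := IntermediateField.mem_adjoin_simple_self ℚ ζ
  have hCfin : FiniteDimensional ℚ (IntermediateField.adjoin ℚ {ζ}) :=
    IntermediateField.adjoin.finiteDimensional hζint
  generalize IntermediateField.adjoin ℚ {ζ} = C at *
  have hLfin : FiniteDimensional ℚ L := fd_of_nf L
  have hNfin : FiniteDimensional ℚ ↥(L ⊔ C) := IntermediateField.finiteDimensional_sup L C
  have hNnf : NumberField ↥(L ⊔ C) := NumberField.of_module_finite ℚ _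
  have hle : L ⊔ E ≤ L ⊔ C := sup_le_sup_left hEC L
  have hΩfin : FiniteDimensional ℚ ↥(L ⊔ E) :=
    FiniteDimensional.of_injective (IntermediateField.inclusion hle).toLinearMap
      (IntermediateField.inclusion hle).injective
  have hΩnf : NumberField ↥(L ⊔ E) := NumberField.of_module_finite ℚ _
  let aΩN : Algebra ↥(L ⊔ E) ↥(L ⊔ C) := (IntermediateField.inclusion hle).toRingHom.toAlgebra
  refine (ncard_primes_le_of_alg ↥(L ⊔ E) ↥(L ⊔ C) l hl.ne_zero).trans ?_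
  have hζN : ζ ∈ L ⊔ C := (le_sup_right : C ≤ L ⊔ C) hζC
  refine hc ↥(L ⊔ C) (m + 1) ⟨ζ, hζN⟩ (by omega) ?_ ?_
  · exact IsPrimitiveRoot.of_map_of_injective (f := (L ⊔ C).val) (by exact hζ)
      (L ⊔ C).val.injective
  · rw [Mu22.cy_finrank _ ((L ⊔ C).module'), Mu22.cy_finrank _ (L.module')]
    exact hdeg

/-- a prime of `L E` not above `p` is unramified over `L` -/
theorem unram_layer (hp : p.Prime) (L : IntermediateField ℚ ℂ) [NumberField L] (m : ℕ)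
    (E : IntermediateField ℚ ℂ) (hE : IsLayer p m E) [NumberField ↥(L ⊔ E)] :
    letI : Algebra L ↥(L ⊔ E) :=
      (IntermediateField.inclusion (le_sup_left : L ≤ L ⊔ E)).toRingHom.toAlgebra
    Mu22.UnramOutside p L ↥(L ⊔ E) := by
  let aL : Algebra L ↥(L ⊔ E) :=
    (IntermediateField.inclusion (le_sup_left : L ≤ L ⊔ E)).toRingHom.toAlgebra
  have hn0 : p ^ (m + 1) ≠ 0 := pow_ne_zero _ hp.ne_zero
  obtain ⟨ζ, hζ⟩ : ∃ ζ : ℂ, IsPrimitiveRoot ζ (p ^ (m + 1)) :=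
    ⟨_, Complex.isPrimitiveRoot_exp _ hn0⟩
  have hEC := layer_le_adjoin hp hE hζ
  have hζint : IsIntegral ℚ ζ := (hζ.isIntegral (Nat.pos_of_ne_zero hn0)).tower_top
  have hζC : ζ ∈ IntermediateField.adjoin ℚ {ζ} := IntermediateField.mem_adjoin_simple_self ℚ ζ
  set C : IntermediateField ℚ ℂ := IntermediateField.adjoin ℚ {ζ} with hC
  have hCfin : FiniteDimensional ℚ C := IntermediateField.adjoin.finiteDimensional hζint
  have hLfin : FiniteDimensional ℚ L := fd_of_nf L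
  have hNfin : FiniteDimensional ℚ ↥(L ⊔ C) := IntermediateField.finiteDimensional_sup L C
  have hNnf : NumberField ↥(L ⊔ C) := NumberField.of_module_finite ℚ _
  have hle : L ⊔ E ≤ L ⊔ C := sup_le_sup_left hEC L
  let aΩN : Algebra ↥(L ⊔ E) ↥(L ⊔ C) := (IntermediateField.inclusion hle).toRingHom.toAlgebra
  let aN : Algebra L ↥(L ⊔ C) :=
    (IntermediateField.inclusion (le_sup_left : L ≤ L ⊔ C)).toRingHom.toAlgebra
  have hst : IsScalarTower L ↥(L ⊔ E) ↥(L ⊔ C) := IsScalarTower.of_algebraMap_eq (fun _ => rfl)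
  have hζN : ζ ∈ L ⊔ C := (le_sup_right : C ≤ L ⊔ C) hζC
  have hgen : Algebra.adjoin L {(⟨ζ, hζN⟩ : ↥(L ⊔ C))} = ⊤ := by
    refine Mu22.cy_gen L (L ⊔ C) ?_ ζ hζint rfl hζN
    intro y hy
    exact ⟨⟨y, hy⟩, rfl⟩
  refine Mu22.tw_unram_bot L ↥(L ⊔ E) ↥(L ⊔ C) ?_
  intro Q hQ hQ0 hpQ
  have hint : IsIntegral ℤ (⟨ζ, hζN⟩ : ↥(L ⊔ C)) := by
    refine IsIntegral.of_pow (Nat.pos_of_ne_zero hn0) ?_
    have : (⟨ζ, hζN⟩ : ↥(L ⊔ C)) ^ (p ^ (m + 1)) = 1 := Subtype.ext hζ.pow_eq_one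
    rw [this]
    exact isIntegral_one
  refine Mu22.cy_unram (p ^ (m + 1)) hn0 (⟨⟨ζ, hζN⟩, hint⟩ : 𝓞 ↥(L ⊔ C)) ?_ hgen Q hQ ?_
  · apply RingOfIntegers.ext
    exact Subtype.ext hζ.pow_eq_one
  · intro h
    apply hpQ
    rw [Nat.cast_pow] at h
    exact hQ.mem_of_pow_mem _ h

/-- in a square `A - B - D`, `A - C - D`: if `D / B` is unramified at `Q` and `B / A` at `Q ∩ B`
then `D / C` is unramified at `Q` -/
theorem ram_square (A B C D : Type*) [Field A] [NumberField A] [Field B] [NumberField B]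
    [Field C] [NumberField C] [Field D] [NumberField D] [Algebra A B] [Algebra B D] [Algebra A D]
    [Algebra A C] [Algebra C D] [IsScalarTower A B D] [IsScalarTower A C D]
    (Q : Ideal (𝓞 D)) (h1 : Q.ramificationIdx (𝓞 B) = 1)
    (h2 : (Q.under (𝓞 B)).ramificationIdx (𝓞 A) = 1) :
    Q.ramificationIdx (𝓞 C) = 1 := by
  have h3 := Ideal.ramificationIdx_tower (R := 𝓞 A) (Q.under (𝓞 B)) Q
  have h4 := Ideal.ramificationIdx_tower (R := 𝓞 A) (Q.under (𝓞 C)) Q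
  rw [h1, h2] at h3
  rw [h3] at h4
  exact Nat.dvd_one.1 ⟨_, h4.trans (mul_comm _ _)⟩

/-- C3: number of ramified primes in the layers (`F` inside `ℂ`) -/
theorem ncard_ram_layer_le (hp : p.Prime) (F L : IntermediateField ℚ ℂ) (h : F ≤ L)
    [NumberField F] [NumberField L] : ∃ T : ℕ, ∀ (m : ℕ) (E : IntermediateField ℚ ℂ)
      (hE : IsLayer p m E) [NumberField ↥(F ⊔ E)] [NumberField ↥(L ⊔ E)],
      letI : Algebra ↥(F ⊔ E) ↥(L ⊔ E) :=
        (IntermediateField.inclusion (sup_le_sup_right h E)).toRingHom.toAlgebra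
      (RamSet ↥(F ⊔ E) ↥(L ⊔ E)).ncard ≤ T := by
  classical
  let aFL : Algebra F L := (IntermediateField.inclusion h).toRingHom.toAlgebra
  have hC2 : ∀ l : ℕ, ∃ c : ℕ, l.Prime → ∀ (m : ℕ) (E : IntermediateField ℚ ℂ), IsLayer p m E →
      {Q : Ideal (𝓞 ↥(L ⊔ E)) | Q.IsPrime ∧ (l : 𝓞 ↥(L ⊔ E)) ∈ Q}.ncard ≤ c := by
    intro l
    by_cases hl : l.Prime
    · obtain ⟨c, hc⟩ := ncard_primes_layer_le hp l hl L
      exact ⟨c, fun _ => hc⟩
    · exact ⟨0, fun h => absurd h hl⟩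
  choose c hc using hC2
  have hfin : (RamSet F L).Finite := ramSet_fin F L
  have hex : ∀ q : Ideal (𝓞 L), ∃ l : ℕ, q ∈ RamSet F L → l.Prime ∧ (l : 𝓞 L) ∈ q := by
    intro q
    by_cases hq : q ∈ RamSet F L
    · obtain ⟨l, hl⟩ := exists_prime_mem q hq.1 hq.2.1
      exact ⟨l, fun _ => hl⟩
    · exact ⟨0, fun h => absurd h hq⟩
  choose g hg using hex
  let S : Finset ℕ := insert p (hfin.toFinset.image g)
  have hS : ∀ l ∈ S, l.Prime := by
    intro l hl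
    rcases Finset.mem_insert.1 hl with rfl | hl
    · exact hp
    · obtain ⟨q, hq, rfl⟩ := Finset.mem_image.1 hl
      exact (hg q (hfin.mem_toFinset.1 hq)).1
  refine ⟨∑ l ∈ S, c l, fun m E hE _ _ => ?_⟩
  let aM : Algebra ↥(F ⊔ E) ↥(L ⊔ E) :=
    (IntermediateField.inclusion (sup_le_sup_right h E)).toRingHom.toAlgebra
  have hsub : RamSet ↥(F ⊔ E) ↥(L ⊔ E) ⊆
      ⋃ l ∈ S, {Q : Ideal (𝓞 ↥(L ⊔ E)) | Q.IsPrime ∧ (l : 𝓞 ↥(L ⊔ E)) ∈ Q} := by
    rintro Q ⟨hQ, hQ0, hr⟩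
    rw [Set.mem_iUnion₂]
    by_cases hpQ : (p : 𝓞 ↥(L ⊔ E)) ∈ Q
    · exact ⟨p, Finset.mem_insert_self _ _, hQ, hpQ⟩
    · let aL : Algebra L ↥(L ⊔ E) :=
        (IntermediateField.inclusion (le_sup_left : L ≤ L ⊔ E)).toRingHom.toAlgebra
      let aF : Algebra F ↥(F ⊔ E) :=
        (IntermediateField.inclusion (le_sup_left : F ≤ F ⊔ E)).toRingHom.toAlgebra
      let aFT : Algebra F ↥(L ⊔ E) :=
        (IntermediateField.inclusion (h.trans (le_sup_left : L ≤ L ⊔ E))).toRingHom.toAlgebra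
      have t1 : IsScalarTower F L ↥(L ⊔ E) := IsScalarTower.of_algebraMap_eq (fun _ => rfl)
      have t2 : IsScalarTower F ↥(F ⊔ E) ↥(L ⊔ E) :=
        IsScalarTower.of_algebraMap_eq (fun _ => rfl)
      have hu := unram_layer hp L m E hE Q hQ hQ0 hpQ
      have hq : Q.under (𝓞 L) ∈ RamSet F L := by
        refine ⟨Ideal.IsPrime.under (𝓞 L) Q, ?_, ?_⟩
        · intro hbot
          exact hQ0 (Ideal.eq_bot_of_comap_eq_bot (R := 𝓞 L) hbot)
        · intro he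
          exact hr (ram_square F L ↥(F ⊔ E) ↥(L ⊔ E) Q hu he)
      refine ⟨g (Q.under (𝓞 L)), ?_, hQ, ?_⟩
      · exact Finset.mem_insert_of_mem (Finset.mem_image_of_mem g (hfin.mem_toFinset.2 hq))
      · have := (hg _ hq).2
        rw [Ideal.under_def, Ideal.mem_comap] at this
        simpa using this
  have hfinU : (⋃ l ∈ S, {Q : Ideal (𝓞 ↥(L ⊔ E)) |
      Q.IsPrime ∧ (l : 𝓞 ↥(L ⊔ E)) ∈ Q}).Finite := by
    refine Set.Finite.biUnion S.finite_toSet ?_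
    intro l hl
    exact finite_primes_mem l (hS l hl).ne_zero
  refine (Set.ncard_le_ncard hsub hfinU).trans ?_
  refine (Finset.set_ncard_biUnion_le S _).trans ?_
  exact Finset.sum_le_sum fun l hl => hc l (hS l hl) m E hE

end Layers

end Pool.Agent.Work.MuI
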