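import Pool.Agent.Work.MP_a4986b_nt.IDefs
import Pool.Agent.Work.MP_a4986b_nt.Herb70

set_option autoImplicit false
set_option maxHeartbeats 400000

/-! # G1: the rank of a finite commutative group with an action of a cyclic group of order `p` -/

namespace Pool.Agent.Work.MuI

open NumberField Module
open scoped Pointwise nonZeroDivisors

section Group

variable {X Y : Type*} [CommGroup X] [Finite X] [CommGroup Y] [Finite Y] {p : ℕ}

theorem g1_card_quot (hp : p.Prime) :
    Nat.card (X ⧸ (powMonoidHom p : X →* X).range) = p ^ rk p X := by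
  have := Fact.mk hp
  have h1 : IsPGroup p (X ⧸ (powMonoidHom p : X →* X).range) := by
    intro g
    refine ⟨1, ?_⟩
    induction g using QuotientGroup.induction_on with
    | H x =>
      rw [pow_one, ← QuotientGroup.mk_pow, QuotientGroup.eq_one_iff]
      exact ⟨x, rfl⟩
  obtain ⟨n, hn⟩ := IsPGroup.iff_card.1 h1
  unfold rk
  rw [hn, padicValNat.prime_pow]

theorem g1_card_ker_eq (f : X →* X) : Nat.card f.ker = f.range.index := by
  have h1 : Nat.card X = f.ker.index * Nat.card f.ker := by
    rw [mul_comm, Subgroup.card_mul_index]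
  have h2 : Nat.card X = f.range.index * Nat.card f.range := by
    rw [mul_comm, Subgroup.card_mul_index]
  have h3 : f.ker.index = Nat.card f.range := Subgroup.index_ker f
  have h4 : 0 < Nat.card f.range := Nat.card_pos
  rw [h3] at h1
  have h5 : Nat.card f.range * Nat.card f.ker = Nat.card f.range * f.range.index := by
    rw [← h1, h2, mul_comm]
  exact Nat.eq_of_mul_eq_mul_left h4 h5

theorem g1_card_tors (hp : p.Prime) :
    Nat.card (powMonoidHom p : X →* X).ker = p ^ rk p X := by
  rw [← g1_card_quot hp, g1_card_ker_eq]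
  rfl

theorem g1_rk_le_card (hp : p.Prime) : rk p X ≤ padicValNat p (Nat.card X) := by
  have := Fact.mk hp
  rw [← padicValNat_dvd_iff_le (Nat.card_pos.ne'), ← g1_card_tors hp]
  exact Subgroup.card_subgroup_dvd_card _

theorem g1_rk_subgroup (hp : p.Prime) (H : Subgroup X) : rk p H ≤ rk p X := by
  have h1 : Nat.card (powMonoidHom p : H →* H).ker ≤ Nat.card (powMonoidHom p : X →* X).ker := by
    apply Nat.card_le_card_of_injective
      (fun x : (powMonoidHom p : H →* H).ker =>
        (⟨((x : H) : X), by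
          have h := x.2
          rw [MonoidHom.mem_ker] at h ⊢
          exact congrArg Subtype.val h⟩ : (powMonoidHom p : X →* X).ker))
    intro x y h
    have h2 := congrArg Subtype.val h
    exact Subtype.ext (Subtype.ext h2)
  rw [g1_card_tors hp, g1_card_tors hp] at h1
  exact (Nat.pow_le_pow_iff_right hp.one_lt).1 h1

theorem g1_rk_exact (hp : p.Prime) (f : X →* Y) : rk p X ≤ rk p f.ker + rk p f.range := by
  -- the map `X[p] → (range f)[p]`
  set A := (powMonoidHom p : X →* X).ker with hA
  let φ : A →* (powMonoidHom p : f.range →* f.range).ker :=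
    { toFun := fun x => ⟨⟨f x, ⟨x, rfl⟩⟩, by
        rw [MonoidHom.mem_ker]
        apply Subtype.ext
        have h2 : (x : X) ^ p = 1 := x.2
        change (f (x : X)) ^ p = 1
        rw [← map_pow, h2, map_one]⟩
      map_one' := by
        apply Subtype.ext
        apply Subtype.ext
        exact map_one f
      map_mul' := fun x y => by
        apply Subtype.ext
        apply Subtype.ext
        exact map_mul f _ _ }
  have h1 : Nat.card A = Nat.card φ.ker * Nat.card φ.range := by
    rw [← Subgroup.index_ker φ, Subgroup.card_mul_index]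
  have h2 : Nat.card φ.range ≤ p ^ rk p f.range := by
    rw [← g1_card_tors hp]
    exact Nat.card_le_card_of_injective (fun x => x.1) Subtype.val_injective
  have h3 : Nat.card φ.ker ≤ p ^ rk p f.ker := by
    rw [← g1_card_tors hp]
    apply Nat.card_le_card_of_injective
      (fun x : φ.ker => (⟨⟨((x : A) : X), by
          have h := x.2
          rw [MonoidHom.mem_ker] at h ⊢
          exact congrArg Subtype.val (congrArg Subtype.val h)⟩, by
          rw [MonoidHom.mem_ker]
          apply Subtype.ext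
          have h : ((x : A) : X) ^ p = 1 := (x : A).2
          exact h⟩ : (powMonoidHom p : f.ker →* f.ker).ker))
    intro x y h
    have h2 := congrArg Subtype.val (congrArg Subtype.val h)
    exact Subtype.ext (Subtype.ext h2)
  have h4 : p ^ rk p X ≤ p ^ (rk p f.ker + rk p f.range) := by
    rw [← g1_card_tors hp, pow_add]
    calc Nat.card A = _ := h1
      _ ≤ _ := Nat.mul_le_mul h3 h2
  exact (Nat.pow_le_pow_iff_right hp.one_lt).1 h4

/-- powers of a nilpotent endomorphism -/
theorem g1_kc_pow {A : Type*} [AddCommGroup A] [Finite A] (D : AddMonoid.End A) (n : ℕ) :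
    MP_a4986b_nt.Herb.kc (D ^ n : AddMonoid.End A) ≤
      (MP_a4986b_nt.Herb.kc (D : A →+ A)) ^ n := by
  induction n with
  | zero =>
    rw [pow_zero, pow_zero]
    unfold MP_a4986b_nt.Herb.kc
    have : (AddMonoidHom.ker (1 : AddMonoid.End A)) = ⊥ := by
      rw [eq_bot_iff]
      intro x hx
      exact hx
    rw [this]
    simp
  | succ n ih =>
    rw [pow_succ, pow_succ]
    have h1 : ((D ^ n * D : AddMonoid.End A) : A →+ A) =
      AddMonoidHom.comp (D ^ n : AddMonoid.End A) (D : A →+ A) := rfl
    rw [h1, MP_a4986b_nt.Herb.kc_comp]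
    apply Nat.mul_le_mul _ le_rfl
    refine le_trans ?_ ih
    unfold MP_a4986b_nt.Herb.kc
    exact Nat.card_le_card_of_injective (fun x => x.1) Subtype.val_injective

/-- `x ↦ σ x / x` -/
def g1D (σ : X ≃* X) : X →* X where
  toFun x := σ x / x
  map_one' := by simp
  map_mul' a b := by simp [mul_div_mul_comm]

theorem g1_ring {R : Type*} [Ring R] (hp : p.Prime) (s : R) (hs : s ^ p = 1)
    (h0 : ∀ r : R, (p : R) * r = 0) : (s - 1) ^ p = 0 := by
  obtain ⟨r, hr⟩ := (Commute.neg_one_right s).exists_add_pow_prime_eq hp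
  have h1 : (1 : R) + (-1) ^ p = 0 := by
    rcases hp.eq_two_or_odd' with h2 | h2
    · have h3 := h0 1
      rw [h2] at h3 ⊢
      rw [mul_one] at h3
      rw [neg_one_sq, one_add_one_eq_two]
      exact_mod_cast h3
    · rw [h2.neg_one_pow, add_neg_cancel]
  rw [sub_eq_add_neg, hr, hs, h1, zero_add, mul_assoc, mul_assoc, h0]

theorem g1_rk_coinv (hp : p.Prime) (σ : X ≃* X) (hσ : σ ^ p = 1) :
    rk p X ≤ p * rk p (X ⧸ (g1D σ).range) := by
  have := Fact.mk hp
  set P := (powMonoidHom p : X →* X).range with hP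
  have hPσ : P ≤ P.comap (σ : X →* X) := by
    rintro _ ⟨x, rfl⟩
    exact ⟨σ x, (map_pow σ x p).symm⟩
  let q : X ⧸ P →* X ⧸ P := QuotientGroup.map P P (σ : X →* X) hPσ
  have hq : ∀ x : X, q (QuotientGroup.mk x) = QuotientGroup.mk (σ x) := fun x => rfl
  set s : AddMonoid.End (Additive (X ⧸ P)) := MonoidHom.toAdditive q with hs
  have hpow : ∀ (i : ℕ) (x : X), (s ^ i) (Additive.ofMul (QuotientGroup.mk x : X ⧸ P)) =
      Additive.ofMul (QuotientGroup.mk ((σ ^ i) x) : X ⧸ P) := by
    intro i
    induction i with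
    | zero => intro x; rfl
    | succ i ih =>
      intro x
      rw [pow_succ, pow_succ]
      exact ih (σ x)
  have hs1 : s ^ p = 1 := by
    apply AddMonoidHom.ext
    intro x
    obtain ⟨y, hy⟩ := QuotientGroup.mk_surjective x.toMul
    have hx : x = Additive.ofMul (QuotientGroup.mk y : X ⧸ P) := hy.symm
    rw [hx]
    refine (hpow p y).trans ?_
    rw [hσ]
    rfl
  have hp0 : ∀ r : AddMonoid.End (Additive (X ⧸ P)), (p : AddMonoid.End (Additive (X ⧸ P))) * r = 0 := by
    intro r
    apply AddMonoidHom.ext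
    intro x
    rw [← nsmul_eq_mul]
    obtain ⟨y, hy⟩ := QuotientGroup.mk_surjective (r x).toMul
    have hx : r x = Additive.ofMul (QuotientGroup.mk y : X ⧸ P) := hy.symm
    change p • (r x) = 0
    rw [hx]
    change Additive.ofMul ((QuotientGroup.mk y : X ⧸ P) ^ p) = 0
    rw [← QuotientGroup.mk_pow]
    have h1 : (QuotientGroup.mk (y ^ p) : X ⧸ P) = 1 := by
      rw [QuotientGroup.eq_one_iff]
      exact ⟨y, rfl⟩
    rw [h1]
    rfl
  set D : AddMonoid.End (Additive (X ⧸ P)) := s - 1 with hD
  have hDp : D ^ p = 0 := g1_ring hp s hs1 hp0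
  have h1 := g1_kc_pow D p
  rw [hDp] at h1
  have h2 : MP_a4986b_nt.Herb.kc ((0 : AddMonoid.End (Additive (X ⧸ P))) :
      Additive (X ⧸ P) →+ Additive (X ⧸ P)) = p ^ rk p X := by
    rw [← g1_card_quot hp]
    unfold MP_a4986b_nt.Herb.kc
    have h3 : (AddMonoidHom.ker (0 : AddMonoid.End (Additive (X ⧸ P)))) = ⊤ := by
      rw [eq_top_iff]
      intro x _
      rfl
    rw [h3]
    exact Nat.card_congr AddSubgroup.topEquiv.toEquiv
  have h3 : MP_a4986b_nt.Herb.kc (D : Additive (X ⧸ P) →+ Additive (X ⧸ P)) =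
      p ^ rk p (X ⧸ (g1D σ).range) := by
    let D' : X ⧸ P →* X ⧸ P :=
      { toFun := fun x => q x / x
        map_one' := by simp
        map_mul' := fun a b => by simp [mul_div_mul_comm] }
    have e1 : MP_a4986b_nt.Herb.kc (D : Additive (X ⧸ P) →+ Additive (X ⧸ P)) =
        Nat.card D'.ker := rfl
    have e2 : D'.range = (g1D σ).range.map (QuotientGroup.mk' P) := by
      ext z
      constructor
      · rintro ⟨y, rfl⟩
        obtain ⟨x, rfl⟩ := QuotientGroup.mk_surjective y
        exact ⟨g1D σ x, ⟨x, rfl⟩, rfl⟩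
      · rintro ⟨_, ⟨x, rfl⟩, rfl⟩
        exact ⟨QuotientGroup.mk x, rfl⟩
    have e3 : (powMonoidHom p : (X ⧸ (g1D σ).range) →* (X ⧸ (g1D σ).range)).range =
        P.map (QuotientGroup.mk' (g1D σ).range) := by
      ext z
      constructor
      · rintro ⟨y, rfl⟩
        obtain ⟨x, rfl⟩ := QuotientGroup.mk_surjective y
        exact ⟨x ^ p, ⟨x, rfl⟩, rfl⟩
      · rintro ⟨_, ⟨x, rfl⟩, rfl⟩
        exact ⟨QuotientGroup.mk x, rfl⟩
    have e4 : D'.range.index = ((g1D σ).range ⊔ P).index := by
      rw [e2, Subgroup.index_map, QuotientGroup.ker_mk', QuotientGroup.range_mk',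
        Subgroup.index_top, mul_one]
    have e5 : (powMonoidHom p : (X ⧸ (g1D σ).range) →* (X ⧸ (g1D σ).range)).range.index =
        ((g1D σ).range ⊔ P).index := by
      rw [e3, Subgroup.index_map, QuotientGroup.ker_mk', QuotientGroup.range_mk',
        Subgroup.index_top, mul_one, sup_comm]
    rw [e1, g1_card_ker_eq, e4, ← e5, ← g1_card_quot hp]
    rfl
  rw [h2, h3, ← pow_mul] at h1
  have h4 := (Nat.pow_le_pow_iff_right hp.one_lt).1 h1
  rwa [mul_comm] at h4

/-- G1 -/
theorem rk_le_of_action (hp : p.Prime) (σ : X ≃* X) (hσ : σ ^ p = 1) (N : X →* Y) (j : Y →* X)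
    (hNσ : ∀ x, N (σ x) = N x) (hNj : ∀ y, N (j y) = y ^ p) (t : ℕ)
    (hfix : padicValNat p (Nat.card {x : X // σ x = x}) ≤ padicValNat p (Nat.card Y) + t) :
    rk p X ≤ p * (2 * rk p Y + t) := by
  have := Fact.mk hp
  refine (g1_rk_coinv hp σ hσ).trans (Nat.mul_le_mul_left _ ?_)
  set D := g1D σ with hD
  have hND : D.range ≤ N.ker := by
    rintro _ ⟨x, rfl⟩
    rw [MonoidHom.mem_ker]
    change N (σ x / x) = 1
    rw [map_div, hNσ, div_self']
  let M : X ⧸ D.range →* Y := QuotientGroup.lift D.range N hND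
  have h1 := g1_rk_exact hp M
  have h2 : rk p M.range ≤ rk p Y := g1_rk_subgroup hp _
  have h3 : rk p M.ker ≤ padicValNat p (Nat.card M.ker) := g1_rk_le_card hp
  -- cardinalities
  have h4 : Nat.card (X ⧸ D.range) = Nat.card {x : X // σ x = x} := by
    have h5 : Nat.card (X ⧸ D.range) = D.range.index := rfl
    rw [h5, ← g1_card_ker_eq]
    apply Nat.card_congr
    refine Equiv.subtypeEquivRight fun x => ?_
    rw [MonoidHom.mem_ker]
    exact div_eq_one
  have h5 : Nat.card (X ⧸ D.range) = Nat.card M.ker * Nat.card M.range := by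
    rw [← Subgroup.index_ker M, Subgroup.card_mul_index]
  have h6 : padicValNat p (Nat.card (X ⧸ D.range)) =
      padicValNat p (Nat.card M.ker) + padicValNat p (Nat.card M.range) := by
    rw [h5, padicValNat.mul Nat.card_pos.ne' Nat.card_pos.ne']
  have h7 : (powMonoidHom p : Y →* Y).range ≤ M.range := by
    rintro _ ⟨y, rfl⟩
    refine ⟨QuotientGroup.mk (j y), ?_⟩
    exact hNj y
  have h8 : padicValNat p (Nat.card (powMonoidHom p : Y →* Y).range) ≤
      padicValNat p (Nat.card M.range) := by
    rw [← padicValNat_dvd_iff_le Nat.card_pos.ne']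
    exact (pow_padicValNat_dvd).trans (Subgroup.card_dvd_of_le h7)
  have h9 : padicValNat p (Nat.card Y) =
      padicValNat p (Nat.card (powMonoidHom p : Y →* Y).range) + rk p Y := by
    have h10 : Nat.card Y = Nat.card (powMonoidHom p : Y →* Y).range *
        Nat.card (Y ⧸ (powMonoidHom p : Y →* Y).range) :=
      (Subgroup.card_mul_index _).symm
    rw [h10, padicValNat.mul Nat.card_pos.ne' Nat.card_pos.ne']
    rfl
  rw [h4] at h6
  omega

end Group

end Pool.Agent.Work.MuI
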