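import Pool.Agent.Work.MP_a4986b_nt.IDefs
import Pool.Agent.Work.MP_a4986b_nt.Defs

set_option autoImplicit false
set_option maxHeartbeats 400000

/-! # Skeleton (statements only, NEVER import): Iwasawa's theorem on `p`-extensions, elementary

`p` odd, `h(F)` prime to `p`, one prime of `F` above `p`, `L / F` Galois of degree `p ^ n` with
arbitrary ramification, `L' ≤ L` with `p ∤ [L : L']`:
`v_p (h (L' Q_m)) ≤ C (m + 1)`, that is, `μ_p (L') = 0` (the frozen form of Q1 for `L'`). -/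

namespace Pool.Agent.Work.MuI

open NumberField Module
open scoped Pointwise nonZeroDivisors

attribute [local instance] Units.mulDistribMulActionRight

section Group

variable {X Y : Type*} [CommGroup X] [Finite X] [CommGroup Y] [Finite Y] {p : ℕ}

/-- G0: the ambiguous class inequality, abstract form: `Λ = M^*`, `𝓓` = fractional ideals,
`π` = principal ideals -/
theorem amb_abstract {Λ D : Type*} [CommGroup Λ] [CommGroup D] (hp : p.Prime) (π : Λ →* D)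
    (s : Λ ≃* Λ) (φ : D ≃* D) (hπ : ∀ x, π (s x) = φ (π x)) (hs : s ^ p = 1) (hφ : φ ^ p = 1)
    (h90 : ∀ x : Λ, ∏ i ∈ Finset.range p, (s ^ i) x = 1 → ∃ y, x = s y / y)
    (Dinv : Subgroup D) (hDinv : ∀ x, x ∈ Dinv ↔ φ x = x)
    (P0 : Subgroup D) (hP0 : ∀ x, x ∈ P0 ↔ ∃ y : Λ, s y = y ∧ π y = x)
    (EN EsE ENorm Efix : Subgroup Λ)
    (hEN : ∀ x, x ∈ EN ↔ π x = 1 ∧ ∏ i ∈ Finset.range p, (s ^ i) x = 1)
    (hEsE : ∀ x, x ∈ EsE ↔ ∃ y, π y = 1 ∧ x = s y / y)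
    (hENorm : ∀ x, x ∈ ENorm ↔ ∃ y, π y = 1 ∧ x = ∏ i ∈ Finset.range p, (s ^ i) y)
    (hEfix : ∀ x, x ∈ Efix ↔ π x = 1 ∧ s x = x)
    (h1 : ENorm.relIndex Efix ≠ 0) (h2 : EsE.relIndex EN ≠ 0)
    (h3 : p * ENorm.relIndex Efix ≤ EsE.relIndex EN)
    (h4 : P0.relIndex Dinv ≠ 0)
    (X : Type*) [CommGroup X] [Finite X] (q : D →* X) (hq : Function.Surjective q)
    (hqk : q.ker = π.range) (a : X ≃* X) (ha : ∀ x, q (φ x) = a (q x)) :
    padicValNat p (Nat.card {x : X // a x = x}) + 1 ≤ padicValNat p (P0.relIndex Dinv) := by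
  sorry

/-- G1 -/
theorem rk_le_of_action (hp : p.Prime) (σ : X ≃* X) (hσ : σ ^ p = 1) (N : X →* Y) (j : Y →* X)
    (hNσ : ∀ x, N (σ x) = N x) (hNj : ∀ y, N (j y) = y ^ p) (t : ℕ)
    (hfix : padicValNat p (Nat.card {x : X // σ x = x}) ≤ padicValNat p (Nat.card Y) + t) :
    rk p X ≤ p * (2 * rk p Y + t) := by
  sorry

/-- G2: growth -/
theorem val_le_of_trivial (hp : p.Prime) (hp2 : p ≠ 2) (σ : X ≃* X) (hσ : σ ^ p = 1)
    (N : X →* Y) (j : Y →* X) (hjN : ∀ x, j (N x) = ∏ i ∈ Finset.range p, (σ ^ i) x)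
    (htriv : ∀ x : X, ∃ y : X, σ x = x * y ^ p) :
    padicValNat p (Nat.card X) ≤ padicValNat p (Nat.card Y) + rk p X := by
  sorry

/-- G3: unipotence -/
theorem trivial_of_rk (hp : p.Prime) (σ : X ≃* X) (n : ℕ) (hσ : σ ^ (p ^ n) = 1) (k : ℕ)
    (hk : rk p X ≤ p ^ k) (x : X) : ∃ y : X, (σ ^ (p ^ k)) x = x * y ^ p := by
  sorry

/-- G4 -/
theorem rk_eq_zero (h : ¬ p ∣ Nat.card X) : rk p X = 0 := by
  sorry

end Group

section Cl

variable {K M : Type*} [Field K] [NumberField K] [Field M] [NumberField M] [Algebra K M]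

/-- N1 -/
theorem clAct_mk0 (g : Gal(M/K)) (I : (Ideal (𝓞 M))⁰) (J : (Ideal (𝓞 M))⁰)
    (h : (J : Ideal (𝓞 M)) = g • (I : Ideal (𝓞 M))) :
    clAct g (ClassGroup.mk0 I) = ClassGroup.mk0 J := by
  sorry

/-- N1 -/
theorem clAct_mul (g h : Gal(M/K)) (c : ClassGroup (𝓞 M)) :
    clAct (g * h) c = clAct g (clAct h c) := by
  sorry

/-- N1 -/
theorem clAct_pow (g : Gal(M/K)) (n : ℕ) : clAct (g ^ n) = (clAct g) ^ n := by
  sorry

/-- N1 -/
theorem clAct_one : clAct (1 : Gal(M/K)) = 1 := by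
  sorry

/-- N2: the norm on classes (`Ideal.relNorm`) -/
theorem exists_clNorm (K M : Type*) [Field K] [NumberField K] [Field M] [NumberField M]
    [Algebra K M] : ∃ N : ClassGroup (𝓞 M) →* ClassGroup (𝓞 K),
      (∀ c : ClassGroup (𝓞 K), N (ClassGroup.extendedHom (𝓞 K) (𝓞 M) c) = c ^ finrank K M) ∧
      (∀ (g : Gal(M/K)) (c : ClassGroup (𝓞 M)), N (clAct g c) = N c) ∧
      (IsGalois K M → ∀ c : ClassGroup (𝓞 M), ClassGroup.extendedHom (𝓞 K) (𝓞 M) (N c) =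
        ∏ g : Gal(M/K), clAct g c) := by
  sorry

/-- N3: invariant fractional ideals; `J` runs over the fractional ideals of `K`.
`Dinv` = invariant fractional ideals, `P0` = fractional ideals of `M` generated by elements
of `K` -/
theorem relIndex_inv (K M : Type*) [Field K] [NumberField K] [Field M] [NumberField M]
    [Algebra K M] [IsGalois K M] {p : ℕ} (hp : p.Prime) (hd : finrank K M = p)
    (Dinv P0 : Subgroup (FractionalIdeal (𝓞 M)⁰ M)ˣ)
    (hDinv : ∀ x : (FractionalIdeal (𝓞 M)⁰ M)ˣ, x ∈ Dinv ↔ ∀ g : Gal(M/K),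
      FractionalIdeal.ringEquivOfRingEquiv M M (MulSemiringAction.toRingEquiv Gal(M/K) (𝓞 M) g)
        (x : FractionalIdeal (𝓞 M)⁰ M) = x)
    (hP0 : ∀ x : (FractionalIdeal (𝓞 M)⁰ M)ˣ, x ∈ P0 ↔ ∃ y : K, y ≠ 0 ∧
      (x : FractionalIdeal (𝓞 M)⁰ M) = FractionalIdeal.spanSingleton (𝓞 M)⁰ (algebraMap K M y)) :
    P0.relIndex Dinv ≠ 0 ∧
      padicValNat p (P0.relIndex Dinv) ≤
        padicValNat p (Nat.card (ClassGroup (𝓞 K))) + (RamSet K M).ncard := by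
  sorry

/-- N4: Herbrand quotient of the units (extract the general inequality from `Units.lean`) -/
theorem units_herbrand [IsGalois K M] {p : ℕ} (hp : p.Prime) (hd : finrank K M = p)
    (hodd : Odd p) (σ : Gal(M/K)) (hσ : ∀ x, x ∈ Subgroup.zpowers σ) :
    (Mu22.nHom σ p : (𝓞 M)ˣ →* (𝓞 M)ˣ).range.relIndex (Mu22.dHom σ).ker ≠ 0 ∧
    (Mu22.dHom σ : (𝓞 M)ˣ →* (𝓞 M)ˣ).range.relIndex (Mu22.nHom σ p).ker ≠ 0 ∧
    p * (Mu22.nHom σ p : (𝓞 M)ˣ →* (𝓞 M)ˣ).range.relIndex (Mu22.dHom σ).ker ≤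
      (Mu22.dHom σ : (𝓞 M)ˣ →* (𝓞 M)ˣ).range.relIndex (Mu22.nHom σ p).ker := by
  sorry

/-- N5: ambiguous classes (G0 + N1 + N3 + N4 + Hilbert 90) -/
theorem card_fixed_le [IsGalois K M] {p : ℕ} (hp : p.Prime) (hd : finrank K M = p)
    (hodd : Odd p) (σ : Gal(M/K)) (hσ : ∀ x, x ∈ Subgroup.zpowers σ) :
    padicValNat p (Nat.card {c : ClassGroup (𝓞 M) // clAct σ c = c}) ≤
      padicValNat p (Nat.card (ClassGroup (𝓞 K))) + (RamSet K M).ncard := by
  sorry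

/-- N6: the rank in a step of degree `p` (G1 + N1 + N2 + N5) -/
theorem rk_step [IsGalois K M] {p : ℕ} (hp : p.Prime) (hd : finrank K M = p) (hodd : Odd p) :
    rk p (ClassGroup (𝓞 M)) ≤ p * (2 * rk p (ClassGroup (𝓞 K)) + (RamSet K M).ncard) := by
  sorry

/-- N7: the rank in a Galois extension of `p`-power degree -/
theorem rk_tower {p : ℕ} (hp : p.Prime) (hodd : Odd p) (T r n : ℕ) : ∃ B : ℕ,
    ∀ (K M : Type) [Field K] [NumberField K] [Field M] [NumberField M] [Algebra K M]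
      [IsGalois K M], finrank K M = p ^ n → (RamSet K M).ncard ≤ T →
      rk p (ClassGroup (𝓞 K)) ≤ r → rk p (ClassGroup (𝓞 M)) ≤ B := by
  sorry

/-- N8: finiteness of the set of ramified primes, monotonicity -/
theorem ramSet_finite : (RamSet K M).Finite := by
  sorry

/-- N8 -/
theorem ramSet_ncard_le (K M N : Type*) [Field K] [NumberField K] [Field M] [NumberField M]
    [Field N] [NumberField N] [Algebra K M] [Algebra M N] [Algebra K N] [IsScalarTower K M N] :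
    (RamSet K M).ncard ≤ (RamSet K N).ncard ∧ (RamSet M N).ncard ≤ (RamSet K N).ncard := by
  sorry

end Cl

section Layers

variable {p : ℕ}

/-- C1: number of primes above `ℓ` in a field containing the `p ^ k`-th roots of unity -/
theorem ncard_primes_le (hp : p.Prime) (l : ℕ) (hl : l.Prime) (D : ℕ) : ∃ c : ℕ,
    ∀ (N : Type) [Field N] [NumberField N] (k : ℕ) (z : N), 1 ≤ k → IsPrimitiveRoot z (p ^ k) →
      finrank ℚ N ≤ D * p ^ k → {Q : Ideal (𝓞 N) | Q.IsPrime ∧ (l : 𝓞 N) ∈ Q}.ncard ≤ c := by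
  sorry

/-- C2: number of primes above `ℓ` in the layers -/
theorem ncard_primes_layer_le (hp : p.Prime) (l : ℕ) (hl : l.Prime) (L : IntermediateField ℚ ℂ)
    [NumberField L] : ∃ c : ℕ, ∀ (m : ℕ) (E : IntermediateField ℚ ℂ), IsLayer p m E →
      {Q : Ideal (𝓞 ↥(L ⊔ E)) | Q.IsPrime ∧ (l : 𝓞 ↥(L ⊔ E)) ∈ Q}.ncard ≤ c := by
  sorry

/-- C3: number of ramified primes in the layers (`F` inside `ℂ`) -/
theorem ncard_ram_layer_le (hp : p.Prime) (F L : IntermediateField ℚ ℂ) (h : F ≤ L)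
    [NumberField F] [NumberField L] : ∃ T : ℕ, ∀ (m : ℕ) (E : IntermediateField ℚ ℂ)
      (hE : IsLayer p m E) [NumberField ↥(F ⊔ E)] [NumberField ↥(L ⊔ E)],
      letI : Algebra ↥(F ⊔ E) ↥(L ⊔ E) :=
        (IntermediateField.inclusion (sup_le_sup_right h E)).toRingHom.toAlgebra
      (RamSet ↥(F ⊔ E) ↥(L ⊔ E)).ncard ≤ T := by
  sorry

/-- C4: layers exist, are unique, increase, are cyclic over `ℚ` -/
theorem exists_layer (hp : p.Prime) (hp2 : p ≠ 2) (m : ℕ) : ∃ E, IsLayer p m E := by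
  sorry

/-- C4 -/
theorem layer_unique (hp : p.Prime) (hp2 : p ≠ 2) {m : ℕ} {E E' : IntermediateField ℚ ℂ}
    (h : IsLayer p m E) (h' : IsLayer p m E') : E = E' := by
  sorry

/-- C4 -/
theorem layer_le (hp : p.Prime) (hp2 : p ≠ 2) {m : ℕ} {E E' : IntermediateField ℚ ℂ}
    (h : IsLayer p m E) (h' : IsLayer p (m + 1) E') : E ≤ E' := by
  sorry

/-- C4 -/
theorem layer_galois (hp : p.Prime) (hp2 : p ≠ 2) {m : ℕ} {E : IntermediateField ℚ ℂ}
    (h : IsLayer p m E) : IsGalois ℚ E ∧ IsCyclic Gal(E/ℚ) := by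
  sorry

/-- C5: growth (G2, G3, N1, N2, C4): bounded ranks imply `v_p (h) = O (m)` -/
theorem growth (hp : p.Prime) (hp2 : p ≠ 2) (L : IntermediateField ℚ ℂ) [NumberField L] (B : ℕ)
    (hB : ∀ (m : ℕ) (E : IntermediateField ℚ ℂ), IsLayer p m E →
      rk p (ClassGroup (𝓞 ↥(L ⊔ E))) ≤ B) :
    ∃ C : ℕ, ∀ (m : ℕ) (E : IntermediateField ℚ ℂ), IsLayer p m E →
      padicValNat p (Nat.card (ClassGroup (𝓞 ↥(L ⊔ E)))) ≤ C * (m + 1) := by
  sorry

/-- C6: descent to a subfield of index prime to `p` -/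
theorem descent (hp : p.Prime) (hp2 : p ≠ 2) (L' L : IntermediateField ℚ ℂ) [NumberField L]
    (h : L' ≤ L) (hcop : ¬ p ∣ IntermediateField.relfinrank L' L) (m : ℕ)
    (E : IntermediateField ℚ ℂ) (hE : IsLayer p m E) :
    padicValNat p (Nat.card (ClassGroup (𝓞 ↥(L' ⊔ E)))) ≤
      padicValNat p (Nat.card (ClassGroup (𝓞 ↥(L ⊔ E)))) := by
  sorry

/-- C7: final theorem -/
theorem mu_final {F : Type} [Field F] [NumberField F] (hp : p.Prime) (hp2 : p ≠ 2)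
    (hF : ¬ p ∣ Nat.card (ClassGroup (𝓞 F)))
    (hone : ∃! P : Ideal (𝓞 F), P.IsPrime ∧ (p : 𝓞 F) ∈ P)
    (L : IntermediateField ℚ ℂ) [NumberField L] [Algebra F L] [IsGalois F L] (n : ℕ)
    (hn : finrank F L = p ^ n) (L' : IntermediateField ℚ ℂ) (hL' : L' ≤ L)
    (hcop : ¬ p ∣ IntermediateField.relfinrank L' L) :
    ∃ C : ℕ, ∀ (m : ℕ) (E : IntermediateField ℚ ℂ),
      E ≤ IntermediateField.adjoin ℚ {z : ℂ | z ^ (p ^ (m + 1)) = 1} →
      finrank ℚ E = p ^ m →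
      padicValNat p (Nat.card (ClassGroup (𝓞 ↥(L' ⊔ E)))) ≤ C * (m + 1) := by
  sorry

end Layers

end Pool.Agent.Work.MuI
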