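import Pool.Agent.Work.MP_a4986b_nt.Defs
import Pool.Agent.Work.MP_a4986b_nt.Herb70

set_option autoImplicit false
set_option maxHeartbeats 400000

/-! # T2: norms of units in a cyclic extension of degree `p` (helper70) -/

namespace Pool.Agent.Work.Mu22

open NumberField Module
open scoped Pointwise nonZeroDivisors ENNReal Real

attribute [local instance] Units.mulDistribMulActionRight

section

variable {K L : Type*} [Field K] [NumberField K] [Field L] [NumberField L] [Algebra K L]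
  [IsGalois K L] {p : ℕ}

omit [NumberField K] [NumberField L] [IsGalois K L] in
theorem smul_eq_of_gen {σ : Gal(L/K)} (hσ : ∀ x, x ∈ Subgroup.zpowers σ) {x : 𝓞 L}
    (h : σ • x = x) (g : Gal(L/K)) : g • x = x := by
  obtain ⟨k, hk⟩ := hσ g
  have h1 : σ ∈ MulAction.stabilizer Gal(L/K) x := h
  have h2 : σ ^ k ∈ MulAction.stabilizer Gal(L/K) x := Subgroup.zpow_mem _ h1 k
  have hk' : σ ^ k = g := hk
  rw [hk'] at h2
  exact h2

/-- a fixed unit comes from `K` -/
theorem unit_of_fixed {σ : Gal(L/K)} (hσ : ∀ x, x ∈ Subgroup.zpowers σ) {u : (𝓞 L)ˣ}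
    (h : σ • u = u) : ∃ v : (𝓞 K)ˣ, Units.map (algebraMap (𝓞 K) (𝓞 L)).toMonoidHom v = u := by
  have h1 : ∀ g : Gal(L/K), g • (u : 𝓞 L) = u :=
    smul_eq_of_gen hσ (congrArg Units.val h)
  have h2 : ∀ g : Gal(L/K), g • ((u⁻¹ : (𝓞 L)ˣ) : 𝓞 L) = ((u⁻¹ : (𝓞 L)ˣ) : 𝓞 L) := by
    apply smul_eq_of_gen hσ
    have h3 : σ • u⁻¹ = u⁻¹ := by rw [smul_inv', h]
    exact congrArg Units.val h3
  obtain ⟨a, ha⟩ := Algebra.IsInvariant.isInvariant (A := 𝓞 K) (u : 𝓞 L) h1
  obtain ⟨b, hb⟩ := Algebra.IsInvariant.isInvariant (A := 𝓞 K) ((u⁻¹ : (𝓞 L)ˣ) : 𝓞 L) h2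
  have hinj : Function.Injective (algebraMap (𝓞 K) (𝓞 L)) :=
    FaithfulSMul.algebraMap_injective _ _
  have hab : a * b = 1 := by
    apply hinj
    rw [map_mul, ha, hb, map_one, Units.mul_inv]
  refine ⟨⟨a, b, hab, by rw [mul_comm, hab]⟩, ?_⟩
  ext
  exact congrArg _ ha

theorem rank_step (hd : finrank K L = p) (hodd : Odd p) :
    p * (Units.rank K + 1) ≤ Units.rank L + 1 := by
  have h1 : Odd (finrank K L) := by rw [hd]; exact hodd
  have := IsUnramifiedAtInfinitePlaces_of_odd_finrank h1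
  have h2 := IsUnramifiedAtInfinitePlaces.card_infinitePlace K L
  rw [hd] at h2
  have h3 : 0 < Fintype.card (InfinitePlace K) := Fintype.card_pos
  have h4 : 0 < Fintype.card (InfinitePlace L) := Fintype.card_pos
  unfold Units.rank
  rw [Nat.sub_add_cancel h3, Nat.sub_add_cancel h4, h2, mul_comm]

/-- T2 -/
theorem units_step (hp : p.Prime) (hd : finrank K L = p) (hodd : Odd p)
    (σ : Gal(L/K)) (hσ : ∀ x, x ∈ Subgroup.zpowers σ) :
    (dHom σ : (𝓞 L)ˣ →* (𝓞 L)ˣ).range.relIndex (nHom σ p).ker ≠ 0 ∧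
    p ≤ (dHom σ : (𝓞 L)ˣ →* (𝓞 L)ˣ).range.relIndex (nHom σ p).ker ∧
    ((dHom σ : (𝓞 L)ˣ →* (𝓞 L)ˣ).range.relIndex (nHom σ p).ker ≤ p →
      ∀ e : (𝓞 L)ˣ, σ • e = e → ∃ u : (𝓞 L)ˣ, nHom σ p u = e ∨ nHom σ p u = -e) := by
  set s : AddMonoid.End (Additive (𝓞 L)ˣ) :=
    MonoidHom.toAdditive (MulDistribMulAction.toMonoidHom (𝓞 L)ˣ σ) with hs
  have hsx : ∀ x : (𝓞 L)ˣ, s (Additive.ofMul x) = Additive.ofMul (σ • x) := fun x => rfl
  have hpow : ∀ (i : ℕ) (x : (𝓞 L)ˣ), (s ^ i) (Additive.ofMul x) =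
      Additive.ofMul (σ ^ i • x) := by
    intro i
    induction i with
    | zero => intro x; rw [pow_zero, pow_zero, one_smul]; rfl
    | succ i ih =>
      intro x
      rw [pow_succ, pow_succ, mul_smul]
      exact ih (σ • x)
  have hcard : σ ^ p = 1 := by
    have h1 : Nat.card Gal(L/K) = p := by rw [IsGalois.card_aut_eq_finrank, hd]
    rw [← h1]
    exact pow_card_eq_one'
  have hs1 : s ^ p = 1 := by
    apply AddMonoidHom.ext
    intro x
    refine (hpow p x.toMul).trans ?_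
    rw [hcard, one_smul]
    rfl
  set D : AddMonoid.End (Additive (𝓞 L)ˣ) := 1 - s with hD
  set N : AddMonoid.End (Additive (𝓞 L)ˣ) := ∑ i ∈ Finset.range p, s ^ i with hN
  have hDx : ∀ x : (𝓞 L)ˣ, D (Additive.ofMul x) = Additive.ofMul (x / (σ • x)) := fun x => rfl
  have hNx : ∀ x : (𝓞 L)ˣ, N (Additive.ofMul x) = Additive.ofMul (nHom σ p x) := by
    intro x
    have h3 : N (Additive.ofMul x) = ∑ i ∈ Finset.range p, (s ^ i) (Additive.ofMul x) :=
      AddMonoidHom.finsetSum_apply _ _ _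
    rw [h3, nHom_apply, ofMul_prod]
    exact Finset.sum_congr rfl fun i _ => hpow i x
  have e1 : ∀ x : (𝓞 L)ˣ, Additive.ofMul x ∈ AddMonoidHom.ker D ↔ σ • x = x := by
    intro x
    have h1 : Additive.ofMul x ∈ AddMonoidHom.ker D ↔ D (Additive.ofMul x) = 0 := Iff.rfl
    rw [h1, hDx]
    constructor
    · intro h
      have h2 : x / (σ • x) = 1 := h
      exact (div_eq_one.1 h2).symm
    · intro h
      show Additive.ofMul (x / (σ • x)) = Additive.ofMul 1
      rw [h, div_self']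
  have e2 : AddMonoidHom.range D =
      Subgroup.toAddSubgroup (dHom σ : (𝓞 L)ˣ →* (𝓞 L)ˣ).range := by
    ext x
    constructor
    · rintro ⟨y, rfl⟩
      refine ⟨y.toMul⁻¹, ?_⟩
      show (σ • (y.toMul)⁻¹) / (y.toMul)⁻¹ = y.toMul / (σ • y.toMul)
      rw [smul_inv', div_eq_mul_inv, inv_inv, div_eq_mul_inv, mul_comm]
    · rintro ⟨y, hy⟩
      refine ⟨Additive.ofMul y⁻¹, (hDx y⁻¹).trans ?_⟩
      have h1 : x = Additive.ofMul ((σ • y) / y) := hy.symm
      rw [h1]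
      congr 1
      rw [smul_inv', div_eq_mul_inv, inv_inv, div_eq_mul_inv, mul_comm]
  have e3 : AddMonoidHom.ker N =
      Subgroup.toAddSubgroup (nHom σ p : (𝓞 L)ˣ →* (𝓞 L)ˣ).ker := by
    ext x
    have h1 : x ∈ AddMonoidHom.ker N ↔ N (Additive.ofMul x.toMul) = 0 := Iff.rfl
    rw [h1, hNx]
    exact Iff.rfl
  have hfin : Module.Finite ℤ (Additive (𝓞 L)ˣ) := inferInstance
  have hrk : p * (Units.rank K + 1) ≤ finrank ℤ (Additive (𝓞 L)ˣ) + 1 := by
    rw [Units.finrank_eq]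
    exact rank_step hd hodd
  have hkr : finrank ℤ (AddMonoidHom.ker D) ≤ Units.rank K := by
    rw [← Units.finrank_eq K]
    set f : Additive (𝓞 K)ˣ →+ Additive (𝓞 L)ˣ :=
      MonoidHom.toAdditive (Units.map (algebraMap (𝓞 K) (𝓞 L)).toMonoidHom) with hf
    have h1 : AddMonoidHom.ker D ≤ f.range := by
      intro x hx
      have h2 : σ • x.toMul = x.toMul := (e1 x.toMul).1 hx
      obtain ⟨v, hv⟩ := unit_of_fixed hσ h2
      exact ⟨Additive.ofMul v, hv⟩
    have h2 : finrank ℤ (LinearMap.range f.toIntLinearMap) ≤ finrank ℤ (Additive (𝓞 K)ˣ) :=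
      LinearMap.finrank_range_le _
    have h3 : finrank ℤ (AddMonoidHom.ker D) ≤ finrank ℤ f.range := by
      have : Module.Finite ℤ f.range :=
        (inferInstance : Module.Finite ℤ (LinearMap.range f.toIntLinearMap))
      exact LinearMap.finrank_le_finrank_of_injective
        (f := (AddSubgroup.inclusion h1).toIntLinearMap) (AddSubgroup.inclusion_injective h1)
    exact h3.trans h2
  obtain ⟨k1, k2, k3⟩ := MP_a4986b_nt.Herb.herb hp s hs1 (Units.rank K) D N hD hN hrk hkr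
  rw [e2, e3, Subgroup.relIndex_toAddSubgroup] at k2 k3
  refine ⟨k2, ?_, fun hle e he => ?_⟩
  · refine le_trans ?_ k3
    exact Nat.le_mul_of_pos_right _ (Nat.pos_of_ne_zero k1)
  · have h1 : p * (AddMonoidHom.range N).relIndex (AddMonoidHom.ker D) ≤ p * 1 := by
      rw [mul_one]; exact k3.trans hle
    have h2 := Nat.le_of_mul_le_mul_left h1 hp.pos
    have h3 : (AddMonoidHom.range N).relIndex (AddMonoidHom.ker D) = 1 := by
      have := Nat.pos_of_ne_zero k1
      omega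
    rw [AddSubgroup.relIndex_eq_one] at h3
    obtain ⟨u, hu⟩ := h3 ((e1 e).2 he)
    refine ⟨u.toMul, Or.inl ?_⟩
    have h4 := (hNx u.toMul).symm.trans hu
    exact h4

end

end Pool.Agent.Work.Mu22
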