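import Pool.Agent.Work.MP_a4986b_nt.IDefs
import Pool.Agent.Work.MP_a4986b_nt.Units

set_option autoImplicit false
set_option maxHeartbeats 400000

/-! # N4: Herbrand quotient of the units in a cyclic extension of degree `p` -/

namespace Pool.Agent.Work.MuI

open NumberField Module
open scoped Pointwise nonZeroDivisors

attribute [local instance] Units.mulDistribMulActionRight

section Cl

variable {K M : Type*} [Field K] [NumberField K] [Field M] [NumberField M] [Algebra K M]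

/-- N4: Herbrand quotient of the units (extract the general inequality from `Units.lean`) -/
theorem units_herbrand [IsGalois K M] {p : ℕ} (hp : p.Prime) (hd : finrank K M = p)
    (hodd : Odd p) (σ : Gal(M/K)) (hσ : ∀ x, x ∈ Subgroup.zpowers σ) :
    (Mu22.nHom σ p : (𝓞 M)ˣ →* (𝓞 M)ˣ).range.relIndex (Mu22.dHom σ).ker ≠ 0 ∧
    (Mu22.dHom σ : (𝓞 M)ˣ →* (𝓞 M)ˣ).range.relIndex (Mu22.nHom σ p).ker ≠ 0 ∧
    p * (Mu22.nHom σ p : (𝓞 M)ˣ →* (𝓞 M)ˣ).range.relIndex (Mu22.dHom σ).ker ≤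
      (Mu22.dHom σ : (𝓞 M)ˣ →* (𝓞 M)ˣ).range.relIndex (Mu22.nHom σ p).ker := by
  set s : AddMonoid.End (Additive (𝓞 M)ˣ) :=
    MonoidHom.toAdditive (MulDistribMulAction.toMonoidHom (𝓞 M)ˣ σ) with hs
  have hsx : ∀ x : (𝓞 M)ˣ, s (Additive.ofMul x) = Additive.ofMul (σ • x) := fun x => rfl
  have hpow : ∀ (i : ℕ) (x : (𝓞 M)ˣ), (s ^ i) (Additive.ofMul x) =
      Additive.ofMul (σ ^ i • x) := by
    intro i
    induction i with
    | zero => intro x; rw [pow_zero, pow_zero, one_smul]; rfl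
    | succ i ih =>
      intro x
      rw [pow_succ, pow_succ, mul_smul]
      exact ih (σ • x)
  have hcard : σ ^ p = 1 := by
    have h1 : Nat.card Gal(M/K) = p := by rw [IsGalois.card_aut_eq_finrank, hd]
    rw [← h1]
    exact pow_card_eq_one'
  have hs1 : s ^ p = 1 := by
    apply AddMonoidHom.ext
    intro x
    refine (hpow p x.toMul).trans ?_
    rw [hcard, one_smul]
    rfl
  set D : AddMonoid.End (Additive (𝓞 M)ˣ) := 1 - s with hD
  set N : AddMonoid.End (Additive (𝓞 M)ˣ) := ∑ i ∈ Finset.range p, s ^ i with hN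
  have hDx : ∀ x : (𝓞 M)ˣ, D (Additive.ofMul x) = Additive.ofMul (x / (σ • x)) := fun x => rfl
  have hNx : ∀ x : (𝓞 M)ˣ, N (Additive.ofMul x) = Additive.ofMul (Mu22.nHom σ p x) := by
    intro x
    have h3 : N (Additive.ofMul x) = ∑ i ∈ Finset.range p, (s ^ i) (Additive.ofMul x) :=
      AddMonoidHom.finsetSum_apply _ _ _
    rw [h3, Mu22.nHom_apply, ofMul_prod]
    exact Finset.sum_congr rfl fun i _ => hpow i x
  have e1 : ∀ x : (𝓞 M)ˣ, Additive.ofMul x ∈ AddMonoidHom.ker D ↔ σ • x = x := by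
    intro x
    have h1 : Additive.ofMul x ∈ AddMonoidHom.ker D ↔ D (Additive.ofMul x) = 0 := Iff.rfl
    rw [h1, hDx]
    constructor
    · intro h
      have h2 : x / (σ • x) = 1 := h
      exact (div_eq_one.1 h2).symm
    · intro h
      show Additive.ofMul (x / (σ • x)) = Additive.ofMul 1
      rw [h, div_self']
  have e2 : AddMonoidHom.range D =
      Subgroup.toAddSubgroup (Mu22.dHom σ : (𝓞 M)ˣ →* (𝓞 M)ˣ).range := by
    ext x
    constructor
    · rintro ⟨y, rfl⟩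
      refine ⟨y.toMul⁻¹, ?_⟩
      show (σ • (y.toMul)⁻¹) / (y.toMul)⁻¹ = y.toMul / (σ • y.toMul)
      rw [smul_inv', div_eq_mul_inv, inv_inv, div_eq_mul_inv, mul_comm]
    · rintro ⟨y, hy⟩
      refine ⟨Additive.ofMul y⁻¹, (hDx y⁻¹).trans ?_⟩
      have h1 : x = Additive.ofMul ((σ • y) / y) := hy.symm
      rw [h1]
      congr 1
      rw [smul_inv', div_eq_mul_inv, inv_inv, div_eq_mul_inv, mul_comm]
  have e3 : AddMonoidHom.ker N =
      Subgroup.toAddSubgroup (Mu22.nHom σ p : (𝓞 M)ˣ →* (𝓞 M)ˣ).ker := by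
    ext x
    have h1 : x ∈ AddMonoidHom.ker N ↔ N (Additive.ofMul x.toMul) = 0 := Iff.rfl
    rw [h1, hNx]
    exact Iff.rfl
  have hfin : Module.Finite ℤ (Additive (𝓞 M)ˣ) := inferInstance
  have hrk : p * (Units.rank K + 1) ≤ finrank ℤ (Additive (𝓞 M)ˣ) + 1 := by
    rw [Units.finrank_eq]
    exact Mu22.rank_step hd hodd
  have hkr : finrank ℤ (AddMonoidHom.ker D) ≤ Units.rank K := by
    rw [← Units.finrank_eq K]
    set f : Additive (𝓞 K)ˣ →+ Additive (𝓞 M)ˣ :=
      MonoidHom.toAdditive (Units.map (algebraMap (𝓞 K) (𝓞 M)).toMonoidHom) with hf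
    have h1 : AddMonoidHom.ker D ≤ f.range := by
      intro x hx
      have h2 : σ • x.toMul = x.toMul := (e1 x.toMul).1 hx
      obtain ⟨v, hv⟩ := Mu22.unit_of_fixed hσ h2
      exact ⟨Additive.ofMul v, hv⟩
    have h2 : finrank ℤ (LinearMap.range f.toIntLinearMap) ≤ finrank ℤ (Additive (𝓞 K)ˣ) :=
      LinearMap.finrank_range_le _
    have h3 : finrank ℤ (AddMonoidHom.ker D) ≤ finrank ℤ f.range := by
      have : Module.Finite ℤ f.range :=
        (inferInstance : Module.Finite ℤ (LinearMap.range f.toIntLinearMap))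
      exact LinearMap.finrank_le_finrank_of_injective
        (f := (AddSubgroup.inclusion h1).toIntLinearMap) (AddSubgroup.inclusion_injective h1)
    exact h3.trans h2
  have e4 : AddMonoidHom.range N =
      Subgroup.toAddSubgroup (Mu22.nHom σ p : (𝓞 M)ˣ →* (𝓞 M)ˣ).range := by
    ext x
    constructor
    · rintro ⟨y, rfl⟩
      exact ⟨y.toMul, (hNx y.toMul).symm⟩
    · rintro ⟨y, hy⟩
      exact ⟨Additive.ofMul y, (hNx y).trans hy⟩
  have e5 : AddMonoidHom.ker D =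
      Subgroup.toAddSubgroup (Mu22.dHom σ : (𝓞 M)ˣ →* (𝓞 M)ˣ).ker := by
    ext x
    have h1 : x ∈ Subgroup.toAddSubgroup (Mu22.dHom σ : (𝓞 M)ˣ →* (𝓞 M)ˣ).ker ↔
        (σ • x.toMul) / x.toMul = 1 := Iff.rfl
    rw [h1, div_eq_one]
    exact e1 x.toMul
  obtain ⟨k1, k2, k3⟩ := MP_a4986b_nt.Herb.herb hp s hs1 (Units.rank K) D N hD hN hrk hkr
  rw [e4, e5, Subgroup.relIndex_toAddSubgroup] at k1 k3
  rw [e2, e3, Subgroup.relIndex_toAddSubgroup] at k2 k3
  exact ⟨k1, k2, k3⟩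

end Cl

end Pool.Agent.Work.MuI
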