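import Pool.Agent.Work.MP_a4986b_nt.IAmb
import Pool.Agent.Work.MP_a4986b_nt.IInv
import Pool.Agent.Work.MP_a4986b_nt.INorm
import Pool.Agent.Work.MP_a4986b_nt.IUnits
import Pool.Agent.Work.MP_a4986b_nt.IRank
import Pool.Agent.Work.MP_a4986b_nt.Hilb90

set_option autoImplicit false
set_option maxHeartbeats 400000

/-! # N5, N6: ambiguous classes and the rank in a step of degree `p` -/

namespace Pool.Agent.Work.MuI

open NumberField Module
open scoped Pointwise nonZeroDivisors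

attribute [local instance] Units.mulDistribMulActionRight

namespace Step

/-- G0: the ambiguous class inequality, abstract form: `Λ = M^*`, `𝓓` = fractional ideals,
`π` = principal ideals -/
theorem amb_abstract' {p : ℕ} {Λ D : Type*} [CommGroup Λ] [CommGroup D] (hp : p.Prime) (π : Λ →* D)
    (s : Λ ≃* Λ) (φ : D ≃* D) (hπ : ∀ x, π (s x) = φ (π x)) (hs : s ^ p = 1) (hφ : φ ^ p = 1)
    (h90 : ∀ x : Λ, ∏ i ∈ Finset.range p, (s ^ i) x = 1 → ∃ y, x = s y / y)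
    (Dinv : Subgroup D) (hDinv : ∀ x, x ∈ Dinv ↔ φ x = x)
    (P0 : Subgroup D) (hP0 : ∀ x, x ∈ P0 ↔ ∃ y : Λ, s y = y ∧ π y = x)
    (EN EsE ENorm Efix : Subgroup Λ)
    (hEN : ∀ x, x ∈ EN ↔ π x = 1 ∧ ∏ i ∈ Finset.range p, (s ^ i) x = 1)
    (hEsE : ∀ x, x ∈ EsE ↔ ∃ y, π y = 1 ∧ x = s y / y)
    (hENorm : ∀ x, x ∈ ENorm ↔ ∃ y, π y = 1 ∧ x = ∏ i ∈ Finset.range p, (s ^ i) y)
    (hEfix : ∀ x, x ∈ Efix ↔ π x = 1 ∧ s x = x)
    (h1 : ENorm.relIndex Efix ≠ 0) (h2 : EsE.relIndex EN ≠ 0)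
    (h3 : p * ENorm.relIndex Efix ≤ EsE.relIndex EN)
    (h4 : P0.relIndex Dinv ≠ 0)
    (X : Type*) [CommGroup X] [Finite X] (q : D →* X) (hq : Function.Surjective q)
    (hqk : q.ker = π.range) (a : X ≃* X) (ha : ∀ x, q (φ x) = a (q x)) :
    padicValNat p (Nat.card {x : X // a x = x}) + 1 ≤ padicValNat p (P0.relIndex Dinv) := by
  exact amb_abstract hp π s φ hπ hs hφ h90 Dinv hDinv P0 hP0 EN EsE ENorm Efix hEN hEsE hENorm
    hEfix h1 h2 h3 h4 X q hq hqk a ha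

section

variable {K M : Type*} [Field K] [NumberField K] [Field M] [NumberField M] [Algebra K M]

/-- the action on the units of `M` -/
noncomputable def sU (σ : Gal(M/K)) : Mˣ ≃* Mˣ := Units.mapEquiv (σ : M ≃ₐ[K] M).toMulEquiv

theorem sU_coe (σ : Gal(M/K)) (x : Mˣ) : ((sU σ x : Mˣ) : M) = σ (x : M) := rfl

theorem sU_pow (σ : Gal(M/K)) (i : ℕ) (x : Mˣ) : (sU σ ^ i) x = sU (σ ^ i) x := by
  induction i generalizing x with
  | zero => rw [pow_zero, pow_zero]; rfl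
  | succ i ih =>
    rw [pow_succ, pow_succ]
    exact ih (sU σ x)

/-- the action on fractional ideals -/
noncomputable def fU (σ : Gal(M/K)) :
    (FractionalIdeal (𝓞 M)⁰ M)ˣ ≃* (FractionalIdeal (𝓞 M)⁰ M)ˣ :=
  Units.mapEquiv (FractionalIdeal.ringEquivOfRingEquiv M M
    (MulSemiringAction.toRingEquiv Gal(M/K) (𝓞 M) σ)).toMulEquiv

theorem fU_coe (σ : Gal(M/K)) (x : (FractionalIdeal (𝓞 M)⁰ M)ˣ) :
    ((fU σ x : (FractionalIdeal (𝓞 M)⁰ M)ˣ) : FractionalIdeal (𝓞 M)⁰ M) =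
      FractionalIdeal.ringEquivOfRingEquiv M M
        (MulSemiringAction.toRingEquiv Gal(M/K) (𝓞 M) σ) (x : FractionalIdeal (𝓞 M)⁰ M) := rfl

theorem fU_mul (g h : Gal(M/K)) (x : (FractionalIdeal (𝓞 M)⁰ M)ˣ) :
    fU (g * h) x = fU g (fU h x) := by
  apply Units.ext
  ext y
  rw [fU_coe, fU_coe, fU_coe, Inv.mem_act, Inv.mem_act]
  constructor
  · rintro ⟨z, hz, rfl⟩
    exact ⟨h z, (Inv.mem_act h _ _).2 ⟨z, hz, rfl⟩, rfl⟩
  · rintro ⟨w, hw, rfl⟩
    obtain ⟨z, hz, rfl⟩ := (Inv.mem_act h _ _).1 hw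
    exact ⟨z, hz, rfl⟩

theorem fU_one (x : (FractionalIdeal (𝓞 M)⁰ M)ˣ) : fU (1 : Gal(M/K)) x = x := by
  apply Units.ext
  ext y
  rw [fU_coe, Inv.mem_act]
  constructor
  · rintro ⟨z, hz, rfl⟩
    exact hz
  · intro hy
    exact ⟨y, hy, rfl⟩

theorem fU_pow (σ : Gal(M/K)) (i : ℕ) (x : (FractionalIdeal (𝓞 M)⁰ M)ˣ) :
    (fU σ ^ i) x = fU (σ ^ i) x := by
  induction i generalizing x with
  | zero => rw [pow_zero, pow_zero, fU_one]; rfl
  | succ i ih =>
    rw [pow_succ, pow_succ, fU_mul]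
    exact ih (fU σ x)

theorem principal_sU (σ : Gal(M/K)) (x : Mˣ) :
    toPrincipalIdeal (𝓞 M) M (sU σ x) = fU σ (toPrincipalIdeal (𝓞 M) M x) := by
  apply Units.ext
  rw [fU_coe, coe_toPrincipalIdeal, coe_toPrincipalIdeal, Inv.act_spanSingleton, sU_coe]

theorem mk_fU (σ : Gal(M/K)) (x : (FractionalIdeal (𝓞 M)⁰ M)ˣ) :
    ClassGroup.mk M (fU σ x) = clAct σ (ClassGroup.mk M x) := by
  obtain ⟨n, I, hn, hI⟩ := Inv.exists_denom M (x : FractionalIdeal (𝓞 M)⁰ M)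
  have hn0 : (n : M) ≠ 0 := by exact_mod_cast hn
  have hI0 : I ≠ ⊥ := by
    rintro rfl
    rw [FractionalIdeal.coeIdeal_bot] at hI
    rcases mul_eq_zero.1 hI with h | h
    · rw [FractionalIdeal.spanSingleton_eq_zero_iff] at h
      exact hn0 h
    · exact x.ne_zero h
  have hIm : I ∈ (Ideal (𝓞 M))⁰ := mem_nonZeroDivisors_iff_ne_zero.2 hI0
  set N : Mˣ := Units.mk0 (n : M) hn0 with hN
  have hx : toPrincipalIdeal (𝓞 M) M N * x = FractionalIdeal.mk0 M ⟨I, hIm⟩ := by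
    apply Units.ext
    rw [Units.val_mul, coe_toPrincipalIdeal, FractionalIdeal.coe_mk0]
    exact hI
  have hmk : ∀ u : Mˣ, ClassGroup.mk M (toPrincipalIdeal (𝓞 M) M u) = 1 := by
    intro u
    rw [ClassGroup.mk_eq_one_iff, coe_toPrincipalIdeal]
    rw [FractionalIdeal.coe_spanSingleton]
    exact ⟨⟨(u : M), rfl⟩⟩
  have h1 : ClassGroup.mk M x = ClassGroup.mk0 ⟨I, hIm⟩ := by
    rw [← ClassGroup.mk_mk0 M, ← hx, map_mul, hmk, one_mul]
  have h2 : sU σ N = N := by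
    apply Units.ext
    rw [sU_coe, hN, Units.val_mk0, map_natCast]
  have h3 : toPrincipalIdeal (𝓞 M) M N * fU σ x =
      FractionalIdeal.mk0 M ⟨σ • I, smul_mem_nzd σ ⟨I, hIm⟩⟩ := by
    rw [← h2, principal_sU, ← map_mul, hx]
    apply Units.ext
    rw [fU_coe, FractionalIdeal.coe_mk0, FractionalIdeal.coe_mk0]
    exact Inv.act_coeIdeal σ I
  rw [h1, clAct_mk0 σ ⟨I, hIm⟩ ⟨σ • I, smul_mem_nzd σ ⟨I, hIm⟩⟩ rfl, ← ClassGroup.mk_mk0 M, ← h3,
    map_mul, hmk, one_mul]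

theorem ker_mk : (ClassGroup.mk M : (FractionalIdeal (𝓞 M)⁰ M)ˣ →* ClassGroup (𝓞 M)).ker =
    (toPrincipalIdeal (𝓞 M) M).range := by
  ext x
  rw [MonoidHom.mem_ker, ClassGroup.mk_eq_one_iff]
  constructor
  · intro h
    obtain ⟨y, hy⟩ := @Submodule.IsPrincipal.principal _ _ _ _ _ _ h
    have hx' : (x : FractionalIdeal (𝓞 M)⁰ M) = FractionalIdeal.spanSingleton (𝓞 M)⁰ y := by
      apply Subtype.coe_injective
      simp only [FractionalIdeal.val_eq_coe, hy, FractionalIdeal.coe_spanSingleton]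
    rw [mem_principal_ideals_iff]
    exact ⟨y, hx'.symm⟩
  · rintro ⟨u, rfl⟩
    rw [coe_toPrincipalIdeal, FractionalIdeal.coe_spanSingleton]
    exact ⟨⟨(u : M), rfl⟩⟩

/-- units of `𝓞 M` inside `Mˣ` -/
noncomputable def uI (M : Type*) [Field M] : (𝓞 M)ˣ →* Mˣ :=
  Units.map (algebraMap (𝓞 M) M).toMonoidHom

theorem uI_injective : Function.Injective (uI M) := by
  apply Units.map_injective
  exact FaithfulSMul.algebraMap_injective (𝓞 M) M

theorem uI_coe (u : (𝓞 M)ˣ) : ((uI M u : Mˣ) : M) = ((u : 𝓞 M) : M) := rfl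

theorem principal_eq_one_iff (x : Mˣ) :
    toPrincipalIdeal (𝓞 M) M x = 1 ↔ ∃ u : (𝓞 M)ˣ, uI M u = x := by
  rw [toPrincipalIdeal_eq_iff, Units.val_one]
  constructor
  · intro h
    have h1 : (x : M) ∈ (1 : FractionalIdeal (𝓞 M)⁰ M) := by
      rw [← h]
      exact FractionalIdeal.mem_spanSingleton_self _ _
    obtain ⟨a, ha⟩ := (FractionalIdeal.mem_one_iff _).1 h1
    have h2 : (1 : M) ∈ FractionalIdeal.spanSingleton (𝓞 M)⁰ (x : M) := by
      rw [h]
      exact FractionalIdeal.one_mem_one _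
    obtain ⟨b, hb⟩ := (FractionalIdeal.mem_spanSingleton _).1 h2
    rw [Algebra.smul_def, ← ha, ← map_mul] at hb
    have hba : b * a = 1 := by
      apply FaithfulSMul.algebraMap_injective (𝓞 M) M
      rw [hb, map_one]
    refine ⟨⟨a, b, by rw [mul_comm, hba], hba⟩, ?_⟩
    apply Units.ext
    exact ha
  · rintro ⟨u, rfl⟩
    rw [uI_coe]
    apply le_antisymm
    · rw [FractionalIdeal.spanSingleton_le_iff_mem]
      exact (FractionalIdeal.mem_one_iff _).2 ⟨(u : 𝓞 M), rfl⟩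
    · rw [FractionalIdeal.one_le]
      refine (FractionalIdeal.mem_spanSingleton _).2 ⟨((u⁻¹ : (𝓞 M)ˣ) : 𝓞 M), ?_⟩
      rw [Algebra.smul_def, ← map_mul, Units.inv_mul, map_one]

theorem sU_uI (σ : Gal(M/K)) (u : (𝓞 M)ˣ) : sU σ (uI M u) = uI M (σ • u) := by
  apply Units.ext
  rfl

theorem prod_sU_uI (σ : Gal(M/K)) (p : ℕ) (u : (𝓞 M)ˣ) :
    ∏ i ∈ Finset.range p, (sU σ ^ i) (uI M u) = uI M (Mu22.nHom σ p u) := by
  rw [Mu22.nHom_apply, map_prod]
  refine Finset.prod_congr rfl fun i _ => ?_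
  rw [sU_pow, sU_uI]

end

end Step

open Step

section Cl

variable {K M : Type*} [Field K] [NumberField K] [Field M] [NumberField M] [Algebra K M]

/-- N5: ambiguous classes (G0 + N1 + N3 + N4 + Hilbert 90) -/
theorem card_fixed_le [IsGalois K M] {p : ℕ} (hp : p.Prime) (hd : finrank K M = p)
    (hodd : Odd p) (σ : Gal(M/K)) (hσ : ∀ x, x ∈ Subgroup.zpowers σ) :
    padicValNat p (Nat.card {c : ClassGroup (𝓞 M) // clAct σ c = c}) ≤
      padicValNat p (Nat.card (ClassGroup (𝓞 K))) + (RamSet K M).ncard := by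
  have hcard : Nat.card Gal(M/K) = p := by rw [IsGalois.card_aut_eq_finrank, hd]
  have hσp : σ ^ p = 1 := by
    rw [← hcard]
    exact pow_card_eq_one'
  have hcyc : IsCyclic Gal(M/K) := ⟨σ, hσ⟩
  have hpow : ∀ g : Gal(M/K), ∃ n : ℕ, σ ^ n = g := by
    intro g
    exact (mem_powers_iff_mem_zpowers (x := σ) (y := g)).2 (hσ g)
  -- invariants
  set Dinv : Subgroup (FractionalIdeal (𝓞 M)⁰ M)ˣ :=
    (fU σ : (FractionalIdeal (𝓞 M)⁰ M)ˣ →* (FractionalIdeal (𝓞 M)⁰ M)ˣ).eqLocus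
      (MonoidHom.id _) with hDinvdef
  have hDinv : ∀ x, x ∈ Dinv ↔ fU σ x = x := fun x => Iff.rfl
  set P0 : Subgroup (FractionalIdeal (𝓞 M)⁰ M)ˣ :=
    ((sU σ : Mˣ →* Mˣ).eqLocus (MonoidHom.id _)).map (toPrincipalIdeal (𝓞 M) M) with hP0def
  have hP0 : ∀ x, x ∈ P0 ↔ ∃ y : Mˣ, sU σ y = y ∧ toPrincipalIdeal (𝓞 M) M y = x :=
    fun x => Iff.rfl
  have hDinv' : ∀ x : (FractionalIdeal (𝓞 M)⁰ M)ˣ, x ∈ Dinv ↔ ∀ g : Gal(M/K),
      FractionalIdeal.ringEquivOfRingEquiv M M (MulSemiringAction.toRingEquiv Gal(M/K) (𝓞 M) g)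
        (x : FractionalIdeal (𝓞 M)⁰ M) = x := by
    intro x
    rw [hDinv]
    constructor
    · intro h g
      obtain ⟨n, rfl⟩ := hpow g
      have h1 : fU (σ ^ n) x = x := by
        rw [← fU_pow]
        induction n with
        | zero => rw [pow_zero]; rfl
        | succ n ih =>
          rw [pow_succ]
          change (fU σ ^ n) (fU σ x) = x
          rw [h, ih]
      exact congrArg Units.val h1
    · intro h
      exact Units.ext (h σ)
  have hP0' : ∀ x : (FractionalIdeal (𝓞 M)⁰ M)ˣ, x ∈ P0 ↔ ∃ y : K, y ≠ 0 ∧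
      (x : FractionalIdeal (𝓞 M)⁰ M) =
        FractionalIdeal.spanSingleton (𝓞 M)⁰ (algebraMap K M y) := by
    intro x
    rw [hP0]
    constructor
    · rintro ⟨y, hy, rfl⟩
      have h1 : ∀ g : Gal(M/K), g (y : M) = y := by
        intro g
        obtain ⟨n, rfl⟩ := hpow g
        have h2 : sU (σ ^ n) y = y := by
          rw [← sU_pow]
          induction n with
          | zero => rw [pow_zero]; rfl
          | succ n ih =>
            rw [pow_succ]
            change (sU σ ^ n) (sU σ y) = y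
            rw [hy, ih]
        exact congrArg Units.val h2
      obtain ⟨z, hz⟩ := (IsGalois.mem_range_algebraMap_iff_fixed (y : M)).2 h1
      refine ⟨z, ?_, ?_⟩
      · rintro rfl
        rw [map_zero] at hz
        exact y.ne_zero hz.symm
      · rw [coe_toPrincipalIdeal, hz]
    · rintro ⟨y, hy, hx⟩
      have hy0 : algebraMap K M y ≠ 0 := by
        rw [Ne, FaithfulSMul.algebraMap_eq_zero_iff]
        exact hy
      refine ⟨Units.mk0 _ hy0, ?_, ?_⟩
      · apply Units.ext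
        rw [sU_coe, Units.val_mk0, AlgEquiv.commutes]
      · apply Units.ext
        rw [coe_toPrincipalIdeal, Units.val_mk0, hx]
  obtain ⟨h4, h5⟩ := relIndex_inv K M hp hd Dinv P0 hDinv' hP0'
  obtain ⟨u1, u2, u3⟩ := units_herbrand hp hd hodd σ hσ
  have hinj := uI_injective (M := M)
  have hmap : ∀ H H' : Subgroup (𝓞 M)ˣ,
      (H.map (uI M)).relIndex (H'.map (uI M)) = H.relIndex H' :=
    fun H H' => Subgroup.relIndex_map_map_of_injective H H' hinj
  have key := amb_abstract' hp (toPrincipalIdeal (𝓞 M) M) (sU σ) (fU σ)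
    (fun x => principal_sU σ x)
    (by
      ext1 x
      rw [sU_pow, hσp]
      rfl)
    (by
      ext1 x
      rw [fU_pow, hσp, fU_one]
      rfl)
    (by
      intro x hx
      obtain ⟨m, a, hm, ha⟩ := Mu22.exists_int_mul (x : M)
      have hm' : (m : M) ≠ 0 := by
        intro h
        apply hm
        exact RingOfIntegers.coe_eq_zero_iff.1 h
      have ha0 : a ≠ 0 := by
        rintro rfl
        exact (mul_ne_zero hm' x.ne_zero) (ha.trans (map_zero (algebraMap (𝓞 M) M)))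
      have h2 := congrArg Units.val hx
      rw [Units.val_one, Units.coe_prod] at h2
      obtain ⟨b, hb, hab⟩ := Mu22.hilbert90 hd σ hσ a m ha0 hm (by
        apply FaithfulSMul.algebraMap_injective (𝓞 M) M
        rw [map_prod, map_prod]
        have h3 : ∀ i ∈ Finset.range p, algebraMap (𝓞 M) M (σ ^ i • a) =
            algebraMap (𝓞 M) M (σ ^ i • m) * (((sU σ ^ i) x : Mˣ) : M) := by
          intro i _
          rw [sU_pow, sU_coe]
          change (σ ^ i) (a : M) = (σ ^ i) (m : M) * (σ ^ i) (x : M)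
          rw [← map_mul, ha]
        rw [Finset.prod_congr rfl h3, Finset.prod_mul_distrib, h2, mul_one])
      have hb' : (b : M) ≠ 0 := by
        intro h
        apply hb
        exact RingOfIntegers.coe_eq_zero_iff.1 h
      refine ⟨Units.mk0 (b : M) hb', ?_⟩
      apply Units.ext
      rw [Units.val_div_eq_div_val, sU_coe, Units.val_mk0, eq_div_iff hb']
      have h4 := congrArg (algebraMap (𝓞 M) M) hab
      rw [map_mul, map_mul] at h4
      have h5 : (m : M) * ((x : M) * (b : M)) = (m : M) * σ (b : M) := by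
        rw [← mul_assoc, ha]
        exact h4
      exact mul_left_cancel₀ hm' h5)
    Dinv hDinv P0 hP0 ((Mu22.nHom σ p : (𝓞 M)ˣ →* (𝓞 M)ˣ).ker.map (uI M))
    ((Mu22.dHom σ : (𝓞 M)ˣ →* (𝓞 M)ˣ).range.map (uI M))
    ((Mu22.nHom σ p : (𝓞 M)ˣ →* (𝓞 M)ˣ).range.map (uI M))
    ((Mu22.dHom σ : (𝓞 M)ˣ →* (𝓞 M)ˣ).ker.map (uI M))
    (by
      intro x
      rw [principal_eq_one_iff]
      constructor
      · rintro ⟨u, hu, rfl⟩
        refine ⟨⟨u, rfl⟩, ?_⟩
        rw [prod_sU_uI]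
        rw [show Mu22.nHom σ p u = 1 from hu, map_one]
      · rintro ⟨⟨u, rfl⟩, h⟩
        refine ⟨u, ?_, rfl⟩
        rw [prod_sU_uI, ← map_one (uI M)] at h
        exact hinj h)
    (by
      intro x
      constructor
      · rintro ⟨_, ⟨u, rfl⟩, rfl⟩
        refine ⟨uI M u, (principal_eq_one_iff _).2 ⟨u, rfl⟩, ?_⟩
        rw [Mu22.dHom_apply, map_div, sU_uI]
      · rintro ⟨y, hy, rfl⟩
        obtain ⟨u, rfl⟩ := (principal_eq_one_iff _).1 hy
        exact ⟨Mu22.dHom σ u, ⟨u, rfl⟩, by rw [Mu22.dHom_apply, map_div, sU_uI]⟩)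
    (by
      intro x
      constructor
      · rintro ⟨_, ⟨u, rfl⟩, rfl⟩
        refine ⟨uI M u, (principal_eq_one_iff _).2 ⟨u, rfl⟩, ?_⟩
        rw [prod_sU_uI]
      · rintro ⟨y, hy, rfl⟩
        obtain ⟨u, rfl⟩ := (principal_eq_one_iff _).1 hy
        exact ⟨Mu22.nHom σ p u, ⟨u, rfl⟩, (prod_sU_uI σ p u).symm⟩)
    (by
      intro x
      rw [principal_eq_one_iff]
      constructor
      · rintro ⟨u, hu, rfl⟩
        refine ⟨⟨u, rfl⟩, ?_⟩
        rw [sU_uI]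
        have h1 : (σ • u) / u = 1 := hu
        rw [div_eq_one.1 h1]
      · rintro ⟨⟨u, rfl⟩, h⟩
        refine ⟨u, ?_, rfl⟩
        rw [sU_uI] at h
        change (σ • u) / u = 1
        rw [div_eq_one]
        exact hinj h)
    (by rw [hmap]; exact u1) (by rw [hmap]; exact u2) (by rw [hmap, hmap]; exact u3) h4
    (ClassGroup (𝓞 M)) (ClassGroup.mk M) (by
      intro c
      obtain ⟨I, rfl⟩ := ClassGroup.mk0_surjective c
      exact ⟨FractionalIdeal.mk0 M I, ClassGroup.mk_mk0 M I⟩) ker_mk (clAct σ)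
    (fun x => mk_fU σ x)
  omega

/-- N6: the rank in a step of degree `p` (G1 + N1 + N2 + N5) -/
theorem rk_step [IsGalois K M] {p : ℕ} (hp : p.Prime) (hd : finrank K M = p) (hodd : Odd p) :
    rk p (ClassGroup (𝓞 M)) ≤ p * (2 * rk p (ClassGroup (𝓞 K)) + (RamSet K M).ncard) := by
  have hcard : Nat.card Gal(M/K) = p := by rw [IsGalois.card_aut_eq_finrank, hd]
  have hpf : Fact p.Prime := ⟨hp⟩
  have hcyc : IsCyclic Gal(M/K) := isCyclic_of_prime_card hcard
  obtain ⟨σ, hσ⟩ := hcyc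
  have hσp : σ ^ p = 1 := by
    rw [← hcard]
    exact pow_card_eq_one'
  obtain ⟨N, hN1, hN2, -⟩ := exists_clNorm K M
  refine rk_le_of_action hp (clAct σ) ?_ N (ClassGroup.extendedHom (𝓞 K) (𝓞 M)) (hN2 σ) ?_ _
    (card_fixed_le hp hd hodd σ hσ)
  · rw [← clAct_pow, hσp, clAct_one]
  · intro c
    rw [hN1, hd]

end Cl

end Pool.Agent.Work.MuI
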