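import Pool.Agent.Work.MP_a4986b_nt.PowMap

/-! # T4a: invariant ideals -/

set_option autoImplicit false
set_option maxHeartbeats 400000

namespace Pool.Agent.Work.Mu22

open NumberField Module UniqueFactorizationMonoid
open scoped Pointwise nonZeroDivisors ENNReal Real

attribute [local instance] Units.mulDistribMulActionRight

section

variable {K L : Type*} [Field K] [NumberField K] [Field L] [NumberField L] [Algebra K L]
  [IsGalois K L] {p : ℕ}

/-- T4a: invariant ideals, one exceptional ideal `𝔓` (possibly `⊤`) -/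
theorem invariant_ideal (𝔓 : Ideal (𝓞 L)) (hP : 𝔓 = ⊤ ∨ 𝔓.IsPrime) (h0 : 𝔓 ≠ ⊥)
    (hfix : ∀ g : Gal(L/K), g • 𝔓 = 𝔓)
    (hram : ∀ Q : Ideal (𝓞 L), Q.IsPrime → Q ≠ ⊥ → Q ≠ 𝔓 → Q.ramificationIdx (𝓞 K) = 1)
    (I : Ideal (𝓞 L)) (hI : I ≠ ⊥) (hinv : ∀ g : Gal(L/K), g • I = I) :
    ∃ (J : Ideal (𝓞 K)) (k : ℕ), J ≠ ⊥ ∧ I = J.map (algebraMap (𝓞 K) (𝓞 L)) * 𝔓 ^ k := by
  classical
  induction I using WellFoundedGT.induction with
  | ind I ih =>
    by_cases hIt : I = ⊤
    · exact ⟨⊤, 0, top_ne_bot, by simp [hIt, Ideal.map_top]⟩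
    obtain ⟨Q, hQm, hIQ⟩ := Ideal.exists_le_maximal I hIt
    have hQp : Q.IsPrime := hQm.isPrime
    have hQ0 : Q ≠ ⊥ := ne_bot_of_le_ne_bot hI hIQ
    -- the general step
    have key : ∀ A : Ideal (𝓞 L), A ≠ ⊥ → A ≠ ⊤ → (∀ g : Gal(L/K), g • A = A) → A ∣ I →
        ∃ (J : Ideal (𝓞 K)) (k : ℕ), J ≠ ⊥ ∧
          I = A * (J.map (algebraMap (𝓞 K) (𝓞 L)) * 𝔓 ^ k) := by
      intro A hA0 hAt hAinv hdvd
      obtain ⟨I', hI'⟩ := hdvd
      have hI'0 : I' ≠ ⊥ := by
        rintro rfl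
        exact hI (by rw [hI', Ideal.mul_bot])
      have hI'inv : ∀ g : Gal(L/K), g • I' = I' := by
        intro g
        have h := hinv g
        rw [hI', smul_mul', hAinv g] at h
        exact mul_left_cancel₀ hA0 h
      have hlt : I < I' := by
        refine lt_of_le_of_ne (hI' ▸ Ideal.mul_le_right) ?_
        intro h
        rw [h] at hI'
        have h2 : A * I' = ⊤ * I' := by rw [← hI', Ideal.top_mul]
        exact hAt (mul_right_cancel₀ hI'0 h2)
      obtain ⟨J, k, hJ, h⟩ := ih I' hlt hI'0 hI'inv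
      exact ⟨J, k, hJ, by rw [← h, ← hI']⟩
    by_cases hQP : Q = 𝔓
    · obtain ⟨J, k, hJ, h⟩ := key 𝔓 h0 (hQP ▸ hQp.ne_top) hfix
        (Ideal.dvd_iff_le.mpr (hQP ▸ hIQ))
      refine ⟨J, k + 1, hJ, ?_⟩
      rw [h, pow_succ]
      ring
    · set q := Q.under (𝓞 K) with hq
      have hq0 : q ≠ ⊥ := under_ne_bot_of (K := K) Q hQ0
      have hm0 : q.map (algebraMap (𝓞 K) (𝓞 L)) ≠ ⊥ := map_ne_bot_of hq0
      have hmQ : q.map (algebraMap (𝓞 K) (𝓞 L)) ≤ Q := Ideal.map_comap_le
      have hdvd : q.map (algebraMap (𝓞 K) (𝓞 L)) ∣ I := by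
        rw [dvd_iff_normalizedFactors_le_normalizedFactors hm0 hI, Multiset.le_iff_count]
        intro P
        by_cases hPm : P ∈ normalizedFactors (q.map (algebraMap (𝓞 K) (𝓞 L)))
        · have hPprime : P.IsPrime :=
            Ideal.isPrime_of_prime (prime_of_normalized_factor P hPm)
          have hle : q.map (algebraMap (𝓞 K) (𝓞 L)) ≤ P :=
            Ideal.dvd_iff_le.mp (dvd_of_mem_normalizedFactors hPm)
          obtain ⟨g, hg⟩ := conj_of_map_le (K := K) Q hQ0 P hle
          have hP0 : P ≠ ⊥ := ne_bot_of_le_ne_bot hm0 hle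
          have hPP : P ≠ 𝔓 := by
            intro h
            apply hQP
            have h3 : g • Q = g • 𝔓 := by rw [hg, h, hfix g]
            exact smul_left_cancel g h3
          have hlo : P.LiesOver q := by
            have hqm : q.IsMaximal :=
              Ideal.IsPrime.isMaximal (Ideal.IsPrime.under (𝓞 K) Q) hq0
            exact ⟨hqm.eq_of_le (Ideal.IsPrime.under (𝓞 K) P).ne_top
              (Ideal.map_le_iff_le_comap.mp hle)⟩
          rw [← Ideal.IsDedekindDomain.ramificationIdx_eq_normalizedFactors_count q P hm0,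
            hram P hPprime hP0 hPP, Multiset.one_le_count_iff_mem]
          have hIP : I ≤ P := by
            rw [← hg, ← hinv g]
            exact Ideal.pointwise_smul_le_pointwise_smul_iff.mpr hIQ
          have hPir : Irreducible P := (Ideal.prime_of_isPrime hP0 hPprime).irreducible
          obtain ⟨R, hR, hRP⟩ := exists_mem_normalizedFactors_of_dvd hI hPir
            (Ideal.dvd_iff_le.mpr hIP)
          rw [associated_iff_eq.mp hRP]
          exact hR
        · rw [Multiset.count_eq_zero_of_notMem hPm]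
          exact Nat.zero_le _
      obtain ⟨J, k, hJ, h⟩ := key _ hm0
        (fun h => hQp.ne_top (top_le_iff.mp (h ▸ hmQ))) (fun g => smul_map_eq g q) hdvd
      refine ⟨q * J, k, mul_ne_zero hq0 hJ, ?_⟩
      rw [h, Ideal.map_mul, mul_assoc]

end

end Pool.Agent.Work.Mu22
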