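import Pool.Agent.Work.MP_a4986b_nt.Defs
import Pool.Agent.Work.MP_a4986b_nt.Hilb90
import Pool.Agent.Work.MP_a4986b_nt.InvIdeal
import Pool.Agent.Work.MP_a4986b_nt.PowMap

set_option autoImplicit false
set_option maxHeartbeats 400000

/-! # T6: upper bound for the index of the units `σ u / u` (helper70) -/

namespace Pool.Agent.Work.Mu22

open NumberField Module
open scoped Pointwise nonZeroDivisors ENNReal Real

attribute [local instance] Units.mulDistribMulActionRight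

section

variable {K L : Type*} [Field K] [NumberField K] [Field L] [NumberField L] [Algebra K L]
  [IsGalois K L] {p : ℕ}

omit [IsGalois K L] in
/-- an ideal identity over `L` descends to `K` if `p` does not divide the class number -/
theorem descend (hp : p.Prime) (hd : finrank K L = p)
    (hK : ¬ p ∣ Nat.card (ClassGroup (𝓞 K))) {A B : Ideal (𝓞 K)} (hA : A ≠ ⊥) (hB : B ≠ ⊥)
    {x y : 𝓞 L} (hx : x ≠ 0) (hy : y ≠ 0)
    (h : Ideal.span {x} * A.map (algebraMap (𝓞 K) (𝓞 L)) =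
      Ideal.span {y} * B.map (algebraMap (𝓞 K) (𝓞 L))) :
    ∃ c d : 𝓞 K, c ≠ 0 ∧ d ≠ 0 ∧ Ideal.span {c} * A = Ideal.span {d} * B := by
  have hfr : finrank (𝓞 K) (𝓞 L) = p := by
    rw [← hd]
    exact (IsFractionRing.finrank_eq (𝓞 K) K (𝓞 L) L).symm
  have h1 := congrArg (Ideal.relNorm (𝓞 K)) h
  rw [map_mul, map_mul, Ideal.relNorm_algebraMap, Ideal.relNorm_algebraMap,
    Ideal.relNorm_singleton, Ideal.relNorm_singleton, hfr] at h1
  have hA0 : A ∈ (Ideal (𝓞 K))⁰ := mem_nonZeroDivisors_of_ne_zero hA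
  have hB0 : B ∈ (Ideal (𝓞 K))⁰ := mem_nonZeroDivisors_of_ne_zero hB
  set a : (Ideal (𝓞 K))⁰ := ⟨A, hA0⟩ with ha
  set b : (Ideal (𝓞 K))⁰ := ⟨B, hB0⟩ with hb
  have h2 : ClassGroup.mk0 (a ^ p) = ClassGroup.mk0 (b ^ p) := by
    rw [ClassGroup.mk0_eq_mk0_iff]
    refine ⟨_, _, ?_, ?_, h1⟩
    · rw [Ne, Algebra.intNorm_eq_zero]; exact hx
    · rw [Ne, Algebra.intNorm_eq_zero]; exact hy
  rw [map_pow, map_pow] at h2
  have h3 : (ClassGroup.mk0 a / ClassGroup.mk0 b) ^ p = 1 := by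
    rw [div_pow, h2, div_self']
  have h4 : ClassGroup.mk0 a / ClassGroup.mk0 b = 1 := by
    rw [← orderOf_eq_one_iff]
    have h5 : orderOf (ClassGroup.mk0 a / ClassGroup.mk0 b) ∣ p := orderOf_dvd_of_pow_eq_one h3
    rcases (Nat.dvd_prime hp).1 h5 with h6 | h6
    · exact h6
    · exact absurd (h6 ▸ orderOf_dvd_natCard _) hK
  rw [div_eq_one, ClassGroup.mk0_eq_mk0_iff] at h4
  obtain ⟨c, d, hc, hd', h5⟩ := h4
  exact ⟨c, d, hc, hd', h5⟩

/-- two units with proportional ideals differ by `σ v / v` -/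
theorem mem_range_of_ideal (hp : p.Prime) (hd : finrank K L = p)
    (hK : ¬ p ∣ Nat.card (ClassGroup (𝓞 K))) (σ : Gal(L/K)) {u w : (𝓞 L)ˣ} {x y : 𝓞 L}
    (hx : x ≠ 0) (hy : y ≠ 0) (hux : σ • x = u * x) (hwy : σ • y = w * y)
    {A B : Ideal (𝓞 K)} (hA : A ≠ ⊥) (hB : B ≠ ⊥)
    (h : Ideal.span {x} * A.map (algebraMap (𝓞 K) (𝓞 L)) =
      Ideal.span {y} * B.map (algebraMap (𝓞 K) (𝓞 L))) :
    u / w ∈ (dHom σ : (𝓞 L)ˣ →* (𝓞 L)ˣ).range := by
  obtain ⟨c, d, hc, hd0, hcd⟩ := descend hp hd hK hA hB hx hy h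
  set φ := algebraMap (𝓞 K) (𝓞 L) with hφ
  have hinj : Function.Injective φ := FaithfulSMul.algebraMap_injective _ _
  have hc' : φ c ≠ 0 := fun h0 => hc (hinj (by rw [h0, map_zero]))
  have hd' : φ d ≠ 0 := fun h0 => hd0 (hinj (by rw [h0, map_zero]))
  have h1 : Ideal.span {φ c} * A.map φ = Ideal.span {φ d} * B.map φ := by
    have h2 := congrArg (Ideal.map φ) hcd
    rw [Ideal.map_mul, Ideal.map_mul, Ideal.map_span, Ideal.map_span, Set.image_singleton,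
      Set.image_singleton] at h2
    exact h2
  have hBm : B.map φ ≠ ⊥ := Ideal.map_ne_bot_of_ne_bot hB
  have h2 : Ideal.span {x * φ d} = Ideal.span {y * φ c} := by
    apply mul_right_cancel₀ hBm
    rw [← Ideal.span_singleton_mul_span_singleton, ← Ideal.span_singleton_mul_span_singleton,
      mul_assoc, ← h1]
    calc Ideal.span {x} * (Ideal.span {φ c} * A.map φ)
        = (Ideal.span {x} * A.map φ) * Ideal.span {φ c} := by ring
      _ = _ := by rw [h]; ring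
  rw [Ideal.span_singleton_eq_span_singleton] at h2
  obtain ⟨v, hv⟩ := h2
  -- `x d v = y c`
  have h3 := congrArg (fun z => σ • z) hv
  simp only [smul_mul', hux, hwy] at h3
  have hsd : σ • φ d = φ d := smul_algebraMap σ d
  have hsc : σ • φ c = φ c := smul_algebraMap σ c
  rw [hsd, hsc] at h3
  have h4 : (u : 𝓞 L) * (σ • (v : 𝓞 L)) = w * v := by
    apply mul_left_cancel₀ (mul_ne_zero hx hd')
    linear_combination h3 - (w : 𝓞 L) * hv
  have h5 : u * (σ • v) = w * v := by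
    ext
    exact congrArg _ h4
  have h6 : u = w * v * (σ • v)⁻¹ := eq_mul_inv_of_mul_eq h5
  refine ⟨v⁻¹, ?_⟩
  rw [dHom_apply, smul_inv', div_inv_eq_mul, h6, mul_assoc, mul_div_cancel_left, mul_comm]

/-- the data of a unit of norm `1` -/
theorem unit_data (hd : finrank K L = p) (σ : Gal(L/K))
    (hσ : ∀ x, x ∈ Subgroup.zpowers σ) {u : (𝓞 L)ˣ} (hu : nHom σ p u = 1) :
    ∃ b : 𝓞 L, b ≠ 0 ∧ σ • b = u * b ∧ ∀ g : Gal(L/K), g • Ideal.span {b} = Ideal.span {b} := by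
  obtain ⟨b, hb, h1⟩ := hilbert90 hd σ hσ (u : 𝓞 L) 1 (Units.ne_zero u) one_ne_zero (by
    have h2 := congrArg (Units.val) hu
    rw [nHom_apply, Units.coe_prod] at h2
    simp only [smul_one, Finset.prod_const_one]
    exact h2)
  rw [one_mul] at h1
  refine ⟨b, hb, h1.symm, fun g => ?_⟩
  have h3 : σ • Ideal.span {b} = Ideal.span {b} := by
    rw [Ideal.pointwise_smul_def, Ideal.map_span, Set.image_singleton]
    rw [Ideal.span_singleton_eq_span_singleton]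
    refine ⟨u⁻¹, ?_⟩
    show (σ • b) * _ = b
    rw [← h1, mul_comm, ← mul_assoc, Units.inv_mul, one_mul]
  have h4 : σ ∈ MulAction.stabilizer Gal(L/K) (Ideal.span {b}) := h3
  obtain ⟨k, hk⟩ := hσ g
  have h5 := Subgroup.zpow_mem _ h4 k
  have hk' : σ ^ k = g := hk
  rw [hk'] at h5
  exact h5

omit [NumberField L] in
theorem principal_of_mul {x c : 𝓞 L} {I : Ideal (𝓞 L)} (hc : Ideal.span {c} ≠ ⊥)
    (h : Ideal.span {x} = Ideal.span {c} * I) : I.IsPrincipal := by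
  have h2 : x ∈ Ideal.span {c} := by
    have h3 : x ∈ Ideal.span {x} := Ideal.mem_span_singleton_self _
    rw [h] at h3
    exact Ideal.mul_le_left h3
  rw [Ideal.mem_span_singleton] at h2
  obtain ⟨a, rfl⟩ := h2
  rw [← Ideal.span_singleton_mul_span_singleton] at h
  have h3 : I = Ideal.span {a} := by
    have hc0 : c ≠ 0 := by
      rw [Ne, Ideal.span_singleton_eq_bot] at hc
      exact hc
    exact ((Ideal.span_singleton_mul_right_inj hc0).1 h).symm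
  exact ⟨a, h3⟩

/-- T6b: everything unramified -/
theorem relIndex_unram (hp : p.Prime) (hd : finrank K L = p) (σ : Gal(L/K))
    (hσ : ∀ x, x ∈ Subgroup.zpowers σ)
    (hram : ∀ Q : Ideal (𝓞 L), Q.IsPrime → Q ≠ ⊥ → Q.ramificationIdx (𝓞 K) = 1)
    (hK : ¬ p ∣ Nat.card (ClassGroup (𝓞 K))) :
    (dHom σ : (𝓞 L)ˣ →* (𝓞 L)ˣ).range.relIndex (nHom σ p).ker = 1 := by
  rw [Subgroup.relIndex_eq_one]
  intro u hu
  obtain ⟨b, hb, h1, h2⟩ := unit_data hd σ hσ hu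
  have hb0 : Ideal.span {b} ≠ ⊥ := by
    rw [Ne, Ideal.span_singleton_eq_bot]; exact hb
  obtain ⟨J, k, hJ, h3⟩ := invariant_ideal (K := K) (⊤ : Ideal (𝓞 L)) (Or.inl rfl) top_ne_bot
    (fun g => by rw [Ideal.pointwise_smul_def, Ideal.map_top])
    (fun Q h4 h5 _ => hram Q h4 h5) (Ideal.span {b}) hb0 h2
  have h4 : u / 1 ∈ (dHom σ : (𝓞 L)ˣ →* (𝓞 L)ˣ).range := by
    refine mem_range_of_ideal hp hd hK σ (x := b) (y := 1) hb one_ne_zero h1 ?_
      (A := ⊤) (B := J) top_ne_bot hJ ?_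
    · rw [smul_one, Units.val_one, mul_one]
    · rw [Ideal.map_top, Ideal.mul_top, h3, Ideal.span_singleton_one, Ideal.top_pow,
        Ideal.mul_top, Ideal.top_mul]
  rwa [div_one] at h4

/-- T6a -/
theorem relIndex_le (hp : p.Prime) (hd : finrank K L = p) (σ : Gal(L/K))
    (hσ : ∀ x, x ∈ Subgroup.zpowers σ) (𝔓 : Ideal (𝓞 L)) (hP : 𝔓.IsPrime) (h0 : 𝔓 ≠ ⊥)
    (hfix : ∀ g : Gal(L/K), g • 𝔓 = 𝔓)
    (hram : ∀ Q : Ideal (𝓞 L), Q.IsPrime → Q ≠ ⊥ → Q ≠ 𝔓 → Q.ramificationIdx (𝓞 K) = 1)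
    (hK : ¬ p ∣ Nat.card (ClassGroup (𝓞 K))) :
    (dHom σ : (𝓞 L)ˣ →* (𝓞 L)ˣ).range.relIndex (nHom σ p).ker ≤ p ∧
    (p ≤ (dHom σ : (𝓞 L)ˣ →* (𝓞 L)ˣ).range.relIndex (nHom σ p).ker →
      ∃ m : ℕ, m.Coprime p ∧ (𝔓 ^ m).IsPrincipal) := by
  set R := (dHom σ : (𝓞 L)ˣ →* (𝓞 L)ˣ).range with hR
  set N := (nHom σ p : (𝓞 L)ˣ →* (𝓞 L)ˣ).ker with hN
  have hdata : ∀ u : N, ∃ (b : 𝓞 L) (J : Ideal (𝓞 K)) (k : ℕ),
      b ≠ 0 ∧ σ • b = ((u : (𝓞 L)ˣ) : 𝓞 L) * b ∧ J ≠ ⊥ ∧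
        Ideal.span {b} = J.map (algebraMap (𝓞 K) (𝓞 L)) * 𝔓 ^ k := by
    intro u
    obtain ⟨b, hb, h1, h2⟩ := unit_data hd σ hσ u.2
    have hb0 : Ideal.span {b} ≠ ⊥ := by
      rw [Ne, Ideal.span_singleton_eq_bot]; exact hb
    obtain ⟨J, k, hJ, h3⟩ := invariant_ideal (K := K) 𝔓 (Or.inr hP) h0 hfix hram
      (Ideal.span {b}) hb0 h2
    exact ⟨b, J, k, hb, h1, hJ, h3⟩
  choose b J k hb hbu hJ hbJ using hdata
  obtain ⟨J₀, hJ₀, hPJ⟩ := pow_eq_map hp hd 𝔓 hP h0 hfix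
  have hmod : ∀ u w : N, (k u : ZMod p) = k w → (u : (𝓞 L)ˣ) / w ∈ R := by
    intro u w h
    rw [ZMod.natCast_eq_natCast_iff] at h
    obtain ⟨s, s', hs⟩ : ∃ s s' : ℕ, k u + p * s = k w + p * s' := by
      rcases le_total (k u) (k w) with h1 | h1
      · obtain ⟨t, ht⟩ := (Nat.modEq_iff_dvd' h1).1 h
        exact ⟨t, 0, by omega⟩
      · obtain ⟨t, ht⟩ := (Nat.modEq_iff_dvd' h1).1 h.symm
        exact ⟨0, t, by omega⟩
    refine mem_range_of_ideal hp hd hK σ (hb u) (hb w) (hbu u) (hbu w)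
      (A := J w * J₀ ^ s) (B := J u * J₀ ^ s') (mul_ne_zero (hJ w) (pow_ne_zero _ hJ₀))
      (mul_ne_zero (hJ u) (pow_ne_zero _ hJ₀)) ?_
    rw [Ideal.map_mul, Ideal.map_mul, Ideal.map_pow, Ideal.map_pow, ← hPJ, hbJ u, hbJ w,
      ← pow_mul, ← pow_mul]
    calc (J u).map (algebraMap (𝓞 K) (𝓞 L)) * 𝔓 ^ k u *
          ((J w).map (algebraMap (𝓞 K) (𝓞 L)) * 𝔓 ^ (p * s))
        = (J u).map (algebraMap (𝓞 K) (𝓞 L)) * (J w).map (algebraMap (𝓞 K) (𝓞 L)) *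
          𝔓 ^ (k u + p * s) := by rw [pow_add]; ring
      _ = _ := by rw [hs, pow_add]; ring
  let φ : N ⧸ R.subgroupOf N → ZMod p := fun q => (k q.out : ZMod p)
  have hφ : Function.Injective φ := by
    intro q q' h
    have h1 := hmod q.out q'.out h
    rw [← QuotientGroup.out_eq' q, ← QuotientGroup.out_eq' q']
    rw [QuotientGroup.eq, Subgroup.mem_subgroupOf]
    have h2 := R.inv_mem h1
    rw [inv_div] at h2
    have h3 : ((q.out⁻¹ * q'.out : N) : (𝓞 L)ˣ) = (q'.out : (𝓞 L)ˣ) / q.out := by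
      rw [Subgroup.coe_mul, Subgroup.coe_inv, div_eq_mul_inv, mul_comm]
    rw [h3]
    exact h2
  have : NeZero p := ⟨hp.ne_zero⟩
  have hcard : Nat.card (ZMod p) = p := Nat.card_zmod p
  have hfin : Finite (N ⧸ R.subgroupOf N) := Finite.of_injective φ hφ
  have hrel : R.relIndex N = Nat.card (N ⧸ R.subgroupOf N) := rfl
  constructor
  · rw [hrel, ← hcard]
    exact Nat.card_le_card_of_injective φ hφ
  · intro hle
    have hsurj : Function.Surjective φ := by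
      have hbij := Function.Injective.bijective_of_nat_card_le hφ (by rw [hcard]; exact hle)
      exact hbij.2
    obtain ⟨q, hq⟩ := hsurj 1
    set u := q.out with hu
    have hk1 : k u ≡ 1 [MOD p] := by
      rw [← ZMod.natCast_eq_natCast_iff]
      have h1 : ((k u : ℕ) : ZMod p) = 1 := hq
      rw [h1, Nat.cast_one]
    set h := Nat.card (ClassGroup (𝓞 K)) with hh
    have hJu : (J u ^ h).IsPrincipal := by
      have h1 : J u ^ h ∈ (Ideal (𝓞 K))⁰ := mem_nonZeroDivisors_of_ne_zero (pow_ne_zero _ (hJ u))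
      rw [← ClassGroup.mk0_eq_one_iff h1]
      have h2 : (⟨J u ^ h, h1⟩ : (Ideal (𝓞 K))⁰) =
          (⟨J u, mem_nonZeroDivisors_of_ne_zero (hJ u)⟩ : (Ideal (𝓞 K))⁰) ^ h := rfl
      rw [h2, map_pow, hh]
      exact pow_card_eq_one'
    obtain ⟨c, hc⟩ := hJu
    have hc' : J u ^ h = Ideal.span {c} := hc
    set φ' := algebraMap (𝓞 K) (𝓞 L) with hφ'
    have hcne : Ideal.span {φ' c} ≠ ⊥ := by
      have h1 := Ideal.map_ne_bot_of_ne_bot (S := 𝓞 L) (pow_ne_zero h (hJ u))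
      rw [hc', Ideal.map_span, Set.image_singleton] at h1
      exact h1
    have h1 : Ideal.span {b u ^ h} = Ideal.span {φ' c} * 𝔓 ^ (k u * h) := by
      rw [← Ideal.span_singleton_pow, hbJ u, mul_pow, ← pow_mul, ← Ideal.map_pow, hc',
        Ideal.map_span, Set.image_singleton]
    refine ⟨k u * h, ?_, ?_⟩
    · apply Nat.Coprime.mul_left
      · rw [Nat.coprime_iff_gcd_eq_one, hk1.gcd_eq, Nat.gcd_one_left]
      · exact ((Nat.Prime.coprime_iff_not_dvd hp).2 hK).symm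
    · exact principal_of_mul hcne h1

end

end Pool.Agent.Work.Mu22
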