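import Pool.Agent.Work.MP_a4986b_nt.Defs
import Pool.Agent.Work.MP_a4986b_nt.Herb70

set_option autoImplicit false
set_option maxHeartbeats 400000

/-! # T1: the lattice lemma (helper70) -/

namespace Pool.Agent.Work.Mu22

open NumberField Module
open scoped Pointwise nonZeroDivisors ENNReal Real

/-- T1 -/
theorem lattice {A : Type*} [AddCommGroup A] [Module.Free ℤ A] [Module.Finite ℤ A] {p : ℕ}
    (hp : p.Prime) (σ : A →ₗ[ℤ] A) (hσ : σ ^ p = 1) (r : ℕ)
    (h1 : p * (r + 1) ≤ finrank ℤ A + 1)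
    (h2 : finrank ℤ (LinearMap.ker (σ - 1)) ≤ r) :
    (LinearMap.range (∑ i ∈ Finset.range p, σ ^ i)).toAddSubgroup.relIndex
      (LinearMap.ker (σ - 1)).toAddSubgroup ≠ 0 ∧
    (LinearMap.range (σ - 1)).toAddSubgroup.relIndex
      (LinearMap.ker (∑ i ∈ Finset.range p, σ ^ i)).toAddSubgroup ≠ 0 ∧
    p * (LinearMap.range (∑ i ∈ Finset.range p, σ ^ i)).toAddSubgroup.relIndex
      (LinearMap.ker (σ - 1)).toAddSubgroup ≤
    (LinearMap.range (σ - 1)).toAddSubgroup.relIndex
      (LinearMap.ker (∑ i ∈ Finset.range p, σ ^ i)).toAddSubgroup := by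
  set s : AddMonoid.End A := σ.toAddMonoidHom with hs
  have hpow : ∀ (i : ℕ) (x : A), (s ^ i) x = (σ ^ i) x := by
    intro i
    induction i with
    | zero => intro x; rfl
    | succ i ih =>
      intro x
      rw [pow_succ, pow_succ]
      exact ih (σ x)
  have hs1 : s ^ p = 1 := by
    apply AddMonoidHom.ext
    intro x
    exact (hpow p x).trans (by rw [hσ]; rfl)
  set D : AddMonoid.End A := 1 - s with hD
  set N : AddMonoid.End A := ∑ i ∈ Finset.range p, s ^ i with hN
  have hDx : ∀ x, D x = x - σ x := fun x => rfl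
  have hNx : ∀ x, N x = ∑ i ∈ Finset.range p, (σ ^ i) x := by
    intro x
    have h3 : N x = ∑ i ∈ Finset.range p, (s ^ i) x := AddMonoidHom.finsetSum_apply _ _ _
    rw [h3]
    exact Finset.sum_congr rfl fun i _ => hpow i x
  have e1 : AddMonoidHom.ker D = (LinearMap.ker (σ - 1)).toAddSubgroup := by
    ext x
    rw [AddMonoidHom.mem_ker, Submodule.mem_toAddSubgroup, LinearMap.mem_ker,
      LinearMap.sub_apply, Module.End.one_apply, sub_eq_zero]
    constructor
    · intro h
      exact (sub_eq_zero.1 h).symm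
    · intro h
      exact sub_eq_zero.2 h.symm
  have e2 : AddMonoidHom.range D = (LinearMap.range (σ - 1)).toAddSubgroup := by
    ext x
    rw [AddMonoidHom.mem_range, Submodule.mem_toAddSubgroup, LinearMap.mem_range]
    constructor
    · rintro ⟨y, hy⟩
      refine ⟨-y, ?_⟩
      rw [← hy, LinearMap.sub_apply, Module.End.one_apply, map_neg]
      show -(σ y) - -y = y - σ y
      abel
    · rintro ⟨y, hy⟩
      refine ⟨-y, ?_⟩
      rw [← hy, LinearMap.sub_apply, Module.End.one_apply]
      show -y - σ (-y) = σ y - y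
      rw [map_neg]
      abel
  have e3 : AddMonoidHom.ker N = (LinearMap.ker (∑ i ∈ Finset.range p, σ ^ i)).toAddSubgroup := by
    ext x
    rw [AddMonoidHom.mem_ker, Submodule.mem_toAddSubgroup, LinearMap.mem_ker,
      LinearMap.sum_apply, ← hNx]
    rfl
  have e4 : AddMonoidHom.range N =
      (LinearMap.range (∑ i ∈ Finset.range p, σ ^ i)).toAddSubgroup := by
    ext x
    rw [AddMonoidHom.mem_range, Submodule.mem_toAddSubgroup, LinearMap.mem_range]
    constructor
    · rintro ⟨y, hy⟩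
      exact ⟨y, by rw [← hy, LinearMap.sum_apply]; exact (hNx y).symm⟩
    · rintro ⟨y, hy⟩
      exact ⟨y, by rw [← hy, LinearMap.sum_apply]; exact hNx y⟩
  rw [← e1, ← e2, ← e3, ← e4]
  refine MP_a4986b_nt.Herb.herb hp s hs1 r D N hD hN h1 ?_
  rw [e1]
  exact h2

end Pool.Agent.Work.Mu22
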