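import Pool.Agent.Work.MP_a4986b_nt.Defs

set_option autoImplicit false
set_option maxHeartbeats 400000

namespace Pool.Agent.Work.Mu22

open NumberField Module

variable {K : Type*} [Field K] [NumberField K]

/-- an ideal of norm `m` contains `m` -/
theorem natCast_mem_of_norm {I : Ideal (𝓞 K)} {m : ℕ} (h : Ideal.absNorm I = m) :
    (m : 𝓞 K) ∈ I := by
  rw [← h]; exact Ideal.absNorm_mem I

omit [NumberField K] in
theorem span_pair_top {m n : ℕ} (h : m.Coprime n) :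
    Ideal.span {(m : 𝓞 K)} ⊔ Ideal.span {(n : 𝓞 K)} = ⊤ := by
  rw [Ideal.eq_top_iff_one]
  have h1 : IsCoprime (m : ℤ) (n : ℤ) := Nat.isCoprime_iff_coprime.2 h
  obtain ⟨a, b, hab⟩ := h1
  have h2 : (1 : 𝓞 K) = (a : 𝓞 K) * (m : 𝓞 K) + (b : 𝓞 K) * (n : 𝓞 K) := by
    have := congrArg (fun z : ℤ => (z : 𝓞 K)) hab
    push_cast at this
    exact this.symm
  rw [h2]
  exact Ideal.add_mem _ (Ideal.mem_sup_left (Ideal.mul_mem_left _ _ (Ideal.mem_span_singleton_self _)))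
    (Ideal.mem_sup_right (Ideal.mul_mem_left _ _ (Ideal.mem_span_singleton_self _)))

/-- `(I + (m)) (I + (n)) = I` -/
theorem sup_mul_sup {m n : ℕ} (h : m.Coprime n) {I : Ideal (𝓞 K)}
    (hI : Ideal.absNorm I = m * n) :
    (I ⊔ Ideal.span {(m : 𝓞 K)}) * (I ⊔ Ideal.span {(n : 𝓞 K)}) = I := by
  have hmn : (m : 𝓞 K) * (n : 𝓞 K) ∈ I := by
    have := natCast_mem_of_norm hI
    simpa using this
  apply le_antisymm
  · rw [Ideal.sup_mul, Ideal.mul_sup, Ideal.mul_sup]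
    refine sup_le (sup_le Ideal.mul_le_right Ideal.mul_le_left) (sup_le Ideal.mul_le_right ?_)
    rw [Ideal.span_singleton_mul_span_singleton, Ideal.span_singleton_le_iff_mem]
    exact hmn
  · intro x hx
    have h1 : (1 : 𝓞 K) ∈ Ideal.span {(m : 𝓞 K)} ⊔ Ideal.span {(n : 𝓞 K)} := by
      rw [span_pair_top h]; trivial
    obtain ⟨a, ha, b, hb, hab⟩ := Submodule.mem_sup.1 h1
    have h2 : x = a * x + x * b := by
      calc x = (a + b) * x := by rw [hab, one_mul]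
        _ = _ := by ring
    rw [h2]
    exact Ideal.add_mem _ (Ideal.mul_mem_mul (Ideal.mem_sup_right ha) (Ideal.mem_sup_left hx))
      (Ideal.mul_mem_mul (Ideal.mem_sup_left hx) (Ideal.mem_sup_right hb))

/-- the norm of `I + (m)` is coprime to `n` -/
theorem coprime_norm_sup {m n : ℕ} (h : m.Coprime n) (I : Ideal (𝓞 K)) :
    (Ideal.absNorm (I ⊔ Ideal.span {(m : 𝓞 K)})).Coprime n := by
  have h1 : Ideal.absNorm (I ⊔ Ideal.span {(m : 𝓞 K)}) ∣ Ideal.absNorm (Ideal.span {(m : 𝓞 K)}) :=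
    Ideal.absNorm_dvd_absNorm_of_le le_sup_right
  have h2 : Ideal.absNorm (Ideal.span {(m : 𝓞 K)}) = m ^ finrank ℤ (𝓞 K) := by
    exact Ideal.absNorm_span_natCast m
  rw [h2] at h1
  exact Nat.Coprime.coprime_dvd_left h1 (Nat.Coprime.pow_left _ h)

theorem norm_sup {m n : ℕ} (hm : m ≠ 0) (hn : n ≠ 0) (h : m.Coprime n) {I : Ideal (𝓞 K)}
    (hI : Ideal.absNorm I = m * n) :
    Ideal.absNorm (I ⊔ Ideal.span {(m : 𝓞 K)}) = m ∧
      Ideal.absNorm (I ⊔ Ideal.span {(n : 𝓞 K)}) = n := by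
  have h1 := congrArg Ideal.absNorm (sup_mul_sup h hI)
  rw [map_mul, hI] at h1
  set A := Ideal.absNorm (I ⊔ Ideal.span {(m : 𝓞 K)})
  set B := Ideal.absNorm (I ⊔ Ideal.span {(n : 𝓞 K)})
  have hA : A ∣ m := (coprime_norm_sup h I).dvd_of_dvd_mul_right (h1 ▸ Dvd.intro _ rfl)
  have hB : B ∣ n := (coprime_norm_sup h.symm I).dvd_of_dvd_mul_left (h1 ▸ Dvd.intro_left _ rfl)
  have hAm : A ≤ m := Nat.le_of_dvd (Nat.pos_of_ne_zero hm) hA
  have hBn : B ≤ n := Nat.le_of_dvd (Nat.pos_of_ne_zero hn) hB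
  have hm0 : 0 < m := Nat.pos_of_ne_zero hm
  have hn0 : 0 < n := Nat.pos_of_ne_zero hn
  constructor <;> nlinarith

theorem sup_eq_left {m n : ℕ} (h : m.Coprime n) {A B : Ideal (𝓞 K)}
    (hA : Ideal.absNorm A = m) (hB : Ideal.absNorm B = n) :
    A * B ⊔ Ideal.span {(m : 𝓞 K)} = A := by
  have hmA := natCast_mem_of_norm hA
  have hnB := natCast_mem_of_norm hB
  apply le_antisymm
  · exact sup_le Ideal.mul_le_left ((Ideal.span_singleton_le_iff_mem _).2 hmA)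
  · intro x hx
    have h1 : (1 : 𝓞 K) ∈ Ideal.span {(m : 𝓞 K)} ⊔ Ideal.span {(n : 𝓞 K)} := by
      rw [span_pair_top h]; trivial
    obtain ⟨a, ha, b, hb, hab⟩ := Submodule.mem_sup.1 h1
    have h2 : x = x * b + x * a := by
      calc x = x * (a + b) := by rw [hab, mul_one]
        _ = _ := by ring
    rw [h2]
    refine Ideal.add_mem _ (Ideal.mem_sup_left (Ideal.mul_mem_mul hx ?_))
      (Ideal.mem_sup_right (Ideal.mul_mem_left _ _ ha))
    exact (Ideal.span_singleton_le_iff_mem B).2 hnB hb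

/-- D1: multiplicativity of the number of ideals of given norm -/
theorem card_norm_mul {m n : ℕ} (hm : m ≠ 0) (hn : n ≠ 0) (h : m.Coprime n) :
    Nat.card {I : Ideal (𝓞 K) // Ideal.absNorm I = m * n} =
      Nat.card {I : Ideal (𝓞 K) // Ideal.absNorm I = m} *
        Nat.card {I : Ideal (𝓞 K) // Ideal.absNorm I = n} := by
  rw [← Nat.card_prod]
  refine Nat.card_congr
    { toFun := fun I => (⟨I.1 ⊔ Ideal.span {(m : 𝓞 K)}, (norm_sup hm hn h I.2).1⟩,
        ⟨I.1 ⊔ Ideal.span {(n : 𝓞 K)}, (norm_sup hm hn h I.2).2⟩)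
      invFun := fun P => ⟨P.1.1 * P.2.1, by rw [map_mul, P.1.2, P.2.2]⟩
      left_inv := fun I => Subtype.ext (sup_mul_sup h I.2)
      right_inv := fun P => ?_ }
  refine Prod.ext (Subtype.ext ?_) (Subtype.ext ?_)
  · exact sup_eq_left h P.1.2 P.2.2
  · show P.1.1 * P.2.1 ⊔ _ = P.2.1
    rw [mul_comm]
    exact sup_eq_left h.symm P.2.2 P.1.2

end Pool.Agent.Work.Mu22
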