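import Pool.Agent.Work.MP_a4986b_nt.Defs

set_option autoImplicit false
set_option maxHeartbeats 400000

/-! # The norm of a cubic field of signature (1, 1) -/

namespace Pool.Agent.Work.Mu22

open NumberField Module MeasureTheory
open scoped Pointwise nonZeroDivisors ENNReal Real

variable {K : Type*} [Field K]

theorem embeddings_ne (φ : K →+* ℝ) (ψ : K →+* ℂ) (hψ : ¬ ComplexEmbedding.IsReal ψ) :
    Complex.ofRealHom.comp φ ≠ ψ ∧ Complex.ofRealHom.comp φ ≠ ComplexEmbedding.conjugate ψ ∧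
      ψ ≠ ComplexEmbedding.conjugate ψ := by
  refine ⟨?_, ?_, ?_⟩
  · intro h
    apply hψ
    rw [← h, ComplexEmbedding.isReal_iff]
    ext x
    simp
  · intro h
    apply hψ
    rw [ComplexEmbedding.isReal_iff, ← h]
    ext x
    have := congrArg (fun f : K →+* ℂ => (starRingEnd ℂ) (f x)) h
    simp at this
    simp [← this]
  · intro h
    exact hψ (ComplexEmbedding.isReal_iff.mpr h.symm)

variable [NumberField K]

/-- the three complex embeddings of a cubic field of signature (1, 1) -/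
theorem univ_embeddings (h3 : finrank ℚ K = 3) (φ : K →+* ℝ) (ψ : K →+* ℂ)
    (hψ : ¬ ComplexEmbedding.IsReal ψ) [DecidableEq (K →+* ℂ)] :
    (Finset.univ : Finset (K →+* ℂ)) =
      {Complex.ofRealHom.comp φ, ψ, ComplexEmbedding.conjugate ψ} := by
  obtain ⟨h12, h13, h23⟩ := embeddings_ne φ ψ hψ
  symm
  apply Finset.eq_of_subset_of_card_le (Finset.subset_univ _)
  rw [Finset.card_univ, Embeddings.card, h3, Finset.card_insert_of_notMem,
    Finset.card_insert_of_notMem, Finset.card_singleton]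
  · simpa using h23
  · simp only [Finset.mem_insert, Finset.mem_singleton, not_or]
    exact ⟨h12, h13⟩

theorem norm_eq_prod (h3 : finrank ℚ K = 3) (φ : K →+* ℝ) (ψ : K →+* ℂ)
    (hψ : ¬ ComplexEmbedding.IsReal ψ) (x : K) :
    ((Algebra.norm ℚ x : ℚ) : ℝ) = φ x * ‖ψ x‖ ^ 2 := by
  classical
  obtain ⟨h12, h13, h23⟩ := embeddings_ne φ ψ hψ
  have h1 := Algebra.norm_eq_prod_embeddings ℚ ℂ x
  have h2 : (∏ σ : K →ₐ[ℚ] ℂ, σ x) = ∏ σ : K →+* ℂ, σ x :=
    (Fintype.prod_equiv (RingHom.equivRatAlgHom (R := K) (S := ℂ)) (fun σ : K →+* ℂ => σ x)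
      (fun σ : K →ₐ[ℚ] ℂ => σ x) (fun σ => rfl)).symm
  rw [h2, univ_embeddings h3 φ ψ hψ, Finset.prod_insert, Finset.prod_insert,
    Finset.prod_singleton] at h1
  · apply Complex.ofReal_injective
    have h4 : ψ x * (ComplexEmbedding.conjugate ψ) x = ((‖ψ x‖ ^ 2 : ℝ) : ℂ) := by
      rw [ComplexEmbedding.conjugate_coe_eq, Complex.mul_conj, Complex.normSq_eq_norm_sq]
    rw [h4] at h1
    simp only [RingHom.comp_apply, eq_ratCast, Complex.ofRealHom_eq_coe] at h1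
    push_cast at h1 ⊢
    exact h1
  · simpa using h23
  · simp only [Finset.mem_insert, Finset.mem_singleton, not_or]
    exact ⟨h12, h13⟩

/-- the norm of a principal ideal -/
theorem absNorm_eq_prod (h3 : finrank ℚ K = 3) (φ : K →+* ℝ) (ψ : K →+* ℂ)
    (hψ : ¬ ComplexEmbedding.IsReal ψ) (x : 𝓞 K) :
    (Ideal.absNorm (Ideal.span {x}) : ℝ) = |φ x| * ‖ψ x‖ ^ 2 := by
  rw [Ideal.absNorm_span_singleton]
  have h1 : (((Algebra.norm ℤ x).natAbs : ℕ) : ℝ) = |((Algebra.norm ℤ x : ℤ) : ℝ)| := by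
    rw [Nat.cast_natAbs, Int.cast_abs]
  have h2 : ((Algebra.norm ℤ x : ℤ) : ℝ) = ((Algebra.norm ℚ (x : K) : ℚ) : ℝ) := by
    rw [← Algebra.coe_norm_int, Rat.cast_intCast]
  rw [h1, h2, norm_eq_prod h3 φ ψ hψ, abs_mul, abs_of_nonneg (sq_nonneg ‖ψ (x : K)‖)]

/-- the units have norm one -/
theorem unit_norm (h3 : finrank ℚ K = 3) (φ : K →+* ℝ) (ψ : K →+* ℂ)
    (hψ : ¬ ComplexEmbedding.IsReal ψ) (u : (𝓞 K)ˣ) :
    |φ (u : 𝓞 K)| * ‖ψ (u : 𝓞 K)‖ ^ 2 = 1 := by
  rw [← absNorm_eq_prod h3 φ ψ hψ, Ideal.span_singleton_eq_top.mpr u.isUnit]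
  simp

end Pool.Agent.Work.Mu22
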