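import Mathlib

set_option autoImplicit false
set_option maxHeartbeats 400000
set_option linter.unusedSectionVars false

/-! # D1 and D2: primes of `E` above `q` as orbits of the decomposition group -/

namespace Pool.Agent.Work.MuB

open NumberField Module MeasureTheory NumberField.InfinitePlace NumberField.Units
open scoped nonZeroDivisors ENNReal NNReal Real Pointwise

section Dict

variable {E L : Type*} [Field E] [NumberField E] [Field L] [NumberField L] [IsGalois ℚ L]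

omit [IsGalois ℚ L] in
theorem qd_smul_coe (g : L ≃ₐ[ℚ] L) (x : 𝓞 L) : ((g • x : 𝓞 L) : L) = g (x : L) := rfl

omit [IsGalois ℚ L] in
theorem qd_liesOver (Q : Ideal (𝓞 L)) (hQ : Q.IsPrime) {q : ℕ} (hq : q.Prime)
    (hqQ : (q : 𝓞 L) ∈ Q) : Q.LiesOver (Ideal.span {(q : ℤ)}) := by
  constructor
  have hmax : (Ideal.span {(q : ℤ)}).IsMaximal :=
    PrincipalIdealRing.isMaximal_of_irreducible (Nat.prime_iff_prime_int.mp hq).irreducible
  have hne : Q.under ℤ ≠ ⊤ := by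
    rw [Ideal.ne_top_iff_one]
    intro h1
    have h2 : (algebraMap ℤ (𝓞 L)) 1 ∈ Q := h1
    rw [map_one] at h2
    exact hQ.ne_top ((Ideal.eq_top_iff_one _).mpr h2)
  have hle : Ideal.span {(q : ℤ)} ≤ Q.under ℤ := by
    rw [Ideal.span_le, Set.singleton_subset_iff]
    change (algebraMap ℤ (𝓞 L)) (q : ℤ) ∈ Q
    simpa using hqQ
  exact hmax.eq_of_le hne hle

omit [IsGalois ℚ L] in
theorem qd_comap_comp (Q : Ideal (𝓞 L)) (g : L ≃ₐ[ℚ] L) (ι : E →+* L) :
    (g • Q).comap (RingOfIntegers.mapRingHom ((g : L →+* L).comp ι)) =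
      Q.comap (RingOfIntegers.mapRingHom ι) := by
  ext x
  rw [Ideal.mem_comap, Ideal.mem_comap]
  have h1 : RingOfIntegers.mapRingHom ((g : L →+* L).comp ι) x =
      g • RingOfIntegers.mapRingHom ι x := by
    apply RingOfIntegers.ext
    rfl
  rw [h1, Ideal.smul_mem_pointwise_smul_iff]

/-- D1: primes of `E` above `q` are `ι⁻¹(Q)` for the embeddings `ι : E → L` -/
theorem exists_comap_eq (Q : Ideal (𝓞 L)) (hQ : Q.IsPrime) {q : ℕ} (hq : q.Prime)
    (hqQ : (q : 𝓞 L) ∈ Q) (hE : Nonempty (E →+* L)) (P : Ideal (𝓞 E)) (hP : P.IsPrime)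
    (hqP : (q : 𝓞 E) ∈ P) :
    ∃ ι : E →+* L, P = Q.comap (RingOfIntegers.mapRingHom ι) := by
  obtain ⟨j⟩ := hE
  let _ : Algebra E L := j.toAlgebra
  obtain ⟨⟨Q1, hQ1, hQ1P⟩⟩ := P.nonempty_primesOver (S := 𝓞 L)
  have hP1 : P = Q1.comap (RingOfIntegers.mapRingHom j) := hQ1P.over
  have hq1 : (q : 𝓞 L) ∈ Q1 := by
    have := hP1 ▸ hqP
    rw [Ideal.mem_comap, map_natCast] at this
    exact this
  have := qd_liesOver Q hQ hq hqQ
  have := qd_liesOver Q1 hQ1 hq hq1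
  obtain ⟨g, hg⟩ := Ideal.exists_smul_eq_of_isGaloisGroup (Ideal.span {(q : ℤ)}) Q1 Q (L ≃ₐ[ℚ] L)
  refine ⟨(g : L →+* L).comp j, ?_⟩
  rw [← hg, qd_comap_comp]
  exact hP1

/-- D2: when two embeddings give the same prime -/
theorem comap_eq_comap_iff (Q : Ideal (𝓞 L)) (hQ : Q.IsPrime) {q : ℕ} (hq : q.Prime)
    (hqQ : (q : 𝓞 L) ∈ Q) (ι j : E →+* L) :
    Q.comap (RingOfIntegers.mapRingHom ι) = Q.comap (RingOfIntegers.mapRingHom j) ↔
      ∃ g : L ≃ₐ[ℚ] L, g • Q = Q ∧ j = (g : L →+* L).comp ι := by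
  constructor
  · intro h
    let _ : Algebra E L := ι.toAlgebra
    have : IsGalois E L := IsGalois.tower_top_of_isGalois ℚ E L
    -- `j = g ∘ ι`
    obtain ⟨g, hg⟩ : ∃ g : L ≃ₐ[ℚ] L, j = (g : L →+* L).comp ι := by
      let J : E →ₐ[ℚ] L := j.toRatAlgHom
      let G : L →ₐ[ℚ] L := J.liftNormal L
      refine ⟨AlgEquiv.ofBijective G (Algebra.IsAlgebraic.algHom_bijective G), ?_⟩
      ext x
      exact (J.liftNormal_commutes L x).symm
    have h2 : (g⁻¹ • Q).comap (RingOfIntegers.mapRingHom ι) =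
        Q.comap (RingOfIntegers.mapRingHom j) := by
      rw [hg, ← qd_comap_comp (g⁻¹ • Q) g ι, smul_inv_smul]
    have h3 : (g⁻¹ • Q).under (𝓞 E) = Q.under (𝓞 E) := h2.trans h.symm
    have : Q.LiesOver (Q.under (𝓞 E)) := ⟨rfl⟩
    have : (g⁻¹ • Q).LiesOver (Q.under (𝓞 E)) := ⟨h3.symm⟩
    have : (g⁻¹ • Q).IsPrime := inferInstance
    obtain ⟨s, hs⟩ := Ideal.exists_smul_eq_of_isGaloisGroup (Q.under (𝓞 E)) Q (g⁻¹ • Q)
      (L ≃ₐ[E] L)
    refine ⟨g * s.restrictScalars ℚ, ?_, ?_⟩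
    · rw [mul_smul]
      have h5 : s.restrictScalars ℚ • Q = g⁻¹ • Q := by
        rw [← hs]
        ext x
        rfl
      rw [h5, smul_inv_smul]
    · rw [hg]
      ext x
      have h6 : s (ι x) = ι x := s.commutes x
      simp [h6]
  · rintro ⟨g, hg, rfl⟩
    conv_rhs => rw [← hg]
    rw [qd_comap_comp]

end Dict

end Pool.Agent.Work.MuB
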