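import Mathlib
import Pool.Agent.Work.MP_a4986b_nt.QDict

set_option autoImplicit false
set_option maxHeartbeats 400000
set_option linter.unusedSectionVars false

/-! # D3: the norm of a prime in terms of orbits of the decomposition and inertia groups -/

namespace Pool.Agent.Work.MuB

open NumberField Module MeasureTheory NumberField.InfinitePlace NumberField.Units
open scoped nonZeroDivisors ENNReal NNReal Real Pointwise

theorem perfect_residue {R : Type*} [CommRing R] (p : Ideal R) [hp : p.IsMaximal]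
    [Finite (R ⧸ p)] : PerfectField p.ResidueField := by
  have : Finite p.ResidueField :=
    Finite.of_surjective _ (Ideal.bijective_algebraMap_quotient_residueField p).2
  infer_instance

section Norm

variable {E L : Type*} [Field E] [NumberField E] [Field L] [NumberField L]

/-- orbit of an embedding under a subgroup of the Galois group -/
theorem orbit_ncard (S : Subgroup (L ≃ₐ[ℚ] L)) (ι : E →+* L) :
    {j : E →+* L | ∃ g ∈ S, j = (g : L →+* L).comp ι}.ncard *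
      Nat.card {g : S // (((g : L ≃ₐ[ℚ] L) : L →+* L)).comp ι = ι} = Nat.card S := by
  let act : MulAction (L ≃ₐ[ℚ] L) (E →+* L) :=
    { smul := fun g j => (g : L →+* L).comp j
      one_smul := fun j => by ext; rfl
      mul_smul := fun g h j => by ext; rfl }
  have h := Nat.card_congr (MulAction.orbitProdStabilizerEquivGroup S ι)
  rw [Nat.card_prod] at h
  have e1 : {j : E →+* L | ∃ g ∈ S, j = (g : L →+* L).comp ι} = MulAction.orbit S ι := by
    ext j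
    constructor
    · rintro ⟨g, hg, rfl⟩
      exact ⟨⟨g, hg⟩, rfl⟩
    · rintro ⟨⟨g, hg⟩, rfl⟩
      exact ⟨g, hg, rfl⟩
  rw [e1, ← h]
  rfl

/-- the stabilizer of an embedding in a subgroup -/
theorem stab_card [Algebra E L] (S : Subgroup (L ≃ₐ[ℚ] L)) (T : Subgroup (L ≃ₐ[E] L))
    (h : ∀ s : L ≃ₐ[E] L, s ∈ T ↔ s.restrictScalars ℚ ∈ S) :
    Nat.card T =
      Nat.card {g : S // (((g : L ≃ₐ[ℚ] L) : L →+* L)).comp (algebraMap E L) = algebraMap E L} := by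
  refine Nat.card_congr (Equiv.ofBijective
    (fun s => ⟨⟨(s : L ≃ₐ[E] L).restrictScalars ℚ, (h s).mp s.2⟩, ?_⟩) ⟨?_, ?_⟩)
  · ext x
    exact (s : L ≃ₐ[E] L).commutes x
  · intro s t hst
    have h1 : (s : L ≃ₐ[E] L).restrictScalars ℚ = (t : L ≃ₐ[E] L).restrictScalars ℚ :=
      congrArg (fun z => ((z.1 : S) : L ≃ₐ[ℚ] L)) hst
    apply Subtype.ext
    ext x
    exact congrArg (fun z : L ≃ₐ[ℚ] L => z x) h1
  · rintro ⟨⟨g, hg⟩, hgι⟩
    let s : L ≃ₐ[E] L := { g with commutes' := fun x => congrArg (fun f : E →+* L => f x) hgι }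
    have hs : s.restrictScalars ℚ = g := by ext x; rfl
    refine ⟨⟨s, (h s).mpr (by rw [hs]; exact hg)⟩, ?_⟩
    apply Subtype.ext
    apply Subtype.ext
    exact hs

variable [IsGalois ℚ L]

/-- D3: the norm of `ι⁻¹(Q)` is `q ^ f`, `f = |D ι| / |I ι|` (orbits of the decomposition group and
of the inertia group `g x - x ∈ Q` for all `x`) -/
theorem absNorm_comap (Q : Ideal (𝓞 L)) (hQ : Q.IsPrime) {q : ℕ} (hq : q.Prime)
    (hqQ : (q : 𝓞 L) ∈ Q) (ι : E →+* L) :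
    ∃ f : ℕ, Ideal.absNorm (Q.comap (RingOfIntegers.mapRingHom ι)) = q ^ f ∧
      f * {j : E →+* L | ∃ g : L ≃ₐ[ℚ] L, (∀ x : 𝓞 L, g • x - x ∈ Q) ∧
          j = (g : L →+* L).comp ι}.ncard =
        {j : E →+* L | ∃ g : L ≃ₐ[ℚ] L, g • Q = Q ∧ j = (g : L →+* L).comp ι}.ncard := by
  let _ : Algebra E L := ι.toAlgebra
  have : IsGalois E L := IsGalois.tower_top_of_isGalois ℚ E L
  set P : Ideal (𝓞 E) := Q.under (𝓞 E) with hPdef
  have hP : P.IsPrime := inferInstance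
  have hqP : (q : 𝓞 E) ∈ P := by
    rw [hPdef, Ideal.under, Ideal.mem_comap, map_natCast]
    exact hqQ
  have : Q.LiesOver P := ⟨rfl⟩
  have := qd_liesOver P hP hq hqP
  have := qd_liesOver Q hQ hq hqQ
  have hmax : (Ideal.span {(q : ℤ)}).IsMaximal :=
    PrincipalIdealRing.isMaximal_of_irreducible (Nat.prime_iff_prime_int.mp hq).irreducible
  have hP0 : P ≠ ⊥ := by
    intro h
    rw [h] at hqP
    have : (q : 𝓞 E) = 0 := by simpa using hqP
    exact hq.ne_zero (by exact_mod_cast this)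
  have hPm : P.IsMaximal := hP.isMaximal hP0
  have : Finite (𝓞 E ⧸ P) := Ideal.finiteQuotientOfFreeOfNeBot P hP0
  have : Finite (ℤ ⧸ Ideal.span {(q : ℤ)}) :=
    Ideal.finiteQuotientOfFreeOfNeBot _ (by
      rw [Ne, Ideal.span_singleton_eq_bot]
      exact_mod_cast hq.ne_zero)
  have := perfect_residue P
  have := perfect_residue (Ideal.span {(q : ℤ)})
  refine ⟨P.inertiaDeg ℤ, (Ideal.pow_inertiaDeg q P).symm, ?_⟩
  have hD := Ideal.card_stabilizer_eq_card_inertia_mul_finrank (G := L ≃ₐ[ℚ] L)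
    (Ideal.span {(q : ℤ)}) Q
  have hH := Ideal.card_stabilizer_eq_card_inertia_mul_finrank (G := L ≃ₐ[E] L) P Q
  have ht : Q.inertiaDeg ℤ = P.inertiaDeg ℤ * Q.inertiaDeg (𝓞 E) := Ideal.inertiaDeg_tower P Q
  have o1 := orbit_ncard (Q.inertia (L ≃ₐ[ℚ] L)) ι
  have o2 := orbit_ncard (MulAction.stabilizer (L ≃ₐ[ℚ] L) Q) ι
  have c1 := stab_card (Q.inertia (L ≃ₐ[ℚ] L)) (Q.inertia (L ≃ₐ[E] L)) (fun s => Iff.rfl)
  have c2 := stab_card (MulAction.stabilizer (L ≃ₐ[ℚ] L) Q) (MulAction.stabilizer (L ≃ₐ[E] L) Q)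
    (fun s => Iff.rfl)
  have e1 : {j : E →+* L | ∃ g ∈ Q.inertia (L ≃ₐ[ℚ] L), j = (g : L →+* L).comp ι} =
      {j : E →+* L | ∃ g : L ≃ₐ[ℚ] L, (∀ x : 𝓞 L, g • x - x ∈ Q) ∧
          j = (g : L →+* L).comp ι} := rfl
  have e2 : {j : E →+* L | ∃ g ∈ MulAction.stabilizer (L ≃ₐ[ℚ] L) Q, j = (g : L →+* L).comp ι} =
      {j : E →+* L | ∃ g : L ≃ₐ[ℚ] L, g • Q = Q ∧ j = (g : L →+* L).comp ι} := rfl
  rw [e1] at o1
  rw [e2] at o2
  have c1' : Nat.card {g : Q.inertia (L ≃ₐ[ℚ] L) // (((g : L ≃ₐ[ℚ] L) : L →+* L)).comp ι = ι} =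
      Nat.card (Q.inertia (L ≃ₐ[E] L)) := c1.symm
  have c2' : Nat.card {g : MulAction.stabilizer (L ≃ₐ[ℚ] L) Q //
      (((g : L ≃ₐ[ℚ] L) : L →+* L)).comp ι = ι} =
      Nat.card (MulAction.stabilizer (L ≃ₐ[E] L) Q) := c2.symm
  rw [c1'] at o1
  rw [c2', hH, hD, ht, ← o1] at o2
  have p1 : 0 < Nat.card (Q.inertia (L ≃ₐ[E] L)) := Nat.card_pos
  have p2 : 0 < Q.inertiaDeg (𝓞 E) := Q.inertiaDeg_pos (𝓞 E)
  have p3 : 0 < Nat.card (Q.inertia (L ≃ₐ[E] L)) * Q.inertiaDeg (𝓞 E) := Nat.mul_pos p1 p2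
  refine Nat.eq_of_mul_eq_mul_right p3 ?_
  rw [o2]
  ring

end Norm

end Pool.Agent.Work.MuB
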