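import Mathlib

/-!
# The four embeddings of a quartic field and the three embeddings of its cubic resolvent field
-/

namespace Pool.Agent.Work.MuB

open Module Polynomial

theorem qp_ext {C L : Type} [Field C] [NumberField C] [Field L] [NumberField L] (θ : C)
    (h : IntermediateField.adjoin ℚ {θ} = ⊤) (j j' : C →+* L) (hj : j θ = j' θ) : j = j' := by
  have h1 : Algebra.adjoin ℚ {θ} = ⊤ :=
    Algebra.adjoin_eq_top_of_primitive_element (Algebra.IsAlgebraic.isAlgebraic θ) h
  have h2 : j.toRatAlgHom = j'.toRatAlgHom := by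
    apply AlgHom.ext_of_adjoin_eq_top h1
    intro x hx
    rw [Set.mem_singleton_iff] at hx
    subst hx
    exact hj
  ext x
  exact DFunLike.congr_fun h2 x

theorem qp_exists {C L : Type} [Field C] [NumberField C] [Field L] [NumberField L] (θ : C)
    (h : IntermediateField.adjoin ℚ {θ} = ⊤) (β : L) (hβ : aeval β (minpoly ℚ θ) = 0) :
    ∃ j : C →+* L, j θ = β := by
  have h1 : Algebra.adjoin ℚ {θ} = ⊤ :=
    Algebra.adjoin_eq_top_of_primitive_element (Algebra.IsAlgebraic.isAlgebraic θ) h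
  have hint : IsIntegral ℚ θ := Algebra.IsIntegral.isIntegral θ
  let pb := PowerBasis.ofAdjoinEqTop' hint h1
  have hg : pb.gen = θ := PowerBasis.ofAdjoinEqTop'_gen hint h1
  have h2 : aeval β (minpoly ℚ pb.gen) = 0 := by rw [hg]; exact hβ
  refine ⟨(pb.lift β h2 : C →ₐ[ℚ] L), ?_⟩
  have h3 : (pb.lift β h2) pb.gen = β := pb.lift_gen β h2
  have h4 : (pb.lift β h2) pb.gen = (pb.lift β h2) θ := congrArg _ hg
  exact h4.symm.trans h3

/-- the minimal polynomial of a generator is the given monic polynomial of the right degree -/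
theorem qp_minpoly {C : Type} [Field C] [NumberField C] (θ : C)
    (h : IntermediateField.adjoin ℚ {θ} = ⊤) (q : ℚ[X]) (hq : q.Monic)
    (hd : q.natDegree = finrank ℚ C) (h0 : aeval θ q = 0) : minpoly ℚ θ = q := by
  have h1 : (minpoly ℚ θ).natDegree = finrank ℚ C := by
    have h2 := IntermediateField.adjoin.finrank (Algebra.IsIntegral.isIntegral (R := ℚ) θ)
    rw [h, IntermediateField.finrank_top'] at h2
    exact h2.symm
  have h3 : minpoly ℚ θ ∣ q := minpoly.dvd ℚ θ h0
  exact (Polynomial.eq_of_monic_of_dvd_of_natDegree_le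
    (minpoly.monic (Algebra.IsIntegral.isIntegral (R := ℚ) θ)) hq h3 (by omega)).symm

theorem qp_card {F L : Type} [Field F] [NumberField F] [Field L] [NumberField L] [IsGalois ℚ L]
    (hL : Nonempty (F →+* L)) (α : F) (hα : IntermediateField.adjoin ℚ {α} = ⊤) :
    Nat.card (F →+* L) = finrank ℚ F := by
  obtain ⟨ι⟩ := hL
  rw [Nat.card_congr (RingHom.equivRatAlgHom F L)]
  have h1 : Algebra.adjoin ℚ {α} = ⊤ :=
    Algebra.adjoin_eq_top_of_primitive_element (Algebra.IsAlgebraic.isAlgebraic α) hα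
  have hint : IsIntegral ℚ α := Algebra.IsIntegral.isIntegral α
  let pb := PowerBasis.ofAdjoinEqTop' hint h1
  have hg : pb.gen = α := PowerBasis.ofAdjoinEqTop'_gen hint h1
  rw [AlgHom.natCard_of_powerBasis pb, pb.finrank]
  · exact Algebra.IsSeparable.isSeparable ℚ pb.gen
  · rw [hg]
    have h2 : minpoly ℚ α = minpoly ℚ (ι α) := by
      have := minpoly.algHom_eq ι.toRatAlgHom ι.injective α
      exact this.symm
    rw [h2]
    exact Normal.splits (F := ℚ) inferInstance (ι α)

/-- the value of the resolvent: two different roots of the quartic polynomial -/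
theorem qp_resolvent {L : Type} [Field L] (a b c e x y : L) (hxy : x ≠ y)
    (hx : x ^ 4 + a * x ^ 3 + b * x ^ 2 + c * x + e = 0)
    (hy : y ^ 4 + a * y ^ 3 + b * y ^ 2 + c * y + e = 0) :
    (b + (x + y) * (a + (x + y))) ^ 3 - b * (b + (x + y) * (a + (x + y))) ^ 2 +
      (a * c - 4 * e) * (b + (x + y) * (a + (x + y))) - (a ^ 2 * e - 4 * b * e + c ^ 2) = 0 := by
  obtain ⟨q, hq⟩ : ∃ q, q = b - x * y + (x + y) * (a + (x + y)) := ⟨_, rfl⟩
  have hb : b = q + x * y - (x + y) * (a + (x + y)) := by rw [hq]; ring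
  have h1 : (x - y) * (c + (x + y) * q - (x * y) * (a + (x + y))) = 0 := by
    rw [hb] at hx hy
    linear_combination hx - hy
  have h2 : c = (x * y) * (a + (x + y)) - (x + y) * q := by
    have := (mul_eq_zero.mp h1).resolve_left (sub_ne_zero.mpr hxy)
    linear_combination this
  have h3 : e = (x * y) * q := by
    rw [hb, h2] at hx
    linear_combination hx
  rw [h3, h2, hb]
  ring

theorem qp_double {L : Type} [Field L] (a b c e x y z : L) (hxy : x ≠ y) (hxz : x ≠ z)
    (hyz : y ≠ z)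
    (hx : x ^ 4 + a * x ^ 3 + b * x ^ 2 + c * x + e = 0)
    (hy : y ^ 4 + a * y ^ 3 + b * y ^ 2 + c * y + e = 0)
    (hz : z ^ 4 + a * z ^ 3 + b * z ^ 2 + c * z + e = 0) (h : a + (x + y) + (x + z) = 0) :
    4 * x ^ 3 + 3 * a * x ^ 2 + 2 * b * x + c = 0 := by
  have h1 : (x ^ 3 + x ^ 2 * y + x * y ^ 2 + y ^ 3) + a * (x ^ 2 + x * y + y ^ 2) + b * (x + y) +
      c = 0 := by
    have : (x - y) * ((x ^ 3 + x ^ 2 * y + x * y ^ 2 + y ^ 3) + a * (x ^ 2 + x * y + y ^ 2) +
      b * (x + y) + c) = 0 := by linear_combination hx - hy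
    exact (mul_eq_zero.mp this).resolve_left (sub_ne_zero.mpr hxy)
  have h2 : (x ^ 3 + x ^ 2 * z + x * z ^ 2 + z ^ 3) + a * (x ^ 2 + x * z + z ^ 2) + b * (x + z) +
      c = 0 := by
    have : (x - z) * ((x ^ 3 + x ^ 2 * z + x * z ^ 2 + z ^ 3) + a * (x ^ 2 + x * z + z ^ 2) +
      b * (x + z) + c) = 0 := by linear_combination hx - hz
    exact (mul_eq_zero.mp this).resolve_left (sub_ne_zero.mpr hxz)
  have h3 : x ^ 2 + y ^ 2 + z ^ 2 + x * y + x * z + y * z + a * (x + y + z) + b = 0 := by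
    have : (y - z) * (x ^ 2 + y ^ 2 + z ^ 2 + x * y + x * z + y * z + a * (x + y + z) + b) = 0 := by
      linear_combination h1 - h2
    exact (mul_eq_zero.mp this).resolve_left (sub_ne_zero.mpr hyz)
  linear_combination h1 + (x - y) * h3 + (x - y) * (x - z) * h

/-- the four embeddings of a quartic field and the three embeddings of its cubic resolvent field:
`ρ ι ι'` sends `θ` to `b + s (a + s)`, `s = ι α + ι' α` -/
theorem exists_pairing {F C L : Type} [Field F] [NumberField F] [Field C] [NumberField C]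
    [Field L] [NumberField L] [IsGalois ℚ L] (hL : Nonempty (F →+* L))
    (hF : finrank ℚ F = 4) (hC : finrank ℚ C = 3) (α : F)
    (hα : IntermediateField.adjoin ℚ {α} = ⊤) (a b c e : ℚ)
    (h4 : α ^ 4 + (a : F) * α ^ 3 + (b : F) * α ^ 2 + (c : F) * α + (e : F) = 0) (θ : C)
    (hθ : θ ∉ Set.range (algebraMap ℚ C))
    (h3 : θ ^ 3 - (b : C) * θ ^ 2 + ((a * c - 4 * e : ℚ) : C) * θ -
      ((a ^ 2 * e - 4 * b * e + c ^ 2 : ℚ) : C) = 0) :
    Nat.card (F →+* L) = 4 ∧ ∃ ρ : (F →+* L) → (F →+* L) → (C →+* L),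
      (∀ (g : L ≃ₐ[ℚ] L) (ι ι' : F →+* L), ι ≠ ι' →
        (g : L →+* L).comp (ρ ι ι') = ρ ((g : L →+* L).comp ι) ((g : L →+* L).comp ι')) ∧
      (∀ ι ι' : F →+* L, ρ ι ι' = ρ ι' ι) ∧
      (∀ ι₁ ι ι' : F →+* L, ι ≠ ι₁ → ι' ≠ ι₁ → ρ ι₁ ι = ρ ι₁ ι' → ι = ι') := by
  have hcard : Nat.card (F →+* L) = 4 := by rw [qp_card hL α hα, hF]
  refine ⟨hcard, ?_⟩
  -- `θ` is a generator
  have hθt : IntermediateField.adjoin ℚ {θ} = ⊤ := by
    have hdvd : finrank ℚ (IntermediateField.adjoin ℚ {θ}) ∣ 3 := by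
      rw [← hC]
      exact ⟨_, (finrank_mul_finrank ℚ (IntermediateField.adjoin ℚ {θ}) C).symm⟩
    rcases (Nat.dvd_prime Nat.prime_three).mp hdvd with h | h
    · exfalso
      rw [IntermediateField.finrank_adjoin_simple_eq_one_iff] at h
      exact hθ (IntermediateField.mem_bot.mp h)
    · apply IntermediateField.eq_of_le_of_finrank_eq le_top
      rw [h, IntermediateField.finrank_top', hC]
  have hmθ : minpoly ℚ θ = X ^ 3 - Polynomial.C b * X ^ 2 + Polynomial.C (a * c - 4 * e) * X -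
      Polynomial.C (a ^ 2 * e - 4 * b * e + c ^ 2) := by
    apply qp_minpoly θ hθt
    · monicity!
    · rw [hC]; compute_degree!
    · simp only [map_add, map_sub, map_mul, map_pow, aeval_X, aeval_C]
      simpa [Algebra.smul_def] using h3
  have hmα : minpoly ℚ α = X ^ 4 + Polynomial.C a * X ^ 3 + Polynomial.C b * X ^ 2 +
      Polynomial.C c * X + Polynomial.C e := by
    apply qp_minpoly α hα
    · monicity!
    · rw [hF]; compute_degree!
    · simp only [map_add, map_mul, map_pow, aeval_X, aeval_C]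
      simpa using h4
  have hroot : ∀ ι : F →+* L, (ι α) ^ 4 + (a : L) * (ι α) ^ 3 + (b : L) * (ι α) ^ 2 +
      (c : L) * (ι α) + (e : L) = 0 := by
    intro ι
    have := congrArg ι h4
    simpa using this
  have hne : ∀ ι ι' : F →+* L, ι ≠ ι' → ι α ≠ ι' α := fun ι ι' h h' => h (qp_ext α hα ι ι' h')
  obtain ⟨β, hβdef⟩ : ∃ β : (F →+* L) → (F →+* L) → L, ∀ ι ι', β ι ι' =
      (b : L) + (ι α + ι' α) * ((a : L) + (ι α + ι' α)) := ⟨_, fun _ _ => rfl⟩
  have hβ : ∀ ι ι' : F →+* L, ι ≠ ι' → ∃ j : C →+* L, j θ = β ι ι' := by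
    intro ι ι' h
    apply qp_exists θ hθt
    rw [hmθ]
    have := qp_resolvent (a : L) b c e (ι α) (ι' α) (hne ι ι' h) (hroot ι) (hroot ι')
    rw [← hβdef] at this
    simp only [map_add, map_sub, map_mul, map_pow, aeval_X, aeval_C]
    simpa using this
  have hNe : Nonempty (C →+* L) := by
    have : Nontrivial (F →+* L) := by
      have : Finite (F →+* L) := Nat.finite_of_card_ne_zero (by omega)
      exact Finite.one_lt_card_iff_nontrivial.mp (by omega)
    obtain ⟨ι, ι', h⟩ := exists_pair_ne (F →+* L)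
    exact ⟨(hβ ι ι' h).choose⟩
  classical
  obtain ⟨Φ, hΦ⟩ : ∃ Φ : L → (C →+* L), ∀ x, (∃ j : C →+* L, j θ = x) → Φ x θ = x := by
    refine ⟨fun x => if h : ∃ j : C →+* L, j θ = x then h.choose else Classical.arbitrary _, ?_⟩
    intro x hx
    simp only [dif_pos hx]
    exact hx.choose_spec
  refine ⟨fun ι ι' => Φ (β ι ι'), ?_, ?_, ?_⟩
  · intro g ι ι' h
    have h' : (g : L →+* L).comp ι ≠ (g : L →+* L).comp ι' := by
      intro h''
      apply h
      ext x
      have := DFunLike.congr_fun h'' x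
      exact g.injective this
    apply qp_ext θ hθt
    show g (Φ (β ι ι') θ) = Φ (β _ _) θ
    rw [hΦ _ (hβ ι ι' h), hΦ _ (hβ _ _ h'), hβdef, hβdef]
    simp
  · intro ι ι'
    have : β ι ι' = β ι' ι := by rw [hβdef, hβdef]; ring
    simp only [this]
  · intro ι₁ ι ι' h h' heq
    have h1 : β ι₁ ι = β ι₁ ι' := by
      have := DFunLike.congr_fun heq θ
      simp only at this
      rwa [hΦ _ (hβ _ _ h.symm), hΦ _ (hβ _ _ h'.symm)] at this
    rw [hβdef, hβdef] at h1
    by_contra hcon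
    have h2 : (ι α - ι' α) * ((a : L) + (ι₁ α + ι α) + (ι₁ α + ι' α)) = 0 := by
      linear_combination h1
    have h3' := (mul_eq_zero.mp h2).resolve_left (sub_ne_zero.mpr (hne _ _ hcon))
    have h5 := qp_double (a : L) b c e (ι₁ α) (ι α) (ι' α) (hne _ _ h.symm) (hne _ _ h'.symm)
      (hne _ _ hcon) (hroot _) (hroot _) (hroot _) h3'
    have h6 : aeval α (Polynomial.C 4 * X ^ 3 + Polynomial.C (3 * a) * X ^ 2 +
        Polynomial.C (2 * b) * X + Polynomial.C c : ℚ[X]) = 0 := by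
      apply ι₁.injective
      rw [map_zero]
      simp only [map_add, map_mul, map_pow, aeval_X, aeval_C, eq_ratCast, map_ratCast,
        map_ofNat]
      exact h5
    have h7 := minpoly.dvd ℚ α h6
    have h8 : (Polynomial.C 4 * X ^ 3 + Polynomial.C (3 * a) * X ^ 2 +
        Polynomial.C (2 * b) * X + Polynomial.C c : ℚ[X]).natDegree = 3 := by
      compute_degree!
    have h9 : (Polynomial.C 4 * X ^ 3 + Polynomial.C (3 * a) * X ^ 2 +
        Polynomial.C (2 * b) * X + Polynomial.C c : ℚ[X]) ≠ 0 := by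
      intro h0
      rw [h0] at h8
      simp at h8
    have h10 := Polynomial.natDegree_le_of_dvd h7 h9
    rw [h8, hmα] at h10
    have h11 : (X ^ 4 + Polynomial.C a * X ^ 3 + Polynomial.C b * X ^ 2 +
        Polynomial.C c * X + Polynomial.C e : ℚ[X]).natDegree = 4 := by
      compute_degree!
    omega

end Pool.Agent.Work.MuB
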