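import Pool.Agent.Work.MP_a4986b_nt.QDict
import Pool.Agent.Work.MP_a4986b_nt.QNorm
import Pool.Agent.Work.MP_a4986b_nt.QPair

set_option autoImplicit false
set_option maxHeartbeats 400000

/-! # Q1: the primes of a quartic field are dominated by `q` and the primes of its cubic resolvent
field -/

namespace Pool.Agent.Work.MuB

open NumberField Module MeasureTheory NumberField.InfinitePlace NumberField.Units
open scoped nonZeroDivisors ENNReal NNReal Real Pointwise

section Orb

variable {F C L : Type} [Field F] [NumberField F] [Field C] [NumberField C]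
    [Field L] [NumberField L] [IsGalois ℚ L]

omit [IsGalois ℚ L] in
/-- the inertia group is contained in the decomposition group -/
theorem qo_inertia_le (Q : Ideal (𝓞 L)) (g : L ≃ₐ[ℚ] L) (h : ∀ x : 𝓞 L, g • x - x ∈ Q) :
    g • Q = Q := by
  have h1 : ∀ x ∈ Q, g • x ∈ Q := fun x hx => by
    have := Q.add_mem (h x) hx
    simpa using this
  have h2 : ∀ x ∈ Q, g⁻¹ • x ∈ Q := fun x hx => by
    have := Q.sub_mem hx (h (g⁻¹ • x))
    simpa using this
  apply le_antisymm
  · intro y hy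
    rw [Ideal.mem_pointwise_smul_iff_inv_smul_mem] at hy
    have := h1 _ hy
    simpa using this
  · intro y hy
    rw [Ideal.mem_pointwise_smul_iff_inv_smul_mem]
    exact h2 _ hy

omit [NumberField F] [IsGalois ℚ L] in
theorem qo_comp_inj (g : L ≃ₐ[ℚ] L) {ι j : F →+* L}
    (h : (g : L →+* L).comp ι = (g : L →+* L).comp j) : ι = j := by
  ext x
  have := congrArg (fun k : F →+* L => k x) h
  simpa using this

omit [NumberField F] [NumberField L] [IsGalois ℚ L] in
/-- membership facts for `ι⁻¹(Q)` -/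
theorem qo_mem (Q : Ideal (𝓞 L)) (hQ : Q.IsPrime) {q : ℕ} (hqQ : (q : 𝓞 L) ∈ Q)
    (ι : F →+* L) :
    (Q.comap (RingOfIntegers.mapRingHom ι)).IsPrime ∧
      (q : 𝓞 F) ∈ Q.comap (RingOfIntegers.mapRingHom ι) := by
  refine ⟨Ideal.comap_isPrime _ _, ?_⟩
  rw [Ideal.mem_comap, map_natCast]
  exact hqQ

theorem qo_dominate (hL : Nonempty (F →+* L)) (h4 : Nat.card (F →+* L) = 4)
    (ρ : (F →+* L) → (F →+* L) → (C →+* L))
    (hρ : ∀ (g : L ≃ₐ[ℚ] L) (ι ι' : F →+* L), ι ≠ ι' →
        (g : L →+* L).comp (ρ ι ι') = ρ ((g : L →+* L).comp ι) ((g : L →+* L).comp ι'))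
    (hsym : ∀ ι ι' : F →+* L, ρ ι ι' = ρ ι' ι)
    (hinj : ∀ ι₁ ι ι' : F →+* L, ι ≠ ι₁ → ι' ≠ ι₁ → ρ ι₁ ι = ρ ι₁ ι' → ι = ι')
    (Q : Ideal (𝓞 L)) (hQ : Q.IsPrime) (q : ℕ) (hq : q.Prime) (hqQ : (q : 𝓞 L) ∈ Q) :
    ∃ l : {P : Ideal (𝓞 F) // P.IsPrime ∧ (q : 𝓞 F) ∈ P} →
        Option {R : Ideal (𝓞 C) // R.IsPrime ∧ (q : 𝓞 C) ∈ R},
      Function.Injective l ∧ ∀ P R, l P = some R → Ideal.absNorm R.1 ≤ Ideal.absNorm P.1 := by
  classical
  have hex : ∀ P : {P : Ideal (𝓞 F) // P.IsPrime ∧ (q : 𝓞 F) ∈ P},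
      ∃ ι : F →+* L, P.1 = Q.comap (RingOfIntegers.mapRingHom ι) := fun P =>
    exists_comap_eq Q hQ hq hqQ hL P.1 P.2.1 P.2.2
  choose em hem using hex
  by_cases hfix : ∃ ι₁ : F →+* L, ∀ g : L ≃ₐ[ℚ] L, g • Q = Q → (g : L →+* L).comp ι₁ = ι₁
  · obtain ⟨ι₁, hι₁⟩ := hfix
    -- orbits of `ρ ι₁ ι`
    have horb : ∀ (p : (L ≃ₐ[ℚ] L) → Prop) (hp : ∀ g, p g → g • Q = Q) (ι : F →+* L)
        (hι : ι ≠ ι₁),
        {j : C →+* L | ∃ g : L ≃ₐ[ℚ] L, p g ∧ j = (g : L →+* L).comp (ρ ι₁ ι)}.ncard =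
          {j : F →+* L | ∃ g : L ≃ₐ[ℚ] L, p g ∧ j = (g : L →+* L).comp ι}.ncard := by
      intro p hp ι hι
      have himg : {j : C →+* L | ∃ g : L ≃ₐ[ℚ] L, p g ∧ j = (g : L →+* L).comp (ρ ι₁ ι)} =
          (ρ ι₁) '' {j : F →+* L | ∃ g : L ≃ₐ[ℚ] L, p g ∧ j = (g : L →+* L).comp ι} := by
        ext j
        constructor
        · rintro ⟨g, hg, rfl⟩
          refine ⟨(g : L →+* L).comp ι, ⟨g, hg, rfl⟩, ?_⟩
          rw [hρ g ι₁ ι hι.symm, hι₁ g (hp g hg)]
        · rintro ⟨_, ⟨g, hg, rfl⟩, rfl⟩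
          refine ⟨g, hg, ?_⟩
          rw [hρ g ι₁ ι hι.symm, hι₁ g (hp g hg)]
      rw [himg]
      apply Set.InjOn.ncard_image
      have hne : ∀ j ∈ {j : F →+* L | ∃ g : L ≃ₐ[ℚ] L, p g ∧ j = (g : L →+* L).comp ι},
          j ≠ ι₁ := by
        rintro _ ⟨g, hg, rfl⟩ h
        apply hι
        apply qo_comp_inj g
        rw [h, hι₁ g (hp g hg)]
      intro j hj j' hj' hjj
      exact hinj ι₁ j j' (hne j hj) (hne j' hj') hjj
    have hnorm : ∀ ι : F →+* L, ι ≠ ι₁ →
        Ideal.absNorm (Q.comap (RingOfIntegers.mapRingHom (ρ ι₁ ι))) =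
          Ideal.absNorm (Q.comap (RingOfIntegers.mapRingHom ι)) := by
      intro ι hι
      obtain ⟨f, hf, hf'⟩ := absNorm_comap Q hQ hq hqQ ι
      obtain ⟨f', hg, hg'⟩ := absNorm_comap Q hQ hq hqQ (ρ ι₁ ι)
      rw [horb _ (fun g hg => qo_inertia_le Q g hg) ι hι, horb _ (fun g hg => hg) ι hι] at hg'
      have hpos : 0 < {j : F →+* L | ∃ g : L ≃ₐ[ℚ] L, (∀ x : 𝓞 L, g • x - x ∈ Q) ∧
          j = (g : L →+* L).comp ι}.ncard := by
        rw [Set.ncard_pos (Set.toFinite _)]
        refine ⟨ι, 1, ?_, ?_⟩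
        · intro x
          simp
        · rfl
      have : f = f' := Nat.eq_of_mul_eq_mul_right hpos (hf'.trans hg'.symm)
      rw [hf, hg, this]
    refine ⟨fun P => if P.1 = Q.comap (RingOfIntegers.mapRingHom ι₁) then none else
      some ⟨Q.comap (RingOfIntegers.mapRingHom (ρ ι₁ (em P))), qo_mem Q hQ hqQ _⟩, ?_, ?_⟩
    · intro P P' h
      dsimp only at h
      split_ifs at h with h1 h2 h2
      · exact Subtype.ext (h1.trans h2.symm)
      · have h3 := Subtype.ext_iff.mp (Option.some.inj h)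
        rw [comap_eq_comap_iff Q hQ hq hqQ] at h3
        obtain ⟨g, hg, hgj⟩ := h3
        have hn : em P ≠ ι₁ := fun h0 => h1 (by rw [hem P, h0])
        have hn' : em P' ≠ ι₁ := fun h0 => h2 (by rw [hem P', h0])
        rw [hρ g ι₁ (em P) hn.symm, hι₁ g hg] at hgj
        have hn2 : (g : L →+* L).comp (em P) ≠ ι₁ := by
          intro h0
          apply hn
          apply qo_comp_inj g
          rw [h0, hι₁ g hg]
        have h5 := hinj ι₁ _ _ hn' hn2 hgj
        apply Subtype.ext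
        rw [hem P, hem P', comap_eq_comap_iff Q hQ hq hqQ]
        exact ⟨g, hg, h5⟩
    · intro P R h
      dsimp only at h
      split_ifs at h with h1
      have h3 := Option.some.inj h
      have hn : em P ≠ ι₁ := fun h0 => h1 (by rw [hem P, h0])
      rw [← h3]
      change Ideal.absNorm (Q.comap (RingOfIntegers.mapRingHom (ρ ι₁ (em P)))) ≤ _
      rw [hnorm _ hn, hem P]
  · push Not at hfix
    by_cases h1 : ∃ ι₀ ι₁ : F →+* L, Q.comap (RingOfIntegers.mapRingHom ι₀) ≠
        Q.comap (RingOfIntegers.mapRingHom ι₁)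
    · obtain ⟨ι₀, ι₁, h01⟩ := h1
      obtain ⟨g₀, hg₀, hne₀⟩ := hfix ι₀
      obtain ⟨g₁, hg₁, hne₁⟩ := hfix ι₁
      have hP₀ : Q.comap (RingOfIntegers.mapRingHom ι₀) =
          Q.comap (RingOfIntegers.mapRingHom ((g₀ : L →+* L).comp ι₀)) :=
        (comap_eq_comap_iff Q hQ hq hqQ _ _).mpr ⟨g₀, hg₀, rfl⟩
      have hP₁ : Q.comap (RingOfIntegers.mapRingHom ι₁) =
          Q.comap (RingOfIntegers.mapRingHom ((g₁ : L →+* L).comp ι₁)) :=
        (comap_eq_comap_iff Q hQ hq hqQ _ _).mpr ⟨g₁, hg₁, rfl⟩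
      have hall : ∀ ι : F →+* L, ι = ι₀ ∨ ι = (g₀ : L →+* L).comp ι₀ ∨ ι = ι₁ ∨
          ι = (g₁ : L →+* L).comp ι₁ := by
        have hcard : ({ι₀, (g₀ : L →+* L).comp ι₀, ι₁, (g₁ : L →+* L).comp ι₁} :
            Finset (F →+* L)).card = Fintype.card (F →+* L) := by
          rw [← Nat.card_eq_fintype_card, h4]
          rw [Finset.card_insert_of_notMem, Finset.card_insert_of_notMem,
            Finset.card_insert_of_notMem, Finset.card_singleton]
          · rw [Finset.mem_singleton]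
            exact fun h => hne₁ h.symm
          · simp only [Finset.mem_insert, Finset.mem_singleton]
            rintro (h | h)
            · exact h01 (by rw [hP₀, h])
            · exact h01 (by rw [hP₀, h, hP₁])
          · simp only [Finset.mem_insert, Finset.mem_singleton]
            rintro (h | h | h)
            · exact hne₀ h.symm
            · exact h01 (by rw [h])
            · apply h01
              rw [hP₁, ← h]
        have huniv := (Finset.card_eq_iff_eq_univ _).mp hcard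
        intro ι
        have := Finset.mem_univ ι
        rw [← huniv] at this
        simpa only [Finset.mem_insert, Finset.mem_singleton] using this
      -- the orbit of `ι₀`
      have horb0 : ∀ ι : F →+* L, Q.comap (RingOfIntegers.mapRingHom ι) =
          Q.comap (RingOfIntegers.mapRingHom ι₀) →
          ι = ι₀ ∨ ι = (g₀ : L →+* L).comp ι₀ := by
        intro ι h
        rcases hall ι with h2 | h2 | h2 | h2
        · exact Or.inl h2
        · exact Or.inr h2
        · exact absurd (by rw [← h, h2]) h01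
        · refine absurd ?_ h01
          rw [hP₁, ← h, h2]
      have hstab : ∀ g : L ≃ₐ[ℚ] L, g • Q = Q → (g : L →+* L).comp
          (ρ ι₀ ((g₀ : L →+* L).comp ι₀)) = ρ ι₀ ((g₀ : L →+* L).comp ι₀) := by
        intro g hg
        rw [hρ g _ _ (fun h => hne₀ h.symm)]
        have ha : Q.comap (RingOfIntegers.mapRingHom ((g : L →+* L).comp ι₀)) =
            Q.comap (RingOfIntegers.mapRingHom ι₀) :=
          ((comap_eq_comap_iff Q hQ hq hqQ _ _).mpr ⟨g, hg, rfl⟩).symm
        have hb : Q.comap (RingOfIntegers.mapRingHom ((g : L →+* L).comp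
            ((g₀ : L →+* L).comp ι₀))) = Q.comap (RingOfIntegers.mapRingHom ι₀) := by
          rw [hP₀]
          exact ((comap_eq_comap_iff Q hQ hq hqQ _ _).mpr ⟨g, hg, rfl⟩).symm
        have hab : (g : L →+* L).comp ι₀ ≠ (g : L →+* L).comp ((g₀ : L →+* L).comp ι₀) :=
          fun h => hne₀ (qo_comp_inj g h).symm
        rcases horb0 _ ha with h2 | h2 <;> rcases horb0 _ hb with h3 | h3
        · exact absurd (h2.trans h3.symm) hab
        · rw [h2, h3]
        · rw [h2, h3, hsym]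
        · exact absurd (h2.trans h3.symm) hab
      have hR : Ideal.absNorm (Q.comap (RingOfIntegers.mapRingHom
          (ρ ι₀ ((g₀ : L →+* L).comp ι₀)))) = q := by
        obtain ⟨f, hf, hf'⟩ := absNorm_comap Q hQ hq hqQ (ρ ι₀ ((g₀ : L →+* L).comp ι₀))
        have hone : {j : C →+* L | ∃ g : L ≃ₐ[ℚ] L, g • Q = Q ∧ j = (g : L →+* L).comp
            (ρ ι₀ ((g₀ : L →+* L).comp ι₀))} = {ρ ι₀ ((g₀ : L →+* L).comp ι₀)} := by
          ext j
          rw [Set.mem_singleton_iff]
          constructor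
          · rintro ⟨g, hg, rfl⟩
            exact hstab g hg
          · rintro rfl
            exact ⟨1, one_smul _ _, rfl⟩
        rw [hone, Set.ncard_singleton] at hf'
        have hf1 : f = 1 := Nat.eq_one_of_mul_eq_one_right hf'
        rw [hf, hf1, pow_one]
      have hge : ∀ ι : F →+* L, q ≤ Ideal.absNorm (Q.comap (RingOfIntegers.mapRingHom ι)) := by
        intro ι
        obtain ⟨f, hf, hf'⟩ := absNorm_comap Q hQ hq hqQ ι
        have hpos : 0 < {j : F →+* L | ∃ g : L ≃ₐ[ℚ] L, g • Q = Q ∧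
            j = (g : L →+* L).comp ι}.ncard := by
          rw [Set.ncard_pos (Set.toFinite _)]
          exact ⟨ι, 1, one_smul _ _, rfl⟩
        have hf0 : f ≠ 0 := by
          rintro rfl
          rw [zero_mul] at hf'
          omega
        rw [hf]
        exact Nat.le_self_pow hf0 q
      refine ⟨fun P => if P.1 = Q.comap (RingOfIntegers.mapRingHom ι₀) then none else
        some ⟨Q.comap (RingOfIntegers.mapRingHom (ρ ι₀ ((g₀ : L →+* L).comp ι₀))),
          qo_mem Q hQ hqQ _⟩, ?_, ?_⟩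
      · have hP1 : ∀ P : {P : Ideal (𝓞 F) // P.IsPrime ∧ (q : 𝓞 F) ∈ P},
            P.1 ≠ Q.comap (RingOfIntegers.mapRingHom ι₀) →
            P.1 = Q.comap (RingOfIntegers.mapRingHom ι₁) := by
          intro P hP
          rcases hall (em P) with h2 | h2 | h2 | h2
          · exact absurd (by rw [hem P, h2]) hP
          · refine absurd ?_ hP
            rw [hem P, h2, ← hP₀]
          · rw [hem P, h2]
          · rw [hem P, h2, ← hP₁]
        intro P P' h
        dsimp only at h
        split_ifs at h with h1 h2 h2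
        · exact Subtype.ext (h1.trans h2.symm)
        · exact Subtype.ext ((hP1 P h1).trans (hP1 P' h2).symm)
      · intro P R h
        dsimp only at h
        split_ifs at h with h1
        rw [← Option.some.inj h]
        change Ideal.absNorm (Q.comap (RingOfIntegers.mapRingHom
          (ρ ι₀ ((g₀ : L →+* L).comp ι₀)))) ≤ _
        rw [hR, hem P]
        exact hge _
    · push Not at h1
      refine ⟨fun _ => none, ?_, ?_⟩
      · intro P P' _
        apply Subtype.ext
        rw [hem P, hem P']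
        exact h1 _ _
      · intro P R h
        exact absurd h (by simp)

end Orb

section Quartic

variable {F C : Type} [Field F] [NumberField F] [Field C] [NumberField C]

/-- Q1: norm domination: one prime: clear; a prime with `e f = 1` (fixed point of the decomposition
group `D`): the other embeddings of `F` are `D`-isomorphic to the embeddings of `C`; two primes with
`e f = 2`: `D` fixes a pairing, so `C` has a prime with `e f = 1` -/
theorem quartic_dominate (hF : finrank ℚ F = 4) (hC : finrank ℚ C = 3) (α : F)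
    (hα : IntermediateField.adjoin ℚ {α} = ⊤) (a b c e : ℚ)
    (h4 : α ^ 4 + (a : F) * α ^ 3 + (b : F) * α ^ 2 + (c : F) * α + (e : F) = 0) (θ : C)
    (hθ : θ ∉ Set.range (algebraMap ℚ C))
    (h3 : θ ^ 3 - (b : C) * θ ^ 2 + ((a * c - 4 * e : ℚ) : C) * θ -
      ((a ^ 2 * e - 4 * b * e + c ^ 2 : ℚ) : C) = 0)
    (q : ℕ) (hq : q.Prime) :
    ∃ l : {P : Ideal (𝓞 F) // P.IsPrime ∧ (q : 𝓞 F) ∈ P} →
        Option {R : Ideal (𝓞 C) // R.IsPrime ∧ (q : 𝓞 C) ∈ R},
      Function.Injective l ∧ ∀ P R, l P = some R → Ideal.absNorm R.1 ≤ Ideal.absNorm P.1 := by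
  let f := minpoly ℚ α
  let L : Type := IntermediateField.adjoin ℚ (f.rootSet ℂ)
  have hspl : f.IsSplittingField ℚ L :=
    IntermediateField.adjoin_rootSet_isSplittingField (IsAlgClosed.splits _)
  have _ : FiniteDimensional ℚ L := Polynomial.IsSplittingField.finiteDimensional L f
  have _ : NumberField L := NumberField.mk
  have _ : IsGalois ℚ L := IsGalois.of_separable_splitting_field (p := f)
    (minpoly.irreducible (IsIntegral.of_finite ℚ α)).separable
  have hL : Nonempty (F →+* L) := by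
    have h5 : Nonempty (F →ₐ[ℚ] L) := by
      apply IntermediateField.nonempty_algHom_of_adjoin_splits (S := {α}) _ hα
      intro s hs
      rw [Set.mem_singleton_iff.mp hs]
      exact ⟨IsIntegral.of_finite ℚ α, hspl.splits⟩
    exact ⟨(h5.some : F →+* L)⟩
  obtain ⟨h4', ρ, hρ, hsym, hinj⟩ := exists_pairing (L := L) hL hF hC α hα a b c e h4 θ hθ h3
  have hqp : (Ideal.span {(q : ℤ)}).IsPrime :=
    (Ideal.span_singleton_prime (by exact_mod_cast hq.ne_zero)).mpr
      (Nat.prime_iff_prime_int.mp hq)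
  obtain ⟨⟨Q, hQ, hQo⟩⟩ := (Ideal.span {(q : ℤ)}).nonempty_primesOver (S := 𝓞 L)
  have hqQ : (q : 𝓞 L) ∈ Q := by
    have h5 : (q : ℤ) ∈ Q.under ℤ := by
      rw [← hQo.over]
      exact Ideal.mem_span_singleton_self _
    rw [Ideal.mem_comap] at h5
    simpa using h5
  exact qo_dominate hL h4' ρ hρ hsym hinj Q hQ q hq hqQ

end Quartic

end Pool.Agent.Work.MuB
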