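import Mathlib

set_option autoImplicit false
set_option maxHeartbeats 400000

/-! # Module Q2: a quartic field with a cubic resolvent field has no quadratic subfield -/

namespace Pool.Agent.Work.MuB

open NumberField Module MeasureTheory NumberField.InfinitePlace NumberField.Units
open scoped nonZeroDivisors ENNReal NNReal Real Pointwise

section Quartic

/-- a root of a rational quadratic polynomial in a field of degree 3 is rational -/
theorem qprim_cubic {C : Type} [Field C] [NumberField C] (hC : finrank ℚ C = 3) (θ : C)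
    (p q : ℚ) (h : θ ^ 2 + (p : C) * θ + (q : C) = 0) : θ ∈ Set.range (algebraMap ℚ C) := by
  have hint : IsIntegral ℚ θ := Algebra.IsIntegral.isIntegral θ
  have hd : (minpoly ℚ θ).natDegree ∣ 3 := hC ▸ minpoly.degree_dvd hint
  have hle : (minpoly ℚ θ).natDegree ≤ 2 := by
    have h0 : Polynomial.aeval θ (Polynomial.X ^ 2 + Polynomial.C p * Polynomial.X + Polynomial.C q) = 0 := by
      simpa using h
    have hmon : (Polynomial.X ^ 2 + Polynomial.C p * Polynomial.X + Polynomial.C q).Monic := by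
      monicity!
    have h1 := minpoly.min ℚ θ hmon h0
    have h2 := Polynomial.natDegree_le_natDegree h1
    refine h2.trans ?_
    compute_degree
  have h1 : (minpoly ℚ θ).natDegree = 1 := by
    rcases (Nat.dvd_prime Nat.prime_three).mp hd with h | h
    · exact h
    · omega
  have hpos : 0 < (minpoly ℚ θ).natDegree := minpoly.natDegree_pos hint
  exact minpoly.mem_range_of_degree_eq_one ℚ θ
    ((Polynomial.degree_eq_iff_natDegree_eq_of_pos (by norm_num)).mpr h1)

/-- the powers of a generator of a quartic field are independent -/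
theorem qprim_indep {F : Type} [Field F] [NumberField F] (hF : finrank ℚ F = 4) (α : F)
    (hα : IntermediateField.adjoin ℚ {α} = ⊤) (x y z w : ℚ)
    (h : (x : F) * α ^ 3 + (y : F) * α ^ 2 + (z : F) * α + (w : F) = 0) :
    x = 0 ∧ y = 0 ∧ z = 0 ∧ w = 0 := by
  have hdeg : (minpoly ℚ α).natDegree = 4 := by
    rw [← hF]
    exact (Field.primitive_element_iff_minpoly_natDegree_eq ℚ α).mp hα
  obtain ⟨p, hp⟩ : ∃ p : Polynomial ℚ, p = Polynomial.C x * Polynomial.X ^ 3 +
    Polynomial.C y * Polynomial.X ^ 2 + Polynomial.C z * Polynomial.X + Polynomial.C w := ⟨_, rfl⟩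
  have h0 : Polynomial.aeval α p = 0 := by
    rw [hp]; simpa using h
  have hp3 : p.natDegree ≤ 3 := by
    rw [hp]; compute_degree
  have hp0 : p = 0 := by
    by_contra hne
    have h1 := minpoly.degree_le_of_ne_zero ℚ α hne h0
    have h2 := Polynomial.natDegree_le_natDegree h1
    omega
  have c3 : p.coeff 3 = x := by rw [hp]; simp [Polynomial.coeff_X, Polynomial.coeff_C]
  have c2 : p.coeff 2 = y := by rw [hp]; simp [Polynomial.coeff_X, Polynomial.coeff_C]
  have c1 : p.coeff 1 = z := by rw [hp]; simp [Polynomial.coeff_X, Polynomial.coeff_C]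
  have c0 : p.coeff 0 = w := by rw [hp]; simp [Polynomial.coeff_X, Polynomial.coeff_C]
  rw [hp0] at c3 c2 c1 c0
  simp only [Polynomial.coeff_zero] at c3 c2 c1 c0
  exact ⟨c3.symm, c2.symm, c1.symm, c0.symm⟩

variable {F C : Type} [Field F] [NumberField F] [Field C] [NumberField C]

/-- Q2: `F` has no quadratic subfield: otherwise the resolvent has a rational root
`Tr_{K/ℚ} N_{F/K} α` -/
theorem quartic_primitive (hF : finrank ℚ F = 4) (hC : finrank ℚ C = 3) (α : F)
    (hα : IntermediateField.adjoin ℚ {α} = ⊤) (a b c e : ℚ)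
    (h4 : α ^ 4 + (a : F) * α ^ 3 + (b : F) * α ^ 2 + (c : F) * α + (e : F) = 0) (θ : C)
    (hθ : θ ∉ Set.range (algebraMap ℚ C))
    (h3 : θ ^ 3 - (b : C) * θ ^ 2 + ((a * c - 4 * e : ℚ) : C) * θ -
      ((a ^ 2 * e - 4 * b * e + c ^ 2 : ℚ) : C) = 0)
    (u : F) (hu : u ∉ Set.range (algebraMap ℚ F)) : IntermediateField.adjoin ℚ {u} = ⊤ := by
  have hint : IsIntegral ℚ u := Algebra.IsIntegral.isIntegral u
  have hdvd : (minpoly ℚ u).natDegree ∣ 4 := hF ▸ minpoly.degree_dvd hint
  by_contra hne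
  have hne4 : (minpoly ℚ u).natDegree ≠ 4 := by
    intro h
    exact hne ((Field.primitive_element_iff_minpoly_natDegree_eq ℚ u).mpr (h.trans hF.symm))
  have hne1 : (minpoly ℚ u).natDegree ≠ 1 := by
    intro h
    exact hu (minpoly.mem_range_of_degree_eq_one ℚ u
      ((Polynomial.degree_eq_iff_natDegree_eq_of_pos (by norm_num)).mpr h))
  have hle : (minpoly ℚ u).natDegree ≤ 4 := Nat.le_of_dvd (by norm_num) hdvd
  have hpos : 0 < (minpoly ℚ u).natDegree := minpoly.natDegree_pos hint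
  have h2 : (minpoly ℚ u).natDegree = 2 := by
    obtain ⟨k, hk⟩ := hdvd
    interval_cases hd : (minpoly ℚ u).natDegree <;> omega
  -- the quadratic equation of `u`
  obtain ⟨β, γ, hβ⟩ : ∃ β γ : ℚ, u ^ 2 + (β : F) * u + (γ : F) = 0 := by
    refine ⟨(minpoly ℚ u).coeff 1, (minpoly ℚ u).coeff 0, ?_⟩
    have hmon := minpoly.monic hint
    have h5 := minpoly.aeval ℚ u
    rw [Polynomial.aeval_eq_sum_range, h2, Finset.sum_range_succ, Finset.sum_range_succ,
      Finset.sum_range_one] at h5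
    have h6 : (minpoly ℚ u).coeff 2 = 1 := by
      rw [← h2]; exact hmon.coeff_natDegree
    rw [h6] at h5
    simp only [pow_zero, pow_one, Algebra.smul_def, map_one, one_mul, mul_one] at h5
    have e0 : algebraMap ℚ F ((minpoly ℚ u).coeff 0) = (((minpoly ℚ u).coeff 0 : ℚ) : F) := rfl
    have e1 : algebraMap ℚ F ((minpoly ℚ u).coeff 1) = (((minpoly ℚ u).coeff 1 : ℚ) : F) := rfl
    rw [e0, e1] at h5
    linear_combination h5
  obtain ⟨w, hw⟩ : ∃ w : F, w = 2 * u + (β : F) := ⟨_, rfl⟩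
  obtain ⟨d, hd⟩ : ∃ d : ℚ, d = β ^ 2 - 4 * γ := ⟨_, rfl⟩
  have hwd : w ^ 2 = (d : F) := by
    rw [hw, hd]
    push_cast
    linear_combination 4 * hβ
  have hwQ : ∀ q : ℚ, w ≠ (q : F) := by
    intro q hq
    apply hu
    refine ⟨(q - β) / 2, ?_⟩
    have h7 : u = ((q : F) - β) / 2 := by
      rw [← hq, hw]; ring
    rw [h7]
    simp
  have hwK : w ∈ IntermediateField.adjoin ℚ {u} := by
    rw [hw]
    refine add_mem (mul_mem ?_ (IntermediateField.mem_adjoin_simple_self ℚ u)) ?_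
    · have := (IntermediateField.adjoin ℚ {u}).algebraMap_mem (2 : ℚ)
      simpa using this
    · have := (IntermediateField.adjoin ℚ {u}).algebraMap_mem β
      simpa using this
  have hQK : ∀ q : ℚ, (q : F) ∈ IntermediateField.adjoin ℚ {u} := by
    intro q
    have := (IntermediateField.adjoin ℚ {u}).algebraMap_mem q
    simpa using this
  have hlin2 : ∀ x y : ℚ, (x : F) + (y : F) * w = 0 → x = 0 ∧ y = 0 := by
    intro x y h
    by_cases hy : y = 0
    · subst hy
      simp at h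
      exact ⟨h, rfl⟩
    · exfalso
      apply hwQ (-x / y)
      have hy' : (y : F) ≠ 0 := by exact_mod_cast hy
      push_cast
      field_simp
      linear_combination h
  have hαK : α ∉ IntermediateField.adjoin ℚ {u} := by
    intro h
    apply hne
    rw [eq_top_iff, ← hα]
    exact IntermediateField.adjoin_simple_le_iff.mpr h
  -- the basis
  have hli : LinearIndependent ℚ ![(1 : F), w, α, w * α] := by
    rw [Fintype.linearIndependent_iff]
    intro g hg
    rw [Fin.sum_univ_four] at hg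
    simp only [Matrix.cons_val_zero, Matrix.cons_val_one, Matrix.cons_val, Algebra.smul_def] at hg
    have e : ∀ i, algebraMap ℚ F (g i) = ((g i : ℚ) : F) := fun i => rfl
    rw [e, e, e, e] at hg
    have h23 : (g 2 : F) + (g 3 : F) * w = 0 := by
      by_contra hne0
      apply hαK
      have hα2 : α = -((g 0 : F) + (g 1 : F) * w) / ((g 2 : F) + (g 3 : F) * w) := by
        rw [eq_div_iff hne0]
        linear_combination hg
      rw [hα2]
      exact div_mem (neg_mem (add_mem (hQK _) (mul_mem (hQK _) hwK)))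
        (add_mem (hQK _) (mul_mem (hQK _) hwK))
    obtain ⟨g2, g3⟩ := hlin2 _ _ h23
    have h01 : (g 0 : F) + (g 1 : F) * w = 0 := by
      rw [g2, g3] at hg
      simp at hg
      exact hg
    obtain ⟨g0, g1⟩ := hlin2 _ _ h01
    intro i
    fin_cases i
    · exact g0
    · exact g1
    · exact g2
    · exact g3
  have hspan := hli.span_eq_top_of_card_eq_finrank' (by rw [hF]; rfl)
  have hmem : α ^ 2 ∈ Submodule.span ℚ (Set.range ![(1 : F), w, α, w * α]) := by
    rw [hspan]; trivial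
  obtain ⟨g, hg⟩ := (Submodule.mem_span_range_iff_exists_fun ℚ).mp hmem
  rw [Fin.sum_univ_four] at hg
  simp only [Matrix.cons_val_zero, Matrix.cons_val_one, Matrix.cons_val, Algebra.smul_def] at hg
  have hcast : ∀ i, algebraMap ℚ F (g i) = ((g i : ℚ) : F) := fun i => rfl
  rw [hcast, hcast, hcast, hcast] at hg
  obtain ⟨n0, hn0⟩ : ∃ n0 : ℚ, n0 = -g 0 := ⟨_, rfl⟩
  obtain ⟨n1, hn1⟩ : ∃ n1 : ℚ, n1 = -g 1 := ⟨_, rfl⟩
  obtain ⟨s0, hs0⟩ : ∃ s0 : ℚ, s0 = g 2 := ⟨_, rfl⟩
  obtain ⟨s1, hs1⟩ : ∃ s1 : ℚ, s1 = g 3 := ⟨_, rfl⟩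
  have hq : α ^ 2 - ((s0 : F) + (s1 : F) * w) * α + ((n0 : F) + (n1 : F) * w) = 0 := by
    rw [hn0, hn1, hs0, hs1]
    push_cast
    linear_combination -hg
  have hquart : α ^ 4 + ((-(2 * s0) : ℚ) : F) * α ^ 3 + ((2 * n0 + s0 ^ 2 - s1 ^ 2 * d : ℚ) : F) * α ^ 2 +
      ((-2 * (s0 * n0 - s1 * n1 * d) : ℚ) : F) * α + ((n0 ^ 2 - n1 ^ 2 * d : ℚ) : F) = 0 := by
    push_cast
    rw [← hwd]
    linear_combination (α ^ 2 - ((s0 : F) - (s1 : F) * w) * α + ((n0 : F) - (n1 : F) * w)) * hq
  obtain ⟨ea, eb, ec, ee⟩ := qprim_indep hF α hα (a - (-(2 * s0))) (b - (2 * n0 + s0 ^ 2 - s1 ^ 2 * d))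
    (c - (-2 * (s0 * n0 - s1 * n1 * d))) (e - (n0 ^ 2 - n1 ^ 2 * d)) (by
      push_cast at hquart ⊢
      linear_combination h4 - hquart)
  have ha : a = -(2 * s0) := by linarith
  have hb : b = 2 * n0 + s0 ^ 2 - s1 ^ 2 * d := by linarith
  have hc : c = -2 * (s0 * n0 - s1 * n1 * d) := by linarith
  have he : e = n0 ^ 2 - n1 ^ 2 * d := by linarith
  -- the rational root `t = 2 n0` of the resolvent
  have ht : (2 * n0) ^ 3 - b * (2 * n0) ^ 2 + (a * c - 4 * e) * (2 * n0) -
      (a ^ 2 * e - 4 * b * e + c ^ 2) = 0 := by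
    rw [ha, hb, hc, he]; ring
  have ht' : ((2 * n0 : ℚ) : C) ^ 3 - (b : C) * ((2 * n0 : ℚ) : C) ^ 2 +
      ((a * c - 4 * e : ℚ) : C) * ((2 * n0 : ℚ) : C) -
      ((a ^ 2 * e - 4 * b * e + c ^ 2 : ℚ) : C) = 0 := by
    have := congrArg (fun x : ℚ => (x : C)) ht
    push_cast at this ⊢
    exact this
  have hθt : θ - ((2 * n0 : ℚ) : C) ≠ 0 := by
    intro h
    exact hθ ⟨2 * n0, (sub_eq_zero.mp h).symm⟩
  have hfac : (θ - ((2 * n0 : ℚ) : C)) * (θ ^ 2 + ((2 * n0 - b : ℚ) : C) * θ +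
      (((2 * n0) ^ 2 - b * (2 * n0) + (a * c - 4 * e) : ℚ) : C)) = 0 := by
    push_cast at ht' h3 ⊢
    linear_combination h3 - ht'
  rcases mul_eq_zero.mp hfac with h | h
  · exact hθt h
  · exact hθ (qprim_cubic hC θ _ _ h)

end Quartic

end Pool.Agent.Work.MuB
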