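import Pool.Agent.Work.MP_a4986b_nt.CPair
import Pool.Agent.Work.MP_a4986b_nt.BInj
import Pool.Agent.Work.MP_a4986b_nt.QPrim
import Pool.Agent.Work.MP_a4986b_nt.QDom
import Pool.Agent.Work.MP_a4986b_nt.CReg
import Pool.Agent.Work.MP_a4986b_nt.CClassA
import Pool.Agent.Work.MP_a4986b_nt.BClassA

set_option autoImplicit false
set_option maxHeartbeats 400000

/-! # Q3 and Q4: quartic fields with fixed cubic resolvent -/

namespace Pool.Agent.Work.MuB

open NumberField Module MeasureTheory NumberField.InfinitePlace NumberField.Units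
open scoped nonZeroDivisors ENNReal NNReal Real Pointwise

theorem quartic_rank (F : Type*) [Field F] [NumberField F] (hF : finrank ℚ F = 4) :
    1 ≤ Units.rank F ∧ Units.rank F ≤ 3 := by
  have h1 := card_eq_nrRealPlaces_add_nrComplexPlaces F
  have h2 := card_add_two_mul_card_eq_rank F
  have h3 : Units.rank F = Fintype.card (InfinitePlace F) - 1 := rfl
  rw [hF] at h2
  omega

/-- general class number bound for primitive fields dominated by a fixed field -/
theorem dominated_class_le (E : Type) [Field E] [NumberField E] (n : ℕ) :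
    ∃ A : ℝ, 0 < A ∧ ∀ (F : Type) [Field F] [NumberField F], finrank ℚ F = n →
      1 ≤ Units.rank F →
      (∀ u : F, u ∉ Set.range (algebraMap ℚ F) → IntermediateField.adjoin ℚ {u} = ⊤) →
      (∀ q : ℕ, q.Prime → ∃ l : {P : Ideal (𝓞 F) // P.IsPrime ∧ (q : 𝓞 F) ∈ P} →
        Option {R : Ideal (𝓞 E) // R.IsPrime ∧ (q : 𝓞 E) ∈ R},
        Function.Injective l ∧ ∀ P R, l P = some R → Ideal.absNorm R.1 ≤ Ideal.absNorm P.1) →
      (Nat.card (ClassGroup (𝓞 F)) : ℝ) * (1 + Real.log |(discr F : ℝ)|) ^ (Units.rank F - 1) ≤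
        A * √|(discr F : ℝ)| := by
  obtain ⟨C0, c, hC0, hc, hreg⟩ := regulator_ge_of_primitive n
  obtain ⟨C2, hC2, hcr⟩ := class_le_gen ℚ n
  choose Cr hCr0 hCr using fun r : ℕ => cpair_k E (r + 1) (Nat.succ_pos r)
  -- the constant
  set S : ℝ := ∑ r ∈ Finset.range n, Cr r with hS
  have hS0 : 0 ≤ S := Finset.sum_nonneg fun r _ => hCr0 r
  set A1 : ℝ := 4 * S / c with hA1
  set A2 : ℝ := C2 * (1 + Real.log C0) ^ (n - 1) * (1 + Real.log C0) ^ n with hA2
  have hlC : 0 ≤ Real.log C0 := Real.log_nonneg hC0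
  have hA2' : 0 < A2 := by positivity
  refine ⟨A1 + A2, by positivity, ?_⟩
  intro F _ _ hF hr hprim hdom
  set D : ℝ := |(discr F : ℝ)| with hD
  have hD1 : 1 ≤ D := cls_discr_one_le F
  have hL : 0 ≤ Real.log D := Real.log_nonneg hD1
  have hrn : Units.rank F ≤ n := by
    have h1 := card_eq_nrRealPlaces_add_nrComplexPlaces F
    have h2 := card_add_two_mul_card_eq_rank F
    have h3 : Units.rank F = Fintype.card (InfinitePlace F) - 1 := rfl
    rw [hF] at h2
    omega
  by_cases hDC : C0 ≤ D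
  · have h2 := hreg F hF hprim hDC
    obtain ⟨r, hr'⟩ : ∃ r, Units.rank F = r + 1 := ⟨Units.rank F - 1, by omega⟩
    have hle : Cr r ≤ S :=
      Finset.single_le_sum (fun r _ => hCr0 r) (Finset.mem_range.mpr (by omega))
    have h3 := cls_bound F hr (C₁ := S) hS0 hc (fun M hM => by
      refine (tsum_ideal_le_of_dominate F E hdom (fun m => ENNReal.ofReal
        (Real.log (M / m)) ^ Units.rank F) (cls_phi (by linarith) _)).trans ?_
      rw [hr']
      refine (hCr r M hM).trans (ENNReal.ofReal_le_ofReal ?_)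
      have : 0 ≤ Real.log M := Real.log_nonneg hM
      gcongr) h2
    refine h3.trans ?_
    have : 0 ≤ √D := Real.sqrt_nonneg _
    gcongr
    linarith
  · push Not at hDC
    have h2 := hcr F hF
    have hs1 : 1 ≤ √D := Real.one_le_sqrt.mpr hD1
    have h3 : Real.log D ≤ Real.log C0 := Real.log_le_log (by linarith) hDC.le
    calc (Nat.card (ClassGroup (𝓞 F)) : ℝ) * (1 + Real.log D) ^ (Units.rank F - 1)
        ≤ (C2 * √D * (1 + Real.log D) ^ (n - 1)) * (1 + Real.log D) ^ n := by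
          apply mul_le_mul h2 _ (by positivity) (by positivity)
          exact pow_le_pow_right₀ (by linarith) (by omega)
      _ ≤ (C2 * √D * (1 + Real.log C0) ^ (n - 1)) * (1 + Real.log C0) ^ n := by gcongr
      _ = A2 * √D := by rw [hA2]; ring
      _ ≤ (A1 + A2) * √D := by
          have : 0 ≤ A1 := by positivity
          nlinarith

/-- Q3: class number bound -/
theorem quartic_class_le (C : Type) [Field C] [NumberField C] (hC : finrank ℚ C = 3) :
    ∃ A : ℝ, 0 < A ∧ ∀ (F : Type) [Field F] [NumberField F], finrank ℚ F = 4 →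
      (∃ (α : F) (θ : C) (a b c e : ℚ), IntermediateField.adjoin ℚ {α} = ⊤ ∧
        α ^ 4 + (a : F) * α ^ 3 + (b : F) * α ^ 2 + (c : F) * α + (e : F) = 0 ∧
        θ ∉ Set.range (algebraMap ℚ C) ∧
        θ ^ 3 - (b : C) * θ ^ 2 + ((a * c - 4 * e : ℚ) : C) * θ -
          ((a ^ 2 * e - 4 * b * e + c ^ 2 : ℚ) : C) = 0) →
      (Nat.card (ClassGroup (𝓞 F)) : ℝ) * (1 + Real.log |(discr F : ℝ)|) ^ (Units.rank F - 1) ≤
        A * √|(discr F : ℝ)| := by
  obtain ⟨A, hA, h⟩ := dominated_class_le C 4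
  refine ⟨A, hA, ?_⟩
  rintro F _ _ hF ⟨α, θ, a, b, c, e, hα, h4, hθ, h3⟩
  exact h F hF (quartic_rank F hF).1
    (fun u hu => quartic_primitive hF hC α hα a b c e h4 θ hθ h3 u hu)
    (fun q hq => quartic_dominate hF hC α hα a b c e h4 θ hθ h3 q hq)

/-- Q4 -/
theorem quartic_not_dvd (C : Type) [Field C] [NumberField C] (hC : finrank ℚ C = 3) :
    ∃ A : ℝ, 0 < A ∧ ∀ (F : Type) [Field F] [NumberField F] (p : ℕ), p.Prime → finrank ℚ F = 4 →
      (∃ (α : F) (θ : C) (a b c e : ℚ), IntermediateField.adjoin ℚ {α} = ⊤ ∧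
        α ^ 4 + (a : F) * α ^ 3 + (b : F) * α ^ 2 + (c : F) * α + (e : F) = 0 ∧
        θ ∉ Set.range (algebraMap ℚ C) ∧
        θ ^ 3 - (b : C) * θ ^ 2 + ((a * c - 4 * e : ℚ) : C) * θ -
          ((a ^ 2 * e - 4 * b * e + c ^ 2 : ℚ) : C) = 0) →
      |(discr F : ℝ)| ≤ A * (p : ℝ) ^ 2 * (1 + Real.log p) ^ (2 * (Units.rank F - 1)) →
      ¬ p ∣ Nat.card (ClassGroup (𝓞 F)) := by
  obtain ⟨A, hA, h⟩ := quartic_class_le C hC
  obtain ⟨c, hc, h'⟩ := cls_not_dvd 2 hA
  refine ⟨c, hc, ?_⟩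
  intro F _ _ p hp hF hres hD
  have hrk := quartic_rank F hF
  exact h' (Units.rank F - 1) _ p _ (by omega) Nat.card_pos (cls_discr_one_le F) hp
    (h F hF hres) hD

end Pool.Agent.Work.MuB
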