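import Mathlib
import Pool.Agent.Work.MP_a4986b_nt.CExA

set_option autoImplicit false
set_option maxHeartbeats 400000
set_option linter.unusedSimpArgs false

/-! # Explicit quartic fields with given cubic resolvent: the discriminant -/

namespace Pool.Agent.Work.MuB

open NumberField Module

/-- the basis of powers of a primitive element -/
theorem exists_pow_basis {L : Type*} [Field L] [NumberField L] {n : ℕ} (hn : finrank ℚ L = n)
    (x : L) (hx : IntermediateField.adjoin ℚ {x} = ⊤) :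
    ∃ B : Basis (Fin n) ℚ L, ∀ i, B i = x ^ (i : ℕ) := by
  have hd : (minpoly ℚ x).natDegree = n := by
    rw [← hn]; exact (Field.primitive_element_iff_minpoly_natDegree_eq ℚ x).mp hx
  have hpos : 0 < n := by rw [← hn]; exact finrank_pos
  have hne : Nonempty (Fin n) := ⟨⟨0, hpos⟩⟩
  have hli : LinearIndependent ℚ (fun i : Fin n => x ^ (i : ℕ)) :=
    (linearIndependent_pow (K := ℚ) x).comp (Fin.cast hd.symm) (Fin.cast_injective _)
  refine ⟨basisOfLinearIndependentOfCardEqFinrank hli (by rw [Fintype.card_fin, hn]), fun i => ?_⟩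
  rw [coe_basisOfLinearIndependentOfCardEqFinrank]

theorem trace_of_matrix4 {F : Type*} [Field F] [NumberField F] (B : Basis (Fin 4) ℚ F) (z : F)
    (c : Fin 4 → Fin 4 → ℚ) (h : ∀ j, z * B j = ∑ i, c j i • B i) :
    Algebra.trace ℚ F z = c 0 0 + c 1 1 + c 2 2 + c 3 3 := by
  rw [Algebra.trace_eq_matrix_trace B]
  simp only [Matrix.trace, Matrix.diag_apply, Fin.sum_univ_four, Algebra.leftMulMatrix_eq_repr_mul]
  rw [h 0, h 1, h 2, h 3]
  simp [map_sum, Finsupp.single_apply]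

theorem norm_of_matrix {F : Type*} [Field F] [NumberField F] (B : Basis (Fin 3) ℚ F) (z : F)
    (c : Fin 3 → Fin 3 → ℚ) (h : ∀ j, z * B j = ∑ i, c j i • B i) :
    Algebra.norm ℚ z = (Matrix.of c).det := by
  rw [Algebra.norm_eq_matrix_det B, ← Matrix.det_transpose]
  congr 1
  ext i j
  rw [Matrix.transpose_apply, Algebra.leftMulMatrix_eq_repr_mul, h i, Matrix.of_apply]
  simp [map_sum, Finsupp.single_apply]

section Setup

variable {C F : Type} [Field C] [NumberField C] [Field F] [NumberField F]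

/-- data of the resolvent construction: `tau x = sum x_i s_i` -/
structure QFData (p : ℕ) (B1 B2 : ℤ) (b : C) (T : F) (τ : C →ₗ[ℚ] F) : Prop where
  hb : b ^ 3 = B1 * b ^ 2 - B2 * b + p
  hT : T ^ 4 = 2 * B2 * T ^ 2 + 8 * p * T - (B2 ^ 2 - 4 * p * B1)
  t0 : τ 1 = T
  t1 : τ b = (T ^ 2 - B2) / 2
  t2 : τ (b ^ 2) = 3 * p + B1 * ((T ^ 2 - B2) / 2) - T * ((T ^ 2 - B2) / 2)
  r0 : Algebra.trace ℚ C 1 = 3
  r1 : Algebra.trace ℚ C b = B1
  r2 : Algebra.trace ℚ C (b ^ 2) = B1 ^ 2 - 2 * B2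

variable {p : ℕ} {B1 B2 : ℤ} {b : C} {T : F} {τ : C →ₗ[ℚ] F}

theorem qf_coe (q : ℚ) (x : C) : (q : C) * x = q • x := by
  rw [Algebra.smul_def]; rfl

namespace QFData

variable (h : QFData p B1 B2 b T τ)
include h

theorem hb_succ (n : ℕ) : b ^ (n + 3) =
    (B1 : ℚ) • b ^ (n + 2) - (B2 : ℚ) • b ^ (n + 1) + (p : ℚ) • b ^ n := by
  have : b ^ (n + 3) = b ^ n * b ^ 3 := by ring
  rw [this, h.hb, Algebra.smul_def, Algebra.smul_def, Algebra.smul_def]
  simp only [map_intCast, map_natCast]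
  ring

theorem tau_succ (n : ℕ) : τ (b ^ (n + 3)) =
    B1 * τ (b ^ (n + 2)) - B2 * τ (b ^ (n + 1)) + p * τ (b ^ n) := by
  rw [h.hb_succ, map_add, map_sub, map_smul, map_smul, map_smul, Algebra.smul_def,
    Algebra.smul_def, Algebra.smul_def]
  simp only [map_intCast, map_natCast]

theorem tr_succ (n : ℕ) : Algebra.trace ℚ C (b ^ (n + 3)) =
    B1 * Algebra.trace ℚ C (b ^ (n + 2)) - B2 * Algebra.trace ℚ C (b ^ (n + 1)) +
      p * Algebra.trace ℚ C (b ^ n) := by
  rw [h.hb_succ, map_add, map_sub, map_smul, map_smul, map_smul]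
  simp only [smul_eq_mul]

end QFData

/-- the defect of the multiplication rule -/
noncomputable def qfDefect (B1 B2 : ℤ) (b : C) (τ : C →ₗ[ℚ] F) (x y : C) : F :=
  τ x * τ y - algebraMap ℚ F (Algebra.trace ℚ C (x * y * (b ^ 2 - B1 * b + B2))) -
    τ (b * ((algebraMap ℚ C (Algebra.trace ℚ C x) - x) * (algebraMap ℚ C (Algebra.trace ℚ C y) - y) -
      (algebraMap ℚ C (Algebra.trace ℚ C (x * y)) - x * y)))

theorem qfDefect_comm (x y : C) : qfDefect B1 B2 b τ x y = qfDefect B1 B2 b τ y x := by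
  unfold qfDefect
  rw [mul_comm (τ x), mul_comm x y, mul_comm (algebraMap ℚ C (Algebra.trace ℚ C x) - x)]

theorem qfDefect_add (x x' y : C) : qfDefect B1 B2 b τ (x + x') y =
    qfDefect B1 B2 b τ x y + qfDefect B1 B2 b τ x' y := by
  unfold qfDefect
  have e : b * ((algebraMap ℚ C (Algebra.trace ℚ C (x + x')) - (x + x')) *
      (algebraMap ℚ C (Algebra.trace ℚ C y) - y) -
      (algebraMap ℚ C (Algebra.trace ℚ C ((x + x') * y)) - (x + x') * y)) =
      b * ((algebraMap ℚ C (Algebra.trace ℚ C x) - x) * (algebraMap ℚ C (Algebra.trace ℚ C y) - y) -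
      (algebraMap ℚ C (Algebra.trace ℚ C (x * y)) - x * y)) +
      b * ((algebraMap ℚ C (Algebra.trace ℚ C x') - x') *
        (algebraMap ℚ C (Algebra.trace ℚ C y) - y) -
      (algebraMap ℚ C (Algebra.trace ℚ C (x' * y)) - x' * y)) := by
    rw [add_mul, map_add, map_add, map_add, map_add]
    ring
  rw [e, map_add τ, map_add τ, add_mul x x' y, add_mul (x * y), map_add, map_add]
  ring

theorem qfDefect_smul (q : ℚ) (x y : C) : qfDefect B1 B2 b τ (q • x) y =
    q • qfDefect B1 B2 b τ x y := by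
  unfold qfDefect
  have s1 : Algebra.trace ℚ C (q • x) = q * Algebra.trace ℚ C x := by rw [map_smul, smul_eq_mul]
  have s2 : Algebra.trace ℚ C ((q • x) * y) = q * Algebra.trace ℚ C (x * y) := by
    rw [smul_mul_assoc, map_smul, smul_eq_mul]
  have s3 : Algebra.trace ℚ C ((q • x) * y * (b ^ 2 - B1 * b + B2)) =
      q * Algebra.trace ℚ C (x * y * (b ^ 2 - B1 * b + B2)) := by
    rw [smul_mul_assoc, smul_mul_assoc, map_smul, smul_eq_mul]
  have e : b * ((algebraMap ℚ C (Algebra.trace ℚ C (q • x)) - (q • x)) *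
      (algebraMap ℚ C (Algebra.trace ℚ C y) - y) -
      (algebraMap ℚ C (Algebra.trace ℚ C ((q • x) * y)) - (q • x) * y)) =
      q • (b * ((algebraMap ℚ C (Algebra.trace ℚ C x) - x) *
        (algebraMap ℚ C (Algebra.trace ℚ C y) - y) -
      (algebraMap ℚ C (Algebra.trace ℚ C (x * y)) - x * y))) := by
    rw [s1, s2, map_mul, map_mul, Algebra.smul_def, Algebra.smul_def]
    ring
  rw [e, s3, map_smul τ, map_smul τ, map_mul, Algebra.smul_def, Algebra.smul_def, Algebra.smul_def]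
  ring

/-- the defect on powers -/
theorem qfDefect_pow (i j : ℕ) : qfDefect B1 B2 b τ (b ^ i) (b ^ j) =
    τ (b ^ i) * τ (b ^ j) -
      ((Algebra.trace ℚ C (b ^ (i + j + 2)) - B1 * Algebra.trace ℚ C (b ^ (i + j + 1)) +
        B2 * Algebra.trace ℚ C (b ^ (i + j)) : ℚ) : F) -
      ((Algebra.trace ℚ C (b ^ i) * Algebra.trace ℚ C (b ^ j) : ℚ) * τ b -
        (Algebra.trace ℚ C (b ^ i) : ℚ) * τ (b ^ (j + 1)) -
        (Algebra.trace ℚ C (b ^ j) : ℚ) * τ (b ^ (i + 1)) + 2 * τ (b ^ (i + j + 1)) -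
        (Algebra.trace ℚ C (b ^ (i + j)) : ℚ) * τ b) := by
  unfold qfDefect
  have s3 : Algebra.trace ℚ C (b ^ i * b ^ j * (b ^ 2 - B1 * b + B2)) =
      Algebra.trace ℚ C (b ^ (i + j + 2)) - B1 * Algebra.trace ℚ C (b ^ (i + j + 1)) +
        B2 * Algebra.trace ℚ C (b ^ (i + j)) := by
    have : b ^ i * b ^ j * (b ^ 2 - B1 * b + B2) =
        b ^ (i + j + 2) - (B1 : ℚ) • b ^ (i + j + 1) + (B2 : ℚ) • b ^ (i + j) := by
      rw [Algebra.smul_def, Algebra.smul_def]
      simp only [map_intCast]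
      ring
    rw [this, map_add, map_sub, map_smul, map_smul, smul_eq_mul, smul_eq_mul]
  have e : b * ((algebraMap ℚ C (Algebra.trace ℚ C (b ^ i)) - b ^ i) *
      (algebraMap ℚ C (Algebra.trace ℚ C (b ^ j)) - b ^ j) -
      (algebraMap ℚ C (Algebra.trace ℚ C (b ^ i * b ^ j)) - b ^ i * b ^ j)) =
      (Algebra.trace ℚ C (b ^ i) * Algebra.trace ℚ C (b ^ j)) • b -
        (Algebra.trace ℚ C (b ^ i)) • b ^ (j + 1) -
        (Algebra.trace ℚ C (b ^ j)) • b ^ (i + 1) + (2 : ℚ) • b ^ (i + j + 1) -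
        (Algebra.trace ℚ C (b ^ (i + j))) • b := by
    simp only [Algebra.smul_def, ← pow_add, map_mul, map_ofNat]
    ring
  rw [s3, e, map_sub τ, map_add τ, map_sub τ, map_sub τ, map_smul τ, map_smul τ, map_smul τ,
    map_smul τ, map_smul τ]
  simp only [Algebra.smul_def, eq_ratCast]
  push_cast
  ring

/-- the multiplication rule -/
theorem QFData.mul_rule (h : QFData p B1 B2 b T τ) (B : Basis (Fin 3) ℚ C)
    (hB : ∀ i, B i = b ^ (i : ℕ)) (x y : C) : qfDefect B1 B2 b τ x y = 0 := by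
  have hr3 := h.tr_succ 0
  have hr4 := h.tr_succ 1
  have hr5 := h.tr_succ 2
  have hr6 := h.tr_succ 3
  have ht3 := h.tau_succ 0
  have ht4 := h.tau_succ 1
  have ht5 := h.tau_succ 2
  norm_num only at hr3 hr4 hr5 hr6 ht3 ht4 ht5
  rw [pow_zero, pow_one, h.r0, h.r1, h.r2] at hr3
  rw [pow_one, hr3, h.r1, h.r2] at hr4
  rw [hr4, hr3, h.r2] at hr5
  rw [hr5, hr4, hr3] at hr6
  rw [pow_zero, pow_one, h.t0, h.t1, h.t2] at ht3
  rw [pow_one, ht3, h.t1, h.t2] at ht4
  rw [ht4, ht3, h.t2] at ht5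
  have hT := h.hT
  have k00 : qfDefect B1 B2 b τ (b ^ 0) (b ^ 0) = 0 := by
    rw [qfDefect_pow]
    norm_num only
    simp only [pow_zero, pow_one, h.r0, h.r1, h.r2, h.t0, h.t1]
    push_cast
    linear_combination (0 : F) * hT
  have k01 : qfDefect B1 B2 b τ (b ^ 0) (b ^ 1) = 0 := by
    rw [qfDefect_pow]
    norm_num only
    simp only [pow_zero, pow_one, h.r0, h.r1, h.r2, h.t0, h.t1, h.t2, hr3]
    push_cast
    linear_combination (0 : F) * hT
  have k02 : qfDefect B1 B2 b τ (b ^ 0) (b ^ 2) = 0 := by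
    rw [qfDefect_pow]
    norm_num only
    simp only [pow_zero, pow_one, h.r0, h.r1, h.r2, h.t0, h.t1, h.t2, hr3, hr4, ht3]
    push_cast
    linear_combination (-1 / 2 : F) * hT
  have k11 : qfDefect B1 B2 b τ (b ^ 1) (b ^ 1) = 0 := by
    rw [qfDefect_pow]
    norm_num only
    simp only [pow_zero, pow_one, h.r0, h.r1, h.r2, h.t0, h.t1, h.t2, hr3, hr4, ht3]
    push_cast
    linear_combination (1 / 4 : F) * hT
  have k12 : qfDefect B1 B2 b τ (b ^ 1) (b ^ 2) = 0 := by
    rw [qfDefect_pow]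
    norm_num only
    simp only [pow_zero, pow_one, h.r0, h.r1, h.r2, h.t0, h.t1, h.t2, hr3, hr4, hr5, ht3, ht4]
    push_cast
    linear_combination (1 / 4 * B1 - 1 / 4 * T : F) * hT
  have k22 : qfDefect B1 B2 b τ (b ^ 2) (b ^ 2) = 0 := by
    rw [qfDefect_pow]
    norm_num only
    simp only [pow_zero, pow_one, h.r0, h.r1, h.r2, h.t0, h.t1, h.t2, hr3, hr4, hr5, hr6, ht3, ht4,
      ht5]
    push_cast
    linear_combination (1 / 4 * B1 ^ 2 - 1 / 2 * B1 * T + 1 / 4 * T ^ 2 : F) * hT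
  let L : C →ₗ[ℚ] C →ₗ[ℚ] F := LinearMap.mk₂ ℚ (qfDefect B1 B2 b τ) qfDefect_add qfDefect_smul
    (fun x y y' => by
      rw [qfDefect_comm, qfDefect_add, qfDefect_comm y, qfDefect_comm y'])
    (fun q x y => by rw [qfDefect_comm, qfDefect_smul, qfDefect_comm y])
  have hL : L = 0 := by
    refine LinearMap.ext_basis B B (fun i j => ?_)
    show qfDefect B1 B2 b τ (B i) (B j) = 0
    rw [hB, hB]
    fin_cases i <;> fin_cases j
    · exact k00
    · exact k01
    · exact k02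
    · rw [qfDefect_comm]; exact k01
    · exact k11
    · exact k12
    · rw [qfDefect_comm]; exact k02
    · rw [qfDefect_comm]; exact k12
    · exact k22
  have := congrArg (fun M : C →ₗ[ℚ] C →ₗ[ℚ] F => M x y) hL
  exact this

theorem QFData.exists_of (hC : finrank ℚ C = 3) (hb : b ^ 3 - B1 * b ^ 2 + B2 * b - p = 0)
    (hbQ : b ∉ Set.range (algebraMap ℚ C))
    (hT : T ^ 4 - 2 * B2 * T ^ 2 - 8 * p * T + (B2 ^ 2 - 4 * p * B1) = 0) :
    ∃ (B : Basis (Fin 3) ℚ C) (τ : C →ₗ[ℚ] F), (∀ i, B i = b ^ (i : ℕ)) ∧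
      QFData p B1 B2 b T τ := by
  have hgen : IntermediateField.adjoin ℚ {b} = ⊤ := by
    have := IntermediateField.isSimpleOrder_of_finrank_prime ℚ C (by rw [hC]; exact Nat.prime_three)
    rcases eq_bot_or_eq_top (IntermediateField.adjoin ℚ {b}) with h | h
    · exfalso
      apply hbQ
      have h1 : b ∈ IntermediateField.adjoin ℚ {b} := IntermediateField.mem_adjoin_simple_self ℚ b
      rw [h, IntermediateField.mem_bot] at h1
      exact h1
    · exact h
  obtain ⟨B, hB⟩ := exists_pow_basis hC b hgen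
  have hb3 : b ^ 3 = B1 * b ^ 2 - B2 * b + p := by linear_combination hb
  have B0 : B 0 = 1 := by rw [hB]; simp
  have B1' : B 1 = b := by rw [hB]; simp
  have B2' : B 2 = b ^ 2 := by rw [hB]; simp
  refine ⟨B, B.constr ℚ ![T, (T ^ 2 - B2) / 2,
    3 * p + B1 * ((T ^ 2 - B2) / 2) - T * ((T ^ 2 - B2) / 2)], hB, ?_⟩
  refine ⟨hb3, by linear_combination hT, ?_, ?_, ?_, ?_, ?_, ?_⟩
  · rw [← B0, Basis.constr_basis]; simp
  · rw [← B1', Basis.constr_basis]; simp
  · rw [← B2', Basis.constr_basis]; simp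
  · rw [← map_one (algebraMap ℚ C), Algebra.trace_algebraMap, hC]; simp
  · rw [trace_of_matrix B b (Matrix.of ![![0, 1, 0], ![0, 0, 1], ![(p : ℚ), -B2, B1]]) ?_]
    · simp
    · intro j
      fin_cases j
      · simp [Fin.sum_univ_three, B0, B1', B2']
      · simp [Fin.sum_univ_three, B0, B1', B2']; ring
      · simp [Fin.sum_univ_three, B0, B1', B2', Algebra.smul_def]
        linear_combination hb3
  · rw [trace_of_matrix B (b ^ 2) (Matrix.of ![![0, 0, 1], ![(p : ℚ), -B2, B1],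
      ![(B1 * p : ℚ), p - B1 * B2, B1 ^ 2 - B2]]) ?_]
    · simp; ring
    · intro j
      fin_cases j
      · simp [Fin.sum_univ_three, B0, B1', B2']
      · simp [Fin.sum_univ_three, B0, B1', B2', Algebra.smul_def]
        linear_combination hb3
      · simp [Fin.sum_univ_three, B0, B1', B2', Algebra.smul_def]
        linear_combination (b + B1) * hb3

theorem qf_tr_int (z : 𝓞 C) : Algebra.trace ℚ C (z : C) = ((Algebra.trace ℤ (𝓞 C) z : ℤ) : ℚ) :=
  (Algebra.coe_trace_int z).symm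

/-- integrality of the values of `tau` -/
theorem QFData.isIntegral (h : QFData p B1 B2 b T τ) (B : Basis (Fin 3) ℚ C)
    (hB : ∀ i, B i = b ^ (i : ℕ)) (w : 𝓞 C) : IsIntegral ℤ (τ (w : C)) := by
  have hbint : IsIntegral ℤ b := by
    refine ⟨Polynomial.X ^ 3 - Polynomial.C B1 * Polynomial.X ^ 2 + Polynomial.C B2 * Polynomial.X -
      Polynomial.C (p : ℤ), ?_, ?_⟩
    · monicity!
    · simp only [Polynomial.eval₂_add, Polynomial.eval₂_sub, Polynomial.eval₂_mul,
        Polynomial.eval₂_pow, Polynomial.eval₂_X, Polynomial.eval₂_C]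
      simp only [eq_intCast, Int.cast_natCast]
      linear_combination h.hb
  let b' : 𝓞 C := ⟨b, hbint⟩
  have hb' : (b' : C) = b := rfl
  let tr : 𝓞 C → 𝓞 C := fun z => ((Algebra.trace ℤ (𝓞 C) z : ℤ) : 𝓞 C)
  have htr : ∀ z : 𝓞 C, ((tr z : 𝓞 C) : C) = algebraMap ℚ C (Algebra.trace ℚ C (z : C)) := by
    intro z
    rw [qf_tr_int]
    simp [tr]
  have hmul : ∀ x y : 𝓞 C, ∃ (n : ℤ) (z : 𝓞 C), τ (x : C) * τ (y : C) = n + τ (z : C) := by
    intro x y
    refine ⟨Algebra.trace ℤ (𝓞 C) (x * y * (b' ^ 2 - B1 * b' + B2)),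
      b' * ((tr x - x) * (tr y - y) - (tr (x * y) - x * y)), ?_⟩
    have h1 := h.mul_rule B hB x y
    unfold qfDefect at h1
    have h2 : ((b' * ((tr x - x) * (tr y - y) - (tr (x * y) - x * y)) : 𝓞 C) : C) =
        b * ((algebraMap ℚ C (Algebra.trace ℚ C (x : C)) - x) *
        (algebraMap ℚ C (Algebra.trace ℚ C (y : C)) - y) -
      (algebraMap ℚ C (Algebra.trace ℚ C ((x : C) * y)) - x * y)) := by
      rw [← htr x, ← htr y]
      have h3 : algebraMap ℚ C (Algebra.trace ℚ C ((x : C) * y)) = ((tr (x * y) : 𝓞 C) : C) := by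
        rw [htr]; simp
      rw [h3]
      simp [hb']
    have h4 : algebraMap ℚ F (Algebra.trace ℚ C ((x : C) * y * (b ^ 2 - B1 * b + B2))) =
        ((Algebra.trace ℤ (𝓞 C) (x * y * (b' ^ 2 - B1 * b' + B2)) : ℤ) : F) := by
      have h5 : (x : C) * y * (b ^ 2 - B1 * b + B2) =
          ((x * y * (b' ^ 2 - B1 * b' + B2) : 𝓞 C) : C) := by
        simp [hb']
      rw [h5, qf_tr_int]
      simp
    rw [h2, ← h4]
    linear_combination h1
  have e1 : ∀ (n : ℤ) (y : 𝓞 C), τ ((n * y : 𝓞 C) : C) = n * τ (y : C) := by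
    intro n y
    have : ((n * y : 𝓞 C) : C) = (n : ℚ) • (y : C) := by
      rw [Algebra.smul_def]; simp
    rw [this, map_smul, Algebra.smul_def]; simp
  let S : Subalgebra ℤ F :=
    { carrier := {z | ∃ (n : ℤ) (w : 𝓞 C), z = n + τ (w : C)}
      mul_mem' := by
        rintro _ _ ⟨n, x, rfl⟩ ⟨m, y, rfl⟩
        obtain ⟨k, z, hz⟩ := hmul x y
        refine ⟨n * m + k, n * y + m * x + z, ?_⟩
        have e2 : ((n * y + m * x + z : 𝓞 C) : C) =
            ((n * y : 𝓞 C) : C) + ((m * x : 𝓞 C) : C) + (z : C) := by simp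
        rw [e2, map_add, map_add, e1, e1]
        push_cast
        linear_combination hz
      add_mem' := by
        rintro _ _ ⟨n, x, rfl⟩ ⟨m, y, rfl⟩
        refine ⟨n + m, x + y, ?_⟩
        have e2 : ((x + y : 𝓞 C) : C) = (x : C) + (y : C) := by simp
        rw [e2, map_add]
        push_cast
        ring
      algebraMap_mem' := fun n => ⟨n, 0, by simp⟩ }
  have hfg : (Subalgebra.toSubmodule S).FG := by
    let L : (ℤ × 𝓞 C) →ₗ[ℤ] F :=
      { toFun := fun q => (q.1 : F) + τ (q.2 : C)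
        map_add' := by
          intro q q'
          have e2 : (((q + q').2 : 𝓞 C) : C) = (q.2 : C) + (q'.2 : C) := by simp
          rw [e2, map_add]
          simp only [Prod.fst_add]
          push_cast
          ring
        map_smul' := by
          intro n q
          have e3 : (n • q).2 = (n : 𝓞 C) * q.2 := by
            rw [Prod.smul_snd, zsmul_eq_mul]
          have e4 : (n • q).1 = n * q.1 := by
            rw [Prod.smul_fst, smul_eq_mul]
          rw [e3, e4, e1, RingHom.id_apply, zsmul_eq_mul]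
          push_cast
          ring }
    have hr : Subalgebra.toSubmodule S = LinearMap.range L := by
      ext z
      constructor
      · rintro ⟨n, w, rfl⟩
        exact ⟨(n, w), rfl⟩
      · rintro ⟨⟨n, w⟩, rfl⟩
        exact ⟨n, w, rfl⟩
    rw [hr, LinearMap.range_eq_map]
    exact (Module.Finite.fg_top).map L
  exact IsIntegral.of_mem_of_fg S hfg _ ⟨0, w, by simp⟩

theorem qf_traceF (hF : finrank ℚ F = 4) (hgen : IntermediateField.adjoin ℚ {T} = ⊤)
    (hT : T ^ 4 = 2 * B2 * T ^ 2 + 8 * p * T - (B2 ^ 2 - 4 * p * B1)) :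
    Algebra.trace ℚ F T = 0 ∧ Algebra.trace ℚ F (T ^ 2) = 4 * B2 ∧
      Algebra.trace ℚ F (T ^ 3) = 24 * p := by
  obtain ⟨B, hB⟩ := exists_pow_basis hF T hgen
  have e0 : B 0 = 1 := by rw [hB]; simp
  have e1 : B 1 = T := by rw [hB]; simp
  have e2 : B 2 = T ^ 2 := by rw [hB]; simp
  have e3 : B 3 = T ^ 3 := by rw [hB]; simp
  refine ⟨?_, ?_, ?_⟩
  · rw [trace_of_matrix4 B T (Matrix.of ![![0, 1, 0, 0], ![0, 0, 1, 0], ![0, 0, 0, 1],
      ![(-(B2 ^ 2 - 4 * p * B1) : ℚ), 8 * p, 2 * B2, 0]]) ?_]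
    · simp
    · intro j
      fin_cases j
      · simp [Fin.sum_univ_four, e0, e1, e2, e3]
      · simp [Fin.sum_univ_four, e0, e1, e2, e3]; ring
      · simp [Fin.sum_univ_four, e0, e1, e2, e3]; ring
      · simp [Fin.sum_univ_four, e0, e1, e2, e3, Algebra.smul_def]
        linear_combination hT
  · rw [trace_of_matrix4 B (T ^ 2) (Matrix.of ![![0, 0, 1, 0], ![0, 0, 0, 1],
      ![(-(B2 ^ 2 - 4 * p * B1) : ℚ), 8 * p, 2 * B2, 0],
      ![0, (-(B2 ^ 2 - 4 * p * B1) : ℚ), 8 * p, 2 * B2]]) ?_]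
    · simp; ring
    · intro j
      fin_cases j
      · simp [Fin.sum_univ_four, e0, e1, e2, e3]
      · simp [Fin.sum_univ_four, e0, e1, e2, e3]; ring
      · simp [Fin.sum_univ_four, e0, e1, e2, e3, Algebra.smul_def]
        linear_combination hT
      · simp [Fin.sum_univ_four, e0, e1, e2, e3, Algebra.smul_def]
        linear_combination T * hT
  · rw [trace_of_matrix4 B (T ^ 3) (Matrix.of ![![0, 0, 0, 1],
      ![(-(B2 ^ 2 - 4 * p * B1) : ℚ), 8 * p, 2 * B2, 0],
      ![0, (-(B2 ^ 2 - 4 * p * B1) : ℚ), 8 * p, 2 * B2],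
      ![(2 * B2 * (-(B2 ^ 2 - 4 * p * B1)) : ℚ), 2 * B2 * (8 * p),
        2 * B2 * (2 * B2) - (B2 ^ 2 - 4 * p * B1), 8 * p]]) ?_]
    · simp; ring
    · intro j
      fin_cases j
      · simp [Fin.sum_univ_four, e0, e1, e2, e3]
      · simp [Fin.sum_univ_four, e0, e1, e2, e3, Algebra.smul_def]
        linear_combination hT
      · simp [Fin.sum_univ_four, e0, e1, e2, e3, Algebra.smul_def]
        linear_combination T * hT
      · simp [Fin.sum_univ_four, e0, e1, e2, e3, Algebra.smul_def]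
        linear_combination (T ^ 2 + 2 * B2) * hT

theorem qf_norm (B : Basis (Fin 3) ℚ C) (hB : ∀ i, B i = b ^ (i : ℕ)) (hp : (p : ℚ) ≠ 0)
    (hb : b ^ 3 = B1 * b ^ 2 - B2 * b + p) (hC : finrank ℚ C = 3) :
    Algebra.norm ℚ (b ^ 2 - B1 * b + B2) = p ^ 2 := by
  have B0 : B 0 = 1 := by rw [hB]; simp
  have B1' : B 1 = b := by rw [hB]; simp
  have B2' : B 2 = b ^ 2 := by rw [hB]; simp
  have h1 : Algebra.norm ℚ b = p := by
    rw [norm_of_matrix B b (Matrix.of ![![0, 1, 0], ![0, 0, 1], ![(p : ℚ), -B2, B1]]) ?_]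
    · rw [Matrix.det_fin_three]
      simp
    · intro j
      fin_cases j
      · simp [Fin.sum_univ_three, B0, B1', B2']
      · simp [Fin.sum_univ_three, B0, B1', B2']; ring
      · simp [Fin.sum_univ_three, B0, B1', B2', Algebra.smul_def]
        linear_combination hb
  have h2 : b * (b ^ 2 - B1 * b + B2) = algebraMap ℚ C p := by
    rw [map_natCast]
    linear_combination hb
  have h3 := congrArg (Algebra.norm ℚ) h2
  rw [map_mul, h1, Algebra.norm_algebraMap, hC] at h3
  have h4 : (p : ℚ) * Algebra.norm ℚ (b ^ 2 - B1 * b + B2) = p * p ^ 2 := by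
    rw [h3]; ring
  exact mul_left_cancel₀ hp h4

end Setup

/-- A -/
theorem qf_disc {C F : Type} [Field C] [NumberField C] [Field F] [NumberField F]
    (hC : finrank ℚ C = 3) (hF : finrank ℚ F = 4) {p : ℕ} (hp : p.Prime) (B1 B2 : ℤ) (b : C)
    (hb : b ^ 3 - B1 * b ^ 2 + B2 * b - p = 0) (hbQ : b ∉ Set.range (algebraMap ℚ C)) (T : F)
    (hT : T ^ 4 - 2 * B2 * T ^ 2 - 8 * p * T + (B2 ^ 2 - 4 * p * B1) = 0)
    (hgen : IntermediateField.adjoin ℚ {T} = ⊤) :
    |discr F| ≤ 256 * (p : ℤ) ^ 2 * |discr C| := by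
  classical
  obtain ⟨B, τ, hB, h⟩ := QFData.exists_of hC hb hbQ hT
  have hp0 : (p : ℚ) ≠ 0 := by exact_mod_cast hp.ne_zero
  obtain ⟨hT1, hT2, hT3⟩ := qf_traceF hF hgen h.hT
  -- the trace of tau vanishes
  have htr0 : ∀ x : C, Algebra.trace ℚ F (τ x) = 0 := by
    intro x
    have hL : (Algebra.trace ℚ F) ∘ₗ τ = 0 := by
      refine B.ext fun i => ?_
      rw [hB, LinearMap.comp_apply, LinearMap.zero_apply]
      have hhalf : Algebra.trace ℚ F ((T ^ 2 - B2) / 2) = 0 := by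
        have : (T ^ 2 - B2) / 2 = (1 / 2 : ℚ) • (T ^ 2) - algebraMap ℚ F (B2 / 2) := by
          rw [Algebra.smul_def]
          simp
          ring
        rw [this, map_sub, map_smul, hT2, Algebra.trace_algebraMap, hF]
        simp
        ring
      fin_cases i
      · simp [h.t0, hT1]
      · simp [h.t1, hhalf]
      · have e : τ (b ^ 2) = algebraMap ℚ F (3 * p) + (B1 : ℚ) • ((T ^ 2 - B2) / 2) -
            (1 / 2 : ℚ) • (T ^ 3) + (B2 / 2 : ℚ) • T := by
          rw [h.t2, Algebra.smul_def, Algebra.smul_def, Algebra.smul_def]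
          simp
          ring
        show Algebra.trace ℚ F (τ (b ^ 2)) = 0
        rw [e, map_add, map_sub, map_add, map_smul, map_smul, map_smul, hhalf, hT3, hT1,
          Algebra.trace_algebraMap, hF]
        simp
        ring
    exact congrArg (fun M : C →ₗ[ℚ] ℚ => M x) hL
  have htr2 : ∀ x y : C, Algebra.trace ℚ F (τ x * τ y) =
      4 * Algebra.trace ℚ C (x * y * (b ^ 2 - B1 * b + B2)) := by
    intro x y
    have h1 := h.mul_rule B hB x y
    unfold qfDefect at h1
    have h2 := congrArg (Algebra.trace ℚ F) h1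
    rw [map_sub, map_sub, htr0, Algebra.trace_algebraMap, hF, map_zero, sub_zero] at h2
    rw [sub_eq_zero.mp h2]
    simp
  -- the family of integers
  let ι := Module.Free.ChooseBasisIndex ℤ (𝓞 C)
  let ω := integralBasis C
  let y : Unit ⊕ ι → 𝓞 F := Sum.elim (fun _ => 1)
    (fun i => ⟨τ ((RingOfIntegers.basis C i : 𝓞 C) : C), h.isIntegral B hB _⟩)
  have hcard : Fintype.card (Unit ⊕ ι) = finrank ℚ F := by
    rw [Fintype.card_sum, Fintype.card_unit, ← Module.finrank_eq_card_chooseBasisIndex,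
      RingOfIntegers.rank, hC, hF]
  obtain ⟨i, hi⟩ := exists_discr_mul_sq y hcard
  have hM : Algebra.traceMatrix ℚ (fun j => ((y j : 𝓞 F) : F)) = Matrix.fromBlocks
      (Matrix.of fun _ _ : Unit => (4 : ℚ)) 0 0 ((4 : ℚ) • (Algebra.traceMatrix ℚ ω *
        Algebra.leftMulMatrix ω (b ^ 2 - B1 * b + B2))) := by
    ext j k
    rcases j with j | j <;> rcases k with k | k
    · simp [Algebra.traceMatrix_apply, Algebra.traceForm_apply, y]
      rw [← map_one (algebraMap ℚ F), Algebra.trace_algebraMap, hF]; simp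
    · simp [Algebra.traceMatrix_apply, Algebra.traceForm_apply, y, htr0]
    · simp [Algebra.traceMatrix_apply, Algebra.traceForm_apply, y, htr0]
    · simp only [Matrix.fromBlocks_apply₂₂, Matrix.smul_apply, smul_eq_mul, Matrix.mul_apply,
        Algebra.traceMatrix_apply, Algebra.traceForm_apply, y, Sum.elim_inr]
      have e1 : Algebra.trace ℚ F (τ ((RingOfIntegers.basis C j : 𝓞 C) : C) *
          τ ((RingOfIntegers.basis C k : 𝓞 C) : C)) =
          4 * Algebra.trace ℚ C (ω j * ((b ^ 2 - B1 * b + B2) * ω k)) := by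
        rw [htr2]
        congr 2
        simp only [ω, integralBasis_apply]
        ring
      have e2 : (b ^ 2 - B1 * b + B2) * ω k =
          ∑ l, (Algebra.leftMulMatrix ω (b ^ 2 - B1 * b + B2)) l k • ω l := by
        simp only [Algebra.leftMulMatrix_eq_repr_mul]
        exact (ω.sum_repr _).symm
      refine Eq.trans e1 ?_
      rw [e2, Finset.mul_sum, map_sum]
      congr 1
      refine Finset.sum_congr rfl fun l _ => ?_
      rw [mul_smul_comm, map_smul, smul_eq_mul, mul_comm]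
  have hdisc : Algebra.discr ℚ (fun j => ((y j : 𝓞 F) : F)) = 256 * (p : ℚ) ^ 2 * discr C := by
    rw [Algebra.discr_def, hM, Matrix.det_fromBlocks_zero₂₁, Matrix.det_smul, Matrix.det_mul,
      ← Algebra.norm_eq_matrix_det, qf_norm B hB hp0 h.hb hC, ← Algebra.discr_def, ← coe_discr,
      ← Module.finrank_eq_card_chooseBasisIndex, RingOfIntegers.rank, hC]
    simp
    ring
  rw [hi] at hdisc
  have hz : discr F * i ^ 2 = 256 * (p : ℤ) ^ 2 * discr C := by exact_mod_cast hdisc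
  have hi0 : i ≠ 0 := by
    rintro rfl
    have hD := discr_ne_zero C
    have hp' : (p : ℤ) ≠ 0 := by exact_mod_cast hp.ne_zero
    have : (256 : ℤ) * (p : ℤ) ^ 2 * discr C ≠ 0 := by positivity
    apply this
    rw [← hz]; ring
  have hi1 : 1 ≤ i ^ 2 := by
    have : 0 < i ^ 2 := by positivity
    linarith
  calc |discr F| ≤ |discr F| * i ^ 2 := le_mul_of_one_le_right (abs_nonneg _) hi1
    _ = |discr F * i ^ 2| := by rw [abs_mul, abs_of_nonneg (sq_nonneg i)]
    _ = |256 * (p : ℤ) ^ 2 * discr C| := by rw [hz]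
    _ = 256 * (p : ℤ) ^ 2 * |discr C| := by
      rw [abs_mul, abs_of_nonneg (by positivity)]

end Pool.Agent.Work.MuB
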