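import Mathlib
import Pool.Agent.Work.MP_a4986b_nt.CDecomp

set_option autoImplicit false
set_option maxHeartbeats 400000

/-! # The quartic family: one prime over `p` -/

namespace Pool.Agent.Work.MuB

open NumberField Module NumberField.InfinitePlace NumberField.Units
open CDecomp

namespace QFPrime

variable {M : Type*} [Field M] [NumberField M] {p : ℕ}

theorem sq_of_int {p : ℕ} (hp : p.Prime) {B n : ℤ} (h : (p : ℤ) ∣ (n ^ 2 - B) ^ 2) :
    IsSquare ((B : ℤ) : ZMod p) := by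
  have hpi := Nat.prime_iff_prime_int.mp hp
  have h1 : (p : ℤ) ∣ n ^ 2 - B := hpi.dvd_of_dvd_pow h
  have h2 : ((n ^ 2 - B : ℤ) : ZMod p) = 0 := (ZMod.intCast_zmod_eq_zero_iff_dvd _ _).mpr h1
  refine ⟨(n : ZMod p), ?_⟩
  push_cast at h2
  linear_combination -h2

theorem int_mem {P : Ideal (𝓞 M)} (hp : p.Prime) (hP : P.IsPrime) (hpP : (p : 𝓞 M) ∈ P) {m : ℤ}
    (hm : (m : 𝓞 M) ∈ P) : (p : ℤ) ∣ m := by
  have h : P ∈ (Ideal.span {(p : ℤ)}).primesOver (𝓞 M) := by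
    rw [← primesOver_eq M hp]; exact ⟨hP, hpP⟩
  have h1 : m ∈ P.under ℤ := by
    rw [Ideal.mem_comap]; simpa using hm
  rw [← h.2.over] at h1
  exact Ideal.mem_span_singleton.mp h1

theorem two_le_f {P : Ideal (𝓞 M)} (hp : p.Prime) (hP : P.IsPrime) (hpP : (p : 𝓞 M) ∈ P)
    {B : ℤ} (hB : ¬ IsSquare ((B : ℤ) : ZMod p)) (T : 𝓞 M) (hT : (T ^ 2 - B) ^ 2 ∈ P) :
    2 ≤ P.inertiaDeg ℤ := by
  have hPo : P ∈ (Ideal.span {(p : ℤ)}).primesOver (𝓞 M) := by
    rw [← primesOver_eq M hp]; exact ⟨hP, hpP⟩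
  have hf := f_pos hPo
  by_contra hlt
  have hf1 : P.inertiaDeg ℤ = 1 := by omega
  have hN := pow_f hPo
  rw [hf1, pow_one] at hN
  have : Fact p.Prime := ⟨hp⟩
  have hnt : Nontrivial (𝓞 M ⧸ P) := Ideal.Quotient.nontrivial_iff.mpr hP.ne_top
  have hch : CharP (𝓞 M ⧸ P) p := by
    refine (CharP.charP_iff_prime_eq_zero hp).mpr ?_
    have := Ideal.Quotient.eq_zero_iff_mem.mpr hpP
    simpa using this
  have hcard : Nat.card (ZMod p) = Nat.card (𝓞 M ⧸ P) := by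
    rw [Nat.card_zmod, hN, Ideal.absNorm_apply, Submodule.cardQuot_apply]
  have hfin : Finite (𝓞 M ⧸ P) := by
    apply Nat.finite_of_card_ne_zero
    rw [← hcard, Nat.card_zmod]
    exact hp.ne_zero
  have hbij : Function.Bijective (ZMod.castHom (dvd_refl p) (𝓞 M ⧸ P)) :=
    (Nat.bijective_iff_injective_and_card _).mpr ⟨RingHom.injective _, hcard⟩
  obtain ⟨z, hz⟩ := hbij.2 (Ideal.Quotient.mk P T)
  obtain ⟨n, rfl⟩ := ZMod.intCast_surjective z
  rw [map_intCast] at hz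
  have h1 : T - n ∈ P := by
    rw [← Ideal.Quotient.eq_zero_iff_mem, map_sub, ← hz]
    simp
  have h2 : (((n ^ 2 - B) ^ 2 : ℤ) : 𝓞 M) ∈ P := by
    have h3 : (((n ^ 2 - B) ^ 2 : ℤ) : 𝓞 M) = (T ^ 2 - B) ^ 2 -
        (T - n) * ((T + n) * ((T ^ 2 - B) + (n ^ 2 - B))) := by
      push_cast; ring
    rw [h3]
    exact P.sub_mem hT (P.mul_mem_right _ h1)
  exact hB (sq_of_int hp (int_mem hp hP hpP h2))

theorem two_le_e {P : Ideal (𝓞 M)} (hp : p.Prime) (hp2 : p ≠ 2) (hP : P.IsPrime)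
    (hpP : (p : 𝓞 M) ∈ P) {B B1 : ℤ} (hB : ¬ IsSquare ((B : ℤ) : ZMod p)) (T : 𝓞 M)
    (hT : (T ^ 2 - B) ^ 2 = p * (4 * (2 * T + B1))) :
    2 ≤ P.ramificationIdx ℤ := by
  have hPo : P ∈ (Ideal.span {(p : ℤ)}).primesOver (𝓞 M) := by
    rw [← primesOver_eq M hp]; exact ⟨hP, hpP⟩
  have he := e_pos hPo
  have hspan := isPrime_span hp
  have hspan0 : Ideal.span {(p : ℤ)} ≠ ⊥ := by
    simpa using hp.ne_zero
  have hlies := hPo.2
  by_contra hlt
  have he1 : P.ramificationIdx ℤ = 1 := by omega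
  have hTP : (T ^ 2 - B) ^ 2 ∈ P := by
    rw [hT]; exact P.mul_mem_right _ hpP
  have hTP1 : T ^ 2 - B ∈ P := hP.mem_of_pow_mem 2 hTP
  have hTP2 : (4 * (2 * T + B1)) * (p : 𝓞 M) ∈ P ^ 2 := by
    rw [mul_comm, ← hT]
    exact Ideal.pow_mem_pow hTP1 2
  have hle : Ideal.map (algebraMap ℤ (𝓞 M)) (Ideal.span {(p : ℤ)}) ≤ P := by
    rw [Ideal.map_span, Set.image_singleton, Ideal.span_singleton_le_iff_mem]
    simpa using hpP
  have hnot : (p : 𝓞 M) ∉ P ^ 2 := by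
    intro h2
    have h3 : Ideal.map (algebraMap ℤ (𝓞 M)) (Ideal.span {(p : ℤ)}) ≤ P ^ 2 := by
      rw [Ideal.map_span, Set.image_singleton, Ideal.span_singleton_le_iff_mem]
      simpa using h2
    have h4 := (Ideal.ramificationIdx'_ne_one_iff hle).mpr h3
    rw [Ideal.ramificationIdx'_eq_ramificationIdx _ _ hspan0] at h4
    exact h4 he1
  have h5 : 4 * (2 * T + B1) ∈ P := (hP.mul_mem_pow P hTP2).resolve_right hnot
  have h6 : ((4 * (B1 ^ 2 - 4 * B) : ℤ) : 𝓞 M) ∈ P := by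
    have h7 : ((4 * (B1 ^ 2 - 4 * B) : ℤ) : 𝓞 M) =
        (4 * (2 * T + B1)) * (B1 - 2 * T) + 16 * (T ^ 2 - B) := by
      push_cast; ring
    rw [h7]
    exact P.add_mem (P.mul_mem_right _ h5) (P.mul_mem_left _ hTP1)
  have h8 := int_mem hp hP hpP h6
  have hpi := Nat.prime_iff_prime_int.mp hp
  have hp2' : ¬ (p : ℤ) ∣ 2 := by
    intro h
    have h' : p ∣ 2 := by exact_mod_cast h
    exact hp2 ((Nat.prime_dvd_prime_iff_eq hp Nat.prime_two).mp h')
  have h9 : (p : ℤ) ∣ B1 ^ 2 - 4 * B := by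
    rcases hpi.dvd_or_dvd h8 with h | h
    · exact absurd (hpi.dvd_of_dvd_pow (show (p : ℤ) ∣ 2 ^ 2 by norm_num; exact h)) hp2'
    · exact h
  have h10 : ((B1 ^ 2 - 4 * B : ℤ) : ZMod p) = 0 :=
    (ZMod.intCast_zmod_eq_zero_iff_dvd _ _).mpr h9
  have : Fact p.Prime := ⟨hp⟩
  have h11 : (2 : ZMod p) ≠ 0 := by
    intro h
    have h12 : ((2 : ℤ) : ZMod p) = 0 := by exact_mod_cast h
    exact hp2' ((ZMod.intCast_zmod_eq_zero_iff_dvd _ _).mp h12)
  refine hB ⟨(B1 : ZMod p) / 2, ?_⟩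
  push_cast at h10
  field_simp
  linear_combination -h10

theorem four_le {P : Ideal (𝓞 M)} (hp : p.Prime) (hp2 : p ≠ 2) (hP : P.IsPrime)
    (hpP : (p : 𝓞 M) ∈ P) {B B1 : ℤ} (hB : ¬ IsSquare ((B : ℤ) : ZMod p)) (T : 𝓞 M)
    (hT : (T ^ 2 - B) ^ 2 = p * (4 * (2 * T + B1))) :
    4 ≤ P.ramificationIdx ℤ * P.inertiaDeg ℤ := by
  have h1 := two_le_e hp hp2 hP hpP hB T hT
  have h2 : 2 ≤ P.inertiaDeg ℤ := by
    refine two_le_f hp hP hpP hB T ?_
    rw [hT]; exact P.mul_mem_right _ hpP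
  calc 4 = 2 * 2 := rfl
    _ ≤ _ := Nat.mul_le_mul h1 h2

theorem exists_prime (M : Type*) [Field M] [NumberField M] {p : ℕ} (hp : p.Prime) :
    ∃ P : Ideal (𝓞 M), P.IsPrime ∧ (p : 𝓞 M) ∈ P := by
  have h : ¬ IsUnit (p : 𝓞 M) := by
    intro hu
    have h1 := (NumberField.isUnit_iff_norm).mp hu
    have h2 : (Algebra.norm ℚ (((p : 𝓞 M)) : M)) = (p : ℚ) ^ finrank ℚ M := by
      have : (((p : 𝓞 M)) : M) = algebraMap ℚ M p := by simp
      rw [this, Algebra.norm_algebraMap]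
    rw [RingOfIntegers.coe_norm, h2] at h1
    have h3 : (1 : ℚ) < (p : ℚ) ^ finrank ℚ M := by
      refine one_lt_pow₀ (by exact_mod_cast hp.one_lt) ?_
      exact (finrank_pos).ne'
    rw [abs_of_pos (by linarith)] at h1
    linarith
  obtain ⟨P, hP, hpP⟩ := exists_max_ideal_of_mem_nonunits h
  exact ⟨P, hP.isPrime, hpP⟩

end QFPrime

open QFPrime

theorem qf_prime {F : Type} [Field F] [NumberField F] (hF : finrank ℚ F = 4) {p : ℕ}
    (hp : p.Prime) (hp2 : p ≠ 2) (B1 B2 : ℤ) (hB : ¬ IsSquare ((B2 : ℤ) : ZMod p)) (T : F)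
    (hT : T ^ 4 - 2 * B2 * T ^ 2 - 8 * p * T + (B2 ^ 2 - 4 * p * B1) = 0) :
    IntermediateField.adjoin ℚ {T} = ⊤ ∧ ∃! P : Ideal (𝓞 F), P.IsPrime ∧ (p : 𝓞 F) ∈ P := by
  have hTi : IsIntegral ℤ T := by
    refine ⟨Polynomial.X ^ 4 + (Polynomial.C (-2 * B2) * Polynomial.X ^ 2
      + (Polynomial.C (-8 * (p : ℤ)) * Polynomial.X + Polynomial.C (B2 ^ 2 - 4 * p * B1))),
      ?_, ?_⟩
    · refine Polynomial.monic_X_pow_add ?_
      refine lt_of_le_of_lt (Polynomial.degree_add_le _ _) (max_lt ?_ ?_)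
      · refine lt_of_le_of_lt (Polynomial.degree_C_mul_X_pow_le _ _) ?_
        exact_mod_cast (by norm_num : 2 < 4)
      · refine lt_of_le_of_lt (Polynomial.degree_linear_le) ?_
        exact_mod_cast (by norm_num : 1 < 4)
    · simp only [Polynomial.eval₂_add, Polynomial.eval₂_mul, Polynomial.eval₂_pow,
        Polynomial.eval₂_X, Polynomial.eval₂_C]
      simp only [eq_intCast]
      push_cast
      linear_combination hT
  -- the general statement: a number field containing a root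
  have key : ∀ (M : Type) [Field M] [NumberField M] (S : M), IsIntegral ℤ S →
      S ^ 4 - 2 * B2 * S ^ 2 - 8 * p * S + (B2 ^ 2 - 4 * p * B1) = 0 →
      ∀ P : Ideal (𝓞 M), P.IsPrime → (p : 𝓞 M) ∈ P →
        4 ≤ P.ramificationIdx ℤ * P.inertiaDeg ℤ := by
    intro M _ _ S hS hS4 P hP hpP
    refine four_le (B1 := B1) hp hp2 hP hpP hB ⟨S, hS⟩ ?_
    apply RingOfIntegers.ext
    simp only [map_pow, map_sub, map_mul, map_add, map_intCast, map_natCast, map_ofNat,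
      RingOfIntegers.map_mk]
    linear_combination hS4
  constructor
  · let K := IntermediateField.adjoin ℚ ({T} : Set F)
    have hTK : T ∈ K := IntermediateField.mem_adjoin_simple_self ℚ T
    obtain ⟨P, hP, hpP⟩ := exists_prime K hp
    have h4 := key K ⟨T, hTK⟩ ?_ ?_ P hP hpP
    · have hPo : P ∈ (Ideal.span {(p : ℤ)}).primesOver (𝓞 K) := by
        rw [← primesOver_eq K hp]; exact ⟨hP, hpP⟩
      have h5 := ef_le hp hPo
      have h6 : finrank ℚ K = finrank ℚ F := by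
        have h7 : finrank ℚ K ≤ finrank ℚ F := by
          have := Submodule.finrank_le (Subalgebra.toSubmodule K.toSubalgebra)
          simpa using this
        omega
      exact IntermediateField.eq_of_le_of_finrank_eq le_top
        (by rw [IntermediateField.finrank_top']; exact h6)
    · have : Function.Injective (algebraMap K F) := (algebraMap K F).injective
      exact (isIntegral_algebraMap_iff this).mp hTi
    · apply Subtype.ext
      push_cast
      exact hT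
  · obtain ⟨P, hP, hpP⟩ := exists_prime F hp
    refine ⟨P, ⟨hP, hpP⟩, ?_⟩
    rintro Q ⟨hQ, hpQ⟩
    by_contra hne
    have hPo : P ∈ (Ideal.span {(p : ℤ)}).primesOver (𝓞 F) := by
      rw [← primesOver_eq F hp]; exact ⟨hP, hpP⟩
    have hQo : Q ∈ (Ideal.span {(p : ℤ)}).primesOver (𝓞 F) := by
      rw [← primesOver_eq F hp]; exact ⟨hQ, hpQ⟩
    have h5 := ef_add_le hp hQo hPo hne
    have h6 := key F T hTi hT P hP hpP
    have h7 := key F T hTi hT Q hQ hpQ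
    omega

end Pool.Agent.Work.MuB
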