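import Mathlib

set_option autoImplicit false

/-! # Explicit family of totally real quartic fields: the quartic field is totally real -/

namespace Pool.Agent.Work.MuB

open NumberField Module NumberField.InfinitePlace NumberField.Units Polynomial

/-- every complex root of the monic cubic equation of a generator is a conjugate -/
theorem qfReal_conj {C : Type} [Field C] [NumberField C] (hC : finrank ℚ C = 3) (P : Cubic ℚ)
    (hP : P.a = 1) (b : C) (hb : aeval b P.toPoly = 0) (hbQ : b ∉ Set.range (algebraMap ℚ C))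
    (z : ℂ) (hz : aeval z P.toPoly = 0) : ∃ φ : C →+* ℂ, φ b = z := by
  have hmon : P.toPoly.Monic := Cubic.monic_of_a_eq_one hP
  have hint : IsIntegral ℚ b := ⟨P.toPoly, hmon, hb⟩
  have hdeg : P.toPoly.natDegree = 3 :=
    Cubic.natDegree_of_a_ne_zero (by rw [hP]; exact one_ne_zero)
  have hdvd : minpoly ℚ b ∣ P.toPoly := minpoly.dvd ℚ b hb
  have h1 : (minpoly ℚ b).natDegree ∣ 3 := by
    rw [← hC]
    exact minpoly.degree_dvd hint
  have h2 : (minpoly ℚ b).natDegree ≠ 1 := by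
    intro h
    rw [minpoly.natDegree_eq_one_iff] at h
    exact hbQ h
  have h3 : (minpoly ℚ b).natDegree = 3 := by
    rcases (Nat.dvd_prime Nat.prime_three).mp h1 with h | h
    · exact absurd h h2
    · exact h
  have h4 : P.toPoly = minpoly ℚ b :=
    eq_of_monic_of_dvd_of_natDegree_le (minpoly.monic hint) hmon hdvd (by rw [hdeg, h3])
  have h5 : z ∈ (minpoly ℚ b).rootSet ℂ := by
    rw [mem_rootSet]
    refine ⟨minpoly.ne_zero hint, ?_⟩
    rw [← h4]
    exact hz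
  rw [← NumberField.Embeddings.range_eval_eq_rootSet_minpoly] at h5
  obtain ⟨φ, hφ⟩ := h5
  exact ⟨φ, hφ⟩

/-- C -/
theorem qf_real {C F : Type} [Field C] [NumberField C] [Field F] [NumberField F]
    (hC : finrank ℚ C = 3) (hF : finrank ℚ F = 4) {p : ℕ} (B1 B2 : ℤ) (b : C)
    (hb : b ^ 3 - B1 * b ^ 2 + B2 * b - p = 0) (hbQ : b ∉ Set.range (algebraMap ℚ C))
    (hpos : ∀ φ : C →+* ℂ, ∃ r : ℝ, 0 < r ∧ φ b = r) (T : F)
    (hT : T ^ 4 - 2 * B2 * T ^ 2 - 8 * p * T + (B2 ^ 2 - 4 * p * B1) = 0)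
    (hgen : IntermediateField.adjoin ℚ {T} = ⊤) : Units.rank F = 3 := by
  -- the cubic
  let P : Cubic ℚ := ⟨1, -B1, B2, -p⟩
  have hPb : aeval b P.toPoly = 0 := by
    simp only [P, Cubic.toPoly, map_add, map_mul, map_pow, aeval_X, map_one, map_neg,
      map_intCast, map_natCast]
    linear_combination hb
  have ha : P.a ≠ 0 := one_ne_zero
  obtain ⟨z₁, z₂, z₃, hz⟩ := (Cubic.splits_iff_roots_eq_three (φ := algebraMap ℚ ℂ) ha).mp
    (IsAlgClosed.splits _)
  have hroot : ∀ z : ℂ, z ∈ (Cubic.map (algebraMap ℚ ℂ) P).roots → ∃ r : ℝ, 0 < r ∧ z = r := by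
    intro z hz'
    rw [Cubic.map_roots] at hz'
    have h1 : aeval z P.toPoly = 0 := by
      rw [aeval_def, ← eval_map]
      exact (mem_roots'.mp hz').2
    obtain ⟨φ, hφ⟩ := qfReal_conj hC P rfl b hPb hbQ z h1
    obtain ⟨r, hr, hr'⟩ := hpos φ
    exact ⟨r, hr, by rw [← hφ, hr']⟩
  obtain ⟨r₁, hr₁, e₁⟩ := hroot z₁ (by rw [hz]; simp)
  obtain ⟨r₂, hr₂, e₂⟩ := hroot z₂ (by rw [hz]; simp)
  obtain ⟨r₃, hr₃, e₃⟩ := hroot z₃ (by rw [hz]; simp)
  have v1 := Cubic.b_eq_three_roots ha hz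
  have v2 := Cubic.c_eq_three_roots ha hz
  have v3 := Cubic.d_eq_three_roots ha hz
  have w1 : (B1 : ℝ) = r₁ + r₂ + r₃ := by
    have : ((B1 : ℝ) : ℂ) = ((r₁ + r₂ + r₃ : ℝ) : ℂ) := by
      simp only [P, map_neg, map_intCast, map_one, one_mul, e₁, e₂, e₃] at v1
      push_cast
      linear_combination -v1
    exact_mod_cast this
  have w2 : (B2 : ℝ) = r₁ * r₂ + r₁ * r₃ + r₂ * r₃ := by
    have : ((B2 : ℝ) : ℂ) = ((r₁ * r₂ + r₁ * r₃ + r₂ * r₃ : ℝ) : ℂ) := by
      simp only [P, map_intCast, map_one, one_mul, e₁, e₂, e₃] at v2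
      push_cast
      linear_combination v2
    exact_mod_cast this
  have w3 : (p : ℝ) = r₁ * r₂ * r₃ := by
    have : ((p : ℝ) : ℂ) = ((r₁ * r₂ * r₃ : ℝ) : ℂ) := by
      simp only [P, map_neg, map_natCast, map_one, one_mul, e₁, e₂, e₃] at v3
      push_cast
      linear_combination -v3
    exact_mod_cast this
  set s₁ := √(r₂ * r₃) with hs₁
  set s₂ := √(r₁ * r₃) with hs₂
  set s₃ := √(r₁ * r₂) with hs₃
  have q1 : s₁ ^ 2 = r₂ * r₃ := Real.sq_sqrt (by positivity)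
  have q2 : s₂ ^ 2 = r₁ * r₃ := Real.sq_sqrt (by positivity)
  have q3 : s₃ ^ 2 = r₁ * r₂ := Real.sq_sqrt (by positivity)
  have q4 : s₁ * s₂ * s₃ = p := by
    rw [w3]
    have h1 : (s₁ * s₂ * s₃) ^ 2 = (r₁ * r₂ * r₃) ^ 2 := by
      rw [mul_pow, mul_pow, q1, q2, q3]; ring
    have h2 : 0 ≤ s₁ * s₂ * s₃ := by positivity
    have h3 : 0 ≤ r₁ * r₂ * r₃ := by positivity
    exact (pow_left_inj₀ h2 h3 two_ne_zero).mp h1
  have htr : IsTotallyReal F := by
    refine ⟨fun v => ?_⟩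
    rw [← mk_embedding v, isReal_mk_iff]
    set ψ := v.embedding with hψ
    -- the image of T is real
    have ht : (ψ T) ^ 4 - 2 * B2 * (ψ T) ^ 2 - 8 * p * (ψ T) + (B2 ^ 2 - 4 * p * B1) = 0 := by
      have := congrArg ψ hT
      simp only [map_add, map_sub, map_mul, map_pow, map_intCast, map_natCast, map_ofNat,
        map_zero] at this
      exact this
    have c1 : (B2 : ℂ) = (s₁ : ℂ) ^ 2 + (s₂ : ℂ) ^ 2 + (s₃ : ℂ) ^ 2 := by
      have : (B2 : ℝ) = s₁ ^ 2 + s₂ ^ 2 + s₃ ^ 2 := by rw [q1, q2, q3, w2]; ring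
      exact_mod_cast this
    have c2 : (p : ℂ) = (s₁ : ℂ) * s₂ * s₃ := by
      have : (p : ℝ) = s₁ * s₂ * s₃ := q4.symm
      exact_mod_cast this
    have c3 : (p : ℂ) * B1 = (s₁ : ℂ) ^ 2 * s₂ ^ 2 + (s₁ : ℂ) ^ 2 * s₃ ^ 2 +
        (s₂ : ℂ) ^ 2 * s₃ ^ 2 := by
      have : (p : ℝ) * B1 = s₁ ^ 2 * s₂ ^ 2 + s₁ ^ 2 * s₃ ^ 2 + s₂ ^ 2 * s₃ ^ 2 := by
        rw [q1, q2, q3, w1, w3]; ring
      exact_mod_cast this
    have hprod : (ψ T - s₁ - s₂ - s₃) * (ψ T - s₁ + s₂ + s₃) * (ψ T + s₁ - s₂ + s₃) *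
        (ψ T + s₁ + s₂ - s₃) = 0 := by
      have e : (ψ T) ^ 4 - 2 * B2 * (ψ T) ^ 2 - 8 * p * (ψ T) + (B2 ^ 2 - 4 * (p * B1)) = 0 := by
        linear_combination ht
      rw [c3, c1, c2] at e
      linear_combination e
    have hreal : ∃ t : ℝ, ψ T = t := by
      rcases mul_eq_zero.mp hprod with h | h
      · rcases mul_eq_zero.mp h with h | h
        · rcases mul_eq_zero.mp h with h | h
          · exact ⟨s₁ + s₂ + s₃, by push_cast; linear_combination h⟩
          · exact ⟨s₁ - s₂ - s₃, by push_cast; linear_combination h⟩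
        · exact ⟨-s₁ + s₂ - s₃, by push_cast; linear_combination h⟩
      · exact ⟨-s₁ - s₂ + s₃, by push_cast; linear_combination h⟩
    obtain ⟨t, ht'⟩ := hreal
    -- the two homomorphisms agree
    have hconj : (ComplexEmbedding.conjugate ψ) T = ψ T := by
      rw [ComplexEmbedding.conjugate_coe_eq, ht', Complex.conj_ofReal]
    have halg : (ComplexEmbedding.conjugate ψ).toRatAlgHom = ψ.toRatAlgHom := by
      have h6 := IntermediateField.algHom_ext_of_eq_adjoin (F := ℚ) (E := F) (K := ℂ)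
        (S := ⊤) (s := {T}) hgen.symm (φ₁ := (ComplexEmbedding.conjugate ψ).toRatAlgHom.comp
          (IntermediateField.val ⊤)) (φ₂ := ψ.toRatAlgHom.comp (IntermediateField.val ⊤))
        (by
          intro x hx
          rw [Set.mem_singleton_iff] at hx
          subst hx
          exact hconj)
      ext x
      exact DFunLike.congr_fun h6 ⟨x, IntermediateField.mem_top⟩
    rw [ComplexEmbedding.isReal_iff]
    ext x
    exact DFunLike.congr_fun halg x
  have h1 := IsTotallyReal.finrank (K := F)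
  have h2 := IsTotallyReal.nrComplexPlaces_eq_zero (K := F)
  have h3 := card_eq_nrRealPlaces_add_nrComplexPlaces F
  unfold Units.rank
  rw [h3, h2, ← h1, hF]

end Pool.Agent.Work.MuB
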