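import Pool.Agent.Work.MP_a4986b_nt.QFinal
import Pool.Agent.Work.MP_a4986b_nt.QFDisc
import Pool.Agent.Work.MP_a4986b_nt.QFPrime
import Pool.Agent.Work.MP_a4986b_nt.QFReal

set_option autoImplicit false
set_option maxHeartbeats 400000

/-! # An explicit family of totally real quartic fields with given resolvent field -/

namespace Pool.Agent.Work.MuB

open NumberField Module NumberField.InfinitePlace NumberField.Units

/-- the cubic resolvent field -/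
theorem qf_res {C : Type} [Field C] [NumberField C] {p : ℕ} (hp : p.Prime) (B1 B2 : ℤ) (b : C)
    (hb : b ^ 3 - B1 * b ^ 2 + B2 * b - p = 0) (hbQ : b ∉ Set.range (algebraMap ℚ C)) :
    ∃ θ : C, θ ∉ Set.range (algebraMap ℚ C) ∧
      θ ^ 3 - ((-2 * B2 : ℚ) : C) * θ ^ 2 +
          (((0 : ℚ) * (-8 * p) - 4 * (B2 ^ 2 - 4 * p * B1) : ℚ) : C) * θ -
        (((0 : ℚ) ^ 2 * (B2 ^ 2 - 4 * p * B1) - 4 * (-2 * B2) * (B2 ^ 2 - 4 * p * B1) +
          (-8 * p) ^ 2 : ℚ) : C) = 0 := by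
  have hb0 : b ≠ 0 := by
    rintro rfl
    exact hbQ ⟨0, by simp⟩
  refine ⟨4 * p / b - 2 * B2, ?_, ?_⟩
  · rintro ⟨q, hq⟩
    have hp0 : (p : C) ≠ 0 := by exact_mod_cast hp.ne_zero
    have h1 : (algebraMap ℚ C) q + 2 * B2 = 4 * p / b := by
      rw [hq]; ring
    have h2 : ((algebraMap ℚ C) q + 2 * B2) * b = 4 * p := by
      rw [h1]; field_simp
    have h3 : (algebraMap ℚ C) q + 2 * B2 ≠ 0 := by
      intro h0
      rw [h0, zero_mul] at h2
      have : (4 : C) * p ≠ 0 := mul_ne_zero (by norm_num) hp0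
      exact this h2.symm
    refine hbQ ⟨4 * p / (q + 2 * B2), ?_⟩
    have h4 : algebraMap ℚ C (4 * p / (q + 2 * B2)) =
        4 * p / ((algebraMap ℚ C) q + 2 * B2) := by
      simp
    rw [h4, div_eq_iff h3]
    linear_combination -h2
  · push_cast
    field_simp
    linear_combination (-64 : C) * (p : C) ^ 2 * hb

theorem quartic_family (C : Type) [Field C] [NumberField C] (hC : finrank ℚ C = 3) :
    ∃ p0 : ℕ, ∀ p : ℕ, p.Prime → p0 ≤ p → ∀ (B1 B2 : ℤ) (b : C),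
      b ^ 3 - B1 * b ^ 2 + B2 * b - p = 0 → b ∉ Set.range (algebraMap ℚ C) →
      (∀ φ : C →+* ℂ, ∃ r : ℝ, 0 < r ∧ φ b = r) → ¬ IsSquare (B2 : ZMod p) →
      ∀ (F : Type) [Field F] [NumberField F], finrank ℚ F = 4 →
        (∃ T : F, T ^ 4 - 2 * B2 * T ^ 2 - 8 * p * T + (B2 ^ 2 - 4 * p * B1) = 0) →
        (∃! P : Ideal (𝓞 F), P.IsPrime ∧ (p : 𝓞 F) ∈ P) ∧ Extensions p F := by
  obtain ⟨A, hA, h⟩ := quartic_fields C hC
  obtain ⟨p0, hp0⟩ : ∃ p0 : ℕ, ∀ p : ℕ, p0 ≤ p →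
      256 * (|discr C| : ℝ) ≤ A * (1 + Real.log p) ^ 4 := by
    have ht : Filter.Tendsto (fun n : ℕ => A * (1 + Real.log n) ^ 4) Filter.atTop
        Filter.atTop := by
      refine Filter.Tendsto.const_mul_atTop hA ?_
      refine (Filter.tendsto_pow_atTop (by norm_num)).comp ?_
      exact Filter.tendsto_atTop_add_const_left _ _
        (Real.tendsto_log_atTop.comp tendsto_natCast_atTop_atTop)
    obtain ⟨p0, h0⟩ := Filter.eventually_atTop.mp (ht.eventually_ge_atTop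
      (256 * (|discr C| : ℝ)))
    exact ⟨p0, h0⟩
  refine ⟨max p0 3, ?_⟩
  intro p hp hpp B1 B2 b hb hbQ hpos hB F _ _ hF ⟨T, hT⟩
  have hp3 : 3 ≤ p := (le_max_right _ _).trans hpp
  obtain ⟨hgen, hone⟩ := qf_prime hF hp (by omega) B1 B2 hB T hT
  refine ⟨hone, h F p hp (by omega) hF ?_ ?_ hone⟩
  · obtain ⟨θ, hθ, hθ2⟩ := qf_res hp B1 B2 b hb hbQ
    refine ⟨T, θ, 0, -2 * B2, -8 * p, B2 ^ 2 - 4 * p * B1, hgen, ?_, hθ, hθ2⟩
    push_cast
    linear_combination hT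
  · rw [qf_real hC hF B1 B2 b hb hbQ hpos T hT hgen]
    have h1 := qf_disc hC hF hp B1 B2 b hb hbQ T hT hgen
    have h2 : |(discr F : ℝ)| ≤ 256 * (p : ℝ) ^ 2 * |(discr C : ℝ)| := by exact_mod_cast h1
    have h3 := hp0 p ((le_max_left _ _).trans hpp)
    calc |(discr F : ℝ)| ≤ 256 * (p : ℝ) ^ 2 * |(discr C : ℝ)| := h2
      _ = (p : ℝ) ^ 2 * (256 * |(discr C : ℝ)|) := by ring
      _ ≤ (p : ℝ) ^ 2 * (A * (1 + Real.log p) ^ 4) := by
          refine mul_le_mul_of_nonneg_left ?_ (by positivity)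
          exact_mod_cast h3
      _ = A * (p : ℝ) ^ 2 * (1 + Real.log p) ^ (2 * (3 - 1)) := by ring

end Pool.Agent.Work.MuB
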