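import Mathlib

set_option autoImplicit false
set_option maxHeartbeats 400000

/-! # Skeleton: an explicit family of totally real quartic fields with given resolvent field -/

namespace Pool.Agent.Work.MuBSkel

open NumberField Module NumberField.InfinitePlace NumberField.Units

/-- A -/
theorem qf_disc {C F : Type} [Field C] [NumberField C] [Field F] [NumberField F]
    (hC : finrank ℚ C = 3) (hF : finrank ℚ F = 4) {p : ℕ} (hp : p.Prime) (B1 B2 : ℤ) (b : C)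
    (hb : b ^ 3 - B1 * b ^ 2 + B2 * b - p = 0) (hbQ : b ∉ Set.range (algebraMap ℚ C)) (T : F)
    (hT : T ^ 4 - 2 * B2 * T ^ 2 - 8 * p * T + (B2 ^ 2 - 4 * p * B1) = 0)
    (hgen : IntermediateField.adjoin ℚ {T} = ⊤) :
    |discr F| ≤ 256 * (p : ℤ) ^ 2 * |discr C| := by
  sorry

/-- B -/
theorem qf_prime {F : Type} [Field F] [NumberField F] (hF : finrank ℚ F = 4) {p : ℕ}
    (hp : p.Prime) (hp2 : p ≠ 2) (B1 B2 : ℤ) (hB : ¬ IsSquare ((B2 : ℤ) : ZMod p)) (T : F)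
    (hT : T ^ 4 - 2 * B2 * T ^ 2 - 8 * p * T + (B2 ^ 2 - 4 * p * B1) = 0) :
    IntermediateField.adjoin ℚ {T} = ⊤ ∧ ∃! P : Ideal (𝓞 F), P.IsPrime ∧ (p : 𝓞 F) ∈ P := by
  sorry

/-- C -/
theorem qf_real {C F : Type} [Field C] [NumberField C] [Field F] [NumberField F]
    (hC : finrank ℚ C = 3) (hF : finrank ℚ F = 4) {p : ℕ} (B1 B2 : ℤ) (b : C)
    (hb : b ^ 3 - B1 * b ^ 2 + B2 * b - p = 0) (hbQ : b ∉ Set.range (algebraMap ℚ C))
    (hpos : ∀ φ : C →+* ℂ, ∃ r : ℝ, 0 < r ∧ φ b = r) (T : F)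
    (hT : T ^ 4 - 2 * B2 * T ^ 2 - 8 * p * T + (B2 ^ 2 - 4 * p * B1) = 0)
    (hgen : IntermediateField.adjoin ℚ {T} = ⊤) : Units.rank F = 3 := by
  sorry

/-- resolvent -/
theorem qf_res {C : Type} [Field C] [NumberField C] {p : ℕ} (hp : p.Prime) (B1 B2 : ℤ) (b : C)
    (hb : b ^ 3 - B1 * b ^ 2 + B2 * b - p = 0) (hbQ : b ∉ Set.range (algebraMap ℚ C)) :
    ∃ θ : C, θ ∉ Set.range (algebraMap ℚ C) ∧
      θ ^ 3 - ((-2 * B2 : ℚ) : C) * θ ^ 2 +
          (((0 : ℚ) * (-8 * p) - 4 * (B2 ^ 2 - 4 * p * B1) : ℚ) : C) * θ -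
        (((0 : ℚ) ^ 2 * (B2 ^ 2 - 4 * p * B1) - 4 * (-2 * B2) * (B2 ^ 2 - 4 * p * B1) +
          (-8 * p) ^ 2 : ℚ) : C) = 0 := by
  have hb0 : b ≠ 0 := by
    rintro rfl
    exact hbQ ⟨0, by simp⟩
  refine ⟨4 * p / b - 2 * B2, ?_, ?_⟩
  · rintro ⟨q, hq⟩
    have hp0 : (p : C) ≠ 0 := by exact_mod_cast hp.ne_zero
    have h1 : (algebraMap ℚ C) q + 2 * B2 = 4 * p / b := by
      rw [hq]; ring
    have h2 : ((algebraMap ℚ C) q + 2 * B2) * b = 4 * p := by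
      rw [h1]; field_simp
    have h3 : (algebraMap ℚ C) q + 2 * B2 ≠ 0 := by
      intro h0
      rw [h0, zero_mul] at h2
      have : (4 : C) * p ≠ 0 := mul_ne_zero (by norm_num) hp0
      exact this h2.symm
    refine hbQ ⟨4 * p / (q + 2 * B2), ?_⟩
    have h4 : algebraMap ℚ C (4 * p / (q + 2 * B2)) =
        4 * p / ((algebraMap ℚ C) q + 2 * B2) := by
      simp
    rw [h4, div_eq_iff h3]
    linear_combination -h2
  · push_cast
    field_simp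
    linear_combination (-64 : C) * (p : C) ^ 2 * hb

end Pool.Agent.Work.MuBSkel
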