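import Pool.Agent.Work.MP_a4986b_nt.BConcl
import Pool.Agent.Work.MP_a4986b_nt.QClass

set_option autoImplicit false
set_option maxHeartbeats 400000

/-! # Theorem Q, final form -/

namespace Pool.Agent.Work.MuB

open NumberField Module NumberField.InfinitePlace NumberField.Units

theorem quartic_fields (C : Type) [Field C] [NumberField C] (hC : finrank ℚ C = 3) :
    ∃ A : ℝ, 0 < A ∧ ∀ (F : Type) [Field F] [NumberField F] (p : ℕ), p.Prime → p ≠ 2 →
      finrank ℚ F = 4 →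
      (∃ (α : F) (θ : C) (a b c e : ℚ), IntermediateField.adjoin ℚ {α} = ⊤ ∧
        α ^ 4 + (a : F) * α ^ 3 + (b : F) * α ^ 2 + (c : F) * α + (e : F) = 0 ∧
        θ ∉ Set.range (algebraMap ℚ C) ∧
        θ ^ 3 - (b : C) * θ ^ 2 + ((a * c - 4 * e : ℚ) : C) * θ -
          ((a ^ 2 * e - 4 * b * e + c ^ 2 : ℚ) : C) = 0) →
      |(discr F : ℝ)| ≤ A * (p : ℝ) ^ 2 * (1 + Real.log p) ^ (2 * (Units.rank F - 1)) →
      (∃! P : Ideal (𝓞 F), P.IsPrime ∧ (p : 𝓞 F) ∈ P) → Extensions p F := by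
  obtain ⟨A, hA, h⟩ := quartic_not_dvd C hC
  exact ⟨A, hA, fun F _ _ p hp hp2 hF hres hD hone => extensions hp hp2 (h F p hp hF hres hD) hone⟩

end Pool.Agent.Work.MuB
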