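import Mathlib

set_option autoImplicit false
set_option maxHeartbeats 400000

/-! # Skeleton (statements only, NEVER import): quartic fields with fixed cubic resolvent

Final theorem: for every cubic field `C` there is `c > 0` such that for every odd prime `p` and
every quartic field `F` whose cubic resolvent field is `C`, with exactly one prime above `p` and
`|D_F| ≤ c p² (1 + log p)^(2 (r_F - 1))` the class number of `F` is prime to `p`.

Resolvent: `F = ℚ(α)`, `α⁴ + a α³ + b α² + c α + e = 0`, and `C ∋ θ ∉ ℚ` with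
`θ³ - b θ² + (a c - 4 e) θ - (a² e - 4 b e + c²) = 0`
(if `α₁ … α₄` are the conjugates of `α`, the conjugates of `θ` are `α₁α₂ + α₃α₄`, …). -/

namespace Pool.Agent.Work.MuB

open NumberField Module MeasureTheory NumberField.InfinitePlace NumberField.Units
open scoped nonZeroDivisors ENNReal NNReal Real Pointwise

section Dict

variable {E L : Type*} [Field E] [NumberField E] [Field L] [NumberField L] [IsGalois ℚ L]

/-- D1: primes of `E` above `q` are `ι⁻¹(Q)` for the embeddings `ι : E → L` -/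
theorem exists_comap_eq (Q : Ideal (𝓞 L)) (hQ : Q.IsPrime) {q : ℕ} (hq : q.Prime)
    (hqQ : (q : 𝓞 L) ∈ Q) (hE : Nonempty (E →+* L)) (P : Ideal (𝓞 E)) (hP : P.IsPrime)
    (hqP : (q : 𝓞 E) ∈ P) :
    ∃ ι : E →+* L, P = Q.comap (RingOfIntegers.mapRingHom ι) := by
  sorry

/-- D2: when two embeddings give the same prime -/
theorem comap_eq_comap_iff (Q : Ideal (𝓞 L)) (hQ : Q.IsPrime) {q : ℕ} (hq : q.Prime)
    (hqQ : (q : 𝓞 L) ∈ Q) (ι j : E →+* L) :
    Q.comap (RingOfIntegers.mapRingHom ι) = Q.comap (RingOfIntegers.mapRingHom j) ↔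
      ∃ g : L ≃ₐ[ℚ] L, g • Q = Q ∧ j = (g : L →+* L).comp ι := by
  sorry

/-- D3: the norm of `ι⁻¹(Q)` is `q ^ f`, `f = |D ι| / |I ι|` (orbits of the decomposition group and
of the inertia group `g x - x ∈ Q` for all `x`) -/
theorem absNorm_comap (Q : Ideal (𝓞 L)) (hQ : Q.IsPrime) {q : ℕ} (hq : q.Prime)
    (hqQ : (q : 𝓞 L) ∈ Q) (ι : E →+* L) :
    ∃ f : ℕ, Ideal.absNorm (Q.comap (RingOfIntegers.mapRingHom ι)) = q ^ f ∧
      f * {j : E →+* L | ∃ g : L ≃ₐ[ℚ] L, (∀ x : 𝓞 L, g • x - x ∈ Q) ∧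
          j = (g : L →+* L).comp ι}.ncard =
        {j : E →+* L | ∃ g : L ≃ₐ[ℚ] L, g • Q = Q ∧ j = (g : L →+* L).comp ι}.ncard := by
  sorry

end Dict

section Ideals

variable (F E : Type*) [Field F] [NumberField F] [Field E] [NumberField E]

/-- I1: general injection of the ideals of `F` into pairs (positive integer, ideal of `E`) when the
primes of `F` above every `q` can be sent injectively to `q` (`none`) or to primes of `E` above
`q` (`some R`) without increasing norms -/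
theorem tsum_ideal_le_of_dominate
    (h : ∀ q : ℕ, q.Prime → ∃ l : {P : Ideal (𝓞 F) // P.IsPrime ∧ (q : 𝓞 F) ∈ P} →
        Option {R : Ideal (𝓞 E) // R.IsPrime ∧ (q : 𝓞 E) ∈ R},
      Function.Injective l ∧ ∀ P R, l P = some R → Ideal.absNorm R.1 ≤ Ideal.absNorm P.1)
    (φ : ℕ → ℝ≥0∞) (hφ : ∀ m n : ℕ, 1 ≤ m → m ≤ n → φ n ≤ φ m) :
    ∑' I : (Ideal (𝓞 F))⁰, φ (Ideal.absNorm (I : Ideal (𝓞 F))) ≤
      ∑' x : ℕ+ × (Ideal (𝓞 E))⁰, φ (x.1 * Ideal.absNorm (x.2 : Ideal (𝓞 E))) := by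
  sorry

end Ideals

section Quartic

variable {F C : Type} [Field F] [NumberField F] [Field C] [NumberField C]

/-- Q1: norm domination: one prime: clear; a prime with `e f = 1` (fixed point of the decomposition
group `D`): the other embeddings of `F` are `D`-isomorphic to the embeddings of `C`; two primes with
`e f = 2`: `D` fixes a pairing, so `C` has a prime with `e f = 1` -/
theorem quartic_dominate (hF : finrank ℚ F = 4) (hC : finrank ℚ C = 3) (α : F)
    (hα : IntermediateField.adjoin ℚ {α} = ⊤) (a b c e : ℚ)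
    (h4 : α ^ 4 + (a : F) * α ^ 3 + (b : F) * α ^ 2 + (c : F) * α + (e : F) = 0) (θ : C)
    (hθ : θ ∉ Set.range (algebraMap ℚ C))
    (h3 : θ ^ 3 - (b : C) * θ ^ 2 + ((a * c - 4 * e : ℚ) : C) * θ -
      ((a ^ 2 * e - 4 * b * e + c ^ 2 : ℚ) : C) = 0)
    (q : ℕ) (hq : q.Prime) :
    ∃ l : {P : Ideal (𝓞 F) // P.IsPrime ∧ (q : 𝓞 F) ∈ P} →
        Option {R : Ideal (𝓞 C) // R.IsPrime ∧ (q : 𝓞 C) ∈ R},
      Function.Injective l ∧ ∀ P R, l P = some R → Ideal.absNorm R.1 ≤ Ideal.absNorm P.1 := by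
  sorry

/-- Q2: `F` has no quadratic subfield: otherwise the resolvent has a rational root
`Tr_{K/ℚ} N_{F/K} α` -/
theorem quartic_primitive (hF : finrank ℚ F = 4) (hC : finrank ℚ C = 3) (α : F)
    (hα : IntermediateField.adjoin ℚ {α} = ⊤) (a b c e : ℚ)
    (h4 : α ^ 4 + (a : F) * α ^ 3 + (b : F) * α ^ 2 + (c : F) * α + (e : F) = 0) (θ : C)
    (hθ : θ ∉ Set.range (algebraMap ℚ C))
    (h3 : θ ^ 3 - (b : C) * θ ^ 2 + ((a * c - 4 * e : ℚ) : C) * θ -
      ((a ^ 2 * e - 4 * b * e + c ^ 2 : ℚ) : C) = 0)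
    (u : F) (hu : u ∉ Set.range (algebraMap ℚ F)) : IntermediateField.adjoin ℚ {u} = ⊤ := by
  sorry

end Quartic

/-- Q3: class number bound -/
theorem quartic_class_le (C : Type) [Field C] [NumberField C] (hC : finrank ℚ C = 3) :
    ∃ A : ℝ, 0 < A ∧ ∀ (F : Type) [Field F] [NumberField F], finrank ℚ F = 4 →
      (∃ (α : F) (θ : C) (a b c e : ℚ), IntermediateField.adjoin ℚ {α} = ⊤ ∧
        α ^ 4 + (a : F) * α ^ 3 + (b : F) * α ^ 2 + (c : F) * α + (e : F) = 0 ∧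
        θ ∉ Set.range (algebraMap ℚ C) ∧
        θ ^ 3 - (b : C) * θ ^ 2 + ((a * c - 4 * e : ℚ) : C) * θ -
          ((a ^ 2 * e - 4 * b * e + c ^ 2 : ℚ) : C) = 0) →
      (Nat.card (ClassGroup (𝓞 F)) : ℝ) * (1 + Real.log |(discr F : ℝ)|) ^ (Units.rank F - 1) ≤
        A * √|(discr F : ℝ)| := by
  sorry

/-- Q4 -/
theorem quartic_not_dvd (C : Type) [Field C] [NumberField C] (hC : finrank ℚ C = 3) :
    ∃ A : ℝ, 0 < A ∧ ∀ (F : Type) [Field F] [NumberField F] (p : ℕ), p.Prime → finrank ℚ F = 4 →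
      (∃ (α : F) (θ : C) (a b c e : ℚ), IntermediateField.adjoin ℚ {α} = ⊤ ∧
        α ^ 4 + (a : F) * α ^ 3 + (b : F) * α ^ 2 + (c : F) * α + (e : F) = 0 ∧
        θ ∉ Set.range (algebraMap ℚ C) ∧
        θ ^ 3 - (b : C) * θ ^ 2 + ((a * c - 4 * e : ℚ) : C) * θ -
          ((a ^ 2 * e - 4 * b * e + c ^ 2 : ℚ) : C) = 0) →
      |(discr F : ℝ)| ≤ A * (p : ℝ) ^ 2 * (1 + Real.log p) ^ (2 * (Units.rank F - 1)) →
      ¬ p ∣ Nat.card (ClassGroup (𝓞 F)) := by
  sorry

end Pool.Agent.Work.MuB
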