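import Pool.Agent.Work.MP_a4986b_nt.Defs

set_option autoImplicit false
set_option maxHeartbeats 400000

namespace Pool.Agent.Work.Mu22

open NumberField Module
open scoped Pointwise nonZeroDivisors ENNReal Real

attribute [local instance] Units.mulDistribMulActionRight

/-- T1 -/
theorem lattice {A : Type*} [AddCommGroup A] [Module.Free ℤ A] [Module.Finite ℤ A] {p : ℕ}
    (hp : p.Prime) (σ : A →ₗ[ℤ] A) (hσ : σ ^ p = 1) (r : ℕ)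
    (h1 : p * (r + 1) ≤ finrank ℤ A + 1)
    (h2 : finrank ℤ (LinearMap.ker (σ - 1)) ≤ r) :
    (LinearMap.range (∑ i ∈ Finset.range p, σ ^ i)).toAddSubgroup.relIndex
      (LinearMap.ker (σ - 1)).toAddSubgroup ≠ 0 ∧
    (LinearMap.range (σ - 1)).toAddSubgroup.relIndex
      (LinearMap.ker (∑ i ∈ Finset.range p, σ ^ i)).toAddSubgroup ≠ 0 ∧
    p * (LinearMap.range (∑ i ∈ Finset.range p, σ ^ i)).toAddSubgroup.relIndex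
      (LinearMap.ker (σ - 1)).toAddSubgroup ≤
    (LinearMap.range (σ - 1)).toAddSubgroup.relIndex
      (LinearMap.ker (∑ i ∈ Finset.range p, σ ^ i)).toAddSubgroup := by
  sorry

section

variable {K L : Type*} [Field K] [NumberField K] [Field L] [NumberField L] [Algebra K L]
  [IsGalois K L] {p : ℕ}

/-- T2 -/
theorem units_step (hp : p.Prime) (hd : finrank K L = p) (hodd : Odd (finrank ℚ L))
    (σ : Gal(L/K)) (hσ : ∀ x, x ∈ Subgroup.zpowers σ) :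
    (dHom σ : (𝓞 L)ˣ →* (𝓞 L)ˣ).range.relIndex (nHom σ p).ker ≠ 0 ∧
    p ≤ (dHom σ : (𝓞 L)ˣ →* (𝓞 L)ˣ).range.relIndex (nHom σ p).ker ∧
    ((dHom σ : (𝓞 L)ˣ →* (𝓞 L)ˣ).range.relIndex (nHom σ p).ker ≤ p →
      ∀ e : (𝓞 L)ˣ, σ • e = e → ∃ u : (𝓞 L)ˣ, nHom σ p u = e ∨ nHom σ p u = -e) := by
  sorry

/-- T3: Hilbert 90 -/
theorem hilbert90 (hd : finrank K L = p) (σ : Gal(L/K)) (hσ : ∀ x, x ∈ Subgroup.zpowers σ)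
    (x y : 𝓞 L) (hx : x ≠ 0) (hy : y ≠ 0)
    (h : ∏ i ∈ Finset.range p, (σ ^ i • x) = ∏ i ∈ Finset.range p, (σ ^ i • y)) :
    ∃ b : 𝓞 L, b ≠ 0 ∧ x * b = y * (σ • b) := by
  sorry

/-- T4a: invariant ideals, one exceptional ideal `𝔓` (possibly `⊤`) -/
theorem invariant_ideal (𝔓 : Ideal (𝓞 L)) (hP : 𝔓 = ⊤ ∨ 𝔓.IsPrime) (h0 : 𝔓 ≠ ⊥)
    (hfix : ∀ g : Gal(L/K), g • 𝔓 = 𝔓)
    (hram : ∀ Q : Ideal (𝓞 L), Q.IsPrime → Q ≠ ⊥ → Q ≠ 𝔓 → Q.ramificationIdx (𝓞 K) = 1)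
    (I : Ideal (𝓞 L)) (hI : I ≠ ⊥) (hinv : ∀ g : Gal(L/K), g • I = I) :
    ∃ (J : Ideal (𝓞 K)) (k : ℕ), J ≠ ⊥ ∧ I = J.map (algebraMap (𝓞 K) (𝓞 L)) * 𝔓 ^ k := by
  sorry

/-- T4b -/
theorem pow_eq_map (hp : p.Prime) (hd : finrank K L = p) (𝔓 : Ideal (𝓞 L)) (hP : 𝔓.IsPrime)
    (h0 : 𝔓 ≠ ⊥)
    (hfix : ∀ g : Gal(L/K), g • 𝔓 = 𝔓) :
    ∃ J : Ideal (𝓞 K), J ≠ ⊥ ∧ 𝔓 ^ p = J.map (algebraMap (𝓞 K) (𝓞 L)) := by
  sorry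

/-- T5: a fixed class of order `p` -/
theorem exists_fixed_class (hp : p.Prime) (hd : finrank K L = p) (σ : Gal(L/K))
    (hσ : ∀ x, x ∈ Subgroup.zpowers σ) (hL : p ∣ Nat.card (ClassGroup (𝓞 L))) :
    ∃ I : (Ideal (𝓞 L))⁰, ClassGroup.mk0 I ≠ 1 ∧ ClassGroup.mk0 I ^ p = 1 ∧
      ∃ x y : 𝓞 L, x ≠ 0 ∧ y ≠ 0 ∧
        Ideal.span {x} * (I : Ideal (𝓞 L)) = Ideal.span {y} * (σ • (I : Ideal (𝓞 L))) := by
  sorry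

/-- T6a -/
theorem relIndex_le (hp : p.Prime) (hd : finrank K L = p) (σ : Gal(L/K))
    (hσ : ∀ x, x ∈ Subgroup.zpowers σ) (𝔓 : Ideal (𝓞 L)) (hP : 𝔓.IsPrime) (h0 : 𝔓 ≠ ⊥)
    (hfix : ∀ g : Gal(L/K), g • 𝔓 = 𝔓)
    (hram : ∀ Q : Ideal (𝓞 L), Q.IsPrime → Q ≠ ⊥ → Q ≠ 𝔓 → Q.ramificationIdx (𝓞 K) = 1)
    (hK : ¬ p ∣ Nat.card (ClassGroup (𝓞 K))) :
    (dHom σ : (𝓞 L)ˣ →* (𝓞 L)ˣ).range.relIndex (nHom σ p).ker ≤ p ∧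
    (p ≤ (dHom σ : (𝓞 L)ˣ →* (𝓞 L)ˣ).range.relIndex (nHom σ p).ker →
      ∃ m : ℕ, m.Coprime p ∧ (𝔓 ^ m).IsPrincipal) := by
  sorry

/-- T6b: everything unramified -/
theorem relIndex_unram (hp : p.Prime) (hd : finrank K L = p) (σ : Gal(L/K))
    (hσ : ∀ x, x ∈ Subgroup.zpowers σ)
    (hram : ∀ Q : Ideal (𝓞 L), Q.IsPrime → Q ≠ ⊥ → Q.ramificationIdx (𝓞 K) = 1)
    (hK : ¬ p ∣ Nat.card (ClassGroup (𝓞 K))) :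
    (dHom σ : (𝓞 L)ˣ →* (𝓞 L)ˣ).range.relIndex (nHom σ p).ker = 1 := by
  sorry

/-- T7a: one degree `p` step, exactly one ramified prime -/
theorem step (hp : p.Prime) (hd : finrank K L = p) (hodd : Odd (finrank ℚ L))
    (𝔓 : Ideal (𝓞 L)) (hP : 𝔓.IsPrime) (h0 : 𝔓 ≠ ⊥) (hfix : ∀ g : Gal(L/K), g • 𝔓 = 𝔓)
    (hram : ∀ Q : Ideal (𝓞 L), Q.IsPrime → Q ≠ ⊥ → Q ≠ 𝔓 → Q.ramificationIdx (𝓞 K) = 1)
    (hK : ¬ p ∣ Nat.card (ClassGroup (𝓞 K))) :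
    ¬ p ∣ Nat.card (ClassGroup (𝓞 L)) := by
  sorry

/-- T7b: unramified steps do not exist -/
theorem unram_step (hp : p.Prime) (hd : finrank K L = p) (hodd : Odd (finrank ℚ L))
    (hram : ∀ Q : Ideal (𝓞 L), Q.IsPrime → Q ≠ ⊥ → Q.ramificationIdx (𝓞 K) = 1) :
    p ∣ Nat.card (ClassGroup (𝓞 K)) := by
  sorry

end

/-- T8: the tower theorem (Iwasawa 1956) -/
theorem tower {p : ℕ} (hp : p.Prime) (n : ℕ) {K L : Type*} [Field K] [NumberField K] [Field L]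
    [NumberField L] [Algebra K L] [IsGalois K L] (hd : finrank K L = p ^ n)
    (hodd : Odd (finrank ℚ L)) (hone : OnePrime p K) (hun : UnramOutside p K L)
    (hK : ¬ p ∣ Nat.card (ClassGroup (𝓞 K))) :
    ¬ p ∣ Nat.card (ClassGroup (𝓞 L)) ∧ OnePrime p L := by
  sorry

/-- T9: cyclotomic layers -/
theorem cyc_tower {p : ℕ} (hp : p.Prime) (hp2 : p ≠ 2) (F : IntermediateField ℚ ℂ)
    [NumberField F] (hodd : Odd (finrank ℚ F)) (hone : OnePrime p F)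
    (hF : ¬ p ∣ Nat.card (ClassGroup (𝓞 F))) (m k : ℕ) (E : IntermediateField ℚ ℂ)
    (hE : E ≤ IntermediateField.adjoin ℚ {z : ℂ | z ^ (p ^ k) = 1}) (hEd : finrank ℚ E = p ^ m) :
    ¬ p ∣ Nat.card (ClassGroup (𝓞 ↥(F ⊔ E))) := by
  sorry

end Pool.Agent.Work.Mu22
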