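import Pool.Agent.Work.MP_a4986b_nt.Defs2

set_option autoImplicit false
set_option maxHeartbeats 400000

namespace Pool.Agent.Work.Mu22

open NumberField Module MeasureTheory
open scoped Pointwise nonZeroDivisors ENNReal Real

section

variable {K : Type*} [Field K] [NumberField K]

/-- N1: every pure cubic field has a cubefree radicand -/
theorem exists_pureCubic (h3 : finrank ℚ K = 3) (x : K) (hx : x ∉ (algebraMap ℚ K).range)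
    (hx3 : x ^ 3 ∈ (algebraMap ℚ K).range) : ∃ (a b : ℕ) (t : 𝓞 K), PureCubic K a b t := by
  sorry

/-- S1': the signature -/
theorem PureCubic.exists_embeddings {a b : ℕ} {t : 𝓞 K} (h : PureCubic K a b t) :
    (∃ _ : K →+* ℝ, True) ∧ ∃ ψ : K →+* ℂ, ¬ ComplexEmbedding.IsReal ψ := by
  sorry

/-- H1': the discriminant -/
theorem PureCubic.discr_bounds {a b : ℕ} {t : 𝓞 K} (h : PureCubic K a b t) :
    108 ≤ |(discr K : ℝ)| ∧ |(discr K : ℝ)| ≤ 27 * ((a * b : ℕ) : ℝ) ^ 2 := by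
  sorry

/-- G1': Artin's inequality -/
theorem artin (h3 : finrank ℚ K = 3) (φ : K →+* ℝ) (ψ : K →+* ℂ)
    (hψ : ¬ ComplexEmbedding.IsReal ψ) (u : (𝓞 K)ˣ) (h1 : u ≠ 1) (h2 : u ≠ -1)
    (hu : 1 < φ (u : 𝓞 K)) :
    |(discr K : ℝ)| ≤ 4 * φ (u : 𝓞 K) ^ 3 + 24 := by
  sorry

/-- G2': lower bound for `|log |φ u||` -/
theorem artin_log (h3 : finrank ℚ K = 3) (φ : K →+* ℝ) (ψ : K →+* ℂ)
    (hψ : ¬ ComplexEmbedding.IsReal ψ) (hD : 108 ≤ |(discr K : ℝ)|)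
    (u : (𝓞 K)ˣ) (h1 : u ≠ 1) (h2 : u ≠ -1) :
    Real.log ((|(discr K : ℝ)| - 24) / 4) / 3 ≤ abs (Real.log (abs (φ (u : 𝓞 K)))) := by
  sorry

/-- D2b': `q = 3` -/
theorem PureCubic.card_three {a b : ℕ} {t : 𝓞 K} (h : PureCubic K a b t) (h3 : ¬ 3 ∣ a * b)
    (k : ℕ) : Nat.card {I : Ideal (𝓞 K) // Ideal.absNorm I = 3 ^ k} ≤ k + 1 := by
  sorry

/-- D2c': `q = 2 mod 3` -/
theorem PureCubic.card_two {a b : ℕ} {t : 𝓞 K} (h : PureCubic K a b t) {q : ℕ} (hq : q.Prime)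
    (hq2 : q % 3 = 2) (hqa : ¬ q ∣ a * b) (k : ℕ) :
    Nat.card {I : Ideal (𝓞 K) // Ideal.absNorm I = q ^ k} ≤ k / 2 + 1 := by
  sorry

/-- D2d': `q ∣ a b` -/
theorem PureCubic.card_ram {a b : ℕ} {t : 𝓞 K} (h : PureCubic K a b t) {q : ℕ} (hq : q.Prime)
    (hqa : q ∣ a * b) (k : ℕ) :
    Nat.card {I : Ideal (𝓞 K) // Ideal.absNorm I = q ^ k} ≤ 1 := by
  sorry

/-- D2e' -/
theorem PureCubic.onePrime {a b : ℕ} {t : 𝓞 K} (h : PureCubic K a b t) {q : ℕ} (hq : q.Prime)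
    (hqa : q ∣ a * b) : OnePrime q K := by
  sorry

/-- D4' -/
theorem PureCubic.card_norm_le_bb {a b : ℕ} {t : 𝓞 K} (h : PureCubic K a b t) {n : ℕ}
    (hn : n ≠ 0) : (Nat.card {I : Ideal (𝓞 K) // Ideal.absNorm I = n} : ℤ) ≤ bb n := by
  sorry

/-- I1': the class number bound -/
theorem PureCubic.classNumber {a b : ℕ} {t : 𝓞 K} (h : PureCubic K a b t) :
    27 * (Nat.card (ClassGroup (𝓞 K)) : ℝ) ^ 2 < |(discr K : ℝ)| := by
  sorry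

end

/-- E0 -/
theorem rr_nonneg (n : ℕ) : 0 ≤ rr n := by
  sorry

/-- E0' -/
theorem bb_eq_sum_rr (n : ℕ) : bb n = ∑ d ∈ n.divisors, rr d := by
  sorry

/-- E1' -/
theorem HH_summable {v : ℝ} (hv : 0 < v) :
    Summable fun n : ℕ => (rr n : ℝ) * Real.exp (-(n * v)) := by
  sorry

/-- E2': `G(x) = 1/(1 + 2 cosh x)`, `HH v = ∑_{n ≥ 1} G(n v)`, `G` decreasing, `∫_0^∞ G = LL` -/
theorem HH_le {v : ℝ} (hv : 0 < v) : HH v ≤ LL / v := by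
  sorry

/-- E3': trapezoidal rule, error `≤ (v²/12) ∫ |G''| = (v²/6) max |G'| ≤ 0.024 v²` -/
theorem HH_le' {v : ℝ} (hv : 0 < v) : HH v ≤ LL / v - 1 / 6 + 0.024 * v := by
  sorry

/-- E3'' -/
theorem HH_ge' {v : ℝ} (hv : 0 < v) : LL / v - 1 / 6 - 0.024 * v ≤ HH v := by
  sorry

/-- E4: `∑ rr(n) e^(-n)/n ≤ 0.3895` -/
theorem integral_HH : IntegrableOn HH (Set.Ioi 1) ∧ ∫ v in Set.Ioi (1 : ℝ), HH v ≤ 0.3895 := by
  sorry

/-- E5: `HH v ≥ e^(-v)`, `∫_1^∞ e^(-v)/v dv = 0.2194` -/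
theorem integral_HH_div : IntegrableOn (fun v => HH v / v) (Set.Ioi 1) ∧
    0.188 ≤ ∫ v in Set.Ioi (1 : ℝ), HH v / v := by
  sorry

/-- J0 -/
theorem JJ_summable {s : ℝ} (hs : 0 < s) :
    Summable fun m : ℕ => Real.exp (-(π / 4) * (((m : ℝ) + 1) * s) ^ 2) := by
  sorry

/-- J1: theta inversion (`Real.tsum_exp_neg_mul_int_sq`) -/
theorem JJ_le {s : ℝ} (hs : 0 < s) (hs1 : s ≤ 1) : JJ s ≤ 1 / s - 1 / 2 + 1 / 10000 * s ^ 2 := by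
  sorry

/-- J2: `1 - ∫_0^1 e^(-(π/4)s²) ds + ∫_1^∞ e^(-π s²) ds + ... = 0.2166` -/
theorem integral_JJ : IntegrableOn JJ (Set.Ioi 1) ∧ ∫ s in Set.Ioi (1 : ℝ), JJ s ≤ 0.217 := by
  sorry

/-- F1': Tonelli and the substitution `v = e^s m / Y` -/
theorem tsum_bb_kk {Y : ℝ} (hY : 0 < Y) :
    ∑' n : ℕ, ENNReal.ofReal (bb (n + 1)) * kk (((n + 1 : ℕ) : ℝ) / Y) =
      ∫⁻ v in Set.Ioi (0 : ℝ), ENNReal.ofReal (HH v * JJ (1 / (Y * v)) / v) := by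
  sorry

/-- F2': split at `v = 1/Y` and `v = 1` -/
theorem lintegral_HH_JJ_le {Y : ℝ} (hY : 1 ≤ Y) :
    ∫⁻ v in Set.Ioi (0 : ℝ), ENNReal.ofReal (HH v * JJ (1 / (Y * v)) / v) ≤
      ENNReal.ofReal (Y * (LL * Real.log Y + 0.064) + Real.log Y / 12 + 0.388) := by
  sorry

/-- I0a: the final numerical inequality for `2 ≤ x ≤ 20`, `K = 3` -/
theorem numeric_small {x : ℝ} (hx : 2 ≤ x) (hx' : x ≤ 20) :
    2 * (3 * √27 * x / (4 * π) * (LL * Real.log (3 * √27 * x / (4 * π)) + 0.064) +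
      Real.log (3 * √27 * x / (4 * π)) / 12 + 0.388) <
    2 * x * (Real.log ((27 * x ^ 2 - 24) / 4) / 3) := by
  sorry

/-- I0b: the same for `10 ≤ x`, `K = 6` -/
theorem numeric_large {x : ℝ} (hx : 10 ≤ x) :
    2 * (6 * √27 * x / (4 * π) * (LL * Real.log (6 * √27 * x / (4 * π)) + 0.064) +
      Real.log (6 * √27 * x / (4 * π)) / 12 + 0.388) <
    5 * x * (Real.log ((27 * x ^ 2 - 24) / 4) / 3) := by
  sorry

end Pool.Agent.Work.Mu22
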