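import Pool.Agent.Work.MP_a4986b_nt.IAmb

set_option autoImplicit false
set_option maxHeartbeats 400000

/-! # Split primes, part A: abstract group theory (Herbrand quotient of the `S`-units, fixed
`S`-classes) -/

namespace Pool.Agent.Work.MuS

open Pool.Agent.Work.MuI

section Idx

variable {G : Type*} [CommGroup G] {p : ℕ}

/-- multiplicativity of the index along a homomorphism -/
theorem relIndex_split {G' : Type*} [CommGroup G'] (f : G →* G') (B A : Subgroup G) (h : B ≤ A) :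
    B.relIndex A = (B ⊓ f.ker).relIndex (A ⊓ f.ker) * (B.map f).relIndex (A.map f) := by
  have h1 : B ≤ B ⊔ (A ⊓ f.ker) := le_sup_left
  have h2 : B ⊔ (A ⊓ f.ker) ≤ A := sup_le h inf_le_left
  rw [← Subgroup.relIndex_mul_relIndex B (B ⊔ (A ⊓ f.ker)) A h1 h2]
  congr 1
  · rw [sup_comm, Subgroup.relIndex_sup_right, ← Subgroup.inf_relIndex_right]
    congr 1
    ext x
    simp only [Subgroup.mem_inf]
    constructor
    · rintro ⟨a, b, c⟩; exact ⟨a, c⟩
    · rintro ⟨a, c⟩; exact ⟨a, h a, c⟩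
  · rw [← Subgroup.relIndex_comap, ← Subgroup.inf_relIndex_right ((B.map f).comap f) A]
    congr 1
    ext x
    rw [Subgroup.mem_inf, Subgroup.mem_comap, Subgroup.mem_map, Subgroup.mem_sup]
    constructor
    · rintro ⟨y, hy, z, hz, rfl⟩
      refine ⟨⟨y, hy, ?_⟩, mul_mem (h hy) hz.1⟩
      have hz2 : f z = 1 := hz.2
      rw [map_mul, hz2, mul_one]
    · rintro ⟨⟨y, hy, hyx⟩, hx⟩
      have h3 : y⁻¹ * x ∈ f.ker := by
        rw [MonoidHom.mem_ker, map_mul, map_inv, hyx, inv_mul_cancel]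
      have h4 : y⁻¹ * x ∈ A := mul_mem (inv_mem (h hy)) hx
      exact ⟨y, hy, y⁻¹ * x, Subgroup.mem_inf.2 ⟨h4, h3⟩, mul_inv_cancel_left _ _⟩

/-- `[A : A^p] ≤ [T : T^p]` for a subgroup of finite index -/
theorem relIndex_pow_le (A T : Subgroup G) (h : A ≤ T) (hf : A.relIndex T ≠ 0)
    (h0 : (T.map (powMonoidHom p)).relIndex T ≠ 0) :
    (A.map (powMonoidHom p)).relIndex A ≠ 0 ∧
    (A.map (powMonoidHom p)).relIndex A ≤ (T.map (powMonoidHom p)).relIndex T := by
  have hA : A.map (powMonoidHom p) ≤ A := by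
    rintro _ ⟨x, hx, rfl⟩; exact pow_mem hx p
  have hT : T.map (powMonoidHom p) ≤ T := by
    rintro _ ⟨x, hx, rfl⟩; exact pow_mem hx p
  have e1 := Subgroup.relIndex_mul_relIndex _ _ _ hA h
  have e2 := Subgroup.relIndex_mul_relIndex (A.map (powMonoidHom p)) _ _
    (Subgroup.map_mono h) hT
  have e3 : (A.map (powMonoidHom p)).relIndex (T.map (powMonoidHom p)) ∣ A.relIndex T := by
    rw [← Subgroup.relIndex_comap]
    exact Subgroup.relIndex_dvd_of_le_left T (Subgroup.le_comap_map _ _)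
  have e4 : (A.map (powMonoidHom p)).relIndex (T.map (powMonoidHom p)) ≤ A.relIndex T :=
    Nat.le_of_dvd (Nat.pos_of_ne_zero hf) e3
  have e5 : (A.map (powMonoidHom p)).relIndex (T.map (powMonoidHom p)) ≠ 0 := by
    rintro h5
    rw [h5] at e3
    exact hf (Nat.eq_zero_of_zero_dvd e3)
  have e6 : (A.map (powMonoidHom p)).relIndex A * A.relIndex T ≤
      (T.map (powMonoidHom p)).relIndex T * A.relIndex T := by
    rw [e1, ← e2, mul_comm]
    exact Nat.mul_le_mul_left _ e4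
  refine ⟨?_, Nat.le_of_mul_le_mul_right e6 (Nat.pos_of_ne_zero hf)⟩
  intro h6
  rw [h6, zero_mul] at e1
  rw [← e1] at e2
  rcases Nat.mul_eq_zero.1 e2 with h7 | h7
  · exact e5 h7
  · exact h0 h7

theorem relIndex_zpowers_dvd (H : Subgroup G) (a : G) (h : a ^ p ∈ H) :
    H.relIndex (Subgroup.zpowers a) ∣ p := by
  have e : Subgroup.zpowers a = (zpowersHom G a).range := by
    ext x
    rw [Subgroup.mem_zpowers_iff, MonoidHom.mem_range]
    constructor
    · rintro ⟨k, rfl⟩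
      exact ⟨Multiplicative.ofAdd k, by rw [zpowersHom_apply]; rfl⟩
    · rintro ⟨k, rfl⟩
      exact ⟨k.toAdd, by rw [zpowersHom_apply]⟩
  rw [e, ← Subgroup.index_comap]
  have h1 : (AddSubgroup.toSubgroup (AddSubgroup.zmultiples (p : ℤ))) ≤
      H.comap (zpowersHom G a) := by
    intro x hx
    obtain ⟨k, hk⟩ := AddSubgroup.mem_zmultiples_iff.1 (show x.toAdd ∈ _ from hx)
    rw [Subgroup.mem_comap, zpowersHom_apply, ← hk, smul_eq_mul, mul_comm, zpow_mul, zpow_natCast]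
    exact zpow_mem h k
  refine (Subgroup.index_dvd_of_le h1).trans ?_
  rw [AddSubgroup.index_toSubgroup, Int.index_zmultiples, Int.natAbs_natCast]

/-- a group generated by `S` elements: `[T : T^p] ≤ p^S` -/
theorem relIndex_pow_closure (hp : p.Prime) (S : Set G) (hS : S.Finite) :
    ((Subgroup.closure S).map (powMonoidHom p)).relIndex (Subgroup.closure S) ≠ 0 ∧
    ((Subgroup.closure S).map (powMonoidHom p)).relIndex (Subgroup.closure S) ≤ p ^ S.ncard := by
  induction S, hS using Set.Finite.induction_on with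
  | empty => simp
  | @insert a S ha hS ih =>
    obtain ⟨ih1, ih2⟩ := ih
    set T := Subgroup.closure S with hT
    have hcl : Subgroup.closure (insert a S) = Subgroup.zpowers a ⊔ T := by
      rw [Set.insert_eq, Subgroup.closure_union, Subgroup.zpowers_eq_closure]
    rw [hcl]
    set T' := Subgroup.zpowers a ⊔ T with hT'
    have hpT' : T'.map (powMonoidHom p) ≤ T' := by
      rintro _ ⟨x, hx, rfl⟩; exact pow_mem hx p
    have h1 : T'.map (powMonoidHom p) ≤ T'.map (powMonoidHom p) ⊔ T := le_sup_left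
    have h2 : T'.map (powMonoidHom p) ⊔ T ≤ T' := sup_le hpT' le_sup_right
    have e := Subgroup.relIndex_mul_relIndex _ _ _ h1 h2
    -- first factor
    have f1 : (T'.map (powMonoidHom p)).relIndex (T'.map (powMonoidHom p) ⊔ T) ∣
        (T.map (powMonoidHom p)).relIndex T := by
      rw [sup_comm, Subgroup.relIndex_sup_right]
      exact Subgroup.relIndex_dvd_of_le_left T (Subgroup.map_mono le_sup_right)
    have f1' : (T'.map (powMonoidHom p)).relIndex (T'.map (powMonoidHom p) ⊔ T) ≠ 0 :=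
      fun h => ih1 (Nat.eq_zero_of_zero_dvd (h ▸ f1))
    -- second factor
    have f2 : (T'.map (powMonoidHom p) ⊔ T).relIndex T' ∣ p := by
      have hle : T' = Subgroup.zpowers a ⊔ (T'.map (powMonoidHom p) ⊔ T) := by
        apply le_antisymm
        · exact sup_le_sup_left le_sup_right _
        · exact sup_le le_sup_left h2
      have h3 : a ^ p ∈ T'.map (powMonoidHom p) ⊔ T := by
        refine (le_sup_left : T'.map (powMonoidHom p) ≤ _) ?_
        exact ⟨a, (le_sup_left : Subgroup.zpowers a ≤ T') (Subgroup.mem_zpowers a), rfl⟩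
      have h4 := relIndex_zpowers_dvd _ a h3
      have h5 : (T'.map (powMonoidHom p) ⊔ T).relIndex
          (Subgroup.zpowers a ⊔ (T'.map (powMonoidHom p) ⊔ T)) ∣ p := by
        rw [Subgroup.relIndex_sup_right]
        exact h4
      rwa [← hle] at h5
    have f2' : (T'.map (powMonoidHom p) ⊔ T).relIndex T' ≠ 0 :=
      fun h => hp.ne_zero (Nat.eq_zero_of_zero_dvd (h ▸ f2))
    rw [← e]
    refine ⟨mul_ne_zero f1' f2', ?_⟩
    rw [Set.ncard_insert_of_notMem ha hS, pow_succ]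
    exact Nat.mul_le_mul ((Nat.le_of_dvd (Nat.pos_of_ne_zero ih1) f1).trans ih2)
      (Nat.le_of_dvd hp.pos f2)

end Idx

section Amb

variable {Λ D : Type*} [CommGroup Λ] [CommGroup D] {p : ℕ}

theorem ambDelta_mem_ker {s : Λ ≃* Λ} {y : Λ} : y ∈ (ambDelta s).ker ↔ s y = y := by
  rw [MonoidHom.mem_ker, ambDelta_apply, div_eq_one]

theorem pi_ambNu (π : Λ →* D) (s : Λ ≃* Λ) (φ : D ≃* D) (hπ : ∀ x, π (s x) = φ (π x)) (z : Λ) :
    π (ambNu s p z) = ambNu φ p (π z) := by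
  rw [ambNu_apply, ambNu_apply, map_prod]
  have h6 : ∀ i : ℕ, π ((s ^ i) z) = (φ ^ i) (π z) := by
    intro i
    induction i with
    | zero => rfl
    | succ i ih =>
      rw [pow_succ', pow_succ']
      change π (s ((s ^ i) z)) = φ ((φ ^ i) (π z))
      rw [hπ, ih]
  exact Finset.prod_congr rfl fun i _ => h6 i

theorem ambNu_fixed (φ : D ≃* D) (t : D) (ht : φ t = t) : ambNu φ p t = t ^ p := by
  have h6 : ∀ i : ℕ, (φ ^ i) t = t := by
    intro i
    induction i with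
    | zero => rfl
    | succ i ih =>
      rw [pow_succ']
      change φ ((φ ^ i) t) = t
      rw [ih, ht]
  rw [ambNu_apply]
  simp only [h6]
  rw [Finset.prod_const, Finset.card_range]

/-- Herbrand quotient of the `S`-units -/
theorem s_herb (hp : p.Prime) (S : ℕ) (π : Λ →* D) (s : Λ ≃* Λ) (φ : D ≃* D)
    (hπ : ∀ x, π (s x) = φ (π x)) (hs : s ^ p = 1)
    (T : Subgroup D) (hT : ∀ t ∈ T, φ t = t) (htf : ∀ t ∈ T, t ^ p = 1 → t = 1)
    (E V : Subgroup Λ) (hE : E = T.comap π) (hV : V = π.ker)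
    (hEN : ∀ e ∈ E, ambNu s p e = 1 → ∃ f ∈ E, e = ambDelta s f)
    (u1 : (V.map (ambNu s p)).relIndex (V ⊓ (ambDelta s).ker) ≠ 0)
    (u2 : (V.map (ambDelta s)).relIndex (V ⊓ (ambNu s p).ker) ≠ 0)
    (u3 : p * (V.map (ambNu s p)).relIndex (V ⊓ (ambDelta s).ker) ≤
      (V.map (ambDelta s)).relIndex (V ⊓ (ambNu s p).ker))
    (hTf : π.range.relIndex T ≠ 0)
    (hT0 : (T.map (powMonoidHom p)).relIndex T ≠ 0)
    (hTS : (T.map (powMonoidHom p)).relIndex T ≤ p ^ S) :
    (E.map (ambNu s p)).relIndex (E ⊓ (ambDelta s).ker) ≠ 0 ∧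
    p * (E.map (ambNu s p)).relIndex (E ⊓ (ambDelta s).ker) ≤ p ^ S := by
  have hEmem : ∀ x, x ∈ E ↔ π x ∈ T := fun x => by rw [hE]; rfl
  have hVmem : ∀ x, x ∈ V ↔ π x = 1 := fun x => by rw [hV]; rfl
  have hVE : V ≤ E := fun x hx => by
    rw [hEmem, (hVmem x).1 hx]; exact one_mem T
  -- `N = 1` in `E` forces a unit
  have k1 : ∀ e ∈ E, ambNu s p e = 1 → e ∈ V := by
    intro e he h1
    rw [hVmem]
    apply htf _ ((hEmem e).1 he)
    rw [← ambNu_fixed φ (π e) (hT _ ((hEmem e).1 he)), ← pi_ambNu π s φ hπ, h1, map_one]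
  have k2 : E.map (ambDelta s) = V ⊓ (ambNu s p).ker := by
    ext x
    rw [Subgroup.mem_map, Subgroup.mem_inf, MonoidHom.mem_ker]
    constructor
    · rintro ⟨e, he, rfl⟩
      refine ⟨?_, ambNu_delta s p hs e⟩
      rw [hVmem, ambDelta_apply, map_div, hπ, hT _ ((hEmem e).1 he), div_self']
    · rintro ⟨hx1, hx2⟩
      obtain ⟨f, hf, rfl⟩ := hEN x (hVE hx1) hx2
      exact ⟨f, hf, rfl⟩
  set Efix := E ⊓ (ambDelta s).ker with hEfix
  set A := E.map π with hA
  set A0 := Efix.map π with hA0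
  -- `[VN : δ V] = [A : A0]`
  have k3 : (V.map (ambDelta s)).relIndex (V ⊓ (ambNu s p).ker) = A0.relIndex A := by
    rw [← k2, ← Subgroup.relIndex_comap, hA0, hA, ← Subgroup.relIndex_comap,
      ← Subgroup.inf_relIndex_right, ← Subgroup.inf_relIndex_right ((Efix.map π).comap π) E]
    congr 1
    ext x
    rw [Subgroup.mem_inf, Subgroup.mem_inf, Subgroup.mem_comap, Subgroup.mem_comap,
      Subgroup.mem_map, Subgroup.mem_map]
    constructor
    · rintro ⟨⟨v, hv, hvx⟩, hx⟩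
      have h5 : x / v ∈ E := div_mem hx (hVE hv)
      have h6 : x / v ∈ (ambDelta s).ker := by rw [MonoidHom.mem_ker, map_div, hvx, div_self']
      exact ⟨⟨x / v, Subgroup.mem_inf.2 ⟨h5, h6⟩, by rw [map_div, (hVmem v).1 hv, div_one]⟩, hx⟩
    · rintro ⟨⟨v, hv, hvx⟩, hx⟩
      have hv2 : ambDelta s v = 1 := hv.2
      refine ⟨⟨x / v, ?_, ?_⟩, hx⟩
      · show x / v ∈ V
        rw [hVmem, map_div, hvx, div_self']
      · rw [map_div, hv2, div_one]
  -- `A ≤ T` of finite index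
  have hAT : A ≤ T := by
    rintro _ ⟨e, he, rfl⟩; exact (hEmem e).1 he
  have hAf : A.relIndex T ≠ 0 := by
    have : A ⊓ T = π.range ⊓ T := by
      ext x
      rw [Subgroup.mem_inf, Subgroup.mem_inf]
      constructor
      · rintro ⟨⟨e, he, rfl⟩, h⟩; exact ⟨⟨e, rfl⟩, h⟩
      · rintro ⟨⟨e, rfl⟩, h⟩; exact ⟨⟨e, (hEmem e).2 h, rfl⟩, h⟩
    rw [← Subgroup.inf_relIndex_right, this, Subgroup.inf_relIndex_right]
    exact hTf
  obtain ⟨a1, a2⟩ := relIndex_pow_le A T hAT hAf hT0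
  -- the powers of `A` are inside `A0`
  have hpA : (E.map (ambNu s p)).map π = A.map (powMonoidHom p) := by
    ext x
    simp only [Subgroup.mem_map, hA]
    constructor
    · rintro ⟨_, ⟨e, he, rfl⟩, rfl⟩
      refine ⟨π e, ⟨e, he, rfl⟩, ?_⟩
      rw [pi_ambNu π s φ hπ, ambNu_fixed φ (π e) (hT _ ((hEmem e).1 he))]
      rfl
    · rintro ⟨_, ⟨e, he, rfl⟩, rfl⟩
      refine ⟨_, ⟨e, he, rfl⟩, ?_⟩
      rw [pi_ambNu π s φ hπ, ambNu_fixed φ (π e) (hT _ ((hEmem e).1 he))]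
      rfl
  have hNle : E.map (ambNu s p) ≤ Efix := by
    rintro _ ⟨e, he, rfl⟩
    refine ⟨?_, ?_⟩
    · show ambNu s p e ∈ E
      rw [hEmem, pi_ambNu π s φ hπ, ambNu_fixed φ (π e) (hT _ ((hEmem e).1 he))]
      exact pow_mem ((hEmem e).1 he) p
    · show ambNu s p e ∈ (ambDelta s).ker
      rw [ambDelta_mem_ker]
      exact s_ambNu s p hs e
  have hpA0 : A.map (powMonoidHom p) ≤ A0 := by
    rw [← hpA]
    exact Subgroup.map_mono hNle
  have hA0A : A0 ≤ A := Subgroup.map_mono inf_le_left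
  have m1 := Subgroup.relIndex_mul_relIndex _ _ _ hpA0 hA0A
  -- split the index of the norms
  have m2 := relIndex_split π (E.map (ambNu s p)) Efix hNle
  rw [hpA] at m2
  have hker : Efix ⊓ π.ker = V ⊓ (ambDelta s).ker := by
    rw [hEfix, hV]
    ext x
    simp only [Subgroup.mem_inf]
    constructor
    · rintro ⟨⟨a, b⟩, c⟩; exact ⟨c, b⟩
    · rintro ⟨c, b⟩
      exact ⟨⟨hVE (by rw [hV]; exact c), b⟩, c⟩
  rw [hker] at m2
  have m3 : (E.map (ambNu s p) ⊓ π.ker).relIndex (V ⊓ (ambDelta s).ker) ∣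
      (V.map (ambNu s p)).relIndex (V ⊓ (ambDelta s).ker) := by
    apply Subgroup.relIndex_dvd_of_le_left
    refine le_inf (Subgroup.map_mono hVE) ?_
    rintro _ ⟨v, hv, rfl⟩
    rw [MonoidHom.mem_ker, pi_ambNu π s φ hπ, (hVmem v).1 hv, map_one]
  have m3' : (E.map (ambNu s p) ⊓ π.ker).relIndex (V ⊓ (ambDelta s).ker) ≠ 0 :=
    fun h => u1 (Nat.eq_zero_of_zero_dvd (h ▸ m3))
  have m4 : (A.map (powMonoidHom p)).relIndex A0 ≠ 0 := by
    intro h
    rw [h, zero_mul] at m1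
    exact a1 m1.symm
  have hA0eq : (Subgroup.map π Efix) = A0 := rfl
  rw [hA0eq] at m2
  refine ⟨by rw [m2]; exact mul_ne_zero m3' m4, ?_⟩
  calc p * (E.map (ambNu s p)).relIndex Efix
      = p * (E.map (ambNu s p) ⊓ π.ker).relIndex (V ⊓ (ambDelta s).ker) *
          (A.map (powMonoidHom p)).relIndex A0 := by rw [m2, mul_assoc]
    _ ≤ p * (V.map (ambNu s p)).relIndex (V ⊓ (ambDelta s).ker) *
          (A.map (powMonoidHom p)).relIndex A0 :=
        Nat.mul_le_mul_right _ (Nat.mul_le_mul_left _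
          (Nat.le_of_dvd (Nat.pos_of_ne_zero u1) m3))
    _ ≤ A0.relIndex A * (A.map (powMonoidHom p)).relIndex A0 :=
        Nat.mul_le_mul_right _ (u3.trans_eq k3)
    _ = (A.map (powMonoidHom p)).relIndex A := by rw [mul_comm, m1]
    _ ≤ p ^ S := a2.trans hTS

theorem mem_of_pow_mem {G : Type*} [CommGroup G] {m p : ℕ} (h : Nat.Coprime m p) (H : Subgroup G)
    (x : G) (h1 : x ^ m ∈ H) (h2 : x ^ p ∈ H) : x ∈ H := by
  have h3 := Nat.gcd_eq_gcd_ab m p
  have h4 : (x : G) = (x ^ m) ^ (m.gcdA p) * (x ^ p) ^ (m.gcdB p) := by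
    rw [← zpow_natCast x m, ← zpow_natCast x p, ← zpow_mul, ← zpow_mul, ← zpow_add, ← h3,
      h.gcd_eq_one, Nat.cast_one, zpow_one]
  rw [h4]
  exact mul_mem (zpow_mem h1 _) (zpow_mem h2 _)

/-- a fixed element of order `p` -/
theorem exists_fixed {Y : Type*} [CommGroup Y] [Finite Y] (hp : p.Prime) (a : Y ≃* Y)
    (ha : a ^ p = 1) (h : p ∣ Nat.card Y) : ∃ y : Y, y ≠ 1 ∧ y ^ p = 1 ∧ a y = y := by
  classical
  have hpf : Fact p.Prime := ⟨hp⟩
  let S : Subgroup Y := (powMonoidHom p : Y →* Y).ker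
  have hmem : ∀ c : Y, c ∈ S ↔ c ^ p = 1 := fun c => by
    rw [MonoidHom.mem_ker, powMonoidHom_apply]
  let f : Function.End S := fun c : S => (⟨a c.1, by
    rw [hmem, ← map_pow, (hmem _).mp c.2, map_one]⟩ : S)
  have hfit : ∀ (k : ℕ) (c : S), (((f ^ k) c : S) : Y) = (a ^ k) c.1 := by
    intro k
    induction k with
    | zero => intro c; rfl
    | succ k ih =>
      intro c
      rw [pow_succ, pow_succ]
      change (((f ^ k) (f c) : S) : Y) = (a ^ k) (a c.1)
      rw [ih]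
  have hfp : f ^ p ^ 1 = 1 := by
    rw [pow_one]
    funext c
    apply Subtype.ext
    rw [hfit, ha]
    rfl
  have : Fintype S := Fintype.ofFinite S
  have hmod := Equiv.Perm.card_fixedPoints_modEq (f := f) (p := p) (n := 1) hfp
  have hSp : p ∣ Fintype.card S := by
    obtain ⟨c, hc⟩ := exists_prime_orderOf_dvd_card' p h
    have hcS : c ∈ S := by rw [hmem, ← hc, pow_orderOf_eq_one]
    have h1 : orderOf (⟨c, hcS⟩ : S) = p := by rw [← hc]; exact Subgroup.orderOf_mk c hcS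
    rw [← h1]
    exact orderOf_dvd_card
  have hfix : p ∣ Fintype.card (Function.fixedPoints f) :=
    (Nat.modEq_zero_iff_dvd.mp ((hmod.symm).trans (Nat.modEq_zero_iff_dvd.mpr hSp)))
  have h1fix : (1 : S) ∈ Function.fixedPoints f := by
    apply Subtype.ext
    exact map_one a
  have hgt : 1 < Fintype.card (Function.fixedPoints f) := by
    have hpos : 0 < Fintype.card (Function.fixedPoints f) := Fintype.card_pos_iff.mpr ⟨⟨1, h1fix⟩⟩
    exact lt_of_lt_of_le hp.one_lt (Nat.le_of_dvd hpos hfix)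
  obtain ⟨⟨c, hcf⟩, hc1⟩ := Fintype.exists_ne_of_one_lt_card hgt ⟨1, h1fix⟩
  refine ⟨c.1, fun h => hc1 (Subtype.ext (Subtype.ext h)), (hmem _).1 c.2, ?_⟩
  exact congrArg Subtype.val hcf

/-- one step of degree `p`: the `S`-class group stays prime to `p` -/
theorem s_step (hp : p.Prime) (S : ℕ) (π : Λ →* D) (s : Λ ≃* Λ) (φ : D ≃* D)
    (hπ : ∀ x, π (s x) = φ (π x)) (hs : s ^ p = 1) (hφ : φ ^ p = 1)
    (h90 : ∀ x : Λ, ambNu s p x = 1 → ∃ y, x = ambDelta s y)
    (T : Subgroup D) (hT : ∀ t ∈ T, φ t = t) (htf : ∀ t ∈ T, t ^ p = 1 → t = 1)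
    (E V : Subgroup Λ) (hE : E = T.comap π) (hV : V = π.ker)
    (u1 : (V.map (ambNu s p)).relIndex (V ⊓ (ambDelta s).ker) ≠ 0)
    (u2 : (V.map (ambDelta s)).relIndex (V ⊓ (ambNu s p).ker) ≠ 0)
    (u3 : p * (V.map (ambNu s p)).relIndex (V ⊓ (ambDelta s).ker) ≤
      (V.map (ambDelta s)).relIndex (V ⊓ (ambNu s p).ker))
    (hTf : π.range.relIndex T ≠ 0)
    (hT0 : (T.map (powMonoidHom p)).relIndex T ≠ 0)
    (hTS : (T.map (powMonoidHom p)).relIndex T ≤ p ^ S)
    (m : ℕ) (hm : ¬ p ∣ m)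
    (hQ : ∀ x : D, φ x = x → ∃ y : Λ, ∃ t ∈ T, s y = y ∧ x ^ m = π y * t)
    (hnorm : (ambNu s p).range.relIndex (E ⊓ (ambDelta s).ker) = 0 ∨
      p ^ S ≤ p * (ambNu s p).range.relIndex (E ⊓ (ambDelta s).ker))
    (hfin : (T ⊔ π.range).index ≠ 0) :
    ¬ p ∣ (T ⊔ π.range).index := by
  intro hdvd
  have hEmem : ∀ x, x ∈ E ↔ π x ∈ T := fun x => by rw [hE]; rfl
  have hfixT : ∀ x : D, ∀ t ∈ T, φ x = x * t → t = 1 := by
    intro x t ht hx
    apply htf t ht
    have h1 : ambDelta φ x = t := by rw [ambDelta_apply, hx, mul_div_cancel_left]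
    rw [← ambNu_fixed φ t (hT t ht), ← h1, ambNu_delta φ p hφ]
  have hcop : Nat.Coprime m p := ((Nat.Prime.coprime_iff_not_dvd hp).2 hm).symm
  have hEN : ∀ e ∈ E, ambNu s p e = 1 → ∃ f ∈ E, e = ambDelta s f := by
    intro e he h1
    have hE2 : ∀ x, x ∈ E.map (ambDelta s) ↔ ∃ f ∈ E, x = ambDelta s f := by
      intro x
      rw [Subgroup.mem_map]
      constructor
      · rintro ⟨f, hf, rfl⟩; exact ⟨f, hf, rfl⟩
      · rintro ⟨f, hf, rfl⟩; exact ⟨f, hf, rfl⟩
    rw [← hE2]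
    obtain ⟨w, hw⟩ := h90 e h1
    have hw1 : φ (π w) = π w * π e := by
      rw [hw, ← hπ, ← map_mul, ambDelta_apply, mul_div_cancel]
    have hw2 : π e = 1 := hfixT _ _ ((hEmem e).1 he) hw1
    rw [hw2, mul_one] at hw1
    refine mem_of_pow_mem hcop _ _ ?_ ?_
    · obtain ⟨y, t, ht, hy, hyt⟩ := hQ (π w) hw1
      rw [hE2]
      refine ⟨w ^ m / y, ?_, ?_⟩
      · rw [hEmem, map_div, map_pow, hyt, mul_div_cancel_left]
        exact ht
      · have h5 : ambDelta s y = 1 := by rw [ambDelta_apply, hy, div_self']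
        rw [map_div, map_pow, ← hw, h5, div_one]
    · -- `e ^ p = ∏ e / s^i e`
      have h5 : e ^ p = ∏ i ∈ Finset.range p, (e / (s ^ i) e) := by
        rw [Finset.prod_div_distrib, ← ambNu_apply, h1, div_one, Finset.prod_const,
          Finset.card_range]
      rw [h5]
      refine Subgroup.prod_mem _ fun i _ => ?_
      have h6 : ∀ i : ℕ, (s ^ i) e ∈ E ∧ e / (s ^ i) e ∈ E.map (ambDelta s) := by
        intro i
        induction i with
        | zero => exact ⟨he, by rw [pow_zero]; change e / e ∈ _; rw [div_self']; exact one_mem _⟩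
        | succ i ih =>
          have e1 : (s ^ (i + 1)) e = s ((s ^ i) e) := by rw [pow_succ']; rfl
          refine ⟨?_, ?_⟩
          · rw [e1, hEmem, hπ, hT _ ((hEmem _).1 ih.1)]
            exact (hEmem _).1 ih.1
          · have e2 : e / (s ^ (i + 1)) e =
                (e / (s ^ i) e) * (s ((s ^ i) e) / (s ^ i) e)⁻¹ := by
              rw [e1, inv_div, div_mul_div_cancel]
            rw [e2]
            exact mul_mem ih.2 (inv_mem ⟨_, ih.1, rfl⟩)
      exact (h6 i).2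
  obtain ⟨n1, n2⟩ := s_herb hp S π s φ hπ hs T hT htf E V hE hV hEN u1 u2 u3 hTf hT0 hTS
  -- every `S`-unit that is a norm is the norm of an `S`-unit
  have hNN : ∀ x ∈ E, s x = x → (∃ z, ambNu s p z = x) → ∃ f ∈ E, ambNu s p f = x := by
    have hle1 : E.map (ambNu s p) ≤ (ambNu s p).range ⊓ (E ⊓ (ambDelta s).ker) := by
      rintro _ ⟨e, he, rfl⟩
      refine Subgroup.mem_inf.2 ⟨⟨e, rfl⟩, Subgroup.mem_inf.2 ⟨?_, ?_⟩⟩
      · rw [hEmem, pi_ambNu π s φ hπ, ambNu_fixed φ (π e) (hT _ ((hEmem e).1 he))]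
        exact pow_mem ((hEmem e).1 he) p
      · rw [ambDelta_mem_ker]
        exact s_ambNu s p hs e
    have hmul := Subgroup.relIndex_mul_relIndex _ _ _ hle1 inf_le_right
    rw [Subgroup.inf_relIndex_right] at hmul
    set a := (E.map (ambNu s p)).relIndex ((ambNu s p).range ⊓ (E ⊓ (ambDelta s).ker))
    set b := (ambNu s p).range.relIndex (E ⊓ (ambDelta s).ker)
    have hb : 0 < b := by
      rcases Nat.eq_zero_or_pos b with h | h
      · rw [h, mul_zero] at hmul; exact absurd hmul.symm n1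
      · exact h
    have ha1 : a = 1 := by
      have h7 : p * (a * b) ≤ p * b := by
        rw [hmul]; exact n2.trans (hnorm.resolve_left hb.ne')
      have h8 : a * b ≤ 1 * b := by
        rw [one_mul]; exact Nat.le_of_mul_le_mul_left h7 hp.pos
      have h9 : a ≤ 1 := Nat.le_of_mul_le_mul_right h8 hb
      have h10 : a ≠ 0 := by
        intro h; rw [h, zero_mul] at hmul; exact n1 hmul.symm
      omega
    have hle2 := Subgroup.relIndex_eq_one.1 ha1
    intro x hx hsx hz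
    obtain ⟨f, hf, hfx⟩ := hle2 (Subgroup.mem_inf.2 ⟨hz, Subgroup.mem_inf.2
      ⟨hx, ambDelta_mem_ker.2 hsx⟩⟩)
    exact ⟨f, hf, hfx⟩
  -- the quotient
  set P := T ⊔ π.range with hP
  have hfinY : Finite (D ⧸ P) := Nat.finite_of_card_ne_zero hfin
  have hmap : P.map (φ : D →* D) = P := by
    apply le_antisymm
    · rw [hP, Subgroup.map_sup]
      apply sup_le_sup
      · rintro _ ⟨t, ht, rfl⟩
        change φ t ∈ T
        rw [hT t ht]; exact ht
      · rintro _ ⟨_, ⟨z, rfl⟩, rfl⟩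
        exact ⟨s z, hπ z⟩
    · rw [hP, Subgroup.map_sup]
      apply sup_le_sup
      · intro t ht
        exact ⟨t, ht, hT t ht⟩
      · rintro _ ⟨z, rfl⟩
        refine ⟨π (s.symm z), ⟨_, rfl⟩, ?_⟩
        change φ (π (s.symm z)) = π z
        rw [← hπ, MulEquiv.apply_symm_apply]
  let a : (D ⧸ P) ≃* (D ⧸ P) := QuotientGroup.congr P P φ hmap
  have ha1 : ∀ x : D, a (QuotientGroup.mk x) = QuotientGroup.mk (φ x) := fun x => rfl
  have hak : ∀ (k : ℕ) (x : D), (a ^ k) (QuotientGroup.mk x) =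
      (QuotientGroup.mk ((φ ^ k) x) : D ⧸ P) := by
    intro k
    induction k with
    | zero => intro x; rfl
    | succ k ih =>
      intro x
      rw [pow_succ, pow_succ]
      exact ih (φ x)
  have hap : a ^ p = 1 := by
    ext1 y
    obtain ⟨x, rfl⟩ := QuotientGroup.mk_surjective y
    rw [hak, hφ]
    rfl
  obtain ⟨y, hy1, hyp, hay⟩ := exists_fixed hp a hap hdvd
  obtain ⟨d, rfl⟩ := QuotientGroup.mk_surjective y
  apply hy1
  rw [QuotientGroup.eq_one_iff]
  rw [← QuotientGroup.mk_pow, QuotientGroup.eq_one_iff] at hyp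
  rw [ha1, QuotientGroup.eq] at hay
  have hd : φ d / d ∈ P := by
    have h8 := inv_mem hay
    have h9 : φ d / d = ((φ d)⁻¹ * d)⁻¹ := by rw [mul_inv, inv_inv, div_eq_mul_inv]
    rw [h9]; exact h8
  obtain ⟨t, ht, _, ⟨z, rfl⟩, htz⟩ := Subgroup.mem_sup.1 hd
  -- the norm
  have h10 : ambNu φ p (φ d / d) = 1 := ambNu_delta φ p hφ d
  rw [← htz, map_mul, ambNu_fixed φ t (hT t ht), ← pi_ambNu π s φ hπ] at h10
  have h11 : ambNu s p z ∈ E := by
    rw [hEmem]
    have h12 : π (ambNu s p z) = (t ^ p)⁻¹ := (inv_eq_of_mul_eq_one_right h10).symm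
    rw [h12]
    exact inv_mem (pow_mem ht p)
  obtain ⟨f, hf, hfz⟩ := hNN _ h11 (s_ambNu s p hs z) ⟨z, rfl⟩
  obtain ⟨w, hw⟩ := h90 (z / f) (by rw [map_div, hfz, div_self'])
  have h13 : π z = π f * (φ (π w) / π w) := by
    have h14 : z = f * ambDelta s w := by rw [← hw, mul_div_cancel]
    rw [h14, map_mul, ambDelta_apply, map_div, hπ]
  have h15 : φ (d / π w) = d / π w * (t * π f) := by
    have h16 : φ d = d * (t * π z) := by rw [htz, mul_div_cancel]
    rw [map_div, h16, h13]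
    simp only [div_eq_mul_inv]
    have h17 : ∀ a b c e g : D, a * (b * (c * (e * g⁻¹))) * e⁻¹ = a * g⁻¹ * (b * c) := by
      intro a b c e g
      rw [mul_comm e g⁻¹, ← mul_assoc c, ← mul_assoc b, ← mul_assoc a, mul_inv_cancel_right]
      rw [mul_assoc a g⁻¹, mul_comm g⁻¹ (b * c), ← mul_assoc b c]
    exact h17 _ _ _ _ _
  have h18 := hfixT _ _ (mul_mem ht ((hEmem f).1 hf)) h15
  rw [h18, mul_one] at h15
  obtain ⟨y, t', ht', -, hyt⟩ := hQ _ h15
  refine mem_of_pow_mem hcop P d ?_ hyp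
  have h19 : d ^ m = (d / π w) ^ m * (π w) ^ m := by rw [← mul_pow, div_mul_cancel]
  rw [h19, hyt]
  have hTP : T ≤ P := le_sup_left
  have hRP : π.range ≤ P := le_sup_right
  exact mul_mem (mul_mem (hRP ⟨y, rfl⟩) (hTP ht')) (pow_mem (hRP ⟨w, rfl⟩) m)

end Amb

end Pool.Agent.Work.MuS
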