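import Pool.Agent.Work.MP_a4986b_nt.SpA
import Pool.Agent.Work.MP_a4986b_nt.IStep

set_option autoImplicit false
set_option maxHeartbeats 400000

/-! # Split primes, part B: the `p`-class group of the `p`-integers in one step of degree `p` -/

namespace Pool.Agent.Work.MuS

open NumberField Module UniqueFactorizationMonoid IsDedekindDomain
open scoped Pointwise nonZeroDivisors
open Pool.Agent.Work.MuI

attribute [local instance] Units.mulDistribMulActionRight

section Defs

/-- a prime as an invertible fractional ideal -/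
noncomputable def vU {M : Type*} [Field M] [NumberField M] (v : HeightOneSpectrum (𝓞 M)) :
    (FractionalIdeal (𝓞 M)⁰ M)ˣ :=
  Units.mk0 (v.asIdeal : FractionalIdeal (𝓞 M)⁰ M) (FractionalIdeal.coeIdeal_ne_zero.2 v.ne_bot)

/-- the primes above `p` -/
def pv (p : ℕ) (M : Type*) [Field M] [NumberField M] : Set (HeightOneSpectrum (𝓞 M)) :=
  {v | (p : 𝓞 M) ∈ v.asIdeal}

/-- the group of fractional ideals generated by the primes above `p` -/
noncomputable def TT (p : ℕ) (M : Type*) [Field M] [NumberField M] :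
    Subgroup (FractionalIdeal (𝓞 M)⁰ M)ˣ :=
  Subgroup.closure (vU '' pv p M)

/-- the group of classes generated by the primes above `p` -/
noncomputable def pcl (p : ℕ) (M : Type*) [Field M] [NumberField M] :
    Subgroup (ClassGroup (𝓞 M)) :=
  (TT p M).map (ClassGroup.mk M)

end Defs

variable {p : ℕ} {M : Type*} [Field M] [NumberField M]

theorem vU_coe (v : HeightOneSpectrum (𝓞 M)) :
    ((vU v : (FractionalIdeal (𝓞 M)⁰ M)ˣ) : FractionalIdeal (𝓞 M)⁰ M) = v.asIdeal := rfl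

theorem pv_finite (hp : p.Prime) : (pv p M).Finite := by
  have h0 : (Ideal.span {(p : 𝓞 M)}) ≠ 0 := by
    rw [Ne, Ideal.zero_eq_bot, Ideal.span_singleton_eq_bot]
    exact_mod_cast hp.ne_zero
  refine (Ideal.finite_factors h0).subset ?_
  intro v hv
  change v.asIdeal ∣ Ideal.span {(p : 𝓞 M)}
  rw [Ideal.dvd_span_singleton]
  exact hv

/-- fractional ideals are torsion free -/
theorem frac_tf (hp : p.Prime) (x : (FractionalIdeal (𝓞 M)⁰ M)ˣ) (h : x ^ p = 1) : x = 1 := by
  have hc : ∀ v : HeightOneSpectrum (𝓞 M),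
      FractionalIdeal.count M v (x : FractionalIdeal (𝓞 M)⁰ M) = 0 := by
    intro v
    have h1 := FractionalIdeal.count_pow M v p (x : FractionalIdeal (𝓞 M)⁰ M)
    rw [← Units.val_pow_eq_pow_val, h, Units.val_one, FractionalIdeal.count_one] at h1
    rcases mul_eq_zero.1 h1.symm with h2 | h2
    · exact absurd h2 (by exact_mod_cast hp.ne_zero)
    · exact h2
  have h3 := FractionalIdeal.finprod_heightOneSpectrum_factorization' M x.ne_zero
  apply Units.ext
  rw [← h3, Units.val_one]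
  apply finprod_eq_one_of_forall_eq_one
  intro v
  rw [hc v, zpow_zero]

/-- ideals containing a power of `p` -/
theorem mem_TT_of_pow (I : Ideal (𝓞 M)) (hI : I ≠ ⊥) (k : ℕ) (hk : (p : 𝓞 M) ^ k ∈ I)
    (u : (FractionalIdeal (𝓞 M)⁰ M)ˣ) (hu : (u : FractionalIdeal (𝓞 M)⁰ M) = I) :
    u ∈ TT p M := by
  induction I using UniqueFactorizationMonoid.induction_on_prime generalizing u with
  | h₁ => exact absurd rfl hI
  | h₂ J hJ =>
    have h1 : u = 1 := by
      apply Units.ext
      rw [hu, Ideal.isUnit_iff.mp hJ, FractionalIdeal.coeIdeal_top, Units.val_one]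
    rw [h1]
    exact one_mem _
  | h₃ J q hJ0 hq ih =>
    have hJ1 : (J : FractionalIdeal (𝓞 M)⁰ M) ≠ 0 := FractionalIdeal.coeIdeal_ne_zero.2 hJ0
    have hqp : q.IsPrime := Ideal.isPrime_of_prime hq
    let v : HeightOneSpectrum (𝓞 M) := ⟨q, hqp, hq.ne_zero⟩
    have h1 : u = vU v * Units.mk0 _ hJ1 := by
      apply Units.ext
      rw [hu, Units.val_mul, vU_coe, Units.val_mk0]
      exact FractionalIdeal.coeIdeal_mul q J
    have hkJ : (p : 𝓞 M) ^ k ∈ J := by
      have h5 : q * J ≤ J := Ideal.mul_le_right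
      exact h5 hk
    have hkq : (p : 𝓞 M) ^ k ∈ q := by
      have h5 : q * J ≤ q := Ideal.mul_le_left
      exact h5 hk
    have h2 : Units.mk0 _ hJ1 ∈ TT p M := ih hJ0 hkJ (Units.mk0 _ hJ1) (Units.val_mk0 hJ1)
    have h3 : v ∈ pv p M := hqp.mem_of_pow_mem _ hkq
    have h4 : vU v ∈ TT p M := Subgroup.subset_closure (Set.mem_image_of_mem vU h3)
    rw [h1]
    exact mul_mem h4 h2

theorem comap_pcl : (pcl p M).comap (ClassGroup.mk M) = TT p M ⊔ (toPrincipalIdeal (𝓞 M) M).range := by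
  rw [pcl, Subgroup.comap_map_eq, Step.ker_mk]

theorem mk_surj : Function.Surjective (ClassGroup.mk M : (FractionalIdeal (𝓞 M)⁰ M)ˣ →* _) := by
  intro c
  obtain ⟨I, rfl⟩ := ClassGroup.mk0_surjective c
  exact ⟨FractionalIdeal.mk0 M I, ClassGroup.mk_mk0 M I⟩

theorem index_pcl : (TT p M ⊔ (toPrincipalIdeal (𝓞 M) M).range).index = (pcl p M).index := by
  rw [← comap_pcl, Subgroup.index_comap_of_surjective _ mk_surj]

theorem range_index : (toPrincipalIdeal (𝓞 M) M).range.index ≠ 0 := by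
  have h1 : (toPrincipalIdeal (𝓞 M) M).range.index = Nat.card (ClassGroup (𝓞 M)) :=
    (Nat.card_congr (ClassGroup.equiv M).toEquiv).symm
  rw [h1]
  exact Nat.card_pos.ne'

/-- independent elements modulo a subgroup -/
theorem pow_le_relIndex {G : Type*} [CommGroup G] {p r : ℕ} (hp : p.Prime) (A B : Subgroup G)
    (x : Fin r → G) (hx : ∀ j, x j ∈ A) (hxp : ∀ j, x j ^ p ∈ B)
    (hind : ∀ e : Fin r → ℕ, ∏ j, x j ^ e j ∈ B → ∀ j, p ∣ e j) (h0 : B.relIndex A ≠ 0) :
    p ^ r ≤ B.relIndex A := by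
  have hfin : Finite (A ⧸ B.subgroupOf A) := Nat.finite_of_card_ne_zero h0
  have hmem : ∀ e : Fin r → Fin p, ∏ j, x j ^ (e j : ℕ) ∈ A := fun e =>
    Subgroup.prod_mem _ fun j _ => pow_mem (hx j) _
  let f : (Fin r → Fin p) → A ⧸ B.subgroupOf A := fun e =>
    QuotientGroup.mk ⟨∏ j, x j ^ (e j : ℕ), hmem e⟩
  have hf : Function.Injective f := by
    intro e e' h
    have h1 := QuotientGroup.eq.1 h
    rw [Subgroup.mem_subgroupOf] at h1
    have h2 : (∏ j, x j ^ (e j : ℕ))⁻¹ * ∏ j, x j ^ (e' j : ℕ) ∈ B := h1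
    have h3 : ∏ j, x j ^ ((e' j : ℕ) + (p - (e j : ℕ))) ∈ B := by
      have h4 : ∏ j, x j ^ ((e' j : ℕ) + (p - (e j : ℕ))) =
          ((∏ j, x j ^ (e j : ℕ))⁻¹ * ∏ j, x j ^ (e' j : ℕ)) * ∏ j, x j ^ p := by
        rw [← Finset.prod_inv_distrib, ← Finset.prod_mul_distrib, ← Finset.prod_mul_distrib]
        refine Finset.prod_congr rfl fun j _ => ?_
        have h5 : x j ^ p = x j ^ (e j : ℕ) * x j ^ (p - (e j : ℕ)) := by
          rw [← pow_add]
          congr 1
          have := (e j).2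
          omega
        rw [h5, pow_add]
        rw [mul_comm ((x j ^ (e j : ℕ))⁻¹), mul_assoc, inv_mul_cancel_left]
      rw [h4]
      exact mul_mem h2 (Subgroup.prod_mem _ fun j _ => hxp j)
    have h6 := hind _ h3
    funext j
    apply Fin.ext
    have h7 := h6 j
    have h8 := (e j).2
    have h9 := (e' j).2
    obtain ⟨t, ht⟩ := h7
    have h10 : t < 2 := by
      by_contra hlt
      have : p * 2 ≤ p * t := Nat.mul_le_mul_left p (by omega)
      omega
    have h11 : 0 < t := by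
      rcases Nat.eq_zero_or_pos t with rfl | h
      · omega
      · exact h
    have h12 : t = 1 := by omega
    subst h12
    omega
  have h1 := Nat.card_le_card_of_injective f hf
  rw [Nat.card_eq_fintype_card, Fintype.card_fun, Fintype.card_fin, Fintype.card_fin] at h1
  exact h1

section Ext

variable {K : Type*} [Field K] [NumberField K] [Algebra K M]

theorem ext_TT (x : (FractionalIdeal (𝓞 K)⁰ K)ˣ) (hx : x ∈ TT p K) :
    Inv.extU K M x ∈ TT p M := by
  induction hx using Subgroup.closure_induction with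
  | mem x hx =>
    obtain ⟨v, hv, rfl⟩ := hx
    have h0 : v.asIdeal.map (algebraMap (𝓞 K) (𝓞 M)) ≠ ⊥ := Mu22.map_ne_bot_of v.ne_bot
    refine mem_TT_of_pow _ h0 1 ?_ _ ?_
    · rw [pow_one]
      have h1 := Ideal.mem_map_of_mem (algebraMap (𝓞 K) (𝓞 M)) (show (p : 𝓞 K) ∈ v.asIdeal from hv)
      rwa [map_natCast] at h1
    · rw [Inv.extU_coe, vU_coe, FractionalIdeal.extendedHom_coeIdeal_eq_map]
  | one => rw [map_one]; exact one_mem _
  | mul x y _ _ hx hy => rw [map_mul]; exact mul_mem hx hy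
  | inv x _ hx => rw [map_inv]; exact inv_mem hx

theorem fU_TT (g : Gal(M/K)) (hfix : ∀ v ∈ pv p M, g • v.asIdeal = v.asIdeal)
    (x : (FractionalIdeal (𝓞 M)⁰ M)ˣ) (hx : x ∈ TT p M) : Step.fU g x = x := by
  induction hx using Subgroup.closure_induction with
  | mem x hx =>
    obtain ⟨v, hv, rfl⟩ := hx
    apply Units.ext
    rw [Step.fU_coe, vU_coe, Inv.act_coeIdeal, hfix v hv]
  | one => rw [map_one]
  | mul x y _ _ hx hy => rw [map_mul, hx, hy]
  | inv x _ hx => rw [map_inv, hx]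

variable [IsGalois K M]

/-- an invariant fractional ideal: a power prime to `p` comes from below up to primes above `p` -/
theorem inv_pow (hp : p.Prime) (hd : finrank K M = p)
    (hun : Mu22.UnramOutside p K M)
    (hfix : ∀ g : Gal(M/K), ∀ v ∈ pv p M, g • v.asIdeal = v.asIdeal)
    (x : (FractionalIdeal (𝓞 M)⁰ M)ˣ) (hx : ∀ g : Gal(M/K), Step.fU g x = x) :
    ∃ y : Kˣ, ∃ t ∈ TT p M, x ^ (pcl p K).index =
      toPrincipalIdeal (𝓞 M) M (Units.map (algebraMap K M : K →* M) y) * t := by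
  classical
  -- kill the multiplicities at the primes above `p`
  obtain ⟨t0, ht0, hc⟩ : ∃ t0 ∈ TT p M, ∀ v ∈ pv p M,
      FractionalIdeal.count M v ((x * t0 : (FractionalIdeal (𝓞 M)⁰ M)ˣ) :
        FractionalIdeal (𝓞 M)⁰ M) = 0 := by
    have hfin := pv_finite (M := M) hp
    have : Fintype (pv p M) := hfin.fintype
    set c : HeightOneSpectrum (𝓞 M) → ℤ := fun v =>
      FractionalIdeal.count M v (x : FractionalIdeal (𝓞 M)⁰ M) with hcdef
    refine ⟨∏ v : pv p M, vU v.1 ^ (-c v.1), ?_, ?_⟩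
    · refine Subgroup.prod_mem _ fun v _ => ?_
      exact zpow_mem (Subgroup.subset_closure (Set.mem_image_of_mem vU v.2)) _
    · intro v hv
      rw [Units.val_mul, FractionalIdeal.count_mul M v x.ne_zero (Units.ne_zero _),
        Units.coe_prod, FractionalIdeal.count_prod]
      · have h1 : ∀ w : pv p M, FractionalIdeal.count M v
            ((vU w.1 ^ (-c w.1) : (FractionalIdeal (𝓞 M)⁰ M)ˣ) : FractionalIdeal (𝓞 M)⁰ M) =
            if w = ⟨v, hv⟩ then -c v else 0 := by
          intro w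
          rw [Units.val_zpow_eq_zpow_val, FractionalIdeal.count_zpow, vU_coe,
            FractionalIdeal.count_maximal]
          by_cases h : w = ⟨v, hv⟩
          · have h' : w.1 = v := congrArg Subtype.val h
            rw [if_pos h, if_pos h', h', mul_one]
          · have h' : ¬ w.1 = v := fun h2 => h (Subtype.ext h2)
            rw [if_neg h, if_neg h', mul_zero]
        rw [Finset.sum_congr rfl fun w _ => h1 w, Finset.sum_ite_eq']
        simp [hcdef]
      · intro w _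
        exact Units.ne_zero _
  have hx' : ∀ g : Gal(M/K), Step.fU g (x * t0) = x * t0 := by
    intro g
    rw [map_mul, hx g, fU_TT g (hfix g) t0 ht0]
  -- it comes from below
  obtain ⟨u, hu⟩ : x * t0 ∈ (Inv.extU K M).range := by
    refine Inv.mem_range_ext hp hd (x * t0) (fun g => congrArg Units.val (hx' g)) ?_
    intro v hv
    have hvp : v ∈ pv p M := by
      by_contra h
      exact hv (hun v.asIdeal v.isPrime v.ne_bot h)
    rw [hc v hvp]
    exact dvd_zero _
  set m := (pcl p K).index with hm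
  have h1 : (ClassGroup.mk K (u ^ m)) ∈ pcl p K := by
    rw [map_pow]
    exact Subgroup.pow_index_mem _ _
  obtain ⟨tK, htK, h2⟩ := h1
  have h3 : u ^ m / tK ∈ (toPrincipalIdeal (𝓞 K) K).range := by
    rw [← Step.ker_mk, MonoidHom.mem_ker, map_div, h2, div_self']
  obtain ⟨y, hy⟩ := h3
  refine ⟨y, Inv.extU K M tK * (t0 ^ m)⁻¹, mul_mem (ext_TT tK htK) (inv_mem (pow_mem ht0 m)), ?_⟩
  have h4 : toPrincipalIdeal (𝓞 M) M (Units.map (algebraMap K M : K →* M) y) =
      Inv.extU K M (toPrincipalIdeal (𝓞 K) K y) := by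
    apply Units.ext
    rw [coe_toPrincipalIdeal, Inv.extU_coe, coe_toPrincipalIdeal, Inv.ext_span]
    rfl
  rw [h4, hy, ← mul_assoc, ← map_mul, div_mul_cancel, map_pow, hu, mul_pow, mul_inv_cancel_right]

theorem h90_units {p : ℕ} (hd : finrank K M = p) (σ : Gal(M/K))
    (hσ : ∀ x, x ∈ Subgroup.zpowers σ) (x : Mˣ) (hx : ambNu (Step.sU σ) p x = 1) :
    ∃ y, x = ambDelta (Step.sU σ) y := by
  obtain ⟨m, a, hm, ha⟩ := Mu22.exists_int_mul (x : M)
  have hm' : (m : M) ≠ 0 := by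
    intro h
    apply hm
    exact RingOfIntegers.coe_eq_zero_iff.1 h
  have ha0 : a ≠ 0 := by
    rintro rfl
    exact (mul_ne_zero hm' x.ne_zero) (ha.trans (map_zero (algebraMap (𝓞 M) M)))
  have h2 := congrArg Units.val hx
  rw [ambNu_apply, Units.val_one, Units.coe_prod] at h2
  obtain ⟨b, hb, hab⟩ := Mu22.hilbert90 hd σ hσ a m ha0 hm (by
    apply FaithfulSMul.algebraMap_injective (𝓞 M) M
    rw [map_prod, map_prod]
    have h3 : ∀ i ∈ Finset.range p, algebraMap (𝓞 M) M (σ ^ i • a) =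
        algebraMap (𝓞 M) M (σ ^ i • m) * (((Step.sU σ ^ i) x : Mˣ) : M) := by
      intro i _
      rw [Step.sU_pow, Step.sU_coe]
      change (σ ^ i) (a : M) = (σ ^ i) (m : M) * (σ ^ i) (x : M)
      rw [← map_mul, ha]
    rw [Finset.prod_congr rfl h3, Finset.prod_mul_distrib, h2, mul_one])
  have hb' : (b : M) ≠ 0 := by
    intro h
    apply hb
    exact RingOfIntegers.coe_eq_zero_iff.1 h
  refine ⟨Units.mk0 (b : M) hb', ?_⟩
  apply Units.ext
  rw [ambDelta_apply, Units.val_div_eq_div_val, Step.sU_coe, Units.val_mk0, eq_div_iff hb']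
  have h4 := congrArg (algebraMap (𝓞 M) M) hab
  rw [map_mul, map_mul] at h4
  have h5 : (m : M) * ((x : M) * (b : M)) = (m : M) * σ (b : M) := by
    rw [← mul_assoc, ha]
    exact h4
  exact mul_left_cancel₀ hm' h5

/-- the norm as the product over the powers of a generator -/
theorem norm_eq_ambNu {p : ℕ} (hd : finrank K M = p) (σ : Gal(M/K))
    (hσ : ∀ x, x ∈ Subgroup.zpowers σ) (z : Mˣ) :
    ((ambNu (Step.sU σ) p z : Mˣ) : M) = algebraMap K M (Algebra.norm K (z : M)) := by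
  classical
  have hcard : Nat.card Gal(M/K) = p := by rw [IsGalois.card_aut_eq_finrank, hd]
  rw [Algebra.norm_eq_prod_automorphisms, ambNu_apply, Units.coe_prod]
  have h1 : ∀ i ∈ Finset.range p, (((Step.sU σ ^ i) z : Mˣ) : M) = (σ ^ i) (z : M) := by
    intro i _
    rw [Step.sU_pow, Step.sU_coe]
  rw [Finset.prod_congr rfl h1, ← IsCyclic.image_range_card hσ, hcard, Finset.prod_image]
  intro i hi j hj hij
  have hord := Mu22.orderOf_of_gen hd σ hσ
  rw [Finset.coe_range, Set.mem_Iio] at hi hj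
  exact pow_injOn_Iio_orderOf (by rw [hord]; exact hi) (by rw [hord]; exact hj) hij

/-- **one step**: at most `r + 1` primes above `p`, all nonsplit, and `r` independent `p`-units
modulo norms -/
theorem split_step_r {p r : ℕ} (hp : p.Prime) (hodd : Odd p) (hd : finrank K M = p)
    (hun : Mu22.UnramOutside p K M)
    (hfix : ∀ g : Gal(M/K), ∀ v ∈ pv p M, g • v.asIdeal = v.asIdeal)
    (hcard : (pv p M).ncard ≤ r + 1)
    (hK : ¬ p ∣ (pcl p K).index)
    (a : Fin r → Kˣ) (ha : ∀ j, toPrincipalIdeal (𝓞 K) K (a j) ∈ TT p K)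
    (hna : ∀ e : Fin r → ℕ, (∃ z : M, Algebra.norm K z = ∏ j, (a j : K) ^ e j) →
      ∀ j, p ∣ e j) :
    ¬ p ∣ (pcl p M).index := by
  have hcardG : Nat.card Gal(M/K) = p := by rw [IsGalois.card_aut_eq_finrank, hd]
  have hpf : Fact p.Prime := ⟨hp⟩
  obtain ⟨σ, hσ⟩ := (isCyclic_of_prime_card hcardG).exists_generator
  have hσp : σ ^ p = 1 := by
    rw [← hcardG]
    exact pow_card_eq_one'
  have hpow : ∀ g : Gal(M/K), ∃ n : ℕ, σ ^ n = g := by
    intro g
    have hcyc : IsCyclic Gal(M/K) := ⟨σ, hσ⟩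
    exact (mem_powers_iff_mem_zpowers (x := σ) (y := g)).2 (hσ g)
  set π := toPrincipalIdeal (𝓞 M) M with hπ
  have hsp : (Step.sU σ : Mˣ ≃* Mˣ) ^ p = 1 := by
    ext1 x
    rw [Step.sU_pow, hσp]
    rfl
  have hfp : (Step.fU σ) ^ p = 1 := by
    ext1 x
    rw [Step.fU_pow, hσp, Step.fU_one]
    rfl
  obtain ⟨u1, u2, u3⟩ := units_herbrand hp hd hodd σ hσ
  have hinj := Step.uI_injective (M := M)
  have hmap : ∀ H H' : Subgroup (𝓞 M)ˣ,
      (H.map (Step.uI M)).relIndex (H'.map (Step.uI M)) = H.relIndex H' :=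
    fun H H' => Subgroup.relIndex_map_map_of_injective H H' hinj
  set E := (TT p M).comap π with hE
  set V := π.ker with hV
  have hVmem : ∀ x, x ∈ V ↔ ∃ u : (𝓞 M)ˣ, Step.uI M u = x := fun x => Step.principal_eq_one_iff x
  have e1 : V.map (ambNu (Step.sU σ) p) = (Mu22.nHom σ p : (𝓞 M)ˣ →* (𝓞 M)ˣ).range.map (Step.uI M) := by
    ext x
    constructor
    · rintro ⟨y, hy, rfl⟩
      obtain ⟨u, rfl⟩ := (hVmem y).1 hy
      exact ⟨Mu22.nHom σ p u, ⟨u, rfl⟩, (Step.prod_sU_uI σ p u).symm⟩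
    · rintro ⟨_, ⟨u, rfl⟩, rfl⟩
      exact ⟨Step.uI M u, (hVmem _).2 ⟨u, rfl⟩, Step.prod_sU_uI σ p u⟩
  have e2 : V ⊓ (ambDelta (Step.sU σ)).ker =
      (Mu22.dHom σ : (𝓞 M)ˣ →* (𝓞 M)ˣ).ker.map (Step.uI M) := by
    ext x
    rw [Subgroup.mem_inf, hVmem, ambDelta_mem_ker]
    constructor
    · rintro ⟨⟨u, rfl⟩, h⟩
      refine ⟨u, ?_, rfl⟩
      rw [Step.sU_uI] at h
      change (σ • u) / u = 1
      rw [div_eq_one]
      exact hinj h
    · rintro ⟨u, hu, rfl⟩
      refine ⟨⟨u, rfl⟩, ?_⟩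
      rw [Step.sU_uI]
      have h1 : (σ • u) / u = 1 := hu
      rw [div_eq_one.1 h1]
  have e3 : V.map (ambDelta (Step.sU σ)) =
      (Mu22.dHom σ : (𝓞 M)ˣ →* (𝓞 M)ˣ).range.map (Step.uI M) := by
    ext x
    constructor
    · rintro ⟨y, hy, rfl⟩
      obtain ⟨u, rfl⟩ := (hVmem y).1 hy
      exact ⟨Mu22.dHom σ u, ⟨u, rfl⟩, by rw [Mu22.dHom_apply, map_div, ambDelta_apply,
        Step.sU_uI]⟩
    · rintro ⟨_, ⟨u, rfl⟩, rfl⟩
      exact ⟨Step.uI M u, (hVmem _).2 ⟨u, rfl⟩, by rw [Mu22.dHom_apply, map_div, ambDelta_apply,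
        Step.sU_uI]⟩
  have e4 : V ⊓ (ambNu (Step.sU σ) p).ker =
      (Mu22.nHom σ p : (𝓞 M)ˣ →* (𝓞 M)ˣ).ker.map (Step.uI M) := by
    ext x
    rw [Subgroup.mem_inf, hVmem, MonoidHom.mem_ker]
    constructor
    · rintro ⟨⟨u, rfl⟩, h⟩
      refine ⟨u, ?_, rfl⟩
      rw [ambNu_apply, Step.prod_sU_uI, ← map_one (Step.uI M)] at h
      exact hinj h
    · rintro ⟨u, hu, rfl⟩
      refine ⟨⟨u, rfl⟩, ?_⟩
      rw [ambNu_apply, Step.prod_sU_uI, show Mu22.nHom σ p u = 1 from hu, map_one]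
  have hgen := relIndex_pow_closure hp (vU '' pv p M) ((pv_finite hp).image _)
  have hS : (vU '' pv p M).ncard ≤ r + 1 := (Set.ncard_image_le (pv_finite hp)).trans hcard
  rw [← index_pcl]
  refine s_step hp (r + 1) π (Step.sU σ) (Step.fU σ) (fun x => Step.principal_sU σ x) hsp hfp
    (h90_units hd σ hσ) (TT p M) (fun t ht => fU_TT σ (hfix σ) t ht)
    (fun t _ h => frac_tf hp t h) E V rfl rfl (by rw [e1, e2, hmap]; exact u1)
    (by rw [e3, e4, hmap]; exact u2) (by rw [e1, e2, e3, e4, hmap, hmap]; exact u3)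
    ?_ hgen.1 (hgen.2.trans (Nat.pow_le_pow_right hp.pos hS)) (pcl p K).index hK ?_ ?_ ?_
  · intro h
    exact range_index (M := M) (Nat.eq_zero_of_zero_dvd
      (h ▸ Subgroup.relIndex_dvd_index_of_normal π.range (TT p M)))
  · intro x hx
    have hx' : ∀ g : Gal(M/K), Step.fU g x = x := by
      intro g
      obtain ⟨n, rfl⟩ := hpow g
      rw [← Step.fU_pow]
      induction n with
      | zero => rw [pow_zero]; rfl
      | succ n ih =>
        rw [pow_succ]
        change (Step.fU σ ^ n) (Step.fU σ x) = x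
        rw [hx, ih]
    obtain ⟨y, t, ht, h⟩ := inv_pow hp hd hun hfix x hx'
    refine ⟨_, t, ht, ?_, h⟩
    apply Units.ext
    rw [Step.sU_coe]
    exact AlgEquiv.commutes σ _
  · -- the norm condition
    by_cases h0 : (ambNu (Step.sU σ) p).range.relIndex (E ⊓ (ambDelta (Step.sU σ)).ker) = 0
    · exact Or.inl h0
    refine Or.inr ?_
    rw [pow_succ']
    refine Nat.mul_le_mul_left p ?_
    have hxE : ∀ j, Units.map (algebraMap K M : K →* M) (a j) ∈
        E ⊓ (ambDelta (Step.sU σ)).ker := by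
      intro j
      refine Subgroup.mem_inf.2 ⟨?_, ?_⟩
      · have h4 : π (Units.map (algebraMap K M : K →* M) (a j)) =
            Inv.extU K M (toPrincipalIdeal (𝓞 K) K (a j)) := by
          apply Units.ext
          rw [hπ, coe_toPrincipalIdeal, Inv.extU_coe, coe_toPrincipalIdeal, Inv.ext_span]
          rfl
        change π (Units.map (algebraMap K M : K →* M) (a j)) ∈ TT p M
        rw [h4]
        exact ext_TT _ (ha j)
      · rw [ambDelta_mem_ker]
        apply Units.ext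
        rw [Step.sU_coe]
        exact AlgEquiv.commutes σ _
    refine pow_le_relIndex hp _ _ (fun j => Units.map (algebraMap K M : K →* M) (a j)) hxE ?_ ?_ h0
    · intro j
      exact ⟨_, ambNu_fixed (Step.sU σ) _ (ambDelta_mem_ker.1 (Subgroup.mem_inf.1 (hxE j)).2)⟩
    · rintro e ⟨z, hz⟩
      apply hna e
      refine ⟨(z : M), ?_⟩
      have h5 := norm_eq_ambNu hd σ hσ z
      rw [hz] at h5
      apply FaithfulSMul.algebraMap_injective K M
      rw [← h5, map_prod, Units.coe_prod]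
      refine Finset.prod_congr rfl fun j _ => ?_
      rw [map_pow, Units.val_pow_eq_pow_val]
      rfl
  · rw [index_pcl]
    have : (pcl p M).index ∣ Nat.card (ClassGroup (𝓞 M)) := Subgroup.index_dvd_card _
    intro h
    rw [h] at this
    exact Nat.card_pos.ne' (Nat.eq_zero_of_zero_dvd this)

/-- **one step**: at most two primes above `p`, all nonsplit, a `p`-unit that is no norm -/
theorem split_step {p : ℕ} (hp : p.Prime) (hodd : Odd p) (hd : finrank K M = p)
    (hun : Mu22.UnramOutside p K M)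
    (hfix : ∀ g : Gal(M/K), ∀ v ∈ pv p M, g • v.asIdeal = v.asIdeal)
    (hcard : (pv p M).ncard ≤ 2)
    (hK : ¬ p ∣ (pcl p K).index)
    (a : Kˣ) (ha : toPrincipalIdeal (𝓞 K) K a ∈ TT p K) (hna : ∀ z : M, Algebra.norm K z ≠ a) :
    ¬ p ∣ (pcl p M).index := by
  refine split_step_r (r := 1) hp hodd hd hun hfix hcard hK (fun _ => a) (fun _ => ha) ?_
  rintro e ⟨z, hz⟩ j
  rw [Fin.prod_univ_one] at hz
  have hj : j = 0 := Subsingleton.elim _ _
  subst hj
  by_contra hdvd
  -- a Bezout combination of `a ^ e` and `a ^ p`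
  have hcop : Nat.Coprime (e 0) p := ((Nat.Prime.coprime_iff_not_dvd hp).2 hdvd).symm
  obtain ⟨m, hm⟩ := Nat.exists_mul_mod_eq_one_of_coprime hcop hp.one_lt
  have h1 : (e 0 * m : ℕ) = p * (e 0 * m / p) + 1 := by
    have := Nat.div_add_mod (e 0 * m) p
    omega
  obtain ⟨q, hq⟩ : ∃ q, e 0 * m = p * q + 1 := ⟨_, h1⟩
  have ha0 : (a : K) ≠ 0 := a.ne_zero
  apply hna (z ^ m * algebraMap K M (((a : K) ^ q)⁻¹))
  rw [map_mul, map_pow, hz, Algebra.norm_algebraMap, hd, ← pow_mul, hq, _root_.inv_pow, ← pow_mul,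
    pow_succ, mul_comm q p]
  field_simp

end Ext

end Pool.Agent.Work.MuS
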