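import Pool.Agent.Work.MP_a4986b_nt.ICount

set_option autoImplicit false
set_option maxHeartbeats 400000

/-! # Split primes, part C: the local norm condition, elementary form -/

namespace Pool.Agent.Work.MuS

open NumberField Module UniqueFactorizationMonoid
open scoped nonZeroDivisors
open Pool.Agent.Work.MuI

section RootsOfUnity

variable {N : Type*} [Field N] [NumberField N] {p : ℕ}

/-- norms of primes not above `p` in a field containing the `p ^ k`-th roots of unity -/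
theorem absNorm_prime_mod (hp : p.Prime) (k : ℕ) (z : N) (hz : IsPrimitiveRoot z (p ^ k))
    (Q : Ideal (𝓞 N)) (hQ : Q.IsPrime) (hQ0 : Q ≠ ⊥) (hpQ : (p : 𝓞 N) ∉ Q) :
    Ideal.absNorm Q ≡ 1 [MOD p ^ k] := by
  have hk0 : NeZero (p ^ k) := ⟨pow_ne_zero _ hp.ne_zero⟩
  set w : 𝓞 N := hz.toInteger with hw
  have hwp : IsPrimitiveRoot w (p ^ k) := hz.toInteger_isPrimitiveRoot
  have hne1 : Ideal.absNorm Q ≠ 1 := by
    intro h
    rw [Ideal.absNorm_eq_one_iff] at h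
    exact hQ.ne_top h
  have hcop : (Ideal.absNorm Q).Coprime (p ^ k) := by
    apply Nat.Coprime.pow_right
    rw [Nat.coprime_comm, Nat.Prime.coprime_iff_not_dvd hp]
    intro hdvd
    -- the norm is a power of a prime `l ∈ Q`
    have h1 : (p : 𝓞 N) ∈ Q := by
      have h2 : ∃ l : ℕ, l.Prime ∧ (l : 𝓞 N) ∈ Q := by
        have key : ∀ n : ℕ, n ≠ 0 → (n : 𝓞 N) ∈ Q → ∃ l : ℕ, l.Prime ∧ (l : 𝓞 N) ∈ Q := by
          intro n
          induction n using Nat.strong_induction_on with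
          | _ n ih =>
            intro hn hmem
            have h1 : n ≠ 1 := by
              rintro rfl
              exact hQ.ne_top ((Ideal.eq_top_iff_one Q).2 (by simpa using hmem))
            have hp := Nat.minFac_prime h1
            obtain ⟨m, hm⟩ := Nat.minFac_dvd n
            have hmem' : ((n.minFac : ℕ) : 𝓞 N) * (m : 𝓞 N) ∈ Q := by
              rw [← Nat.cast_mul, ← hm]
              exact hmem
            rcases hQ.mem_or_mem hmem' with h | h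
            · exact ⟨_, hp, h⟩
            · have hm0 : m ≠ 0 := by
                rintro rfl
                exact hn (by rw [hm, mul_zero])
              refine ih m ?_ hm0 h
              conv_rhs => rw [hm]
              have := hp.two_le
              nlinarith [Nat.pos_of_ne_zero hm0]
        refine key (Ideal.absNorm Q) ?_ (Ideal.absNorm_mem Q)
        rwa [Ne, Ideal.absNorm_eq_zero_iff]
      obtain ⟨l, hl, hlQ⟩ := h2
      obtain ⟨f, hf, hQf⟩ := exists_norm_eq l hl Q hQ hlQ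
      rw [hQf] at hdvd
      have h3 := (Nat.prime_dvd_prime_iff_eq hp hl).1 (hp.dvd_of_dvd_pow hdvd)
      rw [h3]; exact hlQ
    exact hpQ h1
  have hprim := hwp.idealQuotient_mk hne1 hcop
  have hmax : Q.IsMaximal := hQ.isMaximal hQ0
  classical
  let := Ideal.Quotient.field Q
  have hfin : Finite (𝓞 N ⧸ Q) := Ideal.finiteQuotientOfFreeOfNeBot Q hQ0
  let := Fintype.ofFinite (𝓞 N ⧸ Q)
  have hcard : Fintype.card (𝓞 N ⧸ Q) = Ideal.absNorm Q := by
    rw [Ideal.absNorm_apply, Submodule.cardQuot_apply, Nat.card_eq_fintype_card]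
  have hu : IsUnit (Ideal.Quotient.mk Q w) := hprim.isUnit (pow_ne_zero _ hp.ne_zero)
  obtain ⟨u, hu⟩ := hu
  rw [← hu, IsPrimitiveRoot.coe_units_iff] at hprim
  have hd : p ^ k ∣ Ideal.absNorm Q - 1 := by
    rw [← hcard, ← Fintype.card_units, hprim.eq_orderOf]
    exact orderOf_dvd_card
  have h1 : 1 ≤ Ideal.absNorm Q := by
    rw [← hcard]; exact Fintype.card_pos
  exact ((Nat.modEq_iff_dvd' h1).2 hd).symm

/-- norms of ideals in a field containing the `p ^ k`-th roots of unity -/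
theorem absNorm_mod (hp : p.Prime) (k : ℕ) (z : N) (hz : IsPrimitiveRoot z (p ^ k))
    (I : Ideal (𝓞 N)) (hI : I ≠ ⊥) :
    ∃ a r : ℕ, Ideal.absNorm I = p ^ a * r ∧ r ≡ 1 [MOD p ^ k] := by
  induction I using UniqueFactorizationMonoid.induction_on_prime with
  | h₁ => exact absurd rfl hI
  | h₂ J hJ =>
    refine ⟨0, 1, ?_, rfl⟩
    rw [Ideal.isUnit_iff.mp hJ, Ideal.absNorm_top, pow_zero, one_mul]
  | h₃ J q hJ0 hq ih =>
    obtain ⟨a, r, h1, h2⟩ := ih hJ0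
    have hqp : q.IsPrime := Ideal.isPrime_of_prime hq
    have h3 : Ideal.absNorm (q * J) = Ideal.absNorm q * Ideal.absNorm J := map_mul _ _ _
    by_cases hpq : (p : 𝓞 N) ∈ q
    · obtain ⟨f, hf, hqf⟩ := exists_norm_eq p hp q hqp hpq
      refine ⟨f + a, r, ?_, h2⟩
      rw [h3, h1, hqf, pow_add, mul_assoc]
    · refine ⟨a, Ideal.absNorm q * r, ?_, ?_⟩
      · rw [h3, h1]; ring
      · exact (absNorm_prime_mod hp k z hz q hqp hq.ne_zero hpq).mul h2

theorem norm_mod (hp : p.Prime) (k : ℕ) (z : N) (hz : IsPrimitiveRoot z (p ^ k))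
    (x : 𝓞 N) (hx : x ≠ 0) :
    ∃ a r : ℕ, (Algebra.norm ℤ x).natAbs = p ^ a * r ∧ r ≡ 1 [MOD p ^ k] := by
  rw [← Ideal.absNorm_span_singleton]
  exact absNorm_mod hp k z hz _ (by simpa using hx)

end RootsOfUnity

section Norms

/-- an embedding on integers, with values in the algebraic integers -/
noncomputable def eR {F : Type*} [Field F] (τ : F →+* ℂ) : 𝓞 F →+* ↥(integralClosure ℤ ℂ) :=
  (τ.comp (algebraMap (𝓞 F) F)).codRestrict (integralClosure ℤ ℂ)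
    (fun x => map_isIntegral_int τ x.2)

theorem eR_coe {F : Type*} [Field F] (τ : F →+* ℂ) (x : 𝓞 F) :
    ((eR τ x : ↥(integralClosure ℤ ℂ)) : ℂ) = τ (x : F) := rfl

theorem dvd_of_eR {F : Type*} [Field F] (τ : F →+* ℂ) (a b : 𝓞 F)
    (h : eR τ a ∣ eR τ b) : a ∣ b := by
  obtain ⟨r, hr⟩ := h
  have hr' : τ (b : F) = τ (a : F) * (r : ℂ) := congrArg Subtype.val hr
  by_cases ha : a = 0
  · rw [ha] at hr' ⊢
    have h1 : τ (b : F) = 0 := by
      rw [hr', show ((0 : 𝓞 F) : F) = 0 from map_zero (algebraMap (𝓞 F) F), map_zero, zero_mul]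
    rw [map_eq_zero] at h1
    have h2 : b = 0 := RingOfIntegers.coe_eq_zero_iff.1 h1
    rw [h2]
  · have ha' : (a : F) ≠ 0 := fun h => ha (RingOfIntegers.coe_eq_zero_iff.1 h)
    have h1 : τ ((b : F) / (a : F)) = (r : ℂ) := by
      rw [map_div₀, hr', mul_div_cancel_left₀]
      rwa [Ne, map_eq_zero]
    have h2 : IsIntegral ℤ ((b : F) / (a : F)) := by
      have h3 : IsIntegral ℤ (τ ((b : F) / (a : F))) := by
        rw [h1]; exact r.2
      exact (isIntegral_algHom_iff (τ.toIntAlgHom) τ.injective).1 h3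
    refine ⟨⟨(b : F) / (a : F), h2⟩, ?_⟩
    apply RingOfIntegers.ext
    change (b : F) = (a : F) * ((b : F) / (a : F))
    rw [mul_div_cancel₀ _ ha']

variable {k F : Type*} [Field k] [NumberField k] [Field F] [NumberField F] [Algebra k F]

theorem eR_norm [Algebra k ℂ] (x : 𝓞 F) :
    eR (algebraMap k ℂ) (RingOfIntegers.norm k x) = ∏ τ : F →ₐ[k] ℂ, eR (τ : F →+* ℂ) x := by
  apply Subtype.ext
  rw [eR_coe, RingOfIntegers.coe_norm, Algebra.norm_eq_prod_embeddings k ℂ]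
  rw [SubmonoidClass.coe_finsetProd]
  rfl

theorem eR_algebraMap [Algebra k ℂ] (τ : F →ₐ[k] ℂ) (b : 𝓞 k) :
    eR (τ : F →+* ℂ) (algebraMap (𝓞 k) (𝓞 F) b) = eR (algebraMap k ℂ) b := by
  apply Subtype.ext
  rw [eR_coe, eR_coe]
  exact τ.commutes b

/-- congruences pass to the norms -/
theorem norm_congr (d : 𝓞 k) (x y : 𝓞 F) (h : algebraMap (𝓞 k) (𝓞 F) d ∣ x - y) :
    d ∣ RingOfIntegers.norm k x - RingOfIntegers.norm k y := by
  obtain ⟨φ⟩ : Nonempty (k →+* ℂ) := inferInstance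
  let _ : Algebra k ℂ := φ.toAlgebra
  apply dvd_of_eR (algebraMap k ℂ)
  rw [map_sub, eR_norm, eR_norm]
  rw [← Ideal.mem_span_singleton, ← Ideal.Quotient.eq, map_prod, map_prod]
  refine Finset.prod_congr rfl fun τ _ => ?_
  rw [Ideal.Quotient.eq, Ideal.mem_span_singleton, ← map_sub, ← eR_algebraMap τ d]
  exact map_dvd _ h

/-- the norm of an element given modulo a degree one prime and its complement -/
theorem norm_crt (α β y : 𝓞 F) (b : 𝓞 k) (K : ℕ)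
    (hαβ : β * α = algebraMap (𝓞 k) (𝓞 F) (RingOfIntegers.norm k α)) (hα0 : α ≠ 0)
    (hcop : IsCoprime α β) (h1 : α ^ K ∣ y - algebraMap (𝓞 k) (𝓞 F) b) (h2 : β ^ K ∣ y - 1) :
    (RingOfIntegers.norm k α) ^ K ∣ RingOfIntegers.norm k y - b := by
  classical
  obtain ⟨φ⟩ : Nonempty (k →+* ℂ) := inferInstance
  let _ : Algebra k ℂ := φ.toAlgebra
  apply dvd_of_eR (algebraMap k ℂ)
  rw [map_sub, map_pow, eR_norm, eR_norm]
  set R := ↥(integralClosure ℤ ℂ) with hR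
  have hne : ∀ τ : F →ₐ[k] ℂ, eR (τ : F →+* ℂ) α ≠ 0 := by
    intro τ h
    have h3 : (τ : F →+* ℂ) (α : F) = 0 := congrArg Subtype.val h
    rw [map_eq_zero] at h3
    exact hα0 (RingOfIntegers.coe_eq_zero_iff.1 h3)
  -- the complement
  have hβ : ∀ τ : F →ₐ[k] ℂ, eR (τ : F →+* ℂ) β =
      ∏ ρ ∈ Finset.univ.erase τ, eR (ρ : F →+* ℂ) α := by
    intro τ
    have h3 := congrArg (eR (τ : F →+* ℂ)) hαβ
    rw [map_mul, eR_algebraMap, eR_norm, ← Finset.mul_prod_erase Finset.univ _ (Finset.mem_univ τ),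
      mul_comm] at h3
    exact mul_left_cancel₀ (hne τ) h3
  have hdvd : ∀ τ ρ : F →ₐ[k] ℂ, ρ ≠ τ → eR (ρ : F →+* ℂ) α ∣ eR (τ : F →+* ℂ) β := by
    intro τ ρ h
    rw [hβ τ]
    exact Finset.dvd_prod_of_mem _ (Finset.mem_erase.2 ⟨h, Finset.mem_univ _⟩)
  have hpc : ∀ τ ρ : F →ₐ[k] ℂ, ρ ≠ τ → IsCoprime (eR (τ : F →+* ℂ) α) (eR (ρ : F →+* ℂ) α) := by
    intro τ ρ h
    have h3 : IsCoprime (eR (τ : F →+* ℂ) α) (eR (τ : F →+* ℂ) β) := hcop.map _
    exact h3.of_isCoprime_of_dvd_right (hdvd τ ρ h)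
  rw [← Finset.prod_pow]
  apply Finset.prod_dvd_of_coprime
  · intro τ _ ρ _ h
    exact (hpc τ ρ (Ne.symm h)).pow
  · intro ρ _
    rw [← Ideal.mem_span_singleton, ← Ideal.Quotient.eq, map_prod,
      ← Finset.mul_prod_erase Finset.univ _ (Finset.mem_univ ρ)]
    have h4 : Ideal.Quotient.mk (Ideal.span {eR (ρ : F →+* ℂ) α ^ K}) (eR (ρ : F →+* ℂ) y) =
        Ideal.Quotient.mk (Ideal.span {eR (ρ : F →+* ℂ) α ^ K}) (eR (algebraMap k ℂ) b) := by
      rw [Ideal.Quotient.eq, Ideal.mem_span_singleton, ← eR_algebraMap ρ b, ← map_sub, ← map_pow]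
      exact map_dvd _ h1
    have h5 : ∀ τ ∈ Finset.univ.erase ρ,
        Ideal.Quotient.mk (Ideal.span {eR (ρ : F →+* ℂ) α ^ K}) (eR (τ : F →+* ℂ) y) = 1 := by
      intro τ hτ
      rw [← map_one (Ideal.Quotient.mk (Ideal.span {eR (ρ : F →+* ℂ) α ^ K})), Ideal.Quotient.eq,
        Ideal.mem_span_singleton]
      have h6 : eR (ρ : F →+* ℂ) α ^ K ∣ eR (τ : F →+* ℂ) β ^ K :=
        pow_dvd_pow_of_dvd (hdvd τ ρ (Finset.ne_of_mem_erase hτ).symm) K
      refine h6.trans ?_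
      rw [← map_pow, ← map_one (eR (τ : F →+* ℂ)), ← map_sub]
      exact map_dvd _ h2
    rw [h4, Finset.prod_congr rfl h5, Finset.prod_const_one, mul_one]

theorem intNorm_eq (x : 𝓞 k) : RingOfIntegers.norm ℚ x = algebraMap ℤ (𝓞 ℚ) (Algebra.norm ℤ x) := by
  apply RingOfIntegers.ext
  rw [RingOfIntegers.coe_norm, ← Algebra.coe_norm_int]
  simp

theorem norm_congr_int (d : ℤ) (x y : 𝓞 k) (h : (d : 𝓞 k) ∣ x - y) :
    d ∣ Algebra.norm ℤ x - Algebra.norm ℤ y := by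
  have h1 := norm_congr (k := ℚ) (algebraMap ℤ (𝓞 ℚ) d) x y (by
    rw [← IsScalarTower.algebraMap_apply ℤ (𝓞 ℚ) (𝓞 k)]
    simpa using h)
  rw [intNorm_eq, intNorm_eq, ← map_sub] at h1
  have h2 := map_dvd Rat.ringOfIntegersEquiv h1
  simpa using h2

theorem intNorm_norm (x : 𝓞 F) : Algebra.norm ℤ (RingOfIntegers.norm k x) = Algebra.norm ℤ x := by
  have h1 : RingOfIntegers.norm ℚ (RingOfIntegers.norm k x) = RingOfIntegers.norm ℚ x :=
    RingOfIntegers.norm_norm ℚ k x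
  rw [intNorm_eq, intNorm_eq] at h1
  exact FaithfulSMul.algebraMap_injective ℤ (𝓞 ℚ) h1

theorem intNorm_algebraMap (x : 𝓞 k) :
    Algebra.norm ℤ (algebraMap (𝓞 k) (𝓞 F) x) = (Algebra.norm ℤ x) ^ finrank k F := by
  rw [← intNorm_norm (k := k), RingOfIntegers.norm_algebraMap, map_pow]

section Inert

variable {p : ℕ} (α β : 𝓞 F)

/-- the residue ring at a generator of a prime of relative degree one comes from the base -/
theorem surj_one (hprime : Prime (p : 𝓞 k))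
    (hν : Associated (RingOfIntegers.norm k α) (p : 𝓞 k)) (hα0 : α ≠ 0)
    (hαβ : β * α = algebraMap (𝓞 k) (𝓞 F) (RingOfIntegers.norm k α)) (x : 𝓞 F) :
    ∃ b : 𝓞 k, α ∣ x - algebraMap (𝓞 k) (𝓞 F) b := by
  set I : Ideal (𝓞 k) := Ideal.span {(p : 𝓞 k)} with hI
  set J : Ideal (𝓞 F) := Ideal.span {α} with hJ
  have hIJ : I = J.comap (algebraMap (𝓞 k) (𝓞 F)) := by
    ext c
    rw [Ideal.mem_span_singleton, Ideal.mem_comap, Ideal.mem_span_singleton]
    constructor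
    · intro h
      have h1 : α ∣ algebraMap (𝓞 k) (𝓞 F) (RingOfIntegers.norm k α) :=
        ⟨β, by rw [← hαβ, mul_comm]⟩
      exact h1.trans (map_dvd _ (hν.dvd.trans h))
    · intro h
      have h3 := map_dvd (RingOfIntegers.norm k) h
      rw [RingOfIntegers.norm_algebraMap] at h3
      exact hprime.dvd_of_dvd_pow (hν.symm.dvd.trans h3)
  let f : 𝓞 k ⧸ I →+* 𝓞 F ⧸ J := Ideal.quotientMap J (algebraMap (𝓞 k) (𝓞 F)) hIJ.le
  have hf : Function.Injective f := Ideal.quotientMap_injective' hIJ.ge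
  have hJ0 : J ≠ ⊥ := by simpa [hJ] using hα0
  have hfin : Finite (𝓞 F ⧸ J) := Ideal.finiteQuotientOfFreeOfNeBot J hJ0
  have hcard : Nat.card (𝓞 F ⧸ J) ≤ Nat.card (𝓞 k ⧸ I) := by
    have h1 : Nat.card (𝓞 F ⧸ J) = Ideal.absNorm J := by
      rw [Ideal.absNorm_apply, Submodule.cardQuot_apply]
    have h2 : Nat.card (𝓞 k ⧸ I) = Ideal.absNorm I := by
      rw [Ideal.absNorm_apply, Submodule.cardQuot_apply]
    rw [h1, h2, hJ, hI, Ideal.absNorm_span_singleton, Ideal.absNorm_span_singleton,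
      ← intNorm_norm (k := k)]
    obtain ⟨u, hu⟩ := hν
    rw [← hu, map_mul, Int.natAbs_mul]
    have h3 : IsUnit (Algebra.norm ℤ (u : 𝓞 k)) := u.isUnit.map (Algebra.norm ℤ)
    rw [Int.isUnit_iff_natAbs_eq.1 h3, mul_one]
  have hsurj : Function.Surjective f := (hf.bijective_of_nat_card_le hcard).2
  obtain ⟨b', hb'⟩ := hsurj (Ideal.Quotient.mk J x)
  obtain ⟨b, rfl⟩ := Ideal.Quotient.mk_surjective b'
  refine ⟨b, ?_⟩
  rw [Ideal.quotientMap_mk, eq_comm, Ideal.Quotient.eq, Ideal.mem_span_singleton] at hb'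
  exact hb'

/-- if the residue ring at `α` comes from the base, then `α ∣ c` means `N α ∣ c` for `c` in the
base -/
theorem norm_dvd_of_dvd (hs : ∀ x : 𝓞 F, ∃ b : 𝓞 k, α ∣ x - algebraMap (𝓞 k) (𝓞 F) b)
    (hα0 : α ≠ 0) (hαβ : β * α = algebraMap (𝓞 k) (𝓞 F) (RingOfIntegers.norm k α))
    (c : 𝓞 k) (h : α ∣ algebraMap (𝓞 k) (𝓞 F) c) : RingOfIntegers.norm k α ∣ c := by
  set I : Ideal (𝓞 k) := Ideal.span {RingOfIntegers.norm k α} with hI
  set J : Ideal (𝓞 F) := Ideal.span {α} with hJ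
  have hIJ : I ≤ J.comap (algebraMap (𝓞 k) (𝓞 F)) := by
    rw [hI, Ideal.span_singleton_le_iff_mem, Ideal.mem_comap, Ideal.mem_span_singleton]
    exact ⟨β, by rw [← hαβ, mul_comm]⟩
  let f : 𝓞 k ⧸ I →+* 𝓞 F ⧸ J := Ideal.quotientMap J (algebraMap (𝓞 k) (𝓞 F)) hIJ
  have hsurj : Function.Surjective f := by
    intro y
    obtain ⟨x, rfl⟩ := Ideal.Quotient.mk_surjective y
    obtain ⟨b, hb⟩ := hs x
    refine ⟨Ideal.Quotient.mk I b, ?_⟩
    rw [Ideal.quotientMap_mk, eq_comm, Ideal.Quotient.eq, Ideal.mem_span_singleton]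
    exact hb
  have hI0 : I ≠ ⊥ := by
    rw [hI, Ne, Ideal.span_singleton_eq_bot]
    intro h0
    have h1 : Algebra.norm k (α : F) = 0 := by
      rw [← RingOfIntegers.coe_norm, h0]
      rfl
    rw [Algebra.norm_eq_zero_iff] at h1
    exact hα0 (RingOfIntegers.coe_eq_zero_iff.1 h1)
  have hfin : Finite (𝓞 k ⧸ I) := Ideal.finiteQuotientOfFreeOfNeBot I hI0
  have hcard : Nat.card (𝓞 k ⧸ I) ≤ Nat.card (𝓞 F ⧸ J) := by
    have h1 : Nat.card (𝓞 F ⧸ J) = Ideal.absNorm J := by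
      rw [Ideal.absNorm_apply, Submodule.cardQuot_apply]
    have h2 : Nat.card (𝓞 k ⧸ I) = Ideal.absNorm I := by
      rw [Ideal.absNorm_apply, Submodule.cardQuot_apply]
    rw [h1, h2, hJ, hI, Ideal.absNorm_span_singleton, Ideal.absNorm_span_singleton,
      ← intNorm_norm (k := k) α]
  have hinj : Function.Injective f := (hsurj.bijective_of_nat_card_le hcard).1
  have h1 : f (Ideal.Quotient.mk I c) = f 0 := by
    rw [map_zero, Ideal.quotientMap_mk, Ideal.Quotient.eq_zero_iff_mem, Ideal.mem_span_singleton]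
    exact h
  have h2 := hinj h1
  rw [Ideal.Quotient.eq_zero_iff_mem, Ideal.mem_span_singleton] at h2
  exact h2

/-- `α ^ K ∣ c` for `c` in the base means `(N α) ^ K ∣ c` -/
theorem pow_dvd_of_pow_dvd_map (hs : ∀ x : 𝓞 F, ∃ b : 𝓞 k, α ∣ x - algebraMap (𝓞 k) (𝓞 F) b)
    (hαβ : β * α = algebraMap (𝓞 k) (𝓞 F) (RingOfIntegers.norm k α)) (hα0 : α ≠ 0)
    (hcop : IsCoprime α β) (K : ℕ) (c : 𝓞 k) (h : α ^ K ∣ algebraMap (𝓞 k) (𝓞 F) c) :
    (RingOfIntegers.norm k α) ^ K ∣ c := by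
  induction K generalizing c with
  | zero => simp
  | succ K ih =>
    have h1 : α ∣ algebraMap (𝓞 k) (𝓞 F) c := (dvd_pow_self α (Nat.succ_ne_zero K)).trans h
    obtain ⟨c', rfl⟩ := norm_dvd_of_dvd α β hs hα0 hαβ c h1
    rw [map_mul, ← hαβ, pow_succ, mul_comm β α, mul_assoc, mul_comm] at h
    have h4 : α ^ K ∣ β * algebraMap (𝓞 k) (𝓞 F) c' := by
      obtain ⟨w, hw⟩ := h
      refine ⟨w, mul_left_cancel₀ hα0 ?_⟩
      rw [hw]
      ring
    have h5 : α ^ K ∣ algebraMap (𝓞 k) (𝓞 F) c' := (hcop.pow_left).dvd_of_dvd_mul_left h4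
    rw [pow_succ, mul_comm]
    exact mul_dvd_mul_left _ (ih c' h5)

theorem surj_pow (hs : ∀ x : 𝓞 F, ∃ b : 𝓞 k, α ∣ x - algebraMap (𝓞 k) (𝓞 F) b)
    (hαβ : β * α = algebraMap (𝓞 k) (𝓞 F) (RingOfIntegers.norm k α)) (hcop : IsCoprime α β)
    (K : ℕ) (x : 𝓞 F) :
    ∃ b : 𝓞 k, α ^ K ∣ x - algebraMap (𝓞 k) (𝓞 F) b := by
  induction K generalizing x with
  | zero => exact ⟨0, by simp⟩
  | succ K ih =>
    obtain ⟨b, y, hy⟩ := hs x
    obtain ⟨s, t, hst⟩ : IsCoprime (α ^ K) β := hcop.pow_left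
    obtain ⟨b', w, hw⟩ := ih (t * y)
    refine ⟨b + RingOfIntegers.norm k α * b', s * y + β * w, ?_⟩
    rw [map_add, map_mul, ← hαβ]
    have h1 : x = algebraMap (𝓞 k) (𝓞 F) b + α * y := by rw [← hy]; ring
    have h2 : t * y = algebraMap (𝓞 k) (𝓞 F) b' + α ^ K * w := by rw [← hw]; ring
    have h3 : α * y = α * ((s * α ^ K + t * β) * y) := by rw [hst, one_mul]
    rw [h1, h3]
    have h4 : α * ((s * α ^ K + t * β) * y) = s * α ^ (K + 1) * y + α * β * (t * y) := by ring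
    rw [h4, h2]
    ring

end Inert

end Norms

section Arith

variable {p : ℕ}

theorem eq_of_pow_mul {a b r R : ℕ} (hp : p.Prime) (hr : ¬ p ∣ r) (hR : ¬ p ∣ R)
    (h : p ^ a * r = p ^ b * R) : r = R := by
  rcases le_total a b with hab | hab
  · obtain ⟨c, rfl⟩ := Nat.exists_eq_add_of_le hab
    rw [pow_add, mul_assoc] at h
    have h1 := Nat.eq_of_mul_eq_mul_left (pow_pos hp.pos a) h
    rcases Nat.eq_zero_or_pos c with hc | hc
    · rw [h1, hc, pow_zero, one_mul]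
    · exact absurd (h1 ▸ (dvd_pow_self p hc.ne').mul_right R) hr
  · obtain ⟨c, rfl⟩ := Nat.exists_eq_add_of_le hab
    rw [pow_add, mul_assoc] at h
    have h1 := (Nat.eq_of_mul_eq_mul_left (pow_pos hp.pos b) h).symm
    rcases Nat.eq_zero_or_pos c with hc | hc
    · rw [h1, hc, pow_zero, one_mul]
    · exact absurd (h1 ▸ (dvd_pow_self p hc.ne').mul_right r) hR

/-- the final congruence: `x = c^(p-1)` with `x^(p^n) = 1 mod p^(n+2)` is `1 mod p^2` -/
theorem lte_final (hp : p.Prime) (hodd : Odd p) (n : ℕ) (x : ℤ) (h1 : (p : ℤ) ∣ x - 1)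
    (h2 : (p : ℤ) ^ (n + 2) ∣ x ^ (p ^ n) - 1) : (p : ℤ) ^ 2 ∣ x - 1 := by
  have hx : ¬ (p : ℤ) ∣ x := by
    intro h
    have h3 : (p : ℤ) ∣ 1 := by
      have := dvd_sub h h1
      simpa using this
    have h4 : (p : ℤ) ∣ ((1 : ℕ) : ℤ) := by simpa using h3
    exact hp.one_lt.ne' (Nat.dvd_one.1 (Int.natCast_dvd_natCast.1 h4))
  have h3 := Int.emultiplicity_pow_sub_pow hp hodd (x := x) (y := 1) h1 hx (p ^ n)
  rw [one_pow] at h3
  have h4 : emultiplicity p (p ^ n) = n := emultiplicity_pow_self_of_prime hp.prime n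
  rw [h4] at h3
  have h5 : ((n + 2 : ℕ) : ℕ∞) ≤ emultiplicity (p : ℤ) (x ^ (p ^ n) - 1) :=
    le_emultiplicity_of_pow_dvd h2
  rw [h3] at h5
  apply pow_dvd_of_le_emultiplicity
  have h6 : ((2 : ℕ) : ℕ∞) + (n : ℕ∞) ≤ emultiplicity (p : ℤ) (x - 1) + (n : ℕ∞) := by
    refine le_trans (le_of_eq ?_) h5
    push_cast
    rw [add_comm]
  exact (WithTop.add_le_add_iff_right (WithTop.coe_ne_top)).1 h6

end Arith

section Main

variable {k F K L N : Type*} [Field k] [NumberField k] [Field F] [NumberField F] [Field K]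
  [NumberField K] [Field L] [NumberField L] [Field N] [NumberField N] [Algebra k F] [Algebra F K]
  [Algebra K L] [Algebra F L] [IsScalarTower F K L] [Algebra L N] {p : ℕ}

/-- **local condition**: `γ` is not a norm from `L` to `K` -/
theorem not_norm (hp : p.Prime) (hodd : Odd p) (n : ℕ) (α β γ : 𝓞 F)
    (hs : ∀ x : 𝓞 F, ∃ b : 𝓞 k, α ∣ x - algebraMap (𝓞 k) (𝓞 F) b)
    (hν : (p : 𝓞 k) ∣ RingOfIntegers.norm k α)
    (hα0 : α ≠ 0) (hαβ : β * α = algebraMap (𝓞 k) (𝓞 F) (RingOfIntegers.norm k α))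
    (hcop : IsCoprime α β) (b0 : 𝓞 k) (hb0 : α ^ 2 ∣ γ - algebraMap (𝓞 k) (𝓞 F) b0)
    (hc0 : ¬ (p : ℤ) ∣ Algebra.norm ℤ b0)
    (hW : ¬ (p : ℤ) ^ 2 ∣ (Algebra.norm ℤ b0) ^ (p - 1) - 1)
    (hKL : finrank K L = p) (hFK : finrank F K = p ^ n) (hLN : finrank L N ∣ p - 1)
    (ζ : N) (hζ : IsPrimitiveRoot ζ (p ^ (n + 2))) (z : L) :
    Algebra.norm K z ≠ algebraMap F K (γ : F) := by
  intro hz
  have hpf : Fact p.Prime := ⟨hp⟩
  have hpi : Prime (p : ℤ) := Nat.prime_iff_prime_int.1 hp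
  -- `z = z0 / m`
  have halg : IsAlgebraic ℤ z :=
    (IsFractionRing.isAlgebraic_iff ℤ ℚ L).2 (Algebra.IsAlgebraic.isAlgebraic z)
  obtain ⟨m, hm0, hint⟩ := halg.exists_integral_multiple
  set z0 : 𝓞 L := ⟨m • z, hint⟩ with hz0
  obtain ⟨j, m', hmj, hpm'⟩ : ∃ (j : ℕ) (m' : ℤ), m = (p : ℤ) ^ j * m' ∧ ¬ (p : ℤ) ∣ m' :=
    ⟨_, ((Int.finiteMultiplicity_iff (a := (p : ℤ)) (b := m)).2
      ⟨by rw [Int.natAbs_natCast]; exact hp.ne_one, hm0⟩).exists_eq_pow_mul_and_not_dvd⟩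
  -- norms of `z0`
  have hN1 : RingOfIntegers.norm K z0 = (m : 𝓞 K) ^ p * algebraMap (𝓞 F) (𝓞 K) γ := by
    apply RingOfIntegers.ext
    rw [RingOfIntegers.coe_norm]
    have e1 : ((z0 : 𝓞 L) : L) = algebraMap K L (m : K) * z := by
      change m • z = _
      rw [map_intCast, zsmul_eq_mul]
    rw [e1, map_mul, Algebra.norm_algebraMap, hKL, hz]
    push_cast
    rfl
  have hN2 : RingOfIntegers.norm F z0 = (m : 𝓞 F) ^ (p ^ (n + 1)) * γ ^ (p ^ n) := by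
    have e1 : RingOfIntegers.norm F (RingOfIntegers.norm K z0) = RingOfIntegers.norm F z0 :=
      RingOfIntegers.norm_norm F K z0
    rw [← e1, hN1, map_mul, map_pow, RingOfIntegers.norm_algebraMap, hFK]
    have e2 : ((m : ℤ) : 𝓞 K) = algebraMap (𝓞 F) (𝓞 K) (m : 𝓞 F) := by rw [map_intCast]
    rw [e2, RingOfIntegers.norm_algebraMap, hFK, ← pow_mul, ← pow_succ]
  set D := finrank ℚ k with hD
  set J := j * p ^ (n + 1) * D with hJ
  set M := J + (n + 2) with hM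
  -- the approximation
  obtain ⟨u, v, huv⟩ : IsCoprime (α ^ M) (β ^ M) := hcop.pow
  set z' : 𝓞 L := z0 * algebraMap (𝓞 F) (𝓞 L) (v * β ^ M) + algebraMap (𝓞 F) (𝓞 L) (u * α ^ M)
    with hz'
  have hα' : algebraMap (𝓞 F) (𝓞 L) (α ^ M) ∣ z' - z0 := by
    refine ⟨algebraMap (𝓞 F) (𝓞 L) u * (1 - z0), ?_⟩
    have e1 : algebraMap (𝓞 F) (𝓞 L) (v * β ^ M) =
        1 - algebraMap (𝓞 F) (𝓞 L) u * algebraMap (𝓞 F) (𝓞 L) (α ^ M) := by
      rw [← map_one (algebraMap (𝓞 F) (𝓞 L)), ← map_mul, ← map_sub, ← huv, add_sub_cancel_left]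
    rw [hz', e1, map_mul (algebraMap (𝓞 F) (𝓞 L)) u]
    ring
  have hβ' : algebraMap (𝓞 F) (𝓞 L) (β ^ M) ∣ z' - 1 := by
    refine ⟨algebraMap (𝓞 F) (𝓞 L) v * (z0 - 1), ?_⟩
    have e1 : algebraMap (𝓞 F) (𝓞 L) (u * α ^ M) =
        1 - algebraMap (𝓞 F) (𝓞 L) v * algebraMap (𝓞 F) (𝓞 L) (β ^ M) := by
      rw [← map_one (algebraMap (𝓞 F) (𝓞 L)), ← map_mul, ← map_sub, ← huv, add_sub_cancel_right]
    rw [hz', e1, map_mul (algebraMap (𝓞 F) (𝓞 L)) v]
    ring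
  set y := RingOfIntegers.norm F z' with hy
  have hy1 := norm_congr (α ^ M) z' z0 hα'
  have hy2 := norm_congr (β ^ M) z' 1 hβ'
  rw [map_one, ← hy] at hy2
  rw [← hy] at hy1
  obtain ⟨bM, hbM⟩ := surj_pow α β hs hαβ hcop M γ
  set b : 𝓞 k := (m : 𝓞 k) ^ (p ^ (n + 1)) * bM ^ (p ^ n) with hb
  have hy3 : α ^ M ∣ y - algebraMap (𝓞 k) (𝓞 F) b := by
    have e1 : y - algebraMap (𝓞 k) (𝓞 F) b = (y - RingOfIntegers.norm F z0) +
        (m : 𝓞 F) ^ (p ^ (n + 1)) * (γ ^ (p ^ n) - (algebraMap (𝓞 k) (𝓞 F) bM) ^ (p ^ n)) := by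
      rw [hN2, hb, map_mul, map_pow, map_pow, map_intCast]
      ring
    rw [e1]
    exact dvd_add hy1 (Dvd.dvd.mul_left (hbM.trans (sub_dvd_pow_sub_pow _ _ _)) _)
  have hy4 := norm_crt α β y b M hαβ hα0 hcop hy3 hy2
  have hy5 : ((p : ℤ) ^ M : ℤ) ∣ Algebra.norm ℤ (RingOfIntegers.norm k y) - Algebra.norm ℤ b := by
    apply norm_congr_int
    push_cast
    exact (pow_dvd_pow_of_dvd hν M).trans hy4
  set c := Algebra.norm ℤ bM with hc
  have hNb : Algebra.norm ℤ b = (p : ℤ) ^ J * (m' ^ (p ^ (n + 1) * D) * c ^ (p ^ n)) := by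
    have e1 : Algebra.norm ℤ ((m : ℤ) : 𝓞 k) = m ^ D := by
      have e2 := Algebra.norm_algebraMap (R := ℤ) (S := 𝓞 k) m
      rw [RingOfIntegers.rank, ← hD] at e2
      rw [← e2]
      simp
    rw [hb, map_mul, map_pow, map_pow, e1, hmj]
    rw [hJ]
    ring
  -- the congruence of `c` and the norm of `b0`
  have hcb : (p : ℤ) ^ 2 ∣ c - Algebra.norm ℤ b0 := by
    apply norm_congr_int
    push_cast
    refine (pow_dvd_pow_of_dvd hν 2).trans ?_
    apply pow_dvd_of_pow_dvd_map α β hs hαβ hα0 hcop 2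
    have hM2 : 2 ≤ M := by omega
    have e1 : algebraMap (𝓞 k) (𝓞 F) (bM - b0) = (γ - algebraMap (𝓞 k) (𝓞 F) b0) -
        (γ - algebraMap (𝓞 k) (𝓞 F) bM) := by rw [map_sub]; ring
    rw [e1]
    exact dvd_sub hb0 ((pow_dvd_pow α hM2).trans hbM)
  have hpc : ¬ (p : ℤ) ∣ c := by
    intro h
    apply hc0
    have h1 : (p : ℤ) ∣ c - Algebra.norm ℤ b0 := (dvd_pow_self _ two_ne_zero).trans hcb
    have h2 := dvd_sub h h1
    rwa [sub_sub_cancel] at h2
  -- the norm of `z'`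
  obtain ⟨t, ht⟩ := hy5
  set R : ℤ := m' ^ (p ^ (n + 1) * D) * c ^ (p ^ n) + (p : ℤ) ^ (n + 2) * t with hR
  have hA : Algebra.norm ℤ z' = (p : ℤ) ^ J * R := by
    have e1 : Algebra.norm ℤ (RingOfIntegers.norm k y) = Algebra.norm ℤ z' := by
      rw [intNorm_norm, hy, intNorm_norm]
    have e2 : Algebra.norm ℤ z' = Algebra.norm ℤ b + (p : ℤ) ^ M * t := by
      rw [← e1, ← ht]; ring
    rw [e2, hNb, hM, pow_add, hR]
    ring
  have hpR : ¬ (p : ℤ) ∣ R := by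
    intro h
    have h1 : (p : ℤ) ∣ (p : ℤ) ^ (n + 2) * t :=
      Dvd.dvd.mul_right (dvd_pow_self _ (by omega)) _
    have h2 := (dvd_add_left h1).1 h
    rcases hpi.dvd_or_dvd h2 with h3 | h3
    · exact hpm' (hpi.dvd_of_dvd_pow h3)
    · exact hpc (hpi.dvd_of_dvd_pow h3)
  -- in the cyclotomic field
  set zN : 𝓞 N := algebraMap (𝓞 L) (𝓞 N) z' with hzN
  have hnzN : Algebra.norm ℤ zN = ((p : ℤ) ^ J * R) ^ finrank L N := by
    rw [hzN, intNorm_algebraMap, hA]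
  have hzN0 : zN ≠ 0 := by
    intro h
    rw [h] at hnzN
    have h0 : Algebra.norm ℤ (0 : 𝓞 N) = 0 := Algebra.norm_zero
    rw [h0] at hnzN
    have h1 := (pow_eq_zero_iff' .. |>.1 hnzN.symm).1
    rcases mul_eq_zero.1 h1 with h2 | h2
    · exact hpi.ne_zero (pow_eq_zero_iff' .. |>.1 h2).1
    · exact hpR (h2 ▸ dvd_zero _)
  obtain ⟨a, r, har, hr1⟩ := norm_mod hp (n + 2) ζ hζ zN hzN0
  have hpr : ¬ p ∣ r := by
    intro h
    have h1 : r ≡ 1 [MOD p] := Nat.ModEq.of_dvd (dvd_pow_self p (by omega)) hr1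
    have h2 : p ∣ 1 := (Nat.ModEq.dvd_iff h1 (dvd_refl p)).1 h
    exact hp.one_lt.ne' (Nat.dvd_one.1 h2)
  have hRr : R.natAbs ^ finrank L N = r := by
    refine eq_of_pow_mul (a := J * finrank L N) (b := a) hp ?_ hpr ?_
    · intro h
      exact hpR (Int.natCast_dvd.2 (hp.dvd_of_dvd_pow h))
    · rw [← har, hnzN, Int.natAbs_pow, Int.natAbs_mul, Int.natAbs_pow, Int.natAbs_natCast,
        mul_pow, pow_mul]
  -- `R ^ (p - 1) = 1`
  have hR1 : (p : ℤ) ^ (n + 2) ∣ R ^ (p - 1) - 1 := by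
    obtain ⟨e, he⟩ := hLN
    have h1 : R.natAbs ^ (p - 1) ≡ 1 [MOD p ^ (n + 2)] := by
      rw [he, pow_mul, hRr]
      have := hr1.pow e
      rwa [one_pow] at this
    have h2 : ((R.natAbs ^ (p - 1) : ℕ) : ℤ) = R ^ (p - 1) := by
      have hev : Even (p - 1) := Nat.Odd.sub_odd hodd odd_one
      push_cast
      rw [hev.pow_abs]
    have h3 := (Nat.modEq_iff_dvd.1 h1.symm)
    rw [← h2]
    push_cast at h3 ⊢
    exact h3
  -- Euler
  have hne : NeZero (p ^ (n + 2)) := ⟨pow_ne_zero _ hp.ne_zero⟩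
  have hcast : ∀ w : ℤ, (w : ZMod (p ^ (n + 2))) = 0 ↔ (p : ℤ) ^ (n + 2) ∣ w := by
    intro w
    rw [ZMod.intCast_zmod_eq_zero_iff_dvd]
    push_cast
    rfl
  have hm1 : ((m' : ℤ) : ZMod (p ^ (n + 2))) ^ (p ^ (n + 1) * (p - 1)) = 1 := by
    have h1 : IsUnit ((m' : ℤ) : ZMod (p ^ (n + 2))) := by
      rw [ZMod.coe_int_isUnit_iff_isCoprime]
      push_cast
      exact (((Prime.coprime_iff_not_dvd hpi).2 hpm')).pow_left
    obtain ⟨w, hw⟩ := h1
    rw [← hw, ← Units.val_pow_eq_pow_val, ← Nat.totient_prime_pow_succ hp, ZMod.pow_totient,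
      Units.val_one]
  have hfin : (p : ℤ) ^ (n + 2) ∣ (c ^ (p - 1)) ^ (p ^ n) - 1 := by
    rw [← hcast]
    have h1 := (hcast _).2 hR1
    have h2 : ((R : ℤ) : ZMod (p ^ (n + 2))) =
        (m' : ZMod (p ^ (n + 2))) ^ (p ^ (n + 1) * D) * (c : ZMod (p ^ (n + 2))) ^ (p ^ n) := by
      have h3 : (((p : ℤ) ^ (n + 2) * t : ℤ) : ZMod (p ^ (n + 2))) = 0 :=
        (hcast _).2 (dvd_mul_right _ _)
      rw [hR, Int.cast_add, h3, add_zero]
      push_cast
      rfl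
    rw [Int.cast_sub, Int.cast_pow, h2, mul_pow, ← pow_mul, mul_assoc, mul_comm D, ← mul_assoc,
      pow_mul, hm1, one_pow, one_mul] at h1
    rw [Int.cast_sub, Int.cast_pow, Int.cast_pow, ← pow_mul, mul_comm (p - 1), pow_mul]
    exact h1
  have hc1 : (p : ℤ) ∣ c ^ (p - 1) - 1 := by
    have h1 : IsCoprime c (p : ℤ) := ((Prime.coprime_iff_not_dvd hpi).2 hpc).symm
    exact (Int.modEq_iff_dvd.1 (Int.ModEq.pow_card_sub_one_eq_one hp h1).symm)
  have hc2 := lte_final hp hodd n _ hc1 hfin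
  apply hW
  have h1 : (p : ℤ) ^ 2 ∣ c ^ (p - 1) - (Algebra.norm ℤ b0) ^ (p - 1) :=
    hcb.trans (sub_dvd_pow_sub_pow _ _ _)
  have h2 := dvd_sub hc2 h1
  rwa [sub_sub_sub_cancel_left] at h2

end Main

end Pool.Agent.Work.MuS
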