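import Pool.Agent.Work.MP_a4986b_nt.SpC
import Pool.Agent.Work.MP_a4986b_nt.SpDef

set_option autoImplicit false
set_option maxHeartbeats 400000

/-! # Split primes, part Cb: local norms by approximation -/

namespace Pool.Agent.Work.MuS

open NumberField Module UniqueFactorizationMonoid
open scoped nonZeroDivisors
open Pool.Agent.Work.MuI

section Norms

variable {F : Type*} [Field F] [NumberField F] {p : ℕ}

/-- the same with arbitrarily good approximations -/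
def NormAll (p : ℕ) {F : Type*} [Field F] [NumberField F] (A B : Ideal (𝓞 F)) (γ : 𝓞 F) (V : ℕ)
    (c : ℤ) : Prop :=
  ¬ (p : ℤ) ∣ c ∧ ∀ M : ℕ, ∃ (y : 𝓞 F) (c' : ℤ), y - γ ∈ A ^ M ∧ y - 1 ∈ B ^ M ∧
    Algebra.norm ℤ y = (p : ℤ) ^ V * c' ∧ (p : ℤ) ^ 2 ∣ c' - c

variable {A B : Ideal (𝓞 F)}

theorem exists_pair (hcop : A ⊔ B = ⊤) (M : ℕ) :
    ∃ a ∈ B ^ M, ∃ b ∈ A ^ M, a + b = 1 := by
  have h1 : IsCoprime (B ^ M) (A ^ M) := ((Ideal.isCoprime_iff_sup_eq).2 (by rw [sup_comm]; exact hcop)).pow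
  have h2 := (Ideal.isCoprime_iff_sup_eq).1 h1
  rw [Ideal.eq_top_iff_one, Submodule.mem_sup] at h2
  obtain ⟨a, ha, b, hb, hab⟩ := h2
  exact ⟨a, ha, b, hb, hab⟩

/-- elements congruent modulo both parts -/
theorem norm_congr_AB (hAB : A * B = Ideal.span {(p : 𝓞 F)}) (hcop : A ⊔ B = ⊤) (M : ℕ)
    (y y' : 𝓞 F) (hA : y - y' ∈ A ^ M) (hB : y - y' ∈ B ^ M) :
    (p : ℤ) ^ M ∣ Algebra.norm ℤ y - Algebra.norm ℤ y' := by
  apply norm_congr_int
  have h1 : A ^ M ⊔ B ^ M = ⊤ :=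
    (Ideal.isCoprime_iff_sup_eq).1 (((Ideal.isCoprime_iff_sup_eq).2 hcop).pow)
  have h2 : y - y' ∈ A ^ M * B ^ M := by
    rw [Ideal.mul_eq_inf_of_coprime h1]
    exact ⟨hA, hB⟩
  rw [← mul_pow, hAB, Ideal.span_singleton_pow, Ideal.mem_span_singleton] at h2
  push_cast
  exact h2

theorem NormAt.all {γ : 𝓞 F} {c : ℤ} (hAB : A * B = Ideal.span {(p : 𝓞 F)}) (hcop : A ⊔ B = ⊤)
    (h : NormAt p A B γ c) : ∃ V, NormAll p A B γ V c := by
  obtain ⟨M0, V, y0, hM0, hA0, hB0, hN0, hc⟩ := h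
  refine ⟨V, hc, fun M => ?_⟩
  set M1 := max M M0 with hM1
  obtain ⟨a, ha, b, hb, hab⟩ := exists_pair hcop M1
  set y := γ * a + b with hy
  have hA : y - γ ∈ A ^ M1 := by
    have e1 : y - γ = b * (1 - γ) := by
      rw [hy]; linear_combination γ * hab
    rw [e1]
    exact Ideal.mul_mem_right _ _ hb
  have hB : y - 1 ∈ B ^ M1 := by
    have e1 : y - 1 = a * (γ - 1) := by
      rw [hy]; linear_combination hab
    rw [e1]
    exact Ideal.mul_mem_right _ _ ha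
  have hle : M0 ≤ M1 := le_max_right _ _
  have h1 : (p : ℤ) ^ M0 ∣ Algebra.norm ℤ y - Algebra.norm ℤ y0 := by
    apply norm_congr_AB hAB hcop
    · have e1 : y - y0 = (y - γ) - (y0 - γ) := by ring
      rw [e1]
      exact Ideal.sub_mem _ (Ideal.pow_le_pow_right hle hA) hA0
    · have e1 : y - y0 = (y - 1) - (y0 - 1) := by ring
      rw [e1]
      exact Ideal.sub_mem _ (Ideal.pow_le_pow_right hle hB) hB0
  obtain ⟨t, ht⟩ := h1
  obtain ⟨s, rfl⟩ := Nat.exists_eq_add_of_le hM0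
  refine ⟨y, c + (p : ℤ) ^ (2 + s) * t, Ideal.pow_le_pow_right (le_max_left _ _) hA,
    Ideal.pow_le_pow_right (le_max_left _ _) hB, ?_, ?_⟩
  · have e1 : Algebra.norm ℤ y = Algebra.norm ℤ y0 + (p : ℤ) ^ (V + 2 + s) * t := by
      rw [← ht]; ring
    rw [e1, hN0]
    ring
  · rw [add_sub_cancel_left, pow_add, mul_assoc]
    exact dvd_mul_right _ _

theorem NormAll.one (hp : p.Prime) : NormAll p A B 1 0 1 := by
  refine ⟨?_, fun M => ⟨1, 1, by simp, by simp, by simp, by simp⟩⟩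
  intro h
  have h4 : (p : ℤ) ∣ ((1 : ℕ) : ℤ) := by simpa using h
  exact hp.one_lt.ne' (Nat.dvd_one.1 (Int.natCast_dvd_natCast.1 h4))

theorem NormAll.mul (hp : p.Prime) {γ γ' : 𝓞 F} {V V' : ℕ} {c c' : ℤ}
    (h : NormAll p A B γ V c) (h' : NormAll p A B γ' V' c') :
    NormAll p A B (γ * γ') (V + V') (c * c') := by
  have hpi : Prime (p : ℤ) := Nat.prime_iff_prime_int.1 hp
  refine ⟨fun hd => (hpi.dvd_or_dvd hd).elim h.1 h'.1, fun M => ?_⟩
  obtain ⟨y, d, h1, h2, h3, h4⟩ := h.2 M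
  obtain ⟨y', d', h1', h2', h3', h4'⟩ := h'.2 M
  refine ⟨y * y', d * d', ?_, ?_, ?_, ?_⟩
  · have e1 : y * y' - γ * γ' = (y - γ) * y' + γ * (y' - γ') := by ring
    rw [e1]
    exact Ideal.add_mem _ (Ideal.mul_mem_right _ _ h1) (Ideal.mul_mem_left _ _ h1')
  · have e1 : y * y' - 1 = (y - 1) * y' + (y' - 1) := by ring
    rw [e1]
    exact Ideal.add_mem _ (Ideal.mul_mem_right _ _ h2) h2'
  · rw [map_mul, h3, h3']
    ring
  · have e1 : d * d' - c * c' = (d - c) * d' + c * (d' - c') := by ring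
    rw [e1]
    exact dvd_add (h4.mul_right _) (h4'.mul_left _)

theorem NormAll.pow (hp : p.Prime) {γ : 𝓞 F} {V : ℕ} {c : ℤ} (h : NormAll p A B γ V c) (e : ℕ) :
    NormAll p A B (γ ^ e) (V * e) (c ^ e) := by
  induction e with
  | zero => simpa using NormAll.one hp
  | succ e ih =>
    rw [pow_succ, pow_succ, mul_add, mul_one]
    exact ih.mul hp h

theorem NormAll.prod (hp : p.Prime) {r : ℕ} {γ : Fin r → 𝓞 F} {c : Fin r → ℤ}
    (h : ∀ j, ∃ V, NormAll p A B (γ j) V (c j)) (e : Fin r → ℕ) :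
    ∃ V, NormAll p A B (∏ j, γ j ^ e j) V (∏ j, c j ^ e j) := by
  classical
  have key : ∀ s : Finset (Fin r), ∃ V, NormAll p A B (∏ j ∈ s, γ j ^ e j) V
      (∏ j ∈ s, c j ^ e j) := by
    intro s
    induction s using Finset.induction_on with
    | empty => exact ⟨0, by simpa using NormAll.one hp⟩
    | insert j s hj ih =>
      obtain ⟨V, hV⟩ := ih
      obtain ⟨V', hV'⟩ := h j
      rw [Finset.prod_insert hj, Finset.prod_insert hj]
      exact ⟨_, (hV'.pow hp (e j)).mul hp hV⟩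
  exact key Finset.univ

/-- the local norm of a nonzero element exists -/
theorem exists_normAt (hp : p.Prime) (hAB : A * B = Ideal.span {(p : 𝓞 F)}) (hcop : A ⊔ B = ⊤)
    (γ : 𝓞 F) (hγ : γ ≠ 0) : ∃ c, NormAt p A B γ c := by
  have hpf : Fact p.Prime := ⟨hp⟩
  have hN : Algebra.norm ℤ γ ≠ 0 := by
    rwa [Ne, Algebra.norm_eq_zero_iff]
  obtain ⟨J, m', hmj, hpm'⟩ : ∃ (J : ℕ) (m' : ℤ), Algebra.norm ℤ γ = (p : ℤ) ^ J * m' ∧
      ¬ (p : ℤ) ∣ m' :=
    ⟨_, ((Int.finiteMultiplicity_iff (a := (p : ℤ)) (b := Algebra.norm ℤ γ)).2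
      ⟨by rw [Int.natAbs_natCast]; exact hp.ne_one, hN⟩).exists_eq_pow_mul_and_not_dvd⟩
  set M := J + 2 with hM
  obtain ⟨a, ha, b, hb, hab⟩ := exists_pair hcop M
  set w := γ * a + b with hw
  set w' := a + γ * b with hw'
  -- the product of `w` and `w'` is close to `γ`
  have h1 : (p : ℤ) ^ M ∣ Algebra.norm ℤ (w * w') - Algebra.norm ℤ γ := by
    have e1 : w * w' - γ = (γ - 1) ^ 2 * (a * b) := by
      rw [hw, hw']
      linear_combination γ * (a + b + 1) * hab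
    apply norm_congr_AB hAB hcop
    · rw [e1]
      exact Ideal.mul_mem_left _ _ (Ideal.mul_mem_left _ _ hb)
    · rw [e1]
      exact Ideal.mul_mem_left _ _ (Ideal.mul_mem_right _ _ ha)
  have h2 : ¬ (p : ℤ) ^ (J + 1) ∣ Algebra.norm ℤ w := by
    intro h3
    have h4 : (p : ℤ) ^ (J + 1) ∣ Algebra.norm ℤ (w * w') := by
      rw [map_mul]
      exact h3.mul_right _
    have h5 : (p : ℤ) ^ (J + 1) ∣ Algebra.norm ℤ γ := by
      have h6 := dvd_sub h4 ((pow_dvd_pow (p : ℤ) (show J + 1 ≤ M by omega)).trans h1)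
      rwa [sub_sub_cancel] at h6
    rw [hmj, pow_succ] at h5
    exact hpm' (Int.dvd_of_mul_dvd_mul_left (pow_ne_zero _ (by exact_mod_cast hp.ne_zero)) h5)
  have hw0 : Algebra.norm ℤ w ≠ 0 := by
    intro h3
    apply h2
    rw [h3]
    exact dvd_zero _
  obtain ⟨V, c, hVc, hc⟩ : ∃ (V : ℕ) (c : ℤ), Algebra.norm ℤ w = (p : ℤ) ^ V * c ∧
      ¬ (p : ℤ) ∣ c :=
    ⟨_, ((Int.finiteMultiplicity_iff (a := (p : ℤ)) (b := Algebra.norm ℤ w)).2
      ⟨by rw [Int.natAbs_natCast]; exact hp.ne_one, hw0⟩).exists_eq_pow_mul_and_not_dvd⟩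
  have hVJ : V ≤ J := by
    by_contra hlt
    apply h2
    rw [hVc]
    exact (pow_dvd_pow (p : ℤ) (by omega)).mul_right _
  refine ⟨c, M, V, w, by omega, ?_, ?_, hVc, hc⟩
  · have e1 : w - γ = b * (1 - γ) := by
      rw [hw]; linear_combination γ * hab
    rw [e1]
    exact Ideal.mul_mem_right _ _ hb
  · have e1 : w - 1 = a * (γ - 1) := by
      rw [hw]; linear_combination hab
    rw [e1]
    exact Ideal.mul_mem_right _ _ ha

end Norms

section Main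

variable {F K L N : Type*} [Field F] [NumberField F] [Field K]
  [NumberField K] [Field L] [NumberField L] [Field N] [NumberField N] [Algebra F K]
  [Algebra K L] [Algebra F L] [IsScalarTower F K L] [Algebra L N] {p : ℕ}

/-- **local condition**: if `γ` is a norm from `L` to `K` then the prime to `p` part of its local
norm at `A` is a `(p-1)`-st root of unity modulo `p²` -/
theorem norm_local (hp : p.Prime) (hodd : Odd p) (n : ℕ) (A B : Ideal (𝓞 F))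
    (hAB : A * B = Ideal.span {(p : 𝓞 F)}) (hcop : A ⊔ B = ⊤) (γ : 𝓞 F) (V : ℕ) (c : ℤ)
    (hγ : NormAll p A B γ V c)
    (hKL : finrank K L = p) (hFK : finrank F K = p ^ n) (hLN : finrank L N ∣ p - 1)
    (ζ : N) (hζ : IsPrimitiveRoot ζ (p ^ (n + 2))) (z : L)
    (hz : Algebra.norm K z = algebraMap F K (γ : F)) : (p : ℤ) ^ 2 ∣ c ^ (p - 1) - 1 := by
  have hpf : Fact p.Prime := ⟨hp⟩
  have hpi : Prime (p : ℤ) := Nat.prime_iff_prime_int.1 hp
  -- `z = z0 / m`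
  have halg : IsAlgebraic ℤ z :=
    (IsFractionRing.isAlgebraic_iff ℤ ℚ L).2 (Algebra.IsAlgebraic.isAlgebraic z)
  obtain ⟨m, hm0, hint⟩ := halg.exists_integral_multiple
  set z0 : 𝓞 L := ⟨m • z, hint⟩ with hz0
  have hmF : (m : 𝓞 F) ≠ 0 := by exact_mod_cast hm0
  obtain ⟨cm, hcm⟩ := exists_normAt hp hAB hcop (m : 𝓞 F) hmF
  obtain ⟨Vm, hm⟩ := hcm.all hAB hcop
  -- norms of `z0`
  have hN1 : RingOfIntegers.norm K z0 = (m : 𝓞 K) ^ p * algebraMap (𝓞 F) (𝓞 K) γ := by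
    apply RingOfIntegers.ext
    rw [RingOfIntegers.coe_norm]
    have e1 : ((z0 : 𝓞 L) : L) = algebraMap K L (m : K) * z := by
      change m • z = _
      rw [map_intCast, zsmul_eq_mul]
    rw [e1, map_mul, Algebra.norm_algebraMap, hKL, hz]
    push_cast
    rfl
  have hN2 : RingOfIntegers.norm F z0 = (m : 𝓞 F) ^ (p ^ (n + 1)) * γ ^ (p ^ n) := by
    have e1 : RingOfIntegers.norm F (RingOfIntegers.norm K z0) = RingOfIntegers.norm F z0 :=
      RingOfIntegers.norm_norm F K z0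
    rw [← e1, hN1, map_mul, map_pow, RingOfIntegers.norm_algebraMap, hFK]
    have e2 : ((m : ℤ) : 𝓞 K) = algebraMap (𝓞 F) (𝓞 K) (m : 𝓞 F) := by rw [map_intCast]
    rw [e2, RingOfIntegers.norm_algebraMap, hFK, ← pow_mul, ← pow_succ]
  set J := Vm * p ^ (n + 1) + V * p ^ n with hJ
  set M := J + (n + 2) with hM
  obtain ⟨ym, cm', hmA, hmB, hmN, hmc⟩ := hm.2 M
  obtain ⟨yg, cg, hgA, hgB, hgN, hgc⟩ := hγ.2 M
  have hpcm : ¬ (p : ℤ) ∣ cm' := by
    intro h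
    apply hm.1
    have h2 := dvd_sub h ((dvd_pow_self _ two_ne_zero).trans hmc)
    rwa [sub_sub_cancel] at h2
  have hpcg : ¬ (p : ℤ) ∣ cg := by
    intro h
    apply hγ.1
    have h2 := dvd_sub h ((dvd_pow_self _ two_ne_zero).trans hgc)
    rwa [sub_sub_cancel] at h2
  -- the approximation
  obtain ⟨a, ha, b, hb, hab⟩ := exists_pair hcop M
  set z' : 𝓞 L := z0 * algebraMap (𝓞 F) (𝓞 L) a + algebraMap (𝓞 F) (𝓞 L) b with hz'
  have hab' : algebraMap (𝓞 F) (𝓞 L) a + algebraMap (𝓞 F) (𝓞 L) b = 1 := by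
    rw [← map_add, hab, map_one]
  have hα' : algebraMap (𝓞 F) (𝓞 L) b ∣ z' - z0 := by
    refine ⟨1 - z0, ?_⟩
    rw [hz']
    linear_combination z0 * hab'
  have hβ' : algebraMap (𝓞 F) (𝓞 L) a ∣ z' - 1 := by
    refine ⟨z0 - 1, ?_⟩
    rw [hz']
    linear_combination hab'
  set y := RingOfIntegers.norm F z' with hy
  have hy1 := norm_congr b z' z0 hα'
  have hy2 := norm_congr a z' 1 hβ'
  rw [map_one, ← hy] at hy2
  rw [← hy, hN2] at hy1
  set y0 : 𝓞 F := ym ^ (p ^ (n + 1)) * yg ^ (p ^ n) with hy0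
  have hA : y - y0 ∈ A ^ M := by
    have e1 : y - y0 = (y - (m : 𝓞 F) ^ (p ^ (n + 1)) * γ ^ (p ^ n)) -
        (ym ^ (p ^ (n + 1)) - (m : 𝓞 F) ^ (p ^ (n + 1))) * yg ^ (p ^ n) -
        (m : 𝓞 F) ^ (p ^ (n + 1)) * (yg ^ (p ^ n) - γ ^ (p ^ n)) := by
      rw [hy0]; ring
    rw [e1]
    refine Ideal.sub_mem _ (Ideal.sub_mem _ ?_ ?_) ?_
    · exact Ideal.mem_of_dvd _ hy1 hb
    · exact Ideal.mul_mem_right _ _ (Ideal.mem_of_dvd _ (sub_dvd_pow_sub_pow _ _ _) hmA)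
    · exact Ideal.mul_mem_left _ _ (Ideal.mem_of_dvd _ (sub_dvd_pow_sub_pow _ _ _) hgA)
  have hB : y - y0 ∈ B ^ M := by
    have e1 : y - y0 = (y - 1) - (ym ^ (p ^ (n + 1)) - 1 ^ (p ^ (n + 1))) * yg ^ (p ^ n) -
        (yg ^ (p ^ n) - 1 ^ (p ^ n)) := by
      rw [hy0, one_pow, one_pow]; ring
    rw [e1]
    refine Ideal.sub_mem _ (Ideal.sub_mem _ ?_ ?_) ?_
    · exact Ideal.mem_of_dvd _ hy2 ha
    · exact Ideal.mul_mem_right _ _ (Ideal.mem_of_dvd _ (sub_dvd_pow_sub_pow _ _ _) hmB)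
    · exact Ideal.mem_of_dvd _ (sub_dvd_pow_sub_pow _ _ _) hgB
  obtain ⟨t, ht⟩ := norm_congr_AB hAB hcop M y y0 hA hB
  set R : ℤ := cm' ^ (p ^ (n + 1)) * cg ^ (p ^ n) + (p : ℤ) ^ (n + 2) * t with hR
  have hA' : Algebra.norm ℤ z' = (p : ℤ) ^ J * R := by
    have e1 : Algebra.norm ℤ y = Algebra.norm ℤ z' := by
      rw [hy, intNorm_norm]
    have e2 : Algebra.norm ℤ z' = Algebra.norm ℤ y0 + (p : ℤ) ^ M * t := by
      rw [← e1, ← ht]; ring
    rw [e2, hy0, map_mul, map_pow, map_pow, hmN, hgN, hM, pow_add, hR, hJ]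
    ring
  have hpR : ¬ (p : ℤ) ∣ R := by
    intro h
    have h1 : (p : ℤ) ∣ (p : ℤ) ^ (n + 2) * t :=
      Dvd.dvd.mul_right (dvd_pow_self _ (by omega)) _
    have h2 := (dvd_add_left h1).1 h
    rcases hpi.dvd_or_dvd h2 with h3 | h3
    · exact hpcm (hpi.dvd_of_dvd_pow h3)
    · exact hpcg (hpi.dvd_of_dvd_pow h3)
  -- in the cyclotomic field
  set zN : 𝓞 N := algebraMap (𝓞 L) (𝓞 N) z' with hzN
  have hnzN : Algebra.norm ℤ zN = ((p : ℤ) ^ J * R) ^ finrank L N := by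
    rw [hzN, intNorm_algebraMap, hA']
  have hzN0 : zN ≠ 0 := by
    intro h
    rw [h] at hnzN
    have h0 : Algebra.norm ℤ (0 : 𝓞 N) = 0 := Algebra.norm_zero
    rw [h0] at hnzN
    have h1 := (pow_eq_zero_iff' .. |>.1 hnzN.symm).1
    rcases mul_eq_zero.1 h1 with h2 | h2
    · exact hpi.ne_zero (pow_eq_zero_iff' .. |>.1 h2).1
    · exact hpR (h2 ▸ dvd_zero _)
  obtain ⟨aN, r, har, hr1⟩ := norm_mod hp (n + 2) ζ hζ zN hzN0
  have hpr : ¬ p ∣ r := by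
    intro h
    have h1 : r ≡ 1 [MOD p] := Nat.ModEq.of_dvd (dvd_pow_self p (by omega)) hr1
    have h2 : p ∣ 1 := (Nat.ModEq.dvd_iff h1 (dvd_refl p)).1 h
    exact hp.one_lt.ne' (Nat.dvd_one.1 h2)
  have hRr : R.natAbs ^ finrank L N = r := by
    refine eq_of_pow_mul (a := J * finrank L N) (b := aN) hp ?_ hpr ?_
    · intro h
      exact hpR (Int.natCast_dvd.2 (hp.dvd_of_dvd_pow h))
    · rw [← har, hnzN, Int.natAbs_pow, Int.natAbs_mul, Int.natAbs_pow, Int.natAbs_natCast,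
        mul_pow, pow_mul]
  -- `R ^ (p - 1) = 1`
  have hR1 : (p : ℤ) ^ (n + 2) ∣ R ^ (p - 1) - 1 := by
    obtain ⟨e, he⟩ := hLN
    have h1 : R.natAbs ^ (p - 1) ≡ 1 [MOD p ^ (n + 2)] := by
      rw [he, pow_mul, hRr]
      have := hr1.pow e
      rwa [one_pow] at this
    have h2 : ((R.natAbs ^ (p - 1) : ℕ) : ℤ) = R ^ (p - 1) := by
      have hev : Even (p - 1) := Nat.Odd.sub_odd hodd odd_one
      push_cast
      rw [hev.pow_abs]
    have h3 := (Nat.modEq_iff_dvd.1 h1.symm)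
    rw [← h2]
    push_cast at h3 ⊢
    exact h3
  -- Euler
  have hne : NeZero (p ^ (n + 2)) := ⟨pow_ne_zero _ hp.ne_zero⟩
  have hcast : ∀ w : ℤ, (w : ZMod (p ^ (n + 2))) = 0 ↔ (p : ℤ) ^ (n + 2) ∣ w := by
    intro w
    rw [ZMod.intCast_zmod_eq_zero_iff_dvd]
    push_cast
    rfl
  have hm1 : ((cm' : ℤ) : ZMod (p ^ (n + 2))) ^ (p ^ (n + 1) * (p - 1)) = 1 := by
    have h1 : IsUnit ((cm' : ℤ) : ZMod (p ^ (n + 2))) := by
      rw [ZMod.coe_int_isUnit_iff_isCoprime]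
      push_cast
      exact (((Prime.coprime_iff_not_dvd hpi).2 hpcm)).pow_left
    obtain ⟨w, hw⟩ := h1
    rw [← hw, ← Units.val_pow_eq_pow_val, ← Nat.totient_prime_pow_succ hp, ZMod.pow_totient,
      Units.val_one]
  have hfin : (p : ℤ) ^ (n + 2) ∣ (cg ^ (p - 1)) ^ (p ^ n) - 1 := by
    rw [← hcast]
    have h1 := (hcast _).2 hR1
    have h2 : ((R : ℤ) : ZMod (p ^ (n + 2))) =
        (cm' : ZMod (p ^ (n + 2))) ^ (p ^ (n + 1)) * (cg : ZMod (p ^ (n + 2))) ^ (p ^ n) := by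
      have h3 : (((p : ℤ) ^ (n + 2) * t : ℤ) : ZMod (p ^ (n + 2))) = 0 :=
        (hcast _).2 (dvd_mul_right _ _)
      rw [hR, Int.cast_add, h3, add_zero]
      push_cast
      rfl
    rw [Int.cast_sub, Int.cast_pow, h2, mul_pow, ← pow_mul, hm1, one_mul] at h1
    rw [Int.cast_sub, Int.cast_pow, Int.cast_pow, ← pow_mul, mul_comm (p - 1), pow_mul]
    exact h1
  have hc1 : (p : ℤ) ∣ cg ^ (p - 1) - 1 := by
    have h1 : IsCoprime cg (p : ℤ) := ((Prime.coprime_iff_not_dvd hpi).2 hpcg).symm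
    exact (Int.modEq_iff_dvd.1 (Int.ModEq.pow_card_sub_one_eq_one hp h1).symm)
  have hc2 := lte_final hp hodd n _ hc1 hfin
  have h1 : (p : ℤ) ^ 2 ∣ cg ^ (p - 1) - c ^ (p - 1) := hgc.trans (sub_dvd_pow_sub_pow _ _ _)
  have h2 := dvd_sub hc2 h1
  rwa [sub_sub_sub_cancel_left] at h2

end Main

end Pool.Agent.Work.MuS
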