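import Pool.Agent.Work.MP_a4986b_nt.SpB
import Pool.Agent.Work.MP_a4986b_nt.SpCb
import Pool.Agent.Work.MP_a4986b_nt.IRam
import Pool.Agent.Work.MP_a4986b_nt.ILayer

set_option autoImplicit false
set_option maxHeartbeats 400000

/-! # Split primes, part D: the cyclotomic tower -/

namespace Pool.Agent.Work.MuS

open NumberField Module UniqueFactorizationMonoid IsDedekindDomain
open scoped nonZeroDivisors Pointwise
open Pool.Agent.Work.MuI

section Ram

variable {N : Type*} [Field N] [NumberField N] {p : ℕ}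

theorem liesOver_p (hp : p.Prime) (Q : Ideal (𝓞 N)) (hQ : Q.IsPrime) (hpQ : (p : 𝓞 N) ∈ Q) :
    Q.LiesOver (Ideal.span {(p : ℤ)}) := by
  have h1 : (Ideal.span {(p : ℤ)}).IsMaximal := by
    have h2 : (Ideal.span {(p : ℤ)}).IsPrime := by
      rw [Ideal.span_singleton_prime (by exact_mod_cast hp.ne_zero)]
      exact Nat.prime_iff_prime_int.1 hp
    exact h2.isMaximal (by simpa using hp.ne_zero)
  refine ⟨h1.eq_of_le (Ideal.IsPrime.under ℤ Q).ne_top ?_⟩
  rw [Ideal.span_singleton_le_iff_mem, Ideal.under_def, Ideal.mem_comap]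
  simpa using hpQ

theorem ram_eq_count (hp : p.Prime) (Q : Ideal (𝓞 N)) (hQ : Q.IsPrime) (hpQ : (p : 𝓞 N) ∈ Q) :
    Q.ramificationIdx ℤ = (normalizedFactors (Ideal.span {(p : 𝓞 N)})).count Q := by
  have := liesOver_p hp Q hQ hpQ
  have h1 : (Ideal.span {(p : ℤ)}).map (algebraMap ℤ (𝓞 N)) = Ideal.span {(p : 𝓞 N)} := by
    rw [Ideal.map_span, Set.image_singleton]
    simp
  rw [← h1]
  apply Ideal.IsDedekindDomain.ramificationIdx_eq_normalizedFactors_count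
  rw [h1, Ne, Ideal.span_singleton_eq_bot]
  exact_mod_cast hp.ne_zero

/-- ramification above `p` in a field with the `p ^ (k + 1)`-th roots of unity -/
theorem ram_dvd (hp : p.Prime) (k : ℕ) (z : N) (hz : IsPrimitiveRoot z (p ^ (k + 1)))
    (Q : Ideal (𝓞 N)) (hQ : Q.IsPrime) (hpQ : (p : 𝓞 N) ∈ Q) :
    p ^ k ∣ Q.ramificationIdx ℤ := by
  have hpf : Fact p.Prime := ⟨hp⟩
  have hk0 : NeZero (p ^ (k + 1)) := ⟨pow_ne_zero _ hp.ne_zero⟩
  set w : 𝓞 N := hz.toInteger with hw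
  have hwp : IsPrimitiveRoot w (p ^ (k + 1)) := hz.toInteger_isPrimitiveRoot
  have hcyc : (p : 𝓞 N) = ∏ μ ∈ primitiveRoots (p ^ (k + 1)) (𝓞 N), (1 - μ) := by
    have h1 := Polynomial.eval_one_cyclotomic_prime_pow (R := 𝓞 N) (p := p) k
    rw [Polynomial.cyclotomic_eq_prod_X_sub_primitiveRoots hwp, Polynomial.eval_prod] at h1
    rw [← h1]
    apply Finset.prod_congr rfl
    intro μ _
    simp
  have hdiv1 : ∀ μ ∈ primitiveRoots (p ^ (k + 1)) (𝓞 N), (1 - w) ∣ (1 - μ) := by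
    intro μ hμ
    rw [mem_primitiveRoots (NeZero.pos _)] at hμ
    obtain ⟨i, _, hi⟩ := hwp.eq_pow_of_pow_eq_one hμ.pow_eq_one
    rw [← hi]
    exact one_sub_dvd_one_sub_pow w i
  have hdiv2 : ∀ μ ∈ primitiveRoots (p ^ (k + 1)) (𝓞 N), (1 - μ) ∣ (1 - w) := by
    intro μ hμ
    rw [mem_primitiveRoots (NeZero.pos _)] at hμ
    obtain ⟨i, _, hi⟩ := hμ.eq_pow_of_pow_eq_one hwp.pow_eq_one
    rw [← hi]
    exact one_sub_dvd_one_sub_pow μ i
  have hspan : Ideal.span {(p : 𝓞 N)} = Ideal.span {1 - w} ^ (p ^ k * (p - 1)) := by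
    rw [Ideal.span_singleton_pow, Ideal.span_singleton_eq_span_singleton, hcyc,
      ← Nat.totient_prime_pow_succ hp, ← hwp.card_primitiveRoots, ← Finset.prod_const]
    exact Associated.prod _ _ _ fun μ hμ =>
      associated_of_dvd_dvd (hdiv2 μ hμ) (hdiv1 μ hμ)
  rw [ram_eq_count hp Q hQ hpQ, hspan, normalizedFactors_pow, Multiset.count_nsmul, mul_assoc]
  exact dvd_mul_right _ _

theorem ram_le (hp : p.Prime) (Q : Ideal (𝓞 N)) (hQ : Q.IsPrime) (hpQ : (p : 𝓞 N) ∈ Q) :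
    Q.ramificationIdx ℤ ≤ finrank ℚ N := by
  have h0 : Ideal.span {(p : 𝓞 N)} ≠ ⊥ := by
    rw [Ne, Ideal.span_singleton_eq_bot]
    exact_mod_cast hp.ne_zero
  have h1 : Q ^ (Q.ramificationIdx ℤ) ∣ Ideal.span {(p : 𝓞 N)} := by
    rw [ram_eq_count hp Q hQ hpQ]
    have hQ0 : Q ≠ ⊥ := by
      rintro rfl
      exact hp.ne_zero (by exact_mod_cast (Ideal.mem_bot.1 hpQ))
    have hir : Irreducible Q := (Ideal.prime_of_isPrime hQ0 hQ).irreducible
    rw [pow_dvd_iff_le_emultiplicity, emultiplicity_eq_count_normalizedFactors hir h0,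
      normalize_eq]
  have h2 := map_dvd (Ideal.absNorm (S := 𝓞 N)) h1
  obtain ⟨f, hf, hQf⟩ := exists_norm_eq p hp Q hQ hpQ
  rw [map_pow, hQf, Ideal.absNorm_span_natCast, RingOfIntegers.rank, ← pow_mul] at h2
  have h3 := (Nat.pow_dvd_pow_iff_le_right hp.one_lt).1 h2
  exact (Nat.le_mul_of_pos_left _ (Nat.pos_of_ne_zero hf)).trans h3

end Ram

section Unique

variable {F L N : Type*} [Field F] [NumberField F] [Field L] [NumberField L] [Field N]
  [NumberField N] [Algebra F L] [Algebra L N] {p : ℕ}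

theorem ram_dvd_finrank [IsGalois F L] (Q : Ideal (𝓞 L)) (hQ : Q.IsPrime) (hQ0 : Q ≠ ⊥) :
    ((Q.under (𝓞 F)).primesOver (𝓞 L)).ncard * (Q.ramificationIdx (𝓞 F)) ∣ finrank F L := by
  have hqp : (Q.under (𝓞 F)).IsPrime := Ideal.IsPrime.under (𝓞 F) Q
  have hef := Ideal.ncard_primesOver_mul_ramificationIdxIn_mul_inertiaDegIn (Q.under (𝓞 F)) (𝓞 L)
    Gal(L/F)
  rw [Ideal.ramificationIdxIn_eq_ramificationIdx (Q.under (𝓞 F)) Q Gal(L/F),
    IsGaloisGroup.card_eq_finrank Gal(L/F) F L] at hef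
  rw [← hef, ← mul_assoc]
  exact dvd_mul_right _ _

/-- at most one prime of a layer above a prime above `p` of the base -/
theorem unique_prime [IsGalois F L] [IsGalois L N] (hp : p.Prime) (n : ℕ)
    (hF : finrank ℚ F < p) (hFL : finrank F L = p ^ n) (hLN : finrank L N ∣ p - 1)
    (ζ : N) (hζ : IsPrimitiveRoot ζ (p ^ (n + 1))) (Q1 Q2 : Ideal (𝓞 L)) (h1 : Q1.IsPrime)
    (h2 : Q2.IsPrime) (hp1 : (p : 𝓞 L) ∈ Q1)
    (h : Q1.under (𝓞 F) = Q2.under (𝓞 F)) : Q1 = Q2 := by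
  have hQ10 : Q1 ≠ ⊥ := by
    rintro rfl
    exact hp.ne_zero (by exact_mod_cast (Ideal.mem_bot.1 hp1))
  obtain ⟨⟨Q', hQ', hover⟩⟩ := (inferInstance : Nonempty (Ideal.primesOver Q1 (𝓞 N)))
  have hpQ' : (p : 𝓞 N) ∈ Q' := by
    have h3 : (p : 𝓞 L) ∈ Q'.under (𝓞 L) := by rw [← Ideal.over_def Q' Q1]; exact hp1
    rw [Ideal.under_def, Ideal.mem_comap] at h3
    simpa using h3
  have hQ'0 : Q' ≠ ⊥ := by
    rintro rfl
    exact hp.ne_zero (by exact_mod_cast (Ideal.mem_bot.1 hpQ'))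
  have e1 := ram_dvd hp n ζ hζ Q' hQ' hpQ'
  rw [Ideal.ramificationIdx_tower (R := ℤ) Q1 Q'] at e1
  have e2 : Q'.ramificationIdx (𝓞 L) ∣ p - 1 :=
    (Dvd.intro_left _ rfl).trans ((ram_dvd_finrank (F := L) Q' hQ' hQ'0).trans hLN)
  have hcop1 : Nat.Coprime (p ^ n) (Q'.ramificationIdx (𝓞 L)) := by
    apply Nat.Coprime.pow_left
    rw [Nat.Prime.coprime_iff_not_dvd hp]
    intro h3
    have h4 := Nat.le_of_dvd (by have := hp.two_le; omega) (h3.trans e2)
    have := hp.two_le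
    omega
  have e3 : p ^ n ∣ Q1.ramificationIdx ℤ := hcop1.dvd_of_dvd_mul_right e1
  set P := Q1.under (𝓞 F) with hP
  have hPp : P.IsPrime := Ideal.IsPrime.under (𝓞 F) Q1
  have hpP : (p : 𝓞 F) ∈ P := by
    rw [hP, Ideal.under_def, Ideal.mem_comap]
    simpa using hp1
  have hlo : Q1.LiesOver P := ⟨rfl⟩
  rw [Ideal.ramificationIdx_tower (R := ℤ) P Q1] at e3
  have e4 := ram_le hp P hPp hpP
  have e5 : 0 < P.ramificationIdx ℤ := by
    rcases Nat.eq_zero_or_pos (P.ramificationIdx ℤ) with h3 | h3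
    · exfalso
      have h5 := ram_eq_count hp P hPp hpP
      rw [h3] at h5
      have hP0 : P ≠ ⊥ := by
        intro h6
        rw [h6] at hpP
        exact hp.ne_zero (by exact_mod_cast (Ideal.mem_bot.1 hpP))
      have hPir : Irreducible P := (Ideal.prime_of_isPrime hP0 hPp).irreducible
      have h0 : Ideal.span {(p : 𝓞 F)} ≠ ⊥ := by
        rw [Ne, Ideal.span_singleton_eq_bot]
        exact_mod_cast hp.ne_zero
      obtain ⟨R, hR, hRP⟩ := exists_mem_normalizedFactors_of_dvd h0 hPir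
        (Ideal.dvd_iff_le.mpr ((Ideal.span_singleton_le_iff_mem _).2 hpP))
      rw [← associated_iff_eq.mp hRP] at hR
      have h7 := Multiset.count_pos.2 hR
      omega
    · exact h3
  have hcop2 : Nat.Coprime (p ^ n) (P.ramificationIdx ℤ) := by
    apply Nat.Coprime.pow_left
    rw [Nat.Prime.coprime_iff_not_dvd hp]
    intro h3
    have h4 := Nat.le_of_dvd e5 h3
    omega
  have e6 : p ^ n ∣ Q1.ramificationIdx (𝓞 F) := hcop2.dvd_of_dvd_mul_left e3
  have e7 := ram_dvd_finrank (F := F) Q1 h1 hQ10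
  rw [hFL] at e7
  have e8 : ((Q1.under (𝓞 F)).primesOver (𝓞 L)).ncard = 1 := by
    obtain ⟨c, hc⟩ := e6
    rw [hc] at e7
    have h3 : ((Q1.under (𝓞 F)).primesOver (𝓞 L)).ncard * c * p ^ n ∣ 1 * p ^ n := by
      rw [one_mul]
      convert e7 using 1
      ring
    have h4 := Nat.dvd_of_mul_dvd_mul_right (pow_pos hp.pos n) h3
    exact Nat.dvd_one.1 ((Dvd.intro _ rfl).trans h4)
  rw [Set.ncard_eq_one] at e8
  obtain ⟨R, hR⟩ := e8
  have m1 : Q1 ∈ (Q1.under (𝓞 F)).primesOver (𝓞 L) := ⟨h1, ⟨rfl⟩⟩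
  have m2 : Q2 ∈ (Q1.under (𝓞 F)).primesOver (𝓞 L) := ⟨h2, ⟨by rw [← hP, h]⟩⟩
  rw [hR, Set.mem_singleton_iff] at m1 m2
  rw [m1, m2]

end Unique

section Fields

open IntermediateField

/-- base change of a Galois extension -/
theorem gal_base {k A : Type*} [Field k] [Field A] [Algebra k A] (X Z Y : IntermediateField k A)
    (hY : Y = X ⊔ Z) (hXY : X ≤ Y) [IsGalois k Z] [FiniteDimensional k Z]
    [FiniteDimensional k X] :
    letI : Algebra X Y := (inclusion hXY).toRingHom.toAlgebra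
    IsGalois X Y ∧ finrank X Y ∣ finrank k Z ∧ finrank k X * finrank X Y = finrank k Y := by
  subst hY
  obtain ⟨h1, h2, h3, h4⟩ := Mu22.cy_galois X Z
  let f : ↥(restrict (le_sup_left : X ≤ X ⊔ Z)) ≃+* X :=
    { toFun := fun x => ⟨(x : ↥(X ⊔ Z)).1, (mem_restrict _ _).1 x.2⟩
      invFun := fun x => ⟨⟨x.1, hXY x.2⟩, (mem_restrict _ _).2 x.2⟩
      left_inv := fun _ => rfl
      right_inv := fun _ => rfl
      map_mul' := fun _ _ => rfl
      map_add' := fun _ _ => rfl }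
  letI alg : Algebra X ↥(X ⊔ Z) := (inclusion hXY).toRingHom.toAlgebra
  have hcomm : (algebraMap X ↥(X ⊔ Z)).comp (f : _ →+* _) =
      ((RingEquiv.refl ↥(X ⊔ Z) : ↥(X ⊔ Z) ≃+* ↥(X ⊔ Z)) : ↥(X ⊔ Z) →+* ↥(X ⊔ Z)).comp
        (algebraMap ↥(restrict (le_sup_left : X ≤ X ⊔ Z)) ↥(X ⊔ Z)) := by
    ext x
    rfl
  have e := Algebra.finrank_eq_of_equiv_equiv f (RingEquiv.refl ↥(X ⊔ Z)) hcomm
  refine ⟨IsGalois.of_equiv_equiv hcomm, ?_, ?_⟩
  · rw [← e]; exact h2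
  · rw [← e, ← h4]; exact h3

end Fields

section Step

/-- the data at the base: `α` generates a prime above `p` of relative degree one, `β` is the
complement, `γ` is a `p`-unit that is no local norm -/
structure SData (p : ℕ) {k F : Type*} [Field k] [NumberField k] [Field F] [NumberField F]
    [Algebra k F] (α β γ : 𝓞 F) (b0 : 𝓞 k) : Prop where
  prime : Prime (p : 𝓞 k)
  nrm : Associated (RingOfIntegers.norm k α) (p : 𝓞 k)
  ne : α ≠ 0
  mul : β * α = algebraMap (𝓞 k) (𝓞 F) (RingOfIntegers.norm k α)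
  cop : IsCoprime α β
  cong : α ^ 2 ∣ γ - algebraMap (𝓞 k) (𝓞 F) b0
  pun : ∃ j : ℕ, γ ∣ (p : 𝓞 F) ^ j
  c0 : ¬ (p : ℤ) ∣ Algebra.norm ℤ b0
  W : ¬ (p : ℤ) ^ 2 ∣ (Algebra.norm ℤ b0) ^ (p - 1) - 1

/-- general data at the base: the residue ring of `α` comes from `k`, `α` is prime to its
complement `β`, `p` divides the norm of `α`, and `γ` is a `p`-unit that is no local norm -/
structure GData (p : ℕ) {k F : Type*} [Field k] [NumberField k] [Field F] [NumberField F]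
    [Algebra k F] (α β γ : 𝓞 F) (b0 : 𝓞 k) : Prop where
  surj : ∀ x : 𝓞 F, ∃ b : 𝓞 k, α ∣ x - algebraMap (𝓞 k) (𝓞 F) b
  dvd : (p : 𝓞 k) ∣ RingOfIntegers.norm k α
  ne : α ≠ 0
  mul : β * α = algebraMap (𝓞 k) (𝓞 F) (RingOfIntegers.norm k α)
  cop : IsCoprime α β
  cong : α ^ 2 ∣ γ - algebraMap (𝓞 k) (𝓞 F) b0
  pun : ∃ j : ℕ, γ ∣ (p : 𝓞 F) ^ j
  c0 : ¬ (p : ℤ) ∣ Algebra.norm ℤ b0
  W : ¬ (p : ℤ) ^ 2 ∣ (Algebra.norm ℤ b0) ^ (p - 1) - 1

theorem SData.toG {p : ℕ} {k F : Type*} [Field k] [NumberField k] [Field F] [NumberField F]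
    [Algebra k F] {α β γ : 𝓞 F} {b0 : 𝓞 k} (D : SData p α β γ b0) : GData p α β γ b0 where
  surj := surj_one α β D.prime D.nrm D.ne D.mul
  dvd := D.nrm.symm.dvd
  ne := D.ne
  mul := D.mul
  cop := D.cop
  cong := D.cong
  pun := D.pun
  c0 := D.c0
  W := D.W

/-- the data at the base: `p`-units `γ_j` and coprime factorisations `(p) = A_i B_i` such that the
matrix of the logarithms of the local norms of `γ_j` at `A_i` is invertible modulo `p` -/
structure GrossData (p : ℕ) {r : ℕ} {F : Type*} [Field F] [NumberField F]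
    (A B : Fin r → Ideal (𝓞 F)) (γ : Fin r → 𝓞 F) (c : Fin r → Fin r → ℤ) : Prop where
  mul : ∀ i, A i * B i = Ideal.span {(p : 𝓞 F)}
  cop : ∀ i, A i ⊔ B i = ⊤
  pun : ∀ j, ∃ t : ℕ, γ j ∣ (p : 𝓞 F) ^ t
  nrm : ∀ i j, NormAt p (A i) (B i) (γ j) (c i j)
  nondeg : ∀ e : Fin r → ℕ, (∀ i, (p : ℤ) ^ 2 ∣ (∏ j, c i j ^ e j) ^ (p - 1) - 1) → ∀ j, p ∣ e j

variable {p : ℕ}

/-- a divisor of `p` generates an ideal supported above `p` -/
theorem unit_of_dvd {K : Type*} [Field K] [NumberField K] (b : 𝓞 K) (hb : b ≠ 0) (j : ℕ)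
    (hbp : b ∣ (p : 𝓞 K) ^ j) (a : Kˣ) (ha : (a : K) = (b : K)) :
    toPrincipalIdeal (𝓞 K) K a ∈ TT p K := by
  refine mem_TT_of_pow (Ideal.span {b}) (by simpa using hb) j ?_ _ ?_
  · rw [Ideal.mem_span_singleton]
    exact hbp
  · rw [coe_toPrincipalIdeal, ha, FractionalIdeal.coeIdeal_span_singleton]

/-- one step, abstract fields -/
theorem step_abs {r : ℕ} {F K L N : Type*} [Field F] [NumberField F]
    [Field K] [NumberField K] [Field L] [NumberField L] [Field N] [NumberField N]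
    [Algebra F K] [Algebra K L] [Algebra F L] [IsScalarTower F K L] [Algebra L N]
    [IsGalois F L] [IsGalois K L] [IsGalois L N] (hp : p.Prime) (hp2 : p ≠ 2)
    {A B : Fin r → Ideal (𝓞 F)} {γ : Fin r → 𝓞 F} {c : Fin r → Fin r → ℤ}
    (D : GrossData p A B γ c) (n : ℕ) (hF : finrank ℚ F < p)
    (hKL : finrank K L = p) (hFK : finrank F K = p ^ n) (hFL : finrank F L = p ^ (n + 1))
    (hLN : finrank L N ∣ p - 1) (ζ : N) (hζ : IsPrimitiveRoot ζ (p ^ (n + 2)))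
    (hun : Mu22.UnramOutside p K L) (h2 : (pv p F).ncard ≤ r + 1) (hK : ¬ p ∣ (pcl p K).index) :
    ¬ p ∣ (pcl p L).index := by
  have hodd : Odd p := hp.odd_of_ne_two hp2
  have huniq : ∀ Q1 Q2 : Ideal (𝓞 L), Q1.IsPrime → Q2.IsPrime → (p : 𝓞 L) ∈ Q1 →
      Q1.under (𝓞 F) = Q2.under (𝓞 F) → Q1 = Q2 := fun Q1 Q2 a b c d =>
    unique_prime hp (n + 1) hF hFL hLN ζ hζ Q1 Q2 a b c d
  have hγ0 : ∀ j, γ j ≠ 0 := by
    intro j h
    obtain ⟨t, ht⟩ := D.pun j
    have h3 : (p : 𝓞 F) ≠ 0 := by exact_mod_cast hp.ne_zero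
    rw [h] at ht
    exact pow_ne_zero t h3 (zero_dvd_iff.1 ht)
  have hb0 : ∀ j, algebraMap F K (γ j : F) ≠ 0 := by
    intro j
    rw [Ne, FaithfulSMul.algebraMap_eq_zero_iff]
    exact fun h => hγ0 j (RingOfIntegers.coe_eq_zero_iff.1 h)
  refine split_step_r hp hodd hKL hun ?_ ?_ hK (fun j => Units.mk0 _ (hb0 j)) ?_ ?_
  · intro g v hv
    have hpg : (p : 𝓞 L) ∈ g • v.asIdeal := by
      rw [Ideal.mem_pointwise_smul_iff_inv_smul_mem]
      have h3 : g⁻¹ • (p : 𝓞 L) = (p : 𝓞 L) :=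
        map_natCast (MulSemiringAction.toRingHom Gal(L/K) (𝓞 L) g⁻¹) p
      rw [h3]
      exact hv
    have hvp := v.isPrime
    refine huniq _ _ inferInstance v.isPrime hpg ?_
    ext x
    rw [Ideal.under_def, Ideal.under_def, Ideal.mem_comap, Ideal.mem_comap,
      Ideal.mem_pointwise_smul_iff_inv_smul_mem]
    have h3 : g⁻¹ • (algebraMap (𝓞 F) (𝓞 L) x) = algebraMap (𝓞 F) (𝓞 L) x := by
      apply RingOfIntegers.ext
      change g⁻¹ (algebraMap F L (x : F)) = algebraMap F L (x : F)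
      rw [IsScalarTower.algebraMap_apply F K L]
      exact AlgEquiv.commutes _ _
    rw [h3]
  · refine le_trans ?_ h2
    let f : HeightOneSpectrum (𝓞 L) → HeightOneSpectrum (𝓞 F) := fun v =>
      ⟨v.asIdeal.under (𝓞 F), by
        have := v.isPrime
        exact Ideal.IsPrime.under (𝓞 F) v.asIdeal, Mu22.under_ne_bot_of (K := F) v.asIdeal v.ne_bot⟩
    refine Set.ncard_le_ncard_of_injOn f ?_ ?_ (pv_finite hp)
    · intro v hv
      change (p : 𝓞 F) ∈ v.asIdeal.under (𝓞 F)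
      rw [Ideal.under_def, Ideal.mem_comap]
      have hv' : (p : 𝓞 L) ∈ v.asIdeal := hv
      simpa using hv'
    · intro v hv w hw hvw
      have h4 : v.asIdeal.under (𝓞 F) = w.asIdeal.under (𝓞 F) :=
        congrArg HeightOneSpectrum.asIdeal hvw
      exact HeightOneSpectrum.ext (huniq _ _ v.isPrime w.isPrime hv h4)
  · intro j
    obtain ⟨t, ht⟩ := D.pun j
    refine unit_of_dvd (algebraMap (𝓞 F) (𝓞 K) (γ j)) ?_ t ?_ _ rfl
    · rw [Ne, FaithfulSMul.algebraMap_eq_zero_iff]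
      exact hγ0 j
    · have h3 := map_dvd (algebraMap (𝓞 F) (𝓞 K)) ht
      rwa [map_pow, map_natCast] at h3
  · rintro e ⟨z, hz⟩
    apply D.nondeg e
    intro i
    obtain ⟨V, hV⟩ := NormAll.prod hp (fun j => (D.nrm i j).all (D.mul i) (D.cop i)) e
    refine norm_local hp hodd n (A i) (B i) (D.mul i) (D.cop i) _ V _ hV hKL hFK hLN ζ hζ z ?_
    rw [hz]
    push_cast
    exact Finset.prod_congr rfl fun j _ => rfl

open IntermediateField in
/-- degrees of the layers over `F` -/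
theorem layer_deg (hp : p.Prime) {k A : Type*} [Field k] [Field A] [Algebra k A]
    (F E Y : IntermediateField k A) [FiniteDimensional k F] [FiniteDimensional k E]
    [IsGalois k E] (hY : Y = F ⊔ E) (hFY : F ≤ Y) (n : ℕ) (hE : finrank k E = p ^ n)
    (hF : ¬ p ∣ finrank k F) :
    letI : Algebra F Y := (inclusion hFY).toRingHom.toAlgebra
    finrank F Y = p ^ n := by
  obtain ⟨h1, h2, h3⟩ := gal_base F E Y hY hFY
  letI alg : Algebra F Y := (inclusion hFY).toRingHom.toAlgebra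
  have hEY : E ≤ Y := by rw [hY]; exact le_sup_right
  have hYfd : FiniteDimensional k Y := by
    rw [hY]; exact IntermediateField.finiteDimensional_sup F E
  have h4 : finrank k E ∣ finrank k Y := finrank_dvd_of_le_right hEY
  rw [← h3, hE] at h4
  have h5 : Nat.Coprime (p ^ n) (finrank k F) :=
    Nat.Coprime.pow_left _ ((Nat.Prime.coprime_iff_not_dvd hp).2 hF)
  have h6 := h5.dvd_of_dvd_mul_left h4
  rw [hE] at h2
  exact Nat.dvd_antisymm h2 h6

/-- **the tower**: the class group modulo the primes above `p` stays prime to `p` -/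
theorem split_tower {r : ℕ} (hp : p.Prime) (hp2 : p ≠ 2) (F : IntermediateField ℚ ℂ)
    [NumberField F] (hF : finrank ℚ F < p) {A B : Fin r → Ideal (𝓞 F)} {γ : Fin r → 𝓞 F}
    {c : Fin r → Fin r → ℤ} (D : GrossData p A B γ c) (h2 : (pv p F).ncard ≤ r + 1)
    (hcl : ¬ p ∣ (pcl p F).index) (m : ℕ) : ∀ (E : IntermediateField ℚ ℂ), IsLayer p m E → ∀ [NumberField ↥(F ⊔ E)],
    ¬ p ∣ (pcl p ↥(F ⊔ E)).index := by
  have hFfin : FiniteDimensional ℚ F := fd_of_nf F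
  induction m with
  | zero =>
    intro E hE hnf
    have h1 : E = ⊥ := by
      rw [← IntermediateField.finrank_eq_one_iff]
      have := hE.2
      rw [pow_zero] at this
      exact (Mu22.cy_finrank _ _).trans this
    have h3 : F ⊔ E = F := by rw [h1, sup_bot_eq]
    have key : ∀ X : IntermediateField ℚ ℂ, X = F → ∀ [NumberField X],
        ¬ p ∣ (pcl p X).index := by
      rintro X rfl
      intro _
      exact hcl
    exact key _ h3
  | succ m ih =>
    intro E' hE' hnf'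
    obtain ⟨E, hE⟩ := exists_layer hp hp2 m
    have hEE' := layer_le hp hp2 hE hE'
    have hn0 : p ^ (m + 2) ≠ 0 := pow_ne_zero _ hp.ne_zero
    have hne : NeZero (p ^ (m + 2)) := ⟨hn0⟩
    obtain ⟨ζ, hζ⟩ : ∃ ζ : ℂ, IsPrimitiveRoot ζ (p ^ (m + 2)) :=
      ⟨_, Complex.isPrimitiveRoot_exp _ hn0⟩
    set C : IntermediateField ℚ ℂ := IntermediateField.adjoin ℚ {ζ} with hC
    have hE'C : E' ≤ C := layer_le_adjoin hp hE' hζ
    have hEC : E ≤ C := hEE'.trans hE'C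
    have hζint : IsIntegral ℚ ζ := (hζ.isIntegral (Nat.pos_of_ne_zero hn0)).tower_top
    have hCfin : FiniteDimensional ℚ C := IntermediateField.adjoin.finiteDimensional hζint
    have hEfr : @finrank ℚ E _ _ E.module' = p ^ m := (Mu22.cy_finrank _ _).trans hE.2
    have hE'fr : @finrank ℚ E' _ _ E'.module' = p ^ (m + 1) := (Mu22.cy_finrank _ _).trans hE'.2
    have hEfin : @FiniteDimensional ℚ E _ _ E.module' := by
      apply FiniteDimensional.of_finrank_pos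
      rw [hEfr]; exact pow_pos hp.pos _
    have hE'fin : @FiniteDimensional ℚ E' _ _ E'.module' := by
      apply FiniteDimensional.of_finrank_pos
      rw [hE'fr]; exact pow_pos hp.pos _
    have hgE := Mu22.cy_abel E (p ^ (m + 2)) ζ hζ hζint hEC
    have hgE' := Mu22.cy_abel E' (p ^ (m + 2)) ζ hζ hζint hE'C
    have hgC := Mu22.cy_abel C (p ^ (m + 2)) ζ hζ hζint le_rfl
    have hKfin : FiniteDimensional ℚ ↥(F ⊔ E) := IntermediateField.finiteDimensional_sup F E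
    have hLfin : FiniteDimensional ℚ ↥(F ⊔ E') := IntermediateField.finiteDimensional_sup F E'
    have hNfin : FiniteDimensional ℚ ↥(F ⊔ C) := IntermediateField.finiteDimensional_sup F C
    have hKnf : NumberField ↥(F ⊔ E) := NumberField.of_module_finite ℚ _
    have hNnf : NumberField ↥(F ⊔ C) := NumberField.of_module_finite ℚ _
    have hK := ih E hE
    -- algebras
    have iFK : F ≤ F ⊔ E := le_sup_left
    have iFL : F ≤ F ⊔ E' := le_sup_left
    have iFN : F ≤ F ⊔ C := le_sup_left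
    have iKL : F ⊔ E ≤ F ⊔ E' := sup_le_sup_left hEE' F
    have iLN : F ⊔ E' ≤ F ⊔ C := sup_le_sup_left hE'C F
    have iKN : F ⊔ E ≤ F ⊔ C := iKL.trans iLN
    letI aFK : Algebra F ↥(F ⊔ E) := (IntermediateField.inclusion iFK).toRingHom.toAlgebra
    letI aFL : Algebra F ↥(F ⊔ E') := (IntermediateField.inclusion iFL).toRingHom.toAlgebra
    letI aFN : Algebra F ↥(F ⊔ C) := (IntermediateField.inclusion iFN).toRingHom.toAlgebra
    letI aKL : Algebra ↥(F ⊔ E) ↥(F ⊔ E') := (IntermediateField.inclusion iKL).toRingHom.toAlgebra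
    letI aLN : Algebra ↥(F ⊔ E') ↥(F ⊔ C) := (IntermediateField.inclusion iLN).toRingHom.toAlgebra
    letI aKN : Algebra ↥(F ⊔ E) ↥(F ⊔ C) := (IntermediateField.inclusion iKN).toRingHom.toAlgebra
    have sFKL : IsScalarTower F ↥(F ⊔ E) ↥(F ⊔ E') := IsScalarTower.of_algebraMap_eq (fun _ => rfl)
    have sKLN : IsScalarTower ↥(F ⊔ E) ↥(F ⊔ E') ↥(F ⊔ C) :=
      IsScalarTower.of_algebraMap_eq (fun _ => rfl)
    have sFLN : IsScalarTower F ↥(F ⊔ E') ↥(F ⊔ C) := IsScalarTower.of_algebraMap_eq (fun _ => rfl)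
    have hFfr : @finrank ℚ F _ _ F.module' < p := lt_of_eq_of_lt (Mu22.cy_finrank _ _) hF
    have hFpos : 0 < @finrank ℚ F _ _ F.module' := finrank_pos
    have hFp : ¬ p ∣ @finrank ℚ F _ _ F.module' := fun h =>
      absurd (Nat.le_of_dvd hFpos h) (by omega)
    have dFK : finrank F ↥(F ⊔ E) = p ^ m := layer_deg hp F E _ rfl iFK m hEfr hFp
    have dFL : finrank F ↥(F ⊔ E') = p ^ (m + 1) := layer_deg hp F E' _ rfl iFL (m + 1) hE'fr hFp
    obtain ⟨gFL, -, -⟩ := gal_base F E' _ rfl iFL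
    obtain ⟨-, dFN, -⟩ := gal_base F C _ rfl iFN
    obtain ⟨gKL, -, -⟩ := gal_base (F ⊔ E) E' (F ⊔ E') (by
      rw [sup_assoc, sup_eq_right.2 hEE']) iKL
    obtain ⟨gLN, -, -⟩ := gal_base (F ⊔ E') C (F ⊔ C) (by
      rw [sup_assoc, sup_eq_right.2 hE'C]) iLN
    have dCfr : finrank ℚ C = (p ^ (m + 2)).totient := by
      have hcyc : IsCyclotomicExtension {p ^ (m + 2)} ℚ C := by
        change IsCyclotomicExtension {p ^ (m + 2)} ℚ (IntermediateField.adjoin ℚ {ζ}).toSubalgebra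
        rw [IntermediateField.adjoin_simple_toSubalgebra_of_isAlgebraic hζint.isAlgebraic]
        exact hζ.adjoin_isCyclotomicExtension ℚ
      exact IsCyclotomicExtension.finrank C
        (Polynomial.cyclotomic.irreducible_rat (Nat.pos_of_ne_zero hn0))
    have mKL : finrank F ↥(F ⊔ E) * finrank ↥(F ⊔ E) ↥(F ⊔ E') = finrank F ↥(F ⊔ E') :=
      finrank_mul_finrank F ↥(F ⊔ E) ↥(F ⊔ E')
    have mLN : finrank F ↥(F ⊔ E') * finrank ↥(F ⊔ E') ↥(F ⊔ C) = finrank F ↥(F ⊔ C) :=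
      finrank_mul_finrank F ↥(F ⊔ E') ↥(F ⊔ C)
    have dKL : finrank ↥(F ⊔ E) ↥(F ⊔ E') = p := by
      rw [dFK, dFL, pow_succ] at mKL
      exact Nat.eq_of_mul_eq_mul_left (pow_pos hp.pos m) mKL
    have dLN : finrank ↥(F ⊔ E') ↥(F ⊔ C) ∣ p - 1 := by
      have h5 : finrank F ↥(F ⊔ C) ∣ (p ^ (m + 2)).totient := by
        rw [← dCfr]; exact dFN
      rw [← mLN, dFL, Nat.totient_prime_pow_succ hp] at h5
      exact Nat.dvd_of_mul_dvd_mul_left (pow_pos hp.pos _) h5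
    have hζN : ζ ∈ F ⊔ C :=
      (le_sup_right : C ≤ F ⊔ C) (IntermediateField.mem_adjoin_simple_self ℚ ζ)
    have hζ' : IsPrimitiveRoot (⟨ζ, hζN⟩ : ↥(F ⊔ C)) (p ^ (m + 2)) :=
      IsPrimitiveRoot.of_map_of_injective (f := (F ⊔ C).val) hζ (F ⊔ C).val.injective
    -- unramified outside `p`
    have hgen : Algebra.adjoin ↥(F ⊔ E) {(⟨ζ, hζN⟩ : ↥(F ⊔ C))} = ⊤ := by
      refine Mu22.cy_gen (F ⊔ E) (F ⊔ C) ?_ ζ hζint ?_ hζN
      · intro y hy
        exact ⟨⟨y, hy⟩, rfl⟩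
      · rw [sup_assoc, sup_eq_right.2 hEC]
    have hunN : Mu22.UnramOutside p ↥(F ⊔ E) ↥(F ⊔ C) := by
      intro Q hQ hQ0 hpQ
      have hint : IsIntegral ℤ (⟨ζ, hζN⟩ : ↥(F ⊔ C)) := hζ'.isIntegral (Nat.pos_of_ne_zero hn0)
      refine Mu22.cy_unram (p ^ (m + 2)) hn0 (⟨⟨ζ, hζN⟩, hint⟩ : 𝓞 ↥(F ⊔ C)) ?_ hgen Q hQ ?_
      · apply RingOfIntegers.ext
        exact Subtype.ext hζ.pow_eq_one
      · intro h
        apply hpQ
        rw [Nat.cast_pow] at h
        exact hQ.mem_of_pow_mem _ h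
    have hun := Mu22.tw_unram_bot ↥(F ⊔ E) ↥(F ⊔ E') ↥(F ⊔ C) hunN
    exact step_abs hp hp2 D m hF dKL dFK dFL dLN _ hζ' hun h2 hK

end Step

end Pool.Agent.Work.MuS
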