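import Pool.Agent.Work.MP_a4986b_nt.SpD

set_option autoImplicit false
set_option maxHeartbeats 400000

/-! # Split primes, part Db: building the data -/

namespace Pool.Agent.Work.MuS

open NumberField Module UniqueFactorizationMonoid IsDedekindDomain
open scoped nonZeroDivisors Pointwise
open Pool.Agent.Work.MuI

variable {p : ℕ} {F : Type*} [Field F] [NumberField F]

/-- the nondegeneracy for one unit -/
theorem nondeg_one (hp : p.Prime) (c : ℤ) (hc : ¬ (p : ℤ) ∣ c)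
    (hW : ¬ (p : ℤ) ^ 2 ∣ c ^ (p - 1) - 1) (e : ℕ) (h : (p : ℤ) ^ 2 ∣ (c ^ e) ^ (p - 1) - 1) :
    p ∣ e := by
  have hpi : Prime (p : ℤ) := Nat.prime_iff_prime_int.1 hp
  by_contra he
  have hc1 : (p : ℤ) ∣ c ^ (p - 1) - 1 := by
    have h1 : IsCoprime c (p : ℤ) := ((Prime.coprime_iff_not_dvd hpi).2 hc).symm
    exact (Int.modEq_iff_dvd.1 (Int.ModEq.pow_card_sub_one_eq_one hp h1).symm)
  have hx : ¬ (p : ℤ) ∣ c ^ (p - 1) := fun h1 => hc (hpi.dvd_of_dvd_pow h1)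
  have hn : ¬ (p : ℤ) ∣ (e : ℤ) := by exact_mod_cast he
  have h2 := emultiplicity_pow_sub_pow_of_prime hpi (x := c ^ (p - 1)) (y := 1) hc1 hx hn
  apply hW
  apply pow_dvd_of_le_emultiplicity
  rw [← h2, one_pow]
  apply le_emultiplicity_of_pow_dvd
  rw [← pow_mul, mul_comm, pow_mul]
  exact h

theorem mul_AB (hp : p.Prime) {α β : 𝓞 F} (hcop : IsCoprime α β) (h : (p : 𝓞 F) ∣ α * β) :
    (Ideal.span {α} ⊔ Ideal.span {(p : 𝓞 F)}) * (Ideal.span {β} ⊔ Ideal.span {(p : 𝓞 F)}) =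
      Ideal.span {(p : 𝓞 F)} ∧
    (Ideal.span {α} ⊔ Ideal.span {(p : 𝓞 F)}) ⊔ (Ideal.span {β} ⊔ Ideal.span {(p : 𝓞 F)}) = ⊤ := by
  have h1 : Ideal.span {α} ⊔ Ideal.span {β} = ⊤ := by
    rw [← Ideal.isCoprime_iff_sup_eq, Ideal.isCoprime_span_singleton_iff]
    exact hcop
  constructor
  · rw [Ideal.sup_mul, Ideal.mul_sup, Ideal.mul_sup]
    apply le_antisymm
    · refine sup_le (sup_le ?_ Ideal.mul_le_right) (sup_le Ideal.mul_le_left Ideal.mul_le_left)
      rw [Ideal.span_singleton_mul_span_singleton, Ideal.span_singleton_le_span_singleton]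
      exact h
    · calc Ideal.span {(p : 𝓞 F)} = (Ideal.span {α} ⊔ Ideal.span {β}) * Ideal.span {(p : 𝓞 F)} := by
            rw [h1, Ideal.top_mul]
        _ = Ideal.span {α} * Ideal.span {(p : 𝓞 F)} ⊔ Ideal.span {β} * Ideal.span {(p : 𝓞 F)} :=
            Ideal.sup_mul _ _ _
        _ ≤ _ := by
            refine sup_le ?_ ?_
            · exact le_trans le_sup_right le_sup_left
            · rw [mul_comm (Ideal.span {β})]
              exact le_trans le_sup_left le_sup_right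
  · rw [eq_top_iff, ← h1]
    exact sup_le (le_sup_left.trans le_sup_left) (le_sup_left.trans le_sup_right)

theorem GData.toGross {k : Type*} [Field k] [NumberField k] [Algebra k F] (hp : p.Prime)
    {α β γ : 𝓞 F} {b0 : 𝓞 k} (D : GData p α β γ b0) :
    ∃ (A B : Fin 1 → Ideal (𝓞 F)) (c : Fin 1 → Fin 1 → ℤ), GrossData p A B (fun _ => γ) c := by
  have hpi : Prime (p : ℤ) := Nat.prime_iff_prime_int.1 hp
  obtain ⟨u, v, huv⟩ : IsCoprime (α ^ 2) (β ^ 2) := D.cop.pow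
  set b : 𝓞 F := algebraMap (𝓞 k) (𝓞 F) b0 with hb
  set y : 𝓞 F := b * (v * β ^ 2) + u * α ^ 2 with hy
  have h1 : α ^ 2 ∣ y - b := ⟨u * (1 - b), by rw [hy]; linear_combination b * huv⟩
  have h2 : β ^ 2 ∣ y - 1 := ⟨v * (b - 1), by rw [hy]; linear_combination huv⟩
  have h3 := norm_crt α β y b0 2 D.mul D.ne D.cop h1 h2
  have h4 : (p : ℤ) ^ 2 ∣ Algebra.norm ℤ y - Algebra.norm ℤ b0 := by
    rw [← intNorm_norm (k := k) y]
    apply norm_congr_int
    push_cast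
    exact (pow_dvd_pow_of_dvd D.dvd 2).trans h3
  have hc : ¬ (p : ℤ) ∣ Algebra.norm ℤ y := by
    intro h
    apply D.c0
    have h5 := dvd_sub h ((dvd_pow_self _ two_ne_zero).trans h4)
    rwa [sub_sub_cancel] at h5
  have hW : ¬ (p : ℤ) ^ 2 ∣ (Algebra.norm ℤ y) ^ (p - 1) - 1 := by
    intro h
    apply D.W
    have h5 : (p : ℤ) ^ 2 ∣ (Algebra.norm ℤ y) ^ (p - 1) - (Algebra.norm ℤ b0) ^ (p - 1) :=
      h4.trans (sub_dvd_pow_sub_pow _ _ _)
    have h6 := dvd_sub h h5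
    rwa [sub_sub_sub_cancel_left] at h6
  have hdvd : (p : 𝓞 F) ∣ α * β := by
    rw [mul_comm, D.mul]
    have h5 := map_dvd (algebraMap (𝓞 k) (𝓞 F)) D.dvd
    rwa [map_natCast] at h5
  obtain ⟨m1, m2⟩ := mul_AB hp D.cop hdvd
  refine ⟨fun _ => Ideal.span {α} ⊔ Ideal.span {(p : 𝓞 F)},
    fun _ => Ideal.span {β} ⊔ Ideal.span {(p : 𝓞 F)}, fun _ _ => Algebra.norm ℤ y,
    fun _ => m1, fun _ => m2, fun _ => D.pun, ?_, ?_⟩
  · intro i j
    refine ⟨2, 0, y, le_rfl, ?_, ?_, by rw [pow_zero, one_mul], hc⟩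
    · have h5 : y - γ = (y - b) - (γ - b) := by ring
      rw [h5]
      refine Ideal.mem_of_dvd _ (dvd_sub h1 D.cong) ?_
      exact Ideal.pow_mem_pow ((le_sup_left : _ ≤ Ideal.span {α} ⊔ Ideal.span {(p : 𝓞 F)})
        (Ideal.mem_span_singleton_self α)) 2
    · refine Ideal.mem_of_dvd _ h2 ?_
      exact Ideal.pow_mem_pow ((le_sup_left : _ ≤ Ideal.span {β} ⊔ Ideal.span {(p : 𝓞 F)})
        (Ideal.mem_span_singleton_self β)) 2
  · intro e he j
    have h5 := he 0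
    rw [Fin.prod_univ_one] at h5
    rw [Subsingleton.elim j 0]
    exact nondeg_one hp _ hc hW _ h5

end Pool.Agent.Work.MuS
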