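import Pool.Agent.Work.MP_a4986b_nt.BConcl

set_option autoImplicit false

/-! # Split primes: definitions, part 2 -/

namespace Pool.Agent.Work.MuS

open NumberField Module
open Pool.Agent.Work.MuB (MuZero)

/-- the conclusion for `F` and `p`: for every copy of `F` in `ℂ` the exponent of `p` in the class
number of the `m`-th layer of the cyclotomic `ℤ_p`-extension is at most `r m`, and Q1 holds for `p`
and every subfield, of index prime to `p`, of a Galois extension of `F` of `p`-power degree -/
def SplitExtensions (p r : ℕ) (F : Type) [Field F] [NumberField F] : Prop :=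
  (∀ F' : IntermediateField ℚ ℂ, Nonempty (F ≃+* F') → ∀ (m : ℕ) (E : IntermediateField ℚ ℂ),
    E ≤ IntermediateField.adjoin ℚ {z : ℂ | z ^ (p ^ (m + 1)) = 1} → finrank ℚ E = p ^ m →
      padicValNat p (Nat.card (ClassGroup (𝓞 ↥(F' ⊔ E)))) ≤ r * m) ∧
  ∀ (L : IntermediateField ℚ ℂ) [NumberField L] [Algebra F L] [IsGalois F L] (n : ℕ),
    finrank F L = p ^ n → ∀ L' : IntermediateField ℚ ℂ, L' ≤ L →
      ¬ p ∣ IntermediateField.relfinrank L' L → MuZero p L'

/-- the conclusion for a non-Galois cubic field: `SplitExtensions p 1` for the field, and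
`SplitExtensions p 2` for its Galois closures (of degree `6`) in `ℂ` -/
def PureSplit (p : ℕ) (F : Type) [Field F] [NumberField F] : Prop :=
  SplitExtensions p 1 F ∧ ∀ (N : IntermediateField ℚ ℂ) [NumberField N] [IsGalois ℚ N],
    finrank ℚ N = 6 → Nonempty (F →+* N) → SplitExtensions p 2 N

end Pool.Agent.Work.MuS
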