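import Pool.Agent.Work.MP_a4986b_nt.SpDb
import Pool.Agent.Work.MP_a4986b_nt.IFinal

set_option autoImplicit false
set_option maxHeartbeats 400000

/-! # Split primes, part E: the `p`-class group of a layer is cyclic of order at most `p ^ m` -/

namespace Pool.Agent.Work.MuS

open NumberField Module UniqueFactorizationMonoid IsDedekindDomain
open scoped nonZeroDivisors Pointwise
open Pool.Agent.Work.MuI

section Abs

variable {A : Type*} [CommGroup A] {p : ℕ}

theorem gen_of_index [Finite A] (hp : p.Prime) (S : Set A) (H : Subgroup A)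
    (hS : ∀ x ∈ S, ∃ u : ℕ, ¬ p ∣ u ∧ x ^ u ∈ H)
    (hidx : ¬ p ∣ (Subgroup.closure S).index) : ¬ p ∣ H.index := by
  have hpf : Fact p.Prime := ⟨hp⟩
  have h1 : ∀ x ∈ Subgroup.closure S, ∃ u : ℕ, ¬ p ∣ u ∧ x ^ u ∈ H := by
    intro x hx
    induction hx using Subgroup.closure_induction with
    | mem x hx => exact hS x hx
    | one => exact ⟨1, hp.not_dvd_one, by rw [one_pow]; exact one_mem _⟩
    | mul x y _ _ hx hy =>
      obtain ⟨u, hu, hxu⟩ := hx
      obtain ⟨v, hv, hyv⟩ := hy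
      refine ⟨u * v, fun h => ((hp.dvd_mul).1 h).elim hu hv, ?_⟩
      rw [mul_pow, pow_mul, mul_comm u v, pow_mul y]
      exact mul_mem (pow_mem hxu v) (pow_mem hyv u)
    | inv x _ hx =>
      obtain ⟨u, hu, hxu⟩ := hx
      exact ⟨u, hu, by rw [_root_.inv_pow]; exact inv_mem hxu⟩
  intro hdvd
  have hfin : Finite (A ⧸ H) := inferInstance
  obtain ⟨q, hq⟩ := exists_prime_orderOf_dvd_card' (G := A ⧸ H) p hdvd
  obtain ⟨x, rfl⟩ := QuotientGroup.mk_surjective q
  obtain ⟨u, hu, hxu⟩ := h1 (x ^ (Subgroup.closure S).index) (Subgroup.pow_index_mem _ _)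
  rw [← pow_mul] at hxu
  have h2 : ((x : A) : A ⧸ H) ^ ((Subgroup.closure S).index * u) = 1 := by
    rw [← QuotientGroup.mk_pow]
    exact (QuotientGroup.eq_one_iff _).2 hxu
  have h3 := orderOf_dvd_of_pow_eq_one h2
  rw [hq] at h3
  exact ((hp.dvd_mul).1 h3).elim hidx hu

theorem relIndex_closure_dvd (R : Subgroup A) (T : Set A) (hT : T.Finite)
    (h : ∀ c ∈ T, c ^ p ∈ R) : R.relIndex (Subgroup.closure T) ∣ p ^ T.ncard := by
  induction T, hT using Set.Finite.induction_on with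
  | empty => simp
  | @insert a S ha hS ih =>
    have ih' := ih fun c hc => h c (Set.mem_insert_of_mem _ hc)
    have hcl : Subgroup.closure (insert a S) = Subgroup.closure S ⊔ Subgroup.zpowers a := by
      rw [Set.insert_eq, Subgroup.closure_union, Subgroup.zpowers_eq_closure, sup_comm]
    rw [hcl, Set.ncard_insert_of_notMem ha hS, pow_succ]
    set H := Subgroup.closure S with hH
    set Z := Subgroup.zpowers a with hZ
    have e1 : R.relIndex (H ⊔ Z) = R.relIndex (R ⊔ (H ⊔ Z)) := (Subgroup.relIndex_sup_left _ _).symm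
    have e2 : R.relIndex (R ⊔ H) * (R ⊔ H).relIndex (R ⊔ (H ⊔ Z)) = R.relIndex (R ⊔ (H ⊔ Z)) :=
      Subgroup.relIndex_mul_relIndex _ _ _ le_sup_left (sup_le_sup_left le_sup_left R)
    have e3 : (R ⊔ H).relIndex (R ⊔ (H ⊔ Z)) = (R ⊔ H).relIndex Z := by
      rw [← sup_assoc, Subgroup.relIndex_sup_left]
    rw [e1, ← e2, e3, Subgroup.relIndex_sup_left]
    exact Nat.mul_dvd_mul ih' (relIndex_zpowers_dvd (R ⊔ H) a
      ((le_sup_left : R ≤ R ⊔ H) (h a (Set.mem_insert _ _))))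

theorem card_closure_dvd [Finite A] (N : ℕ) (T : Set A) (hT : T.Finite)
    (h : ∀ c ∈ T, c ^ N = 1) : Nat.card (Subgroup.closure T) ∣ N ^ T.ncard := by
  induction T, hT using Set.Finite.induction_on with
  | empty => simp
  | @insert a S ha hS ih =>
    have ih' := ih fun c hc => h c (Set.mem_insert_of_mem _ hc)
    have hcl : Subgroup.closure (insert a S) = Subgroup.closure S ⊔ Subgroup.zpowers a := by
      rw [Set.insert_eq, Subgroup.closure_union, Subgroup.zpowers_eq_closure, sup_comm]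
    rw [hcl, Set.ncard_insert_of_notMem ha hS, pow_succ]
    set H := Subgroup.closure S with hH
    set Z := Subgroup.zpowers a with hZ
    have e2 : (⊥ : Subgroup A).relIndex H * H.relIndex (H ⊔ Z) = (⊥ : Subgroup A).relIndex (H ⊔ Z) :=
      Subgroup.relIndex_mul_relIndex _ _ _ bot_le le_sup_left
    rw [Subgroup.relIndex_bot_left, Subgroup.relIndex_bot_left, Subgroup.relIndex_sup_left] at e2
    rw [← e2]
    refine Nat.mul_dvd_mul ih' ((Subgroup.relIndex_dvd_card _ _).trans ?_)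
    rw [Nat.card_zpowers]
    exact orderOf_dvd_of_pow_eq_one (h a (Set.mem_insert _ _))

theorem val_of_index [Finite A] (hp : p.Prime) (T : Set A) (r m M : ℕ) (hM : ¬ p ∣ M)
    (hr : T.ncard ≤ r) (hc : ∀ c ∈ T, c ^ (p ^ m * M) = 1)
    (hidx : ¬ p ∣ (Subgroup.closure T).index) : padicValNat p (Nat.card A) ≤ r * m := by
  have hpf : Fact p.Prime := ⟨hp⟩
  have h1 := Subgroup.card_mul_index (Subgroup.closure T)
  have h2 := card_closure_dvd (p ^ m * M) T T.toFinite hc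
  have hM0 : M ≠ 0 := by rintro rfl; exact hM (dvd_zero p)
  have h3 : Nat.card (Subgroup.closure T) ≠ 0 := Nat.card_pos.ne'
  have h4 : (Subgroup.closure T).index ≠ 0 := Subgroup.index_ne_zero_of_finite
  rw [← h1, padicValNat.mul h3 h4, padicValNat.eq_zero_of_not_dvd hidx, add_zero]
  obtain ⟨d, hd⟩ := h2
  have hd0 : d ≠ 0 := by
    rintro rfl
    rw [mul_zero] at hd
    exact (pow_ne_zero _ (mul_ne_zero (pow_ne_zero _ hp.ne_zero) hM0)) hd
  have h5 := congrArg (padicValNat p) hd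
  rw [padicValNat.pow,
    padicValNat.mul (pow_ne_zero _ hp.ne_zero) hM0, padicValNat.mul h3 hd0,
    padicValNat.prime_pow, padicValNat.eq_zero_of_not_dvd hM, add_zero] at h5
  have h6 : T.ncard * m ≤ r * m := Nat.mul_le_mul_right m hr
  omega

theorem rk_of_index [Finite A] (hp : p.Prime) (T : Set A) (r : ℕ) (hr : T.ncard ≤ r)
    (hidx : ¬ p ∣ (Subgroup.closure T).index) : rk p A ≤ r := by
  have hpf : Fact p.Prime := ⟨hp⟩
  set R := (powMonoidHom p : A →* A).range with hR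
  have h1 : Nat.card (A ⧸ R) = R.index := rfl
  have h2 : R.index ∣ p ^ T.ncard * (Subgroup.closure T).index := by
    have h3 : R.index = R.relIndex (R ⊔ Subgroup.closure T) * (R ⊔ Subgroup.closure T).index :=
      (Subgroup.relIndex_mul_index le_sup_left).symm
    rw [h3]
    refine Nat.mul_dvd_mul ?_ (Subgroup.index_dvd_of_le le_sup_right)
    rw [Subgroup.relIndex_sup_left]
    exact relIndex_closure_dvd R T T.toFinite fun c _ => ⟨c, rfl⟩
  have h4 : padicValNat p R.index ≤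
      padicValNat p (p ^ T.ncard * (Subgroup.closure T).index) := by
    obtain ⟨d, hd⟩ := h2
    have h5 : p ^ T.ncard * (Subgroup.closure T).index ≠ 0 :=
      mul_ne_zero (pow_ne_zero _ hp.ne_zero) Subgroup.index_ne_zero_of_finite
    have hd0 : d ≠ 0 := by rintro rfl; rw [mul_zero] at hd; exact h5 hd
    rw [hd, padicValNat.mul Subgroup.index_ne_zero_of_finite hd0]
    exact Nat.le_add_right _ _
  rw [padicValNat.mul (pow_ne_zero _ hp.ne_zero) Subgroup.index_ne_zero_of_finite,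
    padicValNat.eq_zero_of_not_dvd hidx, padicValNat.prime_pow, add_zero] at h4
  exact h4.trans hr

end Abs

section Cls

variable {M : Type*} [Field M] [NumberField M] {p : ℕ}

/-- an ideal all of whose prime divisors lie in `P` -/
theorem mem_closure_vU (P : Set (HeightOneSpectrum (𝓞 M))) (I : Ideal (𝓞 M)) (hI : I ≠ ⊥)
    (hP : ∀ v : HeightOneSpectrum (𝓞 M), v.asIdeal ∣ I → v ∈ P)
    (u : (FractionalIdeal (𝓞 M)⁰ M)ˣ) (hu : (u : FractionalIdeal (𝓞 M)⁰ M) = I) :
    u ∈ Subgroup.closure (vU '' P) := by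
  induction I using UniqueFactorizationMonoid.induction_on_prime generalizing u with
  | h₁ => exact absurd rfl hI
  | h₂ J hJ =>
    have h1 : u = 1 := by
      apply Units.ext
      rw [hu, Ideal.isUnit_iff.mp hJ, FractionalIdeal.coeIdeal_top, Units.val_one]
    rw [h1]
    exact one_mem _
  | h₃ J q hJ0 hq ih =>
    have hJ1 : (J : FractionalIdeal (𝓞 M)⁰ M) ≠ 0 := FractionalIdeal.coeIdeal_ne_zero.2 hJ0
    have hqp : q.IsPrime := Ideal.isPrime_of_prime hq
    let v : HeightOneSpectrum (𝓞 M) := ⟨q, hqp, hq.ne_zero⟩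
    have h1 : u = vU v * Units.mk0 _ hJ1 := by
      apply Units.ext
      rw [hu, Units.val_mul, vU_coe, Units.val_mk0]
      exact FractionalIdeal.coeIdeal_mul q J
    have h2 : Units.mk0 _ hJ1 ∈ Subgroup.closure (vU '' P) :=
      ih hJ0 (fun w hw => hP w (hw.trans (dvd_mul_left J q))) (Units.mk0 _ hJ1) (Units.val_mk0 hJ1)
    have h3 : v ∈ P := hP v (dvd_mul_right q J)
    have h4 : vU v ∈ Subgroup.closure (vU '' P) :=
      Subgroup.subset_closure (Set.mem_image_of_mem vU h3)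
    rw [h1]
    exact mul_mem h4 h2

theorem pcl_eq : pcl p M = Subgroup.closure (ClassGroup.mk M '' (vU '' pv p M)) := by
  rw [pcl, TT, MonoidHom.map_closure]

variable {F : Type*} [Field F] [NumberField F] [Algebra F M]

theorem mk_vU_pow [IsGalois F M] (v : HeightOneSpectrum (𝓞 M))
    (hfix : ∀ g : Gal(M/F), g • v.asIdeal = v.asIdeal) :
    (ClassGroup.mk M (vU v)) ^ (finrank F M * Nat.card (ClassGroup (𝓞 F))) = 1 := by
  obtain ⟨N, -, -, hN⟩ := exists_clNorm F M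
  have h1 := hN inferInstance (ClassGroup.mk M (vU v))
  have h2 : ∀ g : Gal(M/F), clAct g (ClassGroup.mk M (vU v)) = ClassGroup.mk M (vU v) := by
    intro g
    rw [← Step.mk_fU]
    congr 1
    apply Units.ext
    rw [Step.fU_coe, vU_coe, Inv.act_coeIdeal, hfix g]
  rw [Finset.prod_congr rfl fun g _ => h2 g, Finset.prod_const, Finset.card_univ,
    ← Nat.card_eq_fintype_card, IsGalois.card_aut_eq_finrank] at h1
  rw [pow_mul, ← h1, ← map_pow, pow_card_eq_one', map_one]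

/-- the factor of a prime of the base at a prime above it -/
theorem split_prime (P : Ideal (𝓞 F)) (hPm : P.IsMaximal) (hP0 : P ≠ ⊥) (Q : Ideal (𝓞 M))
    (hQ : Q.IsPrime) (hlo : Q.LiesOver P) :
    ∃ (e : ℕ) (J : Ideal (𝓞 M)), 0 < e ∧ e ≤ finrank F M ∧
      P.map (algebraMap (𝓞 F) (𝓞 M)) = Q ^ e * J ∧ ¬ Q ∣ J := by
  have hmap : P.map (algebraMap (𝓞 F) (𝓞 M)) ≠ ⊥ := Mu22.map_ne_bot_of hP0
  have hQ0 : Q ≠ ⊥ := Ideal.ne_bot_of_liesOver_of_ne_bot hP0 Q
  have hle : P.map (algebraMap (𝓞 F) (𝓞 M)) ≤ Q := by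
    rw [Ideal.map_le_iff_le_comap, hlo.over, Ideal.under_def]
  have h1 := Ideal.IsDedekindDomain.ramificationIdx'_eq_multiplicity hmap hQ
  have hnz : NoZeroSMulDivisors (𝓞 F) (𝓞 M) := by
    refine ⟨fun {c x} h => ?_⟩
    rw [Algebra.smul_def] at h
    rcases mul_eq_zero.1 h with h4 | h4
    · exact Or.inl ((FaithfulSMul.algebraMap_eq_zero_iff (𝓞 F) (𝓞 M)).1 h4)
    · exact Or.inr h4
  have h2 := Ideal.ramificationIdx_le_finrank (S := 𝓞 M) F M (p := P) Q
  have h3 := Ideal.IsDedekindDomain.ramificationIdx'_ne_zero hmap hQ hle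
  have hfin : FiniteMultiplicity Q (P.map (algebraMap (𝓞 F) (𝓞 M))) :=
    FiniteMultiplicity.of_prime_left (Ideal.prime_of_isPrime hQ0 hQ) hmap
  obtain ⟨J, hJ, hQJ⟩ := hfin.exists_eq_pow_mul_and_not_dvd
  refine ⟨_, J, ?_, ?_, hJ, hQJ⟩
  · rw [← h1]; exact Nat.pos_of_ne_zero h3
  · rw [← h1]; exact h2

theorem gal_fix
    (huniq : ∀ Q1 Q2 : Ideal (𝓞 M), Q1.IsPrime → Q2.IsPrime → (p : 𝓞 M) ∈ Q1 →
      Q1.under (𝓞 F) = Q2.under (𝓞 F) → Q1 = Q2) (g : Gal(M/F)) (v : HeightOneSpectrum (𝓞 M))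
    (hv : v ∈ pv p M) : g • v.asIdeal = v.asIdeal := by
  have hpg : (p : 𝓞 M) ∈ g • v.asIdeal := by
    rw [Ideal.mem_pointwise_smul_iff_inv_smul_mem]
    have h3 : g⁻¹ • (p : 𝓞 M) = (p : 𝓞 M) :=
      map_natCast (MulSemiringAction.toRingHom Gal(M/F) (𝓞 M) g⁻¹) p
    rw [h3]
    exact hv
  have hvp := v.isPrime
  refine huniq _ _ inferInstance v.isPrime hpg ?_
  ext x
  rw [Ideal.under_def, Ideal.under_def, Ideal.mem_comap, Ideal.mem_comap,
    Ideal.mem_pointwise_smul_iff_inv_smul_mem]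
  have h3 : g⁻¹ • (algebraMap (𝓞 F) (𝓞 M) x) = algebraMap (𝓞 F) (𝓞 M) x := by
    apply RingOfIntegers.ext
    change g⁻¹ (algebraMap F M (x : F)) = algebraMap F M (x : F)
    exact AlgEquiv.commutes _ _
  rw [h3]

/-- the prime-to-`p` part aside, the class group of a layer is generated by few classes of small
order -/
theorem layer_gen {E : Type*} [Field E] [NumberField E] [Algebra E M] [IsGalois F M] {r : ℕ}
    (hp : p.Prime)
    (huniq : ∀ Q1 Q2 : Ideal (𝓞 M), Q1.IsPrime → Q2.IsPrime → (p : 𝓞 M) ∈ Q1 →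
      Q1.under (𝓞 F) = Q2.under (𝓞 F) → Q1 = Q2)
    (h2 : (pv p M).ncard ≤ r + 1) (hE : ¬ p ∣ Nat.card (ClassGroup (𝓞 E)))
    (hdeg : finrank E M < p) (hcl : ¬ p ∣ (pcl p M).index) :
    ∃ T : Set (ClassGroup (𝓞 M)), T.ncard ≤ r ∧
      (∀ c ∈ T, c ^ (finrank F M * Nat.card (ClassGroup (𝓞 F))) = 1) ∧
      ¬ p ∣ (Subgroup.closure T).index := by
  -- a prime of `E` above `p`
  have hpE : ¬ IsUnit (p : 𝓞 E) := by
    intro hu
    have h1 : Ideal.span {(p : 𝓞 E)} = ⊤ := Ideal.span_singleton_eq_top.mpr hu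
    have h3 := Ideal.absNorm_span_natCast (S := 𝓞 E) p
    rw [h1, Ideal.absNorm_top, RingOfIntegers.rank] at h3
    have h4 : 0 < finrank ℚ E := finrank_pos
    have := Nat.one_lt_pow h4.ne' hp.one_lt
    omega
  obtain ⟨P, hPm, hpP⟩ := exists_max_ideal_of_mem_nonunits hpE
  have hP0 : P ≠ ⊥ := by
    rintro rfl
    exact hp.ne_zero (by exact_mod_cast (Ideal.mem_bot.1 hpP))
  obtain ⟨⟨Q, hQ, hlo⟩⟩ := (inferInstance : Nonempty (Ideal.primesOver P (𝓞 M)))
  obtain ⟨e, J, he0, hed, hPJ, hQJ⟩ := split_prime (F := E) P hPm hP0 Q hQ hlo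
  have hQ0 : Q ≠ ⊥ := Ideal.ne_bot_of_liesOver_of_ne_bot hP0 Q
  let w : HeightOneSpectrum (𝓞 M) := ⟨Q, hQ, hQ0⟩
  have hmap : P.map (algebraMap (𝓞 E) (𝓞 M)) ≠ ⊥ := Mu22.map_ne_bot_of hP0
  have hpmap : (p : 𝓞 M) ∈ P.map (algebraMap (𝓞 E) (𝓞 M)) := by
    have h3 := Ideal.mem_map_of_mem (algebraMap (𝓞 E) (𝓞 M)) hpP
    rwa [map_natCast] at h3
  have hw : w ∈ pv p M := by
    have h3 : P.map (algebraMap (𝓞 E) (𝓞 M)) ≤ Q := by
      rw [Ideal.map_le_iff_le_comap, hlo.over, Ideal.under_def]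
    exact h3 hpmap
  have hfin := pv_finite (M := M) hp
  set X : Set (HeightOneSpectrum (𝓞 M)) := pv p M \ {w} with hX
  refine ⟨(fun v => ClassGroup.mk M (vU v)) '' X, ?_, ?_, ?_⟩
  · refine (Set.ncard_image_le (hfin.subset Set.diff_subset)).trans ?_
    rw [Set.ncard_diff_singleton_of_mem hw]
    omega
  · rintro _ ⟨v, hv, rfl⟩
    exact mk_vU_pow v (fun g => gal_fix huniq g v hv.1)
  rw [pcl_eq] at hcl
  refine gen_of_index hp _ _ ?_ hcl
  rintro _ ⟨_, ⟨v', hv', rfl⟩, rfl⟩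
  by_cases hv'w : v' = w
  · subst hv'w
    refine ⟨e * Nat.card (ClassGroup (𝓞 E)), ?_, ?_⟩
    · intro h
      rcases (hp.dvd_mul).1 h with h3 | h3
      · exact absurd (Nat.le_of_dvd he0 h3) (by omega)
      · exact hE h3
    · have hJ0 : J ≠ ⊥ := by
        rintro rfl
        apply hmap
        rw [hPJ, Ideal.mul_bot]
      have hJ1 : (J : FractionalIdeal (𝓞 M)⁰ M) ≠ 0 := FractionalIdeal.coeIdeal_ne_zero.2 hJ0
      have hJc : Units.mk0 _ hJ1 ∈ Subgroup.closure (vU '' X) := by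
        refine mem_closure_vU X J hJ0 ?_ _ (Units.val_mk0 hJ1)
        intro x hx
        refine ⟨?_, ?_⟩
        · have h3 : J ≤ x.asIdeal := Ideal.le_of_dvd hx
          have h4 : P.map (algebraMap (𝓞 E) (𝓞 M)) ≤ J := by
            rw [hPJ]; exact Ideal.mul_le_right
          exact h3 (h4 hpmap)
        · rintro rfl
          exact hQJ hx
      have h5 : (ClassGroup.mk M (Units.mk0 _ hJ1)) ∈
          Subgroup.closure ((fun v => ClassGroup.mk M (vU v)) '' X) := by
        have h6 := Subgroup.mem_map_of_mem (ClassGroup.mk M) hJc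
        rwa [MonoidHom.map_closure, Set.image_image] at h6
      have hPn : P ∈ (Ideal (𝓞 E))⁰ := mem_nonZeroDivisors_iff_ne_zero.2 hP0
      have h6 : (ClassGroup.extendedHom (𝓞 E) (𝓞 M) (ClassGroup.mk0 ⟨P, hPn⟩)) =
          (ClassGroup.mk M (vU w)) ^ e * ClassGroup.mk M (Units.mk0 _ hJ1) := by
        rw [ClassGroup.extendedHom_mk0, ← ClassGroup.mk_mk0 M, ← map_pow, ← map_mul]
        congr 1
        apply Units.ext
        rw [FractionalIdeal.coe_mk0, Units.val_mul, Units.val_pow_eq_pow_val, vU_coe,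
          Units.val_mk0]
        change ((P.map (algebraMap (𝓞 E) (𝓞 M)) : Ideal (𝓞 M)) : FractionalIdeal (𝓞 M)⁰ M) = _
        rw [hPJ, FractionalIdeal.coeIdeal_mul, FractionalIdeal.coeIdeal_pow]
      have h7 := congrArg (fun x => x ^ Nat.card (ClassGroup (𝓞 E))) h6
      simp only [← map_pow, pow_card_eq_one', map_one] at h7
      rw [mul_pow, map_pow, ← pow_mul] at h7
      rw [eq_inv_of_mul_eq_one_left h7.symm]
      exact inv_mem (pow_mem h5 _)
  · refine ⟨1, hp.not_dvd_one, ?_⟩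
    rw [pow_one]
    exact Subgroup.subset_closure ⟨v', ⟨hv', hv'w⟩, rfl⟩

end Cls

end Pool.Agent.Work.MuS
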