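import Pool.Agent.Work.MP_a4986b_nt.SpE
import Pool.Agent.Work.MP_a4986b_nt.ClosE

set_option autoImplicit false
set_option maxHeartbeats 400000

/-! # Split primes, part F: the layers of the cyclotomic tower -/

namespace Pool.Agent.Work.MuS

open NumberField Module IsDedekindDomain
open scoped nonZeroDivisors Pointwise
open Pool.Agent.Work.MuI

variable {p : ℕ}

/-- basic facts on the layer `F E / F` -/
theorem layer_facts (hp : p.Prime) (F : IntermediateField ℚ ℂ) [NumberField F]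
    (hF : finrank ℚ F < p) (m : ℕ) (E : IntermediateField ℚ ℂ) (hE : IsLayer p m E)
    [NumberField ↥(F ⊔ E)] (iF : F ≤ F ⊔ E) (iE : E ≤ F ⊔ E) :
    letI : Algebra F ↥(F ⊔ E) := (IntermediateField.inclusion iF).toRingHom.toAlgebra
    letI : Algebra E ↥(F ⊔ E) := (IntermediateField.inclusion iE).toRingHom.toAlgebra
    IsGalois F ↥(F ⊔ E) ∧ finrank F ↥(F ⊔ E) = p ^ m ∧ finrank E ↥(F ⊔ E) < p ∧
      ∀ Q1 Q2 : Ideal (𝓞 ↥(F ⊔ E)), Q1.IsPrime → Q2.IsPrime → (p : 𝓞 ↥(F ⊔ E)) ∈ Q1 →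
        Q1.under (𝓞 F) = Q2.under (𝓞 F) → Q1 = Q2 := by
  have hFfin : FiniteDimensional ℚ F := fd_of_nf F
  have hn0 : p ^ (m + 1) ≠ 0 := pow_ne_zero _ hp.ne_zero
  have hne : NeZero (p ^ (m + 1)) := ⟨hn0⟩
  obtain ⟨ζ, hζ⟩ : ∃ ζ : ℂ, IsPrimitiveRoot ζ (p ^ (m + 1)) :=
    ⟨_, Complex.isPrimitiveRoot_exp _ hn0⟩
  set C : IntermediateField ℚ ℂ := IntermediateField.adjoin ℚ {ζ} with hC
  have hEC : E ≤ C := layer_le_adjoin hp hE hζ
  have hζint : IsIntegral ℚ ζ := (hζ.isIntegral (Nat.pos_of_ne_zero hn0)).tower_top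
  have hCfin : FiniteDimensional ℚ C := IntermediateField.adjoin.finiteDimensional hζint
  have hEfr : @finrank ℚ E _ _ E.module' = p ^ m := (Mu22.cy_finrank _ _).trans hE.2
  have hEfin : @FiniteDimensional ℚ E _ _ E.module' := by
    apply FiniteDimensional.of_finrank_pos
    rw [hEfr]; exact pow_pos hp.pos _
  have hgE := Mu22.cy_abel E (p ^ (m + 1)) ζ hζ hζint hEC
  have hgC := Mu22.cy_abel C (p ^ (m + 1)) ζ hζ hζint le_rfl
  have hKfin : FiniteDimensional ℚ ↥(F ⊔ E) := IntermediateField.finiteDimensional_sup F E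
  have hNfin : FiniteDimensional ℚ ↥(F ⊔ C) := IntermediateField.finiteDimensional_sup F C
  have hNnf : NumberField ↥(F ⊔ C) := NumberField.of_module_finite ℚ _
  have iFN : F ≤ F ⊔ C := le_sup_left
  have iKN : F ⊔ E ≤ F ⊔ C := sup_le_sup_left hEC F
  letI aFK : Algebra F ↥(F ⊔ E) := (IntermediateField.inclusion iF).toRingHom.toAlgebra
  letI aEK : Algebra E ↥(F ⊔ E) := (IntermediateField.inclusion iE).toRingHom.toAlgebra
  letI aFN : Algebra F ↥(F ⊔ C) := (IntermediateField.inclusion iFN).toRingHom.toAlgebra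
  letI aKN : Algebra ↥(F ⊔ E) ↥(F ⊔ C) := (IntermediateField.inclusion iKN).toRingHom.toAlgebra
  have sFKN : IsScalarTower F ↥(F ⊔ E) ↥(F ⊔ C) := IsScalarTower.of_algebraMap_eq (fun _ => rfl)
  have hFfr : @finrank ℚ F _ _ F.module' < p := lt_of_eq_of_lt (Mu22.cy_finrank _ _) hF
  have hFpos : 0 < @finrank ℚ F _ _ F.module' := finrank_pos
  have hFp : ¬ p ∣ @finrank ℚ F _ _ F.module' := fun h =>
    absurd (Nat.le_of_dvd hFpos h) (by omega)
  have dFK : finrank F ↥(F ⊔ E) = p ^ m := layer_deg hp F E _ rfl iF m hEfr hFp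
  obtain ⟨gFK, -, mFK⟩ := gal_base F E _ rfl iF
  obtain ⟨-, dFN, -⟩ := gal_base F C _ rfl iFN
  obtain ⟨gKN, -, -⟩ := gal_base (F ⊔ E) C (F ⊔ C) (by
    rw [sup_assoc, sup_eq_right.2 hEC]) iKN
  have dCfr : finrank ℚ C = (p ^ (m + 1)).totient := by
    have hcyc : IsCyclotomicExtension {p ^ (m + 1)} ℚ C := by
      change IsCyclotomicExtension {p ^ (m + 1)} ℚ (IntermediateField.adjoin ℚ {ζ}).toSubalgebra
      rw [IntermediateField.adjoin_simple_toSubalgebra_of_isAlgebraic hζint.isAlgebraic]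
      exact hζ.adjoin_isCyclotomicExtension ℚ
    exact IsCyclotomicExtension.finrank C
      (Polynomial.cyclotomic.irreducible_rat (Nat.pos_of_ne_zero hn0))
  have mKN : finrank F ↥(F ⊔ E) * finrank ↥(F ⊔ E) ↥(F ⊔ C) = finrank F ↥(F ⊔ C) :=
    finrank_mul_finrank F ↥(F ⊔ E) ↥(F ⊔ C)
  have dKN : finrank ↥(F ⊔ E) ↥(F ⊔ C) ∣ p - 1 := by
    have h5 : finrank F ↥(F ⊔ C) ∣ (p ^ (m + 1)).totient := by
      rw [← dCfr]; exact dFN
    rw [← mKN, dFK, Nat.totient_prime_pow_succ hp] at h5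
    exact Nat.dvd_of_mul_dvd_mul_left (pow_pos hp.pos _) h5
  have hζN : ζ ∈ F ⊔ C :=
    (le_sup_right : C ≤ F ⊔ C) (IntermediateField.mem_adjoin_simple_self ℚ ζ)
  have hζ' : IsPrimitiveRoot (⟨ζ, hζN⟩ : ↥(F ⊔ C)) (p ^ (m + 1)) :=
    IsPrimitiveRoot.of_map_of_injective (f := (F ⊔ C).val) hζ (F ⊔ C).val.injective
  have dEK : finrank E ↥(F ⊔ E) < p := by
    have sE : IsScalarTower ℚ E ↥(F ⊔ E) := IsScalarTower.of_algebraMap_eq (fun _ => rfl)
    have h6 : @finrank ℚ E _ _ E.module' * finrank E ↥(F ⊔ E) = finrank ℚ ↥(F ⊔ E) :=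
      finrank_mul_finrank ℚ E ↥(F ⊔ E)
    rw [← mFK, dFK, hEfr, mul_comm] at h6
    rw [Nat.eq_of_mul_eq_mul_right (pow_pos hp.pos _) h6]
    exact hFfr
  exact ⟨gFK, dFK, dEK, fun Q1 Q2 a b c d =>
    unique_prime hp m hF dFK dKN _ hζ' Q1 Q2 a b c d⟩

/-- the layers of the cyclotomic tower of `F` itself -/
theorem layer_main {r : ℕ} (hp : p.Prime) (hp2 : p ≠ 2) (F : IntermediateField ℚ ℂ)
    [NumberField F] (hF : finrank ℚ F < p) {A B : Fin r → Ideal (𝓞 F)} {γ : Fin r → 𝓞 F}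
    {c : Fin r → Fin r → ℤ} (D : GrossData p A B γ c) (h2 : (pv p F).ncard ≤ r + 1)
    (hcl : ¬ p ∣ Nat.card (ClassGroup (𝓞 F))) (m : ℕ) (E : IntermediateField ℚ ℂ)
    (hE : IsLayer p m E) [NumberField ↥(F ⊔ E)] :
    padicValNat p (Nat.card (ClassGroup (𝓞 ↥(F ⊔ E)))) ≤ r * m ∧
      rk p (ClassGroup (𝓞 ↥(F ⊔ E))) ≤ r := by
  have hcl0 : ¬ p ∣ (pcl p F).index := fun h => hcl (h.trans (Subgroup.index_dvd_card _))
  have ht := split_tower hp hp2 F hF D h2 hcl0 m E hE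
  have hEfin : FiniteDimensional ℚ E := by
    apply FiniteDimensional.of_finrank_pos
    rw [hE.2]; exact pow_pos hp.pos _
  have hEnf : NumberField E := NumberField.of_module_finite ℚ _
  obtain ⟨hg, hd, hdE, huniq⟩ := layer_facts hp F hF m E hE le_sup_left le_sup_right
  letI aFK : Algebra F ↥(F ⊔ E) := (IntermediateField.inclusion le_sup_left).toRingHom.toAlgebra
  letI aEK : Algebra E ↥(F ⊔ E) := (IntermediateField.inclusion le_sup_right).toRingHom.toAlgebra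
  -- the class number of the rational layer
  have hbot : NumberField (⊥ : IntermediateField ℚ ℂ) :=
    NumberField.of_ringEquiv ℚ _ (IntermediateField.botEquiv ℚ ℂ).symm.toRingEquiv
  have hclE : ¬ p ∣ Nat.card (ClassGroup (𝓞 E)) := by
    obtain ⟨r1, r2⟩ := Mu22.ce_rat hp
    obtain ⟨b1, b2⟩ := Mu22.tw_equiv (p := p)
      (IntermediateField.botEquiv ℚ ℂ).symm.toRingEquiv r2 r1
    have h3 := Mu22.cyc_tower hp hp2 ⊥ b2 b1 m (m + 1) E hE.1 hE.2
    rwa [bot_sup_eq] at h3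
  have hcard : (pv p ↥(F ⊔ E)).ncard ≤ r + 1 := by
    refine le_trans ?_ h2
    let f : HeightOneSpectrum (𝓞 ↥(F ⊔ E)) → HeightOneSpectrum (𝓞 F) := fun v =>
      ⟨v.asIdeal.under (𝓞 F), by
        have := v.isPrime
        exact Ideal.IsPrime.under (𝓞 F) v.asIdeal, Mu22.under_ne_bot_of (K := F) v.asIdeal v.ne_bot⟩
    refine Set.ncard_le_ncard_of_injOn f ?_ ?_ (pv_finite hp)
    · intro v hv
      change (p : 𝓞 F) ∈ v.asIdeal.under (𝓞 F)
      rw [Ideal.under_def, Ideal.mem_comap]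
      have hv' : (p : 𝓞 ↥(F ⊔ E)) ∈ v.asIdeal := hv
      simpa using hv'
    · intro v hv w hw hvw
      have h4 : v.asIdeal.under (𝓞 F) = w.asIdeal.under (𝓞 F) :=
        congrArg HeightOneSpectrum.asIdeal hvw
      exact HeightOneSpectrum.ext (huniq _ _ v.isPrime w.isPrime hv h4)
  obtain ⟨T, hT, hc, hidx⟩ := layer_gen (F := F) (E := E) hp huniq hcard hclE hdE ht
  rw [hd] at hc
  exact ⟨val_of_index hp T r m _ hcl hT hc hidx, rk_of_index hp T r hT hidx⟩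

end Pool.Agent.Work.MuS
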