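import Pool.Agent.Work.MP_a4986b_nt.SpG
import Pool.Agent.Work.MP_a4986b_nt.BCor

set_option autoImplicit false
set_option maxHeartbeats 400000

/-! # Split primes: the quartic fields `K(√(1 + 4 p u))` -/

namespace Pool.Agent.Work.MuS

open NumberField Module IsDedekindDomain NumberField.InfinitePlace NumberField.Units
open scoped nonZeroDivisors
open Pool.Agent.Work.MuB

/-- class numbers of `K(√b)`, `K` real quadratic, `b` totally positive of size `O(p)` -/
theorem class_of_sq (K : Type) [Field K] [NumberField K] (hK : finrank ℚ K = 2) (r : K →+* ℝ)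
    (A : ℝ) (hA1 : 1 ≤ A) :
    ∃ p0 : ℕ, ∀ p : ℕ, p.Prime → p0 ≤ p →
      ∀ (F : Type) [Field F] [NumberField F] [Algebra K F], finrank K F = 2 →
        ∀ b : 𝓞 K, (∀ φ : K →+* ℝ, 0 < φ b) → (∀ v : InfinitePlace K, v (b : K) ≤ A * p) →
        ∀ z : F, z ^ 2 = algebraMap K F b → z ∉ Set.range (algebraMap K F) →
          ¬ p ∣ Nat.card (ClassGroup (𝓞 F)) := by
  classical
  obtain ⟨C, hC, hdisc⟩ := discr_le_of_unit_le K
  obtain ⟨c, hc, hnd⟩ := not_dvd_gen K 2
  obtain ⟨n0, hn0⟩ : ∃ n0 : ℕ, ∀ n : ℕ, n0 ≤ n → C * A ^ 2 ≤ c * (1 + Real.log n) ^ 2 := by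
    have h1 : Filter.Tendsto (fun n : ℕ => c * (1 + Real.log n) ^ 2) Filter.atTop
        Filter.atTop := by
      refine Filter.Tendsto.const_mul_atTop hc ?_
      refine (Filter.tendsto_pow_atTop two_ne_zero).comp ?_
      exact Filter.tendsto_atTop_add_const_left _ _
        (Real.tendsto_log_atTop.comp tendsto_natCast_atTop_atTop)
    exact Filter.eventually_atTop.mp (h1.eventually_ge_atTop (C * A ^ 2))
  refine ⟨n0, ?_⟩
  intro p hp hpn0 F _ _ _ h2 b hb hbA z hz hzK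
  have hzint : IsIntegral ℤ z := by
    refine IsIntegral.of_pow two_pos ?_
    rw [hz]
    have : (algebraMap K F) b = ((algebraMap (𝓞 K) (𝓞 F) b : 𝓞 F) : F) := (coe_map b).symm
    rw [this]
    exact RingOfIntegers.isIntegral_coe _
  set zz : 𝓞 F := ⟨z, hzint⟩ with hzz
  have htop := adjoin_eq_top_of_prime (by rw [h2]; exact Nat.prime_two) z hzK
  have : IsTotallyReal K := totallyReal_of_real hK r
  have : IsTotallyReal F := totallyReal_of_sq (K := K) h2 (b : K) hb z hz htop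
  have hrK : Units.rank K = 1 := by rw [rank_of_totallyReal, hK]
  have hFQ : finrank ℚ F = 4 := by
    rw [← Module.finrank_mul_finrank ℚ K F, hK, h2]
  have hrF : Units.rank F = 3 := by rw [rank_of_totallyReal, hFQ]
  refine hnd F p hp h2 (fun u hu => adjoin_eq_top_of_prime (by rw [h2]; exact Nat.prime_two) u hu)
    ?_
  rw [hrK, hrF]
  have hp1 : (1 : ℝ) ≤ p := by exact_mod_cast hp.one_lt.le
  have hB : ∀ w : InfinitePlace F, w (zz : F) ≤ √(A * p) := by
    intro w
    apply Real.le_sqrt_of_sq_le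
    have h6 : w (zz : F) ^ 2 = (w.comap (algebraMap K F)) b := by
      rw [comap_apply, ← map_pow]
      congr 1
    rw [h6]
    exact hbA _
  have h9 := hdisc F h2 zz hzK (√(A * p)) (by
    rw [Real.one_le_sqrt]
    nlinarith) hB
  rw [hK] at h9
  have h10 : √(A * p) ^ (2 * 2) = (A * p) ^ 2 := by
    rw [pow_mul, Real.sq_sqrt (by positivity)]
  rw [h10] at h9
  have h11 := hn0 p hpn0
  have h12 : (2 * (((3 : ℕ) : ℤ) - ((1 : ℕ) : ℤ) - ((2 : ℕ) : ℤ) + 1) : ℤ) = ((2 : ℕ) : ℤ) := by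
    norm_num
  rw [h12, zpow_natCast]
  calc |(discr F : ℝ)| ≤ C * (A * p) ^ 2 := h9
    _ = (C * A ^ 2) * p ^ 2 := by ring
    _ ≤ (c * (1 + Real.log p) ^ 2) * p ^ 2 := by gcongr
    _ = c * (p : ℝ) ^ 2 * (1 + Real.log p) ^ 2 := by ring

theorem coe_two (K : Type*) [Field K] [NumberField K] : algebraMap (𝓞 K) K 2 = 2 := by
  have h := map_natCast (algebraMap (𝓞 K) K) 2
  simpa only [Nat.cast_ofNat] using h

theorem map_four {K L : Type*} [Field K] [Field L] (f : K →+* L) : f 4 = 4 := by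
  have h := map_natCast f 4
  simpa only [Nat.cast_ofNat] using h

theorem coe_four (K : Type*) [Field K] [NumberField K] : algebraMap (𝓞 K) K 4 = 4 := by
  have h := map_natCast (algebraMap (𝓞 K) K) 4
  simpa only [Nat.cast_ofNat] using h

/-- `1 + 4 p u` is no square in `K` for large `p` inert in `K` -/
theorem not_square {K : Type} [Field K] [NumberField K] {p : ℕ} (hp : p.Prime)
    (hin : (Ideal.span {(p : 𝓞 K)}).IsPrime) (u : 𝓞 K) (hu0 : u ≠ 0) (A : ℝ)
    (hA : ∀ v : InfinitePlace K, v (u : K) ≤ A) (hpA : 4 * A + 2 < p) (y : 𝓞 K) :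
    y ^ 2 ≠ 1 + 4 * p * u := by
  intro hy
  have hpK0 : (p : 𝓞 K) ≠ 0 := by exact_mod_cast hp.ne_zero
  -- `p` divides `y - e` with `e = ± 1`
  obtain ⟨e, he, c, hc⟩ : ∃ e : 𝓞 K, (e = 1 ∨ e = -1) ∧ ∃ c : 𝓞 K, y = e + p * c := by
    have h1 : (y - 1) * (y + 1) ∈ Ideal.span {(p : 𝓞 K)} := by
      rw [Ideal.mem_span_singleton]
      exact ⟨4 * u, by linear_combination hy⟩
    rcases hin.mem_or_mem h1 with h2 | h2
    · obtain ⟨c, hc⟩ := Ideal.mem_span_singleton.mp h2
      exact ⟨1, Or.inl rfl, c, by linear_combination hc⟩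
    · obtain ⟨c, hc⟩ := Ideal.mem_span_singleton.mp h2
      exact ⟨-1, Or.inr rfl, c, by linear_combination hc⟩
  have he2 : e ^ 2 = 1 := by rcases he with rfl | rfl <;> ring
  have h3 : c * (2 * e + p * c) = 4 * u := by
    apply mul_left_cancel₀ hpK0
    have h4 : y ^ 2 = e ^ 2 + 2 * e * p * c + p ^ 2 * c ^ 2 := by rw [hc]; ring
    rw [he2, hy] at h4
    linear_combination -h4
  have hc0 : c ≠ 0 := by
    rintro rfl
    rw [zero_mul] at h3
    have : (4 : 𝓞 K) ≠ 0 := by norm_num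
    rcases mul_eq_zero.mp h3.symm with h | h
    · exact this h
    · exact hu0 h
  -- all absolute values of `c` are `< 1`
  have h5 : ∀ v : InfinitePlace K, v (c : K) < 1 := by
    intro v
    by_contra hlt
    rw [not_lt] at hlt
    have h6 : v (c : K) * v ((2 * e + p * c : 𝓞 K) : K) = v ((4 * u : 𝓞 K) : K) := by
      rw [← map_mul, ← h3]
      simp
    have he1 : v (e : K) = 1 := by
      have h9 : v (e : K) ^ 2 = 1 := by
        rw [← map_pow, ← map_pow, he2, map_one, map_one]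
      have h10 : 0 ≤ v (e : K) := apply_nonneg _ _
      nlinarith
    have h2' : v (2 : K) = 2 := by
      have := v.map_natCast 2 
      simpa using this
    have h4' : v (4 : K) = 4 := by
      have := v.map_natCast 4 
      simpa using this
    have h7 : v ((p * c : 𝓞 K) : K) = p * v (c : K) := by
      have := v.map_natCast p
      push_cast
      rw [map_mul]
      simp
    have h8 : v ((p * c : 𝓞 K) : K) ≤ v ((2 * e + p * c : 𝓞 K) : K) + v ((2 * e : 𝓞 K) : K) := by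
      have h9 : ((p * c : 𝓞 K) : K) = ((2 * e + p * c : 𝓞 K) : K) + (-((2 * e : 𝓞 K) : K)) := by
        push_cast; ring
      rw [h9]
      refine (v.val.add_le _ _).trans ?_
      rw [AbsoluteValue.map_neg]
      exact le_rfl
    have h10 : v ((2 * e : 𝓞 K) : K) = 2 := by
      have h9 : ((2 * e : 𝓞 K) : K) = 2 * (e : K) := by
        simp [coe_two]
      rw [h9, map_mul, h2', he1, mul_one]
    have h11 : v ((4 * u : 𝓞 K) : K) = 4 * v (u : K) := by
      have h9 : ((4 * u : 𝓞 K) : K) = 4 * (u : K) := by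
        simp [coe_four]
      rw [h9, map_mul, h4']
    have h12 := hA v
    have h13 : (p : ℝ) - 2 ≤ v ((2 * e + p * c : 𝓞 K) : K) := by
      rw [h7, h10] at h8
      have hp0 : (0 : ℝ) ≤ p := Nat.cast_nonneg p
      nlinarith
    have h14 : (p : ℝ) - 2 ≤ 4 * A := by
      rw [h11] at h6
      have h15 : 0 ≤ v ((2 * e + p * c : 𝓞 K) : K) := apply_nonneg _ _
      nlinarith
    linarith
  have w : InfinitePlace K := Classical.arbitrary _
  exact absurd (one_le_of_lt_one hc0 (fun z _ => h5 z)) (not_le.mpr (h5 w))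

theorem eq_of_absNorm {F : Type*} [Field F] [NumberField F] {I Q : Ideal (𝓞 F)} (h : I ≤ Q)
    (hI : Ideal.absNorm I ≠ 0) (hN : Ideal.absNorm I ≤ Ideal.absNorm Q) : Q = I := by
  obtain ⟨J, hJ⟩ := Ideal.dvd_iff_le.mpr h
  have h1 : Ideal.absNorm I = Ideal.absNorm Q * Ideal.absNorm J := by
    rw [hJ, map_mul]
  have hQ : Ideal.absNorm Q ≠ 0 := fun h0 => hI (by rw [h1, h0, zero_mul])
  have h2 : Ideal.absNorm J = 1 := by
    have h3 : Ideal.absNorm J ≠ 0 := fun h0 => hI (by rw [h1, h0, mul_zero])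
    have h4 : Ideal.absNorm Q * Ideal.absNorm J ≤ Ideal.absNorm Q * 1 := by
      rw [← h1, mul_one]; exact hN
    have h5 := Nat.le_of_mul_le_mul_left h4 (Nat.pos_of_ne_zero hQ)
    omega
  rw [Ideal.absNorm_eq_one_iff] at h2
  rw [hJ, h2, Ideal.mul_top]

/-- the norm of a quadratic element -/
theorem norm_quadratic {K F : Type*} [Field K] [Field F] [Algebra K F] (h2 : finrank K F = 2)
    (x : F) (hx : x ∉ Set.range (algebraMap K F)) (s n : K)
    (h : x ^ 2 - algebraMap K F s * x + algebraMap K F n = 0) : Algebra.norm K x = n := by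
  classical
  have hfin : FiniteDimensional K F := FiniteDimensional.of_finrank_pos (by rw [h2]; norm_num)
  have hint : IsIntegral K x := Algebra.IsIntegral.isIntegral x
  have htop := adjoin_eq_top_of_prime (by rw [h2]; exact Nat.prime_two) x hx
  have hdeg : (minpoly K x).natDegree = 2 := by
    rw [← IntermediateField.adjoin.finrank hint, htop, IntermediateField.finrank_top', h2]
  have hmon : (Polynomial.X ^ 2 - Polynomial.C s * Polynomial.X + Polynomial.C n : Polynomial K).Monic := by monicity!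
  have hnd : (Polynomial.X ^ 2 - Polynomial.C s * Polynomial.X + Polynomial.C n : Polynomial K).natDegree = 2 := by compute_degree!
  have hmp : minpoly K x =
      Polynomial.X ^ 2 - Polynomial.C s * Polynomial.X + Polynomial.C n := by
    refine (Polynomial.eq_of_monic_of_dvd_of_natDegree_le (minpoly.monic hint) hmon ?_ ?_).symm
    · apply minpoly.dvd
      rw [map_add, map_sub, map_mul, map_pow, Polynomial.aeval_X, Polynomial.aeval_C,
        Polynomial.aeval_C]
      exact h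
    · rw [hnd, hdeg]
  have hadj : Algebra.adjoin K {x} = ⊤ := by
    have h3 := IntermediateField.adjoin_simple_toSubalgebra_of_isAlgebraic hint.isAlgebraic
    rw [htop] at h3
    rw [← h3, IntermediateField.top_toSubalgebra]
  have h4 := Algebra.PowerBasis.norm_gen_eq_coeff_zero_minpoly (PowerBasis.ofAdjoinEqTop hint hadj)
  have h5 : (PowerBasis.ofAdjoinEqTop hint hadj).gen = x := PowerBasis.ofAdjoinEqTop_gen hint hadj
  have h6 : (PowerBasis.ofAdjoinEqTop hint hadj).dim = 2 := by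
    rw [← PowerBasis.natDegree_minpoly, h5, hdeg]
  rw [h6, h5, hmp] at h4
  rw [h4]
  simp

/-- `(1 + p s)^n = 1 + n p s` modulo `p ^ 2` -/
theorem one_add_pow_mod (p s : ℤ) (n : ℕ) : p ^ 2 ∣ (1 + p * s) ^ n - (1 + n * (p * s)) := by
  induction n with
  | zero => simp
  | succ n ih =>
    have h1 : (1 + p * s) ^ (n + 1) - (1 + ((n + 1 : ℕ) : ℤ) * (p * s)) =
        (1 + p * s) * ((1 + p * s) ^ n - (1 + n * (p * s))) + p ^ 2 * (n * s ^ 2) := by
      push_cast; ring
    rw [h1]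
    exact dvd_add (Dvd.dvd.mul_left ih _) (dvd_mul_right _ _)

theorem trace_ne_zero {K : Type} [Field K] [NumberField K] [IsTotallyReal K] (u : 𝓞 K)
    (hu : ∀ φ : K →+* ℝ, 0 < φ u) : Algebra.trace ℤ (𝓞 K) u ≠ 0 := by
  intro h0
  have h1 : Algebra.trace ℚ K (u : K) = 0 := by
    have h2 := Algebra.trace_localization ℤ (nonZeroDivisors ℤ) (S := 𝓞 K) (Rₘ := ℚ) (Sₘ := K) u
    rw [h0] at h2
    simpa using h2
  have h2 := trace_eq_sum_embeddings (K := ℚ) (L := K) (E := ℂ) (x := (u : K))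
  rw [h1, map_zero] at h2
  have h3 : ∀ σ : K →ₐ[ℚ] ℂ, 0 < (σ (u : K)).re := by
    intro σ
    have hreal : ComplexEmbedding.IsReal (σ : K →+* ℂ) := by
      have := IsTotallyReal.isReal (InfinitePlace.mk (σ : K →+* ℂ))
      exact isReal_mk_iff.mp this
    have h4 : (σ : K →+* ℂ) (u : K) = ((hreal.embedding (u : K) : ℝ) : ℂ) :=
      (hreal.coe_embedding_apply (u : K)).symm
    have h5 : σ (u : K) = ((hreal.embedding (u : K) : ℝ) : ℂ) := h4
    rw [h5, Complex.ofReal_re]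
    exact hu _
  have h4 : 0 < ∑ σ : K →ₐ[ℚ] ℂ, (σ (u : K)).re := by
    apply Finset.sum_pos (fun σ _ => h3 σ)
    have : Nonempty (K →ₐ[ℚ] ℂ) := by
      obtain ⟨φ⟩ : Nonempty (K →+* ℂ) := inferInstance
      exact ⟨φ.toRatAlgHom⟩
    exact Finset.univ_nonempty
  have h5 := congrArg Complex.re h2
  rw [Complex.re_sum, Complex.zero_re] at h5
  linarith

/-- `α β = - p u`, `α + β = 1`: the primes above the inert `p` are `(α)` and `(β)` -/
theorem two_primes {K F : Type} [Field K] [NumberField K] [Field F] [NumberField F] [Algebra K F]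
    {p : ℕ} (hp : p.Prime) (hin : (Ideal.span {(p : 𝓞 K)}).IsPrime)
    (h2 : finrank K F = 2) (u : (𝓞 K)ˣ) (α β : 𝓞 F) (hs : α + β = 1)
    (hm : α * β = - algebraMap (𝓞 K) (𝓞 F) (p * (u : 𝓞 K)))
    (hα : ¬ IsUnit α) (hβ : ¬ IsUnit β) : (pv p F).ncard = 2 := by
  classical
  have hp0 : (p : 𝓞 F) ≠ 0 := by exact_mod_cast hp.ne_zero
  have hpK0 : (p : 𝓞 K) ≠ 0 := by exact_mod_cast hp.ne_zero
  have hmaxK : (Ideal.span {(p : 𝓞 K)}).IsMaximal := hin.isMaximal (by simpa using hpK0)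
  -- `p` is `α β` times a unit
  set v : 𝓞 F := algebraMap (𝓞 K) (𝓞 F) ((u⁻¹ : (𝓞 K)ˣ) : 𝓞 K) with hv
  have hpe : (p : 𝓞 F) = - (α * β * v) := by
    rw [hm, hv, neg_mul, neg_neg, ← map_mul, mul_assoc, Units.mul_inv, mul_one, map_natCast]
  have hne0 : ∀ R : Ideal (𝓞 F), (p : 𝓞 F) ∈ R → R ≠ ⊥ := fun R hR h => by
    rw [h] at hR
    exact hp0 (by simpa using hR)
  have hcomap : ∀ R : Ideal (𝓞 F), R.IsPrime → (p : 𝓞 F) ∈ R →
      R.comap (algebraMap (𝓞 K) (𝓞 F)) = Ideal.span {(p : 𝓞 K)} := by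
    intro R hR hpR
    refine (hmaxK.eq_of_le ?_ ?_).symm
    · exact (Ideal.IsPrime.comap (algebraMap (𝓞 K) (𝓞 F))).ne_top
    · rw [Ideal.span_singleton_le_iff_mem, Ideal.mem_comap]
      simpa using hpR
  have hnorm : ∀ R : Ideal (𝓞 F), R.IsPrime → (p : 𝓞 F) ∈ R →
      p ^ finrank ℚ K ≤ Ideal.absNorm R := by
    intro R hR hpR
    have := absNorm_comap_le (K := K) R (hne0 R hpR)
    rwa [hcomap R hR hpR, absNorm_span_nat] at this
  have hpα : ∀ R : Ideal (𝓞 F), α ∈ R → (p : 𝓞 F) ∈ R := by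
    intro R h
    rw [hpe, neg_mem_iff, mul_assoc]
    exact R.mul_mem_right _ h
  have hpβ : ∀ R : Ideal (𝓞 F), β ∈ R → (p : 𝓞 F) ∈ R := by
    intro R h
    rw [hpe, neg_mem_iff, mul_comm α β, mul_assoc]
    exact R.mul_mem_right _ h
  have hnot : ∀ R : Ideal (𝓞 F), R.IsPrime → α ∈ R → β ∈ R → False := by
    intro R hR h h'
    apply hR.ne_top
    rw [Ideal.eq_top_iff_one, ← hs]
    exact R.add_mem h h'
  have hsp : Ideal.absNorm (Ideal.span {α}) * Ideal.absNorm (Ideal.span {β}) =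
      p ^ finrank ℚ K * p ^ finrank ℚ K := by
    have h9 : finrank ℚ F = finrank ℚ K * 2 := by
      rw [← Module.finrank_mul_finrank ℚ K F, h2]
    rw [← map_mul, Ideal.span_singleton_mul_span_singleton, ← pow_two, ← pow_mul, ← h9,
      ← absNorm_span_nat (F := F) p]
    congr 1
    rw [Ideal.span_singleton_eq_span_singleton]
    refine ⟨-(Units.map (algebraMap (𝓞 K) (𝓞 F)).toMonoidHom u⁻¹), ?_⟩
    rw [Units.val_neg, mul_neg, hpe]
    rfl
  -- norms of `(α)`, `(β)`
  have hge : ∀ x : 𝓞 F, ¬ IsUnit x → (∀ R : Ideal (𝓞 F), x ∈ R → (p : 𝓞 F) ∈ R) → x ≠ 0 →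
      p ^ finrank ℚ K ≤ Ideal.absNorm (Ideal.span {x}) := by
    intro x hx hxp hx0
    obtain ⟨P, hPm, hpP⟩ := Ideal.exists_le_maximal (Ideal.span {x})
      (fun h => hx (Ideal.span_singleton_eq_top.mp h))
    have h1 : x ∈ P := hpP (Ideal.mem_span_singleton_self _)
    have h3 : Ideal.absNorm (Ideal.span {x}) ≠ 0 := by
      rw [Ne, Ideal.absNorm_eq_zero_iff, Ideal.span_singleton_eq_bot]
      exact hx0
    exact (hnorm P hPm.isPrime (hxp P h1)).trans
      (Nat.le_of_dvd (Nat.pos_of_ne_zero h3) (Ideal.absNorm_dvd_absNorm_of_le hpP))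
  have hα0 : α ≠ 0 := by
    rintro rfl
    apply hp0
    rw [hpe, zero_mul, zero_mul, neg_zero]
  have hβ0 : β ≠ 0 := by
    rintro rfl
    apply hp0
    rw [hpe, mul_zero, zero_mul, neg_zero]
  have hgα := hge α hα hpα hα0
  have hgβ := hge β hβ hpβ hβ0
  have hpos : 0 < p ^ finrank ℚ K := pow_pos hp.pos _
  have hNα : Ideal.absNorm (Ideal.span {α}) = p ^ finrank ℚ K := by
    refine le_antisymm ?_ hgα
    refine Nat.le_of_mul_le_mul_right ?_ hpos
    rw [← hsp]
    exact Nat.mul_le_mul_left _ hgβ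
  have hNβ : Ideal.absNorm (Ideal.span {β}) = p ^ finrank ℚ K := by
    refine le_antisymm ?_ hgβ
    refine Nat.le_of_mul_le_mul_left ?_ hpos
    rw [← hsp]
    exact Nat.mul_le_mul_right _ hgα
  -- primes containing `x`
  have heq : ∀ x : 𝓞 F, Ideal.absNorm (Ideal.span {x}) = p ^ finrank ℚ K →
      (∀ R : Ideal (𝓞 F), x ∈ R → (p : 𝓞 F) ∈ R) →
      ∀ R : Ideal (𝓞 F), R.IsPrime → x ∈ R → R = Ideal.span {x} := by
    intro x hx hxp R hR hxR
    refine eq_of_absNorm ?_ ?_ ?_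
    · rw [Ideal.span_singleton_le_iff_mem]; exact hxR
    · rw [hx]; exact hpos.ne'
    · rw [hx]; exact hnorm R hR (hxp R hxR)
  have hprime : ∀ x : 𝓞 F, ¬ IsUnit x → Ideal.absNorm (Ideal.span {x}) = p ^ finrank ℚ K →
      (∀ R : Ideal (𝓞 F), x ∈ R → (p : 𝓞 F) ∈ R) → (Ideal.span {x}).IsPrime := by
    intro x hx hN hxp
    obtain ⟨P, hPm, hpP⟩ := Ideal.exists_le_maximal (Ideal.span {x})
      (fun h => hx (Ideal.span_singleton_eq_top.mp h))
    have h1 : x ∈ P := hpP (Ideal.mem_span_singleton_self _)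
    rw [← heq x hN hxp P hPm.isPrime h1]
    exact hPm.isPrime
  have hPα := hprime α hα hNα hpα
  have hPβ := hprime β hβ hNβ hpβ
  let vα : HeightOneSpectrum (𝓞 F) := ⟨Ideal.span {α}, hPα, by simpa using hα0⟩
  let vβ : HeightOneSpectrum (𝓞 F) := ⟨Ideal.span {β}, hPβ, by simpa using hβ0⟩
  have hset : pv p F = {vα, vβ} := by
    ext w
    rw [Set.mem_insert_iff, Set.mem_singleton_iff]
    constructor
    · intro hw
      have hw' : (p : 𝓞 F) ∈ w.asIdeal := hw
      have h1 : α * β ∈ w.asIdeal := by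
        rw [hm, neg_mem_iff, map_mul, map_natCast]
        exact w.asIdeal.mul_mem_right _ hw'
      rcases w.isPrime.mem_or_mem h1 with h | h
      · left
        exact HeightOneSpectrum.ext (heq α hNα hpα _ w.isPrime h)
      · right
        exact HeightOneSpectrum.ext (heq β hNβ hpβ _ w.isPrime h)
    · rintro (rfl | rfl)
      · exact hpα _ (Ideal.mem_span_singleton_self _)
      · exact hpβ _ (Ideal.mem_span_singleton_self _)
  rw [hset, Set.ncard_pair]
  intro h
  have h1 : Ideal.span {α} = Ideal.span {β} := congrArg HeightOneSpectrum.asIdeal h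
  refine hnot _ hPα (Ideal.mem_span_singleton_self _) ?_
  rw [h1]
  exact Ideal.mem_span_singleton_self _

/-- Quartic fields `F = K(√(1 + 4 p u))`, `K` real quadratic, `u` a totally positive unit: for
every large `p` inert in `K` there are two primes above `p` and `SplitExtensions` holds -/
theorem quartic (K : Type) [Field K] [NumberField K] (hK : finrank ℚ K = 2) (r : K →+* ℝ)
    (u : (𝓞 K)ˣ) (hu : ∀ φ : K →+* ℝ, 0 < φ (u : 𝓞 K)) :
    ∃ p0 : ℕ, ∀ p : ℕ, p.Prime → p0 ≤ p → (Ideal.span {(p : 𝓞 K)}).IsPrime →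
      ∀ (F : Type) [Field F] [NumberField F] [Algebra K F], finrank K F = 2 →
        (∃ z : F, z ^ 2 = algebraMap K F (1 + 4 * p * (u : 𝓞 K))) →
          (pv p F).ncard = 2 ∧ SplitExtensions p 1 F := by
  classical
  have hTR : IsTotallyReal K := totallyReal_of_real hK r
  obtain ⟨A, hA1, hA⟩ : ∃ A : ℝ, 1 ≤ A ∧ ∀ v : InfinitePlace K, v ((u : 𝓞 K) : K) ≤ A := by
    have hfin : (Set.range fun v : InfinitePlace K => v ((u : 𝓞 K) : K)).Finite :=
      Set.finite_range _
    obtain ⟨A, hA⟩ := hfin.bddAbove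
    exact ⟨max A 1, le_max_right _ _, fun v => (hA ⟨v, rfl⟩).trans (le_max_left _ _)⟩
  obtain ⟨p1, hcls⟩ := class_of_sq K hK r (4 * A + 1) (by linarith)
  set t : ℤ := Algebra.trace ℤ (𝓞 K) (u : 𝓞 K) with ht
  have ht0 : t ≠ 0 := trace_ne_zero (u : 𝓞 K) hu
  obtain ⟨n1, hn1⟩ := exists_nat_gt (4 * A + 2)
  refine ⟨max (max p1 n1) (max 5 (t.natAbs + 1)), ?_⟩
  intro p hp hpp hin F _ _ _ h2 ⟨z, hz⟩
  have hpp1 : p1 ≤ p := le_trans (le_trans (le_max_left _ _) (le_max_left _ _)) hpp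
  have hpn1 : n1 ≤ p := le_trans (le_trans (le_max_right _ _) (le_max_left _ _)) hpp
  have hp5 : 5 ≤ p := le_trans (le_trans (le_max_left _ _) (le_max_right _ _)) hpp
  have hpt : t.natAbs + 1 ≤ p := le_trans (le_trans (le_max_right _ _) (le_max_right _ _)) hpp
  have hpA : 4 * A + 2 < p := lt_of_lt_of_le hn1 (by exact_mod_cast hpn1)
  have hpK0 : (p : 𝓞 K) ≠ 0 := by exact_mod_cast hp.ne_zero
  have hp0 : (p : 𝓞 F) ≠ 0 := by exact_mod_cast hp.ne_zero
  have hprime : Prime (p : 𝓞 K) := (Ideal.span_singleton_prime hpK0).mp hin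
  set d : 𝓞 K := 1 + 4 * p * (u : 𝓞 K) with hd
  have hdK : (d : K) = 1 + 4 * p * ((u : 𝓞 K) : K) := by
    rw [hd]; simp [coe_four]
  have hz' : z ^ 2 = algebraMap K F (d : K) := by
    rw [hz, hdK]
  have hzint : IsIntegral ℤ z := by
    refine IsIntegral.of_pow two_pos ?_
    rw [hz', ← coe_map d]
    exact RingOfIntegers.isIntegral_coe _
  have hzK : z ∉ Set.range (algebraMap K F) := by
    rintro ⟨y, hy⟩
    have hyint : IsIntegral ℤ y := by
      have h1 : IsIntegral ℤ (algebraMap K F y) := by rw [hy]; exact hzint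
      exact (isIntegral_algebraMap_iff (algebraMap K F).injective).mp h1
    obtain ⟨yy, hyy⟩ : ∃ yy : 𝓞 K, (yy : K) = y := ⟨⟨y, hyint⟩, rfl⟩
    refine not_square hp hin (u : 𝓞 K) u.ne_zero A hA hpA yy ?_
    apply RingOfIntegers.ext
    apply (algebraMap K F).injective
    have h3 : algebraMap K F (y ^ 2) = algebraMap K F (d : K) := by
      rw [map_pow, hy, hz']
    rw [← hyy] at h3
    exact h3
  have hcl : ¬ p ∣ Nat.card (ClassGroup (𝓞 F)) := by
    refine hcls p hp hpp1 F h2 d ?_ ?_ z hz' hzK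
    · intro φ
      have h1 : φ (d : K) = 1 + 4 * p * φ ((u : 𝓞 K) : K) := by
        rw [hdK]; simp [map_four]
      rw [h1]
      have h3 := hu φ
      positivity
    · intro v
      have h1 : v (d : K) ≤ 1 + 4 * p * v ((u : 𝓞 K) : K) := by
        rw [hdK]
        refine (v.val.add_le _ _).trans ?_
        have h3 : v.val (1 : K) = 1 := map_one v
        have h4 : v.val (4 * (p : K) * ((u : 𝓞 K) : K)) = 4 * p * v ((u : 𝓞 K) : K) := by
          have h5 : v (4 * (p : K) * ((u : 𝓞 K) : K)) = 4 * p * v ((u : 𝓞 K) : K) := by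
            have h6 := v.map_natCast 4
            have h7 := v.map_natCast p
            push_cast at h6
            rw [map_mul, map_mul, h6, h7]
          exact h5
        rw [h3, h4]
      have h3 := hA v
      have h4 : (1 : ℝ) ≤ p := by exact_mod_cast hp.one_lt.le
      nlinarith
  -- the elements
  have hαint : IsIntegral ℤ ((1 + z) / 2) := by
    refine IsIntegral.of_aeval_monic (p := Polynomial.X ^ 2 - Polynomial.X) ?_ ?_ ?_
    · monicity!
    · have : (Polynomial.X ^ 2 - Polynomial.X : Polynomial ℤ).natDegree = 2 := by compute_degree!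
      rw [this]; norm_num
    · have h1 : Polynomial.aeval ((1 + z) / 2) (Polynomial.X ^ 2 - Polynomial.X : Polynomial ℤ) =
          ((algebraMap (𝓞 K) (𝓞 F) (p * (u : 𝓞 K)) : 𝓞 F) : F) := by
        rw [coe_map, map_sub, map_pow, Polynomial.aeval_X]
        have h3 : z ^ 2 = 1 + 4 * (p * algebraMap K F ((u : 𝓞 K) : K)) := by
          rw [hz', hdK]
          simp [map_four]
          ring
        have h4 : algebraMap K F ((p * (u : 𝓞 K) : 𝓞 K) : K) =
            p * algebraMap K F ((u : 𝓞 K) : K) := by simp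
        rw [h4]
        linear_combination (1 / 4 : F) * h3
      rw [h1]
      exact RingOfIntegers.isIntegral_coe _
  set α : 𝓞 F := ⟨(1 + z) / 2, hαint⟩ with hα
  have hαc : (α : F) = (1 + z) / 2 := rfl
  have hz3 : z ^ 2 = 1 + 4 * (p * algebraMap K F ((u : 𝓞 K) : K)) := by
    rw [hz', hdK]
    simp [map_four]
    ring
  have hm : α * (1 - α) = - algebraMap (𝓞 K) (𝓞 F) (p * (u : 𝓞 K)) := by
    apply RingOfIntegers.ext
    have h4 : ((algebraMap (𝓞 K) (𝓞 F) (p * (u : 𝓞 K)) : 𝓞 F) : F) =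
        p * algebraMap K F ((u : 𝓞 K) : K) := by
      rw [coe_map]; simp
    have h5 : ((α * (1 - α) : 𝓞 F) : F) = (α : F) * (1 - (α : F)) := by simp
    have h6 : ((- algebraMap (𝓞 K) (𝓞 F) (p * (u : 𝓞 K)) : 𝓞 F) : F) =
        - ((algebraMap (𝓞 K) (𝓞 F) (p * (u : 𝓞 K)) : 𝓞 F) : F) := by simp
    rw [h5, h6, h4, hαc]
    linear_combination (-1 / 4 : F) * hz3
  have hαK : (α : F) ∉ Set.range (algebraMap K F) := by
    rintro ⟨y, hy⟩
    apply hzK
    refine ⟨2 * y - 1, ?_⟩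
    rw [map_sub, map_mul, hy, hαc, map_one, map_ofNat]
    ring
  have hmF : (α : F) ^ 2 - algebraMap K F 1 * (α : F) +
      algebraMap K F ((-(p * (u : 𝓞 K)) : 𝓞 K) : K) = 0 := by
    have h4 : algebraMap K F ((-(p * (u : 𝓞 K)) : 𝓞 K) : K) =
        - (p * algebraMap K F ((u : 𝓞 K) : K)) := by simp
    rw [h4, hαc, map_one]
    linear_combination (1 / 4 : F) * hz3
  have hnα : RingOfIntegers.norm K α = -(p * (u : 𝓞 K)) := by
    apply RingOfIntegers.ext
    change Algebra.norm K (α : F) = _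
    exact norm_quadratic h2 (α : F) hαK 1 _ hmF
  have hβc : ((1 - α : 𝓞 F) : F) = 1 - (α : F) := by simp
  have hnβ : RingOfIntegers.norm K (1 - α) = -(p * (u : 𝓞 K)) := by
    apply RingOfIntegers.ext
    change Algebra.norm K ((1 - α : 𝓞 F) : F) = _
    refine norm_quadratic h2 _ ?_ 1 _ ?_
    · rintro ⟨y, hy⟩
      apply hαK
      refine ⟨1 - y, ?_⟩
      rw [map_sub, hy, map_one, hβc]
      ring
    · rw [hβc]
      linear_combination hmF + (2 * (α : F) - 1) * (map_one (algebraMap K F))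
  have hnu : ¬ IsUnit (-(p * (u : 𝓞 K)) : 𝓞 K) := by
    intro h
    rw [IsUnit.neg_iff] at h
    exact hprime.not_isUnit (isUnit_of_mul_isUnit_left h)
  have hαu : ¬ IsUnit α := fun h => hnu (hnα ▸ h.map (RingOfIntegers.norm K))
  have hβu : ¬ IsUnit (1 - α) := fun h => hnu (hnβ ▸ h.map (RingOfIntegers.norm K))
  have hcard : (pv p F).ncard = 2 :=
    two_primes hp hin h2 u α (1 - α) (by ring) hm hαu hβu
  refine ⟨hcard, ?_⟩
  have hFQ : finrank ℚ F = 4 := by
    rw [← Module.finrank_mul_finrank ℚ K F, hK, h2]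
  -- the norm of `b0`
  obtain ⟨s, hs⟩ : ∃ s : ℤ, Algebra.norm ℤ (1 + p * (u : 𝓞 K)) = 1 + p * (t + p * s) := by
    obtain ⟨r1, hr1⟩ := Algebra.norm_one_add_smul (A := ℤ) (p : ℤ) (u : 𝓞 K)
    refine ⟨r1, ?_⟩
    have h1 : (p : ℤ) • (u : 𝓞 K) = p * (u : 𝓞 K) := by simp
    rw [h1] at hr1
    rw [hr1]
    ring
  have hpZ : Prime (p : ℤ) := Nat.prime_iff_prime_int.mp hp
  refine split_extensions (k := K) (α := α) (β := 1 - α) (γ := 1 - α)
    (b0 := 1 + p * (u : 𝓞 K)) hp (by omega) (by omega) ?_ hcard.le hcl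
  refine ⟨hprime, ?_, ?_, ?_, ?_, ?_, ?_, ?_, ?_⟩
  · rw [hnα]
    refine Associated.symm ⟨-u, ?_⟩
    simp
  · rintro h0
    apply hαK
    rw [h0]
    exact ⟨0, by simp⟩
  · rw [hnα, mul_comm, hm, map_neg]
  · exact ⟨1, 1, by ring⟩
  · refine ⟨-1, ?_⟩
    rw [map_add, map_one]
    linear_combination (-1 : 𝓞 F) * hm
  · refine ⟨1, ?_⟩
    refine ⟨-(α * algebraMap (𝓞 K) (𝓞 F) ((u⁻¹ : (𝓞 K)ˣ) : 𝓞 K)), ?_⟩
    have h1 : algebraMap (𝓞 K) (𝓞 F) (p * (u : 𝓞 K)) *
        algebraMap (𝓞 K) (𝓞 F) ((u⁻¹ : (𝓞 K)ˣ) : 𝓞 K) = p := by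
      rw [← map_mul, mul_assoc, Units.mul_inv, mul_one, map_natCast]
    rw [pow_one]
    linear_combination (algebraMap (𝓞 K) (𝓞 F) ((u⁻¹ : (𝓞 K)ˣ) : 𝓞 K)) * hm - h1
  · rw [hs]
    intro h
    have h1 : (p : ℤ) ∣ 1 := by
      have h3 := dvd_sub h (dvd_mul_right (p : ℤ) (t + p * s))
      simpa using h3
    exact hpZ.not_isUnit (isUnit_of_dvd_one h1)
  · rw [hs]
    intro h
    have h1 := one_add_pow_mod (p : ℤ) (t + p * s) (p - 1)
    have h3 : (p : ℤ) ^ 2 ∣ ((p - 1 : ℕ) : ℤ) * (p * (t + p * s)) := by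
      have h4 := dvd_sub h h1
      have h5 : (1 + (p : ℤ) * (t + p * s)) ^ (p - 1) - 1 -
          ((1 + (p : ℤ) * (t + p * s)) ^ (p - 1) - (1 + ((p - 1 : ℕ) : ℤ) * (p * (t + p * s)))) =
          ((p - 1 : ℕ) : ℤ) * (p * (t + p * s)) := by ring
      rwa [h5] at h4
    have h4 : (p : ℤ) ∣ ((p - 1 : ℕ) : ℤ) * (t + p * s) := by
      have h5 : (p : ℤ) * p ∣ p * (((p - 1 : ℕ) : ℤ) * (t + p * s)) := by
        rw [← pow_two]
        have h6 : (p : ℤ) * (((p - 1 : ℕ) : ℤ) * (t + p * s)) =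
          ((p - 1 : ℕ) : ℤ) * (p * (t + p * s)) := by ring
        rw [h6]; exact h3
      exact (mul_dvd_mul_iff_left (by exact_mod_cast hp.ne_zero)).mp h5
    rcases hpZ.dvd_or_dvd h4 with h5 | h5
    · have h6 := Int.le_of_dvd (by omega) h5
      omega
    · have h6 : (p : ℤ) ∣ t := by
        have h7 := dvd_sub h5 (dvd_mul_right (p : ℤ) s)
        simpa using h7
      have h7 := Int.natAbs_dvd_natAbs.mpr h6
      have h8 := Nat.le_of_dvd (Int.natAbs_pos.mpr ht0) h7
      simp only [Int.natAbs_natCast] at h8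
      omega

end Pool.Agent.Work.MuS
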