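import Pool.Agent.Work.MP_a4986b_nt.SpY

set_option autoImplicit false
set_option maxHeartbeats 1000000

/-! # Split primes, many fields with `(p) = P Q` -/

namespace Pool.Agent.Work.MuS

open NumberField Module IsDedekindDomain
open scoped nonZeroDivisors Pointwise
open Pool.Agent.Work.MuB

theorem on_size_real {P M X κ t : ℝ} (hP1 : 1 ≤ P) (hM : 1 ≤ M) (hK : 0 ≤ κ) (hXK : κ + 1 ≤ X)
    (q1 : 4 * M ^ 2 * (1 + M) * X ^ 12 + (32 + 36 * M) * P * X ^ 6 ≤ 27 * P ^ 2)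
    (q2 : 27 * P ^ 2 < 4 * M ^ 2 * (1 + M) * (X + 1) ^ 12 + (32 + 36 * M) * P * (X + 1) ^ 6)
    (q3 : P ≤ (X + 1) ^ 24) (ht1 : (X - κ) ^ 2 ≤ t) (ht2 : t ≤ (X + 1) ^ 2) :
    |4 * M ^ 2 * (1 + M) * t ^ 6 + (32 + 36 * M) * t ^ 3 * P - 27 * P ^ 2| ≤
      2804736 * (κ + 1) * P ^ (2 - 1 / 24 : ℝ) := by
  have hX : 1 ≤ X := by linarith
  have hP0 : 0 < P := by linarith
  have i1 : M ^ 3 * X ^ 12 ≤ 7 * P ^ 2 := by
    have e1 : 4 * (M ^ 3 * X ^ 12) ≤ 4 * M ^ 2 * (1 + M) * X ^ 12 := by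
      have h0 : 0 ≤ M ^ 2 * X ^ 12 := by positivity
      have h3 : 4 * M ^ 2 * (1 + M) * X ^ 12 = 4 * (M ^ 3 * X ^ 12) + 4 * (M ^ 2 * X ^ 12) := by
        ring
      linarith
    have e2 : 0 ≤ (32 + 36 * M) * P * X ^ 6 := by positivity
    have e3 : 0 ≤ P ^ 2 := sq_nonneg P
    linarith
  have hroot : P ^ (1 / 24 : ℝ) ≤ X + 1 := by
    calc P ^ (1 / 24 : ℝ) ≤ ((X + 1) ^ 24) ^ (1 / 24 : ℝ) :=
          Real.rpow_le_rpow hP0.le q3 (by norm_num)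
      _ = X + 1 := by
          rw [← Real.rpow_natCast, ← Real.rpow_mul (by linarith)]
          norm_num
  have hsplit : P ^ (2 - 1 / 24 : ℝ) * P ^ (1 / 24 : ℝ) = P ^ 2 := by
    rw [← Real.rpow_add hP0, ← Real.rpow_natCast]
    norm_num
  have hr0 : 0 < P ^ (1 / 24 : ℝ) := Real.rpow_pos_of_pos hP0 _
  have i2 : M ^ 3 * X ^ 11 ≤ 14 * P ^ (2 - 1 / 24 : ℝ) := by
    have e1 : M ^ 3 * X ^ 11 * P ^ (1 / 24 : ℝ) ≤ 14 * P ^ 2 := by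
      calc M ^ 3 * X ^ 11 * P ^ (1 / 24 : ℝ) ≤ M ^ 3 * X ^ 11 * (2 * X) := by
            gcongr
            linarith
        _ = 2 * (M ^ 3 * X ^ 12) := by ring
        _ ≤ 14 * P ^ 2 := by linarith
    rw [← hsplit, ← mul_assoc] at e1
    exact le_of_mul_le_mul_right e1 hr0
  have i3 : M * X ^ 5 * P ≤ 4 * P ^ (2 - 1 / 24 : ℝ) := by
    have e1 : M * X ^ 4 ≤ 2 * P ^ (2 / 3 : ℝ) := by
      have h : (M * X ^ 4) ^ 3 ≤ (2 * P ^ (2 / 3 : ℝ)) ^ 3 := by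
        calc (M * X ^ 4) ^ 3 = M ^ 3 * X ^ 12 := by ring
          _ ≤ 8 * P ^ 2 := by linarith [sq_nonneg P]
          _ = (2 * P ^ (2 / 3 : ℝ)) ^ 3 := by
              rw [mul_pow, ← Real.rpow_natCast (P ^ (2 / 3 : ℝ)), ← Real.rpow_mul hP0.le,
                ← Real.rpow_natCast P]
              norm_num
      exact le_of_pow_le_pow_left₀ (by norm_num) (by positivity) h
    have e2 : X ≤ 2 * P ^ (1 / 6 : ℝ) := by
      have h : X ^ 12 ≤ (2 * P ^ (1 / 6 : ℝ)) ^ 12 := by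
        calc X ^ 12 = 1 * X ^ 12 := by ring
          _ ≤ M ^ 3 * X ^ 12 := by
              have : (1 : ℝ) ≤ M ^ 3 := one_le_pow₀ hM
              gcongr
          _ ≤ 4096 * P ^ 2 := by linarith [sq_nonneg P]
          _ = (2 * P ^ (1 / 6 : ℝ)) ^ 12 := by
              rw [mul_pow, ← Real.rpow_natCast (P ^ (1 / 6 : ℝ)), ← Real.rpow_mul hP0.le,
                ← Real.rpow_natCast P]
              norm_num
      exact le_of_pow_le_pow_left₀ (by norm_num) (by positivity) h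
    calc M * X ^ 5 * P = (M * X ^ 4) * X * P := by ring
      _ ≤ (2 * P ^ (2 / 3 : ℝ)) * (2 * P ^ (1 / 6 : ℝ)) * P := by gcongr
      _ = 4 * (P ^ (2 / 3 : ℝ) * P ^ (1 / 6 : ℝ) * P ^ (1 : ℝ)) := by
          rw [Real.rpow_one]; ring
      _ = 4 * P ^ (11 / 6 : ℝ) := by
          rw [← Real.rpow_add hP0, ← Real.rpow_add hP0]
          norm_num
      _ ≤ 4 * P ^ (2 - 1 / 24 : ℝ) := by
          refine mul_le_mul_of_nonneg_left ?_ (by norm_num)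
          exact Real.rpow_le_rpow_of_exponent_le hP1 (by norm_num)
  have d1 := pow_sub_le (u := X + 1) (v := X - κ) (by linarith) (by linarith) 11
  have d2 := pow_sub_le (u := X + 1) (v := X - κ) (by linarith) (by linarith) 5
  have d0 : X + 1 - (X - κ) = κ + 1 := by ring
  rw [d0] at d1 d2
  norm_num at d1 d2
  have d3 : (X + 1) ^ 11 ≤ 2048 * X ^ 11 := by
    calc (X + 1) ^ 11 ≤ (2 * X) ^ 11 := pow_le_pow_left₀ (by linarith) (by linarith) 11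
      _ = _ := by ring
  have d4 : (X + 1) ^ 5 ≤ 32 * X ^ 5 := by
    calc (X + 1) ^ 5 ≤ (2 * X) ^ 5 := pow_le_pow_left₀ (by linarith) (by linarith) 5
      _ = _ := by ring
  have ht0 : 0 ≤ t := le_trans (by positivity) ht1
  have t1 : (X - κ) ^ 12 ≤ t ^ 6 := by
    calc (X - κ) ^ 12 = ((X - κ) ^ 2) ^ 6 := by ring
      _ ≤ t ^ 6 := pow_le_pow_left₀ (by positivity) ht1 6
  have t2 : t ^ 6 ≤ (X + 1) ^ 12 := by
    calc t ^ 6 ≤ ((X + 1) ^ 2) ^ 6 := pow_le_pow_left₀ ht0 ht2 6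
      _ = _ := by ring
  have t3 : (X - κ) ^ 6 ≤ t ^ 3 := by
    calc (X - κ) ^ 6 = ((X - κ) ^ 2) ^ 3 := by ring
      _ ≤ t ^ 3 := pow_le_pow_left₀ (by positivity) ht1 3
  have t4 : t ^ 3 ≤ (X + 1) ^ 6 := by
    calc t ^ 3 ≤ ((X + 1) ^ 2) ^ 3 := pow_le_pow_left₀ ht0 ht2 3
      _ = _ := by ring
  set a : ℝ := 4 * M ^ 2 * (1 + M) with ha
  set b : ℝ := (32 + 36 * M) * P with hb
  have ha0 : 0 ≤ a := by positivity
  have hb0 : 0 ≤ b := by positivity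
  have ha8 : a ≤ 8 * M ^ 3 := by
    have h3 : 0 ≤ 4 * M ^ 2 * (M - 1) := mul_nonneg (by positivity) (by linarith)
    have h4 : 8 * M ^ 3 = a + 4 * M ^ 2 * (M - 1) := by rw [ha]; ring
    linarith
  have hb68 : b ≤ 68 * (M * P) := by
    have h3 : 0 ≤ 32 * (M - 1) * P := mul_nonneg (by linarith) (by linarith)
    have h4 : 68 * (M * P) = b + 32 * (M - 1) * P := by rw [hb]; ring
    linarith
  have u1 : (X - κ) ^ 12 ≤ X ^ 12 := pow_le_pow_left₀ (by linarith) (by linarith) 12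
  have u2 : (X - κ) ^ 6 ≤ X ^ 6 := pow_le_pow_left₀ (by linarith) (by linarith) 6
  have hκ0 : 0 ≤ κ + 1 := by linarith
  have key : a * ((X + 1) ^ 12 - (X - κ) ^ 12) + b * ((X + 1) ^ 6 - (X - κ) ^ 6) ≤
      2804736 * (κ + 1) * P ^ (2 - 1 / 24 : ℝ) := by
    have v1 : 12 * (κ + 1) * (X + 1) ^ 11 ≤ 12 * (κ + 1) * (2048 * X ^ 11) :=
      mul_le_mul_of_nonneg_left d3 (by linarith)
    have v2 : 6 * (κ + 1) * (X + 1) ^ 5 ≤ 6 * (κ + 1) * (32 * X ^ 5) :=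
      mul_le_mul_of_nonneg_left d4 (by linarith)
    have k1 : a * ((X + 1) ^ 12 - (X - κ) ^ 12) ≤ 8 * M ^ 3 * (24576 * (κ + 1) * X ^ 11) := by
      have : (X + 1) ^ 12 - (X - κ) ^ 12 ≤ 24576 * (κ + 1) * X ^ 11 := by linarith
      have h0 : 0 ≤ 24576 * (κ + 1) * X ^ 11 := by positivity
      exact (mul_le_mul_of_nonneg_left this ha0).trans (mul_le_mul_of_nonneg_right ha8 h0)
    have k2 : b * ((X + 1) ^ 6 - (X - κ) ^ 6) ≤ 68 * (M * P) * (192 * (κ + 1) * X ^ 5) := by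
      have : (X + 1) ^ 6 - (X - κ) ^ 6 ≤ 192 * (κ + 1) * X ^ 5 := by linarith
      have h0 : 0 ≤ 192 * (κ + 1) * X ^ 5 := by positivity
      exact (mul_le_mul_of_nonneg_left this hb0).trans (mul_le_mul_of_nonneg_right hb68 h0)
    have k3 : 8 * M ^ 3 * (24576 * (κ + 1) * X ^ 11) = (κ + 1) * (196608 * (M ^ 3 * X ^ 11)) := by
      ring
    have k4 : 68 * (M * P) * (192 * (κ + 1) * X ^ 5) = (κ + 1) * (13056 * (M * X ^ 5 * P)) := by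
      ring
    have k5 : (κ + 1) * (196608 * (M ^ 3 * X ^ 11)) ≤
        (κ + 1) * (196608 * (14 * P ^ (2 - 1 / 24 : ℝ))) := by gcongr
    have k6 : (κ + 1) * (13056 * (M * X ^ 5 * P)) ≤
        (κ + 1) * (13056 * (4 * P ^ (2 - 1 / 24 : ℝ))) := by gcongr
    linarith
  have e : 4 * M ^ 2 * (1 + M) * t ^ 6 + (32 + 36 * M) * t ^ 3 * P - 27 * P ^ 2 =
      a * t ^ 6 + b * t ^ 3 - 27 * P ^ 2 := by rw [ha, hb]; ring
  rw [e]
  have m1 := mul_le_mul_of_nonneg_left t1 ha0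
  have m2 := mul_le_mul_of_nonneg_left t2 ha0
  have m3 := mul_le_mul_of_nonneg_left t3 hb0
  have m4 := mul_le_mul_of_nonneg_left t4 hb0
  have m5 := mul_le_mul_of_nonneg_left u1 ha0
  have m6 := mul_le_mul_of_nonneg_left u2 hb0
  have q1' : a * X ^ 12 + b * X ^ 6 ≤ 27 * P ^ 2 := q1
  have q2' : 27 * P ^ 2 < a * (X + 1) ^ 12 + b * (X + 1) ^ 6 := q2
  rw [abs_le]
  constructor <;> linarith


theorem on_sizeK {p m x : ℕ} (hp : 21381376 ≤ p) (hm : 0 < m) {K : ℕ} (hxK : K + 1 ≤ x)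
    (h1 : 4 * m ^ 2 * (1 + m) * x ^ 12 + (32 + 36 * m) * p * x ^ 6 ≤ 27 * p ^ 2)
    (h2 : 27 * p ^ 2 < 4 * m ^ 2 * (1 + m) * (x + 1) ^ 12 + (32 + 36 * m) * p * (x + 1) ^ 6)
    (hlow : p ≤ (x + 1) ^ 24) {t : ℝ} (ht1 : ((x : ℝ) - K) ^ 2 ≤ t) (ht2 : t ≤ ((x : ℝ) + 1) ^ 2) :
    |4 * (m : ℝ) ^ 2 * (1 + m) * t ^ 6 + (32 + 36 * m) * t ^ 3 * p - 27 * (p : ℝ) ^ 2| ≤
      2804736 * (K + 1) * (p : ℝ) ^ (2 - 1 / 24 : ℝ) := by
  refine on_size_real (X := (x : ℝ)) ?_ (by exact_mod_cast hm) (Nat.cast_nonneg K)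
    (by exact_mod_cast hxK) (by exact_mod_cast h1) (by exact_mod_cast h2)
    (by exact_mod_cast hlow) ht1 ht2
  have : 1 ≤ p := by omega
  exact_mod_cast this

/-- the factorisation of the discriminant -/
theorem on_disc_factor {P M w s : ℝ} (hs : s ^ 2 = 4 + 3 * M) :
    27 * (P - 2 * (s + 2) ^ 2 * (s - 1) / 27 * w) * (P + 2 * (s - 2) ^ 2 * (s + 1) / 27 * w) =
      -(4 * M ^ 2 * (1 + M) * w ^ 2 + (32 + 36 * M) * w * P - 27 * P ^ 2) := by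
  obtain rfl : M = (s ^ 2 - 4) / 3 := by linarith
  ring

theorem on_upper {P M X s : ℝ} (hP : 1 ≤ P) (hs2 : 2 ≤ s) (hs : s ^ 2 = 4 + 3 * M) (hX : 0 ≤ X)
    (q1 : 4 * M ^ 2 * (1 + M) * X ^ 12 + (32 + 36 * M) * P * X ^ 6 ≤ 27 * P ^ 2) :
    (s * X ^ 2) ^ 3 / 25 ≤ P := by
  have h := on_disc_factor (P := P) (w := X ^ 6) hs
  have hw : 0 ≤ X ^ 6 := by positivity
  have hU : 0 ≤ 2 * (s - 2) ^ 2 * (s + 1) / 27 * X ^ 6 := by
    have : 0 ≤ s + 1 := by linarith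
    positivity
  have h1 : 0 ≤ 27 * (P - 2 * (s + 2) ^ 2 * (s - 1) / 27 * X ^ 6) *
      (P + 2 * (s - 2) ^ 2 * (s + 1) / 27 * X ^ 6) := by
    rw [h]
    have e : (X ^ 6) ^ 2 = X ^ 12 := by ring
    rw [e]
    linarith
  have h2 : 0 < P + 2 * (s - 2) ^ 2 * (s + 1) / 27 * X ^ 6 := by linarith
  have h3 := nonneg_of_mul_nonneg_left h1 h2
  have h4 : 2 * s ^ 3 / 27 ≤ 2 * (s + 2) ^ 2 * (s - 1) / 27 := by
    have : 0 ≤ 3 * s ^ 2 - 4 := by nlinarith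
    nlinarith
  have h5 := mul_le_mul_of_nonneg_right h4 hw
  have e : (s * X ^ 2) ^ 3 = s ^ 3 * X ^ 6 := by ring
  rw [e]
  linarith

theorem on_low {P M X s : ℝ} (hP : 1 ≤ P) (hs2 : 2 ≤ s) (hs : s ^ 2 = 4 + 3 * M) (hX : 1 ≤ X)
    (q2 : 27 * P ^ 2 < 4 * M ^ 2 * (1 + M) * (X + 1) ^ 12 + (32 + 36 * M) * P * (X + 1) ^ 6) :
    P ≤ 15 * (s * X ^ 2) ^ 3 := by
  have h := on_disc_factor (P := P) (w := (X + 1) ^ 6) hs
  have hw : 0 ≤ (X + 1) ^ 6 := by positivity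
  have hU : 0 ≤ 2 * (s - 2) ^ 2 * (s + 1) / 27 * (X + 1) ^ 6 := by
    have : 0 ≤ s + 1 := by linarith
    positivity
  have h1 : 27 * (P - 2 * (s + 2) ^ 2 * (s - 1) / 27 * (X + 1) ^ 6) *
      (P + 2 * (s - 2) ^ 2 * (s + 1) / 27 * (X + 1) ^ 6) < 0 := by
    rw [h]
    have e : ((X + 1) ^ 6) ^ 2 = (X + 1) ^ 12 := by ring
    rw [e]
    linarith
  have h2 : 0 < P + 2 * (s - 2) ^ 2 * (s + 1) / 27 * (X + 1) ^ 6 := by linarith
  have h3 : P - 2 * (s + 2) ^ 2 * (s - 1) / 27 * (X + 1) ^ 6 < 0 := by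
    by_contra h4
    push Not at h4
    have := mul_nonneg (mul_nonneg (show (0 : ℝ) ≤ 27 by norm_num) h4) h2.le
    linarith
  have h4 : 2 * (s + 2) ^ 2 * (s - 1) / 27 ≤ 2 / 9 * s ^ 3 := by
    have : 0 ≤ s ^ 2 * (s - 2) := by
      have : 0 ≤ s - 2 := by linarith
      positivity
    nlinarith
  have h5 : (X + 1) ^ 6 ≤ 64 * X ^ 6 := by
    calc (X + 1) ^ 6 ≤ (2 * X) ^ 6 := pow_le_pow_left₀ (by linarith) (by linarith) 6
      _ = _ := by ring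
  have h6 := mul_le_mul h4 h5 hw (by positivity : 0 ≤ 2 / 9 * s ^ 3)
  have e : (s * X ^ 2) ^ 3 = s ^ 3 * X ^ 6 := by ring
  rw [e]
  have h7 : 0 ≤ s ^ 3 * X ^ 6 := by positivity
  nlinarith

theorem on_close {P M X κ t s : ℝ} (hP : 1 ≤ P) (hs2 : 2 ≤ s) (hs : s ^ 2 = 4 + 3 * M)
    (hκ : 0 ≤ κ) (hX : 1 ≤ X) (hXκ : 2000 * κ ≤ X)
    (q2 : 27 * P ^ 2 < 4 * M ^ 2 * (1 + M) * (X + 1) ^ 12 + (32 + 36 * M) * P * (X + 1) ^ 6)
    (ht1 : (X - κ) ^ 2 ≤ t) (ht2 : t ≤ X ^ 2)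
    (hD : |4 * M ^ 2 * (1 + M) * t ^ 6 + (32 + 36 * M) * t ^ 3 * P - 27 * P ^ 2| ≤
      P ^ 2 / 10 ^ 10) :
    |-(t * (2 + s) / 3) - -(X ^ 2 * (2 + s) / 3)| ≤ s * X ^ 2 / 1000 ∧
    |t * (2 * s - 2) / 3 - X ^ 2 * (2 * s - 2) / 3| ≤ s * X ^ 2 / 1000 ∧
    |P - (-(t * (2 + s) / 3)) ^ 2 * (t * (2 * s - 2) / 3)| ≤ (s * X ^ 2 / 1000) ^ 3 := by
  have hlow := on_low hP hs2 hs hX q2
  have ht0 : 0 ≤ t := (sq_nonneg _).trans ht1
  have hd : X ^ 2 - t ≤ X ^ 2 / 1000 := by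
    have h1 : X ^ 2 - t ≤ 2 * κ * X := by nlinarith [sq_nonneg κ]
    have h2 : 2 * κ * X ≤ X ^ 2 / 1000 := by nlinarith
    linarith
  have hd0 : 0 ≤ X ^ 2 - t := by linarith
  have hX2 : 0 ≤ X ^ 2 := sq_nonneg X
  refine ⟨?_, ?_, ?_⟩
  · have e : -(t * (2 + s) / 3) - -(X ^ 2 * (2 + s) / 3) = (X ^ 2 - t) * ((2 + s) / 3) := by ring
    rw [e, abs_of_nonneg (by positivity)]
    have h1 : (2 + s) / 3 ≤ s := by linarith
    have h2 := mul_le_mul hd h1 (by positivity) (by positivity)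
    linarith
  · have e : t * (2 * s - 2) / 3 - X ^ 2 * (2 * s - 2) / 3 = -((X ^ 2 - t) * ((2 * s - 2) / 3)) := by
      ring
    have h0 : 0 ≤ (2 * s - 2) / 3 := by linarith
    rw [e, abs_neg, abs_of_nonneg (by positivity)]
    have h1 : (2 * s - 2) / 3 ≤ s := by linarith
    have h2 := mul_le_mul hd h1 h0 (by positivity)
    linarith
  · have h := on_disc_factor (P := P) (w := t ^ 3) hs
    have e1 : (t ^ 3) ^ 2 = t ^ 6 := by ring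
    rw [e1] at h
    have e2 : (-(t * (2 + s) / 3)) ^ 2 * (t * (2 * s - 2) / 3) =
        2 * (s + 2) ^ 2 * (s - 1) / 27 * t ^ 3 := by ring
    rw [e2]
    have hU : 0 ≤ 2 * (s - 2) ^ 2 * (s + 1) / 27 * t ^ 3 := by
      have : 0 ≤ s + 1 := by linarith
      positivity
    have h2 : |27 * (P - 2 * (s + 2) ^ 2 * (s - 1) / 27 * t ^ 3) *
        (P + 2 * (s - 2) ^ 2 * (s + 1) / 27 * t ^ 3)| ≤ P ^ 2 / 10 ^ 10 := by
      rw [h, abs_neg]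
      exact hD
    rw [abs_mul, abs_mul, abs_of_nonneg (show (0 : ℝ) ≤ 27 by norm_num),
      abs_of_nonneg (show 0 ≤ P + 2 * (s - 2) ^ 2 * (s + 1) / 27 * t ^ 3 by linarith)] at h2
    set A := |P - 2 * (s + 2) ^ 2 * (s - 1) / 27 * t ^ 3| with hA
    have hA0 : 0 ≤ A := abs_nonneg _
    have h3 : 27 * A * P ≤ P ^ 2 / 10 ^ 10 :=
      (mul_le_mul_of_nonneg_left (by linarith) (by positivity)).trans h2
    have h4 : 27 * A ≤ P / 10 ^ 10 := by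
      have h5 : (27 * A) * P ≤ (P / 10 ^ 10) * P := by
        calc (27 * A) * P ≤ P ^ 2 / 10 ^ 10 := h3
          _ = (P / 10 ^ 10) * P := by ring
      exact le_of_mul_le_mul_right h5 (by linarith)
    have e3 : (s * X ^ 2 / 1000) ^ 3 = (s * X ^ 2) ^ 3 / 10 ^ 9 := by ring
    rw [e3]
    norm_num at h4 ⊢
    linarith

/-- the fields `θ (θ² + 2 t θ - m t²) = p` for one value of `t` -/
theorem on_field {p : ℕ} (hp : p.Prime) (hp5 : 5 ≤ p) {m : ℕ} (hm : 0 < m)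
    (hpm : ¬ (p : ℤ) ∣ (m : ℤ)) (hqs : ¬ IsSquare ((m + 1 : ℕ) : ZMod p)) {t : ℤ} (ht0 : 0 < t)
    (hs : (m : ℤ) * t ^ 2 + 2 * t + 1 < p)
    (hgood : fq p m + 2 * fq p t ≠ 2 * (((m : ℤ) : ZMod p)⁻¹) ^ 2 * ((t : ZMod p)⁻¹) ^ 3)
    {C B : ℝ} (hC : 0 ≤ C)
    (hquad : ∀ (a b c : ℤ), NoRoot a b c → ¬ IsSquare (gcd3 a b c) →
      ∀ (F : Type) [Field F] [NumberField F] (θ : 𝓞 F), finrank ℚ F = 3 →
        θ ^ 3 + a * θ ^ 2 + b * θ + c = 0 →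
        ∀ (N : IntermediateField ℚ ℂ) [NumberField N] [IsGalois ℚ N] (_ : F →+* N),
          ∃ (Y : IntermediateField ℚ ℂ) (_ : NumberField Y), Y ≤ N ∧ finrank ℚ Y = 2 ∧
            (∃ z : 𝓞 Y, z ^ 2 = ((gcd3 a b c : ℤ) : 𝓞 Y)) ∧
            |(discr Y : ℝ)| ≤ C * |((gcd3 a b c : ℤ) : ℝ)|)
    (hsize : |4 * (m : ℝ) ^ 2 * (1 + m) * (t : ℝ) ^ 6 + (32 + 36 * m) * (t : ℝ) ^ 3 * p -
      27 * (p : ℝ) ^ 2| ≤ B)
    (h1 : ∀ (F : Type) [Field F] [NumberField F], finrank ℚ F = 3 →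
      |(discr F : ℝ)| ≤ B → ¬ p ∣ Nat.card (ClassGroup (𝓞 F)))
    (h2 : ∀ (F : Type) [Field F] [NumberField F], finrank ℚ F = 2 →
      |(discr F : ℝ)| ≤ C * B → ¬ p ∣ Nat.card (ClassGroup (𝓞 F))) :
    NoRoot (2 * t) (-(m : ℤ) * t ^ 2) (-p) ∧
    ∀ (F : Type) [Field F] [NumberField F] (θ : 𝓞 F), finrank ℚ F = 3 →
      θ ^ 3 + ((2 * t : ℤ) : 𝓞 F) * θ ^ 2 + ((-(m : ℤ) * t ^ 2 : ℤ) : 𝓞 F) * θ +
        ((-p : ℤ) : 𝓞 F) = 0 →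
      finrank ℚ F = 3 ∧ ¬ IsGalois ℚ F ∧
      (∃ P Q : Ideal (𝓞 F), P.IsPrime ∧ Q.IsPrime ∧ P ≠ Q ∧
        Ideal.span {(p : 𝓞 F)} = P * Q) ∧ PureSplit p F := by
  have hpf : Fact p.Prime := ⟨hp⟩
  have hmZ : (0 : ℤ) < m := by exact_mod_cast hm
  have hpt : ¬ (p : ℤ) ∣ t := by
    intro h
    have h3 := Int.le_of_dvd ht0 h
    have h4 : 0 ≤ (m : ℤ) * t ^ 2 := by positivity
    omega
  have hn := on_noroot hp hmZ ht0 hs
  refine ⟨hn, ?_⟩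
  intro F _ _ θ hF hθ
  have hθ' : θ * (θ ^ 2 + 2 * (t : 𝓞 F) * θ - ((m : ℤ) : 𝓞 F) * (t : 𝓞 F) ^ 2) = p := by
    push_cast at hθ ⊢
    linear_combination hθ
  have hD : gcd3 (2 * t) (-(m : ℤ) * t ^ 2) (-p) =
      4 * (m : ℤ) ^ 2 * (1 + m) * t ^ 6 + (32 + 36 * m) * t ^ 3 * p - 27 * p ^ 2 := by
    rw [gcd3]; ring
  -- the discriminant is a nonresidue
  have hDns : ¬ IsSquare ((gcd3 (2 * t) (-(m : ℤ) * t ^ 2) (-p) : ℤ) : ZMod p) := by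
    intro hsq
    apply hqs
    have htz : (t : ZMod p) ≠ 0 := by
      rw [Ne, ZMod.intCast_zmod_eq_zero_iff_dvd]; exact hpt
    have hmz : (m : ZMod p) ≠ 0 := by
      have h : (((m : ℤ)) : ZMod p) ≠ 0 := by
        rw [Ne, ZMod.intCast_zmod_eq_zero_iff_dvd]; exact hpm
      simpa using h
    have h2z : (2 : ZMod p) ≠ 0 := by
      have h : ((2 : ℕ) : ZMod p) ≠ 0 := by
        rw [Ne, ZMod.natCast_eq_zero_iff]
        intro h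
        have := Nat.le_of_dvd (by norm_num) h
        omega
      exact_mod_cast h
    have h3 : ((m + 1 : ℕ) : ZMod p) =
        ((gcd3 (2 * t) (-(m : ℤ) * t ^ 2) (-p) : ℤ) : ZMod p) / (2 * (m : ZMod p) * t ^ 3) ^ 2 := by
      rw [hD]
      have h4 : (2 * (m : ZMod p) * (t : ZMod p) ^ 3) ^ 2 ≠ 0 :=
        pow_ne_zero 2 (mul_ne_zero (mul_ne_zero h2z hmz) (pow_ne_zero 3 htz))
      rw [eq_div_iff h4]
      push_cast
      rw [ZMod.natCast_self]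
      ring
    rw [h3]
    exact hsq.div ⟨2 * (m : ZMod p) * t ^ 3, by ring⟩
  have hsq : ¬ IsSquare (gcd3 (2 * t) (-(m : ℤ) * t ^ 2) (-p)) := by
    rintro ⟨r, hr⟩
    apply hDns
    exact ⟨(r : ZMod p), by rw [hr]; push_cast; ring⟩
  have hqs' : ¬ IsSquare (((m : ℤ) + 1 : ℤ) : ZMod p) := by
    intro h
    apply hqs
    push_cast at h ⊢
    exact h
  obtain ⟨hncard, hPQ⟩ := on_primes hF hp hpm hpt hn hqs' hθ'
  have hng := not_isGalois_of_two hF hp hncard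
  have hsize' : |((gcd3 (2 * t) (-(m : ℤ) * t ^ 2) (-p) : ℤ) : ℝ)| ≤ B := by
    rw [hD]
    push_cast
    exact hsize
  have hcl := h1 F hF ((gc_bound hF hn θ hθ).trans hsize')
  obtain ⟨A, B', γ, c, D⟩ := on_gross hF hp hp5 hpm hpt hn hθ' hgood
  have hb : LayerBound p 1 F :=
    layerBound_r hp (by omega) (by rw [hF]; omega) D (by rw [← ncard_pv p hp, hncard]) hcl
  refine ⟨hF, hng, hPQ, ?_⟩
  refine pureSplit_of hp (by omega) (by omega) hF hng hb ?_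
  intro N _ _ f
  obtain ⟨Y, hYn, hYN, hY2, ⟨z, hz⟩, hYd⟩ := hquad _ _ _ hn hsq F θ hF hθ N f
  refine ⟨Y, hYn, hYN, hY2, onePrime_nonres hp hY2 z hz hDns, ?_⟩
  exact h2 Y hY2 (hYd.trans (mul_le_mul_of_nonneg_left hsize' hC))

/-- the choice of the `t_i` -/
theorem on_choose {p : ℕ} (hp : p.Prime) (hp5 : 5 ≤ p) {m : ℤ} (hpm : ¬ (p : ℤ) ∣ m) {n K x : ℕ}
    (hK : K = 6 * n) (hxK : K + 1 ≤ x) (hs2 : 3 * x ^ 2 + 3 * x + 1 < p) :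
    ∃ t : Fin (3 * n) → ℤ, (∀ i, ((x : ℤ) - K) ^ 2 ≤ t i) ∧ (∀ i, t i ≤ (x : ℤ) ^ 2) ∧
      (∀ i, 0 < t i) ∧ (∀ i j, i ≠ j → t i ≠ t j) ∧
      ∀ i, fq p m + 2 * fq p (t i) ≠ 2 * ((m : ZMod p)⁻¹) ^ 2 * ((t i : ZMod p)⁻¹) ^ 3 := by
  have hex : ∀ i : Fin (3 * n), ∃ t : ℤ, ((x : ℤ) - 2 * i - 1) ^ 2 ≤ t ∧
      t ≤ ((x : ℤ) - 2 * i) ^ 2 ∧ 0 < t ∧
      fq p m + 2 * fq p t ≠ 2 * ((m : ZMod p)⁻¹) ^ 2 * ((t : ZMod p)⁻¹) ^ 3 := by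
    intro i
    have hi := i.2
    have hy : (1 : ℤ) ≤ (x : ℤ) - 2 * i - 1 := by omega
    have hy2 : 3 * ((x : ℤ) - 2 * i - 1) ^ 2 + 3 * ((x : ℤ) - 2 * i - 1) + 1 < p := by
      have h3 : 3 * (x : ℤ) ^ 2 + 3 * x + 1 < p := by exact_mod_cast hs2
      have h4 : ((x : ℤ) - 2 * i - 1) ^ 2 ≤ (x : ℤ) ^ 2 :=
        pow_le_pow_left₀ (by omega) (by omega) 2
      linarith
    obtain ⟨t, ht, hgood⟩ := exists_good_t hp hp5 hpm hy hy2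
    obtain ⟨ht1, ht2, ht0⟩ := t_bounds hy ht
    refine ⟨t, ht1, ?_, ht0, hgood⟩
    have e : (x : ℤ) - 2 * i - 1 + 1 = x - 2 * i := by ring
    rw [e] at ht2
    exact ht2
  choose t ht1 ht2 ht0 hgood using hex
  have hlt : ∀ i j : Fin (3 * n), i < j → t j < t i := by
    intro i j hij
    have hij' : (i : ℕ) < j := hij
    have hj := j.2
    refine lt_of_le_of_lt (ht2 j) (lt_of_lt_of_le ?_ (ht1 i))
    exact pow_lt_pow_left₀ (by omega) (by omega) two_ne_zero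
  refine ⟨t, fun i => (pow_le_pow_left₀ (by omega) (by have := i.2; omega) 2).trans (ht1 i),
    fun i => (ht2 i).trans (pow_le_pow_left₀ (by have := i.2; omega) (by omega) 2), ht0, ?_, hgood⟩
  intro i j hij h
  rcases lt_or_gt_of_ne hij with h3 | h3
  · exact absurd h (hlt i j h3).ne'
  · exact absurd h (hlt j i h3).ne

theorem on_small_t {p m x : ℕ} {t : ℤ} (hs1 : m * (x + 1) ^ 4 + 2 * (x + 1) ^ 2 + 1 < p)
    (ht0 : 0 < t) (htx : t ≤ (x : ℤ) ^ 2) : (m : ℤ) * t ^ 2 + 2 * t + 1 < p := by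
  have h3 : (m : ℤ) * ((x : ℤ) + 1) ^ 4 + 2 * ((x : ℤ) + 1) ^ 2 + 1 < p := by exact_mod_cast hs1
  have h0 : (x : ℤ) ^ 2 ≤ ((x : ℤ) + 1) ^ 2 := pow_le_pow_left₀ (by positivity) (by omega) 2
  have h4 : t ^ 2 ≤ ((x : ℤ) + 1) ^ 4 := by
    calc t ^ 2 ≤ (((x : ℤ) + 1) ^ 2) ^ 2 := pow_le_pow_left₀ ht0.le (htx.trans h0) 2
      _ = _ := by ring
  have h5 : (m : ℤ) * t ^ 2 ≤ m * ((x : ℤ) + 1) ^ 4 :=
    mul_le_mul_of_nonneg_left h4 (by positivity)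
  linarith

theorem on_growth {p B0 : ℕ} (hp : 0 < p) (hp4 : (B0 * 10 ^ 10) ^ 24 ≤ p) :
    (B0 : ℝ) * (p : ℝ) ^ (2 - 1 / 24 : ℝ) ≤ (p : ℝ) ^ 2 / 10 ^ 10 := by
  have hP0 : (0 : ℝ) < p := by exact_mod_cast hp
  have hsplit : (p : ℝ) ^ (2 - 1 / 24 : ℝ) * (p : ℝ) ^ (1 / 24 : ℝ) = (p : ℝ) ^ 2 := by
    rw [← Real.rpow_add hP0, ← Real.rpow_natCast]
    norm_num
  have hroot : (B0 : ℝ) * 10 ^ 10 ≤ (p : ℝ) ^ (1 / 24 : ℝ) := by
    have h3 : ((B0 : ℝ) * 10 ^ 10) ^ 24 ≤ p := by exact_mod_cast hp4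
    have h5 : 0 ≤ (B0 : ℝ) * 10 ^ 10 := by positivity
    obtain ⟨y, hy⟩ : ∃ y : ℝ, y = (B0 : ℝ) * 10 ^ 10 := ⟨_, rfl⟩
    rw [← hy] at h3 h5 ⊢
    calc y = (y ^ 24) ^ (1 / 24 : ℝ) := by
          rw [← Real.rpow_natCast, ← Real.rpow_mul h5]
          norm_num
      _ ≤ (p : ℝ) ^ (1 / 24 : ℝ) := Real.rpow_le_rpow (by positivity) h3 (by norm_num)
  rw [le_div_iff₀ (by positivity), ← hsplit]
  have h4 : 0 ≤ (p : ℝ) ^ (2 - 1 / 24 : ℝ) := by positivity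
  calc (B0 : ℝ) * (p : ℝ) ^ (2 - 1 / 24 : ℝ) * 10 ^ 10 =
      (p : ℝ) ^ (2 - 1 / 24 : ℝ) * ((B0 : ℝ) * 10 ^ 10) := by ring
    _ ≤ _ := mul_le_mul_of_nonneg_left hroot h4

theorem on_s (m : ℕ) : ∃ s : ℝ, 2 ≤ s ∧ s ^ 2 = 4 + 3 * (m : ℝ) := by
  have h0 : (0 : ℝ) ≤ m := Nat.cast_nonneg m
  refine ⟨√(4 + 3 * m), ?_, Real.sq_sqrt (by positivity)⟩
  apply Real.le_sqrt_of_sq_le
  linarith

theorem on_bounds {X s : ℝ} (hs : 2 ≤ s) : |-(X ^ 2 * (2 + s) / 3)| ≤ 4 / 3 * (s * X ^ 2) ∧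
    |X ^ 2 * (2 * s - 2) / 3| ≤ 4 / 3 * (s * X ^ 2) := by
  have h0 : 0 ≤ X ^ 2 := sq_nonneg _
  constructor
  · rw [abs_neg, abs_of_nonneg (by positivity)]
    nlinarith
  · have h3 : 0 ≤ 2 * s - 2 := by linarith
    rw [abs_of_nonneg (by positivity)]
    nlinarith

theorem on_AB {m : ℕ} {t : ℤ} {s : ℝ} (hs : s ^ 2 = 4 + 3 * (m : ℝ)) :
    ((2 * t : ℤ) : ℝ) = -(2 * -((t : ℝ) * (2 + s) / 3) + (t : ℝ) * (2 * s - 2) / 3) ∧
    ((-(m : ℤ) * t ^ 2 : ℤ) : ℝ) = (-((t : ℝ) * (2 + s) / 3)) ^ 2 +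
      2 * -((t : ℝ) * (2 + s) / 3) * ((t : ℝ) * (2 * s - 2) / 3) := by
  constructor
  · push_cast; ring
  · push_cast
    have e : (m : ℝ) = (s ^ 2 - 4) / 3 := by linarith
    rw [e]; ring

/-- **every large prime, many fields**, `(p) = P Q`, residue degrees `1` and `2` -/
theorem many_inert : ∃ p0 : ℕ, ∀ p : ℕ, p.Prime → p0 ≤ p → ∀ n : ℕ, n ^ 50 ≤ p →
    ManyFields n (fun F _ _ => finrank ℚ F = 3 ∧ ¬ IsGalois ℚ F ∧
      (∃ P Q : Ideal (𝓞 F), P.IsPrime ∧ Q.IsPrime ∧ P ≠ Q ∧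
        Ideal.span {(p : 𝓞 F)} = P * Q) ∧ PureSplit p F) := by
  obtain ⟨C, hC, hquad⟩ := gc_quad
  obtain ⟨B0, hB0⟩ : ∃ B0 : ℕ, B0 = 19633152 := ⟨_, rfl⟩
  obtain ⟨p1, h1⟩ := gc_class 3 (Or.inr rfl) B0 (13 / 600) (by norm_num)
  obtain ⟨p2, h2⟩ := gc_class 2 (Or.inl rfl) (C * B0) (13 / 600) (by norm_num)
  refine ⟨max (max p1 p2) (max ((B0 * 10 ^ 10) ^ 50) (12002 ^ 48)), fun p hp hpp n hnp => ?_⟩
  rcases Nat.eq_zero_or_pos n with rfl | hn0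
  · exact many_zero _
  obtain ⟨K, hK⟩ : ∃ K : ℕ, K = 6 * n := ⟨_, rfl⟩
  have hp1 : p1 ≤ p := (le_max_left _ _).trans ((le_max_left _ _).trans hpp)
  have hp2 : p2 ≤ p := (le_max_right _ _).trans ((le_max_left _ _).trans hpp)
  have hp4 : (B0 * 10 ^ 10) ^ 50 ≤ p := (le_max_left _ _).trans ((le_max_right _ _).trans hpp)
  have hp7 : 12002 ^ 48 ≤ p := (le_max_right _ _).trans ((le_max_right _ _).trans hpp)
  have hp6 : (2000 * K + 2) ^ 24 ≤ p := by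
    refine le_trans (Nat.pow_le_pow_left ?_ 24) (pow24_le hn0 hnp hp7)
    omega
  have hp3 : 21381376 ≤ p := by
    refine le_trans ?_ hp4
    have h3 : 21381376 ≤ B0 * 10 ^ 10 := by rw [hB0]; norm_num
    exact h3.trans (Nat.le_self_pow (by norm_num) _)
  have hP1 : (1 : ℝ) ≤ p := by exact_mod_cast hp.one_lt.le
  have hsmall := grow_C hp.pos (by norm_num) hp4 (δ := 13 / 600) (by norm_num)
  have hgrow := grow_n hp.pos (by norm_num) hnp (δ := 1 / 24) (δ' := 13 / 600) (by norm_num)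
  clear hp4 hpp hnp hp7
  have hp5 : 5 ≤ p := le_trans (by norm_num) hp3
  have hpf : Fact p.Prime := ⟨hp⟩
  obtain ⟨q, hq2, hqp, hqlt, hqs⟩ := exists_nonres hp (le_trans (by norm_num) hp5)
  obtain ⟨m, rfl⟩ : ∃ m, q = m + 1 := ⟨q - 1, by omega⟩
  rw [Nat.add_sub_cancel] at hqp
  have hm : 0 < m := by omega
  obtain ⟨x, hx1, hx2⟩ := on_x hp.pos hm
  have hlow := on_lower hp3 hm hqp hx2
  have hxK : 2000 * K + 1 ≤ x := by
    have h3 : (2000 * K + 2) ^ 24 ≤ (x + 1) ^ 24 := hp6.trans hlow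
    have h4 := (Nat.pow_le_pow_iff_left (by norm_num)).1 h3
    omega
  clear hp6
  have hx : 1 ≤ x := by omega
  obtain ⟨hs1, hs2⟩ := on_small hp3 hm hx hx1
  have hpm : ¬ (p : ℤ) ∣ (m : ℤ) := by
    intro h
    have := Int.le_of_dvd (by exact_mod_cast hm) h
    omega
  have hmZ : (0 : ℤ) < m := by exact_mod_cast hm
  obtain ⟨t, htK, htx, ht0, htne, hgood⟩ := on_choose hp hp5 hpm hK (by omega) hs2
  have hs : ∀ i, (m : ℤ) * t i ^ 2 + 2 * t i + 1 < p := fun i => on_small_t hs1 (ht0 i) (htx i)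
  have htxR : ∀ i, (t i : ℝ) ≤ (x : ℝ) ^ 2 := fun i => by exact_mod_cast htx i
  have htKR : ∀ i, ((x : ℝ) - K) ^ 2 ≤ (t i : ℝ) := fun i => by exact_mod_cast htK i
  have hsize : ∀ i, |4 * (m : ℝ) ^ 2 * (1 + m) * (t i : ℝ) ^ 6 +
      (32 + 36 * m) * (t i : ℝ) ^ 3 * p - 27 * (p : ℝ) ^ 2| ≤
      B0 * (p : ℝ) ^ (2 - 13 / 600 : ℝ) := by
    intro i
    have h3 := on_sizeK (K := K) hp3 hm (by omega) hx1 hx2 hlow (t := (t i : ℝ)) (htKR i)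
      ((htxR i).trans (pow_le_pow_left₀ (Nat.cast_nonneg x)
        (le_add_of_nonneg_right zero_le_one) 2))
    refine h3.trans (le_trans ?_ (mul_le_mul_of_nonneg_left hgrow (Nat.cast_nonneg B0)))
    rw [← mul_assoc]
    refine mul_le_mul_of_nonneg_right ?_ (Real.rpow_nonneg (Nat.cast_nonneg p) _)
    have h5 : 2804736 * (K + 1) ≤ B0 * n := by
      rw [hK, hB0]
      omega
    exact_mod_cast h5
  have hfield := fun i => on_field (C := C) hp hp5 hm hpm hqs (ht0 i) (hs i) (hgood i) hC.le hquad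
    (hsize i) (fun F _ _ hF hd => h1 p hp hp1 F hF hd)
    (fun F _ _ hF hd => h2 p hp hp2 F hF (by rw [mul_assoc]; exact hd))
  -- real parameters
  have hX1 : (1 : ℝ) ≤ x := by exact_mod_cast hx
  have hM1 : (1 : ℝ) ≤ m := by exact_mod_cast hm
  obtain ⟨s, hs2', hsq⟩ := on_s m
  have q1 : 4 * (m : ℝ) ^ 2 * (1 + m) * (x : ℝ) ^ 12 + (32 + 36 * m) * p * (x : ℝ) ^ 6 ≤
      27 * (p : ℝ) ^ 2 := by exact_mod_cast hx1
  have q2 : 27 * (p : ℝ) ^ 2 < 4 * (m : ℝ) ^ 2 * (1 + m) * ((x : ℝ) + 1) ^ 12 +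
      (32 + 36 * m) * p * ((x : ℝ) + 1) ^ 6 := by exact_mod_cast hx2
  refine many_of_close hp (fun i => 2 * t i) (fun i => -(m : ℤ) * t i ^ 2)
    (fun i => (hfield i).1) ?_ (a := -((x : ℝ) ^ 2 * (2 + s) / 3))
    (b := (x : ℝ) ^ 2 * (2 * s - 2) / 3) (g := s * (x : ℝ) ^ 2)
    (mul_pos (lt_of_lt_of_le two_pos hs2') (pow_pos (lt_of_lt_of_le one_pos hX1) 2)) (by ring)
    (on_bounds hs2').1 (on_bounds hs2').2 (on_upper hP1 hs2' hsq (Nat.cast_nonneg x) q1) ?_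
    (fun i => (hfield i).2)
  · intro i j hij
    left
    intro h
    exact htne i j hij (mul_left_cancel₀ two_ne_zero h)
  · intro i
    refine ⟨-((t i : ℝ) * (2 + s) / 3), (t i : ℝ) * (2 * s - 2) / 3, (on_AB hsq).1,
      (on_AB hsq).2, ?_⟩
    refine on_close (κ := K) hP1 hs2' hsq (Nat.cast_nonneg K) hX1 ?_ q2 (htKR i) (htxR i)
      ((hsize i).trans hsmall)
    have h7 : 2000 * K ≤ x := le_trans (Nat.le_succ _) hxK
    exact_mod_cast h7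

end Pool.Agent.Work.MuS
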