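import Pool.Agent.Work.MP_a4986b_nt.SpY

set_option autoImplicit false
set_option maxHeartbeats 400000

/-! # Split primes: many pure cubic fields -/

namespace Pool.Agent.Work.MuS

open NumberField Module IsDedekindDomain
open scoped nonZeroDivisors Pointwise
open Pool.Agent.Work.MuB

theorem cube_inj_zmod {p : ℕ} (hp : p.Prime) (hp3 : p % 3 = 2) {u v : ZMod p}
    (h : u ^ 3 = v ^ 3) : u = v := by
  have hpf : Fact p.Prime := ⟨hp⟩
  obtain ⟨k, hk⟩ : ∃ k, 2 * p - 1 = 3 * k := ⟨(2 * p - 1) / 3, by omega⟩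
  have key : ∀ w : ZMod p, w = (w ^ 3) ^ k := by
    intro w
    rw [← pow_mul, ← hk]
    have h1 : 2 * p - 1 = p + (p - 1) := by have := hp.pos; omega
    rw [h1, pow_add, ZMod.pow_card, ← pow_succ']
    have h2 : p - 1 + 1 = p := by have := hp.pos; omega
    rw [h2, ZMod.pow_card]
  rw [key u, key v, h]

theorem cube_inj_int {p : ℕ} (hp : p.Prime) (hp3 : p % 3 = 2) {u v : ℤ}
    (h : (p : ℤ) ∣ u ^ 3 - v ^ 3) : (p : ℤ) ∣ u - v := by
  rw [← ZMod.intCast_zmod_eq_zero_iff_dvd] at h ⊢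
  push_cast at h ⊢
  exact sub_eq_zero.2 (cube_inj_zmod hp hp3 (sub_eq_zero.1 h))

section

variable {F : Type*} [Field F] [NumberField F]

/-- an integer in a prime above `p` is divisible by `p` -/
theorem dvd_of_mem_prime {p : ℕ} (hp : p.Prime) {P : Ideal (𝓞 F)} (hP : P.IsPrime)
    (hpP : (p : 𝓞 F) ∈ P) {c : ℤ} (hc : (c : 𝓞 F) ∈ P) : (p : ℤ) ∣ c := by
  by_contra h
  obtain ⟨r, s, hrs⟩ := (Prime.coprime_iff_not_dvd (Nat.prime_iff_prime_int.1 hp)).2 h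
  have hrsF : (r : 𝓞 F) * (p : 𝓞 F) + (s : 𝓞 F) * (c : 𝓞 F) = 1 := by
    exact_mod_cast congrArg (Int.cast : ℤ → 𝓞 F) hrs
  apply hP.ne_top
  rw [Ideal.eq_top_iff_one, ← hrsF]
  exact Ideal.add_mem _ (Ideal.mul_mem_left _ _ hpP) (Ideal.mul_mem_left _ _ hc)

/-- uniqueness of the prime of norm `p` -/
theorem pure_dvd {p : ℕ} (hp : p.Prime) (hp3 : p % 3 = 2) {θ θ' : 𝓞 F} {x : ℤ}
    (hθ : (θ - x) ^ 3 = p - (x : 𝓞 F) ^ 3) (hN : Algebra.norm ℤ θ' = p)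
    (hpθ : θ' ∣ (p : 𝓞 F)) : θ' ∣ θ := by
  have hP := isPrime_span_of_norm hp θ' hN
  have hpP : (p : 𝓞 F) ∈ Ideal.span {θ'} := Ideal.mem_span_singleton.2 hpθ
  obtain ⟨r, hr⟩ := exists_nat_of_absNorm hp (absNorm_span_of_norm θ' hN) θ
  have h1 : (((r : ℤ) - x) ^ 3 - (-x) ^ 3 : ℤ) ∈ Ideal.span {(p : ℤ)} := by
    rw [Ideal.mem_span_singleton]
    refine dvd_of_mem_prime (F := F) hp hP hpP ?_
    have e1 : (((((r : ℤ) - x) ^ 3 - (-x) ^ 3 : ℤ)) : 𝓞 F) =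
        p - (θ - r) * ((θ - x) ^ 2 + (θ - x) * (r - x) + (r - x) ^ 2) := by
      push_cast
      linear_combination hθ
    rw [e1]
    exact Ideal.sub_mem _ hpP (Ideal.mul_mem_right _ _ hr)
  rw [Ideal.mem_span_singleton] at h1
  have h2 := cube_inj_int hp hp3 h1
  have h3 : (r : ℤ) - x - -x = r := by ring
  rw [h3] at h2
  have h4 : (r : 𝓞 F) ∈ Ideal.span {θ'} := by
    obtain ⟨k, hk⟩ := h2
    have h5 : (r : 𝓞 F) = p * k := by exact_mod_cast congrArg (Int.cast : ℤ → 𝓞 F) hk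
    rw [h5]
    exact Ideal.mul_mem_right _ _ hpP
  have h5 := Ideal.add_mem _ hr h4
  rw [sub_add_cancel] at h5
  exact Ideal.mem_span_singleton.1 h5

theorem exists_real_embedding (h3 : finrank ℚ F = 3) : Nonempty (F →+* ℝ) := by
  have h := InfinitePlace.nrRealPlaces_pos_of_odd_finrank (K := F) (by rw [h3]; exact ⟨1, rfl⟩)
  classical
  rw [InfinitePlace.nrRealPlaces, Fintype.card_pos_iff] at h
  obtain ⟨w, hw⟩ := h
  exact ⟨InfinitePlace.embedding_of_isReal hw⟩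

theorem cube_bounds {y x c p : ℝ} (hy : 0 < y) (hyp : y ^ 3 = p) (hx0 : 0 ≤ x)
    (hx : 125 * x ^ 3 ≤ p) (hc : c ^ 3 = p - x ^ 3) : 5 * x ≤ y ∧ 997 / 1000 * y ≤ c ∧ c ≤ y := by
  have h1 : 5 * x ≤ y := by
    refine le_of_pow_le_pow_left₀ (n := 3) (by norm_num) hy.le ?_
    rw [hyp, mul_pow]
    linarith
  have hc0 : 0 < c := by
    by_contra h
    push Not at h
    have h2 : c ^ 3 ≤ 0 := by
      have : 0 ≤ (-c) ^ 3 := by
        have : 0 ≤ -c := by linarith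
        positivity
      nlinarith
    have : 0 < y ^ 3 := by positivity
    linarith
  have hx3 : 0 ≤ x ^ 3 := by positivity
  refine ⟨h1, ?_, ?_⟩
  · refine le_of_pow_le_pow_left₀ (n := 3) (by norm_num) hc0.le ?_
    rw [mul_pow, hyp, hc]
    have : 0 < y ^ 3 := by positivity
    norm_num
    linarith
  · refine le_of_pow_le_pow_left₀ (n := 3) (by norm_num) hy.le ?_
    rw [hyp, hc]
    linarith

/-- two elements `x + ∛(p - x³)` for small `x` which generate the same prime are equal -/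
theorem pure_close (h3 : finrank ℚ F = 3) {p : ℕ} (hp : 0 < p) {θ θ' : 𝓞 F} {x x' : ℤ}
    (hx : 0 ≤ x) (hx' : 0 ≤ x') (hxp : 125 * x ^ 3 ≤ p) (hxp' : 125 * x' ^ 3 ≤ p)
    (hθ : (θ - x) ^ 3 = p - (x : 𝓞 F) ^ 3) (hθ' : (θ' - x') ^ 3 = p - (x' : 𝓞 F) ^ 3)
    (hN : Algebra.norm ℤ θ' = p) (hdvd : θ' ∣ θ) : θ = θ' := by
  classical
  obtain ⟨ψ⟩ := exists_real_embedding (F := F) h3
  obtain ⟨y, hy, hyp⟩ : ∃ y : ℝ, 0 < y ∧ y ^ 3 = p := by
    refine ⟨(p : ℝ) ^ (1 / 3 : ℝ), by positivity, ?_⟩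
    rw [← Real.rpow_natCast, ← Real.rpow_mul (Nat.cast_nonneg p)]
    norm_num
  have hψ : ∀ {ϑ : 𝓞 F} {x : ℤ}, (ϑ - x) ^ 3 = p - (x : 𝓞 F) ^ 3 →
      (ψ (ϑ : F) - x) ^ 3 = (p : ℝ) - (x : ℝ) ^ 3 := by
    intro ϑ x h
    have h1 : ((ϑ : F) - x) ^ 3 = p - (x : F) ^ 3 := by
      have := congrArg (algebraMap (𝓞 F) F) h
      rwa [map_pow, map_sub, map_sub, map_pow, map_intCast, map_natCast] at this
    have h2 := congrArg ψ h1
    rwa [map_pow, map_sub, map_sub, map_pow, map_intCast, map_natCast] at h2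
  have hφ : ∀ {ϑ : 𝓞 F} {x : ℤ}, (ϑ - x) ^ 3 = p - (x : 𝓞 F) ^ 3 → 0 ≤ x →
      125 * x ^ 3 ≤ p → ∀ φ : F →ₐ[ℚ] ℂ, ‖φ (ϑ : F) - x‖ ≤ y := by
    intro ϑ x h hx hxp φ
    have h1 : ((ϑ : F) - x) ^ 3 = p - (x : F) ^ 3 := by
      have := congrArg (algebraMap (𝓞 F) F) h
      rwa [map_pow, map_sub, map_sub, map_pow, map_intCast, map_natCast] at this
    have h2 := congrArg φ h1
    rw [map_pow, map_sub, map_sub, map_pow, map_intCast, map_natCast] at h2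
    have hxR : (0 : ℝ) ≤ x := by exact_mod_cast hx
    have h4 : ‖φ (ϑ : F) - x‖ ^ 3 ≤ y ^ 3 := by
      rw [← norm_pow, h2]
      have e1 : (p : ℂ) - (x : ℂ) ^ 3 = (((p : ℝ) - (x : ℝ) ^ 3 : ℝ) : ℂ) := by push_cast; rfl
      have h5 : (0 : ℝ) ≤ (x : ℝ) ^ 3 := by positivity
      have h6 : 125 * (x : ℝ) ^ 3 ≤ p := by exact_mod_cast hxp
      rw [e1, Complex.norm_real, Real.norm_eq_abs, abs_of_nonneg (by linarith), hyp]
      linarith
    exact le_of_pow_le_pow_left₀ (by norm_num) hy.le h4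
  have hxR : (0 : ℝ) ≤ x := by exact_mod_cast hx
  have hxR' : (0 : ℝ) ≤ x' := by exact_mod_cast hx'
  obtain ⟨b1, b2, b3⟩ := cube_bounds hy hyp hxR (by exact_mod_cast hxp) (hψ hθ)
  obtain ⟨b1', b2', b3'⟩ := cube_bounds hy hyp hxR' (by exact_mod_cast hxp') (hψ hθ')
  let φ0 : F →ₐ[ℚ] ℂ := (Complex.ofRealHom.comp ψ).toRatAlgHom
  have hφ0 : ∀ z : F, φ0 z = ((ψ z : ℝ) : ℂ) := fun z => rfl
  have hz : θ - θ' = 0 := by
    refine eq_zero_of_prod_lt (p := p) (θ - θ') ?_ ?_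
    · have h5 := map_dvd (Algebra.norm ℤ) (dvd_sub hdvd (dvd_refl θ'))
      rwa [hN] at h5
    · have hval : ∀ φ : F →ₐ[ℚ] ℂ, φ ((θ - θ' : 𝓞 F) : F) = φ (θ : F) - φ (θ' : F) := by
        intro φ
        rw [← map_sub]
        rfl
      rw [← Finset.mul_prod_erase Finset.univ _ (Finset.mem_univ φ0)]
      have hb1 : ‖φ0 ((θ - θ' : 𝓞 F) : F)‖ ≤ 203 / 1000 * y := by
        rw [hval, hφ0, hφ0, ← Complex.ofReal_sub, Complex.norm_real, Real.norm_eq_abs, abs_le]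
        constructor <;> linarith
      have hb2 : ∏ φ ∈ Finset.univ.erase φ0, ‖φ ((θ - θ' : 𝓞 F) : F)‖ ≤
          (22 / 10 * y) ^ 2 := by
        have hcard : (Finset.univ.erase φ0).card = 2 := by
          rw [Finset.card_erase_of_mem (Finset.mem_univ _), Finset.card_univ, AlgHom.card, h3]
        have hle : ∀ φ ∈ Finset.univ.erase φ0,
            ‖φ ((θ - θ' : 𝓞 F) : F)‖ ≤ 22 / 10 * y := by
          intro φ _
          rw [hval]
          have h8 := hφ hθ hx hxp φ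
          have h9 := hφ hθ' hx' hxp' φ
          have e1 : φ (θ : F) - φ (θ' : F) =
              (φ (θ : F) - x) - (φ (θ' : F) - x') + (((x : ℝ) - (x' : ℝ) : ℝ) : ℂ) := by
            push_cast; ring
          rw [e1]
          refine (norm_add_le _ _).trans ((add_le_add (norm_sub_le _ _) le_rfl).trans ?_)
          have h10 : ‖(((x : ℝ) - (x' : ℝ) : ℝ) : ℂ)‖ ≤ y / 5 := by
            rw [Complex.norm_real, Real.norm_eq_abs, abs_le]
            constructor <;> linarith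
          linarith
        refine (Finset.prod_le_prod (fun _ _ => norm_nonneg _) hle).trans (le_of_eq ?_)
        rw [Finset.prod_const, hcard]
      have hb3 : 0 ≤ ∏ φ ∈ Finset.univ.erase φ0, ‖φ ((θ - θ' : 𝓞 F) : F)‖ :=
        Finset.prod_nonneg fun _ _ => norm_nonneg _
      refine (mul_le_mul hb1 hb2 hb3 (by positivity)).trans_lt ?_
      rw [← hyp]
      have h10 : 0 < y ^ 3 := by positivity
      nlinarith
  exact sub_eq_zero.1 hz

end

/-- many pure cubic fields with two primes above `p` -/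
theorem many_pure {p : ℕ} (hp : p.Prime) (hp3 : p % 3 = 2) (hp5 : 5 ≤ p) {n : ℕ}
    (hn : (40 * n) ^ 3 ≤ p) : ManyFields n (fun F _ _ => finrank ℚ F = 3 ∧
      (∃ t : F, t ∉ Set.range (algebraMap ℚ F) ∧ t ^ 3 ∈ Set.range (algebraMap ℚ F)) ∧
      {P : Ideal (𝓞 F) | P.IsPrime ∧ (p : 𝓞 F) ∈ P}.ncard = 2 ∧ PureSplit p F) := by
  have hn' : 64000 * n ^ 3 ≤ p := by
    calc 64000 * n ^ 3 = (40 * n) ^ 3 := by ring
      _ ≤ p := hn
  have hcub : ∀ i : Fin n, (2 * (i : ℕ) + 1) ^ 3 ≤ 8 * n ^ 3 := by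
    intro i
    have hi := i.2
    calc (2 * (i : ℕ) + 1) ^ 3 ≤ (2 * n) ^ 3 := Nat.pow_le_pow_left (by omega) 3
      _ = 8 * n ^ 3 := by ring
  have hfam := fun i : Fin n => pure_family hp hp3 (a := 2 * (i : ℕ) + 1) (by omega)
    (by have := hcub i; omega)
  choose x hx hfield using hfam
  have hxp : ∀ i, 125 * (x i) ^ 3 ≤ p := by
    intro i
    have h1 : x i ≤ 4 * (2 * (i : ℕ) + 1 : ℕ) := by
      rcases hx i with h | h | h <;> omega
    have h0 : 0 ≤ x i := by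
      rcases hx i with h | h | h <;> omega
    have h2 : (x i) ^ 3 ≤ (4 * (2 * (i : ℕ) + 1 : ℕ)) ^ 3 := pow_le_pow_left₀ h0 h1 3
    have h3 : ((2 * (i : ℕ) + 1 : ℕ) : ℤ) ^ 3 ≤ 8 * (n : ℤ) ^ 3 := by exact_mod_cast hcub i
    have h4 : 64000 * (n : ℤ) ^ 3 ≤ p := by exact_mod_cast hn'
    rw [mul_pow] at h2
    linarith
  have hx0 : ∀ i, 0 ≤ x i := by
    intro i
    rcases hx i with h | h | h <;> omega
  have hxinj : ∀ i j, x i = x j → i = j := by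
    intro i j h
    apply Fin.ext
    rcases hx i with h1 | h1 | h1 <;> rcases hx j with h2 | h2 | h2 <;> omega
  have hncu : ∀ i, ∀ b : ℚ, b ^ 3 ≠ ((p - (x i) ^ 3 : ℤ) : ℚ) := fun i =>
    not_cube_m hp hp3 hp5 (x := x i) (y := 1) (by ring)
  have hnr : ∀ i, NoRoot (-3 * x i) (3 * (x i) ^ 2) (-p) := by
    intro i r hr
    apply hncu i ((r : ℚ) - (x i : ℚ))
    have h1 : (r - x i) ^ 3 = p - (x i) ^ 3 := by linear_combination hr
    exact_mod_cast congrArg (Int.cast : ℤ → ℚ) h1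
  choose F iF iN θ hF hθ using fun i => gc_exists (hnr i)
  have hcube : ∀ i {E : Type} [Field E] [NumberField E] (ϑ : 𝓞 E),
      ϑ ^ 3 + ((-3 * x i : ℤ) : 𝓞 E) * ϑ ^ 2 + ((3 * (x i) ^ 2 : ℤ) : 𝓞 E) * ϑ +
        ((-p : ℤ) : 𝓞 E) = 0 → (ϑ - (x i : 𝓞 E)) ^ 3 = p - (x i : 𝓞 E) ^ 3 := by
    intro i E _ _ ϑ h
    push_cast at h
    linear_combination h
  refine ⟨F, iF, iN, ?_, ?_⟩
  · rintro i j ⟨e⟩
    have h1 := root_map e (hθ i)
    have hN : Algebra.norm ℤ (θ j) = p := by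
      apply norm_Z_of_Q
      have h2 := gc_norm (hF j) (hnr j) (θ j) (hθ j) 0
      rw [Int.cast_zero, add_zero] at h2
      rw [h2]
      push_cast
      ring
    have hdp : θ j ∣ (p : 𝓞 (F j)) := by
      refine ⟨(θ j) ^ 2 + ((-3 * x j : ℤ) : 𝓞 (F j)) * θ j + ((3 * (x j) ^ 2 : ℤ) : 𝓞 (F j)), ?_⟩
      have h2 := hθ j
      push_cast at h2 ⊢
      linear_combination -h2
    have h3 := hcube i _ h1
    have h4 := pure_dvd hp hp3 h3 hN hdp
    have h5 := pure_close (hF j) hp.pos (hx0 i) (hx0 j) (hxp i) (hxp j) h3 (hcube j _ (hθ j)) hN h4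
    rw [h5] at h1
    have h6 := same_cubic (hnr i) h1 (hθ j)
    exact hxinj i j (by linarith [h6.1])
  · intro i
    have ht : ((θ i : F i) - (x i : F i)) ^ 3 = ((p - (x i) ^ 3 : ℤ) : F i) := by
      have h1 := congrArg (algebraMap (𝓞 (F i)) (F i)) (hcube i _ (hθ i))
      rw [map_pow, map_sub, map_sub, map_pow, map_intCast, map_natCast] at h1
      push_cast
      exact h1
    obtain ⟨h1, h2⟩ := pure_conclusion hp hp3 hp5 (hF i) (hncu i) _ ht (hfield i (F i) (hF i) _ ht)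
    obtain ⟨-, hpc⟩ := isPureCubic_of (hF i) (hncu i) _ ht
    exact ⟨hF i, hpc, h1, h2⟩

end Pool.Agent.Work.MuS
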