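import Pool.Agent.Work.MP_a4986b_nt.SpY1
import Pool.Agent.Work.MP_a4986b_nt.SpY2
import Pool.Agent.Work.MP_a4986b_nt.SpY4
import Pool.Agent.Work.MP_a4986b_nt.SpQ

set_option autoImplicit false
set_option maxHeartbeats 400000

/-! # Split primes, final statements -/

namespace Pool.Agent.Work.MuS

open NumberField Module IsDedekindDomain
open scoped nonZeroDivisors Pointwise

theorem LogDatum.layer {p r : ℕ} {F : Type} [Field F] [NumberField F] (hp : p.Prime)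
    (hp2 : p ≠ 2) (hF : finrank ℚ F < p) (D : LogDatum p r F)
    (h2 : {Q : Ideal (𝓞 F) | Q.IsPrime ∧ (p : 𝓞 F) ∈ Q}.ncard ≤ r + 1)
    (hcl : ¬ p ∣ Nat.card (ClassGroup (𝓞 F))) : LayerBound p r F := by
  obtain ⟨A, B, γ, c, h1, h3, h4, h5, h6⟩ := D
  rw [ncard_pv p hp] at h2
  have hc : ∀ i j, ¬ (p : ℤ) ∣ c i j := by
    intro i j
    obtain ⟨_, _, _, _, _, _, _, h⟩ := h5 i j
    exact h
  exact layerBound_r hp hp2 hF ⟨h1, h3, h4, h5, fun e he j => nondeg_of_det hp c hc h6 e he j⟩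
    h2 hcl

/-- the criterion for relative extensions -/
theorem relative_criterion (k : Type) [Field k] [NumberField k] (d : ℕ) : ∃ C : ℝ, 0 < C ∧
    ∀ (F : Type) [Field F] [NumberField F] [Algebra k F] (ρ p r : ℕ), p.Prime → p ≠ 2 →
      finrank k F = d → finrank ℚ F < p →
      (∀ F' : IntermediateField k F, F' ≠ ⊤ → Units.rank F' ≤ ρ) → ρ ≤ Units.rank F →
      |(discr F : ℝ)| ≤ C * (p : ℝ) ^ 2 *
        (1 + Real.log p) ^ (2 * ((Units.rank F : ℤ) - ρ - d + 1)) →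
      {Q : Ideal (𝓞 F) | Q.IsPrime ∧ (p : 𝓞 F) ∈ Q}.ncard ≤ r + 1 → LogDatum p r F →
      SplitExtensions p r F := by
  obtain ⟨c, hc, h⟩ := MuB.not_dvd_all_of k d (MuB.class_le_all_of k d (MuB.regulator_ge_all k d))
  refine ⟨c, hc, ?_⟩
  intro F _ _ _ ρ p r hp hp2 hF hFp hρ hρr hD h2 D
  exact (D.layer hp hp2 hFp h2 (h F ρ p hp hF hρ hρr hD)).split hp hp2

/-- pure cubic fields, `p ≡ 2` modulo `3` -/
theorem pure_cubic (p : ℕ) (hp : p.Prime) (hp3 : p % 3 = 2) (hp5 : 5 ≤ p) :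
    (∀ (F : Type) [Field F] [NumberField F], finrank ℚ F = 3 →
      (∃ t : F, t ∉ Set.range (algebraMap ℚ F) ∧ t ^ 3 ∈ Set.range (algebraMap ℚ F)) →
      |discr F| ≤ 27 * (p : ℤ) ^ 2 → LogDatum p 1 F → PureSplit p F) ∧
    (∃ m : ℕ, (m = p - 1 ∨ m = p + 1) ∧ ∀ (F : Type) [Field F] [NumberField F],
      finrank ℚ F = 3 → (∃ t : F, t ^ 3 = m) →
      {P : Ideal (𝓞 F) | P.IsPrime ∧ (p : 𝓞 F) ∈ P}.ncard = 2 ∧ PureSplit p F) ∧
    (∀ n : ℕ, (40 * n) ^ 3 ≤ p → ManyFields n (fun F _ _ => finrank ℚ F = 3 ∧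
      (∃ t : F, t ∉ Set.range (algebraMap ℚ F) ∧ t ^ 3 ∈ Set.range (algebraMap ℚ F)) ∧
      {P : Ideal (𝓞 F) | P.IsPrime ∧ (p : 𝓞 F) ∈ P}.ncard = 2 ∧ PureSplit p F)) := by
  obtain ⟨-, h2, -⟩ := pure_cubic_fields p hp hp3 hp5
  refine ⟨?_, h2, fun n hn => many_pure hp hp3 hp5 hn⟩
  intro F _ _ hF ⟨x, hx, hx3⟩ hD D
  have hpure : Mu22.IsPureCubic F := ⟨hF, x, hx, hx3⟩
  refine pureSplit hp hp3 (by omega) hpure ?_
  refine D.layer hp (by omega) (by rw [hF]; omega) ?_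
    (Mu22.not_dvd_pure hpure (by exact_mod_cast hD))
  rw [ncard_pv p hp]
  exact pv_le_two_pure hp hp3 hpure

/-- **every large prime, every decomposition type with several primes, many fields** -/
theorem all_large_many : ∃ p0 : ℕ, ∀ p : ℕ, p.Prime → p0 ≤ p →
    (∀ n : ℕ, n ^ 7 ≤ p → ManyFields n (fun F _ _ => finrank ℚ F = 3 ∧ ¬ IsGalois ℚ F ∧
      {P : Ideal (𝓞 F) | P.IsPrime ∧ (p : 𝓞 F) ∈ P}.ncard = 3 ∧ SplitExtensions p 2 F)) ∧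
    (∀ n : ℕ, n ^ 50 ≤ p → ManyFields n (fun F _ _ => finrank ℚ F = 3 ∧ ¬ IsGalois ℚ F ∧
      (∃ P Q : Ideal (𝓞 F), P.IsPrime ∧ Q.IsPrime ∧ P ≠ Q ∧
        Ideal.span {(p : 𝓞 F)} = P * Q) ∧ PureSplit p F)) ∧
    (∀ n : ℕ, n ^ 7 ≤ p → ManyFields n (fun F _ _ => finrank ℚ F = 3 ∧ ¬ IsGalois ℚ F ∧
      (∃ P Q : Ideal (𝓞 F), P.IsPrime ∧ Q.IsPrime ∧ P ≠ Q ∧
        Ideal.span {(p : 𝓞 F)} = P * Q ^ 2) ∧ PureSplit p F)) := by
  obtain ⟨p1, h1⟩ := many_split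
  obtain ⟨p2, h2⟩ := many_inert
  obtain ⟨p3, h3⟩ := many_ramified
  exact ⟨max p1 (max p2 p3), fun p hp hpp =>
    ⟨h1 p hp ((le_max_left _ _).trans hpp),
      h2 p hp ((le_max_left _ _).trans ((le_max_right _ _).trans hpp)),
      h3 p hp ((le_max_right _ _).trans ((le_max_right _ _).trans hpp))⟩⟩

/-- the quartic family -/
theorem quartic' (K : Type) [Field K] [NumberField K] (hK : finrank ℚ K = 2) (r : K →+* ℝ)
    (u : (𝓞 K)ˣ) (hu : ∀ φ : K →+* ℝ, 0 < φ (u : 𝓞 K)) :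
    ∃ p0 : ℕ, ∀ p : ℕ, p.Prime → p0 ≤ p → (Ideal.span {(p : 𝓞 K)}).IsPrime →
      ∀ (F : Type) [Field F] [NumberField F] [Algebra K F], finrank K F = 2 →
        (∃ z : F, z ^ 2 = algebraMap K F (1 + 4 * p * (u : 𝓞 K))) →
          {P : Ideal (𝓞 F) | P.IsPrime ∧ (p : 𝓞 F) ∈ P}.ncard = 2 ∧ SplitExtensions p 1 F := by
  obtain ⟨p0, h⟩ := quartic K hK r u hu
  refine ⟨p0, fun p hp hpp hin F _ _ _ h2 hz => ?_⟩
  obtain ⟨h3, h4⟩ := h p hp hpp hin F h2 hz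
  exact ⟨by rw [ncard_pv p hp]; exact h3, h4⟩

end Pool.Agent.Work.MuS
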