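import Pool.Agent.Work.MP_a4986b_nt.SpDb

set_option autoImplicit false
set_option maxHeartbeats 400000

/-! # Split primes: Fermat quotients -/

namespace Pool.Agent.Work.MuS

open NumberField Module
open scoped nonZeroDivisors

variable {p : ℕ}

theorem fermat_dvd (hp : p.Prime) {c : ℤ} (hc : ¬ (p : ℤ) ∣ c) : (p : ℤ) ∣ c ^ (p - 1) - 1 := by
  have hpi : Prime (p : ℤ) := Nat.prime_iff_prime_int.1 hp
  have h1 : IsCoprime c (p : ℤ) := ((Prime.coprime_iff_not_dvd hpi).2 hc).symm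
  exact (Int.modEq_iff_dvd.1 (Int.ModEq.pow_card_sub_one_eq_one hp h1).symm)

theorem fq_spec (hp : p.Prime) {c : ℤ} (hc : ¬ (p : ℤ) ∣ c) :
    ∃ k : ℤ, c ^ (p - 1) = 1 + p * k ∧ fq p c = (k : ZMod p) := by
  obtain ⟨k, hk⟩ := fermat_dvd hp hc
  refine ⟨k, by linarith, ?_⟩
  rw [fq, hk, Int.mul_ediv_cancel_left _ (by exact_mod_cast hp.ne_zero)]

theorem fq_eq (hp : p.Prime) {c k : ℤ} (h : (p : ℤ) ^ 2 ∣ c ^ (p - 1) - 1 - p * k) :
    fq p c = (k : ZMod p) := by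
  have hp0 : (p : ℤ) ≠ 0 := by exact_mod_cast hp.ne_zero
  obtain ⟨m, hm⟩ := h
  have h1 : c ^ (p - 1) - 1 = p * (k + p * m) := by linear_combination hm
  rw [fq, h1, Int.mul_ediv_cancel_left _ hp0]
  push_cast
  rw [ZMod.natCast_self, zero_mul, add_zero]

theorem fq_eq_zero_iff (hp : p.Prime) {c : ℤ} (hc : ¬ (p : ℤ) ∣ c) :
    fq p c = 0 ↔ (p : ℤ) ^ 2 ∣ c ^ (p - 1) - 1 := by
  obtain ⟨k, hk, hq⟩ := fq_spec hp hc
  rw [hq, ZMod.intCast_zmod_eq_zero_iff_dvd, hk]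
  have hp0 : (p : ℤ) ≠ 0 := by exact_mod_cast hp.ne_zero
  constructor
  · rintro ⟨m, hm⟩
    exact ⟨m, by rw [hm]; ring⟩
  · rintro ⟨m, hm⟩
    exact ⟨m, mul_left_cancel₀ hp0 (by linear_combination hm)⟩

theorem fq_mul (hp : p.Prime) {c d : ℤ} (hc : ¬ (p : ℤ) ∣ c) (hd : ¬ (p : ℤ) ∣ d) :
    fq p (c * d) = fq p c + fq p d := by
  obtain ⟨k, hk, hq⟩ := fq_spec hp hc
  obtain ⟨l, hl, hr⟩ := fq_spec hp hd
  rw [hq, hr, ← Int.cast_add]
  apply fq_eq hp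
  rw [mul_pow, hk, hl]
  exact ⟨k * l, by ring⟩

theorem fq_one (hp : p.Prime) : fq p 1 = 0 := by
  have h := fq_eq hp (c := 1) (k := 0) (by simp)
  simpa using h

theorem fq_pow (hp : p.Prime) {c : ℤ} (hc : ¬ (p : ℤ) ∣ c) (e : ℕ) :
    fq p (c ^ e) = e * fq p c := by
  have hpi : Prime (p : ℤ) := Nat.prime_iff_prime_int.1 hp
  induction e with
  | zero => rw [pow_zero, fq_one hp, Nat.cast_zero, zero_mul]
  | succ e ih =>
    rw [pow_succ, fq_mul hp (fun h => hc (hpi.dvd_of_dvd_pow h)) hc, ih]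
    push_cast
    ring

theorem fq_prod (hp : p.Prime) {ι : Type*} (s : Finset ι) (c : ι → ℤ) (e : ι → ℕ)
    (hc : ∀ j ∈ s, ¬ (p : ℤ) ∣ c j) :
    fq p (∏ j ∈ s, c j ^ e j) = ∑ j ∈ s, (e j : ZMod p) * fq p (c j) ∧
      ¬ (p : ℤ) ∣ ∏ j ∈ s, c j ^ e j := by
  classical
  have hpi : Prime (p : ℤ) := Nat.prime_iff_prime_int.1 hp
  induction s using Finset.induction_on with
  | empty =>
    simp only [Finset.prod_empty, Finset.sum_empty]
    exact ⟨fq_one hp, fun h => hpi.not_unit (isUnit_of_dvd_one h)⟩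
  | insert j s hj ih =>
    obtain ⟨h1, h2⟩ := ih fun i hi => hc i (Finset.mem_insert_of_mem hi)
    have h3 := hc j (Finset.mem_insert_self _ _)
    have h4 : ¬ (p : ℤ) ∣ c j ^ e j := fun h => h3 (hpi.dvd_of_dvd_pow h)
    rw [Finset.prod_insert hj, Finset.sum_insert hj, fq_mul hp h4 h2, h1, fq_pow hp h3]
    exact ⟨rfl, fun h => (hpi.dvd_or_dvd h).elim h4 h2⟩

theorem fq_congr (hp : p.Prime) {c d : ℤ} (hd : ¬ (p : ℤ) ∣ d) (h : (p : ℤ) ^ 2 ∣ c - d) :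
    fq p c = fq p d := by
  obtain ⟨k, hk, hq⟩ := fq_spec hp hd
  rw [hq]
  apply fq_eq hp
  have h1 := h.trans (sub_dvd_pow_sub_pow c d (p - 1))
  rw [hk] at h1
  have e : c ^ (p - 1) - 1 - p * k = c ^ (p - 1) - (1 + p * k) := by ring
  rw [e]
  exact h1

theorem one_add_pow_dvd (x : ℤ) (n : ℕ) : x ^ 2 ∣ (1 + x) ^ n - 1 - n * x := by
  induction n with
  | zero => simp
  | succ n ih =>
    obtain ⟨m, hm⟩ := ih
    refine ⟨(1 + x) * m + n, ?_⟩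
    push_cast
    rw [pow_succ]
    linear_combination (1 + x) * hm

theorem fq_one_add (hp : p.Prime) (t : ℤ) : fq p (1 + p * t) = -(t : ZMod p) := by
  rw [← Int.cast_neg]
  apply fq_eq hp
  obtain ⟨m, hm⟩ := one_add_pow_dvd ((p : ℤ) * t) (p - 1)
  have h1 : ((p - 1 : ℕ) : ℤ) = p - 1 := by
    have := hp.one_lt.le
    push_cast [this]
    ring
  rw [h1] at hm
  exact ⟨t ^ 2 * m + t, by linear_combination hm⟩

/-- the Fermat quotient of `d + p t` -/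
theorem fq_add (hp : p.Prime) {d : ℤ} (hd : ¬ (p : ℤ) ∣ d) (t : ℤ) :
    fq p (d + p * t) = fq p d - (t : ZMod p) * ((d : ℤ) : ZMod p)⁻¹ := by
  have hpf : Fact p.Prime := ⟨hp⟩
  have hpi : Prime (p : ℤ) := Nat.prime_iff_prime_int.1 hp
  obtain ⟨d', k, hk⟩ : IsCoprime d (p : ℤ) := ((Prime.coprime_iff_not_dvd hpi).2 hd).symm
  have h1 : ¬ (p : ℤ) ∣ 1 + p * (t * d') := by
    intro h
    have h2 := dvd_sub h (dvd_mul_right (p : ℤ) (t * d'))
    rw [add_sub_cancel_right] at h2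
    exact hpi.not_unit (isUnit_of_dvd_one h2)
  have h2 : ¬ (p : ℤ) ∣ d * (1 + p * (t * d')) := fun h => (hpi.dvd_or_dvd h).elim hd h1
  rw [fq_congr hp h2 (c := d + p * t) ⟨t * k, by linear_combination (-(p : ℤ) * t) * hk⟩,
    fq_mul hp hd h1, fq_one_add hp]
  have h3 : ((d : ℤ) : ZMod p)⁻¹ = (d' : ZMod p) := by
    have h4 : (d' : ZMod p) * (d : ZMod p) = 1 := by
      have h5 := congrArg (Int.cast : ℤ → ZMod p) hk
      push_cast at h5
      rw [ZMod.natCast_self, mul_zero, add_zero] at h5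
      exact h5
    exact (eq_inv_of_mul_eq_one_left h4).symm
  rw [h3]
  push_cast
  ring

theorem fq_neg (hp : p.Prime) (hp2 : p ≠ 2) (c : ℤ) : fq p (-c) = fq p c := by
  have hev : Even (p - 1) := Nat.Odd.sub_odd (hp.odd_of_ne_two hp2) odd_one
  rw [fq, fq, hev.neg_pow]

/-- the nondegeneracy from a determinant of Fermat quotients -/
theorem nondeg_of_det (hp : p.Prime) {r : ℕ} (c : Fin r → Fin r → ℤ)
    (hc : ∀ i j, ¬ (p : ℤ) ∣ c i j) (hdet : (Matrix.of fun i j => fq p (c i j)).det ≠ 0)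
    (e : Fin r → ℕ) (he : ∀ i, (p : ℤ) ^ 2 ∣ (∏ j, c i j ^ e j) ^ (p - 1) - 1) (j : Fin r) :
    p ∣ e j := by
  have hpf : Fact p.Prime := ⟨hp⟩
  have h1 : (Matrix.of fun i j => fq p (c i j)).mulVec (fun j => (e j : ZMod p)) = 0 := by
    funext i
    obtain ⟨h2, h3⟩ := fq_prod hp Finset.univ (c i) e (fun j _ => hc i j)
    have h4 := (fq_eq_zero_iff hp h3).2 (he i)
    rw [h2] at h4
    rw [Matrix.mulVec, dotProduct, Pi.zero_apply, ← h4]
    refine Finset.sum_congr rfl fun j _ => ?_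
    rw [Matrix.of_apply, mul_comm]
  have h2 := Matrix.eq_zero_of_mulVec_eq_zero hdet h1
  have h3 := congrFun h2 j
  exact (ZMod.natCast_eq_zero_iff _ _).1 h3

/-- a local norm from a congruence to a rational integer at a principal prime of degree one -/
theorem normAt_of_crt {F : Type*} [Field F] [NumberField F] (hp : p.Prime) {α β : 𝓞 F}
    (hN : RingOfIntegers.norm ℚ α = (p : 𝓞 ℚ)) (hαβ : β * α = (p : 𝓞 F))
    (hcop : IsCoprime α β) {γ : 𝓞 F} {b c : ℤ} {M V : ℕ} (hM : V + 2 ≤ M)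
    (hb : α ^ M ∣ γ - (b : 𝓞 F)) (hbc : b = (p : ℤ) ^ V * c) (hc : ¬ (p : ℤ) ∣ c) :
    ∃ c' : ℤ, NormAt p (Ideal.span {α}) (Ideal.span {β}) γ c' ∧ ¬ (p : ℤ) ∣ c' ∧
      (p : ℤ) ^ 2 ∣ c' - c := by
  have hα0 : α ≠ 0 := by
    rintro rfl
    rw [mul_zero] at hαβ
    exact hp.ne_zero (by exact_mod_cast hαβ.symm)
  obtain ⟨u, v, huv⟩ : IsCoprime (α ^ M) (β ^ M) := hcop.pow
  set y : 𝓞 F := (b : 𝓞 F) * (v * β ^ M) + u * α ^ M with hy
  have h1 : α ^ M ∣ y - (b : 𝓞 F) := ⟨u * (1 - b), by rw [hy]; linear_combination (b : 𝓞 F) * huv⟩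
  have h2 : β ^ M ∣ y - 1 := ⟨v * (b - 1), by rw [hy]; linear_combination huv⟩
  have h3 := norm_crt (k := ℚ) α β y (b : 𝓞 ℚ) M (by rw [hN, hαβ, map_natCast]) hα0 hcop
    (by rw [map_intCast]; exact h1) h2
  rw [hN] at h3
  have h4 : (p : ℤ) ^ M ∣ Algebra.norm ℤ y - b := by
    have e1 : Algebra.norm ℤ ((b : ℤ) : 𝓞 ℚ) = b := by
      have h5 := Algebra.norm_algebraMap (R := ℤ) (S := 𝓞 ℚ) b
      rw [RingOfIntegers.rank, finrank_self, pow_one, eq_intCast] at h5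
      exact h5
    have e2 : (p : ℤ) ^ M ∣ Algebra.norm ℤ (RingOfIntegers.norm ℚ y) -
        Algebra.norm ℤ ((b : ℤ) : 𝓞 ℚ) := by
      apply norm_congr_int
      push_cast
      exact h3
    rwa [e1, intNorm_norm] at e2
  obtain ⟨t, ht⟩ := h4
  obtain ⟨s, rfl⟩ := Nat.exists_eq_add_of_le hM
  have hcc : (p : ℤ) ^ 2 ∣ (c + (p : ℤ) ^ (2 + s) * t) - c := by
    rw [add_sub_cancel_left, pow_add, mul_assoc]
    exact dvd_mul_right _ _
  have hc' : ¬ (p : ℤ) ∣ c + (p : ℤ) ^ (2 + s) * t := by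
    intro h
    apply hc
    have h5 := dvd_sub h ((dvd_pow_self (p : ℤ) two_ne_zero).trans hcc)
    rwa [sub_sub_cancel] at h5
  refine ⟨c + (p : ℤ) ^ (2 + s) * t, ⟨V + 2 + s, V, y, by omega, ?_, ?_, ?_, hc'⟩, hc', hcc⟩
  · have e1 : y - γ = (y - (b : 𝓞 F)) - (γ - (b : 𝓞 F)) := by ring
    rw [e1]
    exact Ideal.mem_of_dvd _ (dvd_sub h1 hb)
      (Ideal.pow_mem_pow (Ideal.mem_span_singleton_self α) _)
  · exact Ideal.mem_of_dvd _ h2 (Ideal.pow_mem_pow (Ideal.mem_span_singleton_self β) _)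
  · have e1 : Algebra.norm ℤ y = b + (p : ℤ) ^ (V + 2 + s) * t := by rw [← ht]; ring
    rw [e1, hbc]
    ring

end Pool.Agent.Work.MuS
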