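import Pool.Agent.Work.MP_a4986b_nt.SpF
import Pool.Agent.Work.MP_a4986b_nt.SpDef2

set_option autoImplicit false
set_option maxHeartbeats 400000

/-! # Split primes, part G: `p`-extensions, transport, conclusion -/

namespace Pool.Agent.Work.MuS

open NumberField Module IsDedekindDomain
open scoped nonZeroDivisors Pointwise
open Pool.Agent.Work.MuI
open Pool.Agent.Work.MuB (MuZero)

/-- bounded rank in the tower of the base gives Q1 for subfields of `p`-extensions -/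
theorem mu_of_rk {p : ℕ} {F : Type} [Field F] [NumberField F] (hp : p.Prime) (hp2 : p ≠ 2)
    (r : ℕ) (hrk : ∀ (F0 : IntermediateField ℚ ℂ) [NumberField F0], Nonempty (F ≃+* F0) →
      ∀ (m : ℕ) (E : IntermediateField ℚ ℂ), IsLayer p m E →
        rk p (ClassGroup (𝓞 ↥(F0 ⊔ E))) ≤ r)
    (L : IntermediateField ℚ ℂ) [NumberField L] [Algebra F L] [IsGalois F L] (n : ℕ)
    (hn : finrank F L = p ^ n) (L' : IntermediateField ℚ ℂ) (hL' : L' ≤ L)
    (hcop : ¬ p ∣ IntermediateField.relfinrank L' L) : MuZero p L' := by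
  have hLf : FiniteDimensional ℚ L := gr_fin L
  have hst : IsScalarTower ℚ F L := IsScalarTower.of_algebraMap_eq' (Subsingleton.elim _ _)
  obtain ⟨F0, hF0, ⟨e⟩, hgal, hfr⟩ := fi_prep (k := ℚ) (F := F) L
  have hF0nf : NumberField F0 := NumberField.of_ringEquiv F F0 e
  obtain ⟨T, hT⟩ := ncard_ram_layer_le hp F0 L hF0
  choose B hB using fun j => rk_tower hp (hp.odd_of_ne_two hp2) T r j
  have hmain : ∀ (m : ℕ) (E : IntermediateField ℚ ℂ), IsLayer p m E →
      rk p (ClassGroup (𝓞 ↥(L ⊔ E))) ≤ ∑ j ∈ Finset.range (n + 1), B j := by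
    intro m E hE
    have hEfin : FiniteDimensional ℚ E := by
      apply FiniteDimensional.of_finrank_pos
      rw [hE.2]; exact pow_pos hp.pos _
    have hF0f : FiniteDimensional ℚ F0 := gr_fin F0
    have hNfin : FiniteDimensional ℚ ↥(L ⊔ E) := IntermediateField.finiteDimensional_sup L E
    have hMfin : FiniteDimensional ℚ ↥(F0 ⊔ E) := IntermediateField.finiteDimensional_sup F0 E
    have hNnf : NumberField ↥(L ⊔ E) := NumberField.of_module_finite ℚ _
    have hMnf : NumberField ↥(F0 ⊔ E) := NumberField.of_module_finite ℚ _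
    have hT' := hT m E hE
    have hG := fi_galois F0 L E hF0
    let alg : Algebra ↥(F0 ⊔ E) ↥(L ⊔ E) :=
      (IntermediateField.inclusion (sup_le_sup_right hF0 E)).toRingHom.toAlgebra
    obtain ⟨hg, hd⟩ := hG
    rw [hfr, hn] at hd
    obtain ⟨j, hj, hjd⟩ := (Nat.dvd_prime_pow hp).1 hd
    have h1 := hB j ↥(F0 ⊔ E) ↥(L ⊔ E) hjd hT' (hrk F0 ⟨e⟩ m E hE)
    exact h1.trans (Finset.single_le_sum (f := B) (fun _ _ => Nat.zero_le _)
      (Finset.mem_range.2 (by omega)))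
  obtain ⟨C, hC⟩ := growth hp hp2 L _ hmain
  exact ⟨C, fun m E h1 h2 => (descent hp hp2 L' L hL' hcop m E ⟨h1, h2⟩).trans (hC m E ⟨h1, h2⟩)⟩

section Transport

variable {p : ℕ} {k F F' : Type*} [Field k] [NumberField k] [Field F] [NumberField F] [Field F']
  [NumberField F']

theorem pv_equiv {s : ℕ} (hp : p.Prime) (e : F ≃+* F') (h : (pv p F).ncard ≤ s) :
    (pv p F').ncard ≤ s := by
  refine le_trans ?_ h
  let f : 𝓞 F ≃+* 𝓞 F' := RingOfIntegers.mapRingEquiv e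
  let g : HeightOneSpectrum (𝓞 F') → HeightOneSpectrum (𝓞 F) := fun v =>
    ⟨v.asIdeal.comap (f : 𝓞 F →+* 𝓞 F'), by
      have := v.isPrime
      exact Ideal.comap_isPrime _ v.asIdeal, by
      intro h0
      apply v.ne_bot
      rw [eq_bot_iff]
      intro x hx
      obtain ⟨y, rfl⟩ := f.surjective x
      have h1 : y ∈ v.asIdeal.comap (f : 𝓞 F →+* 𝓞 F') := hx
      rw [h0, Ideal.mem_bot] at h1
      rw [h1, map_zero]
      exact Ideal.zero_mem _⟩
  refine Set.ncard_le_ncard_of_injOn g ?_ ?_ (pv_finite hp)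
  · intro v hv
    change (p : 𝓞 F) ∈ v.asIdeal.comap (f : 𝓞 F →+* 𝓞 F')
    rw [Ideal.mem_comap, map_natCast]
    exact hv
  · intro v _ w _ hvw
    have h4 : v.asIdeal.comap (f : 𝓞 F →+* 𝓞 F') = w.asIdeal.comap (f : 𝓞 F →+* 𝓞 F') :=
      congrArg HeightOneSpectrum.asIdeal hvw
    exact HeightOneSpectrum.ext (Ideal.comap_injective_of_surjective (f : 𝓞 F →+* 𝓞 F')
      f.surjective h4)

theorem intNorm_equiv (e : F ≃+* F') (x : 𝓞 F) :
    Algebra.norm ℤ (RingOfIntegers.mapRingEquiv e x) = Algebra.norm ℤ x := by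
  have h := Algebra.norm_eq_of_equiv_equiv (RingEquiv.refl ℤ) (RingOfIntegers.mapRingEquiv e)
    (RingHom.ext_int _ _) x
  exact h.symm

theorem map_pow_mem (e : 𝓞 F ≃+* 𝓞 F') (A : Ideal (𝓞 F)) (M : ℕ) {x : 𝓞 F} (h : x ∈ A ^ M) :
    e x ∈ (A.map (e : 𝓞 F →+* 𝓞 F')) ^ M := by
  rw [← Ideal.map_pow]
  exact Ideal.mem_map_of_mem (e : 𝓞 F →+* 𝓞 F') h

theorem gross_equiv {r : ℕ} (e : F ≃+* F') {A B : Fin r → Ideal (𝓞 F)} {γ : Fin r → 𝓞 F}
    {c : Fin r → Fin r → ℤ} (D : GrossData p A B γ c) :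
    GrossData p (fun i => (A i).map (RingOfIntegers.mapRingEquiv e : 𝓞 F →+* 𝓞 F'))
      (fun i => (B i).map (RingOfIntegers.mapRingEquiv e : 𝓞 F →+* 𝓞 F'))
      (fun j => RingOfIntegers.mapRingEquiv e (γ j)) c := by
  set f : 𝓞 F ≃+* 𝓞 F' := RingOfIntegers.mapRingEquiv e with hf
  refine ⟨?_, ?_, ?_, ?_, D.nondeg⟩
  · intro i
    rw [← Ideal.map_mul, D.mul i, Ideal.map_span, Set.image_singleton]
    simp
  · intro i
    rw [← Ideal.map_sup, D.cop i, Ideal.map_top]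
  · intro j
    obtain ⟨t, ht⟩ := D.pun j
    refine ⟨t, ?_⟩
    have h1 := map_dvd f ht
    rwa [map_pow, map_natCast] at h1
  · intro i j
    obtain ⟨M, V, y, hM, hA, hB, hN, hc⟩ := D.nrm i j
    refine ⟨M, V, f y, hM, ?_, ?_, ?_, hc⟩
    · rw [← map_sub]
      exact map_pow_mem f (A i) M hA
    · rw [← map_one f, ← map_sub]
      exact map_pow_mem f (B i) M hB
    · rw [← hN]
      exact intNorm_equiv e y

end Transport

/-- the layers of all copies of `F` in `ℂ` -/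
def LayerBound (p r : ℕ) (F : Type) [Field F] [NumberField F] : Prop :=
  ∀ F0 : IntermediateField ℚ ℂ, Nonempty (F ≃+* F0) →
    ∀ (m : ℕ) (E : IntermediateField ℚ ℂ), IsLayer p m E →
      padicValNat p (Nat.card (ClassGroup (𝓞 ↥(F0 ⊔ E)))) ≤ r * m ∧
        rk p (ClassGroup (𝓞 ↥(F0 ⊔ E))) ≤ r

theorem LayerBound.split {p r : ℕ} {F : Type} [Field F] [NumberField F] (hp : p.Prime)
    (hp2 : p ≠ 2) (key : LayerBound p r F) : SplitExtensions p r F := by
  refine ⟨?_, ?_⟩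
  · rintro F0 ⟨e⟩ m E h1 h3
    exact (key F0 ⟨e⟩ m E ⟨h1, h3⟩).1
  · intro L _ _ _ n hn L' hL' hcop
    refine mu_of_rk hp hp2 r ?_ L n hn L' hL' hcop
    intro F0 _ hne m E hE
    exact (key F0 hne m E hE).2

/-- **the general criterion**: `r + 1` primes above `p`, `r` units with an invertible matrix of
logarithms -/
theorem layerBound_r {p r : ℕ} {F : Type} [Field F] [NumberField F] (hp : p.Prime) (hp2 : p ≠ 2)
    (hF : finrank ℚ F < p) {A B : Fin r → Ideal (𝓞 F)} {γ : Fin r → 𝓞 F}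
    {c : Fin r → Fin r → ℤ} (D : GrossData p A B γ c) (h2 : (pv p F).ncard ≤ r + 1)
    (hcl : ¬ p ∣ Nat.card (ClassGroup (𝓞 F))) : LayerBound p r F := by
  rintro F0 ⟨e⟩ m E hE
  have hF0nf : NumberField F0 := NumberField.of_ringEquiv F F0 e
  have hF0fin : FiniteDimensional ℚ F0 := fd_of_nf F0
  have hEfin : FiniteDimensional ℚ E := by
    apply FiniteDimensional.of_finrank_pos
    rw [hE.2]; exact pow_pos hp.pos _
  have hKfin : FiniteDimensional ℚ ↥(F0 ⊔ E) := IntermediateField.finiteDimensional_sup F0 E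
  have hKnf : NumberField ↥(F0 ⊔ E) := NumberField.of_module_finite ℚ _
  have hF0 : finrank ℚ F0 < p := by
    have e3 : F ≃ₗ[ℚ] F0 := (e.toAddEquiv).toLinearEquiv (fun c x => by
      change e (c • x) = c • e x
      exact map_rat_smul (e : F →+* F0) c x)
    rw [← LinearEquiv.finrank_eq e3]
    exact hF
  exact layer_main hp hp2 F0 hF0 (gross_equiv e D) (pv_equiv hp e h2)
    (by rwa [← gr_card_eq e]) m E hE

theorem layerBound {p : ℕ} {F : Type} [Field F] [NumberField F] {k : Type*} [Field k]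
    [NumberField k] [Algebra k F] (hp : p.Prime) (hp2 : p ≠ 2) (hF : finrank ℚ F < p)
    {α β γ : 𝓞 F} {b0 : 𝓞 k} (D : GData p α β γ b0) (h2 : (pv p F).ncard ≤ 2)
    (hcl : ¬ p ∣ Nat.card (ClassGroup (𝓞 F))) : LayerBound p 1 F := by
  obtain ⟨A, B, c, G⟩ := D.toGross hp
  exact layerBound_r hp hp2 hF G h2 hcl

theorem split_extensions {p : ℕ} {F : Type} [Field F] [NumberField F] {k : Type*} [Field k]
    [NumberField k] [Algebra k F] (hp : p.Prime) (hp2 : p ≠ 2) (hF : finrank ℚ F < p)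
    {α β γ : 𝓞 F} {b0 : 𝓞 k} (D : SData p α β γ b0) (h2 : (pv p F).ncard ≤ 2)
    (hcl : ¬ p ∣ Nat.card (ClassGroup (𝓞 F))) : SplitExtensions p 1 F :=
  (layerBound hp hp2 hF D.toG h2 hcl).split hp hp2

end Pool.Agent.Work.MuS
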