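import Pool.Agent.Work.MP_a4986b_nt.SpG
import Pool.Agent.Work.MP_a4986b_nt.CClos

set_option autoImplicit false
set_option maxHeartbeats 400000

/-! # Split primes, part H: the class group of a field with group of order 6 -/

namespace Pool.Agent.Work.MuS

open NumberField Module
open scoped nonZeroDivisors Pointwise
open Pool.Agent.Work.MuI

section Abs

variable {p : ℕ}

theorem rk_surj {A B : Type*} [CommGroup A] [Finite A] [CommGroup B] [Finite B] (hp : p.Prime)
    (f : A →* B) (hf : Function.Surjective f) : rk p B ≤ rk p A := by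
  have hpf : Fact p.Prime := ⟨hp⟩
  have h1 : (powMonoidHom p : B →* B).range.index ∣ (powMonoidHom p : A →* A).range.index := by
    refine (Subgroup.index_dvd_of_le ?_).trans
      (Subgroup.index_map_dvd (powMonoidHom p : A →* A).range hf)
    rintro _ ⟨_, ⟨x, rfl⟩, rfl⟩
    exact ⟨f x, (map_pow f x p).symm⟩
  obtain ⟨d, hd⟩ := h1
  have h0 : (powMonoidHom p : A →* A).range.index ≠ 0 := Subgroup.index_ne_zero_of_finite
  have hd0 : d ≠ 0 := by
    rintro rfl
    rw [mul_zero] at hd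
    exact h0 hd
  change padicValNat p (powMonoidHom p : B →* B).range.index ≤
    padicValNat p (powMonoidHom p : A →* A).range.index
  rw [hd, padicValNat.mul Subgroup.index_ne_zero_of_finite hd0]
  exact Nat.le_add_right _ _

theorem rk_prod {A B : Type*} [CommGroup A] [Finite A] [CommGroup B] [Finite B] (hp : p.Prime) :
    rk p (A × B) ≤ rk p A + rk p B := by
  have hpf : Fact p.Prime := ⟨hp⟩
  have h1 : (powMonoidHom p : A × B →* A × B).range =
      (powMonoidHom p : A →* A).range.prod (powMonoidHom p : B →* B).range := by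
    ext ⟨a, b⟩
    rw [Subgroup.mem_prod]
    constructor
    · rintro ⟨⟨x, y⟩, h⟩
      exact ⟨⟨x, congrArg Prod.fst h⟩, ⟨y, congrArg Prod.snd h⟩⟩
    · rintro ⟨⟨x, hx⟩, ⟨y, hy⟩⟩
      exact ⟨⟨x, y⟩, Prod.ext hx hy⟩
  change padicValNat p (powMonoidHom p : A × B →* A × B).range.index ≤
    padicValNat p (powMonoidHom p : A →* A).range.index +
      padicValNat p (powMonoidHom p : B →* B).range.index
  rw [h1, Subgroup.index_prod, padicValNat.mul Subgroup.index_ne_zero_of_finite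
    Subgroup.index_ne_zero_of_finite]

/-- three maps that generate the cubes -/
theorem join_three {A B1 B2 B3 : Type*} [CommGroup A] [Finite A] [CommGroup B1] [Finite B1]
    [CommGroup B2] [Finite B2] [CommGroup B3] [Finite B3] (hp : p.Prime) (hp3 : p ≠ 3)
    (j1 : B1 →* A) (j2 : B2 →* A) (j3 : B3 →* A)
    (h : ∀ c : A, ∃ x y z, c ^ 3 = j1 x * (j2 y * j3 z)) :
    padicValNat p (Nat.card A) ≤
      padicValNat p (Nat.card B1) + (padicValNat p (Nat.card B2) + padicValNat p (Nat.card B3)) ∧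
    rk p A ≤ rk p B1 + (rk p B2 + rk p B3) := by
  have hpf : Fact p.Prime := ⟨hp⟩
  have hcop : ¬ p ∣ 3 := fun h => hp3 ((Nat.prime_dvd_prime_iff_eq hp Nat.prime_three).1 h)
  let f : B1 × (B2 × B3) →* A := j1.coprod (j2.coprod j3)
  have hf : ∀ c : A, c ^ 3 ∈ f.range := by
    intro c
    obtain ⟨x, y, z, hc⟩ := h c
    exact ⟨⟨x, y, z⟩, hc.symm⟩
  have hidx : ¬ p ∣ f.range.index := by
    intro h1
    rw [Subgroup.index] at h1
    obtain ⟨y, hy⟩ := exists_prime_orderOf_dvd_card' p h1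
    obtain ⟨c, rfl⟩ := QuotientGroup.mk_surjective y
    have h5 : (QuotientGroup.mk c : A ⧸ f.range) ^ 3 = 1 := by
      rw [← QuotientGroup.mk_pow, QuotientGroup.eq_one_iff]
      exact hf c
    have h6 := orderOf_dvd_of_pow_eq_one h5
    rw [hy] at h6
    exact hcop h6
  constructor
  · have e1 : Nat.card (B1 × (B2 × B3)) = Nat.card f.ker * Nat.card f.range := by
      rw [← Subgroup.card_mul_index f.ker, Subgroup.index_ker]
    have e2 : Nat.card A = Nat.card f.range * f.range.index := (Subgroup.card_mul_index _).symm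
    have e3 : Nat.card (B1 × (B2 × B3)) = Nat.card B1 * (Nat.card B2 * Nat.card B3) := by
      rw [Nat.card_prod, Nat.card_prod]
    rw [e2, padicValNat.mul Nat.card_pos.ne' Subgroup.index_ne_zero_of_finite,
      padicValNat.eq_zero_of_not_dvd hidx, add_zero,
      ← padicValNat.mul Nat.card_pos.ne' Nat.card_pos.ne',
      ← padicValNat.mul Nat.card_pos.ne' (mul_ne_zero Nat.card_pos.ne' Nat.card_pos.ne'), ← e3, e1,
      padicValNat.mul Nat.card_pos.ne' Nat.card_pos.ne']
    exact Nat.le_add_left _ _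
  · have h1 := g1_rk_exact hp (QuotientGroup.mk' f.range)
    have h2 : rk p (QuotientGroup.mk' f.range).range = 0 := by
      apply rk_eq_zero
      intro h3
      exact hidx (h3.trans (Subgroup.card_subgroup_dvd_card _))
    rw [h2, add_zero, QuotientGroup.ker_mk'] at h1
    have h3 : rk p f.range ≤ rk p (B1 × (B2 × B3)) := rk_surj hp f.rangeRestrict
      f.rangeRestrict_surjective
    have h4 : rk p (B1 × (B2 × B3)) ≤ rk p B1 + rk p (B2 × B3) := rk_prod hp
    have h5 : rk p (B2 × B3) ≤ rk p B2 + rk p B3 := rk_prod hp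
    omega

end Abs

section Gal

variable {N : Type*} [Field N] [NumberField N] [IsGalois ℚ N]

theorem norm_cl (X : IntermediateField ℚ N) (S : Finset Gal(N/ℚ))
    (hS : ∀ g, g ∈ S ↔ g ∈ X.fixingSubgroup) (c : ClassGroup (𝓞 N)) :
    ∃ x : ClassGroup (𝓞 X), ClassGroup.extendedHom (𝓞 X) (𝓞 N) x = ∏ g ∈ S, clAct g c := by
  obtain ⟨Nm, -, -, h⟩ := exists_clNorm X N
  refine ⟨Nm c, ?_⟩
  rw [h inferInstance c]
  symm
  refine Finset.prod_bij' (fun g hg => IntermediateField.fixingSubgroupEquiv X ⟨g, (hS g).1 hg⟩)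
    (fun g _ => ((IntermediateField.fixingSubgroupEquiv X).symm g : Gal(N/ℚ))) ?_ ?_ ?_ ?_ ?_
  · intro g _; exact Finset.mem_univ _
  · intro g _; exact (hS _).2 (((IntermediateField.fixingSubgroupEquiv X).symm g).2)
  · intro g hg; simp
  · intro g hg; simp
  · intro g hg
    rw [clAct_tower (K := ℚ) (IntermediateField.fixingSubgroupEquiv X ⟨g, (hS g).1 hg⟩)]
    rfl

theorem s3_cube (E0 Y X0 X1 : IntermediateField ℚ N) (hE0 : finrank E0 N = 6)
    (hY : finrank Y N = 3) (hX0 : finrank X0 N = 2) (hX1 : finrank X1 N = 2) (lY : E0 ≤ Y)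
    (l0 : E0 ≤ X0) (l1 : E0 ≤ X1) (h01 : X0 ≠ X1) (c : ClassGroup (𝓞 N)) :
    ∃ (y : ClassGroup (𝓞 Y)) (a : ClassGroup (𝓞 X0)) (b : ClassGroup (𝓞 X1)),
      c ^ 3 = ClassGroup.extendedHom (𝓞 Y) (𝓞 N) y * (ClassGroup.extendedHom (𝓞 X0) (𝓞 N) a *
        ClassGroup.extendedHom (𝓞 X1) (𝓞 N) b) := by
  classical
  have hcard : ∀ X : IntermediateField ℚ N, Nat.card X.fixingSubgroup = finrank X N :=
    fun X => IsGalois.card_fixingSubgroup_eq_finrank X
  -- the involutions
  have inv : ∀ X : IntermediateField ℚ N, finrank X N = 2 → ∃ τ : Gal(N/ℚ), τ ≠ 1 ∧ τ * τ = 1 ∧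
      ∀ g, g ∈ ({1, τ} : Finset Gal(N/ℚ)) ↔ g ∈ X.fixingSubgroup := by
    intro X hX
    have h1 := hcard X
    rw [hX] at h1
    obtain ⟨a, b, hab, huniv⟩ := Nat.card_eq_two_iff.1 h1
    have key : ∃ τ : X.fixingSubgroup, τ ≠ 1 ∧ ∀ x : X.fixingSubgroup, x = 1 ∨ x = τ := by
      have hmem : ∀ x : X.fixingSubgroup, x = a ∨ x = b := by
        intro x
        have h3 : x ∈ (Set.univ : Set X.fixingSubgroup) := Set.mem_univ x
        rw [← huniv] at h3
        exact h3
      rcases hmem 1 with h3 | h3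
      · exact ⟨b, by rw [h3]; exact hab.symm, fun x => by rw [h3]; exact hmem x⟩
      · exact ⟨a, by rw [h3]; exact hab, fun x => by rw [h3]; exact (hmem x).symm⟩
    obtain ⟨τ, hτ1, hτ⟩ := key
    refine ⟨τ, fun h => hτ1 (Subtype.ext h), ?_, ?_⟩
    · rcases hτ (τ * τ) with h3 | h3
      · exact congrArg Subtype.val h3
      · exact absurd (mul_eq_left.1 h3) hτ1
    · intro g
      rw [Finset.mem_insert, Finset.mem_singleton]
      constructor
      · rintro (rfl | rfl)
        · exact one_mem _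
        · exact τ.2
      · intro hg
        rcases hτ ⟨g, hg⟩ with h3 | h3
        · exact Or.inl (congrArg Subtype.val h3)
        · exact Or.inr (congrArg Subtype.val h3)
  obtain ⟨τ0, n0, q0, m0⟩ := inv X0 hX0
  obtain ⟨τ1, n1, q1, m1⟩ := inv X1 hX1
  have hne : τ0 ≠ τ1 := by
    intro h
    apply h01
    have h3 : X0.fixingSubgroup = X1.fixingSubgroup := by
      ext g
      rw [← m0, ← m1, h]
    rw [← IsGalois.fixedField_fixingSubgroup X0, ← IsGalois.fixedField_fixingSubgroup X1, h3]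
  -- the product lies in the group of `Y`
  set H := E0.fixingSubgroup with hH
  set T := Y.fixingSubgroup with hT
  have hTH : T ≤ H := IntermediateField.fixingSubgroup_antitone lY
  have h0H : τ0 ∈ H := IntermediateField.fixingSubgroup_antitone l0 ((m0 _).1 (by simp))
  have h1H : τ1 ∈ H := IntermediateField.fixingSubgroup_antitone l1 ((m1 _).1 (by simp))
  have hcT : Nat.card T = 3 := by rw [hT, hcard, hY]
  have hcH : Nat.card H = 6 := by rw [hH, hcard, hE0]
  have hcS : Nat.card (T.subgroupOf H) = 3 := by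
    rw [← hcT]
    exact Nat.card_congr (Subgroup.subgroupOfEquivOfLe hTH).toEquiv
  have hidx : (T.subgroupOf H).index = 2 := by
    have h3 := Subgroup.card_mul_index (T.subgroupOf H)
    rw [hcS, hcH] at h3
    omega
  have hnot : ∀ τ : Gal(N/ℚ), τ ≠ 1 → τ * τ = 1 → τ ∉ T := by
    intro τ hτ hτ2 hm
    have h3 : (⟨τ, hm⟩ : T) ^ 3 = 1 := by rw [← hcT]; exact pow_card_eq_one'
    have h4 := congrArg Subtype.val h3
    rw [Subgroup.coe_pow, pow_succ, pow_two] at h4
    change τ * τ * τ = 1 at h4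
    rw [hτ2, one_mul] at h4
    exact hτ h4
  have hs : τ0 * τ1 ∈ T := by
    have h3 := (Subgroup.mul_mem_iff_of_index_two hidx (a := ⟨τ0, h0H⟩) (b := ⟨τ1, h1H⟩)).2 (by
      constructor
      · intro h4
        exact absurd (Subgroup.mem_subgroupOf.1 h4) (hnot τ0 n0 q0)
      · intro h4
        exact absurd (Subgroup.mem_subgroupOf.1 h4) (hnot τ1 n1 q1))
    exact Subgroup.mem_subgroupOf.1 h3
  have hs' : τ1 * τ0 ∈ T := by
    have h3 : τ1 * τ0 = (τ0 * τ1)⁻¹ := by
      rw [mul_inv_rev, ← eq_inv_of_mul_eq_one_left q0, ← eq_inv_of_mul_eq_one_left q1]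
    rw [h3]
    exact inv_mem hs
  have hs1 : τ0 * τ1 ≠ 1 := by
    intro h
    apply hne
    have h3 : τ0 = τ1⁻¹ := eq_inv_of_mul_eq_one_left h
    rw [h3]
    exact (eq_inv_of_mul_eq_one_left q1).symm
  have hs2 : τ1 * τ0 ≠ 1 := by
    intro h
    apply hne
    have h3 : τ1 = τ0⁻¹ := eq_inv_of_mul_eq_one_left h
    rw [h3]
    exact eq_inv_of_mul_eq_one_left q0
  have hs3 : τ0 * τ1 ≠ τ1 * τ0 := by
    intro h
    have h3 : (⟨τ0 * τ1, hs⟩ : T) ^ 3 = 1 := by rw [← hcT]; exact pow_card_eq_one'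
    have h4 := congrArg Subtype.val h3
    rw [Subgroup.coe_pow, pow_succ, pow_two] at h4
    change τ0 * τ1 * (τ0 * τ1) * (τ0 * τ1) = 1 at h4
    have h5 : τ0 * τ1 * (τ0 * τ1) = 1 := by
      nth_rewrite 2 [h]
      rw [mul_assoc, ← mul_assoc τ1 τ1, q1, one_mul, q0]
    rw [h5, one_mul] at h4
    exact hs1 h4
  have mT : ∀ g, g ∈ ({1, τ0 * τ1, τ1 * τ0} : Finset Gal(N/ℚ)) ↔ g ∈ Y.fixingSubgroup := by
    have h3 : ({1, τ0 * τ1, τ1 * τ0} : Finset Gal(N/ℚ)) =
        Finset.univ.filter fun g => g ∈ Y.fixingSubgroup := by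
      apply Finset.eq_of_subset_of_card_le
      · intro x hx
        rw [Finset.mem_filter]
        refine ⟨Finset.mem_univ _, ?_⟩
        simp only [Finset.mem_insert, Finset.mem_singleton] at hx
        rcases hx with rfl | rfl | rfl
        · exact one_mem _
        · exact hs
        · exact hs'
      · have h4 : (Finset.univ.filter fun g => g ∈ Y.fixingSubgroup).card = 3 := by
          rw [← hcT, ← Nat.card_eq_finsetCard]
          exact Nat.card_congr (Equiv.subtypeEquivRight fun g => by simp [hT])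
        rw [h4, Finset.card_insert_of_notMem, Finset.card_insert_of_notMem,
          Finset.card_singleton]
        · simpa using hs3
        · simp [Ne.symm hs1, Ne.symm hs2]
    intro g
    rw [h3]
    simp
  obtain ⟨y, hy⟩ := norm_cl Y _ mT c
  obtain ⟨a0, ha0⟩ := norm_cl X0 _ m0 c
  obtain ⟨a1, ha1⟩ := norm_cl X0 _ m0 (clAct τ1 c)
  obtain ⟨b0, hb0⟩ := norm_cl X1 _ m1 c
  obtain ⟨b1, hb1⟩ := norm_cl X1 _ m1 (clAct τ0 c)
  have hid : ∀ x : ClassGroup (𝓞 N), clAct (1 : Gal(N/ℚ)) x = x := fun x => by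
    rw [clAct_one]; rfl
  rw [Finset.prod_pair (Ne.symm n0), hid] at ha0 ha1
  rw [Finset.prod_pair (Ne.symm n1), hid] at hb0 hb1
  rw [Finset.prod_insert (by simp [Ne.symm hs1, Ne.symm hs2]),
    Finset.prod_insert (by simpa using hs3), Finset.prod_singleton, hid, clAct_mul,
    clAct_mul] at hy
  refine ⟨y, a0 / a1, b0 / b1, ?_⟩
  rw [map_div, map_div, hy, ha0, ha1, hb0, hb1]
  generalize clAct τ0 (clAct τ1 c) = u1
  generalize clAct τ1 (clAct τ0 c) = u2
  generalize clAct τ0 c = v0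
  generalize clAct τ1 c = v1
  rw [pow_succ, pow_two]
  have e : ∀ a b : ClassGroup (𝓞 N), a / b = a * b⁻¹ := fun a b => div_eq_mul_inv a b
  rw [e, e, mul_inv, mul_inv]
  have : c * (u1 * u2) * (c * v0 * (v1⁻¹ * u1⁻¹) * (c * v1 * (v0⁻¹ * u2⁻¹))) =
      c * c * c * ((u1 * u1⁻¹) * (u2 * u2⁻¹) * (v0 * v0⁻¹) * (v1 * v1⁻¹)) := by
    ac_rfl
  rw [this]
  simp

end Gal

end Pool.Agent.Work.MuS
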