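import Pool.Agent.Work.MP_a4986b_nt.SpH

set_option autoImplicit false
set_option maxHeartbeats 400000

/-! # Split primes, part I: the Galois closure of a cubic field -/

namespace Pool.Agent.Work.MuS

open NumberField Module
open scoped nonZeroDivisors Pointwise
open Pool.Agent.Work.MuI
open Pool.Agent.Work.MuB (MuZero)

theorem s3_join {N : Type*} [Field N] [NumberField N] [i : Algebra ℚ N] [IsGalois ℚ N] {p : ℕ}
    (hp : p.Prime) (hp3 : p ≠ 3) (E0 Y X0 X1 : IntermediateField ℚ N)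
    (hE0 : finrank E0 N = 6) (hY : finrank Y N = 3) (hX0 : finrank X0 N = 2)
    (hX1 : finrank X1 N = 2) (lY : E0 ≤ Y) (l0 : E0 ≤ X0) (l1 : E0 ≤ X1) (h01 : X0 ≠ X1) :
    padicValNat p (Nat.card (ClassGroup (𝓞 N))) ≤
      padicValNat p (Nat.card (ClassGroup (𝓞 Y))) +
        (padicValNat p (Nat.card (ClassGroup (𝓞 X0))) +
          padicValNat p (Nat.card (ClassGroup (𝓞 X1)))) ∧
    rk p (ClassGroup (𝓞 N)) ≤
      rk p (ClassGroup (𝓞 Y)) + (rk p (ClassGroup (𝓞 X0)) + rk p (ClassGroup (𝓞 X1))) := by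
  obtain rfl : i = DivisionRing.toRatAlgebra := Subsingleton.elim _ _
  exact join_three hp hp3 _ _ _ (fun c => by
    obtain ⟨y, a, b, h⟩ := s3_cube E0 Y X0 X1 hE0 hY hX0 hX1 lY l0 l1 h01 c
    exact ⟨y, a, b, h⟩)

theorem ce_join {p : ℕ} (hp : p.Prime) (hp3 : p ≠ 3) (M E0 Y X0 X1 : IntermediateField ℚ ℂ)
    [NumberField M] [IsGalois ℚ M] (d : ℕ) (hd : 0 < d)
    (hM : finrank ℚ M = 6 * d) (hE0 : finrank ℚ E0 = d) (hY : finrank ℚ Y = 2 * d)
    (hX0 : finrank ℚ X0 = 3 * d) (hX1 : finrank ℚ X1 = 3 * d)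
    (lY : E0 ≤ Y) (l0 : E0 ≤ X0) (l1 : E0 ≤ X1) (mY : Y ≤ M) (m0 : X0 ≤ M) (m1 : X1 ≤ M)
    (h01 : X0 ≠ X1) :
    padicValNat p (Nat.card (ClassGroup (𝓞 M))) ≤
      padicValNat p (Nat.card (ClassGroup (𝓞 Y))) +
        (padicValNat p (Nat.card (ClassGroup (𝓞 X0))) +
          padicValNat p (Nat.card (ClassGroup (𝓞 X1)))) ∧
    rk p (ClassGroup (𝓞 M)) ≤
      rk p (ClassGroup (𝓞 Y)) + (rk p (ClassGroup (𝓞 X0)) + rk p (ClassGroup (𝓞 X1))) := by
  have mE : E0 ≤ M := lY.trans mY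
  have hgal : @IsGalois ℚ _ M _ M.algebra' := Mu22.cc_cast _ _ inferInstance
  have hrk : ∀ (X : IntermediateField ℚ ℂ) (hX : X ≤ M),
      rk p (ClassGroup (𝓞 (IntermediateField.restrict hX))) = rk p (ClassGroup (𝓞 X)) := by
    intro X hX
    exact rk_congr (ClassGroup.mulEquiv (RingOfIntegers.mapRingEquiv
      (IntermediateField.restrictAlgEquiv hX).symm.toRingEquiv))
  have key := s3_join hp hp3 (IntermediateField.restrict mE) (IntermediateField.restrict mY)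
    (IntermediateField.restrict m0) (IntermediateField.restrict m1)
    (Mu22.ce_rank mE d 6 hE0 hM hd) (Mu22.ce_rank mY (2 * d) 3 hY (by omega) (by omega))
    (Mu22.ce_rank m0 (3 * d) 2 hX0 (by omega) (by omega))
    (Mu22.ce_rank m1 (3 * d) 2 hX1 (by omega) (by omega))
    (Mu22.ce_le _ _ lY) (Mu22.ce_le _ _ l0) (Mu22.ce_le _ _ l1) (by
      intro h
      apply h01
      rw [← IntermediateField.lift_restrict m0, ← IntermediateField.lift_restrict m1, h])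
  rw [Mu22.ce_cardr, Mu22.ce_cardr, Mu22.ce_cardr, hrk, hrk, hrk] at key
  exact key

theorem split_closure {F : Type} [Field F] [NumberField F] {p : ℕ} (hp : p.Prime) (hp2 : p ≠ 2)
    (hp3 : p ≠ 3) (hF : finrank ℚ F = 3) (hng : ¬ IsGalois ℚ F)
    (N : IntermediateField ℚ ℂ) [NumberField N] [IsGalois ℚ N] (hN : finrank ℚ N = 6)
    (f : F →+* N) (Y : IntermediateField ℚ ℂ) (hYN : Y ≤ N) (hY : finrank ℚ Y = 2)
    (m : ℕ) (E : IntermediateField ℚ ℂ) (hE : IsLayer p m E) (b r : ℕ)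
    (hb : ∀ F' : IntermediateField ℚ ℂ, Nonempty (F ≃+* F') →
      padicValNat p (Nat.card (ClassGroup (𝓞 ↥(F' ⊔ E)))) ≤ b ∧
        rk p (ClassGroup (𝓞 ↥(F' ⊔ E))) ≤ r) :
    padicValNat p (Nat.card (ClassGroup (𝓞 ↥(N ⊔ E)))) ≤
      padicValNat p (Nat.card (ClassGroup (𝓞 ↥(Y ⊔ E)))) + 2 * b ∧
    rk p (ClassGroup (𝓞 ↥(N ⊔ E))) ≤ rk p (ClassGroup (𝓞 ↥(Y ⊔ E))) + 2 * r := by
  have hNg : @IsGalois ℚ _ N _ N.algebra' := Mu22.cc_cast _ _ inferInstance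
  have hN6 : @finrank ℚ N _ _ N.algebra'.toModule = 6 := by
    rw [Mu22.cy_finrank _ (@Algebra.toModule ℚ N _ _ DivisionRing.toRatAlgebra)]; exact hN
  have hNf : @FiniteDimensional ℚ N _ _ N.algebra'.toModule :=
    FiniteDimensional.of_finrank_pos (by rw [hN6]; norm_num)
  have hNn : @Normal ℚ N _ _ N.algebra' := hNg.to_normal
  classical
  have hcomm : ∀ r : ℚ, f (algebraMap ℚ F r) = (@algebraMap ℚ N _ _ N.algebra') r := by
    intro r
    rw [eq_ratCast, map_ratCast]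
    exact (eq_ratCast (@algebraMap ℚ N _ _ N.algebra') r).symm
  let f' : @AlgHom ℚ F N _ _ _ _ N.algebra' := { f with commutes' := hcomm }
  obtain ⟨φ0, φ1, φ2, h01, h02, h12, -⟩ : ∃ a b c : F →ₐ[ℚ] ℂ, a ≠ b ∧ a ≠ c ∧ b ≠ c ∧
      (Finset.univ : Finset (F →ₐ[ℚ] ℂ)) = {a, b, c} := by
    apply Finset.card_eq_three.mp
    rw [Finset.card_univ, AlgHom.card ℚ F ℂ, hF]
  have hr01 : φ0.fieldRange ≠ φ1.fieldRange := fun h => h01 (MuB.cl_range_inj hF hng _ _ h)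
  have hle := fun φ : F →ₐ[ℚ] ℂ => MuB.cl_le N hNn f' φ
  have hEd := hE.2
  have hcj : ∀ φ : F →ₐ[ℚ] ℂ, finrank ℚ φ.fieldRange = 3 := by
    intro φ
    have e : F ≃ₐ[ℚ] φ.fieldRange := AlgEquiv.ofInjectiveField φ
    rw [← hF]
    exact (LinearEquiv.finrank_eq e.toLinearEquiv).symm
  have hbj : ∀ φ : F →ₐ[ℚ] ℂ, _ := fun φ =>
    hb φ.fieldRange ⟨(AlgEquiv.ofInjectiveField φ).toRingEquiv⟩
  -- degrees
  have hcop2 : Nat.Coprime 2 (p ^ m) :=
    Nat.Coprime.pow_right m ((Nat.coprime_primes Nat.prime_two hp).2 (Ne.symm hp2))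
  have hcop3 : Nat.Coprime 3 (p ^ m) :=
    Nat.Coprime.pow_right m ((Nat.coprime_primes Nat.prime_three hp).2 (Ne.symm hp3))
  have hcop6 : Nat.Coprime 6 (p ^ m) := Nat.Coprime.mul_left hcop2 hcop3
  have hEf : FiniteDimensional ℚ E :=
    FiniteDimensional.of_finrank_pos (by rw [hEd]; exact pow_pos hp.pos _)
  have hYf : FiniteDimensional ℚ Y := FiniteDimensional.of_finrank_pos (by rw [hY]; norm_num)
  have hrank : ∀ (X : IntermediateField ℚ ℂ) (d : ℕ), finrank ℚ X = d → FiniteDimensional ℚ X →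
      Nat.Coprime d (p ^ m) → finrank ℚ ↥(X ⊔ E) = d * p ^ m := by
    intro X d hX hfd hc
    have hdis : X.LinearDisjoint E :=
      IntermediateField.LinearDisjoint.of_finrank_coprime (by rw [hX, hEd]; exact hc)
    rw [hdis.finrank_sup, hX, hEd]
  have hgE := Mu22.ce_galE hp m E hE.1
  have hMf : FiniteDimensional ℚ ↥(N ⊔ E) := IntermediateField.finiteDimensional_sup N E
  have hMg : @IsGalois ℚ _ ↥(N ⊔ E) _ (N ⊔ E).algebra' :=
    Mu22.ce_galsup N E (hA := hNg) (hB := Mu22.cc_cast _ _ hgE)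
  have hMn : NumberField ↥(N ⊔ E) := ⟨⟩
  have hMg' : @IsGalois ℚ _ ↥(N ⊔ E) _ DivisionRing.toRatAlgebra := Mu22.cc_cast _ _ hMg
  have hfr : ∀ φ : F →ₐ[ℚ] ℂ, FiniteDimensional ℚ φ.fieldRange := fun φ =>
    FiniteDimensional.of_finrank_pos (by rw [hcj φ]; norm_num)
  have hne : φ0.fieldRange ⊔ E ≠ φ1.fieldRange ⊔ E := by
    intro h
    have h3 : N ≤ φ0.fieldRange ⊔ E := by
      have h4 := MuB.cl_join33 (hle φ0) (hle φ1) hN6 (hcj φ0) (hcj φ1) hr01
      rw [← h4]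
      refine sup_le le_sup_left ?_
      rw [h]
      exact le_sup_left
    have h5 : N ⊔ E ≤ φ0.fieldRange ⊔ E := sup_le h3 le_sup_right
    have hfd : FiniteDimensional ℚ ↥(φ0.fieldRange ⊔ E) :=
      @IntermediateField.finiteDimensional_sup _ _ _ _ _ _ _ (hfr φ0) hEf
    have h6 := IntermediateField.finrank_le_of_le_right h5
    rw [hrank _ 3 (hcj φ0) (hfr _) hcop3, hrank N 6 hN6 hNf hcop6] at h6
    have h7 := pow_pos hp.pos m
    omega
  have key := ce_join hp hp3 (N ⊔ E) E (Y ⊔ E) (φ0.fieldRange ⊔ E) (φ1.fieldRange ⊔ E)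
    (p ^ m) (pow_pos hp.pos m) (by
      rw [Mu22.cy_finrank _ (N ⊔ E).algebra'.toModule]
      exact hrank N 6 hN6 hNf hcop6) hEd (hrank _ 2 hY hYf hcop2)
    (hrank _ 3 (hcj φ0) (hfr _) hcop3) (hrank _ 3 (hcj φ1) (hfr _) hcop3) le_sup_right
    le_sup_right le_sup_right (sup_le_sup_right hYN E) (sup_le_sup_right (hle φ0) E)
    (sup_le_sup_right (hle φ1) E) hne
  have k0 := hbj φ0
  have k1 := hbj φ1
  obtain ⟨c1, c2⟩ := key
  constructor
  · have e1 := k0.1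
    have e2 := k1.1
    omega
  · have e1 := k0.2
    have e2 := k1.2
    omega

end Pool.Agent.Work.MuS
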