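import Pool.Agent.Work.MP_a4986b_nt.SpI
import Pool.Agent.Work.MP_a4986b_nt.Clos

set_option autoImplicit false
set_option maxHeartbeats 400000

/-! # Split primes, part J: the Galois closure of a pure cubic field -/

namespace Pool.Agent.Work.MuS

open NumberField Module
open scoped nonZeroDivisors Pointwise
open Pool.Agent.Work.MuI
open Pool.Agent.Work.MuB (MuZero)

theorem exists_omega {N : Type*} [Field N] [NumberField N] [IsGalois ℚ N] (t : N) (r : ℚ)
    (ht3 : t ^ 3 = algebraMap ℚ N r) (htr : t ∉ (algebraMap ℚ N).range) :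
    ∃ ω : N, IsPrimitiveRoot ω 3 := by
  have ht0 : t ≠ 0 := by
    intro h
    exact htr ⟨0, by rw [map_zero, h]⟩
  obtain ⟨g0, hg0⟩ : ∃ g : Gal(N/ℚ), g t ≠ t := by
    by_contra hcon
    push Not at hcon
    apply htr
    have h := (IsGalois.mem_bot_iff_fixed (F := ℚ) (E := N) t).2 hcon
    obtain ⟨y, hy⟩ := IntermediateField.mem_bot.1 h
    exact ⟨y, hy⟩
  have hω3 : (g0 t / t) ^ 3 = 1 := by
    rw [div_pow, ← map_pow, ht3, AlgEquiv.commutes, div_self]
    rw [← ht3]
    exact pow_ne_zero _ ht0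
  have hω1 : g0 t / t ≠ 1 := by
    intro h
    rw [div_eq_one_iff_eq ht0] at h
    exact hg0 h
  refine ⟨g0 t / t, ?_⟩
  have := Fact.mk Nat.prime_three
  rw [IsPrimitiveRoot.iff_orderOf]
  exact orderOf_eq_prime hω3 hω1

/-- one prime above `p` in a quadratic field with a primitive cube root of unity -/
theorem onePrime_omega {Y : Type*} [Field Y] [NumberField Y] {p : ℕ} (hp : p.Prime)
    (hp3 : p % 3 = 2) (hY : finrank ℚ Y = 2) (ω : Y) (hω : IsPrimitiveRoot ω 3) :
    Mu22.OnePrime p Y := by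
  intro P Q hP hQ hpP hpQ
  by_contra hne
  have hn : ∀ R : Ideal (𝓞 Y), R.IsPrime → (p : 𝓞 Y) ∈ R → p ^ 2 ∣ Ideal.absNorm R := by
    intro R hR hpR
    have h1 := Mu22.clos_even hp hp3 ω hω R hR hpR
    have hover : R.LiesOver (Ideal.span {(p : ℤ)}) := Mu22.clos_over hp R hR hpR
    rw [← Ideal.pow_inertiaDeg p R]
    exact pow_dvd_pow p (Nat.le_of_dvd (Nat.pos_of_ne_zero (by
      intro h0
      have h2 := Ideal.pow_inertiaDeg p R
      rw [h0, pow_zero] at h2
      exact hR.ne_top (Ideal.absNorm_eq_one_iff.1 h2.symm))) h1)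
  have h0 : ∀ R : Ideal (𝓞 Y), (p : 𝓞 Y) ∈ R → R ≠ ⊥ := by
    rintro R hR rfl
    exact hp.ne_zero (by exact_mod_cast (Ideal.mem_bot.1 hR))
  have hPm := hP.isMaximal (h0 P hpP)
  have hQm := hQ.isMaximal (h0 Q hpQ)
  have hcop : IsCoprime P Q := (Ideal.isCoprime_iff_sup_eq).2 (hPm.coprime_of_ne hQm hne)
  have h3 : P * Q ∣ Ideal.span {(p : 𝓞 Y)} :=
    hcop.mul_dvd ((Ideal.dvd_span_singleton).2 hpP) ((Ideal.dvd_span_singleton).2 hpQ)
  have h4 := map_dvd (Ideal.absNorm (S := 𝓞 Y)) h3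
  rw [map_mul, Ideal.absNorm_span_natCast, RingOfIntegers.rank, hY] at h4
  have h5 := (mul_dvd_mul (hn P hP hpP) (hn Q hQ hpQ)).trans h4
  have h6 := Nat.le_of_dvd (pow_pos hp.pos 2) h5
  have h7 := hp.two_le
  nlinarith [pow_pos hp.pos 2]

theorem pure_closure {F : Type} [Field F] [NumberField F] {p : ℕ} (hp : p.Prime)
    (hp2 : p ≠ 2) (hp3 : p % 3 = 2) (h3 : finrank ℚ F = 3) (x : F)
    (hx : x ∉ (algebraMap ℚ F).range) (hx3 : x ^ 3 ∈ (algebraMap ℚ F).range)
    (hb : LayerBound p 1 F) (N : IntermediateField ℚ ℂ) [NumberField N] [IsGalois ℚ N]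
    (hN : finrank ℚ N = 6) (f : F →+* N) : LayerBound p 2 N := by
  obtain ⟨r, hr⟩ := hx3
  have hp3' : p ≠ 3 := by
    rintro rfl
    omega
  have hng : ¬ IsGalois ℚ F := by
    intro hg
    obtain ⟨ω, hω⟩ := exists_omega x r hr.symm hx
    have h1 : finrank ℚ (IntermediateField.adjoin ℚ {ω}) = 2 := by
      rw [IntermediateField.adjoin.finrank (Algebra.IsIntegral.isIntegral _),
        ← Polynomial.cyclotomic_eq_minpoly_rat hω (by norm_num), Polynomial.natDegree_cyclotomic]
      decide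
    have h2 := finrank_mul_finrank ℚ (IntermediateField.adjoin ℚ {ω}) F
    rw [h1, h3] at h2
    omega
  rintro N' ⟨e⟩ m E hE
  have hN'nf : NumberField N' := NumberField.of_ringEquiv N N' e
  let e1 : N ≃ₐ[ℚ] N' := AlgEquiv.ofRingEquiv (f := e) (fun r => by
    rw [eq_ratCast, eq_ratCast, map_ratCast])
  have hN'g : IsGalois ℚ N' := IsGalois.of_algEquiv e1
  have hN'6 : finrank ℚ N' = 6 := by
    rw [← hN]; exact (LinearEquiv.finrank_eq e1.toLinearEquiv).symm
  let f' : F →+* N' := (e : N →+* N').comp f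
  have ht3 : (f' x) ^ 3 = algebraMap ℚ N' r := by
    rw [← map_pow, ← hr, eq_ratCast, eq_ratCast, map_ratCast]
  have htr : f' x ∉ (algebraMap ℚ N').range := by
    rintro ⟨q, hq⟩
    apply hx
    refine ⟨q, ?_⟩
    apply f'.injective
    rw [← hq, eq_ratCast, eq_ratCast, map_ratCast]
  obtain ⟨ω, hω⟩ := exists_omega (f' x) r ht3 htr
  set Y : IntermediateField ℚ ℂ := IntermediateField.adjoin ℚ {(ω : ℂ)} with hY
  have hYN : Y ≤ N' := by
    rw [hY, IntermediateField.adjoin_simple_le_iff]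
    exact ω.2
  have hωC : IsPrimitiveRoot (ω : ℂ) 3 := hω.map_of_injective (f := N'.val) N'.val.injective
  have hωi : IsIntegral ℚ (ω : ℂ) := (hωC.isIntegral (by norm_num)).tower_top
  have hY2 : finrank ℚ Y = 2 := by
    rw [hY, IntermediateField.adjoin.finrank hωi,
      ← Polynomial.cyclotomic_eq_minpoly_rat hωC (by norm_num), Polynomial.natDegree_cyclotomic]
    decide
  have hYf : FiniteDimensional ℚ Y := FiniteDimensional.of_finrank_pos (by rw [hY2]; norm_num)
  have hYn : NumberField Y := NumberField.of_module_finite ℚ _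
  have hYcl : ¬ p ∣ Nat.card (ClassGroup (𝓞 ↥(Y ⊔ E))) := by
    have hωY : (ω : ℂ) ∈ Y := IntermediateField.mem_adjoin_simple_self ℚ _
    have hωY' : IsPrimitiveRoot (⟨(ω : ℂ), hωY⟩ : Y) 3 :=
      IsPrimitiveRoot.of_map_of_injective (f := Y.val) hωC Y.val.injective
    have hY2' : @finrank ℚ Y _ _ DivisionRing.toRatAlgebra.toModule = 2 :=
      (Mu22.cy_finrank _ Y.algebra'.toModule).trans hY2
    have hone := onePrime_omega hp hp3 hY2' _ hωY'
    have hcl : ¬ p ∣ Nat.card (ClassGroup (𝓞 Y)) := by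
      have h0 : IsCyclotomicExtension {3} ℚ Y := by
        change IsCyclotomicExtension {3} ℚ
          (IntermediateField.adjoin ℚ {(ω : ℂ)}).toSubalgebra
        rw [IntermediateField.adjoin_simple_toSubalgebra_of_isAlgebraic hωi.isAlgebraic]
        exact hωC.adjoin_isCyclotomicExtension ℚ
      have h4 : @IsCyclotomicExtension {3} ℚ Y _ _ DivisionRing.toRatAlgebra := by
        have e : (DivisionRing.toRatAlgebra : Algebra ℚ Y) = Y.algebra' := Subsingleton.elim _ _
        rw [e]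
        exact h0
      have h5 : IsPrincipalIdealRing (𝓞 Y) := IsCyclotomicExtension.Rat.three_pid Y
      have h6 : NumberField.classNumber Y = 1 := NumberField.classNumber_eq_one_iff.2 h5
      rw [NumberField.classNumber, ← Nat.card_eq_fintype_card] at h6
      rw [h6, Nat.dvd_one]
      exact hp.ne_one
    exact Mu22.cyc_tower hp hp2 Y hone hcl m (m + 1) E hE.1 hE.2
  have key := split_closure hp hp2 hp3' h3 hng N' hN'6 f' Y hYN hY2 m E hE (1 * m) 1
    (fun F' hF' => hb F' hF' m E hE)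
  have hpf : Fact p.Prime := ⟨hp⟩
  have hEf : FiniteDimensional ℚ E := by
    apply FiniteDimensional.of_finrank_pos
    rw [hE.2]; exact pow_pos hp.pos _
  have hYEf : FiniteDimensional ℚ ↥(Y ⊔ E) := IntermediateField.finiteDimensional_sup Y E
  have hYEn : NumberField ↥(Y ⊔ E) := NumberField.of_module_finite ℚ _
  rw [padicValNat.eq_zero_of_not_dvd hYcl, rk_eq_zero hYcl] at key
  constructor
  · have h6 := key.1
    omega
  · have h6 := key.2
    omega

end Pool.Agent.Work.MuS
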