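import Pool.Agent.Work.MP_a4986b_nt.SpJ
import Pool.Agent.Work.MP_a4986b_nt.BFinal

set_option autoImplicit false
set_option maxHeartbeats 400000

/-! # Split primes, part K: relative extensions of small discriminant -/

namespace Pool.Agent.Work.MuS

open NumberField Module IsDedekindDomain
open scoped nonZeroDivisors Pointwise

/-- the primes above `p` as a set of ideals -/
theorem ncard_pv (p : ℕ) (hp : p.Prime) (M : Type*) [Field M] [NumberField M] :
    {P : Ideal (𝓞 M) | P.IsPrime ∧ (p : 𝓞 M) ∈ P}.ncard = (pv p M).ncard := by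
  have h1 : {P : Ideal (𝓞 M) | P.IsPrime ∧ (p : 𝓞 M) ∈ P} =
      HeightOneSpectrum.asIdeal '' (pv p M) := by
    ext P
    constructor
    · rintro ⟨hP, hpP⟩
      refine ⟨⟨P, hP, ?_⟩, hpP, rfl⟩
      rintro rfl
      exact hp.ne_zero (by exact_mod_cast (Ideal.mem_bot.1 hpP))
    · rintro ⟨v, hv, rfl⟩
      exact ⟨v.isPrime, hv⟩
  rw [h1]
  exact Set.ncard_image_of_injective _ (fun v w h => HeightOneSpectrum.ext h)

theorem split_relative (k : Type) [Field k] [NumberField k] (d : ℕ) : ∃ c : ℝ, 0 < c ∧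
    ∀ (F : Type) [Field F] [NumberField F] [Algebra k F] (ρ p : ℕ), p.Prime → p ≠ 2 →
      finrank k F = d → finrank ℚ F < p →
      (∀ F' : IntermediateField k F, F' ≠ ⊤ → Units.rank F' ≤ ρ) → ρ ≤ Units.rank F →
      |(discr F : ℝ)| ≤ c * (p : ℝ) ^ 2 *
        (1 + Real.log p) ^ (2 * ((Units.rank F : ℤ) - ρ - d + 1)) →
      {P : Ideal (𝓞 F) | P.IsPrime ∧ (p : 𝓞 F) ∈ P}.ncard ≤ 2 →
      ∀ (α β γ : 𝓞 F) (b0 : 𝓞 k), SData p α β γ b0 → SplitExtensions p 1 F := by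
  obtain ⟨c, hc, h⟩ := MuB.not_dvd_all_of k d (MuB.class_le_all_of k d (MuB.regulator_ge_all k d))
  refine ⟨c, hc, ?_⟩
  intro F _ _ _ ρ p hp hp2 hF hFp hρ hρr hD h2 α β γ b0 D
  rw [ncard_pv p hp] at h2
  exact split_extensions hp hp2 hFp D h2 (h F ρ p hp hF hρ hρr hD)

end Pool.Agent.Work.MuS
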