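import Pool.Agent.Work.MP_a4986b_nt.SpG

set_option autoImplicit false
set_option maxHeartbeats 400000

/-! # Split primes, part N: the criterion in natural form -/

namespace Pool.Agent.Work.MuS

open NumberField Module
open scoped nonZeroDivisors Pointwise

variable {k F : Type*} [Field k] [NumberField k] [Field F] [NumberField F] [Algebra k F] {p : ℕ}

/-- `P` is a prime of `F` above `p`, unramified over `ℚ`, whose residue field comes from the field
`k` in which `p` is inert; `γ` is a `p`-unit and a unit at `P`, congruent to `b` of the base field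
modulo `P²`, and no local norm at `P`: `N(b) ^ (p - 1)` is not `1` modulo `p²` -/
structure NData (p : ℕ) {k F : Type*} [Field k] [NumberField k] [Field F] [NumberField F]
    [Algebra k F] (P : Ideal (𝓞 F)) (γ : 𝓞 F) (b : 𝓞 k) : Prop where
  inert : (Ideal.span {(p : 𝓞 k)}).IsPrime
  prime : P.IsPrime
  mem : (p : 𝓞 F) ∈ P
  unram : (p : 𝓞 F) ∉ P ^ 2
  degree : ∀ x : 𝓞 F, ∃ c : 𝓞 k, x - algebraMap (𝓞 k) (𝓞 F) c ∈ P
  pun : ∃ j : ℕ, γ ∣ (p : 𝓞 F) ^ j
  cong : γ - algebraMap (𝓞 k) (𝓞 F) b ∈ P ^ 2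
  unit : ¬ (p : ℤ) ∣ Algebra.norm ℤ b
  norm : ¬ (p : ℤ) ^ 2 ∣ (Algebra.norm ℤ b) ^ (p - 1) - 1

namespace NData

variable {P : Ideal (𝓞 F)} {γ : 𝓞 F} {b : 𝓞 k}

theorem comap_eq (hp : p.Prime) (D : NData p P γ b) :
    P.comap (algebraMap (𝓞 k) (𝓞 F)) = Ideal.span {(p : 𝓞 k)} := by
  have h0 : Ideal.span {(p : 𝓞 k)} ≠ ⊥ := by
    rw [Ne, Ideal.span_singleton_eq_bot]
    exact_mod_cast hp.ne_zero
  have hmax : (Ideal.span {(p : 𝓞 k)}).IsMaximal := D.inert.isMaximal h0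
  symm
  have hP := D.prime
  apply hmax.eq_of_le (Ideal.comap_isPrime _ P).ne_top
  rw [Ideal.span_singleton_le_iff_mem, Ideal.mem_comap, map_natCast]
  exact D.mem

theorem ne_bot (hp : p.Prime) (D : NData p P γ b) : P ≠ ⊥ := by
  rintro rfl
  exact hp.ne_zero (by exact_mod_cast (Ideal.mem_bot.1 D.mem))

/-- the complementary factor of `p` -/
theorem exists_compl (hp : p.Prime) (D : NData p P γ b) :
    ∃ C : Ideal (𝓞 F), Ideal.span {(p : 𝓞 F)} = P * C ∧ C ⊔ P = ⊤ := by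
  obtain ⟨C, hC⟩ := (Ideal.dvd_span_singleton).2 D.mem
  have hPm : P.IsMaximal := D.prime.isMaximal (D.ne_bot hp)
  refine ⟨C, hC, ?_⟩
  by_contra hne
  have h1 : C ≤ P := by
    by_contra h2
    apply hne
    rw [sup_comm]
    exact hPm.out.2 _ (left_lt_sup.2 h2)
  apply D.unram
  have h3 : P * C ≤ P ^ 2 := by
    rw [pow_two]
    exact Ideal.mul_mono_right h1
  apply h3
  rw [← hC]
  exact Ideal.mem_span_singleton_self _

/-- the residue rings of the powers of `P` come from the base -/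
theorem surj_pow (hp : p.Prime) (D : NData p P γ b) (K : ℕ) (x : 𝓞 F) :
    ∃ c : 𝓞 k, x - algebraMap (𝓞 k) (𝓞 F) c ∈ P ^ K := by
  obtain ⟨C, hC, hCP⟩ := D.exists_compl hp
  induction K generalizing x with
  | zero => exact ⟨0, by simp⟩
  | succ K ih =>
    obtain ⟨c, hc⟩ := ih x
    have h1 : P ^ K = Ideal.span {(p : 𝓞 F) ^ K} ⊔ P ^ (K + 1) := by
      have h2 : C ^ K ⊔ P = ⊤ := by
        have h3 : IsCoprime (C ^ K) P := ((Ideal.isCoprime_iff_sup_eq).2 hCP).pow_left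
        exact (Ideal.isCoprime_iff_sup_eq).1 h3
      rw [← Ideal.span_singleton_pow, hC, mul_pow, pow_succ, ← Ideal.mul_sup, h2, Ideal.mul_top]
    rw [h1, Submodule.mem_sup] at hc
    obtain ⟨y, hy, z, hz, hyz⟩ := hc
    obtain ⟨w, rfl⟩ := Ideal.mem_span_singleton'.1 hy
    obtain ⟨c', hc'⟩ := D.degree w
    refine ⟨c + (p : 𝓞 k) ^ K * c', ?_⟩
    have h4 : x - algebraMap (𝓞 k) (𝓞 F) (c + (p : 𝓞 k) ^ K * c') =
        (p : 𝓞 F) ^ K * (w - algebraMap (𝓞 k) (𝓞 F) c') + z := by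
      rw [map_add, map_mul, map_pow, map_natCast, ← sub_sub, ← hyz]
      ring
    rw [h4]
    refine Ideal.add_mem _ ?_ hz
    rw [pow_succ]
    exact Ideal.mul_mem_mul (Ideal.pow_mem_pow D.mem K) hc'

/-- elements of the base in `P²` are divisible by `p²` -/
theorem sq_dvd (hp : p.Prime) (D : NData p P γ b) (c : 𝓞 k)
    (hc : algebraMap (𝓞 k) (𝓞 F) c ∈ P ^ 2) : (p : 𝓞 k) ^ 2 ∣ c := by
  have hcom := D.comap_eq hp
  have hmem : ∀ d : 𝓞 k, algebraMap (𝓞 k) (𝓞 F) d ∈ P → (p : 𝓞 k) ∣ d := by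
    intro d hd
    rw [← Ideal.mem_span_singleton, ← hcom]
    exact hd
  obtain ⟨c', rfl⟩ := hmem c (Ideal.pow_le_self two_ne_zero hc)
  rw [pow_two]
  refine mul_dvd_mul_left _ (hmem c' ?_)
  obtain ⟨C, hC, hCP⟩ := D.exists_compl hp
  by_contra hn
  have hP0 := D.ne_bot hp
  rw [map_mul, map_natCast] at hc
  have h1 : P ^ 2 ∣ P * (C * Ideal.span {algebraMap (𝓞 k) (𝓞 F) c'}) := by
    rw [← mul_assoc, ← hC, Ideal.span_singleton_mul_span_singleton]
    exact (Ideal.dvd_span_singleton).2 hc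
  rw [pow_two] at h1
  have h2 : P ∣ C * Ideal.span {algebraMap (𝓞 k) (𝓞 F) c'} :=
    (mul_dvd_mul_iff_left (by simpa using hP0)).1 h1
  have hPp : Prime P := Ideal.prime_of_isPrime hP0 D.prime
  rcases hPp.dvd_or_dvd h2 with h3 | h3
  · have h4 : C ≤ P := Ideal.le_of_dvd h3
    rw [sup_eq_right.2 h4] at hCP
    exact D.prime.ne_top hCP
  · exact hn ((Ideal.dvd_span_singleton).1 h3)

/-- the relative norm of `P` -/
theorem relNorm_eq (hp : p.Prime) (D : NData p P γ b) :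
    Ideal.relNorm (𝓞 k) P = Ideal.span {(p : 𝓞 k)} := by
  have h0 : Ideal.span {(p : 𝓞 k)} ≠ ⊥ := by
    rw [Ne, Ideal.span_singleton_eq_bot]
    exact_mod_cast hp.ne_zero
  have hcom := D.comap_eq hp
  have h1 : Ideal.span {(p : 𝓞 k)} ∣ Ideal.relNorm (𝓞 k) P := by
    rw [Ideal.dvd_iff_le, ← hcom]
    exact Ideal.relNorm_le_comap _ P
  have h2 : Ideal.absNorm (Ideal.relNorm (𝓞 k) P) = Ideal.absNorm (Ideal.span {(p : 𝓞 k)}) := by
    rw [Ideal.absNorm_relNorm]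
    let f : 𝓞 k ⧸ Ideal.span {(p : 𝓞 k)} →+* 𝓞 F ⧸ P :=
      Ideal.quotientMap P (algebraMap (𝓞 k) (𝓞 F)) hcom.ge
    have hf : Function.Injective f := Ideal.quotientMap_injective' hcom.le
    have hsurj : Function.Surjective f := by
      intro y
      obtain ⟨x, rfl⟩ := Ideal.Quotient.mk_surjective y
      obtain ⟨c, hc⟩ := D.degree x
      refine ⟨Ideal.Quotient.mk _ c, ?_⟩
      rw [Ideal.quotientMap_mk, eq_comm, Ideal.Quotient.eq]
      exact hc
    rw [Ideal.absNorm_apply, Submodule.cardQuot_apply, Ideal.absNorm_apply,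
      Submodule.cardQuot_apply]
    exact (Nat.card_congr (Equiv.ofBijective f ⟨hf, hsurj⟩)).symm
  obtain ⟨C, hC⟩ := h1
  rw [hC, map_mul] at h2
  have h3 : Ideal.absNorm (Ideal.span {(p : 𝓞 k)}) ≠ 0 := by
    rw [Ne, Ideal.absNorm_eq_zero_iff]
    exact h0
  have h4 : Ideal.absNorm C = 1 := by
    have h5 : Ideal.absNorm (Ideal.span {(p : 𝓞 k)}) * Ideal.absNorm C =
        Ideal.absNorm (Ideal.span {(p : 𝓞 k)}) * 1 := by rw [mul_one]; exact h2
    exact Nat.eq_of_mul_eq_mul_left (Nat.pos_of_ne_zero h3) h5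
  rw [hC, Ideal.absNorm_eq_one_iff.1 h4, Ideal.mul_top]

/-- the data with a generator of a power of `P` -/
theorem toG (hp : p.Prime) (D : NData p P γ b) :
    ∃ (α β : 𝓞 F) (b' : 𝓞 k), GData p α β γ b' := by
  have hP0 := D.ne_bot hp
  obtain ⟨C, hC, hCP⟩ := D.exists_compl hp
  set h := Nat.card (ClassGroup (𝓞 F)) with hh
  have hpos : 0 < h := Nat.card_pos
  have hPn : P ∈ (Ideal (𝓞 F))⁰ := mem_nonZeroDivisors_iff_ne_zero.2 hP0
  obtain ⟨α, hα⟩ : ∃ α : 𝓞 F, P ^ h = Ideal.span {α} := by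
    have h1 : (ClassGroup.mk0 ⟨P, hPn⟩) ^ h = 1 := pow_card_eq_one'
    rw [← map_pow, ClassGroup.mk0_eq_one_iff] at h1
    obtain ⟨x, hx⟩ := h1.principal
    exact ⟨x, hx⟩
  have hα0 : α ≠ 0 := by
    rintro rfl
    rw [Ideal.span_singleton_eq_bot.2 rfl] at hα
    exact (pow_ne_zero h hP0) hα
  have hnorm : Ideal.span {RingOfIntegers.norm k α} = Ideal.span {(p : 𝓞 k) ^ h} := by
    have h1 := congrArg (Ideal.relNorm (𝓞 k)) hα
    rw [map_pow, D.relNorm_eq hp, Ideal.relNorm_singleton, Ideal.span_singleton_pow] at h1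
    rw [h1]
    congr 2
    apply RingOfIntegers.ext
    rw [RingOfIntegers.coe_norm]
    exact (Algebra.algebraMap_intNorm (A := 𝓞 k) (K := k) (L := F) (B := 𝓞 F) α).symm
  obtain ⟨u, hu⟩ : Associated ((p : 𝓞 k) ^ h) (RingOfIntegers.norm k α) :=
    (Ideal.span_singleton_eq_span_singleton.1 hnorm).symm
  obtain ⟨β', hβ'⟩ : α ∣ (p : 𝓞 F) ^ h := by
    rw [← Ideal.mem_span_singleton, ← hα]
    exact Ideal.pow_mem_pow D.mem h
  obtain ⟨b', hb'⟩ := D.surj_pow hp (2 * h) γ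
  have hbb : (p : 𝓞 k) ^ 2 ∣ b' - b := by
    apply D.sq_dvd hp
    have h1 : algebraMap (𝓞 k) (𝓞 F) (b' - b) = (γ - algebraMap (𝓞 k) (𝓞 F) b) -
        (γ - algebraMap (𝓞 k) (𝓞 F) b') := by rw [map_sub]; ring
    rw [h1]
    exact Ideal.sub_mem _ D.cong (Ideal.pow_le_pow_right (by omega) hb')
  have hN2 : (p : ℤ) ^ 2 ∣ Algebra.norm ℤ b' - Algebra.norm ℤ b := by
    apply norm_congr_int
    push_cast
    exact hbb
  refine ⟨α, β' * algebraMap (𝓞 k) (𝓞 F) u, b', ?_, ?_, hα0, ?_, ?_, ?_, D.pun, ?_, ?_⟩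
  · intro x
    obtain ⟨c, hc⟩ := D.surj_pow hp h x
    rw [hα, Ideal.mem_span_singleton] at hc
    exact ⟨c, hc⟩
  · rw [← hu]
    exact (dvd_pow_self _ hpos.ne').mul_right _
  · rw [← hu, map_mul, map_pow, map_natCast, hβ']
    ring
  · -- coprimality
    have h1 : Ideal.span {α} * Ideal.span {β'} = P ^ h * C ^ h := by
      rw [Ideal.span_singleton_mul_span_singleton, ← hβ', ← Ideal.span_singleton_pow, hC, mul_pow]
    rw [← hα] at h1
    have h2 : Ideal.span {β'} = C ^ h := by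
      have h3 : P ^ h ≠ 0 := by
        rw [Ideal.zero_eq_bot]
        exact pow_ne_zero h hP0
      exact mul_left_cancel₀ h3 h1
    have h4 : IsCoprime (P ^ h) (C ^ h) :=
      ((Ideal.isCoprime_iff_sup_eq).2 (by rw [sup_comm]; exact hCP)).pow
    rw [hα, ← h2, Ideal.isCoprime_span_singleton_iff] at h4
    have h5 : IsUnit (algebraMap (𝓞 k) (𝓞 F) (u : 𝓞 k)) := u.isUnit.map _
    exact (isCoprime_mul_unit_right_right h5 _ _).2 h4
  · rw [← Ideal.mem_span_singleton, ← Ideal.span_singleton_pow, ← hα, ← pow_mul, mul_comm h 2]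
    exact hb'
  · intro h1
    apply D.unit
    have h2 := dvd_sub h1 ((dvd_pow_self _ two_ne_zero).trans hN2)
    rwa [sub_sub_cancel] at h2
  · intro h1
    apply D.norm
    have h2 : (p : ℤ) ^ 2 ∣ (Algebra.norm ℤ b') ^ (p - 1) - (Algebra.norm ℤ b) ^ (p - 1) :=
      hN2.trans (sub_dvd_pow_sub_pow _ _ _)
    have h3 := dvd_sub h1 h2
    rwa [sub_sub_sub_cancel_left] at h3

end NData

end Pool.Agent.Work.MuS
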