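import Pool.Agent.Work.MP_a4986b_nt.SpP3

set_option autoImplicit false
set_option maxHeartbeats 400000

/-! # Split primes: pure cubic fields, the family `m = p - x ^ 3` (helper59) -/

namespace Pool.Agent.Work.MuS

open NumberField Module Polynomial IsDedekindDomain
open scoped nonZeroDivisors

/-- one of `a, 2a, 4a` is good -/
theorem good_of_three {p : ℕ} (hp : p.Prime) (hp3 : p % 3 = 2) (hp5 : 5 ≤ p) {a : ℤ}
    (ha : ¬ (p : ℤ) ∣ a) :
    ∃ x : ℤ, (x = a ∨ x = 2 * a ∨ x = 4 * a) ∧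
      ¬ (p : ℤ) ^ 2 ∣ (3 * x ^ 3 - p) ^ (p - 1) - x ^ (p - 1) := by
  by_contra hcon
  push Not at hcon
  have h1 := hcon a (Or.inl rfl)
  have h2 := hcon (2 * a) (Or.inr (Or.inl rfl))
  have h4 := hcon (4 * a) (Or.inr (Or.inr rfl))
  have m1 := (Int.modEq_iff_dvd.2 h1).symm
  have m2 := (Int.modEq_iff_dvd.2 h2).symm
  have m4 := (Int.modEq_iff_dvd.2 h4).symm
  have m14 := m1.mul m4
  have m22 := m2.mul m2
  rw [← mul_pow, ← mul_pow] at m14 m22
  rw [show 2 * a * (2 * a) = a * (4 * a) by ring] at m22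
  have m := m14.trans m22.symm
  obtain ⟨Y, hY⟩ : ∃ Y : ℤ, Y = (3 * (2 * a) ^ 3 - p) * (3 * (2 * a) ^ 3 - p) := ⟨_, rfl⟩
  rw [← hY, show (3 * a ^ 3 - (p : ℤ)) * (3 * (4 * a) ^ 3 - p) = Y + -(147 * a ^ 3 * p) by
    rw [hY]; ring] at m
  obtain ⟨k, hk⟩ := Polynomial.powAddExpansion Y (-(147 * a ^ 3 * p)) (p - 1)
  rw [hk] at m
  obtain ⟨c, hc⟩ := Int.modEq_iff_dvd.1 m
  have hp0 : (p : ℤ) ≠ 0 := by exact_mod_cast hp.ne_zero
  have hpp := Nat.prime_iff_prime_int.1 hp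
  have hn3 : ¬ (p : ℤ) ∣ 3 := by
    intro h
    have : p ∣ 3 := by exact_mod_cast h
    have := Nat.le_of_dvd (by norm_num) this
    omega
  have hn2 : ¬ (p : ℤ) ∣ 2 := by
    intro h
    have : p ∣ 2 := by exact_mod_cast h
    have := Nat.le_of_dvd (by norm_num) this
    omega
  have hn7 : ¬ (p : ℤ) ∣ 7 := by
    intro h
    have h' : p ∣ 7 := by exact_mod_cast h
    rcases (Nat.dvd_prime (by norm_num)).1 h' with h'' | h'' <;> omega
  have hdvd : (p : ℤ) ∣ ((p - 1 : ℕ) : ℤ) * Y ^ (p - 1 - 1) * (147 * a ^ 3) := by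
    refine ⟨c + k * (147 * a ^ 3) ^ 2, ?_⟩
    apply mul_left_cancel₀ hp0
    linear_combination hc
  rcases hpp.dvd_or_dvd hdvd with h5 | h5
  · rcases hpp.dvd_or_dvd h5 with h6 | h6
    · have : p ∣ p - 1 := by exact_mod_cast h6
      have := Nat.le_of_dvd (by omega) this
      omega
    · have h7 := hpp.dvd_of_dvd_pow h6
      rw [hY] at h7
      have h8 : (p : ℤ) ∣ 3 * (2 * a) ^ 3 - p := by
        rcases hpp.dvd_or_dvd h7 with h | h <;> exact h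
      have h9 : (p : ℤ) ∣ 3 * (2 * a) ^ 3 := by
        have := dvd_add h8 (dvd_refl (p : ℤ))
        rwa [sub_add_cancel] at this
      rcases hpp.dvd_or_dvd h9 with h | h
      · exact hn3 h
      · rcases hpp.dvd_or_dvd (hpp.dvd_of_dvd_pow h) with h' | h'
        · exact hn2 h'
        · exact ha h'
  · rcases hpp.dvd_or_dvd h5 with h | h
    · rw [show (147 : ℤ) = 3 * (7 * 7) by norm_num] at h
      rcases hpp.dvd_or_dvd h with h' | h'
      · exact hn3 h'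
      · rcases hpp.dvd_or_dvd h' with h'' | h'' <;> exact hn7 h''
    · exact ha (hpp.dvd_of_dvd_pow h)

/-- the family `m = p - x ^ 3`, `x ∈ {a, 2a, 4a}`, `32 a ^ 3 ≤ p` -/
theorem pure_family {p : ℕ} (hp : p.Prime) (hp3 : p % 3 = 2) {a : ℕ} (ha : 1 ≤ a)
    (hap : 32 * a ^ 3 ≤ p) :
    ∃ x : ℤ, (x = a ∨ x = 2 * a ∨ x = 4 * a) ∧
      ∀ (F : Type) [Field F] [NumberField F], finrank ℚ F = 3 →
        ∀ t : F, t ^ 3 = ((p - x ^ 3 : ℤ) : F) →
        (∃ (α β γ : 𝓞 F) (b0 : 𝓞 ℚ), SData p α β γ b0) ∧ (pv p F).ncard = 2 ∧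
          ¬ p ∣ Nat.card (ClassGroup (𝓞 F)) := by
  have ha3 : a ≤ a ^ 3 := Nat.le_self_pow (by norm_num) a
  have hp5 : 5 ≤ p := by omega
  have hpa : ¬ (p : ℤ) ∣ (a : ℤ) := by
    intro h
    have h' : p ∣ a := by exact_mod_cast h
    have := Nat.le_of_dvd (by omega) h'
    omega
  obtain ⟨x, hx, hgood⟩ := good_of_three hp hp3 hp5 hpa
  refine ⟨x, hx, fun F _ _ h3 t ht => ?_⟩
  have hap' : 32 * (a : ℤ) ^ 3 ≤ p := by exact_mod_cast hap
  have ha0 : (0 : ℤ) ≤ (a : ℤ) ^ 3 := by positivity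
  have hx3 : 0 ≤ x ^ 3 ∧ x ^ 3 ≤ 2 * p := by
    rcases hx with rfl | rfl | rfl
    · constructor <;> linarith
    · rw [mul_pow]; constructor <;> norm_num <;> linarith
    · rw [mul_pow]; constructor <;> norm_num <;> linarith
  refine pure_all hp hp3 hp5 (m := (p : ℤ) - x ^ 3) (x := x) (y := 1) (by ring) hgood ?_ F h3 t ?_
  · left
    omega
  · exact ht

end Pool.Agent.Work.MuS
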