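import Pool.Agent.Work.MP_a4986b_nt.SpJ
import Pool.Agent.Work.MP_a4986b_nt.SpN
import Pool.Agent.Work.MP_a4986b_nt.SpK
import Pool.Agent.Work.MP_a4986b_nt.SpP4

set_option autoImplicit false
set_option maxHeartbeats 400000

/-! # Split primes, part L: pure cubic fields -/

namespace Pool.Agent.Work.MuS

open NumberField Module IsDedekindDomain
open scoped nonZeroDivisors Pointwise

theorem pureSplit {p : ℕ} (hp : p.Prime) (hp3 : p % 3 = 2) (hp2 : p ≠ 2) {F : Type} [Field F]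
    [NumberField F] (hF : Mu22.IsPureCubic F) (hb : LayerBound p 1 F) : PureSplit p F := by
  obtain ⟨h3, x, hx, hx3⟩ := hF
  refine ⟨hb.split hp hp2, ?_⟩
  intro N _ _ hN ⟨f⟩
  exact (pure_closure hp hp2 hp3 h3 x hx hx3 hb N hN f).split hp hp2

/-- at most two primes above `p` -/
theorem pv_le_two_pure {p : ℕ} (hp : p.Prime) (hp3 : p % 3 = 2) {F : Type*} [Field F]
    [NumberField F] (hF : Mu22.IsPureCubic F) : (pv p F).ncard ≤ 2 := by
  obtain ⟨h3, x, hx, hx3⟩ := hF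
  obtain ⟨a, b, t, h⟩ := Mu22.exists_pureCubic h3 x hx hx3
  by_cases hpm : p ∣ a * b ^ 2
  · have h1 : p ∣ a * b := by
      rcases (hp.dvd_mul).1 hpm with h2 | h2
      · exact h2.mul_right b
      · exact (hp.dvd_of_dvd_pow h2).mul_left a
    have hone := h.onePrime hp h1
    have h2 : (pv p F).ncard ≤ 1 := by
      rw [Set.ncard_le_one (pv_finite hp)]
      intro v hv w hw
      exact HeightOneSpectrum.ext (hone _ _ v.isPrime w.isPrime hv hw)
    omega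
  · refine pv_le_two_nat h3 (m := a * b ^ 2) ?_ t h.cube hp hp3 hpm
    intro c hc
    exact Mu22.not_cube_rat h.sqf h.one_lt c hc

/-- the criterion for pure cubic fields of discriminant at most `27 p²` -/
theorem pure_criterion {p : ℕ} (hp : p.Prime) (hp3 : p % 3 = 2) (hp5 : 5 ≤ p) {F : Type}
    [Field F] [NumberField F] (hF : Mu22.IsPureCubic F)
    (hD : |(discr F : ℝ)| ≤ 27 * (p : ℝ) ^ 2) {P : Ideal (𝓞 F)} {γ : 𝓞 F} {b : 𝓞 ℚ}
    (D : NData p P γ b) : PureSplit p F := by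
  obtain ⟨α, β, b', G⟩ := D.toG hp
  refine pureSplit hp hp3 (by omega) hF ?_
  exact layerBound hp (by omega) (by rw [hF.1]; omega) G (pv_le_two_pure hp hp3 hF)
    (Mu22.not_dvd_pure hF hD)

theorem pure_conclusion {p : ℕ} (hp : p.Prime) (hp3 : p % 3 = 2) (hp5 : 5 ≤ p) {F : Type}
    [Field F] [NumberField F] (h3 : finrank ℚ F = 3) {m : ℤ} (hnc : ∀ b : ℚ, b ^ 3 ≠ m) (t : F)
    (ht : t ^ 3 = m)
    (h : (∃ (α β γ : 𝓞 F) (b0 : 𝓞 ℚ), SData p α β γ b0) ∧ (pv p F).ncard = 2 ∧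
      ¬ p ∣ Nat.card (ClassGroup (𝓞 F))) :
    {P : Ideal (𝓞 F) | P.IsPrime ∧ (p : 𝓞 F) ∈ P}.ncard = 2 ∧ PureSplit p F := by
  obtain ⟨⟨α, β, γ, b0, D⟩, h2, hcl⟩ := h
  refine ⟨by rw [ncard_pv p hp]; exact h2, ?_⟩
  refine pureSplit hp hp3 (by omega) (isPureCubic_of h3 hnc t ht) ?_
  exact layerBound hp (by omega) (by rw [h3]; omega) D.toG h2.le hcl

end Pool.Agent.Work.MuS
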