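import Pool.Agent.Work.MP_a4986b_nt.SpL

set_option autoImplicit false
set_option maxHeartbeats 400000

/-! # Split primes, part M: final statements for pure cubic fields and relative extensions -/

namespace Pool.Agent.Work.MuS

open NumberField Module IsDedekindDomain
open scoped nonZeroDivisors Pointwise

theorem split_relative' (k : Type) [Field k] [NumberField k] (d : ℕ) : ∃ c : ℝ, 0 < c ∧
    ∀ (F : Type) [Field F] [NumberField F] [Algebra k F] (ρ p : ℕ), p.Prime → p ≠ 2 →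
      finrank k F = d → finrank ℚ F < p →
      (∀ F' : IntermediateField k F, F' ≠ ⊤ → Units.rank F' ≤ ρ) → ρ ≤ Units.rank F →
      |(discr F : ℝ)| ≤ c * (p : ℝ) ^ 2 *
        (1 + Real.log p) ^ (2 * ((Units.rank F : ℤ) - ρ - d + 1)) →
      {Q : Ideal (𝓞 F) | Q.IsPrime ∧ (p : 𝓞 F) ∈ Q}.ncard ≤ 2 →
      (∃ (P : Ideal (𝓞 F)) (γ : 𝓞 F) (b : 𝓞 k), NData p P γ b) → SplitExtensions p 1 F := by
  obtain ⟨c, hc, h⟩ := MuB.not_dvd_all_of k d (MuB.class_le_all_of k d (MuB.regulator_ge_all k d))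
  refine ⟨c, hc, ?_⟩
  intro F _ _ _ ρ p hp hp2 hF hFp hρ hρr hD h2 ⟨P, γ, b, D⟩
  rw [ncard_pv p hp] at h2
  obtain ⟨α, β, b', G⟩ := D.toG hp
  exact (layerBound hp hp2 hFp G h2 (h F ρ p hp hF hρ hρr hD)).split hp hp2

theorem pure_cubic_fields (p : ℕ) (hp : p.Prime) (hp3 : p % 3 = 2) (hp5 : 5 ≤ p) :
    (∀ (F : Type) [Field F] [NumberField F], finrank ℚ F = 3 →
      (∃ t : F, t ∉ Set.range (algebraMap ℚ F) ∧ t ^ 3 ∈ Set.range (algebraMap ℚ F)) →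
      |discr F| ≤ 27 * (p : ℤ) ^ 2 →
      (∃ (P : Ideal (𝓞 F)) (γ : 𝓞 F) (b : 𝓞 ℚ), NData p P γ b) → PureSplit p F) ∧
    (∃ m : ℕ, (m = p - 1 ∨ m = p + 1) ∧ ∀ (F : Type) [Field F] [NumberField F],
      finrank ℚ F = 3 → (∃ t : F, t ^ 3 = m) →
      {P : Ideal (𝓞 F) | P.IsPrime ∧ (p : 𝓞 F) ∈ P}.ncard = 2 ∧ PureSplit p F) ∧
    (∀ a : ℕ, 1 ≤ a → 32 * a ^ 3 ≤ p → ∃ x : ℤ, (x = a ∨ x = 2 * a ∨ x = 4 * a) ∧
      ∀ (F : Type) [Field F] [NumberField F], finrank ℚ F = 3 →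
      (∃ t : F, t ^ 3 = ((p - x ^ 3 : ℤ) : F)) →
      {P : Ideal (𝓞 F) | P.IsPrime ∧ (p : 𝓞 F) ∈ P}.ncard = 2 ∧ PureSplit p F) := by
  refine ⟨?_, ?_, ?_⟩
  · intro F _ _ h3 ⟨x, hx, hx3⟩ hD ⟨P, γ, b, D⟩
    exact pure_criterion hp hp3 hp5 ⟨h3, x, hx, hx3⟩ (by exact_mod_cast hD) D
  · obtain ⟨m, hm, h⟩ := pure_exists hp hp3 hp5
    refine ⟨m, hm, ?_⟩
    intro F _ _ h3 ⟨t, ht⟩
    have hnc : ∀ b : ℚ, b ^ 3 ≠ ((m : ℤ) : ℚ) := by
      rcases hm with rfl | rfl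
      · refine not_cube_m hp hp3 hp5 (m := ((p - 1 : ℕ) : ℤ)) (x := 1) (y := 1) ?_
        have : 1 ≤ p := by omega
        push_cast [this]
        ring
      · refine not_cube_m hp hp3 hp5 (m := ((p + 1 : ℕ) : ℤ)) (x := -1) (y := 1) ?_
        push_cast
        ring
    exact pure_conclusion hp hp3 hp5 h3 (m := m) hnc t (by exact_mod_cast ht) (h F h3 t ht)
  · intro a ha hap
    obtain ⟨x, hx, h⟩ := pure_family hp hp3 ha hap
    refine ⟨x, hx, ?_⟩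
    intro F _ _ h3 ⟨t, ht⟩
    refine pure_conclusion hp hp3 hp5 h3 (m := (p : ℤ) - x ^ 3) ?_ t ht (h F h3 t ht)
    exact not_cube_m hp hp3 hp5 (x := x) (y := 1) (by ring)

end Pool.Agent.Work.MuS
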