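import Pool.Agent.Work.MP_a4986b_nt.SpD
import Pool.Agent.Work.MP_a4986b_nt.Final3

set_option autoImplicit false
set_option maxHeartbeats 400000

/-! # Split primes: pure cubic fields (helper59) -/

namespace Pool.Agent.Work.MuS

open NumberField Module Polynomial IsDedekindDomain
open scoped nonZeroDivisors

/-- the norm of `x + s`, `s ^ 3 = n` -/
theorem norm_add_cbrt {F : Type*} [Field F] [NumberField F] (h3 : finrank ℚ F = 3) {s : F} {n : ℚ}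
    (hs : s ^ 3 = algebraMap ℚ F n) (hn : ∀ b : ℚ, b ^ 3 ≠ n) (x : ℚ) :
    Algebra.norm ℚ (s + algebraMap ℚ F x) = x ^ 3 + n := by
  have hirr := X_pow_sub_C_irreducible_of_prime Nat.prime_three hn
  have hmin : minpoly ℚ s = X ^ 3 - C n := by
    refine (minpoly.eq_of_irreducible_of_monic hirr ?_
      (Polynomial.monic_X_pow_sub_C _ three_ne_zero)).symm
    simp [hs]
  have hint : IsIntegral ℚ s := Algebra.IsIntegral.isIntegral s
  have hmin2 : minpoly ℚ (s + algebraMap ℚ F x) = (X ^ 3 - C n).comp (X - C x) := by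
    rw [minpoly.add_algebraMap, hmin]
  have hdeg : (minpoly ℚ (s + algebraMap ℚ F x)).natDegree = 3 := by
    rw [hmin2, natDegree_comp, natDegree_X_pow_sub_C, natDegree_X_sub_C]
  have hint2 : IsIntegral ℚ (s + algebraMap ℚ F x) := Algebra.IsIntegral.isIntegral _
  have htop : IntermediateField.adjoin ℚ {s + algebraMap ℚ F x} = ⊤ := by
    rw [Field.primitive_element_iff_minpoly_natDegree_eq, hdeg, h3]
  have htop2 : Algebra.adjoin ℚ {s + algebraMap ℚ F x} = ⊤ := by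
    rw [← IntermediateField.adjoin_simple_toSubalgebra_of_isAlgebraic hint2.isAlgebraic, htop]
    rfl
  have h1 := Algebra.PowerBasis.norm_gen_eq_coeff_zero_minpoly
    (PowerBasis.ofAdjoinEqTop' hint2 htop2)
  rw [PowerBasis.ofAdjoinEqTop'_gen, PowerBasis.ofAdjoinEqTop'_dim, hdeg, hmin2,
    coeff_zero_eq_eval_zero, eval_comp] at h1
  rw [h1]
  simp
  ring

theorem rat_int_of_cube {b : ℚ} {z : ℤ} (h : b ^ 3 = z) : ∃ w : ℤ, b = w := by
  have h1 : IsIntegral ℤ b := by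
    refine IsIntegral.of_pow (n := 3) (by norm_num) ?_
    rw [h]
    exact isIntegral_algebraMap (R := ℤ) (A := ℚ) (x := z)
  obtain ⟨w, hw⟩ := IsIntegrallyClosed.isIntegral_iff.1 h1
  exact ⟨w, by rw [← hw]; rfl⟩

/-- a prime `≡ 2 mod 3`, `≥ 5`, is not a sum of two cubes -/
theorem not_sum_cubes {p : ℕ} (hp : p.Prime) (hp3 : p % 3 = 2) (hp5 : 5 ≤ p) (x w : ℤ) :
    x ^ 3 + w ^ 3 ≠ p := by
  intro h
  have hf : (x + w) * (x ^ 2 - x * w + w ^ 2) = p := by rw [← h]; ring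
  have hv : 0 ≤ x ^ 2 - x * w + w ^ 2 := by nlinarith [sq_nonneg (x - w), sq_nonneg (x + w)]
  have hp0 : (0 : ℤ) < p := by exact_mod_cast hp.pos
  have hv0 : 0 < x ^ 2 - x * w + w ^ 2 := by
    rcases hv.eq_or_lt with h0 | h0
    · rw [← h0, mul_zero] at hf; omega
    · exact h0
  have hpp : Prime (p : ℤ) := Nat.prime_iff_prime_int.1 hp
  have hdvd : x ^ 2 - x * w + w ^ 2 ∣ (p : ℤ) := ⟨x + w, by rw [← hf]; ring⟩
  obtain ⟨v, hvn⟩ := Int.eq_ofNat_of_zero_le hv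
  rw [hvn] at hdvd hf hv0
  have hdvd' : v ∣ p := by exact_mod_cast hdvd
  rcases (Nat.dvd_prime hp).1 hdvd' with h1 | h1
  · -- v = 1
    rw [h1] at hvn hf
    push_cast at hvn hf
    have hx : x ≤ 1 := by nlinarith [sq_nonneg (2 * w - x)]
    have hw : w ≤ 1 := by nlinarith [sq_nonneg (2 * x - w)]
    have : (5 : ℤ) ≤ p := by exact_mod_cast hp5
    linarith
  · rw [h1] at hvn hf
    have h2 : x + w = 1 := by
      have h3 : (x + w - 1) * p = 0 := by linear_combination hf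
      rcases mul_eq_zero.1 h3 with h4 | h4
      · linarith
      · omega
    have h5 : (p : ℤ) = 1 - 3 * (x * w) := by
      rw [← hvn]
      have : w = 1 - x := by linarith
      rw [this]; ring
    omega

/-- `m y ^ 3` is not a cube -/
theorem not_cube_my {p : ℕ} (hp : p.Prime) (hp3 : p % 3 = 2) (hp5 : 5 ≤ p) {m x y : ℤ}
    (hxy : x ^ 3 + m * y ^ 3 = p) (b : ℚ) : b ^ 3 ≠ ((m * y ^ 3 : ℤ) : ℚ) := by
  intro h
  obtain ⟨w, rfl⟩ := rat_int_of_cube h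
  have h1 : w ^ 3 = m * y ^ 3 := by exact_mod_cast h
  exact not_sum_cubes hp hp3 hp5 x w (by rw [h1, hxy])

theorem not_cube_m {p : ℕ} (hp : p.Prime) (hp3 : p % 3 = 2) (hp5 : 5 ≤ p) {m x y : ℤ}
    (hxy : x ^ 3 + m * y ^ 3 = p) (b : ℚ) : b ^ 3 ≠ (m : ℚ) := by
  intro h
  apply not_cube_my hp hp3 hp5 hxy (b * y)
  push_cast
  rw [mul_pow, h]

theorem prime_Q {p : ℕ} (hp : p.Prime) : Prime (p : 𝓞 ℚ) := by
  have h1 : Prime (Rat.ringOfIntegersEquiv (p : 𝓞 ℚ)) := by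
    rw [map_natCast]
    exact Nat.prime_iff_prime_int.1 hp
  exact (MulEquiv.prime_iff (Rat.ringOfIntegersEquiv : 𝓞 ℚ ≃+* ℤ)).1 h1

theorem norm_int_Q (n : ℤ) : Algebra.norm ℤ ((n : ℤ) : 𝓞 ℚ) = n := by
  have h1 := Algebra.norm_algebraMap (R := ℤ) (S := 𝓞 ℚ) n
  rw [RingOfIntegers.rank, finrank_self, pow_one, eq_intCast] at h1
  exact h1

theorem not_dvd_x {p : ℕ} (hp5 : 5 ≤ p) {x : ℤ}
    (hbad : ¬ (p : ℤ) ^ 2 ∣ (3 * x ^ 3 - p) ^ (p - 1) - x ^ (p - 1)) : ¬ (p : ℤ) ∣ x := by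
  intro h
  apply hbad
  have h1 : (p : ℤ) ∣ 3 * x ^ 3 - p :=
    dvd_sub (Dvd.dvd.mul_left (dvd_pow h (by norm_num)) 3) dvd_rfl
  have h2 : (p : ℤ) ^ 2 ∣ (p : ℤ) ^ (p - 1) := pow_dvd_pow _ (by omega)
  exact dvd_sub (h2.trans (pow_dvd_pow_of_dvd h1 _)) (h2.trans (pow_dvd_pow_of_dvd h _))

/-- the split datum of a pure cubic field with an element `x + y t` of norm `p` -/
theorem sData_pure {F : Type*} [Field F] [NumberField F] (h3 : finrank ℚ F = 3) {m : ℤ} (t : 𝓞 F)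
    (ht : t ^ 3 = (m : 𝓞 F)) {p : ℕ} (hp : p.Prime) (hp3 : p % 3 = 2) (hp5 : 5 ≤ p) {x y : ℤ}
    (hxy : x ^ 3 + m * y ^ 3 = p)
    (hbad : ¬ (p : ℤ) ^ 2 ∣ (3 * x ^ 3 - p) ^ (p - 1) - x ^ (p - 1)) :
    ∃ (α β γ : 𝓞 F) (b0 : 𝓞 ℚ), SData p α β γ b0 := by
  have hpx := not_dvd_x hp5 hbad
  have hpp : Prime (p : ℤ) := Nat.prime_iff_prime_int.1 hp
  have hcop1 : IsCoprime x (p : ℤ) := ((hpp.irreducible.coprime_iff_not_dvd).2 hpx).symm
  obtain ⟨x', k, hk⟩ := hcop1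
  set α : 𝓞 F := (x : 𝓞 F) + (y : 𝓞 F) * t with hα
  set β : 𝓞 F := (x : 𝓞 F) ^ 2 - (x : 𝓞 F) * (y : 𝓞 F) * t + (y : 𝓞 F) ^ 2 * t ^ 2 with hβ
  have hxyF : (x : 𝓞 F) ^ 3 + (m : 𝓞 F) * (y : 𝓞 F) ^ 3 = (p : 𝓞 F) := by
    exact_mod_cast congrArg (Int.cast : ℤ → 𝓞 F) hxy
  have hαβ : α * β = (p : 𝓞 F) := by
    rw [hα, hβ, ← hxyF, ← ht]; ring
  have hβ2 : β = 3 * (x : 𝓞 F) ^ 2 - 3 * (x : 𝓞 F) * α + α ^ 2 := by
    rw [hα, hβ]; ring
  have hkF : (x' : 𝓞 F) * (x : 𝓞 F) + (k : 𝓞 F) * (p : 𝓞 F) = 1 := by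
    exact_mod_cast congrArg (Int.cast : ℤ → 𝓞 F) hk
  have hp0 : (p : 𝓞 F) ≠ 0 := by exact_mod_cast hp.ne_zero
  have hα0 : α ≠ 0 := by
    rintro h
    rw [h, zero_mul] at hαβ
    exact hp0 hαβ.symm
  -- the norm
  have hnorm : RingOfIntegers.norm ℚ α = (p : 𝓞 ℚ) := by
    apply RingOfIntegers.ext
    rw [RingOfIntegers.coe_norm]
    have e1 : ((α : 𝓞 F) : F) = (y : F) * ((t : 𝓞 F) : F) + algebraMap ℚ F (x : ℚ) := by
      have : ((α : 𝓞 F) : F) = (x : F) + (y : F) * ((t : 𝓞 F) : F) := by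
        rw [hα]
        push_cast
        rfl
      rw [this]
      simp
      ring
    rw [e1, norm_add_cbrt h3 (n := ((m * y ^ 3 : ℤ) : ℚ)) ?_ (not_cube_my hp hp3 hp5 hxy)]
    · have : ((x : ℚ) ^ 3 + ((m * y ^ 3 : ℤ) : ℚ)) = (p : ℚ) := by exact_mod_cast hxy
      rw [this]
      simp
    · rw [mul_pow, ← map_pow, ht]
      simp
      ring
  refine ⟨α, β, β, ((3 * x ^ 2 - p * x' : ℤ) : 𝓞 ℚ), prime_Q hp, ?_, hα0, ?_, ?_, ?_, ?_, ?_, ?_⟩
  · rw [hnorm]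
  · rw [hnorm, map_natCast, mul_comm, hαβ]
  · -- coprime
    have h3x : IsCoprime (3 * x ^ 2 : ℤ) (p : ℤ) := by
      have h3p : IsCoprime (3 : ℤ) (p : ℤ) := by
        have : Nat.Coprime 3 p := by
          rw [Nat.coprime_primes Nat.prime_three hp]; omega
        exact_mod_cast Nat.isCoprime_iff_coprime.2 this
      exact h3p.mul_left (IsCoprime.pow_left ⟨x', k, hk⟩)
    obtain ⟨r, s, hrs⟩ := h3x
    have hrsF : (r : 𝓞 F) * (3 * (x : 𝓞 F) ^ 2) + (s : 𝓞 F) * (p : 𝓞 F) = 1 := by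
      exact_mod_cast congrArg (Int.cast : ℤ → 𝓞 F) hrs
    refine ⟨-(r : 𝓞 F) * (α - 3 * x) + s * β, r, ?_⟩
    linear_combination hrsF + (r : 𝓞 F) * hβ2 + (s : 𝓞 F) * hαβ
  · refine ⟨1 - 3 * x * k * β + x' * (α - 3 * x), ?_⟩
    rw [map_intCast]
    push_cast
    linear_combination hβ2 + (3 * (x : 𝓞 F) * α) * hkF - (x' : 𝓞 F) * hαβ
      + (x' : 𝓞 F) * α * hβ2 + (3 * (x : 𝓞 F) * k * α) * hαβ
  · exact ⟨1, α, by rw [pow_one, mul_comm, hαβ]⟩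
  · rw [norm_int_Q]
    intro h
    have h1 : (p : ℤ) ∣ 3 * x ^ 2 := by
      have := dvd_add h (Dvd.intro x' rfl : (p : ℤ) ∣ p * x')
      rwa [sub_add_cancel] at this
    rcases hpp.dvd_or_dvd h1 with h2 | h2
    · have : p ∣ 3 := by exact_mod_cast h2
      have := Nat.le_of_dvd (by norm_num) this
      omega
    · exact hpx (hpp.dvd_of_dvd_pow h2)
  · rw [norm_int_Q]
    intro h
    apply hbad
    have h1 : (p : ℤ) ^ 2 ∣ x ^ (p - 1) * (3 * x ^ 2 - p * x') ^ (p - 1) - x ^ (p - 1) := by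
      have := Dvd.dvd.mul_left h (x ^ (p - 1))
      rwa [mul_sub, mul_one] at this
    have h2 : (p : ℤ) ^ 2 ∣ (3 * x ^ 3 - p) ^ (p - 1)
        - (x * (3 * x ^ 2 - p * x')) ^ (p - 1) := by
      refine Dvd.dvd.trans ?_ (sub_dvd_pow_sub_pow _ _ _)
      exact ⟨-k, by linear_combination (p : ℤ) * hk⟩
    rw [mul_pow] at h2
    have := dvd_add h2 h1
    rwa [sub_add_sub_cancel] at this

end Pool.Agent.Work.MuS
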