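import Pool.Agent.Work.MP_a4986b_nt.SpP

set_option autoImplicit false
set_option maxHeartbeats 400000

/-! # Split primes: pure cubic fields, number of primes above `p` and class number (helper59) -/

namespace Pool.Agent.Work.MuS

open NumberField Module Polynomial IsDedekindDomain
open scoped nonZeroDivisors Real

section primes

variable {F : Type*} [Field F] [NumberField F]

theorem pv_le_pS {p : ℕ} (hp : p.Prime) : (pv p F).ncard ≤ (Mu22.pS F p).card := by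
  have h1 : (pv p F).ncard ≤ (↑(Mu22.pS F p) : Set (Ideal (𝓞 F))).ncard := by
    apply Set.ncard_le_ncard_of_injOn (fun v : HeightOneSpectrum (𝓞 F) => v.asIdeal)
    · intro v hv
      exact (Mu22.mem_pS hp _).2 ⟨v.isPrime, hv⟩
    · intro v _ w _ hvw
      exact HeightOneSpectrum.ext hvw
  rwa [Set.ncard_coe_finset] at h1

/-- at most two primes above `p` in a pure cubic field, `p ≡ 2 mod 3` -/
theorem pv_le_two_nat (h3 : finrank ℚ F = 3) {m : ℕ} (hnc : ∀ b : ℚ, b ^ 3 ≠ m) (t : 𝓞 F)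
    (ht : t ^ 3 = m) {p : ℕ} (hp : p.Prime) (hp3 : p % 3 = 2) (hpm : ¬ p ∣ m) :
    (pv p F).ncard ≤ 2 := by
  classical
  refine (pv_le_pS hp).trans ?_
  have hc := Mu22.card_le_three (K := F) h3 hp
  have h1 := Mu22.sum_ef (K := F) h3 hp
  by_contra hlt
  have h : (Mu22.pS F p).card = 3 := by omega
  obtain ⟨P, Q, R, hPQ, hPR, hQR, hS⟩ := Finset.card_eq_three.1 h
  have hP : P ∈ Mu22.pS F p := by rw [hS]; simp
  have hQ : Q ∈ Mu22.pS F p := by rw [hS]; simp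
  have hR : R ∈ Mu22.pS F p := by rw [hS]; simp
  have a1 := Mu22.ff_pos h3 hp hP
  have a2 := Mu22.ff_pos h3 hp hQ
  have a3 := Mu22.ff_pos h3 hp hR
  have b1 : Mu22.ff p P ≤ Mu22.cc (Ideal.span {(p : 𝓞 F)}) P * Mu22.ff p P :=
    Nat.le_mul_of_pos_left _ (Mu22.cc_pos hP)
  have b2 : Mu22.ff p Q ≤ Mu22.cc (Ideal.span {(p : 𝓞 F)}) Q * Mu22.ff p Q :=
    Nat.le_mul_of_pos_left _ (Mu22.cc_pos hQ)
  have b3 : Mu22.ff p R ≤ Mu22.cc (Ideal.span {(p : 𝓞 F)}) R * Mu22.ff p R :=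
    Nat.le_mul_of_pos_left _ (Mu22.cc_pos hR)
  rw [hS, Finset.sum_insert (by simp [hPQ, hPR]), Finset.sum_pair hQR] at h1
  exact Mu22.not_two_degree_one' h3 hnc t ht hp hp3 hpm hP hQ hPQ (by omega) (by omega)

theorem pv_le_two (h3 : finrank ℚ F = 3) {m : ℤ} (hnc : ∀ b : ℚ, b ^ 3 ≠ m) (t : 𝓞 F)
    (ht : t ^ 3 = (m : 𝓞 F)) {p : ℕ} (hp : p.Prime) (hp3 : p % 3 = 2) (hpm : ¬ (p : ℤ) ∣ m) :
    (pv p F).ncard ≤ 2 := by
  rcases le_total 0 m with h0 | h0
  · obtain ⟨n, rfl⟩ := Int.eq_ofNat_of_zero_le h0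
    exact pv_le_two_nat h3 (by exact_mod_cast hnc) t (by exact_mod_cast ht) hp hp3
      (by exact_mod_cast hpm)
  · obtain ⟨n, hn⟩ := Int.eq_ofNat_of_zero_le (show 0 ≤ -m by omega)
    have hm : m = -(n : ℤ) := by omega
    subst hm
    refine pv_le_two_nat h3 (m := n) ?_ (-t) ?_ hp hp3 ?_
    · intro b hb
      apply hnc (-b)
      push_cast
      rw [← hb]
      ring
    · have : (-t) ^ 3 = -(t ^ 3) := by ring
      rw [this, ht]
      push_cast
      ring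
    · intro h
      apply hpm
      rw [dvd_neg]
      exact_mod_cast h

/-- `α` and `β` are not units: at least two primes above `p` -/
theorem SData.two_le {k : Type*} [Field k] [NumberField k] [Algebra k F] {p : ℕ} (hp : p.Prime)
    {α β γ : 𝓞 F} {b0 : 𝓞 k} (D : SData p α β γ b0) (hkF : 2 ≤ finrank k F) :
    2 ≤ (pv p F).ncard := by
  have hnp : Prime (RingOfIntegers.norm k α) := D.nrm.symm.prime D.prime
  have hα : ¬ IsUnit α := fun h => hnp.not_isUnit (h.map (RingOfIntegers.norm k))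
  have hβ : ¬ IsUnit β := by
    intro h
    have h1 := congrArg (RingOfIntegers.norm k) D.mul
    rw [map_mul] at h1
    have h2 : RingOfIntegers.norm k (algebraMap (𝓞 k) (𝓞 F) (RingOfIntegers.norm k α))
        = (RingOfIntegers.norm k α) ^ finrank k F := by
      apply RingOfIntegers.ext
      rw [RingOfIntegers.coe_norm]
      have : ((algebraMap (𝓞 k) (𝓞 F) (RingOfIntegers.norm k α) : 𝓞 F) : F)
          = algebraMap k F (RingOfIntegers.norm k α) := rfl
      rw [this, Algebra.norm_algebraMap]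
      exact (map_pow (algebraMap (𝓞 k) k) _ _).symm
    rw [h2] at h1
    obtain ⟨n, hn⟩ : ∃ n, finrank k F = n + 2 := ⟨finrank k F - 2, by omega⟩
    rw [hn, pow_succ, mul_left_inj' hnp.ne_zero] at h1
    have h3 : IsUnit (RingOfIntegers.norm k α ^ (n + 1)) := h1 ▸ h.map (RingOfIntegers.norm k)
    exact hnp.not_isUnit ((isUnit_pow_iff (Nat.succ_ne_zero n)).1 h3)
  have hp0 : (p : 𝓞 F) ≠ 0 := by exact_mod_cast hp.ne_zero
  -- `p` lies in every prime containing `α` or `β`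
  have hdvd : β * α ∣ (p : 𝓞 F) := by
    rw [D.mul]
    obtain ⟨c, hc⟩ := D.nrm.dvd
    exact ⟨algebraMap (𝓞 k) (𝓞 F) c, by rw [← map_mul, ← hc, map_natCast]⟩
  obtain ⟨M1, hM1, hα1⟩ := exists_max_ideal_of_mem_nonunits hα
  obtain ⟨M2, hM2, hβ2⟩ := exists_max_ideal_of_mem_nonunits hβ
  have hpM1 : (p : 𝓞 F) ∈ M1 :=
    M1.mem_of_dvd ((dvd_mul_left α β).trans hdvd) hα1
  have hpM2 : (p : 𝓞 F) ∈ M2 :=
    M2.mem_of_dvd ((dvd_mul_right β α).trans hdvd) hβ2
  have hM10 : M1 ≠ ⊥ := by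
    rintro rfl
    exact hp0 (by simpa using hpM1)
  have hM20 : M2 ≠ ⊥ := by
    rintro rfl
    exact hp0 (by simpa using hpM2)
  have hne : M1 ≠ M2 := by
    rintro rfl
    obtain ⟨a, b, hab⟩ := D.cop
    apply hM1.ne_top
    rw [Ideal.eq_top_iff_one, ← hab]
    exact M1.add_mem (M1.mul_mem_left _ hα1) (M1.mul_mem_left _ hβ2)
  let v1 : HeightOneSpectrum (𝓞 F) := ⟨M1, hM1.isPrime, hM10⟩
  let v2 : HeightOneSpectrum (𝓞 F) := ⟨M2, hM2.isPrime, hM20⟩
  have hv : v1 ≠ v2 := fun h => hne (congrArg HeightOneSpectrum.asIdeal h)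
  rw [← Set.ncard_pair hv]
  apply Set.ncard_le_ncard _ (pv_finite hp)
  intro v hv'
  rcases hv' with rfl | rfl
  · exact hpM1
  · exact hpM2

/-- exactly two primes above `p` -/
theorem pv_eq_two (h3 : finrank ℚ F = 3) {m : ℤ} (t : 𝓞 F) (ht : t ^ 3 = (m : 𝓞 F)) {p : ℕ}
    (hp : p.Prime) (hp3 : p % 3 = 2) (hp5 : 5 ≤ p) {x y : ℤ} (hxy : x ^ 3 + m * y ^ 3 = p)
    (hbad : ¬ (p : ℤ) ^ 2 ∣ (3 * x ^ 3 - p) ^ (p - 1) - x ^ (p - 1)) :
    (pv p F).ncard = 2 := by
  obtain ⟨α, β, γ, b0, D⟩ := sData_pure h3 t ht hp hp3 hp5 hxy hbad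
  apply le_antisymm _ (D.two_le hp (by rw [h3]; norm_num))
  refine pv_le_two h3 (not_cube_m hp hp3 hp5 hxy) t ht hp hp3 ?_
  intro h
  have h1 : (p : ℤ) ∣ x ^ 3 := by
    have e : x ^ 3 = p - m * y ^ 3 := by linarith
    rw [e]
    exact dvd_sub dvd_rfl (Dvd.dvd.mul_right h _)
  exact not_dvd_x hp5 hbad ((Nat.prime_iff_prime_int.1 hp).dvd_of_dvd_pow h1)

end primes

/-! ### class numbers -/

/-- the cubefree radicand of a given cube root of a natural number -/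
theorem pure_decomp {F : Type*} [Field F] [NumberField F] (h3 : finrank ℚ F = 3) {m : ℕ}
    (hnc : ∀ b : ℚ, b ^ 3 ≠ m) (t : F) (ht : t ^ 3 = m) :
    ∃ (a b c : ℕ) (t' : 𝓞 F), Mu22.PureCubic F a b t' ∧ m = c ^ 3 * (a * b ^ 2) ∧ c ≠ 0 := by
  have hm : m ≠ 0 := by
    rintro rfl
    exact hnc 0 (by norm_num)
  obtain ⟨a, b, c, hc, hdec, hsq⟩ := Mu22.cubefree_decomp m hm
  have hcF : (c : F) ≠ 0 := by exact_mod_cast hc
  have hz3 : (t / c) ^ 3 = ((a * b ^ 2 : ℕ) : F) := by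
    rw [div_pow, ht, hdec]
    push_cast
    field_simp
  have hzi : IsIntegral ℤ (t / c) := by
    refine IsIntegral.of_pow (n := 3) (by norm_num) ?_
    rw [hz3]
    exact isIntegral_natCast _
  refine ⟨a, b, c, ⟨t / c, hzi⟩, ⟨h3, hsq, ?_, ?_⟩, hdec, hc⟩
  · have hab0 : a * b ≠ 0 := hsq.ne_zero
    by_contra hle
    have hab : a * b = 1 := by omega
    obtain ⟨ha, hb⟩ := mul_eq_one.mp hab
    subst ha; subst hb
    apply hnc c
    rw [hdec]
    push_cast
    ring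
  · apply RingOfIntegers.ext
    simpa using hz3

theorem isPureCubic_of {F : Type*} [Field F] [NumberField F] (h3 : finrank ℚ F = 3) {m : ℤ}
    (hnc : ∀ b : ℚ, b ^ 3 ≠ m) (t : F) (ht : t ^ 3 = m) : Mu22.IsPureCubic F := by
  refine ⟨h3, t, ?_, ⟨m, by rw [ht]; simp⟩⟩
  rintro ⟨b, hb⟩
  apply hnc b
  have : (algebraMap ℚ F) (b ^ 3) = (algebraMap ℚ F) m := by
    rw [map_pow]
    rw [show (algebraMap ℚ F) b = t from hb, ht]
    simp
  exact (algebraMap ℚ F).injective this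

/-- `K = 6` with the factor `19/20` -/
theorem numeric_sharp {x : ℝ} (hx : 20 ≤ x) :
    2 * (6 * √27 * x / (4 * π) * (Mu22.LL * Real.log (6 * √27 * x / (4 * π)) + 0.064) +
      Real.log (6 * √27 * x / (4 * π)) / 12 + 0.388) <
    19 / 20 * (5 * x * (Real.log ((27 * x ^ 2 - 24) / 4) / 3)) := by
  have hx0 : 0 < x := by linarith
  have hY := Mu22.Y_mul_LL 6 x
  have hY1 := Mu22.Y_le (K := 6) (by norm_num) hx0.le
  have hY0 := Mu22.Y_pos (K := 6) (by norm_num) hx0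
  obtain ⟨Y, hYd⟩ : ∃ Y, Y = 6 * √27 * x / (4 * π) := ⟨_, rfl⟩
  rw [← hYd] at hY hY1 hY0 ⊢
  have hlY : Real.log Y ≤ Real.log 2.481 + Real.log x := by
    rw [← Real.log_mul (by norm_num) hx0.ne']
    exact Real.log_le_log hY0 (by linarith)
  have hD := Mu22.log_disc (show (2 : ℝ) ≤ x by linarith)
  have hE : 0.39 ≤ 5 / 3 * Real.log 6.75 - 3 * Real.log 2.481 := by
    have h1 : Real.log (6.75 ^ 5 / 2.481 ^ 9) = 5 * Real.log 6.75 - 9 * Real.log 2.481 := by
      rw [Real.log_div (by norm_num) (by norm_num), Real.log_pow, Real.log_pow]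
      norm_num
    have h2 : Real.log (6.75 ^ 5 / 2.481 ^ 9) =
        Real.log 2 + Real.log (6.75 ^ 5 / 2.481 ^ 9 / 2) := by
      rw [Real.log_div (by norm_num) (by norm_num : (2 : ℝ) ≠ 0)]
      ring
    have h3 := Real.one_sub_inv_le_log_of_pos
      (show (0 : ℝ) < 6.75 ^ 5 / 2.481 ^ 9 / 2 by norm_num)
    have h4 := Real.log_two_gt_d9
    norm_num at h1 h2 h3 ⊢
    linarith
  have hE2 : Real.log 2.481 ≤ 1.481 := by
    have := Real.log_le_sub_one_of_pos (show (0 : ℝ) < 2.481 by norm_num)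
    linarith
  have hE3 : Real.log 6.75 ≤ 2.38 := by
    have h1 : Real.log 6.75 = 2 * Real.log 2 + Real.log (6.75 / 4) := by
      rw [Real.log_div (by norm_num) (by norm_num),
        show Real.log 4 = 2 * Real.log 2 by
          rw [show (4 : ℝ) = 2 ^ 2 by norm_num, Real.log_pow]; norm_num]
      ring
    have h2 := Real.log_le_sub_one_of_pos (show (0 : ℝ) < 6.75 / 4 by norm_num)
    have h4 := Real.log_two_lt_d9
    norm_num at h1 h2 ⊢
    linarith
  have hl : 2.7 ≤ Real.log x := by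
    have h1 : Real.log (2 ^ 4) ≤ Real.log x := Real.log_le_log (by norm_num) (by linarith)
    rw [Real.log_pow] at h1
    have h4 := Real.log_two_gt_d9
    push_cast at h1
    linarith
  have h8 : 8 / (9 * x ^ 2 - 8) * x ≤ 0.1 := by
    rw [div_mul_eq_mul_div, div_le_iff₀ (by nlinarith)]
    nlinarith
  have e1 : 2 * (Y * (Mu22.LL * Real.log Y + 0.064) + Real.log Y / 12 + 0.388) =
      (3 * x + 1 / 6) * Real.log Y + 0.128 * Y + 0.776 := by
    have : Y * (Mu22.LL * Real.log Y + 0.064) = (Y * Mu22.LL) * Real.log Y + 0.064 * Y := by ring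
    rw [this, hY]
    ring
  have e2 : (3 * x + 1 / 6) * Real.log Y ≤
      (3 * x + 1 / 6) * (Real.log 2.481 + Real.log x) :=
    mul_le_mul_of_nonneg_left hlY (by positivity)
  have e3 : 5 * x * ((Real.log 6.75 + 2 * Real.log x - 8 / (9 * x ^ 2 - 8)) / 3) ≤
      5 * x * (Real.log ((27 * x ^ 2 - 24) / 4) / 3) := by
    have := mul_le_mul_of_nonneg_left hD hx0.le
    linarith
  have e4 : 5 * x * ((Real.log 6.75 + 2 * Real.log x - 8 / (9 * x ^ 2 - 8)) / 3) =
      5 / 3 * Real.log 6.75 * x + 10 / 3 * (x * Real.log x) - 5 / 3 * (8 / (9 * x ^ 2 - 8) * x) := by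
    ring
  have e5 := mul_le_mul_of_nonneg_right hE hx0.le
  have e6 : 0 ≤ (Real.log x - 2.7) * (x / 6 - 1 / 6) := mul_nonneg (by linarith) (by linarith)
  have e7 := mul_le_mul_of_nonneg_right hE3 hx0.le
  rw [e1]
  rw [e4] at e3
  nlinarith [e2, e3, e5, h8, hY1, hE2, e6, e7]

/-- the class number bound with the factor `19/20` for large discriminants -/
theorem classNumber_sharp {K : Type*} [Field K] [NumberField K] {a b : ℕ} {t : 𝓞 K}
    (h : Mu22.PureCubic K a b t) (h400 : 20 ≤ √(|(discr K : ℝ)| / 27)) :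
    (Nat.card (ClassGroup (𝓞 K)) : ℝ) < 19 / 20 * √(|(discr K : ℝ)| / 27) := by
  obtain ⟨⟨φ, -⟩, ψ, hψ⟩ := h.exists_embeddings
  have H1 := h.discr_bounds.1
  set D : ℝ := |(discr K : ℝ)| with hDdef
  have hD0 : 0 < D := by linarith
  set x : ℝ := √(D / 27) with hxdef
  have hx2 : x ^ 2 = D / 27 := Real.sq_sqrt (by positivity)
  have hx0 : 0 < x := by linarith
  have hsqD : √D = √27 * x := by
    rw [hxdef, ← Real.sqrt_mul (by norm_num)]
    congr 1
    field_simp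
  have h27 : (5.19 : ℝ) ≤ √27 := by
    rw [Real.le_sqrt (by norm_num) (by norm_num)]
    norm_num
  have hR : 0 < Real.log ((D - 24) / 4) / 3 := by
    have : 0 < Real.log ((D - 24) / 4) := Real.log_pos (by linarith)
    positivity
  have hunit := Mu22.artin_log h.three φ ψ hψ H1
  have hh0 : (0 : ℝ) ≤ Nat.card (ClassGroup (𝓞 K)) := Nat.cast_nonneg _
  have hA : ∀ Y : ℝ, 1 ≤ Y → ENNReal.ofReal ((Nat.card (ClassGroup (𝓞 K)) : ℝ) *
      (Real.log ((D - 24) / 4) / 3) * (4 * π * Y / √D - 1)) ≤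
      2 * ENNReal.ofReal (Y * (Mu22.LL * Real.log Y + 0.064) + Real.log Y / 12 + 0.388) := by
    intro Y hY
    have hY0 : 0 < Y := by linarith
    refine (Mu22.unfold_ineq h.three φ ψ hψ _ hR hunit Y hY0).trans ?_
    gcongr
    refine (Mu22.tsum_ideals_le Mu22.bb (fun n hn => h.card_norm_le_bb hn)
      (fun m => Mu22.kk (m / Y))).trans ?_
    exact (Mu22.tsum_bb_kk hY0).le.trans (Mu22.lintegral_HH_JJ_le hY)
  have hxD : (27 * x ^ 2 - 24) / 4 = (D - 24) / 4 := by rw [hx2]; ring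
  have hpi4 : π ≤ 3.15 := Real.pi_lt_d2.le
  have hpi0 : 0 < π := Real.pi_pos
  have hYge : 1 ≤ 6 * √27 * x / (4 * π) := by
    rw [le_div_iff₀ (by positivity)]
    have h1 : 6 * 5.19 * 20 ≤ 6 * √27 * x := by
      apply mul_le_mul _ h400 (by norm_num) (by positivity)
      linarith
    linarith
  have hcore := Mu22.classNumber_core ((Nat.card (ClassGroup (𝓞 K)) : ℝ) / (19 / 20))
    (19 / 20 * (Real.log ((D - 24) / 4) / 3)) D x 6 (by positivity) hx0 (by norm_num) hsqD hYge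
    (by
      intro Y hY
      have e : (Nat.card (ClassGroup (𝓞 K)) : ℝ) / (19 / 20) *
          (19 / 20 * (Real.log ((D - 24) / 4) / 3)) = (Nat.card (ClassGroup (𝓞 K)) : ℝ) *
          (Real.log ((D - 24) / 4) / 3) := by
        field_simp
      rw [e]
      exact hA Y hY)
    (by
      have := numeric_sharp h400
      rw [hxD] at this
      refine this.trans_le (le_of_eq ?_)
      ring)
  rw [div_lt_iff₀ (by norm_num)] at hcore
  linarith

/-- `p ∤ h(F)` if `|D| ≤ 27 p ^ 2` -/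
theorem not_dvd_of_le {F : Type*} [Field F] [NumberField F] {a b : ℕ} {t : 𝓞 F}
    (h : Mu22.PureCubic F a b t) {p : ℕ} (hab : a * b ≤ p) :
    ¬ p ∣ Nat.card (ClassGroup (𝓞 F)) := by
  intro hdvd
  have h1 := h.classNumber
  have h2 : p ≤ Nat.card (ClassGroup (𝓞 F)) := Nat.le_of_dvd Nat.card_pos hdvd
  have h3 : (p : ℝ) ≤ Nat.card (ClassGroup (𝓞 F)) := by exact_mod_cast h2
  have h4 : (p : ℝ) ^ 2 ≤ (Nat.card (ClassGroup (𝓞 F)) : ℝ) ^ 2 := by gcongr
  have h5 := h.discr_bounds.2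
  have h6 : ((a * b : ℕ) : ℝ) ≤ p := by exact_mod_cast hab
  have h7 : ((a * b : ℕ) : ℝ) ^ 2 ≤ (p : ℝ) ^ 2 := by gcongr
  linarith

/-- `p ∤ h(F)` if `|D| ≤ 27 (p + 1) ^ 2`, `p ≥ 20` -/
theorem not_dvd_of_le_succ {F : Type*} [Field F] [NumberField F] {a b : ℕ} {t : 𝓞 F}
    (h : Mu22.PureCubic F a b t) {p : ℕ} (hp : 20 ≤ p) (hab : a * b ≤ p + 1) :
    ¬ p ∣ Nat.card (ClassGroup (𝓞 F)) := by
  intro hdvd
  have h2 : p ≤ Nat.card (ClassGroup (𝓞 F)) := Nat.le_of_dvd Nat.card_pos hdvd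
  have h3 : (p : ℝ) ≤ Nat.card (ClassGroup (𝓞 F)) := by exact_mod_cast h2
  have hp' : (20 : ℝ) ≤ p := by exact_mod_cast hp
  have h5 := h.discr_bounds.2
  have h6 : ((a * b : ℕ) : ℝ) ≤ p + 1 := by exact_mod_cast hab
  have h7 : ((a * b : ℕ) : ℝ) ^ 2 ≤ (p + 1 : ℝ) ^ 2 := by gcongr
  have h8 : √(|(discr F : ℝ)| / 27) ≤ p + 1 := by
    rw [Real.sqrt_le_left (by positivity)]
    linarith
  by_cases h400 : 20 ≤ √(|(discr F : ℝ)| / 27)
  · have := classNumber_sharp h h400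
    linarith
  · push Not at h400
    have h1 := h.classNumber
    have h9 : (Nat.card (ClassGroup (𝓞 F)) : ℝ) < √(|(discr F : ℝ)| / 27) := by
      rw [Real.lt_sqrt (by positivity)]
      linarith
    linarith

end Pool.Agent.Work.MuS
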