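import Pool.Agent.Work.MP_a4986b_nt.SpP2

set_option autoImplicit false
set_option maxHeartbeats 400000

/-! # Split primes: pure cubic fields, the family `m = p ± 1` (helper59) -/

namespace Pool.Agent.Work.MuS

open NumberField Module Polynomial IsDedekindDomain
open scoped nonZeroDivisors Real

/-- class number prime to `p` for `|m| ≤ p` -/
theorem not_dvd_nat {F : Type*} [Field F] [NumberField F] (h3 : finrank ℚ F = 3) {m : ℕ}
    (hnc : ∀ b : ℚ, b ^ 3 ≠ m) (t : F) (ht : t ^ 3 = m) {p : ℕ}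
    (h : m ≤ p ∨ (20 ≤ p ∧ m ≤ p + 1) ∨ (m ≤ 2 * p ∧ ¬ Squarefree m)) :
    ¬ p ∣ Nat.card (ClassGroup (𝓞 F)) := by
  obtain ⟨a, b, c, t', hP, hm, hc⟩ := pure_decomp h3 hnc t ht
  have hab0 : a * b ≠ 0 := hP.sqf.ne_zero
  have ha : 1 ≤ a := Nat.one_le_iff_ne_zero.2 (left_ne_zero_of_mul hab0)
  have hb : 1 ≤ b := Nat.one_le_iff_ne_zero.2 (right_ne_zero_of_mul hab0)
  have hc1 : 1 ≤ c ^ 3 := Nat.one_le_iff_ne_zero.2 (pow_ne_zero _ hc)
  have hle : a * b ≤ m := by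
    rw [hm]
    calc a * b ≤ a * b ^ 2 := Nat.mul_le_mul_left _ (Nat.le_self_pow two_ne_zero b)
      _ ≤ c ^ 3 * (a * b ^ 2) := Nat.le_mul_of_pos_left _ (by omega)
  rcases h with h | ⟨h, h'⟩ | ⟨h, h'⟩
  · exact not_dvd_of_le hP (hle.trans h)
  · exact not_dvd_of_le_succ hP h (hle.trans h')
  · have h2 : 2 * (a * b) ≤ m := by
      by_cases hb1 : b = 1
      · by_cases hcc : c = 1
        · exfalso
          apply h'
          rw [hm, hcc, hb1]
          have := hP.sqf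
          rw [hb1] at this
          simpa using this
        · have h2c : 2 ≤ c := by omega
          have h8 : 8 ≤ c ^ 3 := by
            calc 8 = 2 ^ 3 := by norm_num
              _ ≤ c ^ 3 := Nat.pow_le_pow_left h2c 3
          rw [hm, hb1]
          nlinarith
      · have h2b : 2 ≤ b := by omega
        rw [hm]
        calc 2 * (a * b) ≤ b * (a * b) := Nat.mul_le_mul_right _ h2b
          _ = a * b ^ 2 := by ring
          _ ≤ c ^ 3 * (a * b ^ 2) := Nat.le_mul_of_pos_left _ (by omega)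
    exact not_dvd_of_le hP (by omega)

/-- the same for integers `m` with `|m| ≤ p` -/
theorem not_dvd_int {F : Type*} [Field F] [NumberField F] (h3 : finrank ℚ F = 3) {m : ℤ}
    (hnc : ∀ b : ℚ, b ^ 3 ≠ m) (t : F) (ht : t ^ 3 = m) {p : ℕ}
    (h : m.natAbs ≤ p ∨ (20 ≤ p ∧ m.natAbs ≤ p + 1) ∨
      (m.natAbs ≤ 2 * p ∧ ¬ Squarefree m.natAbs)) :
    ¬ p ∣ Nat.card (ClassGroup (𝓞 F)) := by
  rcases le_total 0 m with h0 | h0
  · obtain ⟨n, rfl⟩ := Int.eq_ofNat_of_zero_le h0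
    exact not_dvd_nat h3 (by exact_mod_cast hnc) t (by exact_mod_cast ht) (by simpa using h)
  · obtain ⟨n, hn⟩ := Int.eq_ofNat_of_zero_le (show 0 ≤ -m by omega)
    have hm : m = -(n : ℤ) := by omega
    subst hm
    refine not_dvd_nat h3 (m := n) ?_ (-t) ?_ (by simpa using h)
    · intro b hb
      apply hnc (-b)
      push_cast
      rw [← hb]
      ring
    · have : (-t) ^ 3 = -(t ^ 3) := by ring
      rw [this, ht]
      push_cast
      ring

/-- not both `p ± 1` are bad -/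
theorem not_both_bad {p : ℕ} (hp : p.Prime) (hp5 : 5 ≤ p)
    (h1 : (p : ℤ) ^ 2 ∣ (3 - p) ^ (p - 1) - 1) (h2 : (p : ℤ) ^ 2 ∣ (3 + p) ^ (p - 1) - 1) :
    False := by
  obtain ⟨k1, e1⟩ := Polynomial.powAddExpansion (3 : ℤ) (p : ℤ) (p - 1)
  obtain ⟨k2, e2⟩ := Polynomial.powAddExpansion (3 : ℤ) (-(p : ℤ)) (p - 1)
  rw [← sub_eq_add_neg] at e2
  have h3 := dvd_sub h2 h1
  obtain ⟨c, hc⟩ := h3
  have hp0 : (p : ℤ) ≠ 0 := by exact_mod_cast hp.ne_zero
  have h4 : (p : ℤ) ∣ 2 * ((p - 1 : ℕ) : ℤ) * 3 ^ (p - 1 - 1) := by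
    refine ⟨c - k1 + k2, ?_⟩
    apply mul_left_cancel₀ hp0
    linear_combination hc - e1 + e2
  have hpp := Nat.prime_iff_prime_int.1 hp
  rcases hpp.dvd_or_dvd h4 with h5 | h5
  · rcases hpp.dvd_or_dvd h5 with h6 | h6
    · have : p ∣ 2 := by exact_mod_cast h6
      have := Nat.le_of_dvd (by norm_num) this
      omega
    · have : p ∣ p - 1 := by exact_mod_cast h6
      have := Nat.le_of_dvd (by omega) this
      omega
  · have h6 := hpp.dvd_of_dvd_pow h5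
    have : p ∣ 3 := by exact_mod_cast h6
    have := Nat.le_of_dvd (by norm_num) this
    omega

/-- the pure cubic fields of radicand `m`, `x ^ 3 + m y ^ 3 = p`, `|m|` small: split datum, two
primes above `p`, class number prime to `p` -/
theorem pure_all {p : ℕ} (hp : p.Prime) (hp3 : p % 3 = 2) (hp5 : 5 ≤ p) {m x y : ℤ}
    (hxy : x ^ 3 + m * y ^ 3 = p)
    (hbad : ¬ (p : ℤ) ^ 2 ∣ (3 * x ^ 3 - p) ^ (p - 1) - x ^ (p - 1))
    (h : m.natAbs ≤ p ∨ (20 ≤ p ∧ m.natAbs ≤ p + 1) ∨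
      (m.natAbs ≤ 2 * p ∧ ¬ Squarefree m.natAbs))
    (F : Type*) [Field F] [NumberField F] (h3 : finrank ℚ F = 3) (t : F) (ht : t ^ 3 = m) :
    (∃ (α β γ : 𝓞 F) (b0 : 𝓞 ℚ), SData p α β γ b0) ∧ (pv p F).ncard = 2 ∧
      ¬ p ∣ Nat.card (ClassGroup (𝓞 F)) := by
  have hint : IsIntegral ℤ t := by
    refine IsIntegral.of_pow (n := 3) (by norm_num) ?_
    rw [ht]
    exact isIntegral_algebraMap (R := ℤ) (A := F) (x := m)
  have ht' : (⟨t, hint⟩ : 𝓞 F) ^ 3 = (m : 𝓞 F) := by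
    apply RingOfIntegers.ext
    have e1 : (((⟨t, hint⟩ : 𝓞 F) ^ 3 : 𝓞 F) : F) = t ^ 3 :=
      map_pow (algebraMap (𝓞 F) F) ⟨t, hint⟩ 3
    rw [e1, ht]
    exact (map_intCast (algebraMap (𝓞 F) F) m).symm
  exact ⟨sData_pure h3 _ ht' hp hp3 hp5 hxy hbad, pv_eq_two h3 _ ht' hp hp3 hp5 hxy hbad,
    not_dvd_int h3 (not_cube_m hp hp3 hp5 hxy) t ht h⟩

/-- for every prime `p ≡ 2 mod 3`, `p ≥ 5`, one of the radicands `p - 1`, `p + 1` works -/
theorem pure_exists {p : ℕ} (hp : p.Prime) (hp3 : p % 3 = 2) (hp5 : 5 ≤ p) :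
    ∃ m : ℕ, (m = p - 1 ∨ m = p + 1) ∧
      ∀ (F : Type) [Field F] [NumberField F], finrank ℚ F = 3 → ∀ t : F, t ^ 3 = m →
        (∃ (α β γ : 𝓞 F) (b0 : 𝓞 ℚ), SData p α β γ b0) ∧ (pv p F).ncard = 2 ∧
          ¬ p ∣ Nat.card (ClassGroup (𝓞 F)) := by
  have hpodd : Odd p := hp.odd_of_ne_two (by omega)
  have heven : Even (p - 1) := by
    obtain ⟨k, hk⟩ := hpodd
    exact ⟨k, by omega⟩
  by_cases h1 : (p : ℤ) ^ 2 ∣ (3 - p) ^ (p - 1) - 1
  · have hp5' : p ≠ 5 := by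
      rintro rfl
      revert h1
      decide
    have h2 : ¬ (p : ℤ) ^ 2 ∣ (3 + p) ^ (p - 1) - 1 := fun h2 => not_both_bad hp hp5 h1 h2
    refine ⟨p + 1, Or.inr rfl, fun F _ _ h3 t ht => ?_⟩
    refine pure_all hp hp3 hp5 (m := ((p + 1 : ℕ) : ℤ)) (x := -1) (y := 1) ?_ ?_ ?_ F h3 t ?_
    · push_cast; ring
    · rw [show (3 * (-1) ^ 3 - (p : ℤ)) = -(3 + p) by ring, heven.neg_pow, heven.neg_one_pow]
      exact h2
    · rw [Int.natAbs_natCast]
      by_cases h20 : 20 ≤ p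
      · exact Or.inr (Or.inl ⟨h20, le_rfl⟩)
      · right; right
        refine ⟨by omega, ?_⟩
        have hp' : p = 11 ∨ p = 17 := by
          have h8 : p ≠ 8 := by rintro rfl; norm_num at hp
          have h14 : p ≠ 14 := by rintro rfl; norm_num at hp
          omega
        rcases hp' with rfl | rfl
        · intro hs
          have := hs 2 (by norm_num)
          norm_num [Nat.isUnit_iff] at this
        · intro hs
          have := hs 3 (by norm_num)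
          norm_num [Nat.isUnit_iff] at this
    · exact_mod_cast ht
  · refine ⟨p - 1, Or.inl rfl, fun F _ _ h3 t ht => ?_⟩
    refine pure_all hp hp3 hp5 (m := ((p - 1 : ℕ) : ℤ)) (x := 1) (y := 1) ?_ ?_ ?_ F h3 t ?_
    · have : 1 ≤ p := by omega
      push_cast [this]; ring
    · rw [one_pow, one_pow, mul_one]
      exact h1
    · rw [Int.natAbs_natCast]
      left; omega
    · exact_mod_cast ht

end Pool.Agent.Work.MuS
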