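import Pool.Agent.Work.MP_a4986b_nt.SpN
import Pool.Agent.Work.MP_a4986b_nt.SpP

set_option autoImplicit false
set_option maxHeartbeats 400000

/-! # Split primes: cubic fields `θ (θ - c) ^ 2 = p` (helper59) -/

namespace Pool.Agent.Work.MuS

open NumberField Module Polynomial IsDedekindDomain
open scoped nonZeroDivisors

/-- one of `x²`, `x (x + 1)`, `(x + 1)²` is good -/
theorem exists_good_c {p : ℕ} (hp : p.Prime) {x : ℤ} (hx : 1 ≤ x) (hxp : 3 * x ^ 2 + 3 * x + 1 < p) :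
    ∃ c : ℤ, (c = x ^ 2 ∨ c = x * (x + 1) ∨ c = (x + 1) ^ 2) ∧ ¬ (p : ℤ) ∣ c ∧
      ¬ (p : ℤ) ^ 2 ∣ c ^ (p - 1) * (c ^ 3 + p) - c ^ 3 := by
  have hpp : Prime (p : ℤ) := Nat.prime_iff_prime_int.1 hp
  have hx1 : ¬ (p : ℤ) ∣ x := fun h => by
    have := Int.le_of_dvd (by linarith) h
    nlinarith
  have hx2 : ¬ (p : ℤ) ∣ x + 1 := fun h => by
    have := Int.le_of_dvd (by linarith) h
    nlinarith
  have h1 : ¬ (p : ℤ) ∣ x ^ 2 := fun h => hx1 (hpp.dvd_of_dvd_pow h)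
  have h3 : ¬ (p : ℤ) ∣ (x + 1) ^ 2 := fun h => hx2 (hpp.dvd_of_dvd_pow h)
  have h2 : ¬ (p : ℤ) ∣ x * (x + 1) := fun h => (hpp.dvd_or_dvd h).elim hx1 hx2
  by_contra hcon
  push Not at hcon
  have b1 := hcon (x ^ 2) (Or.inl rfl) h1
  have b2 := hcon (x * (x + 1)) (Or.inr (Or.inl rfl)) h2
  have b3 := hcon ((x + 1) ^ 2) (Or.inr (Or.inr rfl)) h3
  obtain ⟨u1, e1⟩ := b1
  obtain ⟨u2, e2⟩ := b2
  obtain ⟨u3, e3⟩ := b3
  -- `C = x² (x + 1)²`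
  have hA : (x ^ 2) ^ (p - 1) * ((x + 1) ^ 2) ^ (p - 1) =
      (x * (x + 1)) ^ (p - 1) * (x * (x + 1)) ^ (p - 1) := by
    rw [← mul_pow, show x ^ 2 * (x + 1) ^ 2 = x * (x + 1) * (x * (x + 1)) by ring, mul_pow]
  obtain ⟨A, hAd⟩ : ∃ A, A = (x ^ 2) ^ (p - 1) := ⟨_, rfl⟩
  obtain ⟨B, hBd⟩ : ∃ B, B = (x * (x + 1)) ^ (p - 1) := ⟨_, rfl⟩
  obtain ⟨D, hDd⟩ : ∃ D, D = ((x + 1) ^ 2) ^ (p - 1) := ⟨_, rfl⟩
  have hB : ¬ (p : ℤ) ∣ B := by
    rw [hBd]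
    exact fun h => h2 (hpp.dvd_of_dvd_pow h)
  rw [← hAd] at e1 hA
  rw [← hBd] at e2 hA
  rw [← hDd] at e3 hA
  -- the difference
  have key : (p : ℤ) ^ 2 ∣ B ^ 2 * (((x ^ 2) ^ 3 + p) * (((x + 1) ^ 2) ^ 3 + p) -
      ((x * (x + 1)) ^ 3 + p) ^ 2) := by
    refine ⟨u1 * (D * (((x + 1) ^ 2) ^ 3 + p)) + (x ^ 2) ^ 3 * u3
      - u2 * (B * ((x * (x + 1)) ^ 3 + p)) - (x * (x + 1)) ^ 3 * u2, ?_⟩
    linear_combination (D * (((x + 1) ^ 2) ^ 3 + p)) * e1 + (x ^ 2) ^ 3 * e3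
      - (B * ((x * (x + 1)) ^ 3 + p)) * e2 - (x * (x + 1)) ^ 3 * e2
      - ((x ^ 2) ^ 3 + p) * (((x + 1) ^ 2) ^ 3 + p) * hA
  have key2 : (p : ℤ) * p ∣ p * (B ^ 2 * (3 * x ^ 2 + 3 * x + 1) ^ 2) := by
    obtain ⟨w, hw⟩ := key
    exact ⟨w, by linear_combination hw⟩
  have hp0 : (p : ℤ) ≠ 0 := hpp.ne_zero
  have key3 := (mul_dvd_mul_iff_left hp0).1 key2
  rcases hpp.dvd_or_dvd key3 with h | h
  · exact hB (hpp.dvd_of_dvd_pow h)
  · have := Int.le_of_dvd (by nlinarith) (hpp.dvd_of_dvd_pow h)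
    linarith


/-- the congruence of a good `c` -/
theorem good_pow {p : ℕ} (hp : p.Prime) (hp2 : p ≠ 2) {c c' k : ℤ} (hc : ¬ (p : ℤ) ∣ c)
    (hgood : ¬ (p : ℤ) ^ 2 ∣ c ^ (p - 1) * (c ^ 3 + p) - c ^ 3) (hk : c ^ 2 * c' + k * p = 1) :
    ¬ (p : ℤ) ^ 2 ∣ (p * c' - c) ^ (p - 1) - 1 := by
  have hpp : Prime (p : ℤ) := Nat.prime_iff_prime_int.1 hp
  intro h
  apply hgood
  have hpodd : Odd p := hp.odd_of_ne_two hp2
  obtain ⟨r, hr⟩ : ∃ r : ℕ, p - 1 = 2 * (r + 1) := by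
    obtain ⟨j, hj⟩ := hpodd
    have := hp.two_le
    exact ⟨j - 1, by omega⟩
  have hpr : (p : ℤ) = 2 * r + 3 := by
    have := hp.two_le
    have : p = 2 * r + 3 := by omega
    exact_mod_cast this
  -- `(c² b)^(p-1)`
  have h1 : (p : ℤ) ^ 2 ∣ (c ^ 2 * (p * c' - c)) ^ (p - 1) - (c ^ 2) ^ (p - 1) := by
    rw [mul_pow]
    have := Dvd.dvd.mul_left h ((c ^ 2) ^ (p - 1))
    rwa [mul_sub, mul_one] at this
  have h2 : (p : ℤ) ^ 2 ∣ (p - c ^ 3) ^ (p - 1) - (c ^ 2 * (p * c' - c)) ^ (p - 1) := by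
    refine Dvd.dvd.trans ?_ (sub_dvd_pow_sub_pow _ _ _)
    exact ⟨k, by linear_combination (-(p : ℤ)) * hk⟩
  obtain ⟨z, hz⟩ := powAddExpansion (c ^ 3) (-(p : ℤ)) (p - 1)
  have h3 : ((p : ℤ) - c ^ 3) ^ (p - 1) = (c ^ 3 + -(p : ℤ)) ^ (p - 1) := by
    rw [hr, pow_mul, pow_mul]
    congr 1
    ring
  have hcast : (((p - 1 : ℕ)) : ℤ) = 2 * (r + 1) := by
    rw [hr]; push_cast; ring
  rw [h3, hz, hcast] at h2
  have hr1 : p - 1 - 1 = 2 * r + 1 := by omega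
  rw [hr1] at h2
  obtain ⟨u, hu⟩ := dvd_add h2 h1
  obtain ⟨G, hG⟩ : ∃ G, G = (c ^ 3) ^ (2 * r + 1) := ⟨_, rfl⟩
  obtain ⟨E, hE⟩ : ∃ E, E = c ^ (p - 1) := ⟨_, rfl⟩
  have hE3 : (c ^ 3) ^ (p - 1) = E ^ 3 := by rw [hE, ← pow_mul, ← pow_mul, mul_comm]
  have hE2 : (c ^ 2) ^ (p - 1) = E ^ 2 := by rw [hE, ← pow_mul, ← pow_mul, mul_comm]
  have hGE : G * c ^ 3 = E ^ 3 := by
    rw [← hE3, hG, hr, show 2 * (r + 1) = 2 * r + 1 + 1 by ring, pow_succ (c ^ 3) (2 * r + 1)]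
  rw [hE3, hE2, ← hG] at hu
  rw [← hE]
  have hEp : ¬ (p : ℤ) ∣ E := by
    rw [hE]
    exact fun h => hc (hpp.dvd_of_dvd_pow h)
  have key : (p : ℤ) ^ 2 ∣ E ^ 2 * (E * (c ^ 3 + p) - c ^ 3) := by
    refine ⟨c ^ 3 * (u + G - z), ?_⟩
    linear_combination c ^ 3 * hu + (-(p : ℤ)) * hGE - c ^ 3 * (p : ℤ) * G * hpr
  have hcop : IsCoprime ((p : ℤ) ^ 2) (E ^ 2) :=
    ((hpp.irreducible.coprime_iff_not_dvd).2 hEp).pow
  exact hcop.dvd_of_dvd_mul_left key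

/-- the norm of a root of a cubic polynomial -/
theorem norm_root {F : Type*} [Field F] [NumberField F] (h3 : finrank ℚ F = 3) {s : F}
    (hs : s ∉ (algebraMap ℚ F).range) (a b c : ℚ)
    (h : s ^ 3 + algebraMap ℚ F a * s ^ 2 + algebraMap ℚ F b * s + algebraMap ℚ F c = 0) :
    Algebra.norm ℚ s = -c := by
  have hint : IsIntegral ℚ s := Algebra.IsIntegral.isIntegral s
  have hdeg : (minpoly ℚ s).natDegree = 3 := by
    have h1 : (minpoly ℚ s).natDegree ∣ 3 := by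
      rw [← h3]
      exact minpoly.degree_dvd hint
    rcases (Nat.dvd_prime Nat.prime_three).1 h1 with h2 | h2
    · exact absurd (minpoly.natDegree_eq_one_iff.1 h2) hs
    · exact h2
  have hq : (X ^ 3 + C a * X ^ 2 + C b * X + C c : ℚ[X]).Monic := by monicity!
  have hmin : minpoly ℚ s = X ^ 3 + C a * X ^ 2 + C b * X + C c := by
    symm
    apply eq_of_monic_of_dvd_of_natDegree_le (minpoly.monic hint) hq
    · apply minpoly.dvd
      simp only [map_add, map_mul, map_pow, aeval_X, aeval_C]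
      exact h
    · rw [hdeg]
      compute_degree!
  have htop : IntermediateField.adjoin ℚ {s} = ⊤ := by
    rw [Field.primitive_element_iff_minpoly_natDegree_eq, hdeg, h3]
  have htop2 : Algebra.adjoin ℚ {s} = ⊤ := by
    rw [← IntermediateField.adjoin_simple_toSubalgebra_of_isAlgebraic hint.isAlgebraic, htop]
    rfl
  have h1 := Algebra.PowerBasis.norm_gen_eq_coeff_zero_minpoly
    (PowerBasis.ofAdjoinEqTop' hint htop2)
  rw [PowerBasis.ofAdjoinEqTop'_gen, PowerBasis.ofAdjoinEqTop'_dim, hdeg, hmin,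
    coeff_zero_eq_eval_zero] at h1
  rw [h1]
  simp
  ring

/-- `θ` is irrational -/
theorem theta_irr {F : Type*} [Field F] [NumberField F] {p : ℕ} (hp : p.Prime) (hp2 : p ≠ 2)
    {c : ℤ} (hgood : ¬ (p : ℤ) ^ 2 ∣ c ^ (p - 1) * (c ^ 3 + p) - c ^ 3) {θ : 𝓞 F}
    (hθ : θ * (θ - c) ^ 2 = p) : (θ : F) ∉ (algebraMap ℚ F).range := by
  rintro ⟨q, hq⟩
  have hpp : Prime (p : ℤ) := Nat.prime_iff_prime_int.1 hp
  have hqi : IsIntegral ℤ q := by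
    have h1 : IsIntegral ℤ (algebraMap ℚ F q) := by rw [hq]; exact θ.2
    exact (isIntegral_algebraMap_iff (algebraMap ℚ F).injective).1 h1
  obtain ⟨w, rfl⟩ := IsIntegrallyClosed.isIntegral_iff.1 hqi
  have hw : w * (w - c) ^ 2 = p := by
    have h1 : ((θ * (θ - c) ^ 2 : 𝓞 F) : F) = ((p : 𝓞 F) : F) := by rw [hθ]
    have h2 : ((w * (w - c) ^ 2 : ℤ) : F) = ((p : ℤ) : F) := by
      have e1 : ((θ * (θ - c) ^ 2 : 𝓞 F) : F) = (θ : F) * ((θ : F) - (c : F)) ^ 2 := by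
        push_cast
        rfl
      rw [e1, ← hq] at h1
      have e2 : (algebraMap ℚ F) ((algebraMap ℤ ℚ) w) = (w : F) := by simp
      rw [e2] at h1
      push_cast
      rw [h1]
      simp
    exact_mod_cast h2
  have hw0 : 0 < w := by
    by_contra hcon
    push Not at hcon
    have h1 : w * (w - c) ^ 2 ≤ 0 := mul_nonpos_of_nonpos_of_nonneg hcon (sq_nonneg _)
    have h2 : (0 : ℤ) < p := by exact_mod_cast hp.pos
    linarith
  obtain ⟨n, rfl⟩ := Int.eq_ofNat_of_zero_le hw0.le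
  have hdvd : n ∣ p := by
    have : (n : ℤ) ∣ (p : ℤ) := Dvd.intro _ hw
    exact_mod_cast this
  rcases (Nat.dvd_prime hp).1 hdvd with h1 | h1
  · subst h1
    have h2 : IsSquare (p : ℤ) := ⟨1 - c, by rw [← hw]; push_cast; ring⟩
    exact hpp.irreducible.not_isSquare h2
  · subst h1
    have h0 : (n : ℤ) ≠ 0 := hpp.ne_zero
    have h2 : ((n : ℤ) - c) ^ 2 = 1 := by
      have : (n : ℤ) * ((n - c) ^ 2) = n * 1 := by rw [hw, mul_one]
      exact mul_left_cancel₀ h0 this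
    obtain ⟨ε, hε, hε2⟩ : ∃ ε : ℤ, c = ε + n ∧ ε ^ 2 = 1 := ⟨c - n, by ring, by rw [← h2]; ring⟩
    apply hgood
    obtain ⟨r, hr⟩ : ∃ r : ℕ, n - 1 = 2 * (r + 1) := by
      obtain ⟨j, hj⟩ := hp.odd_of_ne_two hp2
      have := hp.two_le
      exact ⟨j - 1, by omega⟩
    have hpr : (n : ℤ) = 2 * r + 3 := by
      have := hp.two_le
      have : n = 2 * r + 3 := by omega
      exact_mod_cast this
    obtain ⟨z, hz⟩ := powAddExpansion ε (n : ℤ) (n - 1)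
    have hr1 : n - 1 - 1 = 2 * r + 1 := by omega
    have hcast : (((n - 1 : ℕ)) : ℤ) = 2 * (r + 1) := by
      rw [hr]; push_cast; ring
    have ev : ε ^ (2 * (r + 1)) = 1 := by rw [pow_mul, hε2, one_pow]
    have od : ε ^ (2 * r + 1) = ε := by rw [pow_succ, pow_mul, hε2, one_pow, one_mul]
    rw [hcast, hr1, hr, ev, od] at hz
    rw [hr, hε, hz]
    refine ⟨-4 * ε - 3 * n - ε * n ^ 2 + (z + ε) * (ε + 4 * n + 3 * ε * n ^ 2 + n ^ 3), ?_⟩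
    linear_combination (-(ε * n * ((ε + n) ^ 3 + n))) * hpr +
      (((n - 1) * ε * n + z * n ^ 2) * (ε + 3 * n) - n - 3 * n ^ 3) * hε2

section cubic

variable {F : Type*} [Field F] [NumberField F] {p : ℕ}

theorem exists_nat_of_absNorm {P : Ideal (𝓞 F)} (hp : p.Prime) (hP : Ideal.absNorm P = p)
    (x : 𝓞 F) : ∃ n : ℕ, x - (n : 𝓞 F) ∈ P := by
  have hcard : Nat.card (𝓞 F ⧸ P) = p := by
    rw [← hP, Ideal.absNorm_apply, Submodule.cardQuot_apply]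
  have hfin : Finite (𝓞 F ⧸ P) := Nat.finite_of_card_ne_zero (by rw [hcard]; exact hp.ne_zero)
  let _ := Fintype.ofFinite (𝓞 F ⧸ P)
  have hne : NeZero p := ⟨hp.ne_zero⟩
  let e := ZMod.ringEquivOfPrime (𝓞 F ⧸ P) hp (by rw [← Nat.card_eq_fintype_card]; exact hcard)
  refine ⟨(e.symm (Ideal.Quotient.mk P x)).val, ?_⟩
  rw [← Ideal.Quotient.eq, map_natCast]
  have h1 : e ((e.symm (Ideal.Quotient.mk P x)).val : ZMod p) = Ideal.Quotient.mk P x := by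
    rw [ZMod.natCast_zmod_val, e.apply_symm_apply]
  rw [map_natCast] at h1
  exact h1.symm

variable {c : ℤ} {θ : 𝓞 F}

theorem norm_theta (h3 : finrank ℚ F = 3) (hp : p.Prime) (hp2 : p ≠ 2)
    (hgood : ¬ (p : ℤ) ^ 2 ∣ c ^ (p - 1) * (c ^ 3 + p) - c ^ 3) (hθ : θ * (θ - c) ^ 2 = p) :
    Algebra.norm ℤ θ = p := by
  have hirr := theta_irr hp hp2 hgood hθ
  have h1 : (θ : F) * ((θ : F) - (c : F)) ^ 2 = (p : F) := by
    have h0 := congrArg (algebraMap (𝓞 F) F) hθ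
    simpa only [map_mul, map_pow, map_sub, map_intCast, map_natCast] using h0
  have h2 := norm_root h3 hirr (-2 * c) (c ^ 2) (-p) (by
    simp only [map_neg, map_mul, map_pow, map_intCast, map_natCast, map_ofNat]
    linear_combination h1)
  have h4 : ((Algebra.norm ℤ θ : ℤ) : ℚ) = ((p : ℤ) : ℚ) := by
    rw [Algebra.coe_norm_int, h2]
    push_cast
    ring
  exact_mod_cast h4

theorem norm_theta_sub (h3 : finrank ℚ F = 3) (hp : p.Prime) (hp2 : p ≠ 2)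
    (hgood : ¬ (p : ℤ) ^ 2 ∣ c ^ (p - 1) * (c ^ 3 + p) - c ^ 3) (hθ : θ * (θ - c) ^ 2 = p) :
    Algebra.norm ℤ (θ - (c : 𝓞 F)) = p := by
  have hirr : ((θ - (c : 𝓞 F) : 𝓞 F) : F) ∉ (algebraMap ℚ F).range := by
    rintro ⟨q, hq⟩
    apply theta_irr hp hp2 hgood hθ
    refine ⟨q + c, ?_⟩
    rw [map_add, hq]
    push_cast
    simp
  have h1 : (θ : F) * ((θ : F) - (c : F)) ^ 2 = (p : F) := by
    have h0 := congrArg (algebraMap (𝓞 F) F) hθ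
    simpa only [map_mul, map_pow, map_sub, map_intCast, map_natCast] using h0
  have h2 := norm_root h3 hirr c 0 (-p) (by
    have e : ((θ - (c : 𝓞 F) : 𝓞 F) : F) = (θ : F) - (c : F) := by
      have h0 := map_sub (algebraMap (𝓞 F) F) θ (c : 𝓞 F)
      rwa [map_intCast] at h0
    rw [e]
    simp only [map_neg, map_intCast, map_natCast, map_zero]
    linear_combination h1)
  have h4 : ((Algebra.norm ℤ (θ - (c : 𝓞 F)) : ℤ) : ℚ) = ((p : ℤ) : ℚ) := by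
    rw [Algebra.coe_norm_int, h2]
    push_cast
    ring
  exact_mod_cast h4

theorem absNorm_span_of_norm (z : 𝓞 F) (h : Algebra.norm ℤ z = p) :
    Ideal.absNorm (Ideal.span {z}) = p := by
  rw [Ideal.absNorm_span_singleton, h, Int.natAbs_natCast]

theorem isPrime_span_of_norm (hp : p.Prime) (z : 𝓞 F) (h : Algebra.norm ℤ z = p) :
    (Ideal.span {z}).IsPrime := by
  apply Ideal.isPrime_of_irreducible_absNorm
  rw [absNorm_span_of_norm z h]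
  exact hp

/-- the natural datum of the field of a root `θ` of `X (X - c) ^ 2 - p`, `c` good -/
theorem nData_theta (h3 : finrank ℚ F = 3) (hp : p.Prime) (hp2 : p ≠ 2) (hc : ¬ (p : ℤ) ∣ c)
    (hgood : ¬ (p : ℤ) ^ 2 ∣ c ^ (p - 1) * (c ^ 3 + p) - c ^ 3) (hθ : θ * (θ - c) ^ 2 = p) :
    ∃ b : 𝓞 ℚ, NData p (Ideal.span {θ}) (θ - (c : 𝓞 F)) b := by
  have hpp : Prime (p : ℤ) := Nat.prime_iff_prime_int.1 hp
  have hN := norm_theta h3 hp hp2 hgood hθ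
  have hprime := isPrime_span_of_norm hp θ hN
  have hcop : IsCoprime (c ^ 2) (p : ℤ) :=
    (((hpp.irreducible.coprime_iff_not_dvd).2 hc).symm).pow_left
  obtain ⟨c', k, hk⟩ := hcop
  have hkF : (c' : 𝓞 F) * (c : 𝓞 F) ^ 2 + (k : 𝓞 F) * (p : 𝓞 F) = 1 := by
    exact_mod_cast congrArg (Int.cast : ℤ → 𝓞 F) hk
  have hmem : (p : 𝓞 F) ∈ Ideal.span {θ} := by
    rw [Ideal.mem_span_singleton, ← hθ]
    exact Dvd.intro _ rfl
  have hθ0 : θ ≠ 0 := by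
    rintro rfl
    rw [zero_mul] at hθ
    exact hp.ne_zero (by exact_mod_cast hθ.symm)
  have hcm : (c : 𝓞 F) ^ 2 ∉ Ideal.span {θ} := by
    intro h
    apply hprime.ne_top
    rw [Ideal.eq_top_iff_one, ← hkF]
    exact Ideal.add_mem _ (Ideal.mul_mem_left _ _ h) (Ideal.mul_mem_left _ _ hmem)
  refine ⟨((p * c' - c : ℤ) : 𝓞 ℚ), ?_, hprime, hmem, ?_, ?_, ?_, ?_, ?_, ?_⟩
  · rw [Ideal.span_singleton_prime (by exact_mod_cast hp.ne_zero)]
    exact prime_Q hp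
  · rw [Ideal.span_singleton_pow, Ideal.mem_span_singleton, ← hθ, pow_two θ]
    intro h
    have h1 : θ ∣ (θ - (c : 𝓞 F)) ^ 2 := (mul_dvd_mul_iff_left hθ0).1 h
    apply hcm
    rw [Ideal.mem_span_singleton]
    have h2 : (c : 𝓞 F) ^ 2 = (θ - (c : 𝓞 F)) ^ 2 + θ * (2 * c - θ) := by ring
    rw [h2]
    exact dvd_add h1 (Dvd.intro _ rfl)
  · intro x
    obtain ⟨n, hn⟩ := exists_nat_of_absNorm hp (absNorm_span_of_norm θ hN) x
    exact ⟨(n : 𝓞 ℚ), by rwa [map_natCast]⟩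
  · refine ⟨1, θ * (θ - (c : 𝓞 F)), ?_⟩
    rw [pow_one, ← hθ]
    ring
  · rw [Ideal.span_singleton_pow, Ideal.mem_span_singleton, map_intCast]
    refine ⟨k * (θ - (c : 𝓞 F)) ^ 2 - c' * (θ - 2 * (c : 𝓞 F)), ?_⟩
    push_cast
    linear_combination (c' - k * θ) * hθ - θ * hkF
  · rw [norm_int_Q]
    intro h
    apply hc
    have h1 := dvd_sub (Dvd.intro c' rfl : (p : ℤ) ∣ p * c') h
    rwa [sub_sub_cancel] at h1
  · rw [norm_int_Q]
    exact good_pow hp hp2 hc hgood (k := k) (by linear_combination hk)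

/-- the two primes above `p` -/
theorem primes_theta (h3 : finrank ℚ F = 3) (hp : p.Prime) (hp2 : p ≠ 2) (hc : ¬ (p : ℤ) ∣ c)
    (hgood : ¬ (p : ℤ) ^ 2 ∣ c ^ (p - 1) * (c ^ 3 + p) - c ^ 3) (hθ : θ * (θ - c) ^ 2 = p) :
    {P : Ideal (𝓞 F) | P.IsPrime ∧ (p : 𝓞 F) ∈ P} =
      {Ideal.span {θ}, Ideal.span {θ - (c : 𝓞 F)}} ∧
    Ideal.span {θ} ≠ Ideal.span {θ - (c : 𝓞 F)} := by
  have hpp : Prime (p : ℤ) := Nat.prime_iff_prime_int.1 hp
  have hN1 := norm_theta h3 hp hp2 hgood hθ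
  have hN2 := norm_theta_sub h3 hp hp2 hgood hθ
  have hP1 := isPrime_span_of_norm hp θ hN1
  have hP2 := isPrime_span_of_norm hp _ hN2
  have hmem1 : (p : 𝓞 F) ∈ Ideal.span {θ} := by
    rw [Ideal.mem_span_singleton, ← hθ]
    exact Dvd.intro _ rfl
  have hmem2 : (p : 𝓞 F) ∈ Ideal.span {θ - (c : 𝓞 F)} := by
    rw [Ideal.mem_span_singleton, ← hθ]
    exact ⟨θ * (θ - (c : 𝓞 F)), by ring⟩
  have hp0 : (p : 𝓞 F) ≠ 0 := by exact_mod_cast hp.ne_zero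
  have hb1 : Ideal.span {θ} ≠ ⊥ := fun h => hp0 (by rw [h] at hmem1; simpa using hmem1)
  have hb2 : Ideal.span {θ - (c : 𝓞 F)} ≠ ⊥ := fun h => hp0 (by rw [h] at hmem2; simpa using hmem2)
  have hm1 := hP1.isMaximal hb1
  have hm2 := hP2.isMaximal hb2
  refine ⟨?_, ?_⟩
  · ext Q
    simp only [Set.mem_ofPred_eq, Set.mem_insert_iff, Set.mem_singleton_iff]
    constructor
    · rintro ⟨hQ, hpQ⟩
      rw [← hθ] at hpQ
      rcases hQ.mem_or_mem hpQ with h | h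
      · left
        exact (hm1.eq_of_le hQ.ne_top ((Ideal.span_singleton_le_iff_mem _).2 h)).symm
      · right
        exact (hm2.eq_of_le hQ.ne_top
          ((Ideal.span_singleton_le_iff_mem _).2 (hQ.mem_of_pow_mem _ h))).symm
    · rintro (rfl | rfl)
      · exact ⟨hP1, hmem1⟩
      · exact ⟨hP2, hmem2⟩
  · intro h
    have hcm : (c : 𝓞 F) ∈ Ideal.span {θ} := by
      have h1 : θ - (c : 𝓞 F) ∈ Ideal.span {θ} := by
        rw [h]
        exact Ideal.mem_span_singleton_self _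
      have h2 := Ideal.sub_mem _ (Ideal.mem_span_singleton_self θ) h1
      rwa [sub_sub_cancel] at h2
    obtain ⟨r, s, hrs⟩ := (hpp.irreducible.coprime_iff_not_dvd).2 hc
    have hrsF : (r : 𝓞 F) * (p : 𝓞 F) + (s : 𝓞 F) * (c : 𝓞 F) = 1 := by
      exact_mod_cast congrArg (Int.cast : ℤ → 𝓞 F) hrs
    apply hP1.ne_top
    rw [Ideal.eq_top_iff_one, ← hrsF]
    exact Ideal.add_mem _ (Ideal.mul_mem_left _ _ hmem1) (Ideal.mul_mem_left _ _ hcm)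

theorem ncard_theta (h3 : finrank ℚ F = 3) (hp : p.Prime) (hp2 : p ≠ 2) (hc : ¬ (p : ℤ) ∣ c)
    (hgood : ¬ (p : ℤ) ^ 2 ∣ c ^ (p - 1) * (c ^ 3 + p) - c ^ 3) (hθ : θ * (θ - c) ^ 2 = p) :
    {P : Ideal (𝓞 F) | P.IsPrime ∧ (p : 𝓞 F) ∈ P}.ncard = 2 := by
  obtain ⟨h1, h2⟩ := primes_theta h3 hp hp2 hc hgood hθ
  rw [h1, Set.ncard_pair h2]

/-- a cubic field with exactly two primes above `p` is not Galois -/
theorem not_isGalois_of_two (h3 : finrank ℚ F = 3) (hp : p.Prime)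
    (h2 : {P : Ideal (𝓞 F) | P.IsPrime ∧ (p : 𝓞 F) ∈ P}.ncard = 2) : ¬ IsGalois ℚ F := by
  intro hG
  have hset : (Ideal.span {(p : ℤ)}).primesOver (𝓞 F) =
      {P : Ideal (𝓞 F) | P.IsPrime ∧ (p : 𝓞 F) ∈ P} := by
    ext P
    constructor
    · rintro ⟨hP, hover⟩
      refine ⟨hP, ?_⟩
      have h1 : (p : ℤ) ∈ P.under ℤ := by
        rw [← hover.over]
        exact Ideal.mem_span_singleton_self _
      rw [Ideal.under_def, Ideal.mem_comap] at h1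
      simpa using h1
    · rintro ⟨hP, hpP⟩
      exact ⟨hP, liesOver_p hp P hP hpP⟩
  have hq : (Ideal.span {(p : ℤ)}).IsPrime := by
    rw [Ideal.span_singleton_prime (by exact_mod_cast hp.ne_zero)]
    exact Nat.prime_iff_prime_int.1 hp
  have h1 := Ideal.ncard_primesOver_mul_ramificationIdxIn_mul_inertiaDegIn (Ideal.span {(p : ℤ)})
    (𝓞 F) Gal(F/ℚ)
  rw [IsGaloisGroup.card_eq_finrank Gal(F/ℚ) ℚ F, hset, h2, h3] at h1
  omega

end cubic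

end Pool.Agent.Work.MuS
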