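import Pool.Agent.Work.MP_a4986b_nt.SpJ
import Pool.Agent.Work.MP_a4986b_nt.SpP
import Pool.Agent.Work.MP_a4986b_nt.BCor
import Pool.Agent.Work.MP_a4986b_nt.CExA
import Pool.Agent.Work.MP_a4986b_nt.CClosure

set_option autoImplicit false
set_option maxHeartbeats 400000

/-! # Split primes, part S: the cubic fields `θ (θ - c)² = p` -/

namespace Pool.Agent.Work.MuS

open NumberField Module
open scoped nonZeroDivisors
open Pool.Agent.Work.MuB

/-- no integer root -/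
theorem sc_no_int {p : ℕ} (hp : p.Prime) {c : ℤ} (hc : 0 ≤ c) (hcp : c + 1 < p) (m : ℤ)
    (h : m * (m - c) ^ 2 = p) : False := by
  have hpi := Nat.prime_iff_prime_int.mp hp
  have h1 : IsUnit (m - c) := by
    rcases hpi.irreducible.isUnit_or_isUnit h.symm with h2 | h2
    · exfalso
      rcases Int.isUnit_iff.mp h2 with rfl | rfl
      · rw [one_mul] at h
        exact hpi.irreducible.not_isSquare ⟨1 - c, by rw [← h]; ring⟩
      · have : 0 ≤ (-1 - c) ^ 2 := sq_nonneg _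
        have hp0 : (0 : ℤ) < p := by exact_mod_cast hp.pos
        linarith
    · exact isUnit_pow_iff two_ne_zero |>.mp h2
  rcases Int.isUnit_iff.mp h1 with h2 | h2
  · rw [h2] at h
    have : m = p := by linarith
    linarith
  · rw [h2] at h
    have : m = p := by linarith
    linarith

/-- no rational root -/
theorem sc_not_rat {F : Type*} [Field F] [NumberField F] {p : ℕ} (hp : p.Prime) {c : ℤ}
    (hc : 0 ≤ c) (hcp : c + 1 < p) (θ : 𝓞 F) (h : θ * (θ - c) ^ 2 = p) :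
    (θ : F) ∉ Set.range (algebraMap ℚ F) := by
  rintro ⟨q, hq⟩
  have hint : IsIntegral ℤ q := by
    have h1 : IsIntegral ℤ (algebraMap ℚ F q) := by rw [hq]; exact RingOfIntegers.isIntegral_coe _
    exact (isIntegral_algebraMap_iff (algebraMap ℚ F).injective).mp h1
  obtain ⟨m, hm⟩ := IsIntegrallyClosed.isIntegral_iff.mp hint
  have hmt : (m : 𝓞 F) = θ := by
    apply RingOfIntegers.ext
    rw [← hq, ← hm]
    simp
  refine sc_no_int hp hc hcp m ?_
  rw [← hmt] at h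
  exact_mod_cast h

theorem sc_transfer (L : Type) [Field L] [inst : Algebra ℚ L] [FiniteDimensional ℚ L] {p : ℕ}
    {c : ℤ} (h3 : finrank ℚ L = 3) (t : L) (ht : t * (t - c) ^ 2 = p) :
    ∃ (F : Type) (_ : Field F) (_ : NumberField F) (θ : 𝓞 F), finrank ℚ F = 3 ∧
      θ * (θ - c) ^ 2 = p := by
  have hc : CharZero L := algebraRat.charZero L
  have hinst : inst = DivisionRing.toRatAlgebra := Subsingleton.elim _ _
  subst hinst
  have hL : NumberField L := { to_charZero := hc, to_finiteDimensional := inferInstance }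
  have hint : IsIntegral ℤ t := by
    refine IsIntegral.of_aeval_monic (p := Polynomial.X ^ 3 - Polynomial.C (2 * c) *
      Polynomial.X ^ 2 + Polynomial.C (c ^ 2) * Polynomial.X) ?_ ?_ ?_
    · monicity!
    · have : (Polynomial.X ^ 3 - Polynomial.C (2 * c) *
        Polynomial.X ^ 2 + Polynomial.C (c ^ 2) * Polynomial.X : Polynomial ℤ).natDegree = 3 := by
        compute_degree!
      rw [this]; norm_num
    · have h2 : Polynomial.aeval t (Polynomial.X ^ 3 - Polynomial.C (2 * c) *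
        Polynomial.X ^ 2 + Polynomial.C (c ^ 2) * Polynomial.X : Polynomial ℤ) =
          algebraMap ℤ L p := by
        rw [map_add, map_sub, map_mul (Polynomial.aeval t) (Polynomial.C (2 * c)),
          map_mul (Polynomial.aeval t) (Polynomial.C (c ^ 2)), map_pow, map_pow,
          Polynomial.aeval_X, Polynomial.aeval_C, Polynomial.aeval_C]
        simp only [algebraMap_int_eq, eq_intCast]
        push_cast
        linear_combination ht
      rw [h2]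
      exact isIntegral_algebraMap
  obtain ⟨θ, hθ⟩ : ∃ θ : 𝓞 L, (θ : L) = t := ⟨⟨t, hint⟩, rfl⟩
  refine ⟨L, inferInstance, hL, θ, h3, ?_⟩
  apply RingOfIntegers.ext
  rw [← hθ] at ht
  change algebraMap (𝓞 L) L (θ * (θ - c) ^ 2) = algebraMap (𝓞 L) L (p : 𝓞 L)
  rw [map_mul, map_pow, map_sub, map_intCast, map_natCast]
  exact ht

theorem sc_eval {K L : Type*} [CommRing K] [CommRing L] (φ : K →+* L) (t : L) (a b e : K) :
    Polynomial.eval₂ φ t (Polynomial.X ^ 3 - Polynomial.C a * Polynomial.X ^ 2 +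
      Polynomial.C b * Polynomial.X - Polynomial.C e) = t ^ 3 - φ a * t ^ 2 + φ b * t - φ e := by
  simp only [Polynomial.eval₂_sub, Polynomial.eval₂_add, Polynomial.eval₂_mul,
    Polynomial.eval₂_pow, Polynomial.eval₂_X, Polynomial.eval₂_C]

/-- existence of the field -/
theorem sc_exists {p : ℕ} (hp : p.Prime) {c : ℤ} (hc : 0 ≤ c) (hcp : c + 1 < p) :
    ∃ (F : Type) (_ : Field F) (_ : NumberField F) (θ : 𝓞 F), finrank ℚ F = 3 ∧
      θ * (θ - c) ^ 2 = p := by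
  classical
  set f : Polynomial ℚ := Polynomial.X ^ 3 - Polynomial.C (2 * (c : ℚ)) * Polynomial.X ^ 2 +
    Polynomial.C ((c : ℚ) ^ 2) * Polynomial.X - Polynomial.C (p : ℚ) with hf
  have hmon : f.Monic := by
    rw [hf]
    monicity!
  have hdeg : f.natDegree = 3 := by
    rw [hf]
    compute_degree!
  have hf0 : f ≠ 0 := hmon.ne_zero
  have hirr : Irreducible f := by
    rw [Polynomial.irreducible_iff_roots_eq_zero_of_degree_le_three (by omega) (by omega),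
      Multiset.eq_zero_iff_forall_notMem]
    intro q hq
    rw [Polynomial.mem_roots hf0, Polynomial.IsRoot.def] at hq
    have h1 : q * (q - c) ^ 2 = p := by
      rw [hf] at hq
      simp only [Polynomial.eval_sub, Polynomial.eval_add, Polynomial.eval_mul,
        Polynomial.eval_pow, Polynomial.eval_X, Polynomial.eval_C] at hq
      linear_combination hq
    have hint : IsIntegral ℤ q := by
      refine IsIntegral.of_aeval_monic (p := Polynomial.X ^ 3 - Polynomial.C (2 * c) *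
        Polynomial.X ^ 2 + Polynomial.C (c ^ 2) * Polynomial.X) ?_ ?_ ?_
      · monicity!
      · have : (Polynomial.X ^ 3 - Polynomial.C (2 * c) *
          Polynomial.X ^ 2 + Polynomial.C (c ^ 2) * Polynomial.X : Polynomial ℤ).natDegree = 3 := by
          compute_degree!
        rw [this]; norm_num
      · have h2 : Polynomial.aeval q (Polynomial.X ^ 3 - Polynomial.C (2 * c) *
          Polynomial.X ^ 2 + Polynomial.C (c ^ 2) * Polynomial.X : Polynomial ℤ) = ((p : ℤ) : ℚ) := by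
          rw [map_add, map_sub, map_mul (Polynomial.aeval q) (Polynomial.C (2 * c)),
            map_mul (Polynomial.aeval q) (Polynomial.C (c ^ 2)), map_pow, map_pow,
            Polynomial.aeval_X, Polynomial.aeval_C, Polynomial.aeval_C]
          simp only [algebraMap_int_eq, eq_intCast]
          push_cast
          linear_combination h1
        rw [h2]
        exact isIntegral_algebraMap
    obtain ⟨m, hm⟩ := IsIntegrallyClosed.isIntegral_iff.mp hint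
    refine sc_no_int hp hc hcp m ?_
    rw [← hm] at h1
    simp only [algebraMap_int_eq, eq_intCast] at h1
    exact_mod_cast h1
  have hfact : Fact (Irreducible f) := ⟨hirr⟩
  let pb := AdjoinRoot.powerBasis hf0
  have hfin : FiniteDimensional ℚ (AdjoinRoot f) := pb.finite
  have hrk : finrank ℚ (AdjoinRoot f) = 3 := by
    rw [pb.finrank, AdjoinRoot.powerBasis_dim, hdeg]
  refine sc_transfer (AdjoinRoot f) hrk (AdjoinRoot.root f) ?_
  have h1 := AdjoinRoot.eval₂_root f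
  have h2 := sc_eval (AdjoinRoot.of f) (AdjoinRoot.root f) (2 * (c : ℚ)) ((c : ℚ) ^ 2) (p : ℚ)
  rw [← hf, h1, map_mul, map_pow, map_ofNat, map_intCast, map_natCast] at h2
  linear_combination -h2

/-- the discriminant of the polynomial -/
theorem sc_discr {F : Type*} [Field F] [NumberField F] (hF : finrank ℚ F = 3) {p : ℕ}
    (hp : p.Prime) {c : ℤ} (hc : 0 ≤ c) (hcp : c + 1 < p) (θ : 𝓞 F) (h : θ * (θ - c) ^ 2 = p) :
    (∃ b : Basis (Fin 3) ℚ F, Algebra.discr ℚ b = ((p * (4 * c ^ 3 - 27 * p) : ℤ) : ℚ)) ∧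
    ∃ i : ℤ, discr F * i ^ 2 = p * (4 * c ^ 3 - 27 * p) := by
  have hnr := sc_not_rat hp hc hcp θ h
  set t : F := (θ : F) with ht
  have h3 : t * (t - c) ^ 2 = p := by
    have h1 := congrArg (algebraMap (𝓞 F) F) h
    rw [map_mul, map_pow, map_sub, map_intCast, map_natCast] at h1
    exact h1
  have htop := adjoin_eq_top_of_prime (k := ℚ) (F := F) (by rw [hF]; exact Nat.prime_three) t hnr
  have hti : IsIntegral ℤ t := RingOfIntegers.isIntegral_coe θ
  have hdeg : (minpoly ℚ t).natDegree = 3 := by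
    rw [← IntermediateField.adjoin.finrank (hti.tower_top), htop,
      IntermediateField.finrank_top', hF]
  have hli : LinearIndependent ℚ (fun i : Fin 3 => t ^ (i : ℕ)) := by
    rw [← hdeg]
    exact linearIndependent_pow t
  let B : Basis (Fin 3) ℚ F := basisOfLinearIndependentOfCardEqFinrank hli (by simp [hF])
  have hB : ∀ i : Fin 3, B i = t ^ (i : ℕ) := by intro i; simp [B]
  have hB0 : B 0 = 1 := by rw [hB]; simp
  have hB1 : B 1 = t := by rw [hB]; simp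
  have hB2 : B 2 = t ^ 2 := by rw [hB]; simp
  have tr1 : Algebra.trace ℚ F 1 = 3 := by
    rw [← map_one (algebraMap ℚ F), Algebra.trace_algebraMap, hF]; norm_num
  have e3 : t ^ 3 = p - c ^ 2 * t + 2 * c * t ^ 2 := by linear_combination h3
  have e4 : t ^ 4 = 2 * c * p + (p - 2 * c ^ 3) * t + 3 * c ^ 2 * t ^ 2 := by
    linear_combination (t + 2 * c) * e3
  have trt : Algebra.trace ℚ F t = 2 * c := by
    rw [trace_of_matrix B t ![![0, 1, 0], ![0, 0, 1], ![(p : ℚ), -(c : ℚ) ^ 2, 2 * c]]]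
    · simp
    · intro j
      fin_cases j <;>
        simp only [Fin.zero_eta, Fin.mk_one, Fin.reduceFinMk, Fin.sum_univ_three, hB0, hB1, hB2,
          Matrix.cons_val_zero, Matrix.cons_val_one, Matrix.cons_val,
          Algebra.smul_def, map_neg, map_mul, map_pow, map_natCast, map_intCast, map_ofNat,
          map_zero, map_one]
      · ring
      · ring
      · linear_combination e3
  have trt2 : Algebra.trace ℚ F (t ^ 2) = 2 * c ^ 2 := by
    rw [trace_of_matrix B (t ^ 2) ![![0, 0, 1], ![(p : ℚ), -(c : ℚ) ^ 2, 2 * c],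
      ![2 * (c : ℚ) * p, (p : ℚ) - 2 * (c : ℚ) ^ 3, 3 * (c : ℚ) ^ 2]]]
    · simp only [Matrix.cons_val_zero, Matrix.cons_val_one, Matrix.cons_val]
      ring
    · intro j
      fin_cases j <;>
        simp only [Fin.zero_eta, Fin.mk_one, Fin.reduceFinMk, Fin.sum_univ_three, hB0, hB1, hB2,
          Matrix.cons_val_zero, Matrix.cons_val_one, Matrix.cons_val,
          Algebra.smul_def, map_neg, map_sub, map_mul, map_pow, map_natCast, map_intCast,
          map_ofNat, map_zero, map_one]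
      · ring
      · linear_combination e3
      · linear_combination e4
  have trlin : ∀ a b d : ℚ, Algebra.trace ℚ F (a • 1 + b • t + d • t ^ 2) =
      3 * a + 2 * c * b + 2 * c ^ 2 * d := by
    intro a b d
    rw [map_add, map_add, map_smul, map_smul, map_smul, tr1, trt, trt2, smul_eq_mul, smul_eq_mul,
      smul_eq_mul]
    ring
  have trt3 : Algebra.trace ℚ F (t ^ 3) = 3 * p + 2 * c ^ 3 := by
    have : t ^ 3 = (p : ℚ) • (1 : F) + (-(c : ℚ) ^ 2) • t + (2 * c : ℚ) • t ^ 2 := by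
      rw [e3]
      simp only [Algebra.smul_def, map_mul, map_pow, map_neg, map_natCast, map_intCast, map_ofNat]
      ring
    rw [this, trlin]; ring
  have trt4 : Algebra.trace ℚ F (t ^ 4) = 8 * p * c + 2 * c ^ 4 := by
    have : t ^ 4 = (2 * c * p : ℚ) • (1 : F) + ((p : ℚ) - 2 * c ^ 3) • t +
        (3 * (c : ℚ) ^ 2) • t ^ 2 := by
      rw [e4]
      simp only [Algebra.smul_def, map_sub, map_mul, map_pow, map_natCast, map_intCast, map_ofNat]
      ring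
    rw [this, trlin]; ring
  have hdisc : Algebra.discr ℚ (fun i : Fin 3 => t ^ (i : ℕ)) = p * (4 * c ^ 3 - 27 * p) := by
    rw [Algebra.discr_def, Matrix.det_fin_three]
    simp only [Algebra.traceMatrix_apply, Algebra.traceForm_apply, Fin.val_zero, Fin.val_one,
      Fin.val_two, pow_zero, pow_one, one_mul, mul_one]
    have s1 : t * t = t ^ 2 := by ring
    have s2 : t * t ^ 2 = t ^ 3 := by ring
    have s3 : t ^ 2 * t = t ^ 3 := by ring
    have s4 : t ^ 2 * t ^ 2 = t ^ 4 := by ring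
    rw [s1, s2, s3, s4, tr1, trt, trt2, trt3, trt4]
    ring
  refine ⟨⟨B, ?_⟩, ?_⟩
  · have : (B : Fin 3 → F) = fun i : Fin 3 => t ^ (i : ℕ) := funext hB
    rw [this, hdisc]
    push_cast
    ring
  · let Y : Fin 3 → 𝓞 F := fun i => θ ^ (i : ℕ)
    have hY : (fun j => ((Y j : 𝓞 F) : F)) = fun i : Fin 3 => t ^ (i : ℕ) := by
      funext j
      change algebraMap (𝓞 F) F (θ ^ (j : ℕ)) = _
      rw [map_pow]
    obtain ⟨i, hi⟩ := exists_discr_mul_sq Y (by simp [hF])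
    rw [hY, hdisc] at hi
    refine ⟨i, ?_⟩
    have h4 : ((p * (4 * c ^ 3 - 27 * p) : ℤ) : ℚ) = ((discr F * i ^ 2 : ℤ) : ℚ) := by
      rw [← hi]; push_cast; ring
    exact_mod_cast h4.symm

/-- growth -/
theorem sc_growth (C c : ℝ) (hc : 0 < c) : ∃ p0 : ℕ, ∀ p : ℕ, p0 ≤ p → 1 ≤ p →
    C * (p : ℝ) ^ (11 / 6 : ℝ) ≤ c * (p : ℝ) ^ 2 * (1 + Real.log p) ^ (-2 : ℤ) := by
  obtain ⟨n0, hn0⟩ := exists_nat_ge ((625 * |C| / c) ^ 12)
  refine ⟨n0, fun p hp hp1 => ?_⟩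
  have hp1' : (1 : ℝ) ≤ p := by exact_mod_cast hp1
  have hp0 : (0 : ℝ) < p := by linarith
  have hlog0 : 0 ≤ Real.log p := Real.log_nonneg hp1'
  have hlog : Real.log p ≤ 24 * (p : ℝ) ^ (1 / 24 : ℝ) := by
    have := Real.log_le_rpow_div hp0.le (show (0 : ℝ) < 1 / 24 by norm_num)
    linarith
  have hq1 : (1 : ℝ) ≤ (p : ℝ) ^ (1 / 24 : ℝ) := Real.one_le_rpow hp1' (by norm_num)
  have h1 : (1 + Real.log p) ^ 2 ≤ 625 * (p : ℝ) ^ (1 / 12 : ℝ) := by
    have h2 : 1 + Real.log p ≤ 25 * (p : ℝ) ^ (1 / 24 : ℝ) := by linarith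
    calc (1 + Real.log p) ^ 2 ≤ (25 * (p : ℝ) ^ (1 / 24 : ℝ)) ^ 2 :=
          pow_le_pow_left₀ (by linarith) h2 2
      _ = 625 * ((p : ℝ) ^ (1 / 24 : ℝ) * (p : ℝ) ^ (1 / 24 : ℝ)) := by ring
      _ = 625 * (p : ℝ) ^ (1 / 12 : ℝ) := by
          rw [← Real.rpow_add hp0]
          norm_num
  have h3 : 625 * |C| ≤ c * (p : ℝ) ^ (1 / 12 : ℝ) := by
    have h4 : (625 * |C| / c) ^ 12 ≤ p := hn0.trans (by exact_mod_cast hp)
    have h5 : 625 * |C| / c ≤ (p : ℝ) ^ (1 / 12 : ℝ) := by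
      have h6 : 0 ≤ 625 * |C| / c := by positivity
      calc 625 * |C| / c = ((625 * |C| / c) ^ 12) ^ (1 / 12 : ℝ) := by
            rw [← Real.rpow_natCast, ← Real.rpow_mul h6]
            norm_num
        _ ≤ (p : ℝ) ^ (1 / 12 : ℝ) := Real.rpow_le_rpow (by positivity) h4 (by norm_num)
    rw [div_le_iff₀ hc] at h5
    linarith
  rw [zpow_neg, ← div_eq_mul_inv, le_div_iff₀ (by positivity)]
  have h7 : (1 + Real.log p) ^ (2 : ℤ) = (1 + Real.log p) ^ 2 := by norm_cast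
  rw [h7]
  have h8 : (p : ℝ) ^ (11 / 6 : ℝ) * ((p : ℝ) ^ (1 / 12 : ℝ) * (p : ℝ) ^ (1 / 12 : ℝ)) =
      (p : ℝ) ^ 2 := by
    rw [← Real.rpow_add hp0, ← Real.rpow_add hp0, ← Real.rpow_natCast]
    norm_num
  calc C * (p : ℝ) ^ (11 / 6 : ℝ) * (1 + Real.log p) ^ 2
      ≤ |C| * (p : ℝ) ^ (11 / 6 : ℝ) * (625 * (p : ℝ) ^ (1 / 12 : ℝ)) := by
        gcongr
        exact le_abs_self C
    _ = (625 * |C|) * ((p : ℝ) ^ (11 / 6 : ℝ) * (p : ℝ) ^ (1 / 12 : ℝ)) := by ring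
    _ ≤ (c * (p : ℝ) ^ (1 / 12 : ℝ)) * ((p : ℝ) ^ (11 / 6 : ℝ) * (p : ℝ) ^ (1 / 12 : ℝ)) := by
        gcongr
    _ = c * ((p : ℝ) ^ (11 / 6 : ℝ) * ((p : ℝ) ^ (1 / 12 : ℝ) * (p : ℝ) ^ (1 / 12 : ℝ))) := by ring
    _ = c * (p : ℝ) ^ 2 := by rw [h8]

/-- class numbers of quadratic and cubic fields of discriminant `O(p ^ (11/6))` -/
theorem sc_class (d : ℕ) (hd : d = 2 ∨ d = 3) (C : ℝ) : ∃ p0 : ℕ, ∀ p : ℕ, p.Prime → p0 ≤ p →
    ∀ (F : Type) [Field F] [NumberField F], finrank ℚ F = d →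
      |(discr F : ℝ)| ≤ C * (p : ℝ) ^ (11 / 6 : ℝ) → ¬ p ∣ Nat.card (ClassGroup (𝓞 F)) := by
  have hdp : d.Prime := by
    rcases hd with rfl | rfl
    · exact Nat.prime_two
    · exact Nat.prime_three
  obtain ⟨c, hc, h⟩ := not_dvd_gen ℚ d
  obtain ⟨p0, hp0⟩ := sc_growth C c hc
  refine ⟨p0, fun p hp hpp F _ _ hF hD => ?_⟩
  refine h F p hp hF (fun u hu => adjoin_eq_top_of_prime (by rw [hF]; exact hdp) u hu) ?_
  refine hD.trans ((hp0 p hpp hp.one_lt.le).trans ?_)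
  have hrQ : Units.rank ℚ = 0 := by
    rw [rank_of_totallyReal, finrank_self]
  have hp1 : (1 : ℝ) ≤ p := by exact_mod_cast hp.one_lt.le
  have hr : (d : ℤ) ≤ Units.rank F + 2 := by
    have h1 := InfinitePlace.card_add_two_mul_card_eq_rank F
    have h2 := InfinitePlace.card_eq_nrRealPlaces_add_nrComplexPlaces F
    have h3 : Units.rank F = Fintype.card (InfinitePlace F) - 1 := rfl
    rw [hF] at h1
    have h4 : Units.rank F + 2 ≥ d := by
      rw [h3, h2]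
      rcases hd with rfl | rfl <;> omega
    exact_mod_cast h4
  refine mul_le_mul_of_nonneg_left ?_ (by positivity)
  refine zpow_le_zpow_right₀ ?_ ?_
  · have := Real.log_nonneg hp1
    linarith
  · rw [hrQ]
    push_cast
    linarith

/-- the three values of `c` -/
def CVal (x : ℕ) (c : ℤ) : Prop := (x : ℤ) ^ 2 ≤ c ∧ c ≤ ((x : ℤ) + 1) ^ 2

theorem sc_small {p x : ℕ} (hp : 49 ≤ p) (h1 : 4 * x ^ 6 ≤ 27 * p)
    (h2 : 27 * p < 4 * (x + 1) ^ 6) : 1 ≤ x ∧ 3 * x ^ 2 + 3 * x + 1 < p := by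
  have hx : 1 ≤ x := by
    by_contra h
    have : x = 0 := by omega
    subst this
    omega
  refine ⟨hx, ?_⟩
  by_contra hcon
  push Not at hcon
  have h3 : p ≤ 7 * x ^ 2 := by nlinarith
  have h4 : p ^ 3 ≤ 343 * x ^ 6 := by
    calc p ^ 3 ≤ (7 * x ^ 2) ^ 3 := Nat.pow_le_pow_left h3 3
      _ = 343 * x ^ 6 := by ring
  have h5 : 4 * p ^ 3 ≤ 343 * (27 * p) := by omega
  have h6 : 4 * p ^ 2 ≤ 343 * 27 := by
    have h7 : (4 * p ^ 2) * p ≤ (343 * 27) * p := by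
      calc (4 * p ^ 2) * p = 4 * p ^ 3 := by ring
        _ ≤ 343 * (27 * p) := h5
        _ = (343 * 27) * p := by ring
    exact Nat.le_of_mul_le_mul_right h7 (by omega)
  have h7 : 49 ^ 2 ≤ p ^ 2 := Nat.pow_le_pow_left hp 2
  omega

theorem sc_c {p x : ℕ} (hp : 49 ≤ p) (h1 : 4 * x ^ 6 ≤ 27 * p)
    (h2 : 27 * p < 4 * (x + 1) ^ 6) {c : ℤ} (hc : CVal x c) : 0 < c ∧ c + 1 < p := by
  obtain ⟨h3, h4⟩ := sc_small hp h1 h2
  have h3' : (1 : ℤ) ≤ x := by exact_mod_cast h3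
  have h4' : 3 * (x : ℤ) ^ 2 + 3 * x + 1 < p := by exact_mod_cast h4
  constructor
  · have := hc.1
    nlinarith
  · have := hc.2
    nlinarith

/-- the size of `4 c³ - 27 p` -/
theorem sc_size {p x : ℕ} (hp : 49 ≤ p) (h1 : 4 * x ^ 6 ≤ 27 * p)
    (h2 : 27 * p < 4 * (x + 1) ^ 6) {c : ℤ} (hc : CVal x c) :
    |((p * (4 * c ^ 3 - 27 * p) : ℤ) : ℝ)| ≤ 1764 * (p : ℝ) ^ (11 / 6 : ℝ) := by
  obtain ⟨h3, -⟩ := sc_small hp h1 h2
  have hx : (1 : ℝ) ≤ x := by exact_mod_cast h3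
  have hx0 : (0 : ℝ) ≤ x := by linarith
  have hp0 : (0 : ℝ) < p := by
    have : 0 < p := by omega
    exact_mod_cast this
  have c1 : ((x : ℝ)) ^ 2 ≤ c := by exact_mod_cast hc.1
  have c2 : (c : ℝ) ≤ ((x : ℝ) + 1) ^ 2 := by exact_mod_cast hc.2
  have c3 : (x : ℝ) ^ 6 ≤ (c : ℝ) ^ 3 := by
    calc (x : ℝ) ^ 6 = ((x : ℝ) ^ 2) ^ 3 := by ring
      _ ≤ (c : ℝ) ^ 3 := pow_le_pow_left₀ (by positivity) c1 3
  have c4 : (c : ℝ) ^ 3 ≤ ((x : ℝ) + 1) ^ 6 := by
    calc (c : ℝ) ^ 3 ≤ (((x : ℝ) + 1) ^ 2) ^ 3 :=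
          pow_le_pow_left₀ ((sq_nonneg (x : ℝ)).trans c1) c2 3
      _ = _ := by ring
  have p1 : 4 * (x : ℝ) ^ 6 ≤ 27 * p := by exact_mod_cast h1
  have p2 : 27 * (p : ℝ) < 4 * ((x : ℝ) + 1) ^ 6 := by exact_mod_cast h2
  have hdiff : ((x : ℝ) + 1) ^ 6 - (x : ℝ) ^ 6 ≤ 63 * (x : ℝ) ^ 5 := by
    have q1 : 1 ≤ (x : ℝ) ^ 5 := one_le_pow₀ hx
    have q2 : (x : ℝ) ≤ (x : ℝ) ^ 5 := le_self_pow₀ hx (by norm_num)
    have q3 : (x : ℝ) ^ 2 ≤ (x : ℝ) ^ 5 := pow_le_pow_right₀ hx (by norm_num)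
    have q4 : (x : ℝ) ^ 3 ≤ (x : ℝ) ^ 5 := pow_le_pow_right₀ hx (by norm_num)
    have q5 : (x : ℝ) ^ 4 ≤ (x : ℝ) ^ 5 := pow_le_pow_right₀ hx (by norm_num)
    nlinarith
  have h4 : |4 * (c : ℝ) ^ 3 - 27 * p| ≤ 252 * (x : ℝ) ^ 5 := by
    rw [abs_le]
    constructor <;> linarith
  have h5 : (x : ℝ) ^ 5 ≤ 7 * (p : ℝ) ^ (5 / 6 : ℝ) := by
    have e1 : (x : ℝ) ^ 6 ≤ 7 * p := by linarith
    have e2 : (x : ℝ) ^ 5 = ((x : ℝ) ^ 6) ^ (5 / 6 : ℝ) := by
      rw [← Real.rpow_natCast, ← Real.rpow_natCast, ← Real.rpow_mul hx0]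
      norm_num
    rw [e2]
    calc ((x : ℝ) ^ 6) ^ (5 / 6 : ℝ) ≤ (7 * (p : ℝ)) ^ (5 / 6 : ℝ) :=
          Real.rpow_le_rpow (by positivity) e1 (by norm_num)
      _ = (7 : ℝ) ^ (5 / 6 : ℝ) * (p : ℝ) ^ (5 / 6 : ℝ) := Real.mul_rpow (by norm_num) hp0.le
      _ ≤ 7 * (p : ℝ) ^ (5 / 6 : ℝ) := by
          refine mul_le_mul_of_nonneg_right ?_ (by positivity)
          calc (7 : ℝ) ^ (5 / 6 : ℝ) ≤ (7 : ℝ) ^ (1 : ℝ) :=
                Real.rpow_le_rpow_of_exponent_le (by norm_num) (by norm_num)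
            _ = 7 := Real.rpow_one 7
  push_cast
  rw [abs_mul, abs_of_pos hp0]
  calc (p : ℝ) * |4 * (c : ℝ) ^ 3 - 27 * p| ≤ p * (252 * (7 * (p : ℝ) ^ (5 / 6 : ℝ))) := by
        refine mul_le_mul_of_nonneg_left (h4.trans ?_) hp0.le
        linarith
    _ = 1764 * ((p : ℝ) ^ (1 : ℝ) * (p : ℝ) ^ (5 / 6 : ℝ)) := by
        rw [Real.rpow_one]; ring
    _ = 1764 * (p : ℝ) ^ (11 / 6 : ℝ) := by
        rw [← Real.rpow_add hp0]
        norm_num

theorem sc_ndvd {p : ℕ} (hp : p.Prime) (h5 : 5 ≤ p) {c : ℤ} (hc : 0 < c) (hcp : c + 1 < p) :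
    ¬ (p : ℤ) ∣ 4 * c ^ 3 - 27 * p := by
  intro h
  have hpi := Nat.prime_iff_prime_int.mp hp
  have h1 : (p : ℤ) ∣ 4 * c ^ 3 := by
    have h3 := dvd_add h (dvd_mul_left (p : ℤ) 27)
    simpa using h3
  rcases hpi.dvd_or_dvd h1 with h2 | h2
  · have h3 := Int.le_of_dvd (by norm_num) h2
    have : (5 : ℤ) ≤ p := by exact_mod_cast h5
    omega
  · have h3 := Int.le_of_dvd hc (hpi.dvd_of_dvd_pow h2)
    omega

/-- (b) the cubic fields -/
theorem sc_cubic : ∃ p0 : ℕ, ∀ p : ℕ, p.Prime → p0 ≤ p → ∀ x : ℕ, 4 * x ^ 6 ≤ 27 * p →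
    27 * p < 4 * (x + 1) ^ 6 → ∀ c : ℤ, CVal x c → ∀ (F : Type) [Field F] [NumberField F]
      (θ : 𝓞 F), finrank ℚ F = 3 → θ * (θ - c) ^ 2 = p →
        |(discr F : ℝ)| ≤ 1764 * (p : ℝ) ^ (11 / 6 : ℝ) ∧
          ¬ p ∣ Nat.card (ClassGroup (𝓞 F)) := by
  obtain ⟨p1, h⟩ := sc_class 3 (Or.inr rfl) 1764
  refine ⟨max p1 49, fun p hp hpp x h1 h2 c hc F _ _ θ hF hθ => ?_⟩
  have hp49 : 49 ≤ p := (le_max_right _ _).trans hpp
  obtain ⟨hc0, hcp⟩ := sc_c hp49 h1 h2 hc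
  obtain ⟨-, i, hi⟩ := sc_discr hF hp hc0.le hcp θ hθ
  have hnd := sc_ndvd hp (by omega) hc0 hcp
  have hi0 : i ≠ 0 := by
    rintro rfl
    have h3 : (p : ℤ) * (4 * c ^ 3 - 27 * p) = 0 := by rw [← hi]; ring
    rcases mul_eq_zero.mp h3 with h4 | h4
    · exact hp.ne_zero (by exact_mod_cast h4)
    · exact hnd (h4 ▸ dvd_zero _)
  have hb : |(discr F : ℝ)| ≤ 1764 * (p : ℝ) ^ (11 / 6 : ℝ) := by
    refine le_trans ?_ (sc_size hp49 h1 h2 hc)
    rw [← hi]
    push_cast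
    rw [abs_mul]
    have h3 : (1 : ℝ) ≤ |(i : ℝ) ^ 2| := by
      rw [abs_of_nonneg (sq_nonneg _)]
      have : (1 : ℤ) ≤ i ^ 2 := by
        have : 0 < i ^ 2 := by positivity
        omega
      exact_mod_cast this
    have h4 := abs_nonneg (discr F : ℝ)
    nlinarith
  exact ⟨hb, h p hp ((le_max_left _ _).trans hpp) F hF hb⟩

/-- `p ∤ e` in the integers of `ℚ` -/
theorem sc_mem_Q {p : ℕ} {e : ℤ} (h : ((e : ℤ) : 𝓞 ℚ) ∈ Ideal.span {(p : 𝓞 ℚ)}) :
    (p : ℤ) ∣ e := by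
  obtain ⟨y, hy⟩ := Ideal.mem_span_singleton'.mp h
  have h1 := congrArg Rat.ringOfIntegersEquiv hy
  rw [map_mul, map_natCast, map_intCast] at h1
  exact ⟨Rat.ringOfIntegersEquiv y, by rw [mul_comm]; exact_mod_cast h1.symm⟩

/-- (c) the quadratic field in the closure -/
theorem sc_quad : ∃ C : ℝ, 0 < C ∧ ∀ (p : ℕ), p.Prime → 5 ≤ p → ∀ c : ℤ, 0 < c → c + 1 < p →
    ∀ (F : Type) [Field F] [NumberField F] (θ : 𝓞 F), finrank ℚ F = 3 → θ * (θ - c) ^ 2 = p →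
      ∀ (N : IntermediateField ℚ ℂ) [NumberField N] [IsGalois ℚ N] (_ : F →+* N),
        ∃ (Y : IntermediateField ℚ ℂ) (_ : NumberField Y), Y ≤ N ∧ finrank ℚ Y = 2 ∧
          Mu22.OnePrime p Y ∧
          |(discr Y : ℝ)| ≤ C * |((p * (4 * c ^ 3 - 27 * p) : ℤ) : ℝ)| := by
  obtain ⟨C, hC, hdisc⟩ := discr_le_of_unit_le ℚ
  refine ⟨C, hC, ?_⟩
  intro p hp h5 c hc0 hcp F _ _ θ hF hθ N _ _ f
  obtain ⟨⟨b, hb⟩, -⟩ := sc_discr hF hp hc0.le hcp θ hθ
  have hnd := sc_ndvd hp h5 hc0 hcp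
  set e : ℤ := 4 * c ^ 3 - 27 * p with he
  have hpi := Nat.prime_iff_prime_int.mp hp
  obtain ⟨x, hxN, hx2⟩ := exists_sqrt_discr ℚ F ℂ b
  have hNg : @IsGalois ℚ _ N _ N.algebra' := Mu22.cc_cast _ _ inferInstance
  have hNn : @Normal ℚ N _ _ N.algebra' := hNg.to_normal
  have hcomm : ∀ r : ℚ, f (algebraMap ℚ F r) = (@algebraMap ℚ N _ _ N.algebra') r := by
    intro r
    rw [eq_ratCast, map_ratCast]
    exact (eq_ratCast (@algebraMap ℚ N _ _ N.algebra') r).symm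
  let f' : @AlgHom ℚ F N _ _ _ _ N.algebra' := { f with commutes' := hcomm }
  have hxN' : x ∈ N := by
    have h1 : IntermediateField.normalClosure ℚ F ℂ ≤ N := by
      rw [normalClosure_le_iff]
      intro φ
      exact MuB.cl_le N hNn f' φ
    exact h1 hxN
  have hx2' : x ^ 2 = ((p * e : ℤ) : ℂ) := by
    rw [hx2, hb]
    simp
  -- not a square
  have hnsq : ∀ q : ℚ, q ^ 2 ≠ ((p * e : ℤ) : ℚ) := by
    intro q hq
    have hint : IsIntegral ℤ q := by
      refine IsIntegral.of_pow two_pos ?_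
      rw [hq]
      exact isIntegral_algebraMap (R := ℤ) (x := (p * e : ℤ))
    obtain ⟨m, hm⟩ := IsIntegrallyClosed.isIntegral_iff.mp hint
    rw [← hm] at hq
    have hq' : m ^ 2 = p * e := by
      simp only [algebraMap_int_eq, eq_intCast] at hq
      exact_mod_cast hq
    obtain ⟨k, rfl⟩ := hpi.dvd_of_dvd_pow ⟨e, hq'⟩
    apply hnd
    have hp0 : (p : ℤ) ≠ 0 := by exact_mod_cast hp.ne_zero
    refine ⟨k ^ 2, mul_left_cancel₀ hp0 ?_⟩
    rw [← hq']; ring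
  have hxint : IsIntegral ℚ x := by
    refine IsIntegral.of_pow two_pos ?_
    rw [hx2, hb]
    exact isIntegral_algebraMap
  have hmin : minpoly ℚ x = Polynomial.X ^ 2 - Polynomial.C ((p * e : ℤ) : ℚ) := by
    symm
    apply minpoly.eq_of_irreducible_of_monic
    · exact X_pow_sub_C_irreducible_of_prime Nat.prime_two hnsq
    · rw [map_sub, map_pow, Polynomial.aeval_X, Polynomial.aeval_C, hx2, hb, sub_self]
    · exact Polynomial.monic_X_pow_sub_C _ two_ne_zero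
  set Y : IntermediateField ℚ ℂ := IntermediateField.adjoin ℚ {x} with hY
  have hYN : Y ≤ N := by
    rw [hY, IntermediateField.adjoin_simple_le_iff]
    exact hxN'
  have hY2 : finrank ℚ Y = 2 := by
    rw [hY, IntermediateField.adjoin.finrank hxint, hmin, Polynomial.natDegree_X_pow_sub_C]
  have hYf : FiniteDimensional ℚ Y := FiniteDimensional.of_finrank_pos (by rw [hY2]; norm_num)
  have hYn : NumberField Y := NumberField.of_module_finite ℚ _
  obtain ⟨xx, hxx⟩ : ∃ xx : Y, (xx : ℂ) = x :=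
    ⟨⟨x, IntermediateField.mem_adjoin_simple_self ℚ x⟩, rfl⟩
  have hxx2 : xx ^ 2 = ((p * e : ℤ) : Y) := by
    apply Subtype.ext
    push_cast
    rw [hxx, hx2']
    push_cast
    rfl
  have hxxi : IsIntegral ℤ xx := by
    refine IsIntegral.of_pow two_pos ?_
    rw [hxx2]
    exact isIntegral_algebraMap (R := ℤ) (x := (p * e : ℤ))
  obtain ⟨z, hz⟩ : ∃ z : 𝓞 Y, (z : Y) = xx := ⟨⟨xx, hxxi⟩, rfl⟩
  have hYR : finrank ℚ Y = 2 := hY2
  refine ⟨Y, hYn, hYN, hYR, ?_, ?_⟩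
  · have hQ0 : (p : 𝓞 ℚ) ≠ 0 := by exact_mod_cast hp.ne_zero
    have h1 := existsUnique_prime (K := ℚ) (F := Y) hp
      ((Ideal.span_singleton_prime hQ0).mpr (prime_Q hp)) hYR ((e : ℤ) : 𝓞 ℚ)
      (fun h => hnd (sc_mem_Q h)) z (by
        apply RingOfIntegers.ext
        have e1 : ((z ^ 2 : 𝓞 Y) : Y) = ((p * e : ℤ) : Y) := by
          change algebraMap (𝓞 Y) Y (z ^ 2) = _
          rw [map_pow]
          change (z : Y) ^ 2 = _
          rw [hz, hxx2]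
        have e2 : ((algebraMap (𝓞 ℚ) (𝓞 Y) ((p : 𝓞 ℚ) * ((e : ℤ) : 𝓞 ℚ)) : 𝓞 Y) : Y) =
            ((p * e : ℤ) : Y) := by
          rw [map_mul, map_natCast, map_intCast]
          change algebraMap (𝓞 Y) Y ((p : 𝓞 Y) * ((e : ℤ) : 𝓞 Y)) = _
          rw [map_mul, map_natCast, map_intCast]
          push_cast
          rfl
        rw [e1, e2])
    intro P Q hP hQ hpP hpQ
    exact h1.unique ⟨hP, hpP⟩ ⟨hQ, hpQ⟩
  · set D : ℝ := |((p * e : ℤ) : ℝ)| with hD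
    have he0 : p * e ≠ 0 := by
      intro h0
      exact hnsq 0 (by rw [h0]; norm_num)
    have hD1 : 1 ≤ D := by
      rw [hD, ← Int.cast_abs]
      exact_mod_cast Int.one_le_abs he0
    have hzr : (z : Y) ∉ Set.range (algebraMap ℚ Y) := by
      rintro ⟨q, hq⟩
      rw [hz] at hq
      apply hnsq q
      have h1 : algebraMap ℚ Y (q ^ 2) = algebraMap ℚ Y ((p * e : ℤ) : ℚ) := by
        rw [map_pow, hq, hxx2, map_intCast]
      exact (algebraMap ℚ Y).injective h1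
    have h1 := hdisc Y hYR z hzr (√D) (by rw [Real.one_le_sqrt]; exact hD1) (by
      intro w
      apply Real.le_sqrt_of_sq_le
      rw [← map_pow, hz, hxx2, InfinitePlace.map_intCast, Int.norm_eq_abs])
    rw [finrank_self] at h1
    have h2 : √D ^ (2 * 1) = D := by
      rw [mul_one, Real.sq_sqrt (by linarith)]
    rw [h2] at h1
    exact h1

/-- the quadratic field in the closure, class number -/
theorem sc_closure : ∃ p0 : ℕ, ∀ p : ℕ, p.Prime → p0 ≤ p → ∀ x : ℕ, 4 * x ^ 6 ≤ 27 * p →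
    27 * p < 4 * (x + 1) ^ 6 → ∀ c : ℤ, CVal x c → ∀ (F : Type) [Field F] [NumberField F]
      (θ : 𝓞 F), finrank ℚ F = 3 → θ * (θ - c) ^ 2 = p →
        ∀ (N : IntermediateField ℚ ℂ) [NumberField N] [IsGalois ℚ N] (_ : F →+* N),
          ∃ (Y : IntermediateField ℚ ℂ) (_ : NumberField Y), Y ≤ N ∧ finrank ℚ Y = 2 ∧
            Mu22.OnePrime p Y ∧ ¬ p ∣ Nat.card (ClassGroup (𝓞 Y)) := by
  obtain ⟨C, hC, hq⟩ := sc_quad
  obtain ⟨p1, h⟩ := sc_class 2 (Or.inl rfl) (C * 1764)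
  refine ⟨max p1 49, fun p hp hpp x h1 h2 c hc F _ _ θ hF hθ N _ _ f => ?_⟩
  have hp49 : 49 ≤ p := (le_max_right _ _).trans hpp
  obtain ⟨hc0, hcp⟩ := sc_c hp49 h1 h2 hc
  obtain ⟨Y, hYn, hYN, hY2, hone, hd⟩ := hq p hp (by omega) c hc0 hcp F θ hF hθ N f
  refine ⟨Y, hYn, hYN, hY2, hone, ?_⟩
  refine h p hp ((le_max_left _ _).trans hpp) Y hY2 (hd.trans ?_)
  rw [mul_assoc]
  exact mul_le_mul_of_nonneg_left (sc_size hp49 h1 h2 hc) hC.le

/-- the choice of `x` -/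
theorem sc_x (p : ℕ) : ∃ x : ℕ, 4 * x ^ 6 ≤ 27 * p ∧ 27 * p < 4 * (x + 1) ^ 6 := by
  classical
  have hex : ∃ x : ℕ, 27 * p < 4 * (x + 1) ^ 6 := by
    refine ⟨27 * p, ?_⟩
    have h1 : 27 * p + 1 ≤ (27 * p + 1) ^ 6 := Nat.le_self_pow (by norm_num) _
    omega
  refine ⟨Nat.find hex, ?_, Nat.find_spec hex⟩
  rcases Nat.eq_zero_or_pos (Nat.find hex) with h0 | h0
  · rw [h0]; simp
  · have h1 := Nat.find_min hex (m := Nat.find hex - 1) (by omega)
    push Not at h1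
    rwa [Nat.sub_add_cancel h0] at h1

end Pool.Agent.Work.MuS
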