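import Pool.Agent.Work.MP_a4986b_nt.SpS

set_option autoImplicit false
set_option maxHeartbeats 400000

/-! # Split primes, part T: cubic fields `θ³ + a θ² + b θ + c = 0` (after helper25's part S) -/

namespace Pool.Agent.Work.MuS

open NumberField Module
open scoped nonZeroDivisors
open Pool.Agent.Work.MuB

/-- no integer root -/
def NoRoot (a b c : ℤ) : Prop := ∀ m : ℤ, m ^ 3 + a * m ^ 2 + b * m + c ≠ 0

/-- no rational root -/
theorem NoRoot.rat {a b c : ℤ} (h : NoRoot a b c) (q : ℚ) :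
    q ^ 3 + a * q ^ 2 + b * q + c ≠ 0 := by
  intro hq
  have hint : IsIntegral ℤ q := by
    refine IsIntegral.of_aeval_monic (p := Polynomial.X ^ 3 + Polynomial.C a *
      Polynomial.X ^ 2 + Polynomial.C b * Polynomial.X + Polynomial.C c) ?_ ?_ ?_
    · monicity!
    · have : (Polynomial.X ^ 3 + Polynomial.C a *
        Polynomial.X ^ 2 + Polynomial.C b * Polynomial.X + Polynomial.C c :
          Polynomial ℤ).natDegree = 3 := by
        compute_degree!
      rw [this]; norm_num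
    · have h2 : Polynomial.aeval q (Polynomial.X ^ 3 + Polynomial.C a *
        Polynomial.X ^ 2 + Polynomial.C b * Polynomial.X + Polynomial.C c : Polynomial ℤ) = 0 := by
        rw [map_add, map_add, map_add, map_mul, map_mul, map_pow, map_pow,
          Polynomial.aeval_X, Polynomial.aeval_C, Polynomial.aeval_C, Polynomial.aeval_C]
        simp only [algebraMap_int_eq, eq_intCast]
        exact hq
      rw [h2]
      exact isIntegral_zero
  obtain ⟨m, hm⟩ := IsIntegrallyClosed.isIntegral_iff.mp hint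
  refine h m ?_
  rw [← hm] at hq
  simp only [algebraMap_int_eq, eq_intCast] at hq
  exact_mod_cast hq

theorem NoRoot.not_rat {F : Type*} [Field F] [NumberField F] {a b c : ℤ} (hn : NoRoot a b c)
    (θ : 𝓞 F) (h : θ ^ 3 + a * θ ^ 2 + b * θ + c = 0) :
    (θ : F) ∉ Set.range (algebraMap ℚ F) := by
  rintro ⟨q, hq⟩
  apply hn.rat q
  have h1 := congrArg (algebraMap (𝓞 F) F) h
  rw [map_add, map_add, map_add, map_mul, map_mul, map_pow, map_pow, map_intCast, map_intCast,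
    map_intCast, map_zero] at h1
  change (θ : F) ^ 3 + a * (θ : F) ^ 2 + b * (θ : F) + c = 0 at h1
  rw [← hq] at h1
  apply (algebraMap ℚ F).injective
  rw [map_zero, ← h1]
  simp

theorem gc_transfer (L : Type) [Field L] [inst : Algebra ℚ L] [FiniteDimensional ℚ L]
    {a b c : ℤ} (h3 : finrank ℚ L = 3) (t : L) (ht : t ^ 3 + a * t ^ 2 + b * t + c = 0) :
    ∃ (F : Type) (_ : Field F) (_ : NumberField F) (θ : 𝓞 F), finrank ℚ F = 3 ∧
      θ ^ 3 + a * θ ^ 2 + b * θ + c = 0 := by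
  have hc : CharZero L := algebraRat.charZero L
  have hinst : inst = DivisionRing.toRatAlgebra := Subsingleton.elim _ _
  subst hinst
  have hL : NumberField L := { to_charZero := hc, to_finiteDimensional := inferInstance }
  have hint : IsIntegral ℤ t := by
    refine IsIntegral.of_aeval_monic (p := Polynomial.X ^ 3 + Polynomial.C a *
      Polynomial.X ^ 2 + Polynomial.C b * Polynomial.X + Polynomial.C c) ?_ ?_ ?_
    · monicity!
    · have : (Polynomial.X ^ 3 + Polynomial.C a *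
        Polynomial.X ^ 2 + Polynomial.C b * Polynomial.X + Polynomial.C c :
          Polynomial ℤ).natDegree = 3 := by
        compute_degree!
      rw [this]; norm_num
    · have h2 : Polynomial.aeval t (Polynomial.X ^ 3 + Polynomial.C a *
        Polynomial.X ^ 2 + Polynomial.C b * Polynomial.X + Polynomial.C c : Polynomial ℤ) = 0 := by
        rw [map_add, map_add, map_add, map_mul, map_mul, map_pow, map_pow,
          Polynomial.aeval_X, Polynomial.aeval_C, Polynomial.aeval_C, Polynomial.aeval_C]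
        simp only [algebraMap_int_eq, eq_intCast]
        exact ht
      rw [h2]
      exact isIntegral_zero
  obtain ⟨θ, hθ⟩ : ∃ θ : 𝓞 L, (θ : L) = t := ⟨⟨t, hint⟩, rfl⟩
  refine ⟨L, inferInstance, hL, θ, h3, ?_⟩
  apply RingOfIntegers.ext
  rw [← hθ] at ht
  change algebraMap (𝓞 L) L (θ ^ 3 + a * θ ^ 2 + b * θ + c) = algebraMap (𝓞 L) L 0
  rw [map_add, map_add, map_add, map_mul, map_mul, map_pow, map_pow, map_intCast, map_intCast,
    map_intCast, map_zero]
  exact ht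

theorem gc_eval {K L : Type*} [CommRing K] [CommRing L] (φ : K →+* L) (t : L) (a b e : K) :
    Polynomial.eval₂ φ t (Polynomial.X ^ 3 + Polynomial.C a * Polynomial.X ^ 2 +
      Polynomial.C b * Polynomial.X + Polynomial.C e) = t ^ 3 + φ a * t ^ 2 + φ b * t + φ e := by
  simp only [Polynomial.eval₂_add, Polynomial.eval₂_mul,
    Polynomial.eval₂_pow, Polynomial.eval₂_X, Polynomial.eval₂_C]

/-- the rational polynomial -/
noncomputable def gcf (a b c : ℤ) : Polynomial ℚ :=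
  Polynomial.X ^ 3 + Polynomial.C (a : ℚ) * Polynomial.X ^ 2 +
    Polynomial.C (b : ℚ) * Polynomial.X + Polynomial.C (c : ℚ)

theorem gcf_monic (a b c : ℤ) : (gcf a b c).Monic := by
  rw [gcf]
  monicity!

theorem gcf_deg (a b c : ℤ) : (gcf a b c).natDegree = 3 := by
  rw [gcf]
  compute_degree!

theorem NoRoot.irr {a b c : ℤ} (h : NoRoot a b c) : Irreducible (gcf a b c) := by
  have hf0 : gcf a b c ≠ 0 := (gcf_monic a b c).ne_zero
  have hdeg := gcf_deg a b c
  rw [Polynomial.irreducible_iff_roots_eq_zero_of_degree_le_three (by omega) (by omega),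
    Multiset.eq_zero_iff_forall_notMem]
  intro q hq
  rw [Polynomial.mem_roots hf0, Polynomial.IsRoot.def] at hq
  apply h.rat q
  rw [gcf] at hq
  simp only [Polynomial.eval_add, Polynomial.eval_mul,
    Polynomial.eval_pow, Polynomial.eval_X, Polynomial.eval_C] at hq
  exact hq

/-- existence of the field -/
theorem gc_exists {a b c : ℤ} (h : NoRoot a b c) :
    ∃ (F : Type) (_ : Field F) (_ : NumberField F) (θ : 𝓞 F), finrank ℚ F = 3 ∧
      θ ^ 3 + a * θ ^ 2 + b * θ + c = 0 := by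
  classical
  have hf0 : gcf a b c ≠ 0 := (gcf_monic a b c).ne_zero
  have hfact : Fact (Irreducible (gcf a b c)) := ⟨h.irr⟩
  let pb := AdjoinRoot.powerBasis hf0
  have hfin : FiniteDimensional ℚ (AdjoinRoot (gcf a b c)) := pb.finite
  have hrk : finrank ℚ (AdjoinRoot (gcf a b c)) = 3 := by
    rw [pb.finrank, AdjoinRoot.powerBasis_dim, gcf_deg]
  refine gc_transfer (AdjoinRoot (gcf a b c)) hrk (AdjoinRoot.root (gcf a b c)) ?_
  have h1 := AdjoinRoot.eval₂_root (gcf a b c)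
  have h2 := gc_eval (AdjoinRoot.of (gcf a b c)) (AdjoinRoot.root (gcf a b c)) (a : ℚ) (b : ℚ)
    (c : ℚ)
  have h3 : Polynomial.eval₂ (AdjoinRoot.of (gcf a b c)) (AdjoinRoot.root (gcf a b c))
      (gcf a b c) = _ := h2
  rw [h1, map_intCast, map_intCast, map_intCast] at h3
  exact h3.symm

section Fld

variable {F : Type*} [Field F] [NumberField F] {a b c : ℤ}

theorem gc_F (θ : 𝓞 F) (h : θ ^ 3 + a * θ ^ 2 + b * θ + c = 0) :
    (θ : F) ^ 3 + a * (θ : F) ^ 2 + b * (θ : F) + c = 0 := by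
  have h1 := congrArg (algebraMap (𝓞 F) F) h
  rw [map_add, map_add, map_add, map_mul, map_mul, map_pow, map_pow, map_intCast, map_intCast,
    map_intCast, map_zero] at h1
  exact h1

/-- the minimal polynomial -/
theorem gc_minpoly (hn : NoRoot a b c) (θ : 𝓞 F) (h : θ ^ 3 + a * θ ^ 2 + b * θ + c = 0) :
    minpoly ℚ (θ : F) = gcf a b c := by
  refine (minpoly.eq_of_irreducible_of_monic hn.irr ?_ (gcf_monic a b c)).symm
  have h2 := gc_eval (algebraMap ℚ F) (θ : F) (a : ℚ) (b : ℚ) (c : ℚ)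
  rw [Polynomial.aeval_def]
  refine h2.trans ?_
  rw [map_intCast, map_intCast, map_intCast]
  exact gc_F θ h

/-- the norm of `θ + x` -/
theorem gc_norm (hF : finrank ℚ F = 3) (hn : NoRoot a b c) (θ : 𝓞 F)
    (h : θ ^ 3 + a * θ ^ 2 + b * θ + c = 0) (x : ℤ) :
    RingOfIntegers.norm ℚ (θ + (x : 𝓞 F)) = ((x ^ 3 - a * x ^ 2 + b * x - c : ℤ) : 𝓞 ℚ) := by
  have hmin := gc_minpoly hn θ h
  have hmin2 : minpoly ℚ ((θ : F) + algebraMap ℚ F (x : ℚ)) =
      (gcf a b c).comp (Polynomial.X - Polynomial.C (x : ℚ)) := by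
    rw [minpoly.add_algebraMap, hmin]
  have hdeg : (minpoly ℚ ((θ : F) + algebraMap ℚ F (x : ℚ))).natDegree = 3 := by
    rw [hmin2, Polynomial.natDegree_comp, gcf_deg, Polynomial.natDegree_X_sub_C]
  have hint2 : IsIntegral ℚ ((θ : F) + algebraMap ℚ F (x : ℚ)) := Algebra.IsIntegral.isIntegral _
  have htop : IntermediateField.adjoin ℚ {(θ : F) + algebraMap ℚ F (x : ℚ)} = ⊤ := by
    rw [Field.primitive_element_iff_minpoly_natDegree_eq, hdeg, hF]
  have htop2 : Algebra.adjoin ℚ {(θ : F) + algebraMap ℚ F (x : ℚ)} = ⊤ := by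
    rw [← IntermediateField.adjoin_simple_toSubalgebra_of_isAlgebraic hint2.isAlgebraic, htop]
    rfl
  have h1 := Algebra.PowerBasis.norm_gen_eq_coeff_zero_minpoly
    (PowerBasis.ofAdjoinEqTop' hint2 htop2)
  rw [PowerBasis.ofAdjoinEqTop'_gen, PowerBasis.ofAdjoinEqTop'_dim, hdeg, hmin2,
    Polynomial.coeff_zero_eq_eval_zero, Polynomial.eval_comp] at h1
  apply RingOfIntegers.ext
  rw [RingOfIntegers.coe_norm]
  have e1 : ((θ + (x : 𝓞 F) : 𝓞 F) : F) = (θ : F) + algebraMap ℚ F (x : ℚ) := by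
    change algebraMap (𝓞 F) F (θ + (x : 𝓞 F)) = _
    rw [map_add, map_intCast, map_intCast]
  rw [e1, h1]
  have e2 : (((x ^ 3 - a * x ^ 2 + b * x - c : ℤ) : 𝓞 ℚ) : ℚ) =
      ((x ^ 3 - a * x ^ 2 + b * x - c : ℤ) : ℚ) := by
    change algebraMap (𝓞 ℚ) ℚ _ = _
    rw [map_intCast]
  rw [e2, gcf]
  simp only [Polynomial.eval_add, Polynomial.eval_mul, Polynomial.eval_sub,
    Polynomial.eval_pow, Polynomial.eval_X, Polynomial.eval_C]
  push_cast
  ring

/-- the discriminant of the polynomial -/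
def gcd3 (a b c : ℤ) : ℤ := a ^ 2 * b ^ 2 - 4 * b ^ 3 - 4 * a ^ 3 * c + 18 * a * b * c - 27 * c ^ 2

theorem gc_discr (hF : finrank ℚ F = 3) (hn : NoRoot a b c) (θ : 𝓞 F)
    (h : θ ^ 3 + a * θ ^ 2 + b * θ + c = 0) :
    (∃ B : Basis (Fin 3) ℚ F, Algebra.discr ℚ B = ((gcd3 a b c : ℤ) : ℚ)) ∧
    ∃ i : ℤ, discr F * i ^ 2 = gcd3 a b c := by
  have hnr := hn.not_rat θ h
  set t : F := (θ : F) with ht
  have h3 : t ^ 3 + a * t ^ 2 + b * t + c = 0 := gc_F θ h
  have htop := adjoin_eq_top_of_prime (k := ℚ) (F := F) (by rw [hF]; exact Nat.prime_three) t hnr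
  have hti : IsIntegral ℤ t := RingOfIntegers.isIntegral_coe θ
  have hdeg : (minpoly ℚ t).natDegree = 3 := by
    rw [← IntermediateField.adjoin.finrank (hti.tower_top), htop,
      IntermediateField.finrank_top', hF]
  have hli : LinearIndependent ℚ (fun i : Fin 3 => t ^ (i : ℕ)) := by
    rw [← hdeg]
    exact linearIndependent_pow t
  let B : Basis (Fin 3) ℚ F := basisOfLinearIndependentOfCardEqFinrank hli (by simp [hF])
  have hB : ∀ i : Fin 3, B i = t ^ (i : ℕ) := by intro i; simp [B]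
  have hB0 : B 0 = 1 := by rw [hB]; simp
  have hB1 : B 1 = t := by rw [hB]; simp
  have hB2 : B 2 = t ^ 2 := by rw [hB]; simp
  have tr1 : Algebra.trace ℚ F 1 = 3 := by
    rw [← map_one (algebraMap ℚ F), Algebra.trace_algebraMap, hF]; norm_num
  have e3 : t ^ 3 = -c - b * t - a * t ^ 2 := by linear_combination h3
  have e4 : t ^ 4 = a * c + (a * b - c) * t + (a ^ 2 - b) * t ^ 2 := by
    linear_combination (t - a) * e3
  have trt : Algebra.trace ℚ F t = -a := by
    rw [trace_of_matrix B t ![![0, 1, 0], ![0, 0, 1], ![-(c : ℚ), -(b : ℚ), -(a : ℚ)]]]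
    · simp
    · intro j
      fin_cases j <;>
        simp only [Fin.zero_eta, Fin.mk_one, Fin.reduceFinMk, Fin.sum_univ_three, hB0, hB1, hB2,
          Matrix.cons_val_zero, Matrix.cons_val_one, Matrix.cons_val,
          Algebra.smul_def, map_neg, map_mul, map_pow, map_natCast, map_intCast, map_ofNat,
          map_zero, map_one]
      · ring
      · ring
      · linear_combination e3
  have trt2 : Algebra.trace ℚ F (t ^ 2) = a ^ 2 - 2 * b := by
    rw [trace_of_matrix B (t ^ 2) ![![0, 0, 1], ![-(c : ℚ), -(b : ℚ), -(a : ℚ)],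
      ![(a : ℚ) * c, (a : ℚ) * b - c, (a : ℚ) ^ 2 - b]]]
    · simp only [Matrix.cons_val_zero, Matrix.cons_val_one, Matrix.cons_val]
      ring
    · intro j
      fin_cases j <;>
        simp only [Fin.zero_eta, Fin.mk_one, Fin.reduceFinMk, Fin.sum_univ_three, hB0, hB1, hB2,
          Matrix.cons_val_zero, Matrix.cons_val_one, Matrix.cons_val,
          Algebra.smul_def, map_neg, map_sub, map_mul, map_pow, map_natCast, map_intCast,
          map_ofNat, map_zero, map_one]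
      · ring
      · linear_combination e3
      · linear_combination e4
  have trlin : ∀ u v w : ℚ, Algebra.trace ℚ F (u • 1 + v • t + w • t ^ 2) =
      3 * u - a * v + (a ^ 2 - 2 * b) * w := by
    intro u v w
    rw [map_add, map_add, map_smul, map_smul, map_smul, tr1, trt, trt2, smul_eq_mul, smul_eq_mul,
      smul_eq_mul]
    ring
  have trt3 : Algebra.trace ℚ F (t ^ 3) = -a ^ 3 + 3 * a * b - 3 * c := by
    have : t ^ 3 = (-(c : ℚ)) • (1 : F) + (-(b : ℚ)) • t + (-(a : ℚ)) • t ^ 2 := by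
      rw [e3]
      simp only [Algebra.smul_def, map_neg, map_intCast]
      ring
    rw [this, trlin]; ring
  have trt4 : Algebra.trace ℚ F (t ^ 4) = a ^ 4 - 4 * a ^ 2 * b + 4 * a * c + 2 * b ^ 2 := by
    have : t ^ 4 = ((a : ℚ) * c) • (1 : F) + ((a : ℚ) * b - c) • t +
        ((a : ℚ) ^ 2 - b) • t ^ 2 := by
      rw [e4]
      simp only [Algebra.smul_def, map_sub, map_mul, map_pow, map_intCast]
      ring
    rw [this, trlin]; ring
  have hdisc : Algebra.discr ℚ (fun i : Fin 3 => t ^ (i : ℕ)) = ((gcd3 a b c : ℤ) : ℚ) := by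
    rw [Algebra.discr_def, Matrix.det_fin_three]
    simp only [Algebra.traceMatrix_apply, Algebra.traceForm_apply, Fin.val_zero, Fin.val_one,
      Fin.val_two, pow_zero, pow_one, one_mul, mul_one]
    have s1 : t * t = t ^ 2 := by ring
    have s2 : t * t ^ 2 = t ^ 3 := by ring
    have s3 : t ^ 2 * t = t ^ 3 := by ring
    have s4 : t ^ 2 * t ^ 2 = t ^ 4 := by ring
    rw [s1, s2, s3, s4, tr1, trt, trt2, trt3, trt4, gcd3]
    push_cast
    ring
  refine ⟨⟨B, ?_⟩, ?_⟩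
  · have : (B : Fin 3 → F) = fun i : Fin 3 => t ^ (i : ℕ) := funext hB
    rw [this, hdisc]
  · let Y : Fin 3 → 𝓞 F := fun i => θ ^ (i : ℕ)
    have hY : (fun j => ((Y j : 𝓞 F) : F)) = fun i : Fin 3 => t ^ (i : ℕ) := by
      funext j
      change algebraMap (𝓞 F) F (θ ^ (j : ℕ)) = _
      rw [map_pow]
    obtain ⟨i, hi⟩ := exists_discr_mul_sq Y (by simp [hF])
    rw [hY, hdisc] at hi
    refine ⟨i, ?_⟩
    have h4 : ((gcd3 a b c : ℤ) : ℚ) = ((discr F * i ^ 2 : ℤ) : ℚ) := by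
      rw [← hi]
    exact_mod_cast h4.symm

/-- the discriminant of the polynomial is not zero -/
theorem gc_discr_ne (hF : finrank ℚ F = 3) (hn : NoRoot a b c) (θ : 𝓞 F)
    (h : θ ^ 3 + a * θ ^ 2 + b * θ + c = 0) : gcd3 a b c ≠ 0 := by
  obtain ⟨⟨B, hB⟩, -⟩ := gc_discr hF hn θ h
  have h1 := Algebra.discr_not_zero_of_basis ℚ B
  rw [hB] at h1
  exact_mod_cast h1

/-- the discriminant of the field -/
theorem gc_bound (hF : finrank ℚ F = 3) (hn : NoRoot a b c) (θ : 𝓞 F)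
    (h : θ ^ 3 + a * θ ^ 2 + b * θ + c = 0) : |(discr F : ℝ)| ≤ |((gcd3 a b c : ℤ) : ℝ)| := by
  obtain ⟨-, i, hi⟩ := gc_discr hF hn θ h
  have hi0 : i ≠ 0 := by
    rintro rfl
    exact gc_discr_ne hF hn θ h (by rw [← hi]; ring)
  rw [← hi]
  push_cast
  rw [abs_mul]
  have h3 : (1 : ℝ) ≤ |(i : ℝ) ^ 2| := by
    rw [abs_of_nonneg (sq_nonneg _)]
    have : (1 : ℤ) ≤ i ^ 2 := by
      have : 0 < i ^ 2 := by positivity
      omega
    exact_mod_cast this
  have h4 := abs_nonneg (discr F : ℝ)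
  nlinarith

end Fld

/-- the quadratic field in the closure -/
theorem gc_quad : ∃ C : ℝ, 0 < C ∧ ∀ (a b c : ℤ), NoRoot a b c → ¬ IsSquare (gcd3 a b c) →
    ∀ (F : Type) [Field F] [NumberField F] (θ : 𝓞 F), finrank ℚ F = 3 →
      θ ^ 3 + a * θ ^ 2 + b * θ + c = 0 →
      ∀ (N : IntermediateField ℚ ℂ) [NumberField N] [IsGalois ℚ N] (_ : F →+* N),
        ∃ (Y : IntermediateField ℚ ℂ) (_ : NumberField Y), Y ≤ N ∧ finrank ℚ Y = 2 ∧
          (∃ z : 𝓞 Y, z ^ 2 = ((gcd3 a b c : ℤ) : 𝓞 Y)) ∧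
          |(discr Y : ℝ)| ≤ C * |((gcd3 a b c : ℤ) : ℝ)| := by
  obtain ⟨C, hC, hdisc⟩ := discr_le_of_unit_le ℚ
  refine ⟨C, hC, ?_⟩
  intro a b c hn hsq F _ _ θ hF hθ N _ _ f
  obtain ⟨⟨B, hB⟩, -⟩ := gc_discr hF hn θ hθ
  set e : ℤ := gcd3 a b c with he
  obtain ⟨x, hxN, hx2⟩ := exists_sqrt_discr ℚ F ℂ B
  have hNg : @IsGalois ℚ _ N _ N.algebra' := Mu22.cc_cast _ _ inferInstance
  have hNn : @Normal ℚ N _ _ N.algebra' := hNg.to_normal
  have hcomm : ∀ r : ℚ, f (algebraMap ℚ F r) = (@algebraMap ℚ N _ _ N.algebra') r := by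
    intro r
    rw [eq_ratCast, map_ratCast]
    exact (eq_ratCast (@algebraMap ℚ N _ _ N.algebra') r).symm
  let f' : @AlgHom ℚ F N _ _ _ _ N.algebra' := { f with commutes' := hcomm }
  have hxN' : x ∈ N := by
    have h1 : IntermediateField.normalClosure ℚ F ℂ ≤ N := by
      rw [normalClosure_le_iff]
      intro φ
      exact MuB.cl_le N hNn f' φ
    exact h1 hxN
  have hx2' : x ^ 2 = ((e : ℤ) : ℂ) := by
    rw [hx2, hB]
    simp
  -- not a square
  have hnsq : ∀ q : ℚ, q ^ 2 ≠ ((e : ℤ) : ℚ) := by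
    intro q hq
    have hint : IsIntegral ℤ q := by
      refine IsIntegral.of_pow two_pos ?_
      rw [hq]
      exact isIntegral_algebraMap (R := ℤ) (x := e)
    obtain ⟨m, hm⟩ := IsIntegrallyClosed.isIntegral_iff.mp hint
    rw [← hm] at hq
    have hq' : m ^ 2 = e := by
      simp only [algebraMap_int_eq, eq_intCast] at hq
      exact_mod_cast hq
    exact hsq ⟨m, by rw [← hq']; ring⟩
  have hxint : IsIntegral ℚ x := by
    refine IsIntegral.of_pow two_pos ?_
    rw [hx2, hB]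
    exact isIntegral_algebraMap
  have hmin : minpoly ℚ x = Polynomial.X ^ 2 - Polynomial.C ((e : ℤ) : ℚ) := by
    symm
    apply minpoly.eq_of_irreducible_of_monic
    · exact X_pow_sub_C_irreducible_of_prime Nat.prime_two hnsq
    · rw [map_sub, map_pow, Polynomial.aeval_X, Polynomial.aeval_C, hx2, hB, sub_self]
    · exact Polynomial.monic_X_pow_sub_C _ two_ne_zero
  set Y : IntermediateField ℚ ℂ := IntermediateField.adjoin ℚ {x} with hY
  have hYN : Y ≤ N := by
    rw [hY, IntermediateField.adjoin_simple_le_iff]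
    exact hxN'
  have hY2 : finrank ℚ Y = 2 := by
    rw [hY, IntermediateField.adjoin.finrank hxint, hmin, Polynomial.natDegree_X_pow_sub_C]
  have hYf : FiniteDimensional ℚ Y := FiniteDimensional.of_finrank_pos (by rw [hY2]; norm_num)
  have hYn : NumberField Y := NumberField.of_module_finite ℚ _
  obtain ⟨xx, hxx⟩ : ∃ xx : Y, (xx : ℂ) = x :=
    ⟨⟨x, IntermediateField.mem_adjoin_simple_self ℚ x⟩, rfl⟩
  have hxx2 : xx ^ 2 = ((e : ℤ) : Y) := by
    apply Subtype.ext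
    push_cast
    rw [hxx, hx2']
  have hxxi : IsIntegral ℤ xx := by
    refine IsIntegral.of_pow two_pos ?_
    rw [hxx2]
    exact isIntegral_algebraMap (R := ℤ) (x := e)
  obtain ⟨z, hz⟩ : ∃ z : 𝓞 Y, (z : Y) = xx := ⟨⟨xx, hxxi⟩, rfl⟩
  have hYR : finrank ℚ Y = 2 := hY2
  refine ⟨Y, hYn, hYN, hYR, ⟨z, ?_⟩, ?_⟩
  · apply RingOfIntegers.ext
    change algebraMap (𝓞 Y) Y (z ^ 2) = algebraMap (𝓞 Y) Y ((e : ℤ) : 𝓞 Y)
    rw [map_pow, map_intCast]
    change (z : Y) ^ 2 = _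
    rw [hz, hxx2]
  · set D : ℝ := |((e : ℤ) : ℝ)| with hD
    have he0 : e ≠ 0 := by
      intro h0
      exact hnsq 0 (by rw [h0]; norm_num)
    have hD1 : 1 ≤ D := by
      rw [hD, ← Int.cast_abs]
      exact_mod_cast Int.one_le_abs he0
    have hzr : (z : Y) ∉ Set.range (algebraMap ℚ Y) := by
      rintro ⟨q, hq⟩
      rw [hz] at hq
      apply hnsq q
      have h1 : algebraMap ℚ Y (q ^ 2) = algebraMap ℚ Y ((e : ℤ) : ℚ) := by
        rw [map_pow, hq, hxx2, map_intCast]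
      exact (algebraMap ℚ Y).injective h1
    have h1 := hdisc Y hYR z hzr (√D) (by rw [Real.one_le_sqrt]; exact hD1) (by
      intro w
      apply Real.le_sqrt_of_sq_le
      rw [← map_pow, hz, hxx2, InfinitePlace.map_intCast, Int.norm_eq_abs])
    rw [finrank_self] at h1
    have h2 : √D ^ (2 * 1) = D := by
      rw [mul_one, Real.sq_sqrt (by linarith)]
    rw [h2] at h1
    exact h1

/-- growth -/
theorem gc_growth (C c δ : ℝ) (hc : 0 < c) (hδ : 0 < δ) : ∃ p0 : ℕ, ∀ p : ℕ, p0 ≤ p → 1 ≤ p →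
    C * (p : ℝ) ^ (2 - δ) ≤ c * (p : ℝ) ^ 2 * (1 + Real.log p) ^ (-2 : ℤ) := by
  set K : ℝ := (1 + 4 / δ) ^ 2 * |C| / c with hK
  have hK0 : 0 ≤ K := by positivity
  obtain ⟨n0, hn0⟩ := exists_nat_ge (K ^ (2 / δ))
  refine ⟨n0, fun p hp hp1 => ?_⟩
  have hp1' : (1 : ℝ) ≤ p := by exact_mod_cast hp1
  have hp0 : (0 : ℝ) < p := by linarith
  have hlog0 : 0 ≤ Real.log p := Real.log_nonneg hp1'
  have hlog : Real.log p ≤ (4 / δ) * (p : ℝ) ^ (δ / 4) := by
    have := Real.log_le_rpow_div hp0.le (show (0 : ℝ) < δ / 4 by positivity)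
    calc Real.log p ≤ (p : ℝ) ^ (δ / 4) / (δ / 4) := this
      _ = (4 / δ) * (p : ℝ) ^ (δ / 4) := by field_simp
  have hq1 : (1 : ℝ) ≤ (p : ℝ) ^ (δ / 4) := Real.one_le_rpow hp1' (by positivity)
  have h1 : (1 + Real.log p) ^ 2 ≤ (1 + 4 / δ) ^ 2 * (p : ℝ) ^ (δ / 2) := by
    have h2 : 1 + Real.log p ≤ (1 + 4 / δ) * (p : ℝ) ^ (δ / 4) := by
      have : (1 + 4 / δ) * (p : ℝ) ^ (δ / 4) = (p : ℝ) ^ (δ / 4) + (4 / δ) * (p : ℝ) ^ (δ / 4) := by
        ring
      linarith
    calc (1 + Real.log p) ^ 2 ≤ ((1 + 4 / δ) * (p : ℝ) ^ (δ / 4)) ^ 2 :=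
          pow_le_pow_left₀ (by linarith) h2 2
      _ = (1 + 4 / δ) ^ 2 * ((p : ℝ) ^ (δ / 4) * (p : ℝ) ^ (δ / 4)) := by ring
      _ = (1 + 4 / δ) ^ 2 * (p : ℝ) ^ (δ / 2) := by
          rw [← Real.rpow_add hp0]
          ring_nf
  have h3 : (1 + 4 / δ) ^ 2 * |C| ≤ c * (p : ℝ) ^ (δ / 2) := by
    have h4 : K ^ (2 / δ) ≤ p := hn0.trans (by exact_mod_cast hp)
    have h5 : K ≤ (p : ℝ) ^ (δ / 2) := by
      calc K = (K ^ (2 / δ)) ^ (δ / 2) := by
            rw [← Real.rpow_mul hK0]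
            have : 2 / δ * (δ / 2) = 1 := by field_simp
            rw [this, Real.rpow_one]
        _ ≤ (p : ℝ) ^ (δ / 2) := Real.rpow_le_rpow (by positivity) h4 (by positivity)
    rw [hK, div_le_iff₀ hc] at h5
    linarith
  rw [zpow_neg, ← div_eq_mul_inv, le_div_iff₀ (by positivity)]
  have h7 : (1 + Real.log p) ^ (2 : ℤ) = (1 + Real.log p) ^ 2 := by norm_cast
  rw [h7]
  have h8 : (p : ℝ) ^ (2 - δ) * ((p : ℝ) ^ (δ / 2) * (p : ℝ) ^ (δ / 2)) = (p : ℝ) ^ 2 := by
    rw [← Real.rpow_add hp0, ← Real.rpow_add hp0, ← Real.rpow_natCast]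
    congr 1
    push_cast
    ring
  calc C * (p : ℝ) ^ (2 - δ) * (1 + Real.log p) ^ 2
      ≤ |C| * (p : ℝ) ^ (2 - δ) * ((1 + 4 / δ) ^ 2 * (p : ℝ) ^ (δ / 2)) := by
        gcongr
        exact le_abs_self C
    _ = ((1 + 4 / δ) ^ 2 * |C|) * ((p : ℝ) ^ (2 - δ) * (p : ℝ) ^ (δ / 2)) := by ring
    _ ≤ (c * (p : ℝ) ^ (δ / 2)) * ((p : ℝ) ^ (2 - δ) * (p : ℝ) ^ (δ / 2)) := by
        gcongr
    _ = c * ((p : ℝ) ^ (2 - δ) * ((p : ℝ) ^ (δ / 2) * (p : ℝ) ^ (δ / 2))) := by ring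
    _ = c * (p : ℝ) ^ 2 := by rw [h8]

/-- class numbers of quadratic and cubic fields of discriminant `O(p ^ (2 - δ))` -/
theorem gc_class (d : ℕ) (hd : d = 2 ∨ d = 3) (C δ : ℝ) (hδ : 0 < δ) :
    ∃ p0 : ℕ, ∀ p : ℕ, p.Prime → p0 ≤ p →
    ∀ (F : Type) [Field F] [NumberField F], finrank ℚ F = d →
      |(discr F : ℝ)| ≤ C * (p : ℝ) ^ (2 - δ) → ¬ p ∣ Nat.card (ClassGroup (𝓞 F)) := by
  have hdp : d.Prime := by
    rcases hd with rfl | rfl
    · exact Nat.prime_two
    · exact Nat.prime_three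
  obtain ⟨c, hc, h⟩ := not_dvd_gen ℚ d
  obtain ⟨p0, hp0⟩ := gc_growth C c δ hc hδ
  refine ⟨p0, fun p hp hpp F _ _ hF hD => ?_⟩
  refine h F p hp hF (fun u hu => adjoin_eq_top_of_prime (by rw [hF]; exact hdp) u hu) ?_
  refine hD.trans ((hp0 p hpp hp.one_lt.le).trans ?_)
  have hrQ : Units.rank ℚ = 0 := by
    rw [rank_of_totallyReal, finrank_self]
  have hp1 : (1 : ℝ) ≤ p := by exact_mod_cast hp.one_lt.le
  have hr : (d : ℤ) ≤ Units.rank F + 2 := by
    have h1 := InfinitePlace.card_add_two_mul_card_eq_rank F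
    have h2 := InfinitePlace.card_eq_nrRealPlaces_add_nrComplexPlaces F
    have h3 : Units.rank F = Fintype.card (InfinitePlace F) - 1 := rfl
    rw [hF] at h1
    have h4 : Units.rank F + 2 ≥ d := by
      rw [h3, h2]
      rcases hd with rfl | rfl <;> omega
    exact_mod_cast h4
  refine mul_le_mul_of_nonneg_left ?_ (by positivity)
  refine zpow_le_zpow_right₀ ?_ ?_
  · have := Real.log_nonneg hp1
    linarith
  · rw [hrQ]
    push_cast
    linarith

end Pool.Agent.Work.MuS
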