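import Pool.Agent.Work.MP_a4986b_nt.SpW3

set_option autoImplicit false
set_option maxHeartbeats 400000

/-! # Split primes, part U: the cubic fields `θ (θ² + 2tθ - m t²) = p`, residue degrees 1 and 2 -/

namespace Pool.Agent.Work.MuS

open NumberField Module IsDedekindDomain
open scoped nonZeroDivisors Pointwise
open Pool.Agent.Work.MuB

/-- the least quadratic nonresidue -/
theorem exists_nonres {p : ℕ} (hp : p.Prime) (hp3 : 3 ≤ p) : ∃ q : ℕ, 2 ≤ q ∧ (q - 1) ^ 2 ≤ p ∧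
    q < p ∧ ¬ IsSquare ((q : ℕ) : ZMod p) := by
  classical
  have hpf : Fact p.Prime := ⟨hp⟩
  have hex : ∃ q : ℕ, ¬ IsSquare ((q : ℕ) : ZMod p) := by
    have hodd : ringChar (ZMod p) ≠ 2 := by
      rw [ZMod.ringChar_zmod_n]; omega
    obtain ⟨y, hy⟩ := FiniteField.exists_nonsquare hodd
    refine ⟨y.val, ?_⟩
    rwa [ZMod.natCast_zmod_val]
  set q := Nat.find hex with hq
  have hqs : ¬ IsSquare ((q : ℕ) : ZMod p) := Nat.find_spec hex
  have hmin : ∀ n : ℕ, n < q → IsSquare ((n : ℕ) : ZMod p) := by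
    intro n hn
    have := Nat.find_min hex hn
    push Not at this
    exact this
  have hq0 : q ≠ 0 := by
    intro h
    apply hqs
    rw [h]
    simp
  have hq1 : q ≠ 1 := by
    intro h
    apply hqs
    rw [h]
    simp
  have hq2 : 2 ≤ q := by omega
  have hqp : q < p := by
    by_contra h
    push Not at h
    have h1 : (((q % p : ℕ)) : ZMod p) = (q : ZMod p) := by
      rw [ZMod.natCast_mod]
    rcases lt_or_ge (q % p) q with h2 | h2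
    · apply hqs
      rw [← h1]
      exact hmin _ h2
    · have := Nat.mod_lt q hp.pos
      omega
  refine ⟨q, hq2, ?_, hqp, hqs⟩
  set k := p / q + 1 with hk
  have hmod : 0 < p % q := by
    rcases Nat.eq_zero_or_pos (p % q) with h | h
    · have h1 : q ∣ p := Nat.dvd_of_mod_eq_zero h
      rcases (Nat.dvd_prime hp).1 h1 with h2 | h2 <;> omega
    · exact h
  have hdm := Nat.div_add_mod p q
  have hml := Nat.mod_lt p (show 0 < q by omega)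
  have hkq : k * q = p + (q - p % q) := by
    rw [hk, add_mul, one_mul, mul_comm (p / q) q]
    omega
  have hkge : q ≤ k := by
    by_contra hlt
    push Not at hlt
    have s1 := hmin k hlt
    have s2 := hmin (q - p % q) (Nat.sub_lt (by omega) hmod)
    have hk0 : ((k : ℕ) : ZMod p) ≠ 0 := by
      rw [Ne, ZMod.natCast_eq_zero_iff]
      intro h
      have := Nat.le_of_dvd (Nat.succ_pos _) h
      omega
    apply hqs
    have h1 : ((k : ℕ) : ZMod p) * ((q : ℕ) : ZMod p) = ((q - p % q : ℕ) : ZMod p) := by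
      rw [← Nat.cast_mul, hkq, Nat.cast_add, ZMod.natCast_self, zero_add]
    have h2 : ((q : ℕ) : ZMod p) = ((q - p % q : ℕ) : ZMod p) / ((k : ℕ) : ZMod p) := by
      rw [eq_div_iff hk0, mul_comm, h1]
    rw [h2]
    exact s2.div s1
  have h3 : (q - 1) * q ≤ p := by
    have h4 : q - 1 ≤ p / q := by
      rw [hk] at hkge
      omega
    calc (q - 1) * q ≤ p / q * q := Nat.mul_le_mul_right q h4
      _ ≤ p := Nat.div_mul_le_self p q
  calc (q - 1) ^ 2 = (q - 1) * (q - 1) := by ring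
    _ ≤ (q - 1) * q := Nat.mul_le_mul_left _ (by omega)
    _ ≤ p := h3

theorem isSquare_of_dvd {p : ℕ} {u v : ℤ} (h : (p : ℤ) ∣ u ^ 2 - v) : IsSquare (v : ZMod p) := by
  have h1 := (ZMod.intCast_zmod_eq_zero_iff_dvd _ p).2 h
  push_cast at h1
  exact ⟨(u : ZMod p), by linear_combination -h1⟩

section ON

variable {F : Type*} [Field F] [NumberField F] {p : ℕ} {m t : ℤ} {θ : 𝓞 F}

theorem on_noroot (hp : p.Prime) (hm : 0 < m) (ht : 0 < t) (hs : m * t ^ 2 + 2 * t + 1 < p) :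
    NoRoot (2 * t) (-m * t ^ 2) (-p) := by
  intro r hr
  have hpi := Nat.prime_iff_prime_int.mp hp
  have hp0 : (0 : ℤ) < p := by exact_mod_cast hp.pos
  have hmt : 0 < m * t ^ 2 := by positivity
  have h1 : r * (r ^ 2 + 2 * t * r - m * t ^ 2) = p := by linear_combination hr
  rcases hpi.irreducible.isUnit_or_isUnit h1.symm with h2 | h2
  · rcases Int.isUnit_iff.mp h2 with rfl | rfl
    · nlinarith
    · nlinarith
  · have h3 : r = p ∨ r = -p := by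
      rcases Int.isUnit_iff.mp h2 with h4 | h4
      · left; rw [h4, mul_one] at h1; exact h1
      · right; rw [h4] at h1; linarith
    have h4 : r ^ 2 + 2 * t * r - m * t ^ 2 ≤ 1 := by
      rcases Int.isUnit_iff.mp h2 with h4 | h4 <;> omega
    rcases h3 with rfl | rfl
    · nlinarith
    · nlinarith

theorem on_cubic (hθ : θ * (θ ^ 2 + 2 * (t : 𝓞 F) * θ - (m : 𝓞 F) * (t : 𝓞 F) ^ 2) = p) :
    θ ^ 3 + ((2 * t : ℤ) : 𝓞 F) * θ ^ 2 + ((-m * t ^ 2 : ℤ) : 𝓞 F) * θ + ((-p : ℤ) : 𝓞 F) = 0 := by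
  push_cast
  linear_combination hθ

theorem on_norm (h3 : finrank ℚ F = 3) (hn : NoRoot (2 * t) (-m * t ^ 2) (-p))
    (hθ : θ * (θ ^ 2 + 2 * (t : 𝓞 F) * θ - (m : 𝓞 F) * (t : 𝓞 F) ^ 2) = p) :
    RingOfIntegers.norm ℚ θ = (p : 𝓞 ℚ) := by
  have h1 := gc_norm h3 hn θ (on_cubic hθ) 0
  rw [Int.cast_zero, add_zero] at h1
  rw [h1]
  push_cast
  ring

theorem on_cop (hp : p.Prime) (hmt : ¬ (p : ℤ) ∣ m * t ^ 2)
    (hθ : θ * (θ ^ 2 + 2 * (t : 𝓞 F) * θ - (m : 𝓞 F) * (t : 𝓞 F) ^ 2) = p) :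
    IsCoprime θ (θ ^ 2 + 2 * (t : 𝓞 F) * θ - (m : 𝓞 F) * (t : 𝓞 F) ^ 2) := by
  have hpi := Nat.prime_iff_prime_int.mp hp
  obtain ⟨r, s, hrs⟩ : IsCoprime (m * t ^ 2) (p : ℤ) :=
    ((Prime.coprime_iff_not_dvd hpi).2 hmt).symm
  have e : (r : 𝓞 F) * ((m : 𝓞 F) * (t : 𝓞 F) ^ 2) + (s : 𝓞 F) * (p : 𝓞 F) = 1 := by
    exact_mod_cast congrArg (Int.cast : ℤ → 𝓞 F) hrs
  refine ⟨(r : 𝓞 F) * (θ + 2 * t) +
    s * (θ ^ 2 + 2 * (t : 𝓞 F) * θ - (m : 𝓞 F) * (t : 𝓞 F) ^ 2), -(r : 𝓞 F), ?_⟩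
  linear_combination e + (s : 𝓞 F) * hθ

/-- **the data** -/
theorem on_gross (h3 : finrank ℚ F = 3) (hp : p.Prime) (hp5 : 5 ≤ p) (hm : ¬ (p : ℤ) ∣ m)
    (ht : ¬ (p : ℤ) ∣ t) (hn : NoRoot (2 * t) (-m * t ^ 2) (-p))
    (hθ : θ * (θ ^ 2 + 2 * (t : 𝓞 F) * θ - (m : 𝓞 F) * (t : 𝓞 F) ^ 2) = p)
    (hgood : fq p m + 2 * fq p t ≠ 2 * ((m : ZMod p)⁻¹) ^ 2 * ((t : ZMod p)⁻¹) ^ 3) :
    ∃ (A B : Fin 1 → Ideal (𝓞 F)) (γ : Fin 1 → 𝓞 F) (c : Fin 1 → Fin 1 → ℤ),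
      GrossData p A B γ c := by
  have hpf : Fact p.Prime := ⟨hp⟩
  have hpi := Nat.prime_iff_prime_int.mp hp
  have hp0 : (p : ℤ) ≠ 0 := by exact_mod_cast hp.ne_zero
  have n1 := on_norm h3 hn hθ
  have ht2 : ¬ (p : ℤ) ∣ t ^ 2 := fun h => ht (hpi.dvd_of_dvd_pow h)
  have hmt : ¬ (p : ℤ) ∣ m * t ^ 2 := fun h => (hpi.dvd_or_dvd h).elim hm ht2
  have hmt' : ¬ (p : ℤ) ∣ -(m * t ^ 2) := by rwa [dvd_neg]
  have c1 := on_cop hp hmt hθ
  set β : 𝓞 F := θ ^ 2 + 2 * (t : 𝓞 F) * θ - (m : 𝓞 F) * (t : 𝓞 F) ^ 2 with hβ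
  have hθ1 : β * θ = p := by rw [mul_comm]; exact hθ
  obtain ⟨s1, d1⟩ := loc_int hp n1 hθ1 c1
  obtain ⟨b1, hb1⟩ := s1 2 θ
  have hb1p : (p : ℤ) ∣ b1 := by
    have h1 : θ ^ 1 ∣ (b1 : 𝓞 F) := by
      have h2 : θ ^ 1 ∣ θ - (b1 : 𝓞 F) := (pow_dvd_pow θ (by norm_num)).trans hb1
      have h4 : θ ^ 1 ∣ θ := by rw [pow_one]
      have h5 := dvd_sub h4 h2
      rwa [sub_sub_cancel] at h5
    simpa using d1 1 b1 h1
  obtain ⟨k1, rfl⟩ := hb1p
  have hk1 : (p : ℤ) ∣ m * t ^ 2 * k1 + 1 := by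
    have h1 : θ ^ 2 ∣ (((p * k1) * ((p * k1) ^ 2 + 2 * t * (p * k1) - m * t ^ 2) - p : ℤ) :
        𝓞 F) := by
      have h2 : θ - ((p * k1 : ℤ) : 𝓞 F) ∣
          (((p * k1) * ((p * k1) ^ 2 + 2 * t * (p * k1) - m * t ^ 2) - p : ℤ) : 𝓞 F) := by
        refine ⟨-(θ ^ 2 + θ * ((p * k1 : ℤ) : 𝓞 F) + ((p * k1 : ℤ) : 𝓞 F) ^ 2 +
          2 * (t : 𝓞 F) * (θ + ((p * k1 : ℤ) : 𝓞 F)) - (m : 𝓞 F) * (t : 𝓞 F) ^ 2), ?_⟩
        rw [hβ] at hθ
        push_cast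
        linear_combination hθ
      exact hb1.trans h2
    obtain ⟨n, hn'⟩ := d1 2 _ h1
    have h4 : k1 * ((p * k1) ^ 2 + 2 * t * (p * k1) - m * t ^ 2) - 1 = (p : ℤ) * n := by
      apply mul_left_cancel₀ hp0
      linear_combination hn'
    refine ⟨k1 * (p * k1 ^ 2 + 2 * t * k1) - n, ?_⟩
    linear_combination -h4
  -- the local norm
  have hγ : θ ^ 2 ∣ β - ((-(m * t ^ 2) + p * (2 * t * k1) : ℤ) : 𝓞 F) := by
    have e : β - ((-(m * t ^ 2) + p * (2 * t * k1) : ℤ) : 𝓞 F) =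
        θ ^ 2 + 2 * (t : 𝓞 F) * (θ - ((p * k1 : ℤ) : 𝓞 F)) := by
      rw [hβ]; push_cast; ring
    rw [e]
    exact dvd_add dvd_rfl (hb1.mul_left _)
  have hpb : ¬ (p : ℤ) ∣ -(m * t ^ 2) + p * (2 * t * k1) := by
    intro h
    have h4 := dvd_sub h (dvd_mul_right (p : ℤ) (2 * t * k1))
    rw [add_sub_cancel_right] at h4
    exact hmt' h4
  obtain ⟨c, m0, q0, e0⟩ := normAt_of_crt hp n1 hθ1 c1 (γ := β) (b := _)
    (c := -(m * t ^ 2) + p * (2 * t * k1)) (M := 2) (V := 0) (by norm_num) hγ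
    (by rw [pow_zero, one_mul]) hpb
  set i : ZMod p := ((t : ZMod p))⁻¹ with hi
  set j : ZMod p := ((m : ZMod p))⁻¹ with hj
  have htz : (t : ZMod p) ≠ 0 := by
    rw [Ne, ZMod.intCast_zmod_eq_zero_iff_dvd]
    exact ht
  have hmz : (m : ZMod p) ≠ 0 := by
    rw [Ne, ZMod.intCast_zmod_eq_zero_iff_dvd]
    exact hm
  have hit : (t : ZMod p) * i = 1 := mul_inv_cancel₀ htz
  have hjm : (m : ZMod p) * j = 1 := mul_inv_cancel₀ hmz
  have hk1z : (k1 : ZMod p) = -(j * i ^ 2) := by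
    rw [← ZMod.intCast_zmod_eq_zero_iff_dvd] at hk1
    push_cast at hk1
    have h4 : (m : ZMod p) * (t : ZMod p) ^ 2 * (k1 : ZMod p) = -1 := by linear_combination hk1
    calc (k1 : ZMod p) = ((m : ZMod p) * j) * ((t : ZMod p) * i) ^ 2 * (k1 : ZMod p) := by
          rw [hit, hjm]; ring
      _ = ((m : ZMod p) * (t : ZMod p) ^ 2 * (k1 : ZMod p)) * (j * i ^ 2) := by ring
      _ = -(j * i ^ 2) := by rw [h4]; ring
  have f0 : fq p c = fq p m + 2 * fq p t - 2 * j ^ 2 * i ^ 3 := by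
    have h1 : ((-(m * t ^ 2) : ℤ) : ZMod p)⁻¹ = -(j * i ^ 2) := by
      push_cast
      rw [inv_neg, mul_inv, ← _root_.inv_pow]
    rw [fq_congr hp hpb e0, fq_add hp hmt', fq_neg hp (by omega), fq_mul hp hm ht2, fq_pow hp ht,
      h1]
    push_cast
    rw [hk1z]
    linear_combination (-2 * j ^ 2 * i ^ 3) * hit
  refine ⟨fun _ => Ideal.span {θ}, fun _ => Ideal.span {β}, fun _ => β, fun _ _ => c,
    fun _ => ?_, fun _ => ?_, fun _ => ⟨1, θ, by rw [pow_one, hθ1]⟩, fun _ _ => m0, ?_⟩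
  · rw [Ideal.span_singleton_mul_span_singleton, mul_comm, hθ1]
  · rw [← Ideal.isCoprime_iff_sup_eq, Ideal.isCoprime_span_singleton_iff]
    exact c1
  · apply nondeg_of_det hp
    · exact fun _ _ => q0
    · rw [Matrix.det_fin_one]
      change fq p c ≠ 0
      rw [f0]
      intro hd
      apply hgood
      linear_combination hd

/-- the two primes above `p` -/
theorem on_primes (h3 : finrank ℚ F = 3) (hp : p.Prime) (hm : ¬ (p : ℤ) ∣ m)
    (ht : ¬ (p : ℤ) ∣ t) (hn : NoRoot (2 * t) (-m * t ^ 2) (-p))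
    (hq : ¬ IsSquare ((m + 1 : ℤ) : ZMod p))
    (hθ : θ * (θ ^ 2 + 2 * (t : 𝓞 F) * θ - (m : 𝓞 F) * (t : 𝓞 F) ^ 2) = p) :
    {P : Ideal (𝓞 F) | P.IsPrime ∧ (p : 𝓞 F) ∈ P}.ncard = 2 ∧
      ∃ P Q : Ideal (𝓞 F), P.IsPrime ∧ Q.IsPrime ∧ P ≠ Q ∧ Ideal.span {(p : 𝓞 F)} = P * Q := by
  have hpf : Fact p.Prime := ⟨hp⟩
  have hpi : Prime (p : ℤ) := Nat.prime_iff_prime_int.1 hp
  have n1 := norm_Z_of_Q (on_norm h3 hn hθ)
  have ht2 : ¬ (p : ℤ) ∣ t ^ 2 := fun h => ht (hpi.dvd_of_dvd_pow h)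
  have hmt : ¬ (p : ℤ) ∣ m * t ^ 2 := fun h => (hpi.dvd_or_dvd h).elim hm ht2
  have c1 := on_cop hp hmt hθ
  set β : 𝓞 F := θ ^ 2 + 2 * (t : 𝓞 F) * θ - (m : 𝓞 F) * (t : 𝓞 F) ^ 2 with hβ
  have hP1 := isPrime_span_of_norm hp θ n1
  have hp0 : (p : 𝓞 F) ≠ 0 := by exact_mod_cast hp.ne_zero
  have hmem1 : (p : 𝓞 F) ∈ Ideal.span {θ} := by
    rw [Ideal.mem_span_singleton, ← hθ]
    exact Dvd.intro _ rfl
  have hmem2 : (p : 𝓞 F) ∈ Ideal.span {β} := by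
    rw [Ideal.mem_span_singleton, ← hθ]
    exact Dvd.intro_left _ rfl
  have hm1 : (Ideal.span {θ}).IsMaximal :=
    hP1.isMaximal (fun h => hp0 (by rw [h] at hmem1; simpa using hmem1))
  -- the norm of `β`
  have nβ : Ideal.absNorm (Ideal.span {β}) = p ^ 2 := by
    have h1 : Algebra.norm ℤ θ * Algebra.norm ℤ β = (p : ℤ) ^ 3 := by
      rw [← map_mul, hθ]
      have e2 := Algebra.norm_algebraMap (R := ℤ) (S := 𝓞 F) (p : ℤ)
      rw [RingOfIntegers.rank, h3] at e2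
      rw [← e2]
      simp
    rw [n1] at h1
    have h2 : Algebra.norm ℤ β = (p : ℤ) ^ 2 := by
      apply mul_left_cancel₀ (show (p : ℤ) ≠ 0 by exact_mod_cast hp.ne_zero)
      rw [h1]; ring
    rw [Ideal.absNorm_span_singleton, h2]
    norm_cast
  have hβ1 : ¬ IsUnit β := by
    intro h
    have h1 : Ideal.span {β} = ⊤ := Ideal.span_singleton_eq_top.2 h
    rw [h1, Ideal.absNorm_top] at nβ
    have := Nat.one_lt_pow two_ne_zero hp.one_lt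
    omega
  -- a prime containing `β`
  have hlarge : ∀ Q : Ideal (𝓞 F), Q.IsPrime → β ∈ Q → Q = Ideal.span {β} := by
    intro Q hQ hβQ
    have hdvd : Q ∣ Ideal.span {β} := Ideal.dvd_span_singleton.2 hβQ
    have hdvd2 := map_dvd (Ideal.absNorm (S := 𝓞 F)) hdvd
    rw [nβ] at hdvd2
    obtain ⟨k, hk, hQk⟩ := (Nat.dvd_prime_pow hp).1 hdvd2
    have hpQ : (p : 𝓞 F) ∈ Q := by
      rw [← hθ]
      exact Q.mul_mem_left _ hβQ
    obtain ⟨C, hC⟩ := hdvd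
    have hk0 : k ≠ 0 := by
      rintro rfl
      rw [pow_zero, Ideal.absNorm_eq_one_iff] at hQk
      exact hQ.ne_top hQk
    have hk1 : k ≠ 1 := by
      rintro rfl
      rw [pow_one] at hQk
      obtain ⟨n, hn1⟩ := exists_nat_of_absNorm hp hQk θ
      have h1 : (((n + t) ^ 2 - (m + 1) * t ^ 2 : ℤ) : 𝓞 F) ∈ Q := by
        have e : (((n + t) ^ 2 - (m + 1) * t ^ 2 : ℤ) : 𝓞 F) =
            β - (θ - (n : 𝓞 F)) * (θ + (n : 𝓞 F) + 2 * (t : 𝓞 F)) := by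
          rw [hβ]; push_cast; ring
        rw [e]
        exact Q.sub_mem hβQ (Q.mul_mem_right _ hn1)
      have h2 : (p : ℤ) ∣ (n + t) ^ 2 - (m + 1) * t ^ 2 := by
        by_contra hnd
        obtain ⟨r, s, hrs⟩ := (Prime.coprime_iff_not_dvd hpi).2 hnd
        have hrsF : (r : 𝓞 F) * (p : 𝓞 F) +
            (s : 𝓞 F) * (((n + t) ^ 2 - (m + 1) * t ^ 2 : ℤ) : 𝓞 F) = 1 := by
          exact_mod_cast congrArg (Int.cast : ℤ → 𝓞 F) hrs
        apply hQ.ne_top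
        rw [Ideal.eq_top_iff_one, ← hrsF]
        exact Q.add_mem (Q.mul_mem_left _ hpQ) (Q.mul_mem_left _ h1)
      have h4 := isSquare_of_dvd h2
      apply hq
      have htz : (t : ZMod p) ≠ 0 := by
        rw [Ne, ZMod.intCast_zmod_eq_zero_iff_dvd]
        exact ht
      have h5 : ((m + 1 : ℤ) : ZMod p) = (((m + 1) * t ^ 2 : ℤ) : ZMod p) / (t : ZMod p) ^ 2 := by
        push_cast
        rw [mul_div_cancel_right₀ _ (pow_ne_zero 2 htz)]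
      rw [h5]
      exact h4.div ⟨(t : ZMod p), by ring⟩
    have hk2 : k = 2 := by omega
    subst hk2
    have h6 := congrArg (Ideal.absNorm (S := 𝓞 F)) hC
    rw [map_mul, nβ, hQk] at h6
    have h7 : Ideal.absNorm C = 1 := by
      have h8 : p ^ 2 * Ideal.absNorm C = p ^ 2 * 1 := by rw [mul_one]; exact h6.symm
      exact Nat.eq_of_mul_eq_mul_left (pow_pos hp.pos 2) h8
    rw [hC, Ideal.absNorm_eq_one_iff.1 h7, Ideal.mul_top]
  obtain ⟨M, hM, hβM⟩ := exists_max_ideal_of_mem_nonunits hβ1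
  have hMβ := hlarge M hM.isPrime hβM
  have hP2 : (Ideal.span {β}).IsPrime := by rw [← hMβ]; exact hM.isPrime
  have hset : {P : Ideal (𝓞 F) | P.IsPrime ∧ (p : 𝓞 F) ∈ P} =
      {Ideal.span {θ}, Ideal.span {β}} := by
    ext Q
    simp only [Set.mem_ofPred_eq, Set.mem_insert_iff, Set.mem_singleton_iff]
    constructor
    · rintro ⟨hQ, hpQ⟩
      rw [← hθ] at hpQ
      rcases hQ.mem_or_mem hpQ with h | h
      · left
        exact (hm1.eq_of_le hQ.ne_top ((Ideal.span_singleton_le_iff_mem _).2 h)).symm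
      · right
        exact hlarge Q hQ h
    · rintro (rfl | rfl)
      · exact ⟨hP1, hmem1⟩
      · exact ⟨hP2, hmem2⟩
  have hne : Ideal.span {θ} ≠ Ideal.span {β} := by
    intro h
    rw [← Ideal.isCoprime_span_singleton_iff, h, Ideal.isCoprime_iff_sup_eq, sup_idem] at c1
    exact hP2.ne_top c1
  refine ⟨by rw [hset, Set.ncard_pair hne], _, _, hP1, hP2, hne, ?_⟩
  rw [Ideal.span_singleton_mul_span_singleton, hθ]

end ON

/-- one prime above `p` in a quadratic field with a root of a nonresidue -/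
theorem onePrime_nonres {Y : Type*} [Field Y] [NumberField Y] {p : ℕ} (hp : p.Prime)
    (hY : finrank ℚ Y = 2) (z : 𝓞 Y) {e : ℤ} (hz : z ^ 2 = (e : 𝓞 Y))
    (he : ¬ IsSquare ((e : ℤ) : ZMod p)) : Mu22.OnePrime p Y := by
  have hpi : Prime (p : ℤ) := Nat.prime_iff_prime_int.1 hp
  intro P Q hP hQ hpP hpQ
  by_contra hne
  have hn : ∀ R : Ideal (𝓞 Y), R.IsPrime → (p : 𝓞 Y) ∈ R → p ^ 2 ∣ Ideal.absNorm R := by
    intro R hR hpR
    obtain ⟨f, hf, hRf⟩ := MuI.exists_norm_eq p hp R hR hpR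
    have hf1 : f ≠ 1 := by
      rintro rfl
      rw [pow_one] at hRf
      obtain ⟨n, hn1⟩ := exists_nat_of_absNorm hp hRf z
      have h1 : (((n : ℤ) ^ 2 - e : ℤ) : 𝓞 Y) ∈ R := by
        have e1 : (((n : ℤ) ^ 2 - e : ℤ) : 𝓞 Y) = -((z - (n : 𝓞 Y)) * (z + (n : 𝓞 Y))) := by
          push_cast
          linear_combination hz
        rw [e1]
        exact R.neg_mem (R.mul_mem_right _ hn1)
      apply he
      apply isSquare_of_dvd (u := (n : ℤ))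
      by_contra hnd
      obtain ⟨r, s, hrs⟩ := (Prime.coprime_iff_not_dvd hpi).2 hnd
      have hrsF : (r : 𝓞 Y) * (p : 𝓞 Y) + (s : 𝓞 Y) * (((n : ℤ) ^ 2 - e : ℤ) : 𝓞 Y) = 1 := by
        exact_mod_cast congrArg (Int.cast : ℤ → 𝓞 Y) hrs
      apply hR.ne_top
      rw [Ideal.eq_top_iff_one, ← hrsF]
      exact R.add_mem (R.mul_mem_left _ hpR) (R.mul_mem_left _ h1)
    rw [hRf]
    exact pow_dvd_pow p (by omega)
  have h0 : ∀ R : Ideal (𝓞 Y), (p : 𝓞 Y) ∈ R → R ≠ ⊥ := by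
    rintro R hR rfl
    exact hp.ne_zero (by exact_mod_cast (Ideal.mem_bot.1 hR))
  have hPm := hP.isMaximal (h0 P hpP)
  have hQm := hQ.isMaximal (h0 Q hpQ)
  have hcop : IsCoprime P Q := (Ideal.isCoprime_iff_sup_eq).2 (hPm.coprime_of_ne hQm hne)
  have h3 : P * Q ∣ Ideal.span {(p : 𝓞 Y)} :=
    hcop.mul_dvd ((Ideal.dvd_span_singleton).2 hpP) ((Ideal.dvd_span_singleton).2 hpQ)
  have h4 := map_dvd (Ideal.absNorm (S := 𝓞 Y)) h3
  rw [map_mul, Ideal.absNorm_span_natCast, RingOfIntegers.rank, hY] at h4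
  have h5 := (mul_dvd_mul (hn P hP hpP) (hn Q hQ hpQ)).trans h4
  have h6 := Nat.le_of_dvd (pow_pos hp.pos 2) h5
  have h7 := hp.two_le
  nlinarith [pow_pos hp.pos 2]

/-- among the three values of `t` one is good -/
theorem exists_good_t {p : ℕ} (hp : p.Prime) (hp5 : 5 ≤ p) {m x : ℤ} (hm : ¬ (p : ℤ) ∣ m)
    (hx : 1 ≤ x) (hxp : 3 * x ^ 2 + 3 * x + 1 < p) :
    ∃ t : ℤ, (t = x ^ 2 ∨ t = x * (x + 1) ∨ t = (x + 1) ^ 2) ∧
      fq p m + 2 * fq p t ≠ 2 * ((m : ZMod p)⁻¹) ^ 2 * ((t : ZMod p)⁻¹) ^ 3 := by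
  have hpf : Fact p.Prime := ⟨hp⟩
  have hpi : Prime (p : ℤ) := Nat.prime_iff_prime_int.1 hp
  by_contra hcon
  push Not at hcon
  have hpx : ¬ (p : ℤ) ∣ x := by
    intro h
    have := Int.le_of_dvd (by omega) h
    nlinarith
  have hpx1 : ¬ (p : ℤ) ∣ x + 1 := by
    intro h
    have := Int.le_of_dvd (by omega) h
    nlinarith
  have h1 := hcon (x ^ 2) (Or.inl rfl)
  have h2 := hcon (x * (x + 1)) (Or.inr (Or.inl rfl))
  have h3 := hcon ((x + 1) ^ 2) (Or.inr (Or.inr rfl))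
  rw [fq_pow hp hpx] at h1
  rw [fq_mul hp hpx hpx1] at h2
  rw [fq_pow hp hpx1] at h3
  push_cast at h1 h2 h3
  have hxz : (x : ZMod p) ≠ 0 := by
    rw [Ne, ZMod.intCast_zmod_eq_zero_iff_dvd]; exact hpx
  have hxz1 : (x : ZMod p) + 1 ≠ 0 := by
    have h : ((x + 1 : ℤ) : ZMod p) ≠ 0 := by
      rw [Ne, ZMod.intCast_zmod_eq_zero_iff_dvd]; exact hpx1
    simpa using h
  have hmz : (m : ZMod p) ≠ 0 := by
    rw [Ne, ZMod.intCast_zmod_eq_zero_iff_dvd]; exact hm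
  have h2z : (2 : ZMod p) ≠ 0 := by
    have h : ((2 : ℕ) : ZMod p) ≠ 0 := by
      rw [Ne, ZMod.natCast_eq_zero_iff]
      intro h
      have := Nat.le_of_dvd (by norm_num) h
      omega
    exact_mod_cast h
  set u : ZMod p := (x : ZMod p)⁻¹ with hu
  set v : ZMod p := ((x : ZMod p) + 1)⁻¹ with hv
  have e1 : ((x : ZMod p) ^ 2)⁻¹ ^ 3 = u ^ 6 := by
    rw [← _root_.inv_pow, ← pow_mul]
  have e2 : ((x : ZMod p) * ((x : ZMod p) + 1))⁻¹ ^ 3 = u ^ 3 * v ^ 3 := by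
    rw [mul_inv, mul_pow]
  have e3 : (((x : ZMod p) + 1) ^ 2)⁻¹ ^ 3 = v ^ 6 := by
    rw [← _root_.inv_pow, ← pow_mul]
  rw [e1] at h1
  rw [e2] at h2
  rw [e3] at h3
  have h4 : 2 * ((m : ZMod p)⁻¹) ^ 2 * (u ^ 3 - v ^ 3) ^ 2 = 0 := by
    linear_combination -h1 - h3 + 2 * h2
  have h5 : (u ^ 3 - v ^ 3) ^ 2 = 0 := by
    rcases mul_eq_zero.1 h4 with h | h
    · exact absurd h (mul_ne_zero h2z (pow_ne_zero 2 (inv_ne_zero hmz)))
    · exact h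
  have h6 : u ^ 3 - v ^ 3 = 0 := pow_eq_zero_iff two_ne_zero |>.1 h5
  have h7 : (x : ZMod p) ^ 3 = ((x : ZMod p) + 1) ^ 3 := by
    have h8 : u ^ 3 = v ^ 3 := sub_eq_zero.1 h6
    rw [hu, hv, _root_.inv_pow, _root_.inv_pow] at h8
    exact inv_injective h8
  have h8 : ((3 * x ^ 2 + 3 * x + 1 : ℤ) : ZMod p) = 0 := by
    push_cast
    linear_combination -h7
  rw [ZMod.intCast_zmod_eq_zero_iff_dvd] at h8
  have := Int.le_of_dvd (by nlinarith) h8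
  omega

end Pool.Agent.Work.MuS
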