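import Pool.Agent.Work.MP_a4986b_nt.SpU

set_option autoImplicit false
set_option maxHeartbeats 400000

/-! # Split primes, part U2: residue degrees 1 and 2, conclusion -/

namespace Pool.Agent.Work.MuS

open NumberField Module IsDedekindDomain
open scoped nonZeroDivisors Pointwise
open Pool.Agent.Work.MuB

/-- the choice of `x` -/
theorem on_x {p m : ℕ} (hp : 0 < p) (hm : 0 < m) : ∃ x : ℕ,
    4 * m ^ 2 * (1 + m) * x ^ 12 + (32 + 36 * m) * p * x ^ 6 ≤ 27 * p ^ 2 ∧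
    27 * p ^ 2 < 4 * m ^ 2 * (1 + m) * (x + 1) ^ 12 + (32 + 36 * m) * p * (x + 1) ^ 6 := by
  classical
  have hex : ∃ x : ℕ,
      27 * p ^ 2 < 4 * m ^ 2 * (1 + m) * (x + 1) ^ 12 + (32 + 36 * m) * p * (x + 1) ^ 6 := by
    refine ⟨27 * p ^ 2, ?_⟩
    have h1 : 27 * p ^ 2 + 1 ≤ (27 * p ^ 2 + 1) ^ 12 := Nat.le_self_pow (by norm_num) _
    have h2 : 1 * (27 * p ^ 2 + 1) ^ 12 ≤ 4 * m ^ 2 * (1 + m) * (27 * p ^ 2 + 1) ^ 12 := by
      apply Nat.mul_le_mul_right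
      have : 0 < 4 * m ^ 2 * (1 + m) := by positivity
      omega
    have h3 : 0 ≤ (32 + 36 * m) * p * (27 * p ^ 2 + 1) ^ 6 := Nat.zero_le _
    omega
  refine ⟨Nat.find hex, ?_, Nat.find_spec hex⟩
  rcases Nat.eq_zero_or_pos (Nat.find hex) with h0 | h0
  · rw [h0]; simp
  · have h1 := Nat.find_min hex (m := Nat.find hex - 1) (by omega)
    push Not at h1
    rwa [Nat.sub_add_cancel h0] at h1

section

variable {p m x : ℕ}

theorem on_lower (hp : 21381376 ≤ p) (hm : 0 < m) (hmp : m ^ 2 ≤ p)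
    (h2 : 27 * p ^ 2 < 4 * m ^ 2 * (1 + m) * (x + 1) ^ 12 + (32 + 36 * m) * p * (x + 1) ^ 6) :
    p ≤ (x + 1) ^ 24 := by
  by_contra hlt
  push Not at hlt
  set w := (x + 1) ^ 6 with hw
  have e12 : (x + 1) ^ 12 = w ^ 2 := by rw [hw]; ring
  have e24 : (x + 1) ^ 24 = w ^ 4 := by rw [hw]; ring
  rw [e12] at h2
  rw [e24] at hlt
  have hm1 : 1 + m ≤ 2 * m := by omega
  have a1 : m ^ 3 * w ^ 2 ≤ p ^ 2 := by
    have : (m ^ 3 * w ^ 2) ^ 2 ≤ (p ^ 2) ^ 2 := by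
      calc (m ^ 3 * w ^ 2) ^ 2 = (m ^ 2) ^ 3 * w ^ 4 := by ring
        _ ≤ p ^ 3 * p := Nat.mul_le_mul (Nat.pow_le_pow_left hmp 3) hlt.le
        _ = (p ^ 2) ^ 2 := by ring
    exact (Nat.pow_le_pow_iff_left two_ne_zero).1 this
  have a2 : 4 * m ^ 2 * (1 + m) * w ^ 2 ≤ 8 * p ^ 2 := by
    calc 4 * m ^ 2 * (1 + m) * w ^ 2 ≤ 4 * m ^ 2 * (2 * m) * w ^ 2 := by gcongr
      _ = 8 * (m ^ 3 * w ^ 2) := by ring
      _ ≤ 8 * p ^ 2 := Nat.mul_le_mul_left 8 a1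
  have a3 : 68 * (m * w) ≤ p := by
    have : (68 * (m * w)) ^ 4 ≤ p ^ 4 := by
      calc (68 * (m * w)) ^ 4 = 21381376 * ((m ^ 2) ^ 2 * w ^ 4) := by ring
        _ ≤ p * (p ^ 2 * p) := Nat.mul_le_mul hp
            (Nat.mul_le_mul (Nat.pow_le_pow_left hmp 2) hlt.le)
        _ = p ^ 4 := by ring
    exact (Nat.pow_le_pow_iff_left (by norm_num)).1 this
  have a4 : (32 + 36 * m) * p * w ≤ p ^ 2 := by
    calc (32 + 36 * m) * p * w ≤ (68 * m) * p * w := by gcongr; omega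
      _ = (68 * (m * w)) * p := by ring
      _ ≤ p * p := Nat.mul_le_mul_right p a3
      _ = p ^ 2 := by ring
  have : 0 < p ^ 2 := by positivity
  omega

theorem on_small (hp : 21381376 ≤ p) (hm : 0 < m) (hx : 1 ≤ x)
    (h1 : 4 * m ^ 2 * (1 + m) * x ^ 12 + (32 + 36 * m) * p * x ^ 6 ≤ 27 * p ^ 2) :
    m * (x + 1) ^ 4 + 2 * (x + 1) ^ 2 + 1 < p ∧ 3 * x ^ 2 + 3 * x + 1 < p := by
  have a0 : m ^ 3 * x ^ 12 ≤ 7 * p ^ 2 := by
    have : 4 * (m ^ 3 * x ^ 12) ≤ 4 * m ^ 2 * (1 + m) * x ^ 12 := by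
      calc 4 * (m ^ 3 * x ^ 12) = 4 * m ^ 2 * m * x ^ 12 := by ring
        _ ≤ 4 * m ^ 2 * (1 + m) * x ^ 12 := by gcongr; omega
    omega
  have a1 : 25 * (m * x ^ 4) < p := by
    have h : (25 * (m * x ^ 4)) ^ 3 < p ^ 3 := by
      calc (25 * (m * x ^ 4)) ^ 3 = 15625 * (m ^ 3 * x ^ 12) := by ring
        _ ≤ 15625 * (7 * p ^ 2) := Nat.mul_le_mul_left _ a0
        _ = 109375 * p ^ 2 := by ring
        _ < p * p ^ 2 := Nat.mul_lt_mul_of_pos_right (by omega) (by positivity)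
        _ = p ^ 3 := by ring
    exact lt_of_pow_lt_pow_left₀ 3 (Nat.zero_le _) h
  have hx2 : x + 1 ≤ 2 * x := by omega
  have b1 : (x + 1) ^ 4 ≤ 16 * x ^ 4 := by
    calc (x + 1) ^ 4 ≤ (2 * x) ^ 4 := Nat.pow_le_pow_left hx2 4
      _ = 16 * x ^ 4 := by ring
  have b2 : (x + 1) ^ 2 ≤ 4 * x ^ 2 := by
    calc (x + 1) ^ 2 ≤ (2 * x) ^ 2 := Nat.pow_le_pow_left hx2 2
      _ = 4 * x ^ 2 := by ring
  have b3 : x ^ 2 ≤ x ^ 4 := Nat.pow_le_pow_right hx (by norm_num)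
  have b4 : x ^ 4 ≤ m * x ^ 4 := Nat.le_mul_of_pos_left _ hm
  have b5 : 1 ≤ x ^ 2 := Nat.one_le_pow _ _ hx
  have b6 : m * (x + 1) ^ 4 ≤ 16 * (m * x ^ 4) := by
    calc m * (x + 1) ^ 4 ≤ m * (16 * x ^ 4) := Nat.mul_le_mul_left m b1
      _ = 16 * (m * x ^ 4) := by ring
  have b7 : x ≤ x ^ 2 := Nat.le_self_pow two_ne_zero x
  constructor <;> omega

theorem on_size (hp : 21381376 ≤ p) (hm : 0 < m) (hx : 1 ≤ x)
    (h1 : 4 * m ^ 2 * (1 + m) * x ^ 12 + (32 + 36 * m) * p * x ^ 6 ≤ 27 * p ^ 2)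
    (h2 : 27 * p ^ 2 < 4 * m ^ 2 * (1 + m) * (x + 1) ^ 12 + (32 + 36 * m) * p * (x + 1) ^ 6)
    (hlow : p ≤ (x + 1) ^ 24) {t : ℝ} (ht1 : (x : ℝ) ^ 2 ≤ t) (ht2 : t ≤ ((x : ℝ) + 1) ^ 2) :
    |4 * (m : ℝ) ^ 2 * (1 + m) * t ^ 6 + (32 + 36 * m) * t ^ 3 * p - 27 * (p : ℝ) ^ 2| ≤
      2804736 * (p : ℝ) ^ (2 - 1 / 24 : ℝ) := by
  have hX : (1 : ℝ) ≤ x := by exact_mod_cast hx
  have hM : (1 : ℝ) ≤ m := by exact_mod_cast hm
  have hP1 : (1 : ℝ) ≤ p := by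
    have : 1 ≤ p := by omega
    exact_mod_cast this
  have hP0 : (0 : ℝ) < p := by linarith
  have q1 : 4 * (m : ℝ) ^ 2 * (1 + m) * (x : ℝ) ^ 12 + (32 + 36 * m) * p * (x : ℝ) ^ 6 ≤
      27 * (p : ℝ) ^ 2 := by exact_mod_cast h1
  have q2 : 27 * (p : ℝ) ^ 2 < 4 * (m : ℝ) ^ 2 * (1 + m) * ((x : ℝ) + 1) ^ 12 +
      (32 + 36 * m) * p * ((x : ℝ) + 1) ^ 6 := by exact_mod_cast h2
  have q3 : (p : ℝ) ≤ ((x : ℝ) + 1) ^ 24 := by exact_mod_cast hlow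
  set M : ℝ := (m : ℝ) with hMd
  set X : ℝ := (x : ℝ) with hXd
  set P : ℝ := (p : ℝ) with hPd
  have i1 : M ^ 3 * X ^ 12 ≤ 7 * P ^ 2 := by
    have e1 : 4 * (M ^ 3 * X ^ 12) ≤ 4 * M ^ 2 * (1 + M) * X ^ 12 := by
      have h0 : 0 ≤ M ^ 2 * X ^ 12 := by positivity
      have h3 : 4 * M ^ 2 * (1 + M) * X ^ 12 = 4 * (M ^ 3 * X ^ 12) + 4 * (M ^ 2 * X ^ 12) := by
        ring
      linarith
    have e2 : 0 ≤ (32 + 36 * M) * P * X ^ 6 := by positivity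
    have e3 : 0 ≤ P ^ 2 := sq_nonneg P
    linarith
  have hroot : P ^ (1 / 24 : ℝ) ≤ X + 1 := by
    calc P ^ (1 / 24 : ℝ) ≤ ((X + 1) ^ 24) ^ (1 / 24 : ℝ) :=
          Real.rpow_le_rpow hP0.le q3 (by norm_num)
      _ = X + 1 := by
          rw [← Real.rpow_natCast, ← Real.rpow_mul (by linarith)]
          norm_num
  have hsplit : P ^ (2 - 1 / 24 : ℝ) * P ^ (1 / 24 : ℝ) = P ^ 2 := by
    rw [← Real.rpow_add hP0, ← Real.rpow_natCast]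
    norm_num
  have hr0 : 0 < P ^ (1 / 24 : ℝ) := Real.rpow_pos_of_pos hP0 _
  have i2 : M ^ 3 * X ^ 11 ≤ 14 * P ^ (2 - 1 / 24 : ℝ) := by
    have e1 : M ^ 3 * X ^ 11 * P ^ (1 / 24 : ℝ) ≤ 14 * P ^ 2 := by
      calc M ^ 3 * X ^ 11 * P ^ (1 / 24 : ℝ) ≤ M ^ 3 * X ^ 11 * (2 * X) := by
            gcongr
            linarith
        _ = 2 * (M ^ 3 * X ^ 12) := by ring
        _ ≤ 14 * P ^ 2 := by linarith
    rw [← hsplit, ← mul_assoc] at e1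
    exact le_of_mul_le_mul_right e1 hr0
  have i3 : M * X ^ 5 * P ≤ 4 * P ^ (2 - 1 / 24 : ℝ) := by
    have e1 : M * X ^ 4 ≤ 2 * P ^ (2 / 3 : ℝ) := by
      have h : (M * X ^ 4) ^ 3 ≤ (2 * P ^ (2 / 3 : ℝ)) ^ 3 := by
        calc (M * X ^ 4) ^ 3 = M ^ 3 * X ^ 12 := by ring
          _ ≤ 8 * P ^ 2 := by linarith [sq_nonneg P]
          _ = (2 * P ^ (2 / 3 : ℝ)) ^ 3 := by
              rw [mul_pow, ← Real.rpow_natCast (P ^ (2 / 3 : ℝ)), ← Real.rpow_mul hP0.le,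
                ← Real.rpow_natCast P]
              norm_num
      exact le_of_pow_le_pow_left₀ (by norm_num) (by positivity) h
    have e2 : X ≤ 2 * P ^ (1 / 6 : ℝ) := by
      have h : X ^ 12 ≤ (2 * P ^ (1 / 6 : ℝ)) ^ 12 := by
        calc X ^ 12 = 1 * X ^ 12 := by ring
          _ ≤ M ^ 3 * X ^ 12 := by
              have : (1 : ℝ) ≤ M ^ 3 := one_le_pow₀ hM
              gcongr
          _ ≤ 4096 * P ^ 2 := by linarith [sq_nonneg P]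
          _ = (2 * P ^ (1 / 6 : ℝ)) ^ 12 := by
              rw [mul_pow, ← Real.rpow_natCast (P ^ (1 / 6 : ℝ)), ← Real.rpow_mul hP0.le,
                ← Real.rpow_natCast P]
              norm_num
      exact le_of_pow_le_pow_left₀ (by norm_num) (by positivity) h
    calc M * X ^ 5 * P = (M * X ^ 4) * X * P := by ring
      _ ≤ (2 * P ^ (2 / 3 : ℝ)) * (2 * P ^ (1 / 6 : ℝ)) * P := by gcongr
      _ = 4 * (P ^ (2 / 3 : ℝ) * P ^ (1 / 6 : ℝ) * P ^ (1 : ℝ)) := by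
          rw [Real.rpow_one]; ring
      _ = 4 * P ^ (11 / 6 : ℝ) := by
          rw [← Real.rpow_add hP0, ← Real.rpow_add hP0]
          norm_num
      _ ≤ 4 * P ^ (2 - 1 / 24 : ℝ) := by
          refine mul_le_mul_of_nonneg_left ?_ (by norm_num)
          exact Real.rpow_le_rpow_of_exponent_le hP1 (by norm_num)
  have d1 := pow_sub_le (u := X + 1) (v := X) (by linarith) (by linarith) 11
  have d2 := pow_sub_le (u := X + 1) (v := X) (by linarith) (by linarith) 5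
  norm_num at d1 d2
  have d3 : (X + 1) ^ 11 ≤ 2048 * X ^ 11 := by
    calc (X + 1) ^ 11 ≤ (2 * X) ^ 11 := pow_le_pow_left₀ (by linarith) (by linarith) 11
      _ = _ := by ring
  have d4 : (X + 1) ^ 5 ≤ 32 * X ^ 5 := by
    calc (X + 1) ^ 5 ≤ (2 * X) ^ 5 := pow_le_pow_left₀ (by linarith) (by linarith) 5
      _ = _ := by ring
  have ht0 : 0 ≤ t := le_trans (by positivity) ht1
  have t1 : X ^ 12 ≤ t ^ 6 := by
    calc X ^ 12 = (X ^ 2) ^ 6 := by ring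
      _ ≤ t ^ 6 := pow_le_pow_left₀ (by positivity) ht1 6
  have t2 : t ^ 6 ≤ (X + 1) ^ 12 := by
    calc t ^ 6 ≤ ((X + 1) ^ 2) ^ 6 := pow_le_pow_left₀ ht0 ht2 6
      _ = _ := by ring
  have t3 : X ^ 6 ≤ t ^ 3 := by
    calc X ^ 6 = (X ^ 2) ^ 3 := by ring
      _ ≤ t ^ 3 := pow_le_pow_left₀ (by positivity) ht1 3
  have t4 : t ^ 3 ≤ (X + 1) ^ 6 := by
    calc t ^ 3 ≤ ((X + 1) ^ 2) ^ 3 := pow_le_pow_left₀ ht0 ht2 3
      _ = _ := by ring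
  set a : ℝ := 4 * M ^ 2 * (1 + M) with ha
  set b : ℝ := (32 + 36 * M) * P with hb
  have ha0 : 0 ≤ a := by positivity
  have hb0 : 0 ≤ b := by positivity
  have ha8 : a ≤ 8 * M ^ 3 := by
    have h3 : 0 ≤ 4 * M ^ 2 * (M - 1) := mul_nonneg (by positivity) (by linarith)
    have h4 : 8 * M ^ 3 = a + 4 * M ^ 2 * (M - 1) := by rw [ha]; ring
    linarith
  have hb68 : b ≤ 68 * (M * P) := by
    have h3 : 0 ≤ 32 * (M - 1) * P := mul_nonneg (by linarith) (by linarith)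
    have h4 : 68 * (M * P) = b + 32 * (M - 1) * P := by rw [hb]; ring
    linarith
  have key : a * ((X + 1) ^ 12 - X ^ 12) + b * ((X + 1) ^ 6 - X ^ 6) ≤
      2804736 * P ^ (2 - 1 / 24 : ℝ) := by
    have k1 : a * ((X + 1) ^ 12 - X ^ 12) ≤ 8 * M ^ 3 * (24576 * X ^ 11) := by
      have : (X + 1) ^ 12 - X ^ 12 ≤ 24576 * X ^ 11 := by linarith
      have h0 : 0 ≤ 24576 * X ^ 11 := by positivity
      exact (mul_le_mul_of_nonneg_left this ha0).trans (mul_le_mul_of_nonneg_right ha8 h0)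
    have k2 : b * ((X + 1) ^ 6 - X ^ 6) ≤ 68 * (M * P) * (192 * X ^ 5) := by
      have : (X + 1) ^ 6 - X ^ 6 ≤ 192 * X ^ 5 := by linarith
      have h0 : 0 ≤ 192 * X ^ 5 := by positivity
      exact (mul_le_mul_of_nonneg_left this hb0).trans (mul_le_mul_of_nonneg_right hb68 h0)
    have k3 : 8 * M ^ 3 * (24576 * X ^ 11) = 196608 * (M ^ 3 * X ^ 11) := by ring
    have k4 : 68 * (M * P) * (192 * X ^ 5) = 13056 * (M * X ^ 5 * P) := by ring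
    linarith
  have e : 4 * M ^ 2 * (1 + M) * t ^ 6 + (32 + 36 * M) * t ^ 3 * P - 27 * P ^ 2 =
      a * t ^ 6 + b * t ^ 3 - 27 * P ^ 2 := by rw [ha, hb]; ring
  rw [e]
  have m1 := mul_le_mul_of_nonneg_left t1 ha0
  have m2 := mul_le_mul_of_nonneg_left t2 ha0
  have m3 := mul_le_mul_of_nonneg_left t3 hb0
  have m4 := mul_le_mul_of_nonneg_left t4 hb0
  have q1' : a * X ^ 12 + b * X ^ 6 ≤ 27 * P ^ 2 := q1
  have q2' : 27 * P ^ 2 < a * (X + 1) ^ 12 + b * (X + 1) ^ 6 := q2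
  rw [abs_le]
  constructor <;> linarith

end

theorem t_bounds {x t : ℤ} (hx : 1 ≤ x) (ht : t = x ^ 2 ∨ t = x * (x + 1) ∨ t = (x + 1) ^ 2) :
    x ^ 2 ≤ t ∧ t ≤ (x + 1) ^ 2 ∧ 0 < t := by
  have h0 : 0 < x ^ 2 := by positivity
  have h1 : x ^ 2 ≤ x * (x + 1) := by nlinarith
  have h2 : x * (x + 1) ≤ (x + 1) ^ 2 := by nlinarith
  rcases ht with rfl | rfl | rfl
  · exact ⟨le_rfl, h1.trans h2, h0⟩
  · exact ⟨h1, h2, h0.trans_le h1⟩
  · exact ⟨h1.trans h2, le_rfl, h0.trans_le (h1.trans h2)⟩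

/-- **every large prime**, `(p) = P Q`, residue degrees `1` and `2` -/
theorem all_large_inert : ∃ p0 : ℕ, ∀ p : ℕ, p.Prime → p0 ≤ p →
    ∃ (F : Type) (_ : Field F) (_ : NumberField F), finrank ℚ F = 3 ∧ ¬ IsGalois ℚ F ∧
      (∃ P Q : Ideal (𝓞 F), P.IsPrime ∧ Q.IsPrime ∧ P ≠ Q ∧
        Ideal.span {(p : 𝓞 F)} = P * Q) ∧ PureSplit p F := by
  obtain ⟨C, hC, hquad⟩ := gc_quad
  obtain ⟨p1, h1⟩ := gc_class 3 (Or.inr rfl) 2804736 (1 / 24) (by norm_num)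
  obtain ⟨p2, h2⟩ := gc_class 2 (Or.inl rfl) (C * 2804736) (1 / 24) (by norm_num)
  refine ⟨max (max p1 p2) 21381376, fun p hp hpp => ?_⟩
  have hp1 : p1 ≤ p := (le_max_left _ _).trans ((le_max_left _ _).trans hpp)
  have hp2 : p2 ≤ p := (le_max_right _ _).trans ((le_max_left _ _).trans hpp)
  have hp3 : 21381376 ≤ p := (le_max_right _ _).trans hpp
  have hp5 : 5 ≤ p := by omega
  have hpf : Fact p.Prime := ⟨hp⟩
  have hpi := Nat.prime_iff_prime_int.mp hp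
  obtain ⟨q, hq2, hqp, hqlt, hqs⟩ := exists_nonres hp (by omega)
  obtain ⟨m, rfl⟩ : ∃ m, q = m + 1 := ⟨q - 1, by omega⟩
  rw [Nat.add_sub_cancel] at hqp
  have hm : 0 < m := by omega
  obtain ⟨x, hx1, hx2⟩ := on_x hp.pos hm
  have hlow := on_lower hp3 hm hqp hx2
  have hx : 1 ≤ x := by
    by_contra h
    have h0 : x = 0 := by omega
    rw [h0] at hlow
    norm_num at hlow
    omega
  obtain ⟨hs1, hs2⟩ := on_small hp3 hm hx hx1
  have hpm : ¬ (p : ℤ) ∣ (m : ℤ) := by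
    intro h
    have := Int.le_of_dvd (by exact_mod_cast hm) h
    omega
  have hxZ : (1 : ℤ) ≤ x := by exact_mod_cast hx
  obtain ⟨t, ht, hgood⟩ := exists_good_t hp hp5 (m := (m : ℤ)) (x := (x : ℤ)) hpm hxZ
    (by exact_mod_cast hs2)
  obtain ⟨ht1, ht2, ht0⟩ := t_bounds hxZ ht
  have hmZ : (0 : ℤ) < m := by exact_mod_cast hm
  have hs : (m : ℤ) * t ^ 2 + 2 * t + 1 < p := by
    have h3 : (m : ℤ) * ((x : ℤ) + 1) ^ 4 + 2 * ((x : ℤ) + 1) ^ 2 + 1 < p := by exact_mod_cast hs1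
    have h4 : t ^ 2 ≤ ((x : ℤ) + 1) ^ 4 := by
      calc t ^ 2 ≤ (((x : ℤ) + 1) ^ 2) ^ 2 := pow_le_pow_left₀ ht0.le ht2 2
        _ = _ := by ring
    have h5 : (m : ℤ) * t ^ 2 ≤ m * ((x : ℤ) + 1) ^ 4 := mul_le_mul_of_nonneg_left h4 hmZ.le
    linarith
  have hpt : ¬ (p : ℤ) ∣ t := by
    intro h
    have h3 := Int.le_of_dvd ht0 h
    have h4 : 0 ≤ (m : ℤ) * t ^ 2 := by positivity
    omega
  have hn := on_noroot hp hmZ ht0 hs
  obtain ⟨F, _, _, θ, hF, hθ⟩ := gc_exists hn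
  have hθ' : θ * (θ ^ 2 + 2 * (t : 𝓞 F) * θ - ((m : ℤ) : 𝓞 F) * (t : 𝓞 F) ^ 2) = p := by
    push_cast at hθ ⊢
    linear_combination hθ
  have hD : gcd3 (2 * t) (-(m : ℤ) * t ^ 2) (-p) =
      4 * (m : ℤ) ^ 2 * (1 + m) * t ^ 6 + (32 + 36 * m) * t ^ 3 * p - 27 * p ^ 2 := by
    rw [gcd3]; ring
  -- the discriminant is a nonresidue
  have hDns : ¬ IsSquare ((gcd3 (2 * t) (-(m : ℤ) * t ^ 2) (-p) : ℤ) : ZMod p) := by
    intro hsq
    apply hqs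
    have htz : (t : ZMod p) ≠ 0 := by
      rw [Ne, ZMod.intCast_zmod_eq_zero_iff_dvd]; exact hpt
    have hmz : (m : ZMod p) ≠ 0 := by
      have h : (((m : ℤ)) : ZMod p) ≠ 0 := by
        rw [Ne, ZMod.intCast_zmod_eq_zero_iff_dvd]; exact hpm
      simpa using h
    have h2z : (2 : ZMod p) ≠ 0 := by
      have h : ((2 : ℕ) : ZMod p) ≠ 0 := by
        rw [Ne, ZMod.natCast_eq_zero_iff]
        intro h
        have := Nat.le_of_dvd (by norm_num) h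
        omega
      exact_mod_cast h
    have h3 : ((m + 1 : ℕ) : ZMod p) =
        ((gcd3 (2 * t) (-(m : ℤ) * t ^ 2) (-p) : ℤ) : ZMod p) / (2 * (m : ZMod p) * t ^ 3) ^ 2 := by
      rw [hD]
      have h4 : (2 * (m : ZMod p) * (t : ZMod p) ^ 3) ^ 2 ≠ 0 :=
        pow_ne_zero 2 (mul_ne_zero (mul_ne_zero h2z hmz) (pow_ne_zero 3 htz))
      rw [eq_div_iff h4]
      push_cast
      rw [ZMod.natCast_self]
      ring
    rw [h3]
    exact hsq.div ⟨2 * (m : ZMod p) * t ^ 3, by ring⟩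
  have hsq : ¬ IsSquare (gcd3 (2 * t) (-(m : ℤ) * t ^ 2) (-p)) := by
    rintro ⟨r, hr⟩
    apply hDns
    exact ⟨(r : ZMod p), by rw [hr]; push_cast; ring⟩
  have hqs' : ¬ IsSquare (((m : ℤ) + 1 : ℤ) : ZMod p) := by
    intro h
    apply hqs
    push_cast at h ⊢
    exact h
  obtain ⟨hncard, hPQ⟩ := on_primes hF hp hpm hpt hn hqs' hθ'
  have hng := not_isGalois_of_two hF hp hncard
  have hsize : |((gcd3 (2 * t) (-(m : ℤ) * t ^ 2) (-p) : ℤ) : ℝ)| ≤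
      2804736 * (p : ℝ) ^ (2 - 1 / 24 : ℝ) := by
    rw [hD]
    push_cast
    exact on_size hp3 hm hx hx1 hx2 hlow (by exact_mod_cast ht1) (by exact_mod_cast ht2)
  have hcl := h1 p hp hp1 F hF ((gc_bound hF hn θ hθ).trans hsize)
  obtain ⟨A, B, γ, c, D⟩ := on_gross hF hp hp5 hpm hpt hn hθ' hgood
  have hb : LayerBound p 1 F :=
    layerBound_r hp (by omega) (by rw [hF]; omega) D (by rw [← ncard_pv p hp, hncard]) hcl
  refine ⟨F, inferInstance, inferInstance, hF, hng, hPQ, ?_⟩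
  refine pureSplit_of hp (by omega) (by omega) hF hng hb ?_
  intro N _ _ f
  obtain ⟨Y, hYn, hYN, hY2, ⟨z, hz⟩, hYd⟩ := hquad _ _ _ hn hsq F θ hF hθ N f
  refine ⟨Y, hYn, hYN, hY2, onePrime_nonres hp hY2 z hz hDns, ?_⟩
  refine h2 p hp hp2 Y hY2 (hYd.trans ?_)
  rw [mul_assoc]
  exact mul_le_mul_of_nonneg_left hsize hC.le

/-- **every large prime and every decomposition type with several primes** -/
theorem all_large : ∃ p0 : ℕ, ∀ p : ℕ, p.Prime → p0 ≤ p →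
    (∃ (F : Type) (_ : Field F) (_ : NumberField F), finrank ℚ F = 3 ∧ ¬ IsGalois ℚ F ∧
      {P : Ideal (𝓞 F) | P.IsPrime ∧ (p : 𝓞 F) ∈ P}.ncard = 3 ∧ SplitExtensions p 2 F) ∧
    (∃ (F : Type) (_ : Field F) (_ : NumberField F), finrank ℚ F = 3 ∧ ¬ IsGalois ℚ F ∧
      (∃ P Q : Ideal (𝓞 F), P.IsPrime ∧ Q.IsPrime ∧ P ≠ Q ∧
        Ideal.span {(p : 𝓞 F)} = P * Q) ∧ PureSplit p F) ∧
    (∃ (F : Type) (_ : Field F) (_ : NumberField F), finrank ℚ F = 3 ∧ ¬ IsGalois ℚ F ∧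
      (∃ P Q : Ideal (𝓞 F), P.IsPrime ∧ Q.IsPrime ∧ P ≠ Q ∧
        Ideal.span {(p : 𝓞 F)} = P * Q ^ 2) ∧ PureSplit p F) := by
  obtain ⟨p1, h1⟩ := all_large_split
  obtain ⟨p2, h2⟩ := all_large_inert
  obtain ⟨p3, h3⟩ := all_large_ramified
  exact ⟨max p1 (max p2 p3), fun p hp hpp =>
    ⟨h1 p hp ((le_max_left _ _).trans hpp),
      h2 p hp ((le_max_left _ _).trans ((le_max_right _ _).trans hpp)),
      h3 p hp ((le_max_right _ _).trans ((le_max_right _ _).trans hpp))⟩⟩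

end Pool.Agent.Work.MuS
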