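import Pool.Agent.Work.MP_a4986b_nt.SpT
import Pool.Agent.Work.MP_a4986b_nt.SpR
import Pool.Agent.Work.MP_a4986b_nt.SpM

set_option autoImplicit false
set_option maxHeartbeats 400000

/-! # Split primes, part X: closures of cubic fields; the fields `θ (θ - c)² = p` -/

namespace Pool.Agent.Work.MuS

open NumberField Module IsDedekindDomain
open scoped nonZeroDivisors Pointwise
open Pool.Agent.Work.MuI

/-- the Galois closure of a cubic field whose quadratic resolvent has one prime above `p` and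
class number prime to `p` -/
theorem closure_bound {F : Type} [Field F] [NumberField F] {p r : ℕ} (hp : p.Prime)
    (hp2 : p ≠ 2) (hp3 : p ≠ 3) (h3 : finrank ℚ F = 3) (hng : ¬ IsGalois ℚ F)
    (hb : LayerBound p r F)
    (hY : ∀ (N : IntermediateField ℚ ℂ) [NumberField N] [IsGalois ℚ N] (_ : F →+* N),
      ∃ (Y : IntermediateField ℚ ℂ) (_ : NumberField Y), Y ≤ N ∧ finrank ℚ Y = 2 ∧
        Mu22.OnePrime p Y ∧ ¬ p ∣ Nat.card (ClassGroup (𝓞 Y)))
    (N : IntermediateField ℚ ℂ) [NumberField N] [IsGalois ℚ N]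
    (hN : finrank ℚ N = 6) (f : F →+* N) : LayerBound p (2 * r) N := by
  rintro N' ⟨e⟩ m E hE
  have hN'nf : NumberField N' := NumberField.of_ringEquiv N N' e
  let e1 : N ≃ₐ[ℚ] N' := AlgEquiv.ofRingEquiv (f := e) (fun r => by
    rw [eq_ratCast, eq_ratCast, map_ratCast])
  have hN'g : IsGalois ℚ N' := IsGalois.of_algEquiv e1
  have hN'6 : finrank ℚ N' = 6 := by
    rw [← hN]; exact (LinearEquiv.finrank_eq e1.toLinearEquiv).symm
  let f' : F →+* N' := (e : N →+* N').comp f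
  obtain ⟨Y, hYn, hYN, hY2, hone, hcl⟩ := hY N' f'
  have hYcl : ¬ p ∣ Nat.card (ClassGroup (𝓞 ↥(Y ⊔ E))) :=
    Mu22.cyc_tower hp hp2 Y hone hcl m (m + 1) E hE.1 hE.2
  have hYf : FiniteDimensional ℚ Y := FiniteDimensional.of_finrank_pos (by rw [hY2]; norm_num)
  have key := split_closure hp hp2 hp3 h3 hng N' hN'6 f' Y hYN hY2 m E hE (r * m) r
    (fun F' hF' => hb F' hF' m E hE)
  have hpf : Fact p.Prime := ⟨hp⟩
  have hEf : FiniteDimensional ℚ E := by
    apply FiniteDimensional.of_finrank_pos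
    rw [hE.2]; exact pow_pos hp.pos _
  have hYEf : FiniteDimensional ℚ ↥(Y ⊔ E) := IntermediateField.finiteDimensional_sup Y E
  have hYEn : NumberField ↥(Y ⊔ E) := NumberField.of_module_finite ℚ _
  rw [padicValNat.eq_zero_of_not_dvd hYcl, rk_eq_zero hYcl] at key
  constructor
  · have h6 := key.1
    rw [mul_assoc]
    omega
  · have h6 := key.2
    omega

/-- the conclusion for a cubic field: `SplitExtensions p 1` for the field, and
`SplitExtensions p 2` for its Galois closure -/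
theorem pureSplit_of {F : Type} [Field F] [NumberField F] {p : ℕ} (hp : p.Prime)
    (hp2 : p ≠ 2) (hp3 : p ≠ 3) (h3 : finrank ℚ F = 3) (hng : ¬ IsGalois ℚ F)
    (hb : LayerBound p 1 F)
    (hY : ∀ (N : IntermediateField ℚ ℂ) [NumberField N] [IsGalois ℚ N] (_ : F →+* N),
      ∃ (Y : IntermediateField ℚ ℂ) (_ : NumberField Y), Y ≤ N ∧ finrank ℚ Y = 2 ∧
        Mu22.OnePrime p Y ∧ ¬ p ∣ Nat.card (ClassGroup (𝓞 Y))) : PureSplit p F := by
  refine ⟨hb.split hp hp2, ?_⟩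
  intro N _ _ hN ⟨f⟩
  exact (closure_bound hp hp2 hp3 h3 hng hb hY N hN f).split hp hp2

/-- **every large prime**, `(p) = P₁ P₂²` -/
theorem all_large_ramified : ∃ p0 : ℕ, ∀ p : ℕ, p.Prime → p0 ≤ p →
    ∃ (F : Type) (_ : Field F) (_ : NumberField F), finrank ℚ F = 3 ∧ ¬ IsGalois ℚ F ∧
      (∃ P Q : Ideal (𝓞 F), P.IsPrime ∧ Q.IsPrime ∧ P ≠ Q ∧
        Ideal.span {(p : 𝓞 F)} = P * Q ^ 2) ∧ PureSplit p F := by
  obtain ⟨p1, h1⟩ := sc_cubic
  obtain ⟨p2, h2⟩ := sc_closure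
  refine ⟨max (max p1 p2) 49, fun p hp hpp => ?_⟩
  have hp1 : p1 ≤ p := (le_max_left _ _).trans ((le_max_left _ _).trans hpp)
  have hp2 : p2 ≤ p := (le_max_right _ _).trans ((le_max_left _ _).trans hpp)
  have hp49 : 49 ≤ p := (le_max_right _ _).trans hpp
  obtain ⟨x, hx1, hx2⟩ := sc_x p
  obtain ⟨hx, hxs⟩ := sc_small hp49 hx1 hx2
  obtain ⟨c, hc, hpc, hgood⟩ := exists_good_c hp (x := (x : ℤ)) (by exact_mod_cast hx)
    (by exact_mod_cast hxs)
  have hcv : CVal x c := by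
    have hx' : (1 : ℤ) ≤ x := by exact_mod_cast hx
    rcases hc with rfl | rfl | rfl
    · exact ⟨le_rfl, by nlinarith⟩
    · exact ⟨by nlinarith, by nlinarith⟩
    · exact ⟨by nlinarith, le_rfl⟩
  obtain ⟨hc0, hcp⟩ := sc_c hp49 hx1 hx2 hcv
  obtain ⟨F, _, _, θ, hF, hθ⟩ := sc_exists hp hc0.le hcp
  obtain ⟨-, hcl⟩ := h1 p hp hp1 x hx1 hx2 c hcv F θ hF hθ
  have hp2' : p ≠ 2 := by omega
  have hncard := ncard_theta hF hp hp2' hpc hgood hθ
  have hng := not_isGalois_of_two hF hp hncard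
  obtain ⟨b, D⟩ := nData_theta hF hp hp2' hpc hgood hθ
  obtain ⟨α, β, b', G⟩ := D.toG hp
  have hb : LayerBound p 1 F :=
    layerBound hp hp2' (by rw [hF]; omega) G (by rw [← ncard_pv p hp, hncard]) hcl
  obtain ⟨-, hPQ⟩ := primes_theta hF hp hp2' hpc hgood hθ
  refine ⟨F, inferInstance, inferInstance, hF, hng,
    ⟨Ideal.span {θ}, Ideal.span {θ - (c : 𝓞 F)},
      isPrime_span_of_norm hp θ (norm_theta hF hp hp2' hgood hθ),
      isPrime_span_of_norm hp _ (norm_theta_sub hF hp hp2' hgood hθ), hPQ, ?_⟩, ?_⟩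
  · rw [Ideal.span_singleton_pow, Ideal.span_singleton_mul_span_singleton, hθ]
  · exact pureSplit_of hp hp2' (by omega) hF hng hb
      (fun N _ _ f => h2 p hp hp2 x hx1 hx2 c hcv F θ hF hθ N f)

end Pool.Agent.Work.MuS
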