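import Pool.Agent.Work.MP_a4986b_nt.SpFq
import Pool.Agent.Work.MP_a4986b_nt.SpX

set_option autoImplicit false
set_option maxHeartbeats 400000

/-! # Split primes, part W: the cubic fields `θ (θ - a) (θ + a) = p`, `p` totally split -/

namespace Pool.Agent.Work.MuS

open NumberField Module IsDedekindDomain
open scoped nonZeroDivisors Pointwise

section Loc

variable {F : Type*} [Field F] [NumberField F] {p : ℕ}

theorem rat_int (b : 𝓞 ℚ) : ∃ n : ℤ, b = (n : 𝓞 ℚ) := by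
  refine ⟨Rat.ringOfIntegersEquiv b, ?_⟩
  apply Rat.ringOfIntegersEquiv.injective
  rw [map_intCast]
  rfl

/-- approximation of integers at a principal prime of degree one -/
theorem loc_int (hp : p.Prime) {α β : 𝓞 F} (hN : RingOfIntegers.norm ℚ α = (p : 𝓞 ℚ))
    (hαβ : β * α = (p : 𝓞 F)) (hcop : IsCoprime α β) :
    (∀ (K : ℕ) (x : 𝓞 F), ∃ n : ℤ, α ^ K ∣ x - (n : 𝓞 F)) ∧
    ∀ (K : ℕ) (n : ℤ), α ^ K ∣ (n : 𝓞 F) → (p : ℤ) ^ K ∣ n := by
  have hα0 : α ≠ 0 := by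
    rintro rfl
    rw [mul_zero] at hαβ
    exact hp.ne_zero (by exact_mod_cast hαβ.symm)
  have hαβ' : β * α = algebraMap (𝓞 ℚ) (𝓞 F) (RingOfIntegers.norm ℚ α) := by
    rw [hN, hαβ, map_natCast]
  have hs := surj_one (k := ℚ) α β (prime_Q hp) (by rw [hN]) hα0 hαβ'
  constructor
  · intro K x
    obtain ⟨b, hb⟩ := surj_pow α β hs hαβ' hcop K x
    obtain ⟨n, rfl⟩ := rat_int b
    exact ⟨n, by rwa [map_intCast] at hb⟩
  · intro K n h
    have h1 := pow_dvd_of_pow_dvd_map (k := ℚ) α β hs hαβ' hα0 hcop K (n : 𝓞 ℚ)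
      (by rwa [map_intCast])
    rw [hN] at h1
    have h2 := map_dvd Rat.ringOfIntegersEquiv h1
    rw [map_pow, map_natCast, map_intCast] at h2
    exact h2

end Loc

section TS

variable {F : Type*} [Field F] [NumberField F] {p : ℕ} {a : ℤ} {θ : 𝓞 F}

theorem ts_noroot (hp : p.Prime) (ha : 3 ≤ a) (hap : a < p) : NoRoot 0 (-a ^ 2) (-p) := by
  intro m hm
  have hpi := Nat.prime_iff_prime_int.mp hp
  have h1 : m * ((m - a) * (m + a)) = p := by linear_combination hm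
  rcases hpi.irreducible.isUnit_or_isUnit h1.symm with h2 | h2
  · have h3 : m ^ 2 = 1 := by
      rcases Int.isUnit_iff.mp h2 with rfl | rfl <;> norm_num
    have h4 : m * ((1 - a) * (1 + a)) = p := by linear_combination h1 - m * h3
    have h5 : (a - 1) * (a + 1) = p ∨ (a - 1) * (a + 1) = -p := by
      rcases Int.isUnit_iff.mp h2 with rfl | rfl
      · right; linear_combination -h4
      · left; linear_combination h4
    have hp0 : (0 : ℤ) < p := by exact_mod_cast hp.pos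
    rcases h5 with h6 | h6
    · rcases hpi.irreducible.isUnit_or_isUnit h6.symm with h7 | h7
      · rcases Int.isUnit_iff.mp h7 with h8 | h8 <;> omega
      · rcases Int.isUnit_iff.mp h7 with h8 | h8 <;> omega
    · nlinarith
  · have h3 : IsUnit (m - a) := isUnit_of_mul_isUnit_left h2
    have h4 : IsUnit (m + a) := isUnit_of_mul_isUnit_right h2
    rcases Int.isUnit_iff.mp h3 with h5 | h5 <;> rcases Int.isUnit_iff.mp h4 with h6 | h6 <;> omega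

theorem ts_cubic (hθ : θ * (θ - (a : 𝓞 F)) * (θ + (a : 𝓞 F)) = p) :
    θ ^ 3 + ((0 : ℤ) : 𝓞 F) * θ ^ 2 + ((-a ^ 2 : ℤ) : 𝓞 F) * θ + ((-p : ℤ) : 𝓞 F) = 0 := by
  push_cast
  linear_combination hθ

theorem ts_norm (h3 : finrank ℚ F = 3) (hn : NoRoot 0 (-a ^ 2) (-p))
    (hθ : θ * (θ - (a : 𝓞 F)) * (θ + (a : 𝓞 F)) = p) :
    RingOfIntegers.norm ℚ θ = (p : 𝓞 ℚ) ∧ RingOfIntegers.norm ℚ (θ - (a : 𝓞 F)) = (p : 𝓞 ℚ) ∧
      RingOfIntegers.norm ℚ (θ + (a : 𝓞 F)) = (p : 𝓞 ℚ) := by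
  have h := ts_cubic hθ
  refine ⟨?_, ?_, ?_⟩
  · have h1 := gc_norm h3 hn θ h 0
    rw [Int.cast_zero, add_zero] at h1
    rw [h1]
    push_cast
    ring
  · have h1 := gc_norm h3 hn θ h (-a)
    rw [Int.cast_neg, ← sub_eq_add_neg] at h1
    rw [h1]
    push_cast
    ring
  · have h1 := gc_norm h3 hn θ h a
    rw [h1]
    push_cast
    ring

/-- **the data** -/
theorem ts_gross (h3 : finrank ℚ F = 3) (hp : p.Prime) (hp5 : 5 ≤ p) (ha : ¬ (p : ℤ) ∣ a)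
    (hn : NoRoot 0 (-a ^ 2) (-p)) (hθ : θ * (θ - (a : 𝓞 F)) * (θ + (a : 𝓞 F)) = p)
    (hgood : 6 * fq p a ^ 2 + 4 * fq p a * fq p 2 ≠ ((a : ZMod p)⁻¹) ^ 6) :
    ∃ (A B : Fin 2 → Ideal (𝓞 F)) (γ : Fin 2 → 𝓞 F) (c : Fin 2 → Fin 2 → ℤ),
      GrossData p A B γ c := by
  have hpf : Fact p.Prime := ⟨hp⟩
  have hpi := Nat.prime_iff_prime_int.mp hp
  have hp0 : (p : ℤ) ≠ 0 := by exact_mod_cast hp.ne_zero
  obtain ⟨n1, n2, n3⟩ := ts_norm h3 hn hθ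
  have h2p : ¬ (p : ℤ) ∣ 2 := by
    intro h
    have := Int.le_of_dvd (by norm_num) h
    omega
  have h2a : ¬ (p : ℤ) ∣ 2 * a := fun h => (hpi.dvd_or_dvd h).elim h2p ha
  have hθ1 : (θ ^ 2 - (a : 𝓞 F) ^ 2) * θ = p := by linear_combination hθ
  have hθ2 : (θ * (θ + (a : 𝓞 F))) * (θ - (a : 𝓞 F)) = p := by linear_combination hθ
  -- coprimality
  have c1 : IsCoprime θ (θ ^ 2 - (a : 𝓞 F) ^ 2) := by
    obtain ⟨r, s, hrs⟩ : IsCoprime (a ^ 2) (p : ℤ) :=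
      (((Prime.coprime_iff_not_dvd hpi).2 ha).symm).pow_left
    have e : (r : 𝓞 F) * (a : 𝓞 F) ^ 2 + (s : 𝓞 F) * (p : 𝓞 F) = 1 := by
      exact_mod_cast congrArg (Int.cast : ℤ → 𝓞 F) hrs
    refine ⟨(r : 𝓞 F) * θ + s * (θ ^ 2 - (a : 𝓞 F) ^ 2), -(r : 𝓞 F), ?_⟩
    linear_combination e + (s : 𝓞 F) * hθ1
  have c2 : IsCoprime (θ - (a : 𝓞 F)) (θ * (θ + (a : 𝓞 F))) := by
    obtain ⟨r, s, hrs⟩ : IsCoprime (2 * a * a) (p : ℤ) :=
      ((Prime.coprime_iff_not_dvd hpi).2 (fun h => (hpi.dvd_or_dvd h).elim h2a ha)).symm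
    have e : (r : 𝓞 F) * (2 * (a : 𝓞 F) * (a : 𝓞 F)) + (s : 𝓞 F) * (p : 𝓞 F) = 1 := by
      exact_mod_cast congrArg (Int.cast : ℤ → 𝓞 F) hrs
    refine ⟨-(r : 𝓞 F) * (θ + 2 * a) + s * (θ * (θ + (a : 𝓞 F))), (r : 𝓞 F), ?_⟩
    linear_combination e + (s : 𝓞 F) * hθ2
  obtain ⟨s1, d1⟩ := loc_int hp n1 hθ1 c1
  obtain ⟨s2, d2⟩ := loc_int hp n2 hθ2 c2
  -- the root at the first prime
  obtain ⟨b1, hb1⟩ := s1 3 θ
  have hb1p : (p : ℤ) ∣ b1 := by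
    have h1 : θ ^ 1 ∣ (b1 : 𝓞 F) := by
      have h2 : θ ^ 1 ∣ θ - (b1 : 𝓞 F) := (pow_dvd_pow θ (by norm_num)).trans hb1
      have h4 : θ ^ 1 ∣ θ := by rw [pow_one]
      have h5 := dvd_sub h4 h2
      rwa [sub_sub_cancel] at h5
    simpa using d1 1 b1 h1
  obtain ⟨k1, rfl⟩ := hb1p
  have hk1 : (p : ℤ) ^ 2 ∣ k1 * ((p * k1) ^ 2 - a ^ 2) - 1 := by
    have h1 : θ ^ 3 ∣ (((p * k1) * ((p * k1) ^ 2 - a ^ 2) - p : ℤ) : 𝓞 F) := by
      have h2 : θ - ((p * k1 : ℤ) : 𝓞 F) ∣ (((p * k1) * ((p * k1) ^ 2 - a ^ 2) - p : ℤ) : 𝓞 F) := by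
        refine ⟨-(θ ^ 2 + θ * ((p * k1 : ℤ) : 𝓞 F) + ((p * k1 : ℤ) : 𝓞 F) ^ 2 -
          (a : 𝓞 F) ^ 2), ?_⟩
        push_cast
        linear_combination hθ
      exact hb1.trans h2
    obtain ⟨m, hm⟩ := d1 3 _ h1
    refine ⟨m, mul_left_cancel₀ hp0 ?_⟩
    linear_combination hm
  have hpk1 : ¬ (p : ℤ) ∣ k1 := by
    intro h
    have h4 := dvd_sub (h.mul_right ((p * k1) ^ 2 - a ^ 2))
      ((dvd_pow_self (p : ℤ) two_ne_zero).trans hk1)
    rw [sub_sub_cancel] at h4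
    exact hpi.not_unit (isUnit_of_dvd_one h4)
  -- the root at the second prime
  obtain ⟨b2, hb2⟩ := s2 3 θ
  have hb2p : (p : ℤ) ∣ b2 - a := by
    have h1 : (θ - (a : 𝓞 F)) ^ 1 ∣ ((b2 - a : ℤ) : 𝓞 F) := by
      have h2 : (θ - (a : 𝓞 F)) ^ 1 ∣ θ - (b2 : 𝓞 F) := (pow_dvd_pow _ (by norm_num)).trans hb2
      have h4 : (θ - (a : 𝓞 F)) ^ 1 ∣ θ - (a : 𝓞 F) := by rw [pow_one]
      have h5 := dvd_sub h4 h2
      rw [sub_sub_sub_cancel_left] at h5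
      push_cast
      exact h5
    simpa using d2 1 _ h1
  obtain ⟨k2, hk2⟩ := hb2p
  have hb2e : b2 = a + p * k2 := by linarith
  subst hb2e
  have hk2' : (p : ℤ) ∣ 2 * a * a * k2 - 1 := by
    have h1 : (θ - (a : 𝓞 F)) ^ 3 ∣
        (((a + p * k2) * ((a + p * k2) ^ 2 - a ^ 2) - p : ℤ) : 𝓞 F) := by
      have h2 : θ - ((a + p * k2 : ℤ) : 𝓞 F) ∣
          (((a + p * k2) * ((a + p * k2) ^ 2 - a ^ 2) - p : ℤ) : 𝓞 F) := by
        refine ⟨-(θ ^ 2 + θ * ((a + p * k2 : ℤ) : 𝓞 F) + ((a + p * k2 : ℤ) : 𝓞 F) ^ 2 -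
          (a : 𝓞 F) ^ 2), ?_⟩
        push_cast
        linear_combination hθ
      exact hb2.trans h2
    obtain ⟨m, hm⟩ := d2 3 _ h1
    have h4 : (a + p * k2) * k2 * (2 * a + p * k2) - 1 = (p : ℤ) ^ 2 * m := by
      apply mul_left_cancel₀ hp0
      linear_combination hm
    refine ⟨p * m - 3 * a * k2 ^ 2 - p * k2 ^ 3, ?_⟩
    linear_combination h4
  have hpb1 : ¬ (p : ℤ) ∣ p * k1 + a := by
    intro h
    have h4 := dvd_sub h (dvd_mul_right (p : ℤ) k1)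
    rw [add_sub_cancel_left] at h4
    exact ha h4
  have hpb2 : ¬ (p : ℤ) ∣ a + p * k2 := by
    intro h
    have h4 := dvd_sub h (dvd_mul_right (p : ℤ) k2)
    rw [add_sub_cancel_right] at h4
    exact ha h4
  have hpb3 : ¬ (p : ℤ) ∣ 2 * a + p * k2 := by
    intro h
    have h4 := dvd_sub h (dvd_mul_right (p : ℤ) k2)
    rw [add_sub_cancel_right] at h4
    exact h2a h4
  -- the four local norms
  obtain ⟨c00, m00, q00, e00⟩ := normAt_of_crt hp n1 hθ1 c1 (γ := θ) (b := p * k1) (c := k1)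
    (M := 3) (V := 1) (by norm_num) hb1 (by rw [pow_one]) hpk1
  obtain ⟨c01, m01, q01, e01⟩ := normAt_of_crt hp n1 hθ1 c1 (γ := θ + (a : 𝓞 F))
    (b := p * k1 + a) (c := p * k1 + a)
    (M := 3) (V := 0) (by norm_num) (by
      have e : θ + (a : 𝓞 F) - ((p * k1 + a : ℤ) : 𝓞 F) = θ - ((p * k1 : ℤ) : 𝓞 F) := by
        push_cast; ring
      rw [e]
      exact hb1) (by rw [pow_zero, one_mul]) hpb1
  obtain ⟨c10, m10, q10, e10⟩ := normAt_of_crt hp n2 hθ2 c2 (γ := θ) (b := a + p * k2)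
    (c := a + p * k2) (M := 3) (V := 0) (by norm_num) hb2 (by rw [pow_zero, one_mul]) hpb2
  obtain ⟨c11, m11, q11, e11⟩ := normAt_of_crt hp n2 hθ2 c2 (γ := θ + (a : 𝓞 F))
    (b := 2 * a + p * k2) (c := 2 * a + p * k2) (M := 3) (V := 0) (by norm_num) (by
      have e : θ + (a : 𝓞 F) - ((2 * a + p * k2 : ℤ) : 𝓞 F) =
          θ - ((a + p * k2 : ℤ) : 𝓞 F) := by
        push_cast; ring
      rw [e]
      exact hb2) (by rw [pow_zero, one_mul]) hpb3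
  -- Fermat quotients
  set i : ZMod p := ((a : ZMod p))⁻¹ with hi
  set h : ZMod p := (2 : ZMod p)⁻¹ with hh
  have haz : (a : ZMod p) ≠ 0 := by
    rw [Ne, ZMod.intCast_zmod_eq_zero_iff_dvd]
    exact ha
  have h2z : (2 : ZMod p) ≠ 0 := by
    have : ((2 : ℤ) : ZMod p) ≠ 0 := by
      rw [Ne, ZMod.intCast_zmod_eq_zero_iff_dvd]
      exact h2p
    exact_mod_cast this
  have hia : (a : ZMod p) * i = 1 := mul_inv_cancel₀ haz
  have hh2 : 2 * h = 1 := mul_inv_cancel₀ h2z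
  have hpz : ((p : ℤ) : ZMod p) = 0 := by
    rw [Int.cast_natCast, ZMod.natCast_self]
  have hk1z : (k1 : ZMod p) = -i ^ 2 := by
    have h1 := (dvd_pow_self (p : ℤ) two_ne_zero).trans hk1
    rw [← ZMod.intCast_zmod_eq_zero_iff_dvd] at h1
    push_cast at h1
    rw [ZMod.natCast_self] at h1
    have h4 : (k1 : ZMod p) * (a : ZMod p) ^ 2 = -1 := by linear_combination -h1
    calc (k1 : ZMod p) = (k1 : ZMod p) * (a : ZMod p) ^ 2 * i ^ 2 := by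
          rw [mul_assoc, ← mul_pow, hia, one_pow, mul_one]
      _ = -i ^ 2 := by rw [h4]; ring
  have hk2z : (k2 : ZMod p) = h * i ^ 2 := by
    rw [← ZMod.intCast_zmod_eq_zero_iff_dvd] at hk2'
    push_cast at hk2'
    have h4 : 2 * (a : ZMod p) * (a : ZMod p) * (k2 : ZMod p) = 1 := by linear_combination hk2'
    calc (k2 : ZMod p) = (2 * h) * ((a : ZMod p) * i) ^ 2 * (k2 : ZMod p) := by
          rw [hh2, hia]; ring
      _ = (2 * (a : ZMod p) * (a : ZMod p) * (k2 : ZMod p)) * (h * i ^ 2) := by ring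
      _ = h * i ^ 2 := by rw [h4, one_mul]
  have f00 : fq p c00 = -2 * fq p a := by
    rw [fq_congr hp hpk1 e00]
    have haa : ¬ (p : ℤ) ∣ -(a * a) := by
      rw [dvd_neg]
      exact fun h => (hpi.dvd_or_dvd h).elim ha ha
    have h1 : fq p (k1 * -(a * a)) = fq p 1 := by
      apply fq_congr hp (fun h => hpi.not_unit (isUnit_of_dvd_one h))
      obtain ⟨m, hm⟩ := hk1
      exact ⟨m - k1 ^ 3, by linear_combination hm⟩
    rw [fq_mul hp hpk1 haa, fq_neg hp (by omega), fq_mul hp ha ha, fq_one hp] at h1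
    linear_combination h1
  have f01 : fq p c01 = fq p a + i ^ 3 := by
    rw [fq_congr hp hpb1 e01, add_comm, fq_add hp ha, hk1z]
    ring
  have f10 : fq p c10 = fq p a - h * i ^ 3 := by
    rw [fq_congr hp hpb2 e10, fq_add hp ha, hk2z]
    ring
  have f11 : fq p c11 = fq p 2 + fq p a - h ^ 2 * i ^ 3 := by
    rw [fq_congr hp hpb3 e11, fq_add hp h2a, fq_mul hp h2p ha, hk2z]
    have h1 : ((2 * a : ℤ) : ZMod p)⁻¹ = h * i := by
      push_cast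
      rw [mul_inv]
    rw [h1]
    ring
  refine ⟨![Ideal.span {θ}, Ideal.span {θ - (a : 𝓞 F)}],
    ![Ideal.span {θ ^ 2 - (a : 𝓞 F) ^ 2}, Ideal.span {θ * (θ + (a : 𝓞 F))}],
    ![θ, θ + (a : 𝓞 F)], ![![c00, c01], ![c10, c11]], ?_, ?_, ?_, ?_, ?_⟩
  · rw [Fin.forall_fin_two]
    constructor
    · change Ideal.span {θ} * Ideal.span {θ ^ 2 - (a : 𝓞 F) ^ 2} = _
      rw [Ideal.span_singleton_mul_span_singleton, mul_comm, hθ1]
    · change Ideal.span {θ - (a : 𝓞 F)} * Ideal.span {θ * (θ + (a : 𝓞 F))} = _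
      rw [Ideal.span_singleton_mul_span_singleton, mul_comm, hθ2]
  · rw [Fin.forall_fin_two]
    constructor
    · change Ideal.span {θ} ⊔ Ideal.span {θ ^ 2 - (a : 𝓞 F) ^ 2} = _
      rw [← Ideal.isCoprime_iff_sup_eq, Ideal.isCoprime_span_singleton_iff]
      exact c1
    · change Ideal.span {θ - (a : 𝓞 F)} ⊔ Ideal.span {θ * (θ + (a : 𝓞 F))} = _
      rw [← Ideal.isCoprime_iff_sup_eq, Ideal.isCoprime_span_singleton_iff]
      exact c2
  · rw [Fin.forall_fin_two]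
    refine ⟨⟨1, θ ^ 2 - (a : 𝓞 F) ^ 2, ?_⟩, ⟨1, θ * (θ - (a : 𝓞 F)), ?_⟩⟩
    · change (p : 𝓞 F) ^ 1 = θ * _
      rw [pow_one, ← hθ1]; ring
    · change (p : 𝓞 F) ^ 1 = (θ + (a : 𝓞 F)) * _
      rw [pow_one, ← hθ]; ring
  · rw [Fin.forall_fin_two, Fin.forall_fin_two, Fin.forall_fin_two]
    exact ⟨⟨m00, m01⟩, ⟨m10, m11⟩⟩
  · apply nondeg_of_det hp
    · rw [Fin.forall_fin_two, Fin.forall_fin_two, Fin.forall_fin_two]
      exact ⟨⟨q00, q01⟩, ⟨q10, q11⟩⟩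
    · rw [Matrix.det_fin_two]
      change fq p c00 * fq p c11 - fq p c01 * fq p c10 ≠ 0
      rw [f00, f01, f10, f11]
      intro hd
      apply hgood
      linear_combination (-2 : ZMod p) * hd +
        (2 * h * fq p a * i ^ 3 + 2 * fq p a * i ^ 3 + i ^ 6) * hh2

end TS

end Pool.Agent.Work.MuS
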