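import Pool.Agent.Work.MP_a4986b_nt.SpW

set_option autoImplicit false
set_option maxHeartbeats 400000

/-! # Split primes, part W2: totally split primes, existence of the field -/

namespace Pool.Agent.Work.MuS

open NumberField Module IsDedekindDomain
open scoped nonZeroDivisors Pointwise

section Good

/-- the key identity -/
theorem key_bad {k : Type*} [Field k] (X Y T P Q : k) (h2 : (2 : k) ≠ 0)
    (e1 : 6 * (2 * X) ^ 2 + 4 * (2 * X) * T = P ^ 2)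
    (e2 : 6 * (X + Y) ^ 2 + 4 * (X + Y) * T = P * Q)
    (e3 : 6 * (2 * Y) ^ 2 + 4 * (2 * Y) * T = Q ^ 2) :
    (P - Q) ^ 2 * (24 * (P * Q) + 16 * T ^ 2 - 3 * (P + Q) ^ 2) = 0 := by
  have i1 : 12 * (X - Y) ^ 2 = (P - Q) ^ 2 := by linear_combination e1 + e3 - 2 * e2
  have i2 : (X - Y) * (24 * (X + Y) + 8 * T) = P ^ 2 - Q ^ 2 := by linear_combination e1 - e3
  have i3 : (24 * (X + Y) + 8 * T) ^ 2 = 96 * (P * Q) + 64 * T ^ 2 := by
    linear_combination 96 * e2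
  have i4 : (X - Y) ^ 2 * (96 * (P * Q) + 64 * T ^ 2) = (P ^ 2 - Q ^ 2) ^ 2 := by
    rw [← i3, ← mul_pow, i2]
  have i5 : (P - Q) ^ 2 * (96 * (P * Q) + 64 * T ^ 2) = 12 * (P ^ 2 - Q ^ 2) ^ 2 := by
    rw [← i1, ← i4]; ring
  have h4 : (4 : k) ≠ 0 := by
    have : (4 : k) = 2 * 2 := by norm_num
    rw [this]
    exact mul_ne_zero h2 h2
  apply mul_left_cancel₀ h4
  linear_combination i5

theorem bad_root {p : ℕ} [Fact p.Prime] (hp5 : 5 ≤ p) (x : ZMod p) (hx : x ≠ 0) (hx1 : x + 1 ≠ 0)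
    (X Y T : ZMod p)
    (e1 : 6 * (2 * X) ^ 2 + 4 * (2 * X) * T = ((x ^ 2)⁻¹) ^ 6)
    (e2 : 6 * (X + Y) ^ 2 + 4 * (X + Y) * T = ((x * (x + 1))⁻¹) ^ 6)
    (e3 : 6 * (2 * Y) ^ 2 + 4 * (2 * Y) * T = (((x + 1) ^ 2)⁻¹) ^ 6) :
    ((x + 1) ^ 6 - x ^ 6) * (3 * ((x + 1) ^ 6 + x ^ 6) ^ 2 - 24 * (x ^ 6 * (x + 1) ^ 6) -
      16 * T ^ 2 * (x ^ 12 * (x + 1) ^ 12)) = 0 := by
  have h2 : (2 : ZMod p) ≠ 0 := by
    have h : ((2 : ℕ) : ZMod p) ≠ 0 := by
      rw [Ne, ZMod.natCast_eq_zero_iff]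
      intro h
      have := Nat.le_of_dvd (by norm_num) h
      omega
    exact_mod_cast h
  have key := key_bad X Y T ((x⁻¹) ^ 6) (((x + 1)⁻¹) ^ 6) h2
    (by rw [e1, ← _root_.inv_pow, ← pow_mul, ← pow_mul]) (by rw [e2, mul_inv, mul_pow])
    (by rw [e3, ← _root_.inv_pow, ← pow_mul, ← pow_mul])
  have hP : x ^ 6 * (x⁻¹) ^ 6 = 1 := by rw [← mul_pow, mul_inv_cancel₀ hx, one_pow]
  have hQ : (x + 1) ^ 6 * ((x + 1)⁻¹) ^ 6 = 1 := by
    rw [← mul_pow, mul_inv_cancel₀ hx1, one_pow]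
  set P := (x⁻¹) ^ 6 with hPd
  set Q := ((x + 1)⁻¹) ^ 6 with hQd
  set U := x ^ 6 with hU
  set W := (x + 1) ^ 6 with hW
  have e12 : x ^ 12 * (x + 1) ^ 12 = U ^ 2 * W ^ 2 := by rw [hU, hW]; ring
  rw [e12]
  rcases mul_eq_zero.1 key with h | h
  · have h3 : P - Q = 0 := pow_eq_zero_iff (two_ne_zero) |>.1 h
    have h4 : W - U = 0 := by
      have : W - U = (P - Q) * (U * W) := by
        linear_combination -W * hP + U * hQ
      rw [this, h3, zero_mul]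
    rw [h4, zero_mul]
  · have h4 : 3 * (W + U) ^ 2 - 24 * (U * W) - 16 * T ^ 2 * (U ^ 2 * W ^ 2) =
        -(24 * (P * Q) + 16 * T ^ 2 - 3 * (P + Q) ^ 2) * (U ^ 2 * W ^ 2) := by
      have a1 : P * Q * (U ^ 2 * W ^ 2) = U * W := by
        calc P * Q * (U ^ 2 * W ^ 2) = (U * P) * (W * Q) * (U * W) := by ring
          _ = U * W := by rw [hP, hQ]; ring
      have a2 : (P + Q) ^ 2 * (U ^ 2 * W ^ 2) = (W + U) ^ 2 := by
        have : (P + Q) * (U * W) = W + U := by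
          calc (P + Q) * (U * W) = (U * P) * W + (W * Q) * U := by ring
            _ = W + U := by rw [hP, hQ]; ring
        rw [← this]; ring
      linear_combination 24 * a1 - 3 * a2
    rw [h4, h]
    ring

open Polynomial in
/-- among `31` consecutive `x` one is good -/
theorem exists_good_a {p : ℕ} (hp : p.Prime) (hp5 : 5 ≤ p) (x0 : ℕ) (hx0 : 32 ≤ x0)
    (hxp : x0 + 1 < p) : ∃ x : ℕ, x0 ≤ x + 31 ∧ x + 1 ≤ x0 ∧ ∃ a : ℤ,
      (a = (x : ℤ) ^ 2 ∨ a = x * (x + 1) ∨ a = ((x : ℤ) + 1) ^ 2) ∧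
      6 * fq p a ^ 2 + 4 * fq p a * fq p 2 ≠ ((a : ZMod p)⁻¹) ^ 6 := by
  have hpf : Fact p.Prime := ⟨hp⟩
  by_contra hcon
  push Not at hcon
  set T := fq p 2 with hT
  set g : (ZMod p)[X] := ((X + 1) ^ 6 - X ^ 6) * (3 * ((X + 1) ^ 6 + X ^ 6) ^ 2 -
    24 * (X ^ 6 * (X + 1) ^ 6) - C (16 * T ^ 2) * (X ^ 12 * (X + 1) ^ 12)) with hg
  have h3 : (3 : ZMod p) ≠ 0 := by
    have h : ((3 : ℕ) : ZMod p) ≠ 0 := by
      rw [Ne, ZMod.natCast_eq_zero_iff]
      intro h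
      have := Nat.le_of_dvd (by norm_num) h
      omega
    exact_mod_cast h
  have hg0 : g ≠ 0 := by
    intro h
    have h1 := congrArg (eval 0) h
    rw [hg] at h1
    simp at h1
    exact h3 h1
  have hdeg : g.natDegree ≤ 30 := by
    rw [hg]
    compute_degree
  set S : Finset (ZMod p) := (Finset.Icc (x0 - 31) (x0 - 1)).image (fun n : ℕ => (n : ZMod p))
    with hS
  have hcard : S.card = 31 := by
    rw [hS, Finset.card_image_of_injOn, Nat.card_Icc]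
    · omega
    · intro u hu v hv huv
      rw [Finset.coe_Icc, Set.mem_Icc] at hu hv
      have h1 : u % p = v % p := (ZMod.natCast_eq_natCast_iff' u v p).1 huv
      rwa [Nat.mod_eq_of_lt (by omega), Nat.mod_eq_of_lt (by omega)] at h1
  have hsub : S ⊆ g.roots.toFinset := by
    intro z hz
    rw [hS, Finset.mem_image] at hz
    obtain ⟨x, hx, rfl⟩ := hz
    rw [Finset.mem_Icc] at hx
    rw [Multiset.mem_toFinset, mem_roots hg0, IsRoot.def, hg]
    simp only [eval_mul, eval_sub, eval_add, eval_pow, eval_X, eval_one, eval_C, eval_ofNat]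
    have hpx : ¬ (p : ℤ) ∣ (x : ℤ) := by
      intro h
      have := Int.le_of_dvd (by omega) h
      omega
    have hpx1 : ¬ (p : ℤ) ∣ (x : ℤ) + 1 := by
      intro h
      have := Int.le_of_dvd (by omega) h
      omega
    have hxz : (x : ZMod p) ≠ 0 := by
      have h : ((x : ℤ) : ZMod p) ≠ 0 := by
        rw [Ne, ZMod.intCast_zmod_eq_zero_iff_dvd]; exact hpx
      simpa using h
    have hxz1 : (x : ZMod p) + 1 ≠ 0 := by
      have h : (((x : ℤ) + 1 : ℤ) : ZMod p) ≠ 0 := by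
        rw [Ne, ZMod.intCast_zmod_eq_zero_iff_dvd]; exact hpx1
      simpa using h
    have h1 := hcon x (by omega) (by omega) ((x : ℤ) ^ 2) (Or.inl rfl)
    have h2 := hcon x (by omega) (by omega) ((x : ℤ) * (x + 1)) (Or.inr (Or.inl rfl))
    have h4 := hcon x (by omega) (by omega) (((x : ℤ) + 1) ^ 2) (Or.inr (Or.inr rfl))
    rw [fq_pow hp hpx] at h1
    rw [fq_mul hp hpx hpx1] at h2
    rw [fq_pow hp hpx1] at h4
    push_cast at h1 h2 h4
    have h5 := bad_root hp5 (x : ZMod p) hxz hxz1 (fq p x) (fq p ((x : ℤ) + 1)) T h1 h2 h4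
    exact h5
  have h1 := Finset.card_le_card hsub
  rw [hcard] at h1
  have h2 := (Multiset.toFinset_card_le g.roots).trans (card_roots' g)
  omega

end Good

end Pool.Agent.Work.MuS
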