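import Pool.Agent.Work.MP_a4986b_nt.SpW2

set_option autoImplicit false
set_option maxHeartbeats 400000

/-! # Split primes, part W3: totally split primes, conclusion -/

namespace Pool.Agent.Work.MuS

open NumberField Module IsDedekindDomain
open scoped nonZeroDivisors Pointwise
open Pool.Agent.Work.MuB

section Primes

variable {F : Type*} [Field F] [NumberField F] {p : ℕ} {a : ℤ} {θ : 𝓞 F}

theorem norm_Z_of_Q {z : 𝓞 F} (h : RingOfIntegers.norm ℚ z = (p : 𝓞 ℚ)) :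
    Algebra.norm ℤ z = p := by
  rw [← intNorm_norm (k := ℚ) z, h]
  exact_mod_cast norm_int_Q (p : ℤ)

/-- the three primes above `p` -/
theorem ts_primes (h3 : finrank ℚ F = 3) (hp : p.Prime) (hp5 : 5 ≤ p) (ha : ¬ (p : ℤ) ∣ a)
    (hn : NoRoot 0 (-a ^ 2) (-p)) (hθ : θ * (θ - (a : 𝓞 F)) * (θ + (a : 𝓞 F)) = p) :
    {P : Ideal (𝓞 F) | P.IsPrime ∧ (p : 𝓞 F) ∈ P}.ncard = 3 := by
  have hpi : Prime (p : ℤ) := Nat.prime_iff_prime_int.1 hp
  obtain ⟨n1, n2, n3⟩ := ts_norm h3 hn hθ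
  have hP1 := isPrime_span_of_norm hp θ (norm_Z_of_Q n1)
  have hP2 := isPrime_span_of_norm hp _ (norm_Z_of_Q n2)
  have hP3 := isPrime_span_of_norm hp _ (norm_Z_of_Q n3)
  have hp0 : (p : 𝓞 F) ≠ 0 := by exact_mod_cast hp.ne_zero
  have hmem1 : (p : 𝓞 F) ∈ Ideal.span {θ} := by
    rw [Ideal.mem_span_singleton, ← hθ]
    exact ⟨(θ - (a : 𝓞 F)) * (θ + (a : 𝓞 F)), by ring⟩
  have hmem2 : (p : 𝓞 F) ∈ Ideal.span {θ - (a : 𝓞 F)} := by
    rw [Ideal.mem_span_singleton, ← hθ]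
    exact ⟨θ * (θ + (a : 𝓞 F)), by ring⟩
  have hmem3 : (p : 𝓞 F) ∈ Ideal.span {θ + (a : 𝓞 F)} := by
    rw [Ideal.mem_span_singleton, ← hθ]
    exact ⟨θ * (θ - (a : 𝓞 F)), by ring⟩
  have hb : ∀ z : 𝓞 F, (p : 𝓞 F) ∈ Ideal.span {z} → (Ideal.span {z}).IsPrime →
      (Ideal.span {z}).IsMaximal := by
    intro z hz hzp
    exact hzp.isMaximal (fun h => hp0 (by rw [h] at hz; simpa using hz))
  have hm1 := hb _ hmem1 hP1
  have hm2 := hb _ hmem2 hP2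
  have hm3 := hb _ hmem3 hP3
  have hset : {P : Ideal (𝓞 F) | P.IsPrime ∧ (p : 𝓞 F) ∈ P} =
      {Ideal.span {θ}, Ideal.span {θ - (a : 𝓞 F)}, Ideal.span {θ + (a : 𝓞 F)}} := by
    ext Q
    simp only [Set.mem_ofPred_eq, Set.mem_insert_iff, Set.mem_singleton_iff]
    constructor
    · rintro ⟨hQ, hpQ⟩
      rw [← hθ] at hpQ
      rcases hQ.mem_or_mem hpQ with h | h
      · rcases hQ.mem_or_mem h with h | h
        · left
          exact (hm1.eq_of_le hQ.ne_top ((Ideal.span_singleton_le_iff_mem _).2 h)).symm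
        · right; left
          exact (hm2.eq_of_le hQ.ne_top ((Ideal.span_singleton_le_iff_mem _).2 h)).symm
      · right; right
        exact (hm3.eq_of_le hQ.ne_top ((Ideal.span_singleton_le_iff_mem _).2 h)).symm
    · rintro (rfl | rfl | rfl)
      · exact ⟨hP1, hmem1⟩
      · exact ⟨hP2, hmem2⟩
      · exact ⟨hP3, hmem3⟩
  -- distinctness
  have hunit : ∀ (P : Ideal (𝓞 F)) (c : ℤ), P.IsPrime → (p : 𝓞 F) ∈ P → ¬ (p : ℤ) ∣ c →
      (c : 𝓞 F) ∉ P := by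
    intro P c hP hpP hc hcP
    obtain ⟨r, s, hrs⟩ := (Prime.coprime_iff_not_dvd hpi).2 hc
    have hrsF : (r : 𝓞 F) * (p : 𝓞 F) + (s : 𝓞 F) * (c : 𝓞 F) = 1 := by
      exact_mod_cast congrArg (Int.cast : ℤ → 𝓞 F) hrs
    apply hP.ne_top
    rw [Ideal.eq_top_iff_one, ← hrsF]
    exact Ideal.add_mem _ (Ideal.mul_mem_left _ _ hpP) (Ideal.mul_mem_left _ _ hcP)
  have h2a : ¬ (p : ℤ) ∣ 2 * a := by
    intro h
    rcases hpi.dvd_or_dvd h with h | h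
    · have := Int.le_of_dvd (by norm_num) h
      omega
    · exact ha h
  have h12 : Ideal.span {θ} ≠ Ideal.span {θ - (a : 𝓞 F)} := by
    intro h
    apply hunit _ a hP1 hmem1 ha
    have h1 : θ - (a : 𝓞 F) ∈ Ideal.span {θ} := by
      rw [h]; exact Ideal.mem_span_singleton_self _
    have h2 := Ideal.sub_mem _ (Ideal.mem_span_singleton_self θ) h1
    rwa [sub_sub_cancel] at h2
  have h13 : Ideal.span {θ} ≠ Ideal.span {θ + (a : 𝓞 F)} := by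
    intro h
    apply hunit _ a hP1 hmem1 ha
    have h1 : θ + (a : 𝓞 F) ∈ Ideal.span {θ} := by
      rw [h]; exact Ideal.mem_span_singleton_self _
    have h2 := Ideal.sub_mem _ h1 (Ideal.mem_span_singleton_self θ)
    rwa [add_sub_cancel_left] at h2
  have h23 : Ideal.span {θ - (a : 𝓞 F)} ≠ Ideal.span {θ + (a : 𝓞 F)} := by
    intro h
    apply hunit _ (2 * a) hP2 hmem2 h2a
    have h1 : θ + (a : 𝓞 F) ∈ Ideal.span {θ - (a : 𝓞 F)} := by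
      rw [h]; exact Ideal.mem_span_singleton_self _
    have h2 := Ideal.sub_mem _ h1 (Ideal.mem_span_singleton_self (θ - (a : 𝓞 F)))
    have h3 : θ + (a : 𝓞 F) - (θ - (a : 𝓞 F)) = ((2 * a : ℤ) : 𝓞 F) := by push_cast; ring
    rwa [h3] at h2
  rw [hset]
  exact Set.ncard_eq_three.2 ⟨_, _, _, h12, h13, h23, rfl⟩

end Primes

/-- a cubic field with nonsquare discriminant is not Galois -/
theorem not_isGalois_of_nonsq {a b c : ℤ} (hn : NoRoot a b c) (hsq : ¬ IsSquare (gcd3 a b c))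
    (F : Type) [Field F] [NumberField F] (θ : 𝓞 F) (hF : finrank ℚ F = 3)
    (hθ : θ ^ 3 + a * θ ^ 2 + b * θ + c = 0) : ¬ IsGalois ℚ F := by
  intro hG
  obtain ⟨C, -, h⟩ := gc_quad
  obtain ⟨φ0⟩ : Nonempty (F →+* ℂ) := inferInstance
  let φ : F →ₐ[ℚ] ℂ := φ0.toRatAlgHom
  set N : IntermediateField ℚ ℂ := φ.fieldRange with hN
  let e : F ≃ₐ[ℚ] N := AlgEquiv.ofInjectiveField φ
  have hNnf : NumberField N := NumberField.of_ringEquiv F N e.toRingEquiv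
  have hNg' : @IsGalois ℚ _ N _ N.algebra' := IsGalois.of_algEquiv e
  have hNg : IsGalois ℚ N := Mu22.cc_cast _ _ hNg'
  have hN3 : @finrank ℚ N _ _ N.algebra'.toModule = 3 := by
    rw [← hF]; exact (LinearEquiv.finrank_eq e.toLinearEquiv).symm
  obtain ⟨Y, hYn, hYN, hY2, -⟩ := h a b c hn hsq F θ hF hθ N (e : F →+* N)
  have hNf : FiniteDimensional ℚ N := FiniteDimensional.of_finrank_pos (by rw [hN3]; norm_num)
  have h1 : finrank ℚ Y ∣ finrank ℚ N := IntermediateField.finrank_dvd_of_le_right hYN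
  rw [hY2, hN3] at h1
  omega

theorem pow_sub_le {u v : ℝ} (hv : 0 ≤ v) (hu : 0 < u) (n : ℕ) :
    u ^ (n + 1) - v ^ (n + 1) ≤ (n + 1) * (u - v) * u ^ n := by
  have h1 : (-2 : ℝ) ≤ v / u - 1 := by
    have : 0 ≤ v / u := by positivity
    linarith
  have h2 := one_add_mul_le_pow h1 (n + 1)
  rw [add_sub_cancel] at h2
  have h3 := mul_le_mul_of_nonneg_left h2 (show 0 ≤ u ^ (n + 1) by positivity)
  rw [div_pow, mul_div_cancel₀ _ (by positivity)] at h3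
  have h4 : u ^ (n + 1) * (1 + ((n + 1 : ℕ) : ℝ) * (v / u - 1)) =
      u ^ (n + 1) - (n + 1) * (u - v) * u ^ n := by
    push_cast
    field_simp
    ring
  linarith

/-- the choice of `x` -/
theorem ts_x (p : ℕ) : ∃ x : ℕ, 4 * x ^ 12 ≤ 27 * p ^ 2 ∧ 27 * p ^ 2 < 4 * (x + 1) ^ 12 := by
  classical
  have hex : ∃ x : ℕ, 27 * p ^ 2 < 4 * (x + 1) ^ 12 := by
    refine ⟨27 * p ^ 2, ?_⟩
    have h1 : 27 * p ^ 2 + 1 ≤ (27 * p ^ 2 + 1) ^ 12 := Nat.le_self_pow (by norm_num) _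
    omega
  refine ⟨Nat.find hex, ?_, Nat.find_spec hex⟩
  rcases Nat.eq_zero_or_pos (Nat.find hex) with h0 | h0
  · rw [h0]; simp
  · have h1 := Nat.find_min hex (m := Nat.find hex - 1) (by omega)
    push Not at h1
    rwa [Nat.sub_add_cancel h0] at h1

theorem ts_size {p x0 : ℕ} (hx0 : 32 ≤ x0) (h1 : 4 * x0 ^ 12 ≤ 27 * p ^ 2)
    (h2 : 27 * p ^ 2 < 4 * (x0 + 1) ^ 12) (hp : 0 < p) {a : ℝ} (ha1 : ((x0 : ℝ) - 31) ^ 2 ≤ a)
    (ha2 : a ≤ (x0 : ℝ) ^ 2) :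
    |4 * a ^ 6 - 27 * (p : ℝ) ^ 2| ≤ 22020096 * (p : ℝ) ^ (11 / 6 : ℝ) := by
  have hx : (32 : ℝ) ≤ x0 := by exact_mod_cast hx0
  have hp0 : (0 : ℝ) < p := by exact_mod_cast hp
  have p1 : 4 * (x0 : ℝ) ^ 12 ≤ 27 * (p : ℝ) ^ 2 := by exact_mod_cast h1
  have p2 : 27 * (p : ℝ) ^ 2 < 4 * ((x0 : ℝ) + 1) ^ 12 := by exact_mod_cast h2
  have c3 : ((x0 : ℝ) - 31) ^ 12 ≤ a ^ 6 := by
    calc ((x0 : ℝ) - 31) ^ 12 = (((x0 : ℝ) - 31) ^ 2) ^ 6 := by ring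
      _ ≤ a ^ 6 := pow_le_pow_left₀ (by positivity) ha1 6
  have c4 : a ^ 6 ≤ (x0 : ℝ) ^ 12 := by
    calc a ^ 6 ≤ ((x0 : ℝ) ^ 2) ^ 6 := pow_le_pow_left₀ ((by positivity : (0 : ℝ) ≤
          ((x0 : ℝ) - 31) ^ 2).trans ha1) ha2 6
      _ = _ := by ring
  have hd := pow_sub_le (u := (x0 : ℝ) + 1) (v := (x0 : ℝ) - 31) (by linarith)
    (by linarith) 11
  norm_num at hd
  have hd2 : ((x0 : ℝ) + 1) ^ 11 ≤ 2048 * (x0 : ℝ) ^ 11 := by
    calc ((x0 : ℝ) + 1) ^ 11 ≤ (2 * (x0 : ℝ)) ^ 11 :=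
          pow_le_pow_left₀ (by linarith) (by linarith) 11
      _ = _ := by ring
  have hx11 : (x0 : ℝ) ^ 11 ≤ 7 * (p : ℝ) ^ (11 / 6 : ℝ) := by
    have e1 : (x0 : ℝ) ^ 12 ≤ 7 * (p : ℝ) ^ 2 := by nlinarith [sq_nonneg (p : ℝ)]
    have e2 : (x0 : ℝ) ^ 11 = ((x0 : ℝ) ^ 12) ^ (11 / 12 : ℝ) := by
      rw [← Real.rpow_natCast, ← Real.rpow_natCast, ← Real.rpow_mul (by linarith)]
      norm_num
    rw [e2]
    calc ((x0 : ℝ) ^ 12) ^ (11 / 12 : ℝ) ≤ (7 * (p : ℝ) ^ 2) ^ (11 / 12 : ℝ) :=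
          Real.rpow_le_rpow (by positivity) e1 (by norm_num)
      _ = (7 : ℝ) ^ (11 / 12 : ℝ) * ((p : ℝ) ^ 2) ^ (11 / 12 : ℝ) :=
          Real.mul_rpow (by norm_num) (by positivity)
      _ = (7 : ℝ) ^ (11 / 12 : ℝ) * (p : ℝ) ^ (11 / 6 : ℝ) := by
          rw [← Real.rpow_natCast, ← Real.rpow_mul hp0.le]
          norm_num
      _ ≤ 7 * (p : ℝ) ^ (11 / 6 : ℝ) := by
          refine mul_le_mul_of_nonneg_right ?_ (by positivity)
          calc (7 : ℝ) ^ (11 / 12 : ℝ) ≤ (7 : ℝ) ^ (1 : ℝ) :=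
                Real.rpow_le_rpow_of_exponent_le (by norm_num) (by norm_num)
            _ = 7 := Real.rpow_one 7
  rw [abs_le]
  constructor
  · nlinarith
  · have : 0 ≤ (p : ℝ) ^ (11 / 6 : ℝ) := by positivity
    linarith

/-- **every large prime**, `p` totally split -/
theorem all_large_split : ∃ p0 : ℕ, ∀ p : ℕ, p.Prime → p0 ≤ p →
    ∃ (F : Type) (_ : Field F) (_ : NumberField F), finrank ℚ F = 3 ∧ ¬ IsGalois ℚ F ∧
      {P : Ideal (𝓞 F) | P.IsPrime ∧ (p : 𝓞 F) ∈ P}.ncard = 3 ∧ SplitExtensions p 2 F := by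
  obtain ⟨p1, h1⟩ := gc_class 3 (Or.inr rfl) 22020096 (1 / 6) (by norm_num)
  refine ⟨max p1 (35 ^ 12), fun p hp hpp => ?_⟩
  have hp1 : p1 ≤ p := (le_max_left _ _).trans hpp
  have hp2 : 35 ^ 12 ≤ p := (le_max_right _ _).trans hpp
  have hp5 : 5 ≤ p := le_trans (by norm_num) hp2
  have hpi := Nat.prime_iff_prime_int.mp hp
  obtain ⟨x0, hx1, hx2⟩ := ts_x p
  have hx34 : 34 ≤ x0 := by
    by_contra h
    have h3 : (x0 + 1) ^ 12 ≤ 34 ^ 12 := Nat.pow_le_pow_left (by omega) 12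
    have h4 : 35 ^ 12 ≤ p ^ 2 := hp2.trans (Nat.le_self_pow (by norm_num) p)
    have h5 : 4 * 34 ^ 12 < 27 * 35 ^ 12 := by norm_num
    omega
  have hx0 : 32 ≤ x0 := by omega
  have hxp : x0 ^ 2 + 2 < p := by
    by_contra h
    push Not at h
    have h3 : p ≤ 2 * x0 ^ 2 := by nlinarith
    have h4 : p ^ 6 ≤ 64 * x0 ^ 12 := by
      calc p ^ 6 ≤ (2 * x0 ^ 2) ^ 6 := Nat.pow_le_pow_left h3 6
        _ = 64 * x0 ^ 12 := by ring
    have h5 : p ^ 6 ≤ 16 * (27 * p ^ 2) := by omega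
    have h6 : p ^ 4 ≤ 432 := by
      have h7 : p ^ 4 * p ^ 2 ≤ 432 * p ^ 2 := by
        calc p ^ 4 * p ^ 2 = p ^ 6 := by ring
          _ ≤ 16 * (27 * p ^ 2) := h5
          _ = 432 * p ^ 2 := by ring
      exact Nat.le_of_mul_le_mul_right h7 (pow_pos hp.pos 2)
    have h7 : p ≤ p ^ 4 := Nat.le_self_pow (by norm_num) p
    have h8 : (432 : ℕ) < 35 ^ 12 := by norm_num
    omega
  obtain ⟨x, hxa, hxb, a, ha, hgood⟩ := exists_good_a hp hp5 x0 hx0 (by nlinarith)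
  have hx' : (3 : ℤ) ≤ x := by omega
  have hxb' : (x : ℤ) + 1 ≤ x0 := by exact_mod_cast hxb
  have ha1 : (x : ℤ) ^ 2 ≤ a := by rcases ha with rfl | rfl | rfl <;> nlinarith
  have ha2 : a ≤ (x0 : ℤ) ^ 2 := by
    have : ((x : ℤ) + 1) ^ 2 ≤ (x0 : ℤ) ^ 2 := pow_le_pow_left₀ (by positivity) hxb' 2
    rcases ha with rfl | rfl | rfl <;> nlinarith
  have hap : a < p := by
    have : (x0 : ℤ) ^ 2 + 2 < p := by exact_mod_cast hxp
    omega
  have ha0 : 0 < a := by nlinarith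
  have hpa : ¬ (p : ℤ) ∣ a := fun h => by
    have := Int.le_of_dvd ha0 h
    omega
  have ha3 : 3 ≤ a := by nlinarith
  have hn := ts_noroot hp ha3 hap
  obtain ⟨F, _, _, θ, hF, hθ⟩ := gc_exists hn
  have hθ' : θ * (θ - (a : 𝓞 F)) * (θ + (a : 𝓞 F)) = p := by
    push_cast at hθ
    linear_combination hθ
  have hD : gcd3 0 (-a ^ 2) (-p) = 4 * a ^ 6 - 27 * p ^ 2 := by
    rw [gcd3]; ring
  have hDne := gc_discr_ne hF hn θ hθ
  have hDneg : gcd3 0 (-a ^ 2) (-p) < 0 := by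
    refine lt_of_le_of_ne ?_ hDne
    rw [hD]
    have h3 : a ^ 6 ≤ (x0 : ℤ) ^ 12 := by
      calc a ^ 6 ≤ ((x0 : ℤ) ^ 2) ^ 6 := pow_le_pow_left₀ ha0.le ha2 6
        _ = _ := by ring
    have h4 : 4 * (x0 : ℤ) ^ 12 ≤ 27 * (p : ℤ) ^ 2 := by exact_mod_cast hx1
    linarith
  have hsq : ¬ IsSquare (gcd3 0 (-a ^ 2) (-p)) := by
    rintro ⟨r, hr⟩
    have := mul_self_nonneg r
    omega
  have hng := not_isGalois_of_nonsq hn hsq F θ hF hθ
  have hncard := ts_primes hF hp hp5 hpa hn hθ'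
  have hbound : |(discr F : ℝ)| ≤ 22020096 * (p : ℝ) ^ (2 - 1 / 6 : ℝ) := by
    refine (gc_bound hF hn θ hθ).trans ?_
    rw [hD]
    push_cast
    have e : (2 - 1 / 6 : ℝ) = 11 / 6 := by norm_num
    rw [e]
    refine ts_size hx0 hx1 hx2 hp.pos ?_ (by exact_mod_cast ha2)
    have h3 : ((x0 : ℝ) - 31) ≤ x := by
      have : (x0 : ℝ) ≤ x + 31 := by exact_mod_cast hxa
      linarith
    have h4 : (0 : ℝ) ≤ (x0 : ℝ) - 31 := by
      have : (32 : ℝ) ≤ x0 := by exact_mod_cast hx0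
      linarith
    calc ((x0 : ℝ) - 31) ^ 2 ≤ (x : ℝ) ^ 2 := pow_le_pow_left₀ h4 h3 2
      _ ≤ (a : ℝ) := by exact_mod_cast ha1
  have hcl := h1 p hp hp1 F hF hbound
  obtain ⟨A, B, γ, c, D⟩ := ts_gross hF hp hp5 hpa hn hθ' hgood
  have hb : LayerBound p 2 F :=
    layerBound_r hp (by omega) (by rw [hF]; omega) D (by rw [← ncard_pv p hp, hncard]) hcl
  exact ⟨F, inferInstance, inferInstance, hF, hng, hncard, hb.split hp (by omega)⟩

end Pool.Agent.Work.MuS
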