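import Pool.Agent.Work.MP_a4986b_nt.SpYa
import Pool.Agent.Work.MP_a4986b_nt.CIdeal

set_option autoImplicit false
set_option maxHeartbeats 400000

/-! # Split primes: many pairwise non-isomorphic fields -/

namespace Pool.Agent.Work.MuS

open NumberField Module IsDedekindDomain
open scoped nonZeroDivisors Pointwise
open Pool.Agent.Work.MuB

theorem primes_finite (F : Type*) [Field F] [NumberField F] {p : ℕ} (hp : p.Prime) :
    {P : Ideal (𝓞 F) | P.IsPrime ∧ (p : 𝓞 F) ∈ P}.Finite := by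
  rw [CDecomp.primesOver_eq _ hp]
  have h := CDecomp.finite_po (M := F) hp
  exact Set.toFinite _

/-- the transported root -/
theorem root_map {F F' : Type*} [Field F] [NumberField F] [Field F'] [NumberField F']
    (e : F ≃+* F') {A B C : ℤ} {θ : 𝓞 F} (h : θ ^ 3 + A * θ ^ 2 + B * θ + C = 0) :
    (RingOfIntegers.mapRingEquiv e θ) ^ 3 + A * (RingOfIntegers.mapRingEquiv e θ) ^ 2 +
      B * (RingOfIntegers.mapRingEquiv e θ) + C = 0 := by
  have h1 := congrArg (RingOfIntegers.mapRingEquiv e) h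
  rw [map_add, map_add, map_add, map_mul, map_mul, map_pow, map_pow, map_intCast, map_intCast,
    map_intCast, map_zero] at h1
  exact h1

/-- a common root of two of the cubics -/
theorem same_cubic {F : Type*} [Field F] [NumberField F] {A B A' B' C : ℤ} (hn : NoRoot A B C)
    {θ : 𝓞 F} (hθ : θ ^ 3 + A * θ ^ 2 + B * θ + C = 0)
    (hθ' : θ ^ 3 + A' * θ ^ 2 + B' * θ + C = 0) : A = A' ∧ B = B' := by
  have hnr := hn.not_rat θ hθ
  have h1 := gc_F θ hθ
  have h2 := gc_F θ hθ'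
  have h0 : (θ : F) ≠ 0 := by
    intro h
    apply hnr
    rw [h]
    exact ⟨0, map_zero _⟩
  have h3 : (((A - A' : ℤ) : F)) * (θ : F) + ((B - B' : ℤ) : F) = 0 := by
    apply mul_left_cancel₀ h0
    push_cast
    linear_combination h1 - h2
  by_cases hA : A = A'
  · refine ⟨hA, ?_⟩
    rw [hA, sub_self, Int.cast_zero, zero_mul, zero_add] at h3
    have h4 : B - B' = 0 := by exact_mod_cast h3
    linarith
  · exfalso
    apply hnr
    have h4 : ((A - A' : ℤ) : F) ≠ 0 := by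
      exact_mod_cast sub_ne_zero.2 hA
    refine ⟨-((B - B' : ℤ) : ℚ) / ((A - A' : ℤ) : ℚ), ?_⟩
    rw [map_div₀, map_neg, map_intCast, map_intCast, div_eq_iff h4]
    linear_combination -h3

/-- the extraction of pairwise non-isomorphic fields: at most three fields of a family in a
class, since at most three primes are above `p` -/
theorem many_of_close {n p : ℕ} (hp : p.Prime)
    {T : ∀ (F : Type) [Field F] [NumberField F], Prop} (A B : Fin (3 * n) → ℤ)
    (hn : ∀ i, NoRoot (A i) (B i) (-p)) (hne : ∀ i j, i ≠ j → A i ≠ A j ∨ B i ≠ B j)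
    {a b g : ℝ} (hg : 0 < g) (hab : b - a = g) (ha : |a| ≤ 4 / 3 * g) (hb : |b| ≤ 4 / 3 * g)
    (hgp : g ^ 3 / 25 ≤ p)
    (hclose : ∀ i, ∃ α β : ℝ, (A i : ℝ) = -(2 * α + β) ∧ (B i : ℝ) = α ^ 2 + 2 * α * β ∧
      |α - a| ≤ g / 1000 ∧ |β - b| ≤ g / 1000 ∧ |(p : ℝ) - α ^ 2 * β| ≤ (g / 1000) ^ 3)
    (hT : ∀ (i : Fin (3 * n)) (F : Type) [Field F] [NumberField F] (θ : 𝓞 F),
      finrank ℚ F = 3 → θ ^ 3 + A i * θ ^ 2 + B i * θ + (-p : ℤ) = 0 → T F) :
    ManyFields n T := by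
  classical
  choose F iF iN θ hF hθ using fun i => gc_exists (hn i)
  choose α β hA hB hα hβ he using hclose
  let s : Setoid (Fin (3 * n)) := ⟨fun i j => Nonempty (F i ≃+* F j),
    ⟨fun i => ⟨RingEquiv.refl _⟩, fun ⟨e⟩ => ⟨e.symm⟩, fun ⟨e⟩ ⟨f⟩ => ⟨e.trans f⟩⟩⟩
  have hfib : ∀ i, (Finset.univ.filter fun j => Nonempty (F j ≃+* F i)).card ≤ 3 := by
    intro i
    let f : Fin (3 * n) → 𝓞 (F i) := fun j =>
      if h : Nonempty (F j ≃+* F i) then RingOfIntegers.mapRingEquiv h.some (θ j) else 0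
    have hf : ∀ j, Nonempty (F j ≃+* F i) →
        (f j) ^ 3 + A j * (f j) ^ 2 + B j * (f j) + (-p : ℤ) = 0 := by
      intro j hj
      have : f j = RingOfIntegers.mapRingEquiv hj.some (θ j) := dif_pos hj
      rw [this]
      exact root_map _ (hθ j)
    have hmaps : ∀ j ∈ ((Finset.univ.filter fun j => Nonempty (F j ≃+* F i) :
        Finset (Fin (3 * n))) : Set (Fin (3 * n))),
        Ideal.span {f j} ∈ {P : Ideal (𝓞 (F i)) | P.IsPrime ∧ (p : 𝓞 (F i)) ∈ P} := by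
      intro j hj
      have hj' := (Finset.mem_filter.1 (Finset.mem_coe.1 hj)).2
      have h1 := hf j hj'
      refine ⟨?_, ?_⟩
      · apply isPrime_span_of_norm hp
        apply norm_Z_of_Q
        have h2 := gc_norm (hF i) (hn j) (f j) h1 0
        rw [Int.cast_zero, add_zero] at h2
        rw [h2]
        push_cast
        ring
      · rw [Ideal.mem_span_singleton]
        refine ⟨(f j) ^ 2 + A j * (f j) + B j, ?_⟩
        push_cast at h1
        linear_combination -h1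
    have hinj : Set.InjOn (fun j => Ideal.span {f j}) ((Finset.univ.filter fun j =>
        Nonempty (F j ≃+* F i) : Finset (Fin (3 * n))) : Set (Fin (3 * n))) := by
      intro j hj k hk hjk
      have hj' := (Finset.mem_filter.1 (Finset.mem_coe.1 hj)).2
      have hk' := (Finset.mem_filter.1 (Finset.mem_coe.1 hk)).2
      by_contra hne'
      have hdvd : f j ∣ f k := by
        have h2 : Ideal.span {f k} ≤ Ideal.span {f j} := le_of_eq hjk.symm
        exact (Ideal.span_singleton_le_span_singleton).1 h2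
      have h3 := close_eq (hF i) hdvd (hn j) (hn k) (hf j hj') (hf k hk') hg hab ha hb hgp
        (hA j) (hB j) (hA k) (hB k) (hα j) (hβ j) (hα k) (hβ k) (he j) (he k)
      have h4 := hf k hk'
      rw [h3] at h4
      have h5 := same_cubic (hn j) (hf j hj') h4
      rcases hne j k hne' with h6 | h6
      · exact h6 h5.1
      · exact h6 h5.2
    have h1 := Set.ncard_le_ncard_of_injOn _ hmaps hinj (primes_finite (F i) hp)
    rw [Set.ncard_coe_finset] at h1
    exact h1.trans ((CIdeal.ncard_le (F i) hp).trans (le_of_eq (hF i)))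
  have hcard : n ≤ Fintype.card (Quotient s) := by
    have h1 := Finset.card_le_mul_card_image (f := Quotient.mk s)
      (Finset.univ : Finset (Fin (3 * n))) 3 (by
        intro q hq
        obtain ⟨i, -, rfl⟩ := Finset.mem_image.1 hq
        refine le_trans (le_of_eq ?_) (hfib i)
        congr 1
        ext j
        simp only [Finset.mem_filter, Finset.mem_univ, true_and]
        exact Quotient.eq (r := s))
    rw [Finset.card_univ, Fintype.card_fin] at h1
    have h2 := Finset.card_le_univ (Finset.univ.image (Quotient.mk s))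
    omega
  obtain ⟨em⟩ := Function.Embedding.nonempty_of_card_le
    (show Fintype.card (Fin n) ≤ Fintype.card (Quotient s) by rwa [Fintype.card_fin])
  refine ⟨fun i => F (em i).out, fun i => iF _, fun i => iN _, ?_, ?_⟩
  · intro i j hij
    apply em.injective
    have h1 : Quotient.mk s (em i).out = Quotient.mk s (em j).out := Quotient.sound hij
    rwa [Quotient.out_eq, Quotient.out_eq] at h1
  · intro i
    exact hT (em i).out _ (θ _) (hF _) (hθ _)

theorem many_zero (T : ∀ (F : Type) [Field F] [NumberField F], Prop) : ManyFields 0 T :=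
  ⟨fun i => i.elim0, fun i => i.elim0, fun i => i.elim0, fun i => i.elim0, fun i => i.elim0⟩

/-- growth: `C n p ^ (2 - δ) ≤ C p ^ (2 - δ')` if `n ^ k ≤ p`, `δ' = δ - 1 / k` -/
theorem grow_n {p n k : ℕ} (hp : 0 < p) (hk : 0 < k) (hn : n ^ k ≤ p) {δ δ' : ℝ}
    (hδ : δ' = δ - 1 / k) : (n : ℝ) * (p : ℝ) ^ (2 - δ) ≤ (p : ℝ) ^ (2 - δ') := by
  have hP0 : (0 : ℝ) < p := by exact_mod_cast hp
  have h1 : (n : ℝ) ≤ (p : ℝ) ^ (1 / k : ℝ) := by
    have h3 : (n : ℝ) ^ k ≤ p := by exact_mod_cast hn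
    have hk0 : (k : ℝ) ≠ 0 := by exact_mod_cast hk.ne'
    calc (n : ℝ) = ((n : ℝ) ^ k) ^ (1 / k : ℝ) := by
          rw [← Real.rpow_natCast, ← Real.rpow_mul (Nat.cast_nonneg n), mul_one_div_cancel hk0,
            Real.rpow_one]
      _ ≤ (p : ℝ) ^ (1 / k : ℝ) := Real.rpow_le_rpow (by positivity) h3 (by positivity)
  have h2 : (2 - δ' : ℝ) = 1 / k + (2 - δ) := by rw [hδ]; ring
  rw [h2, Real.rpow_add hP0]
  exact mul_le_mul_of_nonneg_right h1 (by positivity)

/-- growth: `C p ^ (2 - δ) ≤ p² / 10 ^ 10` for large `p` -/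
theorem grow_C {p C k : ℕ} (hp : 0 < p) (hk : 0 < k) (hC : (C * 10 ^ 10) ^ k ≤ p) {δ : ℝ}
    (hδ : 1 / (k : ℝ) ≤ δ) : (C : ℝ) * (p : ℝ) ^ (2 - δ) ≤ (p : ℝ) ^ 2 / 10 ^ 10 := by
  have hP1 : (1 : ℝ) ≤ p := by exact_mod_cast hp
  have hP0 : (0 : ℝ) < p := by linarith
  have h1 : (C : ℝ) * 10 ^ 10 ≤ (p : ℝ) ^ δ := by
    have h3 : ((C : ℝ) * 10 ^ 10) ^ k ≤ p := by exact_mod_cast hC
    have hk0 : (k : ℝ) ≠ 0 := by exact_mod_cast hk.ne'
    have h5 : 0 ≤ (C : ℝ) * 10 ^ 10 := by positivity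
    obtain ⟨y, hy⟩ : ∃ y : ℝ, y = (C : ℝ) * 10 ^ 10 := ⟨_, rfl⟩
    rw [← hy] at h3 h5 ⊢
    calc y = (y ^ k) ^ (1 / k : ℝ) := by
          rw [← Real.rpow_natCast, ← Real.rpow_mul h5, mul_one_div_cancel hk0, Real.rpow_one]
      _ ≤ (p : ℝ) ^ (1 / k : ℝ) := Real.rpow_le_rpow (by positivity) h3 (by positivity)
      _ ≤ (p : ℝ) ^ δ := Real.rpow_le_rpow_of_exponent_le hP1 hδ
  have hsplit : (p : ℝ) ^ (2 - δ) * (p : ℝ) ^ δ = (p : ℝ) ^ 2 := by
    rw [← Real.rpow_add hP0, ← Real.rpow_natCast, sub_add_cancel]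
    norm_num
  rw [le_div_iff₀ (by positivity), ← hsplit]
  calc (C : ℝ) * (p : ℝ) ^ (2 - δ) * 10 ^ 10 = (p : ℝ) ^ (2 - δ) * ((C : ℝ) * 10 ^ 10) := by ring
    _ ≤ _ := mul_le_mul_of_nonneg_left h1 (by positivity)

theorem pow24_le {n M p : ℕ} (h1 : 1 ≤ n) (hn : n ^ 50 ≤ p) (hM : M ^ 48 ≤ p) :
    (M * n) ^ 24 ≤ p := by
  have h2 : ((M * n) ^ 24) ^ 2 ≤ p ^ 2 := by
    calc ((M * n) ^ 24) ^ 2 = M ^ 48 * n ^ 48 := by ring
      _ ≤ p * n ^ 50 := Nat.mul_le_mul hM (Nat.pow_le_pow_right h1 (by norm_num))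
      _ ≤ p * p := Nat.mul_le_mul_left _ hn
      _ = p ^ 2 := by ring
  exact (Nat.pow_le_pow_iff_left two_ne_zero).1 h2

theorem pow6_le {n M p : ℕ} (hn : n ^ 7 ≤ p) (hM : M ^ 42 ≤ p) : (M * n) ^ 6 ≤ p := by
  have h2 : ((M * n) ^ 6) ^ 7 ≤ p ^ 7 := by
    calc ((M * n) ^ 6) ^ 7 = M ^ 42 * (n ^ 7) ^ 6 := by ring
      _ ≤ p * p ^ 6 := Nat.mul_le_mul hM (Nat.pow_le_pow_left hn 6)
      _ = p ^ 7 := by ring
  exact (Nat.pow_le_pow_iff_left (by norm_num)).1 h2

end Pool.Agent.Work.MuS
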