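import Pool.Agent.Work.MP_a4986b_nt.SpY3

set_option autoImplicit false
set_option maxHeartbeats 1000000

/-! # Split primes, many fields with `(p) = P Q²` -/

namespace Pool.Agent.Work.MuS

open NumberField Module IsDedekindDomain
open scoped nonZeroDivisors Pointwise
open Pool.Agent.Work.MuB

theorem sc_noroot {p : ℕ} (hp : p.Prime) {c : ℤ} (hc0 : 0 < c) (hcp : c + 1 < p) :
    NoRoot (-2 * c) (c ^ 2) (-p) := by
  intro r hr
  have hpi := Nat.prime_iff_prime_int.mp hp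
  have hp1 : (2 : ℤ) ≤ p := by exact_mod_cast hp.two_le
  have h1 : r * (r - c) ^ 2 = p := by linear_combination hr
  rcases hpi.irreducible.isUnit_or_isUnit h1.symm with h2 | h2
  · rcases Int.isUnit_iff.mp h2 with rfl | rfl
    · have h3 : (1 - c) * (1 - c) = p := by linear_combination h1
      rcases hpi.irreducible.isUnit_or_isUnit h3.symm with h4 | h4 <;>
        rcases Int.isUnit_iff.mp h4 with h5 | h5 <;> rw [h5] at h3 <;> omega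
    · have h3 := sq_nonneg (-1 - c)
      omega
  · have h3 : IsUnit (r - c) := (isUnit_pow_iff two_ne_zero).1 h2
    rcases Int.isUnit_iff.mp h3 with h4 | h4 <;> rw [h4] at h1 <;> omega

theorem sc_size_real {P X κ c : ℝ} (hP : 0 < P) (hκ : 0 ≤ κ) (hX : κ + 1 ≤ X)
    (p1 : 4 * X ^ 6 ≤ 27 * P) (p2 : 27 * P < 4 * (X + 1) ^ 6)
    (ha1 : (X - κ) ^ 2 ≤ c) (ha2 : c ≤ X ^ 2) :
    |P * (4 * c ^ 3 - 27 * P)| ≤ 5376 * (κ + 1) * P ^ (11 / 6 : ℝ) := by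
  have hX1 : 1 ≤ X := by linarith
  have c3 : (X - κ) ^ 6 ≤ c ^ 3 := by
    calc (X - κ) ^ 6 = ((X - κ) ^ 2) ^ 3 := by ring
      _ ≤ c ^ 3 := pow_le_pow_left₀ (by positivity) ha1 3
  have c4 : c ^ 3 ≤ X ^ 6 := by
    calc c ^ 3 ≤ (X ^ 2) ^ 3 := pow_le_pow_left₀ ((sq_nonneg _).trans ha1) ha2 3
      _ = _ := by ring
  have hd := pow_sub_le (u := X + 1) (v := X - κ) (by linarith) (by linarith) 5
  have d0 : X + 1 - (X - κ) = κ + 1 := by ring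
  rw [d0] at hd
  norm_num at hd
  have hd2 : (X + 1) ^ 5 ≤ 32 * X ^ 5 := by
    calc (X + 1) ^ 5 ≤ (2 * X) ^ 5 := pow_le_pow_left₀ (by linarith) (by linarith) 5
      _ = _ := by ring
  have h5 : X ^ 5 ≤ 7 * P ^ (5 / 6 : ℝ) := by
    have e1 : X ^ 6 ≤ 7 * P := by linarith
    have e2 : X ^ 5 = (X ^ 6) ^ (5 / 6 : ℝ) := by
      rw [← Real.rpow_natCast, ← Real.rpow_natCast, ← Real.rpow_mul (by linarith)]
      norm_num
    rw [e2]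
    calc (X ^ 6) ^ (5 / 6 : ℝ) ≤ (7 * P) ^ (5 / 6 : ℝ) :=
          Real.rpow_le_rpow (by positivity) e1 (by norm_num)
      _ = (7 : ℝ) ^ (5 / 6 : ℝ) * P ^ (5 / 6 : ℝ) := Real.mul_rpow (by norm_num) hP.le
      _ ≤ 7 * P ^ (5 / 6 : ℝ) := by
          refine mul_le_mul_of_nonneg_right ?_ (by positivity)
          calc (7 : ℝ) ^ (5 / 6 : ℝ) ≤ (7 : ℝ) ^ (1 : ℝ) :=
                Real.rpow_le_rpow_of_exponent_le (by norm_num) (by norm_num)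
            _ = 7 := Real.rpow_one 7
  have v1 : 6 * (κ + 1) * (X + 1) ^ 5 ≤ 6 * (κ + 1) * (32 * X ^ 5) :=
    mul_le_mul_of_nonneg_left hd2 (by linarith)
  have v2 : 192 * (κ + 1) * X ^ 5 ≤ 192 * (κ + 1) * (7 * P ^ (5 / 6 : ℝ)) :=
    mul_le_mul_of_nonneg_left h5 (by linarith)
  have v3 : 0 ≤ (κ + 1) * P ^ (5 / 6 : ℝ) := mul_nonneg (by linarith) (by positivity)
  have h4 : |4 * c ^ 3 - 27 * P| ≤ 5376 * (κ + 1) * P ^ (5 / 6 : ℝ) := by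
    rw [abs_le]
    constructor <;> linarith
  rw [abs_mul, abs_of_pos hP]
  calc P * |4 * c ^ 3 - 27 * P| ≤ P * (5376 * (κ + 1) * P ^ (5 / 6 : ℝ)) :=
        mul_le_mul_of_nonneg_left h4 hP.le
    _ = 5376 * (κ + 1) * (P ^ (1 : ℝ) * P ^ (5 / 6 : ℝ)) := by
        rw [Real.rpow_one]; ring
    _ = 5376 * (κ + 1) * P ^ (11 / 6 : ℝ) := by
        rw [← Real.rpow_add hP]
        norm_num

theorem sc_close {P X κ c : ℝ} (hP : 1 ≤ P) (hX : 1 ≤ X) (hXκ : 4000 * κ ≤ X)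
    (p2 : 27 * P < 4 * (X + 1) ^ 6) (ha1 : (X - κ) ^ 2 ≤ c) (ha2 : c ≤ X ^ 2)
    (hD : |P * (4 * c ^ 3 - 27 * P)| ≤ P ^ 2 / 10 ^ 10) :
    |c / 3 - X ^ 2 / 3| ≤ X ^ 2 / 1000 ∧ |4 * c / 3 - 4 * X ^ 2 / 3| ≤ X ^ 2 / 1000 ∧
    |P - (c / 3) ^ 2 * (4 * c / 3)| ≤ (X ^ 2 / 1000) ^ 3 := by
  have hd : X ^ 2 - c ≤ X ^ 2 / 2000 := by
    have h1 : X ^ 2 - c ≤ 2 * κ * X := by nlinarith [sq_nonneg κ]
    have h2 : 2 * κ * X ≤ X ^ 2 / 2000 := by nlinarith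
    linarith
  have hd0 : 0 ≤ X ^ 2 - c := by linarith
  have hX2 : 0 ≤ X ^ 2 := sq_nonneg X
  refine ⟨?_, ?_, ?_⟩
  · rw [abs_le]
    constructor <;> linarith
  · rw [abs_le]
    constructor <;> linarith
  · rw [abs_mul, abs_of_nonneg (by linarith : (0 : ℝ) ≤ P)] at hD
    have h1 : |4 * c ^ 3 - 27 * P| ≤ P / 10 ^ 10 := by
      have h2 : |4 * c ^ 3 - 27 * P| * P ≤ (P / 10 ^ 10) * P := by
        calc |4 * c ^ 3 - 27 * P| * P = P * |4 * c ^ 3 - 27 * P| := by ring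
          _ ≤ P ^ 2 / 10 ^ 10 := hD
          _ = (P / 10 ^ 10) * P := by ring
      exact le_of_mul_le_mul_right h2 (by linarith)
    have h6 : (X + 1) ^ 6 ≤ 64 * X ^ 6 := by
      calc (X + 1) ^ 6 ≤ (2 * X) ^ 6 := pow_le_pow_left₀ (by linarith) (by linarith) 6
        _ = _ := by ring
    have e : P - (c / 3) ^ 2 * (4 * c / 3) = -((4 * c ^ 3 - 27 * P) / 27) := by ring
    have e3 : (X ^ 2 / 1000) ^ 3 = X ^ 6 / 10 ^ 9 := by ring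
    rw [e, e3, abs_neg, abs_div, abs_of_pos (by norm_num : (0 : ℝ) < 27)]
    norm_num at h1 ⊢
    linarith

/-- the fields `θ (θ - c)² = p` for one value of `c` -/
theorem sc_field {p : ℕ} (hp : p.Prime) (hp5 : 5 ≤ p) {c : ℤ} (hc0 : 0 < c) (hcp : c + 1 < p)
    (hpc : ¬ (p : ℤ) ∣ c) (hgood : ¬ (p : ℤ) ^ 2 ∣ c ^ (p - 1) * (c ^ 3 + p) - c ^ 3)
    {C B : ℝ} (hC : 0 ≤ C)
    (hquad : ∀ (p : ℕ), p.Prime → 5 ≤ p → ∀ c : ℤ, 0 < c → c + 1 < p →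
      ∀ (F : Type) [Field F] [NumberField F] (θ : 𝓞 F), finrank ℚ F = 3 → θ * (θ - c) ^ 2 = p →
        ∀ (N : IntermediateField ℚ ℂ) [NumberField N] [IsGalois ℚ N] (_ : F →+* N),
          ∃ (Y : IntermediateField ℚ ℂ) (_ : NumberField Y), Y ≤ N ∧ finrank ℚ Y = 2 ∧
            Mu22.OnePrime p Y ∧
            |(discr Y : ℝ)| ≤ C * |((p * (4 * c ^ 3 - 27 * p) : ℤ) : ℝ)|)
    (hsize : |(p : ℝ) * (4 * (c : ℝ) ^ 3 - 27 * p)| ≤ B)
    (h1 : ∀ (F : Type) [Field F] [NumberField F], finrank ℚ F = 3 →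
      |(discr F : ℝ)| ≤ B → ¬ p ∣ Nat.card (ClassGroup (𝓞 F)))
    (h2 : ∀ (F : Type) [Field F] [NumberField F], finrank ℚ F = 2 →
      |(discr F : ℝ)| ≤ C * B → ¬ p ∣ Nat.card (ClassGroup (𝓞 F))) :
    NoRoot (-2 * c) (c ^ 2) (-p) ∧
    ∀ (F : Type) [Field F] [NumberField F] (θ : 𝓞 F), finrank ℚ F = 3 →
      θ ^ 3 + ((-2 * c : ℤ) : 𝓞 F) * θ ^ 2 + ((c ^ 2 : ℤ) : 𝓞 F) * θ + ((-p : ℤ) : 𝓞 F) = 0 →
      finrank ℚ F = 3 ∧ ¬ IsGalois ℚ F ∧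
      (∃ P Q : Ideal (𝓞 F), P.IsPrime ∧ Q.IsPrime ∧ P ≠ Q ∧
        Ideal.span {(p : 𝓞 F)} = P * Q ^ 2) ∧ PureSplit p F := by
  have hn := sc_noroot hp hc0 hcp
  refine ⟨hn, ?_⟩
  intro F _ _ θ hF hθ0
  have hθ : θ * (θ - (c : 𝓞 F)) ^ 2 = p := by
    push_cast at hθ0
    linear_combination hθ0
  have hp2' : p ≠ 2 := by omega
  have hD : gcd3 (-2 * c) (c ^ 2) (-p) = p * (4 * c ^ 3 - 27 * p) := by
    rw [gcd3]; ring
  have hsize' : |((p * (4 * c ^ 3 - 27 * p) : ℤ) : ℝ)| ≤ B := by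
    push_cast
    exact hsize
  have hcl := h1 F hF ((gc_bound hF hn θ hθ0).trans (by rw [hD]; exact hsize'))
  have hncard := ncard_theta hF hp hp2' hpc hgood hθ
  have hng := not_isGalois_of_two hF hp hncard
  obtain ⟨b, D⟩ := nData_theta hF hp hp2' hpc hgood hθ
  obtain ⟨α, β, b', G⟩ := D.toG hp
  have hb : LayerBound p 1 F :=
    layerBound hp hp2' (by rw [hF]; omega) G (by rw [← ncard_pv p hp, hncard]) hcl
  obtain ⟨-, hPQ⟩ := primes_theta hF hp hp2' hpc hgood hθ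
  refine ⟨hF, hng,
    ⟨Ideal.span {θ}, Ideal.span {θ - (c : 𝓞 F)},
      isPrime_span_of_norm hp θ (norm_theta hF hp hp2' hgood hθ),
      isPrime_span_of_norm hp _ (norm_theta_sub hF hp hp2' hgood hθ), hPQ, ?_⟩, ?_⟩
  · rw [Ideal.span_singleton_pow, Ideal.span_singleton_mul_span_singleton, hθ]
  · refine pureSplit_of hp hp2' (by omega) hF hng hb ?_
    intro N _ _ f
    obtain ⟨Y, hYn, hYN, hY2, hone, hYd⟩ := hquad p hp hp5 c hc0 hcp F θ hF hθ N f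
    exact ⟨Y, hYn, hYN, hY2, hone,
      h2 Y hY2 (hYd.trans (mul_le_mul_of_nonneg_left hsize' hC))⟩

/-- the choice of the `c_i` -/
theorem sc_choose {p : ℕ} (hp : p.Prime) {n K x : ℕ} (hK : K = 6 * n) (hxK : K + 1 ≤ x)
    (hs2 : 3 * x ^ 2 + 3 * x + 1 < p) :
    ∃ c : Fin (3 * n) → ℤ, (∀ i, ((x : ℤ) - K) ^ 2 ≤ c i) ∧ (∀ i, c i ≤ (x : ℤ) ^ 2) ∧
      (∀ i, 0 < c i) ∧ (∀ i j, i ≠ j → c i ≠ c j) ∧ (∀ i, ¬ (p : ℤ) ∣ c i) ∧
      ∀ i, ¬ (p : ℤ) ^ 2 ∣ (c i) ^ (p - 1) * ((c i) ^ 3 + p) - (c i) ^ 3 := by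
  have hex : ∀ i : Fin (3 * n), ∃ c : ℤ, ((x : ℤ) - 2 * i - 1) ^ 2 ≤ c ∧
      c ≤ ((x : ℤ) - 2 * i) ^ 2 ∧ 0 < c ∧ ¬ (p : ℤ) ∣ c ∧
      ¬ (p : ℤ) ^ 2 ∣ c ^ (p - 1) * (c ^ 3 + p) - c ^ 3 := by
    intro i
    have hi := i.2
    have hy : (1 : ℤ) ≤ (x : ℤ) - 2 * i - 1 := by omega
    have hy2 : 3 * ((x : ℤ) - 2 * i - 1) ^ 2 + 3 * ((x : ℤ) - 2 * i - 1) + 1 < p := by
      have h3 : 3 * (x : ℤ) ^ 2 + 3 * x + 1 < p := by exact_mod_cast hs2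
      have h4 : ((x : ℤ) - 2 * i - 1) ^ 2 ≤ (x : ℤ) ^ 2 :=
        pow_le_pow_left₀ (by omega) (by omega) 2
      linarith
    obtain ⟨c, hc, hpc, hgood⟩ := exists_good_c hp hy hy2
    obtain ⟨hc1, hc2, hc0⟩ := t_bounds hy hc
    refine ⟨c, hc1, ?_, hc0, hpc, hgood⟩
    have e : (x : ℤ) - 2 * i - 1 + 1 = x - 2 * i := by ring
    rw [e] at hc2
    exact hc2
  choose c hc1 hc2 hc0 hpc hgood using hex
  have hlt : ∀ i j : Fin (3 * n), i < j → c j < c i := by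
    intro i j hij
    have hij' : (i : ℕ) < j := hij
    have hj := j.2
    refine lt_of_le_of_lt (hc2 j) (lt_of_lt_of_le ?_ (hc1 i))
    exact pow_lt_pow_left₀ (by omega) (by omega) two_ne_zero
  refine ⟨c, fun i => (pow_le_pow_left₀ (by omega) (by have := i.2; omega) 2).trans (hc1 i),
    fun i => (hc2 i).trans (pow_le_pow_left₀ (by have := i.2; omega) (by omega) 2), hc0, ?_,
    hpc, hgood⟩
  intro i j hij h
  rcases lt_or_gt_of_ne hij with h3 | h3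
  · exact absurd h (hlt i j h3).ne'
  · exact absurd h (hlt j i h3).ne

theorem sc_lower {p x M : ℕ} (h2 : 27 * p < 4 * (x + 1) ^ 6) (hM : M ^ 6 ≤ p) :
    M ≤ x + 1 := by
  have h4 : M ^ 6 ≤ (x + 1) ^ 6 := by omega
  exact (Nat.pow_le_pow_iff_left (by norm_num)).1 h4

/-- **every large prime, many fields**, `(p) = P Q²` -/
theorem many_ramified : ∃ p0 : ℕ, ∀ p : ℕ, p.Prime → p0 ≤ p → ∀ n : ℕ, n ^ 7 ≤ p →
    ManyFields n (fun F _ _ => finrank ℚ F = 3 ∧ ¬ IsGalois ℚ F ∧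
      (∃ P Q : Ideal (𝓞 F), P.IsPrime ∧ Q.IsPrime ∧ P ≠ Q ∧
        Ideal.span {(p : 𝓞 F)} = P * Q ^ 2) ∧ PureSplit p F) := by
  obtain ⟨C, hC, hquad⟩ := sc_quad
  obtain ⟨B0, hB0⟩ : ∃ B0 : ℕ, B0 = 37632 := ⟨_, rfl⟩
  obtain ⟨p1, h1⟩ := gc_class 3 (Or.inr rfl) B0 (1 / 42) (by norm_num)
  obtain ⟨p2, h2⟩ := gc_class 2 (Or.inl rfl) (C * B0) (1 / 42) (by norm_num)
  refine ⟨max (max p1 p2) (max ((B0 * 10 ^ 10) ^ 42) (24002 ^ 42)), fun p hp hpp n hnp => ?_⟩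
  rcases Nat.eq_zero_or_pos n with rfl | hn0
  · exact many_zero _
  obtain ⟨K, hK⟩ : ∃ K : ℕ, K = 6 * n := ⟨_, rfl⟩
  have hp1 : p1 ≤ p := (le_max_left _ _).trans ((le_max_left _ _).trans hpp)
  have hp2 : p2 ≤ p := (le_max_right _ _).trans ((le_max_left _ _).trans hpp)
  have hp4 : (B0 * 10 ^ 10) ^ 42 ≤ p := (le_max_left _ _).trans ((le_max_right _ _).trans hpp)
  have hp7 : 24002 ^ 42 ≤ p := (le_max_right _ _).trans ((le_max_right _ _).trans hpp)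
  have hp6 : (4000 * K + 2) ^ 6 ≤ p := by
    refine le_trans (Nat.pow_le_pow_left ?_ 6) (pow6_le hnp hp7)
    omega
  have hsmall := grow_C hp.pos (by norm_num) hp4 (δ := 1 / 42) (by norm_num)
  have hgrow := grow_n hp.pos (by norm_num) hnp (δ := 1 / 6) (δ' := 1 / 42) (by norm_num)
  have hp3 : 49 ≤ p := by
    refine le_trans ?_ hp4
    have h3 : 49 ≤ B0 * 10 ^ 10 := by rw [hB0]; norm_num
    exact h3.trans (Nat.le_self_pow (by norm_num) _)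
  clear hp4 hpp hnp hp7
  have hp5 : 5 ≤ p := le_trans (by norm_num) hp3
  have hP1 : (1 : ℝ) ≤ p := by exact_mod_cast hp.one_lt.le
  obtain ⟨x, hx1, hx2⟩ := sc_x p
  have hxK := sc_lower hx2 hp6
  clear hp6
  obtain ⟨hx, hs2⟩ := sc_small hp3 hx1 hx2
  obtain ⟨c, hcK, hcx, hc0, hcne, hpc, hgood⟩ := sc_choose hp hK (by omega) hs2
  have hcxR : ∀ i, (c i : ℝ) ≤ (x : ℝ) ^ 2 := fun i => by exact_mod_cast hcx i
  have hcKR : ∀ i, ((x : ℝ) - K) ^ 2 ≤ (c i : ℝ) := fun i => by exact_mod_cast hcK i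
  have hX1 : (1 : ℝ) ≤ x := by exact_mod_cast hx
  have q1 : 4 * (x : ℝ) ^ 6 ≤ 27 * (p : ℝ) := by exact_mod_cast hx1
  have q2 : 27 * (p : ℝ) < 4 * ((x : ℝ) + 1) ^ 6 := by exact_mod_cast hx2
  have hKx : (K : ℝ) + 1 ≤ x := by
    have : K + 1 ≤ x := by omega
    exact_mod_cast this
  have hKx' : 4000 * (K : ℝ) ≤ x := by
    have : 4000 * K ≤ x := by omega
    exact_mod_cast this
  have hsize : ∀ i, |(p : ℝ) * (4 * (c i : ℝ) ^ 3 - 27 * (p : ℝ))| ≤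
      B0 * (p : ℝ) ^ (2 - 1 / 42 : ℝ) := by
    intro i
    have h3 := sc_size_real (lt_of_lt_of_le one_pos hP1) (Nat.cast_nonneg K) hKx q1 q2 (hcKR i)
      (hcxR i)
    have e6 : (11 / 6 : ℝ) = 2 - 1 / 6 := by norm_num
    rw [e6] at h3
    refine h3.trans (le_trans ?_ (mul_le_mul_of_nonneg_left hgrow (Nat.cast_nonneg B0)))
    rw [← mul_assoc]
    refine mul_le_mul_of_nonneg_right ?_ (Real.rpow_nonneg (Nat.cast_nonneg p) _)
    have h5 : 5376 * (K + 1) ≤ B0 * n := by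
      rw [hK, hB0]
      omega
    exact_mod_cast h5
  have hcp : ∀ i, c i + 1 < p := by
    intro i
    have h3 : 3 * (x : ℤ) ^ 2 + 3 * x + 1 < p := by exact_mod_cast hs2
    have h4 := hcx i
    have h5 : (0 : ℤ) ≤ (x : ℤ) ^ 2 := sq_nonneg _
    omega
  have hfield := fun i => sc_field hp hp5 (hc0 i) (hcp i) (hpc i) (hgood i) hC.le hquad (hsize i)
    (fun F _ _ hF hd => h1 p hp hp1 F hF hd)
    (fun F _ _ hF hd => h2 p hp hp2 F hF (by rw [mul_assoc]; exact hd))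
  have hg0 : 0 < (x : ℝ) ^ 2 := pow_pos (lt_of_lt_of_le one_pos hX1) 2
  refine many_of_close hp (fun i => -2 * c i) (fun i => (c i) ^ 2)
    (fun i => (hfield i).1) ?_ (a := (x : ℝ) ^ 2 / 3)
    (b := 4 * (x : ℝ) ^ 2 / 3) (g := (x : ℝ) ^ 2) hg0 (by ring) ?_ ?_ ?_ ?_
    (fun i => (hfield i).2)
  · intro i j hij
    left
    intro h
    exact hcne i j hij (by linarith)
  · rw [abs_of_nonneg (by positivity)]
    linarith
  · rw [abs_of_nonneg (by positivity)]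
    linarith
  · have e : ((x : ℝ) ^ 2) ^ 3 = (x : ℝ) ^ 6 := by ring
    rw [e]
    linarith
  · intro i
    refine ⟨(c i : ℝ) / 3, 4 * (c i : ℝ) / 3, ?_, ?_, ?_⟩
    · push_cast; ring
    · push_cast; ring
    · exact sc_close hP1 hX1 hKx' q2 (hcKR i) (hcxR i) ((hsize i).trans hsmall)

end Pool.Agent.Work.MuS
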