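import Pool.Agent.Work.MP_a4986b_nt.SpY

set_option autoImplicit false
set_option maxHeartbeats 1000000

/-! # Split primes, many fields, `p` totally split -/

namespace Pool.Agent.Work.MuS

open NumberField Module IsDedekindDomain
open scoped nonZeroDivisors Pointwise
open Pool.Agent.Work.MuB

theorem ts_size_real {P X κ a : ℝ} (hP : 0 < P) (hκ : 0 ≤ κ) (hX : κ + 1 ≤ X)
    (p1 : 4 * X ^ 12 ≤ 27 * P ^ 2) (p2 : 27 * P ^ 2 < 4 * (X + 1) ^ 12)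
    (ha1 : (X - κ) ^ 2 ≤ a) (ha2 : a ≤ X ^ 2) :
    |4 * a ^ 6 - 27 * P ^ 2| ≤ 688128 * (κ + 1) * P ^ (11 / 6 : ℝ) := by
  have hX1 : 1 ≤ X := by linarith
  have c3 : (X - κ) ^ 12 ≤ a ^ 6 := by
    calc (X - κ) ^ 12 = ((X - κ) ^ 2) ^ 6 := by ring
      _ ≤ a ^ 6 := pow_le_pow_left₀ (by positivity) ha1 6
  have c4 : a ^ 6 ≤ X ^ 12 := by
    calc a ^ 6 ≤ (X ^ 2) ^ 6 := pow_le_pow_left₀ ((sq_nonneg _).trans ha1) ha2 6
      _ = _ := by ring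
  have hd := pow_sub_le (u := X + 1) (v := X - κ) (by linarith) (by linarith) 11
  have d0 : X + 1 - (X - κ) = κ + 1 := by ring
  rw [d0] at hd
  norm_num at hd
  have hd2 : (X + 1) ^ 11 ≤ 2048 * X ^ 11 := by
    calc (X + 1) ^ 11 ≤ (2 * X) ^ 11 := pow_le_pow_left₀ (by linarith) (by linarith) 11
      _ = _ := by ring
  have hx11 : X ^ 11 ≤ 7 * P ^ (11 / 6 : ℝ) := by
    have e1 : X ^ 12 ≤ 7 * P ^ 2 := by nlinarith [sq_nonneg P]
    have e2 : X ^ 11 = (X ^ 12) ^ (11 / 12 : ℝ) := by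
      rw [← Real.rpow_natCast, ← Real.rpow_natCast, ← Real.rpow_mul (by linarith)]
      norm_num
    rw [e2]
    calc (X ^ 12) ^ (11 / 12 : ℝ) ≤ (7 * P ^ 2) ^ (11 / 12 : ℝ) :=
          Real.rpow_le_rpow (by positivity) e1 (by norm_num)
      _ = (7 : ℝ) ^ (11 / 12 : ℝ) * (P ^ 2) ^ (11 / 12 : ℝ) :=
          Real.mul_rpow (by norm_num) (by positivity)
      _ = (7 : ℝ) ^ (11 / 12 : ℝ) * P ^ (11 / 6 : ℝ) := by
          rw [← Real.rpow_natCast, ← Real.rpow_mul hP.le]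
          norm_num
      _ ≤ 7 * P ^ (11 / 6 : ℝ) := by
          refine mul_le_mul_of_nonneg_right ?_ (by positivity)
          calc (7 : ℝ) ^ (11 / 12 : ℝ) ≤ (7 : ℝ) ^ (1 : ℝ) :=
                Real.rpow_le_rpow_of_exponent_le (by norm_num) (by norm_num)
            _ = 7 := Real.rpow_one 7
  have v1 : 12 * (κ + 1) * (X + 1) ^ 11 ≤ 12 * (κ + 1) * (2048 * X ^ 11) :=
    mul_le_mul_of_nonneg_left hd2 (by linarith)
  have v2 : 24576 * (κ + 1) * X ^ 11 ≤ 24576 * (κ + 1) * (7 * P ^ (11 / 6 : ℝ)) :=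
    mul_le_mul_of_nonneg_left hx11 (by linarith)
  have v3 : 0 ≤ (κ + 1) * P ^ (11 / 6 : ℝ) := mul_nonneg (by linarith) (by positivity)
  rw [abs_le]
  constructor <;> linarith

theorem ts_close {P X κ a s : ℝ} (hP : 1 ≤ P) (hs0 : 0 < s) (hs : s ^ 2 = 3)
    (hX : 1 ≤ X) (hXκ : 2000 * κ ≤ X) (p2 : 27 * P ^ 2 < 4 * (X + 1) ^ 12)
    (ha1 : (X - κ) ^ 2 ≤ a) (ha2 : a ≤ X ^ 2) (hD : |4 * a ^ 6 - 27 * P ^ 2| ≤ P ^ 2 / 10 ^ 10) :
    |-(a * s / 3) - -(X ^ 2 * s / 3)| ≤ s * X ^ 2 / 1000 ∧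
    |2 * a * s / 3 - 2 * X ^ 2 * s / 3| ≤ s * X ^ 2 / 1000 ∧
    |P - (-(a * s / 3)) ^ 2 * (2 * a * s / 3)| ≤ (s * X ^ 2 / 1000) ^ 3 := by
  have ha0 : 0 ≤ a := (sq_nonneg _).trans ha1
  have hd : X ^ 2 - a ≤ X ^ 2 / 1000 := by
    have h1 : X ^ 2 - a ≤ 2 * κ * X := by nlinarith [sq_nonneg κ]
    have h2 : 2 * κ * X ≤ X ^ 2 / 1000 := by nlinarith
    linarith
  have hd0 : 0 ≤ X ^ 2 - a := by linarith
  have hX2 : 0 ≤ X ^ 2 := sq_nonneg X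
  have hds : (X ^ 2 - a) * s ≤ X ^ 2 / 1000 * s := mul_le_mul_of_nonneg_right hd hs0.le
  have hds0 : 0 ≤ (X ^ 2 - a) * s := by positivity
  refine ⟨?_, ?_, ?_⟩
  · have e : -(a * s / 3) - -(X ^ 2 * s / 3) = (X ^ 2 - a) * s / 3 := by ring
    rw [e, abs_of_nonneg (by positivity)]
    linarith
  · have e : 2 * a * s / 3 - 2 * X ^ 2 * s / 3 = -(2 * ((X ^ 2 - a) * s) / 3) := by ring
    rw [e, abs_neg, abs_of_nonneg (by positivity)]
    linarith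
  · have s3 : s ^ 3 = 3 * s := by
      calc s ^ 3 = s ^ 2 * s := by ring
        _ = 3 * s := by rw [hs]
    have e2 : (-(a * s / 3)) ^ 2 * (2 * a * s / 3) = 2 * a ^ 3 * s / 9 := by
      have : (-(a * s / 3)) ^ 2 * (2 * a * s / 3) = 2 * a ^ 3 * s ^ 3 / 27 := by ring
      rw [this, s3]
      ring
    rw [e2]
    have h : 27 * (P - 2 * a ^ 3 * s / 9) * (P + 2 * a ^ 3 * s / 9) =
        -(4 * a ^ 6 - 27 * P ^ 2) := by
      have : 27 * (P - 2 * a ^ 3 * s / 9) * (P + 2 * a ^ 3 * s / 9) =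
          27 * P ^ 2 - 4 / 3 * a ^ 6 * s ^ 2 := by ring
      rw [this, hs]
      ring
    have hU : 0 ≤ 2 * a ^ 3 * s / 9 := by positivity
    have h2 : |27 * (P - 2 * a ^ 3 * s / 9) * (P + 2 * a ^ 3 * s / 9)| ≤ P ^ 2 / 10 ^ 10 := by
      rw [h, abs_neg]
      exact hD
    rw [abs_mul, abs_mul, abs_of_nonneg (show (0 : ℝ) ≤ 27 by norm_num),
      abs_of_nonneg (show 0 ≤ P + 2 * a ^ 3 * s / 9 by linarith)] at h2
    set A := |P - 2 * a ^ 3 * s / 9| with hA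
    have hA0 : 0 ≤ A := abs_nonneg _
    have h3 : 27 * A * P ≤ P ^ 2 / 10 ^ 10 :=
      (mul_le_mul_of_nonneg_left (by linarith) (by positivity)).trans h2
    have h4 : 27 * A ≤ P / 10 ^ 10 := by
      have h5 : (27 * A) * P ≤ (P / 10 ^ 10) * P := by
        calc (27 * A) * P ≤ P ^ 2 / 10 ^ 10 := h3
          _ = (P / 10 ^ 10) * P := by ring
      exact le_of_mul_le_mul_right h5 (by linarith)
    have hlow : P ≤ 5 * (s * X ^ 2) ^ 3 := by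
      have h5 : (3 * s * P) ^ 2 ≤ (128 * X ^ 6) ^ 2 := by
        have h6 : (X + 1) ^ 12 ≤ 4096 * X ^ 12 := by
          calc (X + 1) ^ 12 ≤ (2 * X) ^ 12 := pow_le_pow_left₀ (by linarith) (by linarith) 12
            _ = _ := by ring
        have h7 : (3 * s * P) ^ 2 = 27 * P ^ 2 := by
          have : (3 * s * P) ^ 2 = 9 * s ^ 2 * P ^ 2 := by ring
          rw [this, hs]
          ring
        have h8 : (128 * X ^ 6) ^ 2 = 16384 * X ^ 12 := by ring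
        rw [h7, h8]
        linarith
      have h6 : 3 * s * P ≤ 128 * X ^ 6 := le_of_pow_le_pow_left₀ two_ne_zero (by positivity) h5
      have e : (s * X ^ 2) ^ 3 = 3 * (s * X ^ 6) := by
        have : (s * X ^ 2) ^ 3 = s ^ 3 * X ^ 6 := by ring
        rw [this, s3]
        ring
      rw [e]
      have h7 : s * (3 * s * P) ≤ s * (128 * X ^ 6) := mul_le_mul_of_nonneg_left h6 hs0.le
      have h8 : s * (3 * s * P) = 9 * P := by
        have : s * (3 * s * P) = 3 * s ^ 2 * P := by ring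
        rw [this, hs]
        ring
      have h9 : 0 ≤ s * X ^ 6 := by positivity
      linarith
    have e3 : (s * X ^ 2 / 1000) ^ 3 = (s * X ^ 2) ^ 3 / 10 ^ 9 := by ring
    rw [e3]
    norm_num at h4 ⊢
    linarith

theorem ts_upper {P X s : ℝ} (hP : 0 ≤ P) (hs0 : 0 < s) (hs : s ^ 2 = 3)
    (p1 : 4 * X ^ 12 ≤ 27 * P ^ 2) : (s * X ^ 2) ^ 3 / 25 ≤ P := by
  have h1 : (2 * X ^ 6) ^ 2 ≤ (3 * s * P) ^ 2 := by
    have h7 : (3 * s * P) ^ 2 = 27 * P ^ 2 := by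
      have : (3 * s * P) ^ 2 = 9 * s ^ 2 * P ^ 2 := by ring
      rw [this, hs]
      ring
    have h8 : (2 * X ^ 6) ^ 2 = 4 * X ^ 12 := by ring
    rw [h7, h8]
    exact p1
  have h2 : 2 * X ^ 6 ≤ 3 * s * P := le_of_pow_le_pow_left₀ two_ne_zero (by positivity) h1
  have h3 : s * (2 * X ^ 6) ≤ s * (3 * s * P) := mul_le_mul_of_nonneg_left h2 hs0.le
  have h4 : s * (3 * s * P) = 9 * P := by
    have : s * (3 * s * P) = 3 * s ^ 2 * P := by ring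
    rw [this, hs]
    ring
  have e : (s * X ^ 2) ^ 3 = 3 * (s * X ^ 6) := by
    have : (s * X ^ 2) ^ 3 = s ^ 2 * (s * X ^ 6) := by ring
    rw [this, hs]
  rw [e]
  linarith

/-- the fields `θ (θ - a) (θ + a) = p` for one value of `a` -/
theorem ts_field {p : ℕ} (hp : p.Prime) (hp5 : 5 ≤ p) {a : ℤ} (ha3 : 3 ≤ a) (hap : a < p)
    (hle : 4 * a ^ 6 ≤ 27 * (p : ℤ) ^ 2)
    (hgood : 6 * fq p a ^ 2 + 4 * fq p a * fq p 2 ≠ ((a : ZMod p)⁻¹) ^ 6) {B : ℝ}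
    (hsize : |4 * (a : ℝ) ^ 6 - 27 * (p : ℝ) ^ 2| ≤ B)
    (h1 : ∀ (F : Type) [Field F] [NumberField F], finrank ℚ F = 3 →
      |(discr F : ℝ)| ≤ B → ¬ p ∣ Nat.card (ClassGroup (𝓞 F))) :
    NoRoot 0 (-a ^ 2) (-p) ∧ ∀ (F : Type) [Field F] [NumberField F] (θ : 𝓞 F),
      finrank ℚ F = 3 →
      θ ^ 3 + ((0 : ℤ) : 𝓞 F) * θ ^ 2 + ((-a ^ 2 : ℤ) : 𝓞 F) * θ + ((-p : ℤ) : 𝓞 F) = 0 →
      finrank ℚ F = 3 ∧ ¬ IsGalois ℚ F ∧
      {P : Ideal (𝓞 F) | P.IsPrime ∧ (p : 𝓞 F) ∈ P}.ncard = 3 ∧ SplitExtensions p 2 F := by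
  have ha0 : 0 < a := by omega
  have hpa : ¬ (p : ℤ) ∣ a := fun h => by
    have := Int.le_of_dvd ha0 h
    omega
  have hn := ts_noroot hp ha3 hap
  refine ⟨hn, ?_⟩
  intro F _ _ θ hF hθ
  have hθ' : θ * (θ - (a : 𝓞 F)) * (θ + (a : 𝓞 F)) = p := by
    push_cast at hθ
    linear_combination hθ
  have hD : gcd3 0 (-a ^ 2) (-p) = 4 * a ^ 6 - 27 * p ^ 2 := by
    rw [gcd3]; ring
  have hDne := gc_discr_ne hF hn θ hθ
  have hDneg : gcd3 0 (-a ^ 2) (-p) < 0 := by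
    refine lt_of_le_of_ne ?_ hDne
    rw [hD]
    linarith
  have hsq : ¬ IsSquare (gcd3 0 (-a ^ 2) (-p)) := by
    rintro ⟨r, hr⟩
    have := mul_self_nonneg r
    omega
  have hng := not_isGalois_of_nonsq hn hsq F θ hF hθ
  have hncard := ts_primes hF hp hp5 hpa hn hθ'
  have hbound : |(discr F : ℝ)| ≤ B := by
    refine (gc_bound hF hn θ hθ).trans ?_
    rw [hD]
    push_cast
    exact hsize
  have hcl := h1 F hF hbound
  obtain ⟨A, B', γ, c, D⟩ := ts_gross hF hp hp5 hpa hn hθ' hgood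
  have hb : LayerBound p 2 F :=
    layerBound_r hp (by omega) (by rw [hF]; omega) D (by rw [← ncard_pv p hp, hncard]) hcl
  exact ⟨hF, hng, hncard, hb.split hp (by omega)⟩

/-- the choice of the `a_i` -/
theorem ts_choose {p : ℕ} (hp : p.Prime) (hp5 : 5 ≤ p) {n K x : ℕ} (hK : K = 96 * n)
    (hxK : K + 32 ≤ x) (hxp : x + 1 < p) :
    ∃ a : Fin (3 * n) → ℤ, (∀ i, ((x : ℤ) - K) ^ 2 ≤ a i) ∧ (∀ i, a i ≤ (x : ℤ) ^ 2) ∧
      (∀ i, 3 ≤ a i) ∧ (∀ i j, i ≠ j → a i ≠ a j) ∧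
      ∀ i, 6 * fq p (a i) ^ 2 + 4 * fq p (a i) * fq p 2 ≠ ((a i : ZMod p)⁻¹) ^ 6 := by
  have hex : ∀ i : Fin (3 * n), ∃ a : ℤ, ((x : ℤ) - 32 * i - 31) ^ 2 ≤ a ∧
      a ≤ ((x : ℤ) - 32 * i) ^ 2 ∧ 3 ≤ a ∧
      6 * fq p a ^ 2 + 4 * fq p a * fq p 2 ≠ ((a : ZMod p)⁻¹) ^ 6 := by
    intro i
    have hi := i.2
    obtain ⟨y, h1, h2, a, ha, hgood⟩ := exists_good_a hp hp5 (x - 32 * i) (by omega) (by omega)
    have h3 : (x : ℤ) - 32 * i - 31 ≤ y := by omega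
    have h4 : (y : ℤ) + 1 ≤ x - 32 * i := by omega
    have h5 : (2 : ℤ) ≤ y := by omega
    have h6 : ((x : ℤ) - 32 * i - 31) ^ 2 ≤ (y : ℤ) ^ 2 := pow_le_pow_left₀ (by omega) h3 2
    have h7 : ((y : ℤ) + 1) ^ 2 ≤ ((x : ℤ) - 32 * i) ^ 2 := pow_le_pow_left₀ (by omega) h4 2
    have h8 : (y : ℤ) ^ 2 ≤ a := by rcases ha with rfl | rfl | rfl <;> nlinarith
    have h9 : a ≤ ((y : ℤ) + 1) ^ 2 := by rcases ha with rfl | rfl | rfl <;> nlinarith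
    exact ⟨a, h6.trans h8, h9.trans h7, by nlinarith, hgood⟩
  choose a ha1 ha2 ha3 hgood using hex
  have hlt : ∀ i j : Fin (3 * n), i < j → a j < a i := by
    intro i j hij
    have hij' : (i : ℕ) < j := hij
    have hj := j.2
    refine lt_of_le_of_lt (ha2 j) (lt_of_lt_of_le ?_ (ha1 i))
    exact pow_lt_pow_left₀ (by omega) (by omega) two_ne_zero
  refine ⟨a, fun i => (pow_le_pow_left₀ (by omega) (by have := i.2; omega) 2).trans (ha1 i),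
    fun i => (ha2 i).trans (pow_le_pow_left₀ (by have := i.2; omega) (by omega) 2), ha3, ?_, hgood⟩
  intro i j hij h
  rcases lt_or_gt_of_ne hij with h3 | h3
  · exact absurd h (hlt i j h3).ne'
  · exact absurd h (hlt j i h3).ne

theorem ts_lower {p x M : ℕ} (h2 : 27 * p ^ 2 < 4 * (x + 1) ^ 12) (hM : M ^ 6 ≤ p) :
    M ≤ x + 1 := by
  have h3 : M ^ 12 ≤ p ^ 2 := by
    calc M ^ 12 = (M ^ 6) ^ 2 := by ring
      _ ≤ p ^ 2 := Nat.pow_le_pow_left hM 2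
  have h4 : M ^ 12 ≤ (x + 1) ^ 12 := by omega
  exact (Nat.pow_le_pow_iff_left (by norm_num)).1 h4

theorem ts_xp {p x : ℕ} (hp : 433 ≤ p) (h1 : 4 * x ^ 12 ≤ 27 * p ^ 2) : x ^ 2 + 2 < p := by
  by_contra h
  push Not at h
  have h3 : p ≤ 2 * x ^ 2 := by nlinarith
  have h4 : p ^ 6 ≤ 64 * x ^ 12 := by
    calc p ^ 6 ≤ (2 * x ^ 2) ^ 6 := Nat.pow_le_pow_left h3 6
      _ = 64 * x ^ 12 := by ring
  have h5 : p ^ 6 ≤ 16 * (27 * p ^ 2) := by omega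
  have h6 : p ^ 4 ≤ 432 := by
    have h7 : p ^ 4 * p ^ 2 ≤ 432 * p ^ 2 := by
      calc p ^ 4 * p ^ 2 = p ^ 6 := by ring
        _ ≤ 16 * (27 * p ^ 2) := h5
        _ = 432 * p ^ 2 := by ring
    exact Nat.le_of_mul_le_mul_right h7 (by positivity)
  have h7 : p ≤ p ^ 4 := Nat.le_self_pow (by norm_num) p
  omega

/-- **every large prime, many fields**, `p` totally split -/
theorem many_split : ∃ p0 : ℕ, ∀ p : ℕ, p.Prime → p0 ≤ p → ∀ n : ℕ, n ^ 7 ≤ p →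
    ManyFields n (fun F _ _ => finrank ℚ F = 3 ∧ ¬ IsGalois ℚ F ∧
      {P : Ideal (𝓞 F) | P.IsPrime ∧ (p : 𝓞 F) ∈ P}.ncard = 3 ∧ SplitExtensions p 2 F) := by
  obtain ⟨B0, hB0⟩ : ∃ B0 : ℕ, B0 = 66748416 := ⟨_, rfl⟩
  obtain ⟨p1, h1⟩ := gc_class 3 (Or.inr rfl) B0 (1 / 42) (by norm_num)
  refine ⟨max p1 (max ((B0 * 10 ^ 10) ^ 42) (192035 ^ 42)), fun p hp hpp n hnp => ?_⟩
  rcases Nat.eq_zero_or_pos n with rfl | hn0
  · exact many_zero _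
  obtain ⟨K, hK⟩ : ∃ K : ℕ, K = 96 * n := ⟨_, rfl⟩
  have hp1 : p1 ≤ p := (le_max_left _ _).trans hpp
  have hp4 : (B0 * 10 ^ 10) ^ 42 ≤ p := (le_max_left _ _).trans ((le_max_right _ _).trans hpp)
  have hp7 : 192035 ^ 42 ≤ p := (le_max_right _ _).trans ((le_max_right _ _).trans hpp)
  have hp6 : (2000 * K + 35) ^ 6 ≤ p := by
    refine le_trans (Nat.pow_le_pow_left ?_ 6) (pow6_le hnp hp7)
    omega
  have hsmall := grow_C hp.pos (by norm_num) hp4 (δ := 1 / 42) (by norm_num)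
  have hgrow := grow_n hp.pos (by norm_num) hnp (δ := 1 / 6) (δ' := 1 / 42) (by norm_num)
  have hp3 : 433 ≤ p := by
    refine le_trans ?_ hp4
    have h3 : 433 ≤ B0 * 10 ^ 10 := by rw [hB0]; norm_num
    exact h3.trans (Nat.le_self_pow (by norm_num) _)
  clear hp4 hpp hnp hp7
  have hp5 : 5 ≤ p := le_trans (by norm_num) hp3
  have hP1 : (1 : ℝ) ≤ p := by exact_mod_cast hp.one_lt.le
  obtain ⟨x, hx1, hx2⟩ := ts_x p
  have hxK := ts_lower hx2 hp6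
  clear hp6
  have hxp := ts_xp hp3 hx1
  have hxx : x ≤ x ^ 2 := Nat.le_self_pow two_ne_zero x
  obtain ⟨a, haK, hax, ha3, hane, hgood⟩ := ts_choose hp hp5 hK (by omega) (by omega : x + 1 < p)
  have haxR : ∀ i, (a i : ℝ) ≤ (x : ℝ) ^ 2 := fun i => by exact_mod_cast hax i
  have haKR : ∀ i, ((x : ℝ) - K) ^ 2 ≤ (a i : ℝ) := fun i => by exact_mod_cast haK i
  have hX1 : (1 : ℝ) ≤ x := by
    have : 1 ≤ x := by omega
    exact_mod_cast this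
  have q1 : 4 * (x : ℝ) ^ 12 ≤ 27 * (p : ℝ) ^ 2 := by exact_mod_cast hx1
  have q2 : 27 * (p : ℝ) ^ 2 < 4 * ((x : ℝ) + 1) ^ 12 := by exact_mod_cast hx2
  have hKx : (K : ℝ) + 1 ≤ x := by
    have : K + 1 ≤ x := by omega
    exact_mod_cast this
  have hKx' : 2000 * (K : ℝ) ≤ x := by
    have : 2000 * K ≤ x := by omega
    exact_mod_cast this
  have hsize : ∀ i, |4 * (a i : ℝ) ^ 6 - 27 * (p : ℝ) ^ 2| ≤
      B0 * (p : ℝ) ^ (2 - 1 / 42 : ℝ) := by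
    intro i
    have h3 := ts_size_real (lt_of_lt_of_le one_pos hP1) (Nat.cast_nonneg K) hKx q1 q2 (haKR i)
      (haxR i)
    have e6 : (11 / 6 : ℝ) = 2 - 1 / 6 := by norm_num
    rw [e6] at h3
    refine h3.trans (le_trans ?_ (mul_le_mul_of_nonneg_left hgrow (Nat.cast_nonneg B0)))
    rw [← mul_assoc]
    refine mul_le_mul_of_nonneg_right ?_ (Real.rpow_nonneg (Nat.cast_nonneg p) _)
    have h5 : 688128 * (K + 1) ≤ B0 * n := by
      rw [hK, hB0]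
      omega
    exact_mod_cast h5
  have hle : ∀ i, 4 * (a i) ^ 6 ≤ 27 * (p : ℤ) ^ 2 := by
    intro i
    have h3 : (a i) ^ 6 ≤ (x : ℤ) ^ 12 := by
      calc (a i) ^ 6 ≤ ((x : ℤ) ^ 2) ^ 6 :=
            pow_le_pow_left₀ (le_trans (by norm_num) (ha3 i)) (hax i) 6
        _ = _ := by ring
    have h4 : 4 * (x : ℤ) ^ 12 ≤ 27 * (p : ℤ) ^ 2 := by exact_mod_cast hx1
    exact (mul_le_mul_of_nonneg_left h3 (by norm_num)).trans h4
  have hap : ∀ i, a i < p := by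
    intro i
    have h3 : (x : ℤ) ^ 2 + 2 < p := by exact_mod_cast hxp
    have h4 := hax i
    omega
  have hfield := fun i => ts_field hp hp5 (ha3 i) (hap i) (hle i) (hgood i) (hsize i)
    (fun F _ _ hF hd => h1 p hp hp1 F hF hd)
  obtain ⟨s, hs0, hs⟩ : ∃ s : ℝ, 0 < s ∧ s ^ 2 = 3 :=
    ⟨√3, Real.sqrt_pos.2 (by norm_num), Real.sq_sqrt (by norm_num)⟩
  have hg0 : 0 < s * (x : ℝ) ^ 2 := mul_pos hs0 (pow_pos (lt_of_lt_of_le one_pos hX1) 2)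
  refine many_of_close hp (fun _ => 0) (fun i => -(a i) ^ 2)
    (fun i => (hfield i).1) ?_ (a := -((x : ℝ) ^ 2 * s / 3))
    (b := 2 * (x : ℝ) ^ 2 * s / 3) (g := s * (x : ℝ) ^ 2) hg0 (by ring) ?_ ?_
    (ts_upper (Nat.cast_nonneg p) hs0 hs q1) ?_ (fun i => (hfield i).2)
  · intro i j hij
    right
    intro h
    have h3 : (a i) ^ 2 = (a j) ^ 2 := neg_injective h
    rcases sq_eq_sq_iff_eq_or_eq_neg.1 h3 with h4 | h4
    · exact hane i j hij h4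
    · have h5 := ha3 i
      have h6 := ha3 j
      omega
  · have e : -((x : ℝ) ^ 2 * s / 3) = -(s * (x : ℝ) ^ 2 / 3) := by ring
    rw [e, abs_neg, abs_of_nonneg (by positivity)]
    linarith
  · have e : 2 * (x : ℝ) ^ 2 * s / 3 = 2 * (s * (x : ℝ) ^ 2) / 3 := by ring
    rw [e, abs_of_nonneg (by positivity)]
    linarith
  · intro i
    refine ⟨-((a i : ℝ) * s / 3), 2 * (a i : ℝ) * s / 3, ?_, ?_, ?_⟩
    · push_cast; ring
    · push_cast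
      have e : (-((a i : ℝ) * s / 3)) ^ 2 + 2 * -((a i : ℝ) * s / 3) * (2 * (a i : ℝ) * s / 3) =
          -((a i : ℝ) ^ 2 * s ^ 2 / 3) := by ring
      rw [e, hs]
      ring
    · exact ts_close hP1 hs0 hs hX1 hKx' q2 (haKR i) (haxR i) ((hsize i).trans hsmall)

end Pool.Agent.Work.MuS
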