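import Pool.Agent.Work.MP_a4986b_nt.SpU2

set_option autoImplicit false
set_option maxHeartbeats 400000

/-! # Split primes: two close elements generating the same prime are equal -/

namespace Pool.Agent.Work.MuS

open NumberField Module IsDedekindDomain
open scoped nonZeroDivisors Pointwise
open Pool.Agent.Work.MuB

theorem near_root {x : ℂ} {α β κ e : ℝ} (hκ : 0 < κ) (h : (x - α) ^ 2 * (x - β) = e)
    (he : |e| ≤ κ ^ 3) : ‖x - α‖ ≤ κ ∨ ‖x - β‖ ≤ κ := by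
  by_contra hcon
  push Not at hcon
  obtain ⟨h1, h2⟩ := hcon
  have h3 : ‖x - α‖ ^ 2 * ‖x - β‖ = |e| := by
    rw [← norm_pow, ← norm_mul, h, Complex.norm_real, Real.norm_eq_abs]
  have h4 : κ ^ 2 < ‖x - α‖ ^ 2 := pow_lt_pow_left₀ h1 hκ.le two_ne_zero
  have h5 : κ ^ 2 * κ < ‖x - α‖ ^ 2 * ‖x - β‖ :=
    mul_lt_mul'' h4 h2 (by positivity) hκ.le
  have h6 : κ ^ 2 * κ = κ ^ 3 := by ring
  linarith

theorem near_unique {u v : ℂ} {α β κ e : ℝ} (hκ : 0 < κ) (hgap : 100 * κ ≤ |β - α|)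
    (hu : (u - α) ^ 2 * (u - β) = e) (hv : (v - α) ^ 2 * (v - β) = e) (hu' : ‖u - β‖ ≤ κ)
    (hv' : ‖v - β‖ ≤ κ) : u = v := by
  by_contra hne
  have h1 : (u - v) * ((u - α) ^ 2 + (v - β) * (u + v - 2 * α)) = 0 := by
    linear_combination hu - hv
  have h2 : (u - α) ^ 2 + (v - β) * (u + v - 2 * α) = 0 :=
    (mul_eq_zero.1 h1).resolve_left (sub_ne_zero.2 hne)
  have h3 : ‖u - α‖ ^ 2 = ‖v - β‖ * ‖u + v - 2 * α‖ := by
    rw [← norm_pow, ← norm_mul, eq_neg_of_add_eq_zero_left h2, norm_neg]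
  set G : ℝ := |β - α| with hG
  have hGc : ‖(β : ℂ) - α‖ = G := by
    rw [← Complex.ofReal_sub, Complex.norm_real, Real.norm_eq_abs]
  have h4 : G - κ ≤ ‖u - α‖ := by
    have h5 : ‖(β : ℂ) - α‖ ≤ ‖u - α‖ + ‖u - β‖ := by
      have e1 : (β : ℂ) - α = (u - α) - (u - β) := by ring
      rw [e1]
      exact norm_sub_le _ _
    rw [hGc] at h5
    linarith
  have h6 : ‖u + v - 2 * α‖ ≤ 2 * G + 2 * κ := by
    have e1 : u + v - 2 * α = (u - β) + (v - β) + ((β : ℂ) - α) + ((β : ℂ) - α) := by ring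
    rw [e1]
    refine (norm_add_le _ _).trans ?_
    refine (add_le_add (norm_add_le _ _) le_rfl).trans ?_
    refine (add_le_add (add_le_add (norm_add_le _ _) le_rfl) le_rfl).trans ?_
    rw [hGc]
    linarith
  have h7 : ‖v - β‖ * ‖u + v - 2 * α‖ ≤ κ * (2 * G + 2 * κ) :=
    mul_le_mul hv' h6 (norm_nonneg _) hκ.le
  have h8 : (G - κ) ^ 2 ≤ ‖u - α‖ ^ 2 := pow_le_pow_left₀ (by linarith) h4 2
  nlinarith

variable {F : Type*} [Field F] [NumberField F]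

/-- an element of `𝓞 F` with small conjugates vanishes if its norm is divisible by `p` -/
theorem eq_zero_of_prod_lt {p : ℕ} (y : 𝓞 F) (hdvd : (p : ℤ) ∣ Algebra.norm ℤ y)
    (hlt : ∏ φ : F →ₐ[ℚ] ℂ, ‖φ (y : F)‖ < p) : y = 0 := by
  have h1 : ((Algebra.norm ℤ y : ℤ) : ℚ) = Algebra.norm ℚ (y : F) := Algebra.coe_norm_int y
  have h2 := Algebra.norm_eq_prod_embeddings ℚ ℂ (y : F)
  rw [← h1] at h2
  have h3 : |((Algebra.norm ℤ y : ℤ) : ℝ)| = ∏ φ : F →ₐ[ℚ] ℂ, ‖φ (y : F)‖ := by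
    have h4 := congrArg norm h2
    rw [norm_prod] at h4
    rw [← h4, eq_ratCast, Rat.cast_intCast, Complex.norm_intCast]
  rw [← h3] at hlt
  have h5 : |Algebra.norm ℤ y| < p := by exact_mod_cast hlt
  have h6 := Int.eq_zero_of_abs_lt_dvd hdvd h5
  exact Algebra.norm_eq_zero_iff.1 h6

/-- `θ`, `θ'` generate the same prime of norm `p` and both minimal polynomials are close to
`(X - a)² (X - b)`: they are equal -/
theorem close_eq (h3 : finrank ℚ F = 3) {p : ℕ}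
    {θ θ' : 𝓞 F} (hdvd : θ ∣ θ') {A B A' B' : ℤ} (hn : NoRoot A B (-p))
    (hn' : NoRoot A' B' (-p)) (hθ : θ ^ 3 + A * θ ^ 2 + B * θ + (-p : ℤ) = 0)
    (hθ' : θ' ^ 3 + A' * θ' ^ 2 + B' * θ' + (-p : ℤ) = 0) {a b g α β α' β' : ℝ} (hg : 0 < g)
    (hab : b - a = g) (ha : |a| ≤ 4 / 3 * g) (hb : |b| ≤ 4 / 3 * g) (hgp : g ^ 3 / 25 ≤ p)
    (hA : (A : ℝ) = -(2 * α + β)) (hB : (B : ℝ) = α ^ 2 + 2 * α * β)
    (hA' : (A' : ℝ) = -(2 * α' + β')) (hB' : (B' : ℝ) = α' ^ 2 + 2 * α' * β')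
    (hα : |α - a| ≤ g / 1000) (hβ : |β - b| ≤ g / 1000) (hα' : |α' - a| ≤ g / 1000)
    (hβ' : |β' - b| ≤ g / 1000) (he : |(p : ℝ) - α ^ 2 * β| ≤ (g / 1000) ^ 3)
    (he' : |(p : ℝ) - α' ^ 2 * β'| ≤ (g / 1000) ^ 3) : θ' = θ := by
  classical
  have hκ : 0 < g / 1000 := by positivity
  have hgen : ∀ (ϑ : 𝓞 F) {A B : ℤ}, NoRoot A B (-p) →
      ϑ ^ 3 + A * ϑ ^ 2 + B * ϑ + (-p : ℤ) = 0 →
      ∀ {α β : ℝ}, (A : ℝ) = -(2 * α + β) → (B : ℝ) = α ^ 2 + 2 * α * β → |α - a| ≤ g / 1000 →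
      |β - b| ≤ g / 1000 → |(p : ℝ) - α ^ 2 * β| ≤ (g / 1000) ^ 3 →
      (∀ φ : F →ₐ[ℚ] ℂ, ‖φ (ϑ : F) - α‖ ≤ g / 1000 ∨ ‖φ (ϑ : F) - β‖ ≤ g / 1000) ∧
      (∀ φ ψ : F →ₐ[ℚ] ℂ, ‖φ (ϑ : F) - β‖ ≤ g / 1000 → ‖ψ (ϑ : F) - β‖ ≤ g / 1000 → φ = ψ) := by
    intro ϑ A B hn hϑ α β hA hB hα hβ he
    have hroot : ∀ φ : F →ₐ[ℚ] ℂ, (φ (ϑ : F) - α) ^ 2 * (φ (ϑ : F) - β) =
        (((p : ℝ) - α ^ 2 * β : ℝ) : ℂ) := by
      intro φ
      have h1 := congrArg φ (gc_F ϑ hϑ)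
      rw [map_add, map_add, map_add, map_mul, map_mul, map_pow, map_pow, map_intCast, map_intCast,
        map_intCast, map_zero] at h1
      have hAc : (A : ℂ) = -(2 * α + β) := by exact_mod_cast congrArg (Complex.ofReal) hA
      have hBc : (B : ℂ) = α ^ 2 + 2 * α * β := by exact_mod_cast congrArg (Complex.ofReal) hB
      rw [hAc, hBc] at h1
      push_cast at h1 ⊢
      linear_combination h1
    refine ⟨fun φ => near_root hκ (hroot φ) he, ?_⟩
    intro φ ψ h1 h2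
    have hgap : 100 * (g / 1000) ≤ |β - α| := by
      rw [abs_le] at hα hβ
      refine le_trans ?_ (le_abs_self _)
      linarith [hα.1, hα.2, hβ.1, hβ.2]
    have h4 := near_unique hκ hgap (hroot φ) (hroot ψ) h1 h2
    have htop := adjoin_eq_top_of_prime (k := ℚ) (F := F) (by rw [h3]; exact Nat.prime_three) _
      (hn.not_rat ϑ hϑ)
    apply AlgHom.ext_of_adjoin_eq_top (s := {(ϑ : F)})
    · have h5 := congrArg IntermediateField.toSubalgebra htop
      rw [IntermediateField.adjoin_simple_toSubalgebra_of_isAlgebraic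
        (Algebra.IsAlgebraic.isAlgebraic _)] at h5
      rw [h5]
      rfl
    · intro x hx
      rw [Set.mem_singleton_iff] at hx
      rw [hx]
      exact h4
  obtain ⟨n1, u1⟩ := hgen θ hn hθ hA hB hα hβ he
  obtain ⟨n2, u2⟩ := hgen θ' hn' hθ' hA' hB' hα' hβ' he'
  -- a common embedding near `a`
  obtain ⟨φ0, hφ1, hφ2⟩ : ∃ φ : F →ₐ[ℚ] ℂ, ‖φ (θ : F) - α‖ ≤ g / 1000 ∧
      ‖φ (θ' : F) - α'‖ ≤ g / 1000 := by
    by_contra hcon
    push Not at hcon
    have hcard : Fintype.card (F →ₐ[ℚ] ℂ) = 3 := by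
      rw [AlgHom.card, h3]
    set S1 := Finset.univ.filter fun φ : F →ₐ[ℚ] ℂ => ‖φ (θ : F) - β‖ ≤ g / 1000 with hS1
    set S2 := Finset.univ.filter fun φ : F →ₐ[ℚ] ℂ => ‖φ (θ' : F) - β'‖ ≤ g / 1000 with hS2
    have hc1 : S1.card ≤ 1 := by
      rw [Finset.card_le_one]
      intro φ hφ ψ hψ
      exact u1 φ ψ (Finset.mem_filter.1 hφ).2 (Finset.mem_filter.1 hψ).2
    have hc2 : S2.card ≤ 1 := by
      rw [Finset.card_le_one]
      intro φ hφ ψ hψ
      exact u2 φ ψ (Finset.mem_filter.1 hφ).2 (Finset.mem_filter.1 hψ).2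
    have hun : (Finset.univ : Finset (F →ₐ[ℚ] ℂ)) ⊆ S1 ∪ S2 := by
      intro φ _
      rw [Finset.mem_union]
      rcases n1 φ with h | h
      · right
        refine Finset.mem_filter.2 ⟨Finset.mem_univ _, ?_⟩
        exact (n2 φ).resolve_left (not_le.2 (hcon φ h))
      · left
        exact Finset.mem_filter.2 ⟨Finset.mem_univ _, h⟩
    have h4 := (Finset.card_le_card hun).trans (Finset.card_union_le _ _)
    rw [Finset.card_univ, hcard] at h4
    omega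
  have hsz : ∀ {x : ℂ} {α β : ℝ}, |α - a| ≤ g / 1000 → |β - b| ≤ g / 1000 →
      (‖x - α‖ ≤ g / 1000 ∨ ‖x - β‖ ≤ g / 1000) → ‖x‖ ≤ 4 / 3 * g + g / 500 := by
    intro x α β hα hβ h
    rcases h with h | h
    · have e1 : x = (x - α) + (((α - a : ℝ) : ℂ) + ((a : ℝ) : ℂ)) := by push_cast; ring
      rw [e1]
      refine (norm_add_le _ _).trans ((add_le_add h (norm_add_le _ _)).trans ?_)
      rw [Complex.norm_real, Complex.norm_real, Real.norm_eq_abs, Real.norm_eq_abs]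
      linarith
    · have e1 : x = (x - β) + (((β - b : ℝ) : ℂ) + ((b : ℝ) : ℂ)) := by push_cast; ring
      rw [e1]
      refine (norm_add_le _ _).trans ((add_le_add h (norm_add_le _ _)).trans ?_)
      rw [Complex.norm_real, Complex.norm_real, Real.norm_eq_abs, Real.norm_eq_abs]
      linarith
  have hy : θ' - θ = 0 := by
    refine eq_zero_of_prod_lt (p := p) (θ' - θ) ?_ ?_
    · have h4 : θ ∣ θ' - θ := dvd_sub hdvd dvd_rfl
      have h5 := map_dvd (Algebra.norm ℤ) h4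
      have h6 : Algebra.norm ℤ θ = p := by
        apply norm_Z_of_Q
        have h7 := gc_norm h3 hn θ hθ 0
        rw [Int.cast_zero, add_zero] at h7
        rw [h7]
        push_cast
        ring
      rwa [h6] at h5
    · have hval : ∀ φ : F →ₐ[ℚ] ℂ, φ ((θ' - θ : 𝓞 F) : F) = φ (θ' : F) - φ (θ : F) := by
        intro φ
        rw [← map_sub]
        rfl
      rw [← Finset.mul_prod_erase Finset.univ _ (Finset.mem_univ φ0)]
      have hb1 : ‖φ0 ((θ' - θ : 𝓞 F) : F)‖ ≤ g / 250 := by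
        rw [hval]
        have e1 : φ0 (θ' : F) - φ0 (θ : F) = (φ0 (θ' : F) - α') + (((α' - a : ℝ) : ℂ) +
            ((a - α : ℝ) : ℂ)) + (α - φ0 (θ : F)) := by push_cast; ring
        rw [e1]
        have h7 : ‖(α : ℂ) - φ0 (θ : F)‖ ≤ g / 1000 := by rw [norm_sub_rev]; exact hφ1
        refine (norm_add_le _ _).trans ((add_le_add ((norm_add_le _ _).trans
          (add_le_add hφ2 (norm_add_le _ _))) h7).trans ?_)
        rw [Complex.norm_real, Complex.norm_real, Real.norm_eq_abs, Real.norm_eq_abs,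
          abs_sub_comm a α]
        linarith
      have hb2 : ∏ φ ∈ Finset.univ.erase φ0, ‖φ ((θ' - θ : 𝓞 F) : F)‖ ≤
          (2 * (4 / 3 * g + g / 500)) ^ 2 := by
        have hcard : (Finset.univ.erase φ0).card = 2 := by
          rw [Finset.card_erase_of_mem (Finset.mem_univ _), Finset.card_univ, AlgHom.card, h3]
        have hle : ∀ φ ∈ Finset.univ.erase φ0,
            ‖φ ((θ' - θ : 𝓞 F) : F)‖ ≤ 2 * (4 / 3 * g + g / 500) := by
          intro φ _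
          rw [hval]
          refine (norm_sub_le _ _).trans ?_
          have h8 := hsz hα hβ (n1 φ)
          have h9 := hsz hα' hβ' (n2 φ)
          linarith
        refine (Finset.prod_le_prod (fun _ _ => norm_nonneg _) hle).trans (le_of_eq ?_)
        rw [Finset.prod_const, hcard]
      have hb3 : 0 ≤ ∏ φ ∈ Finset.univ.erase φ0, ‖φ ((θ' - θ : 𝓞 F) : F)‖ :=
        Finset.prod_nonneg fun _ _ => norm_nonneg _
      refine (mul_le_mul hb1 hb2 hb3 (by positivity)).trans_lt (lt_of_lt_of_le ?_ hgp)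
      have h10 : 0 < g ^ 3 := by positivity
      nlinarith
  exact sub_eq_zero.1 hy

end Pool.Agent.Work.MuS
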