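import Pool.Agent.Work.MP_a4986b_nt.Units
import Pool.Agent.Work.MP_a4986b_nt.Hilb90
import Pool.Agent.Work.MP_a4986b_nt.InvIdeal
import Pool.Agent.Work.MP_a4986b_nt.FixClass
import Pool.Agent.Work.MP_a4986b_nt.Index

set_option autoImplicit false
set_option maxHeartbeats 400000

/-! # T7: one step of degree `p` (helper31) -/

namespace Pool.Agent.Work.Mu22

open NumberField Module
open scoped Pointwise nonZeroDivisors ENNReal Real

attribute [local instance] Units.mulDistribMulActionRight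

/-- the product over the orbit is invariant -/
theorem st_prod_shift {G M : Type*} [Group G] [CommMonoid M] [MulDistribMulAction G M] {p : ℕ}
    (σ : G) (hσp : σ ^ p = 1) (hp : 0 < p) (x : M) :
    ∏ i ∈ Finset.range p, (σ ^ i • (σ • x)) = ∏ i ∈ Finset.range p, (σ ^ i • x) := by
  have h1 : ∀ i, σ ^ i • (σ • x) = σ ^ (i + 1) • x := fun i => by
    rw [smul_smul, pow_succ]
  simp_rw [h1]
  obtain ⟨q, rfl⟩ : ∃ q, p = q + 1 := ⟨p - 1, by omega⟩
  rw [Finset.prod_range_succ, Finset.prod_range_succ' (fun i => σ ^ i • x) q, hσp, pow_zero]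

/-- the product over the orbit is fixed by `σ` -/
theorem st_smul_prod {G M : Type*} [Group G] [CommMonoid M] [MulDistribMulAction G M] {p : ℕ}
    (σ : G) (hσp : σ ^ p = 1) (hp : 0 < p) (x : M) :
    σ • ∏ i ∈ Finset.range p, (σ ^ i • x) = ∏ i ∈ Finset.range p, (σ ^ i • x) := by
  rw [Finset.smul_prod']
  conv_rhs => rw [← st_prod_shift σ hσp hp x]
  refine Finset.prod_congr rfl fun i _ => ?_
  rw [smul_smul, smul_smul, ← pow_succ, ← pow_succ']

section

variable {K L : Type*} [Field K] [NumberField K] [Field L] [NumberField L] [Algebra K L]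
  [IsGalois K L] {p : ℕ}

theorem st_gen (hp : p.Prime) (hd : finrank K L = p) :
    ∃ σ : Gal(L/K), ∀ x, x ∈ Subgroup.zpowers σ := by
  have : Fact p.Prime := ⟨hp⟩
  have hcard : Nat.card Gal(L/K) = p := by rw [IsGalois.card_aut_eq_finrank, hd]
  have hcyc : IsCyclic Gal(L/K) := isCyclic_of_prime_card hcard
  exact hcyc.exists_generator

theorem st_pow (hd : finrank K L = p) (σ : Gal(L/K)) : σ ^ p = 1 := by
  have hcard : Nat.card Gal(L/K) = p := by rw [IsGalois.card_aut_eq_finrank, hd]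
  rw [← hcard]; exact pow_card_eq_one'

omit [NumberField K] [NumberField L] [IsGalois K L] in
theorem st_smul_span (σ : Gal(L/K)) (b : 𝓞 L) :
    σ • Ideal.span {b} = Ideal.span {σ • b} := by
  rw [Ideal.pointwise_smul_def, Ideal.map_span, Set.image_singleton]
  rfl

omit [NumberField K] [NumberField L] [IsGalois K L] in
theorem st_smul_ne_zero (g : Gal(L/K)) {b : 𝓞 L} (hb : b ≠ 0) : g • b ≠ 0 := by
  intro h
  apply hb
  have := congrArg (fun z => g⁻¹ • z) h
  simpa using this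

omit [IsGalois K L] in
theorem st_prod_span (σ : Gal(L/K)) (b : 𝓞 L) :
    ∏ i ∈ Finset.range p, (σ ^ i • Ideal.span {b}) =
      Ideal.span {∏ i ∈ Finset.range p, (σ ^ i • b)} := by
  simp_rw [st_smul_span]
  rw [Ideal.prod_span_singleton]

omit [IsGalois K L] in
theorem st_prod_ne_zero (σ : Gal(L/K)) {b : 𝓞 L} (hb : b ≠ 0) :
    ∏ i ∈ Finset.range p, (σ ^ i • b) ≠ 0 :=
  Finset.prod_ne_zero_iff.2 fun _ _ => st_smul_ne_zero _ hb

/-- from an ideal with `x I = y σ I` to a unit -/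
theorem st_unit (hp : p.Prime) (hd : finrank K L = p) (σ : Gal(L/K)) (I : Ideal (𝓞 L))
    (hI : I ≠ ⊥) (x y : 𝓞 L) (_hx : x ≠ 0) (hy : y ≠ 0)
    (h : Ideal.span {x} * I = Ideal.span {y} * (σ • I)) :
    ∃ e : (𝓞 L)ˣ, σ • e = e ∧
      ∏ i ∈ Finset.range p, (σ ^ i • x) = (e : 𝓞 L) * ∏ i ∈ Finset.range p, (σ ^ i • y) := by
  have hσp := st_pow hd σ
  have h1 : (∏ i ∈ Finset.range p, (σ ^ i • Ideal.span {x})) * (∏ i ∈ Finset.range p, (σ ^ i • I)) =
      (∏ i ∈ Finset.range p, (σ ^ i • Ideal.span {y})) *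
        (∏ i ∈ Finset.range p, (σ ^ i • I)) := by
    rw [← Finset.prod_mul_distrib]
    conv_rhs => rw [← st_prod_shift σ hσp hp.pos I]
    rw [← Finset.prod_mul_distrib]
    refine Finset.prod_congr rfl fun i _ => ?_
    rw [← smul_mul', ← smul_mul', h]
  have hne : (∏ i ∈ Finset.range p, (σ ^ i • I)) ≠ 0 := by
    rw [Finset.prod_ne_zero_iff]
    intro i _ h0
    apply hI
    have := congrArg (fun z => (σ ^ i)⁻¹ • z) h0
    simpa using this
  have h2 := mul_right_cancel₀ hne h1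
  rw [st_prod_span, st_prod_span, Ideal.span_singleton_eq_span_singleton] at h2
  obtain ⟨e, he⟩ := h2.symm
  have hy0 := st_prod_ne_zero (p := p) σ hy
  refine ⟨e, ?_, ?_⟩
  · have h3 := congrArg (fun z => σ • z) he
    simp only [smul_mul'] at h3
    rw [st_smul_prod σ hσp hp.pos x, st_smul_prod σ hσp hp.pos y, ← he] at h3
    have h4 := mul_left_cancel₀ hy0 h3
    apply Units.ext
    exact h4
  · rw [← he, mul_comm]

/-- T7a: one degree `p` step, exactly one ramified prime -/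
theorem step (hp : p.Prime) (hd : finrank K L = p) (hodd : Odd p)
    (𝔓 : Ideal (𝓞 L)) (hP : 𝔓.IsPrime) (h0 : 𝔓 ≠ ⊥) (hfix : ∀ g : Gal(L/K), g • 𝔓 = 𝔓)
    (hram : ∀ Q : Ideal (𝓞 L), Q.IsPrime → Q ≠ ⊥ → Q ≠ 𝔓 → Q.ramificationIdx (𝓞 K) = 1)
    (hK : ¬ p ∣ Nat.card (ClassGroup (𝓞 K))) :
    ¬ p ∣ Nat.card (ClassGroup (𝓞 L)) := by
  intro hL
  obtain ⟨σ, hσ⟩ := st_gen (L := L) hp hd
  have hσp := st_pow hd σ
  have hpodd : Odd p := hodd
  obtain ⟨I, hI1, hIp, x, y, hx, hy, hxy⟩ := exists_fixed_class hp hd σ hσ hL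
  have hI0 : (I : Ideal (𝓞 L)) ≠ ⊥ := nonZeroDivisors.coe_ne_zero I
  obtain ⟨e, hσe, he⟩ := st_unit hp hd σ I hI0 x y hx hy hxy
  obtain ⟨hle, hprin⟩ := relIndex_le hp hd σ hσ 𝔓 hP h0 hfix hram hK
  obtain ⟨-, hge, hunit⟩ := units_step hp hd hodd σ hσ
  -- the unit `e` is a norm of a unit
  obtain ⟨u, hu⟩ : ∃ u : (𝓞 L)ˣ, nHom σ p u = e := by
    obtain ⟨u, hu | hu⟩ := hunit hle e hσe
    · exact ⟨u, hu⟩
    · refine ⟨-u, ?_⟩
      have h1 : nHom σ p (-1 : (𝓞 L)ˣ) = -1 := by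
        rw [nHom_apply]
        have h2 : ∀ i ∈ Finset.range p, σ ^ i • (-1 : (𝓞 L)ˣ) = -1 := by
          intro i _
          apply Units.ext
          change σ ^ i • (-1 : 𝓞 L) = -1
          rw [smul_neg, smul_one]
        rw [Finset.prod_congr rfl h2, Finset.prod_const, Finset.card_range, hpodd.neg_one_pow]
      rw [← neg_one_mul, map_mul, h1, hu, neg_mul_neg, one_mul]
  have hnu : ∏ i ∈ Finset.range p, (σ ^ i • (u : 𝓞 L)) = (e : 𝓞 L) := by
    rw [← hu, nHom_apply, Units.coe_prod]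
    rfl
  have huy : (u : 𝓞 L) * y ≠ 0 := mul_ne_zero u.ne_zero hy
  obtain ⟨b, hb0, hb⟩ := hilbert90 hd σ hσ ((u : 𝓞 L) * y) x huy hx (by
    rw [he, ← hnu, ← Finset.prod_mul_distrib]
    exact Finset.prod_congr rfl fun i _ => smul_mul' _ _ _)
  -- the ideal `b I` is invariant
  set I' : Ideal (𝓞 L) := Ideal.span {b} * I with hI'
  have hI'0 : I' ≠ ⊥ := by
    rw [hI', Ne, Ideal.mul_eq_bot, not_or]
    exact ⟨by simpa using hb0, hI0⟩
  have hinvσ : σ • I' = I' := by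
    have h1 : Ideal.span {x} * (Ideal.span {σ • b} * (σ • (I : Ideal (𝓞 L)))) =
        Ideal.span {x} * (Ideal.span {b} * (I : Ideal (𝓞 L))) := by
      have h2 : Ideal.span {y} * Ideal.span {b} = Ideal.span {x} * Ideal.span {σ • b} := by
        rw [Ideal.span_singleton_mul_span_singleton, Ideal.span_singleton_mul_span_singleton,
          ← hb, mul_assoc, Ideal.span_singleton_eq_span_singleton]
        exact ⟨u, mul_comm _ _⟩
      calc Ideal.span {x} * (Ideal.span {σ • b} * (σ • (I : Ideal (𝓞 L))))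
          = (Ideal.span {x} * Ideal.span {σ • b}) * (σ • (I : Ideal (𝓞 L))) := by rw [mul_assoc]
        _ = (Ideal.span {y} * Ideal.span {b}) * (σ • (I : Ideal (𝓞 L))) := by rw [h2]
        _ = Ideal.span {b} * (Ideal.span {y} * (σ • (I : Ideal (𝓞 L)))) := by ring
        _ = Ideal.span {b} * (Ideal.span {x} * (I : Ideal (𝓞 L))) := by rw [hxy]
        _ = _ := by ring
    have hx0 : (Ideal.span {x} : Ideal (𝓞 L)) ≠ 0 := by simpa using hx
    have h3 := mul_left_cancel₀ hx0 h1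
    rw [hI', smul_mul', st_smul_span, h3]
  have hinv : ∀ g : Gal(L/K), g • I' = I' := by
    intro g
    have h1 : Subgroup.zpowers σ ≤ MulAction.stabilizer Gal(L/K) I' := by
      rw [Subgroup.zpowers_le]; exact hinvσ
    exact h1 (hσ g)
  obtain ⟨J, k, hJ0, hJ⟩ := invariant_ideal 𝔓 (Or.inr hP) h0 hfix hram I' hI'0 hinv
  obtain ⟨m, hm, hmP⟩ := hprin hge
  -- conclusion in the class group
  set h := Nat.card (ClassGroup (𝓞 K)) with hh
  have hJh : (J ^ h).IsPrincipal := by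
    have hJ' : J ∈ (Ideal (𝓞 K))⁰ := mem_nonZeroDivisors_of_ne_zero hJ0
    have h1 : ClassGroup.mk0 (⟨J, hJ'⟩ : (Ideal (𝓞 K))⁰) ^ h = 1 := pow_card_eq_one'
    rw [← map_pow, ClassGroup.mk0_eq_one_iff] at h1
    exact h1
  have hI'pow : (I' ^ (m * h)).IsPrincipal := by
    have h1 : I' ^ (m * h) =
        ((J ^ h).map (algebraMap (𝓞 K) (𝓞 L))) ^ m * (𝔓 ^ m) ^ (k * h) := by
      rw [hJ, Ideal.map_pow]; ring
    obtain ⟨a, ha⟩ := hJh
    obtain ⟨c, hc⟩ := hmP
    refine ⟨⟨(algebraMap (𝓞 K) (𝓞 L) a) ^ m * c ^ (k * h), ?_⟩⟩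
    rw [h1, ha, hc]
    rw [Ideal.submodule_span_eq, Ideal.submodule_span_eq, Ideal.map_span, Set.image_singleton,
      Ideal.span_singleton_pow, Ideal.span_singleton_pow, Ideal.span_singleton_mul_span_singleton,
      Ideal.submodule_span_eq]
  have hcl : ClassGroup.mk0 I ^ (m * h) = 1 := by
    obtain ⟨c, hc⟩ := hI'pow
    have hc' : I' ^ (m * h) = Ideal.span {c} := hc
    have hc0 : c ≠ 0 := by
      rintro rfl
      rw [Ideal.span_singleton_eq_bot.2 rfl] at hc'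
      exact pow_ne_zero (m * h) hI'0 hc'
    rw [← map_pow, ← map_one (ClassGroup.mk0 (R := 𝓞 L)), ClassGroup.mk0_eq_mk0_iff]
    refine ⟨b ^ (m * h), c, pow_ne_zero _ hb0, hc0, ?_⟩
    rw [← hc', hI', mul_pow, Ideal.span_singleton_pow]
    simp
  have hcop : Nat.Coprime p (m * h) :=
    Nat.Coprime.mul_right hm.symm ((Nat.Prime.coprime_iff_not_dvd hp).2 hK)
  apply hI1
  have h5 : orderOf (ClassGroup.mk0 I) ∣ 1 := by
    rw [← hcop]
    exact Nat.dvd_gcd (orderOf_dvd_of_pow_eq_one hIp) (orderOf_dvd_of_pow_eq_one hcl)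
  exact orderOf_eq_one_iff.1 (Nat.dvd_one.1 h5)

/-- T7b: unramified steps do not exist -/
theorem unram_step (hp : p.Prime) (hd : finrank K L = p) (hodd : Odd p)
    (hram : ∀ Q : Ideal (𝓞 L), Q.IsPrime → Q ≠ ⊥ → Q.ramificationIdx (𝓞 K) = 1) :
    p ∣ Nat.card (ClassGroup (𝓞 K)) := by
  by_contra hK
  obtain ⟨σ, hσ⟩ := st_gen (L := L) hp hd
  have h1 := relIndex_unram hp hd σ hσ hram hK
  have h2 := (units_step hp hd hodd σ hσ).2.1
  have := hp.two_le
  omega

end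

end Pool.Agent.Work.Mu22
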