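import Pool.Agent.Work.MP_a4986b_nt.Units
import Pool.Agent.Work.MP_a4986b_nt.Index

set_option autoImplicit false
set_option maxHeartbeats 400000

/-! # T7, part 1: unramified steps do not exist; the descent of a fixed class (helper70) -/

namespace Pool.Agent.Work.Mu22

open NumberField Module
open scoped Pointwise nonZeroDivisors ENNReal Real

attribute [local instance] Units.mulDistribMulActionRight

section

variable {K L : Type*} [Field K] [NumberField K] [Field L] [NumberField L] [Algebra K L]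
  [IsGalois K L] {p : ℕ}

theorem exists_gen (hp : p.Prime) (hd : finrank K L = p) :
    ∃ σ : Gal(L/K), ∀ x, x ∈ Subgroup.zpowers σ := by
  have := Fact.mk hp
  have h1 : Nat.card Gal(L/K) = p := by rw [IsGalois.card_aut_eq_finrank, hd]
  have h2 : IsCyclic Gal(L/K) := isCyclic_of_prime_card h1
  exact h2.exists_generator

/-- T7b: unramified steps do not exist -/
theorem unram_step (hp : p.Prime) (hd : finrank K L = p) (hodd : Odd p)
    (hram : ∀ Q : Ideal (𝓞 L), Q.IsPrime → Q ≠ ⊥ → Q.ramificationIdx (𝓞 K) = 1) :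
    p ∣ Nat.card (ClassGroup (𝓞 K)) := by
  by_contra hK
  obtain ⟨σ, hσ⟩ := exists_gen hp hd
  have h1 := relIndex_unram hp hd σ hσ hram hK
  have h2 := (units_step hp hd hodd σ hσ).2.1
  rw [h1] at h2
  exact absurd hp.two_le (by omega)

theorem odd_p (hd : finrank K L = p) (hodd : Odd (finrank ℚ L)) : Odd p := by
  rw [← finrank_mul_finrank ℚ K L, hd] at hodd
  exact (Nat.odd_mul.1 hodd).2

/-- the norm of an integer as a product of conjugates is fixed -/
theorem smul_prod_pow (hd : finrank K L = p) (σ : Gal(L/K)) (x : 𝓞 L) :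
    σ • ∏ i ∈ Finset.range p, (σ ^ i • x) = ∏ i ∈ Finset.range p, (σ ^ i • x) := by
  have h1 : σ ^ p = 1 := pow_eq_one_of_gen hd σ
  have h2 := Finset.prod_range_succ (fun i => σ ^ i • x) p
  rw [Finset.prod_range_succ'] at h2
  rw [Finset.smul_prod']
  have h3 : ∏ i ∈ Finset.range p, σ • σ ^ i • x = ∏ i ∈ Finset.range p, (σ ^ (i + 1) • x) := by
    refine Finset.prod_congr rfl fun i _ => ?_
    rw [smul_smul, ← pow_succ']
  rw [h3]
  simp only [h1, pow_zero, one_smul] at h2
  by_cases hx : x = 0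
  · subst hx
    simp only [smul_zero]
  · exact mul_right_cancel₀ hx h2

theorem smul_prod_pow_ideal (hd : finrank K L = p) (σ : Gal(L/K)) {I : Ideal (𝓞 L)}
    (hI : I ≠ ⊥) :
    ∏ i ∈ Finset.range p, (σ ^ i • (σ • I)) = ∏ i ∈ Finset.range p, (σ ^ i • I) := by
  have h1 : σ ^ p = 1 := pow_eq_one_of_gen hd σ
  have h2 := Finset.prod_range_succ (fun i => σ ^ i • I) p
  rw [Finset.prod_range_succ'] at h2
  have h3 : ∏ i ∈ Finset.range p, (σ ^ i • (σ • I)) =
      ∏ i ∈ Finset.range p, (σ ^ (i + 1) • I) := by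
    refine Finset.prod_congr rfl fun i _ => ?_
    rw [smul_smul, ← pow_succ]
  rw [h3]
  simp only [h1, pow_zero, one_smul] at h2
  exact mul_right_cancel₀ hI h2

omit [NumberField K] [NumberField L] [IsGalois K L] in
theorem smul_span (σ : Gal(L/K)) (x : 𝓞 L) : σ • Ideal.span {x} = Ideal.span {σ • x} := by
  rw [Ideal.pointwise_smul_def, Ideal.map_span, Set.image_singleton]
  rfl

omit [NumberField K] [NumberField L] [IsGalois K L] in
theorem smul_ideal_ne_bot (σ : Gal(L/K)) {I : Ideal (𝓞 L)} (hI : I ≠ ⊥) : σ • I ≠ ⊥ := by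
  intro h
  apply hI
  have h1 : σ⁻¹ • σ • I = I := inv_smul_smul σ I
  rw [← h1, h, Ideal.pointwise_smul_def, Ideal.map_bot]

/-- the norm of the multiplier of a fixed class is a unit of `K` -/
theorem exists_unit_of_fixed_class (hd : finrank K L = p) (σ : Gal(L/K)) {I : Ideal (𝓞 L)}
    (hI : I ≠ ⊥) {x y : 𝓞 L} (hx : x ≠ 0) (hy : y ≠ 0)
    (h : Ideal.span {x} * I = Ideal.span {y} * (σ • I)) :
    ∃ e : (𝓞 L)ˣ, σ • e = e ∧ ∏ i ∈ Finset.range p, (σ ^ i • x) =
      e * ∏ i ∈ Finset.range p, (σ ^ i • y) := by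
  have h1 : ∏ i ∈ Finset.range p, (σ ^ i • (Ideal.span {x} * I)) =
      ∏ i ∈ Finset.range p, (σ ^ i • (Ideal.span {y} * (σ • I))) := by rw [h]
  simp only [smul_mul', Finset.prod_mul_distrib] at h1
  rw [smul_prod_pow_ideal hd σ hI] at h1
  have h2 : ∏ i ∈ Finset.range p, (σ ^ i • I) ≠ ⊥ := by
    have h3 : ∏ i ∈ Finset.range p, (σ ^ i • I) ≠ 0 :=
      Finset.prod_ne_zero_iff.2 fun i _ => smul_ideal_ne_bot (σ ^ i) hI
    exact h3
  have h3 := mul_right_cancel₀ h2 h1
  simp only [smul_span] at h3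
  rw [Ideal.prod_span_singleton, Ideal.prod_span_singleton,
    Ideal.span_singleton_eq_span_singleton] at h3
  obtain ⟨v, hv⟩ := h3
  refine ⟨v⁻¹, ?_, ?_⟩
  · have h4 := congrArg (fun z => σ • z) hv
    simp only [smul_mul'] at h4
    rw [smul_prod_pow hd, smul_prod_pow hd] at h4
    have hne : ∏ i ∈ Finset.range p, (σ ^ i • x) ≠ 0 :=
      Finset.prod_ne_zero_iff.2 fun i _ => (smul_ne_zero_iff_ne (σ ^ i)).2 hx
    have h5 : σ • (v : 𝓞 L) = v := by
      apply mul_left_cancel₀ hne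
      rw [h4, hv]
    have h6 : σ • v = v := Units.ext h5
    rw [smul_inv', h6]
  · rw [← hv, mul_comm, mul_assoc, Units.mul_inv, mul_one]

end

end Pool.Agent.Work.Mu22
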