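import Pool.Agent.Work.MP_a4986b_nt.Defs2

set_option autoImplicit false
set_option maxHeartbeats 400000

/-! # F1': Tonelli and the substitution `v = e^s m / Y` -/

namespace Pool.Agent.Work.Mu22

open NumberField Module MeasureTheory Set
open scoped Pointwise nonZeroDivisors ENNReal Real

/-- the substitution `v = e^s c` -/
theorem lintegral_exp_subst (c : ℝ) (hc : 0 < c) (g : ℝ → ℝ≥0∞) :
    ∫⁻ v in Ioi (0 : ℝ), g v =
      ∫⁻ s : ℝ, ENNReal.ofReal (Real.exp s * c) * g (Real.exp s * c) := by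
  have h := lintegral_image_eq_lintegral_abs_deriv_mul (s := univ)
    (f := fun s => Real.exp s * c) (f' := fun s => Real.exp s * c) MeasurableSet.univ
    (fun x _ => ((Real.hasDerivAt_exp x).mul_const c).hasDerivWithinAt)
    (fun x _ y _ hxy => Real.exp_injective (mul_right_cancel₀ hc.ne' hxy)) g
  have h2 : (fun s => Real.exp s * c) '' univ = Ioi (0 : ℝ) := by
    ext v
    simp only [image_univ, mem_range, mem_Ioi]
    constructor
    · rintro ⟨s, rfl⟩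
      positivity
    · intro hv
      exact ⟨Real.log (v / c), by rw [Real.exp_log (by positivity), div_mul_cancel₀ _ hc.ne']⟩
  rw [h2] at h
  rw [h, setLIntegral_univ]
  refine lintegral_congr fun s => ?_
  rw [abs_of_pos (by positivity)]

theorem kk_eq (d m : ℕ) (hm : 0 < m) (Y : ℝ) (hY : 0 < Y) :
    kk ((d * m : ℕ) / Y) = ∫⁻ v in Ioi (0 : ℝ),
      ENNReal.ofReal (Real.exp (-(d * v))) *
        ENNReal.ofReal (Real.exp (-(π / 4) * (m * (1 / (Y * v))) ^ 2)) *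
        ENNReal.ofReal (1 / v) := by
  have hm' : (0 : ℝ) < m := by exact_mod_cast hm
  rw [lintegral_exp_subst (m / Y) (by positivity), kk]
  refine lintegral_congr fun s => ?_
  have h0 : 0 < Real.exp s * (m / Y) := by positivity
  have h2 : ENNReal.ofReal (1 / (Real.exp s * (m / Y))) * ENNReal.ofReal (Real.exp s * (m / Y)) =
      1 := by
    rw [← ENNReal.ofReal_mul (by positivity), one_div_mul_cancel h0.ne', ENNReal.ofReal_one]
  rw [mul_comm (ENNReal.ofReal (Real.exp s * (m / Y))), mul_assoc, h2, mul_one,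
    ← ENNReal.ofReal_mul (by positivity), ← Real.exp_add]
  congr 2
  have h1 : (m : ℝ) * (1 / (Y * (Real.exp s * (m / Y)))) = Real.exp (-s) := by
    rw [Real.exp_neg]
    field_simp
  rw [h1, ← Real.exp_nat_mul]
  push_cast
  rw [show (2 : ℝ) * -s = -2 * s by ring]
  ring

section

variable (h0 : ∀ n, 0 ≤ rr n) (hbb : ∀ n, bb n = ∑ d ∈ n.divisors, rr d)
  (hHs : ∀ v : ℝ, 0 < v → Summable fun n : ℕ => (rr n : ℝ) * Real.exp (-(n * v)))
  (hJs : ∀ s : ℝ, 0 < s → Summable fun m : ℕ => Real.exp (-(π / 4) * (((m : ℝ) + 1) * s) ^ 2))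

include h0 hbb in
theorem bb_mul_kk (n : ℕ) (Y : ℝ) : ENNReal.ofReal (bb n) * kk ((n : ℝ) / Y) =
    ∑ i ∈ n.divisorsAntidiagonal, ENNReal.ofReal (rr i.1) * kk ((i.1 * i.2 : ℕ) / Y) := by
  have h1 : ∑ i ∈ n.divisorsAntidiagonal, ENNReal.ofReal (rr i.1) * kk ((i.1 * i.2 : ℕ) / Y) =
      ∑ i ∈ n.divisorsAntidiagonal, ENNReal.ofReal (rr i.1) * kk ((n : ℝ) / Y) := by
    refine Finset.sum_congr rfl fun i hi => ?_
    rw [(Nat.mem_divisorsAntidiagonal.1 hi).1]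
  rw [h1, ← Finset.sum_mul, hbb]
  congr 1
  rw [Nat.sum_divisorsAntidiagonal (f := fun a _ => ENNReal.ofReal (rr a))]
  push_cast
  rw [ENNReal.ofReal_sum_of_nonneg fun i _ => by exact_mod_cast h0 i]

include h0 hHs in
theorem ofReal_HH {v : ℝ} (hv : 0 < v) :
    ENNReal.ofReal (HH v) = ∑' d : ℕ+, ENNReal.ofReal (rr d) *
      ENNReal.ofReal (Real.exp (-((d : ℕ) * v))) := by
  rw [HH, ENNReal.ofReal_tsum_of_nonneg
    (fun n => mul_nonneg (by exact_mod_cast h0 n) (Real.exp_pos _).le) (hHs v hv)]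
  have h1 : ∀ n : ℕ, ENNReal.ofReal ((rr n : ℝ) * Real.exp (-(n * v))) =
      ENNReal.ofReal (rr n) * ENNReal.ofReal (Real.exp (-(n * v))) := fun n =>
    ENNReal.ofReal_mul (by exact_mod_cast h0 n)
  simp only [h1]
  rw [tsum_pnat_eq_tsum_succ (f := fun n : ℕ => ENNReal.ofReal (rr n) *
      ENNReal.ofReal (Real.exp (-(n * v)))),
    tsum_eq_zero_add' ENNReal.summable]
  simp [rr]

include hJs in
theorem ofReal_JJ {s : ℝ} (hs : 0 < s) :
    ENNReal.ofReal (JJ s) = ∑' m : ℕ+,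
      ENNReal.ofReal (Real.exp (-(π / 4) * (((m : ℕ) : ℝ) * s) ^ 2)) := by
  rw [JJ, ENNReal.ofReal_tsum_of_nonneg (fun n => (Real.exp_pos _).le) (hJs s hs),
    tsum_pnat_eq_tsum_succ (f := fun m : ℕ =>
      ENNReal.ofReal (Real.exp (-(π / 4) * ((m : ℝ) * s) ^ 2)))]
  push_cast
  rfl

include h0 hbb hHs hJs in
theorem tsum_bb_kk_of {Y : ℝ} (hY : 0 < Y) :
    ∑' n : ℕ, ENNReal.ofReal (bb (n + 1)) * kk (((n + 1 : ℕ) : ℝ) / Y) =
      ∫⁻ v in Ioi (0 : ℝ), ENNReal.ofReal (HH v * JJ (1 / (Y * v)) / v) := by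
  have h1 : ∑' n : ℕ, ENNReal.ofReal (bb (n + 1)) * kk (((n + 1 : ℕ) : ℝ) / Y) =
      ∑' n : ℕ+, ENNReal.ofReal (bb n) * kk (((n : ℕ) : ℝ) / Y) :=
    (tsum_pnat_eq_tsum_succ (f := fun n : ℕ => ENNReal.ofReal (bb n) * kk ((n : ℝ) / Y))).symm
  have h2 : ∑' n : ℕ+, ENNReal.ofReal (bb n) * kk (((n : ℕ) : ℝ) / Y) =
      ∑' (d : ℕ+) (m : ℕ+), ENNReal.ofReal (rr d) * kk (((d : ℕ) * (m : ℕ) : ℕ) / Y) := by
    simp only [bb_mul_kk h0 hbb]
    rw [← ENNReal.tsum_prod (f := fun (d m : ℕ+) =>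
        ENNReal.ofReal (rr d) * kk (((d : ℕ) * (m : ℕ) : ℕ) / Y)),
      ← sigmaAntidiagonalEquivProd.tsum_eq, ENNReal.tsum_sigma']
    refine tsum_congr fun n => ?_
    rw [← Finset.tsum_subtype (Nat.divisorsAntidiagonal n)
      (fun i => ENNReal.ofReal (rr i.1) * kk ((i.1 * i.2 : ℕ) / Y))]
    rfl
  rw [h1, h2]
  have h3 : ∀ d m : ℕ+, ENNReal.ofReal (rr d) * kk (((d : ℕ) * (m : ℕ) : ℕ) / Y) =
      ∫⁻ v in Ioi (0 : ℝ), (ENNReal.ofReal (rr d) * ENNReal.ofReal (Real.exp (-((d : ℕ) * v)))) *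
        (ENNReal.ofReal (Real.exp (-(π / 4) * (((m : ℕ) : ℝ) * (1 / (Y * v))) ^ 2)) *
        ENNReal.ofReal (1 / v)) := by
    intro d m
    rw [kk_eq d m m.pos Y hY, ← lintegral_const_mul' _ _ ENNReal.ofReal_ne_top]
    refine lintegral_congr fun v => ?_
    ring
  simp only [h3]
  have h4 : ∀ d : ℕ+, ∑' m : ℕ+, ∫⁻ v in Ioi (0 : ℝ),
      (ENNReal.ofReal (rr d) * ENNReal.ofReal (Real.exp (-((d : ℕ) * v)))) *
        (ENNReal.ofReal (Real.exp (-(π / 4) * (((m : ℕ) : ℝ) * (1 / (Y * v))) ^ 2)) *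
        ENNReal.ofReal (1 / v)) = ∫⁻ v in Ioi (0 : ℝ),
      (ENNReal.ofReal (rr d) * ENNReal.ofReal (Real.exp (-((d : ℕ) * v)))) *
        ((∑' m : ℕ+, ENNReal.ofReal (Real.exp (-(π / 4) * (((m : ℕ) : ℝ) * (1 / (Y * v))) ^ 2))) *
        ENNReal.ofReal (1 / v)) := by
    intro d
    rw [← lintegral_tsum fun m => by fun_prop]
    refine lintegral_congr fun v => ?_
    rw [ENNReal.tsum_mul_left, ENNReal.tsum_mul_right]
  simp only [h4]
  rw [← lintegral_tsum fun d => by fun_prop]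
  refine setLIntegral_congr_fun measurableSet_Ioi fun v hv => ?_
  rw [ENNReal.tsum_mul_right, ← ofReal_HH h0 hHs hv, ← ofReal_JJ hJs (by
    have : 0 < v := hv
    positivity), div_eq_mul_one_div (HH v * JJ _), ENNReal.ofReal_mul, ENNReal.ofReal_mul]
  · ring
  · exact tsum_nonneg fun n => mul_nonneg (by exact_mod_cast h0 n) (Real.exp_pos _).le
  · refine mul_nonneg ?_ ?_
    · exact tsum_nonneg fun n => mul_nonneg (by exact_mod_cast h0 n) (Real.exp_pos _).le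
    · exact tsum_nonneg fun n => (Real.exp_pos _).le

end

end Pool.Agent.Work.Mu22
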