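import Pool.Agent.Work.MP_a4986b_nt.Norm3

set_option autoImplicit false
set_option maxHeartbeats 400000

/-! # Unfolding: the integrals over the unit flow -/

namespace Pool.Agent.Work.Mu22

open NumberField Module MeasureTheory
open scoped Pointwise nonZeroDivisors ENNReal Real

/-- the integral over the full line -/
theorem lintegral_kk (α c : ℝ) (hα : α ≠ 0) :
    ∫⁻ s : ℝ, ENNReal.ofReal (Real.exp (-(π / 4) * (α / Real.exp s) ^ 2 - c * Real.exp s)) =
      kk (|α| * c) := by
  have h1 := lintegral_add_right_eq_self (μ := (volume : Measure ℝ))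
    (fun s : ℝ => ENNReal.ofReal (Real.exp (-(π / 4) * (α / Real.exp s) ^ 2 - c * Real.exp s)))
    (Real.log |α|)
  rw [← h1, kk]
  refine lintegral_congr fun s => ?_
  have h2 : Real.exp (s + Real.log |α|) = Real.exp s * |α| := by
    rw [Real.exp_add, Real.exp_log (abs_pos.mpr hα)]
  have h3 : (α / (Real.exp s * |α|)) ^ 2 = Real.exp (-2 * s) := by
    rw [div_pow, mul_pow, sq_abs, show (-2 : ℝ) * s = -(s + s) by ring, Real.exp_neg,
      Real.exp_add]
    field_simp
  congr 2
  rw [h2, h3]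
  ring

/-- intervals translated by `-ℓ u`, at most two of which contain a given point -/
theorem tsum_lintegral_le {U : Type*} [Countable U] (ℓ : U → ℝ) (R : ℝ)
    (h2 : ∀ s : ℝ, ∃ a b : U, ∀ u : U, s ∈ Set.Ico (-ℓ u) (R - ℓ u) → u = a ∨ u = b)
    (f : ℝ → ℝ≥0∞) (hf : Measurable f) :
    ∑' u : U, ∫⁻ t in Set.Ico 0 R, f (t - ℓ u) ≤ 2 * ∫⁻ s, f s := by
  have h1 : ∀ u : U, ∫⁻ t in Set.Ico 0 R, f (t - ℓ u) =
      ∫⁻ s, (Set.Ico (-ℓ u) (R - ℓ u)).indicator f s := by
    intro u
    rw [← lintegral_indicator measurableSet_Ico,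
      ← lintegral_add_right_eq_self _ (ℓ u)]
    refine lintegral_congr fun s => ?_
    simp only [Set.indicator_apply, Set.mem_Ico, add_sub_cancel_right]
    congr 1
    simp only [eq_iff_iff]
    constructor
    · rintro ⟨ha, hb⟩; exact ⟨by linarith, by linarith⟩
    · rintro ⟨ha, hb⟩; exact ⟨by linarith, by linarith⟩
  simp only [h1]
  rw [← lintegral_tsum fun u => (hf.indicator measurableSet_Ico).aemeasurable,
    ← lintegral_const_mul _ hf]
  refine lintegral_mono fun s => ?_
  obtain ⟨a, b, hab⟩ := h2 s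
  classical
  have h3 : ∀ u ∉ ({a, b} : Finset U), (Set.Ico (-ℓ u) (R - ℓ u)).indicator f s = 0 := by
    intro u hu
    rw [Set.indicator_of_notMem]
    intro hs
    apply hu
    simpa using hab u hs
  rw [tsum_eq_sum h3]
  calc ∑ u ∈ ({a, b} : Finset U), (Set.Ico (-ℓ u) (R - ℓ u)).indicator f s
      ≤ ∑ u ∈ ({a, b} : Finset U), f s :=
        Finset.sum_le_sum fun u _ => Set.indicator_le_self _ _ _
    _ ≤ 2 * f s := by
        rw [Finset.sum_const, nsmul_eq_mul]
        gcongr
        exact_mod_cast Finset.card_le_two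

end Pool.Agent.Work.Mu22
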