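import Pool.Agent.Work.MP_a4986b_nt.UnfoldA

set_option autoImplicit false
set_option maxHeartbeats 400000

/-! # Unfolding over the units and the ideals of a class -/

namespace Pool.Agent.Work.Mu22

open NumberField Module MeasureTheory
open scoped Pointwise nonZeroDivisors ENNReal Real

variable {K : Type*} [Field K] [NumberField K]

/-- the summand along the unit flow -/
noncomputable def hh (φ : K →+* ℝ) (ψ : K →+* ℂ) (c : ℝ) (x : K) (t : ℝ) : ℝ≥0∞ :=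
  ENNReal.ofReal (Real.exp (-(π / 4) * (φ x / Real.exp t) ^ 2 - ‖ψ x‖ ^ 2 / (c * Real.exp (-t))))

omit [NumberField K] in
theorem hh_eq (φ : K →+* ℝ) (ψ : K →+* ℂ) (c : ℝ) (x : K) (t : ℝ) :
    hh φ ψ c x t = ENNReal.ofReal (Real.exp (-(π / 4) * (φ x / Real.exp t) ^ 2 -
      ‖ψ x‖ ^ 2 / c * Real.exp t)) := by
  rw [hh, Real.exp_neg]
  congr 3
  rw [div_mul_eq_mul_div, ← div_eq_mul_inv, div_div_eq_mul_div]

omit [NumberField K] in
theorem measurable_hh (φ : K →+* ℝ) (ψ : K →+* ℂ) (c : ℝ) (x : K) :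
    Measurable (hh φ ψ c x) := by
  unfold hh
  fun_prop

theorem hh_unit (h3 : finrank ℚ K = 3) (φ : K →+* ℝ) (ψ : K →+* ℂ)
    (hψ : ¬ ComplexEmbedding.IsReal ψ) (c : ℝ) (x : K) (u : (𝓞 K)ˣ) (t : ℝ) :
    hh φ ψ c (x * ((u : 𝓞 K) : K)) t = hh φ ψ c x (t - Real.log |φ (u : 𝓞 K)|) := by
  have h1 := unit_norm h3 φ ψ hψ u
  have h0 : φ (u : 𝓞 K) ≠ 0 := by
    intro h
    rw [h] at h1
    simp at h1
  have hpos : 0 < |φ (u : 𝓞 K)| := abs_pos.mpr h0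
  have h2 : Real.exp (t - Real.log |φ (u : 𝓞 K)|) = Real.exp t / |φ (u : 𝓞 K)| := by
    rw [Real.exp_sub, Real.exp_log hpos]
  have h4 : ‖ψ (u : 𝓞 K)‖ ^ 2 = |φ (u : 𝓞 K)|⁻¹ := by
    refine eq_inv_of_mul_eq_one_left ?_
    rw [mul_comm]
    exact h1
  rw [hh_eq, hh_eq, h2]
  congr 2
  have h5 : (φ x / (Real.exp t / |φ (u : 𝓞 K)|)) ^ 2 = (φ (x * ((u : 𝓞 K) : K)) / Real.exp t) ^ 2 := by
    rw [map_mul, div_pow, div_pow, div_pow, mul_pow, sq_abs]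
    field_simp
  rw [h5, map_mul ψ, norm_mul, mul_pow, h4]
  congr 1
  field_simp

omit [NumberField K] in
/-- at most two units translate the interval over a given point -/
theorem two_units (φ : K →+* ℝ) (R : ℝ)
    (hunit : ∀ u : (𝓞 K)ˣ, u ≠ 1 → u ≠ -1 → R ≤ abs (Real.log (abs (φ (u : 𝓞 K))))) (s : ℝ) :
    ∃ a b : (𝓞 K)ˣ, ∀ u : (𝓞 K)ˣ,
      s ∈ Set.Ico (-Real.log |φ (u : 𝓞 K)|) (R - Real.log |φ (u : 𝓞 K)|) → u = a ∨ u = b := by
  by_cases h : ∃ u₀ : (𝓞 K)ˣ,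
    s ∈ Set.Ico (-Real.log |φ (u₀ : 𝓞 K)|) (R - Real.log |φ (u₀ : 𝓞 K)|)
  · obtain ⟨u₀, hu₀⟩ := h
    refine ⟨u₀, -u₀, fun u hu => ?_⟩
    by_contra hne
    push Not at hne
    have h1 : u * u₀⁻¹ ≠ 1 := by
      intro h
      exact hne.1 (mul_inv_eq_one.mp h)
    have h2 : u * u₀⁻¹ ≠ -1 := by
      intro h
      apply hne.2
      rw [mul_inv_eq_iff_eq_mul] at h
      rw [h, neg_one_mul]
    have h4 := hunit _ h1 h2
    have hφ : ∀ v : (𝓞 K)ˣ, φ (v : 𝓞 K) ≠ 0 := by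
      intro v
      rw [ne_eq, map_eq_zero]
      simp
    have h5 : ((u : 𝓞 K) : K) = (((u * u₀⁻¹ : (𝓞 K)ˣ) : 𝓞 K) : K) * ((u₀ : 𝓞 K) : K) := by
      rw [← map_mul, ← Units.val_mul, inv_mul_cancel_right]
    have h6 : Real.log |φ (u : 𝓞 K)| =
        Real.log |φ ((u * u₀⁻¹ : (𝓞 K)ˣ) : 𝓞 K)| + Real.log |φ (u₀ : 𝓞 K)| := by
      rw [h5, map_mul, abs_mul, Real.log_mul (abs_pos.mpr (hφ _)).ne' (abs_pos.mpr (hφ _)).ne']
    obtain ⟨h7, h8⟩ := hu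
    obtain ⟨h9, h10⟩ := hu₀
    rw [le_abs] at h4
    rcases h4 with h4 | h4 <;> linarith
  · refine ⟨1, 1, fun u hu => absurd ⟨u, hu⟩ h⟩

instance countable_int : Countable (𝓞 K) :=
  (RingOfIntegers.basis K).equivFun.toEquiv.countable_iff.mpr inferInstance

instance countable_units : Countable (𝓞 K)ˣ :=
  Function.Injective.countable (f := fun u : (𝓞 K)ˣ => (u : 𝓞 K)) Units.val_injective

/-- the contribution of one ideal -/
theorem fibre_le (h3 : finrank ℚ K = 3) (φ : K →+* ℝ) (ψ : K →+* ℂ)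
    (hψ : ¬ ComplexEmbedding.IsReal ψ) (R : ℝ)
    (hunit : ∀ u : (𝓞 K)ˣ, u ≠ 1 → u ≠ -1 → R ≤ abs (Real.log (abs (φ (u : 𝓞 K))))) (c : ℝ)
    (x₀ : 𝓞 K) (hx₀ : x₀ ≠ 0) {ι : Type*} (x : ι → 𝓞 K) (hx : Function.Injective x)
    (hs : ∀ i, Ideal.span {x i} = Ideal.span {x₀}) :
    ∑' i, ∫⁻ t in Set.Ico 0 R, hh φ ψ c (x i) t ≤
      2 * kk ((Ideal.absNorm (Ideal.span {x₀}) : ℝ) / c) := by
  have h1 : ∀ i, ∃ u : (𝓞 K)ˣ, x₀ * u = x i := fun i =>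
    Ideal.span_singleton_eq_span_singleton.mp (hs i).symm
  choose u hu using h1
  have hinj : Function.Injective u := by
    intro i j hij
    apply hx
    rw [← hu i, ← hu j, hij]
  have h2 : ∀ i, ∫⁻ t in Set.Ico 0 R, hh φ ψ c (x i) t =
      ∫⁻ t in Set.Ico 0 R, hh φ ψ c x₀ (t - Real.log |φ (u i : 𝓞 K)|) := by
    intro i
    refine lintegral_congr fun t => ?_
    rw [← hh_unit h3 φ ψ hψ, ← hu i]
    rfl
  calc ∑' i, ∫⁻ t in Set.Ico 0 R, hh φ ψ c (x i) t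
      = ∑' i, (fun v : (𝓞 K)ˣ =>
          ∫⁻ t in Set.Ico 0 R, hh φ ψ c x₀ (t - Real.log |φ (v : 𝓞 K)|)) (u i) :=
        tsum_congr h2
    _ ≤ ∑' v : (𝓞 K)ˣ, ∫⁻ t in Set.Ico 0 R, hh φ ψ c x₀ (t - Real.log |φ (v : 𝓞 K)|) :=
        ENNReal.tsum_comp_le_tsum_of_injective hinj _
    _ ≤ 2 * ∫⁻ s, hh φ ψ c x₀ s :=
        tsum_lintegral_le (fun v : (𝓞 K)ˣ => Real.log |φ (v : 𝓞 K)|) R (two_units φ R hunit) _
          (measurable_hh φ ψ c x₀)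
    _ = 2 * kk ((Ideal.absNorm (Ideal.span {x₀}) : ℝ) / c) := by
        have h4 : φ x₀ ≠ 0 := by
          rw [ne_eq, map_eq_zero]
          simpa using hx₀
        congr 1
        simp only [hh_eq]
        rw [lintegral_kk _ _ h4, absNorm_eq_prod h3 φ ψ hψ, mul_div_assoc]

/-- the contribution of one class -/
theorem class_le (h3 : finrank ℚ K = 3) (φ : K →+* ℝ) (ψ : K →+* ℂ)
    (hψ : ¬ ComplexEmbedding.IsReal ψ) (R : ℝ)
    (hunit : ∀ u : (𝓞 K)ˣ, u ≠ 1 → u ≠ -1 → R ≤ abs (Real.log (abs (φ (u : 𝓞 K))))) (Y : ℝ)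
    (C : ClassGroup (𝓞 K)) (J : (Ideal (𝓞 K))⁰) (hJ : ClassGroup.mk0 J = C⁻¹) [DecidableEq (ClassGroup (𝓞 K))] :
    ∑' x : {x : (J : Ideal (𝓞 K)) // x ≠ 0}, ∫⁻ t in Set.Ico 0 R,
      hh φ ψ (Y * Ideal.absNorm (J : Ideal (𝓞 K))) ((x.1 : 𝓞 K) : K) t ≤
    ∑' I : {I : Ideal (𝓞 K) // I ≠ ⊥},
      if ClassGroup.mk0 ⟨I.1, mem_nonZeroDivisors_of_ne_zero I.2⟩ = C then
        2 * kk (Ideal.absNorm I.1 / Y) else 0 := by
  have h1 : ∀ x : {x : (J : Ideal (𝓞 K)) // x ≠ 0}, ∃ I : {I : Ideal (𝓞 K) // I ≠ ⊥},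
      Ideal.span {(x.1 : 𝓞 K)} = (J : Ideal (𝓞 K)) * I.1 := by
    intro x
    obtain ⟨I, hI⟩ := (Ideal.dvd_span_singleton (I := (J : Ideal (𝓞 K)))).mpr x.1.2
    refine ⟨⟨I, ?_⟩, hI⟩
    rintro rfl
    apply x.2
    have : (x.1 : 𝓞 K) = 0 := by simpa using hI
    exact Subtype.ext this
  choose q hq using h1
  rw [← ENNReal.tsum_fiberwise _ q]
  refine ENNReal.tsum_le_tsum fun I => ?_
  by_cases hne : Nonempty (q ⁻¹' {I})
  · obtain ⟨x₀, hx₀⟩ := hne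
    have hqx₀ : q x₀ = I := hx₀
    have hspan : Ideal.span {(x₀.1 : 𝓞 K)} = (J : Ideal (𝓞 K)) * I.1 := by
      rw [hq x₀, hqx₀]
    have hx0 : (x₀.1 : 𝓞 K) ≠ 0 := by
      intro h
      apply x₀.2
      exact Subtype.ext h
    have hcl : ClassGroup.mk0 ⟨I.1, mem_nonZeroDivisors_of_ne_zero I.2⟩ = C := by
      have h2 : ClassGroup.mk0 (J * ⟨I.1, mem_nonZeroDivisors_of_ne_zero I.2⟩) = 1 := by
        rw [ClassGroup.mk0_eq_one_iff]
        change (J.1 * I.1).IsPrincipal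
        rw [← hspan]
        exact ⟨_, rfl⟩
      rw [map_mul, hJ, inv_mul_eq_one] at h2
      exact h2.symm
    rw [if_pos hcl]
    have h4 := fibre_le h3 φ ψ hψ R hunit (Y * Ideal.absNorm (J : Ideal (𝓞 K))) (x₀.1 : 𝓞 K) hx0
      (fun x : q ⁻¹' {I} => (x.1.1 : 𝓞 K))
      (fun a b hab => Subtype.ext (Subtype.ext (Subtype.ext hab))) (by
        intro x
        have : q x.1 = I := x.2
        rw [hspan, hq x.1, this])
    refine h4.trans (le_of_eq ?_)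
    congr 2
    rw [hspan, map_mul, Nat.cast_mul]
    have : (Ideal.absNorm (J : Ideal (𝓞 K)) : ℝ) ≠ 0 := by
      rw [Nat.cast_ne_zero]
      exact Ideal.absNorm_ne_zero_of_nonZeroDivisors J
    rw [mul_comm Y, mul_div_mul_left _ _ this]
  · rw [not_nonempty_iff] at hne
    rw [tsum_empty]
    exact bot_le

theorem tsum_split {ι : Type*} (a : ι) (f : ι → ℝ≥0∞) :
    ∑' x, f x = f a + ∑' x : {x : ι // x ≠ a}, f x := by
  have h := (ENNReal.summable (f := fun x : ({a} : Set ι) => f x)).tsum_add_tsum_compl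
    (s := ({a} : Set ι)) (f := f) (ENNReal.summable (f := fun x : ↥({a} : Set ι)ᶜ => f x))
  rw [tsum_singleton a f] at h
  exact h.symm

theorem unfold_core (h3 : finrank ℚ K = 3) (φ : K →+* ℝ) (ψ : K →+* ℂ)
    (hψ : ¬ ComplexEmbedding.IsReal ψ) (R : ℝ) (hR : 0 < R)
    (hunit : ∀ u : (𝓞 K)ˣ, u ≠ 1 → u ≠ -1 → R ≤ abs (Real.log (abs (φ (u : 𝓞 K))))) (Y : ℝ)
    (hY : 0 < Y)
    (htheta : ∀ I : Ideal (𝓞 K), I ≠ ⊥ → ∀ a b : ℝ, 0 < a → 0 < b →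
      ENNReal.ofReal (4 * π * a * b / (Ideal.absNorm I * √|(discr K : ℝ)|)) ≤
      ∑' x : I, ENNReal.ofReal
        (Real.exp (-(π / 4) * (φ (x : 𝓞 K) / a) ^ 2 - ‖ψ (x : 𝓞 K)‖ ^ 2 / b))) :
    ENNReal.ofReal (Nat.card (ClassGroup (𝓞 K)) * R * (4 * π * Y / √|(discr K : ℝ)| - 1)) ≤
      2 * ∑' I : {I : Ideal (𝓞 K) // I ≠ ⊥}, kk (Ideal.absNorm I.1 / Y) := by
  classical
  -- one class
  have key : ∀ C : ClassGroup (𝓞 K),
      ENNReal.ofReal R * ENNReal.ofReal (4 * π * Y / √|(discr K : ℝ)| - 1) ≤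
      ∑' I : {I : Ideal (𝓞 K) // I ≠ ⊥},
        if ClassGroup.mk0 ⟨I.1, mem_nonZeroDivisors_of_ne_zero I.2⟩ = C then
          2 * kk (Ideal.absNorm I.1 / Y) else 0 := by
    intro C
    obtain ⟨J, hJ⟩ := ClassGroup.mk0_surjective (C⁻¹)
    refine le_trans ?_ (class_le h3 φ ψ hψ R hunit Y C J hJ)
    have hN : (0 : ℝ) < Ideal.absNorm (J : Ideal (𝓞 K)) := by
      have := Ideal.absNorm_ne_zero_of_nonZeroDivisors J
      positivity
    have hcount : Countable (J : Ideal (𝓞 K)) :=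
      Function.Injective.countable (f := fun x : (J : Ideal (𝓞 K)) => (x : 𝓞 K))
        Subtype.val_injective
    have hpt : ∀ t : ℝ, ENNReal.ofReal (4 * π * Y / √|(discr K : ℝ)| - 1) ≤
        ∑' x : {x : (J : Ideal (𝓞 K)) // x ≠ 0},
          hh φ ψ (Y * Ideal.absNorm (J : Ideal (𝓞 K))) ((x.1 : 𝓞 K) : K) t := by
      intro t
      have h1 := htheta J (nonZeroDivisors.coe_ne_zero J) (Real.exp t)
        (Y * Ideal.absNorm (J : Ideal (𝓞 K)) * Real.exp (-t)) (Real.exp_pos t) (by positivity)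
      have h2 : 4 * π * Real.exp t * (Y * Ideal.absNorm (J : Ideal (𝓞 K)) * Real.exp (-t)) /
          (Ideal.absNorm (J : Ideal (𝓞 K)) * √|(discr K : ℝ)|) = 4 * π * Y / √|(discr K : ℝ)| := by
        rw [Real.exp_neg]
        have := (Real.exp_pos t).ne'
        field_simp
      rw [h2] at h1
      rw [ENNReal.ofReal_sub _ zero_le_one, ENNReal.ofReal_one, tsub_le_iff_left]
      refine h1.trans (le_of_eq ?_)
      rw [tsum_split (0 : (J : Ideal (𝓞 K)))]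
      congr 1
      simp
    calc ENNReal.ofReal R * ENNReal.ofReal (4 * π * Y / √|(discr K : ℝ)| - 1)
        = ∫⁻ _ in Set.Ico 0 R, ENNReal.ofReal (4 * π * Y / √|(discr K : ℝ)| - 1) := by
          rw [setLIntegral_const, Real.volume_Ico, sub_zero, mul_comm]
      _ ≤ ∫⁻ t in Set.Ico 0 R, ∑' x : {x : (J : Ideal (𝓞 K)) // x ≠ 0},
          hh φ ψ (Y * Ideal.absNorm (J : Ideal (𝓞 K))) ((x.1 : 𝓞 K) : K) t :=
          lintegral_mono fun t => hpt t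
      _ = ∑' x : {x : (J : Ideal (𝓞 K)) // x ≠ 0}, ∫⁻ t in Set.Ico 0 R,
          hh φ ψ (Y * Ideal.absNorm (J : Ideal (𝓞 K))) ((x.1 : 𝓞 K) : K) t :=
          lintegral_tsum fun x => (measurable_hh φ ψ _ _).aemeasurable
  -- sum over the classes
  have h5 : ENNReal.ofReal (Nat.card (ClassGroup (𝓞 K)) * R *
      (4 * π * Y / √|(discr K : ℝ)| - 1)) =
      ∑' _ : ClassGroup (𝓞 K),
        ENNReal.ofReal R * ENNReal.ofReal (4 * π * Y / √|(discr K : ℝ)| - 1) := by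
    rw [tsum_fintype, Finset.sum_const, Finset.card_univ, nsmul_eq_mul, mul_assoc,
      ENNReal.ofReal_mul (by positivity), ENNReal.ofReal_mul hR.le, ENNReal.ofReal_natCast,
      Nat.card_eq_fintype_card]
  rw [h5, ← ENNReal.tsum_mul_left]
  refine (ENNReal.tsum_le_tsum key).trans (le_of_eq ?_)
  rw [ENNReal.tsum_comm]
  refine tsum_congr fun I => ?_
  rw [tsum_eq_single (ClassGroup.mk0 ⟨I.1, mem_nonZeroDivisors_of_ne_zero I.2⟩)
    fun C hC => if_neg hC.symm, if_pos rfl]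

end Pool.Agent.Work.Mu22
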