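import Pool.Agent.Work.MP_a4986b_nt.YCplx

set_option autoImplicit false
set_option maxHeartbeats 400000
set_option linter.unusedSectionVars false

/-! # Layers for embedded number fields -/

namespace Pool.Agent.Work.MuY

open NumberField Module
open scoped Pointwise nonZeroDivisors
open Pool.Agent.Work.MuI Pool.Agent.Work.MuI.Step

/-- the image of a number field in `ℂ` -/
noncomputable def im {F : Type} [Field F] [NumberField F] (φ : F →+* ℂ) : IntermediateField ℚ ℂ :=
  φ.toRatAlgHom.fieldRange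

theorem mem_im {F : Type} [Field F] [NumberField F] (φ : F →+* ℂ) (x : ℂ) :
    x ∈ im φ ↔ ∃ y, φ y = x := Iff.rfl

/-- `E` is the layer of degree `p ^ m` -/
def LayerAt (p m : ℕ) (E : IntermediateField ℚ ℂ) : Prop :=
  E ≤ IntermediateField.adjoin ℚ {z : ℂ | z ^ (p ^ (m + 1)) = 1} ∧ finrank ℚ E = p ^ m

/-- two embedded fields with the same elements -/
def sameElts {k : Type} [Field k] [Algebra k ℂ] (S : IntermediateField k ℂ)
    (T : IntermediateField ℚ ℂ) (h : ∀ x : ℂ, x ∈ S ↔ x ∈ T) : S ≃+* T where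
  toFun x := ⟨x.1, (h _).1 x.2⟩
  invFun x := ⟨x.1, (h _).2 x.2⟩
  left_inv _ := rfl
  right_inv _ := rfl
  map_mul' _ _ := rfl
  map_add' _ _ := rfl

theorem transport_ns {K X Y : Type} [Field K] [NumberField K] [Field X] [NumberField X]
    [Field Y] [NumberField Y] [Algebra K X] [Algebra K Y] (e : X ≃ₐ[K] Y) {p : ℕ}
    (hns : ∀ P Q : Ideal (𝓞 X), P.IsPrime → Q.IsPrime → (p : 𝓞 X) ∈ P → (p : 𝓞 X) ∈ Q →
      P.under (𝓞 K) = Q.under (𝓞 K) → P = Q) :
    ∀ P Q : Ideal (𝓞 Y), P.IsPrime → Q.IsPrime → (p : 𝓞 Y) ∈ P → (p : 𝓞 Y) ∈ Q →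
      P.under (𝓞 K) = Q.under (𝓞 K) → P = Q := by
  intro P Q hP hQ hpP hpQ h
  let f : 𝓞 X ≃+* 𝓞 Y := RingOfIntegers.mapRingEquiv e.toRingEquiv
  have hf : ∀ a : 𝓞 K, f (algebraMap (𝓞 K) (𝓞 X) a) = algebraMap (𝓞 K) (𝓞 Y) a := by
    intro a
    apply RingOfIntegers.ext
    exact e.commutes (a : K)
  have hu : ∀ R : Ideal (𝓞 Y), (R.comap f).under (𝓞 K) = R.under (𝓞 K) := by
    intro R
    ext a
    rw [Ideal.under_def, Ideal.under_def, Ideal.mem_comap, Ideal.mem_comap, Ideal.mem_comap, hf]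
  have h1 := hns (P.comap f) (Q.comap f) (Ideal.comap_isPrime f P) (Ideal.comap_isPrime f Q)
    (by simpa [Ideal.mem_comap] using hpP) (by simpa [Ideal.mem_comap] using hpQ)
    (by rw [hu, hu, h])
  exact Ideal.comap_injective_of_surjective (f : 𝓞 X →+* 𝓞 Y) f.surjective h1

theorem transport_minus {K X Y : Type} [Field K] [NumberField K] [Field X] [NumberField X]
    [Field Y] [NumberField Y] [Algebra K X] [Algebra K Y] (e : X ≃ₐ[K] Y) {p q : ℕ}
    (hX : ∀ s : Gal(X/K), orderOf s = q → ∀ c : ClassGroup (𝓞 X), c ^ p = 1 →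
      ambNu (clAct s) q c = 1 → c = 1) :
    ∀ s : Gal(Y/K), orderOf s = q → ∀ c : ClassGroup (𝓞 Y), c ^ p = 1 →
      ambNu (clAct s) q c = 1 → c = 1 := by
  intro s hs
  let a : Algebra X Y := e.toRingHom.toAlgebra
  have hd : finrank X Y = 1 := by
    have h1 : Function.Bijective (algebraMap X Y) := e.bijective
    let l : X ≃ₗ[X] Y := LinearEquiv.ofBijective (Algebra.linearMap X Y) h1
    rw [← l.finrank_eq, finrank_self]
  let sX : Gal(X/K) := (AlgEquiv.autCongr e).symm s
  have hsX : orderOf sX = q := by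
    rw [← hs]
    exact MulEquiv.orderOf_eq (AlgEquiv.autCongr e).symm s
  have hc : ∀ y : X, algebraMap X Y (sX y) = s (algebraMap X Y y) := by
    intro y
    change e (e.symm (s (e y))) = s (e y)
    rw [AlgEquiv.apply_symm_apply]
  have hG : IsGalois X Y := by
    have h1 : Function.Bijective (algebraMap X Y) := e.bijective
    let l : X ≃ₐ[X] Y := AlgEquiv.ofBijective (Algebra.ofId X Y) h1
    exact IsGalois.of_algEquiv l
  exact minus_of_finrank_one hd s sX hc (hX sX hsX)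

/-- prime degree -/
theorem prime_layers {K X : Type} [Field K] [NumberField K] [Field X] [NumberField X]
    [Algebra K X] [IsGalois K X] {p q : ℕ} (hp : p.Prime) (hp2 : p ≠ 2) (hq : q.Prime)
    (hpq : p ≠ q) (hX : finrank K X = q)
    (hbase : ∀ s : Gal(X/K), orderOf s = q → ∀ c : ClassGroup (𝓞 X), c ^ p = 1 →
      ambNu (clAct s) q c = 1 → c = 1)
    (hns : ∀ P Q : Ideal (𝓞 X), P.IsPrime → Q.IsPrime → (p : 𝓞 X) ∈ P → (p : 𝓞 X) ∈ Q →
      P.under (𝓞 K) = Q.under (𝓞 K) → P = Q) (φ : X →+* ℂ) (m : ℕ) (E : IntermediateField ℚ ℂ)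
    (hE : LayerAt p m E) :
    padicValNat p (Nat.card (ClassGroup (𝓞 ↥(im φ ⊔ E)))) =
      padicValNat p (Nat.card (ClassGroup (𝓞 ↥(im (φ.comp (algebraMap K X)) ⊔ E)))) := by
  set ψ : K →+* ℂ := φ.comp (algebraMap K X) with hψ
  let aK : Algebra K ℂ := ψ.toAlgebra
  let φ' : X →ₐ[K] ℂ := { φ with commutes' := fun _ => rfl }
  set F : IntermediateField K ℂ := φ'.fieldRange with hF
  let e : X ≃ₐ[K] F := AlgEquiv.ofInjectiveField φ'
  have hFnf : NumberField F := NumberField.of_ringEquiv _ _ e.toRingEquiv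
  have hFG : IsGalois K F := IsGalois.of_algEquiv e
  have hFd : finrank K F = q := by rw [← e.toLinearEquiv.finrank_eq, hX]
  have hmemF : ∀ x, x ∈ F ↔ x ∈ im φ := fun x => Iff.rfl
  -- the base field inside `ℂ`
  set k : IntermediateField ℚ ℂ := im ψ with hk
  let eK : K ≃+* k := (AlgEquiv.ofInjectiveField ψ.toRatAlgHom).toRingEquiv
  have heK : ∀ x, ((eK x : k) : ℂ) = ψ x := fun x => rfl
  have hknf : NumberField k := NumberField.of_ringEquiv _ _ eK
  have hn0 : p ^ (m + 1) ≠ 0 := pow_ne_zero _ hp.ne_zero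
  obtain ⟨ζ, hζ⟩ : ∃ ζ : ℂ, IsPrimitiveRoot ζ (p ^ (m + 1)) :=
    ⟨_, Complex.isPrimitiveRoot_exp _ hn0⟩
  obtain ⟨⟨n, hn⟩, hle⟩ := finrank_layer k E hp hE.1 hE.2 ζ hζ
  -- the layer over `K`
  let EK : IntermediateField K ℂ := (k ⊔ E).toSubfield.toIntermediateField (fun x =>
    (le_sup_left : k ≤ k ⊔ E) (⟨x, rfl⟩ : ψ x ∈ k))
  have hmemE : ∀ x, x ∈ EK ↔ x ∈ k ⊔ E := fun x => Iff.rfl
  have hEKd : finrank K EK = p ^ n := by
    rw [← hn]
    refine Algebra.finrank_eq_of_equiv_equiv eK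
      ({ toFun := fun x => ⟨x.1, x.2⟩
         invFun := fun x => ⟨x.1, x.2⟩
         left_inv := fun _ => rfl
         right_inv := fun _ => rfl
         map_mul' := fun _ _ => rfl
         map_add' := fun _ _ => rfl } :
        EK ≃+* IntermediateField.extendScalars (le_sup_left : k ≤ k ⊔ E)) ?_
    ext x
    rfl
  have hEKle : EK ≤ IntermediateField.adjoin K {ζ} := by
    intro x hx
    have h1 : x ∈ IntermediateField.adjoin k {ζ} := hle hx
    have h2 : IntermediateField.adjoin k {ζ} ≤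
        (IntermediateField.adjoin K {ζ}).toSubfield.toIntermediateField (fun y => by
          obtain ⟨z, hz⟩ := y.2
          have h3 : algebraMap k ℂ y = algebraMap K ℂ z := hz.symm
          rw [h3]
          exact (IntermediateField.adjoin K {ζ}).algebraMap_mem z) := by
      rw [IntermediateField.adjoin_le_iff]
      rintro y rfl
      exact IntermediateField.mem_adjoin_simple_self K y
    exact h2 h1
  have key := sup_padic hp (hp.odd_of_ne_two hp2) hq hpq F EK hFd hEKd ζ hζ hEKle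
    (transport_minus e hbase) (transport_ns e hns)
  have hsup : ∀ x, x ∈ F ⊔ EK ↔ x ∈ im φ ⊔ E := by
    have hkF : k ≤ im φ := by
      rintro x ⟨y, rfl⟩
      exact ⟨algebraMap K X y, rfl⟩
    intro x
    constructor
    · have h1 : F ⊔ EK ≤ (im φ ⊔ E).toSubfield.toIntermediateField (fun y =>
          (le_sup_left : im φ ≤ im φ ⊔ E) (hkF ⟨y, rfl⟩)) := by
        refine sup_le ?_ ?_
        · intro y hy
          exact (le_sup_left : im φ ≤ im φ ⊔ E) hy
        · intro y hy
          exact (sup_le (hkF.trans le_sup_left) le_sup_right : k ⊔ E ≤ im φ ⊔ E) hy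
      exact fun h => h1 h
    · have h1 : im φ ⊔ E ≤ (F ⊔ EK).toSubfield.toIntermediateField (fun y => by
          exact SubfieldClass.ratCast_mem (F ⊔ EK).toSubfield y) := by
        refine sup_le ?_ ?_
        · intro y hy
          exact (le_sup_left : F ≤ F ⊔ EK) hy
        · intro y hy
          have h2 : y ∈ EK := (le_sup_right : E ≤ k ⊔ E) hy
          exact (le_sup_right : EK ≤ F ⊔ EK) h2
      exact fun h => h1 h
  rw [card_cl_eq (sameElts _ _ hsup), card_cl_eq (sameElts EK (k ⊔ E) hmemE)] at key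
  exact key

end Pool.Agent.Work.MuY
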