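import Pool.Agent.Work.MP_a4986b_nt.YCyc
import Pool.Agent.Work.MP_a4986b_nt.YPrime

set_option autoImplicit false
set_option maxHeartbeats 400000
set_option linter.unusedSectionVars false

/-! # Layers of abelian extensions -/

namespace Pool.Agent.Work.MuY

open NumberField Module
open scoped Pointwise nonZeroDivisors
open Pool.Agent.Work.MuI Pool.Agent.Work.MuI.Step

/-- `F / k` is non-split above `p`: two primes of `F` above `p` with the same restriction to `k`
are equal -/
def NonSplit (p : ℕ) (k F : Type) [Field k] [NumberField k] [Field F] [NumberField F]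
    [Algebra k F] : Prop :=
  ∀ P Q : Ideal (𝓞 F), P.IsPrime → Q.IsPrime → (p : 𝓞 F) ∈ P → (p : 𝓞 F) ∈ Q →
    P.under (𝓞 k) = Q.under (𝓞 k) → P = Q

theorem NonSplit.tower {p : ℕ} {k A F : Type} [Field k] [NumberField k] [Field A] [NumberField A]
    [Field F] [NumberField F] [Algebra k A] [Algebra A F] [Algebra k F] [IsScalarTower k A F]
    (h : NonSplit p k F) : NonSplit p k A ∧ NonSplit p A F := by
  constructor
  · intro P Q hP hQ hpP hpQ hPQ
    obtain ⟨⟨P', hP', hPo⟩⟩ := (inferInstance : Nonempty (Ideal.primesOver P (𝓞 F)))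
    obtain ⟨⟨Q', hQ', hQo⟩⟩ := (inferInstance : Nonempty (Ideal.primesOver Q (𝓞 F)))
    have hP1 : P = P'.under (𝓞 A) := Ideal.over_def P' P
    have hQ1 : Q = Q'.under (𝓞 A) := Ideal.over_def Q' Q
    have hpP' : (p : 𝓞 F) ∈ P' := by
      have h2 : (p : 𝓞 A) ∈ P'.under (𝓞 A) := hP1 ▸ hpP
      rw [Ideal.under_def, Ideal.mem_comap, map_natCast] at h2
      exact h2
    have hpQ' : (p : 𝓞 F) ∈ Q' := by
      have h2 : (p : 𝓞 A) ∈ Q'.under (𝓞 A) := hQ1 ▸ hpQ
      rw [Ideal.under_def, Ideal.mem_comap, map_natCast] at h2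
      exact h2
    have h3 : P' = Q' := by
      refine h P' Q' hP' hQ' hpP' hpQ' ?_
      rw [← Ideal.under_under (A := 𝓞 k) (B := 𝓞 A) P',
        ← Ideal.under_under (A := 𝓞 k) (B := 𝓞 A) Q', ← hP1, ← hQ1, hPQ]
    rw [hP1, hQ1, h3]
  · intro P Q hP hQ hpP hpQ hPQ
    refine h P Q hP hQ hpP hpQ ?_
    rw [← Ideal.under_under (A := 𝓞 k) (B := 𝓞 A) P,
      ← Ideal.under_under (A := 𝓞 k) (B := 𝓞 A) Q, hPQ]

/-- the gap condition for all cyclic subextensions of `F / k` that are not contained in `k'` -/
def CycGap (p : ℕ) (k k' F : Type) [Field k] [NumberField k] [Field F] [NumberField F]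
    [Field k'] [Algebra k F] [Algebra k' F] : Prop :=
  ∀ (F' : Type) [Field F'] [NumberField F'] [Algebra k F'] (ψ : F' →ₐ[k] F),
    ¬ Set.range ψ ⊆ Set.range (algebraMap k' F) → IsCyclic Gal(F'/k) → Gap p k F'

/-- the layers of an abelian extension -/
theorem layers_abs {p : ℕ} (hp : p.Prime) (hp2 : p ≠ 2) (k : Type) [Field k] [NumberField k]
    (n : ℕ) : ∀ (k' F : Type) [Field k'] [NumberField k'] [Field F] [NumberField F]
      [Algebra k k'] [Algebra k' F] [Algebra k F] [IsScalarTower k k' F] [IsAbelianGalois k F],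
      finrank k' F = n → ¬ p ∣ finrank k F → CycGap p k k' F → NonSplit p k' F →
      ∀ (φ : F →+* ℂ) (m : ℕ) (E : IntermediateField ℚ ℂ), LayerAt p m E →
        padicValNat p (Nat.card (ClassGroup (𝓞 ↥(im φ ⊔ E)))) =
          padicValNat p (Nat.card (ClassGroup (𝓞 ↥(im (φ.comp (algebraMap k' F)) ⊔ E)))) := by
  induction n using Nat.strong_induction_on with
  | _ n ih =>
    intro k' F _ _ _ _ _ _ _ _ _ hn hpF hgap hns φ m E hE
    have hG' : IsGalois k' F := IsGalois.tower_top_of_isGalois k k' F
    have hfin : FiniteDimensional k' F := inferInstance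
    have hcardG : Nat.card Gal(F/k') = n := by rw [IsGalois.card_aut_eq_finrank, hn]
    have hnpos : 0 < n := by rw [← hn]; exact finrank_pos
    have hpn : ¬ p ∣ n := by
      intro h
      apply hpF
      rw [← finrank_mul_finrank k k' F, hn]
      exact Dvd.dvd.mul_left h _
    by_cases hn1 : n = 1
    · have hs : Function.Surjective (algebraMap k' F) := by
        have h1 := (Subalgebra.bot_eq_top_iff_finrank_eq_one (F := k') (E := F)).2 (hn.trans hn1)
        intro x
        have hx : x ∈ (⊥ : Subalgebra k' F) := by rw [h1]; trivial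
        exact Algebra.mem_bot.1 hx
      have him : im φ = im (φ.comp (algebraMap k' F)) := by
        ext x
        rw [mem_im, mem_im]
        constructor
        · rintro ⟨y, rfl⟩
          obtain ⟨z, rfl⟩ := hs y
          exact ⟨z, rfl⟩
        · rintro ⟨z, rfl⟩
          exact ⟨algebraMap k' F z, rfl⟩
      rw [him]
    · have hq : n.minFac.Prime := Nat.minFac_prime hn1
      set q := n.minFac with hqdef
      have hqf : Fact q.Prime := ⟨hq⟩
      have hqn : q ∣ n := Nat.minFac_dvd n
      have hpq : p ≠ q := by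
        rintro h
        exact hpn (h ▸ hqn)
      obtain ⟨τ, hτ⟩ : ∃ τ : Gal(F/k'), orderOf τ = q :=
        exists_prime_orderOf_dvd_card' q (by rw [hcardG]; exact hqn)
      set A := IntermediateField.fixedField (Subgroup.zpowers τ) with hA
      have hAF : finrank A F = q := by
        rw [IntermediateField.finrank_fixedField_eq_card, Nat.card_zpowers, hτ]
      have hkA : finrank k' A * q = n := by rw [← hAF, finrank_mul_finrank, hn]
      have hpos : 0 < finrank k' A := finrank_pos
      have hlt : finrank k' A < n := by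
        rw [← hkA]
        exact (Nat.lt_mul_iff_one_lt_right hpos).2 hq.one_lt
      have hG : IsGalois A F := inferInstance
      have hst : IsScalarTower k A F := IsScalarTower.of_algebraMap_eq' rfl
      have hkAb : IsAbelianGalois k A := IsAbelianGalois.tower_bot k A F
      have hpA : ¬ p ∣ finrank k A := by
        intro h
        apply hpF
        rw [← finrank_mul_finrank k A F]
        exact Dvd.dvd.mul_right h _
      have hbase : ∀ s : Gal(F/A), orderOf s = q → ∀ c : ClassGroup (𝓞 F), c ^ p = 1 →
          ambNu (clAct s) q c = 1 → c = 1 := by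
        intro s hs c hc1 hc2
        have hpow : ∀ (i : ℕ) (x : F), ((s.restrictScalars k : Gal(F/k)) ^ i) x = (s ^ i) x := by
          intro i
          induction i with
          | zero => intro x; rfl
          | succ i ihi =>
            intro x
            rw [pow_succ, pow_succ]
            exact ihi (s x)
        have h4 : orderOf (s.restrictScalars k : Gal(F/k)) = q := by
          rw [← hs, orderOf_eq_orderOf_iff]
          intro i
          constructor
          · intro h
            apply AlgEquiv.ext
            intro x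
            rw [← hpow, h]
            rfl
          · intro h
            apply AlgEquiv.ext
            intro x
            rw [hpow, h]
            rfl
        have hgs : CycGapFor p k F (s.restrictScalars k) := by
          rintro F' _ _ _ ψ ⟨x, hx⟩ hcyc
          refine hgap F' ψ (fun hsub => hx ?_) hcyc
          obtain ⟨y, hy⟩ := hsub ⟨x, rfl⟩
          change s (ψ x) = ψ x
          rw [← hy, IsScalarTower.algebraMap_apply k' A F, s.commutes]
        refine minus_trivial hp k (finrank k F) F rfl hpF (s.restrictScalars k)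
          (by rw [h4]; exact hq) hgs c hc1 ?_
        rw [h4, clAct_restrict]
        exact hc2
      have h1 := prime_layers hp hp2 hq hpq hAF hbase (NonSplit.tower (A := A) hns).2 φ m E hE
      have hgA : CycGap p k k' A := by
        intro F' _ _ _ ψ hψ hcyc
        let ι : A →ₐ[k] F := IsScalarTower.toAlgHom k A F
        refine hgap F' (ι.comp ψ) (fun hsub => hψ ?_) hcyc
        rintro _ ⟨x, rfl⟩
        obtain ⟨y, hy⟩ := hsub ⟨x, rfl⟩
        refine ⟨y, (algebraMap A F).injective ?_⟩
        rw [← IsScalarTower.algebraMap_apply k' A F, hy]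
        rfl
      have h2 := ih (finrank k' A) hlt k' A rfl hpA hgA (NonSplit.tower (A := A) hns).1
        (φ.comp (algebraMap A F)) m E hE
      rw [h1, h2]
      have h3 : (φ.comp (algebraMap A F)).comp (algebraMap k' A) = φ.comp (algebraMap k' F) := by
        rw [IsScalarTower.algebraMap_eq k' A F, RingHom.comp_assoc]
      rw [h3]

/-- `Gap` is invariant under isomorphism -/
theorem Gap.congr {p : ℕ} {k F F1 : Type} [Field k] [NumberField k] [Field F] [NumberField F]
    [Algebra k F] [Field F1] [NumberField F1] [Algebra k F1] (e : F ≃ₐ[k] F1) (h : Gap p k F) :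
    Gap p k F1 := by
  obtain ⟨A, hl, hlt⟩ := h
  let f : A ≃ₐ[k] (A.map e.toAlgHom) := A.equivMap e.toAlgHom
  have hd : finrank (A.map e.toAlgHom) F1 = finrank A F := by
    refine (Algebra.finrank_eq_of_equiv_equiv f.toRingEquiv e.toRingEquiv ?_).symm
    ext x
    rfl
  refine ⟨A.map e.toAlgHom, by rw [hd]; exact hl, ?_⟩
  rw [← card_cl_eq e.toRingEquiv, ← card_cl_eq f.toRingEquiv, ← e.toLinearEquiv.finrank_eq]
  exact hlt

theorem cycGap_of_intermediate {p : ℕ} {k k' F : Type} [Field k] [NumberField k] [Field F]
    [NumberField F] [Field k'] [Algebra k F] [Algebra k' F]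
    (h : ∀ F' : IntermediateField k F, IsCyclic Gal(F'/k) →
      ¬ (F' : Set F) ⊆ Set.range (algebraMap k' F) → Gap p k F') :
    CycGap p k k' F := by
  intro F' _ _ _ ψ hψ hc
  let e : F' ≃ₐ[k] ψ.fieldRange := AlgEquiv.ofInjectiveField ψ
  refine Gap.congr e.symm (h ψ.fieldRange ?_ ?_)
  · exact isCyclic_of_surjective (AlgEquiv.autCongr e) (AlgEquiv.autCongr e).surjective
  · intro h1
    apply hψ
    rintro _ ⟨x, rfl⟩
    exact h1 ⟨x, rfl⟩

end Pool.Agent.Work.MuY
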