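import Pool.Agent.Work.MP_a4986b_nt.IAmb

set_option autoImplicit false
set_option maxHeartbeats 400000

/-! # The minus part in a cyclic step of degree `p`, abstract form -/

namespace Pool.Agent.Work.MuY

open Pool.Agent.Work.MuI

section th

variable {Λ : Type*} [CommGroup Λ]

/-- `x ↦ x ^ q / ∏ s ^ i x` -/
def th (s : Λ ≃* Λ) (q : ℕ) : Λ →* Λ where
  toFun x := x ^ q / ambNu s q x
  map_one' := by simp
  map_mul' a b := by rw [mul_pow, map_mul, mul_div_mul_comm]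

theorem th_apply (s : Λ ≃* Λ) (q : ℕ) (x : Λ) : th s q x = x ^ q / ambNu s q x := rfl

theorem ambNu_of_fixed (s : Λ ≃* Λ) (q : ℕ) {x : Λ} (hx : s x = x) : ambNu s q x = x ^ q := by
  have h1 : ∀ i : ℕ, (s ^ i) x = x := by
    intro i
    induction i with
    | zero => rfl
    | succ i ih =>
      rw [pow_succ]
      change (s ^ i) (s x) = x
      rw [hx, ih]
  rw [ambNu_apply, Finset.prod_congr rfl fun i _ => h1 i, Finset.prod_const, Finset.card_range]

theorem th_of_fixed (s : Λ ≃* Λ) (q : ℕ) {x : Λ} (hx : s x = x) : th s q x = 1 := by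
  rw [th_apply, ambNu_of_fixed s q hx, div_self']

theorem th_of_nu (s : Λ ≃* Λ) (q : ℕ) {x : Λ} (hx : ambNu s q x = 1) : th s q x = x ^ q := by
  rw [th_apply, hx, div_one]

theorem ambNu_th (s : Λ ≃* Λ) (q : ℕ) (hs : s ^ q = 1) (x : Λ) : ambNu s q (th s q x) = 1 := by
  rw [th_apply, map_div, map_pow, ambNu_of_fixed s q (s_ambNu s q hs x), div_self']

theorem map_iter {D : Type*} [CommGroup D] (f : Λ →* D) (s : Λ ≃* Λ) (ψ : D ≃* D)
    (h : ∀ x, f (s x) = ψ (f x)) (i : ℕ) (x : Λ) : f ((s ^ i) x) = (ψ ^ i) (f x) := by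
  induction i with
  | zero => rfl
  | succ i ih =>
    rw [pow_succ', pow_succ']
    change f (s ((s ^ i) x)) = ψ ((ψ ^ i) (f x))
    rw [h, ih]

theorem map_ambNu {D : Type*} [CommGroup D] (f : Λ →* D) (s : Λ ≃* Λ) (ψ : D ≃* D)
    (h : ∀ x, f (s x) = ψ (f x)) (q : ℕ) (x : Λ) : f (ambNu s q x) = ambNu ψ q (f x) := by
  rw [ambNu_apply, ambNu_apply, map_prod]
  exact Finset.prod_congr rfl fun i _ => map_iter f s ψ h i x

theorem map_th {D : Type*} [CommGroup D] (f : Λ →* D) (s : Λ ≃* Λ) (ψ : D ≃* D)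
    (h : ∀ x, f (s x) = ψ (f x)) (q : ℕ) (x : Λ) : f (th s q x) = th ψ q (f x) := by
  rw [th_apply, th_apply, map_div, map_pow, map_ambNu f s ψ h]

end th

section units

variable {p q : ℕ} {Λ D : Type*} [CommGroup Λ] [CommGroup D]

/-- coprime powers -/
theorem mem_of_pow_mem {G : Type*} [CommGroup G] {H : Subgroup G} {x : G} {m n : ℕ} (h : Nat.Coprime m n)
    (h1 : x ^ m ∈ H) (h2 : x ^ n ∈ H) : x ∈ H := by
  have h3 := Nat.isCoprime_iff_coprime.2 h
  obtain ⟨a, b, hab⟩ := h3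
  have h4 : x = (x ^ m) ^ a * (x ^ n) ^ b := by
    rw [← zpow_natCast, ← zpow_natCast, ← zpow_mul, ← zpow_mul, ← zpow_add, mul_comm (m : ℤ), mul_comm (n : ℤ),
      hab, zpow_one]
  rw [h4]
  exact H.mul_mem (H.zpow_mem h1 a) (H.zpow_mem h2 b)

/-- the unit part -/
theorem units_part (hp : p.Prime) (hq : q.Prime) (hpq : p ≠ q) (π : Λ →* D)
    (g s : Λ ≃* Λ) (φ ψ : D ≃* D)
    (hπg : ∀ x, π (g x) = φ (π x)) (hπs : ∀ x, π (s x) = ψ (π x))
    (hg : g ^ p = 1) (hs : s ^ q = 1) (hψ : ψ ^ q = 1)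
    (hgs : ∀ x, g (s x) = s (g x))
    (h90 : ∀ x : Λ, ambNu g p x = 1 → ∃ y, x = g y / y)
    (B : Subgroup D) (hBφ : ∀ x ∈ B, φ x = x) (hB : ∀ x, φ x = x → th ψ q x ∈ B)
    (hmin : ∀ b ∈ B, ambNu ψ q b = 1 → (∃ y, g y = y ∧ b ^ p = π y) → ∃ y, g y = y ∧ b = π y)
    (EN DV Fx NV : Subgroup Λ)
    (hEN : ∀ x, x ∈ EN ↔ (π x = 1 ∧ ambNu s q x = 1) ∧ ambNu g p x = 1)
    (hDV : ∀ x, x ∈ DV ↔ ∃ v, (π v = 1 ∧ ambNu s q v = 1) ∧ x = g v / v)
    (hFx : ∀ x, x ∈ Fx ↔ (π x = 1 ∧ ambNu s q x = 1) ∧ g x = x)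
    (hNV : ∀ x, x ∈ NV ↔ ∃ v, (π v = 1 ∧ ambNu s q v = 1) ∧ x = ambNu g p v)
    (hH : NV.relIndex Fx ≤ DV.relIndex EN) (hne : NV.relIndex Fx ≠ 0) : Fx ≤ NV := by
  have hVg : ∀ x, (π x = 1 ∧ ambNu s q x = 1) → (π (g x) = 1 ∧ ambNu s q (g x) = 1) := by
    rintro x ⟨h1, h2⟩
    refine ⟨by rw [hπg, h1, map_one], ?_⟩
    have h3 := map_ambNu (g : Λ →* Λ) s s hgs q x
    rw [h2, map_one] at h3
    exact h3.symm
  have hVi : ∀ (i : ℕ) (x : Λ), (π x = 1 ∧ ambNu s q x = 1) →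
      (π ((g ^ i) x) = 1 ∧ ambNu s q ((g ^ i) x) = 1) := by
    intro i
    induction i with
    | zero => intro x hx; exact hx
    | succ i ih =>
      intro x hx
      rw [pow_succ]
      exact ih (g x) (hVg x hx)
  have hle : EN ≤ DV := by
    intro u hu
    obtain ⟨⟨hu1, hu2⟩, hu3⟩ := (hEN u).1 hu
    -- the `p`-th power
    have hp1 : u ^ p ∈ DV := by
      have h1 : ∀ i : ℕ, (g ^ i) u / u ∈ DV := by
        intro i
        rw [hDV]
        refine ⟨∏ j ∈ Finset.range i, (g ^ j) u, ⟨?_, ?_⟩, ?_⟩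
        · rw [map_prod]
          exact Finset.prod_eq_one fun j _ => (hVi j u ⟨hu1, hu2⟩).1
        · rw [map_prod]
          exact Finset.prod_eq_one fun j _ => (hVi j u ⟨hu1, hu2⟩).2
        · induction i with
          | zero => simp
          | succ i ih =>
            have h2 : (g ^ (i + 1)) u = g ((g ^ i) u) := by rw [pow_succ']; rfl
            rw [Finset.prod_range_succ, map_mul, mul_div_mul_comm, ← ih, h2]
            rw [div_mul_div_comm, mul_comm ((g ^ i) u), mul_div_mul_right_eq_div]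
      have h2 : u ^ p = (∏ i ∈ Finset.range p, (g ^ i) u / u)⁻¹ := by
        rw [Finset.prod_div_distrib, ← ambNu_apply, hu3, Finset.prod_const, Finset.card_range, one_div, inv_inv]
      rw [h2]
      exact DV.inv_mem (DV.prod_mem fun i _ => h1 i)
    -- the `q ^ 2`-th power
    have hq1 : u ^ (q * q) ∈ DV := by
      obtain ⟨z, hz⟩ := h90 u hu3
      have hz1 : φ (π z) = π z := by
        rw [← hπg]
        have : g z = u * z := by rw [hz, div_mul_cancel]
        rw [this, map_mul, hu1, one_mul]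
      have hb : π (th s q z) ∈ B := by rw [map_th π s ψ hπs]; exact hB _ hz1
      have hbN : ambNu ψ q (π (th s q z)) = 1 := by
        rw [map_th π s ψ hπs, ambNu_th ψ q hψ]
      obtain ⟨y, hy1, hy2⟩ := hmin _ hb hbN ⟨ambNu g p (th s q z), s_ambNu g p hg _, by
        rw [map_ambNu π g φ hπg, ambNu_of_fixed φ p (hBφ _ hb)]⟩
      have hthg : ∀ x, g (th s q x) = th s q (g x) := fun x => map_th (g : Λ →* Λ) s s hgs q x
      have hv0 : g (th s q z / y) / (th s q z / y) = u ^ q := by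
        rw [map_div, hy1, hthg, div_div_div_cancel_right, ← map_div, ← hz, th_of_nu s q hu2]
      rw [hDV]
      refine ⟨th s q (th s q z / y), ⟨?_, ambNu_th s q hs _⟩, ?_⟩
      · rw [map_th π s ψ hπs, map_div, ← hy2, div_self', map_one]
      · rw [hthg, ← map_div, hv0, map_pow, th_of_nu s q hu2, pow_mul]
    exact mem_of_pow_mem (Nat.Coprime.mul_right ((Nat.coprime_primes hp hq).2 hpq)
      ((Nat.coprime_primes hp hq).2 hpq)) hp1 hq1
  have h1 : DV.relIndex EN = 1 := Subgroup.relIndex_eq_one.2 hle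
  rw [h1] at hH
  exact Subgroup.relIndex_eq_one.1 (by omega)

end units

section step

variable {p q : ℕ} {Λ D : Type*} [CommGroup Λ] [CommGroup D]

/-- a nontrivial finite group of exponent `p` with an endomorphism of order `p` has a nontrivial fixed
element -/
theorem exists_fixed {A : Type*} [CommGroup A] [Finite A] (hp : p.Prime) (hA : ∀ x : A, x ^ p = 1)
    (a : A →* A) (ha : ∀ x, (⇑a)^[p] x = x) (hne : ∃ x : A, x ≠ 1) : ∃ x : A, x ≠ 1 ∧ a x = x := by
  classical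
  have := Fact.mk hp
  have := Fintype.ofFinite A
  obtain ⟨x, hx⟩ := hne
  have hord : orderOf x = p := orderOf_eq_prime (hA x) hx
  have hdvd : p ∣ Fintype.card A := by rw [← hord]; exact orderOf_dvd_card
  let f : Function.End A := fun y => a y
  have hf : ∀ (n : ℕ) (y : A), (f ^ n) y = (⇑a)^[n] y := by
    intro n
    induction n with
    | zero => intro y; rfl
    | succ n ih =>
      intro y
      rw [pow_succ]
      exact ih (a y)
  have hf1 : f ^ p ^ 1 = 1 := by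
    funext y
    rw [pow_one, hf, ha]
    rfl
  have h1 := Equiv.Perm.card_fixedPoints_modEq hf1
  by_contra hcon
  push Not at hcon
  have h2 : Fintype.card (Function.fixedPoints f) = 1 := by
    rw [Fintype.card_eq_one_iff]
    refine ⟨⟨1, map_one a⟩, ?_⟩
    rintro ⟨y, hy⟩
    apply Subtype.ext
    by_contra hy1
    exact hcon y hy1 hy
  rw [h2] at h1
  have h3 : Fintype.card A ≡ 0 [MOD p] := (Nat.modEq_zero_iff_dvd).2 hdvd
  have h4 : 1 ≡ 0 [MOD p] := h1.symm.trans h3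
  have := (Nat.modEq_zero_iff_dvd).1 h4
  exact hp.one_lt.ne' (Nat.dvd_one.1 this)

theorem iterate_eq_pow {A : Type*} [CommGroup A] (a : A ≃* A) (n : ℕ) (x : A) : (⇑a)^[n] x = (a ^ n) x := by
  induction n generalizing x with
  | zero => rfl
  | succ n ih =>
    rw [Function.iterate_succ_apply, ih, pow_succ]
    rfl

/-- the step, abstract form -/
theorem minus_step (hp : p.Prime) (hq : q.Prime) (hpq : p ≠ q) (π : Λ →* D)
    (g s : Λ ≃* Λ) (φ ψ : D ≃* D)
    (hπg : ∀ x, π (g x) = φ (π x)) (hπs : ∀ x, π (s x) = ψ (π x))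
    (hg : g ^ p = 1) (hφ : φ ^ p = 1) (hs : s ^ q = 1) (hψ : ψ ^ q = 1)
    (hgs : ∀ x, g (s x) = s (g x)) (hφψ : ∀ x, φ (ψ x) = ψ (φ x))
    (h90 : ∀ x : Λ, ambNu g p x = 1 → ∃ y, x = g y / y)
    (B : Subgroup D) (hBφ : ∀ x ∈ B, φ x = x) (hB : ∀ x, φ x = x → th ψ q x ∈ B)
    (hmin : ∀ b ∈ B, ambNu ψ q b = 1 → (∃ y, g y = y ∧ b ^ p = π y) → ∃ y, g y = y ∧ b = π y)
    (hU : ∀ x, π x = 1 → ambNu s q x = 1 → g x = x → ∃ v, π v = 1 ∧ ambNu s q v = 1 ∧ x = ambNu g p v)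
    (X : Type*) [CommGroup X] [Finite X] (c : D →* X) (hc : Function.Surjective c)
    (hck : c.ker = π.range) (a b : X ≃* X) (ha : ∀ x, c (φ x) = a (c x)) (hb : ∀ x, c (ψ x) = b (c x))
    (x : X) (hx1 : x ^ p = 1) (hx2 : ambNu b q x = 1) : x = 1 := by
  by_contra hx
  have hab : ∀ x, a (b x) = b (a x) := by
    intro x
    obtain ⟨d, rfl⟩ := hc x
    rw [← hb, ← ha, hφψ, hb, ha]
  have hap : ∀ x, (a ^ p) x = x := by
    intro x
    obtain ⟨d, rfl⟩ := hc x
    rw [← map_iter c φ a ha, hφ]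
    rfl
  let A : Subgroup X :=
    { carrier := {x | x ^ p = 1 ∧ ambNu b q x = 1}
      mul_mem' := by
        rintro x y ⟨h1, h2⟩ ⟨h3, h4⟩
        exact ⟨by rw [mul_pow, h1, h3, one_mul], by rw [map_mul, h2, h4, one_mul]⟩
      one_mem' := ⟨one_pow _, map_one _⟩
      inv_mem' := by
        rintro x ⟨h1, h2⟩
        exact ⟨by rw [inv_pow, h1, inv_one], by rw [map_inv, h2, inv_one]⟩ }
  have hAmem : ∀ x, x ∈ A ↔ x ^ p = 1 ∧ ambNu b q x = 1 := fun x => Iff.rfl
  have hAa : ∀ x ∈ A, a x ∈ A := by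
    intro x hx
    rw [hAmem] at hx ⊢
    refine ⟨by rw [← map_pow, hx.1, map_one], ?_⟩
    have h3 := map_ambNu (a : X →* X) b b hab q x
    rw [hx.2, map_one] at h3
    exact h3.symm
  let a' : A →* A := ((a : X →* X).comp A.subtype).codRestrict A (fun x => hAa x x.2)
  have ha' : ∀ (n : ℕ) (x : A), (((⇑a')^[n] x : A) : X) = (a ^ n) (x : X) := by
    intro n
    induction n with
    | zero => intro x; rfl
    | succ n ih =>
      intro x
      rw [Function.iterate_succ_apply, ih, pow_succ]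
      rfl
  obtain ⟨⟨x, hxA⟩, hx1, hxa⟩ := exists_fixed (A := A) hp (fun x => Subtype.ext x.2.1) a'
    (fun x => Subtype.ext (by rw [ha', hap])) ⟨⟨x, hx1, hx2⟩, fun h => hx (congrArg Subtype.val h)⟩
  have hxa' : a x = x := congrArg Subtype.val hxa
  have hx1' : x ≠ 1 := fun h => hx1 (Subtype.ext h)
  obtain ⟨hxp, hxN⟩ := (hAmem x).1 hxA
  apply hx1'
  obtain ⟨d, rfl⟩ := hc x
  have h1 : φ d / d ∈ π.range := by
    rw [← hck, MonoidHom.mem_ker, map_div, ha, hxa', div_self']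
  obtain ⟨z, hz⟩ := h1
  set w := th s q z with hw
  have hthφ : ∀ x, φ (th ψ q x) = th ψ q (φ x) := fun x => map_th (φ : D →* D) ψ ψ hφψ q x
  have hπw : π w = φ (th ψ q d) / th ψ q d := by
    rw [hw, map_th π s ψ hπs, hz, map_div, hthφ]
  have hδ : ∀ x : D, ambNu φ p (φ x / x) = 1 := fun x => ambNu_delta φ p hφ x
  set u := ambNu g p w with hu
  have hu1 : π u = 1 := by rw [hu, map_ambNu π g φ hπg, hπw, hδ]
  have hcomm : ∀ x, ambNu g p (s x) = s (ambNu g p x) := fun x =>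
    (map_ambNu (s : Λ →* Λ) g g (fun x => (hgs x).symm) p x).symm
  have hu2 : ambNu s q u = 1 := by
    rw [hu, ← map_ambNu (ambNu g p) s s hcomm, hw, ambNu_th s q hs, map_one]
  have hu3 : g u = u := s_ambNu g p hg w
  obtain ⟨v, hv1, hv2, hv3⟩ := hU u hu1 hu2 hu3
  obtain ⟨y, hy⟩ := h90 (w / v) (by rw [map_div, ← hv3, ← hu, div_self'])
  have he : φ (th ψ q d / π y) = th ψ q d / π y := by
    have h3 : φ (th ψ q d) = π w * th ψ q d := by rw [hπw, div_mul_cancel]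
    have h4 : g y = w / v * y := by rw [hy, div_mul_cancel]
    rw [map_div, ← hπg, h4, h3, map_mul, map_div, hv1, div_one]
    rw [mul_div_mul_left_eq_div]
  have hB' := hB _ he
  set b' := th ψ q (th ψ q d / π y) with hb'
  have hbN : ambNu ψ q b' = 1 := ambNu_th ψ q hψ _
  have hcπ : ∀ z, c (π z) = 1 := fun z => by
    have : π z ∈ c.ker := by rw [hck]; exact ⟨z, rfl⟩
    exact this
  have hcb : c b' = c d ^ (q * q) := by
    rw [hb', map_div, ← map_th π s ψ hπs, map_div, hcπ, div_one, map_th c ψ b hb, map_th c ψ b hb,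
      th_of_nu b q hxN, map_pow, th_of_nu b q hxN, pow_mul]
  have hbp : b' ^ p ∈ π.range := by
    rw [← hck, MonoidHom.mem_ker, map_pow, hcb, ← pow_mul, mul_comm, pow_mul, hxp, one_pow]
  obtain ⟨z', hz'⟩ := hbp
  have hbpB : b' ^ p ∈ B := B.pow_mem hB' p
  have h5 := hmin _ hbpB (by rw [map_pow, hbN, one_pow]) ⟨ambNu g p z', s_ambNu g p hg _, by
    rw [map_ambNu π g φ hπg, hz', ambNu_of_fixed φ p (hBφ _ hbpB)]⟩
  obtain ⟨y2, -, hy2⟩ := hmin _ hB' hbN h5
  have h6 : c d ^ (q * q) = 1 := by rw [← hcb, hy2, hcπ]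
  have h7 := mem_of_pow_mem (H := (⊥ : Subgroup X)) (Nat.Coprime.mul_right ((Nat.coprime_primes hp hq).2 hpq)
      ((Nat.coprime_primes hp hq).2 hpq)) (Subgroup.mem_bot.2 hxp) (Subgroup.mem_bot.2 h6)
  exact Subgroup.mem_bot.1 h7

end step

end Pool.Agent.Work.MuY
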