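import Pool.Agent.Work.MP_a4986b_nt.YAbs
import Pool.Agent.Work.MP_a4986b_nt.INorm

set_option autoImplicit false
set_option maxHeartbeats 400000

/-! # The bottom of the tower: a small class group has no minus part -/

namespace Pool.Agent.Work.MuY

open Pool.Agent.Work.MuI NumberField

/-- the abstract bottom step -/
theorem base_abs {Λ : Type*} [CommGroup Λ] [Finite Λ] {p q : ℕ} (hp : p.Prime) (hq : q.Prime)
    (hpq : p ≠ q) (s : Λ ≃* Λ) (hs : s ^ q = 1) (hh : Nat.card Λ < p ^ orderOf (p : ZMod q))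
    (c : Λ) (h1 : c ^ p = 1) (h2 : ambNu s q c = 1) : c = 1 := by
  classical
  have hqf : Fact q.Prime := ⟨hq⟩
  have hpf : Fact p.Prime := ⟨hp⟩
  let C : Subgroup Λ := (powMonoidHom p : Λ →* Λ).ker ⊓ (ambNu s q).ker
  have hC : ∀ x, x ∈ C ↔ x ^ p = 1 ∧ ambNu s q x = 1 := by
    intro x
    rw [Subgroup.mem_inf, MonoidHom.mem_ker, MonoidHom.mem_ker, powMonoidHom_apply]
  have hsC : ∀ x ∈ C, s x ∈ C := by
    intro x hx
    rw [hC] at hx ⊢
    rw [← map_pow, hx.1, map_one, ambNu_s s q hs, hx.2]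
    exact ⟨rfl, rfl⟩
  have := Fintype.ofFinite C
  let f : Function.End C := fun y => ⟨s y, hsC y y.2⟩
  have hf : ∀ (n : ℕ) (y : C), (((f ^ n) y : C) : Λ) = (s ^ n) (y : Λ) := by
    intro n
    induction n with
    | zero => intro y; rfl
    | succ n ih =>
      intro y
      rw [pow_succ, pow_succ]
      exact ih (f y)
  have hf1 : f ^ q ^ 1 = 1 := by
    funext y
    apply Subtype.ext
    rw [pow_one, hf, hs]
    rfl
  have hmod := Equiv.Perm.card_fixedPoints_modEq hf1
  have hfix : Fintype.card (Function.fixedPoints f) = 1 := by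
    rw [Fintype.card_eq_one_iff]
    refine ⟨⟨1, ?_⟩, ?_⟩
    · apply Subtype.ext
      change s ((1 : C) : Λ) = ((1 : C) : Λ)
      rw [OneMemClass.coe_one, map_one]
    · rintro ⟨y, hy⟩
      apply Subtype.ext
      apply Subtype.ext
      have hy1 : s (y : Λ) = (y : Λ) := congrArg Subtype.val hy
      obtain ⟨h3, h4⟩ := (hC (y : Λ)).1 y.2
      rw [ambNu_of_fixed s q hy1] at h4
      have h5 : (y : Λ) ∈ (⊥ : Subgroup Λ) :=
        mem_of_pow_mem ((Nat.coprime_primes hp hq).2 hpq) (by rw [h3]; exact Subgroup.one_mem _)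
          (by rw [h4]; exact Subgroup.one_mem _)
      exact Subgroup.mem_bot.1 h5
  rw [hfix] at hmod
  have hpg : IsPGroup p C := by
    intro x
    refine ⟨1, ?_⟩
    apply Subtype.ext
    rw [pow_one, SubmonoidClass.coe_pow, ((hC (x : Λ)).1 x.2).1]
    rfl
  obtain ⟨m, hm⟩ := IsPGroup.iff_card.1 hpg
  rw [← Nat.card_eq_fintype_card, hm] at hmod
  have hord : orderOf (p : ZMod q) ∣ m := by
    rw [orderOf_dvd_iff_pow_eq_one]
    have h3 := (ZMod.natCast_eq_natCast_iff _ _ _).2 hmod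
    rw [Nat.cast_pow, Nat.cast_one] at h3
    exact h3
  have hm0 : m = 0 := by
    by_contra hne
    have h3 := Nat.le_of_dvd (Nat.pos_of_ne_zero hne) hord
    have h4 : Nat.card C ≤ Nat.card Λ := Subgroup.card_le_card_group C
    rw [hm] at h4
    have h5 := Nat.pow_le_pow_right hp.pos h3
    omega
  rw [hm0, pow_zero] at hm
  have hbot := (Subgroup.card_eq_one (H := C)).1 hm
  have hc : c ∈ C := (hC c).2 ⟨h1, h2⟩
  rw [hbot] at hc
  exact Subgroup.mem_bot.1 hc

/-- the bottom of the tower -/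
theorem base_case {k F : Type*} [Field k] [NumberField k] [Field F] [NumberField F] [Algebra k F]
    {p q : ℕ} (hp : p.Prime) (hq : q.Prime) (hpq : p ≠ q) (s : Gal(F/k)) (hs : s ^ q = 1)
    (hh : Nat.card (ClassGroup (𝓞 F)) < p ^ orderOf (p : ZMod q)) (c : ClassGroup (𝓞 F))
    (h1 : c ^ p = 1) (h2 : ambNu (clAct s) q c = 1) : c = 1 := by
  refine base_abs hp hq hpq (clAct s) ?_ hh c h1 h2
  rw [← clAct_pow, hs, clAct_one]

end Pool.Agent.Work.MuY
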