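import Pool.Agent.Work.MP_a4986b_nt.YLay

set_option autoImplicit false
set_option maxHeartbeats 400000
set_option linter.unusedSectionVars false

/-! # Fields inside `ℂ` -/

namespace Pool.Agent.Work.MuY

open NumberField Module
open scoped Pointwise nonZeroDivisors
open Pool.Agent.Work.MuI Pool.Agent.Work.MuI.Step

theorem card_cl_eq {A B : Type*} [Field A] [Field B] (e : A ≃+* B) :
    Nat.card (ClassGroup (𝓞 A)) = Nat.card (ClassGroup (𝓞 B)) := by
  have f : 𝓞 A ≃+* 𝓞 B := RingOfIntegers.mapRingEquiv e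
  exact Nat.card_congr (ClassGroup.mulEquiv f).toEquiv

/-- the same field over two base fields -/
def sameField {k : IntermediateField ℚ ℂ} (S : IntermediateField k ℂ) (T : IntermediateField ℚ ℂ)
    (h : ∀ x : ℂ, x ∈ S ↔ x ∈ T) : S ≃+* T where
  toFun x := ⟨x.1, (h _).1 x.2⟩
  invFun x := ⟨x.1, (h _).2 x.2⟩
  left_inv _ := rfl
  right_inv _ := rfl
  map_mul' _ _ := rfl
  map_add' _ _ := rfl

theorem mem_sup_layer (k : IntermediateField ℚ ℂ) (F : IntermediateField k ℂ)
    (E : IntermediateField ℚ ℂ) (x : ℂ) :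
    x ∈ F ⊔ IntermediateField.extendScalars (le_sup_left : k ≤ k ⊔ E) ↔
      x ∈ F.restrictScalars ℚ ⊔ E := by
  have hk : k ≤ F.restrictScalars ℚ := by
    intro y hy
    exact F.algebraMap_mem ⟨y, hy⟩
  have hle : k ≤ F.restrictScalars ℚ ⊔ E := hk.trans le_sup_left
  constructor
  · have h1 : F ⊔ IntermediateField.extendScalars (le_sup_left : k ≤ k ⊔ E) ≤
        IntermediateField.extendScalars hle := by
      refine sup_le ?_ ?_
      · intro y hy
        exact (le_sup_left : F.restrictScalars ℚ ≤ _) hy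
      · intro y hy
        exact (sup_le hle le_sup_right : k ⊔ E ≤ F.restrictScalars ℚ ⊔ E) hy
    exact fun h => h1 h
  · have h1 : F.restrictScalars ℚ ⊔ E ≤
        (F ⊔ IntermediateField.extendScalars (le_sup_left : k ≤ k ⊔ E)).restrictScalars ℚ := by
      refine sup_le ?_ ?_
      · intro y hy
        exact (le_sup_left : F ≤ F ⊔ _) hy
      · intro y hy
        have h2 : y ∈ IntermediateField.extendScalars (le_sup_left : k ≤ k ⊔ E) :=
          (le_sup_right : E ≤ k ⊔ E) hy
        exact (le_sup_right : IntermediateField.extendScalars (le_sup_left : k ≤ k ⊔ E) ≤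
          F ⊔ IntermediateField.extendScalars (le_sup_left : k ≤ k ⊔ E)) h2
    exact fun h => h1 h

theorem finrank_layer (k E : IntermediateField ℚ ℂ) [NumberField k] {p m j : ℕ} (hp : p.Prime)
    (hE : E ≤ IntermediateField.adjoin ℚ {z : ℂ | z ^ (p ^ j) = 1}) (hEd : finrank ℚ E = p ^ m)
    (ζ : ℂ) (hζ : IsPrimitiveRoot ζ (p ^ j)) :
    (∃ n, finrank k (IntermediateField.extendScalars (le_sup_left : k ≤ k ⊔ E)) = p ^ n) ∧
      IntermediateField.extendScalars (le_sup_left : k ≤ k ⊔ E) ≤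
        IntermediateField.adjoin k {ζ} := by
  have hn0 : p ^ j ≠ 0 := pow_ne_zero _ hp.ne_zero
  have hne : NeZero (p ^ j) := ⟨hn0⟩
  have hEC : E ≤ IntermediateField.adjoin ℚ {ζ} := by
    refine hE.trans ?_
    rw [IntermediateField.adjoin_le_iff]
    intro z hz
    obtain ⟨i, -, rfl⟩ := hζ.eq_pow_of_pow_eq_one hz
    exact pow_mem (IntermediateField.mem_adjoin_simple_self ℚ ζ) i
  have hζint : IsIntegral ℚ ζ := (hζ.isIntegral (Nat.pos_of_ne_zero hn0)).tower_top
  have hkfin : FiniteDimensional ℚ k := by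
    have h1 : @FiniteDimensional ℚ k _ _ DivisionRing.toRatAlgebra.toModule := inferInstance
    have h2 : (DivisionRing.toRatAlgebra : Algebra ℚ k) = k.algebra' := Subsingleton.elim _ _
    rwa [h2] at h1
  have hEfin : FiniteDimensional ℚ E := by
    apply FiniteDimensional.of_finrank_pos
    rw [hEd]; exact pow_pos hp.pos _
  have hgE := Mu22.cy_abel E (p ^ j) ζ hζ hζint hEC
  obtain ⟨-, hdvd, hmul, hfr⟩ := Mu22.cy_galois k E
  have hΩfin : FiniteDimensional ℚ ↥(k ⊔ E) := IntermediateField.finiteDimensional_sup k E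
  constructor
  · rw [hEd] at hdvd
    obtain ⟨n, -, hn⟩ := (Nat.dvd_prime_pow hp).1 hdvd
    refine ⟨n, ?_⟩
    rw [hfr, hn] at hmul
    have h1 := finrank_mul_finrank ℚ k
      (IntermediateField.extendScalars (le_sup_left : k ≤ k ⊔ E))
    have h2 : finrank ℚ (IntermediateField.extendScalars (le_sup_left : k ≤ k ⊔ E)) =
        finrank ℚ ↥(k ⊔ E) := by
      let e : IntermediateField.extendScalars (le_sup_left : k ≤ k ⊔ E) ≃+ ↥(k ⊔ E) :=
        { toFun := fun x => ⟨x.1, x.2⟩
          invFun := fun x => ⟨x.1, x.2⟩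
          left_inv := fun _ => rfl
          right_inv := fun _ => rfl
          map_add' := fun _ _ => rfl }
      exact LinearEquiv.finrank_eq
        { e with map_smul' := fun c x => map_rat_smul e.toAddMonoidHom c x }
    rw [h2, ← hmul] at h1
    exact Nat.eq_of_mul_eq_mul_left finrank_pos h1
  · intro y hy
    have h1 : k ⊔ E ≤ (IntermediateField.adjoin k {ζ}).restrictScalars ℚ := by
      refine sup_le ?_ (hEC.trans ?_)
      · intro z hz
        exact (IntermediateField.adjoin k {ζ}).algebraMap_mem ⟨z, hz⟩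
      · rw [IntermediateField.adjoin_le_iff]
        rintro z rfl
        exact IntermediateField.mem_adjoin_simple_self k z
    exact h1 hy

/-- the class numbers of the layers of `F` and `k` have the same `p`-part -/
theorem layers_padic {p q : ℕ} (hp : p.Prime) (hp2 : p ≠ 2) (hq : q.Prime) (hpq : p ≠ q)
    (k : IntermediateField ℚ ℂ) [NumberField k] (F : IntermediateField k ℂ) [NumberField F]
    [IsGalois k F] (hF : finrank k F = q)
    (hbase : ∀ s : Gal(F/k), orderOf s = q → ∀ c : ClassGroup (𝓞 F), c ^ p = 1 →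
      ambNu (clAct s) q c = 1 → c = 1)
    (hns : ∀ P Q : Ideal (𝓞 F), P.IsPrime → Q.IsPrime → (p : 𝓞 F) ∈ P → (p : 𝓞 F) ∈ Q →
      P.under (𝓞 k) = Q.under (𝓞 k) → P = Q) (m : ℕ) (E : IntermediateField ℚ ℂ)
    (hE : E ≤ IntermediateField.adjoin ℚ {z : ℂ | z ^ (p ^ (m + 1)) = 1})
    (hEd : finrank ℚ E = p ^ m) :
    padicValNat p (Nat.card (ClassGroup (𝓞 ↥(F.restrictScalars ℚ ⊔ E)))) =
      padicValNat p (Nat.card (ClassGroup (𝓞 ↥(k ⊔ E)))) := by
  have hn0 : p ^ (m + 1) ≠ 0 := pow_ne_zero _ hp.ne_zero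
  obtain ⟨ζ, hζ⟩ : ∃ ζ : ℂ, IsPrimitiveRoot ζ (p ^ (m + 1)) :=
    ⟨_, Complex.isPrimitiveRoot_exp _ hn0⟩
  obtain ⟨⟨n, hn⟩, hle⟩ := finrank_layer k E hp hE hEd ζ hζ
  have h1 := sup_padic hp (hp.odd_of_ne_two hp2) hq hpq F
    (IntermediateField.extendScalars (le_sup_left : k ≤ k ⊔ E)) hF hn ζ hζ hle hbase hns
  rw [card_cl_eq (sameField _ _ (mem_sup_layer k F E)),
    card_cl_eq (sameField _ (k ⊔ E) (fun x => Iff.rfl))] at h1
  exact h1

end Pool.Agent.Work.MuY
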