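import Pool.Agent.Work.MP_a4986b_nt.YAbs
import Pool.Agent.Work.MP_a4986b_nt.INorm

set_option autoImplicit false
set_option maxHeartbeats 400000

/-! # No minus part: the class groups of top and bottom have the same `p`-part -/

namespace Pool.Agent.Work.MuY

open Pool.Agent.Work.MuI NumberField Module

/-- cardinalities of kernel, range and quotient -/
theorem card_ker_coker {A B : Type*} [CommGroup A] [CommGroup B] [Finite A] [Finite B]
    (j : A →* B) : Nat.card A * Nat.card (B ⧸ j.range) = Nat.card B * Nat.card j.ker := by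
  have h1 := Subgroup.card_eq_card_quotient_mul_card_subgroup j.ker
  have h2 := Subgroup.card_eq_card_quotient_mul_card_subgroup j.range
  have h3 : Nat.card (A ⧸ j.ker) = Nat.card j.range :=
    Nat.card_congr (QuotientGroup.quotientKerEquivRange j).toEquiv
  rw [h1, h2, h3]
  ring

/-- abstract form -/
theorem fix_abs {A B : Type*} [CommGroup A] [CommGroup B] [Finite A] [Finite B] {p q : ℕ}
    (hp : p.Prime) (hq : q.Prime) (hpq : p ≠ q) (j : A →* B) (N : B →* A) (s : B ≃* B)
    (hs : s ^ q = 1) (hNj : ∀ a, N (j a) = a ^ q) (hjN : ∀ b, j (N b) = ambNu s q b)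
    (hC : ∀ c : B, c ^ p = 1 → ambNu s q c = 1 → c = 1) :
    padicValNat p (Nat.card B) = padicValNat p (Nat.card A) := by
  have hpf : Fact p.Prime := ⟨hp⟩
  have hcop : Nat.Coprime p q := (Nat.coprime_primes hp hq).2 hpq
  have hCk : ∀ (n : ℕ) (c : B), c ^ p ^ n = 1 → ambNu s q c = 1 → c = 1 := by
    intro n
    induction n with
    | zero => intro c h _; rwa [pow_zero, pow_one] at h
    | succ n ih =>
      intro c h1 h2
      refine hC c (ih (c ^ p) ?_ ?_) h2
      · rw [← pow_mul, ← pow_succ']; exact h1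
      · rw [map_pow, h2, one_pow]
  -- the kernel
  have hker : ¬ p ∣ Nat.card j.ker := by
    intro hdvd
    obtain ⟨x, hx⟩ := exists_prime_orderOf_dvd_card' p hdvd
    have h1 : (x : A) ^ q = 1 := by
      rw [← hNj, x.2, map_one]
    have h2 : x ^ q = 1 := Subtype.ext h1
    have h3 := orderOf_dvd_of_pow_eq_one h2
    rw [hx] at h3
    exact hpq ((Nat.prime_dvd_prime_iff_eq hp hq).1 h3)
  -- the cokernel
  have hcok : ¬ p ∣ Nat.card (B ⧸ j.range) := by
    intro hdvd
    obtain ⟨x, hx⟩ := exists_prime_orderOf_dvd_card' p hdvd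
    obtain ⟨b, rfl⟩ := QuotientGroup.mk_surjective x
    -- split off the prime-to-`p` part
    obtain ⟨a, r, hr, hcard⟩ := Nat.exists_eq_pow_mul_and_not_dvd (Nat.card_pos (α := B)).ne' p
      hp.ne_one
    have hb1 : (b ^ r) ^ p ^ a = 1 := by
      rw [← pow_mul, mul_comm, ← hcard]
      exact pow_card_eq_one'
    have hth : th s q (b ^ r) = 1 := by
      refine hCk a _ ?_ (ambNu_th s q hs _)
      rw [← map_pow, hb1, map_one]
    have hbq : (b ^ r) ^ q = j (N (b ^ r)) := by
      rw [th_apply, div_eq_one] at hth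
      rw [hth, hjN]
    have hx1 : ((b : B ⧸ j.range) ^ r) ^ q = 1 := by
      have h1 : ((b ^ r) ^ q : B) ∈ j.range := by
        rw [hbq]
        exact ⟨_, rfl⟩
      have h2 := (QuotientGroup.eq_one_iff ((b ^ r) ^ q)).2 h1
      exact h2
    rw [← pow_mul] at hx1
    have h3 := orderOf_dvd_of_pow_eq_one hx1
    rw [hx] at h3
    rcases (Nat.Prime.dvd_mul hp).1 h3 with h4 | h4
    · exact hr h4
    · exact hpq ((Nat.prime_dvd_prime_iff_eq hp hq).1 h4)
  have h := card_ker_coker j
  have h1 := congrArg (padicValNat p) h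
  rw [padicValNat.mul Nat.card_pos.ne' Nat.card_pos.ne',
    padicValNat.mul Nat.card_pos.ne' Nat.card_pos.ne', padicValNat.eq_zero_of_not_dvd hker,
    padicValNat.eq_zero_of_not_dvd hcok, add_zero, add_zero] at h1
  exact h1.symm

/-- the norm of a cyclic group of order `q` -/
theorem prod_gal {K L : Type*} [Field K] [NumberField K] [Field L] [NumberField L] [Algebra K L]
    [IsGalois K L] {q : ℕ} (hd : finrank K L = q) (s : Gal(L/K))
    (hs : orderOf s = q) (c : ClassGroup (𝓞 L)) :
    ∏ g : Gal(L/K), clAct g c = ambNu (clAct s) q c := by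
  classical
  have hcard : Nat.card Gal(L/K) = q := by rw [IsGalois.card_aut_eq_finrank, hd]
  have hbij : Function.Bijective (fun i : Fin q => s ^ (i : ℕ)) := by
    rw [Fintype.bijective_iff_injective_and_card]
    refine ⟨?_, ?_⟩
    · intro i j hij
      apply Fin.ext
      refine pow_injOn_Iio_orderOf ?_ ?_ hij
      · rw [hs]; exact i.2
      · rw [hs]; exact j.2
    · rw [Fintype.card_fin, ← Nat.card_eq_fintype_card, hcard]
  rw [← Function.Bijective.prod_comp hbij (fun g => clAct g c), ambNu_apply,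
    Finset.prod_range]
  refine Finset.prod_congr rfl fun i _ => ?_
  rw [clAct_pow]

/-- the class groups of top and bottom have the same `p`-part -/
theorem fix_padic {K L : Type*} [Field K] [NumberField K] [Field L] [NumberField L] [Algebra K L]
    [IsGalois K L] {p q : ℕ} (hp : p.Prime) (hq : q.Prime) (hpq : p ≠ q) (hd : finrank K L = q)
    (s : Gal(L/K)) (hs : orderOf s = q)
    (hC : ∀ c : ClassGroup (𝓞 L), c ^ p = 1 → ambNu (clAct s) q c = 1 → c = 1) :
    padicValNat p (Nat.card (ClassGroup (𝓞 L))) = padicValNat p (Nat.card (ClassGroup (𝓞 K))) := by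
  obtain ⟨N, h1, -, h3⟩ := exists_clNorm K L
  refine fix_abs hp hq hpq (ClassGroup.extendedHom (𝓞 K) (𝓞 L)) N (clAct s) ?_ ?_ ?_ hC
  · rw [← clAct_pow, ← hs, pow_orderOf_eq_one, clAct_one]
  · intro a
    rw [h1, hd]
  · intro b
    rw [h3 inferInstance, prod_gal hd s hs]

end Pool.Agent.Work.MuY
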