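import Pool.Agent.Work.MP_a4986b_nt.YSub
import Pool.Agent.Work.MP_a4986b_nt.YFix

set_option autoImplicit false
set_option maxHeartbeats 400000
set_option linter.unusedSectionVars false

/-! # Composita with cyclotomic layers -/

namespace Pool.Agent.Work.MuY

open NumberField Module
open scoped Pointwise nonZeroDivisors
open Pool.Agent.Work.MuI Pool.Agent.Work.MuI.Step

theorem clAct_restrict {k K L : Type*} [Field k] [NumberField k] [Field K] [NumberField K]
    [Field L] [NumberField L] [Algebra k K] [Algebra K L] [Algebra k L] [IsScalarTower k K L]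
    (s : Gal(L/K)) : clAct (s.restrictScalars k : Gal(L/k)) = clAct s := by
  apply MulEquiv.ext
  intro c
  obtain ⟨I, rfl⟩ := ClassGroup.mk0_surjective c
  rw [clAct_mk0 s I ⟨_, smul_mem_nzd s I⟩ rfl]
  refine clAct_mk0 _ I _ ?_
  rfl

/-- the class numbers of `F E` and `E` have the same `p`-part -/
theorem sup_padic {k : Type} [Field k] [NumberField k] [Algebra k ℂ] {p q n N : ℕ}
    (hp : p.Prime) (hodd : Odd p) (hq : q.Prime) (hpq : p ≠ q) (F E : IntermediateField k ℂ)
    [NumberField F] [IsGalois k F] (hF : finrank k F = q) (hEn : finrank k E = p ^ n) (ζ : ℂ)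
    (hζ : IsPrimitiveRoot ζ (p ^ N)) (hE : E ≤ IntermediateField.adjoin k {ζ})
    (hbase : ∀ s : Gal(F/k), orderOf s = q → ∀ c : ClassGroup (𝓞 F), c ^ p = 1 →
      ambNu (clAct s) q c = 1 → c = 1)
    (hns : ∀ P Q : Ideal (𝓞 F), P.IsPrime → Q.IsPrime → (p : 𝓞 F) ∈ P → (p : 𝓞 F) ∈ Q →
      P.under (𝓞 k) = Q.under (𝓞 k) → P = Q) :
    padicValNat p (Nat.card (ClassGroup (𝓞 ↥(F ⊔ E)))) =
      padicValNat p (Nat.card (ClassGroup (𝓞 E))) := by
  have hn0 : p ^ N ≠ 0 := pow_ne_zero _ hp.ne_zero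
  have hne : NeZero (p ^ N) := ⟨hn0⟩
  have hζint : IsIntegral k ζ := (hζ.isIntegral (Nat.pos_of_ne_zero hn0)).tower_top
  have hcyc : IsCyclotomicExtension {p ^ N} k (IntermediateField.adjoin k {ζ}) := by
    change IsCyclotomicExtension {p ^ N} k (IntermediateField.adjoin k {ζ}).toSubalgebra
    rw [IntermediateField.adjoin_simple_toSubalgebra_of_isAlgebraic hζint.isAlgebraic]
    exact hζ.adjoin_isCyclotomicExtension k
  have hab : IsAbelianGalois k (IntermediateField.adjoin k {ζ}) :=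
    IsCyclotomicExtension.isAbelianGalois {p ^ N} k _
  have habE : IsAbelianGalois k E := IsAbelianGalois.of_algHom (IntermediateField.inclusion hE)
  have hFfin : FiniteDimensional k F := FiniteDimensional.of_finrank_pos (by rw [hF]; exact hq.pos)
  have hEfin : FiniteDimensional k E :=
    FiniteDimensional.of_finrank_pos (by rw [hEn]; exact pow_pos hp.pos _)
  have hCfin : FiniteDimensional k (IntermediateField.adjoin k {ζ}) :=
    IntermediateField.adjoin.finiteDimensional hζint
  have hqf : Fact q.Prime := ⟨hq⟩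
  have habF : IsAbelianGalois k F := by
    have h1 : Nat.card Gal(F/k) = q := by rw [IsGalois.card_aut_eq_finrank, hF]
    have h2 : IsCyclic Gal(F/k) := isCyclic_of_prime_card h1
    exact IsAbelianGalois.of_isCyclic k F
  have hEnf : NumberField E := NumberField.of_module_finite k E
  have hΩfin : FiniteDimensional k ↥(F ⊔ E) := IntermediateField.finiteDimensional_sup F E
  have hΩnf : NumberField ↥(F ⊔ E) := NumberField.of_module_finite k _
  -- abelian
  set F1 := IntermediateField.restrict (le_sup_left : F ≤ F ⊔ E) with hF1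
  set E1 := IntermediateField.restrict (le_sup_right : E ≤ F ⊔ E) with hE1
  let eF : F ≃ₐ[k] F1 := IntermediateField.restrictAlgEquiv (le_sup_left : F ≤ F ⊔ E)
  let eE : E ≃ₐ[k] E1 := IntermediateField.restrictAlgEquiv (le_sup_right : E ≤ F ⊔ E)
  have hsup : F1 ⊔ E1 = ⊤ := by
    apply IntermediateField.lift_injective
    rw [IntermediateField.lift_sup, IntermediateField.lift_restrict,
      IntermediateField.lift_restrict, IntermediateField.lift_top]
  have habF1 : IsAbelianGalois k F1 := IsAbelianGalois.of_algHom eF.symm.toAlgHom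
  have habE1 : IsAbelianGalois k E1 := IsAbelianGalois.of_algHom eE.symm.toAlgHom
  have habΩ : IsAbelianGalois k ↥(F ⊔ E) := abelian_of_sup_top F1 E1 hsup
  -- algebras
  let aF : Algebra F ↥(F ⊔ E) :=
    (IntermediateField.inclusion (le_sup_left : F ≤ F ⊔ E)).toRingHom.toAlgebra
  let aE : Algebra E ↥(F ⊔ E) :=
    (IntermediateField.inclusion (le_sup_right : E ≤ F ⊔ E)).toRingHom.toAlgebra
  have tF : IsScalarTower k F ↥(F ⊔ E) := IsScalarTower.of_algebraMap_eq (fun _ => rfl)
  have tE : IsScalarTower k E ↥(F ⊔ E) := IsScalarTower.of_algebraMap_eq (fun _ => rfl)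
  have hcop : Nat.Coprime q (p ^ n) :=
    Nat.Coprime.pow_right n ((Nat.coprime_primes hq hp).2 (Ne.symm hpq))
  have hkΩ : finrank k ↥(F ⊔ E) = q * p ^ n := by
    have h1 := IntermediateField.finrank_sup_le F E
    rw [hF, hEn] at h1
    have h2 : q ∣ finrank k ↥(F ⊔ E) := ⟨_, by rw [← finrank_mul_finrank k F ↥(F ⊔ E), hF]⟩
    have h3 : p ^ n ∣ finrank k ↥(F ⊔ E) :=
      ⟨_, by rw [← finrank_mul_finrank k E ↥(F ⊔ E), hEn]⟩
    have h4 := hcop.mul_dvd_of_dvd_of_dvd h2 h3
    exact le_antisymm h1 (Nat.le_of_dvd finrank_pos h4)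
  have hFΩ : finrank F ↥(F ⊔ E) = p ^ n := by
    have h1 := finrank_mul_finrank k F ↥(F ⊔ E)
    rw [hF, hkΩ] at h1
    exact Nat.eq_of_mul_eq_mul_left hq.pos h1
  have hEΩ : finrank E ↥(F ⊔ E) = q := by
    have h1 := finrank_mul_finrank k E ↥(F ⊔ E)
    rw [hEn, hkΩ, mul_comm q] at h1
    exact Nat.eq_of_mul_eq_mul_left (pow_pos hp.pos n) h1
  have hgE : IsGalois E ↥(F ⊔ E) := (IsAbelianGalois.tower_top k E ↥(F ⊔ E)).toIsGalois
  obtain ⟨s0, hs0⟩ : ∃ s0 : Gal(↥(F ⊔ E)/E), orderOf s0 = q := by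
    apply exists_prime_orderOf_dvd_card' q
    rw [IsGalois.card_aut_eq_finrank, hEΩ]
  let s : Gal(↥(F ⊔ E)/k) := s0.restrictScalars k
  have hs0q : s0 ^ q = 1 := by rw [← hs0]; exact pow_orderOf_eq_one s0
  have hspow : ∀ (m : ℕ) (x : ↥(F ⊔ E)), (s ^ m) x = (s0 ^ m) x := by
    intro m
    induction m with
    | zero => intro x; rfl
    | succ m ih =>
      intro x
      rw [pow_succ, pow_succ]
      exact ih (s0 x)
  have hsq : s ^ q = 1 := by
    apply AlgEquiv.ext
    intro x
    rw [hspow, hs0q]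
    rfl
  have hs1 : s0 ≠ 1 := by
    rintro rfl
    rw [orderOf_one] at hs0
    exact hq.one_lt.ne hs0
  have hs : orderOf s = q := by
    rcases (Nat.dvd_prime hq).1 (orderOf_dvd_of_pow_eq_one hsq) with h | h
    · exfalso
      rw [orderOf_eq_one_iff] at h
      apply hs1
      apply AlgEquiv.ext
      intro x
      exact congrArg (fun g : Gal(↥(F ⊔ E)/k) => g x) h
    · exact h
  let sF : Gal(F/k) := s.restrictNormal F
  have hsF : ∀ x : F, algebraMap F ↥(F ⊔ E) (sF x) = s (algebraMap F ↥(F ⊔ E) x) :=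
    fun x => s.restrictNormal_commutes F x
  have hFpow : ∀ (m : ℕ) (x : F), algebraMap F ↥(F ⊔ E) ((sF ^ m) x) =
      (s ^ m) (algebraMap F ↥(F ⊔ E) x) := by
    intro m
    induction m with
    | zero => intro x; rfl
    | succ m ihm =>
      intro x
      rw [pow_succ, pow_succ]
      exact (ihm (sF x)).trans (congrArg _ (hsF x))
  have hsFq : sF ^ q = 1 := by
    apply AlgEquiv.ext
    intro x
    apply (algebraMap F ↥(F ⊔ E)).injective
    rw [hFpow, hsq]
    rfl
  have hordF : orderOf sF = q := by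
    rcases (Nat.dvd_prime hq).1 (orderOf_dvd_of_pow_eq_one hsFq) with h | h
    · exfalso
      rw [orderOf_eq_one_iff] at h
      have h1 : F1 ≤ IntermediateField.fixedField (Subgroup.zpowers s) := by
        intro x hx
        apply mem_fixed
        have h2 := hsF ⟨x.1, (IntermediateField.mem_restrict _ x).1 hx⟩
        rw [h] at h2
        exact h2.symm
      have h2 : E1 ≤ IntermediateField.fixedField (Subgroup.zpowers s) := by
        intro x hx
        apply mem_fixed
        exact s0.commutes ⟨x.1, (IntermediateField.mem_restrict _ x).1 hx⟩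
      have h3 : (⊤ : IntermediateField k ↥(F ⊔ E)) ≤
          IntermediateField.fixedField (Subgroup.zpowers s) := by
        rw [← hsup]; exact sup_le h1 h2
      apply hs1
      apply AlgEquiv.ext
      intro x
      exact (IntermediateField.mem_fixedField_iff _ _).1
        (h3 (IntermediateField.mem_top (x := x))) s (Subgroup.mem_zpowers s)
    · exact h
  have hst : ∀ Q : Ideal (𝓞 ↥(F ⊔ E)), Q.IsPrime → (p : 𝓞 ↥(F ⊔ E)) ∈ Q → s • Q = Q :=
    fun Q hQ hpQ => stable (F := F) hp hq hpq hFΩ s hsq hns Q hQ hpQ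
  -- ramification
  have hun : Mu22.UnramOutside p F ↥(F ⊔ E) := by
    have hle : F ⊔ E ≤ F ⊔ IntermediateField.adjoin k {ζ} := sup_le_sup_left hE F
    have hNfin : FiniteDimensional k ↥(F ⊔ IntermediateField.adjoin k {ζ}) :=
      IntermediateField.finiteDimensional_sup F _
    have hNnf : NumberField ↥(F ⊔ IntermediateField.adjoin k {ζ}) :=
      NumberField.of_module_finite k _
    let a1 : Algebra ↥(F ⊔ E) ↥(F ⊔ IntermediateField.adjoin k {ζ}) :=
      (IntermediateField.inclusion hle).toRingHom.toAlgebra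
    let a2 : Algebra F ↥(F ⊔ IntermediateField.adjoin k {ζ}) :=
      (IntermediateField.inclusion
        (le_sup_left : F ≤ F ⊔ IntermediateField.adjoin k {ζ})).toRingHom.toAlgebra
    have hst : IsScalarTower F ↥(F ⊔ E) ↥(F ⊔ IntermediateField.adjoin k {ζ}) :=
      IsScalarTower.of_algebraMap_eq (fun _ => rfl)
    have hζN : ζ ∈ F ⊔ IntermediateField.adjoin k {ζ} :=
      (le_sup_right : IntermediateField.adjoin k {ζ} ≤ _)
        (IntermediateField.mem_adjoin_simple_self k ζ)
    have hgen : Algebra.adjoin F {(⟨ζ, hζN⟩ : ↥(F ⊔ IntermediateField.adjoin k {ζ}))} = ⊤ := by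
      refine Mu22.cy_gen F (F ⊔ IntermediateField.adjoin k {ζ}) ?_ ζ hζint rfl hζN
      intro y hy
      exact ⟨⟨y, hy⟩, rfl⟩
    refine Mu22.tw_unram_bot F ↥(F ⊔ E) ↥(F ⊔ IntermediateField.adjoin k {ζ}) ?_
    intro Q hQ hQ0 hpQ
    have hint : IsIntegral ℤ (⟨ζ, hζN⟩ : ↥(F ⊔ IntermediateField.adjoin k {ζ})) := by
      refine IsIntegral.of_pow (Nat.pos_of_ne_zero hn0) ?_
      have : (⟨ζ, hζN⟩ : ↥(F ⊔ IntermediateField.adjoin k {ζ})) ^ (p ^ N) = 1 :=
        Subtype.ext hζ.pow_eq_one
      rw [this]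
      exact isIntegral_one
    refine Mu22.cy_unram (p ^ N) hn0
      (⟨⟨ζ, hζN⟩, hint⟩ : 𝓞 ↥(F ⊔ IntermediateField.adjoin k {ζ})) ?_ hgen Q hQ ?_
    · apply RingOfIntegers.ext
      exact Subtype.ext hζ.pow_eq_one
    · intro h
      apply hpQ
      rw [Nat.cast_pow] at h
      exact hQ.mem_of_pow_mem _ h
  have key := tower_minus hp hodd hq hpq hF sF hordF (hbase sF hordF) n ↥(F ⊔ E) hFΩ s hs hsF
    hst hun
  refine fix_padic hp hq hpq hEΩ s0 hs0 ?_
  rw [clAct_restrict] at key
  exact key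

end Pool.Agent.Work.MuY
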