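import Pool.Agent.Work.MP_a4986b_nt.YNew
import Pool.Agent.Work.MP_a4986b_nt.YLay

set_option autoImplicit false
set_option maxHeartbeats 400000
set_option linter.unusedSectionVars false

/-! # Abelian extensions of degree prime to `p`: no minus part -/

namespace Pool.Agent.Work.MuY

open NumberField Module
open scoped Pointwise nonZeroDivisors
open Pool.Agent.Work.MuI Pool.Agent.Work.MuI.Step

/-- the gap condition: a subfield of prime index whose class number has nearly the same
`p`-part -/
def Gap (p : ℕ) (k F : Type) [Field k] [Field F] [NumberField F] [Algebra k F] : Prop :=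
  ∃ F' : IntermediateField k F, (finrank F' F).Prime ∧
    padicValNat p (Nat.card (ClassGroup (𝓞 F))) <
      padicValNat p (Nat.card (ClassGroup (𝓞 F'))) + orderOf (p : ZMod (finrank k F))

section

variable {k F : Type} [Field k] [NumberField k] [Field F] [NumberField F] [Algebra k F]

theorem exists_lift (A : IntermediateField k F) (τ : Gal(F/k)) (h : ∀ x : A, τ x = x) :
    ∃ τ' : Gal(F/A), τ'.restrictScalars k = τ ∧ orderOf τ' = orderOf τ := by
  let τ' : Gal(F/A) := { τ with commutes' := fun x => h x }
  have h1 : ∀ (n : ℕ) (x : F), (τ' ^ n) x = (τ ^ n) x := by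
    intro n
    induction n with
    | zero => intro x; rfl
    | succ n ih =>
      intro x
      rw [pow_succ, pow_succ]
      exact ih (τ x)
  refine ⟨τ', rfl, ?_⟩
  rw [orderOf_eq_orderOf_iff]
  intro n
  constructor
  · intro h2
    apply AlgEquiv.ext
    intro x
    rw [← h1, h2]
    rfl
  · intro h2
    apply AlgEquiv.ext
    intro x
    rw [h1, h2]
    rfl

theorem exists_gal (A : IntermediateField k F) [IsGalois A F] (h : (finrank A F).Prime) :
    ∃ τ : Gal(F/A), orderOf τ = finrank A F ∧
      orderOf (τ.restrictScalars k : Gal(F/k)) = finrank A F := by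
  have hf : Fact (finrank A F).Prime := ⟨h⟩
  obtain ⟨τ, hτ⟩ : ∃ τ : Gal(F/A), orderOf τ = finrank A F := by
    apply exists_prime_orderOf_dvd_card'
    rw [IsGalois.card_aut_eq_finrank]
  refine ⟨τ, hτ, ?_⟩
  obtain ⟨τ', h1, h2⟩ := exists_lift A (τ.restrictScalars k) (fun x => τ.commutes x)
  have h3 : τ' = τ := by
    apply AlgEquiv.ext
    intro x
    exact congrArg (fun g : Gal(F/k) => g x) h1
  rw [← h2, h3, hτ]

/-- the new part is trivial -/
theorem newPart_eq_bot [IsAbelianGalois k F] {p : ℕ} (hp : p.Prime) (hpd : ¬ p ∣ finrank k F)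
    (hgap : Gap p k F) : newPart k F p = ⊥ := by
  have hpf : Fact p.Prime := ⟨hp⟩
  obtain ⟨A, hl, hlt⟩ := hgap
  have hpl : p ≠ finrank A F := by
    intro h
    apply hpd
    rw [h, ← finrank_mul_finrank k A F]
    exact Dvd.intro_left _ rfl
  have hG : IsGalois A F := inferInstance
  obtain ⟨N, h1, -, h3⟩ := exists_clNorm A F
  obtain ⟨τ, hτ, hτ'⟩ := exists_gal A hl
  have hle : newPart k F p ≤ N.ker := by
    intro c hc
    obtain ⟨hc1, hc2⟩ := mem_newPart.1 hc
    have h4 := hc2 (τ.restrictScalars k) (by rw [hτ']; exact hl)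
    rw [clAct_restrict, hτ'] at h4
    have h5 : ClassGroup.extendedHom (𝓞 A) (𝓞 F) (N c) = 1 := by
      rw [h3 hG, prod_gal rfl τ hτ, h4]
    have h6 : N c ^ finrank A F = 1 := by rw [← h1, h5, map_one]
    have h7 : N c ∈ (⊥ : Subgroup (ClassGroup (𝓞 A))) :=
      mem_of_pow_mem ((Nat.coprime_primes hp hl).2 hpl)
        (by rw [← map_pow, hc1, map_one]; exact Subgroup.one_mem _)
        (by rw [h6]; exact Subgroup.one_mem _)
    exact Subgroup.mem_bot.1 h7
  obtain ⟨m, hm, hem⟩ := card_newPart_pow (k := k) (F := F) hp rfl hpd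
  have h4 : p ^ m ∣ Nat.card N.ker := by
    rw [← hm]; exact Subgroup.card_dvd_of_le hle
  have h5 := padic_ker hp hl hpl rfl N h1
  have h6 : m ≤ padicValNat p (Nat.card N.ker) := (padicValNat_dvd_iff_le Nat.card_pos.ne').1 h4
  have h7 : m < orderOf (p : ZMod (finrank k F)) := by omega
  have h8 : m = 0 := Nat.eq_zero_of_dvd_of_lt hem h7
  rw [h8, pow_zero] at hm
  exact (Subgroup.card_eq_one (H := newPart k F p)).1 hm

/-- noncyclic groups -/
theorem newPart_noncyclic [IsAbelianGalois k F] {p : ℕ} (hp : p.Prime) (hpd : ¬ p ∣ finrank k F)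
    {l : ℕ} (hl : l.Prime) (σ τ : Gal(F/k)) (hσ : orderOf σ = l) (hτ : orderOf τ = l)
    (hστ : σ ∉ Subgroup.zpowers τ) : newPart k F p = ⊥ := by
  have hcomm : Commute σ τ := (IsMulCommutative.is_comm (M := Gal(F/k))).comm _ _
  rw [Subgroup.eq_bot_iff_forall]
  intro c hc
  obtain ⟨hc1, hc2⟩ := mem_newPart.1 hc
  have h1 : ∀ i : ℕ, orderOf (σ * τ ^ i) = l := by
    intro i
    have h2 : (σ * τ ^ i) ^ l = 1 := by
      rw [(hcomm.pow_right i).mul_pow, ← hσ, pow_orderOf_eq_one, one_mul, ← pow_mul, mul_comm,
        pow_mul, hσ, ← hτ, pow_orderOf_eq_one, one_pow]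
    rcases (Nat.dvd_prime hl).1 (orderOf_dvd_of_pow_eq_one h2) with h | h
    · exfalso
      rw [orderOf_eq_one_iff] at h
      apply hστ
      rw [eq_inv_of_mul_eq_one_left h]
      exact Subgroup.inv_mem _ (Subgroup.pow_mem _ (Subgroup.mem_zpowers τ) i)
    · exact h
  have h2 : ∀ i : ℕ, ∏ j ∈ Finset.range l, clAct (σ ^ j * (τ ^ j) ^ i) c = 1 := by
    intro i
    have h3 := hc2 (σ * τ ^ i) (by rw [h1]; exact hl)
    rw [h1, ambNu_apply] at h3
    rw [← h3]
    refine Finset.prod_congr rfl fun j _ => ?_
    rw [← clAct_pow, (hcomm.pow_right i).mul_pow, ← pow_mul, ← pow_mul, mul_comm i j]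
  have h3 : ∏ j ∈ Finset.range l, ∏ i ∈ Finset.range l, clAct (σ ^ j * (τ ^ j) ^ i) c = 1 := by
    rw [Finset.prod_comm]
    exact Finset.prod_eq_one fun i _ => h2 i
  have h4 : ∀ j ∈ Finset.range l, j ≠ 0 →
      ∏ i ∈ Finset.range l, clAct (σ ^ j * (τ ^ j) ^ i) c = 1 := by
    intro j hj hj0
    have hord : orderOf (τ ^ j) = l := by
      have h5 : Nat.Coprime l j := by
        rw [Nat.Prime.coprime_iff_not_dvd hl]
        intro h6
        have := Nat.le_of_dvd (Nat.pos_of_ne_zero hj0) h6
        have := Finset.mem_range.1 hj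
        omega
      rw [orderOf_pow' τ hj0, hτ, h5.gcd_eq_one, Nat.div_one]
    have h5 := hc2 (τ ^ j) (by rw [hord]; exact hl)
    rw [hord, ambNu_apply] at h5
    have h6 : ∀ i ∈ Finset.range l, clAct (σ ^ j * (τ ^ j) ^ i) c =
        clAct (σ ^ j) (((clAct (τ ^ j)) ^ i) c) := by
      intro i _
      rw [clAct_mul, clAct_pow (τ ^ j) i]
    rw [Finset.prod_congr rfl h6, ← map_prod, h5, map_one]
  rw [Finset.prod_eq_single_of_mem 0 (Finset.mem_range.2 hl.pos) h4] at h3
  have h5 : c ^ l = 1 := by
    rw [← h3]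
    have h6 : ∀ i ∈ Finset.range l, clAct (σ ^ 0 * (τ ^ 0) ^ i) c = c := by
      intro i _
      rw [pow_zero, pow_zero, one_pow, one_mul, clAct_one]
      rfl
    rw [Finset.prod_congr rfl h6, Finset.prod_const, Finset.card_range]
  have hpl : p ≠ l := by
    rintro rfl
    apply hpd
    rw [← hσ, ← IsGalois.card_aut_eq_finrank]
    exact orderOf_dvd_natCard σ
  have h7 : c ∈ (⊥ : Subgroup (ClassGroup (𝓞 F))) :=
    mem_of_pow_mem ((Nat.coprime_primes hp hl).2 hpl)
      (by rw [hc1]; exact Subgroup.one_mem _) (by rw [h5]; exact Subgroup.one_mem _)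
  exact Subgroup.mem_bot.1 h7

/-- a finite commutative group whose `l`-torsion is cyclic for all primes `l` is cyclic -/
theorem cyclic_of_torsion {G : Type*} [CommGroup G] [Finite G]
    (h : ∀ l : ℕ, l.Prime → ∀ σ τ : G, orderOf σ = l → orderOf τ = l →
      σ ∈ Subgroup.zpowers τ) : IsCyclic G := by
  classical
  have := Fintype.ofFinite G
  -- torsion subgroups
  let T : ℕ → Subgroup G := fun n => (powMonoidHom n : G →* G).ker
  have hT : ∀ n x, x ∈ T n ↔ x ^ n = 1 := fun n x => Iff.rfl
  have hTl : ∀ l : ℕ, l.Prime → Nat.card (T l) ≤ l := by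
    intro l hl
    by_cases hex : ∃ τ : G, orderOf τ = l
    · obtain ⟨τ, hτ⟩ := hex
      have h1 : T l ≤ Subgroup.zpowers τ := by
        intro x hx
        rcases (Nat.dvd_prime hl).1 (orderOf_dvd_of_pow_eq_one ((hT l x).1 hx)) with h2 | h2
        · rw [orderOf_eq_one_iff.1 h2]; exact Subgroup.one_mem _
        · exact h l hl x τ h2 hτ
      have h2 := Subgroup.card_le_of_le h1
      rwa [Nat.card_zpowers, hτ] at h2
    · have h1 : T l = ⊥ := by
        rw [Subgroup.eq_bot_iff_forall]
        intro x hx
        rcases (Nat.dvd_prime hl).1 (orderOf_dvd_of_pow_eq_one ((hT l x).1 hx)) with h2 | h2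
        · exact orderOf_eq_one_iff.1 h2
        · exact absurd ⟨x, h2⟩ hex
      rw [h1, Subgroup.card_bot]
      exact hl.one_le
  have hTn : ∀ n : ℕ, 0 < n → Nat.card (T n) ≤ n := by
    intro n
    induction n using Nat.recOnMul with
    | zero => intro h0; exact absurd h0 (lt_irrefl 0)
    | one =>
      intro _
      have h1 : T 1 = ⊥ := by
        rw [Subgroup.eq_bot_iff_forall]
        intro x hx
        have := (hT 1 x).1 hx
        rwa [pow_one] at this
      rw [h1, Subgroup.card_bot]
    | prime l hl => intro _; exact hTl l hl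
    | mul a b iha ihb =>
      intro hab
      have ha : 0 < a := Nat.pos_of_mul_pos_right hab
      have hb : 0 < b := Nat.pos_of_mul_pos_left hab
      -- the map `x ↦ x ^ a` from `T (a b)` to `T b`
      let f : T (a * b) →* T b := ((powMonoidHom a : G →* G).comp (T (a * b)).subtype).codRestrict
        (T b) (fun x => by
          have h1 := (hT _ _).1 x.2
          rw [pow_mul] at h1
          exact h1)
      have h1 := Subgroup.card_eq_card_quotient_mul_card_subgroup f.ker
      have h2 : Nat.card (T (a * b) ⧸ f.ker) ≤ Nat.card (T b) := by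
        rw [Nat.card_congr (QuotientGroup.quotientKerEquivRange f).toEquiv]
        exact Subgroup.card_le_card_group _
      have h3 : Nat.card f.ker ≤ Nat.card (T a) := by
        refine Nat.card_le_card_of_injective (fun x => ⟨x.1.1, ?_⟩) ?_
        · have h4 : f x.1 = 1 := x.2
          exact congrArg Subtype.val h4
        · intro x y hxy
          apply Subtype.ext
          apply Subtype.ext
          exact congrArg (fun z : T a => (z : G)) hxy
      rw [h1]
      calc _ ≤ Nat.card (T b) * Nat.card (T a) := Nat.mul_le_mul h2 h3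
        _ ≤ b * a := Nat.mul_le_mul (ihb hb) (iha ha)
        _ = a * b := mul_comm _ _
  refine isCyclic_of_card_pow_eq_one_le fun n hn => ?_
  refine le_trans (le_of_eq ?_) (hTn n hn)
  rw [Nat.card_eq_fintype_card, Fintype.card_subtype]
  congr 1
  ext x
  rw [Finset.mem_filter, Finset.mem_filter, hT]

/-- `Gap` for all cyclic subextensions on which `τ` is not trivial -/
def CycGapFor (p : ℕ) (k F : Type) [Field k] [NumberField k] [Field F] [NumberField F]
    [Algebra k F] (τ : Gal(F/k)) : Prop :=
  ∀ (F' : Type) [Field F'] [NumberField F'] [Algebra k F'] (ψ : F' →ₐ[k] F),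
    (∃ x, τ (ψ x) ≠ ψ x) → IsCyclic Gal(F'/k) → Gap p k F'

theorem newPart_trivial [IsAbelianGalois k F] {p : ℕ} (hp : p.Prime) (hpd : ¬ p ∣ finrank k F)
    (hgap : IsCyclic Gal(F/k) → Gap p k F) : newPart k F p = ⊥ := by
  by_cases hcyc : IsCyclic Gal(F/k)
  · exact newPart_eq_bot hp hpd (hgap hcyc)
  · by_contra hne
    apply hcyc
    let inst : CommGroup Gal(F/k) :=
      { (inferInstance : Group Gal(F/k)) with
        mul_comm := fun g h => (IsMulCommutative.is_comm (M := Gal(F/k))).comm g h }
    refine @cyclic_of_torsion Gal(F/k) inst inferInstance ?_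
    intro l hl σ τ hσ hτ
    by_contra hmem
    exact hne (newPart_noncyclic hp hpd hl σ τ hσ hτ hmem)

end

/-- there is no minus part for any element of prime order -/
theorem minus_trivial {p : ℕ} (hp : p.Prime) (k : Type) [Field k] [NumberField k] (n : ℕ) :
    ∀ (F : Type) [Field F] [NumberField F] [Algebra k F] [IsAbelianGalois k F],
      finrank k F = n → ¬ p ∣ n → ∀ τ : Gal(F/k), (orderOf τ).Prime → CycGapFor p k F τ →
      ∀ c : ClassGroup (𝓞 F), c ^ p = 1 → ambNu (clAct τ) (orderOf τ) c = 1 → c = 1 := by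
  induction n using Nat.strong_induction_on with
  | _ n ih =>
    intro F _ _ _ _ hn hpn τ hτ hgap c hc1 hc2
    have hcardG : Nat.card Gal(F/k) = n := by rw [IsGalois.card_aut_eq_finrank, hn]
    have hτn : orderOf τ ∣ n := by rw [← hcardG]; exact orderOf_dvd_natCard τ
    have hτ1 : ∃ x, τ (AlgHom.id k F x) ≠ AlgHom.id k F x := by
      by_contra h
      push Not at h
      have h1 : τ = 1 := AlgEquiv.ext fun x => h x
      rw [h1, orderOf_one] at hτ
      exact Nat.not_prime_one hτ
    by_cases hnew : ∀ τ' : Gal(F/k), (orderOf τ').Prime → ambNu (clAct τ') (orderOf τ') c = 1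
    · have h1 := newPart_trivial (k := k) (F := F) hp (by rw [hn]; exact hpn)
        (hgap F (AlgHom.id k F) hτ1)
      have h2 : c ∈ newPart k F p := ⟨hc1, hnew⟩
      rw [h1] at h2
      exact Subgroup.mem_bot.1 h2
    · exfalso
      push Not at hnew
      obtain ⟨τ', hτ', hne⟩ := hnew
      set A := IntermediateField.fixedField (Subgroup.zpowers τ') with hA
      have hAF : finrank A F = orderOf τ' := by
        rw [IntermediateField.finrank_fixedField_eq_card, Nat.card_zpowers]
      have hkA : finrank k A * orderOf τ' = n := by rw [← hAF, finrank_mul_finrank, hn]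
      have hpos : 0 < finrank k A := finrank_pos
      have hlt : finrank k A < n := by
        rw [← hkA]
        exact (Nat.lt_mul_iff_one_lt_right hpos).2 hτ'.one_lt
      have hpA : ¬ p ∣ finrank k A := fun h => hpn (by rw [← hkA]; exact Dvd.dvd.mul_right h _)
      have hpl : p ≠ orderOf τ' := by
        intro h
        exact hpn (by rw [← hkA, ← h]; exact Dvd.intro_left _ rfl)
      have hG : IsGalois A F := inferInstance
      obtain ⟨τ'', hres, hord⟩ := exists_lift A τ' (fun x =>
        (IntermediateField.mem_fixedField_iff _ _).1 x.2 τ' (Subgroup.mem_zpowers τ'))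
      obtain ⟨N, h1, -, h3⟩ := exists_clNorm A F
      have hj : ∀ x, ClassGroup.extendedHom (𝓞 A) (𝓞 F) (N x) =
          ambNu (clAct τ') (orderOf τ') x := by
        intro x
        rw [h3 hG, prod_gal hAF τ'' hord, ← hres, clAct_restrict]
      -- the restriction of `τ`
      let τ1 : Gal(A/k) := τ.restrictNormal A
      have hτ1 : ∀ x : A, algebraMap A F (τ1 x) = τ (algebraMap A F x) :=
        fun x => τ.restrictNormal_commutes A x
      have hpow : ∀ (m : ℕ) (x : A), algebraMap A F ((τ1 ^ m) x) =
          (τ ^ m) (algebraMap A F x) := by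
        intro m
        induction m with
        | zero => intro x; rfl
        | succ m ihm =>
          intro x
          rw [pow_succ, pow_succ]
          exact (ihm (τ1 x)).trans (congrArg _ (hτ1 x))
      have hτ1q : τ1 ^ orderOf τ = 1 := by
        apply AlgEquiv.ext
        intro x
        apply (algebraMap A F).injective
        rw [hpow, pow_orderOf_eq_one]
        rfl
      have hord1 : orderOf τ1 = orderOf τ := by
        rcases (Nat.dvd_prime hτ).1 (orderOf_dvd_of_pow_eq_one hτ1q) with h | h
        · exfalso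
          rw [orderOf_eq_one_iff] at h
          have h4 : ∀ x : A, τ x = x := by
            intro x
            have h5 := hτ1 x
            rw [h] at h5
            exact h5.symm
          have h5 : τ ∈ IntermediateField.fixingSubgroup A := by
            rw [IntermediateField.mem_fixingSubgroup_iff]
            intro x hx
            exact h4 ⟨x, hx⟩
          rw [hA, IntermediateField.fixingSubgroup_fixedField] at h5
          have h6 : orderOf τ = orderOf τ' :=
            (Nat.prime_dvd_prime_iff_eq hτ hτ').1 (orderOf_dvd_of_mem_zpowers h5)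
          obtain ⟨τ3, hres3, hord3⟩ := exists_lift A τ h4
          apply hne
          rw [← hj, h3 hG, prod_gal (hAF.trans h6.symm) τ3 hord3, ← clAct_restrict (k := k) τ3,
            hres3, hc2]
        · exact h
      have hc1' : N c ^ p = 1 := by rw [← map_pow, hc1, map_one]
      have hNc : N c ≠ 1 := by
        intro h
        apply hne
        rw [← hj, h, map_one]
      apply hNc
      have hgapA : CycGapFor p k A τ1 := by
        rintro F' _ _ _ ψ ⟨x, hx⟩ hc'
        refine hgap F' (A.val.comp ψ) ⟨x, fun h => hx ?_⟩ hc'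
        apply (algebraMap A F).injective
        rw [hτ1]
        exact h
      refine ih (finrank k A) hlt A rfl hpA τ1 (by rw [hord1]; exact hτ) hgapA (N c) hc1' ?_
      rw [hord1]
      have h4 : ClassGroup.extendedHom (𝓞 A) (𝓞 F) (ambNu (clAct τ1) (orderOf τ) (N c)) = 1 := by
        rw [map_ambNu (ClassGroup.extendedHom (𝓞 A) (𝓞 F)) (clAct τ1) (clAct τ)
          (ext_clAct τ τ1 hτ1), hj]
        have h5 := map_ambNu (ambNu (clAct τ') (orderOf τ')) (clAct τ) (clAct τ) (fun x =>
          (map_ambNu (clAct τ : ClassGroup (𝓞 F) →* ClassGroup (𝓞 F)) (clAct τ') (clAct τ')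
            (fun y => clAct_comm τ τ' y) (orderOf τ') x).symm) (orderOf τ) c
        rw [← h5, hc2, map_one]
      have h5 : ambNu (clAct τ1) (orderOf τ) (N c) ^ finrank A F = 1 := by
        rw [← h1, h4, map_one]
      have h6 : ambNu (clAct τ1) (orderOf τ) (N c) ∈ (⊥ : Subgroup (ClassGroup (𝓞 A))) :=
        mem_of_pow_mem (m := p) (n := finrank A F)
          (by rw [hAF]; exact (Nat.coprime_primes hp hτ').2 hpl)
          (by rw [← map_pow, hc1', map_one]; exact Subgroup.one_mem _)
          (by rw [h5]; exact Subgroup.one_mem _)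
      exact Subgroup.mem_bot.1 h6

end Pool.Agent.Work.MuY
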