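import Mathlib

set_option autoImplicit false

/-! # The exponent of a prime ideal in an element -/

namespace Pool.Agent.Work.MuY

open NumberField

open Classical in
/-- the exponent of `P` in `a` -/
noncomputable def cnt {k : Type} [Field k] [NumberField k] (P : Ideal (𝓞 k)) (a : 𝓞 k) : ℕ :=
  (UniqueFactorizationMonoid.normalizedFactors (Ideal.span {a})).count P

end Pool.Agent.Work.MuY
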