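import Pool.Agent.Work.MP_a4986b_nt.YKum

/-! Explicit Kummer extensions: the radicand `z * b`, `z` a primitive `q`-th root of unity. -/

set_option autoImplicit false

namespace Pool.Agent.Work.MuY

open NumberField Module Polynomial Ideal

/-- from order modulo `q ^ 2` to order modulo `q` -/
theorem ex_order {q p : ℕ} (hq : q.Prime) (hprim : orderOf (p : ZMod (q ^ 2)) = q * (q - 1)) :
    orderOf (p : ZMod q) = q - 1 := by
  have hqf : Fact q.Prime := ⟨hq⟩
  have hdvd : (q : ℕ) ∣ q ^ 2 := dvd_pow_self q two_ne_zero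
  have h0 : (p : ZMod q) ≠ 0 := by
    intro h
    have h1 : q ∣ p := (ZMod.natCast_eq_zero_iff p q).1 h
    have h2 : (p : ZMod (q ^ 2)) ^ 2 = 0 := by
      have : q ^ 2 ∣ p ^ 2 := pow_dvd_pow_of_dvd h1 2
      exact_mod_cast (ZMod.natCast_eq_zero_iff (p ^ 2) (q ^ 2)).2 this
    have h3 : orderOf (p : ZMod (q ^ 2)) ≠ 0 := by
      rw [hprim]
      exact mul_ne_zero hq.ne_zero (Nat.sub_ne_zero_of_lt hq.one_lt)
    have h4 := pow_orderOf_eq_one (p : ZMod (q ^ 2))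
    have hq1 : 1 ≤ q - 1 := Nat.le_sub_one_of_lt hq.one_lt
    have h5 : 2 ≤ orderOf (p : ZMod (q ^ 2)) := by
      rw [hprim]
      have := hq.two_le
      nlinarith
    rw [show orderOf (p : ZMod (q ^ 2)) = 2 + (orderOf (p : ZMod (q ^ 2)) - 2) by omega, pow_add,
      h2, zero_mul] at h4
    have : Fact (1 < q ^ 2) := ⟨Nat.one_lt_pow two_ne_zero hq.one_lt⟩
    exact zero_ne_one h4
  have h1 : orderOf (p : ZMod q) ∣ q - 1 := by
    rw [orderOf_dvd_iff_pow_eq_one]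
    exact ZMod.pow_card_sub_one_eq_one h0
  have h2 : orderOf (p : ZMod (q ^ 2)) ∣ q * orderOf (p : ZMod q) := by
    rw [orderOf_dvd_iff_pow_eq_one]
    set n := orderOf (p : ZMod q) with hn
    have h3 : ((p : ℤ) ^ n) ≡ 1 [ZMOD q] := by
      rw [← ZMod.intCast_eq_intCast_iff]
      push_cast
      exact pow_orderOf_eq_one _
    have h4 : (q : ℤ) ∣ (p : ℤ) ^ n - 1 := h3.symm.dvd
    have h5 : ((q : ℤ) ^ (1 + 1)) ∣ ((p : ℤ) ^ n) ^ q ^ 1 - 1 ^ q ^ 1 :=
      dvd_sub_pow_of_dvd_sub (p := q) h4 1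
    have h6 : (((p : ℤ) ^ n) ^ q - 1 : ℤ) = (((p : ℤ) ^ n) ^ q ^ 1 - 1 ^ q ^ 1) := by simp
    have h7 : (((((p : ℤ) ^ n) ^ q - 1 : ℤ)) : ZMod (q ^ 2)) = 0 := by
      rw [ZMod.intCast_zmod_eq_zero_iff_dvd, h6]
      exact_mod_cast h5
    push_cast at h7
    rw [mul_comm, pow_mul]
    exact sub_eq_zero.1 h7
  rw [hprim] at h2
  exact Nat.dvd_antisymm h1 (Nat.dvd_of_mul_dvd_mul_left hq.pos h2)

/-- `q ^ 2` does not divide `p ^ (q - 1) - 1` -/
theorem ex_sq_not_dvd {q p : ℕ} (hq : q.Prime) (hp : p.Prime)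
    (hprim : orderOf (p : ZMod (q ^ 2)) = q * (q - 1)) : ¬ q ^ 2 ∣ p ^ (q - 1) - 1 := by
  intro h
  have h1 : (p : ZMod (q ^ 2)) ^ (q - 1) = 1 := by
    have h2 := (ZMod.natCast_eq_zero_iff (p ^ (q - 1) - 1) (q ^ 2)).2 h
    rw [Nat.cast_sub (Nat.one_le_pow _ _ hp.pos)] at h2
    push_cast at h2
    exact sub_eq_zero.1 h2
  have h2 := orderOf_dvd_of_pow_eq_one h1
  rw [hprim] at h2
  have hq1 : 0 < q - 1 := Nat.sub_pos_of_lt hq.one_lt
  have h3 := Nat.le_of_dvd hq1 h2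
  have := hq.two_le
  nlinarith

/-- the exponent `M = (p ^ (q - 1) - 1) / q` is a multiple of `p - 1` -/
theorem ex_exponent {q p : ℕ} (hq : q.Prime) (hq2 : q ≠ 2) (hp : p.Prime)
    (hprim : orderOf (p : ZMod (q ^ 2)) = q * (q - 1)) :
    ∃ M : ℕ, p ^ (q - 1) - 1 = q * M ∧ p - 1 ∣ M ∧ ¬ q ∣ M := by
  have hqf : Fact q.Prime := ⟨hq⟩
  have hord := ex_order hq hprim
  have h2q : 2 < q := lt_of_le_of_ne hq.two_le (Ne.symm hq2)
  have h1 : (p : ZMod q) ^ (q - 1) = 1 := by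
    rw [← hord]
    exact pow_orderOf_eq_one _
  have h2 : q ∣ p ^ (q - 1) - 1 := by
    rw [← ZMod.natCast_eq_zero_iff, Nat.cast_sub (Nat.one_le_pow _ _ hp.pos)]
    push_cast
    rw [h1, sub_self]
  have h3 : p - 1 ∣ p ^ (q - 1) - 1 := by
    simpa using Nat.sub_dvd_pow_sub_pow p 1 (q - 1)
  have h4 : ¬ q ∣ p - 1 := by
    intro h
    rw [← ZMod.natCast_eq_zero_iff, Nat.cast_sub hp.one_lt.le] at h
    push_cast at h
    have h5 : (p : ZMod q) = 1 := sub_eq_zero.1 h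
    rw [h5, orderOf_one] at hord
    omega
  obtain ⟨N, hN⟩ := h3
  have h5 : q ∣ N := by
    rw [hN] at h2
    exact (hq.dvd_mul.1 h2).resolve_left h4
  obtain ⟨N', rfl⟩ := h5
  refine ⟨(p - 1) * N', by rw [hN]; ring, dvd_mul_right _ _, ?_⟩
  intro h
  apply ex_sq_not_dvd hq hp hprim
  rw [hN]
  obtain ⟨c, hc⟩ := h
  exact ⟨c, by calc (p - 1) * (q * N') = q * ((p - 1) * N') := by ring
    _ = q * (q * c) := by rw [hc]
    _ = q ^ 2 * c := by ring⟩

/-- `z * b` is not a `q`-th power modulo `p` -/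
theorem ex_not_pow {q p : ℕ} (hq : q.Prime) (hq2 : q ≠ 2) (hp : p.Prime)
    (hprim : orderOf (p : ZMod (q ^ 2)) = q * (q - 1))
    (k : Type) [Field k] [NumberField k] [IsCyclotomicExtension {q} ℚ k]
    (z : 𝓞 k) (hz : IsPrimitiveRoot z q) (b : ℤ) (hb : ¬ (p : ℤ) ∣ b) (x : 𝓞 k) :
    ¬ (p : 𝓞 k) ∣ x ^ q - z * b := by
  have hqf : Fact q.Prime := ⟨hq⟩
  have hpf : Fact p.Prime := ⟨hp⟩
  have : NeZero q := ⟨hq.ne_zero⟩
  have hord := ex_order hq hprim
  have h2q : 2 < q := lt_of_le_of_ne hq.two_le (Ne.symm hq2)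
  have hpq : p ≠ q := by
    rintro rfl
    rw [ZMod.natCast_self, orderOf_eq_zero] at hord
    · omega
    · intro h0
      rw [isOfFinOrder_iff_pow_eq_one] at h0
      obtain ⟨n, hn, h0⟩ := h0
      rw [zero_pow hn.ne'] at h0
      exact zero_ne_one h0
  have hfk : finrank ℚ k = q - 1 := by
    rw [IsCyclotomicExtension.Rat.finrank q k, Nat.totient_prime hq]
  obtain ⟨M, hM, hpM, hqM⟩ := ex_exponent hq hq2 hp hprim
  obtain ⟨P, ⟨hP, hpP⟩, -⟩ := existsUnique_of_inertiaDeg_ge (K := k) hp fun P hP hpP => by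
    rw [cyc_inertiaDeg hq hp hpq hord k P hP hpP, hfk]
  have hPs := eq_span_of_inertiaDeg_ge hp P hP hpP
    (by rw [cyc_inertiaDeg hq hp hpq hord k P hP hpP, hfk])
  have hP0 : P ≠ ⊥ := by
    rintro rfl
    have h1 : (p : 𝓞 k) = 0 := hpP
    exact hp.ne_zero (by exact_mod_cast h1)
  have hPmax : P.IsMaximal := hP.isMaximal hP0
  let : Field (𝓞 k ⧸ P) := Quotient.field _
  have : Finite (𝓞 k ⧸ P) := Ring.HasFiniteQuotients.finiteQuotient hP0
  have hcard : Nat.card (𝓞 k ⧸ P) = p ^ (q - 1) := by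
    have h1 : absNorm P = p ^ finrank ℚ k := by
      rw [hPs, absNorm_span_singleton]
      have h3 := Algebra.norm_algebraMap (R := ℤ) (S := 𝓞 k) (p : ℤ)
      rw [show (algebraMap ℤ (𝓞 k)) (p : ℤ) = (p : 𝓞 k) by simp] at h3
      rw [h3, RingOfIntegers.rank]
      simp
    rw [hfk] at h1
    exact h1
  intro hx
  have hx1 : (Ideal.Quotient.mk P x) ^ q = Ideal.Quotient.mk P z * (b : 𝓞 k ⧸ P) := by
    have h1 : x ^ q - z * b ∈ P := by
      rw [hPs]
      exact mem_span_singleton.2 hx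
    have h2 := Ideal.Quotient.eq.2 h1
    rw [map_pow, map_mul, map_intCast] at h2
    exact h2
  have hbP : (b : 𝓞 k ⧸ P) ^ (p - 1) = 1 := by
    have h1 : b ^ (p - 1) ≡ 1 [ZMOD p] := Int.ModEq.pow_card_sub_one_eq_one hp
      ((Int.isCoprime_iff_gcd_eq_one.2 (by
        rw [Int.gcd_comm]
        exact (Int.isCoprime_iff_gcd_eq_one.1 ((Nat.prime_iff_prime_int.1 hp).coprime_iff_not_dvd.2
          hb)))))
    have h2 : (p : ℤ) ∣ b ^ (p - 1) - 1 := h1.symm.dvd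
    obtain ⟨c, hc⟩ := h2
    have h3 : ((b ^ (p - 1) - 1 : ℤ) : 𝓞 k ⧸ P) = 0 := by
      rw [hc]
      have h4 : ((p : ℤ) : 𝓞 k ⧸ P) = 0 := by
        have : (Ideal.Quotient.mk P (p : 𝓞 k)) = 0 := Ideal.Quotient.eq_zero_iff_mem.2 hpP
        rw [map_natCast] at this
        exact_mod_cast this
      push_cast at h4 ⊢
      rw [h4, zero_mul]
    push_cast at h3
    exact sub_eq_zero.1 h3
  have hb0 : (b : 𝓞 k ⧸ P) ≠ 0 := by
    intro h
    rw [h, zero_pow (Nat.sub_ne_zero_of_lt hp.one_lt)] at hbP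
    exact zero_ne_one hbP
  have hz0 : Ideal.Quotient.mk P z ≠ 0 := by
    intro h
    have h1 : (Ideal.Quotient.mk P z) ^ q = 1 := by rw [← map_pow, hz.pow_eq_one, map_one]
    rw [h, zero_pow hq.ne_zero] at h1
    exact zero_ne_one h1
  have hx0 : Ideal.Quotient.mk P x ≠ 0 := by
    intro h
    rw [h, zero_pow hq.ne_zero] at hx1
    exact mul_ne_zero hz0 hb0 hx1.symm
  have hx2 : (Ideal.Quotient.mk P x) ^ (q * M) = 1 := by
    have : Fintype (𝓞 k ⧸ P) := Fintype.ofFinite _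
    rw [← hM, ← hcard, Nat.card_eq_fintype_card]
    exact FiniteField.pow_card_sub_one_eq_one _ hx0
  have hzM : (Ideal.Quotient.mk P z) ^ M = 1 := by
    obtain ⟨c, hc⟩ := hpM
    have hbM : (b : 𝓞 k ⧸ P) ^ M = 1 := by rw [hc, pow_mul, hbP, one_pow]
    rw [pow_mul, hx1, mul_pow, hbM, mul_one] at hx2
    exact hx2
  -- `z ^ M` is again a primitive root
  have hzM' : IsPrimitiveRoot (z ^ M) q :=
    hz.pow_of_coprime M ((Nat.Prime.coprime_iff_not_dvd hq).2 hqM).symm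
  have h3 : (q : 𝓞 k) ∈ P := by
    rw [← Ideal.Quotient.eq_zero_iff_mem]
    have h1 := congrArg (Ideal.Quotient.mk P) (hzM'.geom_sum_eq_zero hq.one_lt)
    rw [map_sum, map_zero] at h1
    rw [map_natCast, ← h1]
    have h2 : ∀ i ∈ Finset.range q, Ideal.Quotient.mk P ((z ^ M) ^ i) = 1 := fun i _ => by
      rw [map_pow, map_pow, hzM, one_pow]
    rw [Finset.sum_congr rfl h2]
    simp
  apply hP.ne_top
  rw [eq_top_iff_one]
  have h4 : IsCoprime (p : ℤ) (q : ℤ) := Nat.isCoprime_iff_coprime.2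
    ((Nat.coprime_primes hp hq).2 hpq)
  obtain ⟨u, v, huv⟩ := h4
  have h5 : (1 : 𝓞 k) = (u : 𝓞 k) * (p : 𝓞 k) + (v : 𝓞 k) * (q : 𝓞 k) := by
    exact_mod_cast (congrArg (Int.cast : ℤ → 𝓞 k) huv).symm
  rw [h5]
  exact P.add_mem (P.mul_mem_left _ hpP) (P.mul_mem_left _ h3)

/-- the norm of the radicand -/
theorem ex_norm {q : ℕ} (hq : q.Prime)
    (k : Type) [Field k] [NumberField k] [IsCyclotomicExtension {q} ℚ k]
    (z : 𝓞 k) (hz : z ^ q = 1) (b : ℤ) :
    |Algebra.norm ℤ (z * b)| = |b| ^ (q - 1) := by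
  have : NeZero q := ⟨hq.ne_zero⟩
  have hfk : finrank ℚ k = q - 1 := by
    rw [IsCyclotomicExtension.Rat.finrank q k, Nat.totient_prime hq]
  have h1 : IsUnit z := IsUnit.of_pow_eq_one hz hq.ne_zero
  have h2 : |Algebra.norm ℤ z| = 1 := Int.isUnit_iff_abs_eq.1 (h1.map (Algebra.norm ℤ))
  have h3 : Algebra.norm ℤ (b : 𝓞 k) = b ^ (q - 1) := by
    have h3 := Algebra.norm_algebraMap (R := ℤ) (S := 𝓞 k) b
    rw [show (algebraMap ℤ (𝓞 k)) b = (b : 𝓞 k) by simp] at h3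
    rw [h3, RingOfIntegers.rank, hfk]
  rw [map_mul, abs_mul, h2, one_mul, h3, abs_pow]

/-- divisibility form of the discriminant bound -/
theorem ex_discr_dvd {q : ℕ} (hq : q.Prime)
    (k : Type) [Field k] [NumberField k] (a : 𝓞 k)
    (F : Type) [Field F] [NumberField F] [Algebra k F] (t : 𝓞 F)
    (ht : t ^ q = algebraMap (𝓞 k) (𝓞 F) a) (hfin : finrank k F = q)
    (hmin : minpoly k (t : F) = X ^ q - C (a : k))
    (htop : IntermediateField.adjoin k {(t : F)} = ⊤) :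
    discr F ∣ discr k ^ q * q ^ finrank ℚ F * Algebra.norm ℤ a ^ (q - 1) := by
  have hadj : Algebra.adjoin k {algebraMap (𝓞 F) F t} = ⊤ := by
    rw [← IntermediateField.adjoin_simple_toSubalgebra_of_isAlgebraic
      (Algebra.IsAlgebraic.isAlgebraic (R := k) (algebraMap (𝓞 F) F t))]
    have h1 : IntermediateField.adjoin k {algebraMap (𝓞 F) F t} = ⊤ := htop
    rw [h1, IntermediateField.top_toSubalgebra]
  have hmem := aeval_derivative_mem_differentIdeal (𝓞 k) k F t hadj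
  have hmin' : minpoly (𝓞 k) t = X ^ q - C a := by
    have h1 := minpoly.isIntegrallyClosed_eq_field_fractions k F
      (IsIntegralClosure.isIntegral (𝓞 k) F t)
    have h2 : (X ^ q - C a : (𝓞 k)[X]).map (algebraMap (𝓞 k) k) = X ^ q - C (a : k) := by
      rw [Polynomial.map_sub, Polynomial.map_pow, Polynomial.map_X, Polynomial.map_C]
    have h3 : minpoly k (algebraMap (𝓞 F) F t) = X ^ q - C (a : k) := hmin
    rw [h3, ← h2] at h1
    exact (Polynomial.map_injective _ (FaithfulSMul.algebraMap_injective (𝓞 k) k) h1).symm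
  have hval : aeval t (derivative (minpoly (𝓞 k) t)) = (q : 𝓞 F) * t ^ (q - 1) := by
    rw [hmin', derivative_sub, derivative_C, sub_zero, derivative_X_pow, map_mul, aeval_C,
      map_pow, aeval_X, map_natCast]
  rw [hval] at hmem
  have h5 := absNorm_dvd_norm_of_mem hmem
  have hdisc := natAbs_discr_eq_absNorm_differentIdeal_mul_natAbs_discr_pow k (𝓞 k) F (𝓞 F)
  rw [hfin] at hdisc
  have h7 : (Algebra.norm ℤ ((q : 𝓞 F) * t ^ (q - 1))).natAbs =
      q ^ finrank ℚ F * (Algebra.norm ℤ a).natAbs ^ (q - 1) := by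
    rw [map_mul, map_pow, Int.natAbs_mul, Int.natAbs_pow, kum_norm hq k a F t ht hfin,
      Algebra.norm_natCast, RingOfIntegers.rank]
    simp
  have h8 : absNorm (differentIdeal (𝓞 k) (𝓞 F)) ∣ q ^ finrank ℚ F *
      (Algebra.norm ℤ a).natAbs ^ (q - 1) := by
    rw [← h7]
    exact Int.natCast_dvd.1 h5
  rw [← Int.natAbs_dvd_natAbs, hdisc, Int.natAbs_mul, Int.natAbs_mul, Int.natAbs_pow,
    Int.natAbs_pow, Int.natAbs_pow, Int.natAbs_natCast]
  calc absNorm (differentIdeal (𝓞 k) (𝓞 F)) * (discr k).natAbs ^ q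
      ∣ (q ^ finrank ℚ F * (Algebra.norm ℤ a).natAbs ^ (q - 1)) * (discr k).natAbs ^ q :=
        mul_dvd_mul_right h8 _
    _ = _ := by ring

/-- a prime `l` for which `l * c`, `l` prime to `c`, is a unit times a proper power ramifies -/
theorem ex_dvd_discr (F : Type) [Field F] [NumberField F] {l : ℕ} (hl : l.Prime) {q : ℕ}
    (hq2 : 2 ≤ q) (c : ℤ) (hc : ¬ (l : ℤ) ∣ c) (t u : 𝓞 F) (h : ((l * c : ℤ) : 𝓞 F) = u * t ^ q)
    (hu : IsUnit u) : (l : ℤ) ∣ discr F := by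
  have hlu : ¬ IsUnit (l : 𝓞 F) := by
    intro hu
    have h3 := hu.map (Algebra.norm ℤ)
    have h4 := Algebra.norm_algebraMap (R := ℤ) (S := 𝓞 F) (l : ℤ)
    rw [show (algebraMap ℤ (𝓞 F)) (l : ℤ) = (l : 𝓞 F) by simp] at h4
    rw [h4, isUnit_pow_iff finrank_pos.ne'] at h3
    exact (Nat.prime_iff_prime_int.1 hl).not_isUnit h3
  obtain ⟨P, hPmax, hle⟩ := exists_le_maximal (span {(l : 𝓞 F)})
    (by rwa [Ne, span_singleton_eq_top])
  have hlP : (l : 𝓞 F) ∈ P := (span_singleton_le_iff_mem _).1 hle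
  have hlc : ((l * c : ℤ) : 𝓞 F) ∈ P := by
    push_cast
    exact P.mul_mem_right _ hlP
  have htP : t ∈ P := by
    rw [h] at hlc
    rcases hPmax.isPrime.mem_or_mem hlc with h1 | h1
    · exact absurd (P.eq_top_of_isUnit_mem h1 hu) hPmax.ne_top
    · exact hPmax.isPrime.mem_of_pow_mem _ h1
  have hlc2 : ((l * c : ℤ) : 𝓞 F) ∈ P ^ 2 := by
    rw [h]
    refine (P ^ 2).mul_mem_left _ ?_
    exact Ideal.pow_le_pow_right hq2 (Ideal.pow_mem_pow htP q)
  have hlP2 : (l : 𝓞 F) ∈ P ^ 2 := by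
    obtain ⟨x, y, hxy⟩ : IsCoprime (l : ℤ) c :=
      (Nat.prime_iff_prime_int.1 hl).coprime_iff_not_dvd.2 hc
    have h5 : (l : ℤ) = x * (l * l) + y * (l * c) := by
      calc (l : ℤ) = (x * l + y * c) * l := by rw [hxy, one_mul]
        _ = _ := by ring
    have h6 : (l : 𝓞 F) = (x : 𝓞 F) * ((l : 𝓞 F) * (l : 𝓞 F)) + (y : 𝓞 F) * ((l * c : ℤ) : 𝓞 F) := by
      exact_mod_cast (congrArg (Int.cast : ℤ → 𝓞 F) h5)
    rw [h6]
    refine (P ^ 2).add_mem ((P ^ 2).mul_mem_left _ ?_) ((P ^ 2).mul_mem_left _ hlc2)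
    rw [sq]
    exact Ideal.mul_mem_mul hlP hlP
  have hmax : (span {(l : ℤ)}).IsMaximal :=
    PrincipalIdealRing.isMaximal_of_irreducible (Nat.prime_iff_prime_int.1 hl).irreducible
  have hlie : P.LiesOver (span {(l : ℤ)}) := by
    rw [Ideal.liesOver_iff]
    refine hmax.eq_of_le ?_ ?_
    · exact (Ideal.IsPrime.under ℤ P).ne_top
    · rw [span_singleton_le_iff_mem, under_def, mem_comap]
      simpa using hlP
  have h1 : P ^ (2 - 1) ∣ differentIdeal ℤ (𝓞 F) := by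
    refine pow_sub_one_dvd_differentIdeal ℤ (p := span {(l : ℤ)}) P 2 ?_ ?_
    · rw [Ne, span_singleton_eq_bot]
      exact_mod_cast hl.ne_zero
    · rw [dvd_iff_le, map_span, Set.image_singleton, span_singleton_le_iff_mem]
      simpa using hlP2
  rw [show 2 - 1 = 1 from rfl, pow_one] at h1
  have h2 := Ideal.absNorm_dvd_absNorm_of_le (Ideal.dvd_iff_le.mp h1)
  rw [absNorm_differentIdeal F, ← Ideal.pow_inertiaDeg l P] at h2
  rw [← Int.dvd_natAbs]
  exact_mod_cast (dvd_pow_self _ (Ideal.inertiaDeg_pos ..).ne').trans h2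

/-- all data on the field `k((z * b) ^ (1 / q))` -/
theorem ex_data {q p : ℕ} (hq : q.Prime) (hq2 : q ≠ 2) (hp : p.Prime)
    (hprim : orderOf (p : ZMod (q ^ 2)) = q * (q - 1))
    (k : Type) [Field k] [NumberField k] [IsCyclotomicExtension {q} ℚ k]
    (z : 𝓞 k) (hz : IsPrimitiveRoot z q) (b : ℤ) (hb : ¬ (p : ℤ) ∣ b)
    (F : Type) [Field F] [NumberField F] [Algebra k F] (t : F)
    (ht : t ^ q = algebraMap k F ((z * b : 𝓞 k) : k))
    (htop : IntermediateField.adjoin k {t} = ⊤) :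
    finrank k F = q ∧ IsGalois k F ∧
    (∃! P : Ideal (𝓞 F), P.IsPrime ∧ (p : 𝓞 F) ∈ P) ∧
    discr F ∣ discr k ^ q * q ^ (q * (q - 1)) * b ^ ((q - 1) ^ 2) ∧
    (∀ l : ℕ, l.Prime → (l : ℤ) ∣ b → ¬ (l : ℤ) ^ 2 ∣ b → (l : ℤ) ∣ discr F) := by
  have : NeZero q := ⟨hq.ne_zero⟩
  have hord := ex_order hq hprim
  have h2q : 2 < q := lt_of_le_of_ne hq.two_le (Ne.symm hq2)
  have hpq : p ≠ q := by
    rintro rfl
    have : Fact p.Prime := ⟨hp⟩
    rw [ZMod.natCast_self, orderOf_eq_zero] at hord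
    · omega
    · intro h0
      rw [isOfFinOrder_iff_pow_eq_one] at h0
      obtain ⟨n, hn, h0⟩ := h0
      rw [zero_pow hn.ne'] at h0
      exact zero_ne_one h0
  have ha := ex_not_pow hq hq2 hp hprim k z hz b hb
  obtain ⟨h1, h2, -, h3, -, -, -⟩ := kummer_data hq hq2 hp hpq hord k (z * b) ha F t ht htop
  have ha' : ∀ x : k, x ^ q ≠ ((z * b : 𝓞 k) : k) := by
    intro x hx
    have hxint : IsIntegral ℤ x := by
      refine IsIntegral.of_pow hq.pos ?_
      rw [hx]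
      exact RingOfIntegers.isIntegral_coe _
    let x' : 𝓞 k := ⟨x, hxint⟩
    have h0 : x' ^ q = z * b := RingOfIntegers.ext hx
    apply ha x'
    rw [h0, sub_self]
    exact dvd_zero _
  obtain ⟨-, -, hmin⟩ := kum_galois hq k _ ha' F t ht htop
  have hfk : finrank ℚ k = q - 1 := by
    rw [IsCyclotomicExtension.Rat.finrank q k, Nat.totient_prime hq]
  have hfF : finrank ℚ F = q * (q - 1) := by
    rw [← Module.finrank_mul_finrank ℚ k F, hfk, h1, mul_comm]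
  have htint : IsIntegral ℤ t := by
    refine IsIntegral.of_pow hq.pos ?_
    rw [ht]
    exact (RingOfIntegers.isIntegral_coe _).algebraMap
  set t' : 𝓞 F := ⟨t, htint⟩ with ht'
  have htq : t' ^ q = algebraMap (𝓞 k) (𝓞 F) (z * b) := by
    apply RingOfIntegers.ext
    exact ht
  refine ⟨h1, h2, h3, ?_, ?_⟩
  · have h4 := ex_discr_dvd hq k (z * b) F t' htq h1 hmin htop
    rw [hfF] at h4
    refine h4.trans (mul_dvd_mul_left _ ?_)
    have h5 : (Algebra.norm ℤ (z * b : 𝓞 k)) ^ (q - 1) ∣ (b ^ (q - 1)) ^ (q - 1) := by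
      refine pow_dvd_pow_of_dvd ?_ _
      rw [← abs_dvd, ex_norm hq k z hz.pow_eq_one b, ← abs_pow, abs_dvd]
    rwa [← pow_mul, ← sq] at h5
  · intro l hl hlb hlb2
    obtain ⟨c, rfl⟩ := hlb
    have hc : ¬ (l : ℤ) ∣ c := by
      intro h
      apply hlb2
      rw [sq]
      exact mul_dvd_mul_left _ h
    have hzu : IsUnit z := IsUnit.of_pow_eq_one hz.pow_eq_one hq.ne_zero
    obtain ⟨w, hw⟩ := hzu.map (algebraMap (𝓞 k) (𝓞 F))
    refine ex_dvd_discr F hl hq.two_le c hc t' ((w⁻¹ : (𝓞 F)ˣ) : 𝓞 F) ?_ (w⁻¹).isUnit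
    rw [htq, map_mul, ← hw, map_intCast, Units.inv_mul_cancel_left]

/-- the fields `k((z * b) ^ (1 / q))`, `k((z * b') ^ (1 / q))` are not isomorphic when some prime
`l ≠ q` divides `b` exactly once and does not divide `b'` -/
theorem ex_not_iso {q p : ℕ} (hq : q.Prime) (hq2 : q ≠ 2) (hp : p.Prime)
    (hprim : orderOf (p : ZMod (q ^ 2)) = q * (q - 1))
    (k : Type) [Field k] [NumberField k] [IsCyclotomicExtension {q} ℚ k]
    (z : 𝓞 k) (hz : IsPrimitiveRoot z q) (b b' : ℤ) (hb : ¬ (p : ℤ) ∣ b) (hb' : ¬ (p : ℤ) ∣ b')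
    (l : ℕ) (hl : l.Prime) (hlq : l ≠ q) (hlb : (l : ℤ) ∣ b) (hlb2 : ¬ (l : ℤ) ^ 2 ∣ b)
    (hlb' : ¬ (l : ℤ) ∣ b')
    (F : Type) [Field F] [NumberField F] [Algebra k F] (t : F)
    (ht : t ^ q = algebraMap k F ((z * b : 𝓞 k) : k))
    (htop : IntermediateField.adjoin k {t} = ⊤)
    (F' : Type) [Field F'] [NumberField F'] [Algebra k F'] (t' : F')
    (ht' : t' ^ q = algebraMap k F' ((z * b' : 𝓞 k) : k))
    (htop' : IntermediateField.adjoin k {t'} = ⊤) : IsEmpty (F ≃+* F') := by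
  refine ⟨fun e => ?_⟩
  have hqf : Fact q.Prime := ⟨hq⟩
  obtain ⟨-, -, -, -, h1⟩ := ex_data hq hq2 hp hprim k z hz b hb F t ht htop
  obtain ⟨-, -, -, h2, -⟩ := ex_data hq hq2 hp hprim k z hz b' hb' F' t' ht' htop'
  have h3 := h1 l hl hlb hlb2
  rw [discr_eq_discr_of_ringEquiv F e] at h3
  have h4 := h3.trans h2
  have hlp : Prime (l : ℤ) := Nat.prime_iff_prime_int.1 hl
  have hlq' : ¬ (l : ℤ) ∣ (q : ℤ) := by
    intro h
    exact hlq ((Nat.prime_dvd_prime_iff_eq hl hq).1 (by exact_mod_cast h))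
  rcases hlp.dvd_or_dvd h4 with h5 | h5
  · rcases hlp.dvd_or_dvd h5 with h6 | h6
    · have h7 := hlp.dvd_of_dvd_pow h6
      have h8 := IsCyclotomicExtension.Rat.discr_prime q k
      rw [h8] at h7
      rcases hlp.dvd_or_dvd h7 with h9 | h9
      · have h10 : IsUnit (((-1 : ℤ)) ^ ((q - 1) / 2)) := (isUnit_one.neg).pow _
        exact hlp.not_isUnit (isUnit_of_dvd_unit h9 h10)
      · exact hlq' (hlp.dvd_of_dvd_pow h9)
    · exact hlq' (hlp.dvd_of_dvd_pow h6)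
  · exact hlb' (hlp.dvd_of_dvd_pow h5)

/-- the fields `k((z * b) ^ (1 / q))`, `b` squarefree and prime to `q`, are pairwise not
isomorphic -/
theorem ex_not_iso_squarefree {q p : ℕ} (hq : q.Prime) (hq2 : q ≠ 2) (hp : p.Prime)
    (hprim : orderOf (p : ZMod (q ^ 2)) = q * (q - 1))
    (k : Type) [Field k] [NumberField k] [IsCyclotomicExtension {q} ℚ k]
    (z : 𝓞 k) (hz : IsPrimitiveRoot z q) (b b' : ℕ) (hb : ¬ p ∣ b) (hb' : ¬ p ∣ b')
    (hbs : Squarefree b) (hbs' : Squarefree b') (hbq : ¬ q ∣ b) (hbq' : ¬ q ∣ b') (hne : b ≠ b')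
    (F : Type) [Field F] [NumberField F] [Algebra k F] (t : F)
    (ht : t ^ q = algebraMap k F ((z * b : 𝓞 k) : k))
    (htop : IntermediateField.adjoin k {t} = ⊤)
    (F' : Type) [Field F'] [NumberField F'] [Algebra k F'] (t' : F')
    (ht' : t' ^ q = algebraMap k F' ((z * b' : 𝓞 k) : k))
    (htop' : IntermediateField.adjoin k {t'} = ⊤) : IsEmpty (F ≃+* F') := by
  have key : ∀ b b' : ℕ, Squarefree b → Squarefree b' → (∀ l : ℕ, l.Prime → l ∣ b → l ∣ b') →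
      b ∣ b' := by
    intro b b' hbs _ h
    rw [← Nat.prod_primeFactors_of_squarefree hbs]
    exact Finset.prod_primes_dvd b' (fun l hl => (Nat.prime_of_mem_primeFactors hl).prime)
      (fun l hl => h l (Nat.prime_of_mem_primeFactors hl) (Nat.dvd_of_mem_primeFactors hl))
  by_cases h1 : ∀ l : ℕ, l.Prime → l ∣ b → l ∣ b'
  · by_cases h2 : ∀ l : ℕ, l.Prime → l ∣ b' → l ∣ b
    · exact absurd (Nat.dvd_antisymm (key b b' hbs hbs' h1) (key b' b hbs' hbs h2)) hne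
    · push Not at h2
      obtain ⟨l, hl, hlb', hlb⟩ := h2
      have h3 := ex_not_iso hq hq2 hp hprim k z hz b' b (by exact_mod_cast hb')
        (by exact_mod_cast hb) l hl (by rintro rfl; exact hbq' hlb') (by exact_mod_cast hlb')
        (by
          intro h
          have h4 : l * l ∣ b' := by
            rw [← sq]
            exact_mod_cast h
          exact hl.ne_one (Nat.isUnit_iff.1 (hbs' l h4)))
        (by exact_mod_cast hlb) F' t' (by simpa using ht') htop' F t (by simpa using ht) htop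
      exact ⟨fun e => h3.false e.symm⟩
  · push Not at h1
    obtain ⟨l, hl, hlb, hlb'⟩ := h1
    exact ex_not_iso hq hq2 hp hprim k z hz b b' (by exact_mod_cast hb)
      (by exact_mod_cast hb') l hl (by rintro rfl; exact hbq hlb) (by exact_mod_cast hlb)
      (by
        intro h
        have h4 : l * l ∣ b := by
          rw [← sq]
          exact_mod_cast h
        exact hl.ne_one (Nat.isUnit_iff.1 (hbs l h4)))
      (by exact_mod_cast hlb') F t (by simpa using ht) htop F' t' (by simpa using ht') htop'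

end Pool.Agent.Work.MuY
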