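import Pool.Agent.Work.MP_a4986b_nt.YKumP
import Pool.Agent.Work.MP_a4986b_nt.YEx

/-! Explicit Kummer extensions of degree `q ^ j`: the radicand `z * b`, `z` a primitive
`q ^ j`-th root of unity. -/

set_option autoImplicit false

namespace Pool.Agent.Work.MuY

open NumberField Module Polynomial Ideal

/-- a primitive root modulo `q ^ 2` is one modulo every power -/
theorem exp_order {q p : ℕ} (hq : q.Prime) (hq2 : q ≠ 2) (hp : p.Prime)
    (hprim : orderOf (p : ZMod (q ^ 2)) = q * (q - 1)) {j : ℕ} (hj : j ≠ 0) :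
    orderOf (p : ZMod (q ^ j)) = Nat.totient (q ^ j) := by
  have hqf : Fact q.Prime := ⟨hq⟩
  obtain ⟨n, rfl⟩ := Nat.exists_eq_succ_of_ne_zero hj
  have hord := ex_order hq hprim
  have hq1 : q - 1 ≠ 0 := Nat.sub_ne_zero_of_lt hq.one_lt
  have h1 : (p : ZMod q) ^ (q - 1) = 1 := by
    rw [← hord]
    exact pow_orderOf_eq_one _
  have h2 : q ∣ p ^ (q - 1) - 1 := by
    rw [← ZMod.natCast_eq_zero_iff, Nat.cast_sub (Nat.one_le_pow _ _ hp.pos)]
    push_cast
    rw [h1, sub_self]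
  obtain ⟨u, hu⟩ := h2
  have hpu : p ^ (q - 1) = 1 + q * u := by
    have := Nat.one_le_pow (q - 1) p hp.pos
    omega
  have hqu : ¬ (q : ℤ) ∣ (u : ℤ) := by
    intro h
    have h3 : q ∣ u := by exact_mod_cast h
    obtain ⟨c, rfl⟩ := h3
    apply ex_sq_not_dvd hq hp hprim
    rw [hu]
    exact ⟨c, by ring⟩
  have h4 : orderOf ((p : ZMod (q ^ (n + 1))) ^ (q - 1)) = q ^ n := by
    rw [← ZMod.orderOf_one_add_mul_prime hq hq2 (u : ℤ) hqu n]
    congr 1
    have : ((p ^ (q - 1) : ℕ) : ZMod (q ^ (n + 1))) = ((1 + q * u : ℕ) : ZMod (q ^ (n + 1))) := by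
      rw [hpu]
    push_cast at this ⊢
    exact this
  have h5 : q - 1 ∣ orderOf (p : ZMod (q ^ (n + 1))) := by
    rw [← hord, orderOf_dvd_iff_pow_eq_one]
    have h6 := congrArg (ZMod.castHom (dvd_pow_self q (Nat.succ_ne_zero n)) (ZMod q))
      (pow_orderOf_eq_one (p : ZMod (q ^ (n + 1))))
    rw [map_pow, map_natCast, map_one] at h6
    exact h6
  have h7 := orderOf_pow_of_dvd hq1 h5
  rw [h4] at h7
  rw [Nat.succ_eq_add_one, Nat.totient_prime_pow_succ hq, h7, Nat.div_mul_cancel h5]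

/-- the exponent `M = (p ^ φ(q ^ j) - 1) / q` -/
theorem exp_exponent {q p : ℕ} (hq : q.Prime) (hq2 : q ≠ 2) (hp : p.Prime)
    (hprim : orderOf (p : ZMod (q ^ 2)) = q * (q - 1)) {j : ℕ} (hj : j ≠ 0) :
    ∃ M : ℕ, p ^ (Nat.totient (q ^ j)) - 1 = q * M ∧ p - 1 ∣ M ∧ ¬ q ^ j ∣ M := by
  have hqf : Fact q.Prime := ⟨hq⟩
  have hord := ex_order hq hprim
  have h2q : 2 < q := lt_of_le_of_ne hq.two_le (Ne.symm hq2)
  have hdiv : q - 1 ∣ Nat.totient (q ^ j) := by
    obtain ⟨n, rfl⟩ := Nat.exists_eq_succ_of_ne_zero hj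
    rw [Nat.succ_eq_add_one, Nat.totient_prime_pow_succ hq]
    exact dvd_mul_left _ _
  have h1 : (p : ZMod q) ^ (Nat.totient (q ^ j)) = 1 := by
    rw [← orderOf_dvd_iff_pow_eq_one, hord]
    exact hdiv
  have h2 : q ∣ p ^ (Nat.totient (q ^ j)) - 1 := by
    rw [← ZMod.natCast_eq_zero_iff, Nat.cast_sub (Nat.one_le_pow _ _ hp.pos)]
    push_cast
    rw [h1, sub_self]
  have h3 : p - 1 ∣ p ^ (Nat.totient (q ^ j)) - 1 := by
    simpa using Nat.sub_dvd_pow_sub_pow p 1 (Nat.totient (q ^ j))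
  have h4 : ¬ q ∣ p - 1 := by
    intro h
    rw [← ZMod.natCast_eq_zero_iff, Nat.cast_sub hp.one_lt.le] at h
    push_cast at h
    have h5 : (p : ZMod q) = 1 := sub_eq_zero.1 h
    rw [h5, orderOf_one] at hord
    omega
  obtain ⟨N, hN⟩ := h3
  have h5 : q ∣ N := by
    rw [hN] at h2
    exact (hq.dvd_mul.1 h2).resolve_left h4
  obtain ⟨N', rfl⟩ := h5
  refine ⟨(p - 1) * N', by rw [hN]; ring, dvd_mul_right _ _, ?_⟩
  intro h
  obtain ⟨c, hc⟩ := h
  have h6 : q ^ (j + 1) ∣ p ^ (Nat.totient (q ^ j)) - 1 := by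
    rw [hN]
    exact ⟨c, by
      calc (p - 1) * (q * N') = q * ((p - 1) * N') := by ring
        _ = q * (q ^ j * c) := by rw [hc]
        _ = q ^ (j + 1) * c := by ring⟩
  have h7 : (p : ZMod (q ^ (j + 1))) ^ (Nat.totient (q ^ j)) = 1 := by
    have h8 := (ZMod.natCast_eq_zero_iff (p ^ (Nat.totient (q ^ j)) - 1) (q ^ (j + 1))).2 h6
    rw [Nat.cast_sub (Nat.one_le_pow _ _ hp.pos)] at h8
    push_cast at h8
    exact sub_eq_zero.1 h8
  have h8 := orderOf_dvd_of_pow_eq_one h7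
  rw [exp_order hq hq2 hp hprim (Nat.succ_ne_zero j)] at h8
  obtain ⟨n, rfl⟩ := Nat.exists_eq_succ_of_ne_zero hj
  rw [Nat.succ_eq_add_one, Nat.totient_prime_pow_succ hq, Nat.totient_prime_pow_succ hq] at h8
  have hpos : 0 < q ^ n * (q - 1) := Nat.mul_pos (pow_pos hq.pos _) (by omega)
  have h9 := Nat.le_of_dvd hpos h8
  rw [pow_succ] at h9
  have h10 : 0 < q ^ n * (q - 1) := hpos
  nlinarith

/-- `z * b` is not a `q`-th power modulo `p` -/
theorem exp_not_pow {q p : ℕ} (hq : q.Prime) (hq2 : q ≠ 2) (hp : p.Prime)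
    (hprim : orderOf (p : ZMod (q ^ 2)) = q * (q - 1)) {j : ℕ} (hj : j ≠ 0)
    (k : Type) [Field k] [NumberField k] [IsCyclotomicExtension {q ^ j} ℚ k]
    (z : 𝓞 k) (hz : IsPrimitiveRoot z (q ^ j)) (b : ℤ) (hb : ¬ (p : ℤ) ∣ b) (x : 𝓞 k) :
    ¬ (p : 𝓞 k) ∣ x ^ q - z * b := by
  have hqf : Fact q.Prime := ⟨hq⟩
  have hpf : Fact p.Prime := ⟨hp⟩
  have hn : q ^ j ≠ 0 := (pow_pos hq.pos _).ne'
  have : NeZero (q ^ j) := ⟨hn⟩
  have hord := ex_order hq hprim
  have hordj := exp_order hq hq2 hp hprim hj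
  have h2q : 2 < q := lt_of_le_of_ne hq.two_le (Ne.symm hq2)
  have hpq : p ≠ q := by
    rintro rfl
    rw [ZMod.natCast_self, orderOf_eq_zero] at hord
    · omega
    · intro h0
      rw [isOfFinOrder_iff_pow_eq_one] at h0
      obtain ⟨n, hn, h0⟩ := h0
      rw [zero_pow hn.ne'] at h0
      exact zero_ne_one h0
  have hpn : ¬ p ∣ q ^ j := by
    intro h
    exact hpq ((Nat.prime_dvd_prime_iff_eq hp hq).1 (hp.dvd_of_dvd_pow h))
  have hfk : finrank ℚ k = Nat.totient (q ^ j) := IsCyclotomicExtension.Rat.finrank (q ^ j) k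
  obtain ⟨M, hM, hpM, hqM⟩ := exp_exponent hq hq2 hp hprim hj
  obtain ⟨P, ⟨hP, hpP⟩, -⟩ := existsUnique_of_inertiaDeg_ge (K := k) hp fun P hP hpP => by
    rw [cycn_inertiaDeg hn hp hpn k P hP hpP, hfk, hordj]
  have hPs := eq_span_of_inertiaDeg_ge hp P hP hpP
    (by rw [cycn_inertiaDeg hn hp hpn k P hP hpP, hfk, hordj])
  have hP0 : P ≠ ⊥ := by
    rintro rfl
    have h1 : (p : 𝓞 k) = 0 := hpP
    exact hp.ne_zero (by exact_mod_cast h1)
  have hPmax : P.IsMaximal := hP.isMaximal hP0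
  let : Field (𝓞 k ⧸ P) := Quotient.field _
  have : Finite (𝓞 k ⧸ P) := Ring.HasFiniteQuotients.finiteQuotient hP0
  have hcard : Nat.card (𝓞 k ⧸ P) = p ^ (Nat.totient (q ^ j)) := by
    have h1 : absNorm P = p ^ finrank ℚ k := by
      rw [hPs, absNorm_span_singleton]
      have h3 := Algebra.norm_algebraMap (R := ℤ) (S := 𝓞 k) (p : ℤ)
      rw [show (algebraMap ℤ (𝓞 k)) (p : ℤ) = (p : 𝓞 k) by simp] at h3
      rw [h3, RingOfIntegers.rank]
      simp
    rw [hfk] at h1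
    exact h1
  intro hx
  have hx1 : (Ideal.Quotient.mk P x) ^ q = Ideal.Quotient.mk P z * (b : 𝓞 k ⧸ P) := by
    have h1 : x ^ q - z * b ∈ P := by
      rw [hPs]
      exact mem_span_singleton.2 hx
    have h2 := Ideal.Quotient.eq.2 h1
    rw [map_pow, map_mul, map_intCast] at h2
    exact h2
  have hbP : (b : 𝓞 k ⧸ P) ^ (p - 1) = 1 := by
    have h1 : b ^ (p - 1) ≡ 1 [ZMOD p] := Int.ModEq.pow_card_sub_one_eq_one hp
      ((Int.isCoprime_iff_gcd_eq_one.2 (by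
        rw [Int.gcd_comm]
        exact (Int.isCoprime_iff_gcd_eq_one.1 ((Nat.prime_iff_prime_int.1 hp).coprime_iff_not_dvd.2
          hb)))))
    have h2 : (p : ℤ) ∣ b ^ (p - 1) - 1 := h1.symm.dvd
    obtain ⟨c, hc⟩ := h2
    have h3 : ((b ^ (p - 1) - 1 : ℤ) : 𝓞 k ⧸ P) = 0 := by
      rw [hc]
      have h4 : ((p : ℤ) : 𝓞 k ⧸ P) = 0 := by
        have : (Ideal.Quotient.mk P (p : 𝓞 k)) = 0 := Ideal.Quotient.eq_zero_iff_mem.2 hpP
        rw [map_natCast] at this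
        exact_mod_cast this
      push_cast at h4 ⊢
      rw [h4, zero_mul]
    push_cast at h3
    exact sub_eq_zero.1 h3
  have hb0 : (b : 𝓞 k ⧸ P) ≠ 0 := by
    intro h
    rw [h, zero_pow (Nat.sub_ne_zero_of_lt hp.one_lt)] at hbP
    exact zero_ne_one hbP
  have hz0 : Ideal.Quotient.mk P z ≠ 0 := by
    intro h
    have h1 : (Ideal.Quotient.mk P z) ^ (q ^ j) = 1 := by rw [← map_pow, hz.pow_eq_one, map_one]
    rw [h, zero_pow hn] at h1
    exact zero_ne_one h1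
  have hx0 : Ideal.Quotient.mk P x ≠ 0 := by
    intro h
    rw [h, zero_pow hq.ne_zero] at hx1
    exact mul_ne_zero hz0 hb0 hx1.symm
  have hx2 : (Ideal.Quotient.mk P x) ^ (q * M) = 1 := by
    have : Fintype (𝓞 k ⧸ P) := Fintype.ofFinite _
    rw [← hM, ← hcard, Nat.card_eq_fintype_card]
    exact FiniteField.pow_card_sub_one_eq_one _ hx0
  have hzM : (Ideal.Quotient.mk P z) ^ M = 1 := by
    obtain ⟨c, hc⟩ := hpM
    have hbM : (b : 𝓞 k ⧸ P) ^ M = 1 := by rw [hc, pow_mul, hbP, one_pow]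
    rw [pow_mul, hx1, mul_pow, hbM, mul_one] at hx2
    exact hx2
  -- a power of `z ^ M` is a primitive `q`-th root of unity
  have h10 : orderOf (z ^ M) ∣ q ^ j := by
    rw [orderOf_dvd_iff_pow_eq_one, ← pow_mul, mul_comm, pow_mul, hz.pow_eq_one, one_pow]
  obtain ⟨i, hij, hi⟩ := (Nat.dvd_prime_pow hq).1 h10
  have hi1 : i ≠ 0 := by
    rintro rfl
    rw [pow_zero, orderOf_eq_one_iff] at hi
    exact hqM (hz.dvd_of_pow_eq_one M hi)
  obtain ⟨i', rfl⟩ := Nat.exists_eq_succ_of_ne_zero hi1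
  have hzM' : IsPrimitiveRoot ((z ^ M) ^ (q ^ i')) q := by
    have h11 : IsPrimitiveRoot (z ^ M) (q ^ (i' + 1)) := by
      rw [← Nat.succ_eq_add_one, ← hi]
      exact IsPrimitiveRoot.orderOf _
    exact h11.pow (pow_pos hq.pos _) (pow_succ q i')
  have h3 : (q : 𝓞 k) ∈ P := by
    rw [← Ideal.Quotient.eq_zero_iff_mem]
    have h1 := congrArg (Ideal.Quotient.mk P) (hzM'.geom_sum_eq_zero hq.one_lt)
    rw [map_sum, map_zero] at h1
    rw [map_natCast, ← h1]
    have h2 : ∀ i ∈ Finset.range q, Ideal.Quotient.mk P (((z ^ M) ^ (q ^ i')) ^ i) = 1 :=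
      fun i _ => by rw [map_pow, map_pow, map_pow, hzM, one_pow, one_pow]
    rw [Finset.sum_congr rfl h2]
    simp
  apply hP.ne_top
  rw [eq_top_iff_one]
  have h4 : IsCoprime (p : ℤ) (q : ℤ) := Nat.isCoprime_iff_coprime.2
    ((Nat.coprime_primes hp hq).2 hpq)
  obtain ⟨u, v, huv⟩ := h4
  have h5 : (1 : 𝓞 k) = (u : 𝓞 k) * (p : 𝓞 k) + (v : 𝓞 k) * (q : 𝓞 k) := by
    exact_mod_cast (congrArg (Int.cast : ℤ → 𝓞 k) huv).symm
  rw [h5]
  exact P.add_mem (P.mul_mem_left _ hpP) (P.mul_mem_left _ h3)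

/-- the norm of the radicand -/
theorem exp_norm {n : ℕ} (hn : n ≠ 0)
    (k : Type) [Field k] [NumberField k] [IsCyclotomicExtension {n} ℚ k]
    (z : 𝓞 k) (hz : z ^ n = 1) (b : ℤ) :
    |Algebra.norm ℤ (z * b)| = |b| ^ Nat.totient n := by
  have : NeZero n := ⟨hn⟩
  have hfk : finrank ℚ k = Nat.totient n := IsCyclotomicExtension.Rat.finrank n k
  have h1 : IsUnit z := IsUnit.of_pow_eq_one hz hn
  have h2 : |Algebra.norm ℤ z| = 1 := Int.isUnit_iff_abs_eq.1 (h1.map (Algebra.norm ℤ))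
  have h3 : Algebra.norm ℤ (b : 𝓞 k) = b ^ Nat.totient n := by
    have h3 := Algebra.norm_algebraMap (R := ℤ) (S := 𝓞 k) b
    rw [show (algebraMap ℤ (𝓞 k)) b = (b : 𝓞 k) by simp] at h3
    rw [h3, RingOfIntegers.rank, hfk]
  rw [map_mul, abs_mul, h2, one_mul, h3, abs_pow]

theorem exp_ne {q p : ℕ} (hq : q.Prime) (hq2 : q ≠ 2) (hp : p.Prime)
    (hprim : orderOf (p : ZMod (q ^ 2)) = q * (q - 1)) : p ≠ q := by
  have h2q : 2 < q := lt_of_le_of_ne hq.two_le (Ne.symm hq2)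
  have hord := ex_order hq hprim
  rintro rfl
  have : Fact p.Prime := ⟨hp⟩
  rw [ZMod.natCast_self, orderOf_eq_zero] at hord
  · omega
  · intro h0
    rw [isOfFinOrder_iff_pow_eq_one] at h0
    obtain ⟨n, hn, h0⟩ := h0
    rw [zero_pow hn.ne'] at h0
    exact zero_ne_one h0

/-- all data on the field `k((z * b) ^ (1 / q ^ j))` -/
theorem exp_data {q p : ℕ} (hq : q.Prime) (hq2 : q ≠ 2) (hp : p.Prime)
    (hprim : orderOf (p : ZMod (q ^ 2)) = q * (q - 1)) {j : ℕ} (hj : j ≠ 0)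
    (k : Type) [Field k] [NumberField k] [IsCyclotomicExtension {q ^ j} ℚ k]
    (z : 𝓞 k) (hz : IsPrimitiveRoot z (q ^ j)) (b : ℤ) (hb : ¬ (p : ℤ) ∣ b)
    (F : Type) [Field F] [NumberField F] [Algebra k F] (t : F)
    (ht : t ^ q ^ j = algebraMap k F ((z * b : 𝓞 k) : k))
    (htop : IntermediateField.adjoin k {t} = ⊤) :
    finrank ℚ F = q ^ j * Nat.totient (q ^ j) ∧
    (∀ l : ℕ, l.Prime → (l : ℤ) ∣ discr F → l ≠ q → (l : ℤ) ∣ b) ∧
    (∀ l : ℕ, l.Prime → (l : ℤ) ∣ b → ¬ (l : ℤ) ^ 2 ∣ b → (l : ℤ) ∣ discr F) := by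
  have hqf : Fact q.Prime := ⟨hq⟩
  have hn : q ^ j ≠ 0 := (pow_pos hq.pos _).ne'
  have : NeZero (q ^ j) := ⟨hn⟩
  have hordj := exp_order hq hq2 hp hprim hj
  have hpq := exp_ne hq hq2 hp hprim
  have ha := exp_not_pow hq hq2 hp hprim hj k z hz b hb
  obtain ⟨h1, h2, -, -, h3, -, -⟩ :=
    kummer_pow_data hq hq2 hj hp hpq hordj k (z * b) ha F t ht htop
  have ha' : ∀ x : k, x ^ q ≠ ((z * b : 𝓞 k) : k) := by
    intro x hx
    have hxint : IsIntegral ℤ x := by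
      refine IsIntegral.of_pow hq.pos ?_
      rw [hx]
      exact RingOfIntegers.isIntegral_coe _
    let x' : 𝓞 k := ⟨x, hxint⟩
    have h0 : x' ^ q = z * b := RingOfIntegers.ext hx
    apply ha x'
    rw [h0, sub_self]
    exact dvd_zero _
  have hζ : (primitiveRoots (q ^ j) k).Nonempty :=
    ⟨IsCyclotomicExtension.zeta (q ^ j) ℚ k, (mem_primitiveRoots (Nat.pos_of_ne_zero hn)).2
      (IsCyclotomicExtension.zeta_spec (q ^ j) ℚ k)⟩
  obtain ⟨-, -, -, hmin⟩ := kump_galois hq hq2 k hζ _ ha' F t ht htop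
  have hfk : finrank ℚ k = Nat.totient (q ^ j) := IsCyclotomicExtension.Rat.finrank (q ^ j) k
  have hfF : finrank ℚ F = q ^ j * Nat.totient (q ^ j) := by
    rw [← Module.finrank_mul_finrank ℚ k F, hfk, h1, mul_comm]
  have htint : IsIntegral ℤ t := by
    refine IsIntegral.of_pow (Nat.pos_of_ne_zero hn) ?_
    rw [ht]
    exact (RingOfIntegers.isIntegral_coe _).algebraMap
  set t' : 𝓞 F := ⟨t, htint⟩ with ht'
  have htq : t' ^ q ^ j = algebraMap (𝓞 k) (𝓞 F) (z * b) := by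
    apply RingOfIntegers.ext
    exact ht
  refine ⟨hfF, ?_, ?_⟩
  · intro l hl hld hlq
    have h4 := kump_discr_dvd hn k (z * b) F t' htq h1 hmin htop
    have h5 : l ∣ (discr F).natAbs := Int.natCast_dvd.1 hld
    have hlq' : ¬ l ∣ q ^ j := fun h =>
      hlq ((Nat.prime_dvd_prime_iff_eq hl hq).1 (hl.dvd_of_dvd_pow h))
    rcases (Nat.Prime.dvd_mul hl).1 (h5.trans h4) with h6 | h6
    · rcases (Nat.Prime.dvd_mul hl).1 h6 with h7 | h7
      · exfalso
        have h8 := hl.dvd_of_dvd_pow h7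
        obtain ⟨n, rfl⟩ := Nat.exists_eq_succ_of_ne_zero hj
        have h9 := IsCyclotomicExtension.Rat.discr_prime_pow_succ q n k
        rw [h9, Int.natAbs_mul, Int.natAbs_pow, Int.natAbs_pow, Int.natAbs_neg, Int.natAbs_one,
          one_pow, one_mul, Int.natAbs_natCast] at h8
        exact hlq ((Nat.prime_dvd_prime_iff_eq hl hq).1 (hl.dvd_of_dvd_pow h8))
      · exact absurd (hl.dvd_of_dvd_pow h7) hlq'
    · have h7 := hl.dvd_of_dvd_pow h6
      have h8 : (l : ℤ) ∣ |Algebra.norm ℤ (z * b : 𝓞 k)| := by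
        rw [dvd_abs]
        exact Int.natCast_dvd.2 h7
      rw [exp_norm hn k z hz.pow_eq_one b] at h8
      have h9 := (Nat.prime_iff_prime_int.1 hl).dvd_of_dvd_pow h8
      rwa [dvd_abs] at h9
  · intro l hl hlb hlb2
    obtain ⟨c, rfl⟩ := hlb
    have hc : ¬ (l : ℤ) ∣ c := by
      intro h
      apply hlb2
      rw [sq]
      exact mul_dvd_mul_left _ h
    have hzu : IsUnit z := IsUnit.of_pow_eq_one hz.pow_eq_one hn
    obtain ⟨w, hw⟩ := hzu.map (algebraMap (𝓞 k) (𝓞 F))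
    refine ex_dvd_discr F hl (q := q ^ j) ?_ c hc t' ((w⁻¹ : (𝓞 F)ˣ) : 𝓞 F) ?_ (w⁻¹).isUnit
    · exact le_trans hq.two_le (Nat.le_self_pow hj q)
    · rw [htq, map_mul, ← hw, map_intCast, Units.inv_mul_cancel_left]

/-- the fields `k((z * b) ^ (1 / q ^ j))`, `k((z * b') ^ (1 / q ^ j))` are not isomorphic when
some prime `l ≠ q` divides `b` exactly once and does not divide `b'` -/
theorem exp_not_iso {q p : ℕ} (hq : q.Prime) (hq2 : q ≠ 2) (hp : p.Prime)
    (hprim : orderOf (p : ZMod (q ^ 2)) = q * (q - 1)) {j : ℕ} (hj : j ≠ 0)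
    (k : Type) [Field k] [NumberField k] [IsCyclotomicExtension {q ^ j} ℚ k]
    (z : 𝓞 k) (hz : IsPrimitiveRoot z (q ^ j)) (b b' : ℤ)
    (hb : ¬ (p : ℤ) ∣ b) (hb' : ¬ (p : ℤ) ∣ b')
    (l : ℕ) (hl : l.Prime) (hlq : l ≠ q) (hlb : (l : ℤ) ∣ b) (hlb2 : ¬ (l : ℤ) ^ 2 ∣ b)
    (hlb' : ¬ (l : ℤ) ∣ b')
    (F : Type) [Field F] [NumberField F] [Algebra k F] (t : F)
    (ht : t ^ q ^ j = algebraMap k F ((z * b : 𝓞 k) : k))
    (htop : IntermediateField.adjoin k {t} = ⊤)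
    (F' : Type) [Field F'] [NumberField F'] [Algebra k F'] (t' : F')
    (ht' : t' ^ q ^ j = algebraMap k F' ((z * b' : 𝓞 k) : k))
    (htop' : IntermediateField.adjoin k {t'} = ⊤) : IsEmpty (F ≃+* F') := by
  refine ⟨fun e => ?_⟩
  obtain ⟨-, -, h1⟩ := exp_data hq hq2 hp hprim hj k z hz b hb F t ht htop
  obtain ⟨-, h2, -⟩ := exp_data hq hq2 hp hprim hj k z hz b' hb' F' t' ht' htop'
  have h3 := h1 l hl hlb hlb2
  rw [discr_eq_discr_of_ringEquiv F e] at h3
  exact hlb' (h2 l hl h3 hlq)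

/-- the fields `k((z * b) ^ (1 / q ^ j))`, `b` squarefree and prime to `p q`, are pairwise not
isomorphic -/
theorem exp_not_iso_squarefree {q p : ℕ} (hq : q.Prime) (hq2 : q ≠ 2) (hp : p.Prime)
    (hprim : orderOf (p : ZMod (q ^ 2)) = q * (q - 1)) {j : ℕ} (hj : j ≠ 0)
    (k : Type) [Field k] [NumberField k] [IsCyclotomicExtension {q ^ j} ℚ k]
    (z : 𝓞 k) (hz : IsPrimitiveRoot z (q ^ j)) (b b' : ℕ) (hb : ¬ p ∣ b) (hb' : ¬ p ∣ b')
    (hbs : Squarefree b) (hbs' : Squarefree b') (hbq : ¬ q ∣ b) (hbq' : ¬ q ∣ b') (hne : b ≠ b')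
    (F : Type) [Field F] [NumberField F] [Algebra k F] (t : F)
    (ht : t ^ q ^ j = algebraMap k F ((z * b : 𝓞 k) : k))
    (htop : IntermediateField.adjoin k {t} = ⊤)
    (F' : Type) [Field F'] [NumberField F'] [Algebra k F'] (t' : F')
    (ht' : t' ^ q ^ j = algebraMap k F' ((z * b' : 𝓞 k) : k))
    (htop' : IntermediateField.adjoin k {t'} = ⊤) : IsEmpty (F ≃+* F') := by
  have key : ∀ b b' : ℕ, Squarefree b → (∀ l : ℕ, l.Prime → l ∣ b → l ∣ b') → b ∣ b' := by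
    intro b b' hbs h
    rw [← Nat.prod_primeFactors_of_squarefree hbs]
    exact Finset.prod_primes_dvd b' (fun l hl => (Nat.prime_of_mem_primeFactors hl).prime)
      (fun l hl => h l (Nat.prime_of_mem_primeFactors hl) (Nat.dvd_of_mem_primeFactors hl))
  by_cases h1 : ∀ l : ℕ, l.Prime → l ∣ b → l ∣ b'
  · by_cases h2 : ∀ l : ℕ, l.Prime → l ∣ b' → l ∣ b
    · exact absurd (Nat.dvd_antisymm (key b b' hbs h1) (key b' b hbs' h2)) hne
    · push Not at h2
      obtain ⟨l, hl, hlb', hlb⟩ := h2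
      have h3 := exp_not_iso hq hq2 hp hprim hj k z hz b' b (by exact_mod_cast hb')
        (by exact_mod_cast hb) l hl (by rintro rfl; exact hbq' hlb') (by exact_mod_cast hlb')
        (by
          intro h
          have h4 : l * l ∣ b' := by
            rw [← sq]
            exact_mod_cast h
          exact hl.ne_one (Nat.isUnit_iff.1 (hbs' l h4)))
        (by exact_mod_cast hlb) F' t' (by simpa using ht') htop' F t (by simpa using ht) htop
      exact ⟨fun e => h3.false e.symm⟩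
  · push Not at h1
    obtain ⟨l, hl, hlb, hlb'⟩ := h1
    exact exp_not_iso hq hq2 hp hprim hj k z hz b b' (by exact_mod_cast hb)
      (by exact_mod_cast hb') l hl (by rintro rfl; exact hbq hlb) (by exact_mod_cast hlb)
      (by
        intro h
        have h4 : l * l ∣ b := by
          rw [← sq]
          exact_mod_cast h
        exact hl.ne_one (Nat.isUnit_iff.1 (hbs l h4)))
      (by exact_mod_cast hlb') F t (by simpa using ht) htop F' t' (by simpa using ht') htop'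

/-- the field `k((z * b) ^ (1 / q ^ j))` is not a Galois extension of `ℚ` -/
theorem exp_not_galois {q p : ℕ} (hq : q.Prime) (hq2 : q ≠ 2) (hp : p.Prime)
    (hprim : orderOf (p : ZMod (q ^ 2)) = q * (q - 1)) {j : ℕ} (hj : j ≠ 0)
    (k : Type) [Field k] [NumberField k] [IsCyclotomicExtension {q ^ j} ℚ k]
    (z : 𝓞 k) (hz : IsPrimitiveRoot z (q ^ j)) (b : ℕ) (hb : ¬ p ∣ b)
    (hbs : Squarefree b) (hb1 : b ≠ 1) (hbq : ¬ q ∣ b)
    (F : Type) [Field F] [NumberField F] [Algebra k F] (t : F)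
    (ht : t ^ q ^ j = algebraMap k F ((z * b : 𝓞 k) : k))
    (htop : IntermediateField.adjoin k {t} = ⊤) : ¬ IsGalois ℚ F := by
  intro hG
  have hqf : Fact q.Prime := ⟨hq⟩
  have hn : q ^ j ≠ 0 := (pow_pos hq.pos _).ne'
  have hn0 : NeZero (q ^ j) := ⟨hn⟩
  have h2q : 2 < q := lt_of_le_of_ne hq.two_le (Ne.symm hq2)
  have hb0 : b ≠ 0 := by
    rintro rfl
    exact hb (dvd_zero p)
  obtain ⟨hfF, -, hram⟩ := exp_data hq hq2 hp hprim hj k z hz b (by exact_mod_cast hb) F t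
    (by simpa using ht) htop
  -- the root of unity in `F`
  set z' : F := algebraMap k F (z : k) with hz'
  have hzp : IsPrimitiveRoot z' (q ^ j) := by
    have h1 : IsPrimitiveRoot (z : k) (q ^ j) :=
      hz.map_of_injective (f := algebraMap (𝓞 k) k) (FaithfulSMul.algebraMap_injective _ _)
    exact h1.map_of_injective (f := algebraMap k F) (FaithfulSMul.algebraMap_injective _ _)
  have htz : t ^ q ^ j = z' * b := by
    rw [ht, hz']
    have : ((z * b : 𝓞 k) : k) = (z : k) * (b : k) := by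
      simp
    rw [this, map_mul, map_natCast]
  have hz0 : z' ≠ 0 := hzp.ne_zero hn
  have hbF : (b : F) ≠ 0 := by exact_mod_cast hb0
  have ht0 : t ≠ 0 := by
    rintro rfl
    rw [zero_pow hn] at htz
    exact mul_ne_zero hz0 hbF htz.symm
  -- an automorphism squaring `z'`
  obtain ⟨σ, hσ⟩ : ∃ σ : Gal(F/ℚ), σ z' = z' ^ 2 := by
    have hcop : Nat.Coprime 2 (q ^ j) := by
      apply Nat.Coprime.pow_right
      exact (Nat.coprime_primes Nat.prime_two hq).2 (Ne.symm hq2)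
    apply minpoly.exists_algEquiv_of_root' (Algebra.IsAlgebraic.isAlgebraic z')
    rw [← cyclotomic_eq_minpoly_rat hzp (Nat.pos_of_ne_zero hn)]
    have h1 : IsPrimitiveRoot (z' ^ 2) (q ^ j) := hzp.pow_of_coprime 2 hcop
    have h2 : (cyclotomic (q ^ j) F).IsRoot (z' ^ 2) :=
      (isRoot_cyclotomic_iff (n := q ^ j) (R := F)).2 h1
    rw [← map_cyclotomic (q ^ j) (algebraMap ℚ F)] at h2
    rwa [IsRoot.def, eval_map_algebraMap] at h2
  set y : F := σ t / t with hy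
  have hyn : y ^ q ^ j = z' := by
    rw [hy, div_pow, ← map_pow, htz, map_mul, hσ, map_natCast]
    field_simp
  have hyord : IsPrimitiveRoot y (q ^ (2 * j)) := by
    obtain ⟨n, rfl⟩ := Nat.exists_eq_succ_of_ne_zero hj
    have h1 : orderOf y = q ^ ((n + 1) + n + 1) := by
      apply orderOf_eq_prime_pow
      · rw [pow_add, pow_mul, hyn]
        intro h
        have h2 := hzp.dvd_of_pow_eq_one _ h
        have h3 := Nat.le_of_dvd (pow_pos hq.pos _) h2
        exact absurd h3 (not_le.2 (Nat.pow_lt_pow_right hq.one_lt (Nat.lt_succ_self n)))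
      · rw [show n + 1 + n + 1 = (n + 1) + (n + 1) by ring, pow_add, pow_mul, hyn, hzp.pow_eq_one]
    have h2 := IsPrimitiveRoot.orderOf y
    rwa [h1, show n + 1 + n + 1 = 2 * (n + 1) by ring] at h2
  have hn2 : NeZero (q ^ (2 * j)) := ⟨(pow_pos hq.pos _).ne'⟩
  have hcyc := hyord.intermediateField_adjoin_isCyclotomicExtension ℚ
  obtain ⟨n, rfl⟩ : ∃ n, j = n + 1 := ⟨j - 1, by omega⟩
  have hexp : 2 * (n + 1) = (2 * n + 1) + 1 := by ring
  have hcyc2 : IsCyclotomicExtension {q ^ (2 * (n + 1))} ℚ (IntermediateField.adjoin ℚ {y}) := hcyc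
  have hfy : finrank ℚ (IntermediateField.adjoin ℚ {y}) = finrank ℚ F := by
    rw [IsCyclotomicExtension.Rat.finrank (q ^ (2 * (n + 1))) (IntermediateField.adjoin ℚ {y}),
      hfF, hexp, Nat.totient_prime_pow_succ hq, Nat.totient_prime_pow_succ hq]
    ring
  have hytop : IntermediateField.adjoin ℚ {y} = ⊤ := by
    apply IntermediateField.eq_of_le_of_finrank_eq le_top
    rw [hfy, IntermediateField.finrank_top']
  have hd1 : discr (IntermediateField.adjoin ℚ {y}) = discr F := by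
    have e : (IntermediateField.adjoin ℚ {y}) ≃ₐ[ℚ] F :=
      (IntermediateField.equivOfEq hytop).trans IntermediateField.topEquiv
    exact discr_eq_discr_of_algEquiv _ e
  have hcyc' : IsCyclotomicExtension {q ^ ((2 * n + 1) + 1)} ℚ
      (IntermediateField.adjoin ℚ {y}) := by
    rw [← hexp]
    exact hcyc
  have hd2 := IsCyclotomicExtension.Rat.discr_prime_pow_succ q (2 * n + 1)
    (IntermediateField.adjoin ℚ {y})
  rw [hd1] at hd2
  -- a prime dividing `b`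
  obtain ⟨l, hl, hlb⟩ := Nat.exists_prime_and_dvd hb1
  have h3 := hram l hl (by exact_mod_cast hlb) (by
    intro h
    have h4 : l * l ∣ b := by
      rw [← sq]
      exact_mod_cast h
    exact hl.ne_one (Nat.isUnit_iff.1 (hbs l h4)))
  rw [hd2] at h3
  have h5 := Int.natCast_dvd.1 h3
  rw [Int.natAbs_mul, Int.natAbs_pow, Int.natAbs_pow, Int.natAbs_neg, Int.natAbs_one,
    one_pow, one_mul, Int.natAbs_natCast] at h5
  have h6 := (Nat.prime_dvd_prime_iff_eq hl hq).1 (hl.dvd_of_dvd_pow h5)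
  rw [h6] at hlb
  exact hbq hlb

end Pool.Agent.Work.MuY
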