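import Pool.Agent.Work.MP_a4986b_nt.YKumQ
import Pool.Agent.Work.MP_a4986b_nt.YCnt

set_option autoImplicit false
set_option maxHeartbeats 400000
set_option linter.unusedSectionVars false

/-! # Many fields of degree `n φ(n)`, `n = q ^ j` -/

namespace Pool.Agent.Work.MuY

open NumberField Module
open Pool.Agent.Work.MuB Pool.Agent.Work.MuS

/-- many fields -/
theorem many_pow (q j : ℕ) (hq : q.Prime) (hq2 : q ≠ 2) (hj : j ≠ 0) : ∃ c : ℝ, 0 < c ∧
    ∀ p : ℕ, p.Prime → p ≠ 2 → orderOf (p : ZMod (q ^ 2)) = q * (q - 1) →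
      ∀ N : ℕ, (N : ℝ) ^ (q ^ j - 1) ≤ c * (p : ℝ) ^ 2 →
        ManyFields N (fun F _ _ => finrank ℚ F = q ^ j * Nat.totient (q ^ j) ∧ ¬ IsGalois ℚ F ∧
          ((∃! P : Ideal (𝓞 F), P.IsPrime ∧ (p : 𝓞 F) ∈ P) ∧
            ¬ p ∣ Nat.card (ClassGroup (𝓞 F)) ∧ Extensions p F)) := by
  set n := q ^ j with hn
  have hn1 : 1 < n := Nat.one_lt_pow hj hq.one_lt
  have hne : NeZero n := ⟨by omega⟩
  let k : Type := CyclotomicField n ℚ
  have hcyc : IsCyclotomicExtension {q ^ j} ℚ k := CyclotomicField.isCyclotomicExtension n ℚ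
  have hnf : NumberField k := IsCyclotomicExtension.numberField {q ^ j} ℚ k
  obtain ⟨c, hc, h⟩ := kummer_pow q j hq hq2 hj k
  obtain ⟨z, hz⟩ : ∃ z : 𝓞 k, IsPrimitiveRoot z (q ^ j) :=
    ⟨(IsCyclotomicExtension.zeta_spec n ℚ k).toInteger,
      (IsCyclotomicExtension.zeta_spec n ℚ k).toInteger_isPrimitiveRoot⟩
  set c1 : ℝ := min 1 c with hc1
  have hc1pos : 0 < c1 := lt_min one_pos hc
  refine ⟨c1 / 18 ^ (n - 1), by positivity, ?_⟩
  intro p hp hp2 hprim N hN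
  rcases Nat.eq_zero_or_pos N with rfl | hN0
  · exact ⟨fun i => i.elim0, fun i => i.elim0, fun i => i.elim0, fun i => i.elim0,
      fun i => i.elim0⟩
  refine exp_many hq hq2 hp hp2 hprim hj k z hz (9 * (N + 1)) N le_rfl _ ?_
  intro b hb1 hbB hsq hpb hqb F _ _ _ t ht htop
  refine h p hp hp2 (exp_order hq hq2 hp hprim hj) (z * b) ?_ ?_ F t ht htop
  · intro x
    have h1 := exp_not_pow hq hq2 hp hprim hj k z hz (b : ℤ) (by exact_mod_cast hpb) x
    simpa using h1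
  · have h1 := exp_norm (n := n) (by omega) k z hz.pow_eq_one (b : ℤ)
    have h2 : |(Algebra.norm ℤ (z * (b : 𝓞 k)) : ℝ)| = (b : ℝ) ^ Nat.totient n := by
      have h3 : ((|Algebra.norm ℤ (z * ((b : ℤ) : 𝓞 k))| : ℤ) : ℝ) =
          ((|(b : ℤ)| ^ Nat.totient n : ℤ) : ℝ) := by rw [h1]
      push_cast at h3
      rw [Nat.abs_cast] at h3
      exact h3
    rw [h2]
    have hphi : 0 < Nat.totient n := Nat.totient_pos.2 (by omega)
    have hb18 : (b : ℝ) ≤ 18 * N := by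
      have : b ≤ 18 * N := by omega
      exact_mod_cast this
    have h4 : (b : ℝ) ^ (n - 1) ≤ c1 * (p : ℝ) ^ 2 := by
      calc (b : ℝ) ^ (n - 1) ≤ (18 * N : ℝ) ^ (n - 1) := by gcongr
        _ = 18 ^ (n - 1) * (N : ℝ) ^ (n - 1) := mul_pow _ _ _
        _ ≤ 18 ^ (n - 1) * (c1 / 18 ^ (n - 1) * (p : ℝ) ^ 2) := by gcongr
        _ = c1 * (p : ℝ) ^ 2 := by field_simp
    have hlog0 : 0 ≤ Real.log p := Real.log_nonneg (by exact_mod_cast hp.one_lt.le)
    have hL : (1 : ℝ) ≤ (1 + Real.log p) ^ (Nat.totient n ^ 2 - 2 * (n - 1)) :=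
      one_le_pow₀ (by linarith)
    calc ((b : ℝ) ^ Nat.totient n) ^ (n - 1) = ((b : ℝ) ^ (n - 1)) ^ Nat.totient n := by
          rw [← pow_mul, ← pow_mul, mul_comm]
      _ ≤ (c1 * (p : ℝ) ^ 2) ^ Nat.totient n := by gcongr
      _ = c1 ^ Nat.totient n * (p : ℝ) ^ (2 * Nat.totient n) := by rw [mul_pow, ← pow_mul]
      _ ≤ c * (p : ℝ) ^ (2 * Nat.totient n) := by
          gcongr
          calc c1 ^ Nat.totient n ≤ c1 ^ 1 :=
                pow_le_pow_of_le_one hc1pos.le (min_le_left _ _) hphi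
            _ = c1 := pow_one _
            _ ≤ c := min_le_right _ _
      _ ≤ c * (p : ℝ) ^ (2 * Nat.totient n) *
          (1 + Real.log p) ^ (Nat.totient n ^ 2 - 2 * (n - 1)) :=
          le_mul_of_one_le_right (by positivity) hL

end Pool.Agent.Work.MuY
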