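import Pool.Agent.Work.MP_a4986b_nt.Herb70

/-! # Herbrand quotient, the case `p rank M^σ ≤ rank M` -/

set_option autoImplicit false

namespace Pool.Agent.Work.MP_a4986b_nt.Herb

section final

variable {M : Type*} [AddCommGroup M] {p : ℕ}

/-- Herbrand quotient, torsion allowed, second form -/
theorem herb2 [Module.Finite ℤ M] (hp : p.Prime) (σ : AddMonoid.End M) (hσ : σ ^ p = 1) (r : ℕ)
    (D N : AddMonoid.End M) (hD : D = 1 - σ) (hN : N = ∑ i ∈ Finset.range p, σ ^ i)
    (h1 : p * r ≤ Module.finrank ℤ M)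
    (h2 : Module.finrank ℤ (AddMonoidHom.ker D) ≤ r) :
    (AddMonoidHom.range N).relIndex (AddMonoidHom.ker D) ≠ 0 ∧
    (AddMonoidHom.range D).relIndex (AddMonoidHom.ker N) ≠ 0 ∧
      (AddMonoidHom.range N).relIndex (AddMonoidHom.ker D) ≤
        (AddMonoidHom.range D).relIndex (AddMonoidHom.ker N) := by
  have hDN : ∀ x, D (N x) = 0 := by
    intro x
    have h3 : D * N = 0 := by
      rw [hD, hN, mul_neg_geom_sum, hσ, sub_self]
    exact DFunLike.congr_fun h3 x
  have hND : ∀ x, N (D x) = 0 := by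
    intro x
    have h3 : N * D = 0 := by
      rw [hD, hN, geom_sum_mul_neg, hσ, sub_self]
    exact DFunLike.congr_fun h3 x
  have hrD : AddMonoidHom.range D ≤ AddMonoidHom.ker N := by
    rintro _ ⟨x, rfl⟩
    exact hND x
  have hrN : AddMonoidHom.range N ≤ AddMonoidHom.ker D := by
    rintro _ ⟨x, rfl⟩
    exact hDN x
  have hσN : ∀ x, N (σ x) = σ (N x) := by
    intro x
    have h3 : N * σ = σ * N := by
      rw [hN, Finset.sum_mul, Finset.mul_sum]
      refine Finset.sum_congr rfl fun i _ => ?_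
      rw [← pow_succ, ← pow_succ']
    exact DFunLike.congr_fun h3 x
  have hDx : ∀ x, D x = x - σ x := by
    intro x
    rw [hD]; rfl
  have hfixpow : ∀ x, D x = 0 → ∀ i, (σ ^ i) x = x := by
    intro x hx i
    have h3 : σ x = x := by
      rw [hDx, sub_eq_zero] at hx
      exact hx.symm
    induction i with
    | zero => rfl
    | succ i ih =>
      rw [pow_succ]
      show (σ ^ i) (σ x) = x
      rw [h3, ih]
  have hNx : ∀ x, N x = ∑ i ∈ Finset.range p, (σ ^ i) x := by
    intro x
    rw [hN]
    exact AddMonoidHom.finsetSum_apply _ _ _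
  have hNfix : ∀ x, D x = 0 → N x = p • x := by
    intro x hx
    rw [hNx, Finset.sum_congr rfl fun i _ => hfixpow x hx i]
    simp
  -- the kernel of `N`
  set M0 : AddSubgroup M := AddMonoidHom.ker N with hM0
  set F : AddSubgroup M := AddMonoidHom.ker D with hF
  have hmem : ∀ x : M0, σ x.1 ∈ M0 := by
    intro x
    have h3 : N x.1 = 0 := x.2
    show N (σ x.1) = 0
    rw [hσN, h3, map_zero]
  let σ₀ : AddMonoid.End M0 :=
    { toFun := fun x => ⟨σ x.1, hmem x⟩
      map_zero' := by ext; exact map_zero σ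
      map_add' := fun x y => by ext; exact map_add σ _ _ }
  have hpow : ∀ (i : ℕ) (x : M0), ((σ₀ ^ i) x).1 = (σ ^ i) x.1 := by
    intro i
    induction i with
    | zero => intro x; rfl
    | succ i ih =>
      intro x
      rw [pow_succ, pow_succ]
      exact ih (σ₀ x)
  have hsum : ∑ i ∈ Finset.range p, σ₀ ^ i = 0 := by
    apply AddMonoidHom.ext
    intro x
    apply Subtype.ext
    have h3 : ((∑ i ∈ Finset.range p, σ₀ ^ i : AddMonoid.End M0) x) =
        ∑ i ∈ Finset.range p, (σ₀ ^ i) x := AddMonoidHom.finsetSum_apply _ _ _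
    have h4 : ((∑ i ∈ Finset.range p, (σ₀ ^ i) x : M0) : M) =
        ∑ i ∈ Finset.range p, (σ ^ i) x.1 := by
      rw [AddSubgroup.val_finsetSum]
      exact Finset.sum_congr rfl fun i _ => hpow i x
    have h5 : N x.1 = 0 := x.2
    rw [hNx] at h5
    exact (congrArg Subtype.val h3).trans (h4.trans h5)
  -- ranks
  have hfinM0 : Module.Finite ℤ M0 :=
    (inferInstance : Module.Finite ℤ (AddSubgroup.toIntSubmodule M0))
  have hfinF : Module.Finite ℤ F :=
    (inferInstance : Module.Finite ℤ (AddSubgroup.toIntSubmodule F))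
  have hfinR : Module.Finite ℤ (AddMonoidHom.range N) :=
    (inferInstance : Module.Finite ℤ (AddSubgroup.toIntSubmodule (AddMonoidHom.range N)))
  have hrank : Module.finrank ℤ (AddMonoidHom.range N) + Module.finrank ℤ M0 =
      Module.finrank ℤ M := by
    have h3 := (LinearMap.ker (AddMonoidHom.toIntLinearMap N)).finrank_quotient_add_finrank
    rw [(LinearMap.quotKerEquivRange (AddMonoidHom.toIntLinearMap N)).finrank_eq] at h3
    exact h3
  have hrankF : Module.finrank ℤ (AddMonoidHom.range N) ≤ Module.finrank ℤ F :=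
    LinearMap.finrank_le_finrank_of_injective
      (f := (AddSubgroup.inclusion hrN).toIntLinearMap) (AddSubgroup.inclusion_injective hrN)
  have hb : (p - 1) * r ≤ Module.finrank ℤ M0 := by
    have h3 : p * r = (p - 1) * r + r := by
      obtain ⟨q, rfl⟩ : ∃ q, p = q + 1 := ⟨p - 1, (Nat.sub_add_cancel hp.one_le).symm⟩
      rw [Nat.add_sub_cancel]
      ring
    omega
  obtain ⟨hk0, hc0⟩ := ci_one_sub hp σ₀ hsum hb
  -- translation
  have hc1 : eci (1 - σ₀) = (M0.map D).relIndex M0 := by
    have h3 : AddMonoidHom.range (1 - σ₀) = (M0.map D).addSubgroupOf M0 := by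
      ext x
      rw [AddMonoidHom.mem_range, AddSubgroup.mem_addSubgroupOf, AddSubgroup.mem_map]
      constructor
      · rintro ⟨y, rfl⟩
        exact ⟨y.1, y.2, hDx y.1⟩
      · rintro ⟨y, hy, hyx⟩
        refine ⟨⟨y, hy⟩, ?_⟩
        apply Subtype.ext
        exact (hDx y).symm.trans hyx
    exact eci_eq h3
  have hk1 : ekc (1 - σ₀) = Nat.card (F.addSubgroupOf M0) := by
    have h3 : AddMonoidHom.ker (1 - σ₀) = F.addSubgroupOf M0 := by
      ext x
      rw [AddMonoidHom.mem_ker, AddSubgroup.mem_addSubgroupOf, hF]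
      constructor
      · intro h
        have h4 := congrArg Subtype.val h
        show D x.1 = 0
        rw [hDx]
        exact h4
      · intro h
        have h4 : D x.1 = 0 := h
        rw [hDx] at h4
        apply Subtype.ext
        exact h4
    exact ekc_eq h3
  have hswap : Nat.card (F.addSubgroupOf M0) = Nat.card (M0.addSubgroupOf F) := by
    apply Nat.card_congr
    refine ⟨fun x => ⟨⟨x.1.1, x.2⟩, x.1.2⟩, fun x => ⟨⟨x.1.1, x.2⟩, x.1.2⟩, ?_, ?_⟩
    · intro x; rfl
    · intro x; rfl
  have hqF := qp_fg (A := F) (p := p) hp.pos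
  have hcF : ci (mp F p) = (F.map N).relIndex F := by
    have h3 : (mp F p).range = (F.map N).addSubgroupOf F := by
      ext x
      rw [AddMonoidHom.mem_range, AddSubgroup.mem_addSubgroupOf, AddSubgroup.mem_map]
      constructor
      · rintro ⟨y, rfl⟩
        refine ⟨y.1, y.2, ?_⟩
        exact hNfix y.1 y.2
      · rintro ⟨y, hy, hyx⟩
        refine ⟨⟨y, hy⟩, ?_⟩
        apply Subtype.ext
        rw [← hyx]
        exact (hNfix y hy).symm
    unfold ci
    rw [h3]
    rfl
  have hkF : kc (mp F p) = Nat.card (M0.addSubgroupOf F) := by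
    have h3 : (mp F p).ker = M0.addSubgroupOf F := by
      ext x
      rw [AddMonoidHom.mem_ker, AddSubgroup.mem_addSubgroupOf, hM0]
      constructor
      · intro h
        have h4 := congrArg Subtype.val h
        show N x.1 = 0
        rw [hNfix x.1 x.2]
        exact h4
      · intro h
        have h4 : N x.1 = 0 := h
        rw [hNfix x.1 x.2] at h4
        apply Subtype.ext
        exact h4
    unfold kc
    rw [h3]
  set t : ℕ := (M0 ⊔ F).index with ht
  set k : ℕ := Nat.card (M0.addSubgroupOf F) with hk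
  have e1 : (M0.map D).relIndex M0 =
      t * (AddMonoidHom.range D).relIndex M0 := by
    rw [← AddSubgroup.relIndex_mul_relIndex (M0.map D) (AddMonoidHom.range D) M0
      (AddSubgroup.map_le_range D M0) hrD]
    rw [ht]
    congr 1
    exact relIndex_range D M0
  have e2 : (F.map N).relIndex F =
      t * (AddMonoidHom.range N).relIndex F := by
    rw [← AddSubgroup.relIndex_mul_relIndex (F.map N) (AddMonoidHom.range N) F
      (AddSubgroup.map_le_range N F) hrN]
    rw [ht, sup_comm]
    congr 1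
    exact relIndex_range N F
  rw [hc1, hk1, hswap, e1] at hc0
  have hk0' : k ≠ 0 := by rwa [hk1, hswap] at hk0
  have e3 := hqF.2
  rw [hcF, hkF, e2] at e3
  have hpa : p ^ Module.finrank ℤ F ≤ p ^ r := Nat.pow_le_pow_right hp.pos h2
  have e4 : t * (AddMonoidHom.range N).relIndex F ≠ 0 := by
    rw [e3]
    exact mul_ne_zero (pow_ne_zero _ hp.ne_zero) hk0'
  have e5 : t * (AddMonoidHom.range D).relIndex M0 ≠ 0 := by
    have : 0 < p ^ r * k := Nat.mul_pos (pow_pos hp.pos _) (Nat.pos_of_ne_zero hk0')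
    omega
  refine ⟨(mul_ne_zero_iff.1 e4).2, (mul_ne_zero_iff.1 e5).2, ?_⟩
  have ht0 : 0 < t := Nat.pos_of_ne_zero (mul_ne_zero_iff.1 e4).1
  apply Nat.le_of_mul_le_mul_left _ ht0
  calc t * (AddMonoidHom.range N).relIndex F
      = p ^ Module.finrank ℤ F * k := by rw [← e3]
    _ ≤ p ^ r * k := by gcongr
    _ ≤ t * (AddMonoidHom.range D).relIndex M0 := hc0

end final

end Pool.Agent.Work.MP_a4986b_nt.Herb
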