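import Pool.Agent.Work.MP_a4986b_nt.IStep
import Pool.Agent.Work.MP_a4986b_nt.YAbs
import Pool.Agent.Work.MP_a4986b_nt.YHerb

set_option autoImplicit false
set_option maxHeartbeats 400000
set_option linter.unusedSectionVars false

/-! # Fractional ideals and two commuting actions -/

namespace Pool.Agent.Work.MuY

open NumberField Module UniqueFactorizationMonoid
open scoped Pointwise nonZeroDivisors
open Pool.Agent.Work.MuI Pool.Agent.Work.MuI.Step

attribute [local instance] Units.mulDistribMulActionRight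

section

variable {k K L : Type*} [Field k] [NumberField k] [Field K] [NumberField K] [Field L]
  [NumberField L] [Algebra k K] [Algebra K L] [Algebra k L]

theorem fU_comm (g : Gal(L/K)) (h : Gal(L/k)) (hc : ∀ x : L, g (h x) = h (g x))
    (x : (FractionalIdeal (𝓞 L)⁰ L)ˣ) : fU g (fU h x) = fU h (fU g x) := by
  apply Units.ext
  ext y
  rw [fU_coe, fU_coe, fU_coe, fU_coe, Inv.mem_act, Inv.mem_act]
  constructor
  · rintro ⟨z, hz, rfl⟩
    obtain ⟨w, hw, rfl⟩ := (Inv.mem_act h _ _).1 hz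
    exact ⟨g w, (Inv.mem_act g _ _).2 ⟨w, hw, rfl⟩, (hc w).symm⟩
  · rintro ⟨z, hz, rfl⟩
    obtain ⟨w, hw, rfl⟩ := (Inv.mem_act g _ _).1 hz
    exact ⟨h w, (Inv.mem_act h _ _).2 ⟨w, hw, rfl⟩, hc w⟩

theorem sU_comm (g : Gal(L/K)) (h : Gal(L/k)) (hc : ∀ x : L, g (h x) = h (g x)) (x : Lˣ) :
    sU g (sU h x) = sU h (sU g x) := by
  apply Units.ext
  exact hc x

/-- an ideal of `𝓞 K` moved by `sK` and extended -/
theorem smul_map_of_compat (s : Gal(L/k)) (sK : Gal(K/k))
    (hc : ∀ y : K, algebraMap K L (sK y) = s (algebraMap K L y)) (I : Ideal (𝓞 K)) :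
    s • I.map (algebraMap (𝓞 K) (𝓞 L)) = (sK • I).map (algebraMap (𝓞 K) (𝓞 L)) := by
  rw [Ideal.pointwise_smul_def, Ideal.pointwise_smul_def, Ideal.map_map, Ideal.map_map]
  congr 1
  ext a
  exact (hc a).symm

theorem extU_int (I : Ideal (𝓞 K)) (u : (FractionalIdeal (𝓞 K)⁰ K)ˣ) (n : ℕ)
    (hI : FractionalIdeal.spanSingleton (𝓞 K)⁰ (n : K) * (u : FractionalIdeal (𝓞 K)⁰ K) = I) :
    FractionalIdeal.spanSingleton (𝓞 L)⁰ (n : L) *
      ((Inv.extU K L u : (FractionalIdeal (𝓞 L)⁰ L)ˣ) : FractionalIdeal (𝓞 L)⁰ L) =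
      ((I.map (algebraMap (𝓞 K) (𝓞 L)) : Ideal (𝓞 L)) : FractionalIdeal (𝓞 L)⁰ L) := by
  rw [Inv.extU_coe, ← FractionalIdeal.extendedHom_coeIdeal_eq_map (K := K), ← hI, map_mul,
    Inv.ext_span, map_natCast]

theorem fU_extU (s : Gal(L/k)) (sK : Gal(K/k))
    (hc : ∀ y : K, algebraMap K L (sK y) = s (algebraMap K L y))
    (u : (FractionalIdeal (𝓞 K)⁰ K)ˣ) :
    fU s (Inv.extU K L u) = Inv.extU K L (fU sK u) := by
  obtain ⟨n, I, hn, hI⟩ := Inv.exists_denom K (u : FractionalIdeal (𝓞 K)⁰ K)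
  have h1 := extU_int (L := L) I u n hI
  have h2 := congrArg (FractionalIdeal.ringEquivOfRingEquiv L L
      (MulSemiringAction.toRingEquiv Gal(L/k) (𝓞 L) s)) h1
  rw [map_mul, Inv.act_spanSingleton, Inv.act_coeIdeal, smul_map_of_compat s sK hc,
    map_natCast] at h2
  have h3 := congrArg (FractionalIdeal.ringEquivOfRingEquiv K K
      (MulSemiringAction.toRingEquiv Gal(K/k) (𝓞 K) sK)) hI
  rw [map_mul, Inv.act_spanSingleton, Inv.act_coeIdeal, map_natCast] at h3
  have h4 := extU_int (L := L) (sK • I) (fU sK u) n h3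
  have hn0 : FractionalIdeal.spanSingleton (𝓞 L)⁰ (n : L) ≠ 0 := by
    rw [Ne, FractionalIdeal.spanSingleton_eq_zero_iff]
    exact_mod_cast hn
  apply Units.ext
  exact mul_left_cancel₀ hn0 (h2.trans h4.symm)

theorem extU_principal (z : Kˣ) : Inv.extU K L (toPrincipalIdeal (𝓞 K) K z) =
    toPrincipalIdeal (𝓞 L) L (Units.map (algebraMap K L).toMonoidHom z) := by
  apply Units.ext
  rw [Inv.extU_coe, coe_toPrincipalIdeal, coe_toPrincipalIdeal, Inv.ext_span]
  rfl

theorem extU_injective : Function.Injective (Inv.extU K L) := by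
  rw [injective_iff_map_eq_one]
  intro u hu
  obtain ⟨n, I, hn, hI⟩ := Inv.exists_denom K (u : FractionalIdeal (𝓞 K)⁰ K)
  have h1 := extU_int (L := L) I u n hI
  have hn0 : FractionalIdeal.spanSingleton (𝓞 K)⁰ (n : K) ≠ 0 := by
    rw [Ne, FractionalIdeal.spanSingleton_eq_zero_iff]
    exact_mod_cast hn
  have h2 : FractionalIdeal.spanSingleton (𝓞 L)⁰ (n : L) =
      (((Ideal.span {(n : 𝓞 K)}).map (algebraMap (𝓞 K) (𝓞 L)) : Ideal (𝓞 L)) :
        FractionalIdeal (𝓞 L)⁰ L) := by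
    rw [Ideal.map_span, Set.image_singleton, FractionalIdeal.coeIdeal_span_singleton, map_natCast,
      map_natCast]
  rw [hu, Units.val_one, mul_one, h2] at h1
  have h3 := FractionalIdeal.coeIdeal_injective h1
  have h4 : Ideal.span {(n : 𝓞 K)} = I := by
    have h5 := congrArg (Ideal.comap (algebraMap (𝓞 K) (𝓞 L))) h3
    rwa [Ideal.comap_map_eq_self_of_faithfullyFlat, Ideal.comap_map_eq_self_of_faithfullyFlat]
      at h5
  apply Units.ext
  rw [Units.val_one]
  apply mul_left_cancel₀ hn0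
  rw [hI, ← h4, mul_one, FractionalIdeal.coeIdeal_span_singleton, map_natCast]

/-- multiplicities at a stable prime -/
theorem count_smul (s : Gal(L/k)) (Q I : Ideal (𝓞 L)) (hQp : Q.IsPrime) (hQ0 : Q ≠ ⊥)
    (hQ : s • Q = Q) (hI : I ≠ ⊥) :
    (normalizedFactors (s • I)).count Q = (normalizedFactors I).count Q := by
  classical
  have hir : Irreducible Q := (Ideal.prime_of_isPrime hQ0 hQp).irreducible
  have hI' : s • I ≠ ⊥ := by
    intro h
    apply hI
    have := congrArg (fun J => s⁻¹ • J) h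
    simpa using this
  have h1 := emultiplicity_eq_count_normalizedFactors hir hI
  have h2 := emultiplicity_eq_count_normalizedFactors hir hI'
  have h3 : emultiplicity Q (s • I) = emultiplicity Q I := by
    have := emultiplicity_map_eq (MulDistribMulAction.toMulEquiv (Ideal (𝓞 L)) s) (a := Q) (b := I)
    rw [MulDistribMulAction.toMulEquiv_apply, MulDistribMulAction.toMulEquiv_apply, hQ] at this
    exact this
  rw [h1, h2, normalize_eq] at h3
  exact_mod_cast h3

theorem count_fU (s : Gal(L/k)) (v : IsDedekindDomain.HeightOneSpectrum (𝓞 L))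
    (hv : s • v.asIdeal = v.asIdeal) (x : (FractionalIdeal (𝓞 L)⁰ L)ˣ) :
    FractionalIdeal.count L v ((fU s x : (FractionalIdeal (𝓞 L)⁰ L)ˣ) : FractionalIdeal (𝓞 L)⁰ L) =
      FractionalIdeal.count L v (x : FractionalIdeal (𝓞 L)⁰ L) := by
  classical
  obtain ⟨n, I, hn, hI⟩ := Inv.exists_denom L (x : FractionalIdeal (𝓞 L)⁰ L)
  have hn0 : FractionalIdeal.spanSingleton (𝓞 L)⁰ (n : L) ≠ 0 := by
    rw [Ne, FractionalIdeal.spanSingleton_eq_zero_iff]
    exact_mod_cast hn
  have hI0 : I ≠ ⊥ := by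
    rintro rfl
    rw [FractionalIdeal.coeIdeal_bot] at hI
    exact mul_ne_zero hn0 x.ne_zero hI
  have hsI0 : s • I ≠ ⊥ := by
    intro h
    apply hI0
    have := congrArg (fun J => s⁻¹ • J) h
    simpa using this
  have h2 := congrArg (FractionalIdeal.ringEquivOfRingEquiv L L
      (MulSemiringAction.toRingEquiv Gal(L/k) (𝓞 L) s)) hI
  rw [map_mul, Inv.act_spanSingleton, Inv.act_coeIdeal, map_natCast] at h2
  have h3 := congrArg (FractionalIdeal.count L v) hI
  have h4 := congrArg (FractionalIdeal.count L v) h2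
  rw [FractionalIdeal.count_mul L v hn0 x.ne_zero, Inv.count_coeIdeal v I hI0] at h3
  have h5 := FractionalIdeal.count_mul L v hn0 (fU s x).ne_zero
  rw [fU_coe] at h5
  rw [h5, Inv.count_coeIdeal v _ hsI0, count_smul s v.asIdeal I v.isPrime v.ne_bot hv hI0, ← h3]
    at h4
  exact add_left_cancel h4

end

end Pool.Agent.Work.MuY
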