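import Mathlib

/-! Kummer extensions of degree `q` of the `q`-th cyclotomic field in which a given inert prime
stays inert: degree, Galois, unique prime above `p`, unit ranks and a discriminant bound. -/

set_option autoImplicit false

namespace Pool.Agent.Work.MuY

open NumberField Module Polynomial Ideal

/-- if the residue degree of a prime above `p` is at least the degree of the field, then `p` is
inert -/
theorem eq_span_of_inertiaDeg_ge {K : Type} [Field K] [NumberField K] {p : ℕ} (hp : p.Prime)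
    (P : Ideal (𝓞 K)) (hP : P.IsPrime) (hpP : (p : 𝓞 K) ∈ P)
    (hf : finrank ℚ K ≤ P.inertiaDeg ℤ) : P = span {(p : 𝓞 K)} := by
  have hlie : P.LiesOver (span {(p : ℤ)}) := by
    rw [Ideal.liesOver_iff]
    have hmax : (span {(p : ℤ)}).IsMaximal :=
      PrincipalIdealRing.isMaximal_of_irreducible (Nat.prime_iff_prime_int.1 hp).irreducible
    refine hmax.eq_of_le ?_ ?_
    · exact (Ideal.IsPrime.under ℤ P).ne_top
    · rw [span_singleton_le_iff_mem, under_def, mem_comap]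
      simpa using hpP
  have h1 : absNorm P = p ^ P.inertiaDeg ℤ := (Ideal.pow_inertiaDeg p P).symm
  have h2 : absNorm (span {(p : 𝓞 K)}) = p ^ finrank ℚ K := by
    rw [absNorm_span_singleton]
    have h3 := Algebra.norm_algebraMap (R := ℤ) (S := 𝓞 K) (p : ℤ)
    rw [show (algebraMap ℤ (𝓞 K)) (p : ℤ) = (p : 𝓞 K) by simp] at h3
    rw [h3, RingOfIntegers.rank]
    simp
  have hle : span {(p : 𝓞 K)} ≤ P := (span_singleton_le_iff_mem _).2 hpP
  obtain ⟨J, hJ⟩ := Ideal.dvd_iff_le.2 hle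
  have h3 : absNorm (span {(p : 𝓞 K)}) = absNorm P * absNorm J := by rw [hJ, map_mul]
  rw [h1, h2] at h3
  have hJ0 : absNorm J = 1 := by
    have h4 : p ^ P.inertiaDeg ℤ * absNorm J ≤ p ^ P.inertiaDeg ℤ * 1 := by
      rw [← h3, mul_one]
      exact Nat.pow_le_pow_right hp.pos hf
    have h5 : absNorm J ≤ 1 := Nat.le_of_mul_le_mul_left h4 (pow_pos hp.pos _)
    have h6 : absNorm J ≠ 0 := by
      intro h
      rw [h, mul_zero] at h3
      exact (pow_pos hp.pos _).ne' h3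
    omega
  rw [absNorm_eq_one_iff] at hJ0
  rw [hJ, hJ0, mul_top]

/-- uniqueness of the prime above `p` -/
theorem existsUnique_of_inertiaDeg_ge {K : Type} [Field K] [NumberField K] {p : ℕ} (hp : p.Prime)
    (hf : ∀ P : Ideal (𝓞 K), P.IsPrime → (p : 𝓞 K) ∈ P → finrank ℚ K ≤ P.inertiaDeg ℤ) :
    ∃! P : Ideal (𝓞 K), P.IsPrime ∧ (p : 𝓞 K) ∈ P := by
  have hne : span {(p : 𝓞 K)} ≠ ⊤ := by
    rw [Ne, span_singleton_eq_top]
    intro hu
    have h3 := hu.map (Algebra.norm ℤ)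
    have h4 := Algebra.norm_algebraMap (R := ℤ) (S := 𝓞 K) (p : ℤ)
    rw [show (algebraMap ℤ (𝓞 K)) (p : ℤ) = (p : 𝓞 K) by simp] at h4
    rw [h4, isUnit_pow_iff finrank_pos.ne'] at h3
    exact (Nat.prime_iff_prime_int.1 hp).not_isUnit h3
  obtain ⟨P, hPmax, hle⟩ := exists_le_maximal _ hne
  have hpP : (p : 𝓞 K) ∈ P := (span_singleton_le_iff_mem _).1 hle
  refine ⟨P, ⟨hPmax.isPrime, hpP⟩, ?_⟩
  rintro Q ⟨hQ, hpQ⟩
  rw [eq_span_of_inertiaDeg_ge hp Q hQ hpQ (hf Q hQ hpQ),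
    eq_span_of_inertiaDeg_ge hp P hPmax.isPrime hpP (hf P hPmax.isPrime hpP)]

/-- residue degrees in the cyclotomic field -/
theorem cyc_inertiaDeg {q p : ℕ} (hq : q.Prime) (hp : p.Prime) (hpq : p ≠ q)
    (hprim : orderOf (p : ZMod q) = q - 1)
    (k : Type) [Field k] [NumberField k] [IsCyclotomicExtension {q} ℚ k]
    (P : Ideal (𝓞 k)) (hP : P.IsPrime) (hpP : (p : 𝓞 k) ∈ P) : P.inertiaDeg ℤ = q - 1 := by
  have : Fact p.Prime := ⟨hp⟩
  have : NeZero q := ⟨hq.ne_zero⟩
  have hlie : P.LiesOver (span {(p : ℤ)}) := by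
    rw [Ideal.liesOver_iff]
    have hmax : (span {(p : ℤ)}).IsMaximal :=
      PrincipalIdealRing.isMaximal_of_irreducible (Nat.prime_iff_prime_int.1 hp).irreducible
    refine hmax.eq_of_le ?_ ?_
    · exact (Ideal.IsPrime.under ℤ P).ne_top
    · rw [span_singleton_le_iff_mem, under_def, mem_comap]
      simpa using hpP
  rw [IsCyclotomicExtension.Rat.inertiaDeg_eq_of_not_dvd (m := q) p k P, hprim]
  intro h
  exact hpq ((Nat.prime_dvd_prime_iff_eq hp hq).1 h)

/-- relative residue degree in the Kummer extension -/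
theorem kum_inertiaDeg {q p : ℕ} (hq : q.Prime) (hp : p.Prime)
    (k : Type) [Field k] [NumberField k] (a : 𝓞 k) (ha : ∀ b : 𝓞 k, ¬ (p : 𝓞 k) ∣ b ^ q - a)
    (F : Type) [Field F] [NumberField F] [Algebra k F] (t : 𝓞 F)
    (ht : t ^ q = algebraMap (𝓞 k) (𝓞 F) a)
    (P : Ideal (𝓞 F)) (hP : P.IsPrime) (hpP : (p : 𝓞 F) ∈ P)
    (hQ : P.under (𝓞 k) = span {(p : 𝓞 k)}) : q ≤ P.inertiaDeg (𝓞 k) := by
  have hp0 : (p : 𝓞 k) ≠ 0 := by exact_mod_cast hp.ne_zero
  have hpF0 : (p : 𝓞 F) ≠ 0 := by exact_mod_cast hp.ne_zero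
  have hPmax : P.IsMaximal := by
    refine hP.isMaximal ?_
    rintro rfl
    exact hpF0 (by simpa using hpP)
  have hQmax : (P.under (𝓞 k)).IsMaximal := by
    refine (Ideal.IsPrime.under (𝓞 k) P).isMaximal ?_
    rw [hQ, Ne, span_singleton_eq_bot]
    exact hp0
  rw [inertiaDeg_eq_of_isMaximal (P.under (𝓞 k)) P]
  let : Field (𝓞 k ⧸ P.under (𝓞 k)) := Quotient.field _
  let : Field (𝓞 F ⧸ P) := Quotient.field _
  set x : 𝓞 F ⧸ P := Ideal.Quotient.mk P t with hx
  set abar : 𝓞 k ⧸ P.under (𝓞 k) := Ideal.Quotient.mk _ a with habar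
  have hirr : Irreducible (X ^ q - C abar) := by
    refine X_pow_sub_C_irreducible_of_prime hq fun b hb => ?_
    obtain ⟨b, rfl⟩ := Ideal.Quotient.mk_surjective b
    rw [habar, ← map_pow, Ideal.Quotient.eq, hQ, mem_span_singleton] at hb
    exact ha b hb
  have hmin : minpoly (𝓞 k ⧸ P.under (𝓞 k)) x = X ^ q - C abar := by
    refine (minpoly.eq_of_irreducible_of_monic hirr ?_ (monic_X_pow_sub_C _ hq.ne_zero)).symm
    have h1 : algebraMap (𝓞 k ⧸ P.under (𝓞 k)) (𝓞 F ⧸ P) abar =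
      Ideal.Quotient.mk P (algebraMap (𝓞 k) (𝓞 F) a) := rfl
    rw [map_sub, map_pow, aeval_X, aeval_C, h1, ← ht, map_pow, sub_self]
  have h2 := minpoly.natDegree_le (A := 𝓞 k ⧸ P.under (𝓞 k)) x
  rw [hmin, natDegree_X_pow_sub_C] at h2
  exact h2

/-- degree and normality of the Kummer extension -/
theorem kum_galois {q : ℕ} (hq : q.Prime)
    (k : Type) [Field k] [NumberField k] [IsCyclotomicExtension {q} ℚ k]
    (a : k) (ha : ∀ b : k, b ^ q ≠ a)
    (F : Type) [Field F] [NumberField F] [Algebra k F] (t : F)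
    (ht : t ^ q = algebraMap k F a) (htop : IntermediateField.adjoin k {t} = ⊤) :
    finrank k F = q ∧ IsGalois k F ∧ minpoly k t = X ^ q - C a := by
  have hirr : Irreducible (X ^ q - C a) := X_pow_sub_C_irreducible_of_prime hq ha
  have hmin : minpoly k t = X ^ q - C a := by
    refine (minpoly.eq_of_irreducible_of_monic hirr ?_ (monic_X_pow_sub_C _ hq.ne_zero)).symm
    rw [map_sub, map_pow, aeval_X, aeval_C, ht, sub_self]
  have hfin : finrank k F = q := by
    have h1 := IntermediateField.adjoin.finrank (K := k) (x := t) (IsIntegral.of_finite k t)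
    rw [htop, hmin, natDegree_X_pow_sub_C] at h1
    rw [← h1]
    exact IntermediateField.finrank_top'.symm
  refine ⟨hfin, ?_, hmin⟩
  have : NeZero q := ⟨hq.ne_zero⟩
  have hζ : (primitiveRoots q k).Nonempty :=
    ⟨IsCyclotomicExtension.zeta q ℚ k, (mem_primitiveRoots hq.pos).2
      (IsCyclotomicExtension.zeta_spec q ℚ k)⟩
  have hspl : IsSplittingField k F (X ^ q - C a) := by
    have h2 := isSplittingField_X_pow_sub_C_of_root_adjoin_eq_top (K := k) (L := F)
      (by rw [hfin]; exact hζ) (a := a) (α := t) (by rw [hfin]; exact ht) htop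
    rwa [hfin] at h2
  exact isGalois_of_isSplittingField_X_pow_sub_C hζ hirr F

/-- unit rank of a totally complex field -/
theorem rank_of_totallyComplex (K : Type) [Field K] [NumberField K] [IsTotallyComplex K] :
    Units.rank K = finrank ℚ K / 2 - 1 := by
  have h1 := IsTotallyComplex.finrank K
  have h2 := InfinitePlace.card_eq_nrRealPlaces_add_nrComplexPlaces (K := K)
  rw [IsTotallyComplex.nrRealPlaces_eq_zero K, zero_add] at h2
  unfold Units.rank
  rw [h2, h1]
  congr 1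
  omega

/-- norm of the radical -/
theorem kum_norm {q : ℕ} (hq : q.Prime)
    (k : Type) [Field k] [NumberField k] (a : 𝓞 k)
    (F : Type) [Field F] [NumberField F] [Algebra k F] (t : 𝓞 F)
    (ht : t ^ q = algebraMap (𝓞 k) (𝓞 F) a) (hfin : finrank k F = q) :
    (Algebra.norm ℤ t).natAbs = (Algebra.norm ℤ a).natAbs := by
  have h1 : (Algebra.norm ℤ t) ^ q = (Algebra.norm ℤ a) ^ q := by
    rw [← map_pow, ht]
    have h2 : ((Algebra.norm ℤ (algebraMap (𝓞 k) (𝓞 F) a) : ℤ) : ℚ) =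
        ((Algebra.norm ℤ a ^ q : ℤ) : ℚ) := by
      rw [Algebra.coe_norm_int]
      have h3 : ((algebraMap (𝓞 k) (𝓞 F) a : 𝓞 F) : F) = algebraMap k F (a : k) := rfl
      rw [h3, ← Algebra.norm_norm (S := k), Algebra.norm_algebraMap, hfin, map_pow, Int.cast_pow,
        Algebra.coe_norm_int]
    exact_mod_cast h2
  have h2 := congrArg Int.natAbs h1
  rw [Int.natAbs_pow, Int.natAbs_pow] at h2
  exact Nat.pow_left_injective hq.pos.ne' h2

/-- the discriminant bound -/
theorem kum_discr {q : ℕ} (hq : q.Prime)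
    (k : Type) [Field k] [NumberField k] (a : 𝓞 k) (ha0 : a ≠ 0)
    (F : Type) [Field F] [NumberField F] [Algebra k F] (t : 𝓞 F)
    (ht : t ^ q = algebraMap (𝓞 k) (𝓞 F) a) (hfin : finrank k F = q)
    (hmin : minpoly k (t : F) = X ^ q - C (a : k))
    (htop : IntermediateField.adjoin k {(t : F)} = ⊤) :
    (discr F).natAbs ≤ (discr k).natAbs ^ q * q ^ finrank ℚ F *
      (Algebra.norm ℤ a).natAbs ^ (q - 1) := by
  have hadj : Algebra.adjoin k {algebraMap (𝓞 F) F t} = ⊤ := by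
    rw [← IntermediateField.adjoin_simple_toSubalgebra_of_isAlgebraic
      (Algebra.IsAlgebraic.isAlgebraic (R := k) (algebraMap (𝓞 F) F t))]
    have h1 : IntermediateField.adjoin k {algebraMap (𝓞 F) F t} = ⊤ := htop
    rw [h1, IntermediateField.top_toSubalgebra]
  have hmem := aeval_derivative_mem_differentIdeal (𝓞 k) k F t hadj
  have hmin' : minpoly (𝓞 k) t = X ^ q - C a := by
    have h1 := minpoly.isIntegrallyClosed_eq_field_fractions k F
      (IsIntegralClosure.isIntegral (𝓞 k) F t)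
    have h2 : (X ^ q - C a : (𝓞 k)[X]).map (algebraMap (𝓞 k) k) = X ^ q - C (a : k) := by
      rw [Polynomial.map_sub, Polynomial.map_pow, Polynomial.map_X, Polynomial.map_C]
    have h3 : minpoly k (algebraMap (𝓞 F) F t) = X ^ q - C (a : k) := hmin
    rw [h3, ← h2] at h1
    exact (Polynomial.map_injective _ (FaithfulSMul.algebraMap_injective (𝓞 k) k) h1).symm
  have hval : aeval t (derivative (minpoly (𝓞 k) t)) = (q : 𝓞 F) * t ^ (q - 1) := by
    rw [hmin', derivative_sub, derivative_C, sub_zero, derivative_X_pow, map_mul, aeval_C,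
      map_pow, aeval_X, map_natCast]
  rw [hval] at hmem
  have h5 := absNorm_dvd_norm_of_mem hmem
  have hdisc := natAbs_discr_eq_absNorm_differentIdeal_mul_natAbs_discr_pow k (𝓞 k) F (𝓞 F)
  rw [hfin] at hdisc
  rw [hdisc]
  have ht0 : t ≠ 0 := by
    rintro rfl
    rw [zero_pow hq.ne_zero] at ht
    have h6 := ht.symm
    rw [FaithfulSMul.algebraMap_eq_zero_iff] at h6
    exact ha0 h6
  have h7 : (Algebra.norm ℤ ((q : 𝓞 F) * t ^ (q - 1))).natAbs =
      q ^ finrank ℚ F * (Algebra.norm ℤ a).natAbs ^ (q - 1) := by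
    rw [map_mul, map_pow, Int.natAbs_mul, Int.natAbs_pow, kum_norm hq k a F t ht hfin,
      Algebra.norm_natCast, RingOfIntegers.rank]
    simp
  have h8 : absNorm (differentIdeal (𝓞 k) (𝓞 F)) ≤ q ^ finrank ℚ F *
      (Algebra.norm ℤ a).natAbs ^ (q - 1) := by
    rw [← h7]
    refine Nat.le_of_dvd ?_ (Int.natCast_dvd.1 h5)
    rw [Int.natAbs_pos, Algebra.norm_ne_zero_iff]
    exact mul_ne_zero (by exact_mod_cast hq.ne_zero) (pow_ne_zero _ ht0)
  calc absNorm (differentIdeal (𝓞 k) (𝓞 F)) * (discr k).natAbs ^ q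
      ≤ (q ^ finrank ℚ F * (Algebra.norm ℤ a).natAbs ^ (q - 1)) * (discr k).natAbs ^ q :=
        Nat.mul_le_mul_right _ h8
    _ = _ := by ring

/-- Kummer extensions of degree `q` of the `q`-th cyclotomic field. -/
theorem kummer_data {q p : ℕ} (hq : q.Prime) (hq2 : q ≠ 2) (hp : p.Prime) (hpq : p ≠ q)
    (hprim : orderOf (p : ZMod q) = q - 1)
    (k : Type) [Field k] [NumberField k] [IsCyclotomicExtension {q} ℚ k]
    (a : 𝓞 k) (ha : ∀ b : 𝓞 k, ¬ (p : 𝓞 k) ∣ b ^ q - a)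
    (F : Type) [Field F] [NumberField F] [Algebra k F] (t : F)
    (ht : t ^ q = algebraMap k F a) (htop : IntermediateField.adjoin k {t} = ⊤) :
    finrank k F = q ∧ IsGalois k F ∧
    (∃! P : Ideal (𝓞 k), P.IsPrime ∧ (p : 𝓞 k) ∈ P) ∧
    (∃! P : Ideal (𝓞 F), P.IsPrime ∧ (p : 𝓞 F) ∈ P) ∧
    Units.rank k = (q - 3) / 2 ∧ Units.rank F = q * (q - 1) / 2 - 1 ∧
    |(discr F : ℝ)| ≤ |(discr k : ℝ)| ^ q * (q : ℝ) ^ (q * (q - 1)) *
      |(Algebra.norm ℤ a : ℝ)| ^ (q - 1) := by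
  have : NeZero q := ⟨hq.ne_zero⟩
  have h2q : 2 < q := lt_of_le_of_ne hq.two_le (Ne.symm hq2)
  have hodd : Odd q := hq.odd_of_ne_two hq2
  have ha' : ∀ b : k, b ^ q ≠ (a : k) := by
    intro b hb
    have hbint : IsIntegral ℤ b := by
      refine IsIntegral.of_pow hq.pos ?_
      rw [hb]
      exact RingOfIntegers.isIntegral_coe a
    let b' : 𝓞 k := ⟨b, hbint⟩
    have h0 : b' ^ q = a := RingOfIntegers.ext hb
    apply ha b'
    rw [h0, sub_self]
    exact dvd_zero _
  have ha0 : a ≠ 0 := by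
    rintro rfl
    exact ha' 0 (by simp [hq.ne_zero])
  obtain ⟨hfin, hgal, hmin⟩ := kum_galois hq k (a : k) ha' F t ht htop
  have hfk : finrank ℚ k = q - 1 := by
    rw [IsCyclotomicExtension.Rat.finrank q k, Nat.totient_prime hq]
  have hfF : finrank ℚ F = (q - 1) * q := by
    rw [← Module.finrank_mul_finrank ℚ k F, hfk, hfin]
  have htint : IsIntegral ℤ t := by
    refine IsIntegral.of_pow hq.pos ?_
    rw [ht]
    exact (RingOfIntegers.isIntegral_coe a).algebraMap
  set t' : 𝓞 F := ⟨t, htint⟩ with ht'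
  have htq : t' ^ q = algebraMap (𝓞 k) (𝓞 F) a := by
    apply RingOfIntegers.ext
    have h1 : ((algebraMap (𝓞 k) (𝓞 F) a : 𝓞 F) : F) = algebraMap k F (a : k) := rfl
    rw [h1]
    exact ht
  have hck : IsTotallyComplex k := IsCyclotomicExtension.Rat.isTotallyComplex k h2q
  have hcF : IsTotallyComplex F := isTotallyComplex_of_algebra k F
  refine ⟨hfin, hgal, ?_, ?_, ?_, ?_, ?_⟩
  · refine existsUnique_of_inertiaDeg_ge hp fun P hP hpP => ?_
    rw [cyc_inertiaDeg hq hp hpq hprim k P hP hpP, hfk]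
  · refine existsUnique_of_inertiaDeg_ge hp fun P hP hpP => ?_
    have hQ : (P.under (𝓞 k)).IsPrime := Ideal.IsPrime.under (𝓞 k) P
    have hpQ : (p : 𝓞 k) ∈ P.under (𝓞 k) := by
      rw [under_def, mem_comap, map_natCast]
      exact hpP
    have hQd := cyc_inertiaDeg hq hp hpq hprim k _ hQ hpQ
    have hQs := eq_span_of_inertiaDeg_ge hp _ hQ hpQ (by rw [hQd, hfk])
    have h1 := kum_inertiaDeg hq hp k a ha F t' htq P hP hpP hQs
    rw [inertiaDeg_tower (R := ℤ) (P.under (𝓞 k)) P, hQd, hfF]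
    exact Nat.mul_le_mul_left _ h1
  · rw [rank_of_totallyComplex, hfk]
    obtain ⟨r, hr⟩ := hodd
    omega
  · rw [rank_of_totallyComplex, hfF, mul_comm]
  · have h1 := kum_discr hq k a ha0 F t' htq hfin hmin htop
    rw [hfF] at h1
    have h2 : (((discr F).natAbs : ℕ) : ℝ) ≤ ((((discr k).natAbs ^ q * q ^ ((q - 1) * q) *
      (Algebra.norm ℤ a).natAbs ^ (q - 1) : ℕ)) : ℝ) := by exact_mod_cast h1
    push_cast at h2
    simp only [Nat.cast_natAbs, Int.cast_abs] at h2
    rw [mul_comm q (q - 1)]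
    exact h2

end Pool.Agent.Work.MuY
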