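import Pool.Agent.Work.MP_a4986b_nt.YKum

/-! Kummer extensions of degree `q ^ j` of the `q ^ j`-th cyclotomic field in which a given inert
prime stays inert. -/

set_option autoImplicit false

namespace Pool.Agent.Work.MuY

open NumberField Module Polynomial Ideal

/-- residue degrees in the cyclotomic field of conductor `n` -/
theorem cycn_inertiaDeg {n p : ℕ} (hn : n ≠ 0) (hp : p.Prime) (hpn : ¬ p ∣ n)
    (k : Type) [Field k] [NumberField k] [IsCyclotomicExtension {n} ℚ k]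
    (P : Ideal (𝓞 k)) (hP : P.IsPrime) (hpP : (p : 𝓞 k) ∈ P) :
    P.inertiaDeg ℤ = orderOf (p : ZMod n) := by
  have : Fact p.Prime := ⟨hp⟩
  have : NeZero n := ⟨hn⟩
  have hlie : P.LiesOver (span {(p : ℤ)}) := by
    rw [Ideal.liesOver_iff]
    have hmax : (span {(p : ℤ)}).IsMaximal :=
      PrincipalIdealRing.isMaximal_of_irreducible (Nat.prime_iff_prime_int.1 hp).irreducible
    refine hmax.eq_of_le ?_ ?_
    · exact (Ideal.IsPrime.under ℤ P).ne_top
    · rw [span_singleton_le_iff_mem, under_def, mem_comap]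
      simpa using hpP
  rw [IsCyclotomicExtension.Rat.inertiaDeg_eq_of_not_dvd (m := n) p k P hpn]

/-- relative residue degree in the Kummer extension -/
theorem kump_inertiaDeg {q j p : ℕ} (hq : q.Prime) (hq2 : q ≠ 2) (hp : p.Prime)
    (k : Type) [Field k] [NumberField k] (a : 𝓞 k)
    (F : Type) [Field F] [NumberField F] [Algebra k F] (t : 𝓞 F)
    (ht : t ^ q ^ j = algebraMap (𝓞 k) (𝓞 F) a)
    (P : Ideal (𝓞 F)) (hP : P.IsPrime) (hpP : (p : 𝓞 F) ∈ P)
    (ha : ∀ b : 𝓞 k, b ^ q - a ∉ P.under (𝓞 k)) : q ^ j ≤ P.inertiaDeg (𝓞 k) := by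
  have hp0 : (p : 𝓞 k) ≠ 0 := by exact_mod_cast hp.ne_zero
  have hpF0 : (p : 𝓞 F) ≠ 0 := by exact_mod_cast hp.ne_zero
  have hPmax : P.IsMaximal := by
    refine hP.isMaximal ?_
    rintro rfl
    exact hpF0 (by simpa using hpP)
  have hQmax : (P.under (𝓞 k)).IsMaximal := by
    refine (Ideal.IsPrime.under (𝓞 k) P).isMaximal ?_
    intro h
    have h1 : (p : 𝓞 k) ∈ P.under (𝓞 k) := by
      rw [under_def, mem_comap, map_natCast]
      exact hpP
    rw [h] at h1
    exact hp0 (by simpa using h1)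
  rw [inertiaDeg_eq_of_isMaximal (P.under (𝓞 k)) P]
  let : Field (𝓞 k ⧸ P.under (𝓞 k)) := Quotient.field _
  let : Field (𝓞 F ⧸ P) := Quotient.field _
  set x : 𝓞 F ⧸ P := Ideal.Quotient.mk P t with hx
  set abar : 𝓞 k ⧸ P.under (𝓞 k) := Ideal.Quotient.mk _ a with habar
  have hirr : Irreducible (X ^ (q ^ j) - C abar) := by
    refine X_pow_sub_C_irreducible_of_prime_pow hq hq2 j fun b hb => ?_
    obtain ⟨b, rfl⟩ := Ideal.Quotient.mk_surjective b
    rw [habar, ← map_pow, Ideal.Quotient.eq] at hb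
    exact ha b hb
  have hmin : minpoly (𝓞 k ⧸ P.under (𝓞 k)) x = X ^ (q ^ j) - C abar := by
    refine (minpoly.eq_of_irreducible_of_monic hirr ?_
      (monic_X_pow_sub_C _ (pow_pos hq.pos _).ne')).symm
    have h1 : algebraMap (𝓞 k ⧸ P.under (𝓞 k)) (𝓞 F ⧸ P) abar =
      Ideal.Quotient.mk P (algebraMap (𝓞 k) (𝓞 F) a) := rfl
    rw [map_sub, map_pow, aeval_X, aeval_C, h1, ← ht, map_pow, sub_self]
  have h2 := minpoly.natDegree_le (A := 𝓞 k ⧸ P.under (𝓞 k)) x
  rw [hmin, natDegree_X_pow_sub_C] at h2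
  exact h2

/-- degree, normality, cyclicity of the Kummer extension -/
theorem kump_galois {q j : ℕ} (hq : q.Prime) (hq2 : q ≠ 2)
    (k : Type) [Field k] [NumberField k] (hζ : (primitiveRoots (q ^ j) k).Nonempty)
    (a : k) (ha : ∀ b : k, b ^ q ≠ a)
    (F : Type) [Field F] [NumberField F] [Algebra k F] (t : F)
    (ht : t ^ q ^ j = algebraMap k F a) (htop : IntermediateField.adjoin k {t} = ⊤) :
    finrank k F = q ^ j ∧ IsGalois k F ∧ IsCyclic Gal(F/k) ∧
      minpoly k t = X ^ (q ^ j) - C a := by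
  have hn : q ^ j ≠ 0 := (pow_pos hq.pos _).ne'
  have : NeZero (q ^ j) := ⟨hn⟩
  have hirr : Irreducible (X ^ (q ^ j) - C a) := X_pow_sub_C_irreducible_of_prime_pow hq hq2 j ha
  have hmin : minpoly k t = X ^ (q ^ j) - C a := by
    refine (minpoly.eq_of_irreducible_of_monic hirr ?_ (monic_X_pow_sub_C _ hn)).symm
    rw [map_sub, map_pow, aeval_X, aeval_C, ht, sub_self]
  have hfin : finrank k F = q ^ j := by
    have h1 := IntermediateField.adjoin.finrank (K := k) (x := t) (IsIntegral.of_finite k t)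
    rw [htop, hmin, natDegree_X_pow_sub_C] at h1
    rw [← h1]
    exact IntermediateField.finrank_top'.symm
  have hspl : IsSplittingField k F (X ^ (q ^ j) - C a) := by
    have h2 := isSplittingField_X_pow_sub_C_of_root_adjoin_eq_top (K := k) (L := F)
      (by rw [hfin]; exact hζ) (a := a) (α := t) (by rw [hfin]; exact ht) htop
    rwa [hfin] at h2
  exact ⟨hfin, isGalois_of_isSplittingField_X_pow_sub_C hζ hirr F,
    isCyclic_of_isSplittingField_X_pow_sub_C hζ hirr F, hmin⟩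

/-- norm of the radical -/
theorem kump_norm {n : ℕ} (hn : n ≠ 0)
    (k : Type) [Field k] [NumberField k] (a : 𝓞 k)
    (F : Type) [Field F] [NumberField F] [Algebra k F] (t : 𝓞 F)
    (ht : t ^ n = algebraMap (𝓞 k) (𝓞 F) a) (hfin : finrank k F = n) :
    (Algebra.norm ℤ t).natAbs = (Algebra.norm ℤ a).natAbs := by
  have h1 : (Algebra.norm ℤ t) ^ n = (Algebra.norm ℤ a) ^ n := by
    rw [← map_pow, ht]
    have h2 : ((Algebra.norm ℤ (algebraMap (𝓞 k) (𝓞 F) a) : ℤ) : ℚ) =
        ((Algebra.norm ℤ a ^ n : ℤ) : ℚ) := by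
      rw [Algebra.coe_norm_int]
      have h3 : ((algebraMap (𝓞 k) (𝓞 F) a : 𝓞 F) : F) = algebraMap k F (a : k) := rfl
      rw [h3, ← Algebra.norm_norm (S := k), Algebra.norm_algebraMap, hfin, map_pow, Int.cast_pow,
        Algebra.coe_norm_int]
    exact_mod_cast h2
  have h2 := congrArg Int.natAbs h1
  rw [Int.natAbs_pow, Int.natAbs_pow] at h2
  exact Nat.pow_left_injective hn h2

/-- the different of a Kummer extension -/
theorem kump_absNorm_different {n : ℕ} (hn : n ≠ 0)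
    (k : Type) [Field k] [NumberField k] (a : 𝓞 k)
    (F : Type) [Field F] [NumberField F] [Algebra k F] (t : 𝓞 F)
    (ht : t ^ n = algebraMap (𝓞 k) (𝓞 F) a) (hfin : finrank k F = n)
    (hmin : minpoly k (t : F) = X ^ n - C (a : k))
    (htop : IntermediateField.adjoin k {(t : F)} = ⊤) :
    absNorm (differentIdeal (𝓞 k) (𝓞 F)) ∣ n ^ finrank ℚ F *
      (Algebra.norm ℤ a).natAbs ^ (n - 1) := by
  have hadj : Algebra.adjoin k {algebraMap (𝓞 F) F t} = ⊤ := by
    rw [← IntermediateField.adjoin_simple_toSubalgebra_of_isAlgebraic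
      (Algebra.IsAlgebraic.isAlgebraic (R := k) (algebraMap (𝓞 F) F t))]
    have h1 : IntermediateField.adjoin k {algebraMap (𝓞 F) F t} = ⊤ := htop
    rw [h1, IntermediateField.top_toSubalgebra]
  have hmem := aeval_derivative_mem_differentIdeal (𝓞 k) k F t hadj
  have hmin' : minpoly (𝓞 k) t = X ^ n - C a := by
    have h1 := minpoly.isIntegrallyClosed_eq_field_fractions k F
      (IsIntegralClosure.isIntegral (𝓞 k) F t)
    have h2 : (X ^ n - C a : (𝓞 k)[X]).map (algebraMap (𝓞 k) k) = X ^ n - C (a : k) := by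
      rw [Polynomial.map_sub, Polynomial.map_pow, Polynomial.map_X, Polynomial.map_C]
    have h3 : minpoly k (algebraMap (𝓞 F) F t) = X ^ n - C (a : k) := hmin
    rw [h3, ← h2] at h1
    exact (Polynomial.map_injective _ (FaithfulSMul.algebraMap_injective (𝓞 k) k) h1).symm
  have hval : aeval t (derivative (minpoly (𝓞 k) t)) = (n : 𝓞 F) * t ^ (n - 1) := by
    rw [hmin', derivative_sub, derivative_C, sub_zero, derivative_X_pow, map_mul, aeval_C,
      map_pow, aeval_X, map_natCast]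
  rw [hval] at hmem
  have h5 := absNorm_dvd_norm_of_mem hmem
  have h7 : (Algebra.norm ℤ ((n : 𝓞 F) * t ^ (n - 1))).natAbs =
      n ^ finrank ℚ F * (Algebra.norm ℤ a).natAbs ^ (n - 1) := by
    rw [map_mul, map_pow, Int.natAbs_mul, Int.natAbs_pow, kump_norm hn k a F t ht hfin,
      Algebra.norm_natCast, RingOfIntegers.rank]
    simp
  rw [← h7]
  exact Int.natCast_dvd.1 h5

/-- divisibility form of the discriminant bound -/
theorem kump_discr_dvd {n : ℕ} (hn : n ≠ 0)
    (k : Type) [Field k] [NumberField k] (a : 𝓞 k)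
    (F : Type) [Field F] [NumberField F] [Algebra k F] (t : 𝓞 F)
    (ht : t ^ n = algebraMap (𝓞 k) (𝓞 F) a) (hfin : finrank k F = n)
    (hmin : minpoly k (t : F) = X ^ n - C (a : k))
    (htop : IntermediateField.adjoin k {(t : F)} = ⊤) :
    (discr F).natAbs ∣ (discr k).natAbs ^ n * n ^ finrank ℚ F *
      (Algebra.norm ℤ a).natAbs ^ (n - 1) := by
  have h8 := kump_absNorm_different hn k a F t ht hfin hmin htop
  have hdisc := natAbs_discr_eq_absNorm_differentIdeal_mul_natAbs_discr_pow k (𝓞 k) F (𝓞 F)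
  rw [hfin] at hdisc
  rw [hdisc]
  calc absNorm (differentIdeal (𝓞 k) (𝓞 F)) * (discr k).natAbs ^ n
      ∣ (n ^ finrank ℚ F * (Algebra.norm ℤ a).natAbs ^ (n - 1)) * (discr k).natAbs ^ n :=
        mul_dvd_mul_right h8 _
    _ = _ := by ring

/-- the real form of the bound -/
theorem kump_discr_le {n : ℕ} (hn : n ≠ 0)
    (k : Type) [Field k] [NumberField k] (a : 𝓞 k) (ha0 : a ≠ 0)
    (F : Type) [Field F] [NumberField F] [Algebra k F] (t : 𝓞 F)
    (ht : t ^ n = algebraMap (𝓞 k) (𝓞 F) a) (hfin : finrank k F = n)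
    (hmin : minpoly k (t : F) = X ^ n - C (a : k))
    (htop : IntermediateField.adjoin k {(t : F)} = ⊤) :
    |(discr F : ℝ)| ≤ |(discr k : ℝ)| ^ n * (n : ℝ) ^ finrank ℚ F *
      |(Algebra.norm ℤ a : ℝ)| ^ (n - 1) := by
  have h1 : (discr F).natAbs ≤ (discr k).natAbs ^ n * n ^ finrank ℚ F *
      (Algebra.norm ℤ a).natAbs ^ (n - 1) := by
    refine Nat.le_of_dvd ?_ (kump_discr_dvd hn k a F t ht hfin hmin htop)
    refine Nat.mul_pos (Nat.mul_pos (pow_pos ?_ _) (pow_pos (Nat.pos_of_ne_zero hn) _))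
      (pow_pos ?_ _)
    · exact Int.natAbs_pos.2 (discr_ne_zero k)
    · rw [Int.natAbs_pos, Algebra.norm_ne_zero_iff]
      exact ha0
  have h2 : (((discr F).natAbs : ℕ) : ℝ) ≤ ((((discr k).natAbs ^ n * n ^ finrank ℚ F *
      (Algebra.norm ℤ a).natAbs ^ (n - 1) : ℕ)) : ℝ) := by exact_mod_cast h1
  push_cast at h2
  simp only [Nat.cast_natAbs, Int.cast_abs] at h2
  exact h2

/-- in a finite cyclic group subgroups of the same order are equal -/
theorem subgroup_eq_of_card {G : Type*} [Group G] [Finite G] [IsCyclic G] (A B : Subgroup G)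
    (h : Nat.card A = Nat.card B) : A = B := by
  classical
  have : Fintype G := Fintype.ofFinite G
  have hpos : 0 < Nat.card A := Nat.card_pos
  have key : ∀ C : Subgroup G, Nat.card C = Nat.card A →
      (C : Set G).toFinset = Finset.univ.filter fun a : G => a ^ Nat.card A = 1 := by
    intro C hC
    refine Finset.eq_of_subset_of_card_le ?_ ?_
    · intro x hx
      rw [Set.mem_toFinset, SetLike.mem_coe] at hx
      rw [Finset.mem_filter]
      refine ⟨Finset.mem_univ _, ?_⟩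
      rw [← hC, ← orderOf_dvd_iff_pow_eq_one]
      exact Subgroup.orderOf_dvd_natCard C hx
    · refine (IsCyclic.card_pow_eq_one_le hpos).trans ?_
      rw [Set.toFinset_card, ← hC, Nat.card_eq_fintype_card]
      exact le_of_eq (Fintype.card_congr (Equiv.refl _))
  have h1 := key A rfl
  have h2 := key B h.symm
  rw [← h1] at h2
  apply SetLike.coe_injective
  rw [← Set.toFinset_inj]
  exact h2.symm

/-- in a cyclic extension intermediate fields of the same degree are equal -/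
theorem intermediate_eq_of_finrank {k F : Type*} [Field k] [Field F] [Algebra k F]
    [FiniteDimensional k F] [IsGalois k F] [IsCyclic Gal(F/k)] (A B : IntermediateField k F)
    (h : finrank k A = finrank k B) : A = B := by
  have hpos : 0 < finrank k B := finrank_pos
  have h1 : finrank A F = finrank B F := by
    have h2 := finrank_mul_finrank k A F
    have h3 := finrank_mul_finrank k B F
    rw [h, ← h3] at h2
    exact Nat.eq_of_mul_eq_mul_left hpos h2
  have h2 : A.fixingSubgroup = B.fixingSubgroup := by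
    apply subgroup_eq_of_card
    rw [IsGalois.card_fixingSubgroup_eq_finrank, IsGalois.card_fixingSubgroup_eq_finrank, h1]
  rw [← IsGalois.fixedField_fixingSubgroup A, h2, IsGalois.fixedField_fixingSubgroup]

/-- an element whose minimal polynomial has the degree of the field generates it -/
theorem adjoin_eq_top_of_natDegree {k F : Type*} [Field k] [Field F] [Algebra k F]
    [FiniteDimensional k F] (s : F) (h : (minpoly k s).natDegree = finrank k F) :
    IntermediateField.adjoin k {s} = ⊤ := by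
  apply IntermediateField.eq_of_le_of_finrank_eq le_top
  rw [IntermediateField.adjoin.finrank (IsIntegral.of_finite k s), h,
    IntermediateField.finrank_top']

/-- the subfields of a Kummer extension of prime power degree -/
theorem kump_subfields {q j : ℕ} (hq : q.Prime) (hq2 : q ≠ 2)
    (k : Type) [Field k] [NumberField k] (hζ : (primitiveRoots (q ^ j) k).Nonempty)
    (a : 𝓞 k) (ha : ∀ b : k, b ^ q ≠ (a : k))
    (F : Type) [Field F] [NumberField F] [Algebra k F] (t : F)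
    (ht : t ^ q ^ j = algebraMap k F a) (htop : IntermediateField.adjoin k {t} = ⊤)
    (F' : IntermediateField k F) (hF' : F' ≠ ⊥) :
    ∃ i : ℕ, 1 ≤ i ∧ i ≤ j ∧ finrank k F' = q ^ i ∧ ∃ s : 𝓞 F',
      s ^ q ^ i = algebraMap (𝓞 k) (𝓞 F') a ∧ minpoly k (s : F') = X ^ (q ^ i) - C (a : k) ∧
      IntermediateField.adjoin k {(s : F')} = ⊤ := by
  obtain ⟨hfin, hgal, hcyc, hmin⟩ := kump_galois hq hq2 k hζ (a : k) ha F t ht htop
  have hdvd : finrank k F' ∣ q ^ j := by
    rw [← hfin]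
    exact ⟨_, (finrank_mul_finrank k F' F).symm⟩
  obtain ⟨i, hij, hi⟩ := (Nat.dvd_prime_pow hq).1 hdvd
  have hi1 : 1 ≤ i := by
    rw [Nat.one_le_iff_ne_zero]
    rintro rfl
    rw [pow_zero, IntermediateField.finrank_eq_one_iff] at hi
    exact hF' hi
  refine ⟨i, hi1, hij, hi, ?_⟩
  have hn : q ^ i ≠ 0 := (pow_pos hq.pos _).ne'
  have hirr : Irreducible (X ^ (q ^ i) - C (a : k)) :=
    X_pow_sub_C_irreducible_of_prime_pow hq hq2 i ha
  set t' : F := t ^ q ^ (j - i) with ht'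
  have ht'q : t' ^ q ^ i = algebraMap k F a := by
    rw [ht', ← pow_mul, ← pow_add, Nat.sub_add_cancel hij, ht]
  have hmin' : minpoly k t' = X ^ (q ^ i) - C (a : k) := by
    refine (minpoly.eq_of_irreducible_of_monic hirr ?_ (monic_X_pow_sub_C _ hn)).symm
    rw [map_sub, map_pow, aeval_X, aeval_C, ht'q, sub_self]
  have hfin' : finrank k (IntermediateField.adjoin k {t'}) = q ^ i := by
    rw [IntermediateField.adjoin.finrank (IsIntegral.of_finite k t'), hmin',
      natDegree_X_pow_sub_C]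
  have heq : IntermediateField.adjoin k {t'} = F' :=
    intermediate_eq_of_finrank _ _ (by rw [hfin', hi])
  have hmem : t' ∈ F' := by
    rw [← heq]
    exact IntermediateField.mem_adjoin_simple_self k t'
  have hs1 : (⟨t', hmem⟩ : F') ^ q ^ i = algebraMap k F' a := Subtype.ext ht'q
  have hsint : IsIntegral ℤ (⟨t', hmem⟩ : F') := by
    refine IsIntegral.of_pow (Nat.pos_of_ne_zero hn) ?_
    rw [hs1]
    exact (RingOfIntegers.isIntegral_coe a).algebraMap
  have hmin2 : minpoly k (⟨t', hmem⟩ : F') = X ^ (q ^ i) - C (a : k) := by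
    refine (minpoly.eq_of_irreducible_of_monic hirr ?_ (monic_X_pow_sub_C _ hn)).symm
    rw [map_sub, map_pow, aeval_X, aeval_C, hs1, sub_self]
  refine ⟨⟨⟨t', hmem⟩, hsint⟩, ?_, hmin2, ?_⟩
  · apply RingOfIntegers.ext
    exact hs1
  · apply adjoin_eq_top_of_natDegree
    show (minpoly k (⟨t', hmem⟩ : F')).natDegree = _
    rw [hmin2, natDegree_X_pow_sub_C, hi]

/-- if the residue degree of a prime of `F` over its restriction to `k` is at least `[F : k]`,
then the restriction generates the prime -/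
theorem map_under_eq_of_inertiaDeg_ge {p : ℕ} (hp : p.Prime) (k : Type) [Field k] [NumberField k]
    (F : Type) [Field F] [NumberField F] [Algebra k F]
    (P : Ideal (𝓞 F)) (hP : P.IsPrime) (hpP : (p : 𝓞 F) ∈ P)
    (hf : finrank k F ≤ P.inertiaDeg (𝓞 k)) :
    (P.under (𝓞 k)).map (algebraMap (𝓞 k) (𝓞 F)) = P := by
  have hmax : (span {(p : ℤ)}).IsMaximal :=
    PrincipalIdealRing.isMaximal_of_irreducible (Nat.prime_iff_prime_int.1 hp).irreducible
  have hlieP : P.LiesOver (span {(p : ℤ)}) := by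
    rw [Ideal.liesOver_iff]
    refine hmax.eq_of_le ?_ ?_
    · exact (Ideal.IsPrime.under ℤ P).ne_top
    · rw [span_singleton_le_iff_mem, under_def, mem_comap]
      simpa using hpP
  have hQ : (P.under (𝓞 k)).IsPrime := Ideal.IsPrime.under (𝓞 k) P
  have hpQ : (p : 𝓞 k) ∈ P.under (𝓞 k) := by
    rw [under_def, mem_comap, map_natCast]
    exact hpP
  have hlieQ : (P.under (𝓞 k)).LiesOver (span {(p : ℤ)}) := by
    rw [Ideal.liesOver_iff]
    refine hmax.eq_of_le ?_ ?_
    · exact (Ideal.IsPrime.under ℤ (P.under (𝓞 k))).ne_top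
    · rw [span_singleton_le_iff_mem, under_def, mem_comap]
      simpa using hpQ
  have h1 : absNorm P = p ^ P.inertiaDeg ℤ := (Ideal.pow_inertiaDeg p P).symm
  have h2 : absNorm (P.under (𝓞 k)) = p ^ (P.under (𝓞 k)).inertiaDeg ℤ :=
    (Ideal.pow_inertiaDeg p (P.under (𝓞 k))).symm
  have h3 : absNorm ((P.under (𝓞 k)).map (algebraMap (𝓞 k) (𝓞 F))) =
      absNorm (P.under (𝓞 k)) ^ finrank k F := by
    rw [absNorm_algebraMap, ← IsFractionRing.finrank_eq (𝓞 k) k (𝓞 F) F]
  have hle : (P.under (𝓞 k)).map (algebraMap (𝓞 k) (𝓞 F)) ≤ P := map_le_iff_le_comap.2 le_rfl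
  obtain ⟨J, hJ⟩ := Ideal.dvd_iff_le.2 hle
  have h4 := congrArg absNorm hJ
  rw [h3, map_mul, h1, h2, inertiaDeg_tower (R := ℤ) (P.under (𝓞 k)) P, ← pow_mul] at h4
  have hJ0 : absNorm J = 1 := by
    have h5 : p ^ ((P.under (𝓞 k)).inertiaDeg ℤ * P.inertiaDeg (𝓞 k)) * absNorm J ≤
        p ^ ((P.under (𝓞 k)).inertiaDeg ℤ * P.inertiaDeg (𝓞 k)) * 1 := by
      rw [← h4, mul_one]
      exact Nat.pow_le_pow_right hp.pos (Nat.mul_le_mul_left _ hf)
    have h6 : absNorm J ≤ 1 := Nat.le_of_mul_le_mul_left h5 (pow_pos hp.pos _)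
    have h7 : absNorm J ≠ 0 := by
      intro h
      rw [h, mul_zero] at h4
      exact (pow_pos hp.pos _).ne' h4
    omega
  rw [absNorm_eq_one_iff] at hJ0
  rw [hJ, hJ0, mul_top]

/-- Kummer extensions of degree `q ^ j` of the `q ^ j`-th cyclotomic field, non-split above `p` -/
theorem kummer_pow_gen {q j p : ℕ} (hq : q.Prime) (hq2 : q ≠ 2) (hj : j ≠ 0) (hp : p.Prime)
    (hpq : p ≠ q)
    (k : Type) [Field k] [NumberField k] [IsCyclotomicExtension {q ^ j} ℚ k]
    (a : 𝓞 k) (ha : ∀ P : Ideal (𝓞 k), P.IsPrime → (p : 𝓞 k) ∈ P → ∀ b : 𝓞 k, b ^ q - a ∉ P)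
    (F : Type) [Field F] [NumberField F] [Algebra k F] (t : F)
    (ht : t ^ q ^ j = algebraMap k F a) (htop : IntermediateField.adjoin k {t} = ⊤) :
    finrank k F = q ^ j ∧ IsGalois k F ∧ IsCyclic Gal(F/k) ∧
    (∀ P Q : Ideal (𝓞 F), P.IsPrime → Q.IsPrime → (p : 𝓞 F) ∈ P → (p : 𝓞 F) ∈ Q →
      P.under (𝓞 k) = Q.under (𝓞 k) → P = Q) ∧
    (∀ F' : IntermediateField k F, F' ≠ ⊥ → ∃ i : ℕ, 1 ≤ i ∧ i ≤ j ∧ finrank k F' = q ^ i ∧
      |(discr F' : ℝ)| ≤ |(discr k : ℝ)| ^ (q ^ i) *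
        ((q : ℝ) ^ i) ^ (q ^ i * Nat.totient (q ^ j)) *
        |(Algebra.norm ℤ a : ℝ)| ^ (q ^ i - 1)) := by
  have hn : q ^ j ≠ 0 := (pow_pos hq.pos _).ne'
  have : NeZero (q ^ j) := ⟨hn⟩
  have ha' : ∀ b : k, b ^ q ≠ (a : k) := by
    intro b hb
    have hbint : IsIntegral ℤ b := by
      refine IsIntegral.of_pow hq.pos ?_
      rw [hb]
      exact RingOfIntegers.isIntegral_coe a
    let b' : 𝓞 k := ⟨b, hbint⟩
    have h0 : b' ^ q = a := RingOfIntegers.ext hb
    obtain ⟨P, hPmax, hle⟩ := exists_le_maximal (span {(p : 𝓞 k)}) (by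
      rw [Ne, span_singleton_eq_top]
      intro hu
      have h3 := hu.map (Algebra.norm ℤ)
      have h4 := Algebra.norm_algebraMap (R := ℤ) (S := 𝓞 k) (p : ℤ)
      rw [show (algebraMap ℤ (𝓞 k)) (p : ℤ) = (p : 𝓞 k) by simp] at h4
      rw [h4, isUnit_pow_iff finrank_pos.ne'] at h3
      exact (Nat.prime_iff_prime_int.1 hp).not_isUnit h3)
    have hpP : (p : 𝓞 k) ∈ P := (span_singleton_le_iff_mem _).1 hle
    apply ha P hPmax.isPrime hpP b'
    rw [h0, sub_self]
    exact P.zero_mem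
  have ha0 : a ≠ 0 := by
    rintro rfl
    exact ha' 0 (by simp [hq.ne_zero])
  have hζ : (primitiveRoots (q ^ j) k).Nonempty :=
    ⟨IsCyclotomicExtension.zeta (q ^ j) ℚ k, (mem_primitiveRoots (Nat.pos_of_ne_zero hn)).2
      (IsCyclotomicExtension.zeta_spec (q ^ j) ℚ k)⟩
  obtain ⟨hfin, hgal, hcyc, hmin⟩ := kump_galois hq hq2 k hζ (a : k) ha' F t ht htop
  have hfk : finrank ℚ k = Nat.totient (q ^ j) := IsCyclotomicExtension.Rat.finrank (q ^ j) k
  have htint : IsIntegral ℤ t := by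
    refine IsIntegral.of_pow (Nat.pos_of_ne_zero hn) ?_
    rw [ht]
    exact (RingOfIntegers.isIntegral_coe a).algebraMap
  set t' : 𝓞 F := ⟨t, htint⟩ with ht'
  have htq : t' ^ q ^ j = algebraMap (𝓞 k) (𝓞 F) a := by
    apply RingOfIntegers.ext
    exact ht
  refine ⟨hfin, hgal, hcyc, ?_, ?_⟩
  · have key : ∀ P : Ideal (𝓞 F), P.IsPrime → (p : 𝓞 F) ∈ P →
        (P.under (𝓞 k)).map (algebraMap (𝓞 k) (𝓞 F)) = P := by
      intro P hP hpP
      apply map_under_eq_of_inertiaDeg_ge hp k F P hP hpP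
      rw [hfin]
      refine kump_inertiaDeg hq hq2 hp k a F t' htq P hP hpP ?_
      intro b
      refine ha _ (Ideal.IsPrime.under (𝓞 k) P) ?_ b
      rw [under_def, mem_comap, map_natCast]
      exact hpP
    intro P Q hP hQ hpP hpQ h
    rw [← key P hP hpP, ← key Q hQ hpQ, h]
  · intro F' hF'
    obtain ⟨i, hi1, hij, hi, s, hs, hsmin, hstop⟩ :=
      kump_subfields hq hq2 k hζ a ha' F t ht htop F' hF'
    refine ⟨i, hi1, hij, hi, ?_⟩
    have h1 := kump_discr_le (pow_pos hq.pos i).ne' k a ha0 F' s hs hi hsmin hstop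
    rw [← Module.finrank_mul_finrank ℚ k F', hfk, hi, mul_comm (Nat.totient _)] at h1
    push_cast at h1
    exact h1

/-- Kummer extensions of degree `q ^ j` of the `q ^ j`-th cyclotomic field. -/
theorem kummer_pow_data {q j p : ℕ} (hq : q.Prime) (hq2 : q ≠ 2) (hj : j ≠ 0) (hp : p.Prime)
    (hpq : p ≠ q) (hprim : orderOf (p : ZMod (q ^ j)) = Nat.totient (q ^ j))
    (k : Type) [Field k] [NumberField k] [IsCyclotomicExtension {q ^ j} ℚ k]
    (a : 𝓞 k) (ha : ∀ b : 𝓞 k, ¬ (p : 𝓞 k) ∣ b ^ q - a)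
    (F : Type) [Field F] [NumberField F] [Algebra k F] (t : F)
    (ht : t ^ q ^ j = algebraMap k F a) (htop : IntermediateField.adjoin k {t} = ⊤) :
    finrank k F = q ^ j ∧ IsGalois k F ∧ IsCyclic Gal(F/k) ∧
    (∃! P : Ideal (𝓞 k), P.IsPrime ∧ (p : 𝓞 k) ∈ P) ∧
    (∃! P : Ideal (𝓞 F), P.IsPrime ∧ (p : 𝓞 F) ∈ P) ∧
    (∀ F' : IntermediateField k F,
      Units.rank F' = finrank k F' * Nat.totient (q ^ j) / 2 - 1) ∧
    (∀ F' : IntermediateField k F, F' ≠ ⊥ → ∃ i : ℕ, 1 ≤ i ∧ i ≤ j ∧ finrank k F' = q ^ i ∧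
      |(discr F' : ℝ)| ≤ |(discr k : ℝ)| ^ (q ^ i) *
        ((q : ℝ) ^ i) ^ (q ^ i * Nat.totient (q ^ j)) *
        |(Algebra.norm ℤ a : ℝ)| ^ (q ^ i - 1)) := by
  have hn : q ^ j ≠ 0 := (pow_pos hq.pos _).ne'
  have : NeZero (q ^ j) := ⟨hn⟩
  have h2q : 2 < q := lt_of_le_of_ne hq.two_le (Ne.symm hq2)
  have h2n : 2 < q ^ j := lt_of_lt_of_le h2q (Nat.le_self_pow hj q)
  have hpn : ¬ p ∣ q ^ j := by
    intro h
    exact hpq ((Nat.prime_dvd_prime_iff_eq hp hq).1 (hp.dvd_of_dvd_pow h))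
  have ha' : ∀ b : k, b ^ q ≠ (a : k) := by
    intro b hb
    have hbint : IsIntegral ℤ b := by
      refine IsIntegral.of_pow hq.pos ?_
      rw [hb]
      exact RingOfIntegers.isIntegral_coe a
    let b' : 𝓞 k := ⟨b, hbint⟩
    have h0 : b' ^ q = a := RingOfIntegers.ext hb
    apply ha b'
    rw [h0, sub_self]
    exact dvd_zero _
  have ha0 : a ≠ 0 := by
    rintro rfl
    exact ha' 0 (by simp [hq.ne_zero])
  have hζ : (primitiveRoots (q ^ j) k).Nonempty :=
    ⟨IsCyclotomicExtension.zeta (q ^ j) ℚ k, (mem_primitiveRoots (Nat.pos_of_ne_zero hn)).2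
      (IsCyclotomicExtension.zeta_spec (q ^ j) ℚ k)⟩
  obtain ⟨hfin, hgal, hcyc, hmin⟩ := kump_galois hq hq2 k hζ (a : k) ha' F t ht htop
  have hfk : finrank ℚ k = Nat.totient (q ^ j) := IsCyclotomicExtension.Rat.finrank (q ^ j) k
  have hfF : finrank ℚ F = Nat.totient (q ^ j) * q ^ j := by
    rw [← Module.finrank_mul_finrank ℚ k F, hfk, hfin]
  have htint : IsIntegral ℤ t := by
    refine IsIntegral.of_pow (Nat.pos_of_ne_zero hn) ?_
    rw [ht]
    exact (RingOfIntegers.isIntegral_coe a).algebraMap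
  set t' : 𝓞 F := ⟨t, htint⟩ with ht'
  have htq : t' ^ q ^ j = algebraMap (𝓞 k) (𝓞 F) a := by
    apply RingOfIntegers.ext
    exact ht
  have hck : IsTotallyComplex k := IsCyclotomicExtension.Rat.isTotallyComplex k h2n
  refine ⟨hfin, hgal, hcyc, ?_, ?_, ?_, ?_⟩
  · refine existsUnique_of_inertiaDeg_ge hp fun P hP hpP => ?_
    rw [cycn_inertiaDeg hn hp hpn k P hP hpP, hprim, hfk]
  · refine existsUnique_of_inertiaDeg_ge hp fun P hP hpP => ?_
    have hQ : (P.under (𝓞 k)).IsPrime := Ideal.IsPrime.under (𝓞 k) P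
    have hpQ : (p : 𝓞 k) ∈ P.under (𝓞 k) := by
      rw [under_def, mem_comap, map_natCast]
      exact hpP
    have hQd := cycn_inertiaDeg hn hp hpn k _ hQ hpQ
    have hQs := eq_span_of_inertiaDeg_ge hp _ hQ hpQ (by rw [hQd, hprim, hfk])
    have h1 := kump_inertiaDeg hq hq2 hp k a F t' htq P hP hpP (fun b => by
      rw [hQs, mem_span_singleton]
      exact ha b)
    rw [inertiaDeg_tower (R := ℤ) (P.under (𝓞 k)) P, hQd, hfF, hprim]
    exact Nat.mul_le_mul_left _ h1
  · intro F'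
    have hcF : IsTotallyComplex F' := isTotallyComplex_of_algebra k F'
    rw [rank_of_totallyComplex, ← Module.finrank_mul_finrank ℚ k F', hfk, mul_comm]
  · intro F' hF'
    obtain ⟨i, hi1, hij, hi, s, hs, hsmin, hstop⟩ :=
      kump_subfields hq hq2 k hζ a ha' F t ht htop F' hF'
    refine ⟨i, hi1, hij, hi, ?_⟩
    have h1 := kump_discr_le (pow_pos hq.pos i).ne' k a ha0 F' s hs hi hsmin hstop
    rw [← Module.finrank_mul_finrank ℚ k F', hfk, hi, mul_comm (Nat.totient _)] at h1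
    push_cast at h1
    exact h1

end Pool.Agent.Work.MuY
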