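import Pool.Agent.Work.MP_a4986b_nt.YDisc
import Pool.Agent.Work.MP_a4986b_nt.YKumP

set_option autoImplicit false
set_option maxHeartbeats 400000
set_option linter.unusedSectionVars false

/-! # Kummer extensions of prime power degree -/

namespace Pool.Agent.Work.MuY

open NumberField Module IntermediateField
open Pool.Agent.Work.MuI Pool.Agent.Work.MuB

/-- a primitive root modulo `q ^ j` is one modulo `q ^ i` -/
theorem primitive_pow {p q i j : ℕ} (hq : q.Prime) (hij : i ≤ j)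
    (hprim : orderOf (p : ZMod (q ^ j)) = Nat.totient (q ^ j)) :
    orderOf (p : ZMod (q ^ i)) = Nat.totient (q ^ i) := by
  have hnj : NeZero (q ^ j) := ⟨pow_ne_zero _ hq.ne_zero⟩
  have hni : NeZero (q ^ i) := ⟨pow_ne_zero _ hq.ne_zero⟩
  have hpos : 0 < orderOf (p : ZMod (q ^ j)) := by
    rw [hprim]
    exact Nat.totient_pos.2 (pow_pos hq.pos _)
  have hu : IsUnit (p : ZMod (q ^ j)) := by
    have h1 := pow_orderOf_eq_one (p : ZMod (q ^ j))
    exact IsUnit.of_pow_eq_one h1 hpos.ne'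
  obtain ⟨u, hu⟩ := hu
  have hou : orderOf u = Nat.card (ZMod (q ^ j))ˣ := by
    rw [← orderOf_units, hu, hprim, Nat.card_eq_fintype_card, ZMod.card_units_eq_totient]
  have hdvd : q ^ i ∣ q ^ j := pow_dvd_pow q hij
  have hsurj := ZMod.unitsMap_surjective hdvd
  have hv : ((ZMod.unitsMap hdvd u : (ZMod (q ^ i))ˣ) : ZMod (q ^ i)) = p := by
    rw [ZMod.unitsMap_val, hu]
    exact ZMod.cast_natCast hdvd p
  rw [← hv, orderOf_units]
  have hgen : ∀ y : (ZMod (q ^ i))ˣ, y ∈ Subgroup.zpowers (ZMod.unitsMap hdvd u) := by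
    intro y
    obtain ⟨x, rfl⟩ := hsurj y
    have hx : x ∈ Subgroup.zpowers u := by
      have h2 : Subgroup.zpowers u = ⊤ := by
        rw [← Subgroup.card_eq_iff_eq_top, Nat.card_zpowers, hou]
      rw [h2]; trivial
    obtain ⟨z, rfl⟩ := hx
    exact ⟨z, by simp⟩
  rw [orderOf_eq_card_of_forall_mem_zpowers hgen, Nat.card_eq_fintype_card,
    ZMod.card_units_eq_totient]

/-- comparison of the norm bounds -/
theorem norm_bound {N X c1 : ℝ} (hX : 1 ≤ X) (hN : 0 ≤ N) (hc1 : 0 < c1) (hc11 : c1 ≤ 1)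
    {q i j : ℕ} (hq : q.Prime) (hi : 1 ≤ i) (hij : i ≤ j)
    (h : N ^ (q ^ j - 1) ≤ c1 ^ (q ^ j - 1) * X ^ Nat.totient (q ^ j)) :
    N ^ (q ^ i - 1) ≤ c1 * X ^ Nat.totient (q ^ i) := by
  have hn : q ^ j - 1 ≠ 0 := by
    have : 1 < q ^ j := Nat.one_lt_pow (by omega) hq.one_lt
    omega
  have hm : 1 ≤ q ^ i - 1 := by
    have : 1 < q ^ i := Nat.one_lt_pow (by omega) hq.one_lt
    omega
  have hexp : Nat.totient (q ^ j) * (q ^ i - 1) ≤ Nat.totient (q ^ i) * (q ^ j - 1) := by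
    obtain ⟨a, rfl⟩ : ∃ a, i = a + 1 := ⟨i - 1, by omega⟩
    obtain ⟨b, rfl⟩ : ∃ b, j = b + 1 := ⟨j - 1, by omega⟩
    rw [Nat.totient_prime_pow_succ hq, Nat.totient_prime_pow_succ hq]
    have hab : q ^ a ≤ q ^ b := Nat.pow_le_pow_right hq.pos (by omega)
    obtain ⟨r, hr⟩ : ∃ r, q = r + 1 := ⟨q - 1, by have := hq.pos; omega⟩
    have e1 : q ^ (a + 1) - 1 + 1 = q ^ a * q := by
      rw [← pow_succ]; exact Nat.sub_add_cancel (Nat.one_le_pow _ _ hq.pos)
    have e2 : q ^ (b + 1) - 1 + 1 = q ^ b * q := by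
      rw [← pow_succ]; exact Nat.sub_add_cancel (Nat.one_le_pow _ _ hq.pos)
    set x := q ^ (a + 1) - 1
    set y := q ^ (b + 1) - 1
    set s := q ^ a
    set t := q ^ b
    have e3 : q - 1 = r := by omega
    rw [e3]
    have h1 : t * x ≤ s * y := by
      have h2 : t * x + t = s * y + s := by
        calc t * x + t = t * (x + 1) := by ring
          _ = s * (y + 1) := by rw [e1, e2]; ring
          _ = s * y + s := by ring
      omega
    calc t * r * x = r * (t * x) := by ring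
      _ ≤ r * (s * y) := Nat.mul_le_mul_left _ h1
      _ = s * r * y := by ring
  have h1 : (N ^ (q ^ i - 1)) ^ (q ^ j - 1) ≤ (c1 * X ^ Nat.totient (q ^ i)) ^ (q ^ j - 1) := by
    calc (N ^ (q ^ i - 1)) ^ (q ^ j - 1) = (N ^ (q ^ j - 1)) ^ (q ^ i - 1) := by
          rw [← pow_mul, ← pow_mul, mul_comm]
      _ ≤ (c1 ^ (q ^ j - 1) * X ^ Nat.totient (q ^ j)) ^ (q ^ i - 1) :=
          pow_le_pow_left₀ (by positivity) h _
      _ = (c1 ^ (q ^ j - 1)) ^ (q ^ i - 1) * X ^ (Nat.totient (q ^ j) * (q ^ i - 1)) := by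
          rw [mul_pow, ← pow_mul X]
      _ ≤ (c1 ^ (q ^ j - 1)) ^ 1 * X ^ (Nat.totient (q ^ i) * (q ^ j - 1)) := by
          apply mul_le_mul
          · exact pow_le_pow_of_le_one (by positivity) (pow_le_one₀ hc1.le hc11) hm
          · exact pow_le_pow_right₀ hX hexp
          · positivity
          · positivity
      _ = _ := by rw [pow_one, mul_pow, ← pow_mul X]
  exact (pow_le_pow_iff_left₀ (by positivity) (by positivity) hn).1 h1

theorem two_mul_le_totient {q i : ℕ} (hq : q.Prime) (hq2 : q ≠ 2) (hi : i ≠ 0) :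
    2 * (q ^ i - 1) ≤ Nat.totient (q ^ i) ^ 2 := by
  have hq3 : 3 ≤ q := by
    have := hq.two_le
    omega
  obtain ⟨b, rfl⟩ : ∃ b, i = b + 1 := ⟨i - 1, by omega⟩
  rw [Nat.totient_prime_pow_succ hq]
  obtain ⟨r, hr⟩ : ∃ r, q = r + 3 := ⟨q - 3, by omega⟩
  have h5 : 1 ≤ q ^ b := Nat.one_le_pow _ _ hq.pos
  have e3 : q - 1 = r + 2 := by omega
  rw [e3, pow_succ, hr]
  rw [hr] at h5
  set s := (r + 3) ^ b with hs
  rcases Nat.eq_zero_or_pos b with hb | hb
  · have hs1 : s = 1 := by rw [hs, hb, pow_zero]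
    rw [hs1, one_mul, one_mul]
    have : r + 3 - 1 = r + 2 := by omega
    rw [this]
    nlinarith
  · have hs3 : r + 3 ≤ s := by
      rw [hs]
      calc r + 3 = (r + 3) ^ 1 := (pow_one _).symm
        _ ≤ _ := Nat.pow_le_pow_right (by omega) hb
    have h7 : s * (r + 3) ≤ s * s := Nat.mul_le_mul_left _ hs3
    have h8 : 2 ≤ (r + 2) ^ 2 := by nlinarith [Nat.zero_le r]
    calc 2 * (s * (r + 3) - 1) ≤ 2 * (s * (r + 3)) := by omega
      _ ≤ (r + 2) ^ 2 * (s * s) := Nat.mul_le_mul h8 h7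
      _ = (s * (r + 2)) ^ 2 := by ring

/-- from the norm bound to the discriminant bound -/
theorem small_of_norm {q i j : ℕ} (hq : q.Prime) (hq2 : q ≠ 2) (hi : 1 ≤ i) (hij : i ≤ j)
    (k : Type) [Field k] [NumberField k] [IsCyclotomicExtension {q ^ j} ℚ k]
    (F' : Type) [Field F'] [NumberField F'] [Algebra k F'] {p : ℕ} (hp : p.Prime) {c c1 M : ℝ}
    (hM : 0 ≤ M)
    (hAc : |(discr k : ℝ)| ^ (q ^ j) * ((q ^ j : ℕ) : ℝ) ^ (q ^ j * Nat.totient (q ^ j)) * c1 ≤ c)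
    (hdeg : finrank k F' = q ^ i)
    (hD : |(discr F' : ℝ)| ≤ |(discr k : ℝ)| ^ (q ^ i) *
      ((q : ℝ) ^ i) ^ (q ^ i * Nat.totient (q ^ j)) * M ^ (q ^ i - 1))
    (hN : M ^ (q ^ i - 1) ≤ c1 * (p : ℝ) ^ (2 * orderOf (p : ZMod (q ^ i))) *
      (1 + Real.log p) ^ (Nat.totient (q ^ j) * Nat.totient (q ^ i) - 2 * (q ^ i - 1))) :
    SmallDiscr c p k F' := by
  have hq3 : 3 ≤ q := by
    have := hq.two_le
    omega
  have hnj : NeZero (q ^ j) := ⟨pow_ne_zero _ hq.ne_zero⟩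
  set n := q ^ j with hn
  have hn3 : 3 ≤ n := by
    calc 3 ≤ q := hq3
      _ = q ^ 1 := (pow_one q).symm
      _ ≤ n := Nat.pow_le_pow_right hq.pos (by omega)
  have hd0 : (1 : ℝ) ≤ |(discr k : ℝ)| := by
    have h1 : (discr k) ≠ 0 := discr_ne_zero _
    exact_mod_cast Int.one_le_abs h1
  have hn1 : (1 : ℝ) ≤ n := by exact_mod_cast (by omega : 1 ≤ n)
  have hlog0 : 0 ≤ Real.log p := Real.log_nonneg (by exact_mod_cast hp.one_lt.le)
  set L : ℝ := 1 + Real.log p with hL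
  have hL1 : 1 ≤ L := by linarith
  have hexpn : 2 * (q ^ i - 1) ≤ Nat.totient n * Nat.totient (q ^ i) := by
    have h1 := two_mul_le_totient hq hq2 (by omega : i ≠ 0)
    have h2 : Nat.totient (q ^ i) ≤ Nat.totient n :=
      Nat.le_of_dvd (Nat.totient_pos.2 (by omega)) (Nat.totient_dvd_of_dvd (pow_dvd_pow q hij))
    rw [sq] at h1
    exact h1.trans (Nat.mul_le_mul_right _ h2)
  have hck : IsTotallyComplex k := IsCyclotomicExtension.Rat.isTotallyComplex k (by omega : 2 < n)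
  have hfk : finrank ℚ k = Nat.totient n := IsCyclotomicExtension.Rat.finrank n k
  have heven : Even (Nat.totient n) := Nat.totient_even (by omega)
  obtain ⟨g, hg⟩ := heven
  have hrank : ∀ (F' : Type) [Field F'] [NumberField F'] [Algebra k F'],
      Units.rank F' = finrank k F' * g - 1 := by
    intro F' _ _ _
    have h5 : IsTotallyComplex F' := isTotallyComplex_of_algebra k F'
    rw [rank_of_totallyComplex, ← Module.finrank_mul_finrank ℚ k F', hfk, hg]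
    congr 1
    rw [← two_mul, mul_assoc, Nat.mul_div_cancel_left _ two_pos, mul_comm]
  have hgpos : 1 ≤ g := by
    have : 0 < Nat.totient n := Nat.totient_pos.2 (by omega)
    omega
  have hqi : 1 ≤ q ^ (i - 1) := Nat.one_le_pow _ _ hq.pos
  have hqs : q ^ i = q ^ (i - 1) * q := by
    rw [← pow_succ]; congr 1; omega
  refine ⟨q ^ (i - 1) * g - 1, ?_, ?_, ?_⟩
  · rw [hrank F', hdeg, hqs]
    have : q ^ (i - 1) * g ≤ q ^ (i - 1) * q * g :=
      Nat.mul_le_mul_right g (Nat.le_mul_of_pos_right (q ^ (i - 1)) hq.pos)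
    omega
  · intro F'' hF''
    rw [hrank F'']
    have h5 : finrank k F'' * finrank F'' F' = q ^ i := by rw [finrank_mul_finrank, hdeg]
    obtain ⟨e, he, hde⟩ := (Nat.dvd_prime_pow hq).1 (Dvd.intro _ h5)
    have hei : e ≠ i := by
      rintro rfl
      apply hF''
      rw [← IntermediateField.finrank_eq_one_iff_eq_top]
      rw [hde] at h5
      exact Nat.eq_of_mul_eq_mul_left (pow_pos hq.pos _) (by rw [h5, mul_one])
    have h6 : q ^ e ≤ q ^ (i - 1) := Nat.pow_le_pow_right hq.pos (by omega)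
    rw [hde]
    have := Nat.mul_le_mul_right g h6
    omega
  · rw [hdeg]
    have hphi : Nat.totient (q ^ i) = q ^ (i - 1) * (q - 1) := Nat.totient_prime_pow hq (by omega)
    -- the exponent of `L`
    have hexp : (2 * ((Units.rank F' : ℤ) - ((q ^ (i - 1) * g - 1 : ℕ) : ℤ) -
        ((q ^ i : ℕ) : ℤ) + 1)) =
        ((Nat.totient n * Nat.totient (q ^ i) - 2 * (q ^ i - 1) : ℕ) : ℤ) := by
      rw [Nat.cast_sub hexpn, hrank F', hdeg, hg, hphi]
      have e1 : 1 ≤ q ^ i * g := Nat.mul_pos (pow_pos hq.pos _) hgpos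
      have e2 : 1 ≤ q ^ (i - 1) * g := Nat.mul_pos hqi hgpos
      have e3 : 1 ≤ q ^ i := Nat.one_le_pow _ _ hq.pos
      have e4 : 1 ≤ q := hq.one_le
      push_cast [Nat.cast_sub e1, Nat.cast_sub e2, Nat.cast_sub e3, Nat.cast_sub e4]
      have e5 : (q : ℤ) ^ i = (q : ℤ) ^ (i - 1) * q := by
        rw [← pow_succ]; congr 1; omega
      rw [e5]
      ring
    rw [hexp, zpow_natCast]
    have hA' : |(discr k : ℝ)| ^ (q ^ i) * ((q : ℝ) ^ i) ^ (q ^ i * Nat.totient n) ≤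
        |(discr k : ℝ)| ^ n * ((n : ℕ) : ℝ) ^ (n * Nat.totient n) := by
      have e1 : q ^ i ≤ n := Nat.pow_le_pow_right hq.pos hij
      have e2 : ((q : ℝ) ^ i) ≤ n := by
        have : ((q ^ i : ℕ) : ℝ) ≤ (n : ℝ) := by exact_mod_cast e1
        rwa [Nat.cast_pow] at this
      have e3 : (0 : ℝ) ≤ (q : ℝ) ^ i := by positivity
      apply mul_le_mul
      · exact pow_le_pow_right₀ hd0 e1
      · calc ((q : ℝ) ^ i) ^ (q ^ i * Nat.totient n)
            ≤ (n : ℝ) ^ (q ^ i * Nat.totient n) := pow_le_pow_left₀ e3 e2 _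
          _ ≤ _ := pow_le_pow_right₀ hn1 (Nat.mul_le_mul_right _ e1)
      · positivity
      · positivity
    set A : ℝ := |(discr k : ℝ)| ^ n * ((n : ℕ) : ℝ) ^ (n * Nat.totient n) with hA
    have hA0 : 0 ≤ A := by positivity
    set e : ℕ := Nat.totient n * Nat.totient (q ^ i) - 2 * (q ^ i - 1)
    set f : ℕ := orderOf (p : ZMod (q ^ i))
    calc |(discr F' : ℝ)| ≤ |(discr k : ℝ)| ^ (q ^ i) * ((q : ℝ) ^ i) ^ (q ^ i * Nat.totient n) *
          M ^ (q ^ i - 1) := hD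
      _ ≤ A * (c1 * (p : ℝ) ^ (2 * f) * L ^ e) := by
          apply mul_le_mul hA' hN (by positivity) hA0
      _ = (A * c1) * ((p : ℝ) ^ (2 * f) * L ^ e) := by ring
      _ ≤ c * ((p : ℝ) ^ (2 * f) * L ^ e) :=
          mul_le_mul_of_nonneg_right hAc (by positivity)
      _ = _ := by ring

/-- Kummer extensions of degree `q ^ j` of the `q ^ j`-th cyclotomic field, all `p` -/
theorem kummer_rel (q j : ℕ) (hq : q.Prime) (hq2 : q ≠ 2) (hj : j ≠ 0) (k : Type) [Field k]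
    [NumberField k] [IsCyclotomicExtension {q ^ j} ℚ k] : ∃ c : ℝ, 0 < c ∧
    ∀ p : ℕ, p.Prime → p ≠ 2 → p ≠ q → ∀ a : 𝓞 k,
      (∀ P : Ideal (𝓞 k), P.IsPrime → (p : 𝓞 k) ∈ P → ∀ b : 𝓞 k, b ^ q - a ∉ P) →
      (∀ i : ℕ, 1 ≤ i → i ≤ j → |(Algebra.norm ℤ a : ℝ)| ^ (q ^ i - 1) ≤
        c * (p : ℝ) ^ (2 * orderOf (p : ZMod (q ^ i))) *
        (1 + Real.log p) ^ (Nat.totient (q ^ j) * Nat.totient (q ^ i) - 2 * (q ^ i - 1))) →
      ∀ (F : Type) [Field F] [NumberField F] [Algebra k F] (t : F),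
        t ^ q ^ j = algebraMap k F a →
        IntermediateField.adjoin k {t} = ⊤ → RelExtensions p k F := by
  have hq3 : 3 ≤ q := by
    have := hq.two_le
    omega
  set n := q ^ j with hn
  have hn3 : 3 ≤ n := by
    calc 3 ≤ q := hq3
      _ = q ^ 1 := (pow_one q).symm
      _ ≤ n := Nat.pow_le_pow_right hq.pos (by omega)
  obtain ⟨c, hc, h⟩ := small_discr k n
  set A : ℝ := |(discr k : ℝ)| ^ n * ((n : ℕ) : ℝ) ^ (n * Nat.totient n) with hA
  have hd0 : (1 : ℝ) ≤ |(discr k : ℝ)| := by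
    have h1 : (discr k) ≠ 0 := discr_ne_zero _
    exact_mod_cast Int.one_le_abs h1
  have hn1 : (1 : ℝ) ≤ n := by exact_mod_cast (by omega : 1 ≤ n)
  have hA1 : (1 : ℝ) ≤ A := one_le_mul_of_one_le_of_one_le (one_le_pow₀ hd0) (one_le_pow₀ hn1)
  refine ⟨c / A, div_pos hc (by linarith), ?_⟩
  intro p hp hp2 hpq a ha hN F _ _ _ t ht htop
  obtain ⟨hF, hgal, hcyc, hns, hD⟩ := kummer_pow_gen hq hq2 hj hp hpq k a ha F t ht htop
  have hab : IsAbelianGalois k F := IsAbelianGalois.of_isCyclic k F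
  have hpn : ¬ p ∣ n := fun h5 =>
    hpq ((Nat.prime_dvd_prime_iff_eq hp hq).1 (hp.dvd_of_dvd_pow h5))
  refine (h F p hp hp2 hF hpn).1 k hns fun F' _ hF' => ?_
  obtain ⟨i, hi, hij, hdeg, hD'⟩ := hD F' ((not_range_iff F').1 hF')
  refine small_of_norm (c := c) (c1 := c / A) hq hq2 hi hij k F' hp (abs_nonneg _) ?_ hdeg hD'
    (hN i hi hij)
  rw [← hn, ← hA, mul_div_cancel₀ _ (by linarith : A ≠ 0)]

/-- Kummer extensions of degree `q ^ j` of the `q ^ j`-th cyclotomic field, `p` inert -/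
theorem kummer_pow (q j : ℕ) (hq : q.Prime) (hq2 : q ≠ 2) (hj : j ≠ 0) (k : Type) [Field k]
    [NumberField k] [IsCyclotomicExtension {q ^ j} ℚ k] : ∃ c : ℝ, 0 < c ∧
    ∀ p : ℕ, p.Prime → p ≠ 2 → orderOf (p : ZMod (q ^ j)) = Nat.totient (q ^ j) →
      ∀ a : 𝓞 k, (∀ b : 𝓞 k, ¬ (p : 𝓞 k) ∣ b ^ q - a) →
      |(Algebra.norm ℤ a : ℝ)| ^ (q ^ j - 1) ≤ c * (p : ℝ) ^ (2 * Nat.totient (q ^ j)) *
        (1 + Real.log p) ^ (Nat.totient (q ^ j) ^ 2 - 2 * (q ^ j - 1)) →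
      ∀ (F : Type) [Field F] [NumberField F] [Algebra k F] (t : F),
        t ^ q ^ j = algebraMap k F a →
        IntermediateField.adjoin k {t} = ⊤ →
        (∃! P : Ideal (𝓞 F), P.IsPrime ∧ (p : 𝓞 F) ∈ P) ∧
          ¬ p ∣ Nat.card (ClassGroup (𝓞 F)) ∧ Extensions p F := by
  have hq3 : 3 ≤ q := by
    have := hq.two_le
    omega
  set n := q ^ j with hn
  have hn3 : 3 ≤ n := by
    calc 3 ≤ q := hq3
      _ = q ^ 1 := (pow_one q).symm
      _ ≤ n := Nat.pow_le_pow_right hq.pos (by omega)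
  obtain ⟨c, hc, h⟩ := small_discr k n
  set A : ℝ := |(discr k : ℝ)| ^ n * ((n : ℕ) : ℝ) ^ (n * Nat.totient n) with hA
  have hd0 : (1 : ℝ) ≤ |(discr k : ℝ)| := by
    have h1 : (discr k) ≠ 0 := discr_ne_zero _
    exact_mod_cast Int.one_le_abs h1
  have hn1 : (1 : ℝ) ≤ n := by exact_mod_cast (by omega : 1 ≤ n)
  have hA1 : (1 : ℝ) ≤ A := one_le_mul_of_one_le_of_one_le (one_le_pow₀ hd0) (one_le_pow₀ hn1)
  set c1 : ℝ := min 1 (c / A) with hc1
  have hc1pos : 0 < c1 := lt_min one_pos (div_pos hc (by linarith))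
  have hc11 : c1 ≤ 1 := min_le_left _ _
  have hAc1 : A * c1 ≤ c := by
    have : A * c1 ≤ A * (c / A) := mul_le_mul_of_nonneg_left (min_le_right _ _) (by linarith)
    rwa [mul_div_cancel₀ _ (by linarith : A ≠ 0)] at this
  refine ⟨c1 ^ (n - 1), pow_pos hc1pos _, ?_⟩
  intro p hp hp2 hprim a ha hN F _ _ _ t ht htop
  have hpq : p ≠ q := by
    rintro rfl
    have h1 : (p : ZMod n) ^ j = 0 := by
      rw [← Nat.cast_pow, ← hn, ZMod.natCast_self]
    have hpos : 0 < orderOf (p : ZMod n) := by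
      rw [hprim]; exact Nat.totient_pos.2 (by omega)
    have h2 : IsUnit (p : ZMod n) := IsUnit.of_pow_eq_one (pow_orderOf_eq_one _) hpos.ne'
    have h3 : IsUnit ((p : ZMod n) ^ j) := h2.pow j
    rw [h1] at h3
    have h4 : Nontrivial (ZMod n) := ZMod.nontrivial_iff.2 (by omega)
    exact not_isUnit_zero h3
  obtain ⟨hF, hgal, hcyc, -, hone, -, hD⟩ := kummer_pow_data hq hq2 hj hp hpq hprim k a ha F t
    ht htop
  have hab : IsAbelianGalois k F := IsAbelianGalois.of_isCyclic k F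
  have hpn : ¬ p ∣ n := fun h5 =>
    hpq ((Nat.prime_dvd_prime_iff_eq hp hq).1 (hp.dvd_of_dvd_pow h5))
  have hlog0 : 0 ≤ Real.log p := Real.log_nonneg (by exact_mod_cast hp.one_lt.le)
  set L : ℝ := 1 + Real.log p with hL
  have hL1 : 1 ≤ L := by linarith
  have hp1 : (1 : ℝ) ≤ p := by exact_mod_cast hp.one_lt.le
  set X : ℝ := (p : ℝ) ^ 2 * L ^ Nat.totient n with hX
  have hX1 : 1 ≤ X := one_le_mul_of_one_le_of_one_le (one_le_pow₀ hp1) (one_le_pow₀ hL1)
  set M : ℝ := |(Algebra.norm ℤ a : ℝ)| with hM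
  have hexpn : 2 * (n - 1) ≤ Nat.totient n ^ 2 := two_mul_le_totient hq hq2 hj
  have hhyp : (M * L ^ 2) ^ (n - 1) ≤ c1 ^ (n - 1) * X ^ Nat.totient n := by
    calc (M * L ^ 2) ^ (n - 1) = M ^ (n - 1) * L ^ (2 * (n - 1)) := by
          rw [mul_pow, ← pow_mul]
      _ ≤ (c1 ^ (n - 1) * (p : ℝ) ^ (2 * Nat.totient n) *
          L ^ (Nat.totient n ^ 2 - 2 * (n - 1))) * L ^ (2 * (n - 1)) := by gcongr
      _ = c1 ^ (n - 1) * ((p : ℝ) ^ (2 * Nat.totient n) *
          L ^ (Nat.totient n ^ 2 - 2 * (n - 1) + 2 * (n - 1))) := by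
          rw [pow_add]; ring
      _ = c1 ^ (n - 1) * X ^ Nat.totient n := by
          rw [Nat.sub_add_cancel hexpn, hX, mul_pow, ← pow_mul, ← pow_mul, sq (Nat.totient n)]
  refine ⟨hone, (h F p hp hp2 hF hpn).2 (by omega) hone fun F' _ hF' => ?_⟩
  obtain ⟨i, hi, hij, hdeg, hD'⟩ := hD F' hF'
  refine small_of_norm (c := c) (c1 := c1) hq hq2 hi hij k F' hp (abs_nonneg _) ?_ hdeg hD' ?_
  · rw [← hn, ← hA]
    exact hAc1
  · rw [primitive_pow hq hij hprim, ← hn, ← hM, ← hL]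
    have h5 := norm_bound (N := M * L ^ 2) (X := X) hX1 (by positivity) hc1pos hc11 hq hi hij hhyp
    have hexpi : 2 * (q ^ i - 1) ≤ Nat.totient n * Nat.totient (q ^ i) := by
      have h1 := two_mul_le_totient hq hq2 (by omega : i ≠ 0)
      have h2 : Nat.totient (q ^ i) ≤ Nat.totient n :=
        Nat.le_of_dvd (Nat.totient_pos.2 (by omega)) (Nat.totient_dvd_of_dvd (pow_dvd_pow q hij))
      rw [sq] at h1
      exact h1.trans (Nat.mul_le_mul_right _ h2)
    have hLpos : 0 < L ^ (2 * (q ^ i - 1)) := by positivity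
    refine le_of_mul_le_mul_right ?_ hLpos
    calc M ^ (q ^ i - 1) * L ^ (2 * (q ^ i - 1)) = (M * L ^ 2) ^ (q ^ i - 1) := by
          rw [mul_pow, ← pow_mul]
      _ ≤ c1 * X ^ Nat.totient (q ^ i) := h5
      _ = c1 * (p : ℝ) ^ (2 * Nat.totient (q ^ i)) * L ^ (Nat.totient n * Nat.totient (q ^ i) -
          2 * (q ^ i - 1) + 2 * (q ^ i - 1)) := by
          rw [Nat.sub_add_cancel hexpi, hX, mul_pow, ← pow_mul, ← pow_mul]; ring
      _ = _ := by rw [pow_add]; ring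

end Pool.Agent.Work.MuY
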