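import Pool.Agent.Work.MP_a4986b_nt.YCplx
import Pool.Agent.Work.MP_a4986b_nt.YBase
import Pool.Agent.Work.MP_a4986b_nt.YBound
import Pool.Agent.Work.MP_a4986b_nt.YKum
import Pool.Agent.Work.MP_a4986b_nt.BConcl

set_option autoImplicit false
set_option maxHeartbeats 400000
set_option linter.unusedSectionVars false

/-! # Cyclic extensions of prime degree -/

namespace Pool.Agent.Work.MuY

open NumberField Module
open Pool.Agent.Work.MuI Pool.Agent.Work.MuB

/-- (1) -/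
theorem layers (k : IntermediateField ℚ ℂ) [NumberField k] (q : ℕ) (hq : q.Prime) :
    ∃ c : ℝ, 0 < c ∧ ∀ (F : IntermediateField k ℂ) [NumberField F] [IsGalois k F] (p : ℕ),
      p.Prime → p ≠ 2 → p ≠ q → finrank k F = q →
      (∀ P Q : Ideal (𝓞 F), P.IsPrime → Q.IsPrime → (p : 𝓞 F) ∈ P → (p : 𝓞 F) ∈ Q →
        P.under (𝓞 k) = Q.under (𝓞 k) → P = Q) →
      |(discr F : ℝ)| ≤ c * (p : ℝ) ^ (2 * orderOf (p : ZMod q)) *
        (1 + Real.log p) ^ (2 * ((Units.rank F : ℤ) - Units.rank k - q + 1)) →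
      ∀ (m : ℕ) (E : IntermediateField ℚ ℂ),
        E ≤ IntermediateField.adjoin ℚ {z : ℂ | z ^ (p ^ (m + 1)) = 1} →
        finrank ℚ E = p ^ m →
        padicValNat p (Nat.card (ClassGroup (𝓞 ↥(F.restrictScalars ℚ ⊔ E)))) =
          padicValNat p (Nat.card (ClassGroup (𝓞 ↥(k ⊔ E)))) := by
  obtain ⟨c, hc, h⟩ := class_lt k q hq
  refine ⟨c, hc, ?_⟩
  intro F _ _ p hp hp2 hpq hF hns hD m E hE hEd
  obtain ⟨h1, -⟩ := h F p hp hpq hF hD
  exact layers_padic hp hp2 hq hpq k F hF (fun s hs => base_case hp hq hpq s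
    (by rw [← hs]; exact pow_orderOf_eq_one s) h1) hns m E hE hEd

theorem one_prime {k : Type} [Field k] [NumberField k] {q p : ℕ} (hq : q.Prime)
    (F : Type) [Field F] [NumberField F] [Algebra k F] [IsGalois k F] (hp : p.Prime)
    (hp2 : p ≠ 2) (hpq : p ≠ q) (hF : finrank k F = q)
    (hone : ∃! P : Ideal (𝓞 F), P.IsPrime ∧ (p : 𝓞 F) ∈ P)
    (h1 : Nat.card (ClassGroup (𝓞 F)) < p ^ orderOf (p : ZMod q))
    (h2 : Nat.card (ClassGroup (𝓞 k)) < p) :
    ¬ p ∣ Nat.card (ClassGroup (𝓞 F)) ∧ Extensions p F := by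
  have hqf : Fact q.Prime := ⟨hq⟩
  have hpf : Fact p.Prime := ⟨hp⟩
  obtain ⟨s, hs⟩ : ∃ s : Gal(F/k), orderOf s = q := by
    apply exists_prime_orderOf_dvd_card' q
    rw [IsGalois.card_aut_eq_finrank, hF]
  have hsq : s ^ q = 1 := by rw [← hs]; exact pow_orderOf_eq_one s
  have h3 := fix_padic hp hq hpq hF s hs (base_case hp hq hpq s hsq h1)
  have h4 : ¬ p ∣ Nat.card (ClassGroup (𝓞 k)) := by
    intro h
    exact absurd (Nat.le_of_dvd Nat.card_pos h) (not_le.2 h2)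
  have h5 : ¬ p ∣ Nat.card (ClassGroup (𝓞 F)) := by
    intro h
    have h6 : 1 ≤ padicValNat p (Nat.card (ClassGroup (𝓞 F))) :=
      one_le_padicValNat_of_dvd Nat.card_pos.ne' h
    rw [h3, padicValNat.eq_zero_of_not_dvd h4] at h6
    omega
  exact ⟨h5, extensions hp hp2 h5 hone⟩

/-- (2) -/
theorem single (k : Type) [Field k] [NumberField k] (q : ℕ) (hq : q.Prime) :
    ∃ c : ℝ, 0 < c ∧ ∀ (F : Type) [Field F] [NumberField F] [Algebra k F] [IsGalois k F] (p : ℕ),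
      p.Prime → p ≠ 2 → p ≠ q → finrank k F = q →
      (∃! P : Ideal (𝓞 F), P.IsPrime ∧ (p : 𝓞 F) ∈ P) →
      |(discr F : ℝ)| ≤ c * (p : ℝ) ^ (2 * orderOf (p : ZMod q)) *
        (1 + Real.log p) ^ (2 * ((Units.rank F : ℤ) - Units.rank k - q + 1)) →
      ¬ p ∣ Nat.card (ClassGroup (𝓞 F)) ∧ Extensions p F := by
  obtain ⟨c, hc, h⟩ := class_lt k q hq
  refine ⟨c, hc, ?_⟩
  intro F _ _ _ _ p hp hp2 hpq hF hone hD
  obtain ⟨h1, h2⟩ := h F p hp hpq hF hD
  exact one_prime hq F hp hp2 hpq hF hone h1 h2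

/-- (3) -/
theorem kummer (q : ℕ) (hq : q.Prime) (hq2 : q ≠ 2) (k : Type) [Field k] [NumberField k]
    [IsCyclotomicExtension {q} ℚ k] : ∃ c : ℝ, 0 < c ∧
    ∀ p : ℕ, p.Prime → p ≠ 2 → orderOf (p : ZMod q) = q - 1 →
      ∀ a : 𝓞 k, (∀ b : 𝓞 k, ¬ (p : 𝓞 k) ∣ b ^ q - a) →
      |(Algebra.norm ℤ a : ℝ)| ≤ c * (p : ℝ) ^ 2 * (1 + Real.log p) ^ (q - 3) →
      ∀ (F : Type) [Field F] [NumberField F] [Algebra k F] (t : F),
        t ^ q = algebraMap k F a →
        IntermediateField.adjoin k {t} = ⊤ →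
        ¬ p ∣ Nat.card (ClassGroup (𝓞 F)) ∧ Extensions p F := by
  have : NeZero q := ⟨hq.ne_zero⟩
  have hqf : Fact q.Prime := ⟨hq⟩
  have h2q : 3 ≤ q := by
    have := hq.two_le
    omega
  obtain ⟨c, hc, h⟩ := class_lt k q hq
  set A : ℝ := |(discr k : ℝ)| ^ q * (q : ℝ) ^ (q * (q - 1)) with hA
  have hd0 : (1 : ℝ) ≤ |(discr k : ℝ)| := by
    have h1 : (discr k) ≠ 0 := discr_ne_zero _
    exact_mod_cast Int.one_le_abs h1
  have hA1 : (1 : ℝ) ≤ A := by
    apply one_le_mul_of_one_le_of_one_le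
    · exact one_le_pow₀ hd0
    · exact one_le_pow₀ (by exact_mod_cast hq.one_lt.le)
  set c1 : ℝ := min 1 (c / A) with hc1
  have hc1pos : 0 < c1 := lt_min one_pos (div_pos hc (by linarith))
  have hc1le : c1 ^ (q - 1) ≤ c / A := by
    have h1 : c1 ^ (q - 1) ≤ c1 ^ 1 := by
      apply pow_le_pow_of_le_one hc1pos.le (min_le_left _ _)
      omega
    rw [pow_one] at h1
    exact h1.trans (min_le_right _ _)
  refine ⟨c1, hc1pos, ?_⟩
  intro p hp hp2 hprim a ha hN F _ _ _ t ht htop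
  have hpq : p ≠ q := by
    rintro rfl
    rw [ZMod.natCast_self, orderOf_eq_zero] at hprim
    · omega
    · intro h0
      rw [isOfFinOrder_iff_pow_eq_one] at h0
      obtain ⟨n, hn, h0⟩ := h0
      rw [zero_pow hn.ne'] at h0
      exact zero_ne_one h0
  obtain ⟨hF, hgal, -, hone, hrk, hrF, hD⟩ := kummer_data hq hq2 hp hpq hprim
    k a ha F t ht htop
  have hlog : (0 : ℝ) < 1 + Real.log p := by
    have : (1 : ℝ) ≤ p := by exact_mod_cast hp.one_lt.le
    have := Real.log_nonneg this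
    linarith
  have hexp : 2 * ((Units.rank F : ℤ) - Units.rank k - q + 1) =
      ((q - 1) * (q - 3) : ℕ) := by
    obtain ⟨r, hr⟩ : ∃ r, q = 2 * r + 3 := by
      obtain ⟨r, hr⟩ := hq.odd_of_ne_two hq2
      exact ⟨r - 1, by omega⟩
    have e1 : q - 3 = 2 * r := by omega
    have e2 : q - 1 = 2 * r + 2 := by omega
    have e3 : q * (q - 1) / 2 = (2 * r + 3) * (r + 1) := by
      rw [e2, hr]
      have : (2 * r + 3) * (2 * r + 2) = 2 * ((2 * r + 3) * (r + 1)) := by ring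
      rw [this, Nat.mul_div_cancel_left _ two_pos]
    have e4 : 1 ≤ (2 * r + 3) * (r + 1) := Nat.mul_pos (by omega) (by omega)
    rw [hrk, hrF, e3, e1, e2, Nat.mul_div_cancel_left _ two_pos, Nat.cast_sub e4, hr]
    push_cast
    ring
  have hD' : |(discr F : ℝ)| ≤ c * (p : ℝ) ^ (2 * orderOf (p : ZMod q)) *
      (1 + Real.log p) ^ (2 * ((Units.rank F : ℤ) - Units.rank k - q + 1)) := by
    rw [hexp, zpow_natCast, hprim]
    calc |(discr F : ℝ)| ≤ A * |(Algebra.norm ℤ a : ℝ)| ^ (q - 1) := hD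
      _ ≤ A * (c1 * (p : ℝ) ^ 2 * (1 + Real.log p) ^ (q - 3)) ^ (q - 1) := by
          gcongr
      _ = A * c1 ^ (q - 1) * ((p : ℝ) ^ (2 * (q - 1)) *
            (1 + Real.log p) ^ ((q - 1) * (q - 3))) := by
          rw [mul_pow, mul_pow, ← pow_mul, ← pow_mul, mul_comm (q - 3) (q - 1)]
          ring
      _ ≤ c * ((p : ℝ) ^ (2 * (q - 1)) * (1 + Real.log p) ^ ((q - 1) * (q - 3))) := by
          gcongr
          have : A * c1 ^ (q - 1) ≤ A * (c / A) := by gcongr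
          rwa [mul_div_cancel₀] at this
          linarith
      _ = _ := by ring
  obtain ⟨h1, h2⟩ := h F p hp hpq hF hD'
  exact one_prime hq F hp hp2 hpq hF hone h1 h2

end Pool.Agent.Work.MuY
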