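import Pool.Agent.Work.MP_a4986b_nt.YTow
import Pool.Agent.Work.MP_a4986b_nt.YFix

set_option autoImplicit false
set_option maxHeartbeats 400000
set_option linter.unusedSectionVars false

/-! # The new part of the class group -/

namespace Pool.Agent.Work.MuY

open NumberField Module
open scoped Pointwise nonZeroDivisors
open Pool.Agent.Work.MuI Pool.Agent.Work.MuI.Step

section

variable {k F : Type*} [Field k] [NumberField k] [Field F] [NumberField F] [Algebra k F]

/-- classes of order `p` killed by the norms of all subgroups of prime order -/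
noncomputable def newPart (k F : Type*) [Field k] [NumberField k] [Field F] [NumberField F]
    [Algebra k F] (p : ℕ) : Subgroup (ClassGroup (𝓞 F)) where
  carrier := {c | c ^ p = 1 ∧ ∀ τ : Gal(F/k), (orderOf τ).Prime →
    ambNu (clAct τ) (orderOf τ) c = 1}
  mul_mem' := by
    rintro x y ⟨h1, h2⟩ ⟨h3, h4⟩
    exact ⟨by rw [mul_pow, h1, h3, one_mul], fun τ hτ => by rw [map_mul, h2 τ hτ, h4 τ hτ, one_mul]⟩
  one_mem' := ⟨one_pow _, fun τ _ => map_one _⟩
  inv_mem' := by
    rintro x ⟨h1, h2⟩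
    exact ⟨by rw [inv_pow, h1, inv_one], fun τ hτ => by rw [map_inv, h2 τ hτ, inv_one]⟩

theorem mem_newPart {p : ℕ} {c : ClassGroup (𝓞 F)} : c ∈ newPart k F p ↔ c ^ p = 1 ∧
    ∀ τ : Gal(F/k), (orderOf τ).Prime → ambNu (clAct τ) (orderOf τ) c = 1 := Iff.rfl

theorem clAct_comm [IsAbelianGalois k F] (g h : Gal(F/k)) (c : ClassGroup (𝓞 F)) :
    clAct g (clAct h c) = clAct h (clAct g c) := by
  rw [← clAct_mul, ← clAct_mul]
  congr 2
  exact (IsMulCommutative.is_comm (M := Gal(F/k))).comm _ _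

theorem clAct_mem_newPart [IsAbelianGalois k F] {p : ℕ} (g : Gal(F/k)) {c : ClassGroup (𝓞 F)}
    (hc : c ∈ newPart k F p) : clAct g c ∈ newPart k F p := by
  rw [mem_newPart] at hc ⊢
  refine ⟨by rw [← map_pow, hc.1, map_one], fun τ hτ => ?_⟩
  have h1 := map_ambNu (clAct g : ClassGroup (𝓞 F) →* ClassGroup (𝓞 F)) (clAct τ) (clAct τ)
    (fun x => clAct_comm g τ x) (orderOf τ) c
  rw [hc.2 τ hτ, map_one] at h1
  exact h1.symm

theorem fixed_newPart {p : ℕ} (hp : p.Prime) (hpd : ¬ p ∣ Nat.card Gal(F/k)) (g : Gal(F/k))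
    (hg : g ≠ 1) {c : ClassGroup (𝓞 F)} (hc : c ∈ newPart k F p) (hgc : clAct g c = c) : c = 1 := by
  have hfin : Finite Gal(F/k) := inferInstance
  have hord : orderOf g ≠ 1 := fun h => hg (orderOf_eq_one_iff.1 h)
  set l := (orderOf g).minFac with hl
  have hlp : l.Prime := Nat.minFac_prime hord
  have hdvd : l ∣ orderOf g := Nat.minFac_dvd _
  obtain ⟨m, hm⟩ := hdvd
  have hpos : 0 < orderOf g := orderOf_pos g
  have hm0 : m ≠ 0 := by
    rintro rfl
    rw [mul_zero] at hm
    omega
  have hτ : orderOf (g ^ m) = l := by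
    rw [orderOf_pow' g hm0, hm, Nat.gcd_eq_right (Dvd.intro_left l rfl),
      Nat.mul_div_cancel _ (Nat.pos_of_ne_zero hm0)]
  have h1 := (mem_newPart.1 hc).2 (g ^ m) (by rw [hτ]; exact hlp)
  have h2 : clAct (g ^ m) c = c := by
    rw [clAct_pow]
    have : ∀ n : ℕ, ((clAct g) ^ n) c = c := by
      intro n
      induction n with
      | zero => rfl
      | succ n ih =>
        rw [pow_succ]
        change ((clAct g) ^ n) (clAct g c) = c
        rw [hgc, ih]
    exact this m
  rw [ambNu_of_fixed _ _ h2, hτ] at h1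
  have hlc : l ∣ Nat.card Gal(F/k) := (Dvd.intro m hm.symm).trans (orderOf_dvd_natCard g)
  have hpl : p ≠ l := by
    rintro h
    exact hpd (h ▸ hlc)
  have h5 : c ∈ (⊥ : Subgroup (ClassGroup (𝓞 F))) :=
    mem_of_pow_mem ((Nat.coprime_primes hp hlp).2 hpl)
      (by rw [(mem_newPart.1 hc).1]; exact Subgroup.one_mem _)
      (by rw [h1]; exact Subgroup.one_mem _)
  exact Subgroup.mem_bot.1 h5

/-- the group order divides `|newPart| - 1` -/
theorem card_newPart [IsAbelianGalois k F] {p : ℕ} (hp : p.Prime)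
    (hpd : ¬ p ∣ Nat.card Gal(F/k)) :
    Nat.card Gal(F/k) ∣ Nat.card (newPart k F p) - 1 := by
  classical
  let β := {c : newPart k F p // c ≠ 1}
  let act : MulAction Gal(F/k) β :=
    { smul := fun g c => ⟨⟨clAct g c.1.1, clAct_mem_newPart g c.1.2⟩, by
        intro h
        apply c.2
        apply Subtype.ext
        have h1 : clAct g c.1.1 = 1 := congrArg Subtype.val h
        exact (clAct g).injective (h1.trans (map_one _).symm)⟩
      one_smul := fun c => by
        apply Subtype.ext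
        apply Subtype.ext
        show clAct 1 c.1.1 = c.1.1
        rw [clAct_one]
        rfl
      mul_smul := fun g h c => by
        apply Subtype.ext
        apply Subtype.ext
        exact clAct_mul g h c.1.1 }
  have hst : ∀ b : β, MulAction.stabilizer Gal(F/k) b = ⊥ := by
    intro b
    rw [Subgroup.eq_bot_iff_forall]
    intro g hg
    by_contra hne
    apply b.2
    apply Subtype.ext
    have h1 : g • b = b := hg
    have h2 : clAct g b.1.1 = b.1.1 := congrArg (fun x : β => x.1.1) h1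
    exact fixed_newPart hp hpd g hne b.1.2 h2
  have e := MulAction.selfEquivOrbitsQuotientProd hst
  have h1 : Nat.card β = Nat.card (Quotient (MulAction.orbitRel Gal(F/k) β)) *
      Nat.card Gal(F/k) := by
    rw [Nat.card_congr e, Nat.card_prod]
  have h2 : Nat.card β = Nat.card (newPart k F p) - 1 := by
    have := Fintype.ofFinite (newPart k F p)
    rw [Nat.card_eq_fintype_card, Nat.card_eq_fintype_card, Fintype.card_subtype_compl,
      Fintype.card_subtype_eq]
  rw [← h2, h1]
  exact Dvd.intro_left _ rfl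

theorem card_newPart_pow [IsAbelianGalois k F] {p d : ℕ} (hp : p.Prime) (hd : finrank k F = d)
    (hpd : ¬ p ∣ d) : ∃ m, Nat.card (newPart k F p) = p ^ m ∧ orderOf (p : ZMod d) ∣ m := by
  have hcard : Nat.card Gal(F/k) = d := by rw [IsGalois.card_aut_eq_finrank, hd]
  have hpf : Fact p.Prime := ⟨hp⟩
  have hpg : IsPGroup p (newPart k F p) := by
    intro x
    refine ⟨1, ?_⟩
    apply Subtype.ext
    rw [pow_one, SubmonoidClass.coe_pow, (mem_newPart.1 x.2).1]
    rfl
  obtain ⟨m, hm⟩ := IsPGroup.iff_card.1 hpg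
  refine ⟨m, hm, ?_⟩
  have h1 := card_newPart (k := k) (F := F) hp (by rw [hcard]; exact hpd)
  rw [hcard, hm] at h1
  rw [orderOf_dvd_iff_pow_eq_one]
  have h2 : (p ^ m : ℕ) ≡ 1 [MOD d] := by
    apply Nat.ModEq.symm
    rw [Nat.modEq_iff_dvd' (Nat.one_le_pow _ _ hp.pos)]
    exact h1
  have h3 := (ZMod.natCast_eq_natCast_iff _ _ _).2 h2
  rwa [Nat.cast_pow, Nat.cast_one] at h3

end

/-- the norm to a subfield of prime index -/
theorem padic_ker {K L : Type*} [Field K] [NumberField K] [Field L] [NumberField L] [Algebra K L]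
    {p l : ℕ} (hp : p.Prime) (hl : l.Prime) (hpl : p ≠ l) (hd : finrank K L = l)
    (N : ClassGroup (𝓞 L) →* ClassGroup (𝓞 K))
    (hN : ∀ a, N (ClassGroup.extendedHom (𝓞 K) (𝓞 L) a) = a ^ finrank K L) :
    padicValNat p (Nat.card N.ker) + padicValNat p (Nat.card (ClassGroup (𝓞 K))) =
      padicValNat p (Nat.card (ClassGroup (𝓞 L))) := by
  have hpf : Fact p.Prime := ⟨hp⟩
  have hcok : ¬ p ∣ Nat.card (ClassGroup (𝓞 K) ⧸ N.range) := by
    intro hdvd
    obtain ⟨x, hx⟩ := exists_prime_orderOf_dvd_card' p hdvd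
    obtain ⟨b, rfl⟩ := QuotientGroup.mk_surjective x
    have h1 : ((b : ClassGroup (𝓞 K) ⧸ N.range)) ^ l = 1 := by
      have h2 : b ^ l ∈ N.range := ⟨_, by rw [hN, hd]⟩
      exact (QuotientGroup.eq_one_iff (b ^ l)).2 h2
    have h3 := orderOf_dvd_of_pow_eq_one h1
    rw [hx] at h3
    exact hpl ((Nat.prime_dvd_prime_iff_eq hp hl).1 h3)
  have h := card_ker_coker N
  have h1 := congrArg (padicValNat p) h
  rw [padicValNat.mul Nat.card_pos.ne' Nat.card_pos.ne',
    padicValNat.mul Nat.card_pos.ne' Nat.card_pos.ne', padicValNat.eq_zero_of_not_dvd hcok,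
    add_zero] at h1
  omega

end Pool.Agent.Work.MuY
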