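import Pool.Agent.Work.MP_a4986b_nt.YStep

set_option autoImplicit false
set_option maxHeartbeats 400000
set_option linter.unusedSectionVars false

/-! # The rank of the units of norm one -/

namespace Pool.Agent.Work.MuY

open NumberField Module
open scoped Pointwise nonZeroDivisors
open Pool.Agent.Work.MuI Pool.Agent.Work.MuI.Step

attribute [local instance] Units.mulDistribMulActionRight

/-- the unit rank in a Galois extension of odd degree -/
theorem rank_odd (k A : Type*) [Field k] [NumberField k] [Field A] [NumberField A] [Algebra k A]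
    [IsGalois k A] (hodd : Odd (finrank k A)) :
    Units.rank A + 1 = finrank k A * (Units.rank k + 1) := by
  have := IsUnramifiedAtInfinitePlaces_of_odd_finrank hodd
  have h2 := IsUnramifiedAtInfinitePlaces.card_infinitePlace k A
  have h3 : 0 < Fintype.card (InfinitePlace k) := Fintype.card_pos
  have h4 : 0 < Fintype.card (InfinitePlace A) := Fintype.card_pos
  unfold Units.rank
  rw [Nat.sub_add_cancel h3, Nat.sub_add_cancel h4, h2, mul_comm]

section

variable {k X : Type*} [Field k] [NumberField k] [Field X] [NumberField X] [Algebra k X]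

theorem mem_fixed (τ : Gal(X/k)) (x : X) (hx : τ x = x) :
    x ∈ IntermediateField.fixedField (Subgroup.zpowers τ) := by
  rw [IntermediateField.mem_fixedField_iff]
  rintro g hg
  obtain ⟨n, rfl⟩ := Subgroup.mem_zpowers_iff.1 hg
  have h1 : τ ∈ MulAction.stabilizer Gal(X/k) x := hx
  exact Subgroup.zpow_mem _ h1 n

theorem unit_of_fixed' (τ : Gal(X/k)) (u : (𝓞 X)ˣ) (hu : τ • u = u) :
    ∃ v : (𝓞 ↥(IntermediateField.fixedField (Subgroup.zpowers τ)))ˣ,
      Units.map (algebraMap (𝓞 ↥(IntermediateField.fixedField (Subgroup.zpowers τ)))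
        (𝓞 X)).toMonoidHom v = u := by
  set A := IntermediateField.fixedField (Subgroup.zpowers τ) with hA
  have h0 : ∀ v : (𝓞 X)ˣ, τ • v = v → ∃ a : 𝓞 A, algebraMap (𝓞 A) (𝓞 X) a = v := by
    intro v hv
    have h1 : ((v : 𝓞 X) : X) ∈ A := by
      apply mem_fixed
      exact congrArg (fun w : (𝓞 X)ˣ => ((w : 𝓞 X) : X)) hv
    have h2 : IsIntegral ℤ (⟨((v : 𝓞 X) : X), h1⟩ : A) := by
      rw [← isIntegral_algebraMap_iff (B := X) (algebraMap A X).injective]
      exact RingOfIntegers.isIntegral_coe (v : 𝓞 X)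
    exact ⟨⟨⟨_, h1⟩, h2⟩, rfl⟩
  obtain ⟨a, ha⟩ := h0 u hu
  obtain ⟨b, hb⟩ := h0 u⁻¹ (by rw [smul_inv', hu])
  have hab : a * b = 1 := by
    apply FaithfulSMul.algebraMap_injective (𝓞 A) (𝓞 X)
    rw [map_mul, ha, hb, map_one, Units.mul_inv]
  refine ⟨⟨a, b, hab, by rw [mul_comm, hab]⟩, ?_⟩
  ext
  exact congrArg _ ha

theorem rkm_eq [IsAbelianGalois k X] {p q j : ℕ} (hodd : Odd p) (hq : q.Prime)
    (hd : finrank k X = q * p ^ j) (τ : Gal(X/k)) (hτ : orderOf τ = q) :
    rkm q τ + p ^ j * (Units.rank k + 1) = Units.rank X + 1 := by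
  set A := IntermediateField.fixedField (Subgroup.zpowers τ) with hA
  have hAX : finrank A X = q := by
    rw [IntermediateField.finrank_fixedField_eq_card, Nat.card_zpowers, hτ]
  have hkA : finrank k A = p ^ j := by
    have h1 := finrank_mul_finrank k A X
    rw [hAX, hd, mul_comm] at h1
    exact Nat.eq_of_mul_eq_mul_left hq.pos h1
  have hrA : Units.rank A + 1 = p ^ j * (Units.rank k + 1) := by
    rw [rank_odd k A (by rw [hkA]; exact hodd.pow), hkA]
  have hτq : τ ^ q = 1 := by rw [← hτ]; exact pow_orderOf_eq_one τ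
  -- linear maps
  let ι : (𝓞 A)ˣ →* (𝓞 X)ˣ := Units.map (algebraMap (𝓞 A) (𝓞 X)).toMonoidHom
  have hι : Function.Injective ι := Units.map_injective (FaithfulSMul.algebraMap_injective _ _)
  let f : Additive (𝓞 X)ˣ →ₗ[ℤ] Additive (𝓞 X)ˣ :=
    (MonoidHom.toAdditive (Mu22.nHom τ q : (𝓞 X)ˣ →* (𝓞 X)ˣ)).toIntLinearMap
  let g : Additive (𝓞 A)ˣ →ₗ[ℤ] Additive (𝓞 X)ˣ := (MonoidHom.toAdditive ι).toIntLinearMap
  have hfin : Module.Finite ℤ (Additive (𝓞 X)ˣ) := inferInstance
  have hfix : ∀ u : (𝓞 X)ˣ, τ • Mu22.nHom τ q u = Mu22.nHom τ q u := by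
    intro u
    apply uI_injective
    rw [← sU_uI, ← ambNu_sU_uI]
    exact s_ambNu (sU τ) q (by ext1 x; rw [sU_pow, hτq]; rfl) _
  have h1 : LinearMap.range f ≤ LinearMap.range g := by
    rintro _ ⟨u, rfl⟩
    obtain ⟨v, hv⟩ := unit_of_fixed' τ (Mu22.nHom τ q u.toMul) (hfix _)
    exact ⟨Additive.ofMul v, hv⟩
  have hιfix : ∀ v : (𝓞 A)ˣ, τ • ι v = ι v := by
    intro v
    apply Units.ext
    apply FaithfulSMul.algebraMap_injective (𝓞 X) X
    have h3 : ∀ x : A, τ (x : X) = x := fun x =>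
      (IntermediateField.mem_fixedField_iff _ _).1 x.2 τ (Subgroup.mem_zpowers τ)
    exact h3 ((v : 𝓞 A) : A)
  have hιq : ∀ v : (𝓞 A)ˣ, Mu22.nHom τ q (ι v) = ι v ^ q := by
    intro v
    have h3 : ∀ i : ℕ, τ ^ i • ι v = ι v := by
      intro i
      induction i with
      | zero => rw [pow_zero, one_smul]
      | succ i ih => rw [pow_succ, mul_smul, hιfix, ih]
    rw [Mu22.nHom_apply, Finset.prod_congr rfl fun i _ => h3 i, Finset.prod_const,
      Finset.card_range]
  have h2 : LinearMap.range (f ∘ₗ g) ≤ LinearMap.range f := LinearMap.range_comp_le_range _ _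
  have hker : finrank ℤ (LinearMap.ker (f ∘ₗ g)) = 0 := by
    rw [Module.finrank_eq_zero_iff_isTorsion]
    rintro ⟨x, hx⟩
    refine ⟨⟨(q : ℤ), mem_nonZeroDivisors_of_ne_zero (by exact_mod_cast hq.ne_zero)⟩, ?_⟩
    apply Subtype.ext
    have h3 : Mu22.nHom τ q (ι x.toMul) = 1 := hx
    rw [hιq, ← map_pow] at h3
    have h4 : x.toMul ^ q = 1 := hι (h3.trans (map_one ι).symm)
    show (q : ℤ) • x = 0
    rw [natCast_zsmul]
    exact h4
  have hrn : ∀ {M N : Type _} [AddCommGroup M] [AddCommGroup N] [Module.Finite ℤ M]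
      (φ : M →ₗ[ℤ] N), finrank ℤ (LinearMap.range φ) + finrank ℤ (LinearMap.ker φ) =
        finrank ℤ M := by
    intro M N _ _ _ φ
    have h3 := (LinearMap.ker φ).finrank_quotient_add_finrank
    rw [(LinearMap.quotKerEquivRange φ).finrank_eq] at h3
    exact h3
  have e1 := hrn f
  have e2 := hrn (f ∘ₗ g)
  have e3 := hrn g
  have hgk : finrank ℤ (LinearMap.range (f ∘ₗ g)) ≤ finrank ℤ (LinearMap.range f) :=
    Submodule.finrank_mono h2
  have hfg : finrank ℤ (LinearMap.range f) ≤ finrank ℤ (LinearMap.range g) :=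
    Submodule.finrank_mono h1
  have hkf : rkm q τ = finrank ℤ (LinearMap.ker f) := by
    refine LinearEquiv.finrank_eq
      { toFun := fun x => ⟨Additive.ofMul x.toMul.1, x.toMul.2⟩
        invFun := fun x => Additive.ofMul ⟨x.1.toMul, x.2⟩
        map_add' := fun _ _ => rfl
        map_smul' := fun _ _ => rfl
        left_inv := fun _ => rfl
        right_inv := fun _ => rfl }
  rw [Units.finrank_eq] at e1 e2 e3
  omega

end

end Pool.Agent.Work.MuY
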