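import Pool.Agent.Work.MP_a4986b_nt.YAb
import Pool.Agent.Work.MP_a4986b_nt.BConcl

set_option autoImplicit false
set_option maxHeartbeats 400000
set_option linter.unusedSectionVars false

/-! # Ranks of the class groups of the layers, and `p`-extensions -/

namespace Pool.Agent.Work.MuY

open NumberField Module IntermediateField
open scoped Pointwise nonZeroDivisors
open Pool.Agent.Work.MuI Pool.Agent.Work.MuB

/-- a homomorphism onto a subgroup of index prime to `p`, between groups whose orders have the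
same `p`-part, preserves the rank -/
theorem rk_eq_of_padic {p : ℕ} (hp : p.Prime) {A B : Type*} [CommGroup A] [Finite A]
    [CommGroup B] [Finite B] (N : A →* B) (j : B →* A) (d : ℕ) (hd : ¬ p ∣ d)
    (hj : ∀ b, N (j b) = b ^ d)
    (hc : padicValNat p (Nat.card A) = padicValNat p (Nat.card B)) : rk p A = rk p B := by
  have hpf : Fact p.Prime := ⟨hp⟩
  -- the index of the image is prime to `p`
  have h1 : ¬ p ∣ Nat.card (B ⧸ N.range) := by
    intro h
    obtain ⟨x, hx⟩ := exists_prime_orderOf_dvd_card' (G := B ⧸ N.range) p h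
    obtain ⟨b, rfl⟩ := QuotientGroup.mk_surjective x
    apply hd
    rw [← hx]
    apply orderOf_dvd_of_pow_eq_one
    rw [← QuotientGroup.mk_pow, ← hj]
    exact (QuotientGroup.eq_one_iff _).2 ⟨j b, rfl⟩
  have h2 : padicValNat p (Nat.card N.range) = padicValNat p (Nat.card B) := by
    rw [Subgroup.card_eq_card_quotient_mul_card_subgroup N.range,
      padicValNat.mul Nat.card_pos.ne' Nat.card_pos.ne', padicValNat.eq_zero_of_not_dvd h1,
      zero_add]
  have h3 : ¬ p ∣ Nat.card N.ker := by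
    have h4 : Nat.card A = Nat.card N.range * Nat.card N.ker := by
      rw [Subgroup.card_eq_card_quotient_mul_card_subgroup N.ker,
        Nat.card_congr (QuotientGroup.quotientKerEquivRange N).toEquiv]
    have h5 : padicValNat p (Nat.card A) =
        padicValNat p (Nat.card N.range) + padicValNat p (Nat.card N.ker) := by
      rw [h4, padicValNat.mul Nat.card_pos.ne' Nat.card_pos.ne']
    intro h
    have h6 := one_le_padicValNat_of_dvd Nat.card_pos.ne' h
    omega
  -- the induced map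
  have hle : (powMonoidHom p : A →* A).range ≤ ((powMonoidHom p : B →* B).range).comap N := by
    rintro _ ⟨a, rfl⟩
    exact ⟨N a, (map_pow N a p).symm⟩
  let f : A ⧸ (powMonoidHom p : A →* A).range →* B ⧸ (powMonoidHom p : B →* B).range :=
    QuotientGroup.map _ _ N hle
  have hf : ∀ a : A, f (a : A ⧸ (powMonoidHom p : A →* A).range) =
      ((N a : B) : B ⧸ (powMonoidHom p : B →* B).range) := fun a => rfl
  -- for exponents prime to `p`
  have hpow : ∀ (x : A) (e : ℕ), ¬ p ∣ e →
      x ^ e ∈ (powMonoidHom p : A →* A).range → x ∈ (powMonoidHom p : A →* A).range := by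
    intro x e he hx
    have hxp : x ^ p ∈ (powMonoidHom p : A →* A).range := ⟨x, rfl⟩
    have hcop : Nat.Coprime e p := ((Nat.Prime.coprime_iff_not_dvd hp).2 he).symm
    have hx2 : x ^ (1 : ℤ) ∈ (powMonoidHom p : A →* A).range := by
      have hg : ((Nat.gcd e p : ℕ) : ℤ) = e * Nat.gcdA e p + p * Nat.gcdB e p :=
        Nat.gcd_eq_gcd_ab e p
      rw [hcop.gcd_eq_one] at hg
      rw [show (1 : ℤ) = e * Nat.gcdA e p + p * Nat.gcdB e p from hg, zpow_add, zpow_mul,
        zpow_mul, zpow_natCast, zpow_natCast]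
      exact Subgroup.mul_mem _ (Subgroup.zpow_mem _ hx _) (Subgroup.zpow_mem _ hxp _)
    rwa [zpow_one] at hx2
  have hbij : Function.Bijective f := by
    constructor
    · rw [injective_iff_map_eq_one]
      intro x hx
      obtain ⟨a, rfl⟩ := QuotientGroup.mk_surjective x
      rw [hf, QuotientGroup.eq_one_iff] at hx
      obtain ⟨b, hb⟩ := hx
      rw [QuotientGroup.eq_one_iff]
      have hb' : b ^ p = N a := hb
      -- the element `a ^ d (j b) ^ (-p)` of the kernel
      have h4 : a ^ d * ((j b) ^ p)⁻¹ ∈ N.ker := by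
        rw [MonoidHom.mem_ker, map_mul, map_pow, map_inv, map_pow, hj, ← hb', ← pow_mul,
          ← pow_mul, mul_comm d p, mul_inv_cancel]
      have h5 : a ^ d * ((j b) ^ p)⁻¹ ∈ (powMonoidHom p : A →* A).range := by
        refine hpow _ (Nat.card N.ker) h3 ?_
        have h6 : (a ^ d * ((j b) ^ p)⁻¹) ^ Nat.card N.ker = 1 := by
          have h7 := pow_card_eq_one' (G := N.ker) (x := ⟨_, h4⟩)
          exact congrArg Subtype.val h7
        rw [h6]
        exact Subgroup.one_mem _
      refine hpow a d hd ?_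
      have h6 : a ^ d = (a ^ d * ((j b) ^ p)⁻¹) * (j b) ^ p := by
        rw [inv_mul_cancel_right]
      rw [h6]
      exact Subgroup.mul_mem _ h5 ⟨j b, rfl⟩
    · intro y
      obtain ⟨b, rfl⟩ := QuotientGroup.mk_surjective y
      have hcop : Nat.Coprime d p := ((Nat.Prime.coprime_iff_not_dvd hp).2 hd).symm
      have hg : ((Nat.gcd d p : ℕ) : ℤ) = d * Nat.gcdA d p + p * Nat.gcdB d p :=
        Nat.gcd_eq_gcd_ab d p
      rw [hcop.gcd_eq_one] at hg
      refine ⟨(((j b) ^ (Nat.gcdA d p) : A) : A ⧸ (powMonoidHom p : A →* A).range), ?_⟩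
      rw [hf, map_zpow, hj, QuotientGroup.eq]
      have h4 : ((b ^ d) ^ (Nat.gcdA d p))⁻¹ * b = (b ^ p) ^ (Nat.gcdB d p) := by
        rw [inv_mul_eq_iff_eq_mul, ← zpow_natCast, ← zpow_natCast, ← zpow_mul, ← zpow_mul,
          ← zpow_add, ← hg, Nat.cast_one, zpow_one]
      rw [h4]
      have hbp : b ^ p ∈ (powMonoidHom p : B →* B).range := ⟨b, rfl⟩
      exact Subgroup.zpow_mem _ hbp _
  unfold rk
  rw [Nat.card_congr (Equiv.ofBijective f hbij)]

/-- the ranks of the class groups of the layers -/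
theorem rk_layers {p : ℕ} (hp : p.Prime) {k F : Type} [Field k] [NumberField k]
    [Field F] [NumberField F] [Algebra k F] [IsGalois k F] (hpn : ¬ p ∣ finrank k F)
    (φ : F →+* ℂ) (m : ℕ) (E : IntermediateField ℚ ℂ) (hE : LayerAt p m E)
    (hcard : padicValNat p (Nat.card (ClassGroup (𝓞 ↥(im φ ⊔ E)))) =
      padicValNat p (Nat.card (ClassGroup (𝓞 ↥(im (φ.comp (algebraMap k F)) ⊔ E))))) :
    rk p (ClassGroup (𝓞 ↥(im φ ⊔ E))) =
      rk p (ClassGroup (𝓞 ↥(im (φ.comp (algebraMap k F)) ⊔ E))) := by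
  set ψ : k →+* ℂ := φ.comp (algebraMap k F) with hψ
  have hle : im ψ ≤ im φ := by
    rintro x ⟨y, rfl⟩
    exact ⟨algebraMap k F y, rfl⟩
  let f : k ≃+* im ψ := (AlgEquiv.ofInjectiveField ψ.toRatAlgHom).toRingEquiv
  let g0 : F ≃+* im φ := (AlgEquiv.ofInjectiveField φ.toRatAlgHom).toRingEquiv
  let g1 : im φ ≃+* extendScalars hle :=
    { toFun := fun x => ⟨x.1, x.2⟩
      invFun := fun x => ⟨x.1, x.2⟩
      left_inv := fun _ => rfl
      right_inv := fun _ => rfl
      map_mul' := fun _ _ => rfl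
      map_add' := fun _ _ => rfl }
  let g : F ≃+* extendScalars hle := g0.trans g1
  have hcomm : (algebraMap (im ψ) (extendScalars hle)).comp (f : k →+* im ψ) =
      (g : F →+* extendScalars hle).comp (algebraMap k F) := by
    ext x
    rfl
  have hG : IsGalois (im ψ) (extendScalars hle) := IsGalois.of_equiv_equiv hcomm
  have hdeg : finrank (im ψ) (extendScalars hle) = finrank k F :=
    (Algebra.finrank_eq_of_equiv_equiv f g hcomm).symm
  have hfin1 : FiniteDimensional ℚ (im ψ) := by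
    have h0 : NumberField (im ψ) := NumberField.of_ringEquiv _ _ f
    exact gr_fin (im ψ)
  have hfin2 : FiniteDimensional ℚ (im φ) := by
    have h0 : NumberField (im φ) := NumberField.of_ringEquiv _ _ g0
    exact gr_fin (im φ)
  have hEfin : FiniteDimensional ℚ E := by
    apply FiniteDimensional.of_finrank_pos
    rw [hE.2]; exact pow_pos hp.pos _
  obtain ⟨-, hdvd⟩ := fi_galois (im ψ) (im φ) E hle
  have hM : FiniteDimensional ℚ ↥(im ψ ⊔ E) := IntermediateField.finiteDimensional_sup _ _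
  have hN : FiniteDimensional ℚ ↥(im φ ⊔ E) := IntermediateField.finiteDimensional_sup _ _
  have hMnf : NumberField ↥(im ψ ⊔ E) := NumberField.of_module_finite ℚ _
  have hNnf : NumberField ↥(im φ ⊔ E) := NumberField.of_module_finite ℚ _
  let alg : Algebra ↥(im ψ ⊔ E) ↥(im φ ⊔ E) :=
    (IntermediateField.inclusion (sup_le_sup_right hle E)).toRingHom.toAlgebra
  rw [hdeg] at hdvd
  obtain ⟨N, h1, -, -⟩ := exists_clNorm ↥(im ψ ⊔ E) ↥(im φ ⊔ E)
  exact rk_eq_of_padic hp N (ClassGroup.extendedHom _ _) _ (fun h => hpn (h.trans hdvd)) h1 hcard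

/-- the `p`-ranks of the class groups of the layers of `k` are bounded -/
def RankBounded (p : ℕ) (k : Type) [Field k] [NumberField k] : Prop :=
  ∀ ψ : k →+* ℂ, ∃ r : ℕ, ∀ (m : ℕ) (E : IntermediateField ℚ ℂ), LayerAt p m E →
    rk p (ClassGroup (𝓞 ↥(im ψ ⊔ E))) ≤ r

/-- `p`-extensions of a field with bounded ranks -/
theorem mu_of_rank {p : ℕ} {F : Type} [Field F] [NumberField F] (hp : p.Prime) (hp2 : p ≠ 2)
    (hr : RankBounded p F)
    (L : IntermediateField ℚ ℂ) [NumberField L] [Algebra F L] [IsGalois F L] (n : ℕ)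
    (hn : finrank F L = p ^ n) (L' : IntermediateField ℚ ℂ) (hL' : L' ≤ L)
    (hcop : ¬ p ∣ IntermediateField.relfinrank L' L) : MuZero p L' := by
  have hLf : FiniteDimensional ℚ L := gr_fin L
  have hst : IsScalarTower ℚ F L := IsScalarTower.of_algebraMap_eq' (Subsingleton.elim _ _)
  obtain ⟨F0, hF0, ⟨e⟩, hgal, hfr⟩ := fi_prep (k := ℚ) (F := F) L
  have hF0nf : NumberField F0 := NumberField.of_ringEquiv F F0 e
  obtain ⟨r, hr'⟩ := hr ((algebraMap F0 ℂ).comp (e : F →+* F0))
  have him : im ((algebraMap F0 ℂ).comp (e : F →+* F0)) = F0 := by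
    ext x
    rw [mem_im]
    constructor
    · rintro ⟨y, rfl⟩
      exact (e y).2
    · intro hx
      exact ⟨e.symm ⟨x, hx⟩, by
        change ((e (e.symm ⟨x, hx⟩) : F0) : ℂ) = x
        rw [RingEquiv.apply_symm_apply]⟩
  have hr0 : ∀ (m : ℕ) (E : IntermediateField ℚ ℂ), IsLayer p m E →
      rk p (ClassGroup (𝓞 ↥(F0 ⊔ E))) ≤ r := by
    intro m E hE
    have e1 : ↥(im ((algebraMap F0 ℂ).comp (e : F →+* F0)) ⊔ E) ≃+* ↥(F0 ⊔ E) :=
      (IntermediateField.equivOfEq (by rw [him])).toRingEquiv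
    have f1 := ClassGroup.mulEquiv (RingOfIntegers.mapRingEquiv e1)
    rw [← rk_congr f1]
    exact hr' m E hE
  obtain ⟨T, hT⟩ := ncard_ram_layer_le hp F0 L hF0
  choose B hB using fun j => rk_tower hp (hp.odd_of_ne_two hp2) T r j
  have hmain : ∀ (m : ℕ) (E : IntermediateField ℚ ℂ), IsLayer p m E →
      rk p (ClassGroup (𝓞 ↥(L ⊔ E))) ≤ ∑ j ∈ Finset.range (n + 1), B j := by
    intro m E hE
    have hEfin : FiniteDimensional ℚ E := by
      apply FiniteDimensional.of_finrank_pos
      rw [hE.2]; exact pow_pos hp.pos _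
    have hF0f : FiniteDimensional ℚ F0 := gr_fin F0
    have hNfin : FiniteDimensional ℚ ↥(L ⊔ E) := IntermediateField.finiteDimensional_sup L E
    have hMfin : FiniteDimensional ℚ ↥(F0 ⊔ E) := IntermediateField.finiteDimensional_sup F0 E
    have hNnf : NumberField ↥(L ⊔ E) := NumberField.of_module_finite ℚ _
    have hMnf : NumberField ↥(F0 ⊔ E) := NumberField.of_module_finite ℚ _
    have hT' := hT m E hE
    have hG := fi_galois F0 L E hF0
    let alg : Algebra ↥(F0 ⊔ E) ↥(L ⊔ E) :=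
      (IntermediateField.inclusion (sup_le_sup_right hF0 E)).toRingHom.toAlgebra
    obtain ⟨hg, hd⟩ := hG
    rw [hfr, hn] at hd
    obtain ⟨j, hj, hjd⟩ := (Nat.dvd_prime_pow hp).1 hd
    have h1 := hB j ↥(F0 ⊔ E) ↥(L ⊔ E) hjd hT' (hr0 m E hE)
    exact h1.trans (Finset.single_le_sum (f := B) (fun _ _ => Nat.zero_le _)
      (Finset.mem_range.2 (by omega)))
  obtain ⟨C, hC⟩ := growth hp hp2 L _ hmain
  exact ⟨C, fun m E h1 h2 => (descent hp hp2 L' L hL' hcop m E ⟨h1, h2⟩).trans (hC m E ⟨h1, h2⟩)⟩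

end Pool.Agent.Work.MuY
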