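import Pool.Agent.Work.MP_a4986b_nt.YUnit

set_option autoImplicit false
set_option maxHeartbeats 400000
set_option linter.unusedSectionVars false

/-! # The step -/

namespace Pool.Agent.Work.MuY

open NumberField Module
open scoped Pointwise nonZeroDivisors
open Pool.Agent.Work.MuI Pool.Agent.Work.MuI.Step

attribute [local instance] Units.mulDistribMulActionRight

variable {k K L : Type*} [Field k] [NumberField k] [Field K] [NumberField K] [Field L]
  [NumberField L] [Algebra k K] [Algebra K L] [Algebra k L]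

/-- Hilbert 90 -/
theorem h90_sU {p : ℕ} [IsGalois K L] (hd : finrank K L = p) (σ : Gal(L/K))
    (hσ : ∀ x, x ∈ Subgroup.zpowers σ) (x : Lˣ) (hx : ambNu (sU σ) p x = 1) :
    ∃ y, x = sU σ y / y := by
  obtain ⟨m, a, hm, ha⟩ := Mu22.exists_int_mul (x : L)
  have hm' : (m : L) ≠ 0 := by
    intro h
    apply hm
    exact RingOfIntegers.coe_eq_zero_iff.1 h
  have ha0 : a ≠ 0 := by
    rintro rfl
    exact (mul_ne_zero hm' x.ne_zero) (ha.trans (map_zero (algebraMap (𝓞 L) L)))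
  have h2 := congrArg Units.val hx
  rw [ambNu_apply, Units.val_one, Units.coe_prod] at h2
  obtain ⟨b, hb, hab⟩ := Mu22.hilbert90 hd σ hσ a m ha0 hm (by
    apply FaithfulSMul.algebraMap_injective (𝓞 L) L
    rw [map_prod, map_prod]
    have h3 : ∀ i ∈ Finset.range p, algebraMap (𝓞 L) L (σ ^ i • a) =
        algebraMap (𝓞 L) L (σ ^ i • m) * (((sU σ ^ i) x : Lˣ) : L) := by
      intro i _
      rw [sU_pow, sU_coe]
      change (σ ^ i) (a : L) = (σ ^ i) (m : L) * (σ ^ i) (x : L)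
      rw [← map_mul, ha]
    rw [Finset.prod_congr rfl h3, Finset.prod_mul_distrib, h2, mul_one])
  have hb' : (b : L) ≠ 0 := by
    intro h
    apply hb
    exact RingOfIntegers.coe_eq_zero_iff.1 h
  refine ⟨Units.mk0 (b : L) hb', ?_⟩
  apply Units.ext
  rw [Units.val_div_eq_div_val, sU_coe, Units.val_mk0, eq_div_iff hb']
  have h4 := congrArg (algebraMap (𝓞 L) L) hab
  rw [map_mul, map_mul] at h4
  have h5 : (m : L) * ((x : L) * (b : L)) = (m : L) * σ (b : L) := by
    rw [← mul_assoc, ha]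
    exact h4
  exact mul_left_cancel₀ hm' h5

theorem fixed_of_gen {σ : Gal(L/K)} (hσ : ∀ x, x ∈ Subgroup.zpowers σ)
    {x : (FractionalIdeal (𝓞 L)⁰ L)ˣ} (h : fU σ x = x) (g : Gal(L/K)) : fU g x = x := by
  obtain ⟨n, rfl⟩ : ∃ n : ℕ, σ ^ n = g :=
    (mem_powers_iff_mem_zpowers (x := σ) (y := g)).2 (hσ g)
  rw [← fU_pow]
  induction n with
  | zero => rfl
  | succ n ih =>
    rw [pow_succ]
    change (fU σ ^ n) (fU σ x) = x
    rw [h, ih]

/-- the units fixed by `σ` -/
def eFix {V : Type*} [CommGroup V] (e : V ≃* V) : Subgroup V :=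
  (e : V →* V).eqLocus (MonoidHom.id _)

theorem mem_eFix {V : Type*} [CommGroup V] (e : V ≃* V) (x : V) : x ∈ eFix e ↔ e x = x := Iff.rfl

theorem rank_fix {q : ℕ} [IsGalois K L] (σ : Gal(L/K)) (hσ : ∀ x, x ∈ Subgroup.zpowers σ)
    (s : Gal(L/k)) (sK : Gal(K/k)) (hc : ∀ y : K, algebraMap K L (sK y) = s (algebraMap K L y))
    (hcomm : ∀ x : L, σ (s x) = s (σ x)) :
    finrank ℤ (Additive (eFix (eAct q s σ hcomm))) ≤ rkm q sK := by
  have hinj : Function.Injective (Units.map (algebraMap (𝓞 K) (𝓞 L)).toMonoidHom) :=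
    Units.map_injective (FaithfulSMul.algebraMap_injective _ _)
  have hcU : ∀ u : (𝓞 K)ˣ, Units.map (algebraMap (𝓞 K) (𝓞 L)).toMonoidHom (sK • u) =
      s • Units.map (algebraMap (𝓞 K) (𝓞 L)).toMonoidHom u := by
    intro u
    apply Units.ext
    apply FaithfulSMul.algebraMap_injective (𝓞 L) L
    exact hc u
  have hcn : ∀ (n : ℕ) (u : (𝓞 K)ˣ), Units.map (algebraMap (𝓞 K) (𝓞 L)).toMonoidHom (sK ^ n • u) =
      s ^ n • Units.map (algebraMap (𝓞 K) (𝓞 L)).toMonoidHom u := by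
    intro n
    induction n with
    | zero => intro u; rw [pow_zero, pow_zero, one_smul, one_smul]
    | succ n ih => intro u; rw [pow_succ, pow_succ, mul_smul, mul_smul, ih, hcU]
  have hnu : ∀ u : (𝓞 K)ˣ, Units.map (algebraMap (𝓞 K) (𝓞 L)).toMonoidHom (Mu22.nHom sK q u) =
      Mu22.nHom s q (Units.map (algebraMap (𝓞 K) (𝓞 L)).toMonoidHom u) := by
    intro u
    rw [Mu22.nHom_apply, Mu22.nHom_apply, map_prod]
    exact Finset.prod_congr rfl fun i _ => hcn i u
  have hmem : ∀ u : (𝓞 K)ˣ, u ∈ EM q sK ↔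
      Units.map (algebraMap (𝓞 K) (𝓞 L)).toMonoidHom u ∈ EM q s := by
    intro u
    have h1 : u ∈ EM q sK ↔ Mu22.nHom sK q u = 1 := Iff.rfl
    have h2 : Units.map (algebraMap (𝓞 K) (𝓞 L)).toMonoidHom u ∈ EM q s ↔
      Mu22.nHom s q (Units.map (algebraMap (𝓞 K) (𝓞 L)).toMonoidHom u) = 1 := Iff.rfl
    rw [h1, h2, ← hnu]
    constructor
    · intro h; rw [h, map_one]
    · intro h; exact hinj (h.trans (map_one _).symm)
  have hfix : ∀ u : (𝓞 K)ˣ, σ • Units.map (algebraMap (𝓞 K) (𝓞 L)).toMonoidHom u =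
      Units.map (algebraMap (𝓞 K) (𝓞 L)).toMonoidHom u := by
    intro u
    apply Units.ext
    apply FaithfulSMul.algebraMap_injective (𝓞 L) L
    exact σ.commutes (u : K)
  let f : Additive (EM q sK) →+ Additive (eFix (eAct q s σ hcomm)) :=
    { toFun := fun x => Additive.ofMul ⟨⟨Units.map (algebraMap (𝓞 K) (𝓞 L)).toMonoidHom x.toMul.1,
        (hmem _).1 x.toMul.2⟩, Subtype.ext (hfix _)⟩
      map_zero' := by
        apply congrArg Additive.ofMul
        apply Subtype.ext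
        apply Subtype.ext
        exact map_one _
      map_add' := by
        intro x y
        apply congrArg Additive.ofMul
        apply Subtype.ext
        apply Subtype.ext
        exact map_mul _ _ _ }
  have hsurj : Function.Surjective f := by
    rintro ⟨⟨u, hu⟩, hu2⟩
    have h1 : σ • u = u := congrArg Subtype.val hu2
    obtain ⟨v, rfl⟩ := Mu22.unit_of_fixed hσ h1
    exact ⟨Additive.ofMul ⟨v, (hmem v).2 hu⟩, rfl⟩
  have hfin : Module.Finite ℤ (Additive (EM q sK)) := finite_sub _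
  have h1 := LinearMap.finrank_range_le f.toIntLinearMap
  rw [LinearMap.range_eq_top.2 hsurj, finrank_top] at h1
  exact h1

theorem map_eAct {q : ℕ} (σ : Gal(L/K)) (s : Gal(L/k)) (hcomm : ∀ x : L, σ (s x) = s (σ x))
    (u : EM q s) : uI L (eAct q s σ hcomm u).1 = sU σ (uI L u.1) := (sU_uI σ u.1).symm

theorem eAct_pow {q p : ℕ} (σ : Gal(L/K)) (hσp : σ ^ p = 1) (s : Gal(L/k))
    (hcomm : ∀ x : L, σ (s x) = s (σ x)) : (eAct q s σ hcomm) ^ p = 1 := by
  have h1 : ∀ (n : ℕ) (u : EM q s), ((eAct q s σ hcomm ^ n) u).1 = σ ^ n • u.1 := by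
    intro n
    induction n with
    | zero => intro u; rw [pow_zero, pow_zero, one_smul]; rfl
    | succ n ih =>
      intro u
      rw [pow_succ, pow_succ, mul_smul]
      exact ih (eAct q s σ hcomm u)
  ext u
  rw [h1, hσp, one_smul]
  rfl

/-- the unit part of the step -/
theorem nf_units [IsGalois K L] {p q : ℕ} (hp : p.Prime) (hq : q.Prime) (hpq : p ≠ q)
    (hd : finrank K L = p) (σ : Gal(L/K)) (hσ : ∀ x, x ∈ Subgroup.zpowers σ)
    (s : Gal(L/k)) (hs : s ^ q = 1) (sK : Gal(K/k))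
    (hc : ∀ y : K, algebraMap K L (sK y) = s (algebraMap K L y))
    (hcomm : ∀ x : L, σ (s x) = s (σ x))
    (B : Subgroup (FractionalIdeal (𝓞 L)⁰ L)ˣ) (hBφ : ∀ x ∈ B, fU σ x = x)
    (hB : ∀ x, fU σ x = x → th (fU s) q x ∈ B)
    (hmin : ∀ b ∈ B, ambNu (fU s) q b = 1 →
      (∃ y, sU σ y = y ∧ b ^ p = toPrincipalIdeal (𝓞 L) L y) →
      ∃ y, sU σ y = y ∧ b = toPrincipalIdeal (𝓞 L) L y)
    (hrk : p * rkm q sK ≤ rkm q s) (x : Lˣ) (hx1 : toPrincipalIdeal (𝓞 L) L x = 1)
    (hx2 : ambNu (sU s) q x = 1) (hx3 : sU σ x = x) :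
    ∃ v, toPrincipalIdeal (𝓞 L) L v = 1 ∧ ambNu (sU s) q v = 1 ∧ x = ambNu (sU σ) p v := by
  have hσp : σ ^ p = 1 := Mu22.pow_eq_one_of_gen hd σ
  set e := eAct q s σ hcomm with he
  let j : EM q s →* Lˣ := (uI L).comp (EM q s).subtype
  have hjinj : Function.Injective j := uI_injective.comp Subtype.val_injective
  have hje : ∀ u, j (e u) = sU σ (j u) := fun u => map_eAct σ s hcomm u
  have hfin : Module.Finite ℤ (Additive (𝓞 L)ˣ) := inferInstance
  have hfinE : Module.Finite ℤ (Additive (EM q s)) := finite_sub _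
  obtain ⟨k1, k2⟩ := herb_mul hp e (eAct_pow σ hσp s hcomm) (rkm q sK) (eFix e)
    (fun x => Iff.rfl) hrk (rank_fix σ hσ s sK hc hcomm)
  have hrange : ∀ y : Lˣ, (toPrincipalIdeal (𝓞 L) L y = 1 ∧ ambNu (sU s) q y = 1) ↔
      ∃ u, j u = y := by
    intro y
    rw [principal_eq_one_iff]
    constructor
    · rintro ⟨⟨u, rfl⟩, h⟩
      exact ⟨⟨u, mem_EM.2 h⟩, rfl⟩
    · rintro ⟨u, rfl⟩
      exact ⟨⟨u.1, rfl⟩, mem_EM.1 u.2⟩
  have hjnu : ∀ u, j (ambNu e p u) = ambNu (sU σ) p (j u) := map_ambNu j e (sU σ) hje p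
  have key := units_part hp hq hpq (toPrincipalIdeal (𝓞 L) L) (sU σ) (sU s) (fU σ) (fU s)
    (principal_sU σ) (principal_sU s)
    (by ext1 x; rw [sU_pow, hσp]; rfl) (by ext1 x; rw [sU_pow, hs]; rfl)
    (by ext1 x; rw [fU_pow, hs, fU_one]; rfl) (sU_comm σ s hcomm) (h90_sU hd σ hσ)
    B hBφ hB hmin ((ambNu e p).ker.map j) ((ambDelta e).range.map j) ((eFix e).map j)
    ((ambNu e p).range.map j)
    (by
      intro x
      rw [hrange]
      constructor
      · rintro ⟨u, hu, rfl⟩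
        refine ⟨⟨u, rfl⟩, ?_⟩
        rw [← hjnu, show ambNu e p u = 1 from hu, map_one]
      · rintro ⟨⟨u, rfl⟩, h⟩
        refine ⟨u, ?_, rfl⟩
        rw [← hjnu, ← map_one j] at h
        exact hjinj h)
    (by
      intro x
      constructor
      · rintro ⟨_, ⟨u, rfl⟩, rfl⟩
        refine ⟨j u, (hrange _).2 ⟨u, rfl⟩, ?_⟩
        rw [ambDelta_apply, map_div, hje]
      · rintro ⟨v, hv, rfl⟩
        obtain ⟨u, rfl⟩ := (hrange v).1 hv
        exact ⟨ambDelta e u, ⟨u, rfl⟩, by rw [ambDelta_apply, map_div, hje]⟩)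
    (by
      intro x
      rw [hrange]
      constructor
      · rintro ⟨u, hu, rfl⟩
        refine ⟨⟨u, rfl⟩, ?_⟩
        rw [← hje, show e u = u from hu]
      · rintro ⟨⟨u, rfl⟩, h⟩
        rw [← hje] at h
        exact ⟨u, hjinj h, rfl⟩)
    (by
      intro x
      constructor
      · rintro ⟨_, ⟨u, rfl⟩, rfl⟩
        exact ⟨j u, (hrange _).2 ⟨u, rfl⟩, hjnu u⟩
      · rintro ⟨v, hv, rfl⟩
        obtain ⟨u, rfl⟩ := (hrange v).1 hv
        exact ⟨ambNu e p u, ⟨u, rfl⟩, hjnu u⟩)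
    (by
      rw [Subgroup.relIndex_map_map_of_injective _ _ hjinj,
        Subgroup.relIndex_map_map_of_injective _ _ hjinj]
      exact k2)
    (by
      rw [Subgroup.relIndex_map_map_of_injective _ _ hjinj]
      exact k1)
  obtain ⟨u, hu⟩ := (hrange x).1 ⟨hx1, hx2⟩
  have hxF : x ∈ (eFix e).map j := by
    refine ⟨u, ?_, hu⟩
    apply hjinj
    show j (e u) = j u
    rw [hje, hu, hx3]
  obtain ⟨w, ⟨v, rfl⟩, hv⟩ := key hxF
  obtain ⟨h1, h2⟩ := (hrange (j v)).2 ⟨v, rfl⟩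
  exact ⟨j v, h1, h2, by rw [← hv, hjnu]⟩

/-- the step: the minus part of the `p`-class group stays trivial -/
theorem nf_step [IsGalois K L] {p q : ℕ} (hp : p.Prime) (hq : q.Prime) (hpq : p ≠ q)
    (hd : finrank K L = p)
    (s : Gal(L/k)) (hs : s ^ q = 1) (sK : Gal(K/k)) (hsK : sK ^ q = 1)
    (hc : ∀ y : K, algebraMap K L (sK y) = s (algebraMap K L y))
    (hcomm : ∀ (σ : Gal(L/K)) (x : L), σ (s x) = s (σ x))
    (hram : ∀ Q : Ideal (𝓞 L), Q.IsPrime → Q ≠ ⊥ → Q.ramificationIdx (𝓞 K) ≠ 1 → s • Q = Q)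
    (hrk : p * rkm q sK ≤ rkm q s)
    (hK : ∀ c : ClassGroup (𝓞 K), c ^ p = 1 → ambNu (clAct sK) q c = 1 → c = 1)
    (c : ClassGroup (𝓞 L)) (h1 : c ^ p = 1) (h2 : ambNu (clAct s) q c = 1) : c = 1 := by
  have hcard : Nat.card Gal(L/K) = p := by rw [IsGalois.card_aut_eq_finrank, hd]
  have hpf : Fact p.Prime := ⟨hp⟩
  have hcyc : IsCyclic Gal(L/K) := isCyclic_of_prime_card hcard
  obtain ⟨σ, hσ⟩ := hcyc
  have hσp : σ ^ p = 1 := Mu22.pow_eq_one_of_gen hd σ
  have hBφ : ∀ x ∈ (Inv.extU K L).range, fU σ x = x := by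
    rintro _ ⟨u, rfl⟩
    apply Units.ext
    exact Inv.act_ext σ u
  have hcount : ∀ (n : ℕ) (v : IsDedekindDomain.HeightOneSpectrum (𝓞 L)),
      s • v.asIdeal = v.asIdeal → ∀ x : (FractionalIdeal (𝓞 L)⁰ L)ˣ,
      FractionalIdeal.count L v ((((fU s) ^ n) x : (FractionalIdeal (𝓞 L)⁰ L)ˣ) :
        FractionalIdeal (𝓞 L)⁰ L) = FractionalIdeal.count L v (x : FractionalIdeal (𝓞 L)⁰ L) := by
    intro n v hv
    induction n with
    | zero => intro x; rfl
    | succ n ih =>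
      intro x
      rw [pow_succ]
      exact (ih (fU s x)).trans (count_fU s v hv x)
  have hB : ∀ x, fU σ x = x → th (fU s) q x ∈ (Inv.extU K L).range := by
    intro x hx
    have hth : fU σ (th (fU s) q x) = th (fU s) q x := by
      have := map_th (fU σ : (FractionalIdeal (𝓞 L)⁰ L)ˣ →* (FractionalIdeal (𝓞 L)⁰ L)ˣ) (fU s)
        (fU s) (fU_comm σ s (hcomm σ)) q x
      refine this.trans ?_
      change th (fU s) q (fU σ x) = _
      rw [hx]
    refine Inv.mem_range_ext hp hd _ (fun g => congrArg Units.val (fixed_of_gen hσ hth g)) ?_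
    intro v hv
    have hsv := hram v.asIdeal v.isPrime v.ne_bot hv
    have h3 : FractionalIdeal.count L v ((ambNu (fU s) q x : (FractionalIdeal (𝓞 L)⁰ L)ˣ) :
        FractionalIdeal (𝓞 L)⁰ L) =
        q * FractionalIdeal.count L v (x : FractionalIdeal (𝓞 L)⁰ L) := by
      have h4 : ∀ n : ℕ, FractionalIdeal.count L v
          ((ambNu (fU s) n x : (FractionalIdeal (𝓞 L)⁰ L)ˣ) : FractionalIdeal (𝓞 L)⁰ L) =
          n * FractionalIdeal.count L v (x : FractionalIdeal (𝓞 L)⁰ L) := by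
        intro n
        induction n with
        | zero =>
          rw [ambNu_apply, Finset.range_zero, Finset.prod_empty, Units.val_one,
            FractionalIdeal.count_one]
          simp
        | succ n ih =>
          rw [ambNu_apply] at ih ⊢
          rw [Finset.prod_range_succ, Units.val_mul,
            FractionalIdeal.count_mul L v (Units.ne_zero _) (Units.ne_zero _), ih, hcount n v hsv]
          push_cast
          ring
      exact h4 q
    have h5 : x ^ q = th (fU s) q x * ambNu (fU s) q x := by rw [th_apply, div_mul_cancel]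
    have h6 := congrArg (fun y : (FractionalIdeal (𝓞 L)⁰ L)ˣ =>
      FractionalIdeal.count L v (y : FractionalIdeal (𝓞 L)⁰ L)) h5
    simp only [Units.val_pow_eq_pow_val, Units.val_mul] at h6
    rw [FractionalIdeal.count_pow, FractionalIdeal.count_mul L v (Units.ne_zero _)
      (Units.ne_zero _), h3] at h6
    have h7 : FractionalIdeal.count L v ((th (fU s) q x : (FractionalIdeal (𝓞 L)⁰ L)ˣ) :
        FractionalIdeal (𝓞 L)⁰ L) = 0 := by linarith
    rw [h7]
    exact dvd_zero _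
  have hmin : ∀ b ∈ (Inv.extU K L).range, ambNu (fU s) q b = 1 →
      (∃ y, sU σ y = y ∧ b ^ p = toPrincipalIdeal (𝓞 L) L y) →
      ∃ y, sU σ y = y ∧ b = toPrincipalIdeal (𝓞 L) L y := by
    rintro _ ⟨J, rfl⟩ hN ⟨y, hy, hyp⟩
    have h3 : ambNu (fU sK) q J = 1 := by
      apply extU_injective (L := L)
      rw [map_ambNu (Inv.extU K L) (fU sK) (fU s) (fun x => (fU_extU s sK hc x).symm) q J, hN,
        map_one]
    obtain ⟨z, hz⟩ : ∃ z : Kˣ, Units.map (algebraMap K L).toMonoidHom z = y := by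
      have h4 : ∀ g : Gal(L/K), g (y : L) = y := by
        intro g
        obtain ⟨n, rfl⟩ : ∃ n : ℕ, σ ^ n = g :=
          (mem_powers_iff_mem_zpowers (x := σ) (y := g)).2 (hσ g)
        have h2 : sU (σ ^ n) y = y := by
          rw [← sU_pow]
          induction n with
          | zero => rw [pow_zero]; rfl
          | succ n ih =>
            rw [pow_succ]
            change (sU σ ^ n) (sU σ y) = y
            rw [hy, ih]
        exact congrArg Units.val h2
      obtain ⟨z, hz⟩ := (IsGalois.mem_range_algebraMap_iff_fixed (y : L)).2 h4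
      have hz0 : z ≠ 0 := by
        rintro rfl
        rw [map_zero] at hz
        exact y.ne_zero hz.symm
      exact ⟨Units.mk0 z hz0, Units.ext hz⟩
    have h5 : J ^ p = toPrincipalIdeal (𝓞 K) K z := by
      apply extU_injective (L := L)
      rw [map_pow, hyp, extU_principal, hz]
    have hmk : ∀ u : Kˣ, ClassGroup.mk K (toPrincipalIdeal (𝓞 K) K u) = 1 := by
      intro u
      have : toPrincipalIdeal (𝓞 K) K u ∈ (ClassGroup.mk K :
        (FractionalIdeal (𝓞 K)⁰ K)ˣ →* ClassGroup (𝓞 K)).ker := by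
        rw [ker_mk]; exact ⟨u, rfl⟩
      exact this
    have h6 := hK (ClassGroup.mk K J) (by rw [← map_pow, h5, hmk]) (by
      rw [← map_ambNu (ClassGroup.mk K) (fU sK) (clAct sK) (fun x => mk_fU sK x) q J, h3, map_one])
    have h7 : J ∈ (toPrincipalIdeal (𝓞 K) K).range := by
      rw [← ker_mk]; exact h6
    obtain ⟨w, rfl⟩ := h7
    refine ⟨Units.map (algebraMap K L).toMonoidHom w, ?_, extU_principal w⟩
    apply Units.ext
    exact σ.commutes (w : K)
  refine minus_step hp hq hpq (toPrincipalIdeal (𝓞 L) L) (sU σ) (sU s) (fU σ) (fU s)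
    (principal_sU σ) (principal_sU s)
    (by ext1 x; rw [sU_pow, hσp]; rfl) (by ext1 x; rw [fU_pow, hσp, fU_one]; rfl)
    (by ext1 x; rw [sU_pow, hs]; rfl)
    (by ext1 x; rw [fU_pow, hs, fU_one]; rfl) (sU_comm σ s (hcomm σ)) (fU_comm σ s (hcomm σ))
    (h90_sU hd σ hσ) (Inv.extU K L).range hBφ hB hmin
    (fun x hx1 hx2 hx3 => nf_units hp hq hpq hd σ hσ s hs sK hc (hcomm σ) _ hBφ hB hmin hrk x
      hx1 hx2 hx3)
    (ClassGroup (𝓞 L)) (ClassGroup.mk L) (by
      intro c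
      obtain ⟨I, rfl⟩ := ClassGroup.mk0_surjective c
      exact ⟨FractionalIdeal.mk0 L I, ClassGroup.mk_mk0 L I⟩) ker_mk (clAct σ) (clAct s)
    (fun x => mk_fU σ x) (fun x => mk_fU s x) c h1 h2

end Pool.Agent.Work.MuY
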