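import Pool.Agent.Work.MP_a4986b_nt.YTow
import Pool.Agent.Work.MP_a4986b_nt.Cyc

set_option autoImplicit false
set_option maxHeartbeats 400000
set_option linter.unusedSectionVars false

/-! # Composita and stable primes -/

namespace Pool.Agent.Work.MuY

open NumberField Module
open scoped Pointwise nonZeroDivisors
open Pool.Agent.Work.MuI Pool.Agent.Work.MuI.Step

theorem mem_of_pow_mem' {G : Type*} [Group G] {H : Subgroup G} {x : G} {m n : ℕ}
    (h : Nat.Coprime m n) (h1 : x ^ m ∈ H) (h2 : x ^ n ∈ H) : x ∈ H := by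
  obtain ⟨a, b, hab⟩ := Nat.isCoprime_iff_coprime.2 h
  have h4 : x = (x ^ m) ^ a * (x ^ n) ^ b := by
    rw [← zpow_natCast, ← zpow_natCast, ← zpow_mul, ← zpow_mul, ← zpow_add, mul_comm (m : ℤ),
      mul_comm (n : ℤ), hab, zpow_one]
  rw [h4]
  exact H.mul_mem (H.zpow_mem h1 a) (H.zpow_mem h2 b)

section

variable {k Ω : Type*} [Field k] [Field Ω] [Algebra k Ω]

theorem comm_on (A : IntermediateField k Ω) [IsAbelianGalois k A] (g h : Gal(Ω/k)) (x : Ω)
    (hx : x ∈ A) : g (h x) = h (g x) := by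
  have h1 : ∀ (g : Gal(Ω/k)) (y : A), ((g.restrictNormal A y : A) : Ω) = g (y : Ω) :=
    fun g y => g.restrictNormal_commutes A y
  have h2 : g.restrictNormal A * h.restrictNormal A = h.restrictNormal A * g.restrictNormal A :=
    (IsMulCommutative.is_comm (M := Gal(A/k))).comm _ _
  have h3 := congrArg (fun f : Gal(A/k) => ((f ⟨x, hx⟩ : A) : Ω)) h2
  have h4 : (((g.restrictNormal A * h.restrictNormal A) ⟨x, hx⟩ : A) : Ω) = g (h x) := by
    rw [AlgEquiv.mul_apply, h1, h1]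
  have h5 : (((h.restrictNormal A * g.restrictNormal A) ⟨x, hx⟩ : A) : Ω) = h (g x) := by
    rw [AlgEquiv.mul_apply, h1, h1]
  rw [← h4, ← h5]
  exact h3

theorem abelian_of_sup_top (A B : IntermediateField k Ω) [IsAbelianGalois k A]
    [IsAbelianGalois k B] (hAB : A ⊔ B = ⊤) : IsAbelianGalois k Ω := by
  have h1 : IsGalois k ↥(A ⊔ B) := inferInstance
  rw [hAB, isGalois_iff_isGalois_top] at h1
  have hle : ∀ (g h : Gal(Ω/k)) (x : Ω), g (h x) = h (g x) := by
    intro g h x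
    have h2 : ∀ (C : IntermediateField k Ω) [IsAbelianGalois k C],
        C ≤ IntermediateField.fixedField (Subgroup.zpowers (g * h * g⁻¹ * h⁻¹)) := by
      intro C _ y hy
      rw [IntermediateField.mem_fixedField_iff]
      have h3 : (g * h * g⁻¹ * h⁻¹) y = y := by
        have h4 := comm_on C g⁻¹ h⁻¹ y hy
        rw [AlgEquiv.mul_apply, AlgEquiv.mul_apply, AlgEquiv.mul_apply, h4]
        have h5 : ∀ z, h (h⁻¹ z) = z := fun z => AlgEquiv.apply_symm_apply h z
        have h6 : ∀ z, g (g⁻¹ z) = z := fun z => AlgEquiv.apply_symm_apply g z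
        rw [h5, h6]
      rintro f hf
      obtain ⟨n, rfl⟩ := Subgroup.mem_zpowers_iff.1 hf
      have h7 : (g * h * g⁻¹ * h⁻¹) ∈ MulAction.stabilizer Gal(Ω/k) y := h3
      exact Subgroup.zpow_mem _ h7 n
    have h3 : (⊤ : IntermediateField k Ω) ≤
        IntermediateField.fixedField (Subgroup.zpowers (g * h * g⁻¹ * h⁻¹)) := by
      rw [← hAB]
      exact sup_le (h2 A) (h2 B)
    have h4 := (IntermediateField.mem_fixedField_iff _ _).1 (h3 (IntermediateField.mem_top
      (x := h (g x)))) _ (Subgroup.mem_zpowers _)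
    rw [AlgEquiv.mul_apply, AlgEquiv.mul_apply, AlgEquiv.mul_apply] at h4
    have h5 : ∀ z, h⁻¹ (h z) = z := fun z => AlgEquiv.symm_apply_apply h z
    have h6 : ∀ z, g⁻¹ (g z) = z := fun z => AlgEquiv.symm_apply_apply g z
    rw [h5, h6] at h4
    exact h4
  exact { toIsGalois := h1, is_comm := ⟨fun g h => AlgEquiv.ext (hle g h)⟩ }

end

theorem stable {k F L : Type*} [Field k] [NumberField k] [Field F] [NumberField F] [Field L]
    [NumberField L] [Algebra k F] [Algebra F L] [Algebra k L] [IsScalarTower k F L]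
    [IsAbelianGalois k L] {p q n : ℕ} (hp : p.Prime) (hq : q.Prime) (hpq : p ≠ q)
    (hd : finrank F L = p ^ n) (s : Gal(L/k)) (hs : s ^ q = 1)
    (hns : ∀ P Q : Ideal (𝓞 F), P.IsPrime → Q.IsPrime → (p : 𝓞 F) ∈ P → (p : 𝓞 F) ∈ Q →
      P.under (𝓞 k) = Q.under (𝓞 k) → P = Q)
    (Q : Ideal (𝓞 L)) (hQ : Q.IsPrime) (hpQ : (p : 𝓞 L) ∈ Q) : s • Q = Q := by
  have hFL : IsGalois F L := (IsAbelianGalois.tower_top k F L).toIsGalois
  have hsQ : (s • Q).IsPrime := inferInstance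
  have hpsQ : (p : 𝓞 L) ∈ s • Q := by
    rw [Ideal.mem_pointwise_smul_iff_inv_smul_mem]
    have : s⁻¹ • (p : 𝓞 L) = (p : 𝓞 L) :=
      map_natCast (MulSemiringAction.toRingHom Gal(L/k) (𝓞 L) s⁻¹) p
    rw [this]
    exact hpQ
  have hmem : ∀ R : Ideal (𝓞 L), (p : 𝓞 L) ∈ R → (p : 𝓞 F) ∈ R.under (𝓞 F) := by
    intro R hR
    rw [Ideal.under_def, Ideal.mem_comap, map_natCast]
    exact hR
  have hu : ∀ R : Ideal (𝓞 L), (R.under (𝓞 F)).under (𝓞 k) = R.under (𝓞 k) :=
    fun R => Ideal.under_under R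
  have hk : (s • Q).under (𝓞 k) = Q.under (𝓞 k) := by
    ext a
    rw [Ideal.under_def, Ideal.under_def, Ideal.mem_comap, Ideal.mem_comap,
      Ideal.mem_pointwise_smul_iff_inv_smul_mem]
    have : s⁻¹ • algebraMap (𝓞 k) (𝓞 L) a = algebraMap (𝓞 k) (𝓞 L) a := by
      apply FaithfulSMul.algebraMap_injective (𝓞 L) L
      exact (s⁻¹).commutes (a : k)
    rw [this]
  have h1 : (s • Q).under (𝓞 F) = Q.under (𝓞 F) :=
    hns _ _ (Ideal.IsPrime.under (𝓞 F) _) (Ideal.IsPrime.under (𝓞 F) _) (hmem _ hpsQ)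
      (hmem _ hpQ) (by rw [hu, hu, hk])
  obtain ⟨g, hg⟩ := Mu22.smul_eq_of_under (K := F) (s • Q) Q h1
  let h : Gal(L/k) := g.restrictScalars k
  have hgq : h ^ (p ^ n) = 1 := by
    have h2 : g ^ (p ^ n) = 1 := by
      have h3 : Nat.card Gal(L/F) = p ^ n := by rw [IsGalois.card_aut_eq_finrank, hd]
      rw [← h3]
      exact pow_card_eq_one'
    have h4 : ∀ m : ℕ, ∀ x : L, (h ^ m) x = (g ^ m) x := by
      intro m
      induction m with
      | zero => intro x; rfl
      | succ m ih =>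
        intro x
        rw [pow_succ, pow_succ]
        exact ih (g x)
    apply AlgEquiv.ext
    intro x
    rw [h4, h2]
    rfl
  have hhQ : h • Q = s • Q := hg
  have hD : h⁻¹ * s ∈ MulAction.stabilizer Gal(L/k) Q := by
    rw [MulAction.mem_stabilizer_iff, mul_smul, ← hhQ, inv_smul_smul]
  have hcomm : Commute h⁻¹ s := (IsMulCommutative.is_comm (M := Gal(L/k))).comm _ _
  have hD1 : s ^ (p ^ n) ∈ MulAction.stabilizer Gal(L/k) Q := by
    have h2 := Subgroup.pow_mem _ hD (p ^ n)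
    rwa [hcomm.mul_pow, inv_pow, hgq, inv_one, one_mul] at h2
  have hD2 : s ^ q ∈ MulAction.stabilizer Gal(L/k) Q := by rw [hs]; exact one_mem _
  exact mem_of_pow_mem' (Nat.Coprime.pow_left n ((Nat.coprime_primes hp hq).2 hpq)) hD1 hD2

end Pool.Agent.Work.MuY
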