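import Pool.Agent.Work.MP_a4986b_nt.YRank
import Pool.Agent.Work.MP_a4986b_nt.Tower

set_option autoImplicit false
set_option maxHeartbeats 400000
set_option linter.unusedSectionVars false

/-! # The tower -/

namespace Pool.Agent.Work.MuY

open NumberField Module
open scoped Pointwise nonZeroDivisors
open Pool.Agent.Work.MuI Pool.Agent.Work.MuI.Step

attribute [local instance] Units.mulDistribMulActionRight

section

variable {k K L : Type*} [Field k] [NumberField k] [Field K] [NumberField K] [Field L]
  [NumberField L] [Algebra k K] [Algebra K L] [Algebra k L]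

theorem ext_clAct (s : Gal(L/k)) (sK : Gal(K/k))
    (hc : ∀ y : K, algebraMap K L (sK y) = s (algebraMap K L y)) (c : ClassGroup (𝓞 K)) :
    ClassGroup.extendedHom (𝓞 K) (𝓞 L) (clAct sK c) =
      clAct s (ClassGroup.extendedHom (𝓞 K) (𝓞 L) c) := by
  obtain ⟨I, rfl⟩ := ClassGroup.mk0_surjective c
  rw [clAct_mk0 sK I ⟨_, smul_mem_nzd sK I⟩ rfl, ClassGroup.extendedHom_mk0,
    ClassGroup.extendedHom_mk0]
  refine (clAct_mk0 s _ _ ?_).symm
  exact (smul_map_of_compat s sK hc (I : Ideal (𝓞 K))).symm

/-- a field of relative degree one -/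
theorem minus_of_finrank_one [IsGalois K L] {p q : ℕ} (hd : finrank K L = 1)
    (s : Gal(L/k)) (sK : Gal(K/k))
    (hc : ∀ y : K, algebraMap K L (sK y) = s (algebraMap K L y))
    (hK : ∀ c : ClassGroup (𝓞 K), c ^ p = 1 → ambNu (clAct sK) q c = 1 → c = 1)
    (c : ClassGroup (𝓞 L)) (h1 : c ^ p = 1) (h2 : ambNu (clAct s) q c = 1) : c = 1 := by
  obtain ⟨N, hN1, -, hN3⟩ := exists_clNorm K L
  have hcard : Nat.card Gal(L/K) = 1 := by rw [IsGalois.card_aut_eq_finrank, hd]
  have hsub : Subsingleton Gal(L/K) := (Nat.card_eq_one_iff_unique.1 hcard).1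
  have h3 : ClassGroup.extendedHom (𝓞 K) (𝓞 L) (N c) = c := by
    rw [hN3 inferInstance, Fintype.prod_subsingleton _ (1 : Gal(L/K)), clAct_one]
    rfl
  have h4 : ambNu (clAct sK) q (N c) = 1 := by
    have h5 := map_ambNu (ClassGroup.extendedHom (𝓞 K) (𝓞 L)) (clAct sK) (clAct s)
      (ext_clAct s sK hc) q (N c)
    rw [h3, h2] at h5
    have h6 := congrArg N h5
    rwa [hN1, hd, pow_one, map_one] at h6
  have h5 := hK (N c) (by rw [← map_pow, h1, map_one]) h4
  rw [← h3, h5, map_one]

theorem smul_under (s : Gal(L/k)) (sK : Gal(K/k))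
    (hc : ∀ y : K, algebraMap K L (sK y) = s (algebraMap K L y)) (Q : Ideal (𝓞 L))
    (hQ : s • Q = Q) : sK • Q.under (𝓞 K) = Q.under (𝓞 K) := by
  have hle : ∀ a ∈ Q.under (𝓞 K), sK • a ∈ Q.under (𝓞 K) := by
    intro a ha
    rw [Ideal.under_def, Ideal.mem_comap] at ha ⊢
    have h1 : algebraMap (𝓞 K) (𝓞 L) (sK • a) = s • algebraMap (𝓞 K) (𝓞 L) a := by
      apply FaithfulSMul.algebraMap_injective (𝓞 L) L
      exact hc a
    rw [h1, ← hQ]
    exact Ideal.smul_mem_pointwise_smul s _ Q ha
  have h2 : sK • Q.under (𝓞 K) ≤ Q.under (𝓞 K) := by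
    intro b hb
    rw [Ideal.mem_pointwise_smul_iff_inv_smul_mem] at hb
    have := hle _ hb
    rwa [smul_inv_smul] at this
  have hfin : ∀ n : ℕ, sK ^ n • Q.under (𝓞 K) ≤ Q.under (𝓞 K) := by
    intro n
    induction n with
    | zero => rw [pow_zero, one_smul]
    | succ n ih =>
      rw [pow_succ', mul_smul]
      exact (Ideal.pointwise_smul_le_pointwise_smul_iff.2 ih).trans h2
  have hord : 0 < orderOf sK := orderOf_pos sK
  have h3 := hfin (orderOf sK - 1)
  apply le_antisymm h2
  have h4 := Ideal.pointwise_smul_le_pointwise_smul_iff (a := sK) |>.2 h3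
  rwa [smul_smul, ← pow_succ', Nat.sub_add_cancel hord, pow_orderOf_eq_one, one_smul] at h4

end

/-- the tower -/
theorem tower_minus {k F : Type*} [Field k] [NumberField k] [Field F] [NumberField F] [Algebra k F]
    {p q : ℕ} (hp : p.Prime) (hodd : Odd p) (hq : q.Prime) (hpq : p ≠ q)
    (hF : finrank k F = q) (sF : Gal(F/k)) (hsF : orderOf sF = q)
    (hbase : ∀ c : ClassGroup (𝓞 F), c ^ p = 1 → ambNu (clAct sF) q c = 1 → c = 1) (n : ℕ) :
    ∀ (L : Type*) [Field L] [NumberField L] [Algebra k L] [Algebra F L] [IsScalarTower k F L]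
      [IsAbelianGalois k L], finrank F L = p ^ n → ∀ (s : Gal(L/k)), orderOf s = q →
      (∀ y : F, algebraMap F L (sF y) = s (algebraMap F L y)) →
      (∀ Q : Ideal (𝓞 L), Q.IsPrime → (p : 𝓞 L) ∈ Q → s • Q = Q) →
      Mu22.UnramOutside p F L →
      ∀ c : ClassGroup (𝓞 L), c ^ p = 1 → ambNu (clAct s) q c = 1 → c = 1 := by
  induction n with
  | zero =>
    intro L _ _ _ _ _ _ hd s hs hc _ _
    have : IsGalois F L := (IsAbelianGalois.tower_top k F L).toIsGalois
    exact minus_of_finrank_one (by simpa using hd) s sF hc hbase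
  | succ n ih =>
    intro L _ _ _ _ _ _ hd s hs hc hst hun
    have : Fact p.Prime := ⟨hp⟩
    have hFL : IsGalois F L := (IsAbelianGalois.tower_top k F L).toIsGalois
    have hcard : Nat.card Gal(L/F) = p ^ (n + 1) := by
      rw [IsGalois.card_aut_eq_finrank, hd]
    obtain ⟨z, hz⟩ : ∃ z : Gal(L/F), orderOf z = p :=
      exists_prime_orderOf_dvd_card' p (by rw [hcard]; exact dvd_pow_self p (by omega))
    let M : IntermediateField F L := IntermediateField.fixedField (Subgroup.zpowers z)
    have hML : finrank M L = p := by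
      rw [IntermediateField.finrank_fixedField_eq_card, Nat.card_zpowers, hz]
    have hFM : finrank F M = p ^ n := by
      have h1 := finrank_mul_finrank F M L
      rw [hML, hd, pow_succ] at h1
      exact Nat.eq_of_mul_eq_mul_right hp.pos h1
    have i1 : IsScalarTower k F M := IsScalarTower.of_algebraMap_eq (fun x => by
      apply Subtype.ext
      exact IsScalarTower.algebraMap_apply k F L x)
    have i2 : IsScalarTower k M L := IsScalarTower.of_algebraMap_eq (fun x => rfl)
    have i3 : IsAbelianGalois k M := IsAbelianGalois.tower_bot k M L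
    have i4 : IsGalois M L := (IsAbelianGalois.tower_top k M L).toIsGalois
    let sM : Gal(M/k) := s.restrictNormal M
    have hsM : ∀ x : M, algebraMap M L (sM x) = s (algebraMap M L x) :=
      fun x => s.restrictNormal_commutes M x
    have hinj : Function.Injective (algebraMap M L) := (algebraMap M L).injective
    have hcM : ∀ y : F, algebraMap F M (sF y) = sM (algebraMap F M y) := by
      intro y
      apply hinj
      rw [hsM, ← IsScalarTower.algebraMap_apply F M L, ← IsScalarTower.algebraMap_apply F M L, hc]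
    have hsq : s ^ q = 1 := by rw [← hs]; exact pow_orderOf_eq_one s
    have hpow : ∀ (m : ℕ) (x : M), algebraMap M L ((sM ^ m) x) = (s ^ m) (algebraMap M L x) := by
      intro m
      induction m with
      | zero => intro x; rfl
      | succ m ihm =>
        intro x
        rw [pow_succ, pow_succ]
        exact (ihm (sM x)).trans (congrArg _ (hsM x))
    have hsMq : sM ^ q = 1 := by
      apply AlgEquiv.ext
      intro x
      apply hinj
      rw [hpow, hsq]
      rfl
    have hordM : orderOf sM = q := by
      rcases (Nat.dvd_prime hq).1 (orderOf_dvd_of_pow_eq_one hsMq) with h | h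
      · exfalso
        rw [orderOf_eq_one_iff] at h
        have h1 : sF = 1 := by
          ext y
          apply (algebraMap F M).injective
          rw [hcM, h]
          rfl
        rw [h1, orderOf_one] at hsF
        exact hq.one_lt.ne hsF
      · exact h
    have hkL : finrank k L = q * p ^ (n + 1) := by rw [← finrank_mul_finrank k F L, hF, hd]
    have hkM : finrank k M = q * p ^ n := by rw [← finrank_mul_finrank k F M, hF, hFM]
    refine nf_step hp hq hpq hML s hsq sM hsMq hsM ?_ ?_ ?_ ?_
    · intro σ x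
      have h1 : (σ.restrictScalars k) * s = s * (σ.restrictScalars k) :=
        (IsMulCommutative.is_comm (M := Gal(L/k))).comm _ _
      exact congrArg (fun g : Gal(L/k) => g x) h1
    · intro Q hQ hQ0 he
      refine hst Q hQ ?_
      by_contra hpQ
      exact he (Mu22.tw_unram_top F M L hun Q hQ hQ0 hpQ)
    · have e1 := rkm_eq (X := L) hodd hq hkL s hs
      have e2 := rkm_eq (X := M) hodd hq hkM sM hordM
      have e3 := rank_odd M L (by rw [hML]; exact hodd)
      rw [hML] at e3
      have e4 : p * rkm q sM + p * (p ^ n * (Units.rank k + 1)) = p * (Units.rank M + 1) := by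
        rw [← mul_add, e2]
      have e5 : p ^ (n + 1) * (Units.rank k + 1) = p * (p ^ n * (Units.rank k + 1)) := by ring
      omega
    · refine ih M hFM sM hordM hcM ?_ (Mu22.tw_unram_bot F M L hun)
      intro Q hQ hpQ
      obtain ⟨⟨Q', hQ', hover⟩⟩ := (inferInstance : Nonempty (Ideal.primesOver Q (𝓞 L)))
      have h1 : Q = Q'.under (𝓞 M) := Ideal.over_def Q' Q
      rw [h1]
      refine smul_under s sM hsM Q' (hst Q' hQ' ?_)
      rw [h1, Ideal.under_def, Ideal.mem_comap, map_natCast] at hpQ
      exact hpQ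

end Pool.Agent.Work.MuY
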