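import Pool.Agent.Work.MP_a4986b_nt.YIdeal

set_option autoImplicit false
set_option maxHeartbeats 400000
set_option linter.unusedSectionVars false

/-! # The Herbrand inequality for the minus part of the units -/

namespace Pool.Agent.Work.MuY

open NumberField Module
open scoped Pointwise nonZeroDivisors
open Pool.Agent.Work.MuI Pool.Agent.Work.MuI.Step

attribute [local instance] Units.mulDistribMulActionRight

theorem finite_sub {V : Type*} [CommGroup V] [Module.Finite ℤ (Additive V)] (H : Subgroup V) :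
    Module.Finite ℤ (Additive H) :=
  Module.Finite.of_injective (MonoidHom.toAdditive H.subtype).toIntLinearMap
    (fun _ _ h => Subtype.ext h)

theorem herb_mul {V : Type*} [CommGroup V] [Module.Finite ℤ (Additive V)] {p : ℕ} (hp : p.Prime)
    (g : V ≃* V) (hg : g ^ p = 1) (r : ℕ) (Fx : Subgroup V) (hFx : ∀ x, x ∈ Fx ↔ g x = x)
    (h1 : p * r ≤ finrank ℤ (Additive V)) (h2 : finrank ℤ (Additive Fx) ≤ r) :
    (ambNu g p).range.relIndex Fx ≠ 0 ∧
      (ambNu g p).range.relIndex Fx ≤ (ambDelta g).range.relIndex (ambNu g p).ker := by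
  set σ : AddMonoid.End (Additive V) := MonoidHom.toAdditive (g : V →* V) with hσ
  have hpow : ∀ (i : ℕ) (x : V), (σ ^ i) (Additive.ofMul x) = Additive.ofMul ((g ^ i) x) := by
    intro i
    induction i with
    | zero => intro x; rfl
    | succ i ih =>
      intro x
      rw [pow_succ, pow_succ]
      exact ih (g x)
  have hs1 : σ ^ p = 1 := by
    apply AddMonoidHom.ext
    intro x
    refine (hpow p x.toMul).trans ?_
    rw [hg]
    rfl
  set D : AddMonoid.End (Additive V) := 1 - σ with hD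
  set N : AddMonoid.End (Additive V) := ∑ i ∈ Finset.range p, σ ^ i with hN
  have hDx : ∀ x : V, D (Additive.ofMul x) = Additive.ofMul (x / g x) := fun x => rfl
  have hNx : ∀ x : V, N (Additive.ofMul x) = Additive.ofMul (ambNu g p x) := by
    intro x
    have h3 : N (Additive.ofMul x) = ∑ i ∈ Finset.range p, (σ ^ i) (Additive.ofMul x) :=
      AddMonoidHom.finsetSum_apply _ _ _
    rw [h3, ambNu_apply, ofMul_prod]
    exact Finset.sum_congr rfl fun i _ => hpow i x
  have e1 : AddMonoidHom.ker D = Subgroup.toAddSubgroup Fx := by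
    ext x
    have h1 : x ∈ AddMonoidHom.ker D ↔ D (Additive.ofMul x.toMul) = 0 := Iff.rfl
    have h2 : x ∈ Subgroup.toAddSubgroup Fx ↔ x.toMul ∈ Fx := Iff.rfl
    rw [h1, hDx, h2, hFx]
    constructor
    · intro h
      have h2 : x.toMul / g x.toMul = 1 := h
      exact (div_eq_one.1 h2).symm
    · intro h
      show Additive.ofMul (x.toMul / g x.toMul) = Additive.ofMul 1
      rw [h, div_self']
  have e2 : AddMonoidHom.range D = Subgroup.toAddSubgroup (ambDelta g).range := by
    ext x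
    constructor
    · rintro ⟨y, rfl⟩
      refine ⟨y.toMul⁻¹, ?_⟩
      show g (y.toMul)⁻¹ / (y.toMul)⁻¹ = y.toMul / g y.toMul
      rw [map_inv, div_eq_mul_inv, inv_inv, div_eq_mul_inv, mul_comm]
    · rintro ⟨y, hy⟩
      refine ⟨Additive.ofMul y⁻¹, (hDx y⁻¹).trans ?_⟩
      have h1 : x = Additive.ofMul (g y / y) := hy.symm
      rw [h1]
      congr 1
      rw [map_inv, div_eq_mul_inv, inv_inv, div_eq_mul_inv, mul_comm]
  have e3 : AddMonoidHom.ker N = Subgroup.toAddSubgroup (ambNu g p).ker := by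
    ext x
    have h1 : x ∈ AddMonoidHom.ker N ↔ N (Additive.ofMul x.toMul) = 0 := Iff.rfl
    rw [h1, hNx]
    exact Iff.rfl
  have e4 : AddMonoidHom.range N = Subgroup.toAddSubgroup (ambNu g p).range := by
    ext x
    constructor
    · rintro ⟨y, rfl⟩
      exact ⟨y.toMul, (hNx y.toMul).symm⟩
    · rintro ⟨y, hy⟩
      exact ⟨Additive.ofMul y, (hNx y).trans hy⟩
  have hfx := finite_sub Fx
  have hle : finrank ℤ (AddMonoidHom.ker D) ≤ r := by
    refine le_trans ?_ h2
    rw [e1]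
    let f : ↥(Subgroup.toAddSubgroup Fx) →+ Additive Fx :=
      { toFun := fun x => Additive.ofMul ⟨x.1.toMul, x.2⟩
        map_zero' := rfl
        map_add' := fun _ _ => rfl }
    refine LinearMap.finrank_le_finrank_of_injective (f := f.toIntLinearMap) ?_
    intro x y h
    apply Subtype.ext
    have h3 : (⟨x.1.toMul, x.2⟩ : Fx) = ⟨y.1.toMul, y.2⟩ := h
    exact congrArg Subtype.val h3
  obtain ⟨k1, -, k3⟩ := MP_a4986b_nt.Herb.herb2 hp σ hs1 r D N hD hN h1 hle
  rw [e4, e1, Subgroup.relIndex_toAddSubgroup] at k1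
  rw [e4, e1, e2, e3, Subgroup.relIndex_toAddSubgroup, Subgroup.relIndex_toAddSubgroup] at k3
  exact ⟨k1, k3⟩

section

variable {k K L : Type*} [Field k] [NumberField k] [Field K] [NumberField K] [Field L]
  [NumberField L] [Algebra k K] [Algebra K L] [Algebra k L]

/-- units of norm one -/
noncomputable def EM (q : ℕ) (s : Gal(L/k)) : Subgroup (𝓞 L)ˣ :=
  (Mu22.nHom s q : (𝓞 L)ˣ →* (𝓞 L)ˣ).ker

/-- their rank -/
noncomputable def rkm (q : ℕ) (s : Gal(L/k)) : ℕ := finrank ℤ (Additive (EM q s))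

theorem ambNu_sU_uI (s : Gal(L/k)) (q : ℕ) (u : (𝓞 L)ˣ) :
    ambNu (sU s) q (uI L u) = uI L (Mu22.nHom s q u) := prod_sU_uI s q u

theorem mem_EM {q : ℕ} {s : Gal(L/k)} {u : (𝓞 L)ˣ} : u ∈ EM q s ↔ ambNu (sU s) q (uI L u) = 1 := by
  rw [ambNu_sU_uI]
  constructor
  · intro h
    have h1 : Mu22.nHom s q u = 1 := h
    rw [h1, map_one]
  · intro h
    rw [← map_one (uI L)] at h
    exact uI_injective h

theorem map_ambNu' (σ : Gal(L/K)) (s : Gal(L/k)) (hc : ∀ x : L, σ (s x) = s (σ x)) (q : ℕ)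
    (x : Lˣ) : ambNu (sU s) q (sU σ x) = sU σ (ambNu (sU s) q x) :=
  (map_ambNu (sU σ : Lˣ →* Lˣ) (sU s) (sU s) (sU_comm σ s hc) q x).symm

/-- the action of `σ` on the units of norm one -/
noncomputable def eAct (q : ℕ) (s : Gal(L/k)) (σ : Gal(L/K)) (hc : ∀ x : L, σ (s x) = s (σ x)) :
    EM q s ≃* EM q s where
  toFun u := ⟨σ • u.1, by
    rw [mem_EM, ← sU_uI, map_ambNu' σ s hc q, mem_EM.1 u.2, map_one]⟩
  invFun u := ⟨σ⁻¹ • u.1, by
    rw [mem_EM, ← sU_uI, map_ambNu' σ⁻¹ s (by
      intro x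
      apply σ.injective
      rw [hc]
      change (σ * σ⁻¹) (s x) = s ((σ * σ⁻¹) x)
      rw [mul_inv_cancel]
      rfl) q, mem_EM.1 u.2, map_one]⟩
  left_inv u := Subtype.ext (inv_smul_smul σ u.1)
  right_inv u := Subtype.ext (smul_inv_smul σ u.1)
  map_mul' u v := Subtype.ext (smul_mul' σ u.1 v.1)

end

end Pool.Agent.Work.MuY
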