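import Pool.Agent.Work.MP_a4986b_nt.YAbs

set_option autoImplicit false
set_option maxHeartbeats 400000

/-! # The norm-one part in a cyclic step of degree `p`, abstract form -/

namespace Pool.Agent.Work.MuZ

open Pool.Agent.Work.MuI Pool.Agent.Work.MuY

section th

variable {Λ : Type*} [CommGroup Λ]

/-- `x ↦ x ^ d / ν x` -/
def tn (ν : Λ →* Λ) (d : ℕ) : Λ →* Λ where
  toFun x := x ^ d / ν x
  map_one' := by simp
  map_mul' a b := by rw [mul_pow, map_mul, mul_div_mul_comm]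

theorem tn_apply (ν : Λ →* Λ) (d : ℕ) (x : Λ) : tn ν d x = x ^ d / ν x := rfl

theorem tn_of_nu (ν : Λ →* Λ) (d : ℕ) {x : Λ} (hx : ν x = 1) : tn ν d x = x ^ d := by
  rw [tn_apply, hx, div_one]

theorem nu_tn (ν : Λ →* Λ) (d : ℕ) (hν : ∀ x, ν (ν x) = ν x ^ d) (x : Λ) :
    ν (tn ν d x) = 1 := by
  rw [tn_apply, map_div, map_pow, hν, div_self']

theorem map_tn {D : Type*} [CommGroup D] (f : Λ →* D) (ν : Λ →* Λ) (ψ : D →* D)
    (h : ∀ x, f (ν x) = ψ (f x)) (d : ℕ) (x : Λ) : f (tn ν d x) = tn ψ d (f x) := by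
  rw [tn_apply, tn_apply, map_div, map_pow, h]

end th

section units

variable {p d : ℕ} {Λ D : Type*} [CommGroup Λ] [CommGroup D]

/-- the unit part -/
theorem units_part (hp : p.Prime) (hpd : ¬ p ∣ d) (π : Λ →* D)
    (g : Λ ≃* Λ) (φ : D ≃* D) (ν : Λ →* Λ) (ψ : D →* D)
    (hπg : ∀ x, π (g x) = φ (π x)) (hπν : ∀ x, π (ν x) = ψ (π x))
    (hg : g ^ p = 1) (hν : ∀ x, ν (ν x) = ν x ^ d) (hψ : ∀ x, ψ (ψ x) = ψ x ^ d)
    (hgν : ∀ x, g (ν x) = ν (g x))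
    (h90 : ∀ x : Λ, ambNu g p x = 1 → ∃ y, x = g y / y)
    (B : Subgroup D) (hBφ : ∀ x ∈ B, φ x = x) (hB : ∀ x, φ x = x → tn ψ d x ∈ B)
    (hmin : ∀ b ∈ B, ψ b = 1 → (∃ y, g y = y ∧ b ^ p = π y) → ∃ y, g y = y ∧ b = π y)
    (EN DV Fx NV : Subgroup Λ)
    (hEN : ∀ x, x ∈ EN ↔ (π x = 1 ∧ ν x = 1) ∧ ambNu g p x = 1)
    (hDV : ∀ x, x ∈ DV ↔ ∃ v, (π v = 1 ∧ ν v = 1) ∧ x = g v / v)
    (hFx : ∀ x, x ∈ Fx ↔ (π x = 1 ∧ ν x = 1) ∧ g x = x)
    (hNV : ∀ x, x ∈ NV ↔ ∃ v, (π v = 1 ∧ ν v = 1) ∧ x = ambNu g p v)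
    (hH : NV.relIndex Fx ≤ DV.relIndex EN) (hne : NV.relIndex Fx ≠ 0) : Fx ≤ NV := by
  have hcop : Nat.Coprime p (d * d) :=
    Nat.Coprime.mul_right ((Nat.Prime.coprime_iff_not_dvd hp).2 hpd)
      ((Nat.Prime.coprime_iff_not_dvd hp).2 hpd)
  have hVg : ∀ x, (π x = 1 ∧ ν x = 1) → (π (g x) = 1 ∧ ν (g x) = 1) := by
    rintro x ⟨h1, h2⟩
    exact ⟨by rw [hπg, h1, map_one], by rw [← hgν, h2, map_one]⟩
  have hVi : ∀ (i : ℕ) (x : Λ), (π x = 1 ∧ ν x = 1) →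
      (π ((g ^ i) x) = 1 ∧ ν ((g ^ i) x) = 1) := by
    intro i
    induction i with
    | zero => intro x hx; exact hx
    | succ i ih =>
      intro x hx
      rw [pow_succ]
      exact ih (g x) (hVg x hx)
  have hle : EN ≤ DV := by
    intro u hu
    obtain ⟨⟨hu1, hu2⟩, hu3⟩ := (hEN u).1 hu
    -- the `p`-th power
    have hp1 : u ^ p ∈ DV := by
      have h1 : ∀ i : ℕ, (g ^ i) u / u ∈ DV := by
        intro i
        rw [hDV]
        refine ⟨∏ j ∈ Finset.range i, (g ^ j) u, ⟨?_, ?_⟩, ?_⟩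
        · rw [map_prod]
          exact Finset.prod_eq_one fun j _ => (hVi j u ⟨hu1, hu2⟩).1
        · rw [map_prod]
          exact Finset.prod_eq_one fun j _ => (hVi j u ⟨hu1, hu2⟩).2
        · induction i with
          | zero => simp
          | succ i ih =>
            have h2 : (g ^ (i + 1)) u = g ((g ^ i) u) := by rw [pow_succ']; rfl
            rw [Finset.prod_range_succ, map_mul, mul_div_mul_comm, ← ih, h2]
            rw [div_mul_div_comm, mul_comm ((g ^ i) u), mul_div_mul_right_eq_div]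
      have h2 : u ^ p = (∏ i ∈ Finset.range p, (g ^ i) u / u)⁻¹ := by
        rw [Finset.prod_div_distrib, ← ambNu_apply, hu3, Finset.prod_const, Finset.card_range,
          one_div, inv_inv]
      rw [h2]
      exact DV.inv_mem (DV.prod_mem fun i _ => h1 i)
    -- the `d ^ 2`-th power
    have hq1 : u ^ (d * d) ∈ DV := by
      obtain ⟨z, hz⟩ := h90 u hu3
      have hz1 : φ (π z) = π z := by
        rw [← hπg]
        have : g z = u * z := by rw [hz, div_mul_cancel]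
        rw [this, map_mul, hu1, one_mul]
      have hb : π (tn ν d z) ∈ B := by rw [map_tn π ν ψ hπν]; exact hB _ hz1
      have hbN : ψ (π (tn ν d z)) = 1 := by
        rw [map_tn π ν ψ hπν, nu_tn ψ d hψ]
      obtain ⟨y, hy1, hy2⟩ := hmin _ hb hbN ⟨ambNu g p (tn ν d z), s_ambNu g p hg _, by
        rw [map_ambNu π g φ hπg, ambNu_of_fixed φ p (hBφ _ hb)]⟩
      have hthg : ∀ x, g (tn ν d x) = tn ν d (g x) := fun x => map_tn (g : Λ →* Λ) ν ν hgν d x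
      have hv0 : g (tn ν d z / y) / (tn ν d z / y) = u ^ d := by
        rw [map_div, hy1, hthg, div_div_div_cancel_right, ← map_div, ← hz, tn_of_nu ν d hu2]
      rw [hDV]
      refine ⟨tn ν d (tn ν d z / y), ⟨?_, nu_tn ν d hν _⟩, ?_⟩
      · rw [map_tn π ν ψ hπν, map_div, ← hy2, div_self', map_one]
      · rw [hthg, ← map_div, hv0, map_pow, tn_of_nu ν d hu2, pow_mul]
    exact mem_of_pow_mem hcop hp1 hq1
  have h1 : DV.relIndex EN = 1 := Subgroup.relIndex_eq_one.2 hle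
  rw [h1] at hH
  exact Subgroup.relIndex_eq_one.1 (by omega)

end units

section step

variable {p d : ℕ} {Λ D : Type*} [CommGroup Λ] [CommGroup D]

/-- the step, abstract form -/
theorem minus_step (hp : p.Prime) (hpd : ¬ p ∣ d) (π : Λ →* D)
    (g : Λ ≃* Λ) (φ : D ≃* D) (ν : Λ →* Λ) (ψ : D →* D)
    (hπg : ∀ x, π (g x) = φ (π x)) (hπν : ∀ x, π (ν x) = ψ (π x))
    (hg : g ^ p = 1) (hφ : φ ^ p = 1) (hν : ∀ x, ν (ν x) = ν x ^ d) (hψ : ∀ x, ψ (ψ x) = ψ x ^ d)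
    (hgν : ∀ x, g (ν x) = ν (g x)) (hφψ : ∀ x, φ (ψ x) = ψ (φ x))
    (h90 : ∀ x : Λ, ambNu g p x = 1 → ∃ y, x = g y / y)
    (B : Subgroup D) (hBφ : ∀ x ∈ B, φ x = x) (hB : ∀ x, φ x = x → tn ψ d x ∈ B)
    (hmin : ∀ b ∈ B, ψ b = 1 → (∃ y, g y = y ∧ b ^ p = π y) → ∃ y, g y = y ∧ b = π y)
    (hU : ∀ x, π x = 1 → ν x = 1 → g x = x → ∃ v, π v = 1 ∧ ν v = 1 ∧ x = ambNu g p v)
    (X : Type*) [CommGroup X] [Finite X] (c : D →* X) (hc : Function.Surjective c)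
    (hck : c.ker = π.range) (a : X ≃* X) (b : X →* X) (ha : ∀ x, c (φ x) = a (c x))
    (hb : ∀ x, c (ψ x) = b (c x))
    (x : X) (hx1 : x ^ p = 1) (hx2 : b x = 1) : x = 1 := by
  have hcop : Nat.Coprime p (d * d) :=
    Nat.Coprime.mul_right ((Nat.Prime.coprime_iff_not_dvd hp).2 hpd)
      ((Nat.Prime.coprime_iff_not_dvd hp).2 hpd)
  by_contra hx
  have hab : ∀ x, a (b x) = b (a x) := by
    intro x
    obtain ⟨d, rfl⟩ := hc x
    rw [← hb, ← ha, hφψ, hb, ha]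
  have hap : ∀ x, (a ^ p) x = x := by
    intro x
    obtain ⟨d, rfl⟩ := hc x
    rw [← map_iter c φ a ha, hφ]
    rfl
  let A : Subgroup X :=
    { carrier := {x | x ^ p = 1 ∧ b x = 1}
      mul_mem' := by
        rintro x y ⟨h1, h2⟩ ⟨h3, h4⟩
        exact ⟨by rw [mul_pow, h1, h3, one_mul], by rw [map_mul, h2, h4, one_mul]⟩
      one_mem' := ⟨one_pow _, map_one _⟩
      inv_mem' := by
        rintro x ⟨h1, h2⟩
        exact ⟨by rw [inv_pow, h1, inv_one], by rw [map_inv, h2, inv_one]⟩ }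
  have hAmem : ∀ x, x ∈ A ↔ x ^ p = 1 ∧ b x = 1 := fun x => Iff.rfl
  have hAa : ∀ x ∈ A, a x ∈ A := by
    intro x hx
    rw [hAmem] at hx ⊢
    exact ⟨by rw [← map_pow, hx.1, map_one], by rw [← hab, hx.2, map_one]⟩
  let a' : A →* A := ((a : X →* X).comp A.subtype).codRestrict A (fun x => hAa x x.2)
  have ha' : ∀ (n : ℕ) (x : A), (((⇑a')^[n] x : A) : X) = (a ^ n) (x : X) := by
    intro n
    induction n with
    | zero => intro x; rfl
    | succ n ih =>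
      intro x
      rw [Function.iterate_succ_apply, ih, pow_succ]
      rfl
  obtain ⟨⟨x, hxA⟩, hx1, hxa⟩ := exists_fixed (A := A) hp (fun x => Subtype.ext x.2.1) a'
    (fun x => Subtype.ext (by rw [ha', hap])) ⟨⟨x, hx1, hx2⟩, fun h => hx (congrArg Subtype.val h)⟩
  have hxa' : a x = x := congrArg Subtype.val hxa
  have hx1' : x ≠ 1 := fun h => hx1 (Subtype.ext h)
  obtain ⟨hxp, hxN⟩ := (hAmem x).1 hxA
  apply hx1'
  obtain ⟨e, rfl⟩ := hc x
  have h1 : φ e / e ∈ π.range := by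
    rw [← hck, MonoidHom.mem_ker, map_div, ha, hxa', div_self']
  obtain ⟨z, hz⟩ := h1
  set w := tn ν d z with hw
  have hthφ : ∀ x, φ (tn ψ d x) = tn ψ d (φ x) := fun x => map_tn (φ : D →* D) ψ ψ hφψ d x
  have hπw : π w = φ (tn ψ d e) / tn ψ d e := by
    rw [hw, map_tn π ν ψ hπν, hz, map_div, hthφ]
  have hδ : ∀ x : D, ambNu φ p (φ x / x) = 1 := fun x => ambNu_delta φ p hφ x
  set u := ambNu g p w with hu
  have hu1 : π u = 1 := by rw [hu, map_ambNu π g φ hπg, hπw, hδ]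
  have hcomm : ∀ x, ambNu g p (ν x) = ν (ambNu g p x) := fun x =>
    (map_ambNu ν g g (fun x => (hgν x).symm) p x).symm
  have hu2 : ν u = 1 := by
    rw [hu, ← hcomm, hw, nu_tn ν d hν, map_one]
  have hu3 : g u = u := s_ambNu g p hg w
  obtain ⟨v, hv1, hv2, hv3⟩ := hU u hu1 hu2 hu3
  obtain ⟨y, hy⟩ := h90 (w / v) (by rw [map_div, ← hv3, ← hu, div_self'])
  have he : φ (tn ψ d e / π y) = tn ψ d e / π y := by
    have h3 : φ (tn ψ d e) = π w * tn ψ d e := by rw [hπw, div_mul_cancel]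
    have h4 : g y = w / v * y := by rw [hy, div_mul_cancel]
    rw [map_div, ← hπg, h4, h3, map_mul, map_div, hv1, div_one]
    rw [mul_div_mul_left_eq_div]
  have hB' := hB _ he
  set b' := tn ψ d (tn ψ d e / π y) with hb'
  have hbN : ψ b' = 1 := nu_tn ψ d hψ _
  have hcπ : ∀ z, c (π z) = 1 := fun z => by
    have : π z ∈ c.ker := by rw [hck]; exact ⟨z, rfl⟩
    exact this
  have hcb : c b' = c e ^ (d * d) := by
    rw [hb', map_div, ← map_tn π ν ψ hπν, map_div, hcπ, div_one, map_tn c ψ b hb, map_tn c ψ b hb,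
      tn_of_nu b d hxN, map_pow, tn_of_nu b d hxN, pow_mul]
  have hbp : b' ^ p ∈ π.range := by
    rw [← hck, MonoidHom.mem_ker, map_pow, hcb, ← pow_mul, mul_comm, pow_mul, hxp, one_pow]
  obtain ⟨z', hz'⟩ := hbp
  have hbpB : b' ^ p ∈ B := B.pow_mem hB' p
  have h5 := hmin _ hbpB (by rw [map_pow, hbN, one_pow]) ⟨ambNu g p z', s_ambNu g p hg _, by
    rw [map_ambNu π g φ hπg, hz', ambNu_of_fixed φ p (hBφ _ hbpB)]⟩
  obtain ⟨y2, -, hy2⟩ := hmin _ hB' hbN h5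
  have h6 : c e ^ (d * d) = 1 := by rw [← hcb, hy2, hcπ]
  have h7 := mem_of_pow_mem (H := (⊥ : Subgroup X)) hcop (Subgroup.mem_bot.2 hxp)
    (Subgroup.mem_bot.2 h6)
  exact Subgroup.mem_bot.1 h7

end step

end Pool.Agent.Work.MuZ
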