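import Pool.Agent.Work.MP_a4986b_nt.ZNorm

set_option autoImplicit false
set_option maxHeartbeats 400000
set_option linter.unusedSectionVars false

/-! # Multiplicities at non-split primes -/

namespace Pool.Agent.Work.MuZ

open NumberField Module IsDedekindDomain
open scoped Pointwise nonZeroDivisors
open Pool.Agent.Work.MuI Pool.Agent.Work.MuI.Step Pool.Agent.Work.MuY

namespace CountZ

/-- two homomorphisms on fractional ideals that agree at primes are equal -/
theorem hom_ext_prime {L : Type*} [Field L] [NumberField L] {A : Type*} [CommGroup A]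
    (f g : (FractionalIdeal (𝓞 L)⁰ L)ˣ →* A)
    (h : ∀ (P : (Ideal (𝓞 L))⁰), (P : Ideal (𝓞 L)).IsPrime →
      f (FractionalIdeal.mk0 L P) = g (FractionalIdeal.mk0 L P)) : f = g := by
  have h1 : ∀ I : Ideal (𝓞 L), ∀ hI : I ∈ (Ideal (𝓞 L))⁰,
      f (FractionalIdeal.mk0 L ⟨I, hI⟩) = g (FractionalIdeal.mk0 L ⟨I, hI⟩) := by
    intro I
    refine UniqueFactorizationMonoid.induction_on_prime I ?_ ?_ ?_
    · intro hI
      exact absurd rfl (nonZeroDivisors.ne_zero hI)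
    · intro J hJ hJ'
      have h2 : (⟨J, hJ'⟩ : (Ideal (𝓞 L))⁰) = 1 := by
        apply Subtype.ext
        simpa using (Ideal.isUnit_iff.1 hJ)
      rw [h2, map_one, map_one, map_one]
    · intro J P hJ hP ih hPJ
      have hP0 : P ∈ (Ideal (𝓞 L))⁰ := mem_nonZeroDivisors_of_ne_zero hP.ne_zero
      have hJ0 : J ∈ (Ideal (𝓞 L))⁰ := mem_nonZeroDivisors_of_ne_zero hJ
      have h2 : (⟨P * J, hPJ⟩ : (Ideal (𝓞 L))⁰) = ⟨P, hP0⟩ * ⟨J, hJ0⟩ := rfl
      rw [h2, map_mul, map_mul, map_mul, ih hJ0, h ⟨P, hP0⟩ (Ideal.isPrime_of_prime hP)]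
  ext x
  obtain ⟨n, I, hn, hI⟩ := Inv.exists_denom L (x : FractionalIdeal (𝓞 L)⁰ L)
  have hn0 : ((n : ℕ) : 𝓞 L) ≠ 0 := by exact_mod_cast hn
  have hs0 : Ideal.span {((n : ℕ) : 𝓞 L)} ∈ (Ideal (𝓞 L))⁰ :=
    mem_nonZeroDivisors_of_ne_zero (by simpa using hn)
  have hI0 : I ∈ (Ideal (𝓞 L))⁰ := by
    apply mem_nonZeroDivisors_of_ne_zero
    rintro rfl
    rw [Ideal.zero_eq_bot, FractionalIdeal.coeIdeal_bot] at hI
    rcases mul_eq_zero.1 hI with h2 | h2
    · rw [FractionalIdeal.spanSingleton_eq_zero_iff] at h2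
      exact hn (by exact_mod_cast h2)
    · exact x.ne_zero h2
  have h2 : FractionalIdeal.mk0 L ⟨_, hs0⟩ * x = FractionalIdeal.mk0 L ⟨I, hI0⟩ := by
    apply Units.ext
    rw [Units.val_mul, FractionalIdeal.coe_mk0, FractionalIdeal.coe_mk0, ← hI]
    congr 1
    rw [FractionalIdeal.coeIdeal_span_singleton]
    simp
  have h3 : f (FractionalIdeal.mk0 L ⟨_, hs0⟩) * f x = g (FractionalIdeal.mk0 L ⟨_, hs0⟩) * g x := by
    rw [← map_mul, ← map_mul, h2, h1 I hI0]
  rw [h1 _ hs0] at h3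
  exact mul_left_cancel h3

/-- the multiplicity at `v` as a homomorphism -/
noncomputable def cv {L : Type*} [Field L] [NumberField L] (v : HeightOneSpectrum (𝓞 L)) :
    (FractionalIdeal (𝓞 L)⁰ L)ˣ →* Multiplicative ℤ where
  toFun x := Multiplicative.ofAdd (FractionalIdeal.count L v (x : FractionalIdeal (𝓞 L)⁰ L))
  map_one' := by
    rw [Units.val_one, FractionalIdeal.count_one]
    rfl
  map_mul' x y := by
    rw [Units.val_mul, FractionalIdeal.count_mul L v x.ne_zero y.ne_zero]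
    rfl

theorem finrank_int (K L : Type*) [Field K] [NumberField K] [Field L] [NumberField L]
    [Algebra K L] : finrank (𝓞 K) (𝓞 L) = finrank K L :=
  (IsFractionRing.finrank_eq (𝓞 K) K (𝓞 L) L).symm

theorem count_map {L : Type*} [Field L] [NumberField L] (v : HeightOneSpectrum (𝓞 L))
    (I : Ideal (𝓞 L)) (hI : I ≠ ⊥) (h : v.asIdeal ∣ I → False) :
    FractionalIdeal.count L v (I : FractionalIdeal (𝓞 L)⁰ L) = 0 := by
  classical
  rw [Inv.count_coeIdeal v I hI, Nat.cast_eq_zero, Multiset.count_eq_zero]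
  exact fun h1 => h (UniqueFactorizationMonoid.dvd_of_mem_normalizedFactors h1)

theorem count_prime {K L : Type*} [Field K] [NumberField K] [Field L] [NumberField L] [Algebra K L]
    (v : HeightOneSpectrum (𝓞 L)) (hv : ∀ Q : Ideal (𝓞 L), Q.IsPrime →
      Q.under (𝓞 K) = v.asIdeal.under (𝓞 K) → Q = v.asIdeal)
    (P : (Ideal (𝓞 L))⁰) (hP : (P : Ideal (𝓞 L)).IsPrime) :
    FractionalIdeal.count L v ((Inv.extU K L (nD K L (FractionalIdeal.mk0 L P)) :
      (FractionalIdeal (𝓞 L)⁰ L)ˣ) : FractionalIdeal (𝓞 L)⁰ L) =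
      finrank K L * FractionalIdeal.count L v ((FractionalIdeal.mk0 L P :
        (FractionalIdeal (𝓞 L)⁰ L)ˣ) : FractionalIdeal (𝓞 L)⁰ L) := by
  classical
  have hP0 : (P : Ideal (𝓞 L)) ≠ ⊥ := nonZeroDivisors.ne_zero P.2
  have hPm : (P : Ideal (𝓞 L)).IsMaximal := hP.isMaximal hP0
  set p : Ideal (𝓞 K) := (P : Ideal (𝓞 L)).under (𝓞 K) with hp
  have hpm : p.IsMaximal := by
    rw [hp]; infer_instance
  have hp0 : p ≠ ⊥ := by
    rw [hp]
    intro h
    exact hP0 (Ideal.eq_bot_of_comap_eq_bot h)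
  have hmap0 : p.map (algebraMap (𝓞 K) (𝓞 L)) ≠ ⊥ := by
    rw [Ne, Ideal.map_eq_bot_iff_of_injective (FaithfulSMul.algebraMap_injective (𝓞 K) (𝓞 L))]
    exact hp0
  have hover : (P : Ideal (𝓞 L)).LiesOver p := ⟨hp⟩
  have h1 : ((Inv.extU K L (nD K L (FractionalIdeal.mk0 L P)) :
      (FractionalIdeal (𝓞 L)⁰ L)ˣ) : FractionalIdeal (𝓞 L)⁰ L) =
      ((p.map (algebraMap (𝓞 K) (𝓞 L)) : Ideal (𝓞 L)) : FractionalIdeal (𝓞 L)⁰ L) ^
        ((P : Ideal (𝓞 L)).inertiaDeg (𝓞 K)) := by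
    rw [Inv.extU_coe, nD_mk0, FractionalIdeal.extendedHom_coeIdeal_eq_map,
      Ideal.relNorm_eq_pow_of_isMaximal (P : Ideal (𝓞 L)) p, Ideal.map_pow,
      FractionalIdeal.coeIdeal_pow]
  rw [h1, FractionalIdeal.count_pow, FractionalIdeal.coe_mk0]
  by_cases hPv : (P : Ideal (𝓞 L)) = v.asIdeal
  · have hc : FractionalIdeal.count L v
        ((p.map (algebraMap (𝓞 K) (𝓞 L)) : Ideal (𝓞 L)) : FractionalIdeal (𝓞 L)⁰ L) =
        ((P : Ideal (𝓞 L)).ramificationIdx (𝓞 K) : ℤ) := by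
      rw [Inv.count_coeIdeal v _ hmap0,
        Ideal.IsDedekindDomain.ramificationIdx_eq_normalizedFactors_count p _ hmap0, hPv]
    rw [hc, hPv, FractionalIdeal.count_self, mul_one, ← finrank_int K L]
    have huniq : ∀ Q : p.primesOver (𝓞 L), Q = ⟨v.asIdeal, v.isPrime, by rw [← hPv]; exact hover⟩ := by
      intro Q
      apply Subtype.ext
      have h2 : (Q.1).LiesOver p := Q.2.2
      exact hv Q.1 Q.2.1 (by rw [← h2.over, hp, hPv])
    have hsum := Ideal.sum_ramification_inertia_eq_finrank p (𝓞 L)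
    rw [Fintype.sum_eq_single ⟨v.asIdeal, v.isPrime, by rw [← hPv]; exact hover⟩
      (fun Q hQ => absurd (huniq Q) hQ)] at hsum
    rw [← hsum]
    push_cast
    ring
  · have hc : FractionalIdeal.count L v
        ((p.map (algebraMap (𝓞 K) (𝓞 L)) : Ideal (𝓞 L)) : FractionalIdeal (𝓞 L)⁰ L) = 0 := by
      refine count_map v _ hmap0 (fun hd => hPv ?_)
      have h2 : p ≤ v.asIdeal.under (𝓞 K) := Ideal.map_le_iff_le_comap.1 (Ideal.le_of_dvd hd)
      have h3 : v.asIdeal.under (𝓞 K) ≠ ⊤ := by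
        have := v.isPrime
        exact (inferInstance : (v.asIdeal.under (𝓞 K)).IsPrime).ne_top
      exact hv _ hP (hpm.eq_of_le h3 h2)
    have hc2 : FractionalIdeal.count L v ((P : Ideal (𝓞 L)) : FractionalIdeal (𝓞 L)⁰ L) = 0 := by
      refine count_map v _ hP0 (fun hd => hPv ?_)
      exact hPm.eq_of_le v.isPrime.ne_top (Ideal.le_of_dvd hd)
    rw [hc, hc2, mul_zero, mul_zero]

end CountZ

open CountZ

theorem count_nu {K L : Type*} [Field K] [NumberField K] [Field L] [NumberField L] [Algebra K L]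
    (v : HeightOneSpectrum (𝓞 L)) (hv : ∀ Q : Ideal (𝓞 L), Q.IsPrime →
      Q.under (𝓞 K) = v.asIdeal.under (𝓞 K) → Q = v.asIdeal)
    (x : (FractionalIdeal (𝓞 L)⁰ L)ˣ) :
    FractionalIdeal.count L v ((Inv.extU K L (nD K L x) : (FractionalIdeal (𝓞 L)⁰ L)ˣ) :
      FractionalIdeal (𝓞 L)⁰ L) =
      finrank K L * FractionalIdeal.count L v (x : FractionalIdeal (𝓞 L)⁰ L) := by
  have h := hom_ext_prime ((cv v).comp ((Inv.extU K L).comp (nD K L))) ((cv v) ^ finrank K L) (by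
    intro P hP
    have h1 := count_prime v hv P hP
    rw [MonoidHom.comp_apply, MonoidHom.comp_apply, MonoidHom.pow_apply]
    change Multiplicative.ofAdd _ = (Multiplicative.ofAdd _) ^ finrank K L
    rw [h1, ← ofAdd_nsmul, nsmul_eq_mul])
  have h2 := DFunLike.congr_fun h x
  rw [MonoidHom.comp_apply, MonoidHom.comp_apply, MonoidHom.pow_apply] at h2
  change Multiplicative.ofAdd _ = (Multiplicative.ofAdd _) ^ finrank K L at h2
  rw [← ofAdd_nsmul, nsmul_eq_mul] at h2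
  exact Multiplicative.ofAdd.injective h2

end Pool.Agent.Work.MuZ
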