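import Pool.Agent.Work.MP_a4986b_nt.ZReal

set_option autoImplicit false
set_option maxHeartbeats 400000
set_option linter.unusedSectionVars false

/-! # Non-split extensions: final forms -/

namespace Pool.Agent.Work.MuZ

open NumberField Module
open Pool.Agent.Work.MuB Pool.Agent.Work.MuY

/-- exactly one prime above an inert prime that does not split further -/
theorem one_of_inert {p : ℕ} (hp : p.Prime) {K F : Type} [Field K] [NumberField K] [Field F]
    [NumberField F] [Algebra K F] (hin : (Ideal.span {(p : 𝓞 K)}).IsPrime)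
    (hns : NonSplit p K F) : ∃! P : Ideal (𝓞 F), P.IsPrime ∧ (p : 𝓞 F) ∈ P := by
  have hpK0 : (p : 𝓞 K) ≠ 0 := by exact_mod_cast hp.ne_zero
  have hmaxK : (Ideal.span {(p : 𝓞 K)}).IsMaximal :=
    hin.isMaximal (by simpa using hpK0)
  have hQ : ∀ P : Ideal (𝓞 F), P.IsPrime → (p : 𝓞 F) ∈ P →
      P.under (𝓞 K) = Ideal.span {(p : 𝓞 K)} := by
    intro P hP hpP
    refine (hmaxK.eq_of_le ?_ ?_).symm
    · exact (Ideal.IsPrime.under (𝓞 K) P).ne_top
    · rw [Ideal.span_singleton_le_iff_mem, Ideal.under_def, Ideal.mem_comap]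
      simpa using hpP
  have hnot : Ideal.span {(p : 𝓞 F)} ≠ ⊤ := by
    intro h1
    have h3 := absNorm_span_nat (F := F) p
    rw [h1, Ideal.absNorm_top] at h3
    have h4 : 0 < finrank ℚ F := finrank_pos
    have := Nat.one_lt_pow h4.ne' hp.one_lt
    omega
  obtain ⟨P, hPm, hle⟩ := Ideal.exists_le_maximal (Ideal.span {(p : 𝓞 F)}) hnot
  have hpP : (p : 𝓞 F) ∈ P := hle (Ideal.mem_span_singleton_self _)
  refine ⟨P, ⟨hPm.isPrime, hpP⟩, ?_⟩
  rintro P' ⟨hP', hpP'⟩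
  exact hns P' P hP' hPm.isPrime hpP' hpP (by rw [hQ P' hP' hpP', hQ P hPm.isPrime hpP])

/-- any degree -/
theorem any_degree2 (k : Type) [Field k] [NumberField k] (n : ℕ) :
    ∃ c : ℝ, 0 < c ∧ ∀ (F : Type) [Field F] [NumberField F] [Algebra k F] (p : ℕ), p.Prime →
      p ≠ 2 → finrank k F = n → DiscrAt c 1 p k F →
      ¬ p ∣ Nat.card (ClassGroup (𝓞 F)) ∧
      (∀ (k' : Type) [Field k'] [NumberField k'] [Algebra k k'] [Algebra k' F]
        [IsScalarTower k k' F], NonSplit p k' F → RelExtensions p k' F) ∧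
      ((∃! P : Ideal (𝓞 F), P.IsPrime ∧ (p : 𝓞 F) ∈ P) → Extensions p F) := by
  by_cases hn : 0 < n
  swap
  · refine ⟨1, one_pos, fun F _ _ _ p _ _ hF => ?_⟩
    have : 0 < finrank k F := finrank_pos
    omega
  obtain ⟨c1, hc1, h1⟩ := discrAt_bounds k n hn
  obtain ⟨c2, hc2, h2⟩ := any_degree k n
  refine ⟨min c1 c2, lt_min hc1 hc2, fun F _ _ _ p hp hp2 hF hD => ?_⟩
  have h3 := ((h1 F p 1 hp hn hF (DiscrAt.mono (min_le_left _ _) hp hD)).2 le_rfl).1
  have h4 : ¬ p ∣ Nat.card (ClassGroup (𝓞 F)) := by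
    intro hd
    rw [pow_one] at h3
    exact absurd (Nat.le_of_dvd Nat.card_pos hd) (not_le.2 h3)
  exact ⟨h4, fun k' _ _ _ _ _ hns => h2 F p hp hp2 hF (DiscrAt.mono (min_le_right _ _) hp hD) k'
    hns, fun hone => extensions hp hp2 h4 hone⟩

/-- abelian extensions -/
theorem small_abelian (k : Type) [Field k] [NumberField k] (n : ℕ) :
    ∃ c : ℝ, 0 < c ∧ ∀ (F : Type) [Field F] [NumberField F] [Algebra k F] [IsAbelianGalois k F]
      (p : ℕ), p.Prime → p ≠ 2 → finrank k F = n → ¬ p ∣ n →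
      ∀ (k' : Type) [Field k'] [NumberField k'] [Algebra k k'] [Algebra k' F]
        [IsScalarTower k k' F], NonSplit p k' F →
        (∀ F' : IntermediateField k F, IsCyclic Gal(F'/k) →
          ¬ (F' : Set F) ⊆ Set.range (algebraMap k' F) →
          DiscrAt c (orderOf (p : ZMod (finrank k F'))) p k F') → RelExtensions p k' F := by
  obtain ⟨c, hc, h⟩ := small_discr k n
  exact ⟨c, hc, fun F _ _ _ _ p hp hp2 hF hpn k' _ _ _ _ _ hns hD =>
    (h F p hp hp2 hF hpn).1 k' hns hD⟩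

/-- class numbers of a real quadratic field and small norms -/
theorem card_lt (K : Type) [Field K] [NumberField K] :
    ∃ c : ℝ, 0 < c ∧ ∀ p : ℕ, p.Prime → ∀ α : 𝓞 K, α ≠ 0 →
      |(Algebra.norm ℤ α : ℝ)| ≤ c * (1 + Real.log p) ^ 2 →
      ¬ p ∣ Nat.card (ClassGroup (𝓞 K)) := by
  set H : ℝ := (Nat.card (ClassGroup (𝓞 K)) : ℝ) with hH
  have hH1 : 1 ≤ H := by
    have : 0 < Nat.card (ClassGroup (𝓞 K)) := Nat.card_pos
    rw [hH]
    exact_mod_cast this
  have hlH : 0 ≤ Real.log H := Real.log_nonneg hH1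
  set B : ℝ := (1 + Real.log H) ^ 2 with hB
  have hB0 : 0 < B := by positivity
  refine ⟨1 / (2 * B), by positivity, fun p hp α hα hN hd => ?_⟩
  have hp1 : (1 : ℝ) < p := by exact_mod_cast hp.one_lt
  have hlp : 0 ≤ Real.log p := Real.log_nonneg hp1.le
  have hN1 : (1 : ℝ) ≤ |(Algebra.norm ℤ α : ℝ)| := by
    have h1 : Algebra.norm ℤ α ≠ 0 := Algebra.norm_ne_zero_iff.2 hα
    exact_mod_cast Int.one_le_abs h1
  have h3 : (p : ℝ) ≤ H := by
    rw [hH]
    exact_mod_cast Nat.le_of_dvd Nat.card_pos hd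
  have h4 : Real.log p ≤ Real.log H := Real.log_le_log (by linarith) h3
  have h5 : |(Algebra.norm ℤ α : ℝ)| ≤ 1 / (2 * B) * B := by
    refine hN.trans ?_
    have : (1 + Real.log p) ^ 2 ≤ B := pow_le_pow_left₀ (by linarith) (by linarith) 2
    exact mul_le_mul_of_nonneg_left this (by positivity)
  have h6 : 1 / (2 * B) * B = 1 / 2 := by field_simp
  linarith

/-- `K(√(p α))`, `K` real quadratic -/
theorem real_quad2 (K : Type) [Field K] [NumberField K] (hK : finrank ℚ K = 2)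
    (r : K →+* ℝ) :
    ∃ c : ℝ, 0 < c ∧ ∀ p : ℕ, p.Prime → p ≠ 2 → ∀ α : 𝓞 K, (∀ φ : K →+* ℝ, 0 < φ α) →
      |(Algebra.norm ℤ α : ℝ)| ≤ c * (1 + Real.log p) ^ 2 →
      ∀ (F : Type) [Field F] [NumberField F] [Algebra K F] (z : F), finrank K F = 2 →
        z ^ 2 = algebraMap K F (p * α) →
        NonSplit p K F ∧ ¬ p ∣ Nat.card (ClassGroup (𝓞 F)) ∧ RelExtensions p K F ∧
          ((Ideal.span {(p : 𝓞 K)}).IsPrime → Extensions p F) := by
  obtain ⟨c1, hc1, h1⟩ := real_quad_all K hK r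
  obtain ⟨c2, hc2, h2⟩ := card_lt K
  refine ⟨min c1 c2, lt_min hc1 hc2, fun p hp hp2 α hα hN F _ _ _ z hF hz => ?_⟩
  have hpf : Fact p.Prime := ⟨hp⟩
  have hα0 : α ≠ 0 := by
    rintro rfl
    have := hα r
    simp at this
  obtain ⟨h3, h4⟩ := h1 p hp hp2 α hα (hN.trans (mul_le_mul_of_nonneg_right (min_le_left _ _)
    (by positivity))) F z hF hz
  have h5 := h2 p hp α hα0 (hN.trans (mul_le_mul_of_nonneg_right (min_le_right _ _)
    (by positivity)))
  have h6 : ¬ p ∣ Nat.card (ClassGroup (𝓞 F)) := by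
    intro h
    have h7 : 1 ≤ padicValNat p (Nat.card (ClassGroup (𝓞 F))) :=
      one_le_padicValNat_of_dvd Nat.card_pos.ne' h
    rw [padic_of_rel h4, padicValNat.eq_zero_of_not_dvd h5] at h7
    omega
  exact ⟨h3, h6, h4, fun hin => extensions hp hp2 h6 (one_of_inert hp hin h3)⟩

end Pool.Agent.Work.MuZ
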