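import Pool.Agent.Work.MP_a4986b_nt.YAbs

set_option autoImplicit false
set_option maxHeartbeats 400000

/-! # A lower bound for a group with an action of periods, abstract form -/

namespace Pool.Agent.Work.MuZ

open Pool.Agent.Work.MuI Pool.Agent.Work.MuY

section Field

variable {p q : ℕ} [Fact p.Prime] [Fact q.Prime] {L : Type*} [Field L] [CharP L p]
  {H : Type*} [Group H] [Fintype H] (χ : H →* (ZMod q)ˣ)

/-- the period `∑ ψ (j χ(h))` -/
noncomputable def gabT (ψ : AddChar (ZMod q) L) (j : ZMod q) : L :=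
  ∑ h : H, ψ (j * ((χ h : (ZMod q)ˣ) : ZMod q))

theorem gabT_mul (ψ : AddChar (ZMod q) L) (i j : ZMod q) :
    gabT χ ψ i * gabT χ ψ j = ∑ u : H, gabT χ ψ (i + j * ((χ u : (ZMod q)ˣ) : ZMod q)) := by
  classical
  unfold gabT
  rw [Finset.sum_mul_sum]
  conv_rhs => rw [Finset.sum_comm]
  refine Finset.sum_congr rfl fun h _ => ?_
  rw [← Equiv.sum_comp (Equiv.mulRight h)]
  refine Finset.sum_congr rfl fun u _ => ?_
  rw [← AddChar.map_add_eq_mul]
  congr 1
  rw [Equiv.coe_mulRight, map_mul, Units.val_mul]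
  ring

theorem gabT_pow (ψ : AddChar (ZMod q) L) (j : ZMod q) (e : ℕ) :
    gabT χ ψ j ^ p ^ e = gabT χ ψ (((p ^ e : ℕ) : ZMod q) * j) := by
  unfold gabT
  rw [sum_pow_char_pow]
  refine Finset.sum_congr rfl fun h _ => ?_
  rw [← AddChar.map_nsmul_eq_pow, nsmul_eq_mul, mul_assoc]

theorem gabT_fourier (ψ : AddChar (ZMod q) L) (hψ : ψ.IsPrimitive) (c : ZMod q) :
    ∑ j : ZMod q, ψ (-j) * gabT χ ψ (j * c) =
      (q : L) * ((Finset.univ.filter fun h : H => c * ((χ h : (ZMod q)ˣ) : ZMod q) = 1).card : L) := by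
  classical
  have h1 : ∀ j : ZMod q, ψ (-j) * gabT χ ψ (j * c) =
      ∑ h : H, ψ (j * (c * ((χ h : (ZMod q)ˣ) : ZMod q) - 1)) := by
    intro j
    unfold gabT
    rw [Finset.mul_sum]
    refine Finset.sum_congr rfl fun h _ => ?_
    rw [← AddChar.map_add_eq_mul]
    congr 1
    ring
  rw [Finset.sum_congr rfl fun j _ => h1 j, Finset.sum_comm]
  have h2 : ∀ h : H, ∑ j : ZMod q, ψ (j * (c * ((χ h : (ZMod q)ˣ) : ZMod q) - 1)) =
      if c * ((χ h : (ZMod q)ˣ) : ZMod q) = 1 then (q : L) else 0 := by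
    intro h
    rw [AddChar.sum_mulShift _ hψ, ZMod.card]
    by_cases hc : c * ((χ h : (ZMod q)ˣ) : ZMod q) = 1
    · rw [if_pos hc, if_pos (by rw [hc, sub_self])]
    · rw [if_neg hc, if_neg (fun h0 => hc (sub_eq_zero.1 h0))]
      simp
  rw [Finset.sum_congr rfl fun h _ => h2 h, Finset.sum_ite, Finset.sum_const, Finset.sum_const_zero,
    add_zero, nsmul_eq_mul, mul_comm]

/-- the finite field generated by the periods -/
theorem gab_field (hpq : p ≠ q) (hH : ¬ p ∣ Fintype.card H) (ψ : AddChar (ZMod q) L)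
    (hψ : ψ.IsPrimitive) (K : AddSubgroup L) [Finite K]
    (hK : K = AddSubgroup.closure (Set.range (gabT χ ψ))) :
    p ^ orderOf ((p : ZMod q) ^ Fintype.card H) ≤ Nat.card K := by
  classical
  have hp : p.Prime := Fact.out
  have hq : q.Prime := Fact.out
  have htK : ∀ j, gabT χ ψ j ∈ K := fun j => by
    rw [hK]; exact AddSubgroup.subset_closure ⟨j, rfl⟩
  have hmul : ∀ a ∈ K, ∀ b ∈ K, a * b ∈ K := by
    intro a ha b hb
    have hone : ∀ i, ∀ b ∈ K, gabT χ ψ i * b ∈ K := by
      intro i b hb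
      rw [hK] at hb
      induction hb using AddSubgroup.closure_induction with
      | mem x hx =>
        obtain ⟨j, rfl⟩ := hx
        rw [gabT_mul]
        exact K.sum_mem fun u _ => htK _
      | zero => rw [mul_zero]; exact K.zero_mem
      | add x y _ _ hx hy => rw [mul_add]; exact K.add_mem hx hy
      | neg x _ hx => rw [mul_neg]; exact K.neg_mem hx
    rw [hK] at ha
    induction ha using AddSubgroup.closure_induction with
    | mem x hx =>
      obtain ⟨j, rfl⟩ := hx
      exact hone j b hb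
    | zero => rw [zero_mul]; exact K.zero_mem
    | add x y _ _ hx hy => rw [add_mul]; exact K.add_mem hx hy
    | neg x _ hx => rw [neg_mul]; exact K.neg_mem hx
  have h1K : (1 : L) ∈ K := by
    have h0 : gabT χ ψ 0 = (Fintype.card H : L) := by
      unfold gabT
      simp
    have hcop : IsCoprime (Fintype.card H : ℤ) (p : ℤ) :=
      Nat.isCoprime_iff_coprime.2 ((Nat.Prime.coprime_iff_not_dvd hp).2 hH).symm
    obtain ⟨a, b, hab⟩ := hcop
    have h2 : (1 : L) = a • gabT χ ψ 0 := by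
      rw [h0, zsmul_eq_mul]
      have := congrArg (Int.cast : ℤ → L) hab
      push_cast at this
      rw [CharP.cast_eq_zero L p, mul_zero, add_zero] at this
      exact this.symm
    rw [h2]
    exact K.zsmul_mem (htK 0) a
  let R : Subring L :=
    { carrier := K
      mul_mem' := fun {a b} ha hb => hmul a ha b hb
      one_mem' := h1K
      add_mem' := fun {a b} ha hb => K.add_mem ha hb
      zero_mem' := K.zero_mem
      neg_mem' := fun {a} ha => K.neg_mem ha }
  have hRfin : Finite R := ‹Finite K›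
  have hcard : Nat.card R = Nat.card K := rfl
  have : Fintype R := Fintype.ofFinite R
  let _ : Field R := (Finite.isField_of_domain R).toField
  have hchR : CharP R p := by
    refine (CharP.charP_iff_prime_eq_zero hp).2 ?_
    apply Subtype.ext
    simp
  obtain ⟨e, -, he⟩ := FiniteField.card R p
  have hfix : ∀ j, gabT χ ψ (((p ^ (e : ℕ) : ℕ) : ZMod q) * j) = gabT χ ψ j := by
    intro j
    rw [← gabT_pow (p := p)]
    have h2 := FiniteField.pow_card (⟨gabT χ ψ j, htK j⟩ : R)
    rw [he] at h2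
    have := congrArg Subtype.val h2
    exact this
  have hF1 := gabT_fourier χ ψ hψ 1
  have hF2 := gabT_fourier χ ψ hψ ((p ^ (e : ℕ) : ℕ) : ZMod q)
  have hF3 : ∑ j : ZMod q, ψ (-j) * gabT χ ψ (j * ((p ^ (e : ℕ) : ℕ) : ZMod q)) =
      ∑ j : ZMod q, ψ (-j) * gabT χ ψ (j * 1) := by
    refine Finset.sum_congr rfl fun j _ => ?_
    rw [mul_one, mul_comm j, hfix j]
  rw [hF3, hF1] at hF2
  have hqL : (q : L) ≠ 0 := by
    intro h0
    rw [CharP.cast_eq_zero_iff L p] at h0
    exact hpq ((Nat.prime_dvd_prime_iff_eq hp hq).1 h0)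
  have hker : ((Finset.univ.filter fun h : H => (1 : ZMod q) * ((χ h : (ZMod q)ˣ) : ZMod q) = 1).card : L)
      ≠ 0 := by
    intro h0
    rw [CharP.cast_eq_zero_iff L p] at h0
    apply hH
    refine h0.trans ?_
    have h3 : (Finset.univ.filter fun h : H => (1 : ZMod q) * ((χ h : (ZMod q)ˣ) : ZMod q) = 1).card
        = Nat.card χ.ker := by
      rw [Nat.card_eq_fintype_card, Fintype.card_subtype]
      congr 1
      ext h
      simp only [Finset.mem_filter, Finset.mem_univ, true_and, one_mul, MonoidHom.mem_ker]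
      exact Units.val_eq_one
    rw [h3, ← Nat.card_eq_fintype_card]
    exact Subgroup.card_subgroup_dvd_card _
  have hne : (Finset.univ.filter fun h : H =>
      ((p ^ (e : ℕ) : ℕ) : ZMod q) * ((χ h : (ZMod q)ˣ) : ZMod q) = 1).Nonempty := by
    rw [Finset.nonempty_iff_ne_empty]
    intro h0
    rw [h0, Finset.card_empty, Nat.cast_zero, mul_zero] at hF2
    exact mul_ne_zero hqL hker hF2
  obtain ⟨h, hh⟩ := hne
  rw [Finset.mem_filter] at hh
  have hh := hh.2
  have hord : ((p : ZMod q) ^ Fintype.card H) ^ (e : ℕ) = 1 := by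
    have h4 : (((p ^ (e : ℕ) : ℕ) : ZMod q) * ((χ h : (ZMod q)ˣ) : ZMod q)) ^ Fintype.card H = 1 := by
      rw [hh, one_pow]
    rw [mul_pow, ← Units.val_pow_eq_pow_val, ← map_pow, pow_card_eq_one, map_one, Units.val_one,
      mul_one, Nat.cast_pow] at h4
    rw [← pow_mul, mul_comm, pow_mul]
    exact h4
  have hle := Nat.le_of_dvd e.pos (orderOf_dvd_of_pow_eq_one hord)
  calc p ^ orderOf ((p : ZMod q) ^ Fintype.card H) ≤ p ^ (e : ℕ) :=
        Nat.pow_le_pow_right hp.pos hle
    _ = Nat.card K := by rw [← hcard, Nat.card_eq_fintype_card, he]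

end Field

section Endo

variable {V : Type*} [CommGroup V]

/-- an automorphism as an endomorphism of the additive group -/
def gabE (τ : V ≃* V) : AddMonoid.End (Additive V) := MonoidHom.toAdditive (τ : V →* V)

theorem gabE_pow (τ : V ≃* V) (k : ℕ) (y : V) :
    (gabE τ ^ k) (Additive.ofMul y) = Additive.ofMul ((τ ^ k) y) := by
  induction k with
  | zero => rfl
  | succ k ih =>
    rw [pow_succ', pow_succ']
    change gabE τ ((gabE τ ^ k) (Additive.ofMul y)) = Additive.ofMul (τ ((τ ^ k) y))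
    rw [ih]
    rfl

/-- evaluation of polynomials in `τ` at `y` -/
noncomputable def gabA (τ : V ≃* V) (y : V) : Polynomial ℤ →+ Additive V where
  toFun f := (Polynomial.aeval (gabE τ) f) (Additive.ofMul y)
  map_zero' := by rw [map_zero]; rfl
  map_add' f g := by rw [map_add]; rfl

theorem gabA_X (τ : V ≃* V) (k : ℕ) (y : V) :
    gabA τ y (Polynomial.X ^ k) = Additive.ofMul ((τ ^ k) y) := by
  change (Polynomial.aeval (gabE τ) (Polynomial.X ^ k : Polynomial ℤ)) (Additive.ofMul y) = _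
  rw [map_pow, Polynomial.aeval_X, gabE_pow]

theorem gabA_one (τ : V ≃* V) (y : V) : gabA τ y 1 = Additive.ofMul y := by
  change (Polynomial.aeval (gabE τ) (1 : Polynomial ℤ)) (Additive.ofMul y) = _
  rw [map_one]
  rfl

theorem gabA_sum (τ : V ≃* V) {κ : Type*} (s : Finset κ) (k : κ → ℕ) (y : V) :
    gabA τ y (∑ i ∈ s, Polynomial.X ^ k i) = Additive.ofMul (∏ i ∈ s, (τ ^ k i) y) := by
  rw [map_sum, ofMul_prod]
  exact Finset.sum_congr rfl fun i _ => gabA_X τ (k i) y

/-- the annihilator of `y` -/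
noncomputable def gabI (τ : V ≃* V) (y : V) : Ideal (Polynomial ℤ) where
  carrier := {f | gabA τ y f = 0}
  add_mem' := by
    intro f g hf hg
    change gabA τ y (f + g) = 0
    rw [map_add, hf, hg, add_zero]
  zero_mem' := map_zero _
  smul_mem' := by
    intro g f hf
    change (Polynomial.aeval (gabE τ) (g * f)) (Additive.ofMul y) = 0
    rw [map_mul]
    change (Polynomial.aeval (gabE τ) g) (gabA τ y f) = 0
    rw [hf, map_zero]

theorem mem_gabI (τ : V ≃* V) (y : V) (f : Polynomial ℤ) :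
    f ∈ gabI τ y ↔ gabA τ y f = 0 := Iff.rfl

end Endo

/-- if `Y` is nontrivial, killed by `p` and by the norm of `τ`, and stable under the sums of
`τ ^ (j χ(h))` over `h`, then `Y` has at least `p ^ f` elements, `f` the order of `p ^ m` modulo `q`,
`m` the order of `H` -/
theorem gap_abstract {p q : ℕ} (hp : p.Prime) (hq : q.Prime) (hpq : p ≠ q) {V : Type*}
    [CommGroup V] [Finite V] (τ : V ≃* V) (hτ : τ ^ q = 1) {H : Type*} [Group H] [Fintype H]
    (hH : ¬ p ∣ Fintype.card H) (χ : H →* (ZMod q)ˣ) (Y : Subgroup V)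
    (hY1 : ∀ y ∈ Y, y ^ p = 1) (hY2 : ∀ y ∈ Y, ambNu τ q y = 1)
    (hY3 : ∀ j : ℕ, ∀ y ∈ Y, ∏ h : H, (τ ^ (j * ((χ h : (ZMod q)ˣ) : ZMod q).val)) y ∈ Y)
    (hne : Y ≠ ⊥) : p ^ orderOf ((p : ZMod q) ^ Fintype.card H) ≤ Nat.card Y := by
  classical
  have : Fact p.Prime := ⟨hp⟩
  have : Fact q.Prime := ⟨hq⟩
  obtain ⟨y, hy, hy1⟩ : ∃ y ∈ Y, y ≠ 1 := by
    by_contra hcon
    push Not at hcon
    exact hne ((Subgroup.eq_bot_iff_forall Y).2 hcon)
  have hItop : gabI τ y ≠ ⊤ := by
    rw [Ne, Ideal.eq_top_iff_one, mem_gabI, gabA_one]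
    intro h0
    exact hy1 h0
  obtain ⟨m, hm, hIm⟩ := Ideal.exists_le_maximal _ hItop
  let L := Polynomial ℤ ⧸ m
  let _ : Field L := Ideal.Quotient.field m
  let φ : Polynomial ℤ →+* L := Ideal.Quotient.mk m
  have hφ : ∀ f ∈ gabI τ y, φ f = 0 := fun f hf => Ideal.Quotient.eq_zero_iff_mem.2 (hIm hf)
  have hpL : (p : L) = 0 := by
    have h1 : (p : Polynomial ℤ) ∈ gabI τ y := by
      rw [mem_gabI, ← nsmul_one (p : ℕ), map_nsmul, gabA_one, ← ofMul_pow, hY1 y hy, ofMul_one]
    have := hφ _ h1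
    rwa [map_natCast] at this
  have hch : CharP L p := (CharP.charP_iff_prime_eq_zero hp).2 hpL
  set z : L := φ Polynomial.X with hz
  have hzq : z ^ q = 1 := by
    have h1 : (Polynomial.X ^ q - 1 : Polynomial ℤ) ∈ gabI τ y := by
      rw [mem_gabI, map_sub, gabA_one, gabA_X, hτ, sub_eq_zero]
      rfl
    have := hφ _ h1
    rw [map_sub, map_pow, map_one, sub_eq_zero] at this
    exact this
  have hqL : (q : L) ≠ 0 := by
    intro h0
    rw [CharP.cast_eq_zero_iff L p] at h0
    exact hpq ((Nat.prime_dvd_prime_iff_eq hp hq).1 h0)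
  have hz1 : z ≠ 1 := by
    intro h1
    have h2 : (∑ i ∈ Finset.range q, Polynomial.X ^ i : Polynomial ℤ) ∈ gabI τ y := by
      rw [mem_gabI, gabA_sum, ← ambNu_apply, hY2 y hy, ofMul_one]
    have h3 := hφ _ h2
    rw [map_sum] at h3
    have h4 : ∀ i ∈ Finset.range q, φ (Polynomial.X ^ i) = 1 := by
      intro i _
      rw [map_pow, ← hz, h1, one_pow]
    rw [Finset.sum_congr rfl h4, Finset.sum_const, Finset.card_range, nsmul_eq_mul, mul_one] at h3
    exact hqL h3
  have hprim : IsPrimitiveRoot z q := by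
    rw [← orderOf_eq_prime hzq hz1]
    exact IsPrimitiveRoot.orderOf z
  set ψ : AddChar (ZMod q) L :=
    AddChar.zmodChar q ((IsPrimitiveRoot.iff_def z q).mp hprim).left with hψdef
  have hψ : ψ.IsPrimitive := AddChar.zmodChar_primitive_of_primitive_root q hprim
  -- the polynomials
  let P : ZMod q → Polynomial ℤ := fun j =>
    ∑ h : H, Polynomial.X ^ (j.val * ((χ h : (ZMod q)ˣ) : ZMod q).val)
  have hP : ∀ j, φ (P j) = gabT χ ψ j := by
    intro j
    change φ (∑ h : H, Polynomial.X ^ (j.val * ((χ h : (ZMod q)ˣ) : ZMod q).val)) =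
      ∑ h : H, ψ (j * ((χ h : (ZMod q)ˣ) : ZMod q))
    rw [map_sum]
    refine Finset.sum_congr rfl fun h _ => ?_
    rw [map_pow, ← hz, ← AddChar.zmodChar_apply' hzq]
    congr 1
    push_cast
    rw [ZMod.natCast_zmod_val, ZMod.natCast_zmod_val]
  let S : AddSubgroup (Polynomial ℤ) := AddSubgroup.closure (Set.range P)
  have hSY : ∀ f ∈ S, ∃ w ∈ Y, gabA τ y f = Additive.ofMul w := by
    intro f hf
    induction hf using AddSubgroup.closure_induction with
    | mem x hx =>
      obtain ⟨j, rfl⟩ := hx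
      exact ⟨_, hY3 j.val y hy, gabA_sum τ Finset.univ _ y⟩
    | zero => exact ⟨1, Y.one_mem, by rw [map_zero]; rfl⟩
    | add f g _ _ hf hg =>
      obtain ⟨a, ha, ha'⟩ := hf
      obtain ⟨b, hb, hb'⟩ := hg
      exact ⟨a * b, Y.mul_mem ha hb, by rw [map_add, ha', hb', ofMul_mul]⟩
    | neg f _ hf =>
      obtain ⟨a, ha, ha'⟩ := hf
      exact ⟨a⁻¹, Y.inv_mem ha, by rw [map_neg, ha', ofMul_inv]⟩
  set K : AddSubgroup L := AddSubgroup.closure (Set.range (gabT χ ψ)) with hK
  have hKS : ∀ k ∈ K, ∃ f ∈ S, φ f = k := by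
    intro k hk
    have h1 : K = S.map (φ : Polynomial ℤ →+ L) := by
      rw [hK, AddMonoidHom.map_closure]
      congr 1
      ext x
      constructor
      · rintro ⟨j, rfl⟩
        exact ⟨P j, ⟨j, rfl⟩, hP j⟩
      · rintro ⟨_, ⟨j, rfl⟩, rfl⟩
        exact ⟨j, (hP j).symm⟩
    rw [h1] at hk
    obtain ⟨f, hf, hfk⟩ := hk
    exact ⟨f, hf, hfk⟩
  choose F hFS hFφ using fun k : K => hKS k k.2
  choose w hwY hw using fun k : K => hSY (F k) (hFS k)
  have hinj : Function.Injective (fun k : K => (⟨w k, hwY k⟩ : Y)) := by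
    intro k k' hkk
    have h1 : w k = w k' := congrArg Subtype.val hkk
    apply Subtype.ext
    rw [← hFφ k, ← hFφ k', ← sub_eq_zero, ← map_sub]
    apply hφ
    rw [mem_gabI, map_sub, hw, hw, h1, sub_self]
  have hKfin : Finite K := Finite.of_injective _ hinj
  have h1 := gab_field (p := p) χ hpq hH ψ hψ K hK
  exact h1.trans (Nat.card_le_card_of_injective _ hinj)

end Pool.Agent.Work.MuZ
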