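import Mathlib

set_option autoImplicit false
set_option maxHeartbeats 400000

/-! # Solvable extensions of prime degree -/

namespace Pool.Agent.Work.MuZ

open Module
open scoped commutatorElement

/-- a finite solvable group with a core-free subgroup of prime index -/
theorem solvable_prime_index {G : Type*} [Group G] [Finite G] (hs : Group.IsSolvable G)
    (H : Subgroup G) {q : ℕ} (hq : q.Prime) (hi : H.index = q) (hcore : H.normalCore = ⊥) :
    ∃ A : Subgroup G, A.Normal ∧ Nat.card A = q ∧ Nat.card H ∣ q - 1 := by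
  classical
  -- the last nontrivial term of the derived series
  have hnt : derivedSeries G 0 ≠ ⊥ := by
    intro h
    have h1 : H = ⊤ := by
      rw [eq_top_iff]
      intro x _
      have h2 : x ∈ derivedSeries G 0 := by rw [derivedSeries_zero]; trivial
      rw [h, Subgroup.mem_bot] at h2
      rw [h2]
      exact H.one_mem
    rw [h1, Subgroup.index_top] at hi
    exact hq.one_lt.ne hi
  obtain ⟨n, hn⟩ := hs.solvable
  obtain ⟨m, hm1, hm2⟩ : ∃ m, derivedSeries G m ≠ ⊥ ∧ derivedSeries G (m + 1) = ⊥ := by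
    have hex : ∃ n, derivedSeries G n = ⊥ := ⟨n, hn⟩
    have hpos : Nat.find hex ≠ 0 := fun h => hnt (h ▸ Nat.find_spec hex)
    obtain ⟨m, hm⟩ := Nat.exists_eq_succ_of_ne_zero hpos
    refine ⟨m, Nat.find_min hex (by omega), ?_⟩
    have := Nat.find_spec hex
    rw [hm] at this
    exact this
  set A : Subgroup G := derivedSeries G m with hA
  have hAn : A.Normal := derivedSeries_normal G m
  have hAc : ∀ a ∈ A, ∀ b ∈ A, a * b = b * a := by
    intro a ha b hb
    have h1 : ⁅a, b⁆ ∈ derivedSeries G (m + 1) := by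
      rw [derivedSeries_succ]
      exact Subgroup.commutator_mem_commutator ha hb
    rw [hm2, Subgroup.mem_bot] at h1
    exact commutatorElement_eq_one_iff_mul_comm.1 h1
  -- `A H = G`
  have hAH : ¬ A ≤ H := by
    intro h
    exact hm1 (le_bot_iff.1 (hcore ▸ Subgroup.normal_le_normalCore.2 h))
  have hsup : A ⊔ H = ⊤ := by
    have h1 : (A ⊔ H).index ∣ q := by
      rw [← hi]
      exact Subgroup.index_dvd_of_le le_sup_right
    rcases (Nat.dvd_prime hq).1 h1 with h2 | h2
    · exact Subgroup.index_eq_one.1 h2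
    · exfalso
      apply hAH
      have h3 : H.relIndex (A ⊔ H) * (A ⊔ H).index = H.index :=
        Subgroup.relIndex_mul_index le_sup_right
      rw [h2, hi] at h3
      have h4 : H.relIndex (A ⊔ H) = 1 := by
        have := hq.pos
        nlinarith [Nat.eq_of_mul_eq_mul_right hq.pos (h3.trans (one_mul q).symm)]
      exact le_trans le_sup_left (Subgroup.relIndex_eq_one.1 h4)
  have hdec : ∀ g : G, ∃ a ∈ A, ∃ h ∈ H, g = a * h := by
    intro g
    have h1 : g ∈ ((A ⊔ H : Subgroup G) : Set G) := by rw [hsup]; trivial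
    rw [Subgroup.normal_mul] at h1
    obtain ⟨a, ha, h, hh, rfl⟩ := Set.mem_mul.1 h1
    exact ⟨a, ha, h, hh, rfl⟩
  -- normal subgroups inside `H` are trivial
  have hbot : ∀ K : Subgroup G, K ≤ H → (∀ g ∈ H, ∀ x ∈ K, g * x * g⁻¹ ∈ K) →
      (∀ a ∈ A, ∀ x ∈ K, a * x * a⁻¹ = x) → K = ⊥ := by
    intro K hKH h1 h2
    have : K.Normal := ⟨fun x hx g => by
      obtain ⟨a, ha, h, hh, rfl⟩ := hdec g
      have h3 : a * h * x * (a * h)⁻¹ = a * (h * x * h⁻¹) * a⁻¹ := by group
      rw [h3, h2 a ha _ (h1 h hh x hx)]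
      exact h1 h hh x hx⟩
    exact le_bot_iff.1 (hcore ▸ Subgroup.normal_le_normalCore.2 hKH)
  have hinf : A ⊓ H = ⊥ := by
    refine hbot _ inf_le_right ?_ ?_
    · rintro g hg x ⟨hx1, hx2⟩
      exact ⟨hAn.conj_mem x hx1 g, H.mul_mem (H.mul_mem hg hx2) (H.inv_mem hg)⟩
    · rintro a ha x ⟨hx1, -⟩
      rw [hAc a ha x hx1, mul_inv_cancel_right]
  have hcard : Nat.card A = q := by
    have h1 : Subgroup.IsComplement' A H := by
      refine Subgroup.isComplement'_of_disjoint_and_mul_eq_univ (disjoint_iff.2 hinf) ?_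
      rw [← Subgroup.normal_mul, hsup]
      rfl
    rw [← h1.index_eq_card, hi]
  refine ⟨A, hAn, hcard, ?_⟩
  have hcent : Subgroup.centralizer (A : Set G) ⊓ H = ⊥ := by
    have : (Subgroup.centralizer (A : Set G)).Normal := inferInstance
    refine hbot _ inf_le_right ?_ ?_
    · rintro g hg x ⟨hx1, hx2⟩
      exact ⟨this.conj_mem x hx1 g, H.mul_mem (H.mul_mem hg hx2) (H.inv_mem hg)⟩
    · rintro a ha x ⟨hx1, -⟩
      rw [Subgroup.mem_centralizer_iff.1 hx1 a ha, mul_inv_cancel_right]
  -- the action of `H` on `A`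
  let φ : H →* MulAut A := (MulAut.conjNormal (H := A)).comp H.subtype
  have hφ : Function.Injective φ := by
    rw [injective_iff_map_eq_one]
    rintro ⟨h, hh⟩ h1
    have h2 : h ∈ Subgroup.centralizer (A : Set G) ⊓ H := by
      refine ⟨Subgroup.mem_centralizer_iff.2 fun a ha => ?_, hh⟩
      have h3 : ((φ ⟨h, hh⟩ ⟨a, ha⟩ : A) : G) = a := by rw [h1]; rfl
      have h4 : ((φ ⟨h, hh⟩ ⟨a, ha⟩ : A) : G) = h * a * h⁻¹ := MulAut.conjNormal_apply h ⟨a, ha⟩
      rw [h4] at h3
      rw [← mul_inv_eq_iff_eq_mul.1 (by rw [h3] : h * a * h⁻¹ = a)]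
    rw [hcent, Subgroup.mem_bot] at h2
    exact Subtype.ext h2
  have hcyc : IsCyclic A := by
    have : Fact q.Prime := ⟨hq⟩
    exact isCyclic_of_prime_card (p := q) hcard
  have h1 := Subgroup.card_dvd_of_injective φ hφ
  rw [IsCyclic.card_mulAut A, hcard, Nat.totient_prime hq] at h1
  exact h1

/-- the Galois group of the normal closure of a solvable extension of prime degree `q` has a
normal subgroup of order `q`, and its index divides `q - 1` -/
theorem solvable_prime {k F N : Type*} [Field k] [Field F] [Field N] [Algebra k F] [Algebra F N]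
    [Algebra k N] [IsScalarTower k F N] [FiniteDimensional k N] [IsGalois k N]
    [IsNormalClosure k F N] {q : ℕ} (hq : q.Prime) (hF : finrank k F = q)
    (hs : Group.IsSolvable Gal(N/k)) :
    ∃ A : Subgroup Gal(N/k), A.Normal ∧ Nat.card A = q ∧ finrank F N ∣ q - 1 := by
  classical
  set ι : F →ₐ[k] N := IsScalarTower.toAlgHom k F N with hι
  set E : IntermediateField k N := ι.fieldRange with hE
  set H : Subgroup Gal(N/k) := E.fixingSubgroup with hH
  have hEF : finrank k E = q := by
    rw [← hF]
    exact (AlgEquiv.ofInjectiveField ι).toLinearEquiv.finrank_eq.symm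
  have hi : H.index = q := by
    rw [← hEF]
    exact (IntermediateField.finrank_eq_fixingSubgroup_index N E).symm
  have hcardH : Nat.card H = finrank F N := by
    have h1 : Nat.card H = finrank E N := IsGalois.card_fixingSubgroup_eq_finrank E
    have h2 := finrank_mul_finrank k E N
    have h3 := finrank_mul_finrank k F N
    rw [h1]
    rw [hEF] at h2
    rw [hF] at h3
    exact Nat.eq_of_mul_eq_mul_left hq.pos (h2.trans h3.symm)
  have hcore : H.normalCore = ⊥ := by
    have h1 : IntermediateField.fixedField H.normalCore = ⊤ := by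
      rw [eq_top_iff, ← IsNormalClosure.adjoin_rootSet (F := k) (K := F) (L := N)]
      refine iSup_le fun x => ?_
      rw [IntermediateField.adjoin_le_iff]
      intro y hy
      rw [SetLike.mem_coe, IntermediateField.mem_fixedField_iff]
      intro c hc
      have hx : IsIntegral k (ι x) := Algebra.IsIntegral.isIntegral _
      have hmin : minpoly k (ι x) = minpoly k x := minpoly.algHom_eq ι ι.injective x
      have hconj : IsConjRoot k (ι x) y := by
        rw [isConjRoot_iff_mem_minpoly_rootSet hx, hmin]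
        exact hy
      obtain ⟨σ, hσ⟩ := isConjRoot_iff_exists_algEquiv.1 hconj
      -- `σ y = ι x`
      have h2 : σ * c * σ⁻¹ ∈ H.normalCore := (H.normalCore_normal).conj_mem c hc σ
      have h3 : σ * c * σ⁻¹ ∈ H := H.normalCore_le h2
      have h4 : (σ * c * σ⁻¹) (ι x) = ι x :=
        (IntermediateField.mem_fixingSubgroup_iff _ _).1 h3 (ι x) ⟨x, rfl⟩
      rw [← hσ] at h4
      have h5 : (σ * c * σ⁻¹) (σ y) = σ (c y) := by
        show σ (c (σ⁻¹ (σ y))) = σ (c y)
        congr 2
        exact σ.symm_apply_apply y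
      rw [h5] at h4
      exact σ.injective h4
    have h6 := IntermediateField.fixingSubgroup_fixedField H.normalCore
    rw [h1, IntermediateField.fixingSubgroup_top] at h6
    exact h6.symm
  obtain ⟨A, hA1, hA2, hA3⟩ := solvable_prime_index hs H hq hi hcore
  exact ⟨A, hA1, hA2, hcardH ▸ hA3⟩

end Pool.Agent.Work.MuZ
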