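import Pool.Agent.Work.MP_a4986b_nt.ZGab
import Pool.Agent.Work.MP_a4986b_nt.YLay

set_option autoImplicit false
set_option maxHeartbeats 400000
set_option linter.unusedSectionVars false

/-! # The gap for extensions of prime degree -/

namespace Pool.Agent.Work.MuZ

open NumberField Module
open Pool.Agent.Work.MuI Pool.Agent.Work.MuY

/-- the action on a normal cyclic group of prime order -/
theorem exists_chi {G H : Type*} [Group G] [Group H] {q : ℕ} (hq : q.Prime) (a : G)
    (ha : orderOf a = q) (hn : ∀ g : G, ∃ n : ℕ, g * a * g⁻¹ = a ^ n) (f : H →* G) :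
    ∃ χ : H →* (ZMod q)ˣ, ∀ h : H, f h * a * (f h)⁻¹ = a ^ ((χ h : (ZMod q)ˣ) : ZMod q).val := by
  have hqf : Fact q.Prime := ⟨hq⟩
  choose c hc using fun h : H => hn (f h)
  have hconj : ∀ (g : G) (n : ℕ), g * a ^ n * g⁻¹ = (g * a * g⁻¹) ^ n := fun g n => by
    rw [conj_pow]
  let χ0 : H →* ZMod q :=
    { toFun := fun h => (c h : ZMod q)
      map_one' := by
        have h1 : a ^ c 1 = a ^ 1 := by rw [← hc, map_one, pow_one]; group
        rw [pow_eq_pow_iff_modEq, ha] at h1
        have h2 := (ZMod.natCast_eq_natCast_iff _ _ _).2 h1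
        rw [h2, Nat.cast_one]
      map_mul' := by
        intro g h
        have h1 : a ^ c (g * h) = a ^ (c g * c h) := by
          rw [← hc, pow_mul, ← hc g, ← hconj, ← hc h, map_mul]
          group
        rw [pow_eq_pow_iff_modEq, ha] at h1
        have h2 := (ZMod.natCast_eq_natCast_iff _ _ _).2 h1
        rw [h2, Nat.cast_mul] }
  refine ⟨χ0.toHomUnits, fun h => ?_⟩
  have h1 : ((χ0.toHomUnits h : (ZMod q)ˣ) : ZMod q) = (c h : ZMod q) := rfl
  rw [h1, ZMod.val_natCast, ← ha, pow_mod_orderOf, hc]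

theorem card_ext_mul {A B : Type*} [CommGroup A] [CommGroup B] [Finite A] [Finite B] {p r : ℕ}
    (hp : p.Prime) (hr : ¬ p ∣ r) (φ : A →* B) (j : B →* A) (h : ∀ b, φ (j b) = b ^ r) :
    padicValNat p (Nat.card A) = padicValNat p (Nat.card B) +
      padicValNat p (Nat.card φ.ker) := by
  have hpf : Fact p.Prime := ⟨hp⟩
  have hcok : ¬ p ∣ Nat.card (B ⧸ φ.range) := by
    intro hdvd
    obtain ⟨x, hx⟩ := exists_prime_orderOf_dvd_card' p hdvd
    obtain ⟨b, rfl⟩ := QuotientGroup.mk_surjective x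
    apply hr
    rw [← hx]
    apply orderOf_dvd_of_pow_eq_one
    rw [← QuotientGroup.mk_pow, ← h]
    exact (QuotientGroup.eq_one_iff _).2 ⟨j b, rfl⟩
  have h1 := congrArg (padicValNat p) (card_ker_coker φ)
  rw [padicValNat.mul Nat.card_pos.ne' Nat.card_pos.ne',
    padicValNat.mul Nat.card_pos.ne' Nat.card_pos.ne', padicValNat.eq_zero_of_not_dvd hcok,
    add_zero] at h1
  exact h1

theorem eq_one_of_coprime_pow {A : Type*} [Group A] {p m : ℕ} (hp : p.Prime) (hm : ¬ p ∣ m) {x : A}
    (h1 : x ^ p = 1) (h2 : x ^ m = 1) : x = 1 := by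
  have h3 := Nat.dvd_gcd (orderOf_dvd_of_pow_eq_one h1) (orderOf_dvd_of_pow_eq_one h2)
  rw [((Nat.Prime.coprime_iff_not_dvd hp).2 hm).gcd_eq_one, Nat.dvd_one, orderOf_eq_one_iff] at h3
  exact h3

theorem prod_const_of {ι V : Type*} (_ : Fintype ι) [CommMonoid V] (f : ι → V) (w : V)
    (h : ∀ i, f i = w) : ∏ i, f i = w ^ Nat.card ι := by
  rw [Finset.prod_congr rfl fun i _ => h i, Finset.prod_const, Finset.card_univ,
    Nat.card_eq_fintype_card]

/-- the gap: the relative class group has a trivial `p`-part or at least `p ^ f` elements, `f` the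
order of `p ^ m` modulo `q` -/
theorem gap_field {p q : ℕ} (hp : p.Prime) (hq : q.Prime) (hpq : p ≠ q) {k F N : Type*}
    [Field k] [NumberField k] [Field F] [NumberField F] [Field N] [NumberField N] [Algebra k F]
    [Algebra F N] [Algebra k N] [IsScalarTower k F N] [IsGalois k N] (hF : finrank k F = q)
    (A : Subgroup Gal(N/k)) (hAn : A.Normal) (hA : Nat.card A = q) (hqm : ¬ q ∣ finrank F N)
    (hpN : ¬ p ∣ finrank k N)
    (h : padicValNat p (Nat.card (ClassGroup (𝓞 F))) <
      padicValNat p (Nat.card (ClassGroup (𝓞 k))) +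
        orderOf ((p : ZMod q) ^ finrank F N)) :
    padicValNat p (Nat.card (ClassGroup (𝓞 F))) = padicValNat p (Nat.card (ClassGroup (𝓞 k))) := by
  classical
  have hpf : Fact p.Prime := ⟨hp⟩
  have hqf : Fact q.Prime := ⟨hq⟩
  have hFN : IsGalois F N := IsGalois.tower_top_of_isGalois k F N
  set m := finrank F N with hm
  have hkN : finrank k N = q * m := by rw [← finrank_mul_finrank k F N, hF]
  have hpm : ¬ p ∣ m := fun h' => hpN (by rw [hkN]; exact Dvd.dvd.mul_left h' q)
  obtain ⟨a', ha'⟩ : ∃ a : A, orderOf a = q := exists_prime_orderOf_dvd_card' q (by rw [hA])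
  set a : Gal(N/k) := (a' : Gal(N/k)) with hadef
  have ha : orderOf a = q := by rw [hadef, Subgroup.orderOf_coe, ha']
  have haA : Subgroup.zpowers a = A := by
    apply Subgroup.eq_of_le_of_card_ge
    · rw [Subgroup.zpowers_le]; exact a'.2
    · rw [hA, Nat.card_zpowers, ha]
  have hconj : ∀ g : Gal(N/k), ∃ n : ℕ, g * a * g⁻¹ = a ^ n := by
    intro g
    have h1 : g * a * g⁻¹ ∈ Subgroup.zpowers a := by
      rw [haA]; exact hAn.conj_mem a a'.2 g
    rw [← mem_powers_iff_mem_zpowers] at h1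
    obtain ⟨n, hn⟩ := h1
    exact ⟨n, hn.symm⟩
  let res : Gal(N/F) →* Gal(N/k) := AlgEquiv.restrictScalarsHom k
  have hres : ∀ h : Gal(N/F), clAct (res h) = clAct h := fun h => clAct_restrict h
  have hresinj : Function.Injective res := AlgEquiv.restrictScalars_injective k
  obtain ⟨χ, hχ⟩ := exists_chi hq a ha hconj res
  obtain ⟨N1, e1, e2, e3⟩ := exists_clNorm k N
  obtain ⟨N2, f1, f2, f3⟩ := exists_clNorm F N
  let E : ClassGroup (𝓞 F) →* ClassGroup (𝓞 N) := ClassGroup.extendedHom (𝓞 F) (𝓞 N)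
  let φ : ClassGroup (𝓞 F) →* ClassGroup (𝓞 k) := N1.comp E
  let j : ClassGroup (𝓞 k) →* ClassGroup (𝓞 F) := ClassGroup.extendedHom (𝓞 k) (𝓞 F)
  have hφj : ∀ c, φ (j c) = c ^ finrank k N := by
    intro c
    change N1 (ClassGroup.extendedHom (𝓞 F) (𝓞 N) (ClassGroup.extendedHom (𝓞 k) (𝓞 F) c)) = _
    rw [ClassGroup.extendedHom_comp_apply, e1]
  have hcard := card_ext_mul hp hpN φ j hφj
  by_cases hX : p ∣ Nat.card φ.ker
  swap
  · rw [hcard, padicValNat.eq_zero_of_not_dvd hX, add_zero]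
  exfalso
  let X : Subgroup (ClassGroup (𝓞 F)) := φ.ker ⊓ (powMonoidHom p : ClassGroup (𝓞 F) →* _).ker
  have hXmem : ∀ x, x ∈ X ↔ φ x = 1 ∧ x ^ p = 1 := fun x => Iff.rfl
  -- invariance
  have hfix : ∀ (h : Gal(N/F)) (x : ClassGroup (𝓞 F)), clAct h (E x) = E x := by
    intro h x
    have h1 := ext_clAct (k := F) (K := F) (L := N) h 1 (fun y => (h.commutes y).symm) x
    rw [clAct_one] at h1
    exact h1.symm
  have hcardG : Nat.card Gal(N/k) = q * m := by rw [IsGalois.card_aut_eq_finrank, hkN]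
  have hcardH : Fintype.card Gal(N/F) = m := by
    rw [← Nat.card_eq_fintype_card, IsGalois.card_aut_eq_finrank]
  have hcompl : Subgroup.IsComplement' A res.range := by
    have hc1 : Nat.card res.range = m := by
      rw [← Nat.card_congr (MonoidHom.ofInjective hresinj).toEquiv,
        IsGalois.card_aut_eq_finrank]
    apply Subgroup.isComplement'_of_coprime
    · rw [hA, hc1, hcardG]
    · rw [hA, hc1]; exact (Nat.Prime.coprime_iff_not_dvd hq).2 hqm
  have hprodA : ∀ y : ClassGroup (𝓞 N), ∏ b : A, clAct (b : Gal(N/k)) y =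
      ambNu (clAct a) q y := by
    intro y
    have hbij : Function.Bijective (fun i : Fin q => (a' ^ (i : ℕ) : A)) := by
      rw [Fintype.bijective_iff_injective_and_card]
      refine ⟨?_, ?_⟩
      · intro i i' hij
        apply Fin.ext
        refine pow_injOn_Iio_orderOf ?_ ?_ hij
        · rw [ha']; exact i.2
        · rw [ha']; exact i'.2
      · rw [Fintype.card_fin, ← Nat.card_eq_fintype_card, hA]
    rw [← Function.Bijective.prod_comp hbij (fun b : A => clAct (b : Gal(N/k)) y), ambNu_apply,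
      Finset.prod_range]
    refine Finset.prod_congr rfl fun i _ => ?_
    rw [Subgroup.coe_pow, clAct_pow]
  have hnu : ∀ x, ∏ g : Gal(N/k), clAct g (E x) = ambNu (clAct a) q (E x) ^ m := by
    intro x
    rw [← Function.Bijective.prod_comp hcompl (fun g => clAct g (E x)), Fintype.prod_prod_type,
      ← hprodA, ← Finset.prod_pow]
    refine Finset.prod_congr rfl fun b _ => ?_
    have h1 : ∀ r : res.range, clAct ((b : Gal(N/k)) * (r : Gal(N/k))) (E x) =
        clAct (b : Gal(N/k)) (E x) := by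
      rintro ⟨_, h, rfl⟩
      rw [clAct_mul, hres, hfix]
    refine Eq.trans (prod_const_of _ _ _ h1) ?_
    congr 1
    change Nat.card res.range = m
    rw [← Nat.card_congr (MonoidHom.ofInjective hresinj).toEquiv, IsGalois.card_aut_eq_finrank]
  have hnu1 : ∀ x ∈ X, ambNu (clAct a) q (E x) = 1 := by
    intro x hx
    obtain ⟨hx1, hx2⟩ := (hXmem x).1 hx
    refine eq_one_of_coprime_pow hp hpm ?_ ?_
    · rw [← map_pow, ← map_pow, hx2, map_one, map_one]
    · rw [← hnu, ← e3 inferInstance]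
      change ClassGroup.extendedHom (𝓞 k) (𝓞 N) (φ x) = 1
      rw [hx1, map_one]
  have hEinj : ∀ x, x ^ p = 1 → E x = 1 → x = 1 := by
    intro x hx1 hx2
    refine eq_one_of_coprime_pow hp hpm hx1 ?_
    rw [hm, ← f1]
    change N2 (E x) = 1
    rw [hx2, map_one]
  have hXne : ∃ x ∈ X, x ≠ 1 := by
    obtain ⟨x, hx⟩ := exists_prime_orderOf_dvd_card' p hX
    refine ⟨x, (hXmem _).2 ⟨x.2, ?_⟩, ?_⟩
    · have h1 : x ^ p = 1 := by rw [← hx]; exact pow_orderOf_eq_one x
      exact congrArg Subtype.val h1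
    · intro h1
      have h2 : x = 1 := Subtype.ext h1
      rw [h2, orderOf_one] at hx
      exact hp.one_lt.ne hx
  have hτ : clAct a ^ q = 1 := by rw [← clAct_pow, ← ha, pow_orderOf_eq_one, clAct_one]
  have key := gap_abstract hp hq hpq (clAct a) hτ (H := Gal(N/F)) (by rw [hcardH]; exact hpm) χ
    (X.map E)
    (by
      rintro _ ⟨x, hx, rfl⟩
      rw [← map_pow, ((hXmem x).1 hx).2, map_one])
    (by
      rintro _ ⟨x, hx, rfl⟩
      exact hnu1 x hx)
    (by
      rintro i _ ⟨x, hx, rfl⟩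
      obtain ⟨hx1, hx2⟩ := (hXmem x).1 hx
      have h1 : ∀ h : Gal(N/F), (clAct a ^ (i * ((χ h : (ZMod q)ˣ) : ZMod q).val)) (E x) =
          clAct h (clAct (a ^ i) (E x)) := by
        intro h
        have h2 : a ^ (i * ((χ h : (ZMod q)ˣ) : ZMod q).val) = res h * a ^ i * (res h)⁻¹ := by
          rw [mul_comm, pow_mul, ← hχ, conj_pow]
        rw [← clAct_pow, h2, clAct_mul, clAct_mul, ← hres h]
        have h3 : clAct (res h)⁻¹ (E x) = E x := by
          rw [← map_inv, hres, hfix]
        rw [h3]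
      rw [Finset.prod_congr rfl fun h _ => h1 h, ← f3 inferInstance]
      refine ⟨N2 (clAct (a ^ i) (E x)), (hXmem _).2 ⟨?_, ?_⟩, rfl⟩
      · change N1 (ClassGroup.extendedHom (𝓞 F) (𝓞 N) (N2 (clAct (a ^ i) (E x)))) = 1
        rw [f3 inferInstance, map_prod]
        refine Finset.prod_eq_one fun h _ => ?_
        rw [← hres h, e2, e2]
        exact hx1
      · rw [← map_pow, ← map_pow, ← map_pow, hx2, map_one, map_one, map_one])
    (by
      obtain ⟨x, hx, hx1⟩ := hXne
      intro hbot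
      apply hx1
      apply hEinj x ((hXmem x).1 hx).2
      have : E x ∈ X.map E := ⟨x, hx, rfl⟩
      rw [hbot] at this
      exact Subgroup.mem_bot.1 this)
  rw [hcardH] at key
  have hle1 : Nat.card (X.map E) ≤ Nat.card X := by
    have h1 : Function.Surjective (fun x : X => (⟨E x, ⟨x, x.2, rfl⟩⟩ : X.map E)) := by
      rintro ⟨_, x, hx, rfl⟩
      exact ⟨⟨x, hx⟩, rfl⟩
    exact Nat.card_le_card_of_surjective _ h1
  have hpg : IsPGroup p X := by
    intro x
    exact ⟨1, Subtype.ext (by rw [pow_one]; exact ((hXmem x).1 x.2).2)⟩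
  obtain ⟨s, hs⟩ := IsPGroup.iff_card.1 hpg
  have h1 : orderOf ((p : ZMod q) ^ m) ≤ s := by
    rw [← Nat.pow_le_pow_iff_right hp.one_lt, ← hs]
    exact key.trans hle1
  have h2 : s ≤ padicValNat p (Nat.card φ.ker) := by
    rw [← padicValNat_dvd_iff_le Nat.card_pos.ne', ← hs]
    exact Subgroup.card_dvd_of_le inf_le_left
  omega

end Pool.Agent.Work.MuZ
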