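import Pool.Agent.Work.MP_a4986b_nt.ZNormB

set_option autoImplicit false
set_option maxHeartbeats 400000
set_option linter.unusedSectionVars false

/-! # The norm condition and class numbers -/

namespace Pool.Agent.Work.MuZ

open NumberField Module IsDedekindDomain
open scoped Pointwise nonZeroDivisors
open Pool.Agent.Work.MuI Pool.Agent.Work.MuI.Step Pool.Agent.Work.MuY

namespace CrZ

/-- a homomorphism trivial on the kernel of a surjection descends -/
theorem exists_lift {A B Q : Type*} [Group A] [Group B] [Group Q] (q : A →* Q)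
    (hq : Function.Surjective q) (f : A →* B) (h : ∀ x, q x = 1 → f x = 1) :
    ∃ g : Q →* B, ∀ x, g (q x) = f x :=
  ⟨(q.liftOfSurjective hq) ⟨f, h⟩,
    fun x => MonoidHom.liftOfRightInverse_comp_apply q _ _ ⟨f, h⟩ x⟩

/-- the condition on elements of order `p`, for finite commutative groups -/
theorem triv_iff {p : ℕ} (hp : p.Prime) {A B : Type*} [CommGroup A] [Finite A]
    [CommGroup B] [Finite B] (N : A →* B) (j : B →* A) (d : ℕ) (hd : ¬ p ∣ d)
    (hj : ∀ b, N (j b) = b ^ d) :
    (∀ a : A, a ^ p = 1 → j (N a) = 1 → a = 1) ↔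
      padicValNat p (Nat.card A) = padicValNat p (Nat.card B) := by
  have hpf : Fact p.Prime := ⟨hp⟩
  have h1 : ¬ p ∣ Nat.card (B ⧸ N.range) := by
    intro h
    obtain ⟨x, hx⟩ := exists_prime_orderOf_dvd_card' (G := B ⧸ N.range) p h
    obtain ⟨b, rfl⟩ := QuotientGroup.mk_surjective x
    apply hd
    rw [← hx]
    apply orderOf_dvd_of_pow_eq_one
    rw [← QuotientGroup.mk_pow, ← hj]
    exact (QuotientGroup.eq_one_iff _).2 ⟨j b, rfl⟩
  have h2 : padicValNat p (Nat.card N.range) = padicValNat p (Nat.card B) := by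
    rw [Subgroup.card_eq_card_quotient_mul_card_subgroup N.range,
      padicValNat.mul Nat.card_pos.ne' Nat.card_pos.ne', padicValNat.eq_zero_of_not_dvd h1,
      zero_add]
  have h5 : padicValNat p (Nat.card A) =
      padicValNat p (Nat.card B) + padicValNat p (Nat.card N.ker) := by
    have h4 : Nat.card A = Nat.card N.range * Nat.card N.ker := by
      rw [Subgroup.card_eq_card_quotient_mul_card_subgroup N.ker,
        Nat.card_congr (QuotientGroup.quotientKerEquivRange N).toEquiv]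
    rw [h4, padicValNat.mul Nat.card_pos.ne' Nat.card_pos.ne', h2]
  constructor
  · intro h
    have h3 : ¬ p ∣ Nat.card N.ker := by
      intro h6
      obtain ⟨x, hx⟩ := exists_prime_orderOf_dvd_card' (G := N.ker) p h6
      have h7 : (x : A) ^ p = 1 := by
        have h8 : x ^ p = 1 := by rw [← hx]; exact pow_orderOf_eq_one x
        exact congrArg Subtype.val h8
      have h8 : N (x : A) = 1 := x.2
      have h9 : (x : A) = 1 := h _ h7 (by rw [h8, map_one])
      have h10 : x = 1 := Subtype.ext h9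
      rw [h10, orderOf_one] at hx
      exact hp.one_lt.ne hx
    rw [h5, padicValNat.eq_zero_of_not_dvd h3, add_zero]
  · intro h a ha hja
    have h3 : ¬ p ∣ Nat.card N.ker := by
      intro h6
      have h7 := one_le_padicValNat_of_dvd Nat.card_pos.ne' h6
      omega
    have h6 : N a ^ d = 1 := by rw [← hj, hja, map_one]
    have h7 : N a ^ p = 1 := by rw [← map_pow, ha, map_one]
    have h8 : N a = 1 := by
      have h9 : orderOf (N a) ∣ d := orderOf_dvd_of_pow_eq_one h6
      have h10 : orderOf (N a) ∣ p := orderOf_dvd_of_pow_eq_one h7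
      rcases (Nat.dvd_prime hp).1 h10 with h11 | h11
      · exact orderOf_eq_one_iff.1 h11
      · exact absurd (h11 ▸ h9) hd
    have h9 : orderOf (⟨a, h8⟩ : N.ker) ∣ p := by
      apply orderOf_dvd_of_pow_eq_one
      exact Subtype.ext ha
    have h10 : orderOf (⟨a, h8⟩ : N.ker) ∣ Nat.card N.ker := orderOf_dvd_natCard _
    rcases (Nat.dvd_prime hp).1 h9 with h11 | h11
    · have h12 := orderOf_eq_one_iff.1 h11
      exact congrArg Subtype.val h12
    · exact absurd (h11 ▸ h10) h3

section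

variable {L : Type*} [Field L] [NumberField L]

theorem mk_eq_one (x : (FractionalIdeal (𝓞 L)⁰ L)ˣ) :
    ClassGroup.mk L x = 1 ↔ ∃ z : Lˣ, toPrincipalIdeal (𝓞 L) L z = x := by
  rw [← (ClassGroup.equiv L).injective.eq_iff]
  simp only [ClassGroup.equiv_mk, FractionalIdeal.canonicalEquiv_self,
    RingEquiv.coe_mulEquiv_refl, QuotientGroup.mk'_apply,
    map_one, QuotientGroup.eq_one_iff, MonoidHom.mem_range, Units.ext_iff,
    coe_toPrincipalIdeal, Units.coe_mapEquiv, MulEquiv.refl_apply]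

theorem mk_surj :
    Function.Surjective (ClassGroup.mk L : (FractionalIdeal (𝓞 L)⁰ L)ˣ →* ClassGroup (𝓞 L)) := by
  intro c
  exact ClassGroup.induction L (fun I => ⟨I, rfl⟩) c

end

section

variable {k K M : Type*} [Field k] [NumberField k] [Field K] [NumberField K] [Field M]
  [NumberField M] [Algebra k K] [Algebra K M] [Algebra k M] [IsScalarTower k K M]

theorem extU_trans (u : (FractionalIdeal (𝓞 k)⁰ k)ˣ) :
    Inv.extU K M (Inv.extU k K u) = Inv.extU k M u := by
  obtain ⟨n, I, hn, hI⟩ := Inv.exists_denom k (u : FractionalIdeal (𝓞 k)⁰ k)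
  have h1 := extU_int (L := K) I u n hI
  have h2 := extU_int (L := M) _ _ n h1
  have h3 := extU_int (L := M) I u n hI
  have hn0 : FractionalIdeal.spanSingleton (𝓞 M)⁰ (n : M) ≠ 0 := by
    rw [Ne, FractionalIdeal.spanSingleton_eq_zero_iff]
    exact_mod_cast hn
  apply Units.ext
  apply mul_left_cancel₀ hn0
  rw [h2, h3, Ideal.map_map]
  congr 2
  ext a
  exact (IsScalarTower.algebraMap_apply k K M (a : k)).symm

end

section

variable {F L : Type*} [Field F] [NumberField F] [Field L] [NumberField L] [Algebra F L]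

theorem algebraMap_surj (h : finrank F L = 1) : Function.Surjective (algebraMap F L) := by
  intro x
  have h1 : (⊥ : Subalgebra F L) = ⊤ := Subalgebra.bot_eq_top_of_finrank_eq_one h
  have h2 : x ∈ (⊥ : Subalgebra F L) := by rw [h1]; trivial
  exact Algebra.mem_bot.1 h2

theorem algebraMap_int_surj (h : finrank F L = 1) :
    Function.Surjective (algebraMap (𝓞 F) (𝓞 L)) := by
  intro x
  obtain ⟨y, hy⟩ := algebraMap_surj h (x : L)
  have hx : IsIntegral ℤ (x : L) := x.2
  rw [← hy] at hx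
  have h1 : IsIntegral ℤ y := (isIntegral_algebraMap_iff (algebraMap F L).injective).1 hx
  exact ⟨⟨y, h1⟩, Subtype.ext hy⟩

theorem extU_surj (h : finrank F L = 1) : Function.Surjective (Inv.extU F L) := by
  intro x
  obtain ⟨n, I, hn, hI⟩ := Inv.exists_denom L (x : FractionalIdeal (𝓞 L)⁰ L)
  have hn0 : FractionalIdeal.spanSingleton (𝓞 L)⁰ (n : L) ≠ 0 := by
    rw [Ne, FractionalIdeal.spanSingleton_eq_zero_iff]
    exact_mod_cast hn
  have hm0 : FractionalIdeal.spanSingleton (𝓞 F)⁰ (n : F) ≠ 0 := by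
    rw [Ne, FractionalIdeal.spanSingleton_eq_zero_iff]
    exact_mod_cast hn
  have hI0 : I ≠ ⊥ := by
    rintro rfl
    rw [FractionalIdeal.coeIdeal_bot] at hI
    exact mul_ne_zero hn0 x.ne_zero hI
  have hmap : (I.comap (algebraMap (𝓞 F) (𝓞 L))).map (algebraMap (𝓞 F) (𝓞 L)) = I :=
    Ideal.map_comap_of_surjective _ (algebraMap_int_surj h) I
  have hJ0 : I.comap (algebraMap (𝓞 F) (𝓞 L)) ≠ ⊥ := by
    intro h0
    rw [h0, Ideal.map_bot] at hmap
    exact hI0 hmap.symm
  have hJ1 : ((I.comap (algebraMap (𝓞 F) (𝓞 L)) : Ideal (𝓞 F)) : FractionalIdeal (𝓞 F)⁰ F) ≠ 0 :=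
    FractionalIdeal.coeIdeal_ne_zero.2 hJ0
  refine ⟨(Units.mk0 _ hm0)⁻¹ * Units.mk0 _ hJ1, ?_⟩
  have h1 := extU_int (L := L) (I.comap (algebraMap (𝓞 F) (𝓞 L)))
    ((Units.mk0 _ hm0)⁻¹ * Units.mk0 _ hJ1) n (by
      rw [Units.val_mul, Units.val_mk0, ← mul_assoc]
      have h2 : FractionalIdeal.spanSingleton (𝓞 F)⁰ (n : F) *
          (((Units.mk0 _ hm0)⁻¹ : (FractionalIdeal (𝓞 F)⁰ F)ˣ) : FractionalIdeal (𝓞 F)⁰ F) = 1 :=
        Units.mul_inv (Units.mk0 _ hm0)
      rw [h2, one_mul])
  rw [hmap, ← hI] at h1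
  apply Units.ext
  exact mul_left_cancel₀ hn0 h1

theorem mk_extU_eq_one (h : finrank F L = 1) (y : (FractionalIdeal (𝓞 F)⁰ F)ˣ) :
    ClassGroup.mk L (Inv.extU F L y) = 1 ↔ ClassGroup.mk F y = 1 := by
  rw [mk_eq_one, mk_eq_one]
  constructor
  · rintro ⟨z, hz⟩
    obtain ⟨w, hw⟩ := algebraMap_surj h (z : L)
    have hw0 : w ≠ 0 := by
      rintro rfl
      rw [map_zero] at hw
      exact z.ne_zero hw.symm
    refine ⟨Units.mk0 w hw0, extU_injective (L := L) ?_⟩
    rw [extU_principal, ← hz]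
    congr 1
    exact Units.ext hw
  · rintro ⟨z, hz⟩
    exact ⟨Units.map (algebraMap F L).toMonoidHom z, by rw [← extU_principal, hz]⟩

end

end CrZ

open CrZ

theorem normTriv_iff {p : ℕ} (hp : p.Prime) (K L : Type*) [Field K] [NumberField K] [Field L]
    [NumberField L] [Algebra K L] (hpd : ¬ p ∣ finrank K L) :
    NormTriv p K L ↔ padicValNat p (Nat.card (ClassGroup (𝓞 L))) =
      padicValNat p (Nat.card (ClassGroup (𝓞 K))) := by
  obtain ⟨N, hN⟩ := exists_lift (ClassGroup.mk L) mk_surj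
    ((ClassGroup.mk K : (FractionalIdeal (𝓞 K)⁰ K)ˣ →* ClassGroup (𝓞 K)).comp (nD K L)) (by
      intro x hx
      obtain ⟨z, rfl⟩ := (mk_eq_one x).1 hx
      rw [MonoidHom.comp_apply, nD_principal]
      exact (mk_eq_one _).2 ⟨_, rfl⟩)
  obtain ⟨j, hj⟩ := exists_lift (ClassGroup.mk K) mk_surj
    ((ClassGroup.mk L : (FractionalIdeal (𝓞 L)⁰ L)ˣ →* ClassGroup (𝓞 L)).comp (Inv.extU K L)) (by
      intro x hx
      obtain ⟨z, rfl⟩ := (mk_eq_one x).1 hx
      rw [MonoidHom.comp_apply, extU_principal]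
      exact (mk_eq_one _).2 ⟨_, rfl⟩)
  have hjN : ∀ b, N (j b) = b ^ finrank K L := by
    intro b
    obtain ⟨x, rfl⟩ := mk_surj b
    rw [hj, MonoidHom.comp_apply, hN, MonoidHom.comp_apply, nD_ext, map_pow]
  rw [← triv_iff hp N j _ hpd hjN]
  constructor
  · intro h a ha hja
    obtain ⟨x, rfl⟩ := mk_surj a
    rw [hN, MonoidHom.comp_apply, hj, MonoidHom.comp_apply] at hja
    exact h x ha hja
  · intro h x hx hjx
    apply h _ hx
    rw [hN, MonoidHom.comp_apply, hj, MonoidHom.comp_apply]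
    exact hjx

/-- relative degree one -/
theorem NormTriv.one {p d : ℕ} {k F L' L : Type*} [Field k]
    [NumberField k] [Field F] [NumberField F] [Field L'] [NumberField L'] [Field L]
    [NumberField L] [Algebra k F] [Algebra k L'] [Algebra F L] [Algebra L' L] [Algebra k L]
    [IsScalarTower k F L] [IsScalarTower k L' L] (h1 : finrank k F = d)
    (h2 : finrank k L' = 1) (h4 : finrank F L = 1) (h3 : finrank L' L = d)
    (h : NormTriv p k F) : NormTriv p L' L := by
  intro x hx hjx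
  obtain ⟨y, rfl⟩ := extU_surj (F := F) h4 x
  have h5 : nD L' L (Inv.extU F L y) = Inv.extU k L' (nD k F y) :=
    nD_base (Nat.coprime_one_left d) h1 h2 h4 h3 y
  rw [h5, extU_trans, ← extU_trans (K := F), mk_extU_eq_one h4] at hjx
  rw [← map_pow, ← map_pow, mk_extU_eq_one h4, map_pow] at hx
  rw [mk_extU_eq_one h4]
  exact h y hx hjx

end Pool.Agent.Work.MuZ
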