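import Pool.Agent.Work.MP_a4986b_nt.YAb

set_option autoImplicit false
set_option maxHeartbeats 400000
set_option linter.unusedSectionVars false

/-! # Non-split primes in a tower -/

namespace Pool.Agent.Work.MuZ

open NumberField Module IsDedekindDomain
open scoped Pointwise nonZeroDivisors
open Pool.Agent.Work.MuI Pool.Agent.Work.MuI.Step Pool.Agent.Work.MuY

section Aux

variable {k F : Type} [Field k] [NumberField k] [Field F] [NumberField F] [Algebra k F]

theorem zns_rank : finrank (𝓞 k) (𝓞 F) = finrank k F :=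
  (IsFractionRing.finrank_eq (𝓞 k) k (𝓞 F) F).symm

/-- the sum of `e f` over the primes of `F` over a prime of `k` -/
theorem zns_sum (q : Ideal (𝓞 k)) [q.IsPrime] [Fintype (q.primesOver (𝓞 F))] :
    ∑ P : q.primesOver (𝓞 F), P.1.ramificationIdx (𝓞 k) * P.1.inertiaDeg (𝓞 k) = finrank k F := by
  rw [Ideal.sum_ramification_inertia_eq_finrank, zns_rank]

/-- a single prime over `q` -/
theorem zns_one (q : Ideal (𝓞 k)) [q.IsPrime] (P : Ideal (𝓞 F)) (hP : P.IsPrime)
    (hPq : P.LiesOver q) (hone : ∀ Q : Ideal (𝓞 F), Q.IsPrime → Q.LiesOver q → Q = P) :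
    P.ramificationIdx (𝓞 k) * P.inertiaDeg (𝓞 k) = finrank k F := by
  classical
  have hft : Fintype (q.primesOver (𝓞 F)) := (Algebra.QuasiFinite.finite_primesOver q).fintype
  rw [← zns_sum (F := F) q]
  symm
  rw [Finset.sum_eq_single_of_mem (⟨P, hP, hPq⟩ : q.primesOver (𝓞 F)) (Finset.mem_univ _)]
  rintro ⟨Q, hQ, hQo⟩ _ hne
  exfalso
  apply hne
  apply Subtype.ext
  exact hone Q hQ hQo

/-- two different primes over `q` -/
theorem zns_two (q : Ideal (𝓞 k)) [q.IsPrime] (P Q : Ideal (𝓞 F)) (hP : P.IsPrime)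
    (hQ : Q.IsPrime) (hPq : P.LiesOver q) (hQq : Q.LiesOver q) (hne : P ≠ Q) :
    P.ramificationIdx (𝓞 k) * P.inertiaDeg (𝓞 k) +
      Q.ramificationIdx (𝓞 k) * Q.inertiaDeg (𝓞 k) ≤ finrank k F := by
  classical
  have hft : Fintype (q.primesOver (𝓞 F)) := (Algebra.QuasiFinite.finite_primesOver q).fintype
  rw [← zns_sum (F := F) q]
  have h : (⟨P, hP, hPq⟩ : q.primesOver (𝓞 F)) ≠ ⟨Q, hQ, hQq⟩ := by
    intro h
    exact hne (congrArg Subtype.val h)
  rw [← Finset.sum_pair (f := fun R : q.primesOver (𝓞 F) =>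
    R.1.ramificationIdx (𝓞 k) * R.1.inertiaDeg (𝓞 k)) h]
  exact Finset.sum_le_sum_of_subset (Finset.subset_univ _)

/-- in a Galois extension `e f` divides the degree -/
theorem zns_dvd [IsGalois k F] (P : Ideal (𝓞 F)) (hP : P.IsPrime) :
    P.ramificationIdx (𝓞 k) * P.inertiaDeg (𝓞 k) ∣ finrank k F := by
  have hq : (P.under (𝓞 k)).IsPrime := Ideal.IsPrime.under (𝓞 k) P
  have h := Ideal.ncard_primesOver_mul_ramificationIdxIn_mul_inertiaDegIn (P.under (𝓞 k)) (𝓞 F)
    Gal(F/k)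
  rw [IsGalois.card_aut_eq_finrank,
    Ideal.ramificationIdxIn_eq_ramificationIdx (P.under (𝓞 k)) P Gal(F/k),
    Ideal.inertiaDegIn_eq_inertiaDeg (P.under (𝓞 k)) P Gal(F/k)] at h
  exact ⟨_, by rw [← h]; ring⟩

end Aux

/-- non-split primes stay non-split in an extension of degree a power of `p`, when the degree is
prime to `p` -/
theorem nonSplit_up {p n d : ℕ} (hp : p.Prime) (hpd : ¬ p ∣ d) {k F L' L : Type} [Field k]
    [NumberField k] [Field F] [NumberField F] [Field L'] [NumberField L'] [Field L]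
    [NumberField L] [Algebra k F] [Algebra k L'] [Algebra F L] [Algebra L' L] [Algebra k L]
    [IsScalarTower k F L] [IsScalarTower k L' L] [IsGalois k L'] (h1 : finrank k F = d)
    (h2 : finrank k L' = p ^ n) (h3 : finrank L' L = d) (hns : NonSplit p k F) :
    NonSplit p L' L := by
  have key : ∀ S : Ideal (𝓞 L), S.IsPrime → (p : 𝓞 L) ∈ S →
      d ∣ S.ramificationIdx (𝓞 L') * S.inertiaDeg (𝓞 L') := by
    intro S hS hpS
    have hP : (S.under (𝓞 F)).IsPrime := Ideal.IsPrime.under (𝓞 F) S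
    have hT : (S.under (𝓞 L')).IsPrime := Ideal.IsPrime.under (𝓞 L') S
    have hq : ((S.under (𝓞 F)).under (𝓞 k)).IsPrime := Ideal.IsPrime.under (𝓞 k) _
    have hpP : (p : 𝓞 F) ∈ S.under (𝓞 F) := by
      rw [Ideal.under_def, Ideal.mem_comap, map_natCast]
      exact hpS
    have hone := zns_one (F := F) ((S.under (𝓞 F)).under (𝓞 k)) (S.under (𝓞 F)) hP inferInstance
      (fun Q hQ hQo => by
        have hQ1 := Ideal.over_def Q ((S.under (𝓞 F)).under (𝓞 k))
        have hpQ : (p : 𝓞 F) ∈ Q := by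
          have h4 : (p : 𝓞 k) ∈ Q.under (𝓞 k) := by
            rw [← hQ1, Ideal.under_def, Ideal.mem_comap, map_natCast]
            exact hpP
          rw [Ideal.under_def, Ideal.mem_comap, map_natCast] at h4
          exact h4
        exact hns Q _ hQ hP hpQ hpP hQ1.symm)
    have he1 := Ideal.ramificationIdx_tower (R := 𝓞 k) (S.under (𝓞 F)) S
    have hf1 := Ideal.inertiaDeg_tower (R := 𝓞 k) (S.under (𝓞 F)) S
    have he2 := Ideal.ramificationIdx_tower (R := 𝓞 k) (S.under (𝓞 L')) S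
    have hf2 := Ideal.inertiaDeg_tower (R := 𝓞 k) (S.under (𝓞 L')) S
    have hd : d ∣ S.ramificationIdx (𝓞 k) * S.inertiaDeg (𝓞 k) := by
      rw [he1, hf1, mul_mul_mul_comm, hone, h1]
      exact dvd_mul_right _ _
    rw [he2, hf2, mul_mul_mul_comm] at hd
    have hdvd := zns_dvd (k := k) (S.under (𝓞 L')) hT
    rw [h2] at hdvd
    refine Nat.Coprime.dvd_of_dvd_mul_left ?_ hd
    apply Nat.Coprime.coprime_dvd_right hdvd
    exact Nat.Coprime.pow_right n ((Nat.Prime.coprime_iff_not_dvd hp).2 hpd).symm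
  intro P Q hP hQ hpP hpQ hPQ
  by_contra hne
  have hT : (P.under (𝓞 L')).IsPrime := Ideal.IsPrime.under (𝓞 L') P
  have hQo : Q.LiesOver (P.under (𝓞 L')) := ⟨hPQ⟩
  have h5 := zns_two (F := L) (P.under (𝓞 L')) P Q hP hQ inferInstance hQo hne
  have hpos : ∀ S : Ideal (𝓞 L), S.IsPrime →
      0 < S.ramificationIdx (𝓞 L') * S.inertiaDeg (𝓞 L') := by
    intro S hS
    exact Nat.mul_pos (S.ramificationIdx_pos (𝓞 L')) (S.inertiaDeg_pos (𝓞 L'))
  have h6 := Nat.le_of_dvd (hpos P hP) (key P hP hpP)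
  have h7 := Nat.le_of_dvd (hpos Q hQ) (key Q hQ hpQ)
  have h8 : 0 < d := by rw [← h3]; exact finrank_pos
  rw [h3] at h5
  omega

end Pool.Agent.Work.MuZ
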