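import Pool.Agent.Work.MP_a4986b_nt.ZNorm

set_option autoImplicit false
set_option maxHeartbeats 400000
set_option linter.unusedSectionVars false

/-! # Base change of norms -/

namespace Pool.Agent.Work.MuZ

open NumberField Module IsDedekindDomain
open scoped Pointwise nonZeroDivisors
open Pool.Agent.Work.MuI Pool.Agent.Work.MuI.Step Pool.Agent.Work.MuY

/-- the group of fractional ideals has no torsion -/
theorem znb_eq_one {R K : Type*} [CommRing R] [IsDedekindDomain R] [Field K] [Algebra R K]
    [IsFractionRing R K] (u : (FractionalIdeal R⁰ K)ˣ) {h : ℕ} (hh : h ≠ 0) (hu : u ^ h = 1) :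
    u = 1 := by
  apply Units.ext
  have h0 : (u : FractionalIdeal R⁰ K) ≠ 0 := u.ne_zero
  rw [← FractionalIdeal.finprod_heightOneSpectrum_factorization' K h0]
  rw [Units.val_one]
  have h1 : ∀ v : HeightOneSpectrum R,
      FractionalIdeal.count K v (u : FractionalIdeal R⁰ K) = 0 := by
    intro v
    have h2 := congrArg (fun w : (FractionalIdeal R⁰ K)ˣ =>
      FractionalIdeal.count K v (w : FractionalIdeal R⁰ K)) hu
    simp only [Units.val_pow_eq_pow_val, Units.val_one] at h2
    rw [FractionalIdeal.count_pow, FractionalIdeal.count_one] at h2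
    rcases mul_eq_zero.1 h2 with h3 | h3
    · exact absurd (by exact_mod_cast h3) hh
    · exact h3
  simp [h1]

theorem znb_pow_inj {R K : Type*} [CommRing R] [IsDedekindDomain R] [Field K] [Algebra R K]
    [IsFractionRing R K] {u v : (FractionalIdeal R⁰ K)ˣ} {h : ℕ} (hh : h ≠ 0)
    (huv : u ^ h = v ^ h) : u = v := by
  have h1 : (u / v) ^ h = 1 := by rw [div_pow, huv, div_self']
  exact div_eq_one.1 (znb_eq_one _ hh h1)

section

variable {K' K L' L : Type*} [Field K'] [NumberField K'] [Field K] [NumberField K] [Field L']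
  [NumberField L'] [Field L] [NumberField L] [Algebra K' K] [Algebra K' L'] [Algebra K L]
  [Algebra L' L] [Algebra K' L] [IsScalarTower K' K L] [IsScalarTower K' L' L]

/-- base change of the norm, coprime degrees -/
theorem znb_norm {m d : ℕ} (hmd : Nat.Coprime m d) (h1 : finrank K' K = d)
    (h2 : finrank K' L' = m) (h3 : finrank K L = m) (x : K) :
    Algebra.norm L' (algebraMap K L x) = algebraMap K' L' (Algebra.norm K' x) := by
  have fd : FiniteDimensional K' L := inferInstance
  let fB := IsScalarTower.toAlgHom K' K L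
  let fA := IsScalarTower.toAlgHom K' L' L
  let B : IntermediateField K' L := fB.fieldRange
  let A : IntermediateField K' L := fA.fieldRange
  let eA : L' ≃ₐ[K'] A := AlgEquiv.ofInjectiveField fA
  let eB : K ≃ₐ[K'] B := AlgEquiv.ofInjectiveField fB
  have hA : finrank K' A = m := by rw [← h2]; exact eA.symm.toLinearEquiv.finrank_eq
  have hB : finrank K' B = d := by rw [← h1]; exact eB.symm.toLinearEquiv.finrank_eq
  have hdisj : A.LinearDisjoint B :=
    IntermediateField.LinearDisjoint.of_finrank_coprime (by rw [hA, hB]; exact hmd)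
  have htot : finrank K' L = d * m := by rw [← finrank_mul_finrank K' K L, h1, h3]
  have hsup : A ⊔ B = ⊤ := by
    apply IntermediateField.eq_of_le_of_finrank_eq le_top
    rw [hdisj.finrank_sup, hA, hB, IntermediateField.finrank_top', htot, mul_comm]
  have key := hdisj.norm_algebraMap hsup (eB x)
  have e1 : algebraMap B L (eB x) = algebraMap K L x := rfl
  have e2 : Algebra.norm K' (eB x) = Algebra.norm K' x := Algebra.norm_eq_of_algEquiv eB x
  rw [e1, e2] at key
  have e3 := Algebra.norm_eq_of_equiv_equiv (eA : L' ≃+* A) (RingEquiv.refl L)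
    (by ext y; rfl) (algebraMap K L x)
  rw [e3]
  apply (eA : L' ≃+* A).injective
  rw [RingEquiv.apply_symm_apply]
  refine key.trans ?_
  exact (eA.commutes _).symm

theorem nE_base {m d : ℕ} (hmd : Nat.Coprime m d) (h1 : finrank K' K = d)
    (h2 : finrank K' L' = m) (h3 : finrank K L = m) (h4 : finrank L' L = d) (x : Kˣ) :
    nE L' L (jE K L x) = jE K' L' (nE K' K x) := by
  have _ := h4
  apply Units.ext
  exact znb_norm hmd h1 h2 h3 (x : K)

theorem nD_base {m d : ℕ} (hmd : Nat.Coprime m d) (h1 : finrank K' K = d)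
    (h2 : finrank K' L' = m) (h3 : finrank K L = m) (h4 : finrank L' L = d)
    (x : (FractionalIdeal (𝓞 K)⁰ K)ˣ) :
    nD L' L (Inv.extU K L x) = Inv.extU K' L' (nD K' K x) := by
  have hh : Nat.card (ClassGroup (𝓞 K)) ≠ 0 := Nat.card_pos.ne'
  refine znb_pow_inj hh ?_
  have hx : ClassGroup.mk K (x ^ Nat.card (ClassGroup (𝓞 K))) = 1 := by
    rw [map_pow, pow_card_eq_one']
  have hx2 : x ^ Nat.card (ClassGroup (𝓞 K)) ∈ (toPrincipalIdeal (𝓞 K) K).range := by
    rw [← ker_mk]
    exact hx
  obtain ⟨z, hz⟩ := hx2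
  rw [← map_pow, ← map_pow, ← map_pow, ← map_pow, ← hz, extU_principal, nD_principal,
    nD_principal, extU_principal]
  congr 1
  exact nE_base hmd h1 h2 h3 h4 z

end

end Pool.Agent.Work.MuZ
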