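import Pool.Agent.Work.MP_a4986b_nt.ZNorm

set_option autoImplicit false
set_option maxHeartbeats 400000
set_option linter.unusedSectionVars false

/-! # Compatible automorphisms -/

namespace Pool.Agent.Work.MuZ

open NumberField Module IsDedekindDomain
open scoped Pointwise nonZeroDivisors
open Pool.Agent.Work.MuI Pool.Agent.Work.MuI.Step Pool.Agent.Work.MuY

section

variable {K L : Type*} [Field K] [NumberField K] [Field L] [NumberField L] [Algebra K L]
  {A B : Type*} [Field A] [NumberField A] [Field B] [NumberField B] [Algebra A L] [Algebra B K]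

theorem norm_compat (s : Gal(L/A)) (t : Gal(K/B))
    (hc : ∀ y : K, algebraMap K L (t y) = s (algebraMap K L y)) (x : L) :
    Algebra.norm K (s x) = t (Algebra.norm K x) := by
  have h := Algebra.norm_eq_of_equiv_equiv (A₁ := K) (B₁ := L) (A₂ := K) (B₂ := L)
    ((t : K ≃ₐ[B] K) : K ≃+* K) ((s : L ≃ₐ[A] L) : L ≃+* L)
    (by ext y; exact hc y) x
  rw [h]
  exact ((t : K ≃ₐ[B] K).apply_symm_apply _).symm

theorem nE_sU (s : Gal(L/A)) (t : Gal(K/B))
    (hc : ∀ y : K, algebraMap K L (t y) = s (algebraMap K L y)) (x : Lˣ) :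
    nE K L (sU s x) = sU t (nE K L x) := by
  apply Units.ext
  exact norm_compat s t hc x

/-- an ideal of `𝓞 K` moved by `t` and extended -/
theorem smul_map_compat' (s : Gal(L/A)) (t : Gal(K/B))
    (hc : ∀ y : K, algebraMap K L (t y) = s (algebraMap K L y)) (I : Ideal (𝓞 K)) :
    s • I.map (algebraMap (𝓞 K) (𝓞 L)) = (t • I).map (algebraMap (𝓞 K) (𝓞 L)) := by
  rw [Ideal.pointwise_smul_def, Ideal.pointwise_smul_def, Ideal.map_map, Ideal.map_map]
  congr 1
  ext a
  exact (hc a).symm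

theorem intNorm_compat (s : Gal(L/A)) (t : Gal(K/B))
    (hc : ∀ y : K, algebraMap K L (t y) = s (algebraMap K L y)) (a : 𝓞 L) :
    Algebra.intNorm (𝓞 K) (𝓞 L) (s • a) = t • Algebra.intNorm (𝓞 K) (𝓞 L) a := by
  apply FaithfulSMul.algebraMap_injective (𝓞 K) K
  rw [Algebra.algebraMap_intNorm (K := K) (L := L)]
  have h1 := norm_compat s t hc (algebraMap (𝓞 L) L a)
  have h2 := Algebra.algebraMap_intNorm (A := 𝓞 K) (K := K) (L := L) (B := 𝓞 L) a
  rw [← h2] at h1
  exact h1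

theorem relNorm_compat (s : Gal(L/A)) (t : Gal(K/B))
    (hc : ∀ y : K, algebraMap K L (t y) = s (algebraMap K L y)) (I : Ideal (𝓞 L)) :
    Ideal.relNorm (𝓞 K) (s • I) = t • Ideal.relNorm (𝓞 K) I := by
  rw [Ideal.relNorm_apply, Ideal.relNorm_apply, Ideal.pointwise_smul_def (a := t), Ideal.map_span]
  congr 1
  ext a
  constructor
  · rintro ⟨b, hb, rfl⟩
    refine ⟨Algebra.intNorm (𝓞 K) (𝓞 L) (s⁻¹ • b),
      ⟨s⁻¹ • b, Ideal.mem_pointwise_smul_iff_inv_smul_mem.1 hb, rfl⟩, ?_⟩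
    have h := intNorm_compat s t hc (s⁻¹ • b)
    rw [smul_inv_smul] at h
    exact h.symm
  · rintro ⟨_, ⟨c, hc', rfl⟩, rfl⟩
    exact ⟨s • c, Ideal.smul_mem_pointwise_smul s c I hc', intNorm_compat s t hc c⟩

theorem nD_fU (s : Gal(L/A)) (t : Gal(K/B))
    (hc : ∀ y : K, algebraMap K L (t y) = s (algebraMap K L y))
    (x : (FractionalIdeal (𝓞 L)⁰ L)ˣ) : nD K L (fU s x) = fU t (nD K L x) := by
  have key : ∀ (I : Ideal (𝓞 L)) (hI : I ∈ (Ideal (𝓞 L))⁰),
      nD K L (fU s (FractionalIdeal.mk0 L ⟨I, hI⟩)) =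
        fU t (nD K L (FractionalIdeal.mk0 L ⟨I, hI⟩)) := by
    intro I hI
    have hI0 : I ≠ ⊥ := nonZeroDivisors.ne_zero hI
    have hsI : s • I ≠ ⊥ := by
      intro h
      apply hI0
      have := congrArg (fun J => s⁻¹ • J) h
      simpa using this
    have hsI' : s • I ∈ (Ideal (𝓞 L))⁰ := mem_nonZeroDivisors_iff_ne_zero.2 hsI
    have h1 : fU s (FractionalIdeal.mk0 L ⟨I, hI⟩) = FractionalIdeal.mk0 L ⟨s • I, hsI'⟩ := by
      apply Units.ext
      rw [fU_coe, FractionalIdeal.coe_mk0, FractionalIdeal.coe_mk0]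
      exact Inv.act_coeIdeal s I
    rw [h1]
    apply Units.ext
    rw [nD_mk0, fU_coe, nD_mk0]
    show _ = FractionalIdeal.ringEquivOfRingEquiv K K
        (MulSemiringAction.toRingEquiv Gal(K/B) (𝓞 K) t) _
    rw [Inv.act_coeIdeal, relNorm_compat s t hc]
  obtain ⟨n, I, hn, hI⟩ := Inv.exists_denom L (x : FractionalIdeal (𝓞 L)⁰ L)
  have hn0 : (n : 𝓞 L) ≠ 0 := by exact_mod_cast hn
  have hI0 : I ≠ ⊥ := by
    rintro rfl
    rw [FractionalIdeal.coeIdeal_bot] at hI
    rcases mul_eq_zero.1 hI with h | h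
    · rw [FractionalIdeal.spanSingleton_eq_zero_iff] at h
      exact hn (by exact_mod_cast h)
    · exact x.ne_zero h
  have hIm : I ∈ (Ideal (𝓞 L))⁰ := mem_nonZeroDivisors_iff_ne_zero.2 hI0
  have hJ0 : Ideal.span {(n : 𝓞 L)} ≠ ⊥ := by
    rw [Ne, Ideal.span_singleton_eq_bot]
    exact hn0
  have hJm : Ideal.span {(n : 𝓞 L)} ∈ (Ideal (𝓞 L))⁰ := mem_nonZeroDivisors_iff_ne_zero.2 hJ0
  have hx : FractionalIdeal.mk0 L ⟨Ideal.span {(n : 𝓞 L)}, hJm⟩ * x =
      FractionalIdeal.mk0 L ⟨I, hIm⟩ := by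
    apply Units.ext
    rw [Units.val_mul, FractionalIdeal.coe_mk0, FractionalIdeal.coe_mk0, ← hI,
      FractionalIdeal.coeIdeal_span_singleton, map_natCast]
  have h1 := key I hIm
  rw [← hx, map_mul, map_mul, map_mul, map_mul, key _ hJm] at h1
  exact mul_left_cancel h1

/-- extension commutes with compatible automorphisms -/
theorem fU_extU' (s : Gal(L/A)) (t : Gal(K/B))
    (hc : ∀ y : K, algebraMap K L (t y) = s (algebraMap K L y))
    (x : (FractionalIdeal (𝓞 K)⁰ K)ˣ) : fU s (Inv.extU K L x) = Inv.extU K L (fU t x) := by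
  obtain ⟨n, I, hn, hI⟩ := Inv.exists_denom K (x : FractionalIdeal (𝓞 K)⁰ K)
  have h1 := extU_int (L := L) I x n hI
  have h2 := congrArg (FractionalIdeal.ringEquivOfRingEquiv L L
      (MulSemiringAction.toRingEquiv Gal(L/A) (𝓞 L) s)) h1
  rw [map_mul, Inv.act_spanSingleton, Inv.act_coeIdeal, smul_map_compat' s t hc,
    map_natCast] at h2
  have h3 := congrArg (FractionalIdeal.ringEquivOfRingEquiv K K
      (MulSemiringAction.toRingEquiv Gal(K/B) (𝓞 K) t)) hI
  rw [map_mul, Inv.act_spanSingleton, Inv.act_coeIdeal, map_natCast] at h3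
  have h4 := extU_int (L := L) (t • I) (fU t x) n h3
  have hn0 : FractionalIdeal.spanSingleton (𝓞 L)⁰ (n : L) ≠ 0 := by
    rw [Ne, FractionalIdeal.spanSingleton_eq_zero_iff]
    exact_mod_cast hn
  apply Units.ext
  exact mul_left_cancel₀ hn0 (h2.trans h4.symm)

end

end Pool.Agent.Work.MuZ
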