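import Pool.Agent.Work.MP_a4986b_nt.YRank
import Pool.Agent.Work.MP_a4986b_nt.ZNormE

set_option autoImplicit false
set_option maxHeartbeats 400000
set_option linter.unusedSectionVars false

/-! # Units of relative norm one -/

namespace Pool.Agent.Work.MuZ

open NumberField Module IsDedekindDomain
open scoped Pointwise nonZeroDivisors
open Pool.Agent.Work.MuI Pool.Agent.Work.MuI.Step Pool.Agent.Work.MuY

attribute [local instance] Units.mulDistribMulActionRight

/-- units of relative norm one -/
noncomputable def EN (K L : Type*) [Field K] [Field L] [NumberField L] [Algebra K L] :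
    Subgroup (𝓞 L)ˣ := ((nE K L).comp (uI L)).ker

theorem mem_EN {K L : Type*} [Field K] [Field L] [NumberField L] [Algebra K L] {u : (𝓞 L)ˣ} :
    u ∈ EN K L ↔ nE K L (uI L u) = 1 := Iff.rfl

theorem finrank_range_ker {M N : Type*} [AddCommGroup M] [AddCommGroup N] [Module.Finite ℤ M]
    (φ : M →ₗ[ℤ] N) :
    finrank ℤ (LinearMap.range φ) + finrank ℤ (LinearMap.ker φ) = finrank ℤ M := by
  have h3 := (LinearMap.ker φ).finrank_quotient_add_finrank
  rw [(LinearMap.quotKerEquivRange φ).finrank_eq] at h3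
  exact h3

/-- torsion kernel -/
theorem finrank_range_of_torsion {M N : Type*} [AddCommGroup M] [AddCommGroup N]
    [Module.Finite ℤ M] (φ : M →ₗ[ℤ] N) {q : ℕ} (hq : q ≠ 0)
    (h : ∀ x, φ x = 0 → q • x = 0) : finrank ℤ (LinearMap.range φ) = finrank ℤ M := by
  have hker : finrank ℤ (LinearMap.ker φ) = 0 := by
    rw [Module.finrank_eq_zero_iff_isTorsion]
    rintro ⟨x, hx⟩
    refine ⟨⟨(q : ℤ), mem_nonZeroDivisors_of_ne_zero (by exact_mod_cast hq)⟩, ?_⟩
    apply Subtype.ext
    show (q : ℤ) • x = 0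
    rw [natCast_zsmul]
    exact h x hx
  have := finrank_range_ker φ
  omega

theorem finrank_le_of_torsion {M N : Type*} [AddCommGroup M] [AddCommGroup N]
    [Module.Finite ℤ M] [Module.Finite ℤ N] (φ : M →ₗ[ℤ] N) {q : ℕ} (hq : q ≠ 0)
    (h : ∀ x, φ x = 0 → q • x = 0) : finrank ℤ M ≤ finrank ℤ N := by
  rw [← finrank_range_of_torsion φ hq h]
  exact Submodule.finrank_le _

/-- the norm on units -/
noncomputable def nU (K L : Type*) [Field K] [NumberField K] [Field L] [NumberField L]
    [Algebra K L] : (𝓞 L)ˣ →* (𝓞 K)ˣ :=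
  Units.map (RingOfIntegers.norm K)

/-- extension of units -/
noncomputable def jU (K L : Type*) [Field K] [NumberField K] [Field L] [NumberField L]
    [Algebra K L] : (𝓞 K)ˣ →* (𝓞 L)ˣ :=
  Units.map (algebraMap (𝓞 K) (𝓞 L)).toMonoidHom

section

variable (K L : Type*) [Field K] [NumberField K] [Field L] [NumberField L] [Algebra K L]

theorem nE_uI (u : (𝓞 L)ˣ) : nE K L (uI L u) = uI K (nU K L u) := by
  apply Units.ext
  rfl

theorem nU_jU (u : (𝓞 K)ˣ) : nU K L (jU K L u) = u ^ finrank K L := by
  apply Units.ext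
  rw [Units.val_pow_eq_pow_val]
  exact RingOfIntegers.norm_algebraMap (L := L) K (u : 𝓞 K)

theorem jU_injective : Function.Injective (jU K L) :=
  Units.map_injective (FaithfulSMul.algebraMap_injective _ _)

theorem mem_EN' {u : (𝓞 L)ˣ} : u ∈ EN K L ↔ nU K L u = 1 := by
  rw [mem_EN, nE_uI]
  constructor
  · intro h
    rw [← map_one (uI K)] at h
    exact uI_injective h
  · intro h
    rw [h, map_one]

end

theorem rank_EN (K L : Type*) [Field K] [NumberField K] [Field L] [NumberField L] [Algebra K L] :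
    finrank ℤ (Additive (EN K L)) + Units.rank K = Units.rank L := by
  have hfL : Module.Finite ℤ (Additive (𝓞 L)ˣ) := inferInstance
  have hfK : Module.Finite ℤ (Additive (𝓞 K)ˣ) := inferInstance
  let f : Additive (𝓞 L)ˣ →ₗ[ℤ] Additive (𝓞 K)ˣ := (MonoidHom.toAdditive (nU K L)).toIntLinearMap
  let g : Additive (𝓞 K)ˣ →ₗ[ℤ] Additive (𝓞 L)ˣ := (MonoidHom.toAdditive (jU K L)).toIntLinearMap
  have hd : finrank K L ≠ 0 := (Module.finrank_pos (R := K) (M := L)).ne'
  have e1 := finrank_range_ker f
  have e2 : finrank ℤ (LinearMap.range (f ∘ₗ g)) = finrank ℤ (Additive (𝓞 K)ˣ) := by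
    refine finrank_range_of_torsion (f ∘ₗ g) hd fun x hx => ?_
    have h3 : nU K L (jU K L x.toMul) = 1 := hx
    rw [nU_jU] at h3
    exact h3
  have h2 : finrank ℤ (LinearMap.range (f ∘ₗ g)) ≤ finrank ℤ (LinearMap.range f) :=
    Submodule.finrank_mono (LinearMap.range_comp_le_range _ _)
  have h3 : finrank ℤ (LinearMap.range f) ≤ finrank ℤ (Additive (𝓞 K)ˣ) :=
    Submodule.finrank_le _
  have hkf : finrank ℤ (Additive (EN K L)) = finrank ℤ (LinearMap.ker f) := by
    refine LinearEquiv.finrank_eq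
      { toFun := fun x => ⟨Additive.ofMul x.toMul.1, (mem_EN' K L).1 x.toMul.2⟩
        invFun := fun x => Additive.ofMul ⟨x.1.toMul, (mem_EN' K L).2 x.2⟩
        map_add' := fun _ _ => rfl
        map_smul' := fun _ _ => rfl
        left_inv := fun _ => rfl
        right_inv := fun _ => rfl }
  rw [Units.finrank_eq] at e1 e2 h3
  omega

section

variable {K' K L' L : Type*} [Field K'] [NumberField K'] [Field K] [NumberField K] [Field L']
  [NumberField L'] [Field L] [NumberField L] [Algebra K' K] [Algebra K' L'] [Algebra K L]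
  [Algebra L' L] [Algebra K' L] [IsScalarTower K' K L] [IsScalarTower K' L' L]

/-- the action of `σ` on the units of relative norm one -/
noncomputable def nAct (σ : Gal(L/K)) (σ' : Gal(L'/K'))
    (hc : ∀ y : L', algebraMap L' L (σ' y) = σ (algebraMap L' L y)) :
    EN L' L ≃* EN L' L where
  toFun u := ⟨σ • u.1, by rw [mem_EN, ← sU_uI, nE_sU σ σ' hc, mem_EN.1 u.2, map_one]⟩
  invFun u := ⟨σ⁻¹ • u.1, by
    rw [mem_EN, ← sU_uI, nE_sU σ⁻¹ σ'⁻¹ (by
      intro y
      apply σ.injective
      rw [← hc]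
      change algebraMap L' L ((σ' * σ'⁻¹) y) = (σ * σ⁻¹) (algebraMap L' L y)
      rw [mul_inv_cancel, mul_inv_cancel]
      rfl), mem_EN.1 u.2, map_one]⟩
  left_inv u := Subtype.ext (inv_smul_smul σ u.1)
  right_inv u := Subtype.ext (smul_inv_smul σ u.1)
  map_mul' u v := Subtype.ext (smul_mul' σ u.1 v.1)

theorem nAct_pow {p : ℕ} [IsGalois K L] (σ : Gal(L/K)) (σ' : Gal(L'/K'))
    (hc : ∀ y : L', algebraMap L' L (σ' y) = σ (algebraMap L' L y)) (h3 : finrank K L = p) :
    (nAct σ σ' hc) ^ p = 1 := by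
  have h1 : ∀ (n : ℕ) (u : EN L' L), ((nAct σ σ' hc ^ n) u).1 = σ ^ n • u.1 := by
    intro n
    induction n with
    | zero => intro u; rw [pow_zero, pow_zero, one_smul]; rfl
    | succ n ih =>
      intro u
      rw [pow_succ, pow_succ, mul_smul]
      exact ih _
  have hσp : σ ^ p = 1 := by
    rw [← h3, ← IsGalois.card_aut_eq_finrank K L]
    exact pow_card_eq_one'
  ext1 u
  apply Subtype.ext
  rw [h1, hσp, one_smul]
  rfl

theorem nU_trans {A B C : Type*} [Field A] [NumberField A] [Field B] [NumberField B] [Field C]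
    [NumberField C] [Algebra A B] [Algebra B C] [Algebra A C] [IsScalarTower A B C]
    (u : (𝓞 C)ˣ) : nU A B (nU B C u) = nU A C u := by
  apply Units.ext
  apply FaithfulSMul.algebraMap_injective (𝓞 A) A
  exact Algebra.norm_norm

/-- the Herbrand inequality -/
theorem herb_EN {p d : ℕ} (hp : p.Prime) (hodd : Odd p) (hpd : ¬ p ∣ d) [IsGalois K L]
    [IsGalois K' L'] (h1 : finrank K' K = d) (h2 : finrank K' L' = p) (h3 : finrank K L = p)
    (h4 : finrank L' L = d) (σ : Gal(L/K)) (hσ : ∀ x, x ∈ Subgroup.zpowers σ) (σ' : Gal(L'/K'))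
    (hc : ∀ y : L', algebraMap L' L (σ' y) = σ (algebraMap L' L y))
    (Fx : Subgroup (EN L' L)) (hFx : ∀ x, x ∈ Fx ↔ nAct σ σ' hc x = x) :
    (ambNu (nAct σ σ' hc) p).range.relIndex Fx ≠ 0 ∧
      (ambNu (nAct σ σ' hc) p).range.relIndex Fx ≤
        (ambDelta (nAct σ σ' hc)).range.relIndex (ambNu (nAct σ σ' hc) p).ker := by
  have hfin : Module.Finite ℤ (Additive (EN L' L)) := finite_sub _
  have hfin' : Module.Finite ℤ (Additive (EN K' K)) := finite_sub _
  have hfx : Module.Finite ℤ (Additive Fx) := finite_sub _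
  refine herb_mul hp (nAct σ σ' hc) (nAct_pow σ σ' hc h3) (Units.rank K - Units.rank K') Fx hFx
    ?_ ?_
  · have e1 := rank_EN L' L
    have e2 := rank_odd K L (by rw [h3]; exact hodd)
    have e3 := rank_odd K' L' (by rw [h2]; exact hodd)
    rw [h3] at e2
    rw [h2] at e3
    have e4 := rank_EN K' K
    obtain ⟨m, hm⟩ : ∃ m, Units.rank K = Units.rank K' + m := ⟨_, by rw [← e4, add_comm]⟩
    rw [hm] at e2 ⊢
    have e5 : p * (Units.rank K' + m + 1) = p * (Units.rank K' + 1) + p * m := by ring
    rw [e5] at e2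
    rw [Nat.add_sub_cancel_left]
    omega
  · have e4 := rank_EN K' K
    have e5 : finrank ℤ (Additive (EN K' K)) = Units.rank K - Units.rank K' := by omega
    rw [← e5]
    have hpre : ∀ u : Fx, ∃ v : (𝓞 K)ˣ, jU K L v = u.1.1 := by
      rintro ⟨⟨u, hu⟩, hu2⟩
      have h5 : σ • u = u := congrArg Subtype.val ((hFx _).1 hu2)
      exact Mu22.unit_of_fixed hσ h5
    choose v hv using hpre
    have hvmul : ∀ x y, v (x * y) = v x * v y := by
      intro x y
      apply jU_injective K L
      rw [map_mul, hv, hv, hv]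
      rfl
    have hv1 : ∀ x, v x ^ p ∈ EN K' K := by
      intro x
      rw [mem_EN']
      have h5 : nU L' L (jU K L (v x)) = 1 := by
        rw [hv]
        exact (mem_EN' L' L).1 x.1.2
      have h6 : nU K' K (nU K L (jU K L (v x))) = nU K' L' (nU L' L (jU K L (v x))) := by
        rw [nU_trans, nU_trans]
      rw [h5, map_one, nU_jU, h3] at h6
      exact h6
    let φ : Additive Fx →+ Additive (EN K' K) :=
      { toFun := fun x => Additive.ofMul ⟨v x.toMul ^ p, hv1 _⟩
        map_zero' := by
          apply congrArg Additive.ofMul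
          apply Subtype.ext
          show v 1 ^ p = 1
          have h5 : v 1 = 1 := by
            apply jU_injective K L
            rw [hv, map_one]
            rfl
          rw [h5, one_pow]
        map_add' := by
          intro x y
          apply congrArg Additive.ofMul
          apply Subtype.ext
          show v (x.toMul * y.toMul) ^ p = v x.toMul ^ p * v y.toMul ^ p
          rw [hvmul, mul_pow] }
    refine finrank_le_of_torsion φ.toIntLinearMap hp.ne_zero fun x hx => ?_
    have h5 : v x.toMul ^ p = 1 := congrArg (fun y : Additive (EN K' K) => y.toMul.1) hx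
    have h6 : x.toMul ^ p = 1 := by
      apply Subtype.ext
      apply Subtype.ext
      have h7 : (x.toMul ^ p).1.1 = jU K L (v x.toMul ^ p) := by
        rw [map_pow, hv]
        rfl
      rw [h7, h5, map_one]
      rfl
    exact h6

end

end Pool.Agent.Work.MuZ
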