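import Pool.Agent.Work.MP_a4986b_nt.YStep
import Pool.Agent.Work.MP_a4986b_nt.ZNormB
import Pool.Agent.Work.MP_a4986b_nt.ZCount
import Pool.Agent.Work.MP_a4986b_nt.ZUnit

set_option autoImplicit false
set_option maxHeartbeats 400000
set_option linter.unusedSectionVars false

/-! # The step in a square of fields of coprime degrees -/

namespace Pool.Agent.Work.MuZ

open NumberField Module IsDedekindDomain
open scoped Pointwise nonZeroDivisors
open Pool.Agent.Work.MuI Pool.Agent.Work.MuI.Step Pool.Agent.Work.MuY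

attribute [local instance] Units.mulDistribMulActionRight

section nu

variable (K L : Type*) [Field K] [NumberField K] [Field L] [NumberField L] [Algebra K L]

/-- the norm, extended again -/
noncomputable def nuE : Lˣ →* Lˣ := (jE K L).comp (nE K L)

theorem nuE_apply (x : Lˣ) : nuE K L x = jE K L (nE K L x) := rfl

/-- the norm of ideals, extended again -/
noncomputable def nuD : (FractionalIdeal (𝓞 L)⁰ L)ˣ →* (FractionalIdeal (𝓞 L)⁰ L)ˣ :=
  (Inv.extU K L).comp (nD K L)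

theorem nuD_apply (x : (FractionalIdeal (𝓞 L)⁰ L)ˣ) : nuD K L x = Inv.extU K L (nD K L x) := rfl

theorem nuE_nuE (x : Lˣ) : nuE K L (nuE K L x) = nuE K L x ^ finrank K L := by
  rw [nuE_apply, nuE_apply, nE_jE, map_pow]

theorem nuD_nuD (x : (FractionalIdeal (𝓞 L)⁰ L)ˣ) :
    nuD K L (nuD K L x) = nuD K L x ^ finrank K L := by
  rw [nuD_apply, nuD_apply, nD_ext, map_pow]

theorem principal_nuE (x : Lˣ) : toPrincipalIdeal (𝓞 L) L (nuE K L x) =
    nuD K L (toPrincipalIdeal (𝓞 L) L x) := by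
  rw [nuE_apply, nuD_apply, nD_principal, extU_principal]
  rfl

theorem mk_surjective : Function.Surjective
    (ClassGroup.mk L : (FractionalIdeal (𝓞 L)⁰ L)ˣ →* ClassGroup (𝓞 L)) := by
  intro c
  obtain ⟨I, rfl⟩ := ClassGroup.mk0_surjective c
  exact ⟨FractionalIdeal.mk0 L I, ClassGroup.mk_mk0 L I⟩

theorem mk_principal (x : Lˣ) : ClassGroup.mk L (toPrincipalIdeal (𝓞 L) L x) = 1 := by
  have : toPrincipalIdeal (𝓞 L) L x ∈ (ClassGroup.mk L :
    (FractionalIdeal (𝓞 L)⁰ L)ˣ →* ClassGroup (𝓞 L)).ker := by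
    rw [ker_mk]; exact ⟨x, rfl⟩
  exact this

/-- the operator on classes -/
theorem exists_clNu : ∃ b : ClassGroup (𝓞 L) →* ClassGroup (𝓞 L),
    ∀ x, ClassGroup.mk L (nuD K L x) = b (ClassGroup.mk L x) := by
  have hk : (ClassGroup.mk L : (FractionalIdeal (𝓞 L)⁰ L)ˣ →* ClassGroup (𝓞 L)).ker ≤
      ((ClassGroup.mk L : (FractionalIdeal (𝓞 L)⁰ L)ˣ →* ClassGroup (𝓞 L)).comp
        (nuD K L)).ker := by
    intro x hx
    rw [ker_mk] at hx
    obtain ⟨y, rfl⟩ := hx
    rw [MonoidHom.mem_ker, MonoidHom.comp_apply, ← principal_nuE]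
    exact mk_principal L _
  refine ⟨MonoidHom.liftOfSurjective _ (mk_surjective L) ⟨_, hk⟩, fun x => ?_⟩
  exact (MonoidHom.liftOfRightInverse_comp_apply _ _ _ ⟨_, hk⟩ x).symm

end nu

/-- transitivity of the extension of ideals -/
theorem extU_trans (K' K L : Type*) [Field K'] [NumberField K'] [Field K] [NumberField K]
    [Field L] [NumberField L] [Algebra K' K] [Algebra K L] [Algebra K' L] [IsScalarTower K' K L]
    (z : (FractionalIdeal (𝓞 K')⁰ K')ˣ) :
    Inv.extU K L (Inv.extU K' K z) = Inv.extU K' L z := by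
  obtain ⟨n, I, hn, hI⟩ := Inv.exists_denom K' (z : FractionalIdeal (𝓞 K')⁰ K')
  have h1 := extU_int (L := K) I z n hI
  have h2 := extU_int (L := L) _ _ n h1
  have h3 := extU_int (L := L) I z n hI
  have h4 : (I.map (algebraMap (𝓞 K') (𝓞 K))).map (algebraMap (𝓞 K) (𝓞 L)) =
      I.map (algebraMap (𝓞 K') (𝓞 L)) := by
    rw [Ideal.map_map]
    congr 1
    ext a
    exact (IsScalarTower.algebraMap_apply K' K L (a : K')).symm
  rw [h4] at h2
  have hn0 : FractionalIdeal.spanSingleton (𝓞 L)⁰ (n : L) ≠ 0 := by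
    rw [Ne, FractionalIdeal.spanSingleton_eq_zero_iff]
    exact_mod_cast hn
  apply Units.ext
  exact mul_left_cancel₀ hn0 (h2.trans h3.symm)

section

variable {K' K L' L : Type*} [Field K'] [NumberField K'] [Field K] [NumberField K] [Field L']
  [NumberField L'] [Field L] [NumberField L] [Algebra K' K] [Algebra K' L'] [Algebra K L]
  [Algebra L' L] [Algebra K' L] [IsScalarTower K' K L] [IsScalarTower K' L' L]

theorem sU_jE (σ : Gal(L/K)) (σ' : Gal(L'/K'))
    (hc : ∀ y : L', algebraMap L' L (σ' y) = σ (algebraMap L' L y)) (y : L'ˣ) :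
    sU σ (jE L' L y) = jE L' L (sU σ' y) := by
  apply Units.ext
  exact (hc (y : L')).symm

theorem map_nAct (σ : Gal(L/K)) (σ' : Gal(L'/K'))
    (hc : ∀ y : L', algebraMap L' L (σ' y) = σ (algebraMap L' L y)) (u : EN L' L) :
    uI L ((nAct σ σ' hc u : EN L' L) : (𝓞 L)ˣ) = sU σ (uI L (u : (𝓞 L)ˣ)) := by
  rw [sU_uI]
  rfl

theorem jE_injective (K L : Type*) [Field K] [Field L] [Algebra K L] :
    Function.Injective (jE K L) := by
  intro a b h
  apply Units.ext
  exact (algebraMap K L).injective (congrArg Units.val h)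

/-- the unit part of the step -/
theorem nz_units [IsGalois K L] [IsGalois K' L'] {p d : ℕ} (hp : p.Prime) (hodd : Odd p)
    (hpd : ¬ p ∣ d) (h1 : finrank K' K = d) (h2 : finrank K' L' = p) (h3 : finrank K L = p)
    (h4 : finrank L' L = d) (σ : Gal(L/K)) (hσ : ∀ x, x ∈ Subgroup.zpowers σ) (σ' : Gal(L'/K'))
    (hc : ∀ y : L', algebraMap L' L (σ' y) = σ (algebraMap L' L y))
    (B : Subgroup (FractionalIdeal (𝓞 L)⁰ L)ˣ) (hBφ : ∀ x ∈ B, fU σ x = x)
    (hB : ∀ x, fU σ x = x → tn (nuD L' L) d x ∈ B)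
    (hmin : ∀ b ∈ B, nuD L' L b = 1 →
      (∃ y, sU σ y = y ∧ b ^ p = toPrincipalIdeal (𝓞 L) L y) →
      ∃ y, sU σ y = y ∧ b = toPrincipalIdeal (𝓞 L) L y)
    (x : Lˣ) (hx1 : toPrincipalIdeal (𝓞 L) L x = 1)
    (hx2 : nuE L' L x = 1) (hx3 : sU σ x = x) :
    ∃ v, toPrincipalIdeal (𝓞 L) L v = 1 ∧ nuE L' L v = 1 ∧ x = ambNu (sU σ) p v := by
  have hσp : σ ^ p = 1 := Mu22.pow_eq_one_of_gen h3 σ
  set e := nAct σ σ' hc with he
  let j : EN L' L →* Lˣ := (uI L).comp (EN L' L).subtype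
  have hjinj : Function.Injective j := uI_injective.comp Subtype.val_injective
  have hje : ∀ u, j (e u) = sU σ (j u) := fun u => map_nAct σ σ' hc u
  let Fx : Subgroup (EN L' L) := eFix e
  obtain ⟨k1, k2⟩ := herb_EN hp hodd hpd h1 h2 h3 h4 σ hσ σ' hc Fx (fun x => Iff.rfl)
  have hrange : ∀ y : Lˣ, (toPrincipalIdeal (𝓞 L) L y = 1 ∧ nuE L' L y = 1) ↔
      ∃ u, j u = y := by
    intro y
    rw [principal_eq_one_iff]
    constructor
    · rintro ⟨⟨u, rfl⟩, h⟩
      refine ⟨⟨u, ?_⟩, rfl⟩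
      rw [mem_EN]
      apply jE_injective L' L
      rw [map_one]
      exact h
    · rintro ⟨u, rfl⟩
      refine ⟨⟨u.1, rfl⟩, ?_⟩
      rw [nuE_apply]
      have h5 := mem_EN.1 u.2
      change jE L' L (nE L' L (uI L u.1)) = 1
      rw [h5, map_one]
  have hjnu : ∀ u, j (ambNu e p u) = ambNu (sU σ) p (j u) := map_ambNu j e (sU σ) hje p
  have key := units_part hp hpd (toPrincipalIdeal (𝓞 L) L) (sU σ) (fU σ) (nuE L' L) (nuD L' L)
    (principal_sU σ) (principal_nuE L' L)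
    (by ext1 x; rw [sU_pow, hσp]; rfl) (by intro x; rw [nuE_nuE, h4])
    (by intro x; rw [nuD_nuD, h4])
    (by
      intro x
      rw [nuE_apply, nuE_apply, sU_jE σ σ' hc, nE_sU σ σ' hc])
    (h90_sU h3 σ hσ)
    B hBφ hB hmin ((ambNu e p).ker.map j) ((ambDelta e).range.map j) (Fx.map j)
    ((ambNu e p).range.map j)
    (by
      intro x
      rw [hrange]
      constructor
      · rintro ⟨u, hu, rfl⟩
        refine ⟨⟨u, rfl⟩, ?_⟩
        rw [← hjnu, show ambNu e p u = 1 from hu, map_one]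
      · rintro ⟨⟨u, rfl⟩, h⟩
        refine ⟨u, ?_, rfl⟩
        rw [← hjnu, ← map_one j] at h
        exact hjinj h)
    (by
      intro x
      constructor
      · rintro ⟨_, ⟨u, rfl⟩, rfl⟩
        refine ⟨j u, (hrange _).2 ⟨u, rfl⟩, ?_⟩
        rw [ambDelta_apply, map_div, hje]
      · rintro ⟨v, hv, rfl⟩
        obtain ⟨u, rfl⟩ := (hrange v).1 hv
        exact ⟨ambDelta e u, ⟨u, rfl⟩, by rw [ambDelta_apply, map_div, hje]⟩)
    (by
      intro x
      rw [hrange]
      constructor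
      · rintro ⟨u, hu, rfl⟩
        refine ⟨⟨u, rfl⟩, ?_⟩
        rw [← hje, show e u = u from hu]
      · rintro ⟨⟨u, rfl⟩, h⟩
        rw [← hje] at h
        exact ⟨u, hjinj h, rfl⟩)
    (by
      intro x
      constructor
      · rintro ⟨_, ⟨u, rfl⟩, rfl⟩
        exact ⟨j u, (hrange _).2 ⟨u, rfl⟩, hjnu u⟩
      · rintro ⟨v, hv, rfl⟩
        obtain ⟨u, rfl⟩ := (hrange v).1 hv
        exact ⟨ambNu e p u, ⟨u, rfl⟩, hjnu u⟩)
    (by
      rw [Subgroup.relIndex_map_map_of_injective _ _ hjinj,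
        Subgroup.relIndex_map_map_of_injective _ _ hjinj]
      exact k2)
    (by
      rw [Subgroup.relIndex_map_map_of_injective _ _ hjinj]
      exact k1)
  obtain ⟨u, hu⟩ := (hrange x).1 ⟨hx1, hx2⟩
  have hxF : x ∈ Fx.map j := by
    refine ⟨u, ?_, hu⟩
    apply hjinj
    show j (e u) = j u
    rw [hje, hu, hx3]
  obtain ⟨w, ⟨v, rfl⟩, hv⟩ := key hxF
  obtain ⟨h1, h2⟩ := (hrange (j v)).2 ⟨v, rfl⟩
  exact ⟨j v, h1, h2, by rw [← hv, hjnu]⟩

/-- the step -/
theorem nz_step [IsGalois K L] [IsGalois K' L'] {p d : ℕ} (hp : p.Prime) (hodd : Odd p)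
    (hpd : ¬ p ∣ d) (h1 : finrank K' K = d) (h2 : finrank K' L' = p) (h3 : finrank K L = p)
    (h4 : finrank L' L = d)
    (hram : ∀ Q : Ideal (𝓞 L), Q.IsPrime → Q ≠ ⊥ → Q.ramificationIdx (𝓞 K) ≠ 1 →
      ∀ Q1 : Ideal (𝓞 L), Q1.IsPrime → Q1.under (𝓞 L') = Q.under (𝓞 L') → Q1 = Q)
    (hK : NormTriv p K' K) : NormTriv p L' L := by
  have hcard : Nat.card Gal(L/K) = p := by rw [IsGalois.card_aut_eq_finrank, h3]
  have hpf : Fact p.Prime := ⟨hp⟩
  have hcyc : IsCyclic Gal(L/K) := isCyclic_of_prime_card hcard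
  obtain ⟨σ, hσ⟩ := hcyc
  have hσp : σ ^ p = 1 := Mu22.pow_eq_one_of_gen h3 σ
  let σ' : Gal(L'/K') := (σ.restrictScalars K' : Gal(L/K')).restrictNormal L'
  have hc : ∀ y : L', algebraMap L' L (σ' y) = σ (algebraMap L' L y) :=
    fun y => (σ.restrictScalars K' : Gal(L/K')).restrictNormal_commutes L' y
  have hpd' : Nat.Coprime p d := (Nat.Prime.coprime_iff_not_dvd hp).2 hpd
  have hφψ : ∀ x, fU σ (nuD L' L x) = nuD L' L (fU σ x) := by
    intro x
    rw [nuD_apply, nuD_apply, fU_extU' σ σ' hc, nD_fU σ σ' hc]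
  have hBφ : ∀ x ∈ (Inv.extU K L).range, fU σ x = x := by
    rintro _ ⟨u, rfl⟩
    apply Units.ext
    exact Inv.act_ext σ u
  have hB : ∀ x, fU σ x = x → tn (nuD L' L) d x ∈ (Inv.extU K L).range := by
    intro x hx
    have hth : fU σ (tn (nuD L' L) d x) = tn (nuD L' L) d x := by
      have := map_tn (fU σ : (FractionalIdeal (𝓞 L)⁰ L)ˣ →* (FractionalIdeal (𝓞 L)⁰ L)ˣ)
        (nuD L' L) (nuD L' L) hφψ d x
      refine this.trans ?_
      change tn (nuD L' L) d (fU σ x) = _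
      rw [hx]
    refine Inv.mem_range_ext hp h3 _ (fun g => congrArg Units.val (fixed_of_gen hσ hth g)) ?_
    intro v hv
    have h5 := count_nu (K := L') v (fun Q hQ hQv => hram v.asIdeal v.isPrime v.ne_bot hv Q hQ hQv) x
    rw [h4] at h5
    have h6 : x ^ d = tn (nuD L' L) d x * nuD L' L x := by rw [tn_apply, div_mul_cancel]
    have h7 := congrArg (fun y : (FractionalIdeal (𝓞 L)⁰ L)ˣ =>
      FractionalIdeal.count L v (y : FractionalIdeal (𝓞 L)⁰ L)) h6
    simp only [Units.val_pow_eq_pow_val, Units.val_mul] at h7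
    rw [FractionalIdeal.count_pow, FractionalIdeal.count_mul L v (Units.ne_zero _)
      (Units.ne_zero _), nuD_apply, h5] at h7
    have h8 : FractionalIdeal.count L v ((tn (nuD L' L) d x : (FractionalIdeal (𝓞 L)⁰ L)ˣ) :
        FractionalIdeal (𝓞 L)⁰ L) = 0 := by linarith
    rw [h8]
    exact dvd_zero _
  have hmin : ∀ b ∈ (Inv.extU K L).range, nuD L' L b = 1 →
      (∃ y, sU σ y = y ∧ b ^ p = toPrincipalIdeal (𝓞 L) L y) →
      ∃ y, sU σ y = y ∧ b = toPrincipalIdeal (𝓞 L) L y := by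
    rintro _ ⟨J, rfl⟩ hN ⟨y, hy, hyp⟩
    have h5 : nuD K' K J = 1 := by
      apply extU_injective (L := L)
      rw [map_one, ← hN, nuD_apply, nuD_apply, nD_base hpd' h1 h2 h3 h4]
      have hT : ∀ z : (FractionalIdeal (𝓞 K')⁰ K')ˣ,
          Inv.extU K L (Inv.extU K' K z) = Inv.extU L' L (Inv.extU K' L' z) := by
        intro z
        rw [extU_trans, extU_trans]
      exact hT _
    obtain ⟨z, hz⟩ : ∃ z : Kˣ, Units.map (algebraMap K L).toMonoidHom z = y := by
      have h4 : ∀ g : Gal(L/K), g (y : L) = y := by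
        intro g
        obtain ⟨n, rfl⟩ : ∃ n : ℕ, σ ^ n = g :=
          (mem_powers_iff_mem_zpowers (x := σ) (y := g)).2 (hσ g)
        have h2 : sU (σ ^ n) y = y := by
          rw [← sU_pow]
          induction n with
          | zero => rw [pow_zero]; rfl
          | succ n ih =>
            rw [pow_succ]
            change (sU σ ^ n) (sU σ y) = y
            rw [hy, ih]
        exact congrArg Units.val h2
      obtain ⟨z, hz⟩ := (IsGalois.mem_range_algebraMap_iff_fixed (y : L)).2 h4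
      have hz0 : z ≠ 0 := by
        rintro rfl
        rw [map_zero] at hz
        exact y.ne_zero hz.symm
      exact ⟨Units.mk0 z hz0, Units.ext hz⟩
    have h6 : J ^ p = toPrincipalIdeal (𝓞 K) K z := by
      apply extU_injective (L := L)
      rw [map_pow, hyp, extU_principal, hz]
    have h7 := hK J (by rw [← map_pow, h6, mk_principal]) (by
      have h8 : Inv.extU K' K (nD K' K J) = 1 := h5
      rw [h8, map_one])
    have h8 : J ∈ (toPrincipalIdeal (𝓞 K) K).range := by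
      rw [← ker_mk]; exact h7
    obtain ⟨w, rfl⟩ := h8
    refine ⟨Units.map (algebraMap K L).toMonoidHom w, ?_, extU_principal w⟩
    apply Units.ext
    exact σ.commutes (w : K)
  obtain ⟨b, hb⟩ := exists_clNu L' L
  intro x hx1 hx2
  refine minus_step hp hpd (toPrincipalIdeal (𝓞 L) L) (sU σ) (fU σ) (nuE L' L) (nuD L' L)
    (principal_sU σ) (principal_nuE L' L)
    (by ext1 x; rw [sU_pow, hσp]; rfl) (by ext1 x; rw [fU_pow, hσp, fU_one]; rfl)
    (by intro x; rw [nuE_nuE, h4])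
    (by intro x; rw [nuD_nuD, h4])
    (by
      intro x
      rw [nuE_apply, nuE_apply, sU_jE σ σ' hc, nE_sU σ σ' hc]) hφψ
    (h90_sU h3 σ hσ) (Inv.extU K L).range hBφ hB hmin
    (fun x hx1 hx2 hx3 => nz_units hp hodd hpd h1 h2 h3 h4 σ hσ σ' hc _ hBφ hB hmin x
      hx1 hx2 hx3)
    (ClassGroup (𝓞 L)) (ClassGroup.mk L) (mk_surjective L) ker_mk (clAct σ) b
    (fun x => mk_fU σ x) hb _ hx1 ?_
  rw [← hb]
  exact hx2

end

end Pool.Agent.Work.MuZ
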