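import Pool.Agent.Work.MP_a4986b_nt.YAb
import Pool.Agent.Work.MP_a4986b_nt.ZNs
import Pool.Agent.Work.MP_a4986b_nt.ZIff
import Pool.Agent.Work.MP_a4986b_nt.ZStep

set_option autoImplicit false
set_option maxHeartbeats 400000
set_option linter.unusedSectionVars false

/-! # The tower -/

namespace Pool.Agent.Work.MuZ

open NumberField Module
open scoped Pointwise nonZeroDivisors
open Pool.Agent.Work.MuI Pool.Agent.Work.MuI.Step Pool.Agent.Work.MuY

/-- the tower -/
theorem tower_norm {k F : Type} [Field k] [NumberField k] [Field F] [NumberField F] [Algebra k F]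
    {p d : ℕ} (hp : p.Prime) (hodd : Odd p) (hpd : ¬ p ∣ d) (hF : finrank k F = d)
    (hns : NonSplit p k F) (hbase : NormTriv p k F) (n : ℕ) :
    ∀ (L' L : Type) [Field L'] [NumberField L'] [Field L] [NumberField L] [Algebra k L']
      [Algebra F L] [Algebra L' L] [Algebra k L] [IsScalarTower k F L] [IsScalarTower k L' L]
      [IsAbelianGalois k L'] [IsAbelianGalois F L], finrank k L' = p ^ n →
      finrank F L = p ^ n → finrank L' L = d → Mu22.UnramOutside p F L → NormTriv p L' L := by
  induction n with
  | zero =>
    intro L' L _ _ _ _ _ _ _ _ _ _ _ _ h2 h3 h4 _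
    exact NormTriv.one hF (by simpa using h2) (by simpa using h3) h4 hbase
  | succ n ih =>
    intro L' L _ _ _ _ _ _ _ _ _ _ _ _ h2 h3 h4 hun
    have : Fact p.Prime := ⟨hp⟩
    have hgk : IsGalois k L' := IsAbelianGalois.toIsGalois
    have hgF : IsGalois F L := IsAbelianGalois.toIsGalois
    have hcard : Nat.card Gal(L/F) = p ^ (n + 1) := by
      rw [IsGalois.card_aut_eq_finrank, h3]
    obtain ⟨σ, hσ⟩ : ∃ σ : Gal(L/F), orderOf σ = p :=
      exists_prime_orderOf_dvd_card' p (by rw [hcard]; exact dvd_pow_self p (by omega))
    let K : IntermediateField F L := IntermediateField.fixedField (Subgroup.zpowers σ)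
    have hKL : finrank K L = p := by
      rw [IntermediateField.finrank_fixedField_eq_card, Nat.card_zpowers, hσ]
    have hFK : finrank F K = p ^ n := by
      have h1 := finrank_mul_finrank F K L
      rw [hKL, h3, pow_succ] at h1
      exact Nat.eq_of_mul_eq_mul_right hp.pos h1
    let s : Gal(L/k) := σ.restrictScalars k
    let σ' : Gal(L'/k) := s.restrictNormal L'
    have hc : ∀ y : L', algebraMap L' L (σ' y) = σ (algebraMap L' L y) :=
      fun y => s.restrictNormal_commutes L' y
    have hcn : ∀ (i : ℕ) (y : L'), algebraMap L' L ((σ' ^ i) y) =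
        (σ ^ i) (algebraMap L' L y) := by
      intro i
      induction i with
      | zero => intro y; rfl
      | succ i ihi =>
        intro y
        rw [pow_succ, pow_succ]
        exact (ihi (σ' y)).trans (congrArg _ (hc y))
    have hinj : Function.Injective (algebraMap L' L) := (algebraMap L' L).injective
    have hσ'p : σ' ^ p = 1 := by
      apply AlgEquiv.ext
      intro y
      apply hinj
      rw [hcn, ← hσ, pow_orderOf_eq_one]
      rfl
    have hmemK : ∀ z : L, σ z = z → z ∈ K := by
      intro z hz
      exact mem_fixed σ z hz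
    have hσ' : orderOf σ' = p := by
      rcases (Nat.dvd_prime hp).1 (orderOf_dvd_of_pow_eq_one hσ'p) with h | h
      · exfalso
        rw [orderOf_eq_one_iff] at h
        let f : L' →+* K := (algebraMap L' L).codRestrict K (fun y => by
          apply hmemK
          rw [← hc, h]
          rfl)
        let a1 : Algebra L' K := f.toAlgebra
        have t1 : IsScalarTower L' K L := IsScalarTower.of_algebraMap_eq (fun _ => rfl)
        have h5 := finrank_mul_finrank L' K L
        rw [hKL, h4] at h5
        exact hpd ⟨_, by rw [← h5, mul_comm]⟩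
      · exact h
    let K' : IntermediateField k L' := IntermediateField.fixedField (Subgroup.zpowers σ')
    have hK'L' : finrank K' L' = p := by
      rw [IntermediateField.finrank_fixedField_eq_card, Nat.card_zpowers, hσ']
    have hkK' : finrank k K' = p ^ n := by
      have h1 := finrank_mul_finrank k K' L'
      rw [hK'L', h2, pow_succ] at h1
      exact Nat.eq_of_mul_eq_mul_right hp.pos h1
    have hmemK' : ∀ z : K', σ' (z : L') = z := fun z =>
      (IntermediateField.mem_fixedField_iff _ _).1 z.2 σ' (Subgroup.mem_zpowers σ')
    let f : K' →+* K := ((algebraMap L' L).comp (algebraMap K' L')).codRestrict K (fun y => by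
      apply hmemK
      change σ (algebraMap L' L (y : L')) = algebraMap L' L (y : L')
      rw [← hc, hmemK' y])
    let a1 : Algebra K' K := f.toAlgebra
    have t1 : IsScalarTower K' K L :=
      IsScalarTower.of_algebraMap_eq (R := K') (S := K) (A := L) (fun _ => rfl)
    have t2 : IsScalarTower K' L' L :=
      IsScalarTower.of_algebraMap_eq (R := K') (S := L') (A := L) (fun _ => rfl)
    have hK'K : finrank K' K = d := by
      have e1 := finrank_mul_finrank K' L' L
      have e2 := finrank_mul_finrank K' K L
      rw [hK'L', h4] at e1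
      rw [hKL, ← e1, mul_comm p] at e2
      exact Nat.eq_of_mul_eq_mul_right hp.pos e2
    have g1 : IsGalois K L := (IsAbelianGalois.tower_top F K L).toIsGalois
    have g2 : IsGalois K' L' := (IsAbelianGalois.tower_top k K' L').toIsGalois
    have g3 : IsAbelianGalois k K' := IsAbelianGalois.tower_bot k K' L'
    have g4 : IsAbelianGalois F K := IsAbelianGalois.tower_bot F K L
    have t3 : IsScalarTower k F K := IsScalarTower.of_algebraMap_eq (fun x => by
      apply Subtype.ext
      exact IsScalarTower.algebraMap_apply k F L x)
    have t4 : IsScalarTower k K' K := IsScalarTower.of_algebraMap_eq (fun x => by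
      apply Subtype.ext
      exact IsScalarTower.algebraMap_apply k L' L x)
    refine nz_step (K' := K') (K := K) (L' := L') (L := L) hp hodd hpd hK'K hK'L' hKL h4 ?_
      (ih K' K hkK' hFK hK'K (Mu22.tw_unram_bot F K L hun))
    intro Q hQ hQ0 he Q1 hQ1 hu
    have hpQ : (p : 𝓞 L) ∈ Q := by
      by_contra hpQ
      exact he (Mu22.tw_unram_top F K L hun Q hQ hQ0 hpQ)
    refine nonSplit_up hp hpd hF h2 h4 hns Q1 Q hQ1 hQ ?_ hpQ hu
    have h5 : (p : 𝓞 L') ∈ Q1.under (𝓞 L') := by
      rw [hu, Ideal.under_def, Ideal.mem_comap, map_natCast]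
      exact hpQ
    rw [Ideal.under_def, Ideal.mem_comap, map_natCast] at h5
    exact h5

end Pool.Agent.Work.MuZ
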