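import Pool.Agent.Work.MP_a4986b_nt.YRk
import Pool.Agent.Work.MP_a4986b_nt.ZTow

set_option autoImplicit false
set_option maxHeartbeats 400000
set_option linter.unusedSectionVars false

/-! # Layers of an extension of degree prime to `p` -/

namespace Pool.Agent.Work.MuZ

open NumberField Module
open scoped Pointwise nonZeroDivisors
open Pool.Agent.Work.MuI Pool.Agent.Work.MuI.Step Pool.Agent.Work.MuY
open Pool.Agent.Work.MuB

/-- the class numbers of `F E` and `E` have the same `p`-part, and their ranks are equal -/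
theorem sup_norm {k : Type} [Field k] [NumberField k] [Algebra k ℂ] {p d n N : ℕ}
    (hp : p.Prime) (hodd : Odd p) (hpd : ¬ p ∣ d) (F E : IntermediateField k ℂ)
    [NumberField F] (hF : finrank k F = d) (hEn : finrank k E = p ^ n) (ζ : ℂ)
    (hζ : IsPrimitiveRoot ζ (p ^ N)) (hE : E ≤ IntermediateField.adjoin k {ζ})
    (hbase : NormTriv p k F) (hns : NonSplit p k F) :
    padicValNat p (Nat.card (ClassGroup (𝓞 ↥(F ⊔ E)))) =
        padicValNat p (Nat.card (ClassGroup (𝓞 E))) ∧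
      rk p (ClassGroup (𝓞 ↥(F ⊔ E))) = rk p (ClassGroup (𝓞 E)) := by
  have hn0 : p ^ N ≠ 0 := pow_ne_zero _ hp.ne_zero
  have hne : NeZero (p ^ N) := ⟨hn0⟩
  have hζint : IsIntegral k ζ := (hζ.isIntegral (Nat.pos_of_ne_zero hn0)).tower_top
  have hcyc : IsCyclotomicExtension {p ^ N} k (IntermediateField.adjoin k {ζ}) := by
    change IsCyclotomicExtension {p ^ N} k (IntermediateField.adjoin k {ζ}).toSubalgebra
    rw [IntermediateField.adjoin_simple_toSubalgebra_of_isAlgebraic hζint.isAlgebraic]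
    exact hζ.adjoin_isCyclotomicExtension k
  have hab : IsAbelianGalois k (IntermediateField.adjoin k {ζ}) :=
    IsCyclotomicExtension.isAbelianGalois {p ^ N} k _
  have habE : IsAbelianGalois k E := IsAbelianGalois.of_algHom (IntermediateField.inclusion hE)
  have hFfin : FiniteDimensional k F := Module.Finite.of_restrictScalars_finite ℚ k F
  have hdpos : 0 < d := by rw [← hF]; exact finrank_pos
  have hEfin : FiniteDimensional k E :=
    FiniteDimensional.of_finrank_pos (by rw [hEn]; exact pow_pos hp.pos _)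
  have hCfin : FiniteDimensional k (IntermediateField.adjoin k {ζ}) :=
    IntermediateField.adjoin.finiteDimensional hζint
  have hEnf : NumberField E := NumberField.of_module_finite k E
  have hΩfin : FiniteDimensional k ↥(F ⊔ E) := IntermediateField.finiteDimensional_sup F E
  have hΩnf : NumberField ↥(F ⊔ E) := NumberField.of_module_finite k _
  -- algebras
  let aF : Algebra F ↥(F ⊔ E) :=
    (IntermediateField.inclusion (le_sup_left : F ≤ F ⊔ E)).toRingHom.toAlgebra
  let aE : Algebra E ↥(F ⊔ E) :=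
    (IntermediateField.inclusion (le_sup_right : E ≤ F ⊔ E)).toRingHom.toAlgebra
  have tF : IsScalarTower k F ↥(F ⊔ E) := IsScalarTower.of_algebraMap_eq (fun _ => rfl)
  have tE : IsScalarTower k E ↥(F ⊔ E) := IsScalarTower.of_algebraMap_eq (fun _ => rfl)
  have hcop : Nat.Coprime d (p ^ n) :=
    Nat.Coprime.pow_right n ((Nat.Prime.coprime_iff_not_dvd hp).2 hpd).symm
  have hkΩ : finrank k ↥(F ⊔ E) = d * p ^ n := by
    have h1 := IntermediateField.finrank_sup_le F E
    rw [hF, hEn] at h1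
    have h2 : d ∣ finrank k ↥(F ⊔ E) := ⟨_, by rw [← finrank_mul_finrank k F ↥(F ⊔ E), hF]⟩
    have h3 : p ^ n ∣ finrank k ↥(F ⊔ E) :=
      ⟨_, by rw [← finrank_mul_finrank k E ↥(F ⊔ E), hEn]⟩
    have h4 := hcop.mul_dvd_of_dvd_of_dvd h2 h3
    exact le_antisymm h1 (Nat.le_of_dvd finrank_pos h4)
  have hFΩ : finrank F ↥(F ⊔ E) = p ^ n := by
    have h1 := finrank_mul_finrank k F ↥(F ⊔ E)
    rw [hF, hkΩ] at h1
    exact Nat.eq_of_mul_eq_mul_left hdpos h1
  have hEΩ : finrank E ↥(F ⊔ E) = d := by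
    have h1 := finrank_mul_finrank k E ↥(F ⊔ E)
    rw [hEn, hkΩ, mul_comm d] at h1
    exact Nat.eq_of_mul_eq_mul_left (pow_pos hp.pos n) h1
  -- the cyclotomic field over `F`
  have hle : F ⊔ E ≤ F ⊔ IntermediateField.adjoin k {ζ} := sup_le_sup_left hE F
  have hNfin : FiniteDimensional k ↥(F ⊔ IntermediateField.adjoin k {ζ}) :=
    IntermediateField.finiteDimensional_sup F _
  have hNnf : NumberField ↥(F ⊔ IntermediateField.adjoin k {ζ}) :=
    NumberField.of_module_finite k _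
  let a1 : Algebra ↥(F ⊔ E) ↥(F ⊔ IntermediateField.adjoin k {ζ}) :=
    (IntermediateField.inclusion hle).toRingHom.toAlgebra
  let a2 : Algebra F ↥(F ⊔ IntermediateField.adjoin k {ζ}) :=
    (IntermediateField.inclusion
      (le_sup_left : F ≤ F ⊔ IntermediateField.adjoin k {ζ})).toRingHom.toAlgebra
  have hst : IsScalarTower F ↥(F ⊔ E) ↥(F ⊔ IntermediateField.adjoin k {ζ}) :=
    IsScalarTower.of_algebraMap_eq (fun _ => rfl)
  have hζN : ζ ∈ F ⊔ IntermediateField.adjoin k {ζ} :=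
    (le_sup_right : IntermediateField.adjoin k {ζ} ≤ _)
      (IntermediateField.mem_adjoin_simple_self k ζ)
  have hgen : Algebra.adjoin F {(⟨ζ, hζN⟩ : ↥(F ⊔ IntermediateField.adjoin k {ζ}))} = ⊤ := by
    refine Mu22.cy_gen F (F ⊔ IntermediateField.adjoin k {ζ}) ?_ ζ hζint rfl hζN
    intro y hy
    exact ⟨⟨y, hy⟩, rfl⟩
  have hζ' : IsPrimitiveRoot (⟨ζ, hζN⟩ : ↥(F ⊔ IntermediateField.adjoin k {ζ})) (p ^ N) :=
    IsPrimitiveRoot.of_map_of_injective
      (f := (F ⊔ IntermediateField.adjoin k {ζ}).val) hζ Subtype.val_injective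
  have hcycF : IsCyclotomicExtension {p ^ N} F ↥(F ⊔ IntermediateField.adjoin k {ζ}) := by
    have h1 := hζ'.adjoin_isCyclotomicExtension F
    exact IsCyclotomicExtension.equiv {p ^ N} F _
      ((Subalgebra.equivOfEq _ _ hgen).trans Subalgebra.topEquiv)
  have habN : IsAbelianGalois F ↥(F ⊔ IntermediateField.adjoin k {ζ}) :=
    IsCyclotomicExtension.isAbelianGalois {p ^ N} F _
  have habΩ : IsAbelianGalois F ↥(F ⊔ E) :=
    IsAbelianGalois.of_algHom (IsScalarTower.toAlgHom F ↥(F ⊔ E)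
      ↥(F ⊔ IntermediateField.adjoin k {ζ}))
  -- ramification
  have hun : Mu22.UnramOutside p F ↥(F ⊔ E) := by
    refine Mu22.tw_unram_bot F ↥(F ⊔ E) ↥(F ⊔ IntermediateField.adjoin k {ζ}) ?_
    intro Q hQ hQ0 hpQ
    have hint : IsIntegral ℤ (⟨ζ, hζN⟩ : ↥(F ⊔ IntermediateField.adjoin k {ζ})) := by
      refine IsIntegral.of_pow (Nat.pos_of_ne_zero hn0) ?_
      have : (⟨ζ, hζN⟩ : ↥(F ⊔ IntermediateField.adjoin k {ζ})) ^ (p ^ N) = 1 :=
        Subtype.ext hζ.pow_eq_one
      rw [this]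
      exact isIntegral_one
    refine Mu22.cy_unram (p ^ N) hn0
      (⟨⟨ζ, hζN⟩, hint⟩ : 𝓞 ↥(F ⊔ IntermediateField.adjoin k {ζ})) ?_ hgen Q hQ ?_
    · apply RingOfIntegers.ext
      exact Subtype.ext hζ.pow_eq_one
    · intro h
      apply hpQ
      rw [Nat.cast_pow] at h
      exact hQ.mem_of_pow_mem _ h
  have key : NormTriv p E ↥(F ⊔ E) :=
    tower_norm hp hodd hpd hF hns hbase n E ↥(F ⊔ E) hEn hFΩ hEΩ hun
  have hpE : ¬ p ∣ finrank E ↥(F ⊔ E) := by rw [hEΩ]; exact hpd
  have hc := (normTriv_iff hp E ↥(F ⊔ E) hpE).1 key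
  refine ⟨hc, ?_⟩
  obtain ⟨Nm, h1, -, -⟩ := exists_clNorm E ↥(F ⊔ E)
  exact rk_eq_of_padic hp Nm (ClassGroup.extendedHom _ _) _ hpE h1 hc

/-- the layers -/
theorem layers_norm {p : ℕ} (hp : p.Prime) (hp2 : p ≠ 2) {k F : Type} [Field k] [NumberField k]
    [Field F] [NumberField F] [Algebra k F] (hpn : ¬ p ∣ finrank k F) (hns : NonSplit p k F)
    (hbase : padicValNat p (Nat.card (ClassGroup (𝓞 F))) =
      padicValNat p (Nat.card (ClassGroup (𝓞 k)))) (φ : F →+* ℂ) (m : ℕ)
    (E : IntermediateField ℚ ℂ) (hE : LayerAt p m E) :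
    padicValNat p (Nat.card (ClassGroup (𝓞 ↥(im φ ⊔ E)))) =
        padicValNat p (Nat.card (ClassGroup (𝓞 ↥(im (φ.comp (algebraMap k F)) ⊔ E)))) ∧
      rk p (ClassGroup (𝓞 ↥(im φ ⊔ E))) =
        rk p (ClassGroup (𝓞 ↥(im (φ.comp (algebraMap k F)) ⊔ E))) := by
  set ψ : k →+* ℂ := φ.comp (algebraMap k F) with hψ
  let aK : Algebra k ℂ := ψ.toAlgebra
  let φ' : F →ₐ[k] ℂ := { φ with commutes' := fun _ => rfl }
  set X : IntermediateField k ℂ := φ'.fieldRange with hX
  let e : F ≃ₐ[k] X := AlgEquiv.ofInjectiveField φ'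
  have hXnf : NumberField X := NumberField.of_ringEquiv _ _ e.toRingEquiv
  have hXd : finrank k X = finrank k F := e.toLinearEquiv.finrank_eq.symm
  have hmemX : ∀ x, x ∈ X ↔ x ∈ im φ := fun x => Iff.rfl
  have hpX : ¬ p ∣ finrank k X := by rw [hXd]; exact hpn
  have hbX : NormTriv p k X := by
    rw [normTriv_iff hp k X hpX, ← card_cl_eq e.toRingEquiv]
    exact hbase
  -- the base field inside `ℂ`
  set K : IntermediateField ℚ ℂ := im ψ with hK
  let eK : k ≃+* K := (AlgEquiv.ofInjectiveField ψ.toRatAlgHom).toRingEquiv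
  have heK : ∀ x, ((eK x : K) : ℂ) = ψ x := fun x => rfl
  have hKnf : NumberField K := NumberField.of_ringEquiv _ _ eK
  have hn0 : p ^ (m + 1) ≠ 0 := pow_ne_zero _ hp.ne_zero
  obtain ⟨ζ, hζ⟩ : ∃ ζ : ℂ, IsPrimitiveRoot ζ (p ^ (m + 1)) :=
    ⟨_, Complex.isPrimitiveRoot_exp _ hn0⟩
  obtain ⟨⟨n, hn⟩, hle⟩ := finrank_layer K E hp hE.1 hE.2 ζ hζ
  -- the layer over `k`
  let EK : IntermediateField k ℂ := (K ⊔ E).toSubfield.toIntermediateField (fun x =>
    (le_sup_left : K ≤ K ⊔ E) (⟨x, rfl⟩ : ψ x ∈ K))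
  have hmemE : ∀ x, x ∈ EK ↔ x ∈ K ⊔ E := fun x => Iff.rfl
  have hEKd : finrank k EK = p ^ n := by
    rw [← hn]
    refine Algebra.finrank_eq_of_equiv_equiv eK
      ({ toFun := fun x => ⟨x.1, x.2⟩
         invFun := fun x => ⟨x.1, x.2⟩
         left_inv := fun _ => rfl
         right_inv := fun _ => rfl
         map_mul' := fun _ _ => rfl
         map_add' := fun _ _ => rfl } :
        EK ≃+* IntermediateField.extendScalars (le_sup_left : K ≤ K ⊔ E)) ?_
    ext x
    rfl
  have hEKle : EK ≤ IntermediateField.adjoin k {ζ} := by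
    intro x hx
    have h1 : x ∈ IntermediateField.adjoin K {ζ} := hle hx
    have h2 : IntermediateField.adjoin K {ζ} ≤
        (IntermediateField.adjoin k {ζ}).toSubfield.toIntermediateField (fun y => by
          obtain ⟨z, hz⟩ := y.2
          have h3 : algebraMap K ℂ y = algebraMap k ℂ z := hz.symm
          rw [h3]
          exact (IntermediateField.adjoin k {ζ}).algebraMap_mem z) := by
      rw [IntermediateField.adjoin_le_iff]
      rintro y rfl
      exact IntermediateField.mem_adjoin_simple_self k y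
    exact h2 h1
  obtain ⟨key1, key2⟩ := sup_norm hp (hp.odd_of_ne_two hp2) hpX X EK rfl hEKd ζ hζ hEKle hbX
    (transport_ns e hns)
  have hsup : ∀ x, x ∈ X ⊔ EK ↔ x ∈ im φ ⊔ E := by
    have hkF : K ≤ im φ := by
      rintro x ⟨y, rfl⟩
      exact ⟨algebraMap k F y, rfl⟩
    intro x
    constructor
    · have h1 : X ⊔ EK ≤ (im φ ⊔ E).toSubfield.toIntermediateField (fun y =>
          (le_sup_left : im φ ≤ im φ ⊔ E) (hkF ⟨y, rfl⟩)) := by
        refine sup_le ?_ ?_
        · intro y hy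
          exact (le_sup_left : im φ ≤ im φ ⊔ E) hy
        · intro y hy
          exact (sup_le (hkF.trans le_sup_left) le_sup_right : K ⊔ E ≤ im φ ⊔ E) hy
      exact fun h => h1 h
    · have h1 : im φ ⊔ E ≤ (X ⊔ EK).toSubfield.toIntermediateField (fun y => by
          exact SubfieldClass.ratCast_mem (X ⊔ EK).toSubfield y) := by
        refine sup_le ?_ ?_
        · intro y hy
          exact (le_sup_left : X ≤ X ⊔ EK) hy
        · intro y hy
          have h2 : y ∈ EK := (le_sup_right : E ≤ K ⊔ E) hy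
          exact (le_sup_right : EK ≤ X ⊔ EK) h2
      exact fun h => h1 h
  constructor
  · rw [card_cl_eq (sameElts _ _ hsup), card_cl_eq (sameElts EK (K ⊔ E) hmemE)] at key1
    exact key1
  · rw [← rk_congr (ClassGroup.mulEquiv (RingOfIntegers.mapRingEquiv (sameElts _ _ hsup))),
      ← rk_congr (ClassGroup.mulEquiv (RingOfIntegers.mapRingEquiv
        (sameElts EK (K ⊔ E) hmemE)))]
    exact key2

end Pool.Agent.Work.MuZ
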