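import Pool.Agent.Work.MP_a4986b_nt.YDisc
import Pool.Agent.Work.MP_a4986b_nt.ZLay
import Pool.Agent.Work.MP_a4986b_nt.ZGcl
import Pool.Agent.Work.MP_a4986b_nt.ZGal

set_option autoImplicit false
set_option maxHeartbeats 400000
set_option linter.unusedSectionVars false

/-! # Non-split extensions of degree prime to `p`: the conclusions -/

namespace Pool.Agent.Work.MuZ

open NumberField Module IntermediateField
open Pool.Agent.Work.MuI Pool.Agent.Work.MuB Pool.Agent.Work.MuY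

/-- the criterion: only the class numbers of `F` and `k` matter -/
theorem rel_iff {p : ℕ} (hp : p.Prime) (hp2 : p ≠ 2) (k F : Type) [Field k] [NumberField k]
    [Field F] [NumberField F] [Algebra k F] (hpn : ¬ p ∣ finrank k F) (hns : NonSplit p k F) :
    RelExtensions p k F ↔ padicValNat p (Nat.card (ClassGroup (𝓞 F))) =
      padicValNat p (Nat.card (ClassGroup (𝓞 k))) := by
  refine ⟨padic_of_rel, fun h => ?_⟩
  have h1 := layers_norm hp hp2 hpn hns h
  refine ⟨fun φ m E hE => (h1 φ m E hE).1,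
    fun hr L _ _ _ n hn L' hL' hcop => mu_of_rank hp hp2 ?_ L n hn L' hL' hcop⟩
  intro φ
  obtain ⟨r, hr'⟩ := hr (φ.comp (algebraMap k F))
  refine ⟨r, fun m E hE => ?_⟩
  rw [(h1 φ m E hE).2]
  exact hr' m E hE

/-- `|D_F| ≤ c p ^ (2 f) (1 + log p) ^ (2 (r(F) - ρ - n + 1))`, where `n` is the degree of `F / k`,
`r` is the unit rank, and `ρ ≤ r(F)` is at least the unit rank of every proper intermediate
field -/
def DiscrAt (c : ℝ) (f p : ℕ) (k F : Type) [Field k] [NumberField k] [Field F] [NumberField F]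
    [Algebra k F] : Prop :=
  ∃ ρ : ℕ, ρ ≤ Units.rank F ∧ (∀ F' : IntermediateField k F, F' ≠ ⊤ → Units.rank F' ≤ ρ) ∧
    |(discr F : ℝ)| ≤ c * (p : ℝ) ^ (2 * f) *
      (1 + Real.log p) ^ (2 * ((Units.rank F : ℤ) - ρ - finrank k F + 1))

theorem DiscrAt.mono {c c' : ℝ} (hcc : c ≤ c') {f p : ℕ} (hp : p.Prime) {k F : Type} [Field k]
    [NumberField k] [Field F] [NumberField F] [Algebra k F] (h : DiscrAt c f p k F) :
    DiscrAt c' f p k F := by
  obtain ⟨ρ, h1, h2, h3⟩ := h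
  refine ⟨ρ, h1, h2, h3.trans ?_⟩
  have hp1 : (1 : ℝ) ≤ p := by exact_mod_cast hp.one_lt.le
  have hlp : 0 ≤ Real.log p := Real.log_nonneg hp1
  have hx0 : 0 < (1 + Real.log p) := by linarith
  have := (zpow_pos hx0 (2 * ((Units.rank F : ℤ) - ρ - finrank k F + 1))).le
  gcongr

/-- a small discriminant: small class numbers, and `p` is larger than the degree -/
theorem discrAt_bounds (k : Type) [Field k] [NumberField k] (n : ℕ) (hn : 0 < n) :
    ∃ c : ℝ, 0 < c ∧ ∀ (F : Type) [Field F] [NumberField F] [Algebra k F] (p f : ℕ), p.Prime →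
      f ≤ n → finrank k F = n → DiscrAt c f p k F →
      n < p ∧ (1 ≤ f → Nat.card (ClassGroup (𝓞 F)) < p ^ f ∧
        Nat.card (ClassGroup (𝓞 k)) < p) := by
  obtain ⟨c0, hc0, h0⟩ := class_lt_gen k n
  set m0 : ℕ := n * (Units.rank k + 1) with hm0
  have hn1 : (1 : ℝ) ≤ n := by exact_mod_cast hn
  have hln : 0 ≤ Real.log n := Real.log_nonneg hn1
  set B : ℝ := (n : ℝ) ^ (2 * n) * (1 + Real.log n) ^ (2 * m0) with hB
  have hB1 : 0 < B := by positivity
  refine ⟨min c0 (1 / (2 * B)), lt_min hc0 (by positivity), fun F _ _ _ p f hp hfn hF hD => ?_⟩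
  refine ⟨?_, fun hf => ?_⟩
  · by_contra hle
    rw [not_lt] at hle
    obtain ⟨ρ, h1, h2, h3⟩ := DiscrAt.mono (min_le_right _ _) hp hD
    have hp1 : (1 : ℝ) ≤ p := by exact_mod_cast hp.one_lt.le
    have hlp : 0 ≤ Real.log p := Real.log_nonneg hp1
    have hpn : (p : ℝ) ≤ n := by exact_mod_cast hle
    have hx1 : (1 : ℝ) ≤ 1 + Real.log p := by linarith
    obtain ⟨hr1, hr2⟩ := rank_bounds_gen k n F hF
    have he : 2 * ((Units.rank F : ℤ) - ρ - finrank k F + 1) ≤ ((2 * m0 : ℕ) : ℤ) := by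
      have e1 : (Units.rank F : ℤ) + 1 ≤ ((n * (Units.rank k + 1) : ℕ) : ℤ) := by exact_mod_cast hr2
      rw [hF, hm0]
      push_cast at e1 ⊢
      have e2 : (1 : ℤ) ≤ n := by exact_mod_cast hn
      have e3 : (0 : ℤ) ≤ ρ := Int.natCast_nonneg ρ
      linarith
    have h4 : (1 + Real.log p) ^ (2 * ((Units.rank F : ℤ) - ρ - finrank k F + 1)) ≤
        (1 + Real.log n) ^ (2 * m0) := by
      calc _ ≤ (1 + Real.log p) ^ (((2 * m0 : ℕ)) : ℤ) := zpow_le_zpow_right₀ hx1 he
        _ = (1 + Real.log p) ^ (2 * m0) := zpow_natCast _ _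
        _ ≤ _ := pow_le_pow_left₀ (by linarith) (by
            have := Real.log_le_log (by linarith : (0 : ℝ) < p) hpn
            linarith) _
    have h5 : (p : ℝ) ^ (2 * f) ≤ (n : ℝ) ^ (2 * n) :=
      calc (p : ℝ) ^ (2 * f) ≤ (p : ℝ) ^ (2 * n) := pow_le_pow_right₀ hp1 (by omega)
        _ ≤ _ := pow_le_pow_left₀ (by linarith) hpn _
    have h6 : |(discr F : ℝ)| ≤ 1 / 2 :=
      calc |(discr F : ℝ)| ≤ 1 / (2 * B) * (p : ℝ) ^ (2 * f) *
            (1 + Real.log p) ^ (2 * ((Units.rank F : ℤ) - ρ - finrank k F + 1)) := h3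
        _ ≤ 1 / (2 * B) * (n : ℝ) ^ (2 * n) * (1 + Real.log n) ^ (2 * m0) := by
          have hz : 0 ≤ (1 + Real.log p) ^
              (2 * ((Units.rank F : ℤ) - ρ - finrank k F + 1)) :=
            (zpow_pos (by linarith) _).le
          gcongr
        _ = 1 / 2 := by
          rw [mul_assoc, ← hB]
          field_simp
    have h7 := one_le_abs_discr F
    linarith
  · obtain ⟨ρ, h1, h2, h3⟩ := DiscrAt.mono (min_le_left _ _) hp hD
    rw [hF] at h3
    exact h0 F ρ p f hp hf hfn hF h2 h1 h3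

/-- any degree -/
theorem any_degree (k : Type) [Field k] [NumberField k] (n : ℕ) :
    ∃ c : ℝ, 0 < c ∧ ∀ (F : Type) [Field F] [NumberField F] [Algebra k F] (p : ℕ), p.Prime →
      p ≠ 2 → finrank k F = n → DiscrAt c 1 p k F →
      ∀ (k' : Type) [Field k'] [NumberField k'] [Algebra k k'] [Algebra k' F]
        [IsScalarTower k k' F], NonSplit p k' F → RelExtensions p k' F := by
  by_cases hn : 0 < n
  swap
  · refine ⟨1, one_pos, fun F _ _ _ p _ _ hF => ?_⟩
    have : 0 < finrank k F := finrank_pos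
    omega
  obtain ⟨c, hc, h⟩ := discrAt_bounds k n hn
  refine ⟨c, hc, fun F _ _ _ p hp hp2 hF hD k' _ _ _ _ _ hns => ?_⟩
  have hpf : Fact p.Prime := ⟨hp⟩
  obtain ⟨h1, h2⟩ := h F p 1 hp hn hF hD
  obtain ⟨h3, h4⟩ := h2 le_rfl
  rw [pow_one] at h3
  have hpn : ¬ p ∣ finrank k' F := by
    intro hd
    have h5 : finrank k' F ∣ n := ⟨finrank k k', by rw [← hF, ← finrank_mul_finrank k k' F, mul_comm]⟩
    have h6 := Nat.le_of_dvd hn (hd.trans h5)
    omega
  rw [rel_iff hp hp2 k' F hpn hns]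
  have h5 : padicValNat p (Nat.card (ClassGroup (𝓞 F))) = 0 := by
    apply padicValNat.eq_zero_of_not_dvd
    intro hd
    exact absurd (Nat.le_of_dvd Nat.card_pos hd) (not_le.2 h3)
  obtain ⟨N, f1, -, -⟩ := exists_clNorm k' F
  have h6 := card_ext_mul hp hpn N (ClassGroup.extendedHom (𝓞 k') (𝓞 F)) f1
  omega

/-- solvable extensions of prime degree -/
theorem solvable_degree (k : Type) [Field k] [NumberField k] (q : ℕ) (hq : q.Prime) :
    ∃ c : ℝ, 0 < c ∧ ∀ (F N : Type) [Field F] [NumberField F] [Field N] [NumberField N]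
      [Algebra k F] [Algebra F N] [Algebra k N] [IsScalarTower k F N] [IsGalois k N]
      [IsNormalClosure k F N], Group.IsSolvable Gal(N/k) → ∀ p : ℕ, p.Prime → p ≠ 2 →
      finrank k F = q → NonSplit p k F →
      DiscrAt c (orderOf ((p : ZMod q) ^ finrank F N)) p k F → RelExtensions p k F := by
  obtain ⟨c, hc, h⟩ := discrAt_bounds k q hq.pos
  refine ⟨c, hc, fun F N _ _ _ _ _ _ _ _ _ _ hs p hp hp2 hF hns hD => ?_⟩
  have hqf : Fact q.Prime := ⟨hq⟩
  have hpf : Fact p.Prime := ⟨hp⟩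
  obtain ⟨A, hAn, hA, hm⟩ := solvable_prime (F := F) hq hF hs
  set m := finrank F N with hmdef
  have hmpos : 0 < m := finrank_pos
  have hmq : m ≤ q - 1 := Nat.le_of_dvd (by have := hq.two_le; omega) hm
  have hqm : ¬ q ∣ m := by
    intro hd
    have := Nat.le_of_dvd hmpos hd
    have := hq.two_le
    omega
  -- the order is at most `q`
  have hfq : orderOf ((p : ZMod q) ^ m) ≤ q := by
    by_cases h0 : (p : ZMod q) = 0
    · rw [h0, zero_pow hmpos.ne', orderOf_eq_zero (fun hfin => ?_)]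
      · omega
      · rw [isOfFinOrder_iff_pow_eq_one] at hfin
        obtain ⟨i, hi, h1⟩ := hfin
        rw [zero_pow hi.ne'] at h1
        exact zero_ne_one h1
    · have h1 : ((p : ZMod q) ^ m) ^ (q - 1) = 1 := by
        rw [← pow_mul, mul_comm, pow_mul, ZMod.pow_card_sub_one_eq_one h0, one_pow]
      have h2 := Nat.le_of_dvd (by have := hq.two_le; omega) (orderOf_dvd_of_pow_eq_one h1)
      omega
  obtain ⟨h1, h2⟩ := h F p _ hp hfq hF hD
  have hpq : p ≠ q := by omega
  have h0 : (p : ZMod q) ≠ 0 := by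
    intro h0
    rw [ZMod.natCast_eq_zero_iff] at h0
    exact hpq ((Nat.prime_dvd_prime_iff_eq hq hp).1 h0).symm
  have hf1 : 1 ≤ orderOf ((p : ZMod q) ^ m) := by
    have hfin : IsOfFinOrder ((p : ZMod q) ^ m) := by
      rw [isOfFinOrder_iff_pow_eq_one]
      refine ⟨q - 1, by have := hq.two_le; omega, ?_⟩
      rw [← pow_mul, mul_comm, pow_mul, ZMod.pow_card_sub_one_eq_one h0, one_pow]
    exact hfin.orderOf_pos
  obtain ⟨h3, -⟩ := h2 hf1
  have hkN : finrank k N = q * m := by rw [← finrank_mul_finrank k F N, hF]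
  have hpN : ¬ p ∣ finrank k N := by
    rw [hkN]
    intro hd
    rcases (Nat.Prime.dvd_mul hp).1 hd with h5 | h5
    · exact hpq ((Nat.prime_dvd_prime_iff_eq hp hq).1 h5)
    · have := Nat.le_of_dvd hmpos h5
      omega
  have hpF : ¬ p ∣ finrank k F := by
    rw [hF]
    intro h5
    exact hpq ((Nat.prime_dvd_prime_iff_eq hp hq).1 h5)
  rw [rel_iff hp hp2 k F hpF hns]
  refine gap_field hp hq hpq (N := N) hF A hAn hA hqm hpN ?_
  rw [← hmdef]
  have h6 : padicValNat p (Nat.card (ClassGroup (𝓞 F))) < orderOf ((p : ZMod q) ^ m) := by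
    by_contra hle
    rw [not_lt] at hle
    have h7 := (padicValNat_dvd_iff_le (p := p) (a := Nat.card (ClassGroup (𝓞 F)))
      Nat.card_pos.ne').2 hle
    exact absurd (Nat.le_of_dvd Nat.card_pos h7) (not_le.2 h3)
  omega

end Pool.Agent.Work.MuZ
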