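import Pool.Agent.Work.MP_a4986b_nt.YIdeal
import Pool.Agent.Work.MP_a4986b_nt.ZAbs

set_option autoImplicit false
set_option maxHeartbeats 400000
set_option linter.unusedSectionVars false

/-! # Norms of elements and of fractional ideals -/

namespace Pool.Agent.Work.MuZ

open NumberField Module IsDedekindDomain
open scoped Pointwise nonZeroDivisors
open Pool.Agent.Work.MuI Pool.Agent.Work.MuI.Step Pool.Agent.Work.MuY

attribute [local instance] Units.mulDistribMulActionRight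

/-- the norm of a nonzero element -/
noncomputable def nE (K L : Type*) [Field K] [Field L] [Algebra K L] : Lˣ →* Kˣ :=
  Units.map (Algebra.norm K : L →* K)

/-- extension of nonzero elements -/
noncomputable def jE (K L : Type*) [Field K] [Field L] [Algebra K L] : Kˣ →* Lˣ :=
  Units.map (algebraMap K L).toMonoidHom

section

variable (K L : Type*) [Field K] [NumberField K] [Field L] [NumberField L] [Algebra K L]

theorem nE_jE (x : Kˣ) : nE K L (jE K L x) = x ^ finrank K L := by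
  apply Units.ext
  rw [Units.val_pow_eq_pow_val]
  exact Algebra.norm_algebraMap (x : K)

/-- the norm of nonzero integral ideals, with values in the fractional ideals -/
noncomputable def nI : (Ideal (𝓞 L))⁰ →* (FractionalIdeal (𝓞 K)⁰ K)ˣ where
  toFun I := FractionalIdeal.mk0 K ⟨Ideal.relNorm (𝓞 K) (I : Ideal (𝓞 L)), by
    rw [mem_nonZeroDivisors_iff_ne_zero, Ideal.zero_eq_bot, Ne, Ideal.relNorm_eq_bot_iff]
    exact mem_nonZeroDivisors_iff_ne_zero.mp I.2⟩
  map_one' := by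
    apply Units.ext
    rw [FractionalIdeal.coe_mk0, Units.val_one]
    simp
  map_mul' I J := by
    apply Units.ext
    rw [Units.val_mul, FractionalIdeal.coe_mk0, FractionalIdeal.coe_mk0, FractionalIdeal.coe_mk0,
      ← FractionalIdeal.coeIdeal_mul]
    congr 1
    exact map_mul (Ideal.relNorm (𝓞 K)) (I : Ideal (𝓞 L)) J

theorem nI_coe (I : (Ideal (𝓞 L))⁰) : ((nI K L I : (FractionalIdeal (𝓞 K)⁰ K)ˣ) :
      FractionalIdeal (𝓞 K)⁰ K) =
      ((Ideal.relNorm (𝓞 K) (I : Ideal (𝓞 L)) : Ideal (𝓞 K)) : FractionalIdeal (𝓞 K)⁰ K) := rfl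

theorem mk0_inj : Function.Injective (FractionalIdeal.mk0 L : (Ideal (𝓞 L))⁰ →* _) := by
  intro I J h
  have h1 := congrArg (Units.val) h
  rw [FractionalIdeal.coe_mk0, FractionalIdeal.coe_mk0] at h1
  exact Subtype.ext (FractionalIdeal.coeIdeal_injective h1)

/-- every fractional ideal is a quotient of integral ones -/
theorem exists_frac (u : (FractionalIdeal (𝓞 L)⁰ L)ˣ) : ∃ q : (Ideal (𝓞 L))⁰ × (Ideal (𝓞 L))⁰,
    u * FractionalIdeal.mk0 L q.2 = FractionalIdeal.mk0 L q.1 := by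
  obtain ⟨n, I, hn, hI⟩ := Inv.exists_denom L (u : FractionalIdeal (𝓞 L)⁰ L)
  have hn0 : FractionalIdeal.spanSingleton (𝓞 L)⁰ (n : L) ≠ 0 := by
    rw [Ne, FractionalIdeal.spanSingleton_eq_zero_iff]
    exact_mod_cast hn
  have hI0 : I ≠ ⊥ := by
    rintro rfl
    rw [FractionalIdeal.coeIdeal_bot] at hI
    exact mul_ne_zero hn0 u.ne_zero hI
  have hJ0 : Ideal.span {(n : 𝓞 L)} ≠ ⊥ := by
    rw [Ne, Ideal.span_singleton_eq_bot]
    exact_mod_cast hn
  refine ⟨(⟨I, mem_nonZeroDivisors_iff_ne_zero.mpr hI0⟩,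
    ⟨Ideal.span {(n : 𝓞 L)}, mem_nonZeroDivisors_iff_ne_zero.mpr hJ0⟩), ?_⟩
  apply Units.ext
  rw [Units.val_mul, FractionalIdeal.coe_mk0, FractionalIdeal.coe_mk0, ← hI,
    FractionalIdeal.coeIdeal_span_singleton, map_natCast, mul_comm]

/-- the norm of a fractional ideal, by a chosen fraction -/
noncomputable def nF (u : (FractionalIdeal (𝓞 L)⁰ L)ˣ) : (FractionalIdeal (𝓞 K)⁰ K)ˣ :=
  nI K L (exists_frac L u).choose.1 * (nI K L (exists_frac L u).choose.2)⁻¹

theorem nF_eq (u : (FractionalIdeal (𝓞 L)⁰ L)ˣ) (I J : (Ideal (𝓞 L))⁰)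
    (h : u * FractionalIdeal.mk0 L J = FractionalIdeal.mk0 L I) :
    nF K L u = nI K L I * (nI K L J)⁻¹ := by
  have h0 := (exists_frac L u).choose_spec
  set q := (exists_frac L u).choose with hq
  have h1 : FractionalIdeal.mk0 L (q.1 * J) = FractionalIdeal.mk0 L (I * q.2) := by
    rw [map_mul, map_mul, ← h, ← h0]
    exact mul_right_comm _ _ _
  have h2 := congrArg (nI K L) (mk0_inj L h1)
  rw [map_mul, map_mul] at h2
  rw [nF, ← hq, mul_inv_eq_iff_eq_mul, mul_right_comm, ← h2, mul_inv_cancel_right]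

/-- the norm of fractional ideals -/
theorem exists_nD : ∃ N : (FractionalIdeal (𝓞 L)⁰ L)ˣ →* (FractionalIdeal (𝓞 K)⁰ K)ˣ,
    ∀ (I : (Ideal (𝓞 L))⁰), ((N (FractionalIdeal.mk0 L I) : (FractionalIdeal (𝓞 K)⁰ K)ˣ) :
      FractionalIdeal (𝓞 K)⁰ K) =
      ((Ideal.relNorm (𝓞 K) (I : Ideal (𝓞 L)) : Ideal (𝓞 K)) : FractionalIdeal (𝓞 K)⁰ K) := by
  refine ⟨⟨⟨nF K L, ?_⟩, ?_⟩, ?_⟩
  · rw [nF_eq K L 1 1 1 (by rw [one_mul]), mul_inv_cancel]
  · intro u v
    obtain ⟨⟨I, J⟩, h1⟩ := exists_frac L u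
    obtain ⟨⟨I', J'⟩, h2⟩ := exists_frac L v
    dsimp only at h1 h2
    change nF K L (u * v) = nF K L u * nF K L v
    rw [nF_eq K L u I J h1, nF_eq K L v I' J' h2, nF_eq K L (u * v) (I * I') (J * J')
      (by rw [map_mul, map_mul, ← h1, ← h2, mul_mul_mul_comm]), map_mul, map_mul, mul_inv,
      mul_mul_mul_comm]
  · intro I
    change ((nF K L (FractionalIdeal.mk0 L I) : (FractionalIdeal (𝓞 K)⁰ K)ˣ) :
      FractionalIdeal (𝓞 K)⁰ K) = _
    rw [nF_eq K L _ I 1 (by rw [map_one, mul_one]), map_one, inv_one, mul_one]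
    rfl

/-- the norm of fractional ideals -/
noncomputable def nD : (FractionalIdeal (𝓞 L)⁰ L)ˣ →* (FractionalIdeal (𝓞 K)⁰ K)ˣ :=
  (exists_nD K L).choose

theorem nD_mk0 (I : (Ideal (𝓞 L))⁰) :
    ((nD K L (FractionalIdeal.mk0 L I) : (FractionalIdeal (𝓞 K)⁰ K)ˣ) :
      FractionalIdeal (𝓞 K)⁰ K) =
      ((Ideal.relNorm (𝓞 K) (I : Ideal (𝓞 L)) : Ideal (𝓞 K)) : FractionalIdeal (𝓞 K)⁰ K) :=
  (exists_nD K L).choose_spec I

theorem nD_of_int (a : 𝓞 L) (x : Lˣ) (hx : (x : L) = algebraMap (𝓞 L) L a) :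
    nD K L (toPrincipalIdeal (𝓞 L) L x) = toPrincipalIdeal (𝓞 K) K (nE K L x) := by
  have ha : Ideal.span {a} ≠ ⊥ := by
    rw [Ne, Ideal.span_singleton_eq_bot]
    rintro rfl
    rw [map_zero] at hx
    exact x.ne_zero hx
  have h1 : toPrincipalIdeal (𝓞 L) L x =
      FractionalIdeal.mk0 L ⟨Ideal.span {a}, mem_nonZeroDivisors_iff_ne_zero.mpr ha⟩ := by
    apply Units.ext
    rw [coe_toPrincipalIdeal, FractionalIdeal.coe_mk0, FractionalIdeal.coeIdeal_span_singleton, hx]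
  apply Units.ext
  rw [h1, nD_mk0, coe_toPrincipalIdeal, Ideal.relNorm_singleton,
    FractionalIdeal.coeIdeal_span_singleton, Algebra.algebraMap_intNorm (L := L), ← hx]
  rfl

theorem nD_principal (x : Lˣ) : nD K L (toPrincipalIdeal (𝓞 L) L x) =
    toPrincipalIdeal (𝓞 K) K (nE K L x) := by
  obtain ⟨a, b, hb, hab⟩ := IsFractionRing.div_surjective (A := 𝓞 L) (x : L)
  have hb0 : algebraMap (𝓞 L) L b ≠ 0 := by
    rw [Ne, FaithfulSMul.algebraMap_eq_zero_iff]
    exact nonZeroDivisors.ne_zero hb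
  have ha0 : algebraMap (𝓞 L) L a ≠ 0 := by
    intro h
    rw [h, zero_div] at hab
    exact x.ne_zero hab.symm
  have hx : x = Units.mk0 _ ha0 / Units.mk0 _ hb0 := by
    apply Units.ext
    rw [Units.val_div_eq_div_val, Units.val_mk0, Units.val_mk0, hab]
  rw [hx, map_div, map_div, map_div, map_div, nD_of_int K L a _ rfl, nD_of_int K L b _ rfl]

theorem nD_ext_mk0 (I : (Ideal (𝓞 K))⁰) : nD K L (Inv.extU K L (FractionalIdeal.mk0 K I)) =
    (FractionalIdeal.mk0 K I) ^ finrank K L := by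
  have hI : (I : Ideal (𝓞 K)) ≠ ⊥ := mem_nonZeroDivisors_iff_ne_zero.mp I.2
  have h0 : (I : Ideal (𝓞 K)).map (algebraMap (𝓞 K) (𝓞 L)) ≠ ⊥ := by
    rw [Ne, Ideal.map_eq_bot_iff_of_injective (FaithfulSMul.algebraMap_injective (𝓞 K) (𝓞 L))]
    exact hI
  have h1 : Inv.extU K L (FractionalIdeal.mk0 K I) = FractionalIdeal.mk0 L
      ⟨(I : Ideal (𝓞 K)).map (algebraMap (𝓞 K) (𝓞 L)),
        mem_nonZeroDivisors_iff_ne_zero.mpr h0⟩ := by
    apply Units.ext
    rw [Inv.extU_coe, FractionalIdeal.coe_mk0, FractionalIdeal.coe_mk0,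
      FractionalIdeal.extendedHom_coeIdeal_eq_map (K := K)]
  apply Units.ext
  rw [h1, nD_mk0, Ideal.relNorm_algebraMap, FractionalIdeal.coeIdeal_pow,
    Units.val_pow_eq_pow_val, FractionalIdeal.coe_mk0,
    IsFractionRing.finrank_eq (𝓞 K) K (𝓞 L) L]

theorem nD_ext (x : (FractionalIdeal (𝓞 K)⁰ K)ˣ) : nD K L (Inv.extU K L x) =
    x ^ finrank K L := by
  obtain ⟨⟨I, J⟩, h⟩ := exists_frac K x
  dsimp only at h
  have hx : x = FractionalIdeal.mk0 K I / FractionalIdeal.mk0 K J := by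
    rw [← h, mul_div_cancel_right]
  rw [hx, map_div, map_div, nD_ext_mk0, nD_ext_mk0, div_pow]

end

/-- a class of `L` of order `p` whose norm becomes trivial in `L` is trivial -/
def NormTriv (p : ℕ) (K L : Type*) [Field K] [NumberField K] [Field L] [NumberField L]
    [Algebra K L] : Prop :=
  ∀ x : (FractionalIdeal (𝓞 L)⁰ L)ˣ, (ClassGroup.mk L x) ^ p = 1 →
    ClassGroup.mk L (Inv.extU K L (nD K L x)) = 1 → ClassGroup.mk L x = 1

end Pool.Agent.Work.MuZ
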