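import Pool.Agent.Work.MP_a4986b_nt.ZRam

set_option autoImplicit false
set_option maxHeartbeats 400000
set_option linter.unusedSectionVars false

/-! # Non-split primes in radical extensions of prime degree -/

namespace Pool.Agent.Work.MuZ

open NumberField Module Ideal
open Pool.Agent.Work.MuB Pool.Agent.Work.MuY

section

variable {K F : Type} [Field K] [NumberField K] [Field F] [NumberField F] [Algebra K F]

/-- if `a` has a valuation prime to `q` at the prime below `P`, then `q` divides the ramification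
index of `P` -/
theorem radical_ram {q : ℕ} (hq : q.Prime) (a : 𝓞 K) (ha0 : a ≠ 0) (t : 𝓞 F)
    (ht : t ^ q = algebraMap (𝓞 K) (𝓞 F) a) (P : Ideal (𝓞 F)) (hP : P.IsPrime) (hP0 : P ≠ ⊥)
    {i : ℕ} (hi : ¬ q ∣ i) (h1 : a ∈ (P.under (𝓞 K)) ^ i) (h2 : a ∉ (P.under (𝓞 K)) ^ (i + 1)) :
    P ^ q ∣ (P.under (𝓞 K)).map (algebraMap (𝓞 K) (𝓞 F)) := by
  set Q := P.under (𝓞 K) with hQdef
  have hQ : Q.IsPrime := Ideal.IsPrime.under (𝓞 K) P
  have hPp : Prime P := Ideal.prime_of_isPrime hP0 hP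
  obtain ⟨J, hJ⟩ : Q ^ i ∣ span {a} := by
    rw [dvd_span_singleton]
    exact h1
  have hJQ : ¬ J ≤ Q := by
    intro h
    apply h2
    rw [← dvd_span_singleton, hJ, pow_succ]
    exact mul_dvd_mul_left _ (dvd_iff_le.2 h)
  have hJP : ¬ P ∣ J.map (algebraMap (𝓞 K) (𝓞 F)) := by
    intro h
    apply hJQ
    rw [dvd_iff_le, map_le_iff_le_comap] at h
    exact h
  have hmap : span {t} ^ q = (Q.map (algebraMap (𝓞 K) (𝓞 F))) ^ i *
      J.map (algebraMap (𝓞 K) (𝓞 F)) := by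
    rw [span_singleton_pow, ht, ← Ideal.map_pow, ← Ideal.map_mul, ← hJ, map_span,
      Set.image_singleton]
  have haF : algebraMap (𝓞 K) (𝓞 F) a ≠ 0 := by
    intro h
    apply ha0
    rw [← map_zero (algebraMap (𝓞 K) (𝓞 F))] at h
    exact FaithfulSMul.algebraMap_injective (𝓞 K) (𝓞 F) h
  have ht0 : t ≠ 0 := by
    rintro rfl
    apply haF
    rw [← ht, zero_pow hq.ne_zero]
  have hts : span {t} ≠ (0 : Ideal (𝓞 F)) := by
    rw [Ne, Ideal.zero_eq_bot, span_singleton_eq_bot]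
    exact ht0
  have hfin1 : FiniteMultiplicity P (span {t}) := FiniteMultiplicity.of_prime_left hPp hts
  have hi0 : i ≠ 0 := by
    rintro rfl
    exact hi (dvd_zero q)
  have hQ0 : Q.map (algebraMap (𝓞 K) (𝓞 F)) ≠ 0 := by
    intro h0
    rw [h0, zero_pow hi0, zero_mul] at hmap
    exact pow_ne_zero q hts hmap
  have hfin2 : FiniteMultiplicity P (Q.map (algebraMap (𝓞 K) (𝓞 F))) :=
    FiniteMultiplicity.of_prime_left hPp hQ0
  have h3 := congrArg (emultiplicity P) hmap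
  rw [emultiplicity_pow hPp, emultiplicity_mul hPp, emultiplicity_pow hPp,
    emultiplicity_eq_zero.2 hJP, add_zero, hfin1.emultiplicity_eq_multiplicity,
    hfin2.emultiplicity_eq_multiplicity] at h3
  have h4 : q * multiplicity P (span {t}) =
      i * multiplicity P (Q.map (algebraMap (𝓞 K) (𝓞 F))) := by exact_mod_cast h3
  have h5 : q ∣ multiplicity P (Q.map (algebraMap (𝓞 K) (𝓞 F))) := by
    have h6 : q ∣ i * multiplicity P (Q.map (algebraMap (𝓞 K) (𝓞 F))) := Dvd.intro _ h4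
    exact (hq.dvd_mul.1 h6).resolve_left hi
  have h6 : P ∣ Q.map (algebraMap (𝓞 K) (𝓞 F)) := by
    rw [dvd_iff_le, map_le_iff_le_comap]
  have h7 : multiplicity P (Q.map (algebraMap (𝓞 K) (𝓞 F))) ≠ 0 := by
    intro h
    have h8 := (hfin2.pow_dvd_iff_le_multiplicity (k := 1)).1 (by rwa [pow_one])
    omega
  exact (hfin2.pow_dvd_iff_le_multiplicity).2 (Nat.le_of_dvd (Nat.pos_of_ne_zero h7) h5)

/-- if `a` is not a `q`-th power modulo the prime below `P`, then the inertia degree of `P` is at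
least `q` -/
theorem radical_inert {q : ℕ} (hq : q.Prime) (a : 𝓞 K) (t : 𝓞 F)
    (ht : t ^ q = algebraMap (𝓞 K) (𝓞 F) a) (P : Ideal (𝓞 F)) (hP : P.IsPrime) (hP0 : P ≠ ⊥)
    (h : ∀ b : 𝓞 K, b ^ q - a ∉ P.under (𝓞 K)) : q ≤ P.inertiaDeg (𝓞 K) := by
  have hPmax : P.IsMaximal := hP.isMaximal hP0
  have hQmax : (P.under (𝓞 K)).IsMaximal := IsMaximal.under (𝓞 K) P
  rw [inertiaDeg_eq_of_isMaximal (P.under (𝓞 K)) P]
  let : Field (𝓞 K ⧸ P.under (𝓞 K)) := Quotient.field _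
  let : Field (𝓞 F ⧸ P) := Quotient.field _
  set x : 𝓞 F ⧸ P := Ideal.Quotient.mk P t with hx
  set abar : 𝓞 K ⧸ P.under (𝓞 K) := Ideal.Quotient.mk _ a with habar
  have hirr : Irreducible (Polynomial.X ^ q - Polynomial.C abar) := by
    refine X_pow_sub_C_irreducible_of_prime hq fun b hb => ?_
    obtain ⟨b, rfl⟩ := Ideal.Quotient.mk_surjective b
    rw [habar, ← map_pow, Ideal.Quotient.eq] at hb
    exact h b hb
  have hmin : minpoly (𝓞 K ⧸ P.under (𝓞 K)) x = Polynomial.X ^ q - Polynomial.C abar := by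
    refine (minpoly.eq_of_irreducible_of_monic hirr ?_
      (Polynomial.monic_X_pow_sub_C _ hq.ne_zero)).symm
    have h1 : algebraMap (𝓞 K ⧸ P.under (𝓞 K)) (𝓞 F ⧸ P) abar =
      Ideal.Quotient.mk P (algebraMap (𝓞 K) (𝓞 F) a) := rfl
    rw [map_sub, map_pow, Polynomial.aeval_X, Polynomial.aeval_C, h1, ← ht, map_pow, sub_self]
  have h2 := minpoly.natDegree_le (A := 𝓞 K ⧸ P.under (𝓞 K)) x
  rw [hmin, Polynomial.natDegree_X_pow_sub_C] at h2
  exact h2

end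

/-- at each prime above `p`, `a` has valuation prime to `q` or is not a `q`-th power -/
theorem radical_nonsplit {p q : ℕ} (hp : p.Prime) (hq : q.Prime) (k F : Type) [Field k]
    [NumberField k] [Field F] [NumberField F] [Algebra k F] (hF : finrank k F = q) (a : 𝓞 k)
    (ha0 : a ≠ 0) (t : F) (ht : t ^ q = algebraMap k F a)
    (h : ∀ Q : Ideal (𝓞 k), Q.IsPrime → (p : 𝓞 k) ∈ Q →
      (∃ i : ℕ, ¬ q ∣ i ∧ a ∈ Q ^ i ∧ a ∉ Q ^ (i + 1)) ∨ ∀ b : 𝓞 k, b ^ q - a ∉ Q) :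
    NonSplit p k F := by
  have htint : IsIntegral ℤ t := by
    refine IsIntegral.of_pow hq.pos ?_
    rw [ht]
    exact (RingOfIntegers.isIntegral_coe a).algebraMap
  obtain ⟨tt, htt⟩ : ∃ tt : 𝓞 F, (tt : F) = t := ⟨⟨t, htint⟩, rfl⟩
  have htt2 : tt ^ q = algebraMap (𝓞 k) (𝓞 F) a := by
    apply RingOfIntegers.ext
    have h1 : ((algebraMap (𝓞 k) (𝓞 F) a : 𝓞 F) : F) = algebraMap k F (a : k) := rfl
    rw [h1, ← ht, ← htt]
    simp
  have hne : ∀ P : Ideal (𝓞 F), (p : 𝓞 F) ∈ P → P ≠ ⊥ := by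
    rintro P hpP rfl
    have : (p : 𝓞 F) = 0 := by simpa using hpP
    exact hp.ne_zero (by exact_mod_cast this)
  intro P1 P2 hP1 hP2 hp1 hp2 h12
  have hpQ : (p : 𝓞 k) ∈ P1.under (𝓞 k) := by
    rw [Ideal.under_def, Ideal.mem_comap, map_natCast]
    exact hp1
  have hone : ∀ P : Ideal (𝓞 F), P ^ 1 ∣ (P.under (𝓞 k)).map (algebraMap (𝓞 k) (𝓞 F)) := by
    intro P
    rw [pow_one, dvd_iff_le, map_le_iff_le_comap]
  have hpos : ∀ P : Ideal (𝓞 F), P.IsPrime → P ≠ ⊥ → 1 ≤ P.inertiaDeg (𝓞 k) := by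
    intro P hP hP0
    exact Ideal.inertiaDeg_pos ..
  rcases h (P1.under (𝓞 k)) (Ideal.IsPrime.under (𝓞 k) P1) hpQ with ⟨i, hi, hi1, hi2⟩ | hb
  · refine unique_above (K := k) hp (e := q) (g := 1) ?_ P1 P2 hP1 hP2 hp1 hp2 h12
      ⟨?_, hpos P1 hP1 (hne P1 hp1)⟩ ⟨?_, hpos P2 hP2 (hne P2 hp2)⟩
    · rw [hF]
      have := hq.pos
      omega
    · exact radical_ram hq a ha0 tt htt2 P1 hP1 (hne P1 hp1) hi hi1 hi2
    · exact radical_ram hq a ha0 tt htt2 P2 hP2 (hne P2 hp2) hi (h12 ▸ hi1) (h12 ▸ hi2)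
  · refine unique_above (K := k) hp (e := 1) (g := q) ?_ P1 P2 hP1 hP2 hp1 hp2 h12
      ⟨hone P1, ?_⟩ ⟨hone P2, ?_⟩
    · rw [hF]
      have := hq.pos
      omega
    · exact radical_inert hq a tt htt2 P1 hP1 (hne P1 hp1) hb
    · exact radical_inert hq a tt htt2 P2 hP2 (hne P2 hp2) (h12 ▸ hb)

end Pool.Agent.Work.MuZ
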