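import Pool.Agent.Work.MP_a4986b_nt.ZRadA
import Pool.Agent.Work.MP_a4986b_nt.ZRadB
import Pool.Agent.Work.MP_a4986b_nt.ZMain

set_option autoImplicit false
set_option maxHeartbeats 400000
set_option linter.unusedSectionVars false

/-! # Radical extensions of prime degree -/

namespace Pool.Agent.Work.MuZ

open NumberField Module Polynomial
open Pool.Agent.Work.MuB Pool.Agent.Work.MuY

theorem rank_prime (k F : Type) [Field k] [NumberField k] [Field F] [NumberField F] [Algebra k F]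
    {q : ℕ} (hq : q.Prime) (hF : finrank k F = q) (F' : IntermediateField k F) (hF' : F' ≠ ⊤) :
    Units.rank F' = Units.rank k := by
  have hfin : Module.Finite k F := Module.Finite.of_restrictScalars_finite ℚ k F
  have h1 : finrank k F' = 1 := by
    have h3 := finrank_mul_finrank k F' F
    rw [hF] at h3
    have h4 : finrank k F' ∣ q := Dvd.intro _ h3
    rcases (Nat.dvd_prime hq).1 h4 with h | h
    · exact h
    · exfalso
      apply hF'
      rw [← IntermediateField.finrank_eq_one_iff_eq_top]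
      rw [h] at h3
      exact Nat.eq_of_mul_eq_mul_left hq.pos (h3.trans (mul_one q).symm)
  obtain ⟨hr1, hr2⟩ := rank_bounds_gen k 1 F' h1
  omega

theorem order_le {p q i j : ℕ} (hq : q.Prime) (hi : 0 < i) (hj : 0 < j)
    (hij : i ∣ j) : orderOf ((p : ZMod q) ^ j) ≤ orderOf ((p : ZMod q) ^ i) := by
  have hqf : Fact q.Prime := ⟨hq⟩
  by_cases h0 : (p : ZMod q) = 0
  · rw [h0, zero_pow hi.ne', zero_pow hj.ne']
  · obtain ⟨l, rfl⟩ := hij
    have hfin : IsOfFinOrder ((p : ZMod q) ^ i) := by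
      rw [isOfFinOrder_iff_pow_eq_one]
      refine ⟨q - 1, by have := hq.two_le; omega, ?_⟩
      rw [← pow_mul, mul_comm, pow_mul, ZMod.pow_card_sub_one_eq_one h0, one_pow]
    refine Nat.le_of_dvd hfin.orderOf_pos ?_
    rw [pow_mul]
    exact orderOf_pow_dvd _

/-- radical extensions of prime degree of any number field -/
theorem radical_prime (k : Type) [Field k] [NumberField k] (q : ℕ) (hq : q.Prime) :
    ∃ c : ℝ, 0 < c ∧ ∀ p : ℕ, p.Prime → p ≠ 2 → ∀ a : 𝓞 k,
      (∀ Q : Ideal (𝓞 k), Q.IsPrime → (p : 𝓞 k) ∈ Q →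
        (∃ i : ℕ, ¬ q ∣ i ∧ a ∈ Q ^ i ∧ a ∉ Q ^ (i + 1)) ∨ ∀ b : 𝓞 k, b ^ q - a ∉ Q) →
      ∀ (F : Type) [Field F] [NumberField F] [Algebra k F] (t : F), finrank k F = q →
        t ^ q = algebraMap k F a → t ∉ Set.range (algebraMap k F) →
        |(Algebra.norm ℤ a : ℝ)| ^ (q - 1) ≤
          c * (p : ℝ) ^ (2 * orderOf ((p : ZMod q) ^ finrank k (CyclotomicField q k))) *
            (1 + Real.log p) ^ (2 * ((Units.rank F : ℤ) - Units.rank k - q + 1)) →
        RelExtensions p k F := by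
  obtain ⟨c, hc, h⟩ := solvable_degree k q hq
  set A : ℝ := |(discr k : ℝ)| ^ q * (q : ℝ) ^ (q * finrank ℚ k) with hA
  have hd := one_le_abs_discr k
  have hq0 : (0 : ℝ) < q := by exact_mod_cast hq.pos
  have hA0 : 0 < A := by positivity
  refine ⟨c / A, div_pos hc hA0, fun p hp hp2 a ha F _ _ _ t hF ht htk hN => ?_⟩
  have ha0 : a ≠ 0 := by
    rintro rfl
    apply htk
    refine ⟨0, ?_⟩
    rw [map_zero]
    have h1 : t ^ q = 0 := by rw [ht]; simp
    exact ((pow_eq_zero_iff hq.ne_zero).1 h1).symm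
  obtain ⟨N, iN, iN', iA, iB, iC, iD, iE, hsolv, hdvd⟩ :=
    radical_closure k F hq hF (a : k) t ht htk
  have hns := radical_nonsplit hp hq k F hF a ha0 t ht ha
  refine h F N hsolv p hp hp2 hF hns ?_
  -- the discriminant
  have htint : IsIntegral ℤ t := by
    refine IsIntegral.of_pow hq.pos ?_
    rw [ht]
    exact (RingOfIntegers.isIntegral_coe a).algebraMap
  obtain ⟨tt, htt⟩ : ∃ tt : 𝓞 F, (tt : F) = t := ⟨⟨t, htint⟩, rfl⟩
  have htt2 : tt ^ q = algebraMap (𝓞 k) (𝓞 F) a := by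
    apply RingOfIntegers.ext
    have h1 : ((algebraMap (𝓞 k) (𝓞 F) a : 𝓞 F) : F) = algebraMap k F (a : k) := rfl
    rw [h1, ← ht, ← htt]
    simp
  have htop : IntermediateField.adjoin k {t} = ⊤ :=
    adjoin_eq_top_of_prime (by rw [hF]; exact hq) t htk
  have hfin : Module.Finite k F := Module.Finite.of_restrictScalars_finite ℚ k F
  have hmin : minpoly k t = X ^ q - C (a : k) := by
    have hti : IsIntegral k t := IsIntegral.of_finite k t
    have hdeg : (minpoly k t).natDegree = q := by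
      rw [← IntermediateField.adjoin.finrank hti, htop, IntermediateField.finrank_top', hF]
    refine (eq_of_monic_of_dvd_of_natDegree_le (minpoly.monic hti)
      (monic_X_pow_sub_C _ hq.ne_zero) ?_ ?_).symm
    · exact minpoly.dvd k t (by simp [ht])
    · rw [natDegree_X_pow_sub_C, hdeg]
  have h3 := kum_discr hq k a ha0 F tt htt2 hF (by rw [htt]; exact hmin)
    (by rw [htt]; exact htop)
  have hFQ : finrank ℚ F = q * finrank ℚ k := by
    rw [← Module.finrank_mul_finrank ℚ k F, hF, mul_comm]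
  rw [hFQ] at h3
  have h4 : |(discr F : ℝ)| ≤ A * |(Algebra.norm ℤ a : ℝ)| ^ (q - 1) := by
    have h5 : ((discr F).natAbs : ℝ) ≤ ((discr k).natAbs : ℝ) ^ q * (q : ℝ) ^ (q * finrank ℚ k) *
        ((Algebra.norm ℤ a).natAbs : ℝ) ^ (q - 1) := by exact_mod_cast h3
    rwa [Nat.cast_natAbs, Nat.cast_natAbs, Nat.cast_natAbs, Int.cast_abs, Int.cast_abs,
      Int.cast_abs] at h5
  obtain ⟨hr1, -⟩ := rank_bounds_gen k q F hF
  refine ⟨Units.rank k, hr1, fun F' hF' => (rank_prime k F hq hF F' hF').le, ?_⟩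
  rw [hF]
  have hp1 : (1 : ℝ) ≤ p := by exact_mod_cast hp.one_lt.le
  have hlp : 0 ≤ Real.log p := Real.log_nonneg hp1
  have hz : 0 ≤ (1 + Real.log p) ^ (2 * ((Units.rank F : ℤ) - Units.rank k - q + 1)) :=
    (zpow_pos (by linarith) _).le
  have hf : orderOf ((p : ZMod q) ^ finrank k (CyclotomicField q k)) ≤
      orderOf ((p : ZMod q) ^ finrank F N) := order_le hq finrank_pos finrank_pos hdvd
  calc |(discr F : ℝ)| ≤ A * |(Algebra.norm ℤ a : ℝ)| ^ (q - 1) := h4
    _ ≤ A * (c / A * (p : ℝ) ^ (2 * orderOf ((p : ZMod q) ^ finrank k (CyclotomicField q k))) *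
          (1 + Real.log p) ^ (2 * ((Units.rank F : ℤ) - Units.rank k - q + 1))) := by gcongr
    _ = c * (p : ℝ) ^ (2 * orderOf ((p : ZMod q) ^ finrank k (CyclotomicField q k))) *
          (1 + Real.log p) ^ (2 * ((Units.rank F : ℤ) - Units.rank k - q + 1)) := by
        field_simp
    _ ≤ _ := by
        refine mul_le_mul_of_nonneg_right (mul_le_mul_of_nonneg_left ?_ hc.le) hz
        exact pow_le_pow_right₀ hp1 (by omega)

end Pool.Agent.Work.MuZ
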