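import Mathlib

set_option autoImplicit false
set_option maxHeartbeats 400000

/-! # The normal closure of a radical extension of prime degree -/

namespace Pool.Agent.Work.MuZ

open NumberField Module Polynomial

namespace RadA

/-- an extension of prime degree is generated by any element outside the base field -/
theorem adjoin_top {k F : Type*} [Field k] [Field F] [Algebra k F]
    (h : (finrank k F).Prime) (t : F) (ht : t ∉ Set.range (algebraMap k F)) :
    IntermediateField.adjoin k {t} = ⊤ := by
  have h2 := finrank_mul_finrank k (IntermediateField.adjoin k {t}) F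
  have hd : finrank k (IntermediateField.adjoin k {t}) ∣ finrank k F := Dvd.intro _ h2
  have hfin : Module.Finite k F := Module.finite_of_finrank_pos h.pos
  rcases (Nat.dvd_prime h).1 hd with h1 | h1
  · exfalso
    rw [IntermediateField.finrank_eq_one_iff] at h1
    have h3 : t ∈ IntermediateField.adjoin k {t} := IntermediateField.mem_adjoin_simple_self k t
    rw [h1, IntermediateField.mem_bot] at h3
    exact ht h3
  · rw [← IntermediateField.finrank_eq_one_iff_eq_top]
    rw [h1] at h2
    exact Nat.eq_of_mul_eq_mul_left h.pos (h2.trans (mul_one _).symm)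

section

variable {k F E : Type} [Field k] [Field F] [Field E]
  [Algebra k F] [Algebra F E] [Algebra k E] [IsScalarTower k F E]

/-- `F(ζ)` is the splitting field of `X ^ q - a` -/
theorem splitting {q : ℕ} (hq : q.Prime) {ζ : E} (hζ : IsPrimitiveRoot ζ q)
    (hE : IntermediateField.adjoin F {ζ} = ⊤) (hF : finrank k F = q) (a : k) (t : F)
    (ht : t ^ q = algebraMap k F a) (htk : t ∉ Set.range (algebraMap k F)) :
    IsSplittingField k E (X ^ q - C a) := by
  rw [isSplittingField_iff_intermediateField]
  have htE : (algebraMap F E t) ^ q = algebraMap k E a := by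
    rw [← map_pow, ht, ← IsScalarTower.algebraMap_apply]
  have ht0 : t ≠ 0 := by
    rintro rfl
    exact htk ⟨0, map_zero _⟩
  constructor
  · rw [Polynomial.map_sub, Polynomial.map_pow, map_X, map_C]
    exact X_pow_sub_C_splits_of_isPrimitiveRoot hζ htE
  · set A : IntermediateField k E := IntermediateField.adjoin k ((X ^ q - C a).rootSet E) with hA
    have hroot : ∀ x : E, x ^ q = algebraMap k E a → x ∈ A := by
      intro x hx
      apply IntermediateField.subset_adjoin
      rw [mem_rootSet]
      refine ⟨X_pow_sub_C_ne_zero hq.pos a, ?_⟩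
      simp [hx]
    have h1 : algebraMap F E t ∈ A := hroot _ htE
    have h2 : ζ * algebraMap F E t ∈ A := hroot _ (by rw [mul_pow, hζ.pow_eq_one, one_mul, htE])
    have htE0 : algebraMap F E t ≠ 0 := by
      rw [Ne, map_eq_zero]
      exact ht0
    have h3 : ζ ∈ A := by
      have h4 := A.mul_mem h2 (A.inv_mem h1)
      rwa [mul_inv_cancel_right₀ htE0] at h4
    -- `F` is contained in `A`
    have h5 : ∀ x : F, algebraMap F E x ∈ A := by
      intro x
      have h6 : x ∈ IntermediateField.adjoin k {t} := by
        rw [adjoin_top (by rw [hF]; exact hq) t htk]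
        trivial
      have h7 : IntermediateField.adjoin k {t} ≤ A.comap (IsScalarTower.toAlgHom k F E) := by
        rw [IntermediateField.adjoin_simple_le_iff]
        exact h1
      exact h7 h6
    rw [eq_top_iff]
    intro x _
    have h8 : x ∈ IntermediateField.adjoin F {ζ} := by
      rw [hE]
      trivial
    induction h8 using IntermediateField.adjoin_induction with
    | mem y hy =>
      rw [Set.mem_singleton_iff.mp hy]
      exact h3
    | algebraMap y => exact h5 y
    | add y z _ _ hy hz => exact A.add_mem (hy trivial) (hz trivial)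
    | inv y _ hy => exact A.inv_mem (hy trivial)
    | mul y z _ _ hy hz => exact A.mul_mem (hy trivial) (hz trivial)

/-- the degree of `F(ζ) / F` divides the degree of `k(ζ) / k` -/
theorem dvd {q : ℕ} (hq : q.Prime) [CharZero k] [FiniteDimensional k E] [FiniteDimensional F E]
    {ζ : E}
    (hζ : IsPrimitiveRoot ζ q)
    (hE : IntermediateField.adjoin F {ζ} = ⊤) :
    finrank F E ∣ finrank k (CyclotomicField q k) := by
  have hne : NeZero q := ⟨hq.ne_zero⟩
  have hcE : IsCyclotomicExtension {q} F E := by
    have h1 := hζ.intermediateField_adjoin_isCyclotomicExtension F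
    rw [hE] at h1
    exact IsCyclotomicExtension.equiv {q} F _ (IntermediateField.topEquiv : _ ≃ₐ[F] E)
  have hcK : IsCyclotomicExtension {q} k (IntermediateField.adjoin k {ζ}) :=
    hζ.intermediateField_adjoin_isCyclotomicExtension k
  have hgE : IsGalois F E := IsCyclotomicExtension.isGalois {q} F E
  have hgK : IsGalois k (IntermediateField.adjoin k {ζ}) :=
    IsCyclotomicExtension.isGalois {q} k _
  have hdeg : finrank k (CyclotomicField q k) = finrank k (IntermediateField.adjoin k {ζ}) :=
    (IsCyclotomicExtension.algEquiv {q} k (CyclotomicField q k)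
      (IntermediateField.adjoin k {ζ})).toLinearEquiv.finrank_eq
  rw [hdeg, ← IsGalois.card_aut_eq_finrank, ← IsGalois.card_aut_eq_finrank]
  set φ : Gal(E/F) →* Gal(IntermediateField.adjoin k {ζ}/k) :=
    (AlgEquiv.restrictNormalHom (IntermediateField.adjoin k {ζ})).comp
      (AlgEquiv.restrictScalarsHom k) with hφ
  have hinj : Function.Injective φ := by
    intro σ τ h
    refine IsCyclotomicExtension.algEquiv_eq_of_apply_eq {q} F E fun n hn _ => ?_
    rw [Set.mem_singleton_iff] at hn
    subst hn
    refine ⟨ζ, hζ, ?_⟩
    have h1 := congrArg (fun g : Gal(IntermediateField.adjoin k {ζ}/k) =>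
      algebraMap (IntermediateField.adjoin k {ζ}) E
        (g ⟨ζ, IntermediateField.mem_adjoin_simple_self k ζ⟩)) h
    have h2 : ∀ σ : Gal(E/F), algebraMap (IntermediateField.adjoin k {ζ}) E
        (φ σ ⟨ζ, IntermediateField.mem_adjoin_simple_self k ζ⟩) = σ ζ := fun σ =>
      AlgEquiv.restrictNormal_commutes (σ.restrictScalars k) (IntermediateField.adjoin k {ζ})
        ⟨ζ, IntermediateField.mem_adjoin_simple_self k ζ⟩
    rw [h2, h2] at h1
    exact h1
  exact Subgroup.card_dvd_of_injective φ hinj

end

theorem aux (k F E : Type) [Field k] [NumberField k] [Field F] [NumberField F] [Field E]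
    [NumberField E] [Algebra k F] [Algebra F E] [Algebra k E] [IsScalarTower k F E]
    {q : ℕ} [hcE : IsCyclotomicExtension {q} F E] (hq : q.Prime) (hF : finrank k F = q) (a : k)
    (t : F) (ht : t ^ q = algebraMap k F a) (htk : t ∉ Set.range (algebraMap k F)) :
    ∃ (N : Type) (_ : Field N) (_ : NumberField N) (_ : Algebra k N) (_ : Algebra F N)
      (_ : IsScalarTower k F N) (_ : IsGalois k N) (_ : IsNormalClosure k F N),
      Group.IsSolvable Gal(N/k) ∧ finrank F N ∣ finrank k (CyclotomicField q k) := by
  have hne : NeZero q := ⟨hq.ne_zero⟩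
  obtain ⟨ζ, hζ⟩ := hcE.exists_isPrimitiveRoot (Set.mem_singleton q) hq.ne_zero
  have hkE : FiniteDimensional k E := Module.Finite.of_restrictScalars_finite ℚ k E
  have hFE : FiniteDimensional F E := Module.Finite.of_restrictScalars_finite ℚ F E
  have hkF : FiniteDimensional k F := Module.Finite.of_restrictScalars_finite ℚ k F
  have htop : IntermediateField.adjoin F {ζ} = ⊤ := by
    rw [← IntermediateField.toSubalgebra_inj,
      IntermediateField.adjoin_simple_toSubalgebra_of_isAlgebraic (Algebra.IsAlgebraic.isAlgebraic ζ),
      IsCyclotomicExtension.adjoin_primitive_root_eq_top hζ]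
    rfl
  have hsp : IsSplittingField k E (X ^ q - C a) := splitting hq hζ htop hF a t ht htk
  have hnorm : Normal k E := Normal.of_isSplittingField (X ^ q - C a)
  have hgE : IsGalois k E := {}
  have hsE : Group.IsSolvable Gal(E/k) := by
    have h1 := gal_X_pow_sub_C_isSolvable q a
    have e : E ≃ₐ[k] (X ^ q - C a).SplittingField := IsSplittingField.algEquiv E (X ^ q - C a)
    have h2 : Group.IsSolvable ((X ^ q - C a).SplittingField ≃ₐ[k] (X ^ q - C a).SplittingField) := h1
    exact Group.isSolvable_of_surjective (f := e.symm.autCongr.toMonoidHom)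
      e.symm.autCongr.surjective
  have hdvd := dvd hq hζ htop (k := k)
  have hnon : Nonempty (F →ₐ[k] E) := ⟨IsScalarTower.toAlgHom k F E⟩
  refine ⟨IntermediateField.normalClosure k F E, inferInstance, ?_, inferInstance, inferInstance,
    inferInstance, {}, isNormalClosure_normalClosure k F E, ?_, ?_⟩
  · have h1 : FiniteDimensional k (IntermediateField.normalClosure k F E) := inferInstance
    have h2 : Module.Finite ℚ (IntermediateField.normalClosure k F E) :=
      Module.Finite.trans (R := ℚ) k _
    exact { to_finiteDimensional := h2 }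
  · exact Group.isSolvable_of_surjective
      (AlgEquiv.restrictNormalHom_surjective (F := k)
        (K₁ := IntermediateField.normalClosure k F E) E)
  · refine Dvd.dvd.trans ?_ hdvd
    exact Dvd.intro _ (finrank_mul_finrank F (IntermediateField.normalClosure k F E) E)

end RadA

open RadA

/-- the normal closure of `k(a ^ (1 / q)) / k` -/
theorem radical_closure (k F : Type) [Field k] [NumberField k] [Field F] [NumberField F]
    [Algebra k F] {q : ℕ} (hq : q.Prime) (hF : finrank k F = q) (a : k) (t : F)
    (ht : t ^ q = algebraMap k F a) (htk : t ∉ Set.range (algebraMap k F)) :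
    ∃ (N : Type) (_ : Field N) (_ : NumberField N) (_ : Algebra k N) (_ : Algebra F N)
      (_ : IsScalarTower k F N) (_ : IsGalois k N) (_ : IsNormalClosure k F N),
      Group.IsSolvable Gal(N/k) ∧ finrank F N ∣ finrank k (CyclotomicField q k) :=
  aux k F (CyclotomicField q F) hq hF a t ht htk

end Pool.Agent.Work.MuZ
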