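import Pool.Agent.Work.MP_a4986b_nt.YDisc
import Pool.Agent.Work.MP_a4986b_nt.YKum
import Pool.Agent.Work.MP_a4986b_nt.BCor

set_option autoImplicit false
set_option maxHeartbeats 400000
set_option linter.unusedSectionVars false

/-! # Ramification in quadratic extensions, and their discriminants -/

namespace Pool.Agent.Work.MuZ

open NumberField Module Ideal
open Pool.Agent.Work.MuB Pool.Agent.Work.MuY

/-- a rational prime contained in the square of a prime ideal divides the discriminant -/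
theorem dvd_discr_of_sq (F : Type) [Field F] [NumberField F] {l : ℕ} (hl : l.Prime)
    (P : Ideal (𝓞 F)) (hP : P.IsPrime) (hlP2 : (l : 𝓞 F) ∈ P ^ 2) : (l : ℤ) ∣ discr F := by
  have hlP : (l : 𝓞 F) ∈ P := Ideal.pow_le_self two_ne_zero hlP2
  have hmax : (span {(l : ℤ)}).IsMaximal :=
    PrincipalIdealRing.isMaximal_of_irreducible (Nat.prime_iff_prime_int.1 hl).irreducible
  have hPmax : P.IsMaximal := by
    refine hP.isMaximal ?_
    rintro rfl
    have : (l : 𝓞 F) = 0 := by simpa using hlP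
    exact hl.ne_zero (by exact_mod_cast this)
  have hlie : P.LiesOver (span {(l : ℤ)}) := by
    rw [Ideal.liesOver_iff]
    refine hmax.eq_of_le ?_ ?_
    · exact (Ideal.IsPrime.under ℤ P).ne_top
    · rw [span_singleton_le_iff_mem, under_def, mem_comap]
      simpa using hlP
  have h1 : P ^ (2 - 1) ∣ differentIdeal ℤ (𝓞 F) := by
    refine pow_sub_one_dvd_differentIdeal ℤ (p := span {(l : ℤ)}) P 2 ?_ ?_
    · rw [Ne, span_singleton_eq_bot]
      exact_mod_cast hl.ne_zero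
    · rw [dvd_iff_le, map_span, Set.image_singleton, span_singleton_le_iff_mem]
      simpa using hlP2
  rw [show 2 - 1 = 1 from rfl, pow_one] at h1
  have h2 := Ideal.absNorm_dvd_absNorm_of_le (Ideal.dvd_iff_le.mp h1)
  rw [absNorm_differentIdeal F, ← Ideal.pow_inertiaDeg l P] at h2
  rw [← Int.dvd_natAbs]
  exact_mod_cast (dvd_pow_self _ (Ideal.inertiaDeg_pos ..).ne').trans h2

section

variable {K F : Type} [Field K] [NumberField K] [Field F] [NumberField F] [Algebra K F]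

theorem liesOver_int {L : Type} [Field L] [NumberField L] {p : ℕ} (hp : p.Prime)
    (I : Ideal (𝓞 L)) (hI : I.IsPrime) (hpI : (p : 𝓞 L) ∈ I) : I.LiesOver (span {(p : ℤ)}) := by
  rw [Ideal.liesOver_iff]
  have hmax : (span {(p : ℤ)}).IsMaximal :=
    PrincipalIdealRing.isMaximal_of_irreducible (Nat.prime_iff_prime_int.1 hp).irreducible
  refine hmax.eq_of_le ?_ ?_
  · exact (Ideal.IsPrime.under ℤ I).ne_top
  · rw [Ideal.span_singleton_le_iff_mem, Ideal.under_def, Ideal.mem_comap]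
    simpa using hpI

/-- norms in a tower -/
theorem absNorm_tower {p : ℕ} (hp : p.Prime) (P : Ideal (𝓞 F)) (hP : P.IsPrime)
    (hpP : (p : 𝓞 F) ∈ P) :
    absNorm P = absNorm (P.under (𝓞 K)) ^ P.inertiaDeg (𝓞 K) := by
  have hQ : (P.under (𝓞 K)).IsPrime := Ideal.IsPrime.under (𝓞 K) P
  have hpQ : (p : 𝓞 K) ∈ P.under (𝓞 K) := by
    rw [Ideal.under_def, Ideal.mem_comap, map_natCast]
    exact hpP
  have h1 := liesOver_int hp P hP hpP
  have h2 := liesOver_int hp (P.under (𝓞 K)) hQ hpQ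
  rw [← Ideal.pow_inertiaDeg p P, ← Ideal.pow_inertiaDeg p (P.under (𝓞 K)), ← pow_mul,
    Ideal.inertiaDeg_tower (R := ℤ) (P.under (𝓞 K)) P]

/-- few primes above a prime with large ramification indices and norms -/
theorem unique_above {p : ℕ} (hp : p.Prime) {e g : ℕ} (h : finrank K F < 2 * (e * g))
    (P1 P2 : Ideal (𝓞 F)) (hP1 : P1.IsPrime) (hP2 : P2.IsPrime) (hp1 : (p : 𝓞 F) ∈ P1)
    (hp2 : (p : 𝓞 F) ∈ P2) (h12 : P1.under (𝓞 K) = P2.under (𝓞 K))
    (H1 : P1 ^ e ∣ (P1.under (𝓞 K)).map (algebraMap (𝓞 K) (𝓞 F)) ∧ g ≤ P1.inertiaDeg (𝓞 K))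
    (H2 : P2 ^ e ∣ (P2.under (𝓞 K)).map (algebraMap (𝓞 K) (𝓞 F)) ∧ g ≤ P2.inertiaDeg (𝓞 K)) :
    P1 = P2 := by
  by_contra hne
  have hmaxof : ∀ P : Ideal (𝓞 F), P.IsPrime → (p : 𝓞 F) ∈ P → P.IsMaximal := by
    intro P hP hpP
    refine hP.isMaximal ?_
    rintro rfl
    have : (p : 𝓞 F) = 0 := by simpa using hpP
    exact hp.ne_zero (by exact_mod_cast this)
  have hm1 := hmaxof P1 hP1 hp1
  have hm2 := hmaxof P2 hP2 hp2
  have hcop : IsCoprime P1 P2 := by
    rw [Ideal.isCoprime_iff_sup_eq]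
    exact hm1.coprime_of_ne hm2 hne
  set Q := P1.under (𝓞 K) with hQdef
  have hQ : Q.IsPrime := Ideal.IsPrime.under (𝓞 K) P1
  have hpQ : (p : 𝓞 K) ∈ Q := by
    rw [hQdef, Ideal.under_def, Ideal.mem_comap, map_natCast]
    exact hp1
  have hQ0 : Q ≠ ⊥ := by
    intro h0
    rw [h0] at hpQ
    have : (p : 𝓞 K) = 0 := by simpa using hpQ
    exact hp.ne_zero (by exact_mod_cast this)
  have h3 : P1 ^ e * P2 ^ e ∣ Q.map (algebraMap (𝓞 K) (𝓞 F)) :=
    (hcop.pow).mul_dvd H1.1 (by rw [h12]; exact H2.1)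
  have h4 := map_dvd absNorm h3
  rw [map_mul, map_pow, map_pow, Ideal.absNorm_algebraMap, absNorm_tower (K := K) hp P1 hP1 hp1,
    absNorm_tower (K := K) hp P2 hP2 hp2, ← h12, ← hQdef, ← pow_mul, ← pow_mul, ← pow_add,
    ← IsFractionRing.finrank_eq (𝓞 K) K (𝓞 F) F] at h4
  have hN : 1 < absNorm Q := by
    have h5 : absNorm Q ≠ 0 := by rwa [Ne, Ideal.absNorm_eq_zero_iff]
    have h6 : absNorm Q ≠ 1 := by
      rw [Ne, Ideal.absNorm_eq_one_iff]
      exact hQ.ne_top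
    omega
  have h5 := Nat.le_of_dvd (pow_pos (by omega) _) h4
  have h6 := (Nat.pow_le_pow_iff_right hN).1 h5
  have h7 : g * e ≤ P1.inertiaDeg (𝓞 K) * e := Nat.mul_le_mul_right e H1.2
  have h8 : g * e ≤ P2.inertiaDeg (𝓞 K) * e := Nat.mul_le_mul_right e H2.2
  have h9 : e * g = g * e := mul_comm e g
  omega

/-- ramification of square roots -/
theorem ram_sq {p : ℕ} (hp : p.Prime) (α : 𝓞 K) (w : 𝓞 F)
    (hw : w ^ 2 = algebraMap (𝓞 K) (𝓞 F) ((p : 𝓞 K) * α)) (P : Ideal (𝓞 F)) (hP : P.IsPrime)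
    (hpP : (p : 𝓞 F) ∈ P) (hα : α ∉ P.under (𝓞 K)) (hp2 : (p : 𝓞 K) ∉ (P.under (𝓞 K)) ^ 2) :
    P ^ 2 ∣ (P.under (𝓞 K)).map (algebraMap (𝓞 K) (𝓞 F)) := by
  have hPm : P.IsMaximal := by
    refine hP.isMaximal ?_
    rintro rfl
    have : (p : 𝓞 F) = 0 := by simpa using hpP
    exact hp.ne_zero (by exact_mod_cast this)
  set Q := P.under (𝓞 K) with hQdef
  have hQ : Q.IsPrime := Ideal.IsPrime.under (𝓞 K) P
  have hpQ : (p : 𝓞 K) ∈ Q := by
    rw [hQdef, Ideal.under_def, Ideal.mem_comap, map_natCast]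
    exact hpP
  have hwP : w ∈ P := by
    refine hP.mem_of_pow_mem 2 ?_
    rw [hw, map_mul, map_natCast]
    exact P.mul_mem_right _ hpP
  have hcopr : ∀ I : Ideal (𝓞 F), ¬ I ≤ P → IsCoprime P I := by
    intro I hI
    rw [Ideal.isCoprime_iff_sup_eq]
    by_contra h
    have h6 : P = P ⊔ I := hPm.eq_of_le h le_sup_left
    exact hI (le_sup_right.trans h6.symm.le)
  have hcop := hcopr (span {algebraMap (𝓞 K) (𝓞 F) α}) (by
    intro h
    apply hα
    exact h (Ideal.mem_span_singleton_self _))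
  have hsq : P ^ 2 ∣ Ideal.span {(p : 𝓞 F)} * Ideal.span {algebraMap (𝓞 K) (𝓞 F) α} := by
    rw [Ideal.span_singleton_mul_span_singleton]
    have h5 : (p : 𝓞 F) * algebraMap (𝓞 K) (𝓞 F) α = w ^ 2 := by
      rw [hw, map_mul, map_natCast]
    rw [h5, ← Ideal.span_singleton_pow]
    exact pow_dvd_pow_of_dvd (Ideal.dvd_span_singleton.2 hwP) 2
  have h1 : P ^ 2 ∣ Ideal.span {(p : 𝓞 F)} := hcop.pow_left.dvd_of_dvd_mul_right hsq
  obtain ⟨R, hR⟩ := Ideal.dvd_span_singleton.2 hpQ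
  have hRQ : ¬ R ≤ Q := by
    intro hle
    apply hp2
    rw [← Ideal.dvd_span_singleton, hR, sq]
    exact mul_dvd_mul_left Q (Ideal.dvd_iff_le.2 hle)
  have h2 : Ideal.span {(p : 𝓞 F)} = Q.map (algebraMap (𝓞 K) (𝓞 F)) *
      R.map (algebraMap (𝓞 K) (𝓞 F)) := by
    rw [← Ideal.map_mul, ← hR, Ideal.map_span, Set.image_singleton, map_natCast]
  have hcop2 := hcopr (R.map (algebraMap (𝓞 K) (𝓞 F))) (by
    intro h
    apply hRQ
    exact Ideal.map_le_iff_le_comap.1 h)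
  rw [h2] at h1
  exact hcop2.pow_left.dvd_of_dvd_mul_right h1

end

end Pool.Agent.Work.MuZ
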