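import Pool.Agent.Work.MP_a4986b_nt.ZRam
import Pool.Agent.Work.MP_a4986b_nt.ZMain

set_option autoImplicit false
set_option maxHeartbeats 400000
set_option linter.unusedSectionVars false

/-! # Quadratic extensions of totally real fields -/

namespace Pool.Agent.Work.MuZ

open NumberField Module NumberField.InfinitePlace NumberField.Units Polynomial
open Pool.Agent.Work.MuB Pool.Agent.Work.MuY

/-- square roots of totally positive elements -/
theorem sqrt_discr (K : Type) [Field K] [NumberField K] [IsTotallyReal K] (δ : 𝓞 K)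
    (hδ : ∀ φ : K →+* ℝ, 0 < φ δ) (F : Type) [Field F] [NumberField F] [Algebra K F]
    (h2 : finrank K F = 2) (z : F) (hz : z ^ 2 = algebraMap K F δ)
    (hzK : z ∉ Set.range (algebraMap K F)) :
    IsTotallyReal F ∧ |(discr F : ℝ)| ≤
      |(discr K : ℝ)| ^ 2 * 2 ^ (2 * finrank ℚ K) * |(Algebra.norm ℤ δ : ℝ)| := by
  have htop := adjoin_eq_top_of_prime (by rw [h2]; exact Nat.prime_two) z hzK
  refine ⟨totallyReal_of_sq (K := K) h2 δ hδ z hz htop, ?_⟩
  have hδ0 : δ ≠ 0 := by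
    rintro rfl
    apply hzK
    refine ⟨0, ?_⟩
    rw [map_zero]
    have h1 : z ^ 2 = 0 := by rw [hz]; simp
    exact (pow_eq_zero_iff two_ne_zero).1 h1 |>.symm
  have hzint : IsIntegral ℤ z := by
    refine IsIntegral.of_pow two_pos ?_
    rw [hz]
    exact (RingOfIntegers.isIntegral_coe δ).algebraMap
  obtain ⟨zz, hzz⟩ : ∃ zz : 𝓞 F, (zz : F) = z := ⟨⟨z, hzint⟩, rfl⟩
  have hzz2 : zz ^ 2 = algebraMap (𝓞 K) (𝓞 F) δ := by
    apply RingOfIntegers.ext
    have h1 : ((algebraMap (𝓞 K) (𝓞 F) δ : 𝓞 F) : F) = algebraMap K F (δ : K) := rfl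
    rw [h1, ← hz, ← hzz]
    simp
  have hirr : Irreducible (X ^ 2 - C (δ : K)) := by
    refine X_pow_sub_C_irreducible_of_prime Nat.prime_two ?_
    intro b hb
    apply hzK
    have h1 : z ^ 2 = (algebraMap K F b) ^ 2 := by rw [hz, ← hb, map_pow]
    rcases sq_eq_sq_iff_eq_or_eq_neg.1 h1 with h | h
    · exact ⟨b, h.symm⟩
    · exact ⟨-b, by rw [map_neg, h]⟩
  have hmin : minpoly K z = X ^ 2 - C (δ : K) := by
    symm
    refine minpoly.eq_of_irreducible_of_monic hirr ?_ (monic_X_pow_sub_C _ two_ne_zero)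
    simp [hz]
  have h3 := kum_discr Nat.prime_two K δ hδ0 F zz hzz2 h2 (by rw [hzz]; exact hmin)
    (by rw [hzz]; exact htop)
  have hF : finrank ℚ F = 2 * finrank ℚ K := by
    rw [← Module.finrank_mul_finrank ℚ K F, h2, mul_comm]
  rw [hF, show 2 - 1 = 1 from rfl, pow_one] at h3
  have h4 : ((discr F).natAbs : ℝ) ≤ ((discr K).natAbs : ℝ) ^ 2 * 2 ^ (2 * finrank ℚ K) *
      ((Algebra.norm ℤ δ).natAbs : ℝ) := by exact_mod_cast h3
  rwa [Nat.cast_natAbs, Nat.cast_natAbs, Nat.cast_natAbs, Int.cast_abs, Int.cast_abs,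
    Int.cast_abs] at h4

theorem rank_lower (K F : Type) [Field K] [NumberField K] [IsTotallyReal K] [Field F]
    [NumberField F] [Algebra K F] (h2 : finrank K F = 2) (F' : IntermediateField K F)
    (hF' : F' ≠ ⊤) : Units.rank F' = Units.rank K := by
  have hfin : Module.Finite K F := Module.Finite.of_restrictScalars_finite ℚ K F
  have h1 : finrank K F' = 1 := by
    have h3 := finrank_mul_finrank K F' F
    rw [h2] at h3
    have h4 : finrank K F' ∣ 2 := Dvd.intro _ h3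
    rcases (Nat.dvd_prime Nat.prime_two).1 h4 with h | h
    · exact h
    · exfalso
      apply hF'
      rw [← IntermediateField.finrank_eq_one_iff_eq_top]
      rw [h] at h3
      omega
  obtain ⟨hr1, hr2⟩ := rank_bounds_gen K 1 F' h1
  omega

/-- the discriminant condition -/
theorem sqrt_discrAt (K : Type) [Field K] [NumberField K] [IsTotallyReal K] {c : ℝ} {p : ℕ}
    (δ : 𝓞 K) (hδ : ∀ φ : K →+* ℝ, 0 < φ δ) (F : Type) [Field F] [NumberField F] [Algebra K F]
    (h2 : finrank K F = 2) (z : F) (hz : z ^ 2 = algebraMap K F δ)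
    (hzK : z ∉ Set.range (algebraMap K F))
    (h : |(discr K : ℝ)| ^ 2 * 2 ^ (2 * finrank ℚ K) * |(Algebra.norm ℤ δ : ℝ)| ≤
      c * (p : ℝ) ^ 2 * (1 + Real.log p) ^ (2 * (finrank ℚ K - 1))) : DiscrAt c 1 p K F := by
  obtain ⟨hreal, hD⟩ := sqrt_discr K δ hδ F h2 z hz hzK
  have hpos : 0 < finrank ℚ K := finrank_pos
  have hrK : Units.rank K = finrank ℚ K - 1 := rank_of_totallyReal K
  have hrF : Units.rank F = 2 * finrank ℚ K - 1 := by
    rw [rank_of_totallyReal, ← Module.finrank_mul_finrank ℚ K F, h2, mul_comm]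
  refine ⟨Units.rank K, by omega, fun F' hF' => (rank_lower K F h2 F' hF').le, ?_⟩
  refine hD.trans (h.trans (le_of_eq ?_))
  have he : 2 * ((Units.rank F : ℤ) - Units.rank K - finrank K F + 1) =
      ((2 * (finrank ℚ K - 1) : ℕ) : ℤ) := by
    rw [hrF, hrK, h2]
    push_cast [Nat.cast_sub hpos, Nat.cast_sub (by omega : 1 ≤ 2 * finrank ℚ K)]
    ring
  rw [he, zpow_natCast, mul_one]

/-- quadratic extensions of a totally real field -/
theorem real_sqrt (K : Type) [Field K] [NumberField K] [IsTotallyReal K] :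
    ∃ c : ℝ, 0 < c ∧ ∀ p : ℕ, p.Prime → p ≠ 2 → ∀ δ : 𝓞 K, (∀ φ : K →+* ℝ, 0 < φ δ) →
      |(Algebra.norm ℤ δ : ℝ)| ≤ c * (p : ℝ) ^ 2 * (1 + Real.log p) ^ (2 * (finrank ℚ K - 1)) →
      ∀ (F : Type) [Field F] [NumberField F] [Algebra K F] (z : F), finrank K F = 2 →
        z ^ 2 = algebraMap K F δ → z ∉ Set.range (algebraMap K F) → NonSplit p K F →
        RelExtensions p K F := by
  obtain ⟨c, hc, h⟩ := any_degree K 2
  set A : ℝ := |(discr K : ℝ)| ^ 2 * 2 ^ (2 * finrank ℚ K) with hA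
  have hd := one_le_abs_discr K
  have hA0 : 0 < A := by positivity
  refine ⟨c / A, div_pos hc hA0, fun p hp hp2 δ hδ hN F _ _ _ z h2 hz hzK hns => ?_⟩
  refine h F p hp hp2 h2 (sqrt_discrAt K δ hδ F h2 z hz hzK ?_) K hns
  calc A * |(Algebra.norm ℤ δ : ℝ)| ≤
        A * (c / A * (p : ℝ) ^ 2 * (1 + Real.log p) ^ (2 * (finrank ℚ K - 1))) := by gcongr
    _ = c * (p : ℝ) ^ 2 * (1 + Real.log p) ^ (2 * (finrank ℚ K - 1)) := by
      field_simp

/-- good primes -/
theorem good_prime (K : Type) [Field K] [NumberField K] :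
    ∃ c : ℝ, 0 < c ∧ ∀ p : ℕ, p.Prime → ∀ α : 𝓞 K, α ≠ 0 →
      |(Algebra.norm ℤ α : ℝ)| ≤ c * (1 + Real.log p) ^ 2 →
      ∀ Q : Ideal (𝓞 K), Q.IsPrime → (p : 𝓞 K) ∈ Q → α ∉ Q ∧ (p : 𝓞 K) ∉ Q ^ 2 := by
  have hd := one_le_abs_discr K
  set D : ℝ := |(discr K : ℝ)| with hD
  have hlD : 0 ≤ Real.log D := Real.log_nonneg hd
  set B : ℝ := (1 + Real.log D) ^ 2 with hB
  have hB0 : 0 < B := by positivity
  refine ⟨min (1 / 4) (1 / (2 * B)), lt_min (by norm_num) (by positivity),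
    fun p hp α hα hN Q hQ hpQ => ?_⟩
  have hp1 : (1 : ℝ) < p := by exact_mod_cast hp.one_lt
  have hlp : 0 ≤ Real.log p := Real.log_nonneg hp1.le
  have hN1 : (1 : ℝ) ≤ |(Algebra.norm ℤ α : ℝ)| := by
    have h1 : Algebra.norm ℤ α ≠ 0 := Algebra.norm_ne_zero_iff.2 hα
    exact_mod_cast Int.one_le_abs h1
  constructor
  · intro hαQ
    have hlie := liesOver_int hp Q hQ hpQ
    have h1 : Ideal.absNorm Q ∣ Ideal.absNorm (Ideal.span {α}) :=
      map_dvd Ideal.absNorm (Ideal.dvd_span_singleton.2 hαQ)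
    rw [Ideal.absNorm_span_singleton] at h1
    have h2 : p ∣ Ideal.absNorm Q := by
      rw [← Ideal.pow_inertiaDeg p Q]
      exact dvd_pow_self _ (Ideal.inertiaDeg_pos ..).ne'
    have h3 : 0 < (Algebra.norm ℤ α).natAbs := Int.natAbs_pos.2 (Algebra.norm_ne_zero_iff.2 hα)
    have h4 := Nat.le_of_dvd h3 (h2.trans h1)
    have h5 : (p : ℝ) ≤ |(Algebra.norm ℤ α : ℝ)| := by
      have h6 : (p : ℝ) ≤ ((Algebra.norm ℤ α).natAbs : ℝ) := by exact_mod_cast h4
      rwa [Nat.cast_natAbs, Int.cast_abs] at h6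
    have h6 : (p : ℝ) ≤ 1 / 4 * (1 + Real.log p) ^ 2 :=
      h5.trans (hN.trans (mul_le_mul_of_nonneg_right (min_le_left _ _) (by positivity)))
    have h7 : Real.log (√p) ≤ √p - 1 := Real.log_le_sub_one_of_pos (by positivity)
    rw [Real.log_sqrt (by linarith)] at h7
    have hs : √(p : ℝ) ^ 2 = p := Real.sq_sqrt (by linarith)
    have hs1 : 1 ≤ √(p : ℝ) := by rw [Real.one_le_sqrt]; exact hp1.le
    nlinarith
  · intro hpQ2
    have h1 := dvd_discr_of_sq K hp Q hQ hpQ2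
    have h2 : p ≤ (discr K).natAbs :=
      Nat.le_of_dvd (Int.natAbs_pos.2 (discr_ne_zero K)) (Int.natCast_dvd.1 h1)
    have h3 : (p : ℝ) ≤ D := by
      have h6 : (p : ℝ) ≤ ((discr K).natAbs : ℝ) := by exact_mod_cast h2
      rwa [Nat.cast_natAbs, Int.cast_abs] at h6
    have h4 : Real.log p ≤ Real.log D := Real.log_le_log (by linarith) h3
    have h5 : |(Algebra.norm ℤ α : ℝ)| ≤ 1 / (2 * B) * B := by
      refine hN.trans ?_
      have : (1 + Real.log p) ^ 2 ≤ B := pow_le_pow_left₀ (by linarith) (by linarith) 2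
      exact mul_le_mul (min_le_right _ _) this (by positivity) (by positivity)
    have h6 : 1 / (2 * B) * B = 1 / 2 := by field_simp
    linarith

/-- `K(√(p α))`, `K` real quadratic, `α` totally positive of small norm, any `p` -/
theorem real_quad_all (K : Type) [Field K] [NumberField K] (hK : finrank ℚ K = 2)
    (r : K →+* ℝ) :
    ∃ c : ℝ, 0 < c ∧ ∀ p : ℕ, p.Prime → p ≠ 2 → ∀ α : 𝓞 K, (∀ φ : K →+* ℝ, 0 < φ α) →
      |(Algebra.norm ℤ α : ℝ)| ≤ c * (1 + Real.log p) ^ 2 →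
      ∀ (F : Type) [Field F] [NumberField F] [Algebra K F] (z : F), finrank K F = 2 →
        z ^ 2 = algebraMap K F (p * α) → NonSplit p K F ∧ RelExtensions p K F := by
  have : IsTotallyReal K := totallyReal_of_real hK r
  obtain ⟨c1, hc1, h1⟩ := good_prime K
  obtain ⟨c2, hc2, h2⟩ := real_sqrt K
  refine ⟨min c1 c2, lt_min hc1 hc2, fun p hp hp2 α hα hN F _ _ _ z hF hz => ?_⟩
  have hα0 : α ≠ 0 := by
    rintro rfl
    have := hα r
    simp at this
  have hgood := h1 p hp α hα0 (hN.trans (mul_le_mul_of_nonneg_right (min_le_left _ _)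
    (by positivity)))
  have hpα : ((p : 𝓞 K) * α : 𝓞 K) = ((p : 𝓞 K) * α) := rfl
  have hzint : IsIntegral ℤ z := by
    refine IsIntegral.of_pow two_pos ?_
    rw [hz]
    have h3 : (algebraMap K F) (p * α) = algebraMap K F (((p : 𝓞 K) * α : 𝓞 K) : K) := by simp
    rw [h3]
    exact (RingOfIntegers.isIntegral_coe ((p : 𝓞 K) * α)).algebraMap
  obtain ⟨zz, hzz⟩ : ∃ zz : 𝓞 F, (zz : F) = z := ⟨⟨z, hzint⟩, rfl⟩
  have hzz2 : zz ^ 2 = algebraMap (𝓞 K) (𝓞 F) ((p : 𝓞 K) * α) := by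
    apply RingOfIntegers.ext
    have h3 : ((algebraMap (𝓞 K) (𝓞 F) ((p : 𝓞 K) * α) : 𝓞 F) : F) =
      algebraMap K F (((p : 𝓞 K) * α : 𝓞 K) : K) := rfl
    rw [h3]
    refine Eq.trans (by simp [hzz]) (hz.trans (by simp))
  have hram : ∀ P : Ideal (𝓞 F), P.IsPrime → (p : 𝓞 F) ∈ P →
      P ^ 2 ∣ (P.under (𝓞 K)).map (algebraMap (𝓞 K) (𝓞 F)) ∧ 1 ≤ P.inertiaDeg (𝓞 K) := by
    intro P hP hpP
    have hQ : (P.under (𝓞 K)).IsPrime := Ideal.IsPrime.under (𝓞 K) P
    have hpQ : (p : 𝓞 K) ∈ P.under (𝓞 K) := by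
      rw [Ideal.under_def, Ideal.mem_comap, map_natCast]
      exact hpP
    obtain ⟨g1, g2⟩ := hgood _ hQ hpQ
    exact ⟨ram_sq hp α zz hzz2 P hP hpP g1 g2, Ideal.inertiaDeg_pos ..⟩
  have hns : NonSplit p K F := fun P1 P2 hP1 hP2 hp1 hp2 h12 =>
    unique_above hp (e := 2) (g := 1) (by rw [hF]; norm_num) P1 P2 hP1 hP2 hp1 hp2 h12
      (hram P1 hP1 hp1) (hram P2 hP2 hp2)
  refine ⟨hns, ?_⟩
  -- `z` is not in `K`
  have hzK : z ∉ Set.range (algebraMap K F) := by
    rintro ⟨y, hy⟩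
    have hyint : IsIntegral ℤ y := by
      have h3 : IsIntegral ℤ (algebraMap K F y) := by rw [hy]; exact hzint
      exact (isIntegral_algebraMap_iff (algebraMap K F).injective).mp h3
    obtain ⟨yy, hyy⟩ : ∃ yy : 𝓞 K, (yy : K) = y := ⟨⟨y, hyint⟩, rfl⟩
    have hy2 : yy ^ 2 = (p : 𝓞 K) * α := by
      apply RingOfIntegers.ext
      apply (algebraMap K F).injective
      have h3 : algebraMap K F (y ^ 2) = algebraMap K F (p * α) := by
        rw [map_pow, hy, hz]
      rw [← hyy] at h3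
      simpa using h3
    obtain ⟨Q, hQm, hle⟩ := Ideal.exists_le_maximal (Ideal.span {(p : 𝓞 K)}) (by
      intro h3
      have h4 := absNorm_span_nat (F := K) p
      rw [h3, Ideal.absNorm_top, hK] at h4
      have := Nat.one_lt_pow two_ne_zero hp.one_lt
      omega)
    have hpQ : (p : 𝓞 K) ∈ Q := hle (Ideal.mem_span_singleton_self _)
    obtain ⟨g1, g2⟩ := hgood Q hQm.isPrime hpQ
    have hyQ : yy ∈ Q := by
      refine hQm.isPrime.mem_of_pow_mem 2 ?_
      rw [hy2]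
      exact Q.mul_mem_right _ hpQ
    apply g2
    have h3 : (p : 𝓞 K) * α ∈ Q ^ 2 := by
      rw [← hy2]
      exact Ideal.pow_mem_pow hyQ 2
    have hcop : IsCoprime Q (Ideal.span {α}) := by
      rw [Ideal.isCoprime_iff_sup_eq]
      by_contra h
      have h6 : Q = Q ⊔ Ideal.span {α} := hQm.eq_of_le h le_sup_left
      apply g1
      rw [h6]
      exact Ideal.mem_sup_right (Ideal.mem_span_singleton_self _)
    rw [← Ideal.dvd_span_singleton, ← Ideal.span_singleton_mul_span_singleton] at h3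
    exact Ideal.dvd_span_singleton.1 (hcop.pow_left.dvd_of_dvd_mul_right h3)
  refine h2 p hp hp2 (p * α) (fun φ => ?_) ?_ F z hF (by rw [hz]; simp) hzK hns
  · have h3 : (((p : 𝓞 K) * α : 𝓞 K) : K) = (p : K) * α := by simp
    rw [h3, map_mul, map_natCast]
    exact mul_pos (by exact_mod_cast hp.pos) (hα φ)
  · rw [map_mul, Algebra.norm_natCast, RingOfIntegers.rank, hK]
    push_cast
    rw [abs_mul, abs_of_nonneg (by positivity : (0 : ℝ) ≤ (p : ℝ) ^ 2)]
    calc (p : ℝ) ^ 2 * |(Algebra.norm ℤ α : ℝ)| ≤ (p : ℝ) ^ 2 * (c2 * (1 + Real.log p) ^ 2) := by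
          refine mul_le_mul_of_nonneg_left (hN.trans ?_) (by positivity)
          exact mul_le_mul_of_nonneg_right (min_le_right _ _) (by positivity)
      _ = _ := by ring

end Pool.Agent.Work.MuZ
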